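import Pool.Agent.GMN.TjSide

/-!
# GMN/TjVer (helper14): versions of a moving coin free function

`mvc f` = number of moves up to the time, `Vr f Y v` = the `v`-th version of `f / Y` (`0` before the `v`-th move, static after
it): a numbered function.  `f = Y * Vr f Y (mvc f)`.
-/

set_option autoImplicit false
set_option linter.unusedSectionVars false

namespace Pool.Agent.GMN

open Finset Pool.Agent.PWZ Pool.Agent.M3 Pool.Agent.M3.TS Pool.Agent.GM

noncomputable section

variable {ι Om Ξ Pt V Γ κ : Type} [Fintype ι] [DecidableEq ι] [Fintype Om] [Fintype Ξ] [Fintype Pt]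
    [Fintype V] (G : Sys ι Om Ξ Pt V Γ κ) (f : Fn ι Pt V Γ) (Y : ℝ)

open Classical in
/-- number of moves -/
def mvc : ℕ → Γ → (ι → Pt) → ℕ
  | 0, _, _ => 0
  | t + 1, g, x => mvc t (G.par t g) x + if f (t + 1) g x ≠ f t (G.par t g) x then 1 else 0

open Classical in
/-- the `v`-th version -/
def Vr (v : ℕ) : Fn ι Pt V Γ
  | 0, _, _, _ => 0
  | t + 1, g, x, d => if v ≤ mvc G f t (G.par t g) x then Vr v t (G.par t g) x d
    else if v ≤ mvc G f (t + 1) g x then f (t + 1) g x d / Y else 0

theorem mvc_succ (t : ℕ) (g : Γ) (x : ι → Pt) : mvc G f t (G.par t g) x ≤ mvc G f (t + 1) g x := by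
  show _ ≤ mvc G f t (G.par t g) x + _
  exact Nat.le_add_right _ _

theorem Vr_zero_of_lt {v t : ℕ} {g : Γ} {x : ι → Pt} (h : mvc G f t g x < v) : Vr G f Y v t g x = 0 := by
  cases t with
  | zero => rfl
  | succ t =>
    funext d
    have h1 := mvc_succ G f t g x
    show (if v ≤ mvc G f t (G.par t g) x then Vr G f Y v t (G.par t g) x d
      else if v ≤ mvc G f (t + 1) g x then f (t + 1) g x d / Y else 0) = 0
    rw [if_neg (by omega), if_neg (by omega)]

/-- the current version -/
theorem Vr_mvc (hY : 0 < Y) (h0 : ∀ g x d, f 0 g x d = 0) (t : ℕ) (g : Γ) (x : ι → Pt) (d : V) :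
    f t g x d = Y * Vr G f Y (mvc G f t g x) t g x d := by
  induction t generalizing g with
  | zero =>
    rw [h0]
    show 0 = Y * 0
    rw [mul_zero]
  | succ t ih =>
    show _ = Y * (if mvc G f (t + 1) g x ≤ mvc G f t (G.par t g) x then
      Vr G f Y (mvc G f (t + 1) g x) t (G.par t g) x d
      else if mvc G f (t + 1) g x ≤ mvc G f (t + 1) g x then f (t + 1) g x d / Y else 0)
    by_cases h : f (t + 1) g x ≠ f t (G.par t g) x
    · have h1 : mvc G f (t + 1) g x = mvc G f t (G.par t g) x + 1 := by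
        show _ + _ = _
        rw [if_pos h]
      rw [if_neg (by omega), if_pos le_rfl]
      field_simp
    · have h1 : mvc G f (t + 1) g x = mvc G f t (G.par t g) x := by
        show _ + _ = _
        rw [if_neg h, add_zero]
      rw [if_pos (by omega), h1, ← ih]
      exact congrFun (not_not.1 h) d

theorem mvc_dep {w : ι} (hf : ∀ t g, Dep (univ.erase w) (f t g)) (t : ℕ) (g : Γ) :
    Dep (univ.erase w) (mvc G f t g) := by
  induction t generalizing g with
  | zero => exact fun _ _ _ => rfl
  | succ t ih =>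
    intro x y h
    show mvc G f t (G.par t g) x + _ = mvc G f t (G.par t g) y + _
    rw [ih (G.par t g) x y h, hf (t + 1) g x y h, hf t (G.par t g) x y h]

theorem Vr_dep {w : ι} (hf : ∀ t g, Dep (univ.erase w) (f t g)) (v t : ℕ) (g : Γ) :
    Dep (univ.erase w) (Vr G f Y v t g) := by
  induction t generalizing g with
  | zero => exact fun _ _ _ => rfl
  | succ t ih =>
    intro x y h
    funext d
    show (if v ≤ mvc G f t (G.par t g) x then Vr G f Y v t (G.par t g) x d
      else if v ≤ mvc G f (t + 1) g x then f (t + 1) g x d / Y else 0) =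
      if v ≤ mvc G f t (G.par t g) y then Vr G f Y v t (G.par t g) y d
      else if v ≤ mvc G f (t + 1) g y then f (t + 1) g y d / Y else 0
    rw [mvc_dep G f hf t (G.par t g) x y h, mvc_dep G f hf (t + 1) g x y h, ih (G.par t g) x y h,
      hf (t + 1) g x y h]

/-- **the versions are numbered functions** -/
theorem NF_Vr {w : ι} (hY : 0 < Y) (hf : ∀ t g, Dep (univ.erase w) (f t g)) (hb : ∀ t g x d, |f t g x d| ≤ Y) (v : ℕ) :
    NF G w (Vr G f Y v) where
  dep := Vr_dep G f Y hf v
  bd t := by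
    induction t with
    | zero =>
      intro g x d
      show |(0 : ℝ)| ≤ 1
      simp
    | succ t ih =>
      intro g x d
      show |if v ≤ mvc G f t (G.par t g) x then Vr G f Y v t (G.par t g) x d
        else if v ≤ mvc G f (t + 1) g x then f (t + 1) g x d / Y else 0| ≤ 1
      split_ifs
      · exact ih _ _ _
      · rw [abs_div, abs_of_pos hY, div_le_one hY]
        exact hb _ _ _ _
      · simp
  zero _ _ _ := rfl
  intro t ω := by
    by_cases h : v ≤ mvc G f t (G.gm t ω) (G.x ω)
    · left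
      funext d
      show (if v ≤ mvc G f t (G.par t (G.gm (t + 1) ω)) (G.x ω) then
        Vr G f Y v t (G.par t (G.gm (t + 1) ω)) (G.x ω) d
        else if v ≤ mvc G f (t + 1) (G.gm (t + 1) ω) (G.x ω) then f (t + 1) (G.gm (t + 1) ω) (G.x ω) d / Y else 0) =
        Vr G f Y v t (G.gm t ω) (G.x ω) d
      rw [G.par_gm, if_pos h]
    · right
      exact Vr_zero_of_lt G f Y (not_le.1 h)

/-- number of moves at the sample point -/
theorem mvc_eq (t : ℕ) (ω : Om) : (mvc G f t (G.gm t ω) (G.x ω) : ℝ) =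
    ∑ s ∈ range t, ind (val0 G f (s + 1) ω ≠ val0 G f s ω) := by
  classical
  induction t with
  | zero => simp [mvc]
  | succ t ih =>
    rw [Finset.sum_range_succ, ← ih]
    have h : mvc G f (t + 1) (G.gm (t + 1) ω) (G.x ω) = mvc G f t (G.gm t ω) (G.x ω) +
        if val0 G f (t + 1) ω ≠ val0 G f t ω then 1 else 0 := by
      show mvc G f t (G.par t (G.gm (t + 1) ω)) (G.x ω) + (if f (t + 1) (G.gm (t + 1) ω) (G.x ω) ≠
        f t (G.par t (G.gm (t + 1) ω)) (G.x ω) then 1 else 0) = _
      rw [G.par_gm]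
      rfl
    rw [h]
    push_cast
    congr 1
    by_cases h1 : val0 G f (t + 1) ω ≠ val0 G f t ω
    · rw [if_pos h1, ind_of h1]
    · rw [if_neg h1, ind_not h1]

theorem mvc_mono {s t : ℕ} (h : s ≤ t) (ω : Om) :
    mvc G f s (G.gm s ω) (G.x ω) ≤ mvc G f t (G.gm t ω) (G.x ω) := by
  induction t, h using Nat.le_induction with
  | base => exact le_rfl
  | succ t _ ih =>
    refine ih.trans ?_
    have := mvc_succ G f t (G.gm (t + 1) ω) (G.x ω)
    rwa [G.par_gm] at this

/-- **the number of versions** -/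
theorem mvc_tail {w : ι} {m : ℝ} (hm : MV G w (lft f) m) {M : ℝ} (hM : 0 < M) :
    G.P.Pr (fun ω => M ≤ (mvc G f G.n (G.gm G.n ω) (G.x ω) : ℝ)) ≤ m / M := by
  have h1 := hm 0 (Nat.zero_le _) (fun _ => 1) (Fac.const _ _) (fun _ => zero_le_one)
  have h2 : G.P.E (fun ω => (mvc G f G.n (G.gm G.n ω) (G.x ω) : ℝ)) ≤ m := by
    rw [G.P.E_const, mul_one] at h1
    refine le_trans (le_of_eq (G.P.E_congr fun ω _ => ?_)) h1
    rw [mvc_eq, one_mul, ← Finset.range_eq_Ico]
    rfl
  rw [le_div_iff₀ hM, mul_comm]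
  exact (G.P.markov (fun ω _ => Nat.cast_nonneg _) M).trans h2

end

end Pool.Agent.GMN
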