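import Pool.Agent.GMN.State

/-!
# GMN/Ext (helper13): more coins

`coinFP P Ξ2` = product of `P` with the uniform law on `Ξ2`;
`Sys.addCoins S Ξ2` = the system `S` with the additional coins `Ξ2` (independent of everything);
`CExt S S'` = `S'` is `S` with more coins (reflexive, transitive, `CExt.add`);
lifts of numbered functions, lists, states, bounds, forms.
-/

set_option autoImplicit false
set_option linter.unusedSectionVars false

namespace Pool.Agent.GMN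

open Finset Pool.Agent.PWZ Pool.Agent.M3 Pool.Agent.M3.TS Pool.Agent.GM

noncomputable section

section coin

variable {Om : Type} [Fintype Om] (P : FP Om) (Ξ2 : Type) [Fintype Ξ2] [Nonempty Ξ2]

theorem cX2 : (0 : ℝ) < Fintype.card Ξ2 := by exact_mod_cast Fintype.card_pos

/-- product with uniform coins -/
def coinFP : FP (Om × Ξ2) where
  p w := P.p w.1 / Fintype.card Ξ2
  nn w := div_nonneg (P.nn _) (Nat.cast_nonneg _)
  tot := by
    rw [Fintype.sum_prod_type]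
    have h := (cX2 Ξ2).ne'
    have h1 : ∀ x : Om, ∑ _y : Ξ2, P.p x / (Fintype.card Ξ2 : ℝ) = P.p x := by
      intro x
      rw [Finset.sum_const, nsmul_eq_mul, Finset.card_univ]
      field_simp
    rw [Finset.sum_congr rfl fun x _ => h1 x, P.tot]

theorem coinFP_E (f : Om × Ξ2 → ℝ) :
    (coinFP P Ξ2).E f = P.E (fun w => (∑ z, f (w, z)) / Fintype.card Ξ2) := by
  unfold FP.E
  rw [Fintype.sum_prod_type]
  refine Finset.sum_congr rfl fun w _ => ?_
  show ∑ z, P.p w / (Fintype.card Ξ2 : ℝ) * f (w, z) = _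
  rw [← Finset.mul_sum]
  ring

theorem coinFP_E_fst (f : Om → ℝ) : (coinFP P Ξ2).E (fun w => f w.1) = P.E f := by
  rw [coinFP_E]
  refine P.E_congr fun w _ => ?_
  have h := (cX2 Ξ2).ne'
  show (∑ _z : Ξ2, f w) / (Fintype.card Ξ2 : ℝ) = f w
  rw [Finset.sum_const, nsmul_eq_mul, Finset.card_univ]
  field_simp

theorem coinFP_Pr_fst (s : Om → Prop) : (coinFP P Ξ2).Pr (fun w => s w.1) = P.Pr s :=
  coinFP_E_fst P Ξ2 fun w => ind (s w)

theorem coinFP_Pr_snd (z : Ξ2) (s : Om → Prop) :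
    (coinFP P Ξ2).Pr (fun w => w.2 = z ∧ s w.1) = P.Pr s / Fintype.card Ξ2 := by
  classical
  unfold FP.Pr
  rw [coinFP_E, ← P.E_div_const]
  refine P.E_congr fun w _ => ?_
  congr 1
  rw [Finset.sum_eq_single z]
  · congr 1
    apply propext
    simp
  · intro b _ hb
    exact ind_not fun h => hb h.1
  · exact fun h => absurd (mem_univ z) h

theorem coinFP_Pr_pair {α : Type} (X : Om → α) (ξ : α × Ξ2) (s : Om → Prop) :
    (coinFP P Ξ2).Pr (fun w => (X w.1, w.2) = ξ ∧ s w.1) =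
      P.Pr (fun w => X w = ξ.1 ∧ s w) / Fintype.card Ξ2 := by
  rw [← coinFP_Pr_snd P Ξ2 ξ.2]
  refine FP.Pr_congr _ fun w _ => ?_
  rw [Prod.ext_iff]
  constructor
  · rintro ⟨⟨h1, h2⟩, h3⟩
    exact ⟨h2, h1, h3⟩
  · rintro ⟨h2, h1, h3⟩
    exact ⟨⟨h1, h2⟩, h3⟩

end coin

variable {ι Om Ξ Pt V Γ κ : Type} [Fintype ι] [DecidableEq ι] [Fintype Om] [Fintype Ξ] [Fintype Pt]
  [Fintype V]

/-- the numbers of the form are introduced at the true point -/
def NSt.On {S : Sys ι Om Ξ Pt V Γ κ} {a : ι} (σ : NSt S a) (dead : ℕ → Om → Prop) : Prop :=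
  ∀ t ≤ S.n, ∀ w, ¬ dead t w → ∀ ζ ∈ σ.Z.at' t w, ∀ ν ∈ σ.fams t w, σ.h.on (σ.hn ζ ν) t w

/-- the system with the additional coins `Ξ2` -/
def addCoins (S : Sys ι Om Ξ Pt V Γ κ) (Ξ2 : Type) [Fintype Ξ2] [Nonempty Ξ2] :
    Sys ι (Om × Ξ2) (Ξ × Ξ2) Pt V Γ κ where
  P := coinFP S.P Ξ2
  xi w := (S.xi w.1, w.2)
  x w := S.x w.1
  n := S.n
  gm t w := S.gm t w.1
  par := S.par
  cl := S.cl
  ρ := S.ρ
  J t w := S.J t w.1
  near := S.near
  K := S.K
  K1 := S.K1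
  ppos w := div_ne_zero (S.ppos w.1) (cX2 Ξ2).ne'
  par_gm t w := S.par_gm t w.1
  wt := S.wt
  Jwt t w := S.Jwt t w.1
  near0 := S.near0
  Jnear t w := S.Jnear t w.1
  law t g i ξ y := by
    have h1 := coinFP_Pr_pair S.P Ξ2 S.xi ξ (fun w => (∀ j, j ≠ i → S.x w j = y j) ∧ S.gm t w = g)
    have h2 := coinFP_Pr_fst S.P Ξ2 (fun w => S.gm t w = g)
    rw [h1, h2, S.law t g i ξ.1 y, Fintype.card_prod]
    push_cast
    have h3 := (cX2 Ξ2).ne'
    rw [div_div]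
    congr 1
    ring
  lxi t g ξ y := by
    have h1 := coinFP_Pr_pair S.P Ξ2 S.xi ξ (fun w => S.x w = y ∧ S.gm t w = g)
    have h2 := coinFP_Pr_fst S.P Ξ2 (fun w => S.x w = y ∧ S.gm t w = g)
    rw [h1, h2, S.lxi t g ξ.1 y, Fintype.card_prod]
    push_cast
    rw [div_div]
  mart t g v := by
    have h1 := coinFP_E_fst S.P Ξ2 (fun w => ind (S.gm t w = g) * S.ρ (t + 1) (S.gm (t + 1) w) v)
    have h2 := coinFP_Pr_fst S.P Ξ2 (fun w => S.gm t w = g)
    rw [h1, h2, S.mart t g v]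
  nest := S.nest
  one t w := S.one t w.1
  nu t i w := by
    obtain ⟨s, h1, h2⟩ := S.nu t i w.1
    exact ⟨s, h1, fun w' h3 h4 => h2 w'.1 h3 h4⟩
  cnt t g A y j β hj hl := by
    have h := S.cnt t g A y j β hj hl
    have h1 := coinFP_Pr_fst S.P Ξ2 (fun w => (∀ i ∈ A, S.x w i = y i) ∧ S.gm t w = g ∧
      ∃ w', (∀ i ∈ A, S.cl t (S.x w' i) = S.cl t (y i)) ∧ S.cl t (S.x w' j) = β ∧
        (∀ i, i ∉ A → i ≠ j → S.cl t (S.x w' i) = S.cl t (S.x w i)) ∧ S.gm t w' = g)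
    have h2 := coinFP_Pr_fst S.P Ξ2 (fun w => (∀ i ∈ A, S.x w i = y i) ∧ S.gm t w = g ∧ S.cl t (S.x w j) = β)
    rw [← h1, ← h2] at h
    refine le_trans (FP.Pr_mono _ fun w _ => ?_) h
    rintro ⟨h3, h4, w', h5⟩
    exact ⟨h3, h4, w'.1, h5⟩
  edge t g B ξ y E δ hδ hE := by
    have h1 := coinFP_Pr_pair S.P Ξ2 S.xi ξ (fun w => (∀ i, i ∉ B → S.x w i = y i) ∧ S.gm t w = g ∧ E (S.x w))
    have h2 := coinFP_Pr_pair S.P Ξ2 S.xi ξ (fun w => (∀ i, i ∉ B → S.x w i = y i) ∧ S.gm t w = g)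
    rw [h1, h2, ← mul_div_assoc]
    refine div_le_div_of_nonneg_right ?_ (cX2 Ξ2).le
    obtain ⟨z⟩ : Nonempty Ξ2 := inferInstance
    exact S.edge t g B ξ.1 y E δ hδ fun w' h3 h4 => hE (w', z) h3 h4

/-- `S'` is `S` with more coins -/
structure CExt {Om' Ξ' : Type} [Fintype Om'] [Fintype Ξ'] (S : Sys ι Om Ξ Pt V Γ κ)
    (S' : Sys ι Om' Ξ' Pt V Γ κ) where
  /-- projection of the sample space -/
  pi : Om' → Om
  /-- projection of the coins -/
  pc : Ξ' → Ξ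
  E : ∀ f : Om → ℝ, S'.P.E (fun w => f (pi w)) = S.P.E f
  x : ∀ w, S'.x w = S.x (pi w)
  xi : ∀ w, S.xi (pi w) = pc (S'.xi w)
  n : S'.n = S.n
  gm : ∀ t w, S'.gm t w = S.gm t (pi w)
  par : S'.par = S.par
  cl : S'.cl = S.cl
  ρ : S'.ρ = S.ρ
  J : ∀ t w, S'.J t w = S.J t (pi w)
  near : S'.near = S.near
  K : S'.K = S.K

namespace CExt

variable {Om' Ξ' Om'' Ξ'' : Type} [Fintype Om'] [Fintype Ξ'] [Fintype Om''] [Fintype Ξ'']
  {S : Sys ι Om Ξ Pt V Γ κ} {S' : Sys ι Om' Ξ' Pt V Γ κ} {S'' : Sys ι Om'' Ξ'' Pt V Γ κ}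

/-- no new coins -/
def refl (S : Sys ι Om Ξ Pt V Γ κ) : CExt S S where
  pi w := w
  pc ξ := ξ
  E _ := rfl
  x _ := rfl
  xi _ := rfl
  n := rfl
  gm _ _ := rfl
  par := rfl
  cl := rfl
  ρ := rfl
  J _ _ := rfl
  near := rfl
  K := rfl

/-- twice more coins -/
def trans (e : CExt S S') (e' : CExt S' S'') : CExt S S'' where
  pi w := e.pi (e'.pi w)
  pc ξ := e.pc (e'.pc ξ)
  E f := by
    have h := e'.E (fun w => f (e.pi w))
    rw [h, e.E]
  x w := by rw [e'.x, e.x]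
  xi w := by rw [e.xi, e'.xi]
  n := by rw [e'.n, e.n]
  gm t w := by rw [e'.gm, e.gm]
  par := by rw [e'.par, e.par]
  cl := by rw [e'.cl, e.cl]
  ρ := by rw [e'.ρ, e.ρ]
  J t w := by rw [e'.J, e.J]
  near := by rw [e'.near, e.near]
  K := by rw [e'.K, e.K]

/-- the coins `Ξ2` -/
def add (S : Sys ι Om Ξ Pt V Γ κ) (Ξ2 : Type) [Fintype Ξ2] [Nonempty Ξ2] : CExt S (addCoins S Ξ2) where
  pi w := w.1
  pc ξ := ξ.1
  E f := coinFP_E_fst S.P Ξ2 f
  x _ := rfl
  xi _ := rfl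
  n := rfl
  gm _ _ := rfl
  par := rfl
  cl := rfl
  ρ := rfl
  J _ _ := rfl
  near := rfl
  K := rfl

theorem Pr (e : CExt S S') (s : Om → Prop) : S'.P.Pr (fun w => s (e.pi w)) = S.P.Pr s :=
  e.E fun w => ind (s w)

/-- numbered functions -/
def num (e : CExt S S') {α : Type} {I : Finset ι} (A : NumF S α I) : NumF S' α I where
  inn := A.inn
  f := A.f
  inn_dep := A.inn_dep
  f_dep := A.f_dep
  le1 := A.le1
  zero := A.zero
  keep ν t g x h := A.keep ν t g x (by rw [← e.par]; exact h)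
  stat ν t g x h := by
    rw [e.par] at h ⊢
    exact A.stat ν t g x h

theorem num_at (e : CExt S S') {α : Type} {I : Finset ι} (A : NumF S α I) (ν : α) (t : ℕ) (w : Om') :
    (e.num A).at' ν t w = A.at' ν t (e.pi w) := by
  show A.f ν t (S'.gm t w) (S'.x w) = A.f ν t (S.gm t (e.pi w)) (S.x (e.pi w))
  rw [e.gm, e.x]

theorem depC (e : CExt S S') {t : ℕ} {I J : Finset ι} {β : Type} {f : (ι → Pt) → β} :
    DepC S t I J f ↔ DepC S' t I J f := by
  unfold DepC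
  rw [e.cl]

/-- public sets -/
def pst (e : CExt S S') {l : ι} (A : PSt S l) : PSt S' l where
  L := A.L
  dep := A.dep
  mono t g x := by
    rw [e.par]
    exact A.mono t g x

theorem pst_at (e : CExt S S') {l : ι} (A : PSt S l) (t : ℕ) (w : Om') :
    (e.pst A).at' t w = A.at' t (e.pi w) := by
  show A.L t (S'.gm t w) (S'.x w) = A.L t (S.gm t (e.pi w)) (S.x (e.pi w))
  rw [e.gm, e.x]

/-- box sets -/
def bst (e : CExt S S') {u l : ι} (A : BSt S u l) : BSt S' u l where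
  L := A.L
  dep t g := e.depC.1 (A.dep t g)
  mono t g x := by
    rw [e.par]
    exact A.mono t g x

theorem bst_at (e : CExt S S') {u l : ι} (A : BSt S u l) (t : ℕ) (w : Om') :
    (e.bst A).at' t w = A.at' t (e.pi w) := by
  show A.L t (S'.gm t w) (S'.x w) = A.L t (S.gm t (e.pi w)) (S.x (e.pi w))
  rw [e.gm, e.x]

/-- lists -/
def lst (e : CExt S S') {I : Finset ι} (A : Lst S I) : Lst S' I where
  L t g ξ x := A.L t g (e.pc ξ) x
  dep t g ξ := A.dep t g (e.pc ξ)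
  mono t g ξ x := by
    rw [e.par]
    exact A.mono t g (e.pc ξ) x

theorem lst_at (e : CExt S S') {I : Finset ι} (A : Lst S I) (t : ℕ) (w : Om') :
    (e.lst A).at' t w = A.at' t (e.pi w) := by
  show A.L t (S'.gm t w) (e.pc (S'.xi w)) (S'.x w) = A.L t (S.gm t (e.pi w)) (S.xi (e.pi w)) (S.x (e.pi w))
  rw [e.gm, e.x, e.xi]

variable {a : ι}

/-- states -/
def st (e : CExt S S') (σ : NSt S a) : NSt S' a where
  Z := e.lst σ.Z
  Lam u := e.lst (σ.Lam u)
  PZ := e.pst σ.PZ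
  PS u := e.pst (σ.PS u)
  pu := σ.pu
  tr := σ.tr
  PT u l := e.bst (σ.PT u l)
  bb := σ.bb
  wh := σ.wh
  W := σ.W
  h := e.num σ.h
  X u w := e.num (σ.X u w)
  F u := e.num (σ.F u)
  c := σ.c

theorem st_lists (e : CExt S S') (σ : NSt S a) (t : ℕ) (w : Om') :
    (e.st σ).lists t w = σ.lists t (e.pi w) := by
  funext u
  exact e.lst_at (σ.Lam u) t w

theorem st_Z (e : CExt S S') (σ : NSt S a) (t : ℕ) (w : Om') :
    (e.st σ).Z.at' t w = σ.Z.at' t (e.pi w) := e.lst_at σ.Z t w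

theorem st_fams (e : CExt S S') (σ : NSt S a) (t : ℕ) (w : Om') :
    (e.st σ).fams t w = σ.fams t (e.pi w) := by
  unfold NSt.fams
  rw [e.st_lists]

theorem st_bls (e : CExt S S') (σ : NSt S a) (t : ℕ) (w : Om') :
    (e.st σ).bls t w = σ.bls t (e.pi w) := by
  funext u
  show ((e.st σ).lists t w u).image (σ.bb u) = _
  rw [e.st_lists]
  rfl

theorem st_cf (e : CExt S S') (σ : NSt S a) (t : ℕ) (w : Om') :
    (e.st σ).cf t w = σ.cf t (e.pi w) := by
  funext ζ ν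
  show σ.c ((e.st σ).Z.at' t w) ((e.st σ).bls t w) ζ (fun u => σ.bb u (ν u)) = _
  rw [e.st_Z, e.st_bls]
  rfl

theorem st_fac (e : CExt S S') (σ : NSt S a) (u : ι) (ν : ℕ) (t : ℕ) (w : Om') :
    (e.st σ).fac u ν t w = σ.fac u ν t (e.pi w) := by
  funext d
  have h1 : (e.st σ).F u = e.num (σ.F u) := rfl
  have h2 : ∀ v, (e.st σ).X u v = e.num (σ.X u v) := fun _ => rfl
  have h3 : (e.st σ).W u = σ.W u := rfl
  unfold NSt.fac
  by_cases h : σ.wh u
  · rw [if_pos (show (e.st σ).wh u from h), if_pos h, h1, e.num_at]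
  · rw [if_neg (show ¬ (e.st σ).wh u from h), if_neg h, h3]
    exact Finset.prod_congr rfl fun v _ => by
      rw [h2, e.num_at]
      rfl

theorem st_val (e : CExt S S') (σ : NSt S a) (t : ℕ) (w : Om') :
    (e.st σ).val t w = σ.val t (e.pi w) := by
  funext d
  unfold NSt.val
  rw [e.st_Z, e.st_fams, e.st_cf]
  refine Finset.sum_congr rfl fun ζ _ => Finset.sum_congr rfl fun ν _ => ?_
  have h1 : (e.st σ).h.at' ((e.st σ).hn ζ ν) t w d = σ.h.at' (σ.hn ζ ν) t (e.pi w) d := by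
    show (e.num σ.h).at' (σ.hn ζ ν) t w d = _
    rw [e.num_at]
  rw [h1]
  congr 1
  exact Finset.prod_congr rfl fun u _ => by rw [e.st_fac]

theorem st_T (e : CExt S S') (σ : NSt S a) (t : ℕ) (w : Om') :
    (e.st σ).T t w = σ.T t (e.pi w) := by
  unfold NSt.T
  rw [e.st_val, e.J]

theorem st_Bd (e : CExt S S') {σ : NSt S a} {n B : ℕ} {A : ℝ} {dead : ℕ → Om → Prop}
    (h : σ.Bd n B A dead) : (e.st σ).Bd n B A (fun t w => dead t (e.pi w)) where
  inc t w := h.inc t (e.pi w)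
  cardZ t ht w hw := by
    rw [e.st_Z]
    exact h.cardZ t (by rw [← e.n]; exact ht) _ hw
  subZ t ht w hw := by
    rw [e.st_Z]
    show _ ⊆ (e.pst σ.PZ).at' t w
    rw [e.pst_at]
    exact h.subZ t (by rw [← e.n]; exact ht) _ hw
  numZ t ht w hw := by
    show ((e.pst σ.PZ).at' t w).card ≤ B
    rw [e.pst_at]
    exact h.numZ t (by rw [← e.n]; exact ht) _ hw
  card t ht w hw u hu := by
    rw [e.st_lists]
    exact h.card t (by rw [← e.n]; exact ht) _ hw u hu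
  sub t ht w hw u hu hp := by
    rw [e.st_lists]
    show _ ⊆ (e.pst (σ.PS u)).at' t w
    rw [e.pst_at]
    exact h.sub t (by rw [← e.n]; exact ht) _ hw u hu hp
  num t ht w hw u hu hp := by
    show ((e.pst (σ.PS u)).at' t w).card ≤ B
    rw [e.pst_at]
    exact h.num t (by rw [← e.n]; exact ht) _ hw u hu hp
  subT t ht w hw u hu l hl := by
    rw [e.st_lists]
    show ∀ ν ∈ _, _ ∈ (e.bst (σ.PT u l)).at' t w
    rw [e.bst_at]
    exact h.subT t (by rw [← e.n]; exact ht) _ hw u hu l hl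
  numT t ht w hw u hu l hl := by
    show ((e.bst (σ.PT u l)).at' t w).card ≤ B
    rw [e.bst_at]
    exact h.numT t (by rw [← e.n]; exact ht) _ hw u hu l hl
  numb t ht w hw u hu := by
    rw [e.st_lists]
    exact h.numb t (by rw [← e.n]; exact ht) _ hw u hu
  inj t ht w hw u hu := by
    rw [e.st_lists]
    exact h.inj t (by rw [← e.n]; exact ht) _ hw u hu
  sum t ht w hw := by
    rw [e.st_Z, e.st_fams, e.st_cf]
    exact h.sum t (by rw [← e.n]; exact ht) _ hw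

theorem st_On (e : CExt S S') {σ : NSt S a} {dead : ℕ → Om → Prop} (h : σ.On dead) :
    (e.st σ).On (fun t w => dead t (e.pi w)) := by
  intro t ht w hw ζ hζ ν hν
  rw [e.st_Z] at hζ
  rw [e.st_fams] at hν
  have h1 := h t (by rw [← e.n]; exact ht) _ hw ζ hζ ν hν
  show σ.h.inn (σ.hn ζ ν) t (S'.gm t w) (S'.x w)
  rw [e.gm, e.x]
  exact h1

theorem st_Shape (e : CExt S S') {σ : NSt S a} {WS : ι → Option (Finset ι)}
    (h : σ.Shape WS) : (e.st σ).Shape WS := h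

end CExt

end

end Pool.Agent.GMN
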