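import Pool.Agent.M3.Run

/-!
# GMN.Hub (row N, NM.2): the Huber function

`clip Y x` = projection to `[-Y,Y]`, `hub Y x = x ^ 2` for `|x| ≤ Y`, `2 Y |x| - Y ^ 2` beyond, written as
`2 (clip Y x) x - (clip Y x) ^ 2`.  One use `E ↦ E - b' g` lowers the mean of `hub Y E` by `2 b' b - b' ^ 2` if
`⟨g, clip Y E⟩ ≥ b`, `|g| ≤ 1`, `b' ≥ 0`.  `|x - clip Y x| ≤ hub Y x / Y`, `(clip Y x) ^ 2 ≤ hub Y x`.
Mean versions for `IsMean`.
-/

set_option autoImplicit false

namespace Pool.Agent.GMN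

open Pool.Agent.M3

noncomputable section

/-- projection to `[-Y,Y]` -/
def clip (Y x : ℝ) : ℝ := max (-Y) (min Y x)

/-- Huber function -/
def hub (Y x : ℝ) : ℝ := 2 * clip Y x * x - clip Y x ^ 2

variable {Y : ℝ}

theorem clip_le (hY : 0 ≤ Y) (x : ℝ) : clip Y x ≤ Y := max_le (by linarith) (min_le_left _ _)

theorem le_clip (x : ℝ) : -Y ≤ clip Y x := le_max_left _ _

theorem abs_clip_le (hY : 0 ≤ Y) (x : ℝ) : |clip Y x| ≤ Y := abs_le.2 ⟨le_clip x, clip_le hY x⟩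

theorem clip_of_abs {x : ℝ} (h : |x| ≤ Y) : clip Y x = x := by
  obtain ⟨h1, h2⟩ := abs_le.1 h
  unfold clip
  rw [min_eq_right h2, max_eq_right h1]

theorem clip_of_le (hY : 0 ≤ Y) {x : ℝ} (h : Y ≤ x) : clip Y x = Y := by
  unfold clip
  rw [min_eq_left h, max_eq_right (by linarith)]

theorem clip_of_neg (hY : 0 ≤ Y) {x : ℝ} (h : x ≤ -Y) : clip Y x = -Y := by
  unfold clip
  rw [min_eq_right (by linarith), max_eq_left h]

theorem cases_clip (hY : 0 ≤ Y) (x : ℝ) :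
    (|x| ≤ Y ∧ clip Y x = x) ∨ (Y ≤ x ∧ clip Y x = Y) ∨ (x ≤ -Y ∧ clip Y x = -Y) := by
  rcases le_or_gt |x| Y with h | h
  · exact Or.inl ⟨h, clip_of_abs h⟩
  · rcases lt_abs.1 h with h1 | h1
    · exact Or.inr (Or.inl ⟨h1.le, clip_of_le hY h1.le⟩)
    · exact Or.inr (Or.inr ⟨by linarith, clip_of_neg hY (by linarith)⟩)

theorem clip_zero (hY : 0 ≤ Y) : clip Y 0 = 0 := clip_of_abs (by simpa using hY)

theorem clip_neg (hY : 0 ≤ Y) (x : ℝ) : clip Y (-x) = - clip Y x := by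
  rcases cases_clip hY x with ⟨h, e⟩ | ⟨h, e⟩ | ⟨h, e⟩
  · rw [e, clip_of_abs (by rwa [abs_neg])]
  · rw [e, clip_of_neg hY (by linarith)]
  · rw [e, clip_of_le hY (by linarith), neg_neg]

/-- the clip has the sign of `x` -/
theorem clip_mul_nonneg (hY : 0 ≤ Y) (x : ℝ) : 0 ≤ clip Y x * x := by
  rcases cases_clip hY x with ⟨h, e⟩ | ⟨h, e⟩ | ⟨h, e⟩ <;> rw [e]
  · exact mul_self_nonneg x
  · exact mul_nonneg hY (by linarith)
  · exact mul_nonneg_of_nonpos_of_nonpos (by linarith) (by linarith)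

theorem abs_clip_le_abs (hY : 0 ≤ Y) (x : ℝ) : |clip Y x| ≤ |x| := by
  rcases cases_clip hY x with ⟨h, e⟩ | ⟨h, e⟩ | ⟨h, e⟩ <;> rw [e]
  · rw [abs_of_nonneg hY]; exact h.trans (le_abs_self _)
  · rw [abs_neg, abs_of_nonneg hY]; exact (by linarith : Y ≤ -x).trans (neg_le_abs _)

theorem abs_clip_sub (x y : ℝ) : |clip Y x - clip Y y| ≤ |x - y| := by
  unfold clip
  rw [max_comm (-Y) (min Y x), max_comm (-Y) (min Y y)]
  refine (abs_max_sub_max_le_abs _ _ _).trans ?_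
  rw [min_comm Y x, min_comm Y y]
  exact abs_min_sub_min_le_max _ _ _ _ |>.trans (by simp)

theorem hub_of_abs {x : ℝ} (h : |x| ≤ Y) : hub Y x = x ^ 2 := by
  unfold hub
  rw [clip_of_abs h]; ring

theorem hub_of_ge (hY : 0 ≤ Y) {x : ℝ} (h : Y ≤ |x|) : hub Y x = 2 * Y * |x| - Y ^ 2 := by
  unfold hub
  rcases le_abs.1 h with h1 | h1
  · rw [clip_of_le hY h1, abs_of_nonneg (by linarith)]
  · rw [clip_of_neg hY (by linarith), abs_of_nonpos (by linarith)]; ring

/-- infimal convolution, one half -/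
theorem hub_le (hY : 0 ≤ Y) (x z : ℝ) : hub Y x ≤ z ^ 2 + 2 * Y * |x - z| := by
  have hc := abs_clip_le hY x
  have h1 : clip Y x * (x - z) ≤ Y * |x - z| := by
    calc clip Y x * (x - z) ≤ |clip Y x * (x - z)| := le_abs_self _
      _ = |clip Y x| * |x - z| := abs_mul _ _
      _ ≤ _ := mul_le_mul_of_nonneg_right hc (abs_nonneg _)
  unfold hub
  nlinarith [sq_nonneg (z - clip Y x)]

/-- infimal convolution, the other half -/
theorem hub_eq (hY : 0 ≤ Y) (x : ℝ) : hub Y x = clip Y x ^ 2 + 2 * Y * |x - clip Y x| := by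
  unfold hub
  rcases cases_clip hY x with ⟨h, e⟩ | ⟨h, e⟩ | ⟨h, e⟩ <;> rw [e]
  · simp; ring
  · rw [abs_of_nonneg (by linarith)]; ring
  · rw [abs_of_nonpos (by linarith)]; ring

theorem hub_nonneg (hY : 0 ≤ Y) (x : ℝ) : 0 ≤ hub Y x := by
  rw [hub_eq hY]; positivity

theorem clip_sq_le_hub (hY : 0 ≤ Y) (x : ℝ) : clip Y x ^ 2 ≤ hub Y x := by
  rw [hub_eq hY]
  have : 0 ≤ 2 * Y * |x - clip Y x| := by positivity
  linarith

theorem hub_le_sq (hY : 0 ≤ Y) (x : ℝ) : hub Y x ≤ x ^ 2 := by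
  have := hub_le hY x x
  simpa using this

theorem hub_le_abs (hY : 0 ≤ Y) (x : ℝ) : hub Y x ≤ 2 * Y * |x| := by
  have := hub_le hY x 0
  simpa using this

theorem hub_le_one (hY : 0 ≤ Y) {x : ℝ} (h : |x| ≤ 1) : hub Y x ≤ 1 := by
  refine (hub_le_sq hY x).trans ?_
  rw [← sq_abs]
  exact pow_le_one₀ (abs_nonneg _) h

theorem hub_zero (hY : 0 ≤ Y) : hub Y 0 = 0 := by rw [hub_of_abs (by simpa using hY)]; ring

theorem hub_neg (hY : 0 ≤ Y) (x : ℝ) : hub Y (-x) = hub Y x := by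
  unfold hub; rw [clip_neg hY]; ring

/-- `Y |x - clip Y x| ≤ hub Y x` -/
theorem mul_abs_sub_clip_le (hY : 0 ≤ Y) (x : ℝ) : 2 * (Y * |x - clip Y x|) ≤ hub Y x := by
  rw [hub_eq hY]
  have := sq_nonneg (clip Y x)
  linarith

theorem abs_sub_clip_le (hY : 0 < Y) (x : ℝ) : |x - clip Y x| ≤ hub Y x / Y := by
  rw [le_div_iff₀ hY]
  have h1 := mul_abs_sub_clip_le hY.le x
  have h2 := mul_nonneg hY.le (abs_nonneg (x - clip Y x))
  linarith

theorem abs_le_hub (hY : 1 ≤ Y) (x : ℝ) : |x| ≤ 1 + hub Y x := by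
  have hY0 : 0 ≤ Y := by linarith
  have h1 := hub_eq hY0 x
  have h2 : |x| ≤ |clip Y x| + |x - clip Y x| := by
    have := abs_add_le (clip Y x) (x - clip Y x)
    simpa using this
  have h3 : |x - clip Y x| ≤ 2 * Y * |x - clip Y x| := by
    nlinarith [abs_nonneg (x - clip Y x)]
  have h4 : |clip Y x| ≤ 1 + clip Y x ^ 2 := by
    rw [← sq_abs (clip Y x)]
    nlinarith [sq_nonneg (|clip Y x| - 1), abs_nonneg (clip Y x)]
  linarith

/-- one step -/
theorem hub_sub_le (hY : 0 ≤ Y) (x h : ℝ) : hub Y (x - h) ≤ hub Y x - 2 * h * clip Y x + h ^ 2 := by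
  have h1 := hub_le hY (x - h) (clip Y x - h)
  rw [hub_eq hY x]
  have e : x - h - (clip Y x - h) = x - clip Y x := by ring
  rw [e] at h1
  nlinarith

/-- lower bound in one step -/
theorem le_hub_sub (hY : 0 ≤ Y) (x h : ℝ) : hub Y x - 2 * h * clip Y x ≤ hub Y (x - h) := by
  -- tangent line: `hub (x - h) ≥ 2 c (x - h) - c ^ 2` for every `|c| ≤ Y`
  have key : ∀ c y : ℝ, |c| ≤ Y → 2 * c * y - c ^ 2 ≤ hub Y y := by
    intro c y hc
    rw [hub_eq hY y]
    have h1 : c * (y - clip Y y) ≤ Y * |y - clip Y y| := by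
      calc c * (y - clip Y y) ≤ |c * (y - clip Y y)| := le_abs_self _
        _ = |c| * |y - clip Y y| := abs_mul _ _
        _ ≤ _ := mul_le_mul_of_nonneg_right hc (abs_nonneg _)
    nlinarith [sq_nonneg (c - clip Y y)]
  have := key (clip Y x) (x - h) (abs_clip_le hY x)
  unfold hub at *
  linarith

section mean

variable {V : Type*} {m : (V → ℝ) → ℝ}

/-- a use lowers the potential -/
theorem huber_step (hm : IsMean m) (hY : 0 ≤ Y) {E g : V → ℝ} (hg : ∀ d, |g d| ≤ 1) {b b' : ℝ} (hb' : 0 ≤ b')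
    (hb : b ≤ m (fun d => g d * clip Y (E d))) :
    m (fun d => hub Y (E d - b' * g d)) ≤ m (fun d => hub Y (E d)) - 2 * b' * b + b' ^ 2 := by
  have h1 : m (fun d => hub Y (E d - b' * g d)) ≤
      m (fun d => (hub Y (E d) + (-(2 * b')) * (g d * clip Y (E d))) + b' ^ 2) := by
    refine hm.mono _ _ fun d => ?_
    have h2 := hub_sub_le hY (E d) (b' * g d)
    have h3 : (b' * g d) ^ 2 ≤ b' ^ 2 := by
      rw [mul_pow]
      have : g d ^ 2 ≤ 1 := by
        rw [← sq_abs]; exact pow_le_one₀ (abs_nonneg _) (hg d)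
      nlinarith [sq_nonneg b']
    nlinarith
  have h2 : m (fun d => (hub Y (E d) + (-(2 * b')) * (g d * clip Y (E d))) + b' ^ 2) =
      m (fun d => hub Y (E d)) + (-(2 * b')) * m (fun d => g d * clip Y (E d)) + b' ^ 2 := by
    rw [hm.add (fun d => hub Y (E d) + (-(2 * b')) * (g d * clip Y (E d))) (fun _ => b' ^ 2), hm.const,
      hm.add (fun d => hub Y (E d)) (fun d => (-(2 * b')) * (g d * clip Y (E d))),
      hm.smul (-(2 * b')) (fun d => g d * clip Y (E d))]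
  rw [h2] at h1
  have h3 := mul_le_mul_of_nonneg_left hb (by linarith : (0 : ℝ) ≤ 2 * b')
  linarith

/-- the same with a sign: `σ = 1` or `-1` -/
theorem huber_step_sign (hm : IsMean m) (hY : 0 ≤ Y) {E g : V → ℝ} (hg : ∀ d, |g d| ≤ 1) {b b' σ : ℝ} (hb' : 0 ≤ b')
    (hσ : |σ| ≤ 1) (hb : b ≤ σ * m (fun d => g d * clip Y (E d))) :
    m (fun d => hub Y (E d - σ * b' * g d)) ≤ m (fun d => hub Y (E d)) - 2 * b' * b + b' ^ 2 := by
  have e : m (fun d => (σ * g d) * clip Y (E d)) = σ * m (fun d => g d * clip Y (E d)) := by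
    rw [← hm.smul]; congr 1; funext d; ring
  have h := huber_step (E := E) (g := fun d => σ * g d) hm hY (fun d => by
    rw [abs_mul]; exact mul_le_one₀ hσ (abs_nonneg _) (hg d)) hb' (b := b) (by rw [e]; exact hb)
  have e2 : (fun d => hub Y (E d - σ * b' * g d)) = fun d => hub Y (E d - b' * (σ * g d)) := by
    funext d; congr 1; ring
  rw [e2]
  exact h

theorem mean_abs_sub_clip (hm : IsMean m) (hY : 0 < Y) (E : V → ℝ) :
    m (fun d => |E d - clip Y (E d)|) ≤ m (fun d => hub Y (E d)) / Y := by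
  have h1 : m (fun d => |E d - clip Y (E d)|) ≤ m (fun d => Y⁻¹ * hub Y (E d)) :=
    hm.mono _ _ fun d => by
      have := abs_sub_clip_le hY (E d)
      rwa [div_eq_inv_mul] at this
  rw [hm.smul Y⁻¹ (fun d => hub Y (E d))] at h1
  rw [div_eq_inv_mul]
  exact h1

theorem mean_clip_sq (hm : IsMean m) (hY : 0 ≤ Y) (E : V → ℝ) :
    m (fun d => clip Y (E d) ^ 2) ≤ m (fun d => hub Y (E d)) :=
  hm.mono _ _ fun d => clip_sq_le_hub hY (E d)

/-- replacing `E` by `clip Y E` inside a mean with a bounded factor -/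
theorem mean_mul_sub_clip (hm : IsMean m) (hY : 0 < Y) (E : V → ℝ) {v : V → ℝ} {c : ℝ} (hv : ∀ d, |v d| ≤ c) :
    |m (fun d => v d * E d) - m (fun d => v d * clip Y (E d))| ≤ c * (m (fun d => hub Y (E d)) / Y) := by
  have hc : ∀ d : V, 0 ≤ c := fun d => (abs_nonneg _).trans (hv d)
  have e : m (fun d => v d * E d) - m (fun d => v d * clip Y (E d)) = m (fun d => v d * (E d - clip Y (E d))) := by
    rw [← hm.sub]; congr 1; funext d; ring
  rw [e]
  have hab : ∀ f h : V → ℝ, (∀ d, |f d| ≤ h d) → |m f| ≤ m h := by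
    intro f h hfh
    rw [abs_le]
    constructor
    · have h1 := hm.mono (fun d => - h d) f fun d => (abs_le.1 (hfh d)).1
      rw [hm.neg h] at h1
      exact h1
    · exact hm.mono f h fun d => (abs_le.1 (hfh d)).2
  have h1 : |m (fun d => v d * (E d - clip Y (E d)))| ≤ m (fun d => c * |E d - clip Y (E d)|) :=
    hab _ _ fun d => by
      rw [abs_mul]; exact mul_le_mul_of_nonneg_right (hv d) (abs_nonneg _)
  rw [hm.smul c (fun d => |E d - clip Y (E d)|)] at h1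
  refine h1.trans ?_
  by_cases hV : Nonempty V
  · obtain ⟨d⟩ := hV
    exact mul_le_mul_of_nonneg_left (mean_abs_sub_clip hm hY E) (hc d)
  · -- no point: impossible for a mean
    exfalso
    have h2 : m (fun _ => (1:ℝ)) = m (fun _ => (0:ℝ)) := by
      congr 1; funext d; exact absurd ⟨d⟩ hV
    rw [hm.one, hm.zero] at h2
    norm_num at h2

end mean

end

end Pool.Agent.GMN
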