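import Pool.Agent.GM.Sys
import Pool.Agent.GMN.Hub

/-!
# GMN/TjDef (helper14): Lemma T_j (row NM, NM.3), definitions

Everything lives in one abstract geometry `G : Sys ι Om Ξ Pt V Γ κ` (all vertices, rounded nodes `gm t`, averaged windows
`ρ t g`, coins `xi`).  A system `(p; V_j)` is a set `S` of vertices (`V_j = S`, `p` = the exact values off `S`), `δ ∈ S` is
unknown to the client.  NO CELLS in the nodes: every function is a function of (time, node, vertices of its face).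

* `Fn` : moving function of all vertices (coin free), `FnX` : with coins;
* `mn G t g f` : mean over the averaged window; `val G Z t ω` : value of `Z` at the sample point;
* `NF G i f` : NUMBERED FUNCTION of the face `i` (`Dep (univ.erase i)`, bounded by one, `0` at time `0`, at most one move: its
  introduction);
* `PTest S w u` : product tests of the face `w` in the system `S` : functions `u i`, `i ∈ S.erase w`, which miss `i` and `w`;
* `Rare G S w Z θ r` : at every node, exact vertices off `S`, all cells : every product test sees at most `θ` of the population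
  (coins included) at `r`;
* `MV G w Z m` : mean number of future moves from every state of the face `w` at most `m`;
* `SMI G S δ C` : the strong moving form of MI for the system `S`;
* `TJ G S δ C` : Lemma T_j.
-/

set_option autoImplicit false
set_option linter.unusedSectionVars false

namespace Pool.Agent.GMN

open Finset Pool.Agent.PWZ Pool.Agent.M3 Pool.Agent.M3.TS Pool.Agent.GM

noncomputable section

/-- moving function of all vertices, coin free -/
abbrev Fn (ι Pt V Γ : Type) : Type := ℕ → Γ → (ι → Pt) → V → ℝ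

/-- moving function of all vertices and the coins -/
abbrev FnX (ι Ξ Pt V Γ : Type) : Type := ℕ → Γ → Ξ → (ι → Pt) → V → ℝ

variable {ι Om Ξ Pt V Γ κ : Type} [Fintype ι] [DecidableEq ι] [Fintype Om] [Fintype Ξ] [Fintype Pt]
    [Fintype V] (G : Sys ι Om Ξ Pt V Γ κ)

/-- mean over the averaged window of the node `g` -/
def mn (t : ℕ) (g : Γ) (f : V → ℝ) : ℝ := ∑ d, G.ρ t g d * f d

/-- value at the sample point -/
def val (Z : FnX ι Ξ Pt V Γ) (t : ℕ) (ω : Om) : V → ℝ := Z t (G.gm t ω) (G.xi ω) (G.x ω)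

/-- value at the sample point, coin free -/
def val0 (f : Fn ι Pt V Γ) (t : ℕ) (ω : Om) : V → ℝ := f t (G.gm t ω) (G.x ω)

/-- a coin free function as a function with coins -/
def lft (f : Fn ι Pt V Γ) : FnX ι Ξ Pt V Γ := fun t g _ x => f t g x

/-- what the face `w` knows: coins, all vertices but `w`, node -/
def stf (w : ι) (t : ℕ) (ω : Om) : Ξ × ({i // i ∈ univ.erase w} → Pt) × Γ :=
  (G.xi ω, res (univ.erase w) (G.x ω), G.gm t ω)

/-- **numbered function** of the face `i` -/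
structure NF (i : ι) (f : Fn ι Pt V Γ) : Prop where
  dep : ∀ t g, Dep (univ.erase i) (f t g)
  bd : ∀ t g x d, |f t g x d| ≤ 1
  zero : ∀ g x d, f 0 g x d = 0
  /-- static after its introduction -/
  intro : ∀ t ω, val0 G f (t + 1) ω = val0 G f t ω ∨ val0 G f t ω = 0

/-- function of the exact values on `I` and the cells on `J` -/
def DepC {β : Type} (t : ℕ) (I J : Finset ι) (f : (ι → Pt) → β) : Prop :=
  ∀ x y : ι → Pt, (∀ i ∈ I, x i = y i) → (∀ i ∈ J, G.cl t (x i) = G.cl t (y i)) → f x = f y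

/-- product tests of the face `w` in the system `S` -/
structure PTest (S : Finset ι) (w : ι) (u : ι → (ι → Pt) → V → ℝ) : Prop where
  dep : ∀ i ∈ S.erase w, Dep ((univ.erase w).erase i) (u i)
  bd : ∀ i x d, |u i x d| ≤ 1

/-- the test -/
def tpr (S : Finset ι) (w : ι) (u : ι → (ι → Pt) → V → ℝ) (x : ι → Pt) (d : V) : ℝ := ∏ i ∈ S.erase w, u i x d

/-- `x` is in the population of `x0`: the same exact vertices off `S.erase w`, the same cells on `S.erase w` -/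
def Box (t : ℕ) (S : Finset ι) (w : ι) (x0 x : ι → Pt) : Prop :=
  (∀ i, i ∉ S.erase w → x i = x0 i) ∧ ∀ i ∈ S.erase w, G.cl t (x i) = G.cl t (x0 i)

/-- **rarity**, product tests at all nodes, exact vertices off `S`, all cells -/
def Rare (S : Finset ι) (w : ι) (Z : FnX ι Ξ Pt V Γ) (θ r : ℝ) : Prop :=
  ∀ t ≤ G.n, ∀ (ω : Om) (x0 : ι → Pt) (u : ι → (ι → Pt) → V → ℝ), PTest S w u →
    ∑ ξ : Ξ, ∑ x : ι → Pt, ind (Box G t S w x0 x ∧
      r ≤ |mn G t (G.gm t ω) (fun d => Z t (G.gm t ω) ξ x d * tpr S w u x d)|) ≤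
    θ * ∑ _ξ : Ξ, ∑ x : ι → Pt, ind (Box G t S w x0 x)

/-- **mean number of future moves from every state** -/
def MV (w : ι) (Z : FnX ι Ξ Pt V Γ) (m : ℝ) : Prop :=
  ∀ t0 ≤ G.n, ∀ f : Om → ℝ, Fac (stf G w t0) f → (∀ ω, 0 ≤ f ω) →
    G.P.E (fun ω => f ω * ∑ t ∈ Ico t0 G.n, ind (val G Z (t + 1) ω ≠ val G Z t ω)) ≤ m * G.P.E f

/-- **(SMI_j), moving form** -/
def SMI (S : Finset ι) (δ : ι) (C : ℕ) : Prop :=
  ∀ β H : ℝ, 0 < β → β ≤ 1 / 2 → 1 / β ≤ H → G.K ≤ Real.exp H → G.near ≤ β ^ C →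
  ∀ Ψ : ι → FnX ι Ξ Pt V Γ, (∀ w ∈ S, ∀ t g ξ, Dep (univ.erase w) (Ψ w t g ξ)) →
    (∀ w ∈ S, w ≠ δ → ∀ t g ξ ξ', Ψ w t g ξ = Ψ w t g ξ') →
    (∀ w ∈ S, ∀ t g ξ x d, |Ψ w t g ξ x d| ≤ 1) → (∀ w ∈ S, ∀ g ξ x d, Ψ w 0 g ξ x d = 0) →
    (∀ w ∈ S, MV G w (Ψ w) H) → (∀ w ∈ S, Rare G S w (Ψ w) (Real.exp (-H ^ C)) (β ^ C)) →
    G.P.Pr (fun ω => ∃ t ≤ G.n, β ≤ |mn G t (G.gm t ω) (fun d => ∏ w ∈ S, val G (Ψ w) t ω d)|) ≤
      Real.exp (-H)

/-- a class of public tests: the system `S'`, the run `k`, the multiplier `μ` -/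
structure Cls (ι Pt V Γ Kt : Type) where
  S : Finset ι
  k : Kt
  /-- factors: `m i` misses `δ` and `i` (of `x i` it knows the cell only), `i ∈ S0 \ S` -/
  m : ι → Fn ι Pt V Γ

/-- the multiplier of a class for the runs with multipliers `v` in the system `S0` -/
def Cls.mu {Kt : Type} (c : Cls ι Pt V Γ Kt) (S0 : Finset ι) (v : Kt → Fn ι Pt V Γ) : Fn ι Pt V Γ :=
  fun t g x d => v c.k t g x d * ∏ i ∈ S0 \ c.S, c.m i t g x d

/-- an admissible class in the system `S0` -/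
structure Cls.Ok {Kt : Type} (c : Cls ι Pt V Γ Kt) (S0 : Finset ι) (δ : ι) : Prop where
  sub : c.S ⊆ S0
  mem : δ ∈ c.S
  nf : ∀ i ∈ S0 \ c.S, NF G δ (c.m i)
  dep : ∀ i ∈ S0 \ c.S, ∀ t g, DepC G t ((univ.erase δ).erase i) {i} (c.m i t g)

/-- the runs `E` (normalised, clipped error functions of the clients) pass all tests of the classes `cs` -/
structure Pass {Kt Cl : Type} (S0 : Finset ι) (δ : ι) (v : Kt → Fn ι Pt V Γ) (cs : Cl → Cls ι Pt V Γ Kt)
    (θ r : ℝ) (E : Kt → FnX ι Ξ Pt V Γ) : Prop where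
  /-- letters: `S' = {δ}` -/
  P1 : ∀ c, (cs c).S = {δ} → ∀ t ≤ G.n, ∀ ω,
    |mn G t (G.gm t ω) (fun d => val G (E (cs c).k) t ω d * val0 G ((cs c).mu S0 v) t ω d)| ≤ r
  /-- popular tests -/
  P2 : ∀ c, (cs c).S ≠ {δ} →
    Rare G (cs c).S δ (fun t g ξ x d => E (cs c).k t g ξ x d * (cs c).mu S0 v t g x d) θ r

/-- **LEMMA T_j** for the system `S`, hidden vertex `δ` -/
def TJ (S : Finset ι) (δ : ι) (C : ℕ) : Prop :=
  ∀ β H : ℝ, 0 < β → β ≤ 1 / 2 → 1 / β ≤ H → G.K ≤ Real.exp H → G.near ≤ β ^ C →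
  ∀ (Kt Z : Type) (_ : Fintype Kt) (_ : Fintype Z) (v : Kt → Fn ι Pt V Γ) (Φ : ι → Z → Fn ι Pt V Γ),
    (Fintype.card Kt : ℝ) ≤ Real.exp H → (Fintype.card Z : ℝ) ≤ Real.exp H →
    (∀ k, NF G δ (v k)) → (∀ w ∈ S.erase δ, ∀ z, NF G w (Φ w z)) →
  ∃ (Cl : Type) (_ : Fintype Cl) (cs : Cl → Cls ι Pt V Γ Kt), (Fintype.card Cl : ℝ) ≤ Real.exp (H ^ C) ∧
    (∀ c, (cs c).Ok G S δ) ∧
    ∀ E : Kt → FnX ι Ξ Pt V Γ, (∀ k t g ξ, Dep (univ.erase δ) (E k t g ξ)) → (∀ k t g ξ x d, |E k t g ξ x d| ≤ 1) →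
      (∀ k g ξ x d, E k 0 g ξ x d = 0) → (∀ k, MV G δ (E k) H) →
      Pass G S δ v cs (Real.exp (-H ^ C)) (β ^ C) E →
      G.P.Pr (fun ω => ∃ t ≤ G.n, ∃ (k : Kt) (z : ι → Z),
        β ≤ |mn G t (G.gm t ω) (fun d => (∏ w ∈ S.erase δ, val0 G (Φ w (z w)) t ω d) *
          (val G (E k) t ω d * val0 G (v k) t ω d))|) ≤ Real.exp (-H)

end

end Pool.Agent.GMN
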