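import Pool.Agent.GM.SMIcoin
import Pool.Agent.GMN.TjDef

/-!
# GMN/TjSMI (helper85): the strong moving form of `GMN/TjDef` from the one of `GM/SMI`

* `future_of_mv`, `rare_of_rare` : the two forms of the hypotheses;
* `AtAll G S δ C` : `SMIat` at all parameters `β, H` with the exponent `C` (exact windows);
  `SMI_of_atAll` : it gives `GMN.SMI G S δ (2 * C)` (averaged windows);
* `SMIbin j C` : (SMI_j) for ALL binary models with `j` vertices (all offsets, coins, public randomness);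
  `atAll_bin`, **`SMI_bin_add`** : for every set `S` of `j` vertices, `δ ∈ S`, of every binary model with more coins;
* `CoinSMI S C` : all sets, all coins; closed under more coins (`CoinSMI.add`), `CoinSMI.self`, `coinSMI_bin`.
-/

set_option autoImplicit false
set_option linter.unusedSectionVars false

namespace Pool.Agent.GMN

open Finset Pool.Agent.PWZ Pool.Agent.M3 Pool.Agent.M3.TS Pool.Agent.M3.Bin Pool.Agent.GM
open Pool.Agent.M3.Mod (ex)

noncomputable section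

section abs

variable {ι Om Ξ Pt V Γ κ : Type} [Fintype ι] [DecidableEq ι] [Fintype Om] [Fintype Ξ] [Fintype Pt]
    [Fintype V] (G : Sys ι Om Ξ Pt V Γ κ)

/-- the two forms of the number of future moves -/
theorem future_of_mv {w : ι} {Z : FnX ι Ξ Pt V Γ} {m m' : ℝ} (hm : m ≤ m') (h0 : 0 ≤ m') (H : MV G w Z m) :
    G.Future (univ.erase w) Z m' := by
  intro t φ hφ hφ0
  have hE : 0 ≤ G.P.E φ := G.P.E_nonneg fun w _ => hφ0 w
  rcases le_or_gt t G.n with ht | ht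
  · have h1 := H t ht φ hφ hφ0
    have h2 : G.P.E (fun ω => φ ω * ∑ u ∈ Ico t G.n, ind (val G Z (u + 1) ω ≠ val G Z u ω)) =
        ∑ u ∈ Ico t G.n, G.P.E (fun w => φ w * ind (G.at' Z (u + 1) w ≠ G.at' Z u w)) := by
      rw [← G.P.E_sum]
      refine G.P.E_congr fun w _ => ?_
      rw [Finset.mul_sum]
      rfl
    rw [← h2]
    exact h1.trans (mul_le_mul_of_nonneg_right hm hE)
  · rw [Finset.Ico_eq_empty (by omega), Finset.sum_empty]
    exact mul_nonneg h0 hE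

theorem box_split (t : ℕ) (S : Finset ι) {w : ι} (hw : w ∈ S) (y : ι → Pt) (C : (ι → Pt) → Prop) :
    ∑ z : ι → Pt, ind (G.Box S t y z ∧ C z) =
      ∑ a : Pt, ind (G.cl t a = G.cl t (y w)) * ∑ z : ι → Pt, ind (Box G t S w (Function.update y w a) z ∧ C z) := by
  classical
  simp only [Finset.mul_sum]
  rw [Finset.sum_comm]
  refine Finset.sum_congr rfl fun z _ => ?_
  have h1 : ∀ a : Pt, a ≠ z w →
      ind (G.cl t a = G.cl t (y w)) * ind (Box G t S w (Function.update y w a) z ∧ C z) = 0 := by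
    intro a ha
    rw [ind_not (fun h : Box G t S w (Function.update y w a) z ∧ C z => ha ?_), mul_zero]
    have h2 := h.1.1 w (Finset.notMem_erase w S)
    rw [Function.update_self] at h2
    exact h2.symm
  rw [Finset.sum_eq_single (z w) (fun a _ ha => h1 a ha) (fun h => absurd (mem_univ _) h), ← ind_and]
  congr 1
  apply propext
  constructor
  · rintro ⟨⟨h2, h3⟩, h4⟩
    refine ⟨h3 w hw, ⟨fun i hi => ?_, fun i hi => ?_⟩, h4⟩
    · by_cases hiw : i = w
      · subst hiw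
        rw [Function.update_self]
      · rw [Function.update_of_ne hiw]
        exact h2 i fun h => hi (mem_erase.2 ⟨hiw, h⟩)
    · rw [Function.update_of_ne (ne_of_mem_erase hi)]
      exact h3 i (mem_of_mem_erase hi)
  · rintro ⟨h2, ⟨h3, h4⟩, h5⟩
    refine ⟨⟨fun i hi => ?_, fun i hi => ?_⟩, h5⟩
    · have hiw : i ≠ w := fun h => hi (by rw [h]; exact hw)
      have h6 := h3 i fun h => hi (mem_of_mem_erase h)
      rwa [Function.update_of_ne hiw] at h6
    · by_cases hiw : i = w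
      · subst hiw
        exact h2
      · have h6 := h4 i (mem_erase.2 ⟨hiw, hi⟩)
        rwa [Function.update_of_ne hiw] at h6

/-- the two forms of rarity -/
theorem rare_of_rare {S : Finset ι} {w : ι} (hw : w ∈ S) {Z : FnX ι Ξ Pt V Γ} {θ θ' r r' : ℝ} (hθ : θ ≤ θ')
    (hr : r ≤ r') (H : Rare G S w Z θ r) : G.Rare S w Z θ' r' := by
  classical
  intro t ht w0 y u hu hu1
  have h1 : ∀ a : Pt, _ := fun a => H t ht w0 (Function.update y w a) u ⟨hu, hu1⟩
  set g := G.gm t w0 with hg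
  set C : Ξ → (ι → Pt) → Prop := fun ξ z => r' ≤ |iw (G.ρ t g) (Z t g ξ z) (fun d => ∏ i ∈ S.erase w, u i z d)| with hC
  set D : Ξ → (ι → Pt) → Prop := fun ξ z => r ≤ |mn G t g (fun d => Z t g ξ z d * tpr S w u z d)| with hD
  have hCD : ∀ ξ z, C ξ z → D ξ z := by
    intro ξ z h
    refine hr.trans (le_trans h (le_of_eq ?_))
    congr 1
    unfold iw mn tpr
    refine Finset.sum_congr rfl fun d _ => ?_
    ring
  calc ∑ ξ : Ξ, ∑ z : ι → Pt, ind (G.Box S t y z ∧ C ξ z)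
      ≤ ∑ ξ : Ξ, ∑ z : ι → Pt, ind (G.Box S t y z ∧ D ξ z) :=
        Finset.sum_le_sum fun ξ _ => Finset.sum_le_sum fun z _ => ind_mono fun h => ⟨h.1, hCD ξ z h.2⟩
    _ = ∑ a : Pt, ind (G.cl t a = G.cl t (y w)) *
          ∑ ξ : Ξ, ∑ z : ι → Pt, ind (Box G t S w (Function.update y w a) z ∧ D ξ z) := by
        rw [Finset.sum_congr rfl fun ξ _ => box_split G t S hw y (D ξ), Finset.sum_comm]
        exact Finset.sum_congr rfl fun a _ => by rw [Finset.mul_sum]
    _ ≤ ∑ a : Pt, ind (G.cl t a = G.cl t (y w)) *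
          (θ * ∑ _ξ : Ξ, ∑ z : ι → Pt, ind (Box G t S w (Function.update y w a) z)) :=
        Finset.sum_le_sum fun a _ => mul_le_mul_of_nonneg_left (h1 a) (ind_nonneg _)
    _ = θ * ∑ _ξ : Ξ, ∑ z : ι → Pt, ind (G.Box S t y z) := by
        have h2 := box_split G t S hw y (fun _ => True)
        simp only [and_true] at h2
        rw [h2, Finset.sum_const, Finset.card_univ, nsmul_eq_mul, Finset.mul_sum, Finset.mul_sum]
        refine Finset.sum_congr rfl fun a _ => ?_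
        rw [Finset.sum_const, Finset.card_univ, nsmul_eq_mul]
        ring
    _ ≤ θ' * ∑ _ξ : Ξ, ∑ z : ι → Pt, ind (G.Box S t y z) :=
        mul_le_mul_of_nonneg_right hθ (Finset.sum_nonneg fun _ _ => Finset.sum_nonneg fun _ _ => ind_nonneg _)

/-- `SMIat` at all parameters with the exponent `C` -/
def AtAll (S : Finset ι) (δ : ι) (C : ℕ) : Prop :=
  ∀ β H : ℝ, 0 < β → β ≤ 1 / 2 → 1 / β ≤ H → G.K ≤ Real.exp H → G.near ≤ β ^ C →
    G.SMIat S δ 1 H (Real.exp (-H ^ C)) (β ^ C) β (Real.exp (-H))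

/-- **from exact to averaged windows** -/
theorem SMI_of_atAll {S : Finset ι} {δ : ι} {C : ℕ} (hC : 1 ≤ C) (hA : AtAll G S δ C) : SMI G S δ (2 * C) := by
  intro β H hβ hβ2 hβH hK hnear Ψ h1 h2 h3 h4 h5 h6
  have hH2 : 2 ≤ H := by
    have : 2 ≤ 1 / β := by
      rw [le_div_iff₀ hβ]
      linarith
    linarith
  have hb1 : β ^ (2 * C) ≤ (β / 2) ^ C := by
    have e1 : β ^ (2 * C) = β ^ C * β ^ C := by rw [two_mul, pow_add]
    have e2 : (β / 2) ^ C = β ^ C * (1 / 2) ^ C := by rw [div_pow, one_div, inv_pow]; rfl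
    rw [e1, e2]
    exact mul_le_mul_of_nonneg_left (pow_le_pow_left₀ hβ.le hβ2 C) (pow_nonneg hβ.le C)
  have hb2 : β ^ (2 * C) ≤ β / 2 := by
    have e1 : β ^ (2 * C) ≤ β ^ 2 := pow_le_pow_of_le_one hβ.le (by linarith) (by omega)
    have e2 : β ^ 2 ≤ β / 2 := by nlinarith
    exact e1.trans e2
  have hexp : Real.exp (-H ^ (2 * C)) ≤ Real.exp (-(2 * H) ^ C) := by
    refine Real.exp_le_exp.2 (neg_le_neg ?_)
    have e1 : H ^ (2 * C) = H ^ C * H ^ C := by rw [two_mul, pow_add]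
    rw [mul_pow, e1]
    exact mul_le_mul_of_nonneg_right (pow_le_pow_left₀ (by norm_num) hH2 C) (pow_nonneg (by linarith) C)
  have h := hA (β / 2) (2 * H) (by linarith) (by linarith) (by
      have e1 : 1 / (β / 2) = 2 * (1 / β) := by field_simp
      rw [e1]
      linarith) (hK.trans (Real.exp_le_exp.2 (by linarith))) (hnear.trans hb1) Ψ h1 h2 h3 (fun w hw g ξ x => funext fun d => h4 w hw g ξ x d)
    (fun w hw => future_of_mv G (by linarith) (by linarith) (h5 w hw))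
    (fun w hw => rare_of_rare G hw hexp hb1 (h6 w hw))
  have hout : Real.exp (-(2 * H)) ≤ Real.exp (-H) := Real.exp_le_exp.2 (by linarith)
  refine le_trans (G.P.Pr_mono fun w _ => ?_) (h.trans hout)
  rintro ⟨t, ht, h7⟩
  refine ⟨t, ht, ?_⟩
  have hf : ∀ d, |∏ i ∈ S, G.at' (Ψ i) t w d| ≤ 1 := by
    intro d
    rw [Finset.abs_prod]
    exact Finset.prod_le_one (fun i _ => abs_nonneg _) fun i hi => h3 i hi _ _ _ _ d
  have h8 := G.Jnear t w (fun d => ∏ i ∈ S, G.at' (Ψ i) t w d) (fun _ => 1) hf (fun _ => by simp)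
  have h9 : mn G t (G.gm t w) (fun d => ∏ w' ∈ S, val G (Ψ w') t w d) =
      iw (G.ρ t (G.gm t w)) (fun d => ∏ i ∈ S, G.at' (Ψ i) t w d) (fun _ => 1) := by
    unfold mn iw
    refine Finset.sum_congr rfl fun d _ => ?_
    rw [mul_one]
    rfl
  rw [h9] at h7
  have h10 : G.near ≤ β / 2 := hnear.trans hb2
  have h11 := abs_sub_abs_le_abs_sub (iw (G.ρ t (G.gm t w)) (fun d => ∏ i ∈ S, G.at' (Ψ i) t w d) (fun _ => 1))
    (iw (G.J t w) (fun d => ∏ i ∈ S, G.at' (Ψ i) t w d) (fun _ => 1))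
  rw [abs_sub_comm] at h11
  linarith

end abs

/-! ### all binary models -/

/-- **(SMI_j)** for all binary models with `j` vertices: all offsets, coins, public and private randomness -/
def SMIbin (j C : ℕ) : Prop :=
  ∀ (ι Θ Ξ Q : Type) [Fintype ι] [DecidableEq ι] [Fintype Θ] [Nonempty Θ] [Fintype Ξ] [Nonempty Ξ] [Fintype Q]
    [Nonempty Q] (k N : ℕ) (σ : V k) (i δ : ι) (hN : N ≤ k) (h : ℕ), Fintype.card ι = j →
    AtAll (binSys Θ Ξ Q σ i hN h) univ δ C

section bin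

variable {k N : ℕ} {ι Θ Ξ Q : Type} [Fintype ι] [DecidableEq ι] (σ : V k) [Fintype Θ] [Nonempty Θ] [Fintype Ξ]
  [Nonempty Ξ] [Fintype Q] [Nonempty Q]

/-- a set `S` of `j` vertices of a binary model -/
theorem atAll_bin {C : ℕ} {S : Finset ι} {δ : ι} (hδ : δ ∈ S) (H : SMIbin S.card C) (i : ι) (hN : N ≤ k) (h : ℕ) :
    AtAll (binSys Θ Ξ Q σ i hN h) S δ C := by
  intro β B hβ hβ2 hβH hK hnear
  have hS : univ \ (univ \ S) = S := by
    ext j
    simp
  have hd : δ ∉ univ \ S := fun hc => (mem_sdiff.1 hc).2 hδ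
  have hcard : Fintype.card {j // j ∉ univ \ S} = S.card := by
    rw [Fintype.card_subtype_compl, Fintype.card_coe, Finset.card_sdiff_of_subset (subset_univ S), Finset.card_univ]
    have := Finset.card_le_univ S
    omega
  have hcard2 : Fintype.card {j // j ∉ univ \ S} ≤ Fintype.card ι := by
    rw [hcard]
    exact Finset.card_le_univ S
  have h1 := SMI_fix (E := univ \ S) σ (Θ := Θ) (Ξ := Ξ) (Q := Q) i ⟨δ, hd⟩ hN h hd (X := 1) (m0 := B)
    (θ := Real.exp (-B ^ C)) (acc := β ^ C) (r := β) (out := Real.exp (-B)) (fun σ' =>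
      H {j // j ∉ univ \ S} Θ Ξ Q k N σ' ⟨δ, hd⟩ ⟨δ, hd⟩ hN h hcard β B hβ hβ2 hβH (by
        refine le_trans ?_ hK
        show (((Fintype.card {j // j ∉ univ \ S} + 4) * 2 ^ (h + 3) : ℕ) : ℝ) ≤
          (((Fintype.card ι + 4) * 2 ^ (h + 3) : ℕ) : ℝ)
        exact_mod_cast Nat.mul_le_mul_right _ (Nat.add_le_add_right hcard2 4)) hnear)
  rw [hS] at h1
  exact h1

/-- **what Lemma T_j needs**: a set `S` of `j` vertices of a binary model with more coins -/
theorem SMI_bin_add {C : ℕ} (hC : 1 ≤ C) {S : Finset ι} {δ : ι} (hδ : δ ∈ S) (H : SMIbin S.card C) (i : ι)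
    (hN : N ≤ k) (h : ℕ) (Ξ2 : Type) [Fintype Ξ2] [Nonempty Ξ2] :
    SMI (addCoins (binSys Θ Ξ Q σ i hN h) Ξ2) S δ (2 * C) := by
  refine SMI_of_atAll _ hC ?_
  intro β B hβ hβ2 hβH hK hnear
  exact SMIat_binAdd σ Ξ2 i hN h (atAll_bin (Ξ := Ξ × Ξ2) σ hδ H i hN h β B hβ hβ2 hβH hK hnear)

end bin

/-! ### a class of systems closed under more coins -/

section cls

variable {ι Om Ξ Pt V Γ κ : Type} [Fintype ι] [DecidableEq ι] [Fintype Om] [Fintype Ξ] [Fintype Pt]
    [Fintype V]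

/-- the strong moving form for all sets of at least two and at most `j` vertices, all coins.
(One vertex: false. `Ψ t = 1` iff the coin is `t` moves twice and is rare at every time, but is large at some time.) -/
def CoinSMI (S : Sys ι Om Ξ Pt V Γ κ) (j C : ℕ) : Prop :=
  ∀ (Ξ2 : Type) [Fintype Ξ2] [Nonempty Ξ2] (T : Finset ι) (δ : ι), δ ∈ T → 2 ≤ T.card → T.card ≤ j →
    AtAll (addCoins S Ξ2) T δ C

theorem CoinSMI.add {S : Sys ι Om Ξ Pt V Γ κ} {j C : ℕ} (H : CoinSMI S j C) (Ξ2 : Type) [Fintype Ξ2] [Nonempty Ξ2] :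
    CoinSMI (addCoins S Ξ2) j C := by
  intro Ξ3 _ _ T δ hδ h2 hT β B hβ hβ2 hβH hK hnear
  exact SMIat_assoc S Ξ2 Ξ3 (H (Ξ2 × Ξ3) T δ hδ h2 hT β B hβ hβ2 hβH hK hnear)

theorem CoinSMI.self {S : Sys ι Om Ξ Pt V Γ κ} {j C : ℕ} (H : CoinSMI S j C) {T : Finset ι} {δ : ι} (hδ : δ ∈ T)
    (h2 : 2 ≤ T.card) (hT : T.card ≤ j) : AtAll S T δ C := by
  intro β B hβ hβ2 hβH hK hnear
  exact SMIat_unit S (H Unit T δ hδ h2 hT β B hβ hβ2 hβH hK hnear)

/-- the strong moving form of `GMN/TjDef` in the class -/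
theorem CoinSMI.smi {S : Sys ι Om Ξ Pt V Γ κ} {j C : ℕ} (hC : 1 ≤ C) (H : CoinSMI S j C) {T : Finset ι} {δ : ι}
    (hδ : δ ∈ T) (h2 : 2 ≤ T.card) (hT : T.card ≤ j) : SMI S T δ (2 * C) :=
  SMI_of_atAll S hC (H.self hδ h2 hT)

end cls

/-- the binary models are in the class -/
theorem coinSMI_bin {k N : ℕ} {ι Θ Ξ Q : Type} [Fintype ι] [DecidableEq ι] (σ : V k) [Fintype Θ] [Nonempty Θ]
    [Fintype Ξ] [Nonempty Ξ] [Fintype Q] [Nonempty Q] {j C : ℕ} (H : ∀ j', 2 ≤ j' → j' ≤ j → SMIbin j' C) (i : ι) (hN : N ≤ k)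
    (h : ℕ) : CoinSMI (binSys Θ Ξ Q σ i hN h) j C := by
  intro Ξ2 _ _ T δ hδ h2 hT β B hβ hβ2 hβH hK hnear
  exact SMIat_binAdd σ Ξ2 i hN h (atAll_bin (Ξ := Ξ × Ξ2) σ hδ (H _ h2 hT) i hN h β B hβ hβ2 hβH hK hnear)

end

end Pool.Agent.GMN
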