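import Pool.Agent.GMN.Assem
import Pool.Agent.GM.Geo

/-!
# GMN/ExtBin (helper52): the coins of the names inside the model

* `CExt.assoc` : coins `A`, then coins `B` = coins `A × B`;
* `CExt.bin` : the coins `Ξ2` inside the model: from `addCoins (binSys Θ Ξ Q σ a hN h) Ξ2` to `binSys Θ (Ξ × Ξ2) Q σ a hN h`
  (`prC` forgets the new coins).
-/

set_option autoImplicit false
set_option linter.unusedSectionVars false

namespace Pool.Agent.GMN

open Finset Pool.Agent.PWZ Pool.Agent.M3 Pool.Agent.M3.TS Pool.Agent.GM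

noncomputable section

section assoc

variable {ι Om Ξ Pt V Γ κ : Type} [Fintype ι] [DecidableEq ι] [Fintype Om] [Fintype Ξ] [Fintype Pt]
  [Fintype V]

/-- the coins `A`, then the coins `B` -/
def CExt.assoc (S : Sys ι Om Ξ Pt V Γ κ) (A B : Type) [Fintype A] [Nonempty A] [Fintype B] [Nonempty B] :
    CExt (addCoins (addCoins S A) B) (addCoins S (A × B)) where
  pi w := ((w.1, w.2.1), w.2.2)
  pc ξ := ((ξ.1, ξ.2.1), ξ.2.2)
  E f := by
    show (coinFP S.P (A × B)).E (fun w => f ((w.1, w.2.1), w.2.2)) = (coinFP (coinFP S.P A) B).E f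
    rw [coinFP_E, coinFP_E, coinFP_E]
    refine S.P.E_congr fun w _ => ?_
    rw [Fintype.sum_prod_type, Fintype.card_prod]
    push_cast
    have hA := (cX2 A).ne'
    have hB := (cX2 B).ne'
    rw [← Finset.sum_div, div_div, mul_comm (Fintype.card B : ℝ)]
  x _ := rfl
  xi _ := rfl
  n := rfl
  gm _ _ := rfl
  par := rfl
  cl := rfl
  ρ := rfl
  J _ _ := rfl
  near := rfl
  K := rfl

end assoc

section bin

open Pool.Agent.M3.Bin

variable {k N : ℕ} {ι : Type} [Fintype ι] [DecidableEq ι]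

/-- forget the new coins -/
def prC {Θ Ξ Ξ2 Q : Type} (ω : Sq k N ι Θ ((Ξ × Ξ2) × Q)) : Sq k N ι Θ (Ξ × Q) :=
  (ω.1, (fun j => (((vx j ω).1.1.1, (vx j ω).1.2), (vx j ω).2)), ω.2.2)

/-- the new coins of the vertex `a`, of the others, and the rest -/
def splitC {Θ Ξ Ξ2 Q : Type} (a : ι) : Sq k N ι Θ ((Ξ × Ξ2) × Q) ≃
    (Sq k N ι Θ (Ξ × Q) × Ξ2) × ({j : ι // j ≠ a} → Ξ2) where
  toFun ω := ((prC ω, (vx a ω).1.1.2), fun j => (vx j.1 ω).1.1.2)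
  invFun q := (q.1.1.1, (fun j => ((((vx j q.1.1).1.1, if h : j = a then q.1.2 else q.2 ⟨j, h⟩), (vx j q.1.1).1.2),
    (vx j q.1.1).2)), q.1.1.2.2)
  left_inv ω := by
    refine Prod.ext rfl (Prod.ext (funext fun j => ?_) rfl)
    refine Prod.ext (Prod.ext (Prod.ext rfl ?_) rfl) rfl
    show (if h : j = a then (vx a ω).1.1.2 else (vx j ω).1.1.2) = (vx j ω).1.1.2
    by_cases h : j = a
    · subst h
      rw [dif_pos rfl]
    · rw [dif_neg h]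
  right_inv q := by
    refine Prod.ext (Prod.ext rfl ?_) (funext fun j => ?_)
    · show (if h : a = a then q.1.2 else q.2 ⟨a, h⟩) = q.1.2
      rw [dif_pos rfl]
    · show (if h : j.1 = a then q.1.2 else q.2 ⟨j.1, h⟩) = q.2 j
      rw [dif_neg j.2]

variable {Θ Ξ Q : Type} [Fintype Θ] [Nonempty Θ] [Fintype Ξ] [Nonempty Ξ] [Fintype Q] [Nonempty Q]

theorem E_prC (Ξ2 : Type) [Fintype Ξ2] [Nonempty Ξ2] (a : ι) (f : Sq k N ι Θ (Ξ × Q) × Ξ2 → ℝ) :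
    (PM k N ι Θ (Ξ × Ξ2) Q).E (fun ω => f (prC ω, (vx a ω).1.1.2)) = (coinFP (PM k N ι Θ Ξ Q) Ξ2).E f := by
  rw [coinFP_E]
  unfold PM Pm
  rw [FP.unif_E, FP.unif_E]
  have h1 : ∑ ω : Sq k N ι Θ ((Ξ × Ξ2) × Q), f (prC ω, (vx a ω).1.1.2) =
      ∑ q : (Sq k N ι Θ (Ξ × Q) × Ξ2) × ({j : ι // j ≠ a} → Ξ2), f q.1 :=
    Fintype.sum_equiv (splitC a) _ _ (fun ω => rfl)
  have h2 : (Fintype.card (Sq k N ι Θ ((Ξ × Ξ2) × Q)) : ℝ) =
      (Fintype.card (Sq k N ι Θ (Ξ × Q)) : ℝ) * Fintype.card Ξ2 * Fintype.card ({j : ι // j ≠ a} → Ξ2) := by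
    rw [Fintype.card_congr (splitC (k := k) (N := N) (Θ := Θ) (Ξ := Ξ) (Ξ2 := Ξ2) (Q := Q) a), Fintype.card_prod,
      Fintype.card_prod]
    push_cast
    rfl
  have h3 : (Fintype.card ({j : ι // j ≠ a} → Ξ2) : ℝ) ≠ 0 := Nat.cast_ne_zero.mpr Fintype.card_ne_zero
  have h4 := (cX2 Ξ2).ne'
  rw [h1, h2, Fintype.sum_prod_type]
  simp only [Finset.sum_const, Finset.card_univ, nsmul_eq_mul]
  rw [← Finset.mul_sum, Fintype.sum_prod_type, ← Finset.sum_div]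
  rw [mul_comm (Fintype.card ({j : ι // j ≠ a} → Ξ2) : ℝ), mul_div_mul_right _ _ h3, div_div, mul_comm (Fintype.card Ξ2 : ℝ)]

/-- **the new coins inside the model** -/
def CExt.bin (Θ Ξ Q Ξ2 : Type) [Fintype Θ] [Nonempty Θ] [Fintype Ξ] [Nonempty Ξ] [Fintype Q] [Nonempty Q] [Fintype Ξ2]
    [Nonempty Ξ2] (σ : V k) (a : ι) (hN : N ≤ k) (h : ℕ) :
    CExt (addCoins (binSys Θ Ξ Q σ a hN h) Ξ2) (binSys Θ (Ξ × Ξ2) Q σ a hN h) where
  pi ω := (prC ω, (vx a ω).1.1.2)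
  pc ξ := ξ
  E f := E_prC Ξ2 a f
  x _ := rfl
  xi _ := rfl
  n := rfl
  gm _ _ := rfl
  par := rfl
  cl := rfl
  ρ := rfl
  J _ _ := rfl
  near := rfl
  K := rfl

end bin

end

end Pool.Agent.GMN
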