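import Pool.Agent.GMN.State

/-!
# GMN/Cap (helper58): lists and public sets with surely bounded cardinality

`capG L par n` : a growing family `L t g x` of finite sets is frozen when it would get more than `n` elements (along the
ancestors of the node).  `Lst.cap n`, `PSt.cap B`, `BSt.cap B` (the same dependence; `cap_card` surely; `cap_sub`;
`cap_eq` where the set has at most `n` elements).
`NSt.cap n B` : the list of the known face and of the owners `u ≠ a` are cut at `n`, `PZ`, `PS u`, `PT u l` (`u ≠ a`) at `B`,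
the bounded numbers at `B`; outside `dead` nothing changes (`cap_lists`, `cap_Z`, `cap_fams`, `cap_cf`, `cap_val`,
`cap_T`, `cap_PS`, `cap_PT`, `cap_PZ`), `cap_Bd`, `cap_shape`; surely: `cap_card`, `cap_cardZ`, `cap_cardPS`,
`cap_cardPZ`, `cap_cardPT`, `cap_bb_le`.
`Lst.sum_Pr_le`, `Lst.sum_ce_le` : the sum over the numbers of the probabilities of being in the list is at most `n`.
-/

set_option autoImplicit false
set_option linter.unusedSectionVars false

namespace Pool.Agent.GMN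

open Finset Pool.Agent.PWZ Pool.Agent.M3 Pool.Agent.M3.TS Pool.Agent.GM

noncomputable section

/-! ### growing families of finite sets -/

section gen

variable {Γ α : Type*} (par : ℕ → Γ → Γ) (L : ℕ → Γ → α → Finset ℕ) (n : ℕ)

/-- the cut family -/
def capG : ℕ → Γ → α → Finset ℕ
  | 0, g, x => if (L 0 g x).card ≤ n then L 0 g x else ∅
  | t + 1, g, x => if (L (t + 1) g x).card ≤ n then L (t + 1) g x else capG t (par t g) x

theorem capG_sub (hmono : ∀ t g x, L t (par t g) x ⊆ L (t + 1) g x) (t : ℕ) (g : Γ) (x : α) :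
    capG par L n t g x ⊆ L t g x := by
  induction t generalizing g with
  | zero =>
    unfold capG
    split_ifs
    · exact subset_rfl
    · exact Finset.empty_subset _
  | succ t ih =>
    unfold capG
    split_ifs
    · exact subset_rfl
    · exact (ih (par t g)).trans (hmono t g x)

theorem capG_mono (hmono : ∀ t g x, L t (par t g) x ⊆ L (t + 1) g x) (t : ℕ) (g : Γ) (x : α) :
    capG par L n t (par t g) x ⊆ capG par L n (t + 1) g x := by
  rw [capG]
  split_ifs
  · exact (capG_sub par L n hmono t _ x).trans (hmono t g x)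
  · exact subset_rfl

theorem capG_card (t : ℕ) (g : Γ) (x : α) : (capG par L n t g x).card ≤ n := by
  induction t generalizing g with
  | zero =>
    unfold capG
    split_ifs with h
    · exact h
    · exact Nat.zero_le _
  | succ t ih =>
    unfold capG
    split_ifs with h
    · exact h
    · exact ih _

theorem capG_congr {t : ℕ} {x y : α} (h : ∀ s ≤ t, ∀ g, L s g x = L s g y) (g : Γ) :
    capG par L n t g x = capG par L n t g y := by
  induction t generalizing g with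
  | zero =>
    unfold capG
    rw [h 0 le_rfl g]
  | succ t ih =>
    unfold capG
    rw [h (t + 1) le_rfl g, ih (fun s hs g => h s (hs.trans (Nat.le_succ t)) g) (par t g)]

variable {L n}

theorem capG_eq {t : ℕ} {g : Γ} {x : α} (h : (L t g x).card ≤ n) : capG par L n t g x = L t g x := by
  cases t with
  | zero =>
    unfold capG
    rw [if_pos h]
  | succ t =>
    unfold capG
    rw [if_pos h]

end gen

variable {ι Om Ξ Pt V Γ κ : Type} [Fintype ι] [DecidableEq ι] [Fintype Om] [Fintype Ξ] [Fintype Pt]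
  [Fintype V] {S : Sys ι Om Ξ Pt V Γ κ}

namespace Lst

variable {I : Finset ι}

/-- the list as a family on pairs (coins, vertices) -/
def unc (A : Lst S I) (t : ℕ) (g : Γ) (p : Ξ × (ι → Pt)) : Finset ℕ := A.L t g p.1 p.2

/-- THE CUT LIST -/
def cap (A : Lst S I) (n : ℕ) : Lst S I where
  L t g ξ x := capG S.par A.unc n t g (ξ, x)
  dep t g ξ := fun x y h => by
    show capG S.par A.unc n t g (ξ, x) = capG S.par A.unc n t g (ξ, y)
    exact capG_congr (x := (ξ, x)) (y := (ξ, y)) S.par A.unc n (fun s _ g => A.dep s g ξ _ _ h) g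
  mono t g ξ x := capG_mono S.par A.unc n (fun t g p => A.mono t g p.1 p.2) t g (ξ, x)

theorem cap_card (A : Lst S I) (n t : ℕ) (w : Om) : ((A.cap n).at' t w).card ≤ n :=
  capG_card S.par A.unc n t (S.gm t w) (S.xi w, S.x w)

theorem cap_sub (A : Lst S I) (n t : ℕ) (w : Om) : (A.cap n).at' t w ⊆ A.at' t w :=
  capG_sub S.par A.unc n (fun t g p => A.mono t g p.1 p.2) t (S.gm t w) (S.xi w, S.x w)

/-- the list does not change where it has at most `n` elements -/
theorem cap_eq (A : Lst S I) {n t : ℕ} {w : Om} (h : (A.at' t w).card ≤ n) : (A.cap n).at' t w = A.at' t w :=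
  capG_eq (L := A.unc) S.par (g := S.gm t w) (x := (S.xi w, S.x w)) h

/-! ### sums over the numbers -/

theorem sum_ind_le (A : Lst S I) {n t : ℕ} {w : Om} (h : (A.at' t w).card ≤ n) (N : Finset ℕ) :
    ∑ ν ∈ N, ind (ν ∈ A.at' t w) ≤ n := by
  classical
  have h1 : ∑ ν ∈ N, ind (ν ∈ A.at' t w) = ((N.filter (fun ν => ν ∈ A.at' t w)).card : ℝ) := by
    rw [Finset.card_filter]
    push_cast
    refine Finset.sum_congr rfl (fun ν _ => ?_)
    by_cases h2 : ν ∈ A.at' t w
    · rw [ind_of h2, if_pos h2]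
    · rw [ind_not h2, if_neg h2]
  rw [h1]
  have h2 : (N.filter (fun ν => ν ∈ A.at' t w)).card ≤ (A.at' t w).card :=
    Finset.card_le_card (fun ν hν => (Finset.mem_filter.1 hν).2)
  exact_mod_cast h2.trans h

/-- sum over the numbers of the probabilities of being in the list together with an event -/
theorem sum_Pr_le (A : Lst S I) {n t : ℕ} (h : ∀ w, S.P.p w ≠ 0 → (A.at' t w).card ≤ n) (N : Finset ℕ)
    (s : Om → Prop) : ∑ ν ∈ N, S.P.Pr (fun w => s w ∧ ν ∈ A.at' t w) ≤ n * S.P.Pr s := by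
  unfold FP.Pr
  rw [← S.P.E_sum, ← S.P.E_smul]
  refine S.P.E_mono (fun w hw => ?_)
  have h1 : ∑ ν ∈ N, ind (s w ∧ ν ∈ A.at' t w) = ind (s w) * ∑ ν ∈ N, ind (ν ∈ A.at' t w) := by
    rw [Finset.mul_sum]
    exact Finset.sum_congr rfl (fun ν _ => ind_and _ _)
  rw [h1, mul_comm]
  exact mul_le_mul_of_nonneg_right (A.sum_ind_le (h w hw) N) (ind_nonneg _)

/-- conditional form -/
theorem sum_ce_le (A : Lst S I) {n t : ℕ} (h : ∀ w, S.P.p w ≠ 0 → (A.at' t w).card ≤ n) (N : Finset ℕ)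
    {κ' : Type*} (Y : Om → κ') {w : Om} (hw : S.P.p w ≠ 0) :
    ∑ ν ∈ N, S.P.ce Y (fun v => ind (ν ∈ A.at' t v)) w ≤ n := by
  rw [← S.P.ce_sum]
  exact S.P.ce_le_const (fun v hv => A.sum_ind_le (h v hv) N) hw

end Lst

namespace PSt

variable {l : ι}

/-- the cut public set -/
def cap (A : PSt S l) (B : ℕ) : PSt S l where
  L := capG S.par A.L B
  dep _ g := fun _ _ h => capG_congr _ _ _ (fun s _ g => A.dep s g _ _ h) g
  mono := capG_mono _ _ _ A.mono

theorem cap_card (A : PSt S l) (B t : ℕ) (w : Om) : ((A.cap B).at' t w).card ≤ B := capG_card _ _ B t _ _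

theorem cap_sub (A : PSt S l) (B t : ℕ) (w : Om) : (A.cap B).at' t w ⊆ A.at' t w := capG_sub _ _ _ A.mono t _ _

theorem cap_eq (A : PSt S l) {B t : ℕ} {w : Om} (h : (A.at' t w).card ≤ B) : (A.cap B).at' t w = A.at' t w :=
  capG_eq (L := A.L) S.par h

end PSt

namespace BSt

variable {u l : ι}

/-- the cut box set -/
def cap (A : BSt S u l) (B : ℕ) : BSt S u l where
  L := capG S.par A.L B
  dep _ g := fun _ _ h h' => capG_congr _ _ _ (fun s hs g => A.dep s g _ _ h (fun i hi => S.cl_le hs (h' i hi))) g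
  mono := capG_mono _ _ _ A.mono

theorem cap_card (A : BSt S u l) (B t : ℕ) (w : Om) : ((A.cap B).at' t w).card ≤ B := capG_card _ _ B t _ _

theorem cap_sub (A : BSt S u l) (B t : ℕ) (w : Om) : (A.cap B).at' t w ⊆ A.at' t w := capG_sub _ _ _ A.mono t _ _

theorem cap_eq (A : BSt S u l) {B t : ℕ} {w : Om} (h : (A.at' t w).card ≤ B) : (A.cap B).at' t w = A.at' t w :=
  capG_eq (L := A.L) S.par h

end BSt

namespace NSt

variable {a : ι} (σ : NSt S a)

/-- THE STATE WITH CUT LISTS AND PUBLIC SETS -/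
def cap (n B : ℕ) : NSt S a where
  Z := σ.Z.cap n
  Lam u := if u = a then σ.Lam u else (σ.Lam u).cap n
  PZ := σ.PZ.cap B
  PS u := if u = a then σ.PS u else (σ.PS u).cap B
  pu := σ.pu
  tr := σ.tr
  PT u l := if u = a then σ.PT u l else (σ.PT u l).cap B
  bb u ν := if u = a then σ.bb u ν else min (σ.bb u ν) B
  wh := σ.wh
  W := σ.W
  h := σ.h
  X := σ.X
  F := σ.F
  c := σ.c

theorem cap_cardZ (n B t : ℕ) (w : Om) : ((σ.cap n B).Z.at' t w).card ≤ n := σ.Z.cap_card n t w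

theorem cap_cardPZ (n B t : ℕ) (w : Om) : ((σ.cap n B).PZ.at' t w).card ≤ B := σ.PZ.cap_card B t w

theorem cap_Lam {u : ι} (hu : u ≠ a) (n B : ℕ) : (σ.cap n B).Lam u = (σ.Lam u).cap n := by
  show (if u = a then σ.Lam u else (σ.Lam u).cap n) = _
  rw [if_neg hu]

theorem cap_Lam_a (n B : ℕ) : (σ.cap n B).Lam a = σ.Lam a := by
  show (if a = a then σ.Lam a else (σ.Lam a).cap n) = _
  rw [if_pos rfl]

theorem cap_PSu {u : ι} (hu : u ≠ a) (n B : ℕ) : (σ.cap n B).PS u = (σ.PS u).cap B := by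
  show (if u = a then σ.PS u else (σ.PS u).cap B) = _
  rw [if_neg hu]

theorem cap_PTu {u : ι} (hu : u ≠ a) (l : ι) (n B : ℕ) : (σ.cap n B).PT u l = (σ.PT u l).cap B := by
  show (if u = a then σ.PT u l else (σ.PT u l).cap B) = _
  rw [if_neg hu]

theorem cap_bb {u : ι} (hu : u ≠ a) (n B ν : ℕ) : (σ.cap n B).bb u ν = min (σ.bb u ν) B := by
  show (if u = a then σ.bb u ν else min (σ.bb u ν) B) = _
  rw [if_neg hu]

theorem cap_bb_a (n B : ℕ) : (σ.cap n B).bb a = σ.bb a := by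
  funext ν
  show (if a = a then σ.bb a ν else min (σ.bb a ν) B) = _
  rw [if_pos rfl]

theorem cap_bb_le {u : ι} (hu : u ≠ a) (n B ν : ℕ) : (σ.cap n B).bb u ν ≤ B := by
  rw [σ.cap_bb hu]
  exact min_le_right _ _

theorem cap_card (n B t : ℕ) (w : Om) {u : ι} (hu : u ≠ a) : ((σ.cap n B).lists t w u).card ≤ n := by
  unfold lists
  rw [σ.cap_Lam hu]
  exact (σ.Lam u).cap_card n t w

theorem cap_cardPS (n B t : ℕ) (w : Om) {u : ι} (hu : u ≠ a) : (((σ.cap n B).PS u).at' t w).card ≤ B := by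
  rw [σ.cap_PSu hu]
  exact (σ.PS u).cap_card B t w

theorem cap_cardPT (n B t : ℕ) (w : Om) {u : ι} (hu : u ≠ a) (l : ι) : (((σ.cap n B).PT u l).at' t w).card ≤ B := by
  rw [σ.cap_PTu hu]
  exact (σ.PT u l).cap_card B t w

theorem cap_shape {n B : ℕ} {WS : ι → Option (Finset ι)} : (σ.cap n B).Shape WS ↔ σ.Shape WS := Iff.rfl

variable {σ} {n B : ℕ} {A : ℝ} {dead : ℕ → Om → Prop}

theorem cap_Z (h : σ.Bd n B A dead) {t : ℕ} (ht : t ≤ S.n) {w : Om} (hd : ¬ dead t w) :
    (σ.cap n B).Z.at' t w = σ.Z.at' t w := σ.Z.cap_eq (h.cardZ t ht w hd)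

theorem cap_PZ (h : σ.Bd n B A dead) {t : ℕ} (ht : t ≤ S.n) {w : Om} (hd : ¬ dead t w) :
    (σ.cap n B).PZ.at' t w = σ.PZ.at' t w := σ.PZ.cap_eq (h.numZ t ht w hd)

theorem cap_PS (h : σ.Bd n B A dead) {t : ℕ} (ht : t ≤ S.n) {w : Om} (hd : ¬ dead t w) {u : ι} (hu : u ≠ a)
    (hp : σ.pu u) : ((σ.cap n B).PS u).at' t w = (σ.PS u).at' t w := by
  rw [cap_PSu _ hu]
  exact (σ.PS u).cap_eq (h.num t ht w hd u hu hp)

theorem cap_PT (h : σ.Bd n B A dead) {t : ℕ} (ht : t ≤ S.n) {w : Om} (hd : ¬ dead t w) {u : ι} (hu : u ≠ a) {l : ι}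
    (hl : l = a ∨ l ∈ σ.W u) : ((σ.cap n B).PT u l).at' t w = (σ.PT u l).at' t w := by
  rw [cap_PTu _ hu]
  exact (σ.PT u l).cap_eq (h.numT t ht w hd u hu l hl)

theorem cap_lists (h : σ.Bd n B A dead) {t : ℕ} (ht : t ≤ S.n) {w : Om} (hd : ¬ dead t w) :
    (σ.cap n B).lists t w = σ.lists t w := by
  funext u
  by_cases hu : u = a
  · subst hu
    unfold lists
    rw [cap_Lam_a]
  · unfold lists
    rw [cap_Lam _ hu]
    exact (σ.Lam u).cap_eq (h.card t ht w hd u hu)

theorem cap_bb_eq (h : σ.Bd n B A dead) {t : ℕ} (ht : t ≤ S.n) {w : Om} (hd : ¬ dead t w) {u : ι} (hu : u ≠ a) {ν : ℕ}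
    (hν : ν ∈ σ.lists t w u) : (σ.cap n B).bb u ν = σ.bb u ν := by
  rw [cap_bb _ hu, min_eq_left (h.numb t ht w hd u hu ν hν)]

theorem cap_bls (h : σ.Bd n B A dead) {t : ℕ} (ht : t ≤ S.n) {w : Om} (hd : ¬ dead t w) :
    (σ.cap n B).bls t w = σ.bls t w := by
  funext u
  unfold bls
  rw [cap_lists h ht hd]
  by_cases hu : u = a
  · subst hu
    rw [cap_bb_a]
  · exact Finset.image_congr (fun ν hν => cap_bb_eq h ht hd hu hν)

theorem cap_fams (h : σ.Bd n B A dead) {t : ℕ} (ht : t ≤ S.n) {w : Om} (hd : ¬ dead t w) :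
    (σ.cap n B).fams t w = σ.fams t w := by
  unfold fams
  rw [cap_lists h ht hd]

theorem mem_fams {t : ℕ} {w : Om} {ν : ι → ℕ} (hν : ν ∈ σ.fams t w) {u : ι} (hu : u ≠ a) : ν u ∈ σ.lists t w u := by
  unfold fams at hν
  rw [Fintype.mem_piFinset] at hν
  have := hν u
  rwa [if_neg hu] at this

theorem cap_cf (h : σ.Bd n B A dead) {t : ℕ} (ht : t ≤ S.n) {w : Om} (hd : ¬ dead t w) (ζ : ℕ) {ν : ι → ℕ}
    (hν : ν ∈ σ.fams t w) : (σ.cap n B).cf t w ζ ν = σ.cf t w ζ ν := by
  unfold cf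
  rw [cap_Z h ht hd, cap_bls h ht hd]
  have h1 : (fun u => (σ.cap n B).bb u (ν u)) = fun u => σ.bb u (ν u) := by
    funext u
    by_cases hu : u = a
    · subst hu
      rw [cap_bb_a]
    · exact cap_bb_eq h ht hd hu (mem_fams hν hu)
  rw [h1]
  rfl

theorem cap_val (h : σ.Bd n B A dead) {t : ℕ} (ht : t ≤ S.n) {w : Om} (hd : ¬ dead t w) :
    (σ.cap n B).val t w = σ.val t w := by
  funext d
  unfold val
  rw [cap_Z h ht hd, cap_fams h ht hd]
  refine Finset.sum_congr rfl fun ζ _ => Finset.sum_congr rfl fun ν hν => ?_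
  rw [cap_cf h ht hd ζ hν]
  rfl

theorem cap_T (h : σ.Bd n B A dead) {t : ℕ} (ht : t ≤ S.n) {w : Om} (hd : ¬ dead t w) :
    (σ.cap n B).T t w = σ.T t w := by
  unfold T
  rw [cap_val h ht hd]

theorem cap_Bd (h : σ.Bd n B A dead) : (σ.cap n B).Bd n B A dead where
  inc := h.inc
  cardZ t _ w _ := σ.cap_cardZ n B t w
  subZ t ht w hd := by
    rw [cap_Z h ht hd, cap_PZ h ht hd]
    exact h.subZ t ht w hd
  numZ t _ w _ := σ.cap_cardPZ n B t w
  card t _ w _ _ hu := σ.cap_card n B t w hu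
  sub t ht w hd u hu hp := by
    rw [cap_lists h ht hd, cap_PS h ht hd hu hp]
    exact h.sub t ht w hd u hu hp
  num t _ w _ _ hu _ := σ.cap_cardPS n B t w hu
  subT t ht w hd u hu l hl ν hν := by
    rw [cap_lists h ht hd] at hν
    rw [cap_PT h ht hd hu hl]
    exact h.subT t ht w hd u hu l hl ν hν
  numT t _ w _ _ hu l _ := σ.cap_cardPT n B t w hu l
  numb _ _ _ _ _ hu ν _ := σ.cap_bb_le hu n B ν
  inj t ht w hd u hu := by
    rw [cap_lists h ht hd]
    intro ν hν ν' hν' he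
    rw [cap_bb_eq h ht hd hu hν, cap_bb_eq h ht hd hu hν'] at he
    exact h.inj t ht w hd u hu hν hν' he
  sum t ht w hd := by
    rw [cap_Z h ht hd, cap_fams h ht hd]
    refine le_trans (le_of_eq ?_) (h.sum t ht w hd)
    refine Finset.sum_congr rfl fun ζ _ => Finset.sum_congr rfl fun ν hν => ?_
    rw [cap_cf h ht hd ζ hν]

theorem cap_close (h : σ.Bd n B A dead) {σ' : NSt S a} {q : ℝ} {dead' : ℕ → Om → Prop}
    (hdd : ∀ t w, dead t w → dead' t w) (hc : Close S σ σ' q dead') : Close S (σ.cap n B) σ' q dead' :=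
  fun t ht w hd => by
    rw [cap_T h ht (fun h1 => hd (hdd t w h1))]
    exact hc t ht w hd

end NSt

end

end Pool.Agent.GMN
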