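import Pool.Agent.GMN.State

/-!
# GMN/Enum (helper88): PUBLIC SETS of a face from the compatible cells

Codes of births of a population are public in: exact values of some vertices, CELLS of the others.  `BSt S u w` (BOX SET)
= cumulative coin free finite sets of codes, functions of the exact vertices but `u`, `w`, of the CELL of `x w` and of the
node (nothing about `x u`).

* `BSt.up` : on the face `V - u` (everything is known but `x u`) a box set is a public set;
* `BSt.cmp : BSt S u w → BSt S w u` : the cell of `x w` is unknown, the cell of `x u` is known: new elements in all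
  COMPATIBLE cells of `x w`; `sub_cmp` : it contains the box set; `E_cmp` : its mean size is at most `S.K` times the mean
  size of the box set (`Sys.cnt`, free vertex `u`); `b.cmp.up` = public set of the face `V - w`, `b.cmp.cmp` = all codes
  which are compatible with (exact vertices but `u`, `w`, cell of `x w`, node);
* `cmp_large` : so it has at most `B'` elements outside probability `S.K * B / B'`.
-/

set_option autoImplicit false
set_option linter.unusedSectionVars false

namespace Pool.Agent.GMN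

open Finset Pool.Agent.PWZ Pool.Agent.M3 Pool.Agent.M3.TS Pool.Agent.GM

noncomputable section

/-- comparison of two events on the fibres of `Z` -/
theorem E_ind_le_of_fibre {Om α : Type} [Fintype Om] (P : FP Om) {Z : Om → α} {h : Om → ℝ} (hh : Fac Z h)
    (h0 : ∀ w, 0 ≤ h w) {A B : Om → Prop} {K : ℝ}
    (hAB : ∀ w, P.p w ≠ 0 → P.Pr (fun v => Z v = Z w ∧ A v) ≤ K * P.Pr (fun v => Z v = Z w ∧ B v)) :
    P.E (fun w => h w * ind (A w)) ≤ K * P.E (fun w => h w * ind (B w)) := by
  have e1 := P.E_mul_ce hh (fun v => ind (A v))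
  have e2 := P.E_mul_ce hh (fun v => ind (B v))
  rw [← e1, ← e2, ← P.E_smul]
  refine P.E_mono fun w hw => ?_
  have h1 : P.ce Z (fun v => ind (A v)) w ≤ K * P.ce Z (fun v => ind (B v)) w := by
    unfold FP.ce
    rw [mul_div_assoc']
    refine div_le_div_of_nonneg_right ?_ (P.m_pos Z hw).le
    have h2 := hAB w hw
    unfold FP.Pr at h2
    simp only [ind_and] at h2
    exact h2
  calc h w * P.ce Z (fun v => ind (A v)) w ≤ h w * (K * P.ce Z (fun v => ind (B v)) w) :=
        mul_le_mul_of_nonneg_left h1 (h0 w)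
    _ = K * (h w * P.ce Z (fun v => ind (B v)) w) := by ring

variable {ι Om Ξ Pt V Γ κ : Type} [Fintype ι] [DecidableEq ι] [Fintype Om] [Fintype Ξ] [Fintype Pt]
  [Fintype V] {S : Sys ι Om Ξ Pt V Γ κ}


/-- fewer cells -/
theorem DepC.down {β : Type} {t : ℕ} {I J : Finset ι} {f : (ι → Pt) → β} (h : DepC S t I J f) :
    DepC S (t + 1) I J f := fun x y hI hJ => h x y hI fun i hi => S.nest _ _ _ (hJ i hi)

theorem DepC.mono {β : Type} {t : ℕ} {I J I' J' : Finset ι} {f : (ι → Pt) → β} (h : DepC S t I J f) (hI : I ⊆ I')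
    (hJ : J ⊆ I' ∪ J') : DepC S t I' J' f := fun x y h1 h2 => h x y (fun i hi => h1 i (hI hi)) fun i hi => by
  rcases Finset.mem_union.1 (hJ hi) with h3 | h3
  · rw [h1 i h3]
  · exact h2 i h3

namespace BSt

variable {u w : ι}

/-- a box set is a public set of the face without `u` -/
def up (b : BSt S u w) (huw : u ≠ w) : PSt S u where
  L := b.L
  dep t g := fun x y h => b.dep t g x y (fun i hi => h i (mem_of_mem_erase hi)) fun i hi => by
    rw [h i (by rw [Finset.mem_singleton.1 hi]; exact mem_erase.2 ⟨huw.symm, mem_univ w⟩)]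
  mono := b.mono

@[simp] theorem up_at (b : BSt S u w) (huw : u ≠ w) (t : ℕ) (ω : Om) : (b.up huw).at' t ω = b.at' t ω := rfl

/-- the new elements -/
def new (b : BSt S u w) : ℕ → Γ → (ι → Pt) → Finset ℕ
  | 0, g, x => b.L 0 g x
  | t + 1, g, x => b.L (t + 1) g x \ b.L t (S.par t g) x

theorem new_dep (b : BSt S u w) (t : ℕ) (g : Γ) : DepC S t ((univ.erase u).erase w) {w} (b.new t g) := by
  cases t with
  | zero => exact b.dep 0 g
  | succ t =>
    intro x y h1 h2
    show b.L (t + 1) g x \ b.L t (S.par t g) x = b.L (t + 1) g y \ b.L t (S.par t g) y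
    rw [b.dep (t + 1) g x y h1 h2, (b.dep t (S.par t g)).down x y h1 h2]

/-- the size of the box set is the number of new elements up to now -/
theorem sum_new (b : BSt S u w) (t : ℕ) (ω : Om) :
    ∑ s ∈ range (t + 1), ((b.new s (S.gm s ω) (S.x ω)).card : ℝ) = ((b.at' t ω).card : ℝ) := by
  induction t with
  | zero =>
    rw [Finset.sum_range_one]
    rfl
  | succ t ih =>
    rw [Finset.sum_range_succ, ih]
    have h1 : b.new (t + 1) (S.gm (t + 1) ω) (S.x ω) = b.at' (t + 1) ω \ b.at' t ω := by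
      show b.L (t + 1) (S.gm (t + 1) ω) (S.x ω) \ b.L t (S.par t (S.gm (t + 1) ω)) (S.x ω) = _
      rw [S.par_gm]
      rfl
    rw [h1, Finset.card_sdiff_of_subset (b.at_succ t ω), Nat.cast_sub (Finset.card_le_card (b.at_succ t ω))]
    ring

end BSt

/-- `β` is a compatible cell of `x w` -/
def CmpE (S : Sys ι Om Ξ Pt V Γ κ) (w : ι) (t : ℕ) (g : Γ) (x : ι → Pt) (β : κ) : Prop :=
  ∃ ω' : Om, (∀ i, i ≠ w → S.cl t (S.x ω' i) = S.cl t (x i)) ∧ S.cl t (S.x ω' w) = β ∧ S.gm t ω' = g

theorem CmpE_congr {w : ι} {t : ℕ} {g : Γ} {x y : ι → Pt} {β : κ} (h : ∀ i, i ≠ w → S.cl t (x i) = S.cl t (y i)) :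
    CmpE S w t g x β ↔ CmpE S w t g y β := by
  unfold CmpE
  constructor
  · rintro ⟨o, h1, h2⟩
    exact ⟨o, fun i hi => (h1 i hi).trans (h i hi), h2⟩
  · rintro ⟨o, h1, h2⟩
    exact ⟨o, fun i hi => (h1 i hi).trans (h i hi).symm, h2⟩

theorem CmpE_self (w : ι) (t : ℕ) (ω : Om) : CmpE S w t (S.gm t ω) (S.x ω) (S.cl t (S.x ω w)) :=
  ⟨ω, fun _ _ => rfl, rfl, rfl⟩

/-- a point of the cell `β` -/
def erp (S : Sys ι Om Ξ Pt V Γ κ) (t : ℕ) (β : κ) (h : ∃ q, S.cl t q = β) : Pt := h.choose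

/-- representatives of the cells -/
def erep (S : Sys ι Om Ξ Pt V Γ κ) (t : ℕ) (q : Pt) : Pt := erp S t (S.cl t q) ⟨q, rfl⟩

theorem cl_erep (t : ℕ) (q : Pt) : S.cl t (erep S t q) = S.cl t q :=
  (⟨q, rfl⟩ : ∃ q', S.cl t q' = S.cl t q).choose_spec

theorem erep_congr {t : ℕ} {q q' : Pt} (h : S.cl t q = S.cl t q') : erep S t q = erep S t q' := by
  have h1 : ∀ β β' (hb : ∃ q, S.cl t q = β) (hb' : ∃ q, S.cl t q = β'), β = β' → erp S t β hb = erp S t β' hb' := by
    intro β β' hb hb' h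
    subst h
    rfl
  exact h1 _ _ _ _ h

open Classical in
/-- the representatives -/
def ereps (S : Sys ι Om Ξ Pt V Γ κ) (t : ℕ) : Finset Pt := (univ : Finset Pt).image (erep S t)

theorem erep_mem (t : ℕ) (q : Pt) : erep S t q ∈ ereps S t := by
  classical
  unfold ereps
  exact Finset.mem_image_of_mem _ (mem_univ q)

theorem erep_of_mem {t : ℕ} {q : Pt} (h : q ∈ ereps S t) : erep S t q = q := by
  classical
  unfold ereps at h
  obtain ⟨q0, _, rfl⟩ := Finset.mem_image.1 h
  exact erep_congr (cl_erep t q0)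

theorem sum_ereps_le (t : ℕ) (z : Pt) : ∑ q ∈ ereps S t, ind (S.cl t z = S.cl t q) ≤ 1 := by
  classical
  have h1 : ∀ q ∈ ereps S t, ind (S.cl t z = S.cl t q) ≤ if q = erep S t z then (1 : ℝ) else 0 := by
    intro q hq
    by_cases h : S.cl t z = S.cl t q
    · rw [ind_of h, if_pos]
      rw [erep_congr h, erep_of_mem hq]
    · rw [ind_not h]
      split_ifs <;> norm_num
  refine (Finset.sum_le_sum h1).trans ?_
  rw [Finset.sum_ite_eq']
  split_ifs <;> norm_num

namespace BSt

variable {u w : ι}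

open Classical in
/-- the new elements in all compatible cells of `x w` -/
def ext (b : BSt S u w) (t : ℕ) (g : Γ) (x : ι → Pt) : Finset ℕ :=
  (ereps S t).biUnion fun q => if CmpE S w t g x (S.cl t q) then b.new t g (Function.update x w q) else ∅

theorem ext_dep (b : BSt S u w) (t : ℕ) (g : Γ) : DepC S t ((univ.erase w).erase u) {u} (b.ext t g) := by
  classical
  intro x y h hu
  unfold ext
  refine Finset.biUnion_congr rfl fun q _ => ?_
  have h1 : b.new t g (Function.update x w q) = b.new t g (Function.update y w q) := by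
    refine b.new_dep t g _ _ (fun i hi => ?_) fun i hi => ?_
    · have h3 : i ≠ w := ne_of_mem_erase hi
      have h4 : i ≠ u := ne_of_mem_erase (mem_of_mem_erase hi)
      rw [Function.update_of_ne h3, Function.update_of_ne h3, h i (mem_erase.2 ⟨h4, mem_erase.2 ⟨h3, mem_univ i⟩⟩)]
    · rw [Finset.mem_singleton.1 hi, Function.update_self, Function.update_self]
  rw [h1]
  have h2 : CmpE S w t g x (S.cl t q) ↔ CmpE S w t g y (S.cl t q) :=
    CmpE_congr fun i hi => by
      by_cases hiu : i = u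
      · exact hu i (Finset.mem_singleton.2 hiu)
      · rw [h i (mem_erase.2 ⟨hiu, mem_erase.2 ⟨hi, mem_univ i⟩⟩)]
  by_cases h3 : CmpE S w t g x (S.cl t q)
  · rw [if_pos h3, if_pos (h2.1 h3)]
  · rw [if_neg h3, if_neg fun h' => h3 (h2.2 h')]

/-- the true cell -/
theorem new_upd (b : BSt S u w) (t : ℕ) (g : Γ) (x : ι → Pt) {q : Pt} (h : S.cl t q = S.cl t (x w)) :
    b.new t g (Function.update x w q) = b.new t g x := by
  refine b.new_dep t g _ _ (fun i hi => ?_) fun i hi => ?_
  · rw [Function.update_of_ne (ne_of_mem_erase hi)]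
  · rw [Finset.mem_singleton.1 hi, Function.update_self, h]

theorem new_sub_ext (b : BSt S u w) (t : ℕ) (ω : Om) : b.new t (S.gm t ω) (S.x ω) ⊆ b.ext t (S.gm t ω) (S.x ω) := by
  classical
  intro ν hν
  unfold ext
  rw [Finset.mem_biUnion]
  refine ⟨erep S t (S.x ω w), erep_mem t _, ?_⟩
  rw [if_pos (by rw [cl_erep]; exact CmpE_self w t ω), b.new_upd t _ _ (cl_erep t _)]
  exact hν

/-- mean number of new elements in the compatible cells -/
theorem E_ext (b : BSt S u w) (huw : u ≠ w) (t : ℕ) :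
    S.P.E (fun ω => ((b.ext t (S.gm t ω) (S.x ω)).card : ℝ)) ≤
      S.K * S.P.E (fun ω => ((b.new t (S.gm t ω) (S.x ω)).card : ℝ)) := by
  classical
  have hK : 0 ≤ S.K := le_trans zero_le_one S.K1
  have h1 : ∀ ω, ((b.ext t (S.gm t ω) (S.x ω)).card : ℝ) ≤
      ∑ q ∈ ereps S t, ((b.new t (S.gm t ω) (Function.update (S.x ω) w q)).card : ℝ) *
        ind (CmpE S w t (S.gm t ω) (S.x ω) (S.cl t q)) := by
    intro ω
    have h2 : (b.ext t (S.gm t ω) (S.x ω)).card ≤ ∑ q ∈ ereps S t,
        (if CmpE S w t (S.gm t ω) (S.x ω) (S.cl t q) then b.new t (S.gm t ω) (Function.update (S.x ω) w q) else ∅).card :=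
      Finset.card_biUnion_le
    have h3 : ((b.ext t (S.gm t ω) (S.x ω)).card : ℝ) ≤ ∑ q ∈ ereps S t,
        (((if CmpE S w t (S.gm t ω) (S.x ω) (S.cl t q) then b.new t (S.gm t ω) (Function.update (S.x ω) w q)
          else ∅).card : ℕ) : ℝ) := by exact_mod_cast h2
    refine h3.trans (Finset.sum_le_sum fun q _ => ?_)
    by_cases h : CmpE S w t (S.gm t ω) (S.x ω) (S.cl t q)
    · rw [if_pos h, ind_of h, mul_one]
    · rw [if_neg h, ind_not h, mul_zero, Finset.card_empty, Nat.cast_zero]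
  have h2 : ∀ q ∈ ereps S t, S.P.E (fun ω => ((b.new t (S.gm t ω) (Function.update (S.x ω) w q)).card : ℝ) *
      ind (CmpE S w t (S.gm t ω) (S.x ω) (S.cl t q))) ≤
      S.K * S.P.E (fun ω => ((b.new t (S.gm t ω) (S.x ω)).card : ℝ) * ind (S.cl t (S.x ω w) = S.cl t q)) := by
    intro q _
    have h3 : Fac (fun ω => (res ((univ.erase u).erase w) (S.x ω), S.gm t ω))
        (fun ω => ((b.new t (S.gm t ω) (Function.update (S.x ω) w q)).card : ℝ)) := by
      intro o o' h
      have h4 : ∀ i ∈ (univ.erase u).erase w, S.x o i = S.x o' i := res_eq.1 (Prod.ext_iff.1 h).1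
      have h5 : S.gm t o = S.gm t o' := (Prod.ext_iff.1 h).2
      show ((b.new t (S.gm t o) (Function.update (S.x o) w q)).card : ℝ) =
        ((b.new t (S.gm t o') (Function.update (S.x o') w q)).card : ℝ)
      rw [h5]
      congr 2
      refine b.new_dep t _ _ _ (fun i hi => ?_) fun i hi => ?_
      · rw [Function.update_of_ne (ne_of_mem_erase hi), Function.update_of_ne (ne_of_mem_erase hi), h4 i hi]
      · rw [Finset.mem_singleton.1 hi, Function.update_self, Function.update_self]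
    have h4 := E_ind_le_of_fibre S.P h3 (fun _ => Nat.cast_nonneg _)
      (A := fun ω => CmpE S w t (S.gm t ω) (S.x ω) (S.cl t q)) (B := fun ω => S.cl t (S.x ω w) = S.cl t q) (K := S.K)
      (by
        intro o _
        have h5 := S.cnt t (S.gm t o) ((univ.erase u).erase w) (S.x o) w (S.cl t q) (notMem_erase w _)
          ⟨u, huw, fun h => notMem_erase u _ (mem_of_mem_erase h)⟩
        refine le_trans (le_of_eq ?_) (h5.trans (le_of_eq ?_))
        · refine S.P.Pr_congr fun v _ => ?_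
          show (res ((univ.erase u).erase w) (S.x v), S.gm t v) = (res ((univ.erase u).erase w) (S.x o), S.gm t o) ∧ _ ↔ _
          rw [Prod.ext_iff]
          constructor
          · rintro ⟨⟨h6, h7⟩, o', h8, h9, h10⟩
            have h6' : ∀ i ∈ (univ.erase u).erase w, S.x v i = S.x o i := res_eq.1 h6
            have h7' : S.gm t v = S.gm t o := h7
            refine ⟨h6', h7', o', fun i hi => ?_, h9, fun i _ hiw => h8 i hiw, h10.trans h7'⟩
            rw [h8 i (ne_of_mem_erase hi), h6' i hi]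
          · rintro ⟨h6, h7, o', h8, h9, h10, h11⟩
            refine ⟨⟨res_eq.2 h6, h7⟩, o', fun i hiw => ?_, h9, h11.trans h7.symm⟩
            by_cases hi : i ∈ (univ.erase u).erase w
            · rw [h8 i hi, h6 i hi]
            · exact h10 i hi hiw
        · congr 1
          refine S.P.Pr_congr fun v _ => ?_
          show _ ↔ (res ((univ.erase u).erase w) (S.x v), S.gm t v) = (res ((univ.erase u).erase w) (S.x o), S.gm t o) ∧ _
          rw [Prod.ext_iff]
          constructor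
          · rintro ⟨h6, h7, h8⟩
            exact ⟨⟨res_eq.2 h6, h7⟩, h8⟩
          · rintro ⟨⟨h6, h7⟩, h8⟩
            exact ⟨res_eq.1 h6, h7, h8⟩)
    refine h4.trans (le_of_eq ?_)
    congr 1
    refine S.P.E_congr fun o _ => ?_
    by_cases h : S.cl t (S.x o w) = S.cl t q
    · rw [b.new_upd t _ _ h.symm]
    · rw [ind_not h, mul_zero, mul_zero]
  calc S.P.E (fun ω => ((b.ext t (S.gm t ω) (S.x ω)).card : ℝ))
      ≤ S.P.E (fun ω => ∑ q ∈ ereps S t, ((b.new t (S.gm t ω) (Function.update (S.x ω) w q)).card : ℝ) *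
        ind (CmpE S w t (S.gm t ω) (S.x ω) (S.cl t q))) := S.P.E_mono fun ω _ => h1 ω
    _ = ∑ q ∈ ereps S t, S.P.E (fun ω => ((b.new t (S.gm t ω) (Function.update (S.x ω) w q)).card : ℝ) *
        ind (CmpE S w t (S.gm t ω) (S.x ω) (S.cl t q))) := by rw [S.P.E_sum]
    _ ≤ ∑ q ∈ ereps S t, S.K * S.P.E (fun ω => ((b.new t (S.gm t ω) (S.x ω)).card : ℝ) *
        ind (S.cl t (S.x ω w) = S.cl t q)) := Finset.sum_le_sum h2
    _ = S.K * S.P.E (fun ω => ∑ q ∈ ereps S t, ((b.new t (S.gm t ω) (S.x ω)).card : ℝ) *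
        ind (S.cl t (S.x ω w) = S.cl t q)) := by rw [← Finset.mul_sum, S.P.E_sum]
    _ ≤ _ := by
        refine mul_le_mul_of_nonneg_left (S.P.E_mono fun ω _ => ?_) hK
        rw [← Finset.mul_sum]
        calc ((b.new t (S.gm t ω) (S.x ω)).card : ℝ) * ∑ q ∈ ereps S t, ind (S.cl t (S.x ω w) = S.cl t q)
            ≤ ((b.new t (S.gm t ω) (S.x ω)).card : ℝ) * 1 :=
              mul_le_mul_of_nonneg_left (sum_ereps_le t _) (Nat.cast_nonneg _)
          _ = _ := mul_one _

/-- the sets of the face without `w` -/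
def cmpL (b : BSt S u w) : ℕ → Γ → (ι → Pt) → Finset ℕ
  | 0, g, x => b.ext 0 g x
  | t + 1, g, x => cmpL b t (S.par t g) x ∪ b.ext (t + 1) g x

/-- **the compatible codes when the cell of `x w` is unknown** -/
def cmp (b : BSt S u w) : BSt S w u where
  L := b.cmpL
  dep t := by
    induction t with
    | zero => exact fun g => b.ext_dep 0 g
    | succ t ih =>
      intro g x y h hu
      show b.cmpL t (S.par t g) x ∪ b.ext (t + 1) g x = b.cmpL t (S.par t g) y ∪ b.ext (t + 1) g y
      rw [(ih (S.par t g)).down x y h hu, b.ext_dep (t + 1) g x y h hu]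
  mono t g x := Finset.subset_union_left

theorem cmp_at_zero (b : BSt S u w) (ω : Om) : b.cmp.at' 0 ω = b.ext 0 (S.gm 0 ω) (S.x ω) := rfl

theorem cmp_at_succ (b : BSt S u w) (t : ℕ) (ω : Om) :
    b.cmp.at' (t + 1) ω = b.cmp.at' t ω ∪ b.ext (t + 1) (S.gm (t + 1) ω) (S.x ω) := by
  show b.cmpL t (S.par t (S.gm (t + 1) ω)) (S.x ω) ∪ _ = _
  rw [S.par_gm]
  rfl

/-- it contains the box set -/
theorem sub_cmp (b : BSt S u w) (t : ℕ) (ω : Om) : b.at' t ω ⊆ b.cmp.at' t ω := by
  induction t with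
  | zero => exact b.new_sub_ext 0 ω
  | succ t ih =>
    rw [b.cmp_at_succ]
    intro ν hν
    by_cases h : ν ∈ b.at' t ω
    · exact Finset.mem_union_left _ (ih h)
    · refine Finset.mem_union_right _ (b.new_sub_ext (t + 1) ω ?_)
      show ν ∈ b.L (t + 1) (S.gm (t + 1) ω) (S.x ω) \ b.L t (S.par t (S.gm (t + 1) ω)) (S.x ω)
      rw [S.par_gm]
      exact Finset.mem_sdiff.2 ⟨hν, h⟩

theorem card_cmp_le (b : BSt S u w) (t : ℕ) (ω : Om) :
    ((b.cmp.at' t ω).card : ℝ) ≤ ∑ s ∈ range (t + 1), ((b.ext s (S.gm s ω) (S.x ω)).card : ℝ) := by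
  induction t with
  | zero => rw [Finset.sum_range_one, b.cmp_at_zero]
  | succ t ih =>
    rw [b.cmp_at_succ, Finset.sum_range_succ]
    have h1 : ((b.cmp.at' t ω ∪ b.ext (t + 1) (S.gm (t + 1) ω) (S.x ω)).card : ℝ) ≤
        (b.cmp.at' t ω).card + (b.ext (t + 1) (S.gm (t + 1) ω) (S.x ω)).card := by
      exact_mod_cast Finset.card_union_le _ _
    linarith

/-- **its mean size** -/
theorem E_cmp (b : BSt S u w) (huw : u ≠ w) (t : ℕ) :
    S.P.E (fun ω => ((b.cmp.at' t ω).card : ℝ)) ≤ S.K * S.P.E (fun ω => ((b.at' t ω).card : ℝ)) := by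
  calc S.P.E (fun ω => ((b.cmp.at' t ω).card : ℝ))
      ≤ S.P.E (fun ω => ∑ s ∈ range (t + 1), ((b.ext s (S.gm s ω) (S.x ω)).card : ℝ)) :=
        S.P.E_mono fun ω _ => b.card_cmp_le t ω
    _ = ∑ s ∈ range (t + 1), S.P.E (fun ω => ((b.ext s (S.gm s ω) (S.x ω)).card : ℝ)) := by rw [S.P.E_sum]
    _ ≤ ∑ s ∈ range (t + 1), S.K * S.P.E (fun ω => ((b.new s (S.gm s ω) (S.x ω)).card : ℝ)) :=
        Finset.sum_le_sum fun s _ => b.E_ext huw s
    _ = S.K * S.P.E (fun ω => ∑ s ∈ range (t + 1), ((b.new s (S.gm s ω) (S.x ω)).card : ℝ)) := by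
        rw [← Finset.mul_sum, S.P.E_sum]
    _ = _ := by
        congr 1
        exact S.P.E_congr fun ω _ => b.sum_new t ω

/-- **all codes which are compatible with (exact vertices but `u`, `w`, cell of `x w`, node)** : mean size -/
theorem E_cmp_cmp (b : BSt S u w) (huw : u ≠ w) (t : ℕ) :
    S.P.E (fun ω => ((b.cmp.cmp.at' t ω).card : ℝ)) ≤ S.K ^ 2 * S.P.E (fun ω => ((b.at' t ω).card : ℝ)) := by
  have h1 := b.cmp.E_cmp huw.symm t
  have h2 := b.E_cmp huw t
  have hK : 0 ≤ S.K := le_trans zero_le_one S.K1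
  refine h1.trans ((mul_le_mul_of_nonneg_left h2 hK).trans (le_of_eq ?_))
  ring

theorem sub_cmp_cmp (b : BSt S u w) (t : ℕ) (ω : Om) : b.cmp.at' t ω ⊆ b.cmp.cmp.at' t ω := b.cmp.sub_cmp t ω

/-- outside a small probability it is not large -/
theorem cmp_large (b : BSt S u w) (huw : u ≠ w) (t : ℕ) {B B' : ℝ} (hB : S.P.E (fun ω => ((b.at' t ω).card : ℝ)) ≤ B)
    (hB' : 0 < B') : S.P.Pr (fun ω => B' ≤ ((b.cmp.at' t ω).card : ℝ)) ≤ S.K * B / B' := by
  have h1 := S.P.markov (f := fun ω => ((b.cmp.at' t ω).card : ℝ)) (fun ω _ => Nat.cast_nonneg _) B'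
  rw [le_div_iff₀ hB', mul_comm]
  refine h1.trans ((b.E_cmp huw t).trans ?_)
  exact mul_le_mul_of_nonneg_left hB (le_trans zero_le_one S.K1)

end BSt

end

end Pool.Agent.GMN
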