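import Pool.Agent.GMN.JRv

/-!
# GMN.Scale (row N, 4.3): indices, scales with a cut, nested sums (deterministic part of `JR_v`)

`Wt` = types of names (proper subsets of `[v]`), partially ordered; a SYSTEM is `𝔳 : Wt → Nm`, its INDEX of type `W` is
`res W 𝔳 = (W, 𝔳 restricted to the types ≤ W)`; `ixs 𝔳` = all its indices.
`d i x` = relative density of the last name of `x` given the lower ones.  Sum over the SIBLINGS (other last name) of the
running maxima: `Sb i x`.  Scale `Zs B i x` = maximum of `d j x` over `j ≤ i` with `Sb j x ≤ B`.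

* `sum_top` : sum of the scales over the siblings is at most `B`, pathwise;
* `nested` : nested sums;
* `sumB` : the hypothesis `sumB` of `JRV` with `B ^ |Wt|`;
* `mass` : closeness for the densities gives the hypothesis `mass` of `JRV` for `Gs` = good and nothing heavy.
-/

set_option autoImplicit false
set_option linter.unusedSectionVars false

namespace Pool.Agent.GMN

open Finset Pool.Agent.PWZ Pool.Agent.M3

noncomputable section

section idx

variable {Wt Nm : Type*} [Fintype Wt] [DecidableEq Wt] [PartialOrder Wt] [DecidableLE Wt] [DecidableEq Nm]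
  [Inhabited Nm]

/-- the index of type `W` of a system -/
def res (W : Wt) (𝔳 : Wt → Nm) : Wt × (Wt → Nm) := (W, fun W' => if W' ≤ W then 𝔳 W' else default)

/-- the indices of a system -/
def ixs (𝔳 : Wt → Nm) : Finset (Wt × (Wt → Nm)) := univ.image fun W => res W 𝔳

theorem res_fst (W : Wt) (𝔳 : Wt → Nm) : (res W 𝔳).1 = W := rfl

theorem mem_ixs {𝔳 : Wt → Nm} {x : Wt × (Wt → Nm)} : x ∈ ixs 𝔳 ↔ x = res x.1 𝔳 := by
  unfold ixs
  rw [mem_image]
  constructor
  · rintro ⟨W, _, rfl⟩; rfl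
  · intro h; exact ⟨x.1, mem_univ _, h.symm⟩

theorem res_mem (W : Wt) (𝔳 : Wt → Nm) : res W 𝔳 ∈ ixs 𝔳 := mem_ixs.2 rfl

theorem card_ixs (𝔳 : Wt → Nm) : (ixs 𝔳).card ≤ Fintype.card Wt := by
  unfold ixs
  exact Finset.card_image_le.trans (by rw [Finset.card_univ])

theorem prod_ixs (𝔳 : Wt → Nm) (F : Wt × (Wt → Nm) → ℝ) : ∏ x ∈ ixs 𝔳, F x = ∏ W, F (res W 𝔳) := by
  unfold ixs
  rw [Finset.prod_image]
  intro W _ W' _ h
  exact congrArg Prod.fst h

theorem res_congr {W : Wt} {𝔳 𝔲 : Wt → Nm} (h : ∀ W' ≤ W, 𝔳 W' = 𝔲 W') : res W 𝔳 = res W 𝔲 := by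
  unfold res
  refine Prod.ext rfl ?_
  funext W'
  by_cases h' : W' ≤ W
  · show (if W' ≤ W then 𝔳 W' else default) = if W' ≤ W then 𝔲 W' else default
    rw [if_pos h', if_pos h', h W' h']
  · show (if W' ≤ W then 𝔳 W' else default) = if W' ≤ W then 𝔲 W' else default
    rw [if_neg h', if_neg h']

theorem res_top (W : Wt) (𝔳 : Wt → Nm) : (res W 𝔳).2 W = 𝔳 W := by
  show (if W ≤ W then 𝔳 W else default) = 𝔳 W
  rw [if_pos le_rfl]

/-- sibling of an index -/
def sibl (x : Wt × (Wt → Nm)) (ν : Nm) : Wt × (Wt → Nm) := (x.1, Function.update x.2 x.1 ν)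

theorem sibl_res (W : Wt) (𝔳 : Wt → Nm) (ν : Nm) : sibl (res W 𝔳) ν = res W (Function.update 𝔳 W ν) := by
  unfold sibl res
  refine Prod.ext rfl ?_
  funext W'
  show Function.update (fun W' => if W' ≤ W then 𝔳 W' else default) W ν W' =
    if W' ≤ W then Function.update 𝔳 W ν W' else default
  rcases eq_or_ne W' W with e | e
  · subst e; rw [Function.update_self, Function.update_self, if_pos le_rfl]
  · rw [Function.update_of_ne e, Function.update_of_ne e]

theorem sibl_self (x : Wt × (Wt → Nm)) : sibl x (x.2 x.1) = x := by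
  unfold sibl
  rw [Function.update_eq_self]

variable [Fintype Nm]

/-- NESTED SUMS -/
theorem nested {g : Wt → (Wt → Nm) → ℝ} (g0 : ∀ W 𝔳, 0 ≤ g W 𝔳)
    (hg : ∀ W 𝔳 𝔲, (∀ W' ≤ W, 𝔳 W' = 𝔲 W') → g W 𝔳 = g W 𝔲) {B : ℝ} (hB : 0 ≤ B)
    (hs : ∀ W 𝔳, ∑ ν, g W (Function.update 𝔳 W ν) ≤ B) :
    ∑ 𝔳 : Wt → Nm, ∏ W, g W 𝔳 ≤ B ^ Fintype.card Wt := by
  classical
  have key : ∀ (n : ℕ) (S : Finset Wt), S.card = n → ∀ 𝔲 : Wt → Nm,
      ∑ 𝔳 ∈ Fintype.piFinset (fun W => if W ∈ S then univ else {𝔲 W}), ∏ W ∈ S, g W 𝔳 ≤ B ^ n := by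
    intro n
    induction n with
    | zero =>
      intro S hS 𝔲
      rw [Finset.card_eq_zero] at hS
      subst hS
      simp
    | succ n ih =>
      intro S hS 𝔲
      have hne : S.Nonempty := by
        rw [← Finset.card_pos]; omega
      obtain ⟨W, hW, hmax⟩ := S.exists_maximal hne
      -- the coordinate `W` last
      have h1 : ∑ 𝔳 ∈ Fintype.piFinset (fun W => if W ∈ S then univ else {𝔲 W}), ∏ W ∈ S, g W 𝔳 =
          ∑ p ∈ Fintype.piFinset (fun W' => if W' ∈ S.erase W then univ else {𝔲 W'}) ×ˢ (univ : Finset Nm),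
            ∏ W' ∈ S, g W' (Function.update p.1 W p.2) := by
        refine Finset.sum_bij' (fun 𝔳 _ => (Function.update 𝔳 W (𝔲 W), 𝔳 W)) (fun p _ => Function.update p.1 W p.2)
          ?_ ?_ ?_ ?_ ?_
        · intro 𝔳 h𝔳
          rw [Fintype.mem_piFinset] at h𝔳
          rw [mem_product]
          refine ⟨?_, mem_univ _⟩
          rw [Fintype.mem_piFinset]
          intro W'
          rcases eq_or_ne W' W with e | e
          · subst e
            rw [if_neg (Finset.notMem_erase _ _)]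
            simp
          · have h2 := h𝔳 W'
            have e2 : (Function.update 𝔳 W (𝔲 W), 𝔳 W).1 W' = 𝔳 W' := Function.update_of_ne e _ _
            rw [e2]
            by_cases hS' : W' ∈ S
            · rw [if_pos (mem_erase.2 ⟨e, hS'⟩)]; exact mem_univ _
            · rw [if_neg (fun hh => hS' (mem_of_mem_erase hh))]
              rwa [if_neg hS'] at h2
        · intro p hp
          rw [mem_product] at hp
          have hp1 := hp.1
          rw [Fintype.mem_piFinset] at hp1 ⊢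
          intro W'
          rcases eq_or_ne W' W with e | e
          · subst e
            rw [if_pos hW]; exact mem_univ _
          · have h2 := hp1 W'
            rw [Function.update_of_ne e]
            by_cases hS' : W' ∈ S
            · rw [if_pos hS']; exact mem_univ _
            · rw [if_neg hS']
              rwa [if_neg (fun hh => hS' (mem_of_mem_erase hh))] at h2
        · intro 𝔳 _
          show Function.update (Function.update 𝔳 W (𝔲 W)) W (𝔳 W) = 𝔳
          rw [Function.update_idem, Function.update_eq_self]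
        · intro p hp
          rw [mem_product] at hp
          have hp1 := hp.1
          rw [Fintype.mem_piFinset] at hp1
          have h2 := hp1 W
          rw [if_neg (Finset.notMem_erase _ _), mem_singleton] at h2
          refine Prod.ext ?_ ?_
          · show Function.update (Function.update p.1 W p.2) W (𝔲 W) = p.1
            rw [Function.update_idem, ← h2, Function.update_eq_self]
          · show Function.update p.1 W p.2 W = p.2
            rw [Function.update_self]
        · intro 𝔳 _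
          have e : Function.update (Function.update 𝔳 W (𝔲 W)) W (𝔳 W) = 𝔳 := by
            rw [Function.update_idem, Function.update_eq_self]
          show ∏ W ∈ S, g W 𝔳 = ∏ W' ∈ S, g W' (Function.update (Function.update 𝔳 W (𝔲 W)) W (𝔳 W))
          rw [e]
      rw [h1, Finset.sum_product]
      have h2 : ∀ 𝔳 ∈ Fintype.piFinset (fun W' => if W' ∈ S.erase W then univ else {𝔲 W'}),
          ∑ ν : Nm, ∏ W' ∈ S, g W' (Function.update 𝔳 W ν) ≤ B * ∏ W' ∈ S.erase W, g W' 𝔳 := by
        intro 𝔳 _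
        have h3 : ∀ ν : Nm, ∏ W' ∈ S, g W' (Function.update 𝔳 W ν) =
            g W (Function.update 𝔳 W ν) * ∏ W' ∈ S.erase W, g W' 𝔳 := by
          intro ν
          rw [← Finset.mul_prod_erase S _ hW]
          congr 1
          refine Finset.prod_congr rfl fun W' hW' => ?_
          have hne' := (mem_erase.1 hW').1
          refine hg W' _ _ fun W'' hW'' => ?_
          rw [Function.update_of_ne]
          rintro rfl
          exact hne' (le_antisymm (hmax (mem_of_mem_erase hW') hW'') hW'')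
        rw [Finset.sum_congr rfl fun ν _ => h3 ν, ← Finset.sum_mul]
        exact mul_le_mul_of_nonneg_right (hs W 𝔳) (Finset.prod_nonneg fun W' _ => g0 W' 𝔳)
      refine (Finset.sum_le_sum h2).trans ?_
      rw [← Finset.mul_sum, pow_succ, mul_comm]
      refine mul_le_mul_of_nonneg_right (ih (S.erase W) ?_ 𝔲) hB
      rw [Finset.card_erase_of_mem hW]; omega
  have h := key _ univ rfl default
  refine le_trans (le_of_eq ?_) h
  refine Finset.sum_congr ?_ fun _ _ => rfl
  ext 𝔳
  simp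

end idx

section scale

variable {Wt Nm Om : Type*} [Fintype Wt] [DecidableEq Wt] [PartialOrder Wt] [DecidableLE Wt] [DecidableEq Nm]
  [Inhabited Nm] [Fintype Nm] [Fintype Om] {κ : ℕ → Type*}

/-- running maximum -/
def rmx (d : ℕ → Wt × (Wt → Nm) → Om → ℝ) : ℕ → Wt × (Wt → Nm) → Om → ℝ
  | 0 => d 0
  | i + 1 => fun x w => max (rmx d i x w) (d (i + 1) x w)

/-- sum over the siblings -/
def Sb (d : ℕ → Wt × (Wt → Nm) → Om → ℝ) (i : ℕ) (x : Wt × (Wt → Nm)) (w : Om) : ℝ := ∑ ν, rmx d i (sibl x ν) w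

open Classical in
/-- the scale: maximum over the nodes at which the sum over the siblings is at most `B` -/
def Zs (d : ℕ → Wt × (Wt → Nm) → Om → ℝ) (B : ℝ) : ℕ → Wt × (Wt → Nm) → Om → ℝ
  | 0 => fun x w => if Sb d 0 x w ≤ B then d 0 x w else 0
  | i + 1 => fun x w => max (Zs d B i x w) (if Sb d (i + 1) x w ≤ B then d (i + 1) x w else 0)

variable {d : ℕ → Wt × (Wt → Nm) → Om → ℝ} {B : ℝ}

theorem rmx_ge {i j : ℕ} (h : j ≤ i) (x : Wt × (Wt → Nm)) (w : Om) : d j x w ≤ rmx d i x w := by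
  induction i, h using Nat.le_induction with
  | base => cases j with
    | zero => exact le_rfl
    | succ j => exact le_max_right _ _
  | succ i _ ih => exact ih.trans (le_max_left _ _)

theorem rmx_mono {i j : ℕ} (h : i ≤ j) (x : Wt × (Wt → Nm)) (w : Om) : rmx d i x w ≤ rmx d j x w := by
  induction j, h using Nat.le_induction with
  | base => exact le_rfl
  | succ j _ ih => exact ih.trans (le_max_left _ _)

theorem rmx_fac {K : ∀ t, Om → κ t} (hK : Filt K) (hd : ∀ i x, Fac (K i) (d i x)) (i : ℕ) (x : Wt × (Wt → Nm)) :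
    Fac (K i) (rmx d i x) := by
  induction i with
  | zero => exact hd 0 x
  | succ i ih =>
    intro v w h
    show max (rmx d i x v) (d (i + 1) x v) = max (rmx d i x w) (d (i + 1) x w)
    rw [ih v w (hK i v w h), hd (i + 1) x v w h]

theorem rmx_nonneg (d0 : ∀ i x w, 0 ≤ d i x w) (i : ℕ) (x : Wt × (Wt → Nm)) (w : Om) : 0 ≤ rmx d i x w :=
  (d0 i x w).trans (rmx_ge le_rfl x w)

theorem Sb_fac {K : ∀ t, Om → κ t} (hK : Filt K) (hd : ∀ i x, Fac (K i) (d i x)) (i : ℕ) (x : Wt × (Wt → Nm)) :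
    Fac (K i) (Sb d i x) := Fac.finsum _ fun _ _ => rmx_fac hK hd i _

theorem Sb_mono {i j : ℕ} (h : i ≤ j) (x : Wt × (Wt → Nm)) (w : Om) : Sb d i x w ≤ Sb d j x w :=
  Finset.sum_le_sum fun _ _ => rmx_mono h _ w

theorem Sb_sibl (i : ℕ) (x : Wt × (Wt → Nm)) (ν : Nm) (w : Om) : Sb d i (sibl x ν) w = Sb d i x w := by
  unfold Sb
  refine Finset.sum_congr rfl fun μ _ => ?_
  congr 1
  show (x.1, Function.update (Function.update x.2 x.1 ν) x.1 μ) = (x.1, Function.update x.2 x.1 μ)
  rw [Function.update_idem]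

theorem Zs_fac {K : ∀ t, Om → κ t} (hK : Filt K) (hd : ∀ i x, Fac (K i) (d i x)) (i : ℕ) (x : Wt × (Wt → Nm)) :
    Fac (K i) (Zs d B i x) := by
  induction i with
  | zero =>
    intro v w h
    show (if Sb d 0 x v ≤ B then d 0 x v else 0) = if Sb d 0 x w ≤ B then d 0 x w else 0
    rw [Sb_fac hK hd 0 x v w h, hd 0 x v w h]
  | succ i ih =>
    intro v w h
    show max (Zs d B i x v) (if Sb d (i + 1) x v ≤ B then d (i + 1) x v else 0) =
      max (Zs d B i x w) (if Sb d (i + 1) x w ≤ B then d (i + 1) x w else 0)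
    rw [ih v w (hK i v w h), Sb_fac hK hd (i + 1) x v w h, hd (i + 1) x v w h]

theorem Zs_nonneg (d0 : ∀ i x w, 0 ≤ d i x w) (i : ℕ) (x : Wt × (Wt → Nm)) (w : Om) : 0 ≤ Zs d B i x w := by
  have h : ∀ i, 0 ≤ (if Sb d i x w ≤ B then d i x w else 0) := by
    intro i
    split_ifs
    · exact d0 i x w
    · exact le_rfl
  cases i with
  | zero => exact h 0
  | succ i => exact (h (i + 1)).trans (le_max_right _ _)

theorem Zs_mono (i : ℕ) (x : Wt × (Wt → Nm)) (w : Om) : Zs d B i x w ≤ Zs d B (i + 1) x w := le_max_left _ _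

theorem d_le_Zs {i : ℕ} {x : Wt × (Wt → Nm)} {w : Om} (h : Sb d i x w ≤ B) : d i x w ≤ Zs d B i x w := by
  cases i with
  | zero =>
    show d 0 x w ≤ if Sb d 0 x w ≤ B then d 0 x w else 0
    rw [if_pos h]
  | succ i =>
    refine le_trans (le_of_eq ?_) (le_max_right _ _)
    rw [if_pos h]

theorem Zs_le_rmx (d0 : ∀ i x w, 0 ≤ d i x w) (i : ℕ) (x : Wt × (Wt → Nm)) (w : Om) : Zs d B i x w ≤ rmx d i x w := by
  have h : ∀ i, (if Sb d i x w ≤ B then d i x w else 0) ≤ d i x w := by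
    intro i
    split_ifs
    · exact le_rfl
    · exact d0 i x w
  induction i with
  | zero => exact h 0
  | succ i ih => exact max_le_max ih (h (i + 1))

/-- THE SUM OVER THE SIBLINGS -/
theorem sum_top (d0 : ∀ i x w, 0 ≤ d i x w) (hB : 0 ≤ B) (i : ℕ) (x : Wt × (Wt → Nm)) (w : Om) :
    ∑ ν, Zs d B i (sibl x ν) w ≤ B := by
  induction i with
  | zero =>
    by_cases h : Sb d 0 x w ≤ B
    · refine le_trans (Finset.sum_le_sum fun ν _ => Zs_le_rmx d0 0 (sibl x ν) w) h
    · refine le_trans (le_of_eq (Finset.sum_eq_zero fun ν _ => ?_)) hB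
      show (if Sb d 0 (sibl x ν) w ≤ B then d 0 (sibl x ν) w else 0) = 0
      rw [if_neg]
      rwa [Sb_sibl]
  | succ i ih =>
    by_cases h : Sb d (i + 1) x w ≤ B
    · refine le_trans (Finset.sum_le_sum fun ν _ => Zs_le_rmx d0 (i + 1) (sibl x ν) w) h
    · refine le_trans (le_of_eq (Finset.sum_congr rfl fun ν _ => ?_)) ih
      show max (Zs d B i (sibl x ν) w) (if Sb d (i + 1) (sibl x ν) w ≤ B then d (i + 1) (sibl x ν) w else 0) =
        Zs d B i (sibl x ν) w
      rw [if_neg (by rwa [Sb_sibl]), max_eq_left (Zs_nonneg d0 i _ w)]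

/-- THE HYPOTHESIS `sumB` OF `JRV` -/
theorem sumB_Zs (d0 : ∀ i x w, 0 ≤ d i x w) (hB : 1 ≤ B) (T : ℕ) (J : Finset (Wt × (Wt → Nm))) (w : Om) :
    ∑ 𝔳 : Wt → Nm, (if J ⊆ ixs 𝔳 then ∏ x ∈ ixs 𝔳 \ J, Zs d B T x w else 0) ≤ B ^ Fintype.card Wt := by
  classical
  have hB0 : 0 ≤ B := by linarith
  -- the factors
  set g : Wt → (Wt → Nm) → ℝ := fun W 𝔳 =>
    if h : ∃ x ∈ J, x.1 = W then (if res W 𝔳 = Classical.choose h then 1 else 0) else Zs d B T (res W 𝔳) w with hgd
  have g0 : ∀ W 𝔳, 0 ≤ g W 𝔳 := by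
    intro W 𝔳
    simp only [hgd]
    split_ifs
    · norm_num
    · exact le_rfl
    · exact Zs_nonneg d0 T _ w
  have hgc : ∀ W 𝔳 𝔲, (∀ W' ≤ W, 𝔳 W' = 𝔲 W') → g W 𝔳 = g W 𝔲 := by
    intro W 𝔳 𝔲 h
    simp only [hgd]
    rw [res_congr h]
  have hs : ∀ W 𝔳, ∑ ν, g W (Function.update 𝔳 W ν) ≤ B := by
    intro W 𝔳
    by_cases h : ∃ x ∈ J, x.1 = W
    · have e : ∀ ν, g W (Function.update 𝔳 W ν) =
          if res W (Function.update 𝔳 W ν) = Classical.choose h then 1 else 0 := by
        intro ν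
        simp only [hgd]
        rw [dif_pos h]
      rw [Finset.sum_congr rfl fun ν _ => e ν]
      refine le_trans ?_ hB
      have h2 : ∀ ν ∈ (univ : Finset Nm), (if res W (Function.update 𝔳 W ν) = Classical.choose h then (1 : ℝ) else 0) ≤
          if ν = (Classical.choose h).2 W then 1 else 0 := by
        intro ν _
        by_cases hr : res W (Function.update 𝔳 W ν) = Classical.choose h
        · rw [if_pos hr, if_pos]
          rw [← hr, res_top, Function.update_self]
        · rw [if_neg hr]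
          split_ifs <;> norm_num
      refine (Finset.sum_le_sum h2).trans (le_of_eq ?_)
      simp
    · have e : ∀ ν, g W (Function.update 𝔳 W ν) = Zs d B T (sibl (res W 𝔳) ν) w := by
        intro ν
        simp only [hgd]
        rw [dif_neg h, sibl_res]
      rw [Finset.sum_congr rfl fun ν _ => e ν]
      exact sum_top d0 hB0 T _ w
  refine le_trans (Finset.sum_le_sum fun 𝔳 _ => ?_) (nested g0 hgc hB0 hs)
  by_cases hJ : J ⊆ ixs 𝔳
  · rw [if_pos hJ]
    apply le_of_eq
    have hx : ∀ x ∈ J, x = res x.1 𝔳 := fun x hx => mem_ixs.1 (hJ hx)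
    -- product over the types
    have e1 : ∏ x ∈ ixs 𝔳 \ J, Zs d B T x w = ∏ x ∈ ixs 𝔳, (if x ∈ J then 1 else Zs d B T x w) := by
      rw [Finset.prod_ite, Finset.prod_const_one, one_mul]
      refine Finset.prod_congr ?_ fun _ _ => rfl
      ext x
      simp only [mem_sdiff, mem_filter]
    rw [e1, prod_ixs]
    refine Finset.prod_congr rfl fun W _ => ?_
    simp only [hgd]
    by_cases h : ∃ x ∈ J, x.1 = W
    · obtain ⟨x, hxJ, hxW⟩ := h
      have h' : ∃ x ∈ J, x.1 = W := ⟨x, hxJ, hxW⟩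
      have h2 := Classical.choose_spec h'
      have e2 : res W 𝔳 = Classical.choose h' := by
        have := hx _ h2.1
        rw [h2.2] at this
        exact this.symm
      have e3 : res W 𝔳 ∈ J := by rw [e2]; exact h2.1
      rw [if_pos e3, dif_pos h', if_pos e2]
    · rw [dif_neg h, if_neg]
      intro hr
      exact h ⟨_, hr, rfl⟩
  · rw [if_neg hJ]
    exact Finset.prod_nonneg fun W _ => g0 W 𝔳

/-- good: the given event and nothing heavy -/
def Gs (d : ℕ → Wt × (Wt → Nm) → Om → ℝ) (B : ℝ) (has : ℕ → Om → (Wt → Nm) → Prop) (G0 : ℕ → Om → Prop) (i : ℕ)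
    (w : Om) : Prop := G0 i w ∧ ∀ 𝔳, has i w 𝔳 → ∀ W, Sb d i (res W 𝔳) w ≤ B

/-- THE HYPOTHESIS `mass` OF `JRV` -/
theorem mass_Zs {P : FP Om} {K : ∀ t, Om → κ t} (hK : Filt K) (hd : ∀ i x, Fac (K i) (d i x))
    (d0 : ∀ i x w, 0 ≤ d i x w) {has : ℕ → Om → (Wt → Nm) → Prop} {G0 : ℕ → Om → Prop} {kap : ℝ} (hkap : 0 ≤ kap)
    {i : ℕ} {𝔳 : Wt → Nm} {w : Om} (hw : P.p w ≠ 0)
    (clo : P.ce (K i) (fun v => ind (has i v 𝔳 ∧ G0 i v)) w ≤ kap * ∏ W, d i (res W 𝔳) w) :
    P.ce (K i) (fun v => ind (has i v 𝔳 ∧ Gs d B has G0 i v)) w ≤ kap * ∏ x ∈ ixs 𝔳, Zs d B i x w := by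
  classical
  rw [prod_ixs]
  by_cases h : ∃ v, P.p v ≠ 0 ∧ K i v = K i w ∧ has i v 𝔳 ∧ Gs d B has G0 i v
  · obtain ⟨v, _, hKv, hh, hG⟩ := h
    have h1 : P.ce (K i) (fun v => ind (has i v 𝔳 ∧ Gs d B has G0 i v)) w ≤
        P.ce (K i) (fun v => ind (has i v 𝔳 ∧ G0 i v)) w :=
      P.ce_mono (fun u _ => ind_mono fun hu => ⟨hu.1, hu.2.1⟩) w
    refine h1.trans (clo.trans (mul_le_mul_of_nonneg_left ?_ hkap))
    refine Finset.prod_le_prod (fun W _ => d0 i _ w) fun W _ => d_le_Zs ?_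
    have := hG.2 𝔳 hh W
    rwa [Sb_fac hK hd i (res W 𝔳) v w hKv] at this
  · have h1 : P.ce (K i) (fun v => ind (has i v 𝔳 ∧ Gs d B has G0 i v)) w = 0 := by
      unfold FP.ce
      have : P.E (fun v => ind (K i v = K i w) * ind (has i v 𝔳 ∧ Gs d B has G0 i v)) = 0 := by
        rw [← P.E_const 0]
        refine P.E_congr fun v hv => ?_
        by_cases hK' : K i v = K i w
        · have h2 : ¬ (has i v 𝔳 ∧ Gs d B has G0 i v) := fun hh => h ⟨v, hv, hK', hh.1, hh.2⟩
          rw [ind_not h2, mul_zero]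
        · rw [ind_not hK', zero_mul]
      rw [this, zero_div]
    rw [h1]
    exact mul_nonneg hkap (Finset.prod_nonneg fun W _ => Zs_nonneg d0 i _ w)

end scale

end

end Pool.Agent.GMN
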