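import Pool.Agent.GMN.Cw

/-!
# GMN.CwA (row N, 4.3, record lemma for at least two references): assembly of the scales from near hidden cells

`F W` = filtration of the type `W` with the hidden cell, `V W` = what the client sees of it, `Ff` = the full hidden
filtration, `K` = filtration of the client.  `mx`, `nk`, `Ls`, `cr`, `hasN` as in `NamHv`; `pb W t w` = visible set of
names of a list type.

* `hasP` : carries all names of `𝔳`, the list names are visible;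
* `CwS` : the hypotheses;
* `dN` : densities (relative, from the running maxima over the compatible hidden cells, with a floor on `pb`);
* `GD` : good; `CwS.clo_d` : the mass of a system; `CwS.low_d` : densities of the names of a good vertex;
* `CwS.bad_le` : the vertices which are not good or heavy.
-/

set_option autoImplicit false
set_option linter.unusedSectionVars false

namespace Pool.Agent.GMN

open Finset Pool.Agent.PWZ Pool.Agent.M3

noncomputable section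

/-- NO CONTEXT IS THIN -/
theorem thin_ent {Om N : Type*} [Fintype Om] {φ : ℕ → Type*} {P : FP Om} {F : ∀ t, Om → φ t} (hF : Filt F)
    {nn : ℕ → Om → N} (hn : ∀ t v w, F (t + 1) v = F (t + 1) w → nn (t + 1) v = nn (t + 1) w → nn t v = nn t w)
    (T h : ℕ) :
    h * Real.log 2 * P.Pr (fun w => ∃ t ≤ T, den P F (fun s v => nn s v = nn t w) t w < (1 / 2 : ℝ) ^ h) ≤
      P.Hc (nn 0) (F 0) + ∑ t ∈ range T, P.Hc (nn (t + 1)) (fun v => (F (t + 1) v, nn t v)) := by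
  classical
  have hl := lost_le (P := P) (F := F) (nn := nn) hF hn T h
  have e0 : ∀ t w, den P F (fun s v => nn s v = nn t w) t w = qn P F nn t w := by
    intro t w
    unfold den qn FP.ce
    congr 1
    unfold FP.m
    refine P.E_congr fun v _ => ?_
    show ind (F t v = F t w) * ind (nn t v = nn t w) = ind ((F t v, nn t v) = (F t w, nn t w))
    rw [← ind_and, Prod.mk.injEq]
  have e1 : P.Pr (fun w => ∃ t ≤ T, den P F (fun s v => nn s v = nn t w) t w < (1 / 2 : ℝ) ^ h) =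
      P.Pr (fun w => ∃ t ≤ T, qn P F nn t w < (1 / 2 : ℝ) ^ h) :=
    P.Pr_congr fun w _ => by simp only [e0]
  rw [e1]
  refine hl.trans (add_le_add (le_of_eq ?_) (Finset.sum_le_sum fun t _ => le_of_eq ?_))
  · unfold FP.Hc FP.H
    rw [← P.E_sub]
    refine P.E_congr fun w hw => ?_
    unfold qn
    have a := P.m_pos (fun u => (F 0 u, nn 0 u)) hw
    have b := P.m_pos (F 0) hw
    have c : P.m (fun u => (nn 0 u, F 0 u)) w = P.m (fun u => (F 0 u, nn 0 u)) w :=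
      P.m_congr (fun v w h => Prod.ext (congrArg Prod.snd h) (congrArg Prod.fst h))
        (fun v w h => Prod.ext (congrArg Prod.snd h) (congrArg Prod.fst h)) w
    rw [one_div_div, Real.log_div b.ne' a.ne', c]
    ring
  · unfold FP.Hc FP.H
    rw [← P.E_sub]
    refine P.E_congr fun w hw => ?_
    unfold entF
    have a := P.m_pos (fun u => (F (t + 1) u, nn t u)) hw
    have b := P.m_pos (fun u => (F (t + 1) u, nn (t + 1) u)) hw
    have c : P.m (fun u => (nn (t + 1) u, (F (t + 1) u, nn t u))) w = P.m (fun u => (F (t + 1) u, nn (t + 1) u)) w :=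
      P.m_congr (fun v w h => Prod.ext (congrArg (fun z => z.2.1) h) (congrArg Prod.fst h))
        (fun v w h => by
          have h1 : F (t + 1) v = F (t + 1) w := congrArg Prod.fst h
          have h2 : nn (t + 1) v = nn (t + 1) w := congrArg Prod.snd h
          exact Prod.ext h2 (Prod.ext h1 (hn t v w h1 h2))) w
    rw [Real.log_div a.ne' b.ne', c]
    ring

/-- number of values, counted by their first times -/
theorem sum_vals_le {Om N : Type*} [Fintype Om] [Fintype N] {P : FP Om} (X : ℕ → Om → N) (T : ℕ) :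
    ∑ c, P.Pr (fun w => ∃ s ≤ T, X s w = c) ≤ 1 + ∑ t ∈ range T, P.Pr (fun w => X (t + 1) w ≠ X t w) := by
  classical
  have hpt : ∀ w, ∑ c, ind (∃ s ≤ T, X s w = c) ≤ 1 + ∑ t ∈ range T, ind (X (t + 1) w ≠ X t w) := by
    intro w
    have h1 : ∀ c, ind (∃ s ≤ T, X s w = c) ≤ ind (X 0 w = c) +
        ∑ t ∈ range T, ind (X (t + 1) w ≠ X t w) * ind (X (t + 1) w = c) := by
      intro c
      have hnn : 0 ≤ ∑ t ∈ range T, ind (X (t + 1) w ≠ X t w) * ind (X (t + 1) w = c) :=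
        Finset.sum_nonneg fun _ _ => mul_nonneg (ind_nonneg _) (ind_nonneg _)
      by_cases hex : ∃ s ≤ T, X s w = c
      · rw [ind_of hex]
        have hex' : ∃ s, X s w = c := by obtain ⟨s, _, h⟩ := hex; exact ⟨s, h⟩
        obtain ⟨s, hs, hX⟩ := hex
        have hm : Nat.find hex' ≤ T := (Nat.find_min' hex' hX).trans hs
        rcases Nat.eq_zero_or_pos (Nat.find hex') with h0 | h0
        · have h2 := Nat.find_spec hex'
          rw [h0] at h2
          rw [ind_of h2]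
          linarith
        · obtain ⟨r, hr⟩ : ∃ r, Nat.find hex' = r + 1 := ⟨Nat.find hex' - 1, by omega⟩
          have h2 := Nat.find_spec hex'
          rw [hr] at h2
          have h3 := Nat.find_min hex' (m := r) (by omega)
          have h4 : X (r + 1) w ≠ X r w := fun e => h3 (e.symm.trans h2)
          have h5 := Finset.single_le_sum (f := fun t => ind (X (t + 1) w ≠ X t w) * ind (X (t + 1) w = c))
            (fun t _ => mul_nonneg (ind_nonneg _) (ind_nonneg _)) (mem_range.2 (show r < T by omega))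
          simp only [ind_of h4, ind_of h2, mul_one] at h5
          have h6 := ind_nonneg (X 0 w = c)
          linarith
      · rw [ind_not hex]
        exact add_nonneg (ind_nonneg _) hnn
    have h2 : ∀ (r : ℕ), ∑ c, ind (X r w = c) = 1 := by
      intro r
      rw [Finset.sum_eq_single (X r w)]
      · exact ind_of rfl
      · intro c _ hc
        exact ind_not fun e => hc e.symm
      · intro hn; exact absurd (mem_univ _) hn
    refine (Finset.sum_le_sum fun c _ => h1 c).trans ?_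
    rw [Finset.sum_add_distrib, h2 0, Finset.sum_comm]
    refine add_le_add le_rfl (Finset.sum_le_sum fun t _ => ?_)
    rw [← Finset.mul_sum, h2 (t + 1), mul_one]
  have h3 := P.E_mono fun w _ => hpt w
  unfold FP.Pr
  rw [P.E_sum, P.E_add, P.E_const, P.E_sum] at h3
  exact h3

section names

variable {Om Wt Nm : Type*} [Fintype Om] [Fintype Wt] [DecidableEq Wt] [PartialOrder Wt] [DecidableLE Wt]
  [DecidableEq Nm] [Inhabited Nm] [Fintype Nm] {φ υ : Wt → ℕ → Type*} {κ κ' : ℕ → Type*}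

open Classical in
/-- names up to `W` -/
def ctxE (nk : Wt → ℕ → Om → Nm) (W : Wt) (i : ℕ) (w : Om) : Wt → Nm :=
  fun W' => if W' ≤ W then nk W' i w else default

open Classical in
/-- the lower part of an index -/
def lw (x : Wt × (Wt → Nm)) : Wt → Nm := fun W' => if W' < x.1 then x.2 W' else default

/-- relative density in the type `W` -/
def dRF (P : FP Om) (F : ∀ W t, Om → φ W t) (mx : Wt → Prop) (nk : Wt → ℕ → Om → Nm) (Ls : Wt → ℕ → Om → Finset Nm)
    (t : ℕ) (x : Wt × (Wt → Nm)) (w : Om) : ℝ := dR P (F x.1) mx nk Ls t x w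

/-- `w` carries all names of `𝔳`, the list names are visible -/
def hasP (mx : Wt → Prop) (nk : Wt → ℕ → Om → Nm) (Ls pb : Wt → ℕ → Om → Finset Nm) (t : ℕ) (w : Om)
    (𝔳 : Wt → Nm) : Prop := hasN mx nk Ls t w 𝔳 ∧ ∀ W, mx W → 𝔳 W ∈ pb W t w

/-- relative density from the maxima -/
def rhoN (P : FP Om) (F : ∀ W t, Om → φ W t) (V : ∀ W t, Om → υ W t) (mx : Wt → Prop) (nk : Wt → ℕ → Om → Nm)
    (Ls : Wt → ℕ → Om → Finset Nm) (h t : ℕ) (x : Wt × (Wt → Nm)) (w : Om) : ℝ :=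
  rho P (F x.1) (V x.1) h (ctxN nk x.1) (cr mx nk Ls x.1) t (lw x) (x.2 x.1) w

open Classical in
/-- the densities -/
def dN (P : FP Om) (F : ∀ W t, Om → φ W t) (V : ∀ W t, Om → υ W t) (mx : Wt → Prop) (nk : Wt → ℕ → Om → Nm)
    (Ls : Wt → ℕ → Om → Finset Nm) (pb : Wt → ℕ → Om → Finset Nm) (h h3 t : ℕ) (x : Wt × (Wt → Nm)) (w : Om) : ℝ :=
  if mx x.1 then (if x.2 x.1 ∈ pb x.1 t w then max ((1 / 2 : ℝ) ^ h3) (rhoN P F V mx nk Ls h t x w) else 0)
  else rhoN P F V mx nk Ls h t x w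

/-- THE HYPOTHESES -/
structure CwS (P : FP Om) (F : ∀ W t, Om → φ W t) (V : ∀ W t, Om → υ W t) (Ff : ∀ t, Om → κ' t) (K : ∀ t, Om → κ t)
    (mx : Wt → Prop) (nk : Wt → ℕ → Om → Nm) (Ls : Wt → ℕ → Om → Finset Nm) (pb : Wt → ℕ → Om → Finset Nm)
    (T h3 : ℕ) (K1 K2 kap n0 eps : ℝ) (G0 : ℕ → Om → Prop) : Prop where
  filtF : ∀ W, Filt (F W)
  filtV : ∀ W, Filt (V W)
  VK : ∀ W t, Fac (K t) (V W t)
  top : ∀ W W', mx W → ¬ W < W'
  past : ∀ W W' i v w, W' ≤ W → F W (i + 1) v = F W (i + 1) w → nk W' (i + 1) v = nk W' (i + 1) w →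
    nk W' i v = nk W' i w
  birth : ∀ W i j v w, i ≤ j → nk W i v = nk W j w → nk W i w = nk W j w
  betw : ∀ W i l j w, i ≤ l → l ≤ j → nk W i w = nk W j w → nk W l w = nk W j w
  cum : ∀ W i w, Ls W i w ⊆ Ls W (i + 1) w
  card : ∀ W, mx W → ∀ w, P.p w ≠ 0 → ((Ls W T w).card : ℝ) ≤ n0
  n01 : 1 ≤ n0
  K10 : 0 ≤ K1
  K20 : 0 ≤ K2
  kap0 : 0 ≤ kap
  near : ∀ W, ∀ t ≤ T, ∀ u, P.p u ≠ 0 → P.Pr (fun w => nr (F W) (V W) t w u) ≤ K1 * P.m (F W t) u
  cmp : ∀ W, ∀ t ≤ T, ∀ (A : Om → Prop) (w : Om) (x : ℝ), P.p w ≠ 0 → 0 ≤ x →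
    (∀ u, P.p u ≠ 0 → V W t u = V W t w → P.ce (F W t) (fun v => ind (A v)) u ≤ x) →
    P.ce (V W t) (fun v => ind (A v)) w ≤ K2 * x
  cmpK : ∀ t ≤ T, ∀ (A : Om → Prop) (w : Om) (x : ℝ), P.p w ≠ 0 → 0 ≤ x →
    (∀ u, P.p u ≠ 0 → K t u = K t w → A u → P.ce (Ff t) (fun v => ind (A v)) u ≤ x) →
    P.ce (K t) (fun v => ind (A v)) w ≤ K2 * x
  pbf : ∀ W t, Fac (V W t) (pb W t)
  pbcum : ∀ W t w, pb W t w ⊆ pb W (t + 1) w
  pbc : ∀ W, mx W → ∀ w, P.p w ≠ 0 → ((pb W T w).card : ℝ) ≤ 2 ^ h3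
  eps0 : 0 ≤ eps
  eps1 : eps ≤ (1 / 2 : ℝ) ^ h3
  clo : ∀ t ≤ T, ∀ 𝔳 w, P.p w ≠ 0 → P.ce (Ff t) (fun v => ind (hasN mx nk Ls t v 𝔳 ∧ (t ≤ T ∧ G0 t v))) w ≤
    kap * ∏ W, (dRF P F mx nk Ls t (res W 𝔳) w + (open Classical in if mx W then eps else 0))

/-- good -/
def GD (P : FP Om) (F : ∀ W t, Om → φ W t) (V : ∀ W t, Om → υ W t) (mx : Wt → Prop) (nk : Wt → ℕ → Om → Nm)
    (T h1 h3 : ℕ) (x0 : ℝ) (G0 : ℕ → Om → Prop) (t : ℕ) (w : Om) : Prop :=
  (t ≤ T ∧ G0 t w) ∧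
  (∀ W, (1 / 2 : ℝ) ^ h1 ≤ den P (F W) (fun s v => ctxN nk W s v = ctxN nk W t w) t w) ∧
  (∀ W, ¬ mx W → (1 / 2 : ℝ) ^ h1 ≤ den P (F W) (fun s v => ctxE nk W s v = ctxE nk W t w) t w) ∧
  (∀ W, x0 * DP P (F W) (V W) (h1 + h3) (fun s v => ctxN nk W s v = ctxN nk W t w) t w ≤
    den P (F W) (fun s v => ctxN nk W s v = ctxN nk W t w) t w)

variable {P : FP Om} {F : ∀ W t, Om → φ W t} {V : ∀ W t, Om → υ W t} {Ff : ∀ t, Om → κ' t} {K : ∀ t, Om → κ t}
  {mx : Wt → Prop} {nk : Wt → ℕ → Om → Nm} {Ls : Wt → ℕ → Om → Finset Nm} {pb : Wt → ℕ → Om → Finset Nm}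
  {T h h1 h3 : ℕ} {K1 K2 kap n0 eps x0 B : ℝ} {G0 : ℕ → Om → Prop}

theorem rhoN_nonneg (t : ℕ) (x : Wt × (Wt → Nm)) (w : Om) : 0 ≤ rhoN P F V mx nk Ls h t x w := rho_nonneg _ _ _ _

theorem dN_nonneg (t : ℕ) (x : Wt × (Wt → Nm)) (w : Om) : 0 ≤ dN P F V mx nk Ls pb h h3 t x w := by
  classical
  unfold dN
  split_ifs
  · exact le_trans (by positivity) (le_max_left _ _)
  · exact le_rfl
  · exact rhoN_nonneg t x w

theorem dN_fac (hV : ∀ W, Filt (V W)) (hpb : ∀ W t, Fac (V W t) (pb W t)) (t : ℕ) (x : Wt × (Wt → Nm)) :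
    Fac (V x.1 t) (dN P F V mx nk Ls pb h h3 t x) := by
  intro v w hvw
  unfold dN rhoN
  rw [rho_fac (hV x.1) t (lw x) (x.2 x.1) v w hvw, hpb x.1 t v w hvw]

/-- the scale of an index is a function of the view of its type -/
theorem Zs_fac1 {d : ℕ → Wt × (Wt → Nm) → Om → ℝ} (hV : ∀ W, Filt (V W)) (hd : ∀ t x, Fac (V x.1 t) (d t x))
    (t : ℕ) (x : Wt × (Wt → Nm)) : Fac (V x.1 t) (Zs d B t x) := by
  have hr : ∀ t x, Fac (V x.1 t) (rmx d t x) := by
    intro t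
    induction t with
    | zero => exact hd 0
    | succ t ih =>
      intro x v w hvw
      show max (rmx d t x v) (d (t + 1) x v) = max (rmx d t x w) (d (t + 1) x w)
      rw [ih x v w (hV x.1 t v w hvw), hd (t + 1) x v w hvw]
  have hS : ∀ t x, Fac (V x.1 t) (Sb d t x) := by
    intro t x v w hvw
    unfold Sb
    exact Finset.sum_congr rfl fun ν _ => hr t (sibl x ν) v w hvw
  induction t with
  | zero =>
    intro v w hvw
    show (if Sb d 0 x v ≤ B then d 0 x v else 0) = if Sb d 0 x w ≤ B then d 0 x w else 0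
    rw [hS 0 x v w hvw, hd 0 x v w hvw]
  | succ t ih =>
    intro v w hvw
    show max (Zs d B t x v) (if Sb d (t + 1) x v ≤ B then d (t + 1) x v else 0) =
      max (Zs d B t x w) (if Sb d (t + 1) x w ≤ B then d (t + 1) x w else 0)
    rw [ih v w (hV x.1 t v w hvw), hS (t + 1) x v w hvw, hd (t + 1) x v w hvw]

theorem ctxN_apply_lt {W W' : Wt} (hW : W' < W) (t : ℕ) (w : Om) : ctxN nk W t w W' = nk W' t w := by
  unfold ctxN
  exact if_pos hW

theorem ctxN_apply_not {W W' : Wt} (hW : ¬ W' < W) (t : ℕ) (w : Om) : ctxN nk W t w W' = default := by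
  unfold ctxN
  exact if_neg hW

theorem ctxE_apply_le {W W' : Wt} (hW : W' ≤ W) (t : ℕ) (w : Om) : ctxE nk W t w W' = nk W' t w := by
  unfold ctxE
  exact if_pos hW

theorem ctxE_apply_not {W W' : Wt} (hW : ¬ W' ≤ W) (t : ℕ) (w : Om) : ctxE nk W t w W' = default := by
  unfold ctxE
  exact if_neg hW

theorem ctxN_eq_iff {W : Wt} {s t : ℕ} {v w : Om} : ctxN nk W s v = ctxN nk W t w ↔ ∀ W' < W, nk W' s v = nk W' t w := by
  constructor
  · intro hh W' hW
    have h2 := congrFun hh W'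
    rwa [ctxN_apply_lt hW, ctxN_apply_lt hW] at h2
  · intro hh
    funext W'
    by_cases hW : W' < W
    · rw [ctxN_apply_lt hW, ctxN_apply_lt hW, hh W' hW]
    · rw [ctxN_apply_not hW, ctxN_apply_not hW]

theorem ctxE_eq_iff {W : Wt} {s t : ℕ} {v w : Om} : ctxE nk W s v = ctxE nk W t w ↔ ∀ W' ≤ W, nk W' s v = nk W' t w := by
  constructor
  · intro hh W' hW
    have h2 := congrFun hh W'
    rwa [ctxE_apply_le hW, ctxE_apply_le hW] at h2
  · intro hh
    funext W'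
    by_cases hW : W' ≤ W
    · rw [ctxE_apply_le hW, ctxE_apply_le hW, hh W' hW]
    · rw [ctxE_apply_not hW, ctxE_apply_not hW]

theorem lw_sibl (x : Wt × (Wt → Nm)) (ν : Nm) : lw (sibl x ν) = lw x := by
  classical
  unfold lw sibl
  funext W'
  show (if W' < x.1 then Function.update x.2 x.1 ν W' else default) = if W' < x.1 then x.2 W' else default
  by_cases hW : W' < x.1
  · rw [if_pos hW, if_pos hW, Function.update_of_ne hW.ne]
  · rw [if_neg hW, if_neg hW]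

theorem sibl_top (x : Wt × (Wt → Nm)) (ν : Nm) : (sibl x ν).2 (sibl x ν).1 = ν := by
  unfold sibl
  exact Function.update_self _ _ _

namespace CwS

variable (H : CwS P F V Ff K mx nk Ls pb T h3 K1 K2 kap n0 eps G0)
include H

theorem not_mx {W W' : Wt} (hW : W' < W) : ¬ mx W' := fun hm => H.top W' W hm hW

/-- `NamSys` of the trivial filtration -/
theorem nam : NamSys (fun _ => (id : Om → Om)) mx nk Ls where
  filt := fun _ _ _ h => h
  top := H.top
  past := fun _ _ v w h _ => by rw [show v = w from h]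
  birth := H.birth
  betw := H.betw
  cum := H.cum

/-- lower names of a system of the vertex -/
theorem lw_res {t : ℕ} {w : Om} {𝔳 : Wt → Nm} (hh : hasN mx nk Ls t w 𝔳) (W : Wt) :
    lw (res W 𝔳) = ctxN nk W t w := by
  classical
  funext W'
  unfold lw
  show (if W' < W then (if W' ≤ W then 𝔳 W' else default) else default) = ctxN nk W t w W'
  by_cases hW : W' < W
  · rw [if_pos hW, if_pos hW.le, ctxN_apply_lt hW]
    exact ((cr_key (H.not_mx hW)).1 (hh W')).symm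
  · rw [if_neg hW, ctxN_apply_not hW]

/-- the scale of a name of the vertex -/
theorem rho_res {t : ℕ} {w : Om} {𝔳 : Wt → Nm} (hh : hasN mx nk Ls t w 𝔳) (W : Wt) :
    rho P (F (res W 𝔳).1) (V (res W 𝔳).1) h (ctxN nk (res W 𝔳).1) (cr mx nk Ls (res W 𝔳).1) t (lw (res W 𝔳))
      ((res W 𝔳).2 (res W 𝔳).1) w =
      rho P (F W) (V W) h (ctxN nk W) (cr mx nk Ls W) t (ctxN nk W t w) (𝔳 W) w := by
  rw [H.lw_res hh W]
  show rho P (F W) (V W) h (ctxN nk W) (cr mx nk Ls W) t (ctxN nk W t w) ((res W 𝔳).2 W) w = _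
  rw [res_top]

/-- relative density of a name of the vertex -/
theorem dRF_eq {t : ℕ} {w : Om} {𝔳 : Wt → Nm} (hh : hasN mx nk Ls t w 𝔳) (W : Wt) :
    dRF P F mx nk Ls t (res W 𝔳) w =
      den P (F W) (fun s v => ctxN nk W s v = ctxN nk W t w ∧ cr mx nk Ls W s v (𝔳 W)) t w /
        den P (F W) (fun s v => ctxN nk W s v = ctxN nk W t w) t w := by
  unfold dRF dR den
  have hres : ∀ W' ≤ W, (res W 𝔳).2 W' = 𝔳 W' := by
    intro W' hW'
    show (if W' ≤ W then 𝔳 W' else default) = 𝔳 W'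
    exact if_pos hW'
  have hlow : ∀ v, (∀ W' < W, cr mx nk Ls W' t v ((res W 𝔳).2 W')) ↔ ctxN nk W t v = ctxN nk W t w := by
    intro v
    rw [ctxN_eq_iff]
    refine forall_congr' fun W' => forall_congr' fun hW => ?_
    rw [hres W' hW.le, cr_key (H.not_mx hW), (cr_key (H.not_mx hW)).1 (hh W')]
  have hall : ∀ v, (∀ W' ≤ W, cr mx nk Ls W' t v ((res W 𝔳).2 W')) ↔
      ctxN nk W t v = ctxN nk W t w ∧ cr mx nk Ls W t v (𝔳 W) := by
    intro v
    rw [← hlow v]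
    constructor
    · intro h2
      refine ⟨fun W' hW => h2 W' hW.le, ?_⟩
      have h4 := h2 W le_rfl
      rwa [hres W le_rfl] at h4
    · rintro ⟨h2, h4⟩ W' hW
      rcases hW.lt_or_eq with h5 | h5
      · exact h2 W' h5
      · subst h5
        rwa [hres W' le_rfl]
  show P.ce (F W t) (fun v => ind (∀ W' ≤ W, cr mx nk Ls W' t v ((res W 𝔳).2 W'))) w /
    P.ce (F W t) (fun v => ind (∀ W' < W, cr mx nk Ls W' t v ((res W 𝔳).2 W'))) w = _
  simp only [hlow, hall]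

/-- the density of a name of a good vertex -/
theorem dRF_le (hx0 : 0 < x0) (hx1 : x0 ≤ 1) {t : ℕ} {w : Om} (hw : P.p w ≠ 0)
    (hG : GD P F V mx nk T h1 h3 x0 G0 t w) {𝔳 : Wt → Nm} (hh : hasP mx nk Ls pb t w 𝔳) (W : Wt) :
    dRF P F mx nk Ls t (res W 𝔳) w + (open Classical in if mx W then eps else 0) ≤
      (2 / x0) * dN P F V mx nk Ls pb (h1 + h3) h3 t (res W 𝔳) w := by
  classical
  obtain ⟨⟨htT, _⟩, hthN, hthE, hlost⟩ := hG
  obtain ⟨hh, hpb⟩ := hh
  rw [H.dRF_eq hh W]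
  set c := ctxN nk W t w with hc
  set d0 := den P (F W) (fun s v => ctxN nk W s v = c) t w with hd0
  set d1 := den P (F W) (fun s v => ctxN nk W s v = c ∧ cr mx nk Ls W s v (𝔳 W)) t w with hd1
  have h0 : (1 / 2 : ℝ) ^ h1 ≤ d0 := hthN W
  have hd0p : 0 < d0 := lt_of_lt_of_le (by positivity) h0
  have hL : x0 * DV P (F W) (V W) (h1 + h3) (fun s v => ctxN nk W s v = c) t w ≤ d0 :=
    (mul_le_mul_of_nonneg_left (DV_le_DP t w) hx0.le).trans (hlost W)
  have hthick : (1 / 2 : ℝ) ^ (h1 + h3) ≤ d1 →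
      d1 / d0 * x0 ≤ rhoN P F V mx nk Ls (h1 + h3) t (res W 𝔳) w := by
    intro hbig
    have e1 := den_le_DV (V := V W) hw hbig
    rw [← hd1] at e1
    have e2 : DV P (F W) (V W) (h1 + h3) (fun s v => ctxN nk W s v = c ∧ cr mx nk Ls W s v (𝔳 W)) t w ≤
        DV P (F W) (V W) (h1 + h3) (fun s v => ctxN nk W s v = c) t w := DV_anti (fun _ _ hv => hv.1) t w
    have hd1p : 0 < d1 := lt_of_lt_of_le (by positivity) hbig
    set D1 := DV P (F W) (V W) (h1 + h3) (fun s v => ctxN nk W s v = c ∧ cr mx nk Ls W s v (𝔳 W)) t w with hD1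
    set D0 := DV P (F W) (V W) (h1 + h3) (fun s v => ctxN nk W s v = c) t w with hD0
    have hD0p : 0 < D0 := lt_of_lt_of_le hd1p (e1.trans e2)
    have e3 : d1 / d0 * x0 ≤ D1 / D0 := by
      rw [le_div_iff₀ hD0p]
      calc d1 / d0 * x0 * D0 = d1 * (x0 * D0) / d0 := by ring
        _ ≤ d1 * d0 / d0 := div_le_div_of_nonneg_right (mul_le_mul_of_nonneg_left hL hd1p.le) hd0p.le
        _ = d1 := by field_simp
        _ ≤ D1 := e1
    refine e3.trans (le_of_eq ?_)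
    unfold rhoN
    rw [H.rho_res hh W]
    rfl
  have hd1n : 0 ≤ d1 / d0 := div_nonneg (den_nonneg _ _) hd0p.le
  have hmul : ∀ a d : ℝ, a * x0 ≤ 2 * d → a ≤ (2 / x0) * d := by
    intro a d hh
    rw [div_mul_eq_mul_div, le_div_iff₀ hx0]
    exact hh
  refine hmul _ _ ?_
  by_cases hm : mx W
  · -- a list name
    rw [if_pos hm]
    have hν : (res W 𝔳).2 (res W 𝔳).1 ∈ pb (res W 𝔳).1 t w := by
      show (res W 𝔳).2 W ∈ pb W t w
      rw [res_top]
      exact hpb W hm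
    have hd : dN P F V mx nk Ls pb (h1 + h3) h3 t (res W 𝔳) w =
        max ((1 / 2 : ℝ) ^ h3) (rhoN P F V mx nk Ls (h1 + h3) t (res W 𝔳) w) := by
      unfold dN
      rw [if_pos (show mx (res W 𝔳).1 from hm), if_pos hν]
    have hfl : (1 / 2 : ℝ) ^ h3 ≤ dN P F V mx nk Ls pb (h1 + h3) h3 t (res W 𝔳) w := by
      rw [hd]; exact le_max_left _ _
    have hep : eps * x0 ≤ dN P F V mx nk Ls pb (h1 + h3) h3 t (res W 𝔳) w := by
      have h5 := H.eps0
      have h6 := H.eps1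
      nlinarith
    have hdd : d1 / d0 * x0 ≤ dN P F V mx nk Ls pb (h1 + h3) h3 t (res W 𝔳) w := by
      by_cases hbig : (1 / 2 : ℝ) ^ (h1 + h3) ≤ d1
      · refine (hthick hbig).trans ?_
        rw [hd]; exact le_max_right _ _
      · have e1 : d1 / d0 ≤ (1 / 2 : ℝ) ^ h3 := by
          rw [div_le_iff₀ hd0p]
          calc d1 ≤ (1 / 2 : ℝ) ^ (h1 + h3) := (not_le.1 hbig).le
            _ = (1 / 2 : ℝ) ^ h3 * (1 / 2 : ℝ) ^ h1 := by rw [pow_add]; ring
            _ ≤ (1 / 2 : ℝ) ^ h3 * d0 := mul_le_mul_of_nonneg_left h0 (by positivity)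
        nlinarith
    rw [add_mul]
    linarith
  · -- a key
    rw [if_neg hm, add_zero]
    have hd : dN P F V mx nk Ls pb (h1 + h3) h3 t (res W 𝔳) w = rhoN P F V mx nk Ls (h1 + h3) t (res W 𝔳) w := by
      unfold dN
      rw [if_neg (show ¬ mx (res W 𝔳).1 from hm)]
    have e1 := hthE W hm
    have e2 : den P (F W) (fun s v => ctxE nk W s v = ctxE nk W t w) t w ≤ d1 := by
      refine ce_ind_le P (F W t) fun v _ _ hv => ?_
      have hv' := ctxE_eq_iff.1 hv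
      refine ⟨ctxN_eq_iff.2 fun W' hW => hv' W' hW.le, ?_⟩
      rw [cr_key hm, hv' W le_rfl]
      exact (cr_key hm).1 (hh W)
    have e3 : (1 / 2 : ℝ) ^ (h1 + h3) ≤ (1 / 2 : ℝ) ^ h1 :=
      pow_le_pow_of_le_one (by norm_num) (by norm_num) (Nat.le_add_right _ _)
    have e4 := hthick (e3.trans (e1.trans e2))
    rw [hd]
    have e5 := rhoN_nonneg (P := P) (F := F) (V := V) (mx := mx) (nk := nk) (Ls := Ls) (h := h1 + h3) t (res W 𝔳) w
    linarith

/-- THE MASS OF A SYSTEM OF NAMES -/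
theorem clo_d (hx0 : 0 < x0) (hx1 : x0 ≤ 1) {t : ℕ} (ht : t ≤ T) (𝔳 : Wt → Nm) {w : Om} (hw : P.p w ≠ 0) :
    P.ce (K t) (fun v => ind (hasP mx nk Ls pb t v 𝔳 ∧ GD P F V mx nk T h1 h3 x0 G0 t v)) w ≤
      (K2 * (kap * (2 / x0) ^ Fintype.card Wt)) * ∏ W, dN P F V mx nk Ls pb (h1 + h3) h3 t (res W 𝔳) w := by
  classical
  have hZ0 : ∀ (x : Wt × (Wt → Nm)) (u : Om), 0 ≤ dN P F V mx nk Ls pb (h1 + h3) h3 t x u := fun x u =>
    dN_nonneg t x u
  have hp0 : 0 ≤ ∏ W, dN P F V mx nk Ls pb (h1 + h3) h3 t (res W 𝔳) w := Finset.prod_nonneg fun W _ => hZ0 _ _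
  have hx' : 0 ≤ (2 / x0) ^ Fintype.card Wt := by positivity
  rw [mul_assoc]
  refine H.cmpK t ht _ w _ hw (mul_nonneg (mul_nonneg H.kap0 hx') hp0) fun u hu hKu hA => ?_
  obtain ⟨hh, hG⟩ := hA
  have e1 : P.ce (Ff t) (fun v => ind (hasP mx nk Ls pb t v 𝔳 ∧ GD P F V mx nk T h1 h3 x0 G0 t v)) u ≤
      P.ce (Ff t) (fun v => ind (hasN mx nk Ls t v 𝔳 ∧ (t ≤ T ∧ G0 t v))) u :=
    ce_ind_le P (Ff t) fun v _ _ hv => ⟨hv.1.1, hv.2.1⟩
  refine e1.trans ((H.clo t ht 𝔳 u hu).trans ?_)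
  have e2 : ∏ W, (dRF P F mx nk Ls t (res W 𝔳) u + (if mx W then eps else 0)) ≤
      ∏ W, (2 / x0) * dN P F V mx nk Ls pb (h1 + h3) h3 t (res W 𝔳) w := by
    refine Finset.prod_le_prod (fun W _ => ?_) fun W _ => ?_
    · refine add_nonneg (dR_nonneg t _ u) ?_
      split_ifs
      · exact H.eps0
      · exact le_rfl
    · rw [← dN_fac H.filtV H.pbf t (res W 𝔳) u w (H.VK _ t u w hKu)]
      exact H.dRF_le hx0 hx1 hu hG hh W
  refine (mul_le_mul_of_nonneg_left e2 H.kap0).trans (le_of_eq ?_)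
  rw [Finset.prod_mul_distrib, Finset.prod_const, Finset.card_univ]
  ring

/-- the densities of the names of a good vertex are not small -/
theorem low_d {t : ℕ} {w : Om} (hw : P.p w ≠ 0) (hG : GD P F V mx nk T h1 h3 x0 G0 t w) {𝔳 : Wt → Nm}
    (hh : hasP mx nk Ls pb t w 𝔳) (W : Wt) :
    (1 / 2 : ℝ) ^ (h1 + h3) ≤ dN P F V mx nk Ls pb (h1 + h3) h3 t (res W 𝔳) w := by
  classical
  obtain ⟨⟨htT, _⟩, hthN, hthE, hlost⟩ := hG
  obtain ⟨hh, hpb⟩ := hh
  by_cases hm : mx W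
  · have hν : (res W 𝔳).2 (res W 𝔳).1 ∈ pb (res W 𝔳).1 t w := by
      show (res W 𝔳).2 W ∈ pb W t w
      rw [res_top]
      exact hpb W hm
    unfold dN
    rw [if_pos (show mx (res W 𝔳).1 from hm), if_pos hν]
    refine le_trans ?_ (le_max_left _ _)
    exact pow_le_pow_of_le_one (by norm_num) (by norm_num) (Nat.le_add_left _ _)
  · unfold dN
    rw [if_neg (show ¬ mx (res W 𝔳).1 from hm)]
    unfold rhoN
    rw [H.rho_res hh W]
    set c := ctxN nk W t w with hc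
    have e1 := hthE W hm
    have e2 : den P (F W) (fun s v => ctxE nk W s v = ctxE nk W t w) t w ≤
        den P (F W) (fun s v => ctxN nk W s v = c ∧ cr mx nk Ls W s v (𝔳 W)) t w := by
      refine ce_ind_le P (F W t) fun v _ _ hv => ?_
      have hv' := ctxE_eq_iff.1 hv
      refine ⟨ctxN_eq_iff.2 fun W' hW => hv' W' hW.le, ?_⟩
      rw [cr_key hm, hv' W le_rfl]
      exact (cr_key hm).1 (hh W)
    have e3 : (1 / 2 : ℝ) ^ (h1 + h3) ≤ (1 / 2 : ℝ) ^ h1 :=
      pow_le_pow_of_le_one (by norm_num) (by norm_num) (Nat.le_add_right _ _)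
    have e4 := den_le_DV (V := V W) hw (e3.trans (e1.trans e2))
    have e5 : DV P (F W) (V W) (h1 + h3) (fun s v => ctxN nk W s v = c ∧ cr mx nk Ls W s v (𝔳 W)) t w ≤
        DV P (F W) (V W) (h1 + h3) (fun s v => ctxN nk W s v = c) t w := DV_anti (fun _ _ hv => hv.1) t w
    have e6 := DV_le_one (P := P) (F := F W) (V := V W) (h := h1 + h3) (E := fun s v => ctxN nk W s v = c) t w
    have e7 : (1 / 2 : ℝ) ^ (h1 + h3) ≤
        DV P (F W) (V W) (h1 + h3) (fun s v => ctxN nk W s v = c ∧ cr mx nk Ls W s v (𝔳 W)) t w :=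
      e3.trans (e1.trans (e2.trans e4))
    have hp : (0 : ℝ) < (1 / 2 : ℝ) ^ (h1 + h3) := by positivity
    have hD0 : 0 < DV P (F W) (V W) (h1 + h3) (fun s v => ctxN nk W s v = c) t w :=
      lt_of_lt_of_le hp (e7.trans e5)
    show (1 / 2 : ℝ) ^ (h1 + h3) ≤
      DV P (F W) (V W) (h1 + h3) (fun s v => ctxN nk W s v = c ∧ cr mx nk Ls W s v (𝔳 W)) t w /
        DV P (F W) (V W) (h1 + h3) (fun s v => ctxN nk W s v = c) t w
    rw [le_div_iff₀ hD0]
    nlinarith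

/-- the visible names are cumulative -/
theorem cum_P {R : Type*} {rf : (Wt → Nm) → R} (hrf : ∀ 𝔳 𝔲 : Wt → Nm, (∀ W, mx W → 𝔳 W = 𝔲 W) → rf 𝔳 = rf 𝔲)
    (i : ℕ) (w : Om) (n : R) (hT : Tr rf (hasP mx nk Ls pb) i w n) : Tr rf (hasP mx nk Ls pb) (i + 1) w n := by
  classical
  obtain ⟨𝔳, hr, hh, hpb⟩ := hT
  refine ⟨fun W => if mx W then 𝔳 W else nk W (i + 1) w, ?_, fun W => ?_, fun W hW => ?_⟩
  · rw [← hr]
    refine hrf _ _ fun W hW => ?_
    exact if_pos hW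
  · beta_reduce
    by_cases hW : mx W
    · rw [if_pos hW, cr_list hW]
      exact H.cum W i w ((cr_list hW).1 (hh W))
    · rw [if_neg hW, cr_key hW]
  · beta_reduce
    rw [if_pos hW]
    exact H.pbcum W i w (hpb W hW)

/-! ### the bad events -/

theorem ctx_birth (W : Wt) (i j : ℕ) (v w : Om) (hij : i ≤ j) (h : ctxN nk W i v = ctxN nk W j w) :
    ctxN nk W i w = ctxN nk W j w := by
  rw [ctxN_eq_iff] at h ⊢
  exact fun W' hW => H.birth W' i j v w hij (h W' hW)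

theorem ctx_betw (W : Wt) (i l j : ℕ) (w : Om) (h1 : i ≤ l) (h2 : l ≤ j) (h : ctxN nk W i w = ctxN nk W j w) :
    ctxN nk W l w = ctxN nk W j w := by
  rw [ctxN_eq_iff] at h ⊢
  exact fun W' hW => H.betw W' i l j w h1 h2 (h W' hW)

/-- mean number of contexts -/
theorem N0_le (W : Wt) : N0c P (ctxN nk W) T ≤ nCh P mx nk T := by
  classical
  unfold N0c
  refine (sum_vals_le (ctxN nk W) T).trans ?_
  unfold nCh
  refine add_le_add le_rfl ?_
  rw [Finset.sum_comm]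
  refine Finset.sum_le_sum fun t _ => ?_
  refine le_trans (P.Pr_mono fun w _ hw => ?_) (P.Pr_ex_le (univ.filter fun W => ¬ mx W)
    fun W' w => nk W' (t + 1) w ≠ nk W' t w)
  by_contra hne
  refine hw (ctxN_eq_iff.2 fun W' hW => ?_)
  by_contra hc
  exact hne ⟨W', mem_filter.2 ⟨mem_univ _, H.not_mx hW⟩, hc⟩

/-- mean number of pairs (context, name) -/
theorem N1_le (W : Wt) : N1c P (ctxN nk W) (cr mx nk Ls W) T ≤ n0 * nCh P mx nk T := by
  classical
  have hN := nCh_ge (P := P) (mx := mx) (nk := nk) T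
  by_cases hm : mx W
  · -- lists
    refine le_trans ?_ (mul_le_mul_of_nonneg_left (H.N0_le W) (by linarith [H.n01]))
    unfold N1c N0c
    rw [Finset.mul_sum]
    refine Finset.sum_le_sum fun c _ => ?_
    unfold FP.Pr
    rw [← P.E_sum, ← P.E_smul]
    refine P.E_mono fun w hw => ?_
    have h2 : ∀ ν ∈ (univ : Finset Nm), ind (∃ s ≤ T, ctxN nk W s w = c ∧ cr mx nk Ls W s w ν) ≤
        ind (∃ s ≤ T, ctxN nk W s w = c) * (if ν ∈ Ls W T w then 1 else 0) := by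
      intro ν _
      by_cases hex : ∃ s ≤ T, ctxN nk W s w = c ∧ cr mx nk Ls W s w ν
      · obtain ⟨s, hs, h3, h4⟩ := hex
        rw [ind_of ⟨s, hs, h3, h4⟩, ind_of ⟨s, hs, h3⟩, if_pos (H.nam.list_mono hs w ((cr_list hm).1 h4))]
        norm_num
      · rw [ind_not hex]
        refine mul_nonneg (ind_nonneg _) ?_
        split_ifs <;> norm_num
    refine (Finset.sum_le_sum h2).trans ?_
    rw [← Finset.mul_sum, Finset.sum_ite_mem, Finset.univ_inter, Finset.sum_const, nsmul_eq_mul, mul_one, mul_comm]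
    exact mul_le_mul_of_nonneg_right (H.card W hm w hw) (ind_nonneg _)
  · -- keys
    have h1 : N1c P (ctxN nk W) (cr mx nk Ls W) T ≤ nCh P mx nk T := by
      have h2 := sum_vals_le (P := P) (fun s w => (ctxN nk W s w, nk W s w)) T
      rw [Fintype.sum_prod_type] at h2
      have h3 : N1c P (ctxN nk W) (cr mx nk Ls W) T =
          ∑ c, ∑ ν, P.Pr (fun w => ∃ s ≤ T, (ctxN nk W s w, nk W s w) = (c, ν)) := by
        unfold N1c
        refine Finset.sum_congr rfl fun c _ => Finset.sum_congr rfl fun ν _ => ?_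
        refine P.Pr_congr fun w _ => ?_
        refine exists_congr fun s => and_congr_right fun _ => ?_
        rw [cr_key hm, Prod.mk.injEq]
      rw [h3]
      refine h2.trans ?_
      unfold nCh
      refine add_le_add le_rfl ?_
      rw [Finset.sum_comm]
      refine Finset.sum_le_sum fun t _ => ?_
      refine le_trans (P.Pr_mono fun w _ hw => ?_) (P.Pr_ex_le (univ.filter fun W => ¬ mx W)
        fun W' w => nk W' (t + 1) w ≠ nk W' t w)
      by_contra hne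
      refine hw (Prod.ext (ctxN_eq_iff.2 fun W' hW => ?_) ?_)
      · by_contra hc
        exact hne ⟨W', mem_filter.2 ⟨mem_univ _, H.not_mx hW⟩, hc⟩
      · by_contra hc
        exact hne ⟨W, mem_filter.2 ⟨mem_univ _, hm⟩, hc⟩
    refine h1.trans ?_
    have := H.n01
    nlinarith

theorem pb_mono (W : Wt) {i j : ℕ} (hij : i ≤ j) (w : Om) : pb W i w ⊆ pb W j w := by
  induction j, hij using Nat.le_induction with
  | base => exact Finset.Subset.refl _
  | succ j _ ih => exact ih.trans (H.pbcum W j w)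

/-- the sum over the siblings of the densities -/
theorem Sb_le {t : ℕ} (ht : t ≤ T) {w : Om} (hw : P.p w ≠ 0) {𝔳 : Wt → Nm} (hh : hasN mx nk Ls t w 𝔳) (W : Wt) :
    Sb (dN P F V mx nk Ls pb h h3) t (res W 𝔳) w ≤
      ∑ ν, mxd (rho P (F W) (V W) h (ctxN nk W) (cr mx nk Ls W)) t (ctxN nk W t w) ν w + 1 := by
  classical
  unfold Sb
  -- one sibling
  have hrho : ∀ ν j, rhoN P F V mx nk Ls h j (sibl (res W 𝔳) ν) w =
      rho P (F W) (V W) h (ctxN nk W) (cr mx nk Ls W) j (ctxN nk W t w) ν w := by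
    intro ν j
    unfold rhoN
    rw [lw_sibl, H.lw_res hh W, sibl_top]
    rfl
  have h1 : ∀ ν, rmx (dN P F V mx nk Ls pb h h3) t (sibl (res W 𝔳) ν) w ≤
      mxd (rho P (F W) (V W) h (ctxN nk W) (cr mx nk Ls W)) t (ctxN nk W t w) ν w +
        (if mx W ∧ ν ∈ pb W T w then (1 / 2 : ℝ) ^ h3 else 0) := by
    intro ν
    have hone : ∀ j ≤ t, dN P F V mx nk Ls pb h h3 j (sibl (res W 𝔳) ν) w ≤
        rho P (F W) (V W) h (ctxN nk W) (cr mx nk Ls W) j (ctxN nk W t w) ν w +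
          (if mx W ∧ ν ∈ pb W T w then (1 / 2 : ℝ) ^ h3 else 0) := by
      intro j hj
      have hr0 := rho_nonneg (P := P) (F := F W) (V := V W) (h := h) (lo := ctxN nk W) (cr := cr mx nk Ls W) j
        (ctxN nk W t w) ν w
      have hi0 : 0 ≤ (if mx W ∧ ν ∈ pb W T w then (1 / 2 : ℝ) ^ h3 else 0) := by
        split_ifs
        · positivity
        · exact le_rfl
      unfold dN
      rw [hrho ν j]
      by_cases hm : mx W
      · rw [if_pos (show mx (sibl (res W 𝔳) ν).1 from hm)]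
        by_cases hν : (sibl (res W 𝔳) ν).2 (sibl (res W 𝔳) ν).1 ∈ pb (sibl (res W 𝔳) ν).1 j w
        · rw [if_pos hν]
          rw [sibl_top] at hν
          have hmono : pb W j w ⊆ pb W T w := H.pb_mono W (hj.trans ht) w
          rw [if_pos ⟨hm, hmono hν⟩]
          exact max_le (by linarith) (by linarith [show (0 : ℝ) ≤ (1 / 2 : ℝ) ^ h3 by positivity])
        · rw [if_neg hν]
          linarith
      · rw [if_neg (show ¬ mx (sibl (res W 𝔳) ν).1 from hm)]
        linarith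
    have hgen : ∀ i ≤ t, rmx (dN P F V mx nk Ls pb h h3) i (sibl (res W 𝔳) ν) w ≤
        mxd (rho P (F W) (V W) h (ctxN nk W) (cr mx nk Ls W)) i (ctxN nk W t w) ν w +
          (if mx W ∧ ν ∈ pb W T w then (1 / 2 : ℝ) ^ h3 else 0) := by
      intro i
      induction i with
      | zero => intro hi; exact hone 0 hi
      | succ i ih =>
        intro hi
        refine max_le ((ih (by omega)).trans (add_le_add (le_max_left _ _) le_rfl)) ?_
        exact (hone (i + 1) hi).trans (add_le_add (le_max_right _ _) le_rfl)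
    exact hgen t le_rfl
  refine (Finset.sum_le_sum fun ν _ => h1 ν).trans ?_
  rw [Finset.sum_add_distrib]
  refine add_le_add le_rfl ?_
  by_cases hm : mx W
  · have e : ∀ ν, (if mx W ∧ ν ∈ pb W T w then (1 / 2 : ℝ) ^ h3 else 0) =
        if ν ∈ pb W T w then (1 / 2 : ℝ) ^ h3 else 0 := fun ν => by simp [hm]
    rw [Finset.sum_congr rfl fun ν _ => e ν, Finset.sum_ite_mem, Finset.univ_inter, Finset.sum_const, nsmul_eq_mul]
    have h3' : (2 : ℝ) ^ h3 * (1 / 2 : ℝ) ^ h3 = 1 := by rw [← mul_pow]; norm_num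
    have h4 : (0 : ℝ) ≤ (1 / 2) ^ h3 := by positivity
    calc ((pb W T w).card : ℝ) * (1 / 2 : ℝ) ^ h3 ≤ 2 ^ h3 * (1 / 2 : ℝ) ^ h3 :=
          mul_le_mul_of_nonneg_right (H.pbc W hm w hw) h4
      _ = 1 := h3'
  · refine le_trans (le_of_eq (Finset.sum_eq_zero fun ν _ => ?_)) zero_le_one
    rw [if_neg]
    exact fun hh => hm hh.1

/-- THE VERTICES WHICH ARE NOT GOOD, OR HEAVY -/
theorem bad_le (hh1 : 1 ≤ h1) (hx0 : 0 ≤ x0) (hB : 0 < B) {Ent N : ℝ} (hN : nCh P mx nk T ≤ N)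
    (hentN : ∀ W, P.Hc (ctxN nk W 0) (F W 0) +
      ∑ t ∈ range T, P.Hc (ctxN nk W (t + 1)) (fun v => (F W (t + 1) v, ctxN nk W t v)) ≤ Ent)
    (hentE : ∀ W, ¬ mx W → P.Hc (ctxE nk W 0) (F W 0) +
      ∑ t ∈ range T, P.Hc (ctxE nk W (t + 1)) (fun v => (F W (t + 1) v, ctxE nk W t v)) ≤ Ent) :
    P.Pr (fun w => ¬ ∀ t ≤ T, GD P F V mx nk T h1 h3 x0 G0 t w ∧ ∀ 𝔳, hasP mx nk Ls pb t w 𝔳 →
      ∀ W, Sb (dN P F V mx nk Ls pb (h1 + h3) h3) t (res W 𝔳) w ≤ B + 1) ≤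
      P.Pr (fun w => ∃ t ≤ T, ¬ G0 t w) + Fintype.card Wt * (2 * Ent / (h1 * Real.log 2) +
        4 * K1 * ((h1 + h3 : ℕ) : ℝ) * x0 * N +
        8 * K1 * K2 * ((h1 + h3 : ℕ) : ℝ) * (((h1 + h3 : ℕ) : ℝ) + 1) ^ 2 * (n0 * N) / B) := by
  classical
  have hl2 : 0 < (h1 : ℝ) * Real.log 2 := by
    have : (0 : ℝ) < h1 := by exact_mod_cast hh1
    have := Real.log_pos (show (1 : ℝ) < 2 by norm_num)
    positivity
  have hN0 := nCh_ge (P := P) (mx := mx) (nk := nk) T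
  have hN' : 0 ≤ N := by linarith
  have hn0 : 0 ≤ n0 := by linarith [H.n01]
  have hK1 := H.K10
  have hK2 := H.K20
  have hh : 1 ≤ h1 + h3 := by omega
  -- the events of one type
  set A1 : Wt → Om → Prop := fun W w => ∃ t ≤ T, den P (F W) (fun s v => ctxN nk W s v = ctxN nk W t w) t w <
    (1 / 2 : ℝ) ^ h1 with hA1
  set A2 : Wt → Om → Prop := fun W w => ¬ mx W ∧ ∃ t ≤ T, den P (F W) (fun s v => ctxE nk W s v = ctxE nk W t w) t w <
    (1 / 2 : ℝ) ^ h1 with hA2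
  set A3 : Wt → Om → Prop := fun W w => ∃ t ≤ T, den P (F W) (fun s v => ctxN nk W s v = ctxN nk W t w) t w <
    x0 * DP P (F W) (V W) (h1 + h3) (fun s v => ctxN nk W s v = ctxN nk W t w) t w with hA3
  set A4 : Wt → Om → Prop := fun W w => ∃ t ≤ T, B <
    ∑ ν, mxd (rho P (F W) (V W) (h1 + h3) (ctxN nk W) (cr mx nk Ls W)) t (ctxN nk W t w) ν w with hA4
  have hEnt : ∀ W, 0 ≤ Ent := fun W => le_trans (add_nonneg (P.Hc_nonneg _ _)
    (Finset.sum_nonneg fun t _ => P.Hc_nonneg _ _)) (hentN W)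
  have b1 : ∀ W, P.Pr (A1 W) ≤ Ent / (h1 * Real.log 2) := by
    intro W
    have h5 := thin_ent (P := P) (H.filtF W) (nn := ctxN nk W) (fun t v w h6 h7 => by
      rw [ctxN_eq_iff] at h7 ⊢
      exact fun W' hW => H.past W W' t v w hW.le h6 (h7 W' hW)) T h1
    rw [le_div_iff₀ hl2, mul_comm]
    exact h5.trans (hentN W)
  have b2 : ∀ W, P.Pr (A2 W) ≤ Ent / (h1 * Real.log 2) := by
    intro W
    by_cases hm : mx W
    · have h0 : P.Pr (A2 W) ≤ 0 := by
        unfold FP.Pr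
        refine P.E_le_const fun w _ => le_of_eq (ind_not fun hh => hh.1 hm)
      exact h0.trans (div_nonneg (hEnt W) hl2.le)
    · have h5 := thin_ent (P := P) (H.filtF W) (nn := ctxE nk W) (fun t v w h6 h7 => by
        rw [ctxE_eq_iff] at h7 ⊢
        exact fun W' hW => H.past W W' t v w hW h6 (h7 W' hW)) T h1
      rw [le_div_iff₀ hl2, mul_comm]
      refine le_trans ?_ (h5.trans (hentE W hm))
      exact mul_le_mul_of_nonneg_left (P.Pr_mono fun w _ hw => hw.2) hl2.le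
  have b3 : ∀ W, P.Pr (A3 W) ≤ 4 * K1 * ((h1 + h3 : ℕ) : ℝ) * x0 * N := by
    intro W
    refine (lost_near (h := h1 + h3) (H.filtF W) (H.filtV W) hK1 hh (H.near W) (H.ctx_birth W) (H.ctx_betw W)
      hx0).trans ?_
    exact mul_le_mul_of_nonneg_left ((H.N0_le W).trans hN) (by positivity)
  have b4 : ∀ W, P.Pr (A4 W) ≤
      8 * K1 * K2 * ((h1 + h3 : ℕ) : ℝ) * (((h1 + h3 : ℕ) : ℝ) + 1) ^ 2 * (n0 * N) / B := by
    intro W
    rw [le_div_iff₀ hB, mul_comm]
    refine (heavy_near (h := h1 + h3) (cr := cr mx nk Ls W) (H.filtF W) (H.filtV W) hK1 hK2 hh (H.near W) (H.cmp W)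
      (H.ctx_birth W) (H.ctx_betw W) hB.le).trans ?_
    refine mul_le_mul_of_nonneg_left ((H.N1_le W).trans (mul_le_mul_of_nonneg_left hN hn0)) (by positivity)
  have hsub : P.Pr (fun w => ¬ ∀ t ≤ T, GD P F V mx nk T h1 h3 x0 G0 t w ∧ ∀ 𝔳, hasP mx nk Ls pb t w 𝔳 →
      ∀ W, Sb (dN P F V mx nk Ls pb (h1 + h3) h3) t (res W 𝔳) w ≤ B + 1) ≤
      P.Pr (fun w => ∃ t ≤ T, ¬ G0 t w) + ∑ W : Wt, P.Pr (fun w => ((A1 W w ∨ A2 W w) ∨ A3 W w) ∨ A4 W w) := by
    refine le_trans (P.Pr_mono fun w hw hne => ?_) ((P.Pr_or_le _ _).trans (add_le_add le_rfl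
      (P.Pr_ex_le univ _)))
    push_neg at hne
    obtain ⟨t, ht, hG⟩ := hne
    by_cases hg0 : G0 t w
    · refine Or.inr ?_
      by_contra hA
      push_neg at hA
      have hGD : GD P F V mx nk T h1 h3 x0 G0 t w := by
        refine ⟨⟨ht, hg0⟩, fun W => ?_, fun W hm => ?_, fun W => ?_⟩
        · exact not_lt.1 fun hlt => (hA W (mem_univ _)).1.1.1 ⟨t, ht, hlt⟩
        · exact not_lt.1 fun hlt => (hA W (mem_univ _)).1.1.2 ⟨hm, t, ht, hlt⟩
        · exact not_lt.1 fun hlt => (hA W (mem_univ _)).1.2 ⟨t, ht, hlt⟩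
      obtain ⟨𝔳, hh, W, hlt⟩ := hG hGD
      have h5 := H.Sb_le (h := h1 + h3) ht hw hh.1 W
      refine (hA W (mem_univ _)).2 ⟨t, ht, ?_⟩
      linarith
    · exact Or.inl ⟨t, ht, hg0⟩
  refine hsub.trans (add_le_add le_rfl ?_)
  have hone : ∀ W, P.Pr (fun w => ((A1 W w ∨ A2 W w) ∨ A3 W w) ∨ A4 W w) ≤ 2 * Ent / (h1 * Real.log 2) +
        4 * K1 * ((h1 + h3 : ℕ) : ℝ) * x0 * N +
        8 * K1 * K2 * ((h1 + h3 : ℕ) : ℝ) * (((h1 + h3 : ℕ) : ℝ) + 1) ^ 2 * (n0 * N) / B := by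
    intro W
    have c1 := P.Pr_or_le (fun w => (A1 W w ∨ A2 W w) ∨ A3 W w) (A4 W)
    have c2 := P.Pr_or_le (fun w => A1 W w ∨ A2 W w) (A3 W)
    have c3 := P.Pr_or_le (A1 W) (A2 W)
    have e : 2 * Ent / (h1 * Real.log 2) = Ent / (h1 * Real.log 2) + Ent / (h1 * Real.log 2) := by ring
    rw [e]
    linarith [b1 W, b2 W, b3 W, b4 W]
  refine (Finset.sum_le_sum fun W _ => hone W).trans (le_of_eq ?_)
  rw [Finset.sum_const, Finset.card_univ, nsmul_eq_mul]

end CwS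

end names

end

end Pool.Agent.GMN
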