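import Pool.Agent.GMN.Heavy
import Pool.Agent.M3.FPInfo

/-!
# GMN.Names (row N, N-APP 2.3, note 3689 (3)): names of a refining classification

`K` = node filtration, `cls t` = class of the hidden vertex at time `t`, refining (`Ref`).  At every node the largest
part of a class keeps the name of the class, the others get new names: `nm T t : Om → Fin (T+1) × Option Om`
(birth time, representative of the class at birth).

* `cls_of_nm`, `nm_of_cls` : names and classes are the same partition at every node;
* `nm_past` : the name determines the past names; `nm_persist`, `nm_birth` : a vertex never comes back;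
* `change_le` : mean number of changes of the name `≤` (sum of the entropies of the splits) `/ log 2`;
* `lost_le` : `h log 2 P(∃ t ≤ T, relative mass of the true name < (1/2)^h) ≤` initial entropy + entropies of the splits.
-/

set_option autoImplicit false
set_option linter.unusedSectionVars false

namespace Pool.Agent.GMN

open Finset Pool.Agent.PWZ Pool.Agent.M3

noncomputable section

section arg

variable {Om : Type*}

/-- a maximal element of a finite set -/
def argm (A : Finset Om) (f : Om → ℝ) : Option Om :=
  open Classical in if h : A.Nonempty then some (Classical.choose (A.exists_max_image f h)) else none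

theorem argm_spec {A : Finset Om} (f : Om → ℝ) (h : A.Nonempty) :
    ∃ u, argm A f = some u ∧ u ∈ A ∧ ∀ v ∈ A, f v ≤ f u := by
  unfold argm
  rw [dif_pos h]
  exact ⟨_, rfl, Classical.choose_spec (A.exists_max_image f h)⟩

end arg

variable {Om Cl : Type*} [Fintype Om] {κ : ℕ → Type*}

/-- the classes refine -/
def Ref (K : ∀ t, Om → κ t) (cls : ℕ → Om → Cl) : Prop :=
  ∀ t v w, K (t + 1) v = K (t + 1) w → cls (t + 1) v = cls (t + 1) w → cls t v = cls t w

variable (P : FP Om) (K : ∀ t, Om → κ t) (cls : ℕ → Om → Cl)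

open Classical in
/-- the members of the class of `w` at time `s` in the node of time `t` -/
def mbr (s t : ℕ) (w : Om) : Finset Om := univ.filter fun v => K t v = K t w ∧ cls s v = cls s w

/-- mass of the part -/
def pm (t : ℕ) (v : Om) : ℝ := P.m (fun u => (K t u, cls t u)) v

/-- representative of the largest part at the step `t → t + 1` -/
def topt (t : ℕ) (w : Om) : Option Om := argm (mbr K cls t (t + 1) w) (pm P K cls (t + 1))

/-- the vertex is in the largest part at the step `t → t + 1` -/
def keep (t : ℕ) (w : Om) : Prop := ∃ u, topt P K cls t w = some u ∧ cls (t + 1) w = cls (t + 1) u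

/-- representative of the class at time `t` -/
def rep (t : ℕ) (w : Om) : Option Om := argm (mbr K cls t t w) (fun _ => 0)

open Classical in
/-- birth time of the name -/
def bt : ℕ → Om → ℕ
  | 0 => fun _ => 0
  | t + 1 => fun w => if keep P K cls t w then bt t w else t + 1

/-- THE NAME -/
def nm (T t : ℕ) (w : Om) : Fin (T + 1) × Option Om :=
  (⟨min (bt P K cls t w) T, by omega⟩, rep K cls (bt P K cls t w) w)

variable {P K cls}

theorem self_mem_mbr (s t : ℕ) (w : Om) : w ∈ mbr K cls s t w := by
  classical
  unfold mbr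
  rw [mem_filter]
  exact ⟨mem_univ _, rfl, rfl⟩

theorem mem_mbr {s t : ℕ} {v w : Om} : v ∈ mbr K cls s t w ↔ K t v = K t w ∧ cls s v = cls s w := by
  classical
  unfold mbr
  rw [mem_filter]
  exact ⟨fun h => h.2, fun h => ⟨mem_univ _, h⟩⟩

theorem mbr_congr {s t : ℕ} {v w : Om} (h1 : K t v = K t w) (h2 : cls s v = cls s w) :
    mbr K cls s t v = mbr K cls s t w := by
  ext u
  rw [mem_mbr, mem_mbr, h1, h2]

theorem topt_congr {t : ℕ} {v w : Om} (h1 : K (t + 1) v = K (t + 1) w) (h2 : cls t v = cls t w) :
    topt P K cls t v = topt P K cls t w := by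
  unfold topt
  rw [mbr_congr h1 h2]

theorem rep_congr {t : ℕ} {v w : Om} (h1 : K t v = K t w) (h2 : cls t v = cls t w) :
    rep K cls t v = rep K cls t w := by
  unfold rep
  rw [mbr_congr h1 h2]

theorem of_rep {t : ℕ} {v w : Om} (h : rep K cls t v = rep K cls t w) : K t v = K t w ∧ cls t v = cls t w := by
  obtain ⟨u, hu, hu1, _⟩ := argm_spec (fun _ => (0 : ℝ)) ⟨v, self_mem_mbr (K := K) (cls := cls) t t v⟩
  obtain ⟨u', hu', hu1', _⟩ := argm_spec (fun _ => (0 : ℝ)) ⟨w, self_mem_mbr (K := K) (cls := cls) t t w⟩
  have e : u = u' := by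
    have h1 : rep K cls t v = some u := hu
    have h2 : rep K cls t w = some u' := hu'
    rw [h1, h2] at h
    exact Option.some.inj h
  subst e
  have a := mem_mbr.1 hu1
  have b := mem_mbr.1 hu1'
  exact ⟨a.1.symm.trans b.1, a.2.symm.trans b.2⟩

theorem bt_le (t : ℕ) (w : Om) : bt P K cls t w ≤ t := by
  induction t with
  | zero => exact le_rfl
  | succ t ih =>
    classical
    unfold bt
    split_ifs
    · omega
    · exact le_rfl

theorem bt_succ_of_keep {t : ℕ} {w : Om} (h : keep P K cls t w) : bt P K cls (t + 1) w = bt P K cls t w := by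
  classical
  rw [bt]
  exact if_pos h

theorem bt_succ_of_not {t : ℕ} {w : Om} (h : ¬ keep P K cls t w) : bt P K cls (t + 1) w = t + 1 := by
  classical
  rw [bt]
  exact if_neg h

/-- kept since the birth -/
theorem keep_of {i j : ℕ} {w : Om} (hij : i < j) (h : bt P K cls j w ≤ i) : keep P K cls i w := by
  induction j with
  | zero => omega
  | succ j ih =>
    by_cases hk : keep P K cls j w
    · rw [bt_succ_of_keep hk] at h
      rcases Nat.lt_or_ge i j with h1 | h1
      · exact ih h1 h
      · have : i = j := by omega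
        subst this; exact hk
    · rw [bt_succ_of_not hk] at h
      omega

theorem bt_persist {i j : ℕ} {w : Om} (hij : i ≤ j) (h : bt P K cls j w ≤ i) : bt P K cls i w = bt P K cls j w := by
  induction j, hij using Nat.le_induction with
  | base => rfl
  | succ j hij ih =>
    have hk := keep_of (P := P) (show j < j + 1 by omega) (h.trans hij)
    rw [bt_succ_of_keep hk] at h ⊢
    exact ih h

theorem nm_persist {T i j : ℕ} {w : Om} (hij : i ≤ j) (h : bt P K cls j w ≤ i) : nm P K cls T i w = nm P K cls T j w := by
  unfold nm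
  have e := bt_persist hij h
  simp only [e]

section filt

variable (hK : Filt K) (hr : Ref K cls)
include hK hr

theorem cls_past {s t : ℕ} (h : s ≤ t) {v w : Om} (h1 : K t v = K t w) (h2 : cls t v = cls t w) :
    cls s v = cls s w := by
  induction t, h using Nat.le_induction with
  | base => exact h2
  | succ t _ ih => exact ih (hK t v w h1) (hr t v w h1 h2)

theorem keep_congr {t : ℕ} {v w : Om} (h1 : K (t + 1) v = K (t + 1) w) (h2 : cls (t + 1) v = cls (t + 1) w) :
    keep P K cls t v ↔ keep P K cls t w := by
  unfold keep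
  rw [topt_congr h1 (hr t v w h1 h2), h2]

theorem bt_congr {t : ℕ} {v w : Om} (h1 : K t v = K t w) (h2 : cls t v = cls t w) :
    bt P K cls t v = bt P K cls t w := by
  induction t with
  | zero => rfl
  | succ t ih =>
    have e := ih (hK t v w h1) (hr t v w h1 h2)
    by_cases hk : keep P K cls t v
    · rw [bt_succ_of_keep hk, bt_succ_of_keep ((keep_congr hK hr h1 h2).1 hk), e]
    · rw [bt_succ_of_not hk, bt_succ_of_not (fun hh => hk ((keep_congr hK hr h1 h2).2 hh))]

/-- the class determines the name -/
theorem nm_of_cls {T t : ℕ} {v w : Om} (h1 : K t v = K t w) (h2 : cls t v = cls t w) :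
    nm P K cls T t v = nm P K cls T t w := by
  have e := bt_congr (P := P) hK hr h1 h2
  have hb := bt_le (P := P) (K := K) (cls := cls) t v
  unfold nm
  simp only [← e]
  rw [rep_congr (hK.le hb v w h1) (cls_past hK hr hb h1 h2)]

omit hr in
/-- same birth class and both kept -/
theorem cls_of_keep {b t : ℕ} (hbt : b ≤ t) {v w : Om} (h1 : K t v = K t w) (h2 : cls b v = cls b w)
    (hv : ∀ s, b ≤ s → s < t → keep P K cls s v) (hw : ∀ s, b ≤ s → s < t → keep P K cls s w) :
    cls t v = cls t w := by
  induction t, hbt using Nat.le_induction with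
  | base => exact h2
  | succ t hbt ih =>
    have e := ih (hK t v w h1) (fun s a c => hv s a (by omega)) (fun s a c => hw s a (by omega))
    obtain ⟨u, hu, hcu⟩ := hv t hbt (by omega)
    obtain ⟨u', hu', hcu'⟩ := hw t hbt (by omega)
    rw [topt_congr h1 e, hu'] at hu
    have : u' = u := Option.some.inj hu
    rw [hcu, hcu', this]

omit hr in
/-- the name determines the class -/
theorem cls_of_nm {T t : ℕ} (ht : t ≤ T) {v w : Om} (h1 : K t v = K t w) (h2 : nm P K cls T t v = nm P K cls T t w) :
    cls t v = cls t w := by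
  have hv := bt_le (P := P) (K := K) (cls := cls) t v
  have hw := bt_le (P := P) (K := K) (cls := cls) t w
  have e1 : bt P K cls t v = bt P K cls t w := by
    have := congrArg (fun z => z.1.1) h2
    simp only [nm] at this
    rwa [min_eq_left (hv.trans ht), min_eq_left (hw.trans ht)] at this
  have e2 : rep K cls (bt P K cls t v) v = rep K cls (bt P K cls t w) w := congrArg Prod.snd h2
  rw [← e1] at e2
  have e3 := of_rep e2
  refine cls_of_keep (P := P) hK hv h1 e3.2 (fun s a c => keep_of c a) (fun s a c => ?_)
  rw [e1] at a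
  exact keep_of c a

/-- the name determines the past names -/
theorem nm_past {T s t : ℕ} (h : s ≤ t) (ht : t ≤ T) {v w : Om} (h1 : K t v = K t w)
    (h2 : nm P K cls T t v = nm P K cls T t w) : nm P K cls T s v = nm P K cls T s w := by
  have e := cls_of_nm hK ht h1 h2
  exact nm_of_cls hK hr (hK.le h v w h1) (cls_past hK hr h h1 e)

omit hr in
/-- a name which exists at time `i` and is the name of `w` at a later time `j` is the name of `w` at time `i` -/
theorem nm_birth {T i j : ℕ} (hij : i ≤ j) (hj : j ≤ T) {v w : Om} (h : nm P K cls T i v = nm P K cls T j w) :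
    nm P K cls T i w = nm P K cls T j w := by
  have hv := bt_le (P := P) (K := K) (cls := cls) i v
  have hw := bt_le (P := P) (K := K) (cls := cls) j w
  have e1 : bt P K cls i v = bt P K cls j w := by
    have := congrArg (fun z => z.1.1) h
    simp only [nm] at this
    rwa [min_eq_left (hv.trans (hij.trans hj)), min_eq_left (hw.trans hj)] at this
  exact nm_persist hij (by omega)

omit hK hr in
/-- a vertex never comes back -/
theorem nm_between {T i l j : ℕ} (h1 : i ≤ l) (h2 : l ≤ j) (hj : j ≤ T) {w : Om}
    (h : nm P K cls T i w = nm P K cls T j w) : nm P K cls T l w = nm P K cls T j w := by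
  have hi := bt_le (P := P) (K := K) (cls := cls) i w
  have hw := bt_le (P := P) (K := K) (cls := cls) j w
  have e1 : bt P K cls i w = bt P K cls j w := by
    have := congrArg (fun z => z.1.1) h
    simp only [nm] at this
    rwa [min_eq_left (hi.trans (h1.trans (h2.trans hj))), min_eq_left (hw.trans hj)] at this
  exact nm_persist h2 (by omega)

end filt

/-! ### the number of changes -/

/-- entropy of the split, pointwise -/
def entp (P : FP Om) (K : ∀ t, Om → κ t) (cls : ℕ → Om → Cl) (t : ℕ) (w : Om) : ℝ :=
  Real.log (P.m (fun u => (K (t + 1) u, cls t u)) w / P.m (fun u => (K (t + 1) u, cls (t + 1) u)) w)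

theorem pm_le (hr : Ref K cls) (t : ℕ) (w : Om) :
    P.m (fun u => (K (t + 1) u, cls (t + 1) u)) w ≤ P.m (fun u => (K (t + 1) u, cls t u)) w := by
  refine P.m_anti (fun v w h => ?_) w
  have h1 := congrArg Prod.fst h
  have h2 := congrArg Prod.snd h
  exact Prod.ext h1 (hr t v w h1 h2)

theorem entp_nonneg (hr : Ref K cls) (t : ℕ) {w : Om} (hw : P.p w ≠ 0) : 0 ≤ entp P K cls t w := by
  unfold entp
  refine Real.log_nonneg ?_
  rw [one_le_div (P.m_pos _ hw)]
  exact pm_le hr t w

/-- a vertex outside the largest part is in a part of relative mass at most `1/2` -/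
theorem entp_ge (hr : Ref K cls) {t : ℕ} {w : Om} (hw : P.p w ≠ 0) (h : ¬ keep P K cls t w) :
    Real.log 2 ≤ entp P K cls t w := by
  classical
  unfold entp
  refine Real.log_le_log (by norm_num) ?_
  have hm := P.m_pos (fun u => (K (t + 1) u, cls (t + 1) u)) hw
  rw [le_div_iff₀ hm]
  obtain ⟨u, hu, hu1, hu2⟩ := argm_spec (pm P K cls (t + 1)) ⟨w, self_mem_mbr (K := K) (cls := cls) t (t + 1) w⟩
  have hu3 := hu2 w (self_mem_mbr t (t + 1) w)
  have hmu := mem_mbr.1 hu1
  have hne : cls (t + 1) w ≠ cls (t + 1) u := fun e => h ⟨u, hu, e⟩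
  -- two disjoint parts
  have h2 : P.m (fun u => (K (t + 1) u, cls (t + 1) u)) w + P.m (fun u => (K (t + 1) u, cls (t + 1) u)) u ≤
      P.m (fun u => (K (t + 1) u, cls t u)) w := by
    unfold FP.m
    rw [← P.E_add]
    refine P.E_mono fun v _ => ?_
    by_cases a : (K (t + 1) v, cls (t + 1) v) = (K (t + 1) w, cls (t + 1) w)
    · have a1 := congrArg Prod.fst a
      have a2 := congrArg Prod.snd a
      simp only at a1 a2
      have b : ¬ ((K (t + 1) v, cls (t + 1) v) = (K (t + 1) u, cls (t + 1) u)) := fun hb => by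
        have b2 := congrArg Prod.snd hb
        simp only at b2
        exact hne (a2.symm.trans b2)
      rw [ind_of a, ind_not b, ind_of (Prod.ext a1 (hr t v w a1 a2))]
      norm_num
    · by_cases b : (K (t + 1) v, cls (t + 1) v) = (K (t + 1) u, cls (t + 1) u)
      · have b1 := congrArg Prod.fst b
        have b2 := congrArg Prod.snd b
        simp only at b1 b2
        rw [ind_not a, ind_of b, ind_of (Prod.ext (b1.trans hmu.1) ((hr t v u b1 b2).trans hmu.2))]
        norm_num
      · rw [ind_not a, ind_not b]
        simpa using ind_nonneg _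
  unfold pm at hu3
  linarith

/-- MEAN NUMBER OF CHANGES OF THE NAME -/
theorem change_le (hr : Ref K cls) (T n : ℕ) :
    Real.log 2 * ∑ t ∈ range n, P.Pr (fun w => nm P K cls T (t + 1) w ≠ nm P K cls T t w) ≤
      ∑ t ∈ range n, P.E (entp P K cls t) := by
  classical
  rw [Finset.mul_sum]
  refine Finset.sum_le_sum fun t _ => ?_
  unfold FP.Pr
  rw [← P.E_smul]
  refine P.E_mono fun w hw => ?_
  by_cases h : nm P K cls T (t + 1) w ≠ nm P K cls T t w
  · rw [ind_of h, mul_one]
    refine entp_ge hr hw fun hk => h ?_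
    unfold nm
    simp only [bt_succ_of_keep hk]
  · rw [ind_not h, mul_zero]
    exact entp_nonneg hr t hw

/-! ### the relative mass of the true name -/

section lost

variable {φ : ℕ → Type*} {N : Type*} {F : ∀ t, Om → φ t} {nn : ℕ → Om → N}

/-- a step of the filtration does not increase the logarithm of the inverse relative mass -/
theorem ce_log_le {α β γ : Type*} (X : Om → α) (Y : Om → β) (Z : Om → γ) (hXY : Fac Y X) {w : Om} (hw : P.p w ≠ 0) :
    P.ce (fun u => (X u, Z u)) (fun v => Real.log (P.m Y v / P.m (fun u => (Y u, Z u)) v)) w ≤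
      Real.log (P.m X w / P.m (fun u => (X u, Z u)) w) := by
  classical
  set G : Om → α × γ := fun u => (X u, Z u) with hG
  set c : Om → ℝ := fun v => P.m X v / P.m G v with hc
  set r : Om → ℝ := fun v => P.m Y v / P.m (fun u => (Y u, Z u)) v with hr
  have hcf : Fac G c := by
    intro v w h
    have h1 : X v = X w := congrArg Prod.fst h
    simp only [hc]
    rw [P.Fac_m X v w h1, P.Fac_m G v w h]
  have hcp : ∀ v, P.p v ≠ 0 → 0 < c v := fun v hv => div_pos (P.m_pos _ hv) (P.m_pos _ hv)
  have hrp : ∀ v, P.p v ≠ 0 → 0 < r v := fun v hv => div_pos (P.m_pos _ hv) (P.m_pos _ hv)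
  -- the mean of `r`
  have hmean : P.ce G r w ≤ c w := by
    have hm : 0 < P.m G w := P.m_pos _ hw
    simp only [hc]
    unfold FP.ce
    refine div_le_div_of_nonneg_right ?_ hm.le
    -- condition on `Y`
    have hf : Fac Y (fun v => ind (X v = X w) * P.m Y v) := by
      intro v v' h
      show ind (X v = X w) * P.m Y v = ind (X v' = X w) * P.m Y v'
      rw [hXY v v' h, P.Fac_m Y v v' h]
    have e1 : P.E (fun v => ind (G v = G w) * r v) =
        P.E (fun v => (ind (X v = X w) * P.m Y v) * (ind (Z v = Z w) / P.m (fun u => (Y u, Z u)) v)) := by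
      refine P.E_congr fun v _ => ?_
      have e2 : ind (G v = G w) = ind (X v = X w) * ind (Z v = Z w) := by
        rw [← ind_and]
        congr 1
        simp only [hG, Prod.mk.injEq]
      rw [e2]
      simp only [hr]
      ring
    rw [e1, ← P.E_mul_ce hf]
    unfold FP.m
    refine P.E_mono fun v hv => ?_
    have hmY : 0 < P.m Y v := P.m_pos _ hv
    have h3 : P.ce Y (fun v => ind (Z v = Z w) / P.m (fun u => (Y u, Z u)) v) v ≤ 1 / P.m Y v := by
      unfold FP.ce
      refine div_le_div_of_nonneg_right ?_ hmY.le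
      refine le_trans (le_of_eq ?_) (P.E_ind_div_m_le (fun u => (Y u, Z u)) (Y v, Z w))
      refine P.E_congr fun u _ => ?_
      have e2 : ind ((Y u, Z u) = (Y v, Z w)) = ind (Y u = Y v) * ind (Z u = Z w) := by
        rw [← ind_and]
        congr 1
        simp only [Prod.mk.injEq]
      rw [e2]; ring
    have h4 : 0 ≤ ind (X v = X w) * P.m Y v := mul_nonneg (ind_nonneg _) hmY.le
    have h5 := mul_le_mul_of_nonneg_left h3 h4
    have h6 : ind (X v = X w) * P.m Y v * (1 / P.m Y v) = ind (X v = X w) := by
      field_simp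
    rw [h6] at h5
    exact h5
  -- `log r ≤ r / c - 1 + log c`
  have h1 : P.ce G (fun v => Real.log (r v)) w ≤ P.ce G (fun v => (1 / c v) * r v + (Real.log (c v) - 1)) w := by
    refine P.ce_mono (fun v hv => ?_) w
    have h2 := Real.log_le_sub_one_of_pos (div_pos (hrp v hv) (hcp v hv))
    rw [Real.log_div (hrp v hv).ne' (hcp v hv).ne'] at h2
    have e : r v / c v = 1 / c v * r v := by ring
    rw [e] at h2
    linarith
  refine h1.trans ?_
  have hf1 : Fac G (fun v => 1 / c v) := fun v w h => by
    show 1 / c v = 1 / c w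
    rw [hcf v w h]
  have hf2 : Fac G (fun v => Real.log (c v) - 1) := fun v w h => by
    show Real.log (c v) - 1 = Real.log (c w) - 1
    rw [hcf v w h]
  rw [P.ce_add, P.ce_mul hf1, P.ce_of_fac hf2 hw]
  have h3 : 1 / c w * P.ce G r w ≤ 1 := by
    rw [one_div, inv_mul_le_iff₀ (hcp w hw), mul_one]
    exact hmean
  show 1 / c w * P.ce G r w + (Real.log (c w) - 1) ≤ Real.log (c w)
  linarith

/-- relative mass of the true name given the filtration -/
def qn (P : FP Om) (F : ∀ t, Om → φ t) (nn : ℕ → Om → N) (t : ℕ) (w : Om) : ℝ :=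
  P.m (fun u => (F t u, nn t u)) w / P.m (F t) w

/-- entropy of the split given the filtration -/
def entF (P : FP Om) (F : ∀ t, Om → φ t) (nn : ℕ → Om → N) (t : ℕ) (w : Om) : ℝ :=
  Real.log (P.m (fun u => (F (t + 1) u, nn t u)) w / P.m (fun u => (F (t + 1) u, nn (t + 1) u)) w)

/-- THE TRUE NAME IS NOT LOST -/
theorem lost_le (hF : Filt F) (hn : ∀ t v w, F (t + 1) v = F (t + 1) w → nn (t + 1) v = nn (t + 1) w → nn t v = nn t w)
    (T h : ℕ) :
    h * Real.log 2 * P.Pr (fun w => ∃ t ≤ T, qn P F nn t w < (1 / 2 : ℝ) ^ h) ≤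
      P.E (fun w => Real.log (1 / qn P F nn 0 w)) + ∑ t ∈ range T, P.E (entF P F nn t) := by
  classical
  set G : ∀ t, Om → φ t × N := fun t u => (F t u, nn t u) with hG
  have hGf : Filt G := by
    intro t v w h
    have h1 := congrArg Prod.fst h
    have h2 := congrArg Prod.snd h
    exact Prod.ext (hF t v w h1) (hn t v w h1 h2)
  have hq0 : ∀ t w, P.p w ≠ 0 → 0 < qn P F nn t w := fun t w hw => div_pos (P.m_pos _ hw) (P.m_pos _ hw)
  have hq1 : ∀ t w, P.p w ≠ 0 → qn P F nn t w ≤ 1 := by
    intro t w hw
    unfold qn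
    rw [div_le_one (P.m_pos _ hw)]
    exact P.m_anti (fun v w h => congrArg Prod.fst h) w
  have hmge : ∀ t w, P.p w ≠ 0 → P.m (fun u => (F (t + 1) u, nn (t + 1) u)) w ≤ P.m (fun u => (F (t + 1) u, nn t u)) w := by
    intro t w _
    refine P.m_anti (fun v w h => ?_) w
    have h1 := congrArg Prod.fst h
    have h2 := congrArg Prod.snd h
    exact Prod.ext h1 (hn t v w h1 h2)
  have he0 : ∀ t w, P.p w ≠ 0 → 0 ≤ entF P F nn t w := by
    intro t w hw
    unfold entF
    refine Real.log_nonneg ?_
    rw [one_le_div (P.m_pos _ hw)]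
    exact hmge t w hw
  set Z : ℕ → Om → ℝ := fun t w => Real.log (1 / qn P F nn t w) with hZ
  have hZ' : ∀ t w, Z t w = Real.log (P.m (F t) w / P.m (G t) w) := by
    intro t w
    simp only [hZ, hG]
    unfold qn
    rw [one_div_div]
  have hZf : ∀ t, Fac (G t) (Z t) := by
    intro t v w h
    have h1 : F t v = F t w := congrArg Prod.fst h
    rw [hZ', hZ', P.Fac_m (F t) v w h1, P.Fac_m (G t) v w h]
  have key := P.doob_super hGf (Z := Z) (s := fun t => P.ce (G t) (entF P F nn t)) hZf
    (fun t w hw => by
      simp only [hZ]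
      refine Real.log_nonneg ?_
      rw [one_le_div (hq0 t w hw)]
      exact hq1 t w hw)
    (fun t w _ => P.ce_nonneg (he0 t) w)
    (fun t w hw => by
      have e1 : P.ce (G t) (Z (t + 1)) w = P.ce (G t) (fun v =>
          Real.log (P.m (F (t + 1)) v / P.m (fun u => (F (t + 1) u, nn t u)) v) + entF P F nn t v) w := by
        refine P.ce_congr (fun v hv => ?_) w
        rw [hZ']
        unfold entF
        have a := P.m_pos (F (t + 1)) hv
        have b := P.m_pos (fun u => (F (t + 1) u, nn t u)) hv
        have c := P.m_pos (fun u => (F (t + 1) u, nn (t + 1) u)) hv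
        rw [Real.log_div a.ne' b.ne', Real.log_div b.ne' c.ne', Real.log_div a.ne' c.ne']
        ring
      rw [e1, P.ce_add, hZ' t w]
      exact add_le_add (ce_log_le (F t) (F (t + 1)) (nn t) (hF t) hw) le_rfl) T
    (c := h * Real.log 2) (by positivity)
  have e2 : ∀ t, P.E (P.ce (G t) (entF P F nn t)) = P.E (entF P F nn t) := fun t => P.E_ce _ _
  simp only [e2] at key
  refine le_trans (mul_le_mul_of_nonneg_left (P.Pr_mono fun w hw hh => ?_) (by positivity)) key
  obtain ⟨t, ht, hlt⟩ := hh
  refine ⟨t, ht, ?_⟩
  simp only [hZ]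
  rw [one_div, Real.log_inv]
  have h1 := Real.log_lt_log (hq0 t w hw) hlt
  rw [Real.log_pow, one_div, Real.log_inv] at h1
  linarith

end lost

end

end Pool.Agent.GMN
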