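import Pool.Agent.GMN.TjDef

/-!
# GMN/State : the data type of the names (row N, NM.0, NM.5), helper11

`S : Sys ι Om Ξ Pt V Γ κ` = geometry of the vertices `ι`; `a : ι` = hidden vertex, `K = univ.erase a`.

* NUMBERED FUNCTION `NumF S α I` : numbers `α`, a function of `x_I`, zero before its introduction, afterwards static;
  `NumF.mul` : products are numbered functions (numbers = pairs), `NumF.one`, `NumF.map`, `NumF.up`;
* NUMBERS ARE CODES (natural numbers, NOT bounded): the code of an actual birth / publication (time, node, exact values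
  and cells of its population, index), injected into `ℕ`;
* LIST `Lst S I` : cumulative finite sets of codes, functions of `(coins, x_I, node)` (NOT of a cell of another vertex);
* TRACES `tr u l : ℕ → ℕ`, `l ∈ W u` or `l = a` (pure functions of codes) : the part of the code of the owner `u` which
  defines the function without `u` and `l`: `X u l` is indexed by the traces `tr u l`, `h` by `(ζ, (tr u a ν_u)_u)`;
* `bb u : ℕ → ℕ` : BOUNDED NUMBER of a code (with the hash of helper4, `GMN/Hash`), injective on the lists off dead;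
  the coefficients `c` are functions of the lists of bounded numbers only;
* PUBLIC SETS, cumulative, coin free: full codes only on the own face (`PSt S u`, a function of `(x_(V-u), node)`), and only for
  the owners with `pu u` (whole owners which will be in a family; the clients are numbered by their rank of entry in the list);
  BOX SETS of traces `PT u l : BSt S u l`, functions of `x_(V-u-l)` and the CELL of `x_l`.  The set which is visible on the
  face `V - l` = union over the compatible cells of `x_l` (`Sys.cnt`); RANKS in public sets are the bounded numbers of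
  Lemma T_j, of the coins and of the labels of G2B;
* `NSt S a` : STATE OF THE NAMES.  Owner `u ∈ K` = the vertices but `u`: list `Lam u`, either the whole face
  `F u` (`wh u`) or the product of the functions `X u w`, `w ∈ W u`, of `x_(V - u - w)`; `Z` = list of the known
  face, `h` = known functions, `c` = coefficients; `NSt.val` = the form (0.1);
* `NSt.Bd` : the bounds outside `dead` (lists at most `n` elements, public sets at most `B` elements);
  `NSt.Shape` : which functions are present;
* `StepStmt`, `NamesStmt` : ONE STEP, and the final form (`W u = ∅` for all `u`) = Theorem N_m, (L1)-(L3).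
-/

set_option autoImplicit false
set_option linter.unusedSectionVars false

namespace Pool.Agent.GMN

open Finset Pool.Agent.PWZ Pool.Agent.M3 Pool.Agent.M3.TS Pool.Agent.GM

noncomputable section

variable {ι Om Ξ Pt V Γ κ : Type} [Fintype ι] [DecidableEq ι] [Fintype Om] [Fintype Ξ] [Fintype Pt]
  [Fintype V] (S : Sys ι Om Ξ Pt V Γ κ)

/-- numbered functions of the vertices of `I` -/
structure NumF (α : Type) (I : Finset ι) where
  /-- introduced -/
  inn : α → ℕ → Γ → (ι → Pt) → Prop
  f : α → ℕ → Γ → (ι → Pt) → V → ℝ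
  inn_dep : ∀ ν t g, Dep I (inn ν t g)
  f_dep : ∀ ν t g, Dep I (f ν t g)
  le1 : ∀ ν t g x d, |f ν t g x d| ≤ 1
  zero : ∀ ν t g x, ¬ inn ν t g x → f ν t g x = 0
  keep : ∀ ν t g x, inn ν t (S.par t g) x → inn ν (t + 1) g x
  stat : ∀ ν t g x, inn ν t (S.par t g) x → f ν (t + 1) g x = f ν t (S.par t g) x

/-- cumulative lists of codes, functions of the coins, of the vertices of `I` and of the node -/
structure Lst (I : Finset ι) where
  L : ℕ → Γ → Ξ → (ι → Pt) → Finset ℕ
  dep : ∀ t g ξ, Dep I (L t g ξ)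
  mono : ∀ t g ξ x, L t (S.par t g) ξ x ⊆ L (t + 1) g ξ x

/-- PUBLIC SETS of the face without `l`: cumulative, coin free, functions of the vertices but `l` and of the node -/
structure PSt (l : ι) where
  L : ℕ → Γ → (ι → Pt) → Finset ℕ
  dep : ∀ t g, Dep (univ.erase l) (L t g)
  mono : ∀ t g x, L t (S.par t g) x ⊆ L (t + 1) g x

/-- BOX SETS of the traces `tr u l`: cumulative, coin free, functions of the vertices but `u`, `l`, of the cell of `l` and of
the node -/
structure BSt (u l : ι) where
  L : ℕ → Γ → (ι → Pt) → Finset ℕ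
  dep : ∀ t g, DepC S t ((univ.erase u).erase l) {l} (L t g)
  mono : ∀ t g x, L t (S.par t g) x ⊆ L (t + 1) g x

variable {S}

namespace NumF

variable {α β : Type} {I J : Finset ι}

/-- the value at a sample point -/
def at' (A : NumF S α I) (ν : α) (t : ℕ) (w : Om) : V → ℝ := A.f ν t (S.gm t w) (S.x w)

/-- introduced at a sample point -/
def on (A : NumF S α I) (ν : α) (t : ℕ) (w : Om) : Prop := A.inn ν t (S.gm t w) (S.x w)

theorem on_succ (A : NumF S α I) {ν : α} {t : ℕ} {w : Om} (h : A.on ν t w) : A.on ν (t + 1) w := by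
  unfold on at h ⊢
  rw [← S.par_gm t w] at h
  exact A.keep ν t _ _ h

theorem on_le (A : NumF S α I) {ν : α} {t s : ℕ} (hts : t ≤ s) {w : Om} (h : A.on ν t w) : A.on ν s w := by
  induction hts with
  | refl => exact h
  | step _ ih => exact A.on_succ ih

theorem at_succ (A : NumF S α I) {ν : α} {t : ℕ} {w : Om} (h : A.on ν t w) : A.at' ν (t + 1) w = A.at' ν t w := by
  unfold on at h
  unfold at'
  have h1 := A.stat ν t (S.gm (t + 1) w) (S.x w) (by rw [S.par_gm]; exact h)
  rw [h1, S.par_gm]

/-- static after the introduction -/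
theorem at_le (A : NumF S α I) {ν : α} {t s : ℕ} (hts : t ≤ s) {w : Om} (h : A.on ν t w) :
    A.at' ν s w = A.at' ν t w := by
  induction hts with
  | refl => rfl
  | step h1 ih => rw [A.at_succ (A.on_le h1 h), ih]

theorem at_zero (A : NumF S α I) {ν : α} {t : ℕ} {w : Om} (h : ¬ A.on ν t w) : A.at' ν t w = 0 :=
  A.zero ν t _ _ h

theorem abs_at (A : NumF S α I) (ν : α) (t : ℕ) (w : Om) (d : V) : |A.at' ν t w d| ≤ 1 := A.le1 _ _ _ _ _

/-- the same numbered functions on a larger set of vertices -/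
def up (A : NumF S α I) (h : I ⊆ J) : NumF S α J where
  inn := A.inn
  f := A.f
  inn_dep ν t g := (A.inn_dep ν t g).mono h
  f_dep ν t g := (A.f_dep ν t g).mono h
  le1 := A.le1
  zero := A.zero
  keep := A.keep
  stat := A.stat

/-- renumbering -/
def map (A : NumF S α I) (φ : β → α) : NumF S β I where
  inn ν := A.inn (φ ν)
  f ν := A.f (φ ν)
  inn_dep ν := A.inn_dep (φ ν)
  f_dep ν := A.f_dep (φ ν)
  le1 ν := A.le1 (φ ν)
  zero ν := A.zero (φ ν)
  keep ν := A.keep (φ ν)
  stat ν := A.stat (φ ν)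

/-- the function one -/
def one (S : Sys ι Om Ξ Pt V Γ κ) (α : Type) (I : Finset ι) : NumF S α I where
  inn _ _ _ _ := True
  f _ _ _ _ _ := 1
  inn_dep _ _ _ := fun _ _ _ => rfl
  f_dep _ _ _ := fun _ _ _ => rfl
  le1 _ _ _ _ _ := by simp
  zero _ _ _ _ h := absurd trivial h
  keep _ _ _ _ _ := trivial
  stat _ _ _ _ _ := rfl

/-- products are numbered functions -/
def mul (A : NumF S α I) (B : NumF S β I) : NumF S (α × β) I where
  inn ν t g x := A.inn ν.1 t g x ∧ B.inn ν.2 t g x
  f ν t g x d := A.f ν.1 t g x d * B.f ν.2 t g x d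
  inn_dep ν t g := (A.inn_dep ν.1 t g).and (B.inn_dep ν.2 t g)
  f_dep ν t g := fun x y h => by
    funext d
    show A.f ν.1 t g x d * B.f ν.2 t g x d = A.f ν.1 t g y d * B.f ν.2 t g y d
    rw [A.f_dep ν.1 t g x y h, B.f_dep ν.2 t g x y h]
  le1 ν t g x d := by
    rw [abs_mul]
    exact mul_le_one₀ (A.le1 _ _ _ _ _) (abs_nonneg _) (B.le1 _ _ _ _ _)
  zero ν t g x h := by
    funext d
    show A.f ν.1 t g x d * B.f ν.2 t g x d = 0
    rcases not_and_or.1 h with h1 | h1
    · rw [A.zero _ _ _ _ h1]; simp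
    · rw [B.zero _ _ _ _ h1]; simp
  keep ν t g x h := ⟨A.keep _ _ _ _ h.1, B.keep _ _ _ _ h.2⟩
  stat ν t g x h := by
    funext d
    show A.f ν.1 (t + 1) g x d * B.f ν.2 (t + 1) g x d = _
    rw [A.stat _ _ _ _ h.1, B.stat _ _ _ _ h.2]

/-- the product of a family (one number for each member) -/
def prod {σ : Type} [DecidableEq σ] (s : Finset σ) (A : σ → NumF S α I) : NumF S (σ → α) I where
  inn ν t g x := ∀ i ∈ s, (A i).inn (ν i) t g x
  f ν t g x d := ∏ i ∈ s, (A i).f (ν i) t g x d
  inn_dep ν t g := fun x y h => by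
    refine forall_congr fun i => forall_congr fun _ => ?_
    exact (A i).inn_dep (ν i) t g x y h
  f_dep ν t g := fun x y h => by
    funext d
    exact Finset.prod_congr rfl fun i _ => by rw [(A i).f_dep (ν i) t g x y h]
  le1 ν t g x d := by
    rw [Finset.abs_prod]
    exact Finset.prod_le_one (fun i _ => abs_nonneg _) fun i _ => (A i).le1 _ _ _ _ _
  zero ν t g x h := by
    funext d
    push Not at h
    obtain ⟨i, hi, h1⟩ := h
    exact Finset.prod_eq_zero hi (by rw [(A i).zero _ _ _ _ h1]; rfl)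
  keep ν t g x h := fun i hi => (A i).keep _ _ _ _ (h i hi)
  stat ν t g x h := by
    funext d
    exact Finset.prod_congr rfl fun i hi => by rw [(A i).stat _ _ _ _ (h i hi)]

end NumF

namespace Lst

variable {I : Finset ι}

/-- the list of a sample point -/
def at' (A : Lst S I) (t : ℕ) (w : Om) : Finset ℕ := A.L t (S.gm t w) (S.xi w) (S.x w)

theorem at_succ (A : Lst S I) (t : ℕ) (w : Om) : A.at' t w ⊆ A.at' (t + 1) w := by
  unfold at'
  have h := A.mono t (S.gm (t + 1) w) (S.xi w) (S.x w)
  rwa [S.par_gm] at h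

theorem at_le (A : Lst S I) {t s : ℕ} (h : t ≤ s) (w : Om) : A.at' t w ⊆ A.at' s w := by
  induction h with
  | refl => exact subset_rfl
  | step _ ih => exact ih.trans (A.at_succ _ w)

end Lst

namespace PSt

variable {l : ι}

/-- the public set of a sample point -/
def at' (A : PSt S l) (t : ℕ) (w : Om) : Finset ℕ := A.L t (S.gm t w) (S.x w)

theorem at_succ (A : PSt S l) (t : ℕ) (w : Om) : A.at' t w ⊆ A.at' (t + 1) w := by
  unfold at'
  have h := A.mono t (S.gm (t + 1) w) (S.x w)
  rwa [S.par_gm] at h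

theorem at_le (A : PSt S l) {t s : ℕ} (h : t ≤ s) (w : Om) : A.at' t w ⊆ A.at' s w := by
  induction h with
  | refl => exact subset_rfl
  | step _ ih => exact ih.trans (A.at_succ _ w)

end PSt

namespace BSt

variable {u l : ι}

/-- the box set of a sample point -/
def at' (A : BSt S u l) (t : ℕ) (w : Om) : Finset ℕ := A.L t (S.gm t w) (S.x w)

theorem at_succ (A : BSt S u l) (t : ℕ) (w : Om) : A.at' t w ⊆ A.at' (t + 1) w := by
  unfold at'
  have h := A.mono t (S.gm (t + 1) w) (S.x w)
  rwa [S.par_gm] at h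

theorem at_le (A : BSt S u l) {t s : ℕ} (h : t ≤ s) (w : Om) : A.at' t w ⊆ A.at' s w := by
  induction h with
  | refl => exact subset_rfl
  | step _ ih => exact ih.trans (A.at_succ _ w)

end BSt

variable (S)

/-- THE STATE OF THE NAMES, hidden vertex `a` -/
structure NSt (a : ι) where
  /-- list of the known face -/
  Z : Lst S (univ.erase a)
  /-- lists of the owners -/
  Lam : ∀ u : ι, Lst S (univ.erase u)
  /-- public set of the known face, on the known face -/
  PZ : PSt S a
  /-- public sets of the owners `u`, on their own face (only where `pu u`) -/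
  PS : ∀ u : ι, PSt S u
  /-- the own public set is present: needed for whole owners in a family, not for the clients -/
  pu : ι → Prop
  /-- traces -/
  tr : ι → ι → ℕ → ℕ
  /-- box sets of the traces -/
  PT : ∀ u l : ι, BSt S u l
  /-- bounded numbers -/
  bb : ι → ℕ → ℕ
  /-- the face of the owner `u` is whole -/
  wh : ι → Prop
  /-- otherwise: the functions `X u w`, `w ∈ W u` -/
  W : ι → Finset ι
  /-- known functions, numbers = `(ζ, (tr u a (ν u))_u)` -/
  h : NumF S (ℕ × (ι → ℕ)) (univ.erase a)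
  /-- numbers = traces `tr u w` -/
  X : ∀ u w : ι, NumF S ℕ ((univ.erase u).erase w)
  /-- numbers = codes -/
  F : ∀ u : ι, NumF S ℕ (univ.erase u)
  /-- functions of the lists of bounded numbers -/
  c : Finset ℕ → (ι → Finset ℕ) → ℕ → (ι → ℕ) → ℝ

namespace NSt

variable {S} {a : ι} (σ : NSt S a)

/-- the lists of the owners at a sample point -/
def lists (t : ℕ) (w : Om) (u : ι) : Finset ℕ := (σ.Lam u).at' t w

/-- the families of numbers (`0` at the hidden vertex) -/
def fams (t : ℕ) (w : Om) : Finset (ι → ℕ) := Fintype.piFinset fun u => if u = a then {0} else σ.lists t w u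

open Classical in
/-- the factor of the owner `u` -/
def fac (u : ι) (ν : ℕ) (t : ℕ) (w : Om) (d : V) : ℝ :=
  if σ.wh u then (σ.F u).at' ν t w d else ∏ v ∈ σ.W u, (σ.X u v).at' (σ.tr u v ν) t w d

/-- the lists of bounded numbers at a sample point -/
def bls (t : ℕ) (w : Om) (u : ι) : Finset ℕ := (σ.lists t w u).image (σ.bb u)

/-- the coefficient at a sample point: a function of the bounded numbers -/
def cf (t : ℕ) (w : Om) (ζ : ℕ) (ν : ι → ℕ) : ℝ := σ.c (σ.Z.at' t w) (σ.bls t w) ζ (fun u => σ.bb u (ν u))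

/-- the number of the known function of the term `(ζ, ν)` -/
def hn (ζ : ℕ) (ν : ι → ℕ) : ℕ × (ι → ℕ) := (ζ, fun u => σ.tr u a (ν u))

/-- THE FORM (0.1) as a function on the window -/
def val (t : ℕ) (w : Om) (d : V) : ℝ :=
  ∑ ζ ∈ σ.Z.at' t w, ∑ ν ∈ σ.fams t w,
    σ.cf t w ζ ν * σ.h.at' (σ.hn ζ ν) t w d * ∏ u ∈ univ.erase a, σ.fac u (ν u) t w d

/-- the value of the form -/
def T (t : ℕ) (w : Om) : ℝ := iw (S.J t w) (σ.val t w) (fun _ => 1)

/-- bounds outside `dead`: lists with at most `n` elements, contained in public sets with at most `B` elements, bounded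
numbers at most `B` and injective on the lists, sum of the coefficients at most `A` -/
structure Bd (n B : ℕ) (A : ℝ) (dead : ℕ → Om → Prop) : Prop where
  inc : ∀ t w, dead t w → dead (t + 1) w
  cardZ : ∀ t ≤ S.n, ∀ w, ¬ dead t w → (σ.Z.at' t w).card ≤ n
  subZ : ∀ t ≤ S.n, ∀ w, ¬ dead t w → σ.Z.at' t w ⊆ σ.PZ.at' t w
  numZ : ∀ t ≤ S.n, ∀ w, ¬ dead t w → (σ.PZ.at' t w).card ≤ B
  card : ∀ t ≤ S.n, ∀ w, ¬ dead t w → ∀ u, u ≠ a → (σ.lists t w u).card ≤ n
  sub : ∀ t ≤ S.n, ∀ w, ¬ dead t w → ∀ u, u ≠ a → σ.pu u → σ.lists t w u ⊆ (σ.PS u).at' t w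
  num : ∀ t ≤ S.n, ∀ w, ¬ dead t w → ∀ u, u ≠ a → σ.pu u → ((σ.PS u).at' t w).card ≤ B
  subT : ∀ t ≤ S.n, ∀ w, ¬ dead t w → ∀ u, u ≠ a → ∀ l, l = a ∨ l ∈ σ.W u →
    ∀ ν ∈ σ.lists t w u, σ.tr u l ν ∈ (σ.PT u l).at' t w
  numT : ∀ t ≤ S.n, ∀ w, ¬ dead t w → ∀ u, u ≠ a → ∀ l, l = a ∨ l ∈ σ.W u → ((σ.PT u l).at' t w).card ≤ B
  numb : ∀ t ≤ S.n, ∀ w, ¬ dead t w → ∀ u, u ≠ a → ∀ ν ∈ σ.lists t w u, σ.bb u ν ≤ B
  inj : ∀ t ≤ S.n, ∀ w, ¬ dead t w → ∀ u, u ≠ a → Set.InjOn (σ.bb u) (σ.lists t w u)
  sum : ∀ t ≤ S.n, ∀ w, ¬ dead t w → ∑ ζ ∈ σ.Z.at' t w, ∑ ν ∈ σ.fams t w, |σ.cf t w ζ ν| ≤ A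

/-- which functions are present: `WS u = none` whole, `WS u = some W` -/
def Shape (WS : ι → Option (Finset ι)) : Prop :=
  ∀ u, u ≠ a → (σ.wh u ↔ WS u = none) ∧ ∀ W, WS u = some W → σ.W u = W

/-- all faces are finished: only known functions are left -/
def Done : Prop := σ.Shape (a := a) fun _ => some ∅

theorem Done.val_eq {σ : NSt S a} (h : σ.Done) (t : ℕ) (w : Om) (d : V) :
    σ.val t w d = ∑ ζ ∈ σ.Z.at' t w, ∑ ν ∈ σ.fams t w, σ.cf t w ζ ν * σ.h.at' (σ.hn ζ ν) t w d := by
  unfold val
  refine Finset.sum_congr rfl fun ζ _ => Finset.sum_congr rfl fun ν _ => ?_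
  rw [Finset.prod_eq_one, mul_one]
  intro u hu
  have h1 := h u (ne_of_mem_erase hu)
  unfold fac
  rw [if_neg, h1.2 ∅ rfl, Finset.prod_empty]
  intro h2
  have := h1.1.1 h2
  exact absurd this (by simp)

end NSt

/-- from one state to the next one: the forms differ by at most `q` outside `dead'` -/
def Close {a : ι} (σ σ' : NSt S a) (q : ℝ) (dead' : ℕ → Om → Prop) : Prop :=
  ∀ t ≤ S.n, ∀ w, ¬ dead' t w → |σ.T t w - σ'.T t w| ≤ q

end

end Pool.Agent.GMN
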