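import Pool.Agent.GMN.RuleDef
import Pool.Agent.GMN.ExtBin

/-!
# GMN/AssemBin (helper52): the assembly with explicit constants and ONE new set of coins

* `StepAt a e G C` : one step with the constant `C` (uniform in the vertices);
* `AfterAt a e G j W C`, `NamesAt a e G C` : after `j` steps, resp. the end, on `addCoins S Ξ2`;
* **`namesAt`** : `StepAt a e G C → NamesAt a e G ((C + 1) ^ 2 ^ k)`.
-/

set_option autoImplicit false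
set_option linter.unusedSectionVars false

namespace Pool.Agent.GMN

open Finset Pool.Agent.PWZ Pool.Agent.M3 Pool.Agent.M3.TS Pool.Agent.GM Pool.GMN.Counter

noncomputable section

/-! ### coins which are not seen -/

section free

variable {ι Om Ξ Pt V Γ κ : Type} [Fintype ι] [DecidableEq ι] [Fintype Om] [Fintype Ξ] [Fintype Pt]
  [Fintype V] {S : Sys ι Om Ξ Pt V Γ κ}

theorem Lst.Free.ext {Om' Ξ' : Type} [Fintype Om'] [Fintype Ξ'] {S' : Sys ι Om' Ξ' Pt V Γ κ} (ex : CExt S S')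
    {I : Finset ι} {A : Lst S I} {α α' : Type} {pz : Ξ → α} {pz' : Ξ' → α'}
    (h : ∀ ξ ξ', pz' ξ = pz' ξ' → pz (ex.pc ξ) = pz (ex.pc ξ')) (hA : A.Free pz) : (ex.lst A).Free pz' :=
  fun t g ξ ξ' x hx => hA t g _ _ x (h ξ ξ' hx)

end free

variable {ι : Type} [Fintype ι] [DecidableEq ι] {k : ℕ} (a : ι) (e : Fin k ↪ ι) (G : SysCls ι)

/-- **ONE STEP** with the constant `C` -/
def StepAt (C : ℕ) : Prop :=
  ∀ (Om Ξ Pt V Γ κ : Type) [Fintype Om] [Fintype Ξ] [Fintype Pt] [Fintype V]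
    (S : Sys ι Om Ξ Pt V Γ κ) (X Y q : ℝ), 2 ≤ X → X ≤ Y → Y ≤ Real.exp X → 1 / X ≤ q → q ≤ 1 → G.G S X Y C →
    ∀ (pz : Ξ → ℕ) (δ : ι) (σ : NSt S a) (n B : ℕ) (A : ℝ) (dead : ℕ → Om → Prop), σ.Bd n B A dead → σ.On dead →
      Szs X Y n B A → (∀ u, u ≠ a → u ≠ δ → (σ.Lam u).Free pz) →
    ∀ (W : Fin k → Option (Finset (Fin k))) (v : Fin k) (Lc : Finset (Fin k)) (tg : Option (Fin k)),
      StepOK W v Lc tg → σ.Shape (shp e W) → (∀ i : Fin k, 2 ≤ (i : ℕ) → σ.wh (e i) → σ.pu (e i)) →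
    ∃ (Ξ2 : Type) (_ : Fintype Ξ2) (_ : Nonempty Ξ2) (σ' : NSt (addCoins S Ξ2) a) (n' B' : ℕ) (A' : ℝ)
      (dead' : ℕ → (Om × Ξ2) → Prop),
      σ'.Bd n' B' A' dead' ∧ σ'.On dead' ∧ Szs (X ^ C) (Y ^ C) n' B' A' ∧
      (∀ u, u ≠ a → u ≠ δ → (σ'.Lam u).Free (pzAdd pz Ξ2)) ∧
      σ'.Shape (shp e (Function.update W v (some Lc))) ∧ (∀ i : Fin k, 2 ≤ (i : ℕ) → σ'.wh (e i) → σ'.pu (e i)) ∧
      (∀ t w, dead t w.1 → dead' t w) ∧ σ'.Z = (CExt.add S Ξ2).lst σ.Z ∧ σ'.Lam a = (CExt.add S Ξ2).lst (σ.Lam a) ∧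
      (∀ t, 1 ≤ t → t ≤ S.n → ∀ w, ¬ dead' t w → |σ.T t w.1 - σ'.T t w| ≤ q) ∧
      (coinFP S.P Ξ2).Pr (dead' S.n) ≤ S.P.Pr (dead S.n) + q

/-- after `j` steps the shape is `W`; constant `C` -/
def AfterAt (j : ℕ) (W : Fin k → Option (Finset (Fin k))) (C : ℕ) : Prop :=
  ∀ (Om Ξ Pt V Γ κ : Type) [Fintype Om] [Fintype Ξ] [Fintype Pt] [Fintype V]
    (S : Sys ι Om Ξ Pt V Γ κ) (X Y q : ℝ), 2 ≤ X → X ≤ Y → Y ≤ Real.exp X → 1 / X ≤ q → q ≤ 1 → G.G S X Y C →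
    ∀ (pz : Ξ → ℕ) (δ : ι) (σ : NSt S a) (n B : ℕ) (A : ℝ) (dead : ℕ → Om → Prop), σ.Bd n B A dead → σ.On dead →
      Szs X Y n B A → (∀ u, u ≠ a → u ≠ δ → (σ.Lam u).Free pz) →
      σ.Shape (shp e (start k)) → (∀ i : Fin k, 2 ≤ (i : ℕ) → σ.wh (e i) → σ.pu (e i)) →
    ∃ (Ξ2 : Type) (_ : Fintype Ξ2) (_ : Nonempty Ξ2) (σ' : NSt (addCoins S Ξ2) a) (n' B' : ℕ) (A' : ℝ)
      (dead' : ℕ → (Om × Ξ2) → Prop),
      σ'.Bd n' B' A' dead' ∧ σ'.On dead' ∧ Szs (X ^ C) (Y ^ C) n' B' A' ∧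
      (∀ u, u ≠ a → u ≠ δ → (σ'.Lam u).Free (pzAdd pz Ξ2)) ∧
      σ'.Shape (shp e W) ∧ (∀ i : Fin k, 2 ≤ (i : ℕ) → σ'.wh (e i) → σ'.pu (e i)) ∧
      (∀ t w, dead t w.1 → dead' t w) ∧ (∀ t g ξ x, σ'.Z.L t g ξ x = σ.Z.L t g ξ.1 x) ∧
      (∀ t g ξ x, (σ'.Lam a).L t g ξ x = (σ.Lam a).L t g ξ.1 x) ∧
      (∀ t, 1 ≤ t → t ≤ S.n → ∀ w, ¬ dead' t w → |σ.T t w.1 - σ'.T t w| ≤ j * q) ∧
      (coinFP S.P Ξ2).Pr (dead' S.n) ≤ S.P.Pr (dead S.n) + j * q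

theorem afterAt_zero : AfterAt a e G 0 (start k) 1 := by
  intro Om Ξ Pt V Γ κ _ _ _ _ S X Y q _ _ _ _ _ _ pz δ σ n B A dead hB hOn hS hfr hsh hpu
  refine ⟨Unit, inferInstance, inferInstance, (CExt.add S Unit).st σ, n, B, A, fun t w => dead t w.1,
    (CExt.add S Unit).st_Bd hB, (CExt.add S Unit).st_On hOn, ?_, ?_, hsh, hpu, fun t w h => h, fun _ _ _ _ => rfl,
    fun _ _ _ _ => rfl, ?_, ?_⟩
  · rw [pow_one, pow_one]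
    exact hS
  · intro u hu hud
    exact Lst.Free.ext (CExt.add S Unit) (fun ξ ξ' h => (pzAdd_eq.1 h).1) (hfr u hu hud)
  · intro t _ _ w _
    rw [(CExt.add S Unit).st_T]
    show |σ.T t w.1 - σ.T t w.1| ≤ _
    rw [sub_self, abs_zero]
    simp
  · have h1 := coinFP_Pr_fst S.P Unit (dead S.n)
    rw [h1]
    simp

theorem afterAt_succ {C2 : ℕ} (hst : StepAt a e G C2) {j : ℕ} {W : Fin k → Option (Finset (Fin k))} {v : Fin k}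
    {Lc : Finset (Fin k)} {tg : Option (Fin k)} (hok : StepOK W v Lc tg) {C1 : ℕ} (hC1 : 1 ≤ C1)
    (h : AfterAt a e G j W C1) : AfterAt a e G (j + 1) (Function.update W v (some Lc)) (C1 * (C2 + 1)) := by
  intro Om Ξ Pt V Γ κ _ _ _ _ S X Y q hX hXY hYX hq hq1 hG pz δ σ n B A dead hB hOn hS hfr hsh hpu
  have hX1 : 1 ≤ X := by linarith
  have hY1 : 1 ≤ Y := by linarith
  have hle : C1 ≤ C1 * (C2 + 1) := Nat.le_mul_of_pos_right _ (Nat.succ_pos _)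
  obtain ⟨Ξ1, _, _, σ', n', B', A', dead', g2, gon, g3, gfr, g4, gp, g5, gz, gl, g6, g7⟩ :=
    h Om Ξ Pt V Γ κ S X Y q hX hXY hYX hq hq1 (G.mono S X Y _ _ hX hle hG) pz δ σ n B A dead hB hOn hS hfr hsh hpu
  have hXX : X ≤ X ^ C1 := by
    calc X = X ^ 1 := (pow_one X).symm
      _ ≤ X ^ C1 := pow_le_pow_right₀ hX1 hC1
  have hG' : G.G (addCoins S Ξ1) (X ^ C1) (Y ^ C1) C2 := by
    refine G.pow (addCoins S Ξ1) X Y C1 C2 hX hXY hC1 (G.add S X Y _ Ξ1 (G.mono S X Y _ _ hX ?_ hG))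
    exact Nat.mul_le_mul_left _ (Nat.le_succ _)
  have hq' : 1 / X ^ C1 ≤ q := (one_div_le_one_div_of_le (by linarith) hXX).trans hq
  obtain ⟨Ξ2, i1, i2, σ2, n2, B2, A2, dead2, k1, kon, k2, kfr, k3, kp, k4, kz, kl, k5, k6⟩ :=
    hst (Om × Ξ1) (Ξ × Ξ1) Pt V Γ κ (addCoins S Ξ1) (X ^ C1) (Y ^ C1) q (hX.trans hXX)
      (pow_le_pow_left₀ (by linarith) hXY _) (pow_le_exp_pow hX (by linarith) hYX hC1) hq' hq1 hG' (pzAdd pz Ξ1) δ σ' n'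
      B' A' dead' g2 gon g3 gfr W v Lc tg hok g4 gp
  set ex := CExt.assoc S Ξ1 Ξ2 with hex
  have hxle : C1 * C2 ≤ C1 * (C2 + 1) := Nat.mul_le_mul_left _ (Nat.le_succ _)
  refine ⟨Ξ1 × Ξ2, inferInstance, inferInstance, ex.st σ2, n2, B2, A2, fun t w => dead2 t (ex.pi w), ex.st_Bd k1,
    ex.st_On kon, ?_, ?_, k3, kp, ?_, ?_, ?_, ?_, ?_⟩
  · rw [← pow_mul, ← pow_mul] at k2
    exact k2.mono (pow_le_pow_right₀ hX1 hxle) (pow_le_pow_right₀ hY1 hxle)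
  · intro u hu hud
    refine Lst.Free.ext ex (fun ξ ξ' hx => ?_) (kfr u hu hud)
    obtain ⟨h1, h2⟩ := pzAdd_eq.1 hx
    refine pzAdd_eq.2 ⟨pzAdd_eq.2 ⟨h1, ?_⟩, ?_⟩
    · show ξ.2.1 = ξ'.2.1
      rw [h2]
    · show ξ.2.2 = ξ'.2.2
      rw [h2]
  · intro t w hw
    exact k4 t _ (g5 t _ hw)
  · intro t g ξ x
    show σ2.Z.L t g ((ξ.1, ξ.2.1), ξ.2.2) x = σ.Z.L t g ξ.1 x
    rw [kz]
    exact gz t g (ξ.1, ξ.2.1) x
  · intro t g ξ x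
    show (σ2.Lam a).L t g ((ξ.1, ξ.2.1), ξ.2.2) x = (σ.Lam a).L t g ξ.1 x
    rw [kl]
    exact gl t g (ξ.1, ξ.2.1) x
  · intro t ht1 ht w hw
    have e1 := g6 t ht1 ht (w.1, w.2.1) (fun hd => hw (k4 t (ex.pi w) hd))
    have e2 := k5 t ht1 ht (ex.pi w) hw
    rw [ex.st_T]
    have e3 : σ.T t w.1 - σ2.T t (ex.pi w) =
        (σ.T t w.1 - σ'.T t (w.1, w.2.1)) + (σ'.T t (w.1, w.2.1) - σ2.T t (ex.pi w)) := by ring
    rw [e3]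
    refine (abs_add_le _ _).trans ?_
    have e4 : |σ'.T t (w.1, w.2.1) - σ2.T t (ex.pi w)| ≤ q := e2
    push_cast
    linarith
  · have e4 : (coinFP S.P (Ξ1 × Ξ2)).Pr (fun w => dead2 S.n (ex.pi w)) = (coinFP (coinFP S.P Ξ1) Ξ2).Pr (dead2 S.n) :=
      ex.Pr (dead2 S.n)
    have e5 : (coinFP (coinFP S.P Ξ1) Ξ2).Pr (dead2 S.n) ≤ (coinFP S.P Ξ1).Pr (dead' S.n) + q := k6
    rw [e4]
    push_cast
    linarith

/-- **THEOREM N_m** in state form with the constant `C`: all functions of the hidden vertex are gone -/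
def NamesAt (C : ℕ) : Prop :=
  ∀ (Om Ξ Pt V Γ κ : Type) [Fintype Om] [Fintype Ξ] [Fintype Pt] [Fintype V]
    (S : Sys ι Om Ξ Pt V Γ κ) (X Y q : ℝ), 2 ≤ X → X ≤ Y → Y ≤ Real.exp X → 1 / X ≤ q → q ≤ 1 → G.G S X Y C →
    ∀ (pz : Ξ → ℕ) (δ : ι) (σ : NSt S a) (n B : ℕ) (A : ℝ) (dead : ℕ → Om → Prop), σ.Bd n B A dead → σ.On dead →
      Szs X Y n B A → (∀ u, u ≠ a → u ≠ δ → (σ.Lam u).Free pz) →
      σ.Shape (shp e (start k)) → (∀ i : Fin k, 2 ≤ (i : ℕ) → σ.wh (e i) → σ.pu (e i)) →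
    ∃ (Ξ2 : Type) (_ : Fintype Ξ2) (_ : Nonempty Ξ2) (σ' : NSt (addCoins S Ξ2) a) (n' B' : ℕ) (A' : ℝ)
      (dead' : ℕ → (Om × Ξ2) → Prop),
      σ'.Bd n' B' A' dead' ∧ σ'.On dead' ∧ Szs (X ^ C) (Y ^ C) n' B' A' ∧
      (∀ u, u ≠ a → u ≠ δ → (σ'.Lam u).Free (pzAdd pz Ξ2)) ∧ σ'.Done ∧
      (∀ t w, dead t w.1 → dead' t w) ∧ (∀ t g ξ x, σ'.Z.L t g ξ x = σ.Z.L t g ξ.1 x) ∧
      (∀ t g ξ x, (σ'.Lam a).L t g ξ x = (σ.Lam a).L t g ξ.1 x) ∧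
      (∀ t, 1 ≤ t → t ≤ S.n → ∀ w, ¬ dead' t w → |σ.T t w.1 - σ'.T t w| ≤ 2 ^ k * q) ∧
      (coinFP S.P Ξ2).Pr (dead' S.n) ≤ S.P.Pr (dead S.n) + 2 ^ k * q

/-- **ASSEMBLY** -/
theorem namesAt (hk : 1 ≤ k) {C : ℕ} (hst : StepAt a e G C) : NamesAt a e G ((C + 1) ^ 2 ^ k) := by
  have h := counter_induction hk (fun j W => AfterAt a e G j W ((C + 1) ^ j))
    (by
      show AfterAt a e G 0 (start k) ((C + 1) ^ 0)
      rw [pow_zero]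
      exact afterAt_zero a e G)
    (fun j W v Lc tg _ hok h => by
      show AfterAt a e G (j + 1) (Function.update W v (some Lc)) ((C + 1) ^ (j + 1))
      rw [pow_succ]
      exact afterAt_succ a e G hst hok (Nat.one_le_pow _ _ (Nat.succ_pos _)) h)
  intro Om Ξ Pt V Γ κ _ _ _ _ S X Y q hX hXY hYX hq hq1 hG pz δ σ n B A dead hB hOn hS hfr hsh hpu
  have hle : (C + 1) ^ (2 ^ k - 2) ≤ (C + 1) ^ 2 ^ k := Nat.pow_le_pow_right (Nat.succ_pos _) (Nat.sub_le _ _)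
  obtain ⟨Ξ2, i1, i2, σ', n', B', A', dead', g2, gon, g3, gfr, g4, gp, g5, gz, gl, g6, g7⟩ :=
    h Om Ξ Pt V Γ κ S X Y q hX hXY hYX hq hq1 (G.mono S X Y _ _ hX hle hG) pz δ σ n B A dead hB hOn hS hfr hsh hpu
  have hq0 : 0 ≤ q := le_trans (div_nonneg zero_le_one (by linarith)) hq
  have hj : ((2 ^ k - 2 : ℕ) : ℝ) * q ≤ 2 ^ k * q := by
    refine mul_le_mul_of_nonneg_right ?_ hq0
    calc ((2 ^ k - 2 : ℕ) : ℝ) ≤ ((2 ^ k : ℕ) : ℝ) := by exact_mod_cast Nat.sub_le _ _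
      _ = 2 ^ k := by push_cast; rfl
  refine ⟨Ξ2, i1, i2, σ', n', B', A', dead', g2, gon, g3.mono (pow_le_pow_right₀ (by linarith) hle)
    (pow_le_pow_right₀ (by linarith) hle), gfr, ?_, g5, gz, gl, ?_, ?_⟩
  · rw [shp_empty] at g4
    exact g4
  · intro t ht1 ht w hw
    exact (g6 t ht1 ht w hw).trans hj
  · linarith

end

end Pool.Agent.GMN
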