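import Pool.Agent.GMN.InpN

/-!
# GMN/NamNum (helper19): the numbers of row A11e

`H ≥ 2`, `j` vertices, `C` = constant of the names, `c1 = c0 + C + 2`, `c2 = c1 + j + 10`, `c = c2 + C + 2`,
`X = exp (H ^ c2)`, `Y = exp (H ^ (c + 2))`, `q = 1 / X`, `D = c + 2 C + 8`.
* `XY` : `2 ≤ X ≤ Y ≤ exp X`; `near_X` : `exp (- H ^ c) ≤ 1 / X ^ C`; `q_small`, `err_small`;
* **`nam_num`** : the number `M0` of the output of the names.
-/

set_option autoImplicit false
set_option linter.unusedSectionVars false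

namespace Pool.Agent.GMN

open Finset Pool.Agent.PWZ Pool.Agent.M3 Pool.Agent.M3.TS Pool.Agent.GM

noncomputable section

namespace NamNum

/-- exponent of the accuracy of the start -/
def n1 (c0 C : ℕ) : ℕ := c0 + C + 2

/-- exponent of `X` -/
def n2 (c0 C j : ℕ) : ℕ := n1 c0 C + j + 10

/-- fineness -/
def nc (c0 C j : ℕ) : ℕ := n2 c0 C j + C + 2

/-- exponent of the sizes -/
def nD (c0 C j : ℕ) : ℕ := nc c0 C j + 2 * C + 8

/-- the accuracy parameter -/
def NX (H : ℝ) (c0 C j : ℕ) : ℝ := Real.exp (H ^ n2 c0 C j)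

/-- the size parameter -/
def NY (H : ℝ) (c0 C j : ℕ) : ℝ := Real.exp (H ^ (nc c0 C j + 2))

variable {H : ℝ} {c0 C j : ℕ}

theorem lt_two_pow' (n : ℕ) : n < 2 ^ n := Nat.lt_two_pow_self

theorem one_le_H (hH : 2 ≤ H) (n : ℕ) : 1 ≤ H ^ n := one_le_pow₀ (by linarith)

/-- `n + 1 ≤ H ^ n` -/
theorem nat_le_H (hH : 2 ≤ H) (n : ℕ) : (n : ℝ) + 1 ≤ H ^ n := by
  have h1 : ((n : ℝ) + 1) ≤ 2 ^ n := by exact_mod_cast Nat.succ_le_of_lt (lt_two_pow' n)
  exact h1.trans (pow_le_pow_left₀ (by norm_num) hH n)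

/-- `m H ^ n ≤ H ^ (n + m)` -/
theorem mul_le_H (hH : 2 ≤ H) (m n : ℕ) : (m : ℝ) * H ^ n ≤ H ^ (n + m) := by
  rw [pow_add, mul_comm]
  have h1 := nat_le_H hH m
  exact mul_le_mul_of_nonneg_left (by linarith) (by positivity)

theorem pow_mono_H (hH : 2 ≤ H) {m n : ℕ} (h : m ≤ n) : H ^ m ≤ H ^ n := pow_le_pow_right₀ (by linarith) h

theorem X_ge_two (hH : 2 ≤ H) : 2 ≤ NX H c0 C j := by
  unfold NX
  have h1 := Real.add_one_le_exp (H ^ n2 c0 C j)
  have h2 := one_le_H hH (n2 c0 C j)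
  linarith

theorem X_le_Y (hH : 2 ≤ H) : NX H c0 C j ≤ NY H c0 C j := by
  refine Real.exp_le_exp.2 (pow_mono_H hH ?_)
  unfold nc
  omega

/-- `H ^ (c + 2) ≤ exp (H ^ c2)` -/
theorem Y_le_exp (hH : 2 ≤ H) : NY H c0 C j ≤ Real.exp (NX H c0 C j) := by
  refine Real.exp_le_exp.2 ?_
  unfold NX
  set m := n2 c0 C j with hm
  have h1 : nc c0 C j + 2 ≤ 2 * m := by
    unfold nc
    rw [← hm]
    have : C + 12 ≤ m := by
      rw [hm]
      unfold n2 n1
      omega
    omega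
  have h0 : 12 ≤ m := by
    rw [hm]
    unfold n2 n1
    omega
  have hH0 : 0 < H := by linarith
  have h2 : H ^ (nc c0 C j + 2) ≤ H ^ (2 * m) := pow_mono_H hH h1
  have h3 : H ^ (2 * m) ≤ Real.exp (2 * m * H) := by
    have h4 : H ≤ Real.exp H := by
      have := Real.add_one_le_exp H
      linarith
    calc H ^ (2 * m) ≤ Real.exp H ^ (2 * m) := pow_le_pow_left₀ hH0.le h4 _
      _ = Real.exp (2 * m * H) := by
        rw [← Real.exp_nat_mul]
        push_cast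
        rfl
  refine h2.trans (h3.trans (Real.exp_le_exp.2 ?_))
  obtain ⟨i, hi⟩ := Nat.exists_eq_add_of_le h0
  have h5 : (2 * m : ℝ) ≤ H ^ (m - 1) := by
    have h6 : (2 * m : ℕ) ≤ 2 ^ (m - 1) := by
      rw [hi]
      have h7 : 12 + i - 1 = i + 11 := by omega
      rw [h7, pow_add]
      have h8 := lt_two_pow' i
      omega
    have h9 : ((2 * m : ℕ) : ℝ) ≤ (2 : ℝ) ^ (m - 1) := by exact_mod_cast h6
    push_cast at h9
    exact h9.trans (pow_le_pow_left₀ (by norm_num) hH _)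
  have h10 : H ^ m = H ^ (m - 1) * H := by
    have h11 : m = m - 1 + 1 := by omega
    rw [← pow_succ, ← h11]
  rw [h10]
  exact mul_le_mul_of_nonneg_right h5 hH0.le

/-- the error of the model -/
theorem near_X (hH : 2 ≤ H) : Real.exp (-H ^ nc c0 C j) ≤ 1 / NX H c0 C j ^ C := by
  unfold NX
  rw [← Real.exp_nat_mul, one_div, ← Real.exp_neg]
  refine Real.exp_le_exp.2 (neg_le_neg ?_)
  refine (mul_le_H hH C (n2 c0 C j)).trans (pow_mono_H hH ?_)
  unfold nc
  omega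

/-- the accuracy of the names -/
theorem q_small (hH : 2 ≤ H) {k : ℕ} (hk : k ≤ j) :
    (2 : ℝ) ^ k * (1 / NX H c0 C j) ≤ Real.exp (-H ^ c0) * (1 / 4) := by
  unfold NX
  rw [one_div, ← Real.exp_neg]
  have h1 := Num19.two_pow_le_exp (k + 2)
  have h2 : (k : ℝ) + 2 + H ^ c0 ≤ H ^ n2 c0 C j := by
    have h3 : ((j + 12 : ℕ) : ℝ) * H ^ c0 ≤ H ^ n2 c0 C j := by
      refine (mul_le_H hH (j + 12) c0).trans (pow_mono_H hH ?_)
      unfold n2 n1
      omega
    have h4 := one_le_H hH c0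
    have h5 : (k : ℝ) ≤ j := by exact_mod_cast hk
    have h6 : (0 : ℝ) ≤ k := Nat.cast_nonneg k
    push_cast at h3
    nlinarith
  have h7 : (2 : ℝ) ^ (k + 2) * Real.exp (-H ^ n2 c0 C j) ≤ Real.exp (-H ^ c0) := by
    calc (2 : ℝ) ^ (k + 2) * Real.exp (-H ^ n2 c0 C j) ≤ Real.exp ((k + 2 : ℕ)) * Real.exp (-H ^ n2 c0 C j) :=
          mul_le_mul_of_nonneg_right h1 (Real.exp_pos _).le
      _ = Real.exp ((k + 2 : ℕ) + -H ^ n2 c0 C j) := (Real.exp_add _ _).symm
      _ ≤ Real.exp (-H ^ c0) := Real.exp_le_exp.2 (by push_cast; linarith)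
  have h8 : (2 : ℝ) ^ (k + 2) = 2 ^ k * 4 := by
    rw [pow_add]
    norm_num
  rw [h8] at h7
  linarith

/-- the dead probability -/
theorem err_small (hH : 2 ≤ H) {k : ℕ} (hk : k ≤ j) :
    Real.exp (-H ^ n1 c0 C) + (2 : ℝ) ^ k * (1 / NX H c0 C j) ≤ Real.exp (-H ^ c0) := by
  have h1 := q_small (c0 := c0) (C := C) hH hk
  have h2 : Real.exp (-H ^ n1 c0 C) ≤ Real.exp (-H ^ c0) * (1 / 4) := by
    have h3 : (2 : ℝ) + H ^ c0 ≤ H ^ n1 c0 C := by
      have h4 : H ^ c0 * H ^ 2 ≤ H ^ n1 c0 C := by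
        rw [← pow_add]
        refine pow_mono_H hH ?_
        unfold n1
        omega
      have h5 := one_le_H hH c0
      have h6 : 4 ≤ H ^ 2 := by nlinarith
      nlinarith
    have h7 : (4 : ℝ) ≤ Real.exp 2 := by
      have := Num19.two_pow_le_exp 2
      push_cast at this
      norm_num at this
      exact this
    have h8 : Real.exp (-H ^ n1 c0 C) * Real.exp 2 ≤ Real.exp (-H ^ c0) := by
      rw [← Real.exp_add]
      exact Real.exp_le_exp.2 (by linarith)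
    have h9 := (Real.exp_pos (-H ^ n1 c0 C)).le
    nlinarith
  have h3 := (Real.exp_pos (-H ^ c0)).le
  linarith

/-- `Y ^ C ≤ exp (H ^ D)`, also for products -/
theorem Y_pow_le (hH : 2 ≤ H) {m : ℕ} (hm : m ≤ 2 * C + 6) : NY H c0 C j ^ m ≤ Real.exp (H ^ nD c0 C j) := by
  unfold NY
  rw [← Real.exp_nat_mul]
  refine Real.exp_le_exp.2 ((mul_le_H hH m _).trans (pow_mono_H hH ?_))
  unfold nD
  omega

theorem X_pow_le (hH : 2 ≤ H) {m : ℕ} (hm : m ≤ 2 * C + 6) : NX H c0 C j ^ m ≤ Real.exp (H ^ nD c0 C j) := by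
  refine le_trans (pow_le_pow_left₀ (Real.exp_pos _).le (X_le_Y hH) m) (Y_pow_le hH hm)

/-- **THE NUMBERS OF THE OUTPUT OF THE NAMES** -/
theorem nam_num (hH : 2 ≤ H) {K : ℝ} (hK1 : 1 ≤ K) (hK : K ≤ NY H c0 C j) {n' B' : ℕ} {A' : ℝ}
    (hn : (n' : ℝ) ≤ NY H c0 C j ^ C) (hB : (B' : ℝ) ≤ Real.exp (NY H c0 C j ^ C)) (hA : A' ≤ NX H c0 C j ^ C) :
    ∃ M0 : ℕ, 0 < M0 ∧ 2 * K * B' / M0 ≤ Real.exp (-H ^ c0) ∧
      ((((B' + 1) * M0 + 1) ^ n' : ℕ) : ℝ) ≤ Real.exp (Real.exp (H ^ nD c0 C j)) ∧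
      (n' : ℝ) ≤ Real.exp (H ^ nD c0 C j) ∧ A' ≤ Real.exp (Real.exp (H ^ nD c0 C j)) := by
  set Y := NY H c0 C j with hY
  set L := Y ^ C with hL
  have hY2 : 2 ≤ Y := (X_ge_two (c0 := c0) (C := C) (j := j) hH).trans (X_le_Y hH)
  have hY0 : 0 ≤ Y := by linarith
  have hL1 : 1 ≤ L := one_le_pow₀ (by linarith)
  have hB0 : (0 : ℝ) ≤ B' := Nat.cast_nonneg _
  have hexpY : Y ≤ Real.exp Y := by
    have := Real.add_one_le_exp Y
    linarith
  have hc0 : Real.exp (H ^ c0) ≤ Y := by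
    refine Real.exp_le_exp.2 (pow_mono_H hH ?_)
    unfold nc n2 n1
    omega
  have he : Real.exp 3 ≥ 8 := by
    have := Num19.two_pow_le_exp 3
    push_cast at this
    norm_num at this
    exact this
  refine ⟨⌈2 * K * B' * Real.exp (H ^ c0)⌉₊ + 1, Nat.succ_pos _, ?_, ?_, ?_, ?_⟩
  · have h1 := Nat.le_ceil (2 * K * B' * Real.exp (H ^ c0))
    have h2 : (0 : ℝ) < ((⌈2 * K * B' * Real.exp (H ^ c0)⌉₊ + 1 : ℕ) : ℝ) := by positivity
    rw [div_le_iff₀ h2]
    have h3 : Real.exp (-H ^ c0) * Real.exp (H ^ c0) = 1 := by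
      rw [← Real.exp_add, neg_add_cancel, Real.exp_zero]
    calc 2 * K * B' = Real.exp (-H ^ c0) * (2 * K * B' * Real.exp (H ^ c0)) := by
          have h4 : Real.exp (-H ^ c0) * (2 * K * B' * Real.exp (H ^ c0)) =
            2 * K * B' * (Real.exp (-H ^ c0) * Real.exp (H ^ c0)) := by ring
          rw [h4, h3, mul_one]
      _ ≤ Real.exp (-H ^ c0) * ((⌈2 * K * B' * Real.exp (H ^ c0)⌉₊ + 1 : ℕ) : ℝ) := by
          refine mul_le_mul_of_nonneg_left ?_ (Real.exp_pos _).le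
          push_cast
          linarith
  · -- the number of values
    set M0 : ℕ := ⌈2 * K * B' * Real.exp (H ^ c0)⌉₊ + 1 with hM0
    have hE1 : (1 : ℝ) ≤ Real.exp (L + 2 * Y) := by
      rw [← Real.exp_zero]
      exact Real.exp_le_exp.2 (by linarith)
    have h1 : (M0 : ℝ) ≤ 4 * Real.exp (L + 2 * Y) := by
      have h2 : 2 * K * B' * Real.exp (H ^ c0) ≤ 2 * Real.exp (L + 2 * Y) := by
        have h3 : K * Real.exp (H ^ c0) ≤ Real.exp Y * Real.exp Y :=
          mul_le_mul (hK.trans hexpY) (hc0.trans hexpY) (Real.exp_pos _).le (Real.exp_pos _).le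
        have h4 : (B' : ℝ) * (K * Real.exp (H ^ c0)) ≤ Real.exp L * (Real.exp Y * Real.exp Y) :=
          mul_le_mul hB h3 (mul_nonneg (by linarith) (Real.exp_pos _).le) (Real.exp_pos _).le
        have h5 : Real.exp (L + 2 * Y) = Real.exp L * (Real.exp Y * Real.exp Y) := by
          rw [← Real.exp_add, ← Real.exp_add]
          congr 1
          ring
        rw [h5]
        linarith
      have h6 : (0 : ℝ) ≤ 2 * K * B' * Real.exp (H ^ c0) := by positivity
      have h7 := (Nat.ceil_lt_add_one h6).le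
      rw [hM0]
      push_cast
      linarith
    have h8 : ((B' : ℝ) + 1) * M0 + 1 ≤ Real.exp (2 * L + 2 * Y + 3) := by
      have h9 : (B' : ℝ) + 1 ≤ 2 * Real.exp L := by
        have : 1 ≤ Real.exp L := by
          rw [← Real.exp_zero]
          exact Real.exp_le_exp.2 (by linarith)
        linarith
      have h10 : ((B' : ℝ) + 1) * M0 ≤ 2 * Real.exp L * (4 * Real.exp (L + 2 * Y)) :=
        mul_le_mul h9 h1 (Nat.cast_nonneg _) (by positivity)
      have h11 : (16 : ℝ) ≤ Real.exp 3 := by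
        have h12 : (2.7182818283 : ℝ) < Real.exp 1 := Real.exp_one_gt_d9
        have h13 : Real.exp 3 = Real.exp 1 ^ 3 := by
          rw [← Real.exp_nat_mul]
          norm_num
        rw [h13]
        have h14 : (2.7182818283 : ℝ) ^ 3 ≤ Real.exp 1 ^ 3 := pow_le_pow_left₀ (by norm_num) h12.le 3
        refine le_trans ?_ h14
        norm_num
      have h15 : Real.exp (2 * L + 2 * Y + 3) = Real.exp L * Real.exp (L + 2 * Y) * Real.exp 3 := by
        rw [← Real.exp_add, ← Real.exp_add]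
        congr 1
        ring
      have h16 : 1 ≤ Real.exp L * Real.exp (L + 2 * Y) := by
        rw [← Real.exp_add, ← Real.exp_zero]
        exact Real.exp_le_exp.2 (by linarith)
      rw [h15]
      nlinarith
    have h17 : ((((B' + 1) * M0 + 1) ^ n' : ℕ) : ℝ) ≤ Real.exp (n' * (2 * L + 2 * Y + 3)) := by
      push_cast
      rw [Real.exp_nat_mul]
      exact pow_le_pow_left₀ (by positivity) h8 _
    refine h17.trans (Real.exp_le_exp.2 ?_)
    have h18 : (n' : ℝ) * (2 * L + 2 * Y + 3) ≤ L * (2 * L + 2 * Y + 3) :=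
      mul_le_mul_of_nonneg_right hn (by linarith)
    have h19 : L * (2 * L + 2 * Y + 3) ≤ Y ^ (2 * C + 6) := by
      have h20 : L ≤ Y ^ (C + 1) := pow_le_pow_right₀ (by linarith) (Nat.le_succ C)
      have h21 : Y ≤ Y ^ (C + 1) := by
        calc Y = Y ^ 1 := (pow_one Y).symm
          _ ≤ _ := pow_le_pow_right₀ (by linarith) (by omega)
      have h22 : 2 * L + 2 * Y + 3 ≤ 8 * Y ^ (C + 1) := by linarith
      have h23 : (8 : ℝ) ≤ Y ^ 3 := by
        calc (8 : ℝ) = 2 ^ 3 := by norm_num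
          _ ≤ Y ^ 3 := pow_le_pow_left₀ (by norm_num) hY2 3
      calc L * (2 * L + 2 * Y + 3) ≤ Y ^ (C + 1) * (Y ^ 3 * Y ^ (C + 1)) := by
            refine mul_le_mul h20 (h22.trans ?_) (by linarith) (by positivity)
            exact mul_le_mul_of_nonneg_right h23 (by positivity)
        _ = Y ^ (2 * C + 5) := by ring
        _ ≤ Y ^ (2 * C + 6) := pow_le_pow_right₀ (by linarith) (Nat.le_succ _)
    exact h18.trans (h19.trans (Y_pow_le hH le_rfl))
  · exact hn.trans (Y_pow_le hH (by omega))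
  · have h1 : A' ≤ Real.exp (H ^ nD c0 C j) := hA.trans (X_pow_le hH (by omega))
    refine h1.trans (Real.exp_le_exp.2 ?_)
    have := Real.add_one_le_exp (H ^ nD c0 C j)
    linarith

end NamNum

end

end Pool.Agent.GMN
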