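import Pool.Agent.GMN.NBStart
import Pool.Agent.GMN.NamNum
import Pool.Agent.GMN.AssemBin
import Pool.Agent.GM.NamAt

/-!
# GMN/NamBin (helper19, with helper52): the names of every piece from Theorem N_m in state form (row A11e)

* `BinCls G j C` : the binary models with `j` vertices are in the class `G` (constant `C`);
* **`namBin`** : `NamesAt a e (G ι) C` for all `ι` with `j` elements, all `a` and all numberings `e` of the other vertices,
  `BinCls G j C`, `κ ≤ 1` give `NamBin j κ c0 c D` for every `c0`, with `c = NamNum.nc c0 C j`, `D = NamNum.nD c0 C j`.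
-/

set_option autoImplicit false
set_option linter.unusedSectionVars false

namespace Pool.Agent.GMN

open Finset Pool.Agent.PWZ Pool.Agent.M3 Pool.Agent.M3.TS Pool.Agent.GM Pool.Agent.M3.Bin Pool.Agent.GM.KVer

noncomputable section

/-- the binary models with `j` vertices are in the class -/
def BinCls (G : ∀ (ι : Type) [Fintype ι] [DecidableEq ι], SysCls ι) (j C : ℕ) : Prop :=
  ∀ (ι Θ Ξ Q : Type) [Fintype ι] [DecidableEq ι] [Fintype Θ] [Nonempty Θ] [Fintype Ξ] [Nonempty Ξ] [Fintype Q]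
    [Nonempty Q] (k N : ℕ) (σ : V k) (a : ι) (hN : N ≤ k) (h : ℕ), Fintype.card ι = j →
    ∀ X Y : ℝ, 2 ≤ X → X ≤ Y → Y ≤ Real.exp X → (binSys Θ Ξ Q σ a hN h).K ≤ Y →
      (binSys Θ Ξ Q σ a hN h).near ≤ 1 / X ^ C → (G ι).G (binSys Θ Ξ Q σ a hN h) X Y C

/-- **THE NAMES OF EVERY PIECE** -/
theorem namBin {G : ∀ (ι : Type) [Fintype ι] [DecidableEq ι], SysCls ι} {j C : ℕ}
    (hNm : ∀ (ι : Type) [Fintype ι] [DecidableEq ι] (a : ι) (k : ℕ) (e : Fin k ↪ ι), Fintype.card ι = j →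
      Fintype.card ι = k + 1 → 1 ≤ k → (∀ u, u ≠ a ↔ ∃ i, e i = u) → NamesAt a e (G ι) C)
    (hG : BinCls G j C) {κ : ℝ} (hκ : κ ≤ 1) (c0 : ℕ) : NamBin j κ c0 (NamNum.nc c0 C j) (NamNum.nD c0 C j) := by
  intro ι Θ Ξ Q _ _ _ _ _ _ _ _ k N σ a δ q hN h hj haδ haq H Λ hH hK hnear hΛ0 hΛ F hF hD
  obtain ⟨D⟩ := hD
  set S := binSys Θ Ξ Q σ a hN h with hS
  have hcard : 1 < Fintype.card ι := Fintype.one_lt_card_iff.2 ⟨a, q, haq⟩
  obtain ⟨m, hm⟩ : ∃ m, Fintype.card ι = m + 1 := ⟨Fintype.card ι - 1, by omega⟩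
  have hmj : m ≤ j := by omega
  have hm1 : 1 ≤ m := by omega
  obtain ⟨e, n, B, A, σ0, dead, he, heq, hed, hpu, hs, hn, hA, hB⟩ :=
    start_N haq.symm haδ.symm hH hκ hΛ0 hΛ le_rfl hF D hm (NamNum.n1 c0 C)
  rw [hj] at hn hA hB
  set X := NamNum.NX H c0 C j with hX
  set Y := NamNum.NY H c0 C j with hY
  have hX2 : 2 ≤ X := NamNum.X_ge_two hH
  have hXY : X ≤ Y := NamNum.X_le_Y hH
  have hYX : Y ≤ Real.exp X := NamNum.Y_le_exp hH
  have hGS : (G ι).G S X Y C := hG ι Θ Ξ Q k N σ a hN h hj X Y hX2 hXY hYX hK (hnear.trans (NamNum.near_X hH))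
  have hq1 : 1 / X ≤ 1 := (div_le_one (by linarith)).2 (by linarith)
  have hsz : Szs X Y n B A := ⟨hn.trans hXY, hB.trans (Real.exp_le_exp.2 hXY), hA⟩
  obtain ⟨Ξ2, i1, i2, τ, n', B', A', dead', g1, g2, g3, g4, g5, g6, g7, g8, g9, g10⟩ :=
    hNm ι a m e hj hm hm1 he _ _ _ _ _ _ S X Y (1 / X) hX2 hXY hYX le_rfl hq1 hGS (fun _ => 0) δ σ0 n B A dead hs.bd hs.on
      hsz (fun u _ hu t g ξ ξ' x _ => by rw [hs.free u hu t g ξ ξ']) hs.shape (fun i hi _ => hpu i hi)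
  obtain ⟨M0, hM0, m1, m2, m3, m4⟩ := NamNum.nam_num (c0 := c0) (C := C) (j := j) hH S.K1 hK g3.n g3.B g3.A
  obtain ⟨ξ0⟩ : Nonempty Ξ := inferInstance
  refine Nam.namAt_of_final (τ := τ) (eta := 2 ^ m * (1 / X)) (ez := fun t g x => σ0.Z.L t g ξ0 x) g1 g2 g5 ?_ ?_ ?_ ?_
    (fun g ξ x => hF.zero a g ξ x) ?_ hM0 (by positivity) ?_ m1 ?_ m3 m2 m4
  · intro t g ξ x
    rw [g8]
    exact hs.La t g ξ.1 x
  · intro u hua hud t g z z' ξ x
    exact g4 u hua hud t g _ _ x (pzAdd_eq.2 ⟨rfl, rfl⟩)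
  · intro t g ξ x
    rw [g7]
    exact congrFun (hs.freeZ t g ξ.1 ξ0) x
  · intro t _ w hw
    refine hs.chZ t w fun h1 => hw ?_
    have e1 : ∀ s, σ0.Z.at' s w = σ0.Z.L s (S.gm s w) ξ0 (S.x w) := fun s =>
      congrFun (hs.freeZ s (S.gm s w) (S.xi w) ξ0) (S.x w)
    rw [e1, e1] at h1
    exact h1
  · intro t ht1 ht w hw
    have h1 := g9 t ht1 ht w hw
    rw [hs.val t w.1 (fun hd => hw (g6 t w hd))] at h1
    exact h1
  · refine g10.trans ?_
    have h1 := hs.pr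
    exact (add_le_add h1 le_rfl).trans (NamNum.err_small hH hmj)
  · have h1 := NamNum.q_small (c0 := c0) (C := C) hH hmj
    have h2 := (Real.exp_pos (-H ^ c0)).le
    exact h1.trans (by linarith)

end

end Pool.Agent.GMN
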