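import Pool.Agent.GMN.AssemBin
import Pool.Agent.GMN.TjSMI
import Pool.Agent.GM.GeoDbl

/-!
# GMN/Cls (helper52): the class of systems of the names

`smiCls ι j C0` : strong moving form for all sets of at least two and at most `j` vertices and all coins (`CoinSMI`),
`Dbl 4`, `K ≤ Y`, `near ≤ 1 / X ^ D`; `smiCls_bin` : the binary models.
-/

set_option autoImplicit false
set_option linter.unusedSectionVars false

namespace Pool.Agent.GMN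

open Finset Pool.Agent.PWZ Pool.Agent.M3 Pool.Agent.M3.TS Pool.Agent.GM Pool.Agent.M3.Bin

noncomputable section

/-- **the class of systems** -/
def smiCls (ι : Type) [Fintype ι] [DecidableEq ι] (j C0 : ℕ) : SysCls ι where
  G S X Y D := CoinSMI S j C0 ∧ S.Dbl 4 ∧ S.K ≤ Y ∧ S.near ≤ 1 / X ^ D
  add _ _ _ _ Ξ2 _ _ h := ⟨h.1.add Ξ2, h.2.1.addCoins Ξ2, h.2.2.1, h.2.2.2⟩
  pow _ X Y C D hX hXY hC h := ⟨h.1, h.2.1, h.2.2.1.trans (le_self_pow₀ (by linarith) (by omega)), by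
    rw [← pow_mul]
    exact h.2.2.2⟩
  mono _ X _ C D hX hCD h := ⟨h.1, h.2.1, h.2.2.1, h.2.2.2.trans
    (one_div_le_one_div_of_le (by positivity) (pow_le_pow_right₀ (by linarith) hCD))⟩
  K_le _ _ _ _ _ h := h.2.2.1
  near_le _ _ _ _ _ h := h.2.2.2

theorem smiCls_smi {ι Om Ξ Pt V Γ κ : Type} [Fintype ι] [DecidableEq ι] [Fintype Om] [Fintype Ξ] [Fintype Pt]
    [Fintype V] {j C0 : ℕ} {S : Sys ι Om Ξ Pt V Γ κ} {X Y : ℝ} {D : ℕ} (h : (smiCls ι j C0).G S X Y D) :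
    CoinSMI S j C0 := h.1

theorem smiCls_dbl {ι Om Ξ Pt V Γ κ : Type} [Fintype ι] [DecidableEq ι] [Fintype Om] [Fintype Ξ] [Fintype Pt]
    [Fintype V] {j C0 : ℕ} {S : Sys ι Om Ξ Pt V Γ κ} {X Y : ℝ} {D : ℕ} (h : (smiCls ι j C0).G S X Y D) :
    S.Dbl 4 := h.2.1

/-- the binary models are in the class -/
theorem smiCls_bin {k N : ℕ} {ι Θ Ξ Q : Type} [Fintype ι] [DecidableEq ι] (σ : V k) [Fintype Θ] [Nonempty Θ]
    [Fintype Ξ] [Nonempty Ξ] [Fintype Q] [Nonempty Q] {j C0 : ℕ} (H : ∀ j', 2 ≤ j' → j' ≤ j → SMIbin j' C0) (i : ι)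
    (hN : N ≤ k) (h : ℕ) {X Y : ℝ} {D : ℕ} (hK : (binSys Θ Ξ Q σ i hN h).K ≤ Y)
    (hnear : (binSys Θ Ξ Q σ i hN h).near ≤ 1 / X ^ D) : (smiCls ι j C0).G (binSys Θ Ξ Q σ i hN h) X Y D :=
  ⟨coinSMI_bin σ H i hN h, dbl_binSys σ i hN h, hK, hnear⟩

end

end Pool.Agent.GMN
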