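import Pool.Agent.GMN.StepC4
import Pool.Agent.GMN.AssemBin

/-!
# GMN/StepC (helper13): ONE STEP OF THE NAMES FROM THE RULE

`stepAt_of_rule : RuleAt G C0 → StepAt a e G (stepC (card ι) C0)` (range of `e` = the vertices but `a`), explicit constants;
`step_of_rule : RuleStmt G → StepStmt a e G`.
-/

set_option autoImplicit false
set_option linter.unusedSectionVars false

namespace Pool.Agent.GMN.SC

open Finset Pool.Agent.PWZ Pool.Agent.M3 Pool.Agent.M3.TS Pool.Agent.GM Pool.GMN.Counter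

noncomputable section

variable {ι Om Ξ Pt V Γ κ : Type} [Fintype ι] [DecidableEq ι] [Fintype Om] [Fintype Ξ] [Fintype Pt]
  [Fintype V] {S : Sys ι Om Ξ Pt V Γ κ} {a : ι}

section ext

variable {Om' Ξ' : Type} [Fintype Om'] [Fintype Ξ'] {S' : Sys ι Om' Ξ' Pt V Γ κ} (ex : CExt S S')

theorem st_fam (σ : NSt S a) (L : Finset ι) (l : ι) (ν : ι → ℕ) (t : ℕ) (w : Om') (d : V) :
    ((ex.st σ).fam L l).at' ((ex.st σ).pn l ν) t w d = (σ.fam L l).at' (σ.pn l ν) t (ex.pi w) d := by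
  rw [NSt.fam_at, NSt.fam_at, ex.st_fac]
  congr 1
  rw [NSt.oth_at, NSt.oth_at]
  refine prod_congr rfl fun u _ => ?_
  have h2 : (ex.st σ).X u l = ex.num (σ.X u l) := rfl
  rw [h2, ex.num_at]
  rfl

theorem st_tm (σ : NSt S a) (v : ι) (L Rf : Finset ι) (ζ : ℕ) (ν : ι → ℕ) (f : V → ℝ) (t : ℕ) (w : Om') :
    (ex.st σ).tm v L Rf ζ ν f t w = σ.tm v L Rf ζ ν f t (ex.pi w) := by
  unfold NSt.tm
  rw [ex.J]
  congr 1
  funext d
  have h1 : (ex.st σ).h.at' ((ex.st σ).hn ζ ν) t w d = σ.h.at' (σ.hn ζ ν) t (ex.pi w) d := by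
    show (ex.num σ.h).at' (σ.hn ζ ν) t w d = _
    rw [ex.num_at]
  have h2 : ∏ l ∈ L, ((ex.st σ).fam L l).at' ((ex.st σ).pn l ν) t w d =
      ∏ l ∈ L, (σ.fam L l).at' (σ.pn l ν) t (ex.pi w) d := prod_congr rfl fun l _ => st_fam ex σ L l ν t w d
  have h3 : ∏ u ∈ Rf, ((ex.st σ).X u v).at' ((ex.st σ).tr u v (ν u)) t w d =
      ∏ u ∈ Rf, (σ.X u v).at' (σ.tr u v (ν u)) t (ex.pi w) d := by
    refine prod_congr rfl fun u _ => ?_
    have h4 : (ex.st σ).X u v = ex.num (σ.X u v) := rfl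
    rw [h4, ex.num_at]
    rfl
  rw [h1, h2, h3]

theorem st_tgt (σ : NSt S a) (v : ι) (tg : Option ι) (ν : ℕ) (t : ℕ) (w : Om') (d : V) :
    ((ex.st σ).tgt v tg).at' ν t w d = (ex.num (σ.tgt v tg)).at' ν t w d := by
  cases tg with
  | none => rfl
  | some x => rfl

theorem formTerm_up {β : Type} (D : StepIn S β) (pz' : Ξ' → ℕ)
    (hz : ∀ ξ ξ', pz' ξ = pz' ξ' → D.pz (ex.pc ξ) = D.pz (ex.pc ξ')) (z : ι → β) (s : ι → ℕ) (f : V → ℝ) (t : ℕ)
    (w : Om') : formTerm (D.up ex pz' hz) z s f t w = formTerm D z s f t (ex.pi w) := by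
  unfold formTerm
  rw [ex.J]
  congr 1
  funext d
  show (ex.num (D.Fa D.a)).at' (z D.a) t w d * ((∏ l ∈ D.L, (ex.num (D.Fa l)).at' (z l) t w d) *
    ((∏ u ∈ D.Rf, (ex.num (D.Xr u)).at' (s u) t w d) * f d)) = _
  simp only [ex.num_at]

theorem fit_st {σ : NSt S a} {v : ι} {L Rf : Finset ι} {tg : Option ι} (h : Fit σ v L Rf tg) :
    Fit (ex.st σ) v L Rf tg := ⟨h.av, h.aL, h.vL, h.aR, h.vR, h.LR, h.tnone, h.tsome, h.ref, h.up, h.irr⟩

end ext

/-- the approximation of the target: only the uses with nonzero coefficient count -/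
theorem appr_eq {β : Type} (D : StepIn S β) (O : StepObj S D.v D.a) (σ : NSt S D.a) (hX : ∀ u ∈ D.Rf, ∀ n t w d,
    (D.Xr u).at' n t w d = (σ.X u D.v).at' n t w d) (ν : ℕ) (t : ℕ) (w : Om) (d : V) :
    appr D O ν t w d = apr σ D.v D.L D.Rf O ν t w d := by
  classical
  unfold appr apr
  have h1 : ∀ x, useTerm D O x t w d = utm σ D.v D.L D.Rf O x t w d := by
    intro x
    unfold useTerm utm
    rw [prod_congr rfl fun u hu => hX u hu (O.sr x u) t w d]
  rw [sum_congr rfl fun x _ => h1 x]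
  refine (sum_subset (fun x hx => ?_) fun x hx hx' => ?_).symm
  · obtain ⟨h2, h3, -⟩ := (mem_cur O).1 hx
    unfold curE
    rw [mem_filter, sup_image]
    exact ⟨h2, h3⟩
  · unfold curE at hx
    rw [mem_filter, sup_image] at hx
    have h2 : O.co (O.rnx x) = 0 := by
      by_contra h2
      exact hx' ((mem_cur O).2 ⟨hx.1, hx.2, h2⟩)
    unfold utm
    rw [h2, zero_mul]

section fit

variable {k : ℕ} {e : Fin k ↪ ι} {W : Fin k → Option (Finset (Fin k))} {v : Fin k} {Lc : Finset (Fin k)}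
  {tg : Option (Fin k)}

/-- the shape fits the step -/
theorem fit_of {σ : NSt S a} (he : ∀ u, u ≠ a ↔ ∃ i, e i = u) (hok : StepOK W v Lc tg) (hsh : σ.Shape (shp e W)) :
    Fit σ (e v) (Lc.map e) ((univ.filter fun i => i < v).map e) (tg.map e) := by
  have hea : ∀ i, e i ≠ a := fun i => (he _).2 ⟨i, rfl⟩
  have hwh : ∀ i, σ.wh (e i) ↔ W i = none := by
    intro i
    rw [(hsh (e i) (hea i)).1, shp_apply]
    simp
  have hW : ∀ i T, W i = some T → σ.W (e i) = T.map e := fun i T h => (hsh (e i) (hea i)).2 _ (shp_some h)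
  have hnw : ∀ i T, W i = some T → ¬ σ.wh (e i) := by
    intro i T h h'
    rw [hwh, h] at h'
    exact absurd h' (Option.some_ne_none _)
  refine ⟨(hea v).symm, ?_, ?_, ?_, ?_, ?_, ?_, ?_, ?_, ?_, ?_⟩
  · intro h
    obtain ⟨i, -, h1⟩ := mem_map.1 h
    exact hea i h1
  · intro h
    obtain ⟨i, h1, h2⟩ := mem_map.1 h
    rw [e.injective h2] at h1
    exact lt_irrefl _ (hok.gt v h1)
  · intro h
    obtain ⟨i, -, h1⟩ := mem_map.1 h
    exact hea i h1
  · intro h
    obtain ⟨i, h1, h2⟩ := mem_map.1 h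
    rw [e.injective h2] at h1
    exact lt_irrefl _ (mem_filter.1 h1).2
  · rw [disjoint_left]
    intro x hx hx'
    obtain ⟨i, h1, rfl⟩ := mem_map.1 hx
    obtain ⟨j, h2, h3⟩ := mem_map.1 hx'
    rw [e.injective h3] at h2
    exact lt_asymm (hok.gt i h1) (mem_filter.1 h2).2
  · intro h
    rw [hwh]
    refine hok.tnone ?_
    cases tg with
    | none => rfl
    | some x => exact absurd h (Option.some_ne_none _)
  · intro w hw
    obtain ⟨w', rfl, rfl⟩ := Option.map_eq_some_iff.1 hw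
    obtain ⟨h1, h2, T, h3, h4, h5⟩ := hok.tsome w' rfl
    refine ⟨hnw v T h3, ?_, ?_, ?_⟩
    · intro h
      obtain ⟨i, h6, h7⟩ := mem_map.1 h
      rw [e.injective h7] at h6
      exact h2 h6
    · rw [hW v T h3]
      exact mem_map_of_mem e h4
    · intro x hx
      rw [hW v T h3] at hx
      obtain ⟨i, h6, rfl⟩ := mem_map.1 hx
      rcases h5 i h6 with rfl | h7
      · exact Or.inl rfl
      · exact Or.inr (mem_map_of_mem e h7)
  · intro u hu
    obtain ⟨i, h1, rfl⟩ := mem_map.1 hu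
    have h2 := hok.ref i (mem_filter.1 h1).2
    refine ⟨hnw i _ h2, ?_⟩
    rw [hW i _ h2, map_insert]
  · intro u hua huv hur hul
    obtain ⟨i, rfl⟩ := (he u).1 hua
    have h1 : i ∉ Lc := fun h => hul (mem_map_of_mem e h)
    have h2 : ¬ i < v := fun h => hur (mem_map_of_mem e (mem_filter.2 ⟨mem_univ _, h⟩))
    have h3 : i ≠ v := fun h => huv (by rw [h])
    have h4 : v < i := lt_of_le_of_ne (not_lt.1 h2) h3.symm
    obtain ⟨T, h5, h6⟩ := hok.up i h4 h1
    refine ⟨hnw i _ h5, ?_⟩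
    rw [hW i _ h5]
    intro x hx
    obtain ⟨j, h7, rfl⟩ := mem_map.1 hx
    exact mem_map_of_mem e (h6 j h7)
  · intro l hl hw
    obtain ⟨i, h1, rfl⟩ := mem_map.1 hl
    rcases h2 : W i with _ | T
    · exact absurd ((hwh i).2 h2) hw
    · rw [hW i T h2]
      intro h3
      obtain ⟨j, h4, h5⟩ := mem_map.1 h3
      rw [e.injective h5] at h4
      exact lt_irrefl _ (hok.above i T h2 i h4)

/-- the new shape -/
theorem shape_of {σ : NSt S a} {Rf : Finset ι} (O : StepObj S (e v) a) (he : ∀ u, u ≠ a ↔ ∃ i, e i = u)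
    (hsh : σ.Shape (shp e W)) :
    (nst σ (e v) (Lc.map e) Rf O).Shape (shp e (Function.update W v (some Lc))) := by
  intro u hu
  obtain ⟨i, rfl⟩ := (he u).1 hu
  by_cases hi : i = v
  · subst hi
    rw [shp_apply, Function.update_self]
    constructor
    · constructor
      · intro h
        exact absurd h (nst_wh_v O)
      · intro h
        exact absurd h (Option.some_ne_none _)
    · intro T hT
      rw [nst_W_v]
      exact Option.some.inj hT
  · have h1 : e i ≠ e v := fun h => hi (e.injective h)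
    rw [shp_apply, Function.update_of_ne hi, nst_W_ne _ _ _ _ h1, ← shp_apply]
    exact ⟨(nst_wh_ne O h1).trans (hsh (e i) hu).1, (hsh (e i) hu).2⟩

end fit

/-! ### numbers -/

theorem card_beta (R : ℕ) : Fintype.card (Fin R × ((ι → Fin R) × (ι → Fin R))) =
    R ^ (2 * Fintype.card ι + 1) := by
  classical
  rw [Fintype.card_prod, Fintype.card_prod, Fintype.card_fun, Fintype.card_fin]
  ring

/-- `c x ≤ x ^ m` in the exponent -/
theorem le_exp_pow {c m : ℕ} {Y y : ℝ} (hY : 2 ≤ Y) (hc : c ≤ m) (hm : 1 ≤ m) (hy : y ≤ Real.exp (c * Y)) :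
    y ≤ Real.exp (Y ^ m) := by
  refine hy.trans (Real.exp_le_exp.2 ?_)
  refine le_trans ?_ (mul_le_pow hY hm)
  exact mul_le_mul_of_nonneg_right (by exact_mod_cast hc) (by linarith)

/-- number of ranks -/
def rnk (N : ℕ) (Y : ℝ) : ℕ := ⌈Real.exp ((N ^ 2 + 5 : ℕ) * Y)⌉₊

theorem rnk_ge (N : ℕ) (Y : ℝ) : Real.exp ((N ^ 2 + 5 : ℕ) * Y) ≤ rnk N Y := Nat.le_ceil _

theorem rnk_le (N : ℕ) {Y : ℝ} (hY : 2 ≤ Y) : (rnk N Y : ℝ) ≤ Real.exp ((N ^ 2 + 6 : ℕ) * Y) := by
  have h1 : (rnk N Y : ℝ) < Real.exp ((N ^ 2 + 5 : ℕ) * Y) + 1 := Nat.ceil_lt_add_one (Real.exp_pos _).le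
  refine h1.le.trans ?_
  have h2 : ((N ^ 2 + 6 : ℕ) : ℝ) * Y = (N ^ 2 + 5 : ℕ) * Y + Y := by
    push_cast
    ring
  rw [h2, Real.exp_add]
  have h3 : 1 ≤ Real.exp ((N ^ 2 + 5 : ℕ) * Y) := Real.one_le_exp (by positivity)
  have h4 : Y + 1 ≤ Real.exp Y := Real.add_one_le_exp Y
  nlinarith

theorem rnk_B {N B : ℕ} {Y : ℝ} (hY : 2 ≤ Y) (hB : (B : ℝ) ≤ Real.exp Y) : B ≤ rnk N Y := by
  have h1 : (B : ℝ) ≤ rnk N Y := by
    refine hB.trans (le_trans (Real.exp_le_exp.2 ?_) (rnk_ge N Y))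
    have h2 : (1 : ℝ) ≤ (N ^ 2 + 5 : ℕ) := by
      have : 1 ≤ N ^ 2 + 5 := by omega
      exact_mod_cast this
    nlinarith
  exact_mod_cast h1

theorem rnk_pos (N : ℕ) (Y : ℝ) : 1 ≤ rnk N Y := Nat.one_le_iff_ne_zero.2 (Nat.ceil_pos.2 (Real.exp_pos _)).ne'

theorem rnk_Pr {N B : ℕ} {K X Y q : ℝ} (hX : 2 ≤ X) (hXY : X ≤ Y) (hK0 : 0 ≤ K) (hK : K ≤ Y)
    (hB : (B : ℝ) ≤ Real.exp Y) (hq : 1 / X ≤ q) :
    (N : ℝ) ^ 2 * (K * B / rnk N Y) ≤ q / 2 := by
  have hY : 2 ≤ Y := hX.trans hXY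
  have hR : (0 : ℝ) < rnk N Y := by exact_mod_cast rnk_pos N Y
  have h1 : (N : ℝ) ^ 2 ≤ Real.exp ((N : ℝ) ^ 2 * Y) := by
    have h2 : (N : ℝ) ^ 2 ≤ (N : ℝ) ^ 2 * Y := by nlinarith [sq_nonneg (N : ℝ)]
    have h3 := Real.add_one_le_exp ((N : ℝ) ^ 2 * Y)
    linarith
  have h2 : K ≤ Real.exp Y := by
    have := Real.add_one_le_exp Y
    linarith
  have h3 : (N : ℝ) ^ 2 * (K * B) ≤ Real.exp ((N : ℝ) ^ 2 * Y) * (Real.exp Y * Real.exp Y) :=
    mul_le_mul h1 (mul_le_mul h2 hB (Nat.cast_nonneg _) (Real.exp_pos _).le) (mul_nonneg hK0 (Nat.cast_nonneg _))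
      (Real.exp_pos _).le
  have h4 : Real.exp ((N : ℝ) ^ 2 * Y) * (Real.exp Y * Real.exp Y) * Real.exp (3 * Y) ≤ rnk N Y := by
    rw [← Real.exp_add, ← Real.exp_add, ← Real.exp_add]
    refine le_trans (le_of_eq ?_) (rnk_ge N Y)
    congr 1
    push_cast
    ring
  have h5 : 2 * X ≤ Real.exp (3 * Y) := by
    have := Real.add_one_le_exp (3 * Y)
    linarith
  have h6 : (N : ℝ) ^ 2 * (K * B) * (2 * X) ≤ rnk N Y :=
    le_trans (mul_le_mul h3 h5 (by linarith) (by positivity)) h4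
  have h7 : (N : ℝ) ^ 2 * (K * B / rnk N Y) ≤ 1 / (2 * X) := by
    rw [← mul_div_assoc, div_le_div_iff₀ hR (by linarith), one_mul]
    exact h6
  refine h7.trans ?_
  rw [← div_div, div_right_comm]
  exact div_le_div_of_nonneg_right hq (by norm_num)

/-- the constant of a step, from the constant of the rule -/
def stepC (N C0 : ℕ) : ℕ := (2 * N + 1) * (N ^ 2 + 6) * C0 + 3

/-- **ONE STEP OF THE NAMES FROM THE RULE**, explicit constants -/
theorem stepAt_of_rule {k : ℕ} (e : Fin k ↪ ι) (he : ∀ u, u ≠ a ↔ ∃ i, e i = u) {G : SysCls ι} {C0 : ℕ}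
    (hR : RuleAt G C0) : StepAt a e G (stepC (Fintype.card ι) C0) := by
  classical
  unfold stepC
  set N := Fintype.card ι with hN
  set c0 := (2 * N + 1) * (N ^ 2 + 6) with hc0
  have hc6 : 6 ≤ c0 := by nlinarith [Nat.zero_le N]
  intro Om Ξ Pt V Γ κ _ _ _ _ S X Y q hX hXY hYX hq hq1 hG pz δ σ n B A dead hB hOn hS hz W v Lc tg hok hsh hpu
  have hY : 2 ≤ Y := hX.trans hXY
  have hX1 : 1 ≤ X := by linarith
  have hY1 : 1 ≤ Y := by linarith
  have hX0 : 0 < X := by linarith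
  have hY0 : 0 < Y := by linarith
  have hq0 : 0 < q := lt_of_lt_of_le (by positivity) hq
  have hfit : Fit σ (e v) (Lc.map e) ((univ.filter fun i => i < v).map e) (tg.map e) := fit_of he hok hsh
  set R := rnk N Y with hRdef
  have hBR : B ≤ R := rnk_B hY hS.B
  have hR1 : 1 ≤ R := rnk_pos N Y
  -- the rule
  have hXc : X ≤ X ^ c0 := le_self_pow₀ hX1 (by omega)
  have hYc : Y ≤ Y ^ c0 := le_self_pow₀ hY1 (by omega)
  have hX2c : X ^ 2 ≤ X ^ c0 := pow_le_pow_right₀ hX1 (by omega)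
  have hG' : G.G S (X ^ c0) (Y ^ c0) C0 := G.pow S X Y c0 C0 hX hXY (by omega) (G.mono S X Y _ _ hX (by omega) hG)
  have hcard : ((Lc.map e).card + 2 ≤ Fintype.card ι - 1) := by
    have h1 : (univ : Finset (Fin k)).map e = univ.erase a := by
      ext u
      rw [mem_map, mem_erase]
      constructor
      · rintro ⟨i, -, rfl⟩
        exact ⟨(he _).2 ⟨i, rfl⟩, mem_univ _⟩
      · rintro ⟨h1, -⟩
        obtain ⟨i, rfl⟩ := (he u).1 h1
        exact ⟨i, mem_univ _, rfl⟩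
    have h2 : k = Fintype.card ι - 1 := by
      have h3 := congrArg Finset.card h1
      rw [card_map, card_univ, Fintype.card_fin, card_erase_of_mem (mem_univ _), card_univ] at h3
      exact h3
    rw [card_map, ← h2]
    exact hok.card
  obtain ⟨Ξ2, i1, i2, O, nu, n', B', deadR, hO, hnu, hn', hB'⟩ :=
    hR Om Ξ Pt V Γ κ (Fin R × ((ι → Fin R) × (ι → Fin R))) S (X ^ c0) (Y ^ c0) (q / X) (q / 2) (hX.trans hXc)
      (pow_le_pow_left₀ hX0.le hXY c0) (pow_le_exp_pow hX hY0.le hYX (by omega))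
      (by
        rw [div_le_div_iff₀ (by positivity) hX0, one_mul]
        have h1 : X ^ c0 * q ≥ X ^ 2 * (1 / X) := mul_le_mul hX2c hq (by positivity) (by positivity)
        have h2 : X ^ 2 * (1 / X) = X := by field_simp
        linarith [mul_comm q (X ^ c0)])
      (by
        rw [div_le_one hX0]
        linarith)
      (by
        rw [div_le_div_iff₀ (by positivity) (by norm_num), one_mul]
        have h1 : X ^ c0 * q ≥ X ^ 2 * (1 / X) := mul_le_mul hX2c hq (by positivity) (by positivity)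
        have h2 : X ^ 2 * (1 / X) = X := by field_simp
        linarith [mul_comm q (X ^ c0)])
      (by linarith) hG' (dat σ hfit n B R hz) n B (dat_Bd σ hfit n B R hz) (hS.n.trans hYc)
      (hS.B.trans (Real.exp_le_exp.2 hYc))
      (by
        rw [card_beta]
        push_cast
        refine le_exp_pow (c := c0) hY le_rfl (by omega) ?_
        refine (pow_le_pow_left₀ (Nat.cast_nonneg _) (rnk_le N hY) _).trans (le_of_eq ?_)
        rw [← Real.exp_nat_mul, hc0]
        congr 1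
        push_cast
        ring)
      hcard
  let D : StepIn S (Fin R × ((ι → Fin R) × (ι → Fin R))) := dat σ hfit n B R hz
  let ex := CExt.add S Ξ2
  let σ1 : NSt (addCoins S Ξ2) a := ex.st σ
  have hfit1 : Fit σ1 (e v) (Lc.map e) ((univ.filter fun i => i < v).map e) (tg.map e) := fit_st ex hfit
  have hB1 : σ1.Bd n B A (fun t w => dead t w.1) := ex.st_Bd hB
  have hOn1 : σ1.On (fun t w => dead t w.1) := ex.st_On hOn
  let dead' : ℕ → (Om × Ξ2) → Prop := fun t w => dead t w.1 ∨ deadR t w ∨ ¬ Good σ B R t w.1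
  have hLv : ∀ {t w}, t ≤ S.n → ¬ dead' t w → ∀ ν ∈ σ1.lists t w (e v), ν ∈ (D.add Ξ2).Lv.at' t w := by
    intro t w ht hw ν hν
    have e1 : (D.add Ξ2).Lv.at' t w = D.Lv.at' t w.1 := ex.lst_at D.Lv t w
    rw [e1, dat_Lv hfit hz hB ht (fun h' => hw (Or.inl h'))]
    rw [ex.st_lists] at hν
    exact hν
  have hF : ∀ t ≤ S.n, ∀ w, ¬ dead' t w →
      Fx σ1 (e v) (Lc.map e) ((univ.filter fun i => i < v).map e) O nu n' B' t w := by
    intro t ht w hw
    have hwR : ¬ deadR t w := fun h' => hw (Or.inr (Or.inl h'))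
    exact ⟨fun ν hν => hO.cardL t ht w hwR ν (hLv ht hw ν hν), hO.cardN t ht w hwR,
      fun ν hν => hO.numL t ht w hwR ν (hLv ht hw ν hν), hO.numN t ht w hwR,
      fun ν hν => hO.injL t ht w hwR ν (hLv ht hw ν hν), hO.injN t ht w hwR,
      fun l hl ν hν => hO.pubL t ht w hwR l hl ν (hLv ht hw ν hν), hO.cardPL t ht w hwR, hO.pubN t ht w hwR,
      hO.cardPN t ht w hwR, fun ν hν => hO.on t ht w hwR ν (hLv ht hw ν hν),
      fun ν hν => hO.mem t ht w hwR ν (hLv ht hw ν hν), fun ν hν => hO.hash t ht w hwR ν (hLv ht hw ν hν)⟩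
  have hdd : ∀ t (w : Om × Ξ2), dead t w.1 → dead' t w := fun t w h' => Or.inl h'
  have hinc : ∀ t w, dead' t w → dead' (t + 1) w := by
    rintro t w (h' | h' | h')
    · exact Or.inl (hB.inc t w.1 h')
    · exact Or.inr (Or.inl (hO.inc t w h'))
    · exact Or.inr (Or.inr fun h'' => h' (h''.anti σ B R (Nat.le_succ t)))
  refine ⟨Ξ2, i1, i2, nst σ1 (e v) (Lc.map e) ((univ.filter fun i => i < v).map e) O, n * (nu + n' + 1),
    (B + B' + 2) ^ 2, A * nu, dead', nst_Bd hfit1 O hB1 hF hdd hinc hO.co1, nst_On hfit1 O hOn1 hF hdd, ?_, ?_,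
    shape_of O he hsh, ?_, hdd, rfl, ?_, ?_, ?_⟩
  · -- sizes
    have hXm : (nu : ℝ) ≤ X ^ (c0 * C0) := by
      rw [pow_mul]
      exact hnu
    have hYm : (n' : ℝ) ≤ Y ^ (c0 * C0) := by
      rw [pow_mul]
      exact hn'
    have hBm : (B' : ℝ) ≤ Real.exp (Y ^ (c0 * C0)) := by
      rw [pow_mul]
      exact hB'
    set m := c0 * C0 with hm
    have hYp : 1 ≤ Y ^ m := one_le_pow₀ hY1
    have hXp : 1 ≤ X ^ m := one_le_pow₀ hX1
    have hXYm : X ^ m ≤ Y ^ m := pow_le_pow_left₀ hX0.le hXY m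
    refine ⟨?_, ?_, ?_⟩
    · push_cast
      have h1 : (nu : ℝ) + n' + 1 ≤ 3 * Y ^ m := by linarith
      have h2 : (n : ℝ) * (nu + n' + 1) ≤ Y * (3 * Y ^ m) :=
        mul_le_mul hS.n h1 (by positivity) hY0.le
      refine h2.trans ?_
      have h3 : Y * (3 * Y ^ m) = 3 * Y ^ (m + 1) := by ring
      have h4 : Y ^ (m + 3) = Y ^ 2 * Y ^ (m + 1) := by ring
      rw [h3, h4]
      exact mul_le_mul_of_nonneg_right (by nlinarith) (by positivity)
    · push_cast
      set M := Y ^ (m + 1) with hM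
      have hYM : Y ≤ M := by
        rw [hM, pow_succ]
        nlinarith
      have hmM : Y ^ m ≤ M := by
        rw [hM, pow_succ]
        nlinarith
      have h1 : (B : ℝ) + B' + 2 ≤ Real.exp (2 * M) := by
        have e1 : (B : ℝ) ≤ Real.exp M := hS.B.trans (Real.exp_le_exp.2 hYM)
        have e2 : (B' : ℝ) ≤ Real.exp M := hBm.trans (Real.exp_le_exp.2 hmM)
        have e3 : M + 1 ≤ Real.exp M := Real.add_one_le_exp M
        have e4 : Real.exp (2 * M) = Real.exp M * Real.exp M := by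
          rw [← Real.exp_add]
          congr 1
          ring
        rw [e4]
        nlinarith
      have h2 : ((B : ℝ) + B' + 2) ^ 2 ≤ Real.exp (2 * M) ^ 2 := pow_le_pow_left₀ (by positivity) h1 2
      refine h2.trans ?_
      rw [← Real.exp_nat_mul]
      refine Real.exp_le_exp.2 ?_
      have h4 : Y ^ (m + 3) = Y ^ 2 * M := by
        rw [hM]
        ring
      rw [h4]
      push_cast
      nlinarith [mul_nonneg (sub_nonneg.2 hY) (by positivity : (0 : ℝ) ≤ Y * M)]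
    · have h1 : A * nu ≤ X * X ^ m :=
        (mul_le_mul_of_nonneg_right hS.A (Nat.cast_nonneg _)).trans (mul_le_mul_of_nonneg_left hXm hX0.le)
      refine h1.trans ?_
      have h2 : X ^ (m + 3) = X ^ 2 * (X * X ^ m) := by ring
      rw [h2]
      exact le_mul_of_one_le_left (by positivity) (one_le_pow₀ hX1)
  · -- coin free lists
    intro u hua huδ
    refine nst_Free O (fun t g ξ ξ' x hx => hz u hua huδ t g _ _ x (pzAdd_eq.1 hx).1) ?_ ?_
    · rintro rfl ν
      have h1 : D.Lv.Free pz := free_cap (hz (e v) hua huδ) n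
      exact hO.freeL (fun t g ξ ξ' x hx => h1 t g _ _ x (pzAdd_eq.1 hx).1) ν
    · intro hr
      exact hO.freeN u hr
  · -- own public sets
    intro i hi hw
    have h1 : i ≠ v := by
      rintro rfl
      exact nst_wh_v O hw
    have h2 : σ.wh (e i) := hw.2
    refine ⟨hpu i hi h2, fun h' => h1 (e.injective h'), fun h' => ?_⟩
    exact (hfit.ref (e i) h').1 h2
  · -- the lists of the hidden vertex
    show (if a = e v ∨ a ∈ (univ.filter fun i => i < v).map e then (σ1.Lam a).exc (Bs O a) else σ1.Lam a) = _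
    rw [if_neg (not_or.2 ⟨hfit.av, hfit.aR⟩)]
    rfl
  · -- closeness
    intro t ht1 ht w hw
    have hw1 : ¬ dead t w.1 := fun h' => hw (Or.inl h')
    have hwR : ¬ deadR t w := fun h' => hw (Or.inr (Or.inl h'))
    have hwG : Good σ B R t w.1 := not_not.1 fun h' => hw (Or.inr (Or.inr h'))
    have e1 : σ.T t w.1 = σ1.T t w := (ex.st_T σ t w).symm
    have e2 := NSt.T_eq hfit1 t w
    have e3 := nst_T hfit1 O ((hF t ht w hw).pt0 (hB1.inj t ht w hw1 (e v) hfit.av.symm))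
    rw [e1, e2, e3, ← sum_sub_distrib]
    have h1 : ∀ ζ ∈ σ1.Z.at' t w, ∀ ν ∈ σ1.fams t w,
        |σ1.cf t w ζ ν * σ1.tm (e v) (Lc.map e) ((univ.filter fun i => i < v).map e) ζ ν
            (fun d => (σ1.tgt (e v) (tg.map e)).at' (ν (e v)) t w d) t w -
          σ1.cf t w ζ ν * σ1.tm (e v) (Lc.map e) ((univ.filter fun i => i < v).map e) ζ ν
            (fun d => apr σ1 (e v) (Lc.map e) ((univ.filter fun i => i < v).map e) O (ν (e v)) t w d) t w| ≤
          |σ1.cf t w ζ ν| * (q / X) := by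
      intro ζ hζ ν hν
      rw [← mul_sub, abs_mul]
      refine mul_le_mul_of_nonneg_left ?_ (abs_nonneg _)
      have hζ' : ζ ∈ σ.Z.at' t w.1 := by
        have h2 : σ1.Z.at' t w = σ.Z.at' t w.1 := ex.st_Z σ t w
        rw [← h2]
        exact hζ
      have hν' : ν ∈ σ.fams t w.1 := by
        have h2 : σ1.fams t w = σ.fams t w.1 := ex.st_fams σ t w
        rw [← h2]
        exact hν
      obtain ⟨z, hz1⟩ := term_dat hfit hz hB ht hw1 (fun l hl hwl => by
        obtain ⟨i, h2, rfl⟩ := mem_map.1 hl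
        refine hpu i ?_ hwl
        have h3 : (v : ℕ) < i := hok.gt i h2
        rcases Nat.lt_or_ge 1 (i : ℕ) with h4 | h4
        · exact h4
        · exfalso
          have h5 : (i : ℕ) = 1 := by omega
          refine hok.one i h2 h5 ?_
          have h6 := (hsh (e i) ((he _).2 ⟨i, rfl⟩)).1.1 hwl
          rw [shp_apply] at h6
          simpa using h6) hBR hR1 hwG hζ' hν'
      have hνv : ν (e v) ∈ σ1.lists t w (e v) := by
        have h2 := (Fintype.mem_piFinset.1 hν) (e v)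
        rwa [if_neg hfit.av.symm] at h2
      have h2 := hO.close t ht1 ht w hwR z (ν (e v)) (hLv ht hw _ hνv) (fun u => σ.tr u (e v) (ν u)) (by
        intro u hu
        have hua : u ≠ a := fun h' => hfit.aR (h' ▸ hu)
        have e4 : ((D.add Ξ2).Lr u).at' t w = (D.Lr u).at' t w.1 := ex.lst_at (D.Lr u) t w
        rw [e4, dat_Lr hfit hz hB ht hw1 hu]
        refine mem_image_of_mem _ ?_
        have h3 := (Fintype.mem_piFinset.1 hν') u
        rwa [if_neg hua] at h3)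
      have e5 : formTerm (D.add Ξ2) z (fun u => σ.tr u (e v) (ν u)) (fun d =>
          (D.add Ξ2).Tg.at' (ν (e v)) t w d - appr (D.add Ξ2) O (ν (e v)) t w d) t w =
          σ1.tm (e v) (Lc.map e) ((univ.filter fun i => i < v).map e) ζ ν (fun d =>
            (σ1.tgt (e v) (tg.map e)).at' (ν (e v)) t w d -
              apr σ1 (e v) (Lc.map e) ((univ.filter fun i => i < v).map e) O (ν (e v)) t w d) t w := by
        have e6 := formTerm_up ex D (pzAdd D.pz Ξ2) (fun _ _ h => (pzAdd_eq.1 h).1) z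
          (fun u => σ.tr u (e v) (ν u)) (fun d =>
          (D.add Ξ2).Tg.at' (ν (e v)) t w d - appr (D.add Ξ2) O (ν (e v)) t w d) t w
        refine e6.trans ((hz1 _).trans ?_)
        have e7 := st_tm ex σ (e v) (Lc.map e) ((univ.filter fun i => i < v).map e) ζ ν (fun d =>
            (σ1.tgt (e v) (tg.map e)).at' (ν (e v)) t w d -
              apr σ1 (e v) (Lc.map e) ((univ.filter fun i => i < v).map e) O (ν (e v)) t w d) t w
        refine Eq.trans ?_ e7.symm
        congr 1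
        funext d
        have e8 : (D.add Ξ2).Tg.at' (ν (e v)) t w d = (σ1.tgt (e v) (tg.map e)).at' (ν (e v)) t w d :=
          (st_tgt ex σ (e v) (tg.map e) (ν (e v)) t w d).symm
        have e9 : appr (D.add Ξ2) O (ν (e v)) t w d =
            apr σ1 (e v) (Lc.map e) ((univ.filter fun i => i < v).map e) O (ν (e v)) t w d :=
          appr_eq (D.add Ξ2) O σ1 (fun _ _ _ _ _ _ => rfl) _ t w d
        rw [e8, e9]
      refine le_trans (le_of_eq ?_) ((congrArg abs e5).symm.le.trans h2)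
      congr 1
      unfold NSt.tm iw
      rw [← sum_sub_distrib]
      refine sum_congr rfl fun d _ => ?_
      ring
    calc |∑ ζ ∈ σ1.Z.at' t w, _| ≤ ∑ ζ ∈ σ1.Z.at' t w, ∑ ν ∈ σ1.fams t w, |σ1.cf t w ζ ν| * (q / X) := by
          refine (abs_sum_le_sum_abs _ _).trans (sum_le_sum fun ζ hζ => ?_)
          rw [← sum_sub_distrib]
          exact (abs_sum_le_sum_abs _ _).trans (sum_le_sum fun ν hν => h1 ζ hζ ν hν)
      _ = (∑ ζ ∈ σ1.Z.at' t w, ∑ ν ∈ σ1.fams t w, |σ1.cf t w ζ ν|) * (q / X) := by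
          rw [sum_mul]
          exact sum_congr rfl fun ζ _ => (sum_mul _ _ _).symm
      _ ≤ X * (q / X) := mul_le_mul_of_nonneg_right ((hB1.sum t ht w hw1).trans hS.A) (by positivity)
      _ = q := by field_simp
  · -- probability
    have h1 : (coinFP S.P Ξ2).Pr (dead' S.n) ≤ (coinFP S.P Ξ2).Pr (fun w => dead S.n w.1) +
        ((coinFP S.P Ξ2).Pr (deadR S.n) + (coinFP S.P Ξ2).Pr (fun w => ¬ Good σ B R S.n w.1)) := by
      refine (FP.Pr_or_le _ _ _).trans ?_
      gcongr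
      exact FP.Pr_or_le _ _ _
    have h2 : (coinFP S.P Ξ2).Pr (fun w => dead S.n w.1) = S.P.Pr (dead S.n) := coinFP_Pr_fst S.P Ξ2 _
    have h3 : (coinFP S.P Ξ2).Pr (fun w => ¬ Good σ B R S.n w.1) = S.P.Pr (fun w => ¬ Good σ B R S.n w) :=
      coinFP_Pr_fst S.P Ξ2 (fun w => ¬ Good σ B R S.n w)
    have h4 := Pr_bad (σ := σ) (B := B) (R := R) S.n hR1
    have h5 := rnk_Pr (N := N) hX hXY (le_trans zero_le_one S.K1) (G.K_le S X Y _ hX hG) hS.B hq
    have h6 : (coinFP S.P Ξ2).Pr (deadR S.n) ≤ q / 2 := hO.small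
    rw [h2, h3] at h1
    have h7 := h4.trans h5
    linarith

/-- **ONE STEP OF THE NAMES FROM THE RULE** -/
theorem step_of_rule {k : ℕ} (e : Fin k ↪ ι) (he : ∀ u, u ≠ a ↔ ∃ i, e i = u) {G : SysCls ι} (hR : RuleStmt G) :
    StepStmt a e G := by
  obtain ⟨C0, hR⟩ := hR
  refine ⟨stepC (Fintype.card ι) C0, ?_⟩
  intro Om Ξ Pt V Γ κ _ _ _ _ S X Y q hX hXY hYX hq hq1 hG pz δ σ n B A dead hB hOn hS hz W v Lc tg hok hsh hpu
  obtain ⟨Ξ2, i1, i2, σ', n', B', A', dead', h1, h2, h3, h4, h5, h6, h7, h8, -, h9, h10⟩ :=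
    stepAt_of_rule e he hR Om Ξ Pt V Γ κ S X Y q hX hXY hYX hq hq1 hG pz δ σ n B A dead hB hOn hS hz W v Lc tg hok hsh hpu
  exact ⟨Ξ2, i1, i2, σ', n', B', A', dead', h1, h2, h3, h4, h5, h6, h7, h8, h9, h10⟩

end

end Pool.Agent.GMN.SC
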