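import Pool.Agent.GMN.JRv
import Pool.Agent.M3.Indep

/-!
# GMN.Coins (row N): dyadic coins

`Pos` = positions of the coins, sample space `Pos → Fin (2 ^ g)` with the uniform law; `lvl g a` = level of a coin, `P(lvl = k)` is
`(1/2)^(k+1)` for `k < g` and `(1/2)^g` for `k = g`.

* `indep_set` : the coins at the positions of `J` and a function which does not depend on them;
* `hco` : the hypothesis on the coins of `jr_v`, `hco_one` : the one of `jr_one`;
* `Pr_rec_le` : `P(all names of J are recorded) ≤ ∏ y_x` if `x` is recorded iff `(1/2) ^ level ≤ y_x`.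
-/

set_option autoImplicit false
set_option linter.unusedSectionVars false

namespace Pool.Agent.GMN

open Finset Pool.Agent.PWZ Pool.Agent.M3

noncomputable section

section gen

variable {Pos A X : Type*} [Fintype Pos] [DecidableEq Pos] [Fintype A] [Nonempty A] [DecidableEq X]

/-- resampling of one coordinate, an involution -/
def upd (i : Pos) : (Pos → A) × A ≃ (Pos → A) × A where
  toFun z := (Function.update z.1 i z.2, z.1 i)
  invFun z := (Function.update z.1 i z.2, z.1 i)
  left_inv z := by
    refine Prod.ext ?_ ?_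
    · show Function.update (Function.update z.1 i z.2) i (z.1 i) = z.1
      rw [Function.update_idem, Function.update_eq_self]
    · show Function.update z.1 i z.2 i = z.2
      rw [Function.update_self]
  right_inv z := by
    refine Prod.ext ?_ ?_
    · show Function.update (Function.update z.1 i z.2) i (z.1 i) = z.1
      rw [Function.update_idem, Function.update_eq_self]
    · show Function.update z.1 i z.2 i = z.2
      rw [Function.update_self]

/-- mean of a function of one coin -/
def mA (u : A → ℝ) : ℝ := (∑ a, u a) / Fintype.card A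

theorem one_coord (i : Pos) (u : A → ℝ) {h : (Pos → A) → ℝ} (hh : ∀ c a, h (Function.update c i a) = h c) :
    (FP.unif (Pos → A)).E (fun c => u (c i) * h c) = mA u * (FP.unif (Pos → A)).E h := by
  have hA : (Fintype.card A : ℝ) ≠ 0 := Nat.cast_ne_zero.mpr Fintype.card_ne_zero
  rw [FP.unif_E, FP.unif_E]
  unfold mA
  have key : (∑ c : Pos → A, u (c i) * h c) * Fintype.card A = (∑ a, u a) * ∑ c, h c := by
    have e1 : (∑ c : Pos → A, u (c i) * h c) * Fintype.card A = ∑ z : (Pos → A) × A, u (z.1 i) * h z.1 := by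
      rw [Fintype.sum_prod_type, Finset.sum_mul]
      refine Finset.sum_congr rfl fun c _ => ?_
      show u (c i) * h c * (Fintype.card A : ℝ) = ∑ _y : A, u (c i) * h c
      rw [Finset.sum_const, Finset.card_univ, nsmul_eq_mul]
      ring
    have e2 : (∑ a, u a) * ∑ c : Pos → A, h c = ∑ z : (Pos → A) × A, u z.2 * h z.1 := by
      rw [Fintype.sum_prod_type, Finset.sum_mul_sum, Finset.sum_comm]
    rw [e1, e2, ← Equiv.sum_comp (upd i)]
    refine Finset.sum_congr rfl fun z _ => ?_
    show u (Function.update z.1 i z.2 i) * h (Function.update z.1 i z.2) = u z.2 * h z.1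
    rw [Function.update_self, hh]
  rw [div_mul_div_comm, ← key, mul_comm (Fintype.card A : ℝ), mul_div_mul_right _ _ hA]

/-- coins at different positions and a function which does not depend on them -/
theorem indep_set {pos : X → Pos} (hinj : Function.Injective pos) (u : X → A → ℝ) (J : Finset X) :
    ∀ {h : (Pos → A) → ℝ}, (∀ x ∈ J, ∀ c a, h (Function.update c (pos x) a) = h c) →
    (FP.unif (Pos → A)).E (fun c => (∏ x ∈ J, u x (c (pos x))) * h c) =
      (∏ x ∈ J, mA (u x)) * (FP.unif (Pos → A)).E h := by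
  induction J using Finset.induction_on with
  | empty =>
    intro h _
    simp
  | insert y J hy ih =>
    intro h hh
    have e1 : (FP.unif (Pos → A)).E (fun c => (∏ x ∈ insert y J, u x (c (pos x))) * h c) =
        (FP.unif (Pos → A)).E (fun c => u y (c (pos y)) * ((∏ x ∈ J, u x (c (pos x))) * h c)) := by
      refine FP.E_congr _ fun c _ => ?_
      rw [Finset.prod_insert hy]; ring
    rw [e1, one_coord (pos y) (u y), ih fun x hx => hh x (mem_insert_of_mem hx), Finset.prod_insert hy, mul_assoc]
    intro c a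
    rw [hh y (mem_insert_self _ _) c a]
    congr 1
    refine Finset.prod_congr rfl fun x hx => ?_
    rw [Function.update_of_ne]
    intro e
    exact hy (by rwa [← hinj e])

end gen

/-! ### dyadic levels -/

/-- level of a coin -/
def lvl (g : ℕ) (a : Fin (2 ^ g)) : ℕ := g - Nat.size a.1

theorem size_le (g : ℕ) (a : Fin (2 ^ g)) : Nat.size a.1 ≤ g := Nat.size_le.2 a.2

theorem lvl_le (g : ℕ) (a : Fin (2 ^ g)) : lvl g a ≤ g := Nat.sub_le _ _

theorem le_lvl {g k : ℕ} (hk : k ≤ g) (a : Fin (2 ^ g)) : k ≤ lvl g a ↔ a.1 < 2 ^ (g - k) := by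
  have := size_le g a
  unfold lvl
  rw [← Nat.size_le]
  omega

theorem card_lt {g n : ℕ} (hn : n ≤ g) : ((univ : Finset (Fin (2 ^ g))).filter fun a => a.1 < 2 ^ n).card = 2 ^ n := by
  have h2 : 2 ^ n ≤ 2 ^ g := Nat.pow_le_pow_right (by norm_num) hn
  have e : ((univ : Finset (Fin (2 ^ g))).filter fun a => a.1 < 2 ^ n) =
      (univ : Finset (Fin (2 ^ n))).map (Fin.castLEEmb h2) := by
    ext a
    simp only [mem_filter, mem_univ, true_and, mem_map]
    constructor
    · intro ha
      exact ⟨⟨a.1, ha⟩, Fin.ext rfl⟩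
    · rintro ⟨b, rfl⟩
      exact b.2
  rw [e, Finset.card_map, Finset.card_univ, Fintype.card_fin]

theorem mA_ge {g k : ℕ} (hk : k ≤ g) : mA (fun a : Fin (2 ^ g) => ind (k ≤ lvl g a)) = (1 / 2 : ℝ) ^ k := by
  have h1 : ∑ a : Fin (2 ^ g), ind (k ≤ lvl g a) = ((2 ^ (g - k) : ℕ) : ℝ) := by
    rw [← card_lt (show g - k ≤ g by omega)]
    rw [Finset.card_filter]
    push_cast
    refine Finset.sum_congr rfl fun a _ => ?_
    by_cases h : a.1 < 2 ^ (g - k)
    · rw [if_pos h, ind_of ((le_lvl hk a).2 h)]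
    · rw [if_neg h, ind_not fun hh => h ((le_lvl hk a).1 hh)]
  unfold mA
  rw [h1, Fintype.card_fin]
  push_cast
  have h2 : (2 : ℝ) ^ g = 2 ^ (g - k) * 2 ^ k := by rw [← pow_add]; congr 1; omega
  rw [h2, one_div, inv_pow, div_mul_eq_div_div, div_self (by positivity), one_div]

theorem mA_eq {g k : ℕ} (hk : k ≤ g) : (1 / 2 : ℝ) ^ (k + 1) ≤ mA (fun a : Fin (2 ^ g) => ind (lvl g a = k)) := by
  rcases Nat.lt_or_ge k g with h | h
  · have h1 : mA (fun a : Fin (2 ^ g) => ind (lvl g a = k)) =
        mA (fun a : Fin (2 ^ g) => ind (k ≤ lvl g a)) - mA (fun a : Fin (2 ^ g) => ind (k + 1 ≤ lvl g a)) := by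
      unfold mA
      rw [← sub_div, ← Finset.sum_sub_distrib]
      congr 1
      refine Finset.sum_congr rfl fun a _ => ?_
      show ind (lvl g a = k) = ind (k ≤ lvl g a) - ind (k + 1 ≤ lvl g a)
      by_cases h2 : k + 1 ≤ lvl g a
      · rw [ind_of h2, ind_of (show k ≤ lvl g a by omega), ind_not (show ¬ lvl g a = k by omega)]; norm_num
      · by_cases h3 : k ≤ lvl g a
        · rw [ind_of h3, ind_not h2, ind_of (show lvl g a = k by omega)]; norm_num
        · rw [ind_not h3, ind_not h2, ind_not (show ¬ lvl g a = k by omega)]; norm_num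
    rw [h1, mA_ge hk, mA_ge (show k + 1 ≤ g by omega)]
    apply le_of_eq
    rw [pow_succ]; ring
  · have e : k = g := le_antisymm hk h
    subst e
    have h1 : mA (fun a : Fin (2 ^ k) => ind (lvl k a = k)) = mA (fun a : Fin (2 ^ k) => ind (k ≤ lvl k a)) := by
      unfold mA
      congr 1
      refine Finset.sum_congr rfl fun a _ => ?_
      have := lvl_le k a
      show ind (lvl k a = k) = ind (k ≤ lvl k a)
      by_cases h2 : k ≤ lvl k a
      · rw [ind_of h2, ind_of (show lvl k a = k by omega)]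
      · rw [ind_not h2, ind_not (show ¬ lvl k a = k by omega)]
    rw [h1, mA_ge le_rfl]
    exact pow_le_pow_of_le_one (by norm_num) (by norm_num) (Nat.le_succ k)

/-- a name with scale `y` is recorded with probability at most `y` -/
theorem mA_rec {g : ℕ} {y : ℝ} (hy : 0 ≤ y) : mA (fun a : Fin (2 ^ g) => ind ((1 / 2 : ℝ) ^ (lvl g a) ≤ y)) ≤ y := by
  classical
  by_cases hg : (1 / 2 : ℝ) ^ g ≤ y
  · have hex : ∃ k, (1 / 2 : ℝ) ^ k ≤ y := ⟨g, hg⟩
    set k := Nat.find hex with hk
    have hk1 : (1 / 2 : ℝ) ^ k ≤ y := Nat.find_spec hex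
    have hkg : k ≤ g := Nat.find_min' hex hg
    refine le_trans ?_ hk1
    rw [← mA_ge hkg]
    unfold mA
    refine div_le_div_of_nonneg_right (Finset.sum_le_sum fun a _ => ?_) (Nat.cast_nonneg _)
    by_cases h : (1 / 2 : ℝ) ^ (lvl g a) ≤ y
    · rw [ind_of h, ind_of (Nat.find_min' hex h)]
    · rw [ind_not h]; exact ind_nonneg _
  · refine le_trans (le_of_eq ?_) hy
    unfold mA
    rw [Finset.sum_eq_zero, zero_div]
    intro a _
    apply ind_not
    intro h
    apply hg
    exact le_trans (pow_le_pow_of_le_one (by norm_num) (by norm_num) (lvl_le g a)) h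

section coins

variable {Pos X : Type*} [Fintype Pos] [DecidableEq Pos] [Fintype X] [DecidableEq X] {g : ℕ}

/-- the coin of a name -/
def co (g : ℕ) (pos : X → Pos) (x : X) (c : Pos → Fin (2 ^ g)) : ℕ := lvl g (c (pos x))

theorem prod_ind {α : Type*} (J : Finset α) (s : α → Prop) : ∏ x ∈ J, ind (s x) = ind (∀ x ∈ J, s x) := by
  classical
  by_cases h : ∀ x ∈ J, s x
  · rw [ind_of h]
    exact Finset.prod_eq_one fun x hx => ind_of (h x hx)
  · rw [ind_not h]
    push Not at h
    obtain ⟨x, hx, hn⟩ := h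
    exact Finset.prod_eq_zero hx (ind_not hn)

/-- THE HYPOTHESIS OF `jr_v` ON THE COINS -/
theorem hco {pos : X → Pos} (hinj : Function.Injective pos) (J : Finset X) (k : X → ℕ) (hk : k ∈ JRV.lev g J)
    (F : (X → ℕ) → ℝ) (hF : ∀ f, 0 ≤ F f) :
    (∏ x ∈ J, (1 / 2 : ℝ) ^ (k x + 1)) *
        (FP.unif (Pos → Fin (2 ^ g))).E (fun c => F (f0 (fun m => co g pos m c) J)) ≤
      (FP.unif (Pos → Fin (2 ^ g))).E (fun c => ind (∀ x ∈ J, co g pos x c = k x) *
        F (f0 (fun m => co g pos m c) J)) := by
  have hk' := (JRV.mem_lev.1 hk).1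
  have h1 := indep_set (Pos := Pos) (A := Fin (2 ^ g)) hinj (fun x a => ind (lvl g a = k x)) J
    (h := fun c => F (f0 (fun m => co g pos m c) J)) (fun x hx c a => by
      show F (f0 (fun m => lvl g (Function.update c (pos x) a (pos m))) J) = F (f0 (fun m => lvl g (c (pos m))) J)
      congr 1
      funext m
      unfold f0
      by_cases hm : m ∈ J
      · rw [if_pos hm, if_pos hm]
      · rw [if_neg hm, if_neg hm]
        show lvl g (Function.update c (pos x) a (pos m)) = lvl g (c (pos m))
        rw [Function.update_of_ne]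
        intro e
        exact hm (by rw [hinj e]; exact hx))
  have h2 : (FP.unif (Pos → Fin (2 ^ g))).E (fun c => ind (∀ x ∈ J, co g pos x c = k x) *
        F (f0 (fun m => co g pos m c) J)) =
      (FP.unif (Pos → Fin (2 ^ g))).E (fun c => (∏ x ∈ J, ind (lvl g (c (pos x)) = k x)) *
        F (f0 (fun m => co g pos m c) J)) := by
    refine FP.E_congr _ fun c _ => ?_
    rw [prod_ind]
    rfl
  rw [h2]
  have h1' : (FP.unif (Pos → Fin (2 ^ g))).E (fun c => (∏ x ∈ J, ind (lvl g (c (pos x)) = k x)) *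
        F (f0 (fun m => co g pos m c) J)) = _ := h1
  rw [h1']
  refine mul_le_mul_of_nonneg_right ?_ (FP.E_nonneg _ fun c _ => hF _)
  exact Finset.prod_le_prod (fun x _ => by positivity) fun x hx => mA_eq (mem_Icc.1 (hk' x hx)).2

/-- the hypothesis of `jr_one` on the coins -/
theorem hco_one {pos : X → Pos} (hinj : Function.Injective pos) (n : X) (k : ℕ) (hk : k ∈ Icc 1 g)
    (F : (X → ℕ) → ℝ) (hF : ∀ f, 0 ≤ F f) :
    (1 / 2 : ℝ) ^ (k + 1) *
        (FP.unif (Pos → Fin (2 ^ g))).E (fun c => F (Function.update (fun m => co g pos m c) n 0)) ≤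
      (FP.unif (Pos → Fin (2 ^ g))).E (fun c => ind (co g pos n c = k) *
        F (Function.update (fun m => co g pos m c) n 0)) := by
  have h := hco (g := g) hinj {n} (fun x => if x = n then k else 0) (JRV.mem_lev.2 ⟨fun x hx => by
    rw [mem_singleton] at hx; subst hx; rw [if_pos rfl]; exact hk, fun x hx => by
    rw [mem_singleton] at hx; exact if_neg hx⟩) F hF
  have e : ∀ c : Pos → Fin (2 ^ g), f0 (fun m => co g pos m c) {n} =
      Function.update (fun m => co g pos m c) n 0 := by
    intro c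
    funext m
    unfold f0
    by_cases hm : m = n
    · subst hm
      rw [if_pos (mem_singleton_self _), Function.update_self]
    · rw [if_neg (by rw [mem_singleton]; exact hm), Function.update_of_ne hm]
  simp only [e, Finset.prod_singleton, if_true] at h
  refine h.trans (le_of_eq ?_)
  refine FP.E_congr _ fun c _ => ?_
  have : (∀ x ∈ ({n} : Finset X), co g pos x c = if x = n then k else 0) ↔ co g pos n c = k := by
    constructor
    · intro hh
      have := hh n (mem_singleton_self _)
      rwa [if_pos rfl] at this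
    · intro hh x hx
      rw [mem_singleton] at hx
      subst hx
      rw [if_pos rfl]; exact hh
  simp only [this]

/-- all names of `J` are recorded -/
theorem Pr_rec_le {pos : X → Pos} (hinj : Function.Injective pos) (J : Finset X) {y : X → ℝ} (hy : ∀ x, 0 ≤ y x) :
    (FP.unif (Pos → Fin (2 ^ g))).Pr (fun c => ∀ x ∈ J, (1 / 2 : ℝ) ^ (co g pos x c) ≤ y x) ≤ ∏ x ∈ J, y x := by
  have h1 := indep_set (Pos := Pos) (A := Fin (2 ^ g)) hinj (fun x a => ind ((1 / 2 : ℝ) ^ (lvl g a) ≤ y x)) J
    (h := fun _ => 1) (fun x hx c a => rfl)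
  have h2 : (FP.unif (Pos → Fin (2 ^ g))).Pr (fun c => ∀ x ∈ J, (1 / 2 : ℝ) ^ (co g pos x c) ≤ y x) =
      (FP.unif (Pos → Fin (2 ^ g))).E (fun c => (∏ x ∈ J, ind ((1 / 2 : ℝ) ^ (lvl g (c (pos x))) ≤ y x)) * 1) := by
    unfold FP.Pr
    refine FP.E_congr _ fun c _ => ?_
    rw [prod_ind, mul_one]
    rfl
  rw [h2, h1, FP.E_const, mul_one]
  refine Finset.prod_le_prod (fun x _ => ?_) fun x _ => mA_rec (hy x)
  unfold mA
  exact div_nonneg (Finset.sum_nonneg fun _ _ => ind_nonneg _) (Nat.cast_nonneg _)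

end coins

end

end Pool.Agent.GMN
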