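import Pool.Agent.GMN.StepDef

/-!
# GMN/DeadS (helper58): sizes and dead sets of a step (row N)

* `Pr_nat_gt` : Markov for natural numbers: `E f ≤ c`, `c / q ≤ N` give `P(N < f) ≤ q`; `E_nat_le`;
* `Pr_big` : a growing family of finite sets: `P(∃ t ≤ n, N < card) ≤ q` from the mean at the last time;
  `Lst.Pr_big`, `PSt.Pr_big`, `BSt.Pr_big`; `Pr_big_fam` : finitely many families at once;
* `ev bad t w` : `∃ s ≤ t, bad s w`; `ev_inc`, `not_ev`, `Pr_ev_grow` (growing events), `Pr_ev_le` (union bound in time);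
* `orD`, `exD` : union of two, of finitely many dead sets: `inc`, probability, negation;
* `Pr_E_sum_gt` : `P(∃ i, s i ∧ N < f i)` from `∑ E(1_s f)`.
-/

set_option autoImplicit false
set_option linter.unusedSectionVars false

namespace Pool.Agent.GMN

open Finset Pool.Agent.PWZ Pool.Agent.M3 Pool.Agent.M3.TS Pool.Agent.GM

noncomputable section

/-! ### Markov -/

section mk

variable {Om : Type*} [Fintype Om] (P : FP Om)

/-- Markov for natural numbers -/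
theorem Pr_nat_gt {f : Om → ℕ} {c q : ℝ} (hc : P.E (fun w => (f w : ℝ)) ≤ c) (hq : 0 < q) {N : ℕ} (hN : c / q ≤ N) :
    P.Pr (fun w => N < f w) ≤ q := by
  have h1 := P.markov (f := fun w => (f w : ℝ)) (fun w _ => Nat.cast_nonneg _) ((N : ℝ) + 1)
  have h2 : P.Pr (fun w => N < f w) = P.Pr (fun w => (N : ℝ) + 1 ≤ (f w : ℝ)) := by
    congr 1
    funext w
    exact propext ⟨fun h => by exact_mod_cast h, fun h => by exact_mod_cast h⟩
  have h3 : c ≤ q * N := by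
    rw [div_le_iff₀ hq] at hN
    linarith [mul_comm q (N : ℝ)]
  have h4 : ((N : ℝ) + 1) * P.Pr (fun w => N < f w) ≤ ((N : ℝ) + 1) * q := by
    rw [h2]
    nlinarith
  exact le_of_mul_le_mul_left h4 (by positivity)

/-- a sum over an index set: `P(some i with s i has N < f i)` -/
theorem Pr_fam_gt {α : Type*} (I : Finset α) {s : α → Om → Prop} {f : α → Om → ℕ} {c q : ℝ}
    (hc : ∑ i ∈ I, P.E (fun w => ind (s i w) * (f i w : ℝ)) ≤ c) (hq : 0 < q) {N : ℕ} (hN : c / q ≤ N) :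
    P.Pr (fun w => ∃ i ∈ I, s i w ∧ N < f i w) ≤ q := by
  have h0 : P.E (fun w => ∑ i ∈ I, ind (s i w) * (f i w : ℝ)) ≤ c := by
    rw [P.E_sum]
    exact hc
  have h1 := P.markov (f := fun w => ∑ i ∈ I, ind (s i w) * (f i w : ℝ))
    (fun w _ => Finset.sum_nonneg fun i _ => mul_nonneg (ind_nonneg _) (Nat.cast_nonneg _)) ((N : ℝ) + 1)
  have h2 : P.Pr (fun w => ∃ i ∈ I, s i w ∧ N < f i w) ≤
      P.Pr (fun w => (N : ℝ) + 1 ≤ ∑ i ∈ I, ind (s i w) * (f i w : ℝ)) := by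
    refine P.Pr_mono fun w _ h => ?_
    obtain ⟨i, hi, hs, hf⟩ := h
    have h3 : (N : ℝ) + 1 ≤ (f i w : ℝ) := by exact_mod_cast hf
    refine h3.trans ?_
    have h4 := Finset.single_le_sum (f := fun i => ind (s i w) * (f i w : ℝ))
      (fun i _ => mul_nonneg (ind_nonneg _) (Nat.cast_nonneg _)) hi
    refine le_trans (le_of_eq ?_) h4
    show (f i w : ℝ) = ind (s i w) * (f i w : ℝ)
    rw [ind_of hs, one_mul]
  have h3 : c ≤ q * N := by
    rw [div_le_iff₀ hq] at hN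
    linarith [mul_comm q (N : ℝ)]
  have h4 : ((N : ℝ) + 1) * P.Pr (fun w => ∃ i ∈ I, s i w ∧ N < f i w) ≤ ((N : ℝ) + 1) * q := by
    have h5 := mul_le_mul_of_nonneg_left h2 (by positivity : (0 : ℝ) ≤ (N : ℝ) + 1)
    nlinarith
  exact le_of_mul_le_mul_left h4 (by positivity)

/-- growing families of finite sets -/
theorem Pr_big {β : Type*} {F : ℕ → Om → Finset β} (hF : ∀ t w, F t w ⊆ F (t + 1) w) {n : ℕ} {c q : ℝ}
    (hc : P.E (fun w => ((F n w).card : ℝ)) ≤ c) (hq : 0 < q) {N : ℕ} (hN : c / q ≤ N) :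
    P.Pr (fun w => ∃ t ≤ n, N < (F t w).card) ≤ q := by
  have hle : ∀ {t s : ℕ}, t ≤ s → ∀ w, F t w ⊆ F s w := by
    intro t s hts w
    induction hts with
    | refl => exact subset_rfl
    | step _ ih => exact ih.trans (hF _ w)
  refine (P.Pr_mono fun w _ h => ?_).trans (Pr_nat_gt P hc hq hN)
  obtain ⟨t, ht, h1⟩ := h
  exact h1.trans_le (Finset.card_le_card (hle ht w))

/-- the same for finitely many families, together with growing events -/
theorem Pr_big_fam {α β : Type*} (I : Finset α) {s : α → ℕ → Om → Prop} {F : α → ℕ → Om → Finset β}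
    (hs : ∀ i t w, s i t w → s i (t + 1) w) (hF : ∀ i t w, F i t w ⊆ F i (t + 1) w) {n : ℕ} {c q : ℝ}
    (hc : ∑ i ∈ I, P.E (fun w => ind (s i n w) * ((F i n w).card : ℝ)) ≤ c) (hq : 0 < q) {N : ℕ} (hN : c / q ≤ N) :
    P.Pr (fun w => ∃ t ≤ n, ∃ i ∈ I, s i t w ∧ N < (F i t w).card) ≤ q := by
  have hle : ∀ i, ∀ {t s : ℕ}, t ≤ s → ∀ w, F i t w ⊆ F i s w := by
    intro i t s hts w
    induction hts with
    | refl => exact subset_rfl
    | step _ ih => exact ih.trans (hF i _ w)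
  have hsl : ∀ i, ∀ {t u : ℕ}, t ≤ u → ∀ w, s i t w → s i u w := by
    intro i t u htu w h
    induction htu with
    | refl => exact h
    | step _ ih => exact hs i _ w ih
  refine (P.Pr_mono fun w _ h => ?_).trans (Pr_fam_gt P I hc hq hN)
  obtain ⟨t, ht, i, hi, h1, h2⟩ := h
  exact ⟨i, hi, hsl i ht w h1, h2.trans_le (Finset.card_le_card (hle i ht w))⟩

end mk

/-! ### dead sets -/

section dd

variable {Om : Type*} [Fintype Om] (P : FP Om)

/-- some bad event has happened -/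
def ev (bad : ℕ → Om → Prop) (t : ℕ) (w : Om) : Prop := ∃ s ≤ t, bad s w

theorem ev_inc {bad : ℕ → Om → Prop} {t : ℕ} {w : Om} (h : ev bad t w) : ev bad (t + 1) w := by
  obtain ⟨s, hs, h1⟩ := h
  exact ⟨s, hs.trans (Nat.le_succ t), h1⟩

theorem ev_le {bad : ℕ → Om → Prop} {s t : ℕ} (hst : s ≤ t) {w : Om} (h : ev bad s w) : ev bad t w := by
  obtain ⟨u, hu, h1⟩ := h
  exact ⟨u, hu.trans hst, h1⟩

theorem not_ev {bad : ℕ → Om → Prop} {t : ℕ} {w : Om} (h : ¬ ev bad t w) {s : ℕ} (hs : s ≤ t) : ¬ bad s w :=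
  fun h1 => h ⟨s, hs, h1⟩

theorem Pr_ev_grow {bad : ℕ → Om → Prop} (hb : ∀ t w, bad t w → bad (t + 1) w) (n : ℕ) :
    P.Pr (ev bad n) ≤ P.Pr (bad n) := by
  refine P.Pr_mono fun w _ h => ?_
  obtain ⟨s, hs, h1⟩ := h
  induction hs with
  | refl => exact h1
  | step _ ih => exact hb _ w ih

theorem Pr_ev_le (bad : ℕ → Om → Prop) (n : ℕ) : P.Pr (ev bad n) ≤ ∑ t ∈ range (n + 1), P.Pr (bad t) := by
  refine le_trans (P.Pr_mono fun w _ h => ?_) (P.Pr_ex_le (range (n + 1)) bad)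
  obtain ⟨s, hs, h1⟩ := h
  exact ⟨s, Finset.mem_range.2 (by omega), h1⟩

/-- union of two dead sets -/
def orD (d d' : ℕ → Om → Prop) (t : ℕ) (w : Om) : Prop := d t w ∨ d' t w

theorem orD_inc {d d' : ℕ → Om → Prop} (h : ∀ t w, d t w → d (t + 1) w) (h' : ∀ t w, d' t w → d' (t + 1) w) (t : ℕ) (w : Om)
    (hd : orD d d' t w) : orD d d' (t + 1) w := hd.imp (h t w) (h' t w)

theorem Pr_orD {d d' : ℕ → Om → Prop} {n : ℕ} {q q' : ℝ} (h : P.Pr (d n) ≤ q) (h' : P.Pr (d' n) ≤ q') :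
    P.Pr (orD d d' n) ≤ q + q' := (P.Pr_or_le (d n) (d' n)).trans (add_le_add h h')

theorem not_orD {d d' : ℕ → Om → Prop} {t : ℕ} {w : Om} : ¬ orD d d' t w ↔ ¬ d t w ∧ ¬ d' t w := not_or

/-- union of finitely many dead sets -/
def exD {α : Type*} (I : Finset α) (d : α → ℕ → Om → Prop) (t : ℕ) (w : Om) : Prop := ∃ i ∈ I, d i t w

theorem exD_inc {α : Type*} {I : Finset α} {d : α → ℕ → Om → Prop} (h : ∀ i ∈ I, ∀ t w, d i t w → d i (t + 1) w) (t : ℕ)
    (w : Om) (hd : exD I d t w) : exD I d (t + 1) w := by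
  obtain ⟨i, hi, h1⟩ := hd
  exact ⟨i, hi, h i hi t w h1⟩

theorem Pr_exD {α : Type*} (I : Finset α) {d : α → ℕ → Om → Prop} {n : ℕ} {q : ℝ} (h : ∀ i ∈ I, P.Pr (d i n) ≤ q) :
    P.Pr (exD I d n) ≤ I.card * q := by
  refine (P.Pr_ex_le I (fun i => d i n)).trans ?_
  refine (Finset.sum_le_card_nsmul I _ q h).trans ?_
  rw [nsmul_eq_mul]

theorem not_exD {α : Type*} {I : Finset α} {d : α → ℕ → Om → Prop} {t : ℕ} {w : Om} (h : ¬ exD I d t w) {i : α}
    (hi : i ∈ I) : ¬ d i t w := fun h1 => h ⟨i, hi, h1⟩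

/-- too many elements, ever -/
def bigD {β : Type*} (F : ℕ → Om → Finset β) (N : ℕ) : ℕ → Om → Prop := ev fun t w => N < (F t w).card

theorem not_bigD {β : Type*} {F : ℕ → Om → Finset β} {N t : ℕ} {w : Om} (h : ¬ bigD F N t w) {s : ℕ} (hs : s ≤ t) :
    (F s w).card ≤ N := not_lt.1 (not_ev h hs)

theorem Pr_bigD {β : Type*} {F : ℕ → Om → Finset β} (hF : ∀ t w, F t w ⊆ F (t + 1) w) {n : ℕ} {c q : ℝ}
    (hc : P.E (fun w => ((F n w).card : ℝ)) ≤ c) (hq : 0 < q) {N : ℕ} (hN : c / q ≤ N) : P.Pr (bigD F N n) ≤ q :=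
  Pr_big P hF hc hq hN

end dd

/-! ### lists, public sets, box sets -/

section lst

variable {ι Om Ξ Pt V Γ κ : Type} [Fintype ι] [DecidableEq ι] [Fintype Om] [Fintype Ξ] [Fintype Pt]
  [Fintype V] {S : Sys ι Om Ξ Pt V Γ κ}

theorem Lst.Pr_big {I : Finset ι} (A : Lst S I) {c q : ℝ} (hc : S.P.E (fun w => ((A.at' S.n w).card : ℝ)) ≤ c)
    (hq : 0 < q) {N : ℕ} (hN : c / q ≤ N) : S.P.Pr (bigD A.at' N S.n) ≤ q := Pr_bigD S.P A.at_succ hc hq hN

theorem PSt.Pr_big {l : ι} (A : PSt S l) {c q : ℝ} (hc : S.P.E (fun w => ((A.at' S.n w).card : ℝ)) ≤ c)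
    (hq : 0 < q) {N : ℕ} (hN : c / q ≤ N) : S.P.Pr (bigD A.at' N S.n) ≤ q := Pr_bigD S.P A.at_succ hc hq hN

theorem BSt.Pr_big {u l : ι} (A : BSt S u l) {c q : ℝ} (hc : S.P.E (fun w => ((A.at' S.n w).card : ℝ)) ≤ c)
    (hq : 0 < q) {N : ℕ} (hN : c / q ≤ N) : S.P.Pr (bigD A.at' N S.n) ≤ q := Pr_bigD S.P A.at_succ hc hq hN

end lst

end

end Pool.Agent.GMN
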