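import Pool.Agent.GMN.RecS
import Pool.Agent.GMN.Enum

/-!
# GMN/RecO (helper88): THE RECORD SEEN BY THE OWNER (cure B of helper4)

`C t g ξ x` = client record: finite set of codes, function of (coins, exact vertices but `u`, `v`, CELL of `x u`, node)
(`DepUV S v u`, the free vertex is `v`), cumulative.  The owner of `u` does not know `x u`:

* `own S C u` = union over the past times `s` and the cells of `x u` compatible with (cells of the others, node) at the
  time `s`; `mem_own`, `mem_own_w`; `ownL : Lst S (univ.erase u)`;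
* `sub_own` : it contains the client record at every sample point;
* `E_own` : mean size `≤ S.K` times the mean size of the client record at the true point (`vis_le`);
* `own_sub` : if the client record is contained in the public set `b.cmp` of the face without `v` (`b : BSt S u v`,
  `GMN/Enum`), then the record of the owner is contained in `b.cmp.cmp : BSt S u v`;
* `BSt.mem_cmp` : elements of the compatible set of a box set.
-/

set_option autoImplicit false
set_option linter.unusedSectionVars false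

namespace Pool.Agent.GMN

open Finset Pool.Agent.PWZ Pool.Agent.M3 Pool.Agent.M3.TS Pool.Agent.GM

noncomputable section

variable {ι Om Ξ Pt V Γ κ : Type} [Fintype ι] [DecidableEq ι] [Fintype Om] [Fintype Ξ] [Fintype Pt]
  [Fintype V] (S : Sys ι Om Ξ Pt V Γ κ)

theorem depUV_swap {u v : ι} {β : Type} {t : ℕ} {f : (ι → Pt) → β} (h : DepC S t ((univ.erase u).erase v) {u} f) :
    DepUV S v u t f := by
  unfold DepUV
  rw [Finset.erase_right_comm]
  exact h

/-- a positive probability is witnessed -/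
theorem exists_of_Pr_pos (P : FP Om) {E : Om → Prop} (h : 0 < P.Pr E) : ∃ w, E w := by
  by_contra hcon
  push Not at hcon
  have h1 : P.Pr E ≤ P.Pr (fun _ => False) := P.Pr_mono fun w _ h' => hcon w h'
  rw [Pr_false] at h1
  linarith

/-- there is a sample point with given coins, given vertices but one, and a realised node -/
theorem exists_pt (v : ι) (t : ℕ) (w : Om) (ξ : Ξ) (y : ι → Pt) :
    ∃ w', S.xi w' = ξ ∧ (∀ j, j ≠ v → S.x w' j = y j) ∧ S.gm t w' = S.gm t w := by
  refine exists_of_Pr_pos S.P ?_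
  rw [S.law]
  have h1 : 0 < S.P.Pr (fun w' => S.gm t w' = S.gm t w) := by
    have h2 := S.P.le_m (S.gm t) w
    have h3 : 0 < S.P.p w := lt_of_le_of_ne (S.P.nn w) (Ne.symm (S.ppos w))
    have h4 : S.P.m (S.gm t) w = S.P.Pr (fun w' => S.gm t w' = S.gm t w) := rfl
    linarith
  have h2 := S.cXi
  have h3 := S.cPt v
  positivity

open Classical in
/-- **the record seen by the owner** -/
def own (C : CS ι Ξ Pt Γ) (u : ι) (t : ℕ) (g : Γ) (ξ : Ξ) (x : ι → Pt) : Finset ℕ :=
  (range (t + 1) ×ˢ (univ : Finset Om)).biUnion fun sw => if okc S u sw.1 t g x sw.2 then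
    C sw.1 (S2.anc S.par t g sw.1) ξ (Function.update x u (S.x sw.2 u)) else ∅

variable {S}

theorem mem_own {C : CS ι Ξ Pt Γ} {u : ι} {t : ℕ} {g : Γ} {ξ : Ξ} {x : ι → Pt} {n : ℕ} :
    n ∈ own S C u t g ξ x ↔ ∃ s ≤ t, ∃ w', okc S u s t g x w' ∧
      n ∈ C s (S2.anc S.par t g s) ξ (Function.update x u (S.x w' u)) := by
  classical
  unfold own
  rw [Finset.mem_biUnion]
  constructor
  · rintro ⟨⟨s, w'⟩, hs, hn⟩
    have h1 := (Finset.mem_product.1 hs).1
    by_cases h : okc S u s t g x w'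
    · rw [if_pos h] at hn
      exact ⟨s, by have := mem_range.1 h1; simp only at this; omega, w', h, hn⟩
    · rw [if_neg h] at hn
      exact absurd hn (notMem_empty _)
  · rintro ⟨s, hs, w', h, hn⟩
    refine ⟨(s, w'), Finset.mem_product.2 ⟨mem_range.2 (by simp only; omega), mem_univ _⟩, ?_⟩
    rw [if_pos h]
    exact hn

theorem okc_w {u : ι} {s t : ℕ} (hs : s ≤ t) {w w' : Om} : okc S u s t (S.gm t w) (S.x w) w' ↔ Cmp S u s w w' := by
  unfold okc Cmp
  rw [S.anc_gm hs]

theorem mem_own_w {C : CS ι Ξ Pt Γ} {u : ι} {t : ℕ} {ξ : Ξ} {w : Om} {n : ℕ} :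
    n ∈ own S C u t (S.gm t w) ξ (S.x w) ↔ ∃ s ≤ t, ∃ w', Cmp S u s w w' ∧
      n ∈ C s (S.gm s w) ξ (shw S u w w') := by
  rw [mem_own]
  constructor
  · rintro ⟨s, hs, w', h, hn⟩
    rw [S.anc_gm hs] at hn
    exact ⟨s, hs, w', (okc_w hs).1 h, hn⟩
  · rintro ⟨s, hs, w', h, hn⟩
    refine ⟨s, hs, w', (okc_w hs).2 h, ?_⟩
    rw [S.anc_gm hs]
    exact hn

theorem own_dep (C : CS ι Ξ Pt Γ) (u : ι) (t : ℕ) (g : Γ) (ξ : Ξ) : Dep (univ.erase u) (own S C u t g ξ) := by
  classical
  intro x y h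
  have h0 : ∀ i, i ≠ u → x i = y i := fun i hi => h i (mem_erase.2 ⟨hi, mem_univ i⟩)
  have h1 : ∀ z : Pt, Function.update x u z = Function.update y u z := by
    intro z
    funext i
    rcases eq_or_ne i u with e | e
    · subst e; rw [Function.update_self, Function.update_self]
    · rw [Function.update_of_ne e, Function.update_of_ne e, h0 i e]
  have h2 : ∀ s w', okc S u s t g x w' ↔ okc S u s t g y w' := by
    intro s w'
    unfold okc
    refine and_congr_left fun _ => forall_congr' fun i => forall_congr' fun hi => ?_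
    rw [h0 i hi]
  ext n
  rw [mem_own, mem_own]
  simp only [h1, h2]

theorem own_mono (C : CS ι Ξ Pt Γ) (u : ι) (t : ℕ) (g : Γ) (ξ : Ξ) (x : ι → Pt) :
    own S C u t (S.par t g) ξ x ⊆ own S C u (t + 1) g ξ x := by
  intro n hn
  rw [mem_own] at hn ⊢
  obtain ⟨s, hs, w', h, hn⟩ := hn
  have h1 : S2.anc S.par (t + 1) g s = S2.anc S.par t (S.par t g) s := S2.anc_succ _ hs g
  refine ⟨s, by omega, w', ?_, ?_⟩
  · unfold okc at h ⊢
    rw [h1]
    exact h
  · rw [h1]
    exact hn

/-- the record of the owner as a list -/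
def ownL (S : Sys ι Om Ξ Pt V Γ κ) (C : CS ι Ξ Pt Γ) (u : ι) : Lst S (univ.erase u) where
  L := own S C u
  dep := own_dep C u
  mono := own_mono C u

theorem mem_ownL {C : CS ι Ξ Pt Γ} {u : ι} {t : ℕ} {w : Om} {n : ℕ} :
    n ∈ (ownL S C u).at' t w ↔ ∃ s ≤ t, ∃ w', Cmp S u s w w' ∧ n ∈ C s (S.gm s w) (S.xi w) (shw S u w w') :=
  mem_own_w

/-- it contains the client record -/
theorem sub_own (C : CS ι Ξ Pt Γ) (u : ι) (t : ℕ) (w : Om) :
    C t (S.gm t w) (S.xi w) (S.x w) ⊆ (ownL S C u).at' t w := by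
  intro n hn
  rw [mem_ownL]
  exact ⟨t, le_rfl, w, Cmp.refl u t w, by rw [shw_self]; exact hn⟩

/-- **the mean size of the record of the owner** -/
theorem E_own {u v : ι} (huv : u ≠ v) {C : CS ι Ξ Pt Γ} (hC : ∀ t g ξ, DepUV S v u t (C t g ξ))
    (hmono : ∀ t g ξ x, C t (S.par t g) ξ x ⊆ C (t + 1) g ξ x) (T : ℕ) :
    S.P.E (fun w => (((ownL S C u).at' T w).card : ℝ)) ≤
      S.K * S.P.E (fun w => ((C T (S.gm T w) (S.xi w) (S.x w)).card : ℝ)) := by
  classical
  have hCm : ∀ {s t : ℕ}, s ≤ t → ∀ w, C s (S.gm s w) (S.xi w) (S.x w) ⊆ C t (S.gm t w) (S.xi w) (S.x w) := by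
    intro s t hst w
    induction t, hst using Nat.le_induction with
    | base => exact subset_rfl
    | succ t _ ih =>
      have h1 := hmono t (S.gm (t + 1) w) (S.xi w) (S.x w)
      rw [S.par_gm] at h1
      exact ih.trans h1
  set U : Finset ℕ := (univ : Finset Om).biUnion fun w => (ownL S C u).at' T w with hU
  have hcard : ∀ (A : Finset ℕ), A ⊆ U → (A.card : ℝ) = ∑ n ∈ U, ind (n ∈ A) := by
    intro A hA
    have h1 : ∀ n ∈ U, ind (n ∈ A) = if n ∈ A then (1 : ℝ) else 0 := by
      intro n _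
      by_cases h : n ∈ A
      · rw [ind_of h, if_pos h]
      · rw [ind_not h, if_neg h]
    rw [Finset.sum_congr rfl h1, Finset.sum_ite_mem, Finset.inter_eq_right.2 hA, Finset.sum_const, nsmul_eq_mul, mul_one]
  have h1 : S.P.E (fun w => (((ownL S C u).at' T w).card : ℝ)) =
      ∑ n ∈ U, S.P.Pr (fun w => n ∈ (ownL S C u).at' T w) := by
    unfold FP.Pr
    rw [← S.P.E_sum]
    exact S.P.E_congr fun w _ => hcard _ fun n hn => Finset.mem_biUnion.2 ⟨w, mem_univ w, hn⟩
  have h2 : ∑ n ∈ U, S.P.Pr (fun w => n ∈ C T (S.gm T w) (S.xi w) (S.x w)) =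
      S.P.E (fun w => ((C T (S.gm T w) (S.xi w) (S.x w)).card : ℝ)) := by
    unfold FP.Pr
    rw [← S.P.E_sum]
    exact S.P.E_congr fun w _ => (hcard _ fun n hn => Finset.mem_biUnion.2 ⟨w, mem_univ w, sub_own C u T w hn⟩).symm
  rw [h1, ← h2, Finset.mul_sum]
  refine Finset.sum_le_sum fun n _ => ?_
  have h3 := vis_le (S := S) huv.symm T (q := fun t g ξ x => n ∈ C t g ξ x) fun t g ξ x y hA hv => by
    show (n ∈ C t g ξ x) = (n ∈ C t g ξ y)
    rw [hC t g ξ x y hA hv]
  refine le_trans (le_of_eq ?_) (h3.trans (mul_le_mul_of_nonneg_left ?_ (le_trans zero_le_one S.K1)))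
  · exact S.P.Pr_congr fun w _ => mem_ownL
  · refine S.P.Pr_mono fun w _ h => ?_
    obtain ⟨t, ht, hn⟩ := h
    exact hCm ht w hn

namespace BSt

variable {u l : ι}

/-- elements of the compatible set -/
theorem mem_cmp (b : BSt S u l) {t : ℕ} {w : Om} {n : ℕ} :
    n ∈ b.cmp.at' t w ↔ ∃ s ≤ t, ∃ w', Cmp S l s w w' ∧ n ∈ b.L s (S.gm s w) (shw S l w w') := by
  classical
  have hnew : ∀ s g x, n ∈ b.new s g x → n ∈ b.L s g x := by
    intro s g x h
    cases s with
    | zero => exact h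
    | succ s => exact (Finset.mem_sdiff.1 h).1
  have hext : ∀ s, n ∈ b.ext s (S.gm s w) (S.x w) ↔ ∃ w', Cmp S l s w w' ∧ n ∈ b.new s (S.gm s w) (shw S l w w') := by
    intro s
    unfold ext
    rw [Finset.mem_biUnion]
    constructor
    · rintro ⟨q, _, hn⟩
      by_cases h : CmpE S l s (S.gm s w) (S.x w) (S.cl s q)
      · rw [if_pos h] at hn
        obtain ⟨w', h1, h2, h3⟩ := h
        refine ⟨w', ⟨h1, h3⟩, ?_⟩
        have h4 : b.new s (S.gm s w) (shw S l w w') = b.new s (S.gm s w) (Function.update (S.x w) l q) := by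
          refine b.new_dep s _ _ _ (fun i hi => ?_) fun i hi => ?_
          · rw [shw_ne (ne_of_mem_erase hi), Function.update_of_ne (ne_of_mem_erase hi)]
          · rw [Finset.mem_singleton.1 hi, shw_v, Function.update_self, h2]
        rw [h4]
        exact hn
      · rw [if_neg h] at hn
        exact absurd hn (notMem_empty _)
    · rintro ⟨w', h1, hn⟩
      refine ⟨erep S s (S.x w' l), erep_mem s _, ?_⟩
      rw [if_pos ⟨w', h1.1, (cl_erep s _).symm, h1.2⟩]
      have h4 : b.new s (S.gm s w) (shw S l w w') =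
          b.new s (S.gm s w) (Function.update (S.x w) l (erep S s (S.x w' l))) := by
        refine b.new_dep s _ _ _ (fun i hi => ?_) fun i hi => ?_
        · rw [shw_ne (ne_of_mem_erase hi), Function.update_of_ne (ne_of_mem_erase hi)]
        · rw [Finset.mem_singleton.1 hi, shw_v, Function.update_self, cl_erep]
      rw [← h4]
      exact hn
  have hall : ∀ t, n ∈ b.cmp.at' t w ↔ ∃ s ≤ t, n ∈ b.ext s (S.gm s w) (S.x w) := by
    intro t
    induction t with
    | zero =>
      rw [b.cmp_at_zero]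
      constructor
      · exact fun h => ⟨0, le_rfl, h⟩
      · rintro ⟨s, hs, h⟩
        have : s = 0 := by omega
        subst this
        exact h
    | succ t ih =>
      rw [b.cmp_at_succ, Finset.mem_union, ih]
      constructor
      · rintro (⟨s, hs, h⟩ | h)
        · exact ⟨s, by omega, h⟩
        · exact ⟨t + 1, le_rfl, h⟩
      · rintro ⟨s, hs, h⟩
        rcases Nat.lt_or_ge t s with h1 | h1
        · have : s = t + 1 := by omega
          subst this
          exact Or.inr h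
        · exact Or.inl ⟨s, h1, h⟩
  rw [hall]
  constructor
  · rintro ⟨s, hs, h⟩
    obtain ⟨w', h1, h2⟩ := (hext s).1 h
    exact ⟨s, hs, w', h1, hnew _ _ _ h2⟩
  · rintro ⟨s, hs, w', h1, h2⟩
    -- the first time on the branch
    have hex : ∃ r, n ∈ b.L r (S.gm r w) (shw S l w w') := ⟨s, h2⟩
    have hmin := Nat.find_min' hex h2
    set r := Nat.find hex with hr
    have hr1 : n ∈ b.L r (S.gm r w) (shw S l w w') := Nat.find_spec hex
    refine ⟨r, by omega, (hext r).2 ⟨w', h1.le hmin, ?_⟩⟩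
    rcases Nat.eq_zero_or_pos r with h0 | h0
    · rw [h0] at hr1 ⊢
      exact hr1
    · obtain ⟨r', hr'⟩ : ∃ r', r = r' + 1 := ⟨r - 1, by omega⟩
      have hr2 : n ∉ b.L r' (S.gm r' w) (shw S l w w') := Nat.find_min hex (by omega)
      rw [hr'] at hr1 ⊢
      refine Finset.mem_sdiff.2 ⟨hr1, ?_⟩
      rw [S.par_gm]
      exact hr2

end BSt

/-- **the record of the owner is contained in a box set** -/
theorem own_sub {u v : ι} (huv : u ≠ v) {C : CS ι Ξ Pt Γ} (hC : ∀ t g ξ, DepUV S v u t (C t g ξ)) (b : BSt S u v)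
    {T : ℕ} (h : ∀ t ≤ T, ∀ w, C t (S.gm t w) (S.xi w) (S.x w) ⊆ b.cmp.at' t w) {t : ℕ} (ht : t ≤ T) (w : Om) :
    (ownL S C u).at' t w ⊆ b.cmp.cmp.at' t w := by
  intro n hn
  obtain ⟨s, hs, w', h1, hn⟩ := mem_ownL.1 hn
  obtain ⟨w2, e1, e2, e3⟩ := exists_pt S v s w (S.xi w) (shw S u w w')
  have h2 : C s (S.gm s w) (S.xi w) (shw S u w w') = C s (S.gm s w2) (S.xi w2) (S.x w2) := by
    rw [e1, e3]
    exact (hC s (S.gm s w) (S.xi w)).val_eq (fun i hi _ => (e2 i hi).symm) (by rw [e2 u huv])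
  rw [h2] at hn
  have h3 := h s (hs.trans ht) w2 hn
  rw [b.cmp.mem_cmp]
  refine ⟨s, hs, w', h1, ?_⟩
  have h4 : b.cmp.L s (S.gm s w) (shw S u w w') = b.cmp.L s (S.gm s w2) (S.x w2) := by
    rw [e3]
    exact b.cmp.dep s (S.gm s w) _ _ (fun i hi => (e2 i (ne_of_mem_erase (mem_of_mem_erase hi))).symm) fun i hi => by
      rw [Finset.mem_singleton.1 hi, e2 u huv]
  rw [h4]
  exact h3

end

end Pool.Agent.GMN
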