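import Pool.Agent.GMN.RecS

/-!
# GMN/RecZ (helper4): SCALES AVERAGED OVER PART OF THE COINS (helper11's COINS SPEC, N2)

`pk : Ξ → α` = what the client knows of the coins.  `Za pk` = average of the scale `Zt` over the coins with the same `pk`.

* `mass_a` : `P(n true | pk, all vertices but v, node) ≤ K * Za`;
* `E_Za` : the mean is the mean of `Zt`;
* `Za_free` : if the list does not see what `pk` forgets, `Za = Zt`;
* `low_a` : a true code has scale at least `1 / (card Ξ * card Pt)`.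
-/

set_option autoImplicit false
set_option linter.unusedSectionVars false

namespace Pool.Agent.GMN

open Finset Pool.Agent.PWZ Pool.Agent.M3 Pool.Agent.M3.TS Pool.Agent.GM

noncomputable section

section avg

variable {Ξ α : Type*} [Fintype Ξ]

/-- average over the fibre -/
def avg (pk : Ξ → α) (a : Ξ → ℝ) (ξ : Ξ) : ℝ := (∑ ξ', ind (pk ξ' = pk ξ) * a ξ') / ∑ ξ', ind (pk ξ' = pk ξ)

variable (pk : Ξ → α)

theorem fib_pos (ξ : Ξ) : 0 < ∑ ξ', ind (pk ξ' = pk ξ) := by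
  have h := Finset.single_le_sum (f := fun ξ' : Ξ => ind (pk ξ' = pk ξ)) (fun _ _ => ind_nonneg _) (Finset.mem_univ ξ)
  have h1 : ind (pk ξ = pk ξ) = 1 := ind_of rfl
  have h2 : ind (pk ξ = pk ξ) ≤ ∑ ξ', ind (pk ξ' = pk ξ) := h
  rw [h1] at h2
  linarith

theorem fib_le (ξ : Ξ) : ∑ ξ', ind (pk ξ' = pk ξ) ≤ Fintype.card Ξ := by
  refine (Finset.sum_le_sum fun ξ' _ => ind_le_one (pk ξ' = pk ξ)).trans ?_
  simp

theorem avg_nonneg {a : Ξ → ℝ} (h : ∀ ξ, 0 ≤ a ξ) (ξ : Ξ) : 0 ≤ avg pk a ξ :=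
  div_nonneg (Finset.sum_nonneg fun ξ' _ => mul_nonneg (ind_nonneg _) (h ξ')) (fib_pos pk ξ).le

theorem avg_mono {a b : Ξ → ℝ} (h : ∀ ξ, a ξ ≤ b ξ) (ξ : Ξ) : avg pk a ξ ≤ avg pk b ξ :=
  div_le_div_of_nonneg_right (Finset.sum_le_sum fun ξ' _ => mul_le_mul_of_nonneg_left (h ξ') (ind_nonneg _))
    (fib_pos pk ξ).le

theorem avg_const (c : ℝ) (ξ : Ξ) : avg pk (fun _ => c) ξ = c := by
  unfold avg
  rw [← Finset.sum_mul]
  have := (fib_pos pk ξ).ne'
  field_simp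

theorem avg_le_one {a : Ξ → ℝ} (h : ∀ ξ, a ξ ≤ 1) (ξ : Ξ) : avg pk a ξ ≤ 1 := by
  rw [← avg_const pk 1 ξ]
  exact avg_mono pk h ξ

variable {pk}

theorem avg_congr {a b : Ξ → ℝ} {ξ ξ' : Ξ} (h : pk ξ = pk ξ') (hab : ∀ z, a z = b z) : avg pk a ξ = avg pk b ξ' := by
  unfold avg
  rw [h, Finset.sum_congr rfl fun z _ => by rw [hab z]]

/-- constant on the fibres -/
theorem avg_of_fac {a : Ξ → ℝ} (h : ∀ ξ ξ', pk ξ = pk ξ' → a ξ = a ξ') (ξ : Ξ) : avg pk a ξ = a ξ := by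
  have h1 : ∑ ξ', ind (pk ξ' = pk ξ) * a ξ' = (∑ ξ', ind (pk ξ' = pk ξ)) * a ξ := by
    rw [Finset.sum_mul]
    refine Finset.sum_congr rfl fun ξ' _ => ?_
    by_cases hh : pk ξ' = pk ξ
    · rw [h ξ' ξ hh]
    · rw [ind_not hh, zero_mul, zero_mul]
  unfold avg
  rw [h1]
  have := (fib_pos pk ξ).ne'
  field_simp

/-- a finer knowledge, constant on the fibres of the coarser one -/
theorem avg_fine {β : Type*} {pz : Ξ → β} {a : Ξ → ℝ} (h : ∀ ξ ξ', pz ξ = pz ξ' → a ξ = a ξ')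
    (hp : ∀ ξ ξ', pk ξ = pk ξ' → pz ξ = pz ξ') (ξ : Ξ) : avg pk a ξ = avg pz a ξ := by
  rw [avg_of_fac h, avg_of_fac fun ξ ξ' h' => h ξ ξ' (hp ξ ξ' h')]

/-- the mean of the averages -/
theorem sum_avg (a : Ξ → ℝ) : ∑ ξ, avg pk a ξ = ∑ ξ, a ξ := by
  unfold avg
  have h1 : ∀ ξ, (∑ ξ', ind (pk ξ' = pk ξ) * a ξ') / ∑ ξ', ind (pk ξ' = pk ξ) =
      ∑ ξ', a ξ' * (ind (pk ξ = pk ξ') / ∑ z, ind (pk z = pk ξ')) := by
    intro ξ
    rw [Finset.sum_div]
    refine Finset.sum_congr rfl fun ξ' _ => ?_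
    by_cases h : pk ξ = pk ξ'
    · rw [ind_of h, ind_of h.symm, h]
      ring
    · rw [ind_not h, ind_not fun h' => h h'.symm]
      ring
  rw [Finset.sum_congr rfl fun ξ _ => h1 ξ, Finset.sum_comm]
  refine Finset.sum_congr rfl fun ξ' _ => ?_
  rw [← Finset.mul_sum, ← Finset.sum_div]
  have := (fib_pos pk ξ').ne'
  rw [div_self this, mul_one]

theorem le_avg {a : Ξ → ℝ} (h : ∀ ξ, 0 ≤ a ξ) (ξ : Ξ) : a ξ / Fintype.card Ξ ≤ avg pk a ξ := by
  unfold avg
  have h1 : a ξ ≤ ∑ ξ', ind (pk ξ' = pk ξ) * a ξ' := by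
    have h2 := Finset.single_le_sum (f := fun ξ' : Ξ => ind (pk ξ' = pk ξ) * a ξ')
      (fun ξ' _ => mul_nonneg (ind_nonneg _) (h ξ')) (Finset.mem_univ ξ)
    have h3 : ind (pk ξ = pk ξ) * a ξ ≤ ∑ ξ', ind (pk ξ' = pk ξ) * a ξ' := h2
    rwa [ind_of rfl, one_mul] at h3
  exact div_le_div₀ ((h ξ).trans h1) h1 (fib_pos pk ξ) (fib_le pk ξ)

end avg

section fib

variable {Om τ : Type*} [Fintype Om] (P : FP Om)

/-- means by the fibres of a map -/
theorem E_fib (Φ : Om → τ) [DecidableEq τ] (F : τ → ℝ) (A : Om → Prop) :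
    P.E (fun w => ind (A w) * F (Φ w)) = ∑ φ ∈ univ.image Φ, F φ * P.Pr (fun w => Φ w = φ ∧ A w) := by
  have h1 : ∀ φ, F φ * P.Pr (fun w => Φ w = φ ∧ A w) = P.E (fun w => F φ * ind (Φ w = φ ∧ A w)) := fun φ =>
    (P.E_smul _ _).symm
  rw [Finset.sum_congr rfl fun φ _ => h1 φ, ← P.E_sum]
  refine P.E_congr fun w _ => ?_
  rw [Finset.sum_eq_single (Φ w)]
  · by_cases h : A w
    · rw [ind_of h, ind_of ⟨rfl, h⟩, one_mul, mul_one]
    · rw [ind_not h, ind_not fun h' => h h'.2, zero_mul, mul_zero]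
  · intro o _ ho
    rw [ind_not fun h => ho h.1.symm, mul_zero]
  · exact fun h => absurd (Finset.mem_image_of_mem _ (mem_univ w)) h

end fib

variable {ι Om Ξ Pt V Γ κ : Type} [Fintype ι] [DecidableEq ι] [Fintype Om] [Fintype Ξ] [Fintype Pt]
  [Fintype V] {S : Sys ι Om Ξ Pt V Γ κ}

/-- the coins are independent of (all vertices, node), means -/
theorem E_xi (t : ℕ) (ξ : Ξ) (H : Γ → (ι → Pt) → ℝ) :
    S.P.E (fun w => ind (S.xi w = ξ) * H (S.gm t w) (S.x w)) =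
      S.P.E (fun w => H (S.gm t w) (S.x w)) / Fintype.card Ξ := by
  classical
  have h1 := E_fib S.P (fun w => (S.gm t w, S.x w)) (fun φ => H φ.1 φ.2) (fun w => S.xi w = ξ)
  have h2 := E_fib S.P (fun w => (S.gm t w, S.x w)) (fun φ => H φ.1 φ.2) (fun _ => True)
  have e2 : S.P.E (fun w => H (S.gm t w) (S.x w)) = S.P.E (fun w => ind True * H (S.gm t w) (S.x w)) :=
    S.P.E_congr fun w _ => by rw [ind_of trivial, one_mul]
  rw [e2]
  refine h1.trans ?_
  refine Eq.trans ?_ (congrArg (fun z => z / (Fintype.card Ξ : ℝ)) h2.symm)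
  rw [Finset.sum_div]
  refine Finset.sum_congr rfl fun φ _ => ?_
  have h3 := S.lxi t φ.1 ξ φ.2
  have e3 : S.P.Pr (fun w => (S.gm t w, S.x w) = φ ∧ S.xi w = ξ) =
      S.P.Pr (fun w => S.xi w = ξ ∧ S.x w = φ.2 ∧ S.gm t w = φ.1) := by
    refine S.P.Pr_congr fun w _ => ?_
    rw [Prod.ext_iff]
    simp only
    tauto
  have e4 : S.P.Pr (fun w => (S.gm t w, S.x w) = φ ∧ True) = S.P.Pr (fun w => S.x w = φ.2 ∧ S.gm t w = φ.1) := by
    refine S.P.Pr_congr fun w _ => ?_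
    rw [Prod.ext_iff]
    simp only
    tauto
  rw [e3, e4, h3, mul_div_assoc]

/-- means over the coins -/
theorem E_coins (t : ℕ) (F : Γ → Ξ → (ι → Pt) → ℝ) :
    S.P.E (fun w => F (S.gm t w) (S.xi w) (S.x w)) =
      S.P.E (fun w => ∑ ξ, F (S.gm t w) ξ (S.x w)) / Fintype.card Ξ := by
  classical
  have h1 : ∀ w, F (S.gm t w) (S.xi w) (S.x w) = ∑ ξ, ind (S.xi w = ξ) * F (S.gm t w) ξ (S.x w) := by
    intro w
    rw [Finset.sum_eq_single (S.xi w)]
    · rw [ind_of rfl, one_mul]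
    · intro ξ _ hξ
      rw [ind_not fun h => hξ h.symm, zero_mul]
    · exact fun h => absurd (mem_univ _) h
  rw [S.P.E_congr fun w _ => h1 w, S.P.E_sum, S.P.E_sum, Finset.sum_div]
  exact Finset.sum_congr rfl fun ξ _ => E_xi t ξ fun g x => F g ξ x

/-- averages over part of the coins do not change the mean -/
theorem E_avg {α : Type*} (pk : Ξ → α) (t : ℕ) (F : Γ → Ξ → (ι → Pt) → ℝ) :
    S.P.E (fun w => avg pk (fun ξ => F (S.gm t w) ξ (S.x w)) (S.xi w)) =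
      S.P.E (fun w => F (S.gm t w) (S.xi w) (S.x w)) := by
  rw [E_coins (S := S) t F, E_coins (S := S) t (fun g ξ x => avg pk (fun ξ' => F g ξ' x) ξ)]
  congr 1
  exact S.P.E_congr fun w _ => sum_avg _

/-! ### the averaged scale -/

variable (S)
variable {α : Type*} (pk : Ξ → α) (m : CS ι Ξ Pt Γ) (v : ι)

/-- **the averaged scale** -/
def Za (n t : ℕ) (g : Γ) (ξ : Ξ) (x : ι → Pt) : ℝ := avg pk (fun ξ' => Zt S m v n t g ξ' x) ξ

variable {S pk m v}

theorem Za_nonneg (n t : ℕ) (g : Γ) (ξ : Ξ) (x : ι → Pt) : 0 ≤ Za S pk m v n t g ξ x :=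
  avg_nonneg pk (fun _ => Zt_nonneg _ _ _ _ _ _ _ _) ξ

theorem Za_le_one (n t : ℕ) (g : Γ) (ξ : Ξ) (x : ι → Pt) : Za S pk m v n t g ξ x ≤ 1 :=
  avg_le_one pk (fun _ => Zt_le_one _ _ _ _ _) ξ

theorem Za_mono (n t : ℕ) (g : Γ) (ξ : Ξ) (x : ι → Pt) : Za S pk m v n t (S.par t g) ξ x ≤ Za S pk m v n (t + 1) g ξ x :=
  avg_mono pk (fun ξ' => Zt_mono n t g ξ' x) ξ

theorem Za_congr (n t : ℕ) (g : Γ) {ξ ξ' : Ξ} (h : pk ξ = pk ξ') (x : ι → Pt) :
    Za S pk m v n t g ξ x = Za S pk m v n t g ξ' x := avg_congr h fun _ => rfl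

theorem Za_dep {u : ι} (huv : u ≠ v) (hm : ∀ t g ξ, Dep (univ.erase u) (m t g ξ)) (n t : ℕ) (g : Γ) (ξ : Ξ) :
    DepC S t ((univ.erase u).erase v) {u} (Za S pk m v n t g ξ) := by
  intro x y h1 h2
  exact avg_congr rfl fun ξ' => Zt_dep huv hm n t g ξ' x y h1 h2

/-- scales of free lists -/
theorem Zt_free {β : Type*} {pz : Ξ → β} (hf : ∀ t g ξ ξ' x, pz ξ = pz ξ' → m t g ξ x = m t g ξ' x) (n t : ℕ) (g : Γ)
    {ξ ξ' : Ξ} (h : pz ξ = pz ξ') (x : ι → Pt) : Zt S m v n t g ξ x = Zt S m v n t g ξ' x := by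
  have hd : ∀ s g x, dn S m v n s g ξ x = dn S m v n s g ξ' x := by
    intro s g x
    unfold dn
    congr 1
    exact Finset.sum_congr rfl fun y _ => by rw [hf s g ξ ξ' _ h]
  have key : ∀ {a b : Ξ}, (∀ s g x, dn S m v n s g a x = dn S m v n s g b x) → Zt S m v n t g a x ≤ Zt S m v n t g b x := by
    intro a b hd
    rcases eq_or_lt_of_le (Zt_nonneg S m v n t g a x) with h | h
    · rw [← h]; exact Zt_nonneg _ _ _ _ _ _ _ _
    · obtain ⟨s, hs, w', h1, h2⟩ := (le_Zt_iff h).1 (le_refl (Zt S m v n t g a x))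
      exact (le_Zt_iff h).2 ⟨s, hs, w', h1, by rw [← hd]; exact h2⟩
  exact le_antisymm (key hd) (key fun s g x => (hd s g x).symm)

/-- two knowledges give the same scale if the list sees neither of the forgotten parts -/
theorem Za_fine {β : Type*} {pz : Ξ → β} (hf : ∀ t g ξ ξ' x, pz ξ = pz ξ' → m t g ξ x = m t g ξ' x)
    (hp : ∀ ξ ξ', pk ξ = pk ξ' → pz ξ = pz ξ') (n t : ℕ) (g : Γ) (ξ : Ξ) (x : ι → Pt) :
    Za S pk m v n t g ξ x = Za S pz m v n t g ξ x :=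
  avg_fine (fun ξ ξ' h => Zt_free hf n t g h x) hp ξ

/-- **MASS**, the client knows `pk` of the coins -/
theorem mass_a (n t : ℕ) (w0 : Om) :
    S.P.ce (fun w => (pk (S.xi w), res (univ.erase v) (S.x w), S.gm t w))
      (fun w => ind (n ∈ m t (S.gm t w) (S.xi w) (S.x w))) w0 ≤
    S.K * Za S pk m v n t (S.gm t w0) (S.xi w0) (S.x w0) := by
  classical
  set X : Om → α × ({i // i ∈ univ.erase v} → Pt) × Γ := fun w =>
    (pk (S.xi w), res (univ.erase v) (S.x w), S.gm t w) with hX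
  have hx : ∀ w, X w = X w0 ↔ (pk (S.xi w) = pk (S.xi w0) ∧ (∀ i, i ≠ v → S.x w i = S.x w0 i) ∧ S.gm t w = S.gm t w0) := by
    intro w
    rw [hX]
    simp only
    rw [Prod.ext_iff, Prod.ext_iff]
    refine and_congr Iff.rfl (and_congr ?_ Iff.rfl)
    simp only
    rw [res_eq]
    constructor
    · intro h i hi; exact h i (mem_erase.2 ⟨hi, mem_univ _⟩)
    · intro h i hi; exact h i (mem_erase.1 hi).1
  set p0 : ℝ := S.P.Pr (fun w => S.gm t w = S.gm t w0) /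
    (Fintype.card Ξ * (Fintype.card Pt : ℝ) ^ (Fintype.card ι - 1)) with hp0
  -- for fixed coins
  have hone : ∀ ξ, S.P.Pr (fun w => S.xi w = ξ ∧ ((∀ i, i ≠ v → S.x w i = S.x w0 i) ∧ S.gm t w = S.gm t w0)) = p0 := by
    intro ξ
    rw [hp0, ← S.law t (S.gm t w0) v ξ (S.x w0)]
  have hpos : 0 ≤ p0 := by rw [← hone (S.xi w0)]; exact S.P.Pr_nonneg _
  have htr : ∀ ξ, S.P.Pr (fun w => S.xi w = ξ ∧ ((∀ i, i ≠ v → S.x w i = S.x w0 i) ∧ S.gm t w = S.gm t w0) ∧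
      n ∈ m t (S.gm t w) (S.xi w) (S.x w)) ≤ S.K * Zt S m v n t (S.gm t w0) ξ (S.x w0) * p0 := by
    intro ξ
    obtain ⟨w1, e1, e2, e3⟩ : ∃ w', S.xi w' = ξ ∧ (∀ j, j ≠ v → S.x w' j = S.x w0 j) ∧ S.gm t w' = S.gm t w0 := by
      by_contra hcon
      push Not at hcon
      have h1 := hone ξ
      have h2 : S.P.Pr (fun w => S.xi w = ξ ∧ ((∀ i, i ≠ v → S.x w i = S.x w0 i) ∧ S.gm t w = S.gm t w0)) = 0 := by
        rw [← Pr_false S.P]
        refine S.P.Pr_congr fun w _ => ?_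
        constructor
        · rintro ⟨a, b, c⟩; exact hcon w a b c
        · exact fun h => h.elim
      have h3 : 0 < p0 := by
        rw [hp0]
        have h4 : 0 < S.P.Pr (fun w' => S.gm t w' = S.gm t w0) := S.P.m_pos (S.gm t) (S.ppos w0)
        have h5 := S.cXi
        have h6 := S.cPt v
        positivity
      linarith
    have h1 := mass (S := S) (m := m) (v := v) n t w1
    have e4 : S.P.Pr (fun w => S.xi w = S.xi w1 ∧ (∀ i, i ≠ v → S.x w i = S.x w1 i) ∧ S.gm t w = S.gm t w1) = p0 := by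
      rw [← hone ξ]
      refine S.P.Pr_congr fun w _ => ?_
      rw [e1, e3]
      refine and_congr Iff.rfl (and_congr (forall_congr' fun i => forall_congr' fun hi => ?_) Iff.rfl)
      rw [e2 i hi]
    have e5 : Zt S m v n t (S.gm t w1) (S.xi w1) (S.x w1) ≤ Zt S m v n t (S.gm t w0) ξ (S.x w0) := by
      rw [e1, e3]
      rcases eq_or_lt_of_le (Zt_nonneg S m v n t (S.gm t w0) ξ (S.x w1)) with h | h
      · rw [← h]; exact Zt_nonneg _ _ _ _ _ _ _ _
      · obtain ⟨s, hs, w', k1, k2⟩ := (le_Zt_iff h).1 (le_refl (Zt S m v n t (S.gm t w0) ξ (S.x w1)))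
        refine (le_Zt_iff h).2 ⟨s, hs, w', ⟨fun i hi => ?_, k1.2⟩, ?_⟩
        · rw [k1.1 i hi, e2 i hi]
        · have e6 : Function.update (S.x w1) v (S.x w' v) = Function.update (S.x w0) v (S.x w' v) := by
            funext i
            rcases eq_or_ne i v with e | e
            · subst e; rw [Function.update_self, Function.update_self]
            · rw [Function.update_of_ne e, Function.update_of_ne e, e2 i e]
          rw [← e6]; exact k2
    rw [e4] at h1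
    refine le_trans (le_of_eq ?_) (h1.trans (mul_le_mul_of_nonneg_right (mul_le_mul_of_nonneg_left e5
      (le_trans zero_le_one S.K1)) hpos))
    refine S.P.Pr_congr fun w _ => ?_
    rw [e1, e3]
    constructor
    · rintro ⟨a, ⟨b, c⟩, d⟩
      exact ⟨a, fun i hi => by rw [b i hi, e2 i hi], c, d⟩
    · rintro ⟨a, b, c, d⟩
      exact ⟨a, ⟨fun i hi => by rw [b i hi, e2 i hi], c⟩, d⟩
  have hden : S.P.m X w0 = (∑ ξ, ind (pk ξ = pk (S.xi w0))) * p0 := by
    have h1 : S.P.m X w0 = S.P.Pr (fun w => pk (S.xi w) = pk (S.xi w0) ∧ ((∀ i, i ≠ v → S.x w i = S.x w0 i) ∧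
        S.gm t w = S.gm t w0)) := S.P.Pr_congr fun w _ => hx w
    rw [h1, Pr_univ S.P S.xi, Finset.sum_mul]
    refine Finset.sum_congr rfl fun ξ _ => ?_
    by_cases h : pk ξ = pk (S.xi w0)
    · rw [ind_of h, one_mul, ← hone ξ]
      refine S.P.Pr_congr fun w _ => ?_
      constructor
      · rintro ⟨a, _, b⟩; exact ⟨a, b⟩
      · rintro ⟨a, b⟩; exact ⟨a, by rw [a]; exact h, b⟩
    · rw [ind_not h, zero_mul, ← Pr_false S.P]
      refine S.P.Pr_congr fun w _ => ?_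
      constructor
      · rintro ⟨a, b, _⟩; exact h (by rw [← a]; exact b)
      · exact fun h => h.elim
  have hnum : S.P.E (fun w => ind (X w = X w0) * ind (n ∈ m t (S.gm t w) (S.xi w) (S.x w))) ≤
      S.K * (∑ ξ, ind (pk ξ = pk (S.xi w0)) * Zt S m v n t (S.gm t w0) ξ (S.x w0)) * p0 := by
    have h1 : S.P.E (fun w => ind (X w = X w0) * ind (n ∈ m t (S.gm t w) (S.xi w) (S.x w))) =
        S.P.Pr (fun w => pk (S.xi w) = pk (S.xi w0) ∧ ((∀ i, i ≠ v → S.x w i = S.x w0 i) ∧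
          S.gm t w = S.gm t w0) ∧ n ∈ m t (S.gm t w) (S.xi w) (S.x w)) := by
      refine S.P.E_congr fun w _ => ?_
      rw [← ind_and]
      congr 1
      apply propext
      rw [hx w]
      tauto
    rw [h1, Pr_univ S.P S.xi, Finset.mul_sum, Finset.sum_mul]
    refine Finset.sum_le_sum fun ξ _ => ?_
    by_cases h : pk ξ = pk (S.xi w0)
    · rw [ind_of h, one_mul]
      refine le_trans (le_of_eq ?_) (htr ξ)
      refine S.P.Pr_congr fun w _ => ?_
      constructor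
      · rintro ⟨a, _, b⟩; exact ⟨a, b⟩
      · rintro ⟨a, b⟩; exact ⟨a, by rw [a]; exact h, b⟩
    · rw [ind_not h, zero_mul, mul_zero, zero_mul]
      refine le_of_eq ?_
      rw [← Pr_false S.P]
      refine S.P.Pr_congr fun w _ => ?_
      constructor
      · rintro ⟨a, b, _⟩; exact h (by rw [← a]; exact b)
      · exact fun h => h.elim
  have hm0 : 0 < S.P.m X w0 := S.P.m_pos X (S.ppos w0)
  unfold FP.ce
  rw [div_le_iff₀ hm0, hden]
  refine hnum.trans (le_of_eq ?_)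
  unfold Za avg
  have := (fib_pos pk (S.xi w0)).ne'
  field_simp

/-- the mean is the mean of the scale -/
theorem E_Za (n t : ℕ) :
    S.P.E (fun w => Za S pk m v n t (S.gm t w) (S.xi w) (S.x w)) =
      S.P.E (fun w => Zt S m v n t (S.gm t w) (S.xi w) (S.x w)) :=
  E_avg pk t fun g ξ x => Zt S m v n t g ξ x

/-- a true code is visible -/
theorem low_t {n t : ℕ} {w : Om} (h : n ∈ m t (S.gm t w) (S.xi w) (S.x w)) :
    1 / (Fintype.card Pt : ℝ) ≤ Zt S m v n t (S.gm t w) (S.xi w) (S.x w) := by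
  have h1 := dn_le_Zt (m := m) (n := n) (le_refl t) (Cmp.refl (S := S) v t w)
  rw [shw_self] at h1
  refine le_trans ?_ h1
  have hc := cell_pos S t (S.x w v)
  have h2 : (1 : ℝ) ≤ ∑ y : Pt, ind (S.cl t y = S.cl t (S.x w v) ∧ n ∈ m t (S.gm t w) (S.xi w) (Function.update (S.x w) v y)) := by
    have h3 := Finset.single_le_sum (f := fun y : Pt => ind (S.cl t y = S.cl t (S.x w v) ∧
      n ∈ m t (S.gm t w) (S.xi w) (Function.update (S.x w) v y))) (fun _ _ => ind_nonneg _) (Finset.mem_univ (S.x w v))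
    refine le_trans (le_of_eq ?_) h3
    symm
    exact ind_of ⟨rfl, by rw [Function.update_eq_self]; exact h⟩
  have h3 : ∑ y : Pt, ind (S.cl t y = S.cl t (S.x w v)) ≤ (Fintype.card Pt : ℝ) := by
    refine (Finset.sum_le_sum fun y _ => ind_le_one (S.cl t y = S.cl t (S.x w v))).trans ?_
    simp
  unfold dn
  exact div_le_div₀ (zero_le_one.trans h2) h2 hc h3

theorem low_a {n t : ℕ} {w : Om} (h : n ∈ m t (S.gm t w) (S.xi w) (S.x w)) :
    1 / (Fintype.card Pt : ℝ) / Fintype.card Ξ ≤ Za S pk m v n t (S.gm t w) (S.xi w) (S.x w) := by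
  refine le_trans ?_ (le_avg (pk := pk) (fun _ => Zt_nonneg _ _ _ _ _ _ _ _) (S.xi w))
  exact div_le_div_of_nonneg_right (low_t h) (Nat.cast_nonneg _)

end

end Pool.Agent.GMN
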