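import Pool.Agent.GMN.StepInp
import Pool.Agent.GMN.RecZ
import Pool.Agent.GMN.RecO
import Pool.Agent.GMN.Coins
import Pool.Agent.GMN.DeadS
import Pool.Agent.GM.Dbl

/-!
# GMN/JRS1 (helper4): THE RECORD LEMMA IN THE GEOMETRY `Sys`, one reference vertex (row N, NM.4, 4.1; RecOut of StepInp)

`Rf = {u}`.  Names = ranks `b : Fin M` of the traces in the public set of the face of the client, coins at the ranks.
`scR b` = averaged scale `Za` (RecZ) of the trace of rank `b`; the rank `b` is recorded iff `(1/2) ^ level ≤ Rr * scR b`.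
`CR` = recorded traces = function of (coins, exact vertices off `u, v`, cell of `u`, node); `N u = ownL CR u` (RecO).

* `jrs_one` : `RecOut` with sizes `K^2 Rr (1 + 2 J n) / q`, `K^2 B / q` and failure coefficient `16 D0 K / Rr`;
* `jrs_zero` : no reference vertex.
-/

set_option autoImplicit false
set_option linter.unusedSectionVars false

namespace Pool.Agent.GMN

open Finset Pool.Agent.PWZ Pool.Agent.M3 Pool.Agent.M3.TS Pool.Agent.GM

noncomputable section

variable {ι Om Ξ Pt V Γ κ : Type} [Fintype ι] [DecidableEq ι] [Fintype Om] [Fintype Ξ] [Fintype Pt]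
  [Fintype V] {S : Sys ι Om Ξ Pt V Γ κ}

/-! ### ranks of functions of cells -/

theorem DepC.le {β : Type} {s t : ℕ} {I J : Finset ι} {f : (ι → Pt) → β} (h : DepC S s I J f) (hst : s ≤ t) :
    DepC S t I J f := by
  induction t, hst using Nat.le_induction with
  | base => exact h
  | succ t _ ih => exact ih.down

theorem rl_depC {A : ℕ → Γ → (ι → Pt) → Finset ℕ} {I J : Finset ι} (h : ∀ t g, DepC S t I J (A t g)) (t : ℕ) :
    ∀ g, DepC S t I J (rl S A t g) := by
  induction t with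
  | zero =>
    intro g x y h1 h2
    show (A 0 g x).sort (· ≤ ·) = (A 0 g y).sort (· ≤ ·)
    rw [h 0 g x y h1 h2]
  | succ t ih =>
    intro g x y h1 h2
    rw [rl_succ, rl_succ, (ih _).down x y h1 h2, h (t + 1) g x y h1 h2]

theorem nth_depC {A : ℕ → Γ → (ι → Pt) → Finset ℕ} {I J : Finset ι} (h : ∀ t g, DepC S t I J (A t g)) (r t : ℕ) (g : Γ) :
    DepC S t I J (nth S A r t g) := fun x y h1 h2 => by
  unfold nth
  rw [rl_depC h t g x y h1 h2]

/-- averages with equivalent knowledges -/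
theorem avg_iff {Ξ α α' : Type*} [Fintype Ξ] {pk : Ξ → α} {pz : Ξ → α'} (h : ∀ ξ ξ', pk ξ = pk ξ' ↔ pz ξ = pz ξ')
    (a : Ξ → ℝ) (ξ : Ξ) : avg pk a ξ = avg pz a ξ := by
  unfold avg
  have e : ∀ ξ', ind (pk ξ' = pk ξ) = ind (pz ξ' = pz ξ) := fun ξ' => by rw [propext (h ξ' ξ)]
  rw [Finset.sum_congr rfl fun ξ' _ => by rw [e ξ'], Finset.sum_congr rfl fun ξ' _ => e ξ']

/-- conditional means of functions which agree on the class -/
theorem ce_cls {Om κ : Type*} [Fintype Om] (P : FP Om) (X : Om → κ) {f g : Om → ℝ} {w : Om}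
    (h : ∀ v, X v = X w → f v = g v) : P.ce X f w = P.ce X g w := by
  unfold FP.ce
  congr 1
  refine P.E_congr fun v _ => ?_
  by_cases hv : X v = X w
  · rw [h v hv]
  · rw [ind_not hv, zero_mul, zero_mul]

section one

variable {β : Type} (D : StepIn S β) (M : ℕ) (u : ι) (Rr : ℝ) (g0 : ℕ)

/-- traces in the list and in the box set -/
def mmR : CS ι Ξ Pt Γ := fun t g ξ x => (D.Lr u).L t g ξ x ∩ (D.Br u).L t g x

/-- the trace of rank `b` -/
def cfR (b : Fin M) (t : ℕ) (g : Γ) (x : ι → Pt) : Option ℕ := (D.refR M u).N b t g x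

/-- scale of the rank `b` -/
def scR (b : Fin M) (t : ℕ) (g : Γ) (ξ : Ξ) (x : ι → Pt) : ℝ :=
  (cfR D M u b t g x).elim 0 fun n => Za S D.pz (mmR D u) D.v n t g ξ x

/-- the reference of rank `b` -/
def tupR (b : Fin M) : Rk ι M := fun u' => if u' = u then b else ⟨0, b.pos⟩

/-- recorded -/
def recR (b : Fin M) (t : ℕ) (g : Γ) (ξ : Ξ × (Fin M → Fin (2 ^ g0))) (x : ι → Pt) : Prop :=
  (1 / 2 : ℝ) ^ (lvl g0 (ξ.2 b)) ≤ Rr * scR D M u b t g ξ.1 x

/-- allowed -/
def alR (t : ℕ) (g : Γ) (ξ : Ξ × (Fin M → Fin (2 ^ g0))) (x : ι → Pt) (r : Rk ι M) : Prop :=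
  ∃ b, tupR M u b = r ∧ recR D M u Rr g0 b t g ξ x

open Classical in
/-- recorded traces -/
def CR : CS ι (Ξ × (Fin M → Fin (2 ^ g0))) Pt Γ := fun t g ξ x =>
  (univ.filter fun b => recR D M u Rr g0 b t g ξ x).biUnion fun b => (cfR D M u b t g x).toFinset

variable {D M u Rr g0}

theorem mem_CR {t : ℕ} {g : Γ} {ξ : Ξ × (Fin M → Fin (2 ^ g0))} {x : ι → Pt} {n : ℕ} :
    n ∈ CR D M u Rr g0 t g ξ x ↔ ∃ b, recR D M u Rr g0 b t g ξ x ∧ cfR D M u b t g x = some n := by
  classical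
  unfold CR
  rw [Finset.mem_biUnion]
  simp only [mem_filter, mem_univ, true_and, Option.mem_toFinset, Option.mem_def]

theorem mmR_dep (huv : u ≠ D.v) (t : ℕ) (g : Γ) (ξ : Ξ) : Dep (univ.erase u) (mmR D u t g ξ) := by
  intro x y h
  unfold mmR
  rw [(D.Lr u).dep t g ξ x y h, (D.Br u).dep t g x y (fun i hi => h i (mem_of_mem_erase hi)) fun i hi => by
    rw [h i (by rw [Finset.mem_singleton.1 hi]; exact mem_erase.2 ⟨huv.symm, mem_univ _⟩)]]

theorem mmR_mono (t : ℕ) (g : Γ) (ξ : Ξ) (x : ι → Pt) : mmR D u t (S.par t g) ξ x ⊆ mmR D u (t + 1) g ξ x :=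
  Finset.inter_subset_inter ((D.Lr u).mono t g ξ x) ((D.Br u).mono t g x)

theorem Br_dep (t : ℕ) (g : Γ) : DepUV S u D.v t ((D.Br u).L t g) := (D.Br u).dep t g

theorem cfR_eq (huv : u ≠ D.v) (b : Fin M) (t : ℕ) (g : Γ) (x : ι → Pt) :
    cfR D M u b t g x = nth S (D.Br u).cmp.L b t g x := by
  unfold cfR StepIn.refR StepIn.refSet
  rw [dif_pos huv.symm]
  rfl

theorem cfR_dep (huv : u ≠ D.v) (b : Fin M) (t : ℕ) (g : Γ) : DepC S t ((univ.erase u).erase D.v) {u} (cfR D M u b t g) := by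
  have h1 : cfR D M u b t g = nth S (D.Br u).cmp.L b t g := funext fun x => cfR_eq huv b t g x
  rw [h1]
  refine nth_depC (fun t g => ?_) b t g
  have h2 := (D.Br u).cmp.dep t g
  rw [Finset.erase_right_comm] at h2
  exact h2

theorem cfR_succ {b : Fin M} {t : ℕ} {g : Γ} {x : ι → Pt} {n : ℕ} (h : cfR D M u b t (S.par t g) x = some n) :
    cfR D M u b (t + 1) g x = some n := (D.refR M u).keep b t g x n h

theorem cfR_mem (huv : u ≠ D.v) {b : Fin M} {t : ℕ} {w : Om} {n : ℕ} (h : cfR D M u b t (S.gm t w) (S.x w) = some n) :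
    n ∈ (D.Br u).cmp.at' t w := by
  rw [cfR_eq huv] at h
  exact nth_mem (D.Br u).cmp.mono h

theorem cfR_inj {b b' : Fin M} {t : ℕ} {g : Γ} {x : ι → Pt} {n : ℕ} (h : cfR D M u b t g x = some n)
    (h' : cfR D M u b' t g x = some n) : b = b' := Fin.ext (nth_inj h h')

theorem scR_nonneg (b : Fin M) (t : ℕ) (g : Γ) (ξ : Ξ) (x : ι → Pt) : 0 ≤ scR D M u b t g ξ x := by
  unfold scR
  cases cfR D M u b t g x with
  | none => exact le_rfl
  | some n => exact Za_nonneg _ _ _ _ _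

theorem scR_dep (huv : u ≠ D.v) (b : Fin M) (t : ℕ) (g : Γ) (ξ : Ξ) :
    DepC S t ((univ.erase u).erase D.v) {u} (scR D M u b t g ξ) := by
  intro x y h1 h2
  unfold scR
  rw [cfR_dep huv b t g x y h1 h2]
  cases cfR D M u b t g y with
  | none => rfl
  | some n => exact Za_dep huv (mmR_dep huv) n t g ξ x y h1 h2

theorem scR_mono (b : Fin M) (t : ℕ) (g : Γ) (ξ : Ξ) (x : ι → Pt) :
    scR D M u b t (S.par t g) ξ x ≤ scR D M u b (t + 1) g ξ x := by
  cases h : cfR D M u b t (S.par t g) x with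
  | none =>
    have e : scR D M u b t (S.par t g) ξ x = 0 := by unfold scR; rw [h]; rfl
    rw [e]
    exact scR_nonneg _ _ _ _ _
  | some n =>
    unfold scR
    rw [h, cfR_succ h]
    exact Za_mono _ _ _ _ _

theorem scR_congr (b : Fin M) (t : ℕ) (g : Γ) {ξ ξ' : Ξ} (h : D.pz ξ = D.pz ξ') (x : ι → Pt) :
    scR D M u b t g ξ x = scR D M u b t g ξ' x := by
  unfold scR
  cases cfR D M u b t g x with
  | none => rfl
  | some n => exact Za_congr n t g h x

theorem dep_of_depC {γ : Type} (huv : u ≠ D.v) {t : ℕ} {f : (ι → Pt) → γ} (h : DepC S t ((univ.erase u).erase D.v) {u} f) :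
    Dep (univ.erase D.v) f := by
  intro x y hxy
  refine h x y (fun i hi => hxy i ?_) fun i hi => ?_
  · exact mem_erase.2 ⟨ne_of_mem_erase hi, mem_univ i⟩
  · rw [hxy i (by rw [Finset.mem_singleton.1 hi]; exact mem_erase.2 ⟨huv, mem_univ _⟩)]

theorem recR_dep (huv : u ≠ D.v) (b : Fin M) (t : ℕ) (g : Γ) (ξ : Ξ × (Fin M → Fin (2 ^ g0))) :
    DepC S t ((univ.erase u).erase D.v) {u} (recR D M u Rr g0 b t g ξ) := by
  intro x y h1 h2
  unfold recR
  rw [scR_dep huv b t g ξ.1 x y h1 h2]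

theorem recR_mono (hR : 0 ≤ Rr) {b : Fin M} {t : ℕ} {g : Γ} {ξ : Ξ × (Fin M → Fin (2 ^ g0))} {x : ι → Pt}
    (h : recR D M u Rr g0 b t (S.par t g) ξ x) : recR D M u Rr g0 b (t + 1) g ξ x :=
  h.trans (mul_le_mul_of_nonneg_left (scR_mono b t g ξ.1 x) hR)

theorem recR_congr {b : Fin M} {t : ℕ} {g : Γ} {ξ ξ' : Ξ × (Fin M → Fin (2 ^ g0))} (h : D.pz ξ.1 = D.pz ξ'.1)
    (h2 : ξ.2 = ξ'.2) (x : ι → Pt) : recR D M u Rr g0 b t g ξ x ↔ recR D M u Rr g0 b t g ξ' x := by
  unfold recR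
  rw [scR_congr b t g h x, h2]

/-- a recorded rank has a trace -/
theorem recR_some {b : Fin M} {t : ℕ} {g : Γ} {ξ : Ξ × (Fin M → Fin (2 ^ g0))} {x : ι → Pt}
    (h : recR D M u Rr g0 b t g ξ x) : ∃ n, cfR D M u b t g x = some n := by
  cases hc : cfR D M u b t g x with
  | none =>
    exfalso
    unfold recR scR at h
    rw [hc] at h
    have h1 : (0 : ℝ) < (1 / 2 : ℝ) ^ (lvl g0 (ξ.2 b)) := by positivity
    have h2 : Rr * (none : Option ℕ).elim 0 (fun n => Za S D.pz (mmR D u) D.v n t g ξ.1 x) = 0 := mul_zero _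
    rw [h2] at h
    linarith
  | some n => exact ⟨n, rfl⟩

theorem CR_dep (huv : u ≠ D.v) (t : ℕ) (g : Γ) (ξ : Ξ × (Fin M → Fin (2 ^ g0))) :
    DepC S t ((univ.erase u).erase D.v) {u} (CR D M u Rr g0 t g ξ) := by
  intro x y h1 h2
  ext n
  rw [mem_CR, mem_CR]
  refine exists_congr fun b => ?_
  rw [recR_dep huv b t g ξ x y h1 h2, cfR_dep huv b t g x y h1 h2]

theorem CR_mono (hR : 0 ≤ Rr) (t : ℕ) (g : Γ) (ξ : Ξ × (Fin M → Fin (2 ^ g0))) (x : ι → Pt) :
    CR D M u Rr g0 t (S.par t g) ξ x ⊆ CR D M u Rr g0 (t + 1) g ξ x := by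
  intro n hn
  rw [mem_CR] at hn ⊢
  obtain ⟨b, h1, h2⟩ := hn
  exact ⟨b, recR_mono hR h1, cfR_succ h2⟩

/-- the tuple is canonical -/
theorem tupR_can (hRf : D.Rf = {u}) (b : Fin M) : D.Can M (tupR M u b) := by
  intro u' hu'
  unfold tupR
  rw [if_neg fun h => hu' (by rw [hRf, h]; exact mem_singleton_self _)]

theorem tupR_u (b : Fin M) : tupR (ι := ι) M u b u = b := by
  unfold tupR
  rw [if_pos rfl]

theorem tupR_of_can (hRf : D.Rf = {u}) {r : Rk ι M} (h : D.Can M r) : tupR M u (r u) = r := by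
  funext u'
  unfold tupR
  by_cases e : u' = u
  · rw [if_pos e, e]
  · rw [if_neg e]
    exact Fin.ext (h u' (by rw [hRf, mem_singleton]; exact e)).symm

/-! ### the hypotheses of the abstract record lemma -/

variable (D M u) (bl : ℕ)

/-- scale at machine times -/
def ZR (i : ℕ) (b : Fin M) (w : Om) : ℝ := scR D M u b (i / bl) (S.gm (i / bl) w) (S.xi w) (S.x w)

/-- the hidden vertex has the reference of rank `b` -/
def hasR (i : ℕ) (w : Om) (b : Fin M) : Prop :=
  ∃ s, cfR D M u b (i / bl) (S.gm (i / bl) w) (S.x w) = some s ∧ s ∈ mmR D u (i / bl) (S.gm (i / bl) w) (S.xi w) (S.x w)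

variable {D M u bl}

theorem Kc_eq {i : ℕ} {v w : Om} : D.Kc bl i v = D.Kc bl i w ↔ D.pcl (S.xi v) = D.pcl (S.xi w) ∧
    (∀ j, j ≠ D.v → S.x v j = S.x w j) ∧ S.gm (i / bl) v = S.gm (i / bl) w := by
  have e : D.Kc bl i v = D.Kc bl i w ↔ D.pcl (S.xi v) = D.pcl (S.xi w) ∧
      res (univ.erase D.v) (S.x v) = res (univ.erase D.v) (S.x w) ∧ S.gm (i / bl) v = S.gm (i / bl) w := by
    constructor
    · intro h
      exact ⟨congrArg Prod.fst h, congrArg (fun p => p.2.1) h, congrArg (fun p => p.2.2) h⟩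
    · rintro ⟨a, b, c⟩
      exact Prod.ext a (Prod.ext b c)
  rw [e, res_eq]
  refine and_congr Iff.rfl (and_congr ?_ Iff.rfl)
  constructor
  · intro h i hi; exact h i (mem_erase.2 ⟨hi, mem_univ _⟩)
  · intro h i hi; exact h i (mem_erase.1 hi).1

theorem pz_of_pcl {ξ ξ' : Ξ} (h : D.pcl ξ = D.pcl ξ') : D.pz ξ = D.pz ξ' := congrArg Prod.fst h

theorem Kc_filt : Filt (D.Kc bl) := by
  intro i v w h
  rw [Kc_eq] at h ⊢
  exact ⟨h.1, h.2.1, S.gm_le (Nat.div_le_div_right (Nat.le_succ i)) h.2.2⟩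

theorem dep_Kc {γ : Type} {f : (ι → Pt) → γ} (h : Dep (univ.erase D.v) f) {v w : Om}
    (hx : ∀ j, j ≠ D.v → S.x v j = S.x w j) : f (S.x v) = f (S.x w) := h _ _ fun i hi => hx i (ne_of_mem_erase hi)

theorem ZR_fac (huv : u ≠ D.v) (i : ℕ) (b : Fin M) : Fac (D.Kc bl i) (ZR D M u bl i b) := by
  intro v w h
  rw [Kc_eq] at h
  unfold ZR
  rw [h.2.2, scR_congr b (i / bl) _ (pz_of_pcl h.1)]
  exact dep_Kc (dep_of_depC huv (scR_dep huv b (i / bl) (S.gm (i / bl) w) (S.xi w))) h.2.1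

theorem ZR_nonneg (i : ℕ) (b : Fin M) (w : Om) : 0 ≤ ZR D M u bl i b w := scR_nonneg _ _ _ _ _

theorem sc_le {s t : ℕ} (h : s ≤ t) (b : Fin M) (w : Om) :
    scR D M u b s (S.gm s w) (S.xi w) (S.x w) ≤ scR D M u b t (S.gm t w) (S.xi w) (S.x w) := by
  induction t, h using Nat.le_induction with
  | base => exact le_rfl
  | succ t _ ih =>
    have h1 := scR_mono (D := D) (M := M) (u := u) b t (S.gm (t + 1) w) (S.xi w) (S.x w)
    rw [S.par_gm] at h1
    exact ih.trans h1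

theorem ZR_mono (i : ℕ) (b : Fin M) (w : Om) : ZR D M u bl i b w ≤ ZR D M u bl (i + 1) b w :=
  sc_le (Nat.div_le_div_right (Nat.le_succ i)) b w

theorem hasR_le {s t : ℕ} (h : s ≤ t) {b : Fin M} {w : Om} {n : ℕ}
    (h1 : cfR D M u b s (S.gm s w) (S.x w) = some n) (h2 : n ∈ mmR D u s (S.gm s w) (S.xi w) (S.x w)) :
    cfR D M u b t (S.gm t w) (S.x w) = some n ∧ n ∈ mmR D u t (S.gm t w) (S.xi w) (S.x w) := by
  refine ⟨?_, mem_le (S := S) mmR_mono h w h2⟩
  induction t, h using Nat.le_induction with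
  | base => exact h1
  | succ t _ ih =>
    refine cfR_succ ?_
    rw [S.par_gm]
    exact ih

theorem hasR_mono {i : ℕ} {w : Om} {b : Fin M} (h : hasR D M u bl i w b) : hasR D M u bl (i + 1) w b := by
  obtain ⟨n, h1, h2⟩ := h
  exact ⟨n, hasR_le (Nat.div_le_div_right (Nat.le_succ i)) h1 h2⟩

/-- a true rank has a positive scale -/
theorem hasR_low {i : ℕ} {w : Om} {b : Fin M} (h : hasR D M u bl i w b) :
    1 / (Fintype.card Pt : ℝ) / Fintype.card Ξ ≤ ZR D M u bl i b w := by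
  obtain ⟨n, h1, h2⟩ := h
  unfold ZR scR
  rw [h1]
  exact low_a h2

/-- **mass** -/
theorem hasR_mass (huv : u ≠ D.v) (hu : u ∈ D.Rf) (i : ℕ) (b : Fin M) (w : Om) :
    S.P.ce (D.Kc bl i) (fun v => ind (hasR D M u bl i v b ∧ True)) w ≤ S.K * ZR D M u bl i b w := by
  classical
  set t := i / bl with ht
  have hKn : 0 ≤ S.K := le_trans zero_le_one S.K1
  have hcf : ∀ v, D.Kc bl i v = D.Kc bl i w → cfR D M u b t (S.gm t v) (S.x v) = cfR D M u b t (S.gm t w) (S.x w) := by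
    intro v h
    rw [Kc_eq] at h
    rw [h.2.2]
    exact dep_Kc (dep_of_depC huv (cfR_dep huv b t (S.gm t w))) h.2.1
  cases hc : cfR D M u b t (S.gm t w) (S.x w) with
  | none =>
    have h1 : S.P.ce (D.Kc bl i) (fun v => ind (hasR D M u bl i v b ∧ True)) w = S.P.ce (D.Kc bl i) (fun _ => 0) w := by
      refine ce_cls S.P (D.Kc bl i) fun v hv => ?_
      refine ind_not ?_
      rintro ⟨⟨n, h2, _⟩, _⟩
      have h3 := hcf v hv
      rw [hc] at h3
      have h2' : cfR D M u b t (S.gm t v) (S.x v) = some n := h2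
      rw [h3] at h2'
      exact absurd h2' (by simp)
    rw [h1, S.P.ce_const _ _ (S.ppos w)]
    exact mul_nonneg hKn (ZR_nonneg _ _ _)
  | some n =>
    have h1 : S.P.ce (D.Kc bl i) (fun v => ind (hasR D M u bl i v b ∧ True)) w =
        S.P.ce (D.Kc bl i) (fun v => ind (n ∈ mmR D u t (S.gm t v) (S.xi v) (S.x v))) w := by
      refine ce_cls S.P (D.Kc bl i) fun v hv => ?_
      congr 1
      apply propext
      constructor
      · rintro ⟨⟨n', h2, h3⟩, _⟩
        have h4 := hcf v hv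
        rw [hc] at h4
        have h2' : cfR D M u b t (S.gm t v) (S.x v) = some n' := h2
        rw [h4] at h2'
        rw [Option.some.inj h2']
        exact h3
      · intro h2
        exact ⟨⟨n, by rw [← hc]; exact hcf v hv, h2⟩, trivial⟩
    rw [h1]
    have h2 := mass_a (S := S) (pk := D.pcl) (m := mmR D u) (v := D.v) n t w
    refine h2.trans (le_of_eq ?_)
    congr 1
    unfold ZR scR
    rw [← ht, hc]
    show Za S D.pcl (mmR D u) D.v n t (S.gm t w) (S.xi w) (S.x w) = Za S D.pz (mmR D u) D.v n t (S.gm t w) (S.xi w) (S.x w)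
    by_cases hL : D.Lv.Free D.pz
    · refine avg_iff (fun ξ ξ' => ?_) _ _
      unfold StepIn.pcl
      rw [if_pos hL, if_pos hL]
      constructor
      · intro h; exact congrArg Prod.fst h
      · intro h; rw [h]
    · have hf := (D.zf.resolve_left hL) u hu
      refine Za_fine (fun t g ξ ξ' x h => ?_) (fun ξ ξ' h => pz_of_pcl h) _ _ _ _ _
      unfold mmR
      rw [hf t g ξ ξ' x h]

/-- the masses of the knowledge -/
theorem Kc_dbl {D0 : ℝ} (hD0 : S.Dbl D0) (i : ℕ) (w : Om) (s : Om → Prop) :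
    S.P.ce (D.Kc bl (i + 1)) (fun v => ind (s v)) w ≤ D0 * S.P.ce (D.Kc bl i) (fun v => ind (s v)) w := by
  classical
  have hD1 := hD0.one_le
  -- the mass of a class
  have hmass : ∀ j, S.P.m (D.Kc bl j) w = (∑ ξ, ind (D.pcl ξ = D.pcl (S.xi w))) *
      (S.P.Pr (fun v => S.gm (j / bl) v = S.gm (j / bl) w) /
        (Fintype.card Ξ * (Fintype.card Pt : ℝ) ^ (Fintype.card ι - 1))) := by
    intro j
    have h1 : S.P.m (D.Kc bl j) w = S.P.Pr (fun v => D.pcl (S.xi v) = D.pcl (S.xi w) ∧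
        (∀ l, l ≠ D.v → S.x v l = S.x w l) ∧ S.gm (j / bl) v = S.gm (j / bl) w) :=
      S.P.Pr_congr fun v _ => Kc_eq
    rw [h1, Pr_univ S.P S.xi, Finset.sum_mul]
    refine Finset.sum_congr rfl fun ξ _ => ?_
    by_cases h : D.pcl ξ = D.pcl (S.xi w)
    · rw [ind_of h, one_mul, ← S.law (j / bl) (S.gm (j / bl) w) D.v ξ (S.x w)]
      refine S.P.Pr_congr fun v _ => ?_
      constructor
      · rintro ⟨a, _, b⟩; exact ⟨a, b⟩
      · rintro ⟨a, b⟩; exact ⟨a, by rw [a]; exact h, b⟩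
    · rw [ind_not h, zero_mul, ← Pr_false S.P]
      refine S.P.Pr_congr fun v _ => ?_
      constructor
      · rintro ⟨a, b, _⟩; exact h (by rw [← a]; exact b)
      · exact fun h => h.elim
  refine ce_le_of_m S.P (Kc_filt i) (S.ppos w) ?_ fun v _ => ind_nonneg _
  rw [hmass i, hmass (i + 1)]
  have h2 : S.P.Pr (fun v => S.gm (i / bl) v = S.gm (i / bl) w) ≤
      D0 * S.P.Pr (fun v => S.gm ((i + 1) / bl) v = S.gm ((i + 1) / bl) w) := by
    rcases Nat.eq_zero_or_pos bl with hb | hb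
    · subst hb
      rw [Nat.div_zero, Nat.div_zero]
      have := S.P.Pr_nonneg (fun v => S.gm 0 v = S.gm 0 w)
      nlinarith
    · have h3 : (i + 1) / bl = i / bl ∨ (i + 1) / bl = i / bl + 1 := by
        have := Nat.succ_div (a := i) (b := bl)
        split_ifs at this <;> omega
      rcases h3 with h3 | h3
      · rw [h3]
        have := S.P.Pr_nonneg (fun v => S.gm (i / bl) v = S.gm (i / bl) w)
        nlinarith
      · rw [h3]
        exact hD0 (i / bl) w
  have h3 : 0 ≤ ∑ ξ, ind (D.pcl ξ = D.pcl (S.xi w)) := Finset.sum_nonneg fun _ _ => ind_nonneg _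
  have hc : (0 : ℝ) ≤ Fintype.card Ξ * (Fintype.card Pt : ℝ) ^ (Fintype.card ι - 1) := by positivity
  refine (mul_le_mul_of_nonneg_left (div_le_div_of_nonneg_right h2 hc) h3).trans (le_of_eq ?_)
  ring

end one

/-! ### the instance -/

section main

variable {β : Type} {D : StepIn S β} {M : ℕ} {u : ι} {Rr : ℝ} {g0 bl : ℕ}

/-- what the machine hypotheses of `RecOut.fail` are about -/
theorem AvR_fac (huv : u ≠ D.v) (f : Fin M → ℕ) (i : ℕ) :
    Fac (D.Kc bl i) (Av (fun b : Fin M => ({b} : Finset (Fin M))) (tupR M u) (ZR D M u bl) Rr f i) := by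
  intro v w h
  funext n
  apply propext
  unfold Av rec'
  refine exists_congr fun b => and_congr Iff.rfl ?_
  refine forall_congr' fun x => forall_congr' fun _ => ?_
  rw [ZR_fac huv i x v w h]

theorem AvR_mono (hR : 0 ≤ Rr) (f : Fin M → ℕ) (i : ℕ) (w : Om) (r : Rk ι M)
    (h : Av (fun b : Fin M => ({b} : Finset (Fin M))) (tupR M u) (ZR D M u bl) Rr f i w r) :
    Av (fun b : Fin M => ({b} : Finset (Fin M))) (tupR M u) (ZR D M u bl) Rr f (i + 1) w r := by
  obtain ⟨b, h1, h2⟩ := h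
  exact ⟨b, h1, fun x hx => (h2 x hx).trans (mul_le_mul_of_nonneg_left (ZR_mono i x w) hR)⟩

/-- the hypotheses of the abstract record lemma -/
theorem jrv_one (huv : u ≠ D.v) (hu : u ∈ D.Rf) (hbl : 1 ≤ bl) {D0 : ℝ} (hD0 : S.Dbl D0) (hR1 : 1 ≤ Rr)
    (hg : (1 / 2 : ℝ) ^ g0 ≤ 1 / (Fintype.card Pt : ℝ) / Fintype.card Ξ) {St : Type} {Mw : Om → Mach (Rk ι M) St} {N : ℕ}
    {Mu Nv : ℝ} (hMu : 0 ≤ Mu) (hNv : 0 ≤ Nv) (hM : MFac (D.Kc bl) Mw)
    (hterm : ∀ A : ℕ → Rk ι M → Prop, ∀ w, ∀ i, (Mw w).pk A N i N = none)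
    (huse : ∀ A : ℕ → Om → Rk ι M → Prop, (∀ i, Fac (D.Kc bl i) (A i)) → (∀ i w r, A i w r → A (i + 1) w r) →
      S.P.E (fun w => ∑ i ∈ range (S.n * bl + bl), ∑ l ∈ range N, ind ((Mw w).pk (fun j => A j w) N i l ≠ none)) ≤ Mu)
    (hends : ∀ A : ℕ → Om → Rk ι M → Prop, (∀ i, Fac (D.Kc bl i) (A i)) → (∀ i w r, A i w r → A (i + 1) w r) →
      ∀ r, ∀ i < S.n * bl + bl, ∀ F : Om → Prop, (∀ v w, D.Kc bl i v = D.Kc bl i w → (F v ↔ F w)) →
      ∑ t ∈ Ico i (S.n * bl + bl), S.P.Pr (fun w => F w ∧ (Mw w).endM (fun j => A j w) N r t) ≤ Nv * S.P.Pr F) :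
    JRV S.P (D.Kc bl) (fun b : Fin M => ({b} : Finset (Fin M))) (tupR M u) (hasR D M u bl) (fun _ _ => True)
      (ZR D M u bl) Rr Mw N (S.n * bl + (bl - 1)) g0 1 Mu Nv S.K 1 D0 where
  R1 := hR1
  Db1 := hD0.one_le
  filt := Kc_filt
  mfac := hM
  Zfac i x := ZR_fac huv i x
  Z0 i x w := ZR_nonneg i x w
  Zmono i x w := ZR_mono i x w
  cum i w n h := by
    obtain ⟨b, h1, h2⟩ := h
    exact ⟨b, h1, hasR_mono h2⟩
  dbl i w _ s := Kc_dbl hD0 i w s
  low i w b _ h _ x hx := by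
    rw [mem_singleton] at hx
    subst hx
    have h1 := hasR_low h
    have h2 := ZR_nonneg (D := D) (M := M) (u := u) (bl := bl) i x w
    have h3 : ZR D M u bl i x w ≤ Rr * ZR D M u bl i x w := le_mul_of_one_le_left h2 hR1
    exact (hg.trans h1).trans h3
  kap0 := zero_le_one.trans S.K1
  mass i b w _ := by
    rw [Finset.prod_singleton]
    exact hasR_mass huv hu i b w
  B0 := zero_le_one
  sumB J hJ w _ := by
    obtain ⟨j, hj⟩ := hJ
    have h1 : ∀ b : Fin M, (if J ⊆ ({b} : Finset (Fin M)) then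
        ∏ x ∈ ({b} : Finset (Fin M)) \ J, ZR D M u bl (S.n * bl + (bl - 1)) x w else 0) ≤ if b = j then (1 : ℝ) else 0 := by
      intro b
      by_cases h : J ⊆ ({b} : Finset (Fin M))
      · have h2 : j = b := by have := h hj; rwa [mem_singleton] at this
        subst h2
        rw [if_pos h, if_pos rfl]
        have h3 : ({j} : Finset (Fin M)) \ J = ∅ := by
          rw [Finset.sdiff_eq_empty_iff_subset, Finset.singleton_subset_iff]
          exact hj
        rw [h3, Finset.prod_empty]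
      · rw [if_neg h]
        split_ifs
        · exact zero_le_one
        · exact le_rfl
    refine (Finset.sum_le_sum fun b _ => h1 b).trans ?_
    rw [Finset.sum_ite_eq']
    simp
  card b := (card_singleton b).le
  term f w _ i _ := hterm _ w i
  Mu0 := hMu
  use f := by
    have h1 := huse (fun j w r => Av (fun b : Fin M => ({b} : Finset (Fin M))) (tupR M u) (ZR D M u bl) Rr f j w r)
      (fun i => AvR_fac huv f i) (fun i w r h => AvR_mono (zero_le_one.trans hR1) f i w r h)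
    refine le_trans (le_of_eq ?_) h1
    have e : S.n * bl + (bl - 1) + 1 = S.n * bl + bl := by omega
    refine S.P.E_congr fun w _ => ?_
    unfold nUseV
    rw [e]
  Nv0 := hNv
  ends f n i hi F hF := by
    have h1 := hends (fun j w r => Av (fun b : Fin M => ({b} : Finset (Fin M))) (tupR M u) (ZR D M u bl) Rr f j w r)
      (fun i => AvR_fac huv f i) (fun i w r h => AvR_mono (zero_le_one.trans hR1) f i w r h) n i (by omega) F hF
    have e : Icc i (S.n * bl + (bl - 1)) = Ico i (S.n * bl + bl) := by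
      ext t
      rw [mem_Icc, mem_Ico]
      omega
    rw [e]
    exact h1

/-- coins outside -/
theorem coinFP_Pr_unif (P : FP Om) (Ξ2 : Type) [Fintype Ξ2] [Nonempty Ξ2] (E : Om × Ξ2 → Prop) :
    (coinFP P Ξ2).Pr E = (FP.unif Ξ2).E (fun c => P.Pr (fun w => E (w, c))) := by
  unfold FP.Pr
  rw [coinFP_E, FP.unif_E, P.E_div_const, P.E_sum]

/-- **failure** -/
theorem fail_one (hRf : D.Rf = {u}) (hbl : 1 ≤ bl) {D0 : ℝ} (hD0 : S.Dbl D0) (hR1 : 1 ≤ Rr)
    (hg : (1 / 2 : ℝ) ^ g0 ≤ 1 / (Fintype.card Pt : ℝ) / Fintype.card Ξ) {n B : ℕ} (hB : D.Bd n B) {St : Type}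
    {Mw : Om → Mach (Rk ι M) St} {N : ℕ} {Mu Nv : ℝ} (hMu : 0 ≤ Mu) (hNv : 0 ≤ Nv) (hM : MFac (D.Kc bl) Mw)
    (hterm : ∀ A : ℕ → Rk ι M → Prop, ∀ w, ∀ i, (Mw w).pk A N i N = none)
    (huse : ∀ A : ℕ → Om → Rk ι M → Prop, (∀ i, Fac (D.Kc bl i) (A i)) → (∀ i w r, A i w r → A (i + 1) w r) →
      S.P.E (fun w => ∑ i ∈ range (S.n * bl + bl), ∑ l ∈ range N, ind ((Mw w).pk (fun j => A j w) N i l ≠ none)) ≤ Mu)
    (hends : ∀ A : ℕ → Om → Rk ι M → Prop, (∀ i, Fac (D.Kc bl i) (A i)) → (∀ i w r, A i w r → A (i + 1) w r) →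
      ∀ r, ∀ i < S.n * bl + bl, ∀ F : Om → Prop, (∀ v w, D.Kc bl i v = D.Kc bl i w → (F v ↔ F w)) →
      ∑ t ∈ Ico i (S.n * bl + bl), S.P.Pr (fun w => F w ∧ (Mw w).endM (fun j => A j w) N r t) ≤ Nv * S.P.Pr F) :
    (coinFP S.P (Fin M → Fin (2 ^ g0))).Pr (fun w => ∃ r, ∃ i < S.n * bl + bl, ∃ l ≤ N,
      (Mw w.1).Crit (fun j => alR D M u Rr g0 (j / bl) (S.gm (j / bl) w.1) (S.xi w.1, w.2) (S.x w.1)) N r i l ∧
        D.RTr M r (i / bl) w.1) ≤ 16 * D0 * S.K / Rr * ((Nv + 1) * Mu) := by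
  classical
  have hu : u ∈ D.Rf := by rw [hRf]; exact mem_singleton_self u
  have huv : u ≠ D.v := fun h => D.vR (by rw [← h]; exact hu)
  have H := jrv_one (Rr := Rr) (g0 := g0) huv hu hbl hD0 hR1 hg hMu hNv hM hterm huse hends
  have h1 := H.jr_v (FP.unif (Fin M → Fin (2 ^ g0))) (co g0 id)
    (fun J k hk F hF => hco (g := g0) (pos := (id : Fin M → Fin M)) Function.injective_id J k hk F hF)
  rw [coinFP_Pr_unif]
  refine (FP.E_mono _ fun c _ => S.P.Pr_mono fun w _ h => ?_).trans (h1.trans (le_of_eq ?_))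
  · obtain ⟨r, i, hi, l, hl, hc, htr⟩ := h
    have hRR : ∀ j, alR D M u Rr g0 (j / bl) (S.gm (j / bl) w) (S.xi w, c) (S.x w) =
        Av (fun b : Fin M => ({b} : Finset (Fin M))) (tupR M u) (ZR D M u bl) Rr (fun m => co g0 id m c) j w := by
      intro j
      funext r
      apply propext
      unfold alR Av
      refine exists_congr fun b => and_congr Iff.rfl ?_
      constructor
      · intro h x hx
        rw [mem_singleton] at hx
        subst hx
        exact h
      · intro h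
        exact h b (mem_singleton_self b)
    refine ⟨⟨r, i, by omega, l, hl, ?_, ?_⟩, fun _ _ => trivial⟩
    · have e : (fun j => alR D M u Rr g0 (j / bl) (S.gm (j / bl) w) (S.xi w, c) (S.x w)) =
          fun j => Av (fun b : Fin M => ({b} : Finset (Fin M))) (tupR M u) (ZR D M u bl) Rr (fun m => co g0 id m c) j w :=
        funext fun j => hRR j
      have hc' : (Mw w).Crit (fun j => alR D M u Rr g0 (j / bl) (S.gm (j / bl) w) (S.xi w, c) (S.x w)) N r i l := hc
      rw [e] at hc'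
      exact hc'
    · obtain ⟨hcan, htr⟩ := htr
      obtain ⟨s, hs1, hs2⟩ := htr u hu
      refine ⟨r u, tupR_of_can hRf hcan, s, hs1, ?_⟩
      have hin : i / bl ≤ S.n := by
        have h2 : i < (S.n + 1) * bl := by rw [Nat.add_mul, one_mul]; exact hi
        have h3 := (Nat.div_lt_iff_lt_mul (by omega)).2 h2
        omega
      exact Finset.mem_inter.2 ⟨hs2, hB.sr u hu _ hin w hs2⟩
  · norm_num
    ring

/-! ### sizes -/

/-- number of recorded traces -/
theorem card_CR (t : ℕ) (g : Γ) (ξ : Ξ × (Fin M → Fin (2 ^ g0))) (x : ι → Pt) :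
    ((CR D M u Rr g0 t g ξ x).card : ℝ) ≤ ∑ b, ind (recR D M u Rr g0 b t g ξ x) := by
  classical
  have h1 : (CR D M u Rr g0 t g ξ x).card ≤ (univ.filter fun b => recR D M u Rr g0 b t g ξ x).card := by
    unfold CR
    refine Finset.card_biUnion_le.trans ?_
    refine (Finset.sum_le_card_nsmul _ _ 1 fun b _ => ?_).trans (by simp)
    cases cfR D M u b t g x with
    | none => simp
    | some n => simp
  have h2 : ((univ.filter fun b => recR D M u Rr g0 b t g ξ x).card : ℝ) = ∑ b, ind (recR D M u Rr g0 b t g ξ x) := by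
    rw [Finset.card_filter]
    push_cast
    refine Finset.sum_congr rfl fun b _ => ?_
    by_cases h : recR D M u Rr g0 b t g ξ x
    · rw [if_pos h, ind_of h]
    · rw [if_neg h, ind_not h]
  rw [← h2]
  exact_mod_cast h1

/-- mean number of recorded traces -/
theorem E_CR (hR : 0 ≤ Rr) (t : ℕ) :
    (coinFP S.P (Fin M → Fin (2 ^ g0))).E (fun w =>
      ((CR D M u Rr g0 t (S.gm t w.1) (S.xi w.1, w.2) (S.x w.1)).card : ℝ)) ≤
      Rr * S.P.E (fun w => ∑ b, scR D M u b t (S.gm t w) (S.xi w) (S.x w)) := by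
  classical
  refine (FP.E_mono _ fun w _ => card_CR t (S.gm t w.1) (S.xi w.1, w.2) (S.x w.1)).trans ?_
  rw [coinFP_E, ← S.P.E_smul]
  refine S.P.E_mono fun w _ => ?_
  show (∑ z, ∑ b, ind (recR D M u Rr g0 b t (S.gm t w) (S.xi w, z) (S.x w))) / (Fintype.card (Fin M → Fin (2 ^ g0)) : ℝ) ≤ _
  rw [Finset.sum_comm, Finset.sum_div, Finset.mul_sum]
  refine Finset.sum_le_sum fun b _ => ?_
  have h1 := Pr_rec_le (g := g0) (pos := (id : Fin M → Fin M)) Function.injective_id {b}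
    (y := fun _ => Rr * scR D M u b t (S.gm t w) (S.xi w) (S.x w)) (fun _ => mul_nonneg hR (scR_nonneg _ _ _ _ _))
  rw [Finset.prod_singleton] at h1
  refine le_trans (le_of_eq ?_) h1
  unfold FP.Pr
  rw [FP.unif_E]
  congr 1
  refine Finset.sum_congr rfl fun z _ => ?_
  congr 1
  apply propext
  constructor
  · intro h x hx
    rw [mem_singleton] at hx
    subst hx
    exact h
  · intro h
    exact h b (mem_singleton_self b)

/-- mean sum of the scales -/
theorem E_sc (huv : u ≠ D.v) (t J : ℕ) :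
    S.P.E (fun w => ∑ b, scR D M u b t (S.gm t w) (S.xi w) (S.x w)) ≤
      S.K * ((1 / 2 : ℝ) ^ J * S.P.E (fun w => (((D.Br u).L t (S.gm t w) (S.x w)).card : ℝ)) +
        2 * J * S.P.E (fun w => ((mmR D u t (S.gm t w) (S.xi w) (S.x w)).card : ℝ))) := by
  classical
  set U : Finset ℕ := (univ : Finset Om).biUnion fun w => (D.Br u).cmp.at' t w with hU
  have h1 : ∀ w, ∑ b, scR D M u b t (S.gm t w) (S.xi w) (S.x w) ≤
      ∑ n ∈ U, Za S D.pz (mmR D u) D.v n t (S.gm t w) (S.xi w) (S.x w) := by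
    intro w
    have h2 : ∀ b, scR D M u b t (S.gm t w) (S.xi w) (S.x w) =
        ∑ n ∈ U, if cfR D M u b t (S.gm t w) (S.x w) = some n then
          Za S D.pz (mmR D u) D.v n t (S.gm t w) (S.xi w) (S.x w) else 0 := by
      intro b
      cases hc : cfR D M u b t (S.gm t w) (S.x w) with
      | none =>
        unfold scR
        rw [hc]
        refine Eq.trans (show (none : Option ℕ).elim (0 : ℝ) _ = 0 from rfl) (Eq.symm ?_)
        exact Finset.sum_eq_zero fun n _ => if_neg (by simp)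
      | some n =>
        unfold scR
        rw [hc]
        have hn : n ∈ U := Finset.mem_biUnion.2 ⟨w, mem_univ w, cfR_mem huv hc⟩
        rw [Finset.sum_eq_single_of_mem n hn]
        · rw [if_pos rfl]
          rfl
        · intro n' _ hne
          exact if_neg fun h => hne (Option.some.inj h).symm
    rw [Finset.sum_congr rfl fun b _ => h2 b, Finset.sum_comm]
    refine Finset.sum_le_sum fun n _ => ?_
    have hZ := Za_nonneg (S := S) (pk := D.pz) (m := mmR D u) (v := D.v) n t (S.gm t w) (S.xi w) (S.x w)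
    by_cases hex : ∃ b, cfR D M u b t (S.gm t w) (S.x w) = some n
    · obtain ⟨b, hb⟩ := hex
      rw [Finset.sum_eq_single_of_mem b (mem_univ b)]
      · rw [if_pos hb]
      · intro b' _ hne
        exact if_neg fun h => hne (cfR_inj h hb)
    · rw [Finset.sum_eq_zero fun b _ => if_neg fun h => hex ⟨b, h⟩]
      exact hZ
  refine (S.P.E_mono fun w _ => h1 w).trans ?_
  rw [S.P.E_sum, Finset.sum_congr rfl fun n _ => E_Za (S := S) (pk := D.pz) (m := mmR D u) (v := D.v) n t]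
  exact sum_Zt (S := S) huv (mmR_dep huv) mmR_mono (p := fun t g _ x => (D.Br u).L t g x) (fun t g _ => Br_dep t g)
    (fun t g _ x => (D.Br u).mono t g x) (fun t g ξ x => Finset.inter_subset_right) t J U

/-- **mean size of the record of the owner** -/
theorem E_ownR (hRf : D.Rf = {u}) (hR : 0 ≤ Rr) {n B : ℕ} (hB : D.Bd n B) {J : ℕ} (hJ : (B : ℝ) ≤ 2 ^ J) :
    (coinFP S.P (Fin M → Fin (2 ^ g0))).E (fun w =>
      (((ownL (addCoins S (Fin M → Fin (2 ^ g0))) (CR D M u Rr g0) u).at' S.n w).card : ℝ)) ≤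
      S.K * (Rr * (S.K * (1 + 2 * J * n))) := by
  have hu : u ∈ D.Rf := by rw [hRf]; exact mem_singleton_self u
  have huv : u ≠ D.v := fun h => D.vR (by rw [← h]; exact hu)
  have hK : 0 ≤ S.K := le_trans zero_le_one S.K1
  have h1 := E_own (S := addCoins S (Fin M → Fin (2 ^ g0))) (u := u) (v := D.v) huv (C := CR D M u Rr g0)
    (fun t g ξ => depUV_swap (S := addCoins S (Fin M → Fin (2 ^ g0))) (CR_dep huv t g ξ)) (CR_mono hR) S.n
  refine h1.trans ?_
  show S.K * (coinFP S.P (Fin M → Fin (2 ^ g0))).E (fun w =>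
      ((CR D M u Rr g0 S.n (S.gm S.n w.1) (S.xi w.1, w.2) (S.x w.1)).card : ℝ)) ≤ _
  refine mul_le_mul_of_nonneg_left ?_ hK
  refine (E_CR hR S.n).trans (mul_le_mul_of_nonneg_left ?_ hR)
  refine (E_sc huv S.n J).trans (mul_le_mul_of_nonneg_left ?_ hK)
  have h2 : S.P.E (fun w => (((D.Br u).L S.n (S.gm S.n w) (S.x w)).card : ℝ)) ≤ B :=
    S.P.E_le_const fun w _ => by exact_mod_cast hB.br u hu S.n le_rfl w
  have h3 : S.P.E (fun w => ((mmR D u S.n (S.gm S.n w) (S.xi w) (S.x w)).card : ℝ)) ≤ n :=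
    S.P.E_le_const fun w _ => by
      have h4 : (mmR D u S.n (S.gm S.n w) (S.xi w) (S.x w)).card ≤ ((D.Lr u).at' S.n w).card :=
        Finset.card_le_card Finset.inter_subset_left
      exact_mod_cast h4.trans (hB.cr u hu S.n le_rfl w)
  have h5 : (1 / 2 : ℝ) ^ J * S.P.E (fun w => (((D.Br u).L S.n (S.gm S.n w) (S.x w)).card : ℝ)) ≤ 1 := by
    have h6 : (0 : ℝ) < (1 / 2 : ℝ) ^ J := by positivity
    refine (mul_le_mul_of_nonneg_left (h2.trans hJ) h6.le).trans (le_of_eq ?_)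
    rw [← mul_pow]
    norm_num
  have h7 : 2 * (J : ℝ) * S.P.E (fun w => ((mmR D u S.n (S.gm S.n w) (S.xi w) (S.x w)).card : ℝ)) ≤ 2 * J * n :=
    mul_le_mul_of_nonneg_left h3 (by positivity)
  linarith

/-- the record of the owner is in the box set -/
theorem own_pub (huv : u ≠ D.v) (t : ℕ) (w : Om × (Fin M → Fin (2 ^ g0))) :
    (ownL (addCoins S (Fin M → Fin (2 ^ g0))) (CR D M u Rr g0) u).at' t w ⊆ (D.Br u).cmp.cmp.at' t w.1 := by
  intro n hn
  obtain ⟨s, hs, w', h1, hn⟩ := mem_ownL.1 hn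
  obtain ⟨b, _, hb⟩ := mem_CR.1 hn
  rw [cfR_eq huv] at hb
  have h2 := nth_mem (D.Br u).cmp.mono hb
  exact ((D.Br u).cmp.mem_cmp).2 ⟨s, hs, w'.1, h1, h2⟩

/-- **THE RECORD LEMMA**, one reference vertex -/
theorem jrs_one (hRf : D.Rf = {u}) {D0 : ℝ} (hD0 : S.Dbl D0) (hR1 : 1 ≤ Rr)
    {n B : ℕ} (hB : D.Bd n B) {J n' B' : ℕ} {q cf : ℝ} (hJ : (B : ℝ) ≤ 2 ^ J) (hq : 0 < q)
    (hcf : 16 * D0 * S.K / Rr ≤ cf) (hn' : S.K * (Rr * (S.K * (1 + 2 * J * n))) / q ≤ n') (hB' : S.K ^ 2 * B / q ≤ B') :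
    ∃ g0 : ℕ, Nonempty (RecOut D M (Fin M → Fin (2 ^ g0)) n' B' q cf) := by
  classical
  have hu : u ∈ D.Rf := by rw [hRf]; exact mem_singleton_self u
  have huv : u ≠ D.v := fun h => D.vR (by rw [← h]; exact hu)
  have hR : 0 ≤ Rr := zero_le_one.trans hR1
  have hK : 0 ≤ S.K := le_trans zero_le_one S.K1
  obtain ⟨g0, hg0⟩ : ∃ g0 : ℕ, (1 / 2 : ℝ) ^ g0 < 1 / (Fintype.card Pt : ℝ) / Fintype.card Ξ := by
    have h1 := S.cPt u
    have h2 := S.cXi
    exact exists_pow_lt_of_lt_one (by positivity) (by norm_num)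
  refine ⟨g0, ⟨?_⟩⟩
  exact
    { al := alR D M u Rr g0
      aldep := fun t g ξ x y h => by
        funext r
        apply propext
        unfold alR
        refine exists_congr fun b => and_congr Iff.rfl ?_
        rw [dep_of_depC huv (recR_dep huv b t g ξ) x y h]
      almono := fun t g ξ x r h => by
        obtain ⟨b, h1, h2⟩ := h
        exact ⟨b, h1, recR_mono hR h2⟩
      alz := fun t g ξ ξ' x h => by
        rw [pzAdd_eq] at h
        funext r
        apply propext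
        unfold alR
        exact exists_congr fun b => and_congr Iff.rfl (recR_congr h.1 h.2 x)
      N := fun u' => ownL (addCoins S (Fin M → Fin (2 ^ g0))) (CR D M u Rr g0) u'
      Nz := fun u' _ t g ξ ξ' x h => by
        rw [pzAdd_eq] at h
        have h1 : ∀ s g x, CR D M u Rr g0 s g ξ x = CR D M u Rr g0 s g ξ' x := by
          intro s g x
          ext n
          rw [mem_CR, mem_CR]
          exact exists_congr fun b => and_congr (recR_congr h.1 h.2 x) Iff.rfl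
        show own _ _ u' t g ξ x = own _ _ u' t g ξ' x
        ext n
        rw [mem_own, mem_own]
        simp only [h1]
      PN := fun u' => (D.Br u').cmp.cmp
      mem := fun t ht w r h u' hu' => by
        rw [hRf, mem_singleton] at hu'
        subst hu'
        obtain ⟨b, hb, hrec⟩ := h
        obtain ⟨s, hs⟩ := recR_some hrec
        refine ⟨s, ?_, ?_⟩
        · rw [← hb, tupR_u]
          exact hs
        · refine sub_own (S := addCoins S (Fin M → Fin (2 ^ g0))) (CR D M u' Rr g0) u' t w ?_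
          exact mem_CR.2 ⟨b, hrec, hs⟩
      pub := fun t ht w u' hu' => by
        rw [hRf, mem_singleton] at hu'
        subst hu'
        exact own_pub huv t w
      cardN := by
        have h1 := Pr_nat_gt (coinFP S.P (Fin M → Fin (2 ^ g0))) (E_ownR (g0 := g0) (M := M) hRf hR hB hJ) hq hn'
        refine (FP.Pr_mono _ fun w _ h => ?_).trans h1
        obtain ⟨u', hu', h2⟩ := h
        rw [hRf, mem_singleton] at hu'
        subst hu'
        exact h2
      cardPN := by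
        have h1 : S.P.E (fun w => (((D.Br u).cmp.cmp.at' S.n w).card : ℝ)) ≤ S.K ^ 2 * B := by
          refine ((D.Br u).E_cmp_cmp huv S.n).trans (mul_le_mul_of_nonneg_left ?_ (by positivity))
          exact S.P.E_le_const fun w _ => by exact_mod_cast hB.br u hu S.n le_rfl w
        refine (S.P.Pr_mono fun w _ h => ?_).trans (Pr_nat_gt S.P h1 hq hB')
        obtain ⟨u', hu', h2⟩ := h
        rw [hRf, mem_singleton] at hu'
        subst hu'
        exact h2
      fail := fun bl hbl St Mw N Mu Nv hMu hNv hM hterm huse hends => by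
        refine (fail_one hRf hbl hD0 hR1 hg0.le hB hMu hNv hM hterm huse hends).trans ?_
        have h0 : 0 ≤ cf := le_trans (by have h1 := hD0.pos; positivity) hcf
        exact mul_le_mul hcf (mul_le_mul_of_nonneg_left (by linarith) (by linarith))
          (mul_nonneg (by linarith) hMu) h0 }

/-- **THE RECORD LEMMA**, no reference vertex -/
theorem jrs_zero (hRf : D.Rf = ∅) {n' B' : ℕ} {q cf : ℝ} (hq : 0 ≤ q) (hcf : 0 ≤ cf) :
    Nonempty (RecOut D M Unit n' B' q cf) := by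
  refine ⟨?_⟩
  exact
    { al := fun _ _ _ _ _ => True
      aldep := fun _ _ _ _ _ _ => rfl
      almono := fun _ _ _ _ _ _ => trivial
      alz := fun _ _ _ _ _ _ => rfl
      N := fun _ => { L := fun _ _ _ _ => ∅, dep := fun _ _ _ _ _ _ => rfl, mono := fun _ _ _ _ => subset_rfl }
      Nz := fun _ _ _ _ _ _ _ _ => rfl
      PN := fun _ => { L := fun _ _ _ => ∅, dep := fun _ _ _ _ _ _ => rfl, mono := fun _ _ _ => subset_rfl }
      mem := fun t ht w r h u' hu' => by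
        rw [hRf] at hu'
        exact absurd hu' (notMem_empty _)
      pub := fun t ht w u' hu' => by
        rw [hRf] at hu'
        exact absurd hu' (notMem_empty _)
      cardN := by
        have h1 : (coinFP S.P Unit).Pr (fun w => ∃ u ∈ D.Rf, n' < (∅ : Finset ℕ).card) = 0 := by
          rw [← Pr_false (coinFP S.P Unit)]
          refine FP.Pr_congr _ fun w _ => ?_
          constructor
          · rintro ⟨u', _, h⟩
            rw [card_empty] at h
            exact absurd h (Nat.not_lt_zero _)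
          · exact fun h => h.elim
        exact h1.le.trans hq
      cardPN := by
        have h1 : S.P.Pr (fun w => ∃ u ∈ D.Rf, B' < (∅ : Finset ℕ).card) = 0 := by
          rw [← Pr_false S.P]
          refine FP.Pr_congr _ fun w _ => ?_
          constructor
          · rintro ⟨u', _, h⟩
            rw [card_empty] at h
            exact absurd h (Nat.not_lt_zero _)
          · exact fun h => h.elim
        exact h1.le.trans hq
      fail := fun bl hbl St Mw N Mu Nv hMu hNv hM hterm huse hends => by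
        refine le_trans (le_of_eq ?_) (mul_nonneg hcf (mul_nonneg (by linarith) (by linarith)))
        rw [← Pr_false (coinFP S.P Unit)]
        refine FP.Pr_congr _ fun w _ => ?_
        constructor
        · rintro ⟨r, i, _, l, _, hc, _⟩
          exact hc.2.1 trivial
        · exact fun h => h.elim }

end main

/-! ### numbers -/

/-- **THE RECORD LEMMA for at most one reference vertex**, sizes polynomial in the size parameter `Y` -/
theorem jrs_le_one {β : Type} {D : StepIn S β} {M n B : ℕ} {Y q cf : ℝ} (hY : 2 ≤ Y) (hcard : D.Rf.card ≤ 1)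
    (hD0 : S.Dbl Y) (hK : S.K ≤ Y) (hB : D.Bd n B) (hn : (n : ℝ) ≤ Y) (hBY : (B : ℝ) ≤ Real.exp Y)
    (hq : 1 / Y ≤ q) (hcf : 1 / Y ≤ cf) :
    ∃ (Ξ2 : Type) (_ : Fintype Ξ2) (_ : Nonempty Ξ2) (n' B' : ℕ), Nonempty (RecOut D M Ξ2 n' B' q cf) ∧
      (n' : ℝ) ≤ Y ^ 16 ∧ (B' : ℝ) ≤ Real.exp (Y ^ 16) := by
  have hY0 : 0 < Y := by linarith
  have hY1 : 1 ≤ Y := by linarith
  have hq0 : 0 < q := lt_of_lt_of_le (by positivity) hq
  have hcf0 : 0 < cf := lt_of_lt_of_le (by positivity) hcf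
  rcases Nat.eq_zero_or_pos D.Rf.card with h0 | h0
  · refine ⟨Unit, inferInstance, inferInstance, 0, 0, jrs_zero (Finset.card_eq_zero.1 h0) hq0.le hcf0.le, ?_, ?_⟩
    · rw [Nat.cast_zero]; positivity
    · rw [Nat.cast_zero]; positivity
  obtain ⟨u, hu⟩ := Finset.card_eq_one.1 (le_antisymm hcard h0)
  have hK0 : 0 ≤ S.K := le_trans zero_le_one S.K1
  -- the constants
  obtain ⟨J, hJ1, hJ2⟩ : ∃ J : ℕ, (B : ℝ) ≤ 2 ^ J ∧ (J : ℝ) ≤ 2 * Y + 1 := by
    refine ⟨⌈2 * Y⌉₊, ?_, (Nat.ceil_lt_add_one (by linarith)).le⟩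
    have h1 : 2 * Y ≤ (⌈2 * Y⌉₊ : ℝ) := Nat.le_ceil _
    refine hBY.trans ?_
    have h2 : Real.exp Y ≤ (Real.exp (1 / 2)) ^ ⌈2 * Y⌉₊ := by
      rw [← Real.exp_nat_mul]
      exact Real.exp_le_exp.2 (by linarith)
    refine h2.trans (pow_le_pow_left₀ (Real.exp_pos _).le ?_ _)
    have h3 : Real.exp (1 / 2) ^ 2 = Real.exp 1 := by
      rw [← Real.exp_nat_mul]; norm_num
    have h4 := Real.exp_one_lt_d9
    have h5 := Real.exp_pos (1 / 2)
    nlinarith
  set Rr : ℝ := 16 * Y ^ 3 with hRr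
  have hRr1 : 1 ≤ Rr := by
    have h1 : (1 : ℝ) ≤ Y ^ 3 := one_le_pow₀ hY1
    rw [hRr]; linarith
  have hc : 16 * Y * S.K / Rr ≤ cf := by
    refine le_trans ?_ hcf
    rw [div_le_div_iff₀ (by linarith) hY0, hRr]
    have h1 : Y * S.K * Y ≤ Y * Y * Y := mul_le_mul_of_nonneg_right (mul_le_mul_of_nonneg_left hK hY0.le) hY0.le
    nlinarith
  set a : ℝ := S.K * (Rr * (S.K * (1 + 2 * J * n))) / q with ha
  set b : ℝ := S.K ^ 2 * B / q with hb
  have ha0 : 0 ≤ a := by rw [ha, hRr]; positivity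
  have hb0 : 0 ≤ b := by rw [hb]; positivity
  obtain ⟨g0, hr⟩ := jrs_one (D := D) (M := M) (u := u) hu hD0 hRr1 hB (n' := ⌈a⌉₊) (B' := ⌈b⌉₊)
    (q := q) (cf := cf) hJ1 hq0 hc (Nat.le_ceil _) (Nat.le_ceil _)
  have hqi : 1 / q ≤ Y := by
    rw [div_le_iff₀ hq0]
    rw [div_le_iff₀ hY0] at hq
    linarith
  have h2 : (2 : ℝ) ^ 4 ≤ Y ^ 4 := pow_le_pow_left₀ (by norm_num) hY 4
  refine ⟨_, inferInstance, inferInstance, ⌈a⌉₊, ⌈b⌉₊, hr, ?_, ?_⟩
  · refine (Nat.ceil_lt_add_one ha0).le.trans ?_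
    have h3 : 1 + 2 * (J : ℝ) * n ≤ Y ^ 5 := by
      have h4 : 2 * (J : ℝ) * n ≤ 2 * (2 * Y + 1) * Y :=
        mul_le_mul (mul_le_mul_of_nonneg_left hJ2 (by norm_num)) hn (Nat.cast_nonneg _) (by positivity)
      have h5 : (2 : ℝ) ^ 3 ≤ Y ^ 3 := pow_le_pow_left₀ (by norm_num) hY 3
      have h6 : Y ^ 5 = Y ^ 3 * Y ^ 2 := by ring
      rw [h6]
      have h7 : (2 : ℝ) ^ 3 * Y ^ 2 ≤ Y ^ 3 * Y ^ 2 := mul_le_mul_of_nonneg_right h5 (by positivity)
      nlinarith
    have h8 : a = S.K * Rr * S.K * (1 + 2 * J * n) * (1 / q) := by rw [ha]; ring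
    have h9 : a ≤ Y * (Y ^ 4 * Y ^ 3) * Y * Y ^ 5 * Y := by
      rw [h8]
      have h10 : Rr ≤ Y ^ 4 * Y ^ 3 := by
        rw [hRr]
        refine mul_le_mul_of_nonneg_right ?_ (by positivity)
        linarith
      have hRr0 : 0 ≤ Rr := by linarith
      have h11 : 0 ≤ 1 + 2 * (J : ℝ) * n := by positivity
      gcongr
    have h10 : Y * (Y ^ 4 * Y ^ 3) * Y * Y ^ 5 * Y = Y ^ 15 := by ring
    rw [h10] at h9
    have h11 : (1 : ℝ) ≤ Y ^ 15 := one_le_pow₀ hY1
    have h12 : Y ^ 16 = Y ^ 15 * Y := by ring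
    rw [h12]
    nlinarith
  · refine (Nat.ceil_lt_add_one hb0).le.trans ?_
    have h8 : b = S.K ^ 2 * B * (1 / q) := by rw [hb]; ring
    have h9 : b ≤ Y ^ 2 * Real.exp Y * Y := by
      rw [h8]
      gcongr
    have h10 : Y ≤ Real.exp Y := by
      have := Real.add_one_le_exp Y
      linarith
    have h11 : Y ^ 2 * Real.exp Y * Y ≤ Real.exp Y ^ 4 := by
      have : Y ^ 2 * Real.exp Y * Y = Y ^ 3 * Real.exp Y := by ring
      rw [this, show Real.exp Y ^ 4 = Real.exp Y ^ 3 * Real.exp Y by ring]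
      exact mul_le_mul_of_nonneg_right (pow_le_pow_left₀ hY0.le h10 3) (Real.exp_pos _).le
    have h12 : (1 : ℝ) ≤ Real.exp Y ^ 4 := one_le_pow₀ (Real.one_le_exp hY0.le)
    have h13 : 2 * Real.exp Y ^ 4 ≤ Real.exp Y ^ 5 := by
      rw [show Real.exp Y ^ 5 = Real.exp Y * Real.exp Y ^ 4 by ring]
      exact mul_le_mul_of_nonneg_right (by linarith) (by positivity)
    have h14 : Real.exp Y ^ 5 = Real.exp (5 * Y) := by
      rw [← Real.exp_nat_mul]; norm_num
    have h15 : Real.exp (5 * Y) ≤ Real.exp (Y ^ 16) := by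
      refine Real.exp_le_exp.2 ?_
      have h16 : (2 : ℝ) ^ 15 ≤ Y ^ 15 := pow_le_pow_left₀ (by norm_num) hY 15
      have h17 : Y ^ 16 = Y ^ 15 * Y := by ring
      rw [h17]
      refine mul_le_mul_of_nonneg_right ?_ hY0.le
      norm_num at h16 ⊢
      linarith
    linarith

end

end Pool.Agent.GMN
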