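import Pool.Agent.GMN.JRDef
import Pool.Agent.GMN.JRS1

/-!
# GMN/JRAt (helper4): the record lemma `JRAt` from its part with at least two reference vertices

`JR2At G C` = `JRAt G C` for steps with at least two reference vertices;
`jrAt_of` : `JR2At G C` and a doubling bound give `JRAt G C` (`16 ≤ C`); `jrAt_three` : for three vertices nothing else is needed.
-/

set_option autoImplicit false
set_option linter.unusedSectionVars false

namespace Pool.Agent.GMN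

open Finset Pool.Agent.PWZ Pool.Agent.M3 Pool.Agent.M3.TS Pool.Agent.GM

noncomputable section

/-- the record lemma for steps with at least two reference vertices -/
def JR2At {ι : Type} [Fintype ι] [DecidableEq ι] (G : SysCls ι) (C : ℕ) : Prop :=
  ∀ (Om Ξ Pt V Γ κ β : Type) [Fintype Om] [Fintype Ξ] [Fintype Pt] [Fintype V] [Fintype β]
    (S : Sys ι Om Ξ Pt V Γ κ) (X Y q cf : ℝ), 2 ≤ X → X ≤ Y → Y ≤ Real.exp X → 1 / X ≤ q → q ≤ 1 → 1 / Y ≤ cf →
      cf ≤ 1 → G.G S X Y C →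
    ∀ (D : StepIn S β) (n B M : ℕ), D.Bd n B → (n : ℝ) ≤ Y → (B : ℝ) ≤ Real.exp Y → 0 < M → (M : ℝ) ≤ Real.exp Y →
      D.L.card + 2 ≤ Fintype.card ι - 1 → 2 ≤ D.Rf.card →
    ∃ (Ξ2 : Type) (_ : Fintype Ξ2) (_ : Nonempty Ξ2) (n' B' : ℕ),
      Nonempty (RecOut D M Ξ2 n' B' q cf) ∧ (n' : ℝ) ≤ Y ^ C ∧ (B' : ℝ) ≤ Real.exp (Y ^ C)

/-- the class has doubling constant `Y` -/
def DblCls {ι : Type} [Fintype ι] [DecidableEq ι] (G : SysCls ι) (C : ℕ) : Prop :=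
  ∀ (Om Ξ Pt V Γ κ : Type) [Fintype Om] [Fintype Ξ] [Fintype Pt] [Fintype V]
    (S : Sys ι Om Ξ Pt V Γ κ) (X Y : ℝ), 2 ≤ X → X ≤ Y → G.G S X Y C → S.Dbl Y

variable {ι : Type} [Fintype ι] [DecidableEq ι] {G : SysCls ι} {C : ℕ}

/-- **the record lemma from its part with at least two reference vertices** -/
theorem jrAt_of (hC : 16 ≤ C) (hd : DblCls G C) (h2 : JR2At G C) : JRAt G C := by
  intro Om Ξ Pt V Γ κ β _ _ _ _ _ S X Y q cf hX hXY hYX hq hq1 hcf hcf1 hG D n B M hB hn hBY hM hMY hL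
  rcases Nat.lt_or_ge D.Rf.card 2 with hc | hc
  · have hY : 2 ≤ Y := hX.trans hXY
    have hq' : 1 / Y ≤ q := (one_div_le_one_div_of_le (by linarith) hXY).trans hq
    obtain ⟨Ξ2, i1, i2, n', B', h, hn', hB'⟩ := jrs_le_one (M := M) hY (by omega) (hd Om Ξ Pt V Γ κ S X Y hX hXY hG)
      (G.K_le S X Y C hX hG) hB hn hBY hq' hcf
    have hp : Y ^ 16 ≤ Y ^ C := pow_le_pow_right₀ (by linarith) hC
    exact ⟨Ξ2, i1, i2, n', B', h, hn'.trans hp, hB'.trans (Real.exp_le_exp.2 hp)⟩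
  · exact h2 Om Ξ Pt V Γ κ β S X Y q cf hX hXY hYX hq hq1 hcf hcf1 hG D n B M hB hn hBY hM hMY hL hc

/-- **three vertices** -/
theorem jrAt_three (hι : Fintype.card ι = 3) (hC : 16 ≤ C) (hd : DblCls G C) : JRAt G C := by
  refine jrAt_of hC hd ?_
  intro Om Ξ Pt V Γ κ β _ _ _ _ _ S X Y q cf _ _ _ _ _ _ _ _ D n B M _ _ _ _ _ _ hc
  exfalso
  have h1 : D.Rf ⊆ (univ.erase D.a).erase D.v := by
    intro u hu
    refine mem_erase.2 ⟨fun h => D.vR (h ▸ hu), mem_erase.2 ⟨fun h => D.aR (h ▸ hu), mem_univ u⟩⟩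
  have h2 := Finset.card_le_card h1
  rw [Finset.card_erase_of_mem (mem_erase.2 ⟨D.av.symm, mem_univ _⟩), Finset.card_erase_of_mem (mem_univ _),
    Finset.card_univ, hι] at h2
  omega

end

end Pool.Agent.GMN
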