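import Pool.Agent.GMN.IndM

/-!
# GMN/NumStep (helper58): THE NUMBERS OF THE STEP (helper25's plan of `RuleStmt`)

* `StepNum m C1 c X Y η q K near n B` : all numbers of the step: accuracy `b` and size `H` of Lemma T_j, clipping `pY`, accuracy
  `ea`, threshold `th` of the rule, coefficient `cf` of the record lemma, ranks `M`, ends `I`, uses `nu`, tails `k`, `j`;
* `num1` : they exist, with `c` depending only on `m` (number of vertices) and `C1` (constant of T_j);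
* `num2` : the hash `Mh`, the box sets `B2` and the size `B3` of all numbers.
-/

set_option autoImplicit false
set_option linter.unusedSectionVars false

namespace Pool.Agent.GMN

open Finset

noncomputable section

namespace NmS

variable {Z a b : ℝ} {i j k : ℕ}

theorem pw1 (hZ : 2 ≤ Z) (i : ℕ) : 1 ≤ Z ^ i := one_le_pow₀ (by linarith)

theorem pw_mono (hZ : 2 ≤ Z) (h : i ≤ k) : Z ^ i ≤ Z ^ k := pow_le_pow_right₀ (by linarith) h

theorem add_le (hZ : 2 ≤ Z) (ha : a ≤ Z ^ i) (hb : b ≤ Z ^ j) (hi : i + 1 ≤ k) (hj : j + 1 ≤ k) : a + b ≤ Z ^ k := by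
  obtain ⟨l, rfl⟩ : ∃ l, k = l + 1 := ⟨k - 1, by omega⟩
  have h1 : Z ^ i ≤ Z ^ l := pw_mono hZ (by omega)
  have h2 : Z ^ j ≤ Z ^ l := pw_mono hZ (by omega)
  have h3 : 0 ≤ Z ^ l := (zero_le_one.trans (pw1 hZ l))
  rw [pow_succ]
  nlinarith

theorem mul_le (hZ : 2 ≤ Z) (hb0 : 0 ≤ b) (ha : a ≤ Z ^ i) (hb : b ≤ Z ^ j) (hk : i + j ≤ k) : a * b ≤ Z ^ k := by
  have h1 : 0 ≤ Z ^ i := (zero_le_one.trans (pw1 hZ i))
  calc a * b ≤ Z ^ i * Z ^ j := mul_le_mul ha hb hb0 h1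
    _ = Z ^ (i + j) := (pow_add _ _ _).symm
    _ ≤ Z ^ k := pw_mono hZ hk

theorem nat_le (hZ : 2 ≤ Z) (m : ℕ) : (m : ℝ) ≤ Z ^ m := by
  have h2 : m ≤ 2 ^ m := Nat.lt_two_pow_self.le
  have h3 : (m : ℝ) ≤ 2 ^ m := by exact_mod_cast h2
  exact h3.trans (pow_le_pow_left₀ (by norm_num) hZ m)

theorem two_le (hZ : 2 ≤ Z) (i : ℕ) : (2 : ℝ) ^ i ≤ Z ^ i := pow_le_pow_left₀ (by norm_num) hZ i

theorem num_le (hZ : 2 ≤ Z) (i : ℕ) (ha : a ≤ 2 ^ i) : a ≤ Z ^ i := ha.trans (two_le hZ i)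

theorem pow_le (hZ : 2 ≤ Z) (ha0 : 0 ≤ a) (ha : a ≤ Z ^ i) (r : ℕ) (hk : i * r ≤ k) : a ^ r ≤ Z ^ k := by
  calc a ^ r ≤ (Z ^ i) ^ r := pow_le_pow_left₀ ha0 ha r
    _ = Z ^ (i * r) := (pow_mul _ _ _).symm
    _ ≤ Z ^ k := pw_mono hZ hk

theorem le_exp (a : ℝ) : a ≤ Real.exp a := by
  have := Real.add_one_le_exp a
  linarith

/-- a polynomial bound is an exponential bound -/
theorem to_exp (ha : a ≤ Z ^ i) : a ≤ Real.exp (Z ^ i) := ha.trans (le_exp _)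

theorem exp_mono (hZ : 2 ≤ Z) (h : i ≤ k) : Real.exp (Z ^ i) ≤ Real.exp (Z ^ k) := Real.exp_le_exp.2 (pw_mono hZ h)

theorem mulE (hZ : 2 ≤ Z) (hb0 : 0 ≤ b) (ha : a ≤ Real.exp (Z ^ i)) (hb : b ≤ Real.exp (Z ^ j)) (hi : i + 1 ≤ k)
    (hj : j + 1 ≤ k) : a * b ≤ Real.exp (Z ^ k) := by
  calc a * b ≤ Real.exp (Z ^ i) * Real.exp (Z ^ j) := mul_le_mul ha hb hb0 (Real.exp_pos _).le
    _ = Real.exp (Z ^ i + Z ^ j) := (Real.exp_add _ _).symm
    _ ≤ Real.exp (Z ^ k) := Real.exp_le_exp.2 (add_le hZ le_rfl le_rfl hi hj)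

theorem addE (hZ : 2 ≤ Z) (ha : a ≤ Real.exp (Z ^ i)) (hb : b ≤ Real.exp (Z ^ j)) (hi : i + 1 ≤ k)
    (hj : j + 1 ≤ k) : a + b ≤ Real.exp (Z ^ k) := by
  obtain ⟨l, rfl⟩ : ∃ l, k = l + 1 := ⟨k - 1, by omega⟩
  have h1 : Real.exp (Z ^ i) ≤ Real.exp (Z ^ l) := exp_mono hZ (by omega)
  have h2 : Real.exp (Z ^ j) ≤ Real.exp (Z ^ l) := exp_mono hZ (by omega)
  have h3 : 0 < Real.exp (Z ^ l) := Real.exp_pos _
  have h4 : (2 : ℝ) ≤ Real.exp 1 := by linarith [Real.add_one_le_exp (1 : ℝ)]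
  have h5 : Z ^ l + 1 ≤ Z ^ (l + 1) := add_le hZ (le_refl (Z ^ l)) (j := 0) (by simp) le_rfl (by omega)
  calc a + b ≤ 2 * Real.exp (Z ^ l) := by linarith
    _ ≤ Real.exp 1 * Real.exp (Z ^ l) := mul_le_mul_of_nonneg_right h4 h3.le
    _ = Real.exp (Z ^ l + 1) := by rw [← Real.exp_add]; ring_nf
    _ ≤ _ := Real.exp_le_exp.2 h5

theorem powE (hZ : 2 ≤ Z) (ha0 : 0 ≤ a) (ha : a ≤ Real.exp (Z ^ i)) (r : ℕ) (hk : r + i ≤ k) :
    a ^ r ≤ Real.exp (Z ^ k) := by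
  calc a ^ r ≤ Real.exp (Z ^ i) ^ r := pow_le_pow_left₀ ha0 ha r
    _ = Real.exp (r * Z ^ i) := (Real.exp_nat_mul _ _).symm
    _ ≤ Real.exp (Z ^ k) := Real.exp_le_exp.2 (mul_le hZ (zero_le_one.trans (pw1 hZ i)) (nat_le hZ r) le_rfl hk)

/-- rounding up -/
theorem ceil_le (ha : 0 ≤ a) : ((⌈a⌉₊ : ℕ) : ℝ) ≤ a + 1 := (Nat.ceil_lt_add_one ha).le

theorem half_pow {k : ℕ} {x : ℝ} (hx : 0 < x) (h : 2 * Real.log x ≤ k) : x * (1 / 2 : ℝ) ^ k ≤ 1 := by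
  have h1 : Real.exp (1 / 2 : ℝ) ≤ 2 := by
    have h0 := Real.exp_one_lt_d9
    have h2 : Real.exp (1 / 2 : ℝ) * Real.exp (1 / 2 : ℝ) = Real.exp 1 := by rw [← Real.exp_add]; norm_num
    nlinarith [Real.exp_pos (1 / 2 : ℝ)]
  have h2 : x ≤ 2 ^ k := by
    calc x = Real.exp (Real.log x) := (Real.exp_log hx).symm
      _ ≤ Real.exp (k * (1 / 2)) := Real.exp_le_exp.2 (by linarith)
      _ = Real.exp (1 / 2) ^ k := Real.exp_nat_mul _ _
      _ ≤ 2 ^ k := pow_le_pow_left₀ (Real.exp_pos _).le h1 k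
  rw [one_div, inv_pow, ← div_eq_mul_inv, div_le_one (by positivity)]
  exact h2

end NmS

/-- **the numbers of the step** -/
structure StepNum (m C1 c : ℕ) (X Y η q K near : ℝ) (n B : ℕ) where
  /-- accuracy of T_j -/
  b : ℝ
  /-- clipping -/
  pY : ℝ
  /-- accuracy of the rule -/
  ea : ℝ
  /-- size of T_j -/
  H : ℝ
  /-- threshold of the rule -/
  th : ℝ
  /-- coefficient of the record lemma -/
  cf : ℝ
  /-- ranks of the traces -/
  M : ℕ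
  /-- ends of stretches -/
  I : ℕ
  k : ℕ
  /-- uses and resets of a client -/
  nu : ℕ
  j : ℕ
  b0 : 0 < b
  pY0 : 0 < pY
  ea0 : 0 < ea
  H0 : 0 < H
  th0 : 0 < th
  cf0 : 0 < cf
  M0 : 0 < M
  b2 : b ≤ 1 / 2
  bH : 1 / b ≤ H
  YH : Y ≤ H
  near_le : near ≤ b ^ C1
  runs_le : (n : ℝ) * ((M : ℝ) ^ m * (I + 1)) ≤ Real.exp H
  H_le : Real.exp (-H) ≤ q / 10
  th_le : th ≤ Real.exp (-H ^ C1)
  ea1 : ea ≤ 1
  eaY : ea / pY ≤ b ^ C1
  mv_le : 4 + 20 / ea ^ 2 ≤ H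
  err_le : b * pY + 4 / pY + near * (1 + ea / 2 * nu) ≤ η
  nu_ge : (k : ℝ) * (56 / ea ^ 2 + 10) ≤ nu
  tail_k : (n : ℝ) * (2 * (1 / 2) ^ k) ≤ q / 10
  vis_le : (m : ℝ) * (K * B) / M ≤ q / 10
  tail_j : (n : ℝ) * (M : ℝ) ^ m * (1 / 2) ^ j ≤ q / 10
  I_ge : (j : ℝ) * (2 * Ru.IndM.NvB ea + 2) ≤ I
  fail_le : (n : ℝ) * (cf * ((Ru.IndM.NvB ea + 1) * (20 / ea ^ 2 + 1))) ≤ q / 10
  /-- sizes -/
  nu_le : (nu : ℝ) ≤ X ^ c
  inv_ea : 1 / ea ≤ X ^ c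
  M_le : (M : ℝ) ≤ Real.exp (Y ^ c)
  cf_ge : 1 / Y ^ c ≤ cf
  Hc : H ≤ Y ^ c
  th_ge : Real.exp (-Y ^ c) ≤ th

theorem num1 (m C1 : ℕ) : ∃ c : ℕ, 1 ≤ c ∧ ∀ (X Y η q K near : ℝ) (n B : ℕ), 2 ≤ X → X ≤ Y → Y ≤ Real.exp X →
    1 / X ≤ η → η ≤ 1 → 1 / X ≤ q → q ≤ 1 → 1 ≤ K → K ≤ Y → 0 ≤ near → near ≤ 1 / X ^ c → (n : ℝ) ≤ Y →
    (B : ℝ) ≤ Real.exp Y → Nonempty (StepNum m C1 c X Y η q K near n B) := by
  obtain ⟨E, hE⟩ : ∃ E, E = 8 * C1 := ⟨_, rfl⟩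
  obtain ⟨h, hh⟩ : ∃ h, h = 2 * m + 3 * E + 29 := ⟨_, rfl⟩
  refine ⟨E + (2 * E + 16) + (h + h * C1) + (5 * E + 24) + (m + 8), by omega, ?_⟩
  intro X Y η q K near n B hX hXY hYX hη hη1 hq hq1 hK1 hKY hn0 hnear hn hB
  obtain ⟨c, hc⟩ : ∃ c, c = E + (2 * E + 16) + (h + h * C1) + (5 * E + 24) + (m + 8) := ⟨_, rfl⟩
  rw [← hc] at hnear ⊢
  have hY : 2 ≤ Y := hX.trans hXY
  have hX0 : 0 < X := by linarith
  have hY0 : 0 < Y := by linarith
  have hη0 : 0 < η := lt_of_lt_of_le (by positivity) hη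
  have hq0 : 0 < q := lt_of_lt_of_le (by positivity) hq
  have hηX : 1 / η ≤ X := (one_div_le hη0 hX0).2 hη
  have hqX : 1 / q ≤ X := (one_div_le hq0 hX0).2 hq
  have hXpw : ∀ i : ℕ, X ^ i ≤ Y ^ i := fun i => pow_le_pow_left₀ hX0.le hXY i
  -- the accuracy of T_j
  obtain ⟨b, hb⟩ : ∃ b : ℝ, b = η ^ 2 / 64 := ⟨_, rfl⟩
  have hb0 : 0 < b := by rw [hb]; positivity
  have hb2 : b ≤ 1 / 64 := by
    rw [hb]
    have : η ^ 2 ≤ 1 := pow_le_one₀ hη0.le hη1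
    linarith
  have hbi : 1 / b ≤ X ^ 8 := by
    have e : 1 / b = 64 * (1 / η) ^ 2 := by rw [hb]; field_simp
    rw [e]
    refine NmS.mul_le hX (by positivity) (NmS.num_le hX 6 (by norm_num)) (j := 2) ?_ (by norm_num)
    exact pow_le_pow_left₀ (by positivity) hηX 2
  -- the accuracy of the rule
  obtain ⟨ea, hea⟩ : ∃ ea : ℝ, ea = b ^ C1 := ⟨_, rfl⟩
  have ea0 : 0 < ea := by rw [hea]; positivity
  have ea1 : ea ≤ 1 := by rw [hea]; exact pow_le_one₀ hb0.le (by linarith)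
  have eai : 1 / ea ≤ X ^ E := by
    have e : 1 / ea = (1 / b) ^ C1 := by rw [hea, one_div_pow]
    rw [e]
    exact NmS.pow_le hX (by positivity) hbi C1 (by omega)
  have eai0 : 0 < 1 / ea := by positivity
  have ea2 : 20 / ea ^ 2 ≤ X ^ (2 * E + 5) := by
    have e : 20 / ea ^ 2 = 20 * (1 / ea) ^ 2 := by field_simp
    rw [e]
    refine NmS.mul_le hX (by positivity) (NmS.num_le hX 5 (by norm_num)) (NmS.pow_le hX eai0.le eai 2 le_rfl) (by omega)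
  have ea3 : 80 / ea ^ 3 ≤ X ^ (3 * E + 7) := by
    have e : 80 / ea ^ 3 = 80 * (1 / ea) ^ 3 := by field_simp
    rw [e]
    refine NmS.mul_le hX (by positivity) (NmS.num_le hX 7 (by norm_num)) (NmS.pow_le hX eai0.le eai 3 le_rfl) (by omega)
  have hNv : Ru.IndM.NvB ea ≤ X ^ (3 * E + 9) := by
    have e : Ru.IndM.NvB ea = (12 * (1 / ea) + 3) + 80 / ea ^ 3 := by
      unfold Ru.IndM.NvB
      field_simp
      ring
    rw [e]
    refine NmS.add_le hX (i := E + 5) (NmS.add_le hX (i := E + 4) (j := 2) ?_ ?_ (by omega) (by omega)) ea3 (by omega)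
      (by omega)
    · exact NmS.mul_le hX eai0.le (NmS.num_le hX 4 (by norm_num)) eai (by omega)
    · exact NmS.num_le hX 2 (by norm_num)
  have hNv0 : 0 ≤ Ru.IndM.NvB ea := by
    unfold Ru.IndM.NvB
    positivity
  have hNv2 : 2 * Ru.IndM.NvB ea + 2 ≤ X ^ (3 * E + 11) :=
    NmS.add_le hX (i := 3 * E + 10) (j := 1) (NmS.mul_le hX hNv0 (NmS.num_le hX 1 (by norm_num)) hNv (by omega))
      (NmS.num_le hX 1 (by norm_num)) (by omega) (by omega)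
  have hNv1 : Ru.IndM.NvB ea + 1 ≤ X ^ (3 * E + 10) :=
    NmS.add_le hX (j := 0) hNv (by simp) (by omega) (by omega)
  have hNv3 : (Ru.IndM.NvB ea + 1) * (20 / ea ^ 2 + 1) ≤ X ^ (5 * E + 16) :=
    NmS.mul_le hX (by positivity) hNv1 (NmS.add_le hX (j := 0) ea2 (by simp) (k := 2 * E + 6) (by omega) (by omega)) (by omega)
  have hNv30 : 0 < (Ru.IndM.NvB ea + 1) * (20 / ea ^ 2 + 1) := by positivity
  -- uses and resets
  obtain ⟨k, hk⟩ : ∃ k : ℕ, k = ⌈4 * X + 8⌉₊ := ⟨_, rfl⟩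
  have hk1 : 4 * X + 8 ≤ k := by rw [hk]; exact Nat.le_ceil _
  have hk2 : (k : ℝ) ≤ X ^ 5 := by
    have h1 : (k : ℝ) ≤ 4 * X + 8 + 1 := by rw [hk]; exact NmS.ceil_le (by linarith)
    have h2 : 4 * X + 9 ≤ X ^ 5 := NmS.add_le hX (i := 3) (j := 4)
      (NmS.mul_le hX hX0.le (NmS.num_le hX 2 (by norm_num)) (j := 1) (by simp) le_rfl)
      (NmS.num_le hX 4 (by norm_num)) (by norm_num) le_rfl
    linarith
  obtain ⟨nu, hnu⟩ : ∃ nu : ℕ, nu = ⌈(k : ℝ) * (56 / ea ^ 2 + 10)⌉₊ := ⟨_, rfl⟩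
  have hnu1 : (k : ℝ) * (56 / ea ^ 2 + 10) ≤ nu := by rw [hnu]; exact Nat.le_ceil _
  have h56 : 56 / ea ^ 2 + 10 ≤ X ^ (2 * E + 7) := by
    have e : 56 / ea ^ 2 = 56 * (1 / ea) ^ 2 := by field_simp
    rw [e]
    exact NmS.add_le hX (i := 2 * E + 6) (j := 4)
      (NmS.mul_le hX (by positivity) (NmS.num_le hX 6 (by norm_num)) (NmS.pow_le hX eai0.le eai 2 le_rfl) (by omega))
      (NmS.num_le hX 4 (by norm_num)) (by omega) (by omega)
  have hnu2 : (nu : ℝ) ≤ X ^ (2 * E + 13) := by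
    have h1 : (nu : ℝ) ≤ (k : ℝ) * (56 / ea ^ 2 + 10) + 1 := by rw [hnu]; exact NmS.ceil_le (by positivity)
    exact h1.trans (NmS.add_le hX (j := 0) (NmS.mul_le hX (by positivity) hk2 h56 le_rfl) (by simp) (by omega) (by omega))
  have hnpos : (0 : ℝ) ≤ n := Nat.cast_nonneg n
  have htk : (n : ℝ) * (2 * (1 / 2) ^ k) ≤ q / 10 := by
    have h20 : (20 : ℝ) ≤ Real.exp 3 := by
      have h0 := Real.exp_one_gt_d9
      have e : Real.exp 3 = Real.exp 1 ^ 3 := by rw [← Real.exp_nat_mul]; norm_num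
      rw [e]
      have h1 : (2.7182818283 : ℝ) ^ 3 ≤ Real.exp 1 ^ 3 := pow_le_pow_left₀ (by norm_num) h0.le 3
      exact le_trans (by norm_num) h1
    have h2 : Real.log (20 * ((n + 1) * (1 / q))) ≤ 2 * X + 4 := by
      rw [Real.log_le_iff_le_exp (by positivity)]
      have h3 : (n : ℝ) + 1 ≤ Real.exp (X + 1) := by
        rw [Real.exp_add]
        have h4 : (2 : ℝ) ≤ Real.exp 1 := by linarith [Real.add_one_le_exp (1 : ℝ)]
        have h5 : 1 ≤ Real.exp X := Real.one_le_exp hX0.le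
        nlinarith
      have h4 : 1 / q ≤ Real.exp X := hqX.trans (NmS.le_exp X)
      calc 20 * (((n : ℝ) + 1) * (1 / q)) ≤ Real.exp 3 * (Real.exp (X + 1) * Real.exp X) := by gcongr
        _ = Real.exp (2 * X + 4) := by rw [← Real.exp_add, ← Real.exp_add]; ring_nf
    have h1 : 20 * ((n + 1) * (1 / q)) * (1 / 2 : ℝ) ^ k ≤ 1 := NmS.half_pow (by positivity) (by linarith)
    have h5 : 20 * ((n + 1) * (1 / q)) * (1 / 2 : ℝ) ^ k = 10 / q * ((n + 1) * (2 * (1 / 2) ^ k)) := by field_simp; ring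
    rw [h5] at h1
    have h6 : ((n : ℝ) + 1) * (2 * (1 / 2) ^ k) ≤ q / 10 := by
      rw [div_mul_eq_mul_div, div_le_one hq0] at h1
      linarith
    refine le_trans (mul_le_mul_of_nonneg_right (by linarith) (by positivity)) h6
  -- ranks
  obtain ⟨M, hM⟩ : ∃ M : ℕ, M = ⌈10 * (m * (K * B)) / q⌉₊ + 1 := ⟨_, rfl⟩
  have hK0 : 0 < K := by linarith
  have hMx : 0 ≤ 10 * (m * (K * B)) / q := by positivity
  have hM0 : 0 < M := by rw [hM]; exact Nat.succ_pos _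
  have hMr : (0 : ℝ) < M := by exact_mod_cast hM0
  have hM1 : 10 * (m * (K * B)) / q ≤ M := by
    rw [hM]
    push_cast
    linarith [Nat.le_ceil (10 * (m * (K * B)) / q)]
  have hvis : (m : ℝ) * (K * B) / M ≤ q / 10 := by
    rw [div_le_iff₀ hMr]
    rw [div_le_iff₀ hq0] at hM1
    linarith
  have hqY : 1 / q ≤ Y ^ 1 := by rw [pow_one]; exact hqX.trans hXY
  have hM2 : (M : ℝ) ≤ Real.exp (Y ^ (m + 10)) := by
    have h1 : (M : ℝ) ≤ 10 * (m * (K * B)) / q + 2 := by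
      rw [hM]
      push_cast
      linarith [NmS.ceil_le hMx]
    have e : 10 * (m * (K * B)) / q = (10 * (m * (K * (1 / q)))) * B := by field_simp
    have h2 : 10 * (m * (K * (1 / q))) ≤ Y ^ (m + 6) :=
      NmS.mul_le hY (by positivity) (NmS.num_le hY 4 (by norm_num)) (j := m + 2)
        (NmS.mul_le hY (by positivity) (NmS.nat_le hY m) (j := 2) (NmS.mul_le hY (by positivity) (i := 1) (by simpa using hKY)
          hqY le_rfl) (by omega)) (by omega)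
    have h3 : (10 * (m * (K * (1 / q)))) * B ≤ Real.exp (Y ^ (m + 8)) :=
      NmS.mulE hY (Nat.cast_nonneg B) (NmS.to_exp h2) (j := 1) (by simpa using hB) (by omega) (by omega)
    rw [e] at h1
    exact h1.trans (NmS.addE hY h3 (j := 1) (NmS.to_exp (NmS.num_le hY 1 (by norm_num))) (by omega) (by omega))
  have hMm : (M : ℝ) ^ m ≤ Real.exp (Y ^ (2 * m + 10)) := NmS.powE hY hMr.le hM2 m (by omega)
  -- ends
  obtain ⟨j, hj⟩ : ∃ j : ℕ, j = ⌈2 * Y ^ (2 * m + 12)⌉₊ := ⟨_, rfl⟩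
  have hj1 : 2 * Y ^ (2 * m + 12) ≤ j := by rw [hj]; exact Nat.le_ceil _
  have hj2 : (j : ℝ) ≤ Y ^ (2 * m + 14) := by
    have h1 : (j : ℝ) ≤ 2 * Y ^ (2 * m + 12) + 1 := by rw [hj]; exact NmS.ceil_le (by positivity)
    exact h1.trans (NmS.add_le hY (i := 2 * m + 13) (j := 0) (NmS.mul_le hY (by positivity) (NmS.num_le hY 1 (by norm_num))
      le_rfl (by omega)) (by simp) (by omega) (by omega))
  have htj : (n : ℝ) * (M : ℝ) ^ m * (1 / 2) ^ j ≤ q / 10 := by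
    have h1 : 10 * ((n + 1) * (1 / q)) ≤ Y ^ 7 :=
      NmS.mul_le hY (by positivity) (NmS.num_le hY 4 (by norm_num)) (j := 3)
        (NmS.mul_le hY (by positivity) (i := 2) (NmS.add_le hY (i := 1) (j := 0) (by simpa using hn) (by simp) (by norm_num)
          (by norm_num)) hqY (by norm_num)) (by norm_num)
    have h2 : 10 * ((n + 1) * (1 / q)) * (M : ℝ) ^ m ≤ Real.exp (Y ^ (2 * m + 12)) :=
      NmS.mulE hY (by positivity) (NmS.to_exp h1) hMm (by omega) (by omega)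
    have h3 : 10 * ((n + 1) * (1 / q)) * (M : ℝ) ^ m * (1 / 2 : ℝ) ^ j ≤ 1 := by
      refine NmS.half_pow (by positivity) (le_trans ?_ hj1)
      have h4 := (Real.log_le_iff_le_exp (by positivity)).2 h2
      linarith
    have h5 : 10 * ((n + 1) * (1 / q)) * (M : ℝ) ^ m * (1 / 2 : ℝ) ^ j = 10 / q * ((n + 1) * (M : ℝ) ^ m * (1 / 2) ^ j) := by
      field_simp
    rw [h5, div_mul_eq_mul_div, div_le_one hq0] at h3
    have h6 : ((n : ℝ) + 1) * (M : ℝ) ^ m * (1 / 2) ^ j ≤ q / 10 := by linarith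
    refine le_trans ?_ h6
    rw [mul_assoc, mul_assoc]
    exact mul_le_mul_of_nonneg_right (by linarith) (by positivity)
  obtain ⟨I, hI⟩ : ∃ I : ℕ, I = ⌈(j : ℝ) * (2 * Ru.IndM.NvB ea + 2)⌉₊ := ⟨_, rfl⟩
  have hI1 : (j : ℝ) * (2 * Ru.IndM.NvB ea + 2) ≤ I := by rw [hI]; exact Nat.le_ceil _
  have hI2 : (I : ℝ) + 1 ≤ Y ^ (2 * m + 3 * E + 27) := by
    have h1 : (I : ℝ) ≤ (j : ℝ) * (2 * Ru.IndM.NvB ea + 2) + 1 := by rw [hI]; exact NmS.ceil_le (by positivity)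
    have h2 : (j : ℝ) * (2 * Ru.IndM.NvB ea + 2) ≤ Y ^ (2 * m + 3 * E + 25) :=
      NmS.mul_le hY (by positivity) hj2 (hNv2.trans (hXpw _)) (by omega)
    have h3 : (I : ℝ) + 1 ≤ (j : ℝ) * (2 * Ru.IndM.NvB ea + 2) + 2 := by linarith
    exact h3.trans (NmS.add_le hY (j := 1) h2 (by simpa using hY) (by omega) (by omega))
  have hruns : (n : ℝ) * ((M : ℝ) ^ m * (I + 1)) ≤ Real.exp (Y ^ h) :=
    NmS.mulE hY (by positivity) (i := 1) (j := 2 * m + 3 * E + 28) (NmS.to_exp (by simpa using hn))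
      (NmS.mulE hY (by positivity) hMm (NmS.to_exp hI2) (by omega) (by omega)) (by omega) (by omega)
  -- sizes
  have hH0 : 0 < Y ^ h := by positivity
  have hbH : 1 / b ≤ Y ^ h := (hbi.trans (hXpw 8)).trans (NmS.pw_mono hY (by omega))
  have hYH : Y ≤ Y ^ h := by
    calc Y = Y ^ 1 := (pow_one Y).symm
      _ ≤ Y ^ h := NmS.pw_mono hY (by omega)
  have hmv : 4 + 20 / ea ^ 2 ≤ Y ^ h := by
    have h1 : 4 + 20 / ea ^ 2 ≤ X ^ (2 * E + 6) := NmS.add_le hX (i := 2) (NmS.num_le hX 2 (by norm_num)) ea2 (by omega)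
      (by omega)
    exact (h1.trans (hXpw _)).trans (NmS.pw_mono hY (by omega))
  have hHq : Real.exp (-Y ^ h) ≤ q / 10 := by
    have h1 : 10 * (1 / q) ≤ Y ^ 5 := NmS.mul_le hY (by positivity) (NmS.num_le hY 4 (by norm_num)) hqY (by norm_num)
    have h2 : 10 * (1 / q) ≤ Real.exp (Y ^ h) := (NmS.to_exp h1).trans (NmS.exp_mono hY (by omega))
    rw [Real.exp_neg]
    have h3 : 0 < Real.exp (Y ^ h) := Real.exp_pos _
    rw [inv_le_comm₀ h3 (by positivity)]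
    have e : (q / 10)⁻¹ = 10 * (1 / q) := by field_simp
    rw [e]
    exact h2
  have hwn : near ≤ b ^ C1 := by
    rw [← hea]
    refine hnear.trans ?_
    rw [one_div_le (by positivity) ea0]
    exact eai.trans (NmS.pw_mono hX (by omega))
  obtain ⟨cf, hcf⟩ : ∃ cf : ℝ, cf = q / (10 * ((n + 1) * ((Ru.IndM.NvB ea + 1) * (20 / ea ^ 2 + 1)))) := ⟨_, rfl⟩
  have hcf0 : 0 < cf := by rw [hcf]; positivity
  have hfail : (n : ℝ) * (cf * ((Ru.IndM.NvB ea + 1) * (20 / ea ^ 2 + 1))) ≤ q / 10 := by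
    have e : ((n : ℝ) + 1) * (cf * ((Ru.IndM.NvB ea + 1) * (20 / ea ^ 2 + 1))) = q / 10 := by
      rw [hcf]
      generalize (Ru.IndM.NvB ea + 1) * (20 / ea ^ 2 + 1) = W at hNv30
      field_simp
    rw [← e]
    exact mul_le_mul_of_nonneg_right (by linarith) (by positivity)
  have hcfg : 1 / Y ^ c ≤ cf := by
    rw [one_div_le (by positivity) hcf0]
    have e : 1 / cf = (10 * ((n + 1) * (1 / q))) * ((Ru.IndM.NvB ea + 1) * (20 / ea ^ 2 + 1)) := by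
      rw [hcf]
      generalize (Ru.IndM.NvB ea + 1) * (20 / ea ^ 2 + 1) = W at hNv30
      field_simp
    rw [e]
    have h1 : 10 * ((n + 1) * (1 / q)) ≤ Y ^ 7 :=
      NmS.mul_le hY (by positivity) (NmS.num_le hY 4 (by norm_num)) (j := 3)
        (NmS.mul_le hY (by positivity) (i := 2) (NmS.add_le hY (i := 1) (j := 0) (by simpa using hn) (by simp) (by norm_num)
          (by norm_num)) hqY (by norm_num)) (by norm_num)
    exact NmS.mul_le hY hNv30.le h1 (hNv3.trans (hXpw _)) (by omega)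
  have hpY : (16 : ℝ) / η > 0 := by positivity
  have herr : b * (16 / η) + 4 / (16 / η) + near * (1 + ea / 2 * nu) ≤ η := by
    have e1 : b * (16 / η) = η / 4 := by rw [hb]; field_simp; ring
    have e2 : 4 / (16 / η) = η / 4 := by field_simp; ring
    have h1 : 1 + ea / 2 * nu ≤ X ^ (2 * E + 14) := by
      have h2 : ea / 2 * nu ≤ nu := by
        have h3 : (0 : ℝ) ≤ nu := Nat.cast_nonneg nu
        nlinarith
      refine (add_le_add le_rfl h2).trans ?_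
      exact NmS.add_le hX (i := 0) (by simp) hnu2 (by omega) (by omega)
    have h2 : near * (1 + ea / 2 * nu) ≤ 1 / X ^ 2 := by
      calc near * (1 + ea / 2 * nu) ≤ 1 / X ^ c * X ^ (2 * E + 14) :=
            mul_le_mul hnear h1 (by positivity) (by positivity)
        _ ≤ 1 / X ^ 2 := by
            rw [div_mul_eq_mul_div, one_mul, div_le_div_iff₀ (by positivity) (by positivity), one_mul, ← pow_add]
            exact NmS.pw_mono hX (by omega)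
    have h3 : 1 / X ^ 2 ≤ η / 2 := by
      have h4 : 1 / X ^ 2 ≤ 1 / X * (1 / 2) := by
        rw [div_mul_div_comm, div_le_div_iff₀ (by positivity) (by positivity)]
        nlinarith
      linarith
    rw [e1, e2]
    linarith
  refine ⟨⟨b, 16 / η, ea, Y ^ h, Real.exp (-(Y ^ h) ^ C1), cf, M, I, k, nu, j, hb0, hpY, ea0, hH0, Real.exp_pos _, hcf0,
    hM0, by linarith, hbH, hYH, hwn, hruns, hHq, le_rfl, ea1, ?_, hmv, herr, hnu1, htk, hvis, htj, hI1, hfail,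
    hnu2.trans (NmS.pw_mono hX (by omega)), eai.trans (NmS.pw_mono hX (by omega)),
    hM2.trans (NmS.exp_mono hY (by omega)), hcfg, NmS.pw_mono hY (by omega), ?_⟩⟩
  · rw [← hea]
    refine (div_le_iff₀ hpY).2 ?_
    have h16 : (1 : ℝ) ≤ 16 / η := by
      rw [le_div_iff₀ hη0]
      linarith
    nlinarith
  · rw [Real.exp_le_exp, neg_le_neg_iff, ← pow_mul]
    exact NmS.pw_mono hY (by omega)

/-- **the sizes of all numbers of the step** : hash `Mh`, box sets `B2`, all numbers `B3` (`r` = exponent of the coding) -/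
theorem num2 (m r c1 C1 : ℕ) : ∃ c2 : ℕ, ∀ (X Y q ea H th Cl : ℝ) (B' nu : ℕ), 2 ≤ X → X ≤ Y → 1 / X ≤ q →
    0 < ea → 1 / ea ≤ X ^ c1 → 0 ≤ H → H ≤ Y ^ c1 → 0 < th → Real.exp (-Y ^ c1) ≤ th → 0 ≤ Cl → Cl ≤ Real.exp (H ^ C1) →
    (B' : ℝ) ≤ Real.exp (Y ^ c1) → (nu : ℝ) ≤ X ^ c1 →
    ∃ Mh B2 B3 : ℕ, 0 < Mh ∧ 0 < B2 ∧ (m : ℝ) * ((B' : ℝ) ^ 2 / Mh) ≤ q / 10 ∧
      (m : ℝ) * ((1 + Cl * (1 + 20 / ea ^ 2 / th)) / B2) ≤ q / 10 ∧ B' ≤ B3 ∧ B2 ≤ B3 ∧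
      (max Mh nu + 3 + 2) ^ r ≤ B3 ∧ (B3 : ℝ) ≤ Real.exp (Y ^ c2) := by
  obtain ⟨E, hE⟩ : ∃ E, E = 3 * c1 + c1 * C1 + m + 20 := ⟨_, rfl⟩
  refine ⟨r + E + 6, ?_⟩
  intro X Y q ea H th Cl B' nu hX hXY hq hea heai hH0 hH hth hthg hCl0 hCl hB' hnu
  have hY : 2 ≤ Y := hX.trans hXY
  have hX0 : 0 < X := by linarith
  have hY0 : 0 < Y := by linarith
  have hq0 : 0 < q := lt_of_lt_of_le (by positivity) hq
  have hqX : 1 / q ≤ X := (one_div_le hq0 hX0).2 hq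
  have hqY : 1 / q ≤ Y ^ 1 := by rw [pow_one]; exact hqX.trans hXY
  have hXpw : ∀ i : ℕ, X ^ i ≤ Y ^ i := fun i => pow_le_pow_left₀ hX0.le hXY i
  have h10 : 10 * (m * (1 / q)) ≤ Y ^ (m + 5) :=
    NmS.mul_le hY (by positivity) (NmS.num_le hY 4 (by norm_num)) (j := m + 1)
      (NmS.mul_le hY (by positivity) (NmS.nat_le hY m) hqY le_rfl) (by omega)
  -- a general lemma : rounding up
  have key : ∀ W : ℝ, 0 ≤ W → W ≤ Real.exp (Y ^ (E - 4)) → ∃ N : ℕ, 0 < N ∧ (m : ℝ) * (W / N) ≤ q / 10 ∧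
      (N : ℝ) ≤ Real.exp (Y ^ E) := by
    intro W hW0 hW
    refine ⟨⌈10 * (m * (1 / q)) * W⌉₊ + 1, Nat.succ_pos _, ?_, ?_⟩
    · have h1 : 10 * (m * (1 / q)) * W ≤ ((⌈10 * (m * (1 / q)) * W⌉₊ + 1 : ℕ) : ℝ) := by
        push_cast
        linarith [Nat.le_ceil (10 * (m * (1 / q)) * W)]
      have h2 : (0 : ℝ) < ((⌈10 * (m * (1 / q)) * W⌉₊ + 1 : ℕ) : ℝ) := by exact_mod_cast Nat.succ_pos _
      generalize ((⌈10 * (m * (1 / q)) * W⌉₊ + 1 : ℕ) : ℝ) = N at h1 h2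
      have e : 10 * (m * (1 / q)) * W = (10 * (m * W)) / q := by field_simp
      rw [e, div_le_iff₀ hq0] at h1
      rw [mul_div_assoc', div_le_iff₀ h2]
      linarith
    · have h1 : 10 * (m * (1 / q)) * W ≤ Real.exp (Y ^ (E - 3)) :=
        NmS.mulE hY hW0 (NmS.to_exp h10) hW (by omega) (by omega)
      have h2 : ((⌈10 * (m * (1 / q)) * W⌉₊ + 1 : ℕ) : ℝ) ≤ 10 * (m * (1 / q)) * W + 2 := by
        push_cast
        have h3 : 0 ≤ 10 * (m * (1 / q)) * W := by positivity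
        linarith [NmS.ceil_le h3]
      exact h2.trans (NmS.addE hY h1 (j := 1) (NmS.to_exp (NmS.num_le hY 1 (by norm_num))) (by omega) (by omega))
  have hB2 : (B' : ℝ) ^ 2 ≤ Real.exp (Y ^ (E - 4)) := NmS.powE hY (Nat.cast_nonneg _) hB' 2 (by omega)
  obtain ⟨Mh, hMh, hMh1, hMh2⟩ := key ((B' : ℝ) ^ 2) (by positivity) hB2
  have h20 : 20 / ea ^ 2 ≤ Y ^ (2 * c1 + 5) := by
    have e : 20 / ea ^ 2 = 20 * (1 / ea) ^ 2 := by field_simp
    rw [e]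
    exact NmS.mul_le hY (by positivity) (NmS.num_le hY 5 (by norm_num))
      (NmS.pow_le hY (by positivity) (heai.trans (hXpw _)) 2 le_rfl) (by omega)
  have hth1 : 1 / th ≤ Real.exp (Y ^ c1) := by
    rw [one_div_le hth (Real.exp_pos _)]
    rw [one_div, ← Real.exp_neg]
    exact hthg
  have h20t : 20 / ea ^ 2 / th ≤ Real.exp (Y ^ (2 * c1 + 6)) := by
    have e : 20 / ea ^ 2 / th = 20 / ea ^ 2 * (1 / th) := by field_simp
    rw [e]
    exact NmS.mulE hY (by positivity) (NmS.to_exp h20) hth1 (by omega) (by omega)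
  have hCl1 : Cl ≤ Real.exp (Y ^ (c1 * C1)) := by
    refine hCl.trans (Real.exp_le_exp.2 ?_)
    exact NmS.pow_le hY hH0 hH C1 le_rfl
  have h1e : (1 : ℝ) ≤ Real.exp (Y ^ 0) := by
    rw [pow_zero]
    linarith [Real.add_one_le_exp (1 : ℝ)]
  have hin : 1 + Cl * (1 + 20 / ea ^ 2 / th) ≤ Real.exp (Y ^ (E - 4)) :=
    NmS.addE hY h1e (j := 2 * c1 + c1 * C1 + 9) (NmS.mulE hY (by positivity) hCl1 (j := 2 * c1 + 7)
      (NmS.addE hY h1e h20t (by omega) (by omega)) (by omega) (by omega)) (by omega) (by omega)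
  obtain ⟨B2, hB20, hB21, hB22⟩ := key (1 + Cl * (1 + 20 / ea ^ 2 / th)) (by positivity) hin
  have hmx : ((max Mh nu + 3 + 2 : ℕ) : ℝ) ≤ Real.exp (Y ^ (E + 4)) := by
    have h1 : ((max Mh nu + 3 + 2 : ℕ) : ℝ) ≤ ((Mh : ℝ) + nu) + 5 := by
      have h2 : max Mh nu ≤ Mh + nu := max_le (Nat.le_add_right _ _) (Nat.le_add_left _ _)
      have h3 : ((max Mh nu : ℕ) : ℝ) ≤ (Mh : ℝ) + nu := by exact_mod_cast h2
      push_cast at h3 ⊢
      linarith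
    refine h1.trans (NmS.addE hY (i := E + 1) (j := 3) (NmS.addE hY hMh2 (j := c1) (NmS.to_exp (hnu.trans (hXpw _))) (by omega)
      (by omega)) (NmS.to_exp (NmS.num_le hY 3 (by norm_num))) (by omega) (by omega))
  have hpw : ((max Mh nu + 3 + 2 : ℕ) : ℝ) ^ r ≤ Real.exp (Y ^ (r + E + 4)) :=
    NmS.powE hY (Nat.cast_nonneg _) hmx r (by omega)
  refine ⟨Mh, B2, B' + B2 + (max Mh nu + 3 + 2) ^ r, hMh, hB20, hMh1, hB21, by omega, by omega, by omega, ?_⟩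
  have e : ((B' + B2 + (max Mh nu + 3 + 2) ^ r : ℕ) : ℝ) = ((B' : ℝ) + B2) + ((max Mh nu + 3 + 2 : ℕ) : ℝ) ^ r := by
    push_cast
    ring
  rw [e]
  exact NmS.addE hY (i := E + 1) (NmS.addE hY hB' hB22 (by omega) (by omega)) hpw (by omega) (by omega)

end

end Pool.Agent.GMN
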