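import Pool.Agent.GMN.StepAsm
import Pool.Agent.GMN.NumStep
import Pool.Agent.GMN.JRAt
import Pool.Agent.GMN.Cls

/-!
# GMN/StepEnd (helper25): THE RULE OF STEP C FOR A CLASS OF SYSTEMS

`ruleAt_of m C0 CJ` : one constant `C` for all classes `G` of systems with `m` vertices in which Lemma T_j for at most `m - 1`
vertices holds with the constant `C0` (`CoinSMI`) and the record lemma holds with the constant `CJ` (`JRAt`).
-/

set_option autoImplicit false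
set_option linter.unusedSectionVars false

namespace Pool.Agent.GMN

open Finset Pool.Agent.PWZ Pool.Agent.M3 Pool.Agent.M3.TS Pool.Agent.GM

noncomputable section

/-- **THE RULE OF STEP C** -/
theorem ruleAt_of (m C0 CJ : ℕ) : ∃ C : ℕ, ∀ (ι : Type) [Fintype ι] [DecidableEq ι] (G : SysCls ι),
    Fintype.card ι = m →
    (∀ (Om Ξ Pt V Γ κ : Type) [Fintype Om] [Fintype Ξ] [Fintype Pt] [Fintype V] (S : Sys ι Om Ξ Pt V Γ κ) (X Y : ℝ)
      (D : ℕ), G.G S X Y D → CoinSMI S (m - 1) C0) → JRAt G CJ → RuleAt G C := by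
  obtain ⟨C1, hC1⟩ := tj_coin m C0
  obtain ⟨c, hc1, hnum⟩ := num1 m C1
  obtain ⟨c', hc'⟩ : ∃ c', c' = c + 5 := ⟨_, rfl⟩
  obtain ⟨c3, hc3⟩ : ∃ c3, c3 = c' + c' * CJ := ⟨_, rfl⟩
  obtain ⟨c2, hnum2⟩ := num2 m (2 ^ (m + 2)) c3 C1
  refine ⟨c3 + c2, ?_⟩
  intro ι _ _ G hm hG hJR Om Ξ Pt V Γ κ β _ _ _ _ _ S X Y η q hX hXY hYX hη hη1 hq hq1 hGS D n B hB hn hBY hβ hL
  have hY : 2 ≤ Y := hX.trans hXY
  have hX0 : 0 < X := by linarith
  have hY0 : 0 < Y := by linarith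
  have hX1 : 1 ≤ X := by linarith
  have hY1 : 1 ≤ Y := by linarith
  have hK : S.K ≤ Y := G.K_le S X Y _ hX hGS
  have hnear : S.near ≤ 1 / X ^ c := G.near_le S X Y c hX (G.mono S X Y c _ hX (by omega) hGS)
  obtain ⟨N⟩ := hnum X Y η q S.K S.near n B hX hXY hYX hη hη1 hq hq1 S.K1 hK S.near0 hnear hn hBY
  have hq0 : 0 < q := lt_of_lt_of_le (by positivity) hq
  have hPt : Nonempty Pt := by
    obtain ⟨w⟩ := S.nonempty_Om
    exact ⟨S.x w D.a⟩
  -- the record lemma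
  have hc'1 : 1 ≤ c' := by omega
  have hXc : 2 ≤ X ^ c' := hX.trans (le_self_pow₀ hX1 (by omega))
  have hXYc : X ^ c' ≤ Y ^ c' := pow_le_pow_left₀ hX0.le hXY c'
  have hYXc : Y ^ c' ≤ Real.exp (X ^ c') := pow_le_exp_pow hX hY0.le hYX hc'1
  have hYc : Y ≤ Y ^ c' := le_self_pow₀ hY1 (by omega)
  have hYcc : Y ^ c ≤ Y ^ c' := pow_le_pow_right₀ hY1 (by omega)
  have hq10 : 1 / X ^ c' ≤ q / 10 := by
    have h1 : 10 * X ≤ X ^ c' := by
      have h2 : X ^ 5 ≤ X ^ c' := pow_le_pow_right₀ hX1 (by omega)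
      have h3 : (2 : ℝ) ^ 4 ≤ X ^ 4 := pow_le_pow_left₀ (by norm_num) hX 4
      have h4 : X ^ 5 = X ^ 4 * X := pow_succ X 4
      nlinarith
    have h5 : 1 / X ^ c' ≤ 1 / (10 * X) := one_div_le_one_div_of_le (by positivity) h1
    have h6 : 1 / (10 * X) = (1 / X) / 10 := by
      field_simp
    rw [h6] at h5
    exact h5.trans (div_le_div_of_nonneg_right hq (by norm_num))
  have hcf : 1 / Y ^ c' ≤ min N.cf 1 := by
    refine le_min ((one_div_le_one_div_of_le (by positivity) hYcc).trans N.cf_ge) ?_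
    rw [div_le_one (by positivity)]
    exact one_le_pow₀ hY1
  have hGJ : G.G S (X ^ c') (Y ^ c') CJ :=
    G.pow S X Y c' CJ hX hXY hc'1 (G.mono S X Y (c' * CJ) _ hX (by rw [hc3]; omega) hGS)
  obtain ⟨Ξ2, iF, iN, nR, BR, ⟨R⟩, hnR, hBR⟩ := hJR Om Ξ Pt V Γ κ β S (X ^ c') (Y ^ c') (q / 10) (min N.cf 1) hXc hXYc
    hYXc hq10 (by linarith) hcf (min_le_right _ _) hGJ D n B N.M hB (hn.trans hYc) (hBY.trans (Real.exp_le_exp.2 hYc)) N.M0
    (N.M_le.trans (Real.exp_le_exp.2 hYcc)) hL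
  -- Lemma T_j on the system with the coins of the records
  have hS0 : (D.add Ξ2).S0.card ≤ m - 1 := by
    have h1 := (D.add Ξ2).card_S0
    have h2 : (D.add Ξ2).L.card = D.L.card := rfl
    rw [h1, h2, ← hm]
    exact hL
  have hTJ : TJ (addCoins S Ξ2) (D.add Ξ2).S0 (D.add Ξ2).v C1 :=
    (hC1 ι Om Ξ Pt V Γ κ S (m - 1) hm.le (hG Om Ξ Pt V Γ κ S X Y _ hGS) (D.add Ξ2).S0 (D.add Ξ2).v StepIn.mem_S0v hS0).2 Ξ2
  -- the numbers of the second part
  have hcc3 : Y ^ c ≤ Y ^ c3 := pow_le_pow_right₀ hY1 (by omega)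
  have hXcc3 : X ^ c ≤ X ^ c3 := pow_le_pow_right₀ hX1 (by omega)
  have hH0 : 0 ≤ N.H := N.H0.le
  have hpow : (Y ^ c') ^ CJ ≤ Y ^ c3 := by
    rw [← pow_mul]
    exact pow_le_pow_right₀ hY1 (by omega)
  obtain ⟨Mh, B2, B3, hMh, hB2, hMh2, hB22, hBR3, hB23, hB3, hB3e⟩ := hnum2 X Y q N.ea N.H N.th (Real.exp (N.H ^ C1)) BR N.nu
    hX hXY hq N.ea0 (N.inv_ea.trans hXcc3) hH0 (N.Hc.trans hcc3) N.th0
    ((Real.exp_le_exp.2 (neg_le_neg hcc3)).trans N.th_ge) (Real.exp_pos _).le le_rfl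
    (hBR.trans (Real.exp_le_exp.2 hpow)) (N.nu_le.trans hXcc3)
  have hcfN : (n : ℝ) * (min N.cf 1 * ((Ru.IndM.NvB N.ea + 1) * (20 / N.ea ^ 2 + 1))) ≤ q / 10 := by
    refine le_trans ?_ N.fail_le
    have h1 : 0 ≤ (Ru.IndM.NvB N.ea + 1) * (20 / N.ea ^ 2 + 1) := by
      have := N.ea0
      have h2 : 0 ≤ Ru.IndM.NvB N.ea := by
        unfold Ru.IndM.NvB
        positivity
      positivity
    exact mul_le_mul_of_nonneg_left (mul_le_mul_of_nonneg_right (min_le_left _ _) h1) (Nat.cast_nonneg n)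
  have hB30 : 0 < B3 := lt_of_lt_of_le hB2 hB23
  obtain ⟨O, dead, hO⟩ := step_core D (M := N.M) (n := n) (B := B) (I := N.I) (j := N.j) (k := N.k) (nu := N.nu)
    (nR := nR) (BR := BR) (Mh := Mh) (mx := max Mh N.nu + 2) (B3 := B3) (C1 := C1) (b := N.b) (pY := N.pY) (ea := N.ea)
    (H := N.H) (θ := N.th) (cf := min N.cf 1) (q0 := q / 10) (q := q) (η := η) hB hTJ R (by linarith) N.b0 N.b2 N.bH
    (hK.trans (N.YH.trans (by linarith [Real.add_one_le_exp N.H]))) N.near_le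
    (by
      rw [hm]
      push_cast
      exact N.runs_le)
    (hβ.trans (Real.exp_le_exp.2 N.YH)) N.H_le N.th0 N.th_le N.ea0 N.ea1 N.pY0 N.eaY N.mv_le N.err_le N.nu_ge N.tail_k
    N.M0 (by rw [hm]; exact N.vis_le) N.I_ge (by rw [hm]; exact N.tail_j) hcfN hMh (by rw [hm]; exact hMh2)
    (by omega) (by omega) (by omega) (by
      rw [hm]
      refine le_trans ?_ hB3
      exact Nat.pow_le_pow_left (by omega) _) hBR3 hB30 (by
      rw [hm]
      refine le_trans ?_ hB22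
      have h1 : (0 : ℝ) < B2 := by exact_mod_cast hB2
      have h2 : (B2 : ℝ) ≤ B3 := by exact_mod_cast hB23
      have h3 : 0 ≤ 1 + Real.exp (N.H ^ C1) * (1 + 20 / N.ea ^ 2 / N.th) := by
        have := N.th0
        have := N.ea0
        have := Real.exp_pos (N.H ^ C1)
        positivity
      exact mul_le_mul_of_nonneg_left (div_le_div_of_nonneg_left h3 h1 h2) (Nat.cast_nonneg m))
  refine ⟨Ξ2, iF, iN, O, N.nu, nR, B3, dead, hO, N.nu_le.trans (pow_le_pow_right₀ hX1 (by omega)),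
    hnR.trans (hpow.trans (pow_le_pow_right₀ hY1 (by omega))),
    hB3e.trans (Real.exp_le_exp.2 (pow_le_pow_right₀ hY1 (by omega)))⟩

/-- **the record lemma in helper52's class from its part with at least two reference vertices** -/
theorem jrAt_smi {ι : Type} [Fintype ι] [DecidableEq ι] {j C0 C : ℕ} (hC : 32 ≤ C) (h2 : JR2At (smiCls ι j C0) C) :
    JRAt (smiCls ι j C0) C := by
  intro Om Ξ Pt V Γ κ β _ _ _ _ _ S X Y q cf hX hXY hYX hq hq1 hcf hcf1 hG D n B M hB hn hBY hM hMY hL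
  rcases Nat.lt_or_ge D.Rf.card 2 with hc | hc
  · have hY : 2 ≤ Y := hX.trans hXY
    have hYY : Y ≤ Y ^ 2 := le_self_pow₀ (by linarith) (by norm_num)
    have hY4 : 4 ≤ Y ^ 2 := by nlinarith
    have hq' : 1 / Y ^ 2 ≤ q := (one_div_le_one_div_of_le (by linarith) (hXY.trans hYY)).trans hq
    have hcf' : 1 / Y ^ 2 ≤ cf := (one_div_le_one_div_of_le (by linarith) hYY).trans hcf
    obtain ⟨Ξ2, i1, i2, n', B', h, hn', hB'⟩ := jrs_le_one (M := M) (Y := Y ^ 2) (by linarith) (by omega)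
      ((smiCls_dbl hG).mono hY4) ((smiCls ι j C0).K_le S X Y C hX hG |>.trans hYY) hB (hn.trans hYY)
      (hBY.trans (Real.exp_le_exp.2 hYY)) hq' hcf'
    have hp : (Y ^ 2) ^ 16 ≤ Y ^ C := by
      rw [← pow_mul]
      exact pow_le_pow_right₀ (by linarith) hC
    exact ⟨Ξ2, i1, i2, n', B', h, hn'.trans hp, hB'.trans (Real.exp_le_exp.2 hp)⟩
  · exact h2 Om Ξ Pt V Γ κ β S X Y q cf hX hXY hYX hq hq1 hcf hcf1 hG D n B M hB hn hBY hM hMY hL hc

/-- **THE RULE OF STEP C IN THE CLASS OF THE BINARY MODELS** -/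
theorem ruleAt_smi (m C0 CJ : ℕ) : ∃ C : ℕ, ∀ (ι : Type) [Fintype ι] [DecidableEq ι], Fintype.card ι = m →
    JRAt (smiCls ι (m - 1) C0) CJ → RuleAt (smiCls ι (m - 1) C0) C := by
  obtain ⟨C, hC⟩ := ruleAt_of m C0 CJ
  exact ⟨C, fun ι _ _ hm hJ => hC ι (smiCls ι (m - 1) C0) hm (fun _ _ _ _ _ _ _ _ _ _ _ _ _ _ h => smiCls_smi h) hJ⟩

/-- no step with two reference vertices among at most three vertices -/
theorem jr2At_three {ι : Type} [Fintype ι] [DecidableEq ι] (G : SysCls ι) (C : ℕ) (hι : Fintype.card ι ≤ 3) :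
    JR2At G C := by
  intro Om Ξ Pt V Γ κ β _ _ _ _ _ S X Y q cf _ _ _ _ _ _ _ _ D n B M _ _ _ _ _ _ hc
  exfalso
  have h1 : D.Rf ⊆ (univ.erase D.a).erase D.v := by
    intro u hu
    refine mem_erase.2 ⟨fun h => D.vR (h ▸ hu), mem_erase.2 ⟨fun h => D.aR (h ▸ hu), mem_univ u⟩⟩
  have h2 := Finset.card_le_card h1
  rw [Finset.card_erase_of_mem (mem_erase.2 ⟨D.av.symm, mem_univ _⟩), Finset.card_erase_of_mem (mem_univ _),
    Finset.card_univ] at h2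
  omega

/-- **THE RULE FOR THREE VERTICES, UNCONDITIONAL IN THE CLASS** -/
theorem ruleAt_three (C0 : ℕ) : ∃ C : ℕ, ∀ (ι : Type) [Fintype ι] [DecidableEq ι], Fintype.card ι = 3 →
    RuleAt (smiCls ι 2 C0) C := by
  obtain ⟨C, hC⟩ := ruleAt_smi 3 C0 32
  exact ⟨C, fun ι _ _ hm => hC ι hm (jrAt_smi le_rfl (jr2At_three _ _ hm.le))⟩

end

end Pool.Agent.GMN
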