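import Pool.Agent.GMN.NamBin
import Pool.Agent.GMN.StepC
import Pool.Agent.GMN.Cls
import Pool.Agent.GMN.StepEnd
import Pool.Agent.GM.SInd
import Pool.Agent.GMJR.ClsG

/-!
# GMN/NamRule (helper19): the names of every piece from the rule

* **`namBin_of_rule`** : `RuleAt (G ι) C0` for all `ι` with `j` elements and `BinCls` give `NamBin`, explicit constants;
* `binCls_smi` : the class `smiCls`;
* **`namBin_smi`** : `SMIbin j' C1` for `2 ≤ j' ≤ j1` and `RuleAt (smiCls ι j1 C1) C0` give `NamBin j κ c0 c D` for all `c0`;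
* `RuleM m C0 C`, **`namBin_ruleM`** : the same for `j1 = j - 1`; `JR2M m C0` : the record lemma with at least two reference
  vertices, one constant for all types with `m` elements; `ruleM_of_jr2`;
* **`namBin_below`**, `namBin_below2` (with `2 ≤ c`) : `Below j` (helper85's induction) and `JR2M j C0` for all `C0` give the names of every piece with `j`
  vertices; **`namBin_three`** : three vertices, UNCONDITIONAL.
-/

set_option autoImplicit false
set_option linter.unusedSectionVars false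

namespace Pool.Agent.GMN

open Finset Pool.Agent.PWZ Pool.Agent.M3 Pool.Agent.M3.TS Pool.Agent.GM Pool.Agent.M3.Bin Pool.Agent.GM.KVer

noncomputable section

/-- the constant of the names -/
def namC (j C0 : ℕ) : ℕ := (SC.stepC j C0 + 1) ^ 2 ^ (j - 1)

/-- **the names of every piece from the rule** -/
theorem namBin_of_rule {G : ∀ (ι : Type) [Fintype ι] [DecidableEq ι], SysCls ι} {j C0 : ℕ}
    (hR : ∀ (ι : Type) [Fintype ι] [DecidableEq ι], Fintype.card ι = j → RuleAt (G ι) C0)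
    (hG : BinCls G j (namC j C0)) {κ : ℝ} (hκ : κ ≤ 1) (c0 : ℕ) :
    NamBin j κ c0 (NamNum.nc c0 (namC j C0) j) (NamNum.nD c0 (namC j C0) j) := by
  refine namBin (G := G) ?_ hG hκ c0
  intro ι _ _ a k e hj hk hk1 he
  have h1 := namesAt a e (G ι) hk1 (SC.stepAt_of_rule e he (hR ι hj))
  have h2 : namC j C0 = (SC.stepC (Fintype.card ι) C0 + 1) ^ 2 ^ k := by
    unfold namC
    rw [hj]
    congr 2
    omega
  rw [h2]
  exact h1

/-- the binary models are in the class `smiCls` -/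
theorem binCls_smi {j1 C1 : ℕ} (H : ∀ j', 2 ≤ j' → j' ≤ j1 → SMIbin j' C1) (j C : ℕ) :
    BinCls (fun ι _ _ => smiCls ι j1 C1) j C := by
  intro ι Θ Ξ Q _ _ _ _ _ _ _ _ k N σ a hN h _ X Y _ _ _ hK hnear
  exact smiCls_bin σ H a hN h hK hnear

/-- **the names of every piece from the rule for the class `smiCls`** -/
theorem namBin_smi {j j1 C0 C1 : ℕ} (H : ∀ j', 2 ≤ j' → j' ≤ j1 → SMIbin j' C1)
    (hR : ∀ (ι : Type) [Fintype ι] [DecidableEq ι], Fintype.card ι = j → RuleAt (smiCls ι j1 C1) C0)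
    {κ : ℝ} (hκ : κ ≤ 1) (c0 : ℕ) : ∃ c D, 2 ≤ c ∧ NamBin j κ c0 c D :=
  ⟨_, _, by unfold NamNum.nc NamNum.n2; omega,
    namBin_of_rule (G := fun ι _ _ => smiCls ι j1 C1) hR (binCls_smi H j _) hκ c0⟩

/-- **the names of every piece from the rule for the class `hgCls`** -/
theorem namBin_hg {j j1 C0 C1 : ℕ} (H : ∀ j', 2 ≤ j' → j' ≤ j1 → SMIbin j' C1)
    (hR : ∀ (ι : Type) [Fintype ι] [DecidableEq ι], Fintype.card ι = j → RuleAt (GMJR.hgCls ι j1 C1) C0)
    {κ : ℝ} (hκ : κ ≤ 1) (c0 : ℕ) : ∃ c D, 2 ≤ c ∧ NamBin j κ c0 c D :=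
  ⟨_, _, by unfold NamNum.nc NamNum.n2; omega,
    namBin_of_rule (G := fun ι _ _ => GMJR.hgCls ι j1 C1) hR (GMJR.binCls_hg H j _) hκ c0⟩

/-- **the rule for `m` vertices** (the only input of the names): constant `C0` of the strong moving form, constant `C` -/
def RuleM (m C0 C : ℕ) : Prop :=
  ∀ (ι : Type) [Fintype ι] [DecidableEq ι], Fintype.card ι = m → RuleAt (GMJR.hgCls ι (m - 1) C0) C

/-- **the names of every piece with `j` vertices from the rule and the strong moving form with fewer vertices** -/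
theorem namBin_ruleM {j C0 C1 : ℕ} (H : ∀ j', 2 ≤ j' → j' < j → SMIbin j' C0) (hR : RuleM j C0 C1)
    {κ : ℝ} (hκ : κ ≤ 1) (c0 : ℕ) : ∃ c D, 2 ≤ c ∧ NamBin j κ c0 c D :=
  namBin_hg (j1 := j - 1) (fun j' h1 h2 => H j' h1 (by omega)) hR hκ c0

/-- **the record lemma with at least two reference vertices**, one constant for all types with `m` elements, in the class
`hgCls` (with the geometry of every hidden vertex) -/
def JR2M (m C0 : ℕ) : Prop :=
  ∃ CJ : ℕ, 32 ≤ CJ ∧ ∀ (ι : Type) [Fintype ι] [DecidableEq ι], Fintype.card ι = m →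
    JR2At (GMJR.hgCls ι (m - 1) C0) CJ

theorem jr2M_three (C0 : ℕ) : JR2M 3 C0 := ⟨32, le_rfl, fun _ _ _ h => jr2At_three _ _ h.le⟩

theorem ruleM_of_jr2 {m C0 : ℕ} (h : JR2M m C0) : ∃ C : ℕ, RuleM m C0 C := by
  obtain ⟨CJ, _, hJ⟩ := h
  obtain ⟨C, hC⟩ := GMJR.ruleAt_hg m C0 CJ
  exact ⟨C, fun ι _ _ hm => hC ι hm (hJ ι hm)⟩

/-- **the names of every piece with `j` vertices**: from everything below `j` and the record lemma -/
theorem namBin_below2 {j : ℕ} (hB : GS.Below j) (hJ : ∀ C0, JR2M j C0) {κ : ℝ} (hκ : κ ≤ 1) (c0 : ℕ) :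
    ∃ c D, 2 ≤ c ∧ NamBin j κ c0 c D := by
  obtain ⟨C0, _, hS⟩ := hB.smi
  obtain ⟨C1, hR⟩ := ruleM_of_jr2 (hJ C0)
  exact namBin_ruleM hS hR hκ c0

theorem namBin_below {j : ℕ} (hB : GS.Below j) (hJ : ∀ C0, JR2M j C0) {κ : ℝ} (hκ : κ ≤ 1) (c0 : ℕ) :
    ∃ c D, NamBin j κ c0 c D := by
  obtain ⟨c, D, _, h⟩ := namBin_below2 hB hJ hκ c0
  exact ⟨c, D, h⟩

/-- **THE NAMES OF EVERY PIECE WITH THREE VERTICES, UNCONDITIONAL** -/
theorem namBin_three2 {κ : ℝ} (hκ : κ ≤ 1) (c0 : ℕ) : ∃ c D, 2 ≤ c ∧ NamBin 3 κ c0 c D :=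
  namBin_below2 GS.below_three jr2M_three hκ c0

theorem namBin_three {κ : ℝ} (hκ : κ ≤ 1) (c0 : ℕ) : ∃ c D, NamBin 3 κ c0 c D :=
  namBin_below GS.below_three jr2M_three hκ c0

end

end Pool.Agent.GMN
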