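import Pool.Agent.GMN.JRone

/-!
# GMN.Coin: product coins

`piFP q` = product law, `piFP_split`: independence of one coordinate from a function of the others.
`geo g` = the law on levels `0..g` with `P(k) = (1/2)^(k+1)` for `k < g`, `P(g) = (1/2)^g`.
`coins g` = independent levels; `coins_hco` is the hypothesis `hco` of `jr_one`; `coins_rec`: a reference with
`Rr * Z = x` is recorded with probability at most `x`.
-/

set_option autoImplicit false
set_option linter.unusedSectionVars false

namespace Pool.Agent.GMN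

open Finset Pool.Agent.PWZ Pool.Agent.M3

noncomputable section

variable {ι β : Type*} [Fintype ι] [DecidableEq ι] [Fintype β]

/-- product law -/
def piFP (q : ι → FP β) : FP (ι → β) where
  p c := ∏ i, (q i).p (c i)
  nn c := Finset.prod_nonneg fun i _ => (q i).nn _
  tot := by
    have h := (Finset.prod_univ_sum (fun _ : ι => (Finset.univ : Finset β)) (fun i b => (q i).p b)).symm
    rw [Fintype.piFinset_univ] at h
    rw [h]
    exact Finset.prod_eq_one fun i _ => (q i).tot

/-- independence of one coordinate from a function of the others -/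
theorem piFP_split (q : ι → FP β) (n : ι) (G : β → ℝ) (F : (ι → β) → ℝ)
    (hF : ∀ c b, F (Function.update c n b) = F c) :
    (piFP q).E (fun c => G (c n) * F c) = (q n).E G * (piFP q).E F := by
  classical
  have key : ∀ G : β → ℝ, (piFP q).E (fun c => G (c n) * F c) =
      (q n).E G * ∑ r : {j // j ≠ n} → β, (∏ j, (q j.1).p (r j)) *
        (if h : Nonempty β then F ((Equiv.funSplitAt n β).symm (Classical.choice h, r)) else 0) := by
    intro G
    unfold FP.E
    rw [← (Equiv.funSplitAt n β).symm.sum_comp, Fintype.sum_prod_type, Finset.sum_mul]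
    refine Finset.sum_congr rfl fun b _ => ?_
    rw [Finset.mul_sum]
    refine Finset.sum_congr rfl fun r _ => ?_
    have e1 : ((Equiv.funSplitAt n β).symm (b, r)) n = b := by
      simp [Equiv.funSplitAt, Equiv.piSplitAt]
    have e2 : (piFP q).p ((Equiv.funSplitAt n β).symm (b, r)) = (q n).p b * ∏ j : {j // j ≠ n}, (q j.1).p (r j) := by
      show ∏ i, (q i).p (((Equiv.funSplitAt n β).symm (b, r)) i) = _
      rw [Fintype.prod_eq_mul_prod_subtype_ne _ n, e1]
      congr 1
      refine Finset.prod_congr rfl fun j _ => ?_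
      have : ((Equiv.funSplitAt n β).symm (b, r)) j.1 = r j := by
        simp [Equiv.funSplitAt, Equiv.piSplitAt, j.2]
      rw [this]
    have hne : Nonempty β := ⟨b⟩
    have e3 : F ((Equiv.funSplitAt n β).symm (b, r)) = F ((Equiv.funSplitAt n β).symm (Classical.choice hne, r)) := by
      have : (Equiv.funSplitAt n β).symm (b, r) =
          Function.update ((Equiv.funSplitAt n β).symm (Classical.choice hne, r)) n b := by
        funext j
        rcases eq_or_ne j n with e | e
        · subst e; rw [Function.update_self]; exact e1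
        · rw [Function.update_of_ne e]
          simp [Equiv.funSplitAt, Equiv.piSplitAt, e]
      rw [this, hF]
    simp only [e1, e2, e3, dif_pos hne]
    ring
  have h1 := key (fun _ => 1)
  have h2 : (q n).E (fun _ => (1:ℝ)) = 1 := (q n).E_const 1
  rw [h2, one_mul] at h1
  have h3 : (piFP q).E (fun c => 1 * F c) = (piFP q).E F := by simp only [one_mul]
  rw [key G, ← h1, h3]

/-- one coordinate -/
theorem piFP_one (q : ι → FP β) (n : ι) (G : β → ℝ) : (piFP q).E (fun c => G (c n)) = (q n).E G := by
  have h := piFP_split q n G (fun _ => 1) (fun _ _ => rfl)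
  simp only [mul_one] at h
  rw [h, FP.E_const, mul_one]

/-- geometric levels -/
def geo (g : ℕ) : FP (Fin (g + 1)) where
  p k := if k.1 < g then (1 / 2 : ℝ) ^ (k.1 + 1) else (1 / 2 : ℝ) ^ g
  nn k := by split_ifs <;> positivity
  tot := by
    rw [Fin.sum_univ_eq_sum_range (fun k => if k < g then (1 / 2 : ℝ) ^ (k + 1) else (1 / 2 : ℝ) ^ g) (g + 1)]
    rw [Finset.sum_range_succ, if_neg (lt_irrefl g)]
    have h : ∑ k ∈ range g, (if k < g then (1 / 2 : ℝ) ^ (k + 1) else (1 / 2 : ℝ) ^ g) =
        ∑ k ∈ range g, (1 / 2 : ℝ) ^ (k + 1) :=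
      Finset.sum_congr rfl fun k hk => if_pos (mem_range.1 hk)
    rw [h]
    have h2 : ∀ g : ℕ, ∑ k ∈ range g, (1 / 2 : ℝ) ^ (k + 1) + (1 / 2 : ℝ) ^ g = 1 := by
      intro g
      induction g with
      | zero => simp
      | succ g ih =>
        rw [Finset.sum_range_succ]
        have e : (1 / 2 : ℝ) ^ (g + 1) + (1 / 2 : ℝ) ^ (g + 1) = (1 / 2 : ℝ) ^ g := by rw [pow_succ]; ring
        linarith
    exact h2 g

/-- probability of one level -/
theorem geo_level {g k : ℕ} (hk : k ≤ g) : (1 / 2 : ℝ) ^ (k + 1) ≤ (geo g).E (fun j => ind (j.1 = k)) := by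
  unfold FP.E
  have h := Finset.single_le_sum (f := fun j : Fin (g + 1) => (geo g).p j * ind (j.1 = k))
    (fun j _ => mul_nonneg ((geo g).nn j) (ind_nonneg _)) (Finset.mem_univ ⟨k, by omega⟩)
  refine le_trans ?_ h
  have e : ind ((⟨k, by omega⟩ : Fin (g + 1)).1 = k) = 1 := ind_of rfl
  show (1 / 2 : ℝ) ^ (k + 1) ≤ (if k < g then (1 / 2 : ℝ) ^ (k + 1) else (1 / 2 : ℝ) ^ g) * ind (_ = k)
  rw [e, mul_one]
  split_ifs with h1
  · exact le_rfl
  · have : k = g := by omega
    rw [this, pow_succ]
    have : (0 : ℝ) ≤ (1 / 2) ^ g := by positivity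
    linarith

/-- probability of a level at least `k` -/
theorem geo_tail {g : ℕ} : ∀ k : ℕ, (geo g).E (fun j => ind (k ≤ j.1)) ≤ (1 / 2 : ℝ) ^ k := by
  have h1 : ∀ k ≤ g, (geo g).E (fun j => ind (k ≤ j.1)) = (1 / 2 : ℝ) ^ k := by
    intro k
    induction k with
    | zero =>
      intro _
      have : (fun j : Fin (g + 1) => ind (0 ≤ j.1)) = fun _ => (1 : ℝ) := by
        funext j; exact ind_of (Nat.zero_le _)
      rw [this, FP.E_const, pow_zero]
    | succ k ih =>
      intro hk
      have h2 := ih (by omega)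
      have h3 : (geo g).E (fun j => ind (k ≤ j.1)) =
          (geo g).E (fun j => ind (j.1 = k)) + (geo g).E (fun j => ind (k + 1 ≤ j.1)) := by
        rw [← FP.E_add]
        refine FP.E_congr _ fun j _ => ?_
        rcases lt_trichotomy j.1 k with h | h | h
        · rw [ind_not (by omega), ind_not (by omega), ind_not (by omega)]; norm_num
        · rw [ind_of (by omega), ind_of h, ind_not (by omega)]; norm_num
        · rw [ind_of (by omega), ind_not (by omega), ind_of (by omega)]; norm_num
      have h4 : (geo g).E (fun j => ind (j.1 = k)) = (1 / 2 : ℝ) ^ (k + 1) := by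
        unfold FP.E
        rw [Finset.sum_eq_single (⟨k, by omega⟩ : Fin (g + 1))]
        · show (if k < g then (1 / 2 : ℝ) ^ (k + 1) else (1 / 2 : ℝ) ^ g) * ind (k = k) = _
          rw [if_pos (by omega), ind_of rfl, mul_one]
        · intro j _ hj
          have h0 : ind (j.1 = k) = 0 := ind_not fun h => hj (Fin.ext h)
          show (geo g).p j * ind (j.1 = k) = 0
          rw [h0, mul_zero]
        · intro h; exact absurd (mem_univ _) h
      have e : (1 / 2 : ℝ) ^ (k + 1) + (1 / 2 : ℝ) ^ (k + 1) = (1 / 2 : ℝ) ^ k := by rw [pow_succ]; ring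
      linarith
  intro k
  rcases Nat.lt_or_ge g k with h | h
  · have : (geo g).E (fun j => ind (k ≤ j.1)) = 0 := by
      have h0 : (fun j : Fin (g + 1) => ind (k ≤ j.1)) = fun _ => (0 : ℝ) := by
        funext j; exact ind_not (by have := j.2; omega)
      rw [h0, FP.E_const]
    rw [this]; positivity
  · exact (h1 k h).le

/-- independent levels -/
def coins (R : Type*) [Fintype R] [DecidableEq R] (g : ℕ) : FP (R → Fin (g + 1)) := piFP fun _ => geo g

/-- the hypothesis `hco` of `jr_one` -/
theorem coins_hco {R : Type*} [Fintype R] [DecidableEq R] (g : ℕ) :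
    ∀ n : R, ∀ k ∈ Icc 1 g, ∀ F : (R → ℕ) → ℝ, (∀ f, 0 ≤ F f) →
      (1 / 2 : ℝ) ^ (k + 1) * (coins R g).E (fun c => F (Function.update (fun m => (c m).1) n 0)) ≤
        (coins R g).E (fun c => ind ((c n).1 = k) * F (Function.update (fun m => (c m).1) n 0)) := by
  intro n k hk F hF
  have h := piFP_split (fun _ : R => geo g) n (fun b => ind (b.1 = k))
    (fun c => F (Function.update (fun m => (c m).1) n 0)) (fun c b => by
      congr 1
      funext m
      rcases eq_or_ne m n with e | e
      · subst e; rw [Function.update_self, Function.update_self]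
      · rw [Function.update_of_ne e, Function.update_of_ne e, Function.update_of_ne e])
  unfold coins
  rw [h]
  exact mul_le_mul_of_nonneg_right (geo_level (mem_Icc.1 hk).2) (FP.E_nonneg _ fun c _ => hF _)

/-- a reference with `(1/2) ^ coin ≤ x` : probability at most `x` -/
theorem geo_rec (g : ℕ) {x : ℝ} (hx : 0 ≤ x) : (geo g).E (fun j => ind ((1 / 2 : ℝ) ^ j.1 ≤ x)) ≤ x := by
  classical
  by_cases hex : ∃ k, (1 / 2 : ℝ) ^ k ≤ x
  · set k := Nat.find hex with hk
    have h1 : (1 / 2 : ℝ) ^ k ≤ x := Nat.find_spec hex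
    refine le_trans (FP.E_mono _ fun j _ => ind_mono fun h => ?_) ((geo_tail k).trans h1)
    exact Nat.find_min' hex h
  · have h0 : (fun j : Fin (g + 1) => ind ((1 / 2 : ℝ) ^ j.1 ≤ x)) = fun _ => (0 : ℝ) := by
      funext j; exact ind_not fun h => hex ⟨_, h⟩
    rw [h0, FP.E_const]; exact hx

theorem coins_rec {R : Type*} [Fintype R] [DecidableEq R] (g : ℕ) (n : R) {x : ℝ} (hx : 0 ≤ x) :
    (coins R g).E (fun c => ind ((1 / 2 : ℝ) ^ (c n).1 ≤ x)) ≤ x := by
  unfold coins
  rw [piFP_one (fun _ : R => geo g) n (fun b => ind ((1 / 2 : ℝ) ^ b.1 ≤ x))]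
  exact geo_rec g hx

section jr

variable {Om R S : Type*} [Fintype Om] [Fintype R] [LinearOrder R] {κ : ℕ → Type*}
  {P : FP Om} {K : ∀ t, Om → κ t} {mem : ℕ → Om → R → Prop} {Rr : ℝ} {M : Om → Mach R S} {N T g : ℕ} {Mu Nv : ℝ}

/-- `JR_1` with product coins -/
theorem JROne.jr (H : JROne P K mem Rr M N T g Mu Nv) :
    (coins R g).E (fun c => P.Pr (fun w => ∃ n, FailAt P K mem Rr M N T (fun m => (c m).1) n w)) ≤
      12 * (Nv + 1) * Mu / Rr :=
  H.jr_one (coins R g) (fun n c => (c n).1) (coins_hco g)

/-- number of recorded references at time `i`, in mean over the coins -/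
theorem rec_count (hR : 0 ≤ Rr) (i : ℕ) (w : Om) :
    (coins R g).E (fun c => ∑ n : R, ind (rc P K mem Rr (c n).1 i n w)) ≤ Rr * ∑ n : R, Zn P K mem i n w := by
  rw [FP.E_sum, Finset.mul_sum]
  refine Finset.sum_le_sum fun n _ => ?_
  exact coins_rec g n (mul_nonneg hR (Zn_nonneg i n w))

end jr

end

end Pool.Agent.GMN
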