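import Pool.Agent.GMN.JRone

/-!
# GMN.Cross (row N, NM.4): the number of ON-stretches of a reference

`q t k` = the test value `N_t(n)` at the micro moment `(t,k)`, in `[0,B]`; ON: from `q ≥ 1` to `q < 1/2`
(hysteresis).  One use lowers `q` by at most `cu`; between the times `q` is a submartingale up to inputs `r t` (resets).
Then the stretches `ON and not allowed` of `n` end at most `2 B + 3 + 2 cu Mu + 2 rb` times in mean from every state.
-/

set_option autoImplicit false
set_option linter.unusedSectionVars false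

namespace Pool.Agent.GMN

open Finset Pool.Agent.PWZ Pool.Agent.M3

noncomputable section

/-- one transition of a hysteresis flag -/
theorem flag_step {a b : Prop} {x y : ℝ} (h1 : a → ¬ b → y ≤ 1 / 2) (h2 : ¬ a → b → 1 ≤ y) :
    ind a * (y - x) + 1 / 2 * ind (a ∧ ¬ b) ≤ (ind b * y - ind b) - (ind a * x - ind a) := by
  by_cases ha : a <;> by_cases hb : b
  · rw [ind_of ha, ind_of hb, ind_not (fun h => h.2 hb)]; linarith
  · have := h1 ha hb
    rw [ind_of ha, ind_not hb, ind_of ⟨ha, hb⟩]; linarith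
  · have := h2 ha hb
    rw [ind_not ha, ind_of hb, ind_not (fun h => ha h.1)]; linarith
  · rw [ind_not ha, ind_not hb, ind_not (fun h => ha h.1)]; linarith

variable {Om R S : Type*} [Fintype Om] [Fintype R] [LinearOrder R] {κ : ℕ → Type*}

/-- hypotheses on the test value of the reference `n` in one world -/
structure OnHyp (P : FP Om) (K : ∀ t, Om → κ t) (M : Om → Mach R S) (A : ℕ → Om → R → Prop) (N T : ℕ) (n : R)
    (q : ℕ → ℕ → Om → ℝ) (B cu : ℝ) (r : ℕ → Om → ℝ) : Prop where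
  filt : Filt K
  mfac : MFac K M
  afac : ∀ i, Fac (K i) (A i)
  amono : ∀ i w, A i w n → A (i + 1) w n
  qfac : ∀ t k, Fac (K t) (q t k)
  B0 : 0 ≤ B
  q1 : ∀ t ≤ T, ∀ k ≤ N, ∀ w, P.p w ≠ 0 → q t k w ≤ B
  half : ∀ t ≤ T, ∀ k ≤ N, ∀ w, P.p w ≠ 0 → (M w).on t ((M w).mic (fun j => A j w) N t k) n → 1 / 2 ≤ q t k w
  offU : ∀ t ≤ T, ∀ k < N, ∀ w, P.p w ≠ 0 → (M w).on t ((M w).mic (fun j => A j w) N t k) n →
    ¬ (M w).on t ((M w).mic (fun j => A j w) N t (k + 1)) n → q t (k + 1) w ≤ 1 / 2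
  upU : ∀ t ≤ T, ∀ k < N, ∀ w, P.p w ≠ 0 → ¬ (M w).on t ((M w).mic (fun j => A j w) N t k) n →
    (M w).on t ((M w).mic (fun j => A j w) N t (k + 1)) n → 1 ≤ q t (k + 1) w
  offE : ∀ t < T, ∀ w, P.p w ≠ 0 → (M w).on t ((M w).mic (fun j => A j w) N t N) n →
    ¬ (M w).on (t + 1) ((M w).mic (fun j => A j w) N (t + 1) 0) n → q (t + 1) 0 w ≤ 1 / 2
  upE : ∀ t < T, ∀ w, P.p w ≠ 0 → ¬ (M w).on t ((M w).mic (fun j => A j w) N t N) n →
    (M w).on (t + 1) ((M w).mic (fun j => A j w) N (t + 1) 0) n → 1 ≤ q (t + 1) 0 w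
  useU : ∀ t ≤ T, ∀ k < N, ∀ w, P.p w ≠ 0 →
    q t k w - cu * ind ((M w).pk (fun j => A j w) N t k ≠ none) ≤ q t (k + 1) w
  useE : ∀ t < T, ∀ w, P.p w ≠ 0 → q t N w - r t w ≤ P.ce (K t) (q (t + 1) 0) w
  cu0 : 0 ≤ cu
  r0 : ∀ t w, 0 ≤ r t w

variable {P : FP Om} {K : ∀ t, Om → κ t} {M : Om → Mach R S} {A : ℕ → Om → R → Prop} {N T : ℕ} {n : R}
  {q : ℕ → ℕ → Om → ℝ} {B cu : ℝ} {r : ℕ → Om → ℝ}

namespace OnHyp

/-- the flag -/
def fl (M : Om → Mach R S) (A : ℕ → Om → R → Prop) (N : ℕ) (n : R) (t k : ℕ) (w : Om) : Prop :=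
  (M w).on t ((M w).mic (fun j => A j w) N t k) n

variable (H : OnHyp P K M A N T n q B cu r)
include H

theorem fl_fac (t k : ℕ) : ∀ v w, K t v = K t w → (fl M A N n t k v ↔ fl M A N n t k w) := by
  intro v w h
  have e1 := mic_fac (N := N) H.filt H.mfac H.afac t k v w h
  have e2 := H.mfac.on t v w h
  simp only at e1 e2
  unfold fl
  rw [e1, e2]

/-- the down transitions inside time `t` -/
theorem seg (t : ℕ) (ht : t ≤ T) {w : Om} (hw : P.p w ≠ 0) :
    1 / 2 * ∑ k ∈ range N, ind (fl M A N n t k w ∧ ¬ fl M A N n t (k + 1) w) ≤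
      (ind (fl M A N n t N w) * q t N w - ind (fl M A N n t N w)) -
        (ind (fl M A N n t 0 w) * q t 0 w - ind (fl M A N n t 0 w)) +
      cu * ∑ k ∈ range N, ind ((M w).pk (fun j => A j w) N t k ≠ none) := by
  have h1 : ∀ m ≤ N, 1 / 2 * ∑ k ∈ range m, ind (fl M A N n t k w ∧ ¬ fl M A N n t (k + 1) w) ≤
      (ind (fl M A N n t m w) * q t m w - ind (fl M A N n t m w)) -
        (ind (fl M A N n t 0 w) * q t 0 w - ind (fl M A N n t 0 w)) +
      cu * ∑ k ∈ range m, ind ((M w).pk (fun j => A j w) N t k ≠ none) := by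
    intro m
    induction m with
    | zero => intro _; simp
    | succ m ih =>
      intro hm
      have h2 := ih (by omega)
      rw [Finset.sum_range_succ, Finset.sum_range_succ]
      have h3 := flag_step (a := fl M A N n t m w) (b := fl M A N n t (m + 1) w) (x := q t m w) (y := q t (m + 1) w)
        (fun a b => H.offU t ht m (by omega) w hw a b) (fun a b => H.upU t ht m (by omega) w hw a b)
      have h4 := H.useU t ht m (by omega) w hw
      have h5 : - (cu * ind ((M w).pk (fun j => A j w) N t m ≠ none)) ≤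
          ind (fl M A N n t m w) * (q t (m + 1) w - q t m w) := by
        by_cases hf : fl M A N n t m w
        · rw [ind_of hf, one_mul]; linarith
        · rw [ind_not hf, zero_mul]
          have := mul_nonneg H.cu0 (ind_nonneg ((M w).pk (fun j => A j w) N t m ≠ none))
          linarith
      linarith
  exact h1 N le_rfl

/-- the main count -/
theorem down_count {i : ℕ} (hi : i ≤ T) {F : Om → Prop} (hF : ∀ v w, K i v = K i w → (F v ↔ F w)) :
    P.E (fun w => ind (F w) * (∑ t ∈ Icc i T, ∑ k ∈ range N, ind (fl M A N n t k w ∧ ¬ fl M A N n t (k + 1) w) +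
        ∑ t ∈ Ico i T, ind (fl M A N n t N w ∧ ¬ fl M A N n (t + 1) 0 w))) ≤
      (2 * B + 1) * P.Pr F +
        2 * cu * P.E (fun w => ind (F w) * ∑ t ∈ Icc i T, ∑ k ∈ range N,
          ind ((M w).pk (fun j => A j w) N t k ≠ none)) +
        2 * ∑ t ∈ Ico i T, P.E (fun w => ind (F w) * r t w) := by
  -- notation
  set W : ℕ → ℕ → Om → ℝ := fun t k w => ind (fl M A N n t k w) * q t k w - ind (fl M A N n t k w) with hW
  set D : ℕ → Om → ℝ := fun t w => ∑ k ∈ range N, ind (fl M A N n t k w ∧ ¬ fl M A N n t (k + 1) w) with hD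
  set e : ℕ → Om → ℝ := fun t w => ind (fl M A N n t N w ∧ ¬ fl M A N n (t + 1) 0 w) with he
  set U : ℕ → Om → ℝ := fun t w => ∑ k ∈ range N, ind ((M w).pk (fun j => A j w) N t k ≠ none) with hU
  set J : ℕ → Om → ℝ := fun t w => ind (fl M A N n t N w) * (q (t + 1) 0 w - q t N w) with hJ
  have hseg : ∀ t ≤ T, ∀ w, P.p w ≠ 0 → 1 / 2 * D t w ≤ W t N w - W t 0 w + cu * U t w := fun t ht w hw =>
    H.seg t ht hw
  have henv : ∀ t < T, ∀ w, P.p w ≠ 0 → 1 / 2 * e t w ≤ W (t + 1) 0 w - W t N w - J t w := by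
    intro t ht w hw
    have h3 := flag_step (a := fl M A N n t N w) (b := fl M A N n (t + 1) 0 w) (x := q t N w) (y := q (t + 1) 0 w)
      (fun a b => H.offE t ht w hw a b) (fun a b => H.upE t ht w hw a b)
    simp only [hW, he, hJ]
    linarith
  -- pointwise telescoping up to time `m`
  have hpt : ∀ m, i ≤ m → m ≤ T → ∀ w, P.p w ≠ 0 →
      1 / 2 * (∑ t ∈ Icc i m, D t w + ∑ t ∈ Ico i m, e t w) ≤
        W m N w - W i 0 w + cu * ∑ t ∈ Icc i m, U t w - ∑ t ∈ Ico i m, J t w := by
    intro m him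
    induction m, him using Nat.le_induction with
    | base =>
      intro hm w hw
      have := hseg i hm w hw
      simp only [Icc_self, sum_singleton, Ico_self, sum_empty]
      linarith
    | succ m him ih =>
      intro hm w hw
      have h1 := ih (by omega) w hw
      have h2 := henv m (by omega) w hw
      have h3 := hseg (m + 1) hm w hw
      have s1 : ∀ f : ℕ → ℝ, ∑ t ∈ Icc i (m + 1), f t = ∑ t ∈ Icc i m, f t + f (m + 1) := fun f =>
        Finset.sum_Icc_succ_top (by omega) f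
      have s2 : ∀ f : ℕ → ℝ, ∑ t ∈ Ico i (m + 1), f t = ∑ t ∈ Ico i m, f t + f m := fun f =>
        Finset.sum_Ico_succ_top (by omega) f
      rw [s1, s2, s1, s2]
      linarith
  -- the drift of the environment
  have hdr : ∀ t ∈ Ico i T, - P.E (fun w => ind (F w) * r t w) ≤ P.E (fun w => ind (F w) * J t w) := by
    intro t ht
    obtain ⟨ht1, ht2⟩ := mem_Ico.1 ht
    set h : Om → ℝ := fun w => ind (F w) * ind (fl M A N n t N w) with hh
    have hfac : Fac (K t) h := by
      refine Fac.mul (Fac.ind fun v w hv => hF v w (H.filt.le ht1 v w hv)) (Fac.ind fun v w hv => H.fl_fac t N v w hv)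
    have e1 : P.E (fun w => ind (F w) * J t w) = P.E (fun w => h w * (P.ce (K t) (q (t + 1) 0) w - q t N w)) := by
      rw [← P.step_eq hfac]
      exact P.E_congr fun w _ => by simp only [hJ, hh]; ring
    rw [e1, ← P.E_neg]
    refine P.E_mono fun w hw => ?_
    have h1 := H.useE t ht2 w hw
    have h2 : 0 ≤ h w := mul_nonneg (ind_nonneg _) (ind_nonneg _)
    have h3 : h w ≤ ind (F w) := by
      simp only [hh]
      exact mul_le_of_le_one_right (ind_nonneg _) (ind_le_one _)
    have h4 := H.r0 t w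
    have h5 : - (h w * r t w) ≤ h w * (P.ce (K t) (q (t + 1) 0) w - q t N w) := by nlinarith
    have h6 : h w * r t w ≤ ind (F w) * r t w := mul_le_mul_of_nonneg_right h3 h4
    linarith
  -- expectation
  have hmain : 1 / 2 * P.E (fun w => ind (F w) * (∑ t ∈ Icc i T, D t w + ∑ t ∈ Ico i T, e t w)) ≤
      (B + 1 / 2) * P.Pr F + cu * P.E (fun w => ind (F w) * ∑ t ∈ Icc i T, U t w) +
        ∑ t ∈ Ico i T, P.E (fun w => ind (F w) * r t w) := by
    have h1 : P.E (fun w => 1 / 2 * (ind (F w) * (∑ t ∈ Icc i T, D t w + ∑ t ∈ Ico i T, e t w))) ≤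
        P.E (fun w => ((B + 1 / 2) * ind (F w) + cu * (ind (F w) * ∑ t ∈ Icc i T, U t w)) +
          (- ∑ t ∈ Ico i T, ind (F w) * J t w)) := by
      refine P.E_mono fun w hw => ?_
      have h2 := hpt T hi le_rfl w hw
      have h3 : W T N w ≤ B := by
        simp only [hW]
        have := H.q1 T le_rfl N le_rfl w hw
        by_cases hf : fl M A N n T N w
        · rw [ind_of hf]; linarith
        · rw [ind_not hf]; linarith [H.B0]
      have h4 : - (1 / 2) ≤ W i 0 w := by
        simp only [hW]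
        by_cases hf : fl M A N n i 0 w
        · rw [ind_of hf]
          have := H.half i hi 0 (Nat.zero_le _) w hw hf
          linarith
        · rw [ind_not hf]; norm_num
      have h5 := mul_le_mul_of_nonneg_left h2 (ind_nonneg (F w))
      have h6 : ind (F w) * (W T N w - W i 0 w) ≤ ind (F w) * (B + 1 / 2) :=
        mul_le_mul_of_nonneg_left (by linarith) (ind_nonneg _)
      have e7 : ∑ t ∈ Ico i T, ind (F w) * J t w = ind (F w) * ∑ t ∈ Ico i T, J t w := (Finset.mul_sum _ _ _).symm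
      rw [e7]
      nlinarith
    rw [P.E_smul, P.E_add, P.E_add, P.E_smul, P.E_smul, P.E_neg, P.E_sum] at h1
    have h8 : - ∑ t ∈ Ico i T, P.E (fun w => ind (F w) * J t w) ≤ ∑ t ∈ Ico i T, P.E (fun w => ind (F w) * r t w) := by
      rw [← Finset.sum_neg_distrib]
      refine Finset.sum_le_sum fun t ht => ?_
      have := hdr t ht
      linarith
    have e9 : P.E (fun w => ind (F w)) = P.Pr F := rfl
    rw [e9] at h1
    linarith
  linarith

/-- the ends of stretches, pointwise -/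
theorem ends_le {i : ℕ} (w : Om) :
    ∑ t ∈ Icc i T, ind (¬ (M w).oa (fun j => A j w) N n t N ∧
        ((∃ j, j + 1 = t ∧ (M w).oa (fun j => A j w) N n j N) ∨
          ∃ l ≤ N, (M w).oa (fun j => A j w) N n t l)) ≤
      2 + (∑ t ∈ Icc i T, ∑ k ∈ range N, ind (fl M A N n t k w ∧ ¬ fl M A N n t (k + 1) w) +
        ∑ t ∈ Ico i T, ind (fl M A N n t N w ∧ ¬ fl M A N n (t + 1) 0 w)) := by
  classical
  set En : ℕ → Prop := fun t => ¬ (M w).oa (fun j => A j w) N n t N ∧
        ((∃ j, j + 1 = t ∧ (M w).oa (fun j => A j w) N n j N) ∨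
          ∃ l ≤ N, (M w).oa (fun j => A j w) N n t l) with hEn
  set D : ℕ → ℝ := fun t => ∑ k ∈ range N, ind (fl M A N n t k w ∧ ¬ fl M A N n t (k + 1) w) with hD
  have hD0 : ∀ t, 0 ≤ D t := fun t => Finset.sum_nonneg fun _ _ => ind_nonneg _
  -- a down transition inside the time
  have hin : ∀ t l, l ≤ N → fl M A N n t l w → ¬ fl M A N n t N w → 1 ≤ D t := by
    intro t l hl h1 h2
    -- first index after `l` with the flag down
    have hex : ∃ m, l ≤ m ∧ m ≤ N ∧ ¬ fl M A N n t m w := ⟨N, hl, le_rfl, h2⟩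
    set m := Nat.find hex with hm
    have hm1 : l ≤ m ∧ m ≤ N ∧ ¬ fl M A N n t m w := Nat.find_spec hex
    have hlm : l < m := by
      rcases Nat.lt_or_ge l m with h | h
      · exact h
      · have e : m = l := le_antisymm h hm1.1
        rw [e] at hm1
        exact absurd h1 hm1.2.2
    have hm2 : fl M A N n t (m - 1) w := by
      by_contra hn
      exact Nat.find_min hex (m := m - 1) (by omega) ⟨by omega, by omega, hn⟩
    have h3 := Finset.single_le_sum (f := fun k => ind (fl M A N n t k w ∧ ¬ fl M A N n t (k + 1) w))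
      (fun _ _ => ind_nonneg _) (mem_range.2 (by omega : m - 1 < N))
    have e2 : m - 1 + 1 = m := by omega
    have h4 : ind (fl M A N n t (m - 1) w ∧ ¬ fl M A N n t (m - 1 + 1) w) = 1 := by
      rw [e2]; exact ind_of ⟨hm2, hm1.2.2⟩
    calc (1 : ℝ) = ind (fl M A N n t (m - 1) w ∧ ¬ fl M A N n t (m - 1 + 1) w) := h4.symm
      _ ≤ D t := h3
  have hAm : ∀ {s t : ℕ}, s ≤ t → A s w n → A t w n := by
    intro s t hst hs
    induction t, hst using Nat.le_induction with
    | base => exact hs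
    | succ t _ ih => exact H.amono t w ih
  -- one time
  have hone : ∀ t, i < t → ind (En t) ≤ ind (¬ A (t - 1) w n ∧ A t w n) + D t +
      ind (fl M A N n (t - 1) N w ∧ ¬ fl M A N n t 0 w) := by
    intro t hit
    by_cases h : En t
    · rw [ind_of h]
      have n1 := ind_nonneg (¬ A (t - 1) w n ∧ A t w n)
      have n2 := hD0 t
      have n3 := ind_nonneg (fl M A N n (t - 1) N w ∧ ¬ fl M A N n t 0 w)
      obtain ⟨h1, h2⟩ := h
      rcases h2 with ⟨j, hj, hg⟩ | ⟨l, hl, hg⟩
      · have ej : j = t - 1 := by omega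
        subst ej
        by_cases hA : A t w n
        · rw [ind_of ⟨hg.2, hA⟩]; linarith
        · have hfl : ¬ fl M A N n t N w := fun hf => h1 ⟨hf, hA⟩
          by_cases h0 : fl M A N n t 0 w
          · have := hin t 0 (Nat.zero_le _) h0 hfl
            linarith
          · have e : ind (fl M A N n (t - 1) N w ∧ ¬ fl M A N n t 0 w) = 1 := ind_of ⟨hg.1, h0⟩
            rw [e]; linarith
      · have hA : ¬ A t w n := hg.2
        have hfl : ¬ fl M A N n t N w := fun hf => h1 ⟨hf, hA⟩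
        have := hin t l hl hg.1 hfl
        linarith
    · rw [ind_not h]
      have n1 := ind_nonneg (¬ A (t - 1) w n ∧ A t w n)
      have n2 := hD0 t
      have n3 := ind_nonneg (fl M A N n (t - 1) N w ∧ ¬ fl M A N n t 0 w)
      linarith
  -- newly allowed at most once
  have hnew : ∀ m, i ≤ m → ∑ t ∈ Ioc i m, ind (¬ A (t - 1) w n ∧ A t w n) ≤ ind (A m w n) := by
    intro m him
    induction m, him using Nat.le_induction with
    | base => simp only [Ioc_self, sum_empty]; exact ind_nonneg _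
    | succ m him ih =>
      rw [Finset.sum_Ioc_succ_top (by omega)]
      rw [Nat.add_sub_cancel]
      by_cases h1 : A m w n
      · have h2 : A (m + 1) w n := H.amono m w h1
        rw [ind_of h1] at ih
        rw [ind_not (fun h => h.1 h1), ind_of h2]; linarith
      · rw [ind_not h1] at ih
        by_cases h2 : A (m + 1) w n
        · rw [ind_of ⟨h1, h2⟩, ind_of h2]; linarith
        · rw [ind_not (fun h => h2 h.2), ind_not h2]; linarith
  rcases Nat.lt_or_ge T i with hTi | hTi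
  · rw [Finset.Icc_eq_empty (by omega), Finset.Ico_eq_empty (by omega)]
    simp
  · have hsplit : ∀ f : ℕ → ℝ, ∑ t ∈ Icc i T, f t = f i + ∑ t ∈ Ioc i T, f t := by
      intro f
      rw [← Finset.Ioc_insert_left hTi, Finset.sum_insert (by simp)]
    have h1 : ∑ t ∈ Ioc i T, ind (En t) ≤ ∑ t ∈ Ioc i T, ind (¬ A (t - 1) w n ∧ A t w n) +
        ∑ t ∈ Ioc i T, D t + ∑ t ∈ Ioc i T, ind (fl M A N n (t - 1) N w ∧ ¬ fl M A N n t 0 w) := by
      rw [← Finset.sum_add_distrib, ← Finset.sum_add_distrib]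
      exact Finset.sum_le_sum fun t ht => hone t (mem_Ioc.1 ht).1
    have h2 : ∑ t ∈ Ioc i T, ind (fl M A N n (t - 1) N w ∧ ¬ fl M A N n t 0 w) =
        ∑ t ∈ Ico i T, ind (fl M A N n t N w ∧ ¬ fl M A N n (t + 1) 0 w) := by
      refine (Finset.sum_bij (fun t _ => t + 1) ?_ ?_ ?_ ?_).symm
      · intro t ht
        have := mem_Ico.1 ht
        exact mem_Ioc.2 ⟨by omega, by omega⟩
      · intro a _ b _ h; omega
      · intro t ht
        have := mem_Ioc.1 ht
        exact ⟨t - 1, mem_Ico.2 ⟨by omega, by omega⟩, by omega⟩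
      · intro t _
        rw [Nat.add_sub_cancel]
    have h3 := hnew T hTi
    have h4 := ind_le_one (A T w n)
    have h5 := ind_le_one (En i)
    rw [hsplit (fun t => ind (En t)), hsplit D]
    have h6 := hD0 i
    rw [h2] at h1
    linarith

end OnHyp

/-- the hypothesis `ends` of `JR_1` -/
theorem ends_of_onHyp {mem : ℕ → Om → R → Prop} {Rr : ℝ} {f : R → ℕ} {Mu rb : ℝ}
    (H : OnHyp P K M (Aw P K mem Rr f) N T n q B cu r)
    {i : ℕ} (hi : i ≤ T) {F : Om → Prop} (hF : ∀ v w, K i v = K i w → (F v ↔ F w))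
    (hU : P.E (fun w => ind (F w) * ∑ t ∈ Icc i T, ∑ k ∈ range N,
      ind ((M w).pk (fun j => Aw P K mem Rr f j w) N t k ≠ none)) ≤ Mu * P.Pr F)
    (hr : ∑ t ∈ Ico i T, P.E (fun w => ind (F w) * r t w) ≤ rb * P.Pr F) :
    ∑ t ∈ Icc i T, P.Pr (fun w => F w ∧ EndAt P K mem Rr M N f n t w) ≤
      (2 * B + 3 + 2 * cu * Mu + 2 * rb) * P.Pr F := by
  have h1 : ∑ t ∈ Icc i T, P.Pr (fun w => F w ∧ EndAt P K mem Rr M N f n t w) =
      P.E (fun w => ind (F w) * ∑ t ∈ Icc i T, ind (EndAt P K mem Rr M N f n t w)) := by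
    have e : ∀ w, ind (F w) * ∑ t ∈ Icc i T, ind (EndAt P K mem Rr M N f n t w) =
        ∑ t ∈ Icc i T, ind (F w ∧ EndAt P K mem Rr M N f n t w) := by
      intro w
      rw [Finset.mul_sum]
      exact Finset.sum_congr rfl fun t _ => (ind_and _ _).symm
    simp only [e]
    rw [P.E_sum]; rfl
  rw [h1]
  have h2 : P.E (fun w => ind (F w) * ∑ t ∈ Icc i T, ind (EndAt P K mem Rr M N f n t w)) ≤
      P.E (fun w => 2 * ind (F w) + ind (F w) *
        (∑ t ∈ Icc i T, ∑ k ∈ range N, ind (OnHyp.fl M (Aw P K mem Rr f) N n t k w ∧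
            ¬ OnHyp.fl M (Aw P K mem Rr f) N n t (k + 1) w) +
          ∑ t ∈ Ico i T, ind (OnHyp.fl M (Aw P K mem Rr f) N n t N w ∧
            ¬ OnHyp.fl M (Aw P K mem Rr f) N n (t + 1) 0 w))) := by
    refine P.E_mono fun w _ => ?_
    have h3 := mul_le_mul_of_nonneg_left (H.ends_le (i := i) w) (ind_nonneg (F w))
    have h4 : ∑ t ∈ Icc i T, ind (EndAt P K mem Rr M N f n t w) =
        ∑ t ∈ Icc i T, ind (¬ (M w).oa (fun j => Aw P K mem Rr f j w) N n t N ∧
        ((∃ j, j + 1 = t ∧ (M w).oa (fun j => Aw P K mem Rr f j w) N n j N) ∨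
          ∃ l ≤ N, (M w).oa (fun j => Aw P K mem Rr f j w) N n t l)) := rfl
    rw [h4]
    linarith
  rw [P.E_add, P.E_smul] at h2
  have h5 := H.down_count hi hF
  have e6 : P.E (fun w => ind (F w)) = P.Pr F := rfl
  rw [e6] at h2
  have h7 := mul_le_mul_of_nonneg_left hU (by linarith [H.cu0] : (0 : ℝ) ≤ 2 * cu)
  have h8 := mul_le_mul_of_nonneg_left hr (by norm_num : (0 : ℝ) ≤ 2)
  nlinarith

end

end Pool.Agent.GMN
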