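import Pool.Agent.GMN.TjDef

/-!
# GMN/TjSide (helper14): coin free population of a face at exact parameters

`side0` : `TS.Side` for the vertices `B`, nodes with the exact vertices `A`, without coins; `E_coin` : the coins are independent
of (vertices, node); `MV_of` : mean number of moves from every state of a coin free function.
-/

set_option autoImplicit false
set_option linter.unusedSectionVars false

namespace Pool.Agent.GMN

open Finset Pool.Agent.PWZ Pool.Agent.M3 Pool.Agent.M3.TS Pool.Agent.GM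

noncomputable section

variable {ι Om Ξ Pt V Γ κ : Type} [Fintype ι] [DecidableEq ι] [Fintype Om] [Fintype Ξ] [Fintype Pt]
    [Fintype V] (G : Sys ι Om Ξ Pt V Γ κ)

/-- comparison of expectations on the fibres of a map -/
theorem E_le_fib {α : Type} (P : FP Om) (X : Om → α) {f g : Om → ℝ}
    (h : ∀ w, P.E (fun v => ind (X v = X w) * f v) ≤ P.E (fun v => ind (X v = X w) * g v)) : P.E f ≤ P.E g := by
  rw [← P.E_ce X f, ← P.E_ce X g]
  refine P.E_mono fun w _ => ?_
  unfold FP.ce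
  exact div_le_div_of_nonneg_right (h w) (P.m_nonneg _ _)

/-- **coin free side** -/
theorem side0 {A B : Finset ι} (hd : Disjoint A B) (hAB : A ∪ B ≠ univ) :
    TS.Side G.P (fun w => res B (G.x w)) G.n (fun t w => (res A (G.x w), G.gm t w))
      (fun t y => fun i => G.cl t (y i)) (fun t g => G.ρ t g.2) (fun t g => (g.1, G.par t g.2)) where
  par_nd t w := Prod.ext rfl (G.par_gm t w)
  wt t g := G.wt t g.2
  free t g x x' := by
    have h := (G.side hd hAB).free t g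
    have e : ∀ y, G.P.Pr (fun w => res B (G.x w) = y ∧ (res A (G.x w), G.gm t w) = g) =
        ∑ ξ : Ξ, G.P.Pr (fun w => (G.xi w, res B (G.x w)) = (ξ, y) ∧ (res A (G.x w), G.gm t w) = g) := by
      intro y
      rw [Mod.Pr_sum _ G.xi]
      refine Finset.sum_congr rfl fun ξ _ => G.P.Pr_congr fun w _ => ?_
      exact ⟨fun h => ⟨Prod.ext h.1 h.2.1, h.2.2⟩, fun h => ⟨(Prod.mk_inj.1 h.1).1, (Prod.mk_inj.1 h.1).2, h.2⟩⟩
    rw [e, e]
    exact Finset.sum_congr rfl fun ξ _ => h (ξ, x) (ξ, x')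
  mart t ht g x v := by
    have h := (G.side hd hAB).mart t ht g
    have e1 : G.P.E (fun w => ind (res B (G.x w) = x ∧ (res A (G.x w), G.gm t w) = g) *
        G.ρ (t + 1) (res A (G.x w), G.gm (t + 1) w).2 v) =
        ∑ ξ : Ξ, G.P.E (fun w => ind ((G.xi w, res B (G.x w)) = (ξ, x) ∧ (res A (G.x w), G.gm t w) = g) *
          G.ρ (t + 1) (res A (G.x w), G.gm (t + 1) w).2 v) := by
      rw [← G.P.E_sum]
      refine G.P.E_congr fun w _ => ?_
      rw [Finset.sum_eq_single (G.xi w)]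
      · congr 1
        congr 1
        rw [Prod.ext_iff (x := (G.xi w, res B (G.x w)))]
        simp
      · intro ξ _ hξ
        rw [ind_not fun h' => hξ (Prod.ext_iff.1 h'.1).1.symm, zero_mul]
      · exact fun h' => absurd (mem_univ _) h'
    have e2 : G.P.Pr (fun w => res B (G.x w) = x ∧ (res A (G.x w), G.gm t w) = g) =
        ∑ ξ : Ξ, G.P.Pr (fun w => (G.xi w, res B (G.x w)) = (ξ, x) ∧ (res A (G.x w), G.gm t w) = g) := by
      rw [Mod.Pr_sum _ G.xi]
      refine Finset.sum_congr rfl fun ξ _ => G.P.Pr_congr fun w _ => ?_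
      exact ⟨fun h => ⟨Prod.ext h.1 h.2.1, h.2.2⟩, fun h => ⟨(Prod.mk_inj.1 h.1).1, (Prod.mk_inj.1 h.1).2, h.2⟩⟩
    rw [e1, e2, Finset.sum_mul]
    exact Finset.sum_congr rfl fun ξ _ => h (ξ, x) v

/-- **the coins are independent of (vertices, node)** -/
theorem E_coin (t : ℕ) (h : Ξ → (ι → Pt) → Γ → ℝ) :
    G.P.E (fun w => h (G.xi w) (G.x w) (G.gm t w)) =
      (∑ ξ : Ξ, G.P.E (fun w => h ξ (G.x w) (G.gm t w))) / (Fintype.card Ξ : ℝ) := by
  classical
  have hX := G.cXi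
  have h1 : ∀ ξ : Ξ, G.P.E (fun w => ind (G.xi w = ξ) * h ξ (G.x w) (G.gm t w)) =
      G.P.E (fun w => h ξ (G.x w) (G.gm t w)) / (Fintype.card Ξ : ℝ) := by
    intro ξ
    rw [← G.P.E_div_const]
    refine le_antisymm ?_ ?_ <;>
    · refine E_le_fib G.P (fun w => (G.x w, G.gm t w)) fun w => ?_
      have e1 : G.P.E (fun v => ind ((G.x v, G.gm t v) = (G.x w, G.gm t w)) *
          (ind (G.xi v = ξ) * h ξ (G.x v) (G.gm t v))) =
          G.P.Pr (fun v => G.xi v = ξ ∧ G.x v = G.x w ∧ G.gm t v = G.gm t w) * h ξ (G.x w) (G.gm t w) := by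
        unfold FP.Pr
        rw [← G.P.E_mul_const]
        refine G.P.E_congr fun v _ => ?_
        beta_reduce
        by_cases hv : G.x v = G.x w ∧ G.gm t v = G.gm t w
        · have e3 : (G.xi v = ξ ∧ G.x v = G.x w ∧ G.gm t v = G.gm t w) = (G.xi v = ξ) :=
            propext ⟨fun h' => h'.1, fun h' => ⟨h', hv⟩⟩
          rw [e3, ind_of (Prod.ext hv.1 hv.2), one_mul, hv.1, hv.2]
        · have e3 : ¬ ((G.x v, G.gm t v) = (G.x w, G.gm t w)) := fun h' =>
            hv ⟨(Prod.ext_iff.1 h').1, (Prod.ext_iff.1 h').2⟩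
          have e4 : ¬ (G.xi v = ξ ∧ G.x v = G.x w ∧ G.gm t v = G.gm t w) := fun h' => hv h'.2
          rw [ind_not e3, ind_not e4]
          ring
      have e2 : G.P.E (fun v => ind ((G.x v, G.gm t v) = (G.x w, G.gm t w)) *
          (h ξ (G.x v) (G.gm t v) / (Fintype.card Ξ : ℝ))) =
          G.P.Pr (fun v => G.x v = G.x w ∧ G.gm t v = G.gm t w) / (Fintype.card Ξ : ℝ) *
            h ξ (G.x w) (G.gm t w) := by
        unfold FP.Pr
        rw [← G.P.E_div_const, ← G.P.E_mul_const]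
        refine G.P.E_congr fun v _ => ?_
        beta_reduce
        by_cases hv : G.x v = G.x w ∧ G.gm t v = G.gm t w
        · rw [ind_of (Prod.ext hv.1 hv.2), ind_of hv, one_mul, hv.1, hv.2]
          ring
        · have e3 : ¬ ((G.x v, G.gm t v) = (G.x w, G.gm t w)) := fun h' =>
            hv ⟨(Prod.ext_iff.1 h').1, (Prod.ext_iff.1 h').2⟩
          rw [ind_not e3, ind_not hv]
          ring
      rw [e1, e2, G.lxi t (G.gm t w) ξ (G.x w)]
  rw [Finset.sum_div, ← Finset.sum_congr rfl fun ξ _ => h1 ξ, ← G.P.E_sum]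
  refine G.P.E_congr fun w _ => ?_
  rw [Finset.sum_eq_single (G.xi w)]
  · rw [ind_of rfl, one_mul]
  · intro ξ _ hξ
    rw [ind_not fun h' => hξ h'.symm, zero_mul]
  · exact fun h' => absurd (mem_univ _) h'

/-- a numbered function moves at most once -/
theorem NF.moves {i : ι} {f : Fn ι Pt V Γ} (hf : NF G i f) (ω : Om) (a T : ℕ) :
    ∑ t ∈ Ico a T, ind (val0 G f (t + 1) ω ≠ val0 G f t ω) ≤ 1 := by
  have key : ∀ T, ∑ t ∈ Ico a T, ind (val0 G f (t + 1) ω ≠ val0 G f t ω) ≤ ind (val0 G f T ω ≠ 0) := by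
    intro T
    induction T with
    | zero =>
      rw [Finset.Ico_eq_empty_of_le (Nat.zero_le a), Finset.sum_empty]
      exact ind_nonneg _
    | succ T ih =>
      rcases Nat.lt_or_ge T a with h | h
      · rw [Finset.Ico_eq_empty_of_le h, Finset.sum_empty]
        exact ind_nonneg _
      · rw [Finset.sum_Ico_succ_top h]
        by_cases h1 : val0 G f (T + 1) ω = val0 G f T ω
        · rw [ind_not (not_not.2 h1), add_zero, h1]
          exact ih
        · have h2 : val0 G f T ω = 0 := (hf.intro T ω).resolve_left h1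
          have h3 : val0 G f (T + 1) ω ≠ 0 := fun h4 => h1 (h4.trans h2.symm)
          rw [ind_of h1, ind_of h3]
          rw [ind_not (not_not.2 h2)] at ih
          linarith
  exact (key T).trans (ind_le_one _)

/-- every values on `A ≠ univ` are realised at every node -/
theorem exists_at {A : Finset ι} (hA : A ≠ univ) (t : ℕ) (ω : Om) (y : ι → Pt) :
    ∃ ω', (∀ j ∈ A, G.x ω' j = y j) ∧ G.gm t ω' = G.gm t ω := by
  by_contra h
  have h1 : G.P.Pr (fun w => (∀ j ∈ A, G.x w j = y j) ∧ G.gm t w = G.gm t ω) = 0 := by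
    unfold FP.Pr
    have e : (fun w => ind ((∀ j ∈ A, G.x w j = y j) ∧ G.gm t w = G.gm t ω)) = fun _ => (0 : ℝ) := by
      funext w
      exact ind_not fun h' => h ⟨w, h'⟩
    rw [e]
    exact G.P.E_const 0
  rw [G.law_set' hA] at h1
  have h2 : 0 < G.P.Pr (fun w => G.gm t w = G.gm t ω) := G.P.m_pos (G.gm t) (G.ppos ω)
  obtain ⟨i, -⟩ : ∃ i, i ∉ A := by
    by_contra hcon
    push Not at hcon
    exact hA (eq_univ_iff_forall.2 hcon)
  have h3 := G.cPt i
  have h4 : 0 < G.P.Pr (fun w => G.gm t w = G.gm t ω) / (Fintype.card Pt : ℝ) ^ A.card := by positivity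
  linarith

/-- value of a coin free function along the path, from the last node -/
theorem val0_anc (f : Fn ι Pt V Γ) {t : ℕ} (ht : t ≤ G.n) (ω : Om) :
    val0 G f t ω = f t (S2.anc G.par G.n (G.gm G.n ω) t) (G.x ω) := by
  unfold val0
  rw [G.anc_gm ht]

/-- **mean number of future moves of a coin free function** -/
theorem MV_of {w : ι} {f : Fn ι Pt V Γ} {m : ℝ}
    (h : ∀ t0 ≤ G.n, ∀ φ : Om → ℝ, Fac (fun ω => (res (univ.erase w) (G.x ω), G.gm t0 ω)) φ → (∀ ω, 0 ≤ φ ω) →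
      G.P.E (fun ω => φ ω * ∑ t ∈ Ico t0 G.n, ind (val0 G f (t + 1) ω ≠ val0 G f t ω)) ≤ m * G.P.E φ) :
    MV G w (lft f) m := by
  classical
  intro t0 ht0 φ hφ hφ0
  have hX := G.cXi
  -- the function of `φ`
  obtain ⟨Φ, hΦ⟩ : ∃ Φ : Ξ → (ι → Pt) → Γ → ℝ, (∀ ω, φ ω = Φ (G.xi ω) (G.x ω) (G.gm t0 ω)) ∧
      (∀ ξ ω, 0 ≤ Φ ξ (G.x ω) (G.gm t0 ω)) ∧
      ∀ ξ, Fac (fun ω => (res (univ.erase w) (G.x ω), G.gm t0 ω)) (fun ω => Φ ξ (G.x ω) (G.gm t0 ω)) := by
    refine ⟨fun ξ x g => if h' : ∃ v, G.xi v = ξ ∧ res (univ.erase w) (G.x v) = res (univ.erase w) x ∧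
      G.gm t0 v = g then φ h'.choose else 0, ?_, ?_, ?_⟩
    · intro ω
      have h' : ∃ v, G.xi v = G.xi ω ∧ res (univ.erase w) (G.x v) = res (univ.erase w) (G.x ω) ∧
        G.gm t0 v = G.gm t0 ω := ⟨ω, rfl, rfl, rfl⟩
      simp only [dif_pos h']
      refine hφ _ _ ?_
      unfold stf
      rw [h'.choose_spec.1, h'.choose_spec.2.1, h'.choose_spec.2.2]
    · intro ξ ω
      simp only
      split_ifs
      · exact hφ0 _
      · exact le_rfl
    · intro ξ v ω hv
      obtain ⟨h1, h2⟩ := Prod.ext_iff.1 hv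
      simp only at h1 h2 ⊢
      simp only [h1, h2]
  -- the number of moves is a function of the vertices and the last node
  set N : (ι → Pt) → Γ → ℝ := fun x g => ∑ t ∈ Ico t0 G.n, ind (f (t + 1) (S2.anc G.par G.n g (t + 1)) x ≠
    f t (S2.anc G.par G.n g t) x) with hN
  have hNe : ∀ ω, ∑ t ∈ Ico t0 G.n, ind (val0 G f (t + 1) ω ≠ val0 G f t ω) = N (G.x ω) (G.gm G.n ω) := by
    intro ω
    simp only [hN]
    refine Finset.sum_congr rfl fun t ht => ?_
    rw [Finset.mem_Ico] at ht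
    rw [val0_anc G f (by omega), val0_anc G f (by omega)]
  have e1 : G.P.E (fun ω => φ ω * ∑ t ∈ Ico t0 G.n, ind (val G (lft f) (t + 1) ω ≠ val G (lft f) t ω)) =
      (∑ ξ : Ξ, G.P.E (fun ω => Φ ξ (G.x ω) (S2.anc G.par G.n (G.gm G.n ω) t0) * N (G.x ω) (G.gm G.n ω))) /
        (Fintype.card Ξ : ℝ) := by
    rw [← E_coin G G.n (fun ξ x g => Φ ξ x (S2.anc G.par G.n g t0) * N x g)]
    refine G.P.E_congr fun ω _ => ?_
    rw [← hNe, hΦ.1, G.anc_gm ht0]
    rfl
  have e2 : G.P.E φ = (∑ ξ : Ξ, G.P.E (fun ω => Φ ξ (G.x ω) (G.gm t0 ω))) / (Fintype.card Ξ : ℝ) := by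
    rw [← E_coin G t0 (fun ξ x g => Φ ξ x g)]
    exact G.P.E_congr fun ω _ => hΦ.1 ω
  rw [e1, e2, ← mul_div_assoc, Finset.mul_sum]
  refine div_le_div_of_nonneg_right (Finset.sum_le_sum fun ξ _ => ?_) hX.le
  refine le_trans (le_of_eq ?_) (h t0 ht0 (fun ω => Φ ξ (G.x ω) (G.gm t0 ω)) (hΦ.2.2 ξ) (hΦ.2.1 ξ))
  refine G.P.E_congr fun ω _ => ?_
  rw [hNe, G.anc_gm ht0]

end

end Pool.Agent.GMN
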