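import Pool.Agent.GMN.CwA

/-!
# GMN.CwZ (row N, 4.3, record lemma for at least two references): the scales `Z` of the near hidden cells

`ZC` = scales `Zs` of the densities `dN`; `GZ` = good and nothing heavy.

* `ZC_nonneg`, `ZC_mono`, `ZC_fac` (function of the view of the type), `ZC_congr` (only the names up to the type);
* `ZC_top` : sum over the siblings; `CwS.mass_Z`, `CwS.low_Z`, `CwS.bad_Z`, `CwS.cum_Z`.
-/

set_option autoImplicit false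
set_option linter.unusedSectionVars false

namespace Pool.Agent.GMN

open Finset Pool.Agent.PWZ Pool.Agent.M3

noncomputable section

variable {Om Wt Nm : Type*} [Fintype Om] [Fintype Wt] [DecidableEq Wt] [PartialOrder Wt] [DecidableLE Wt]
  [DecidableEq Nm] [Inhabited Nm] [Fintype Nm] {φ υ : Wt → ℕ → Type*} {κ κ' : ℕ → Type*}

/-- the scales -/
def ZC (P : FP Om) (F : ∀ W t, Om → φ W t) (V : ∀ W t, Om → υ W t) (mx : Wt → Prop) (nk : Wt → ℕ → Om → Nm)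
    (Ls : Wt → ℕ → Om → Finset Nm) (pb : Wt → ℕ → Om → Finset Nm) (h1 h3 : ℕ) (B : ℝ) (t : ℕ) (x : Wt × (Wt → Nm))
    (w : Om) : ℝ := Zs (dN P F V mx nk Ls pb (h1 + h3) h3) (B + 1) t x w

/-- good and nothing heavy -/
def GZ (P : FP Om) (F : ∀ W t, Om → φ W t) (V : ∀ W t, Om → υ W t) (mx : Wt → Prop) (nk : Wt → ℕ → Om → Nm)
    (Ls : Wt → ℕ → Om → Finset Nm) (pb : Wt → ℕ → Om → Finset Nm) (T h1 h3 : ℕ) (x0 B : ℝ) (G0 : ℕ → Om → Prop)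
    (t : ℕ) (w : Om) : Prop :=
  GD P F V mx nk T h1 h3 x0 G0 t w ∧ ∀ 𝔳, hasP mx nk Ls pb t w 𝔳 →
    ∀ W, Sb (dN P F V mx nk Ls pb (h1 + h3) h3) t (res W 𝔳) w ≤ B + 1

variable {P : FP Om} {F : ∀ W t, Om → φ W t} {V : ∀ W t, Om → υ W t} {Ff : ∀ t, Om → κ' t} {K : ∀ t, Om → κ t}
  {mx : Wt → Prop} {nk : Wt → ℕ → Om → Nm} {Ls : Wt → ℕ → Om → Finset Nm} {pb : Wt → ℕ → Om → Finset Nm}
  {T h h1 h3 : ℕ} {K1 K2 kap n0 eps x0 B : ℝ} {G0 : ℕ → Om → Prop}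

theorem ZC_nonneg (t : ℕ) (x : Wt × (Wt → Nm)) (w : Om) : 0 ≤ ZC P F V mx nk Ls pb h1 h3 B t x w :=
  Zs_nonneg (fun i x w => dN_nonneg i x w) t x w

theorem ZC_mono (t : ℕ) (x : Wt × (Wt → Nm)) (w : Om) :
    ZC P F V mx nk Ls pb h1 h3 B t x w ≤ ZC P F V mx nk Ls pb h1 h3 B (t + 1) x w := Zs_mono t x w

theorem ZC_fac (hV : ∀ W, Filt (V W)) (hpb : ∀ W t, Fac (V W t) (pb W t)) (t : ℕ) (x : Wt × (Wt → Nm)) :
    Fac (V x.1 t) (ZC P F V mx nk Ls pb h1 h3 B t x) :=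
  Zs_fac1 hV (fun t x => dN_fac hV hpb t x) t x

/-- sum over the siblings -/
theorem ZC_top (hB : 0 ≤ B) (t : ℕ) (x : Wt × (Wt → Nm)) (w : Om) :
    ∑ ν, ZC P F V mx nk Ls pb h1 h3 B t (sibl x ν) w ≤ B + 1 :=
  sum_top (fun i x w => dN_nonneg i x w) (by linarith) t x w

theorem dN_congr {W : Wt} {c c' : Wt → Nm} (hc : ∀ W' ≤ W, c W' = c' W') (t : ℕ) (w : Om) :
    dN P F V mx nk Ls pb h h3 t (W, c) w = dN P F V mx nk Ls pb h h3 t (W, c') w := by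
  classical
  have e1 : lw (W, c) = lw (W, c') := by
    unfold lw
    funext W'
    show (if W' < W then c W' else default) = if W' < W then c' W' else default
    by_cases hW : W' < W
    · rw [if_pos hW, if_pos hW, hc W' hW.le]
    · rw [if_neg hW, if_neg hW]
  have e2 : ((W, c) : Wt × (Wt → Nm)).2 ((W, c) : Wt × (Wt → Nm)).1 =
      ((W, c') : Wt × (Wt → Nm)).2 ((W, c') : Wt × (Wt → Nm)).1 := hc W le_rfl
  have e3 : rhoN P F V mx nk Ls h t (W, c) w = rhoN P F V mx nk Ls h t (W, c') w := by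
    unfold rhoN
    rw [e1, e2]
  unfold dN
  rw [e2, e3]

theorem sibl_congr {W : Wt} {c c' : Wt → Nm} (hc : ∀ W' ≤ W, c W' = c' W') (ν : Nm) :
    ∀ W' ≤ W, (Function.update c W ν) W' = (Function.update c' W ν) W' := by
  intro W' hW'
  rcases eq_or_ne W' W with e | e
  · subst e; rw [Function.update_self, Function.update_self]
  · rw [Function.update_of_ne e, Function.update_of_ne e]; exact hc W' hW'

/-- the scale depends only on the names up to the type -/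
theorem Zs_congr {d : ℕ → Wt × (Wt → Nm) → Om → ℝ}
    (hd : ∀ (W : Wt) (c c' : Wt → Nm), (∀ W' ≤ W, c W' = c' W') → ∀ t w, d t (W, c) w = d t (W, c') w)
    {W : Wt} {c c' : Wt → Nm} (hc : ∀ W' ≤ W, c W' = c' W') (t : ℕ) (w : Om) :
    Zs d B t (W, c) w = Zs d B t (W, c') w := by
  have hr : ∀ (c c' : Wt → Nm), (∀ W' ≤ W, c W' = c' W') → ∀ t, rmx d t (W, c) w = rmx d t (W, c') w := by
    intro c c' hc t
    induction t with
    | zero => exact hd W c c' hc 0 w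
    | succ t ih =>
      show max (rmx d t (W, c) w) (d (t + 1) (W, c) w) = max (rmx d t (W, c') w) (d (t + 1) (W, c') w)
      rw [ih, hd W c c' hc (t + 1) w]
  have hS : ∀ t, Sb d t (W, c) w = Sb d t (W, c') w := by
    intro t
    unfold Sb
    exact Finset.sum_congr rfl fun ν _ => hr _ _ (sibl_congr hc ν) t
  induction t with
  | zero =>
    show (if Sb d 0 (W, c) w ≤ B then d 0 (W, c) w else 0) = if Sb d 0 (W, c') w ≤ B then d 0 (W, c') w else 0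
    rw [hS 0, hd W c c' hc 0 w]
  | succ t ih =>
    show max (Zs d B t (W, c) w) (if Sb d (t + 1) (W, c) w ≤ B then d (t + 1) (W, c) w else 0) =
      max (Zs d B t (W, c') w) (if Sb d (t + 1) (W, c') w ≤ B then d (t + 1) (W, c') w else 0)
    rw [ih, hS (t + 1), hd W c c' hc (t + 1) w]

theorem ZC_congr {W : Wt} {c c' : Wt → Nm} (hc : ∀ W' ≤ W, c W' = c' W') (t : ℕ) (w : Om) :
    ZC P F V mx nk Ls pb h1 h3 B t (W, c) w = ZC P F V mx nk Ls pb h1 h3 B t (W, c') w :=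
  Zs_congr (fun W c c' hc t w => dN_congr hc t w) hc t w

/-- an index and its canonical form -/
theorem ZC_res (W : Wt) (𝔳 : Wt → Nm) (t : ℕ) (w : Om) :
    ZC P F V mx nk Ls pb h1 h3 B t (res W 𝔳) w = ZC P F V mx nk Ls pb h1 h3 B t (W, 𝔳) w := by
  refine ZC_congr (fun W' hW' => ?_) t w
  exact if_pos hW'

namespace CwS

variable (H : CwS P F V Ff K mx nk Ls pb T h3 K1 K2 kap n0 eps G0)
include H

/-- MASS -/
theorem mass_Z (hx0 : 0 < x0) (hx1 : x0 ≤ 1) {t : ℕ} (ht : t ≤ T) (𝔳 : Wt → Nm) {w : Om} (hw : P.p w ≠ 0) :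
    P.ce (K t) (fun v => ind (hasP mx nk Ls pb t v 𝔳 ∧ GZ P F V mx nk Ls pb T h1 h3 x0 B G0 t v)) w ≤
      (K2 * (kap * (2 / x0) ^ Fintype.card Wt)) * ∏ x ∈ ixs 𝔳, ZC P F V mx nk Ls pb h1 h3 B t x w := by
  classical
  rw [prod_ixs]
  have hc0 : 0 ≤ K2 * (kap * (2 / x0) ^ Fintype.card Wt) :=
    mul_nonneg H.K20 (mul_nonneg H.kap0 (by positivity))
  by_cases hp : 0 < P.ce (K t) (fun v => ind (hasP mx nk Ls pb t v 𝔳 ∧ GZ P F V mx nk Ls pb T h1 h3 x0 B G0 t v)) w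
  · obtain ⟨u, hu, hKu, hh, hG, hS⟩ := ce_ind_pos P (K t) hp
    have e1 : P.ce (K t) (fun v => ind (hasP mx nk Ls pb t v 𝔳 ∧ GZ P F V mx nk Ls pb T h1 h3 x0 B G0 t v)) w ≤
        P.ce (K t) (fun v => ind (hasP mx nk Ls pb t v 𝔳 ∧ GD P F V mx nk T h1 h3 x0 G0 t v)) w :=
      ce_ind_le P (K t) fun v _ _ hv => ⟨hv.1, hv.2.1⟩
    refine e1.trans ((H.clo_d hx0 hx1 ht 𝔳 hw).trans (mul_le_mul_of_nonneg_left ?_ hc0))
    refine Finset.prod_le_prod (fun W _ => dN_nonneg t _ w) fun W _ => ?_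
    have hV := H.VK (res W 𝔳).1 t u w hKu
    rw [← dN_fac H.filtV H.pbf t (res W 𝔳) u w hV, ← ZC_fac H.filtV H.pbf t (res W 𝔳) u w hV]
    exact d_le_Zs (hS 𝔳 hh W)
  · refine (not_lt.1 hp).trans ?_
    exact mul_nonneg hc0 (Finset.prod_nonneg fun W _ => ZC_nonneg t _ w)

/-- LOW -/
theorem low_Z {t : ℕ} {w : Om} (hw : P.p w ≠ 0) (hG : GZ P F V mx nk Ls pb T h1 h3 x0 B G0 t w) {𝔳 : Wt → Nm}
    (hh : hasP mx nk Ls pb t w 𝔳) (x : Wt × (Wt → Nm)) (hx : x ∈ ixs 𝔳) :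
    (1 / 2 : ℝ) ^ (h1 + h3) ≤ ZC P F V mx nk Ls pb h1 h3 B t x w := by
  rw [mem_ixs.1 hx]
  exact (H.low_d hw hG.1 hh x.1).trans (d_le_Zs (hG.2 𝔳 hh x.1))

/-- BAD -/
theorem bad_Z (hh1 : 1 ≤ h1) (hx0 : 0 ≤ x0) (hB : 0 < B) {Ent N : ℝ} (hN : nCh P mx nk T ≤ N)
    (hentN : ∀ W, P.Hc (ctxN nk W 0) (F W 0) +
      ∑ t ∈ range T, P.Hc (ctxN nk W (t + 1)) (fun v => (F W (t + 1) v, ctxN nk W t v)) ≤ Ent)
    (hentE : ∀ W, ¬ mx W → P.Hc (ctxE nk W 0) (F W 0) +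
      ∑ t ∈ range T, P.Hc (ctxE nk W (t + 1)) (fun v => (F W (t + 1) v, ctxE nk W t v)) ≤ Ent) :
    P.Pr (fun w => ∃ t ≤ T, ¬ GZ P F V mx nk Ls pb T h1 h3 x0 B G0 t w) ≤
      P.Pr (fun w => ∃ t ≤ T, ¬ G0 t w) + Fintype.card Wt * (2 * Ent / (h1 * Real.log 2) +
        4 * K1 * ((h1 + h3 : ℕ) : ℝ) * x0 * N +
        8 * K1 * K2 * ((h1 + h3 : ℕ) : ℝ) * (((h1 + h3 : ℕ) : ℝ) + 1) ^ 2 * (n0 * N) / B) := by
  refine le_trans (P.Pr_mono fun w _ hw hne => ?_) (H.bad_le hh1 hx0 hB hN hentN hentE)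
  obtain ⟨t, ht, hG⟩ := hw
  exact hG (hne t ht)

/-- CUMULATIVE -/
theorem cum_Z {t : ℕ} {w : Om} {𝔳 : Wt → Nm} (hh : hasP mx nk Ls pb t w 𝔳) :
    ∃ 𝔲, hasP mx nk Ls pb (t + 1) w 𝔲 ∧ ∀ W, mx W → 𝔲 W = 𝔳 W := by
  classical
  obtain ⟨hh, hpb⟩ := hh
  refine ⟨fun W => if mx W then 𝔳 W else nk W (t + 1) w, ⟨fun W => ?_, fun W hW => ?_⟩, fun W hW => if_pos hW⟩
  · beta_reduce
    by_cases hW : mx W
    · rw [if_pos hW, cr_list hW]
      exact H.cum W t w ((cr_list hW).1 (hh W))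
    · rw [if_neg hW, cr_key hW]
  · beta_reduce
    rw [if_pos hW]
    exact H.pbcum W t w (hpb W hW)

end CwS

end

end Pool.Agent.GMN
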