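import Pool.Agent.GMN.StepAdd

/-!
# GMN/AddRef (helper25): see GMN/StepAdd (helper96)
-/
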