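import Mathlib

/-!
# The binary counter of row N (NM.5, NM.6, (5.1), (5.2))

`K = Fin k` are the known vertices (`k = m - 1`).  The state is a function
`W : Fin k → Option (Finset (Fin k))`: `W u = none` means that the face `F_u` is still
whole, `W u = some S` means that the functions owned by `u` are `X_(u,w)`, `w ∈ S`.

The steps are the numbers `2 ≤ n < 2 ^ k`; the set `C` of the step is the set of the binary
digits of `n`.  `StepOK W v L tg` is everything which a step uses of the state
(`v = min C`, `L = L_C`, `tg = none` if the target is `F_v`, `tg = some w` if it is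
`X_(v,w)`); the state after the step is `Function.update W v (some L)`.

* `steps`: every step of the counter is allowed and leads to the next state;
* `counter_induction`: induction principle for the `2 ^ k - 2` steps.
-/

namespace Pool.GMN.Counter

open Finset

/-- The number `A' + 1` of the closed formula (5.1). -/
def hi (n u : ℕ) : ℕ := (n + 2 ^ u - 1) / 2 ^ (u + 1)

/-- The state of the counter before the step `n` (closed formula (5.1)). -/
def st (k n : ℕ) (u : Fin k) : Option (Finset (Fin k)) :=
  if hi n u = 0 then none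
  else some (univ.filter fun w : Fin k => u < w ∧
    (hi n u - 1).testBit ((w : ℕ) - u - 1) = false)

/-- What a step uses of the state. -/
structure StepOK {k : ℕ} (W : Fin k → Option (Finset (Fin k))) (v : Fin k)
    (L : Finset (Fin k)) (tg : Option (Fin k)) : Prop where
  /-- `L` lies above `v` -/
  gt : ∀ l ∈ L, v < l
  /-- at most `m - 1` vertices are free -/
  card : L.card + 2 ≤ k
  /-- the target, first case -/
  tnone : tg = none → W v = none
  /-- the target, second case -/
  tsome : ∀ w, tg = some w → v < w ∧ w ∉ L ∧ ∃ S, W v = some S ∧ w ∈ S ∧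
    ∀ x ∈ S, x = w ∨ x ∈ L
  /-- the references: owners below `v` -/
  ref : ∀ u, u < v → W u = some (insert v L)
  /-- owners above `v` outside `L` (the other elements of `C`) -/
  up : ∀ u, v < u → u ∉ L → ∃ S, W u = some S ∧ (∀ x ∈ S, x ∈ L)
  /-- in all cases `w > u` for the functions `X_(u,w)` -/
  above : ∀ u S, W u = some S → ∀ w ∈ S, u < w
  /-- the vertex `1` is never free and whole -/
  one : ∀ l ∈ L, (l : ℕ) = 1 → W l ≠ none

/-! ## Binary digits -/

theorem bit_low (v c i : ℕ) :
    (2 ^ v * (2 * c + 1)).testBit i = (decide (i = v) || (decide (v < i) && c.testBit (i - v - 1))) := by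
  rcases lt_trichotomy i v with h | h | h
  · rw [Nat.testBit_two_pow_mul]
    simp [Nat.not_le.mpr h, h.ne, Nat.not_lt.mpr h.le]
  · subst h
    rw [Nat.testBit_two_pow_mul]
    simp
  · rw [Nat.testBit_two_pow_mul]
    have h1 : i - v = (i - v - 1) + 1 := by omega
    have h2 : (2 * c + 1).testBit (i - v) = c.testBit (i - v - 1) := by
      rw [h1, Nat.testBit_succ]
      congr 1
      omega
    simp [h.le, h2, h.ne', h]

theorem bit_pred (v c i : ℕ) :
    (2 ^ v * (2 * c + 1) - 1).testBit i
      = (decide (i < v) || (decide (v < i) && c.testBit (i - v - 1))) := by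
  have hp : 0 < 2 ^ v := by positivity
  have h0 : 2 ^ v * (2 * c + 1) - 1 = 2 ^ v * (2 * c) + (2 ^ v - 1) := by
    rw [mul_add, mul_one]; omega
  rw [h0, Nat.testBit_two_pow_mul_add _ (by omega : 2 ^ v - 1 < 2 ^ v)]
  rcases lt_trichotomy i v with h | h | h
  · rw [if_pos h, Nat.testBit_two_pow_sub_one]
    simp [h]
  · subst h
    rw [if_neg (lt_irrefl _)]
    simp
  · rw [if_neg (by omega)]
    have h1 : i - v = (i - v - 1) + 1 := by omega
    have h2 : (2 * c).testBit (i - v) = c.testBit (i - v - 1) := by
      rw [h1, Nat.testBit_succ]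
      congr 1
      omega
    rw [h2]
    simp [h, Nat.not_lt.mpr h.le]

theorem exists_low {n : ℕ} (hn : n ≠ 0) : ∃ v c, n = 2 ^ v * (2 * c + 1) := by
  obtain ⟨v, m, ⟨c, hc⟩, h⟩ := Nat.exists_eq_two_pow_mul_odd hn
  exact ⟨v, c, by rw [h, hc]⟩

/-! ## The closed formula -/

theorem hi_below {v c u : ℕ} (h : u < v) :
    hi (2 ^ v * (2 * c + 1)) u = 2 ^ (v - u - 1) * (2 * c + 1) := by
  unfold hi
  have h1 : 2 ^ v = 2 ^ (u + 1) * 2 ^ (v - u - 1) := by
    rw [← pow_add]; congr 1; omega
  have hp : 0 < 2 ^ u := by positivity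
  have hq : 2 ^ (u + 1) = 2 * 2 ^ u := by rw [pow_succ]; ring
  have h2 : 2 ^ v * (2 * c + 1) + 2 ^ u - 1
      = 2 ^ (u + 1) * (2 ^ (v - u - 1) * (2 * c + 1)) + (2 ^ u - 1) := by
    rw [h1]
    rw [mul_assoc]
    omega
  rw [h2, Nat.mul_add_div (by positivity), Nat.div_eq_of_lt (by omega), add_zero]

theorem hi_at (v c : ℕ) : hi (2 ^ v * (2 * c + 1)) v = c := by
  unfold hi
  have hp : 0 < 2 ^ v := by positivity
  have hq : 2 ^ (v + 1) = 2 * 2 ^ v := by rw [pow_succ]; ring
  have h2 : 2 ^ v * (2 * c + 1) + 2 ^ v - 1 = 2 ^ (v + 1) * c + (2 ^ (v + 1) - 1) := by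
    rw [hq]
    have : 2 ^ v * (2 * c + 1) = 2 * 2 ^ v * c + 2 ^ v := by ring
    omega
  rw [h2, Nat.mul_add_div (by positivity), Nat.div_eq_of_lt (by omega), add_zero]

theorem hi_at_succ (v c : ℕ) : hi (2 ^ v * (2 * c + 1) + 1) v = c + 1 := by
  unfold hi
  have hq : 2 ^ (v + 1) = 2 * 2 ^ v := by rw [pow_succ]; ring
  have h2 : 2 ^ v * (2 * c + 1) + 1 + 2 ^ v - 1 = 2 ^ (v + 1) * (c + 1) := by
    rw [hq]
    have : 2 ^ v * (2 * c + 1) + 2 ^ v = 2 * 2 ^ v * (c + 1) := by ring
    omega
  rw [h2, Nat.mul_div_cancel_left _ (by positivity)]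

/-- Only the owner `v` changes in the step. -/
theorem hi_succ_ne {v c u : ℕ} (h : u ≠ v) :
    hi (2 ^ v * (2 * c + 1) + 1) u = hi (2 ^ v * (2 * c + 1)) u := by
  unfold hi
  set n := 2 ^ v * (2 * c + 1) with hn
  have hpu : 0 < 2 ^ u := by positivity
  have e1 : n + 1 + 2 ^ u - 1 = (n + 2 ^ u - 1) + 1 := by omega
  rw [e1, Nat.succ_div, if_neg, add_zero]
  intro hd
  have e2 : n + 2 ^ u - 1 + 1 = n + 2 ^ u := by omega
  rw [e2] at hd
  -- then `u` is the lowest digit of `n`
  obtain ⟨q, hq⟩ := hd
  have hq1 : q ≠ 0 := by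
    rintro rfl
    rw [mul_zero] at hq
    omega
  obtain ⟨r, rfl⟩ := Nat.exists_eq_succ_of_ne_zero hq1
  have e3 : n = 2 ^ u * (2 * r + 1) := by
    have : 2 ^ (u + 1) * (r.succ) = 2 ^ u * (2 * r + 1) + 2 ^ u := by
      rw [pow_succ, Nat.succ_eq_add_one]; ring
    omega
  have b1 : n.testBit u = true := by rw [e3, bit_low]; simp
  have b2 : n.testBit v = true := by rw [hn, bit_low]; simp
  rcases lt_or_gt_of_ne h with h' | h'
  · rw [hn, bit_low] at b1
    simp [h'.ne, Nat.not_lt.mpr h'.le] at b1
  · rw [e3, bit_low] at b2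
    simp [h'.ne, Nat.not_lt.mpr h'.le] at b2

theorem hi_above {v c u : ℕ} (h : v < u) (hb : c.testBit (u - v - 1) = true) :
    hi (2 ^ v * (2 * c + 1)) u = (2 ^ v * (2 * c + 1)) / 2 ^ (u + 1) + 1 := by
  set n := 2 ^ v * (2 * c + 1) with hn
  have bu : n.testBit u = true := by
    rw [hn, bit_low]; simp [h, hb]
  have hm : n % 2 ^ (u + 1) = 2 ^ u + n % 2 ^ u := by
    have b2 : (n.testBit u).toNat = n / 2 ^ u % 2 := Nat.toNat_testBit n u
    rw [bu] at b2
    rw [Nat.mod_pow_succ, ← b2]
    simp [add_comm]
  have hpos : 0 < n % 2 ^ u := by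
    rcases Nat.eq_zero_or_pos (n % 2 ^ u) with h0 | h0
    · exfalso
      have hd : 2 ^ u ∣ n := Nat.dvd_of_mod_eq_zero h0
      have hd2 : 2 ^ (v + 1) ∣ n := (pow_dvd_pow 2 (by omega)).trans hd
      rw [hn, pow_succ] at hd2
      have := Nat.dvd_of_mul_dvd_mul_left (by positivity : 0 < 2 ^ v) hd2
      omega
    · exact h0
  have hlt : n % 2 ^ u < 2 ^ u := Nat.mod_lt _ (by positivity)
  have hq : 2 ^ (u + 1) = 2 * 2 ^ u := by rw [pow_succ]; ring
  have hdm := Nat.div_add_mod n (2 ^ (u + 1))
  unfold hi
  have e : n + 2 ^ u - 1 = 2 ^ (u + 1) * (n / 2 ^ (u + 1) + 1) + (n % 2 ^ u - 1) := by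
    have : 2 ^ (u + 1) * (n / 2 ^ (u + 1) + 1) = 2 ^ (u + 1) * (n / 2 ^ (u + 1)) + 2 ^ (u + 1) := by
      ring
    omega
  have hs : n % 2 ^ u - 1 < 2 ^ (u + 1) := by omega
  rw [e, Nat.mul_add_div (by positivity), Nat.div_eq_of_lt hs, add_zero]

/-! ## The steps -/

/-- The set `L_C` for `C` = digits of `2 ^ v (2 c + 1)`. -/
def lc (k v c : ℕ) : Finset (Fin k) :=
  univ.filter fun w : Fin k => v < (w : ℕ) ∧ c.testBit ((w : ℕ) - v - 1) = false

theorem st_above {k n : ℕ} (u : Fin k) (S : Finset (Fin k)) (h : st k n u = some S) :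
    ∀ w ∈ S, u < w := by
  intro w hw
  unfold st at h
  split_ifs at h with h0
  simp only [Option.some.injEq] at h
  rw [← h] at hw
  exact (mem_filter.mp hw).2.1

theorem lt_pow_digit {k v c i : ℕ} (h : 2 ^ v * (2 * c + 1) < 2 ^ k)
    (hb : c.testBit i = true) : v + 1 + i < k := by
  by_contra hc
  have h1 : (2 ^ v * (2 * c + 1)).testBit (v + 1 + i) = true := by
    rw [bit_low]
    have : v + 1 + i - v - 1 = i := by omega
    rw [this, hb]
    simp
    omega
  have h2 : (2 ^ v * (2 * c + 1)).testBit (v + 1 + i) = false :=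
    Nat.testBit_lt_two_pow (h.trans_le (Nat.pow_le_pow_right (by norm_num) (by omega)))
  rw [h1] at h2
  exact absurd h2 (by simp)

theorem lt_pow_low {k v c : ℕ} (h : 2 ^ v * (2 * c + 1) < 2 ^ k) : v < k := by
  by_contra hc
  have : 2 ^ k ≤ 2 ^ v := Nat.pow_le_pow_right (by norm_num) (by omega)
  have h3 : 2 ^ v ≤ 2 ^ v * (2 * c + 1) := Nat.le_mul_of_pos_right _ (by omega)
  omega

/-- THE STEPS: every step of the counter is allowed and leads to the next state. -/
theorem steps {k n : ℕ} (h2 : 2 ≤ n) (hk : n < 2 ^ k) :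
    ∃ (v : Fin k) (L : Finset (Fin k)) (tg : Option (Fin k)),
      StepOK (st k n) v L tg ∧ st k (n + 1) = Function.update (st k n) v (some L) := by
  obtain ⟨v, c, hn⟩ := exists_low (n := n) (by omega)
  have hvk : v < k := lt_pow_low (hn ▸ hk)
  -- the target
  have htg : ∃ tg : Option (Fin k), (tg = none → c = 0) ∧
      (∀ w : Fin k, tg = some w → v < (w : ℕ) ∧ c.testBit ((w : ℕ) - v - 1) = true ∧
        ∃ d, c = 2 ^ ((w : ℕ) - v - 1) * (2 * d + 1)) := by
    rcases Nat.eq_zero_or_pos c with h0 | h0
    · exact ⟨none, fun _ => h0, fun w hw => by simp at hw⟩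
    · obtain ⟨j, d, hd⟩ := exists_low (n := c) (by omega)
      have hb : c.testBit j = true := by rw [hd, bit_low]; simp
      have hjk : v + 1 + j < k := lt_pow_digit (hn ▸ hk) hb
      refine ⟨some ⟨v + 1 + j, hjk⟩, fun hh => by simp at hh, fun w hw => ?_⟩
      simp only [Option.some.injEq] at hw
      have hw' : (w : ℕ) = v + 1 + j := by rw [← hw]
      have e : (w : ℕ) - v - 1 = j := by omega
      rw [e]
      exact ⟨by omega, hb, d, hd⟩
  obtain ⟨tg, ht0, ht1⟩ := htg
  refine ⟨⟨v, hvk⟩, lc k v c, tg, ?_, ?_⟩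
  · refine ⟨?_, ?_, ?_, ?_, ?_, ?_, ?_, ?_⟩
    · intro l hl
      exact (mem_filter.mp hl).2.1
    · -- card
      have hcard : ∀ x y : Fin k, x ≠ y → x ∉ lc k v c → y ∉ lc k v c →
          (lc k v c).card + 2 ≤ k := by
        intro x y hxy hx hy
        have h1 : ((lc k v c) ∪ {x, y}).card ≤ (univ : Finset (Fin k)).card :=
          card_le_card (subset_univ _)
        rw [card_univ, Fintype.card_fin, card_union_of_disjoint, card_pair hxy] at h1
        · exact h1
        · rw [disjoint_left]
          intro z hz hz'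
          rw [mem_insert, mem_singleton] at hz'
          rcases hz' with rfl | rfl
          · exact hx hz
          · exact hy hz
      have hv0 : (⟨v, hvk⟩ : Fin k) ∉ lc k v c := by
        intro h
        exact absurd (mem_filter.mp h).2.1 (lt_irrefl _)
      rcases Nat.eq_zero_or_pos v with h0 | h0
      · -- then `c > 0`
        have hc : c ≠ 0 := by
          rintro rfl
          rw [h0] at hn
          simp at hn
          omega
        rcases htg' : tg with _ | w
        · exact absurd (ht0 htg') hc
        · obtain ⟨a1, a2, -⟩ := ht1 w htg'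
          refine hcard ⟨v, hvk⟩ w ?_ hv0 ?_
          · intro h
            rw [← h] at a1
            exact absurd a1 (lt_irrefl _)
          · intro h
            have := (mem_filter.mp h).2.2
            rw [a2] at this
            exact absurd this (by simp)
      · refine hcard ⟨v, hvk⟩ ⟨0, by omega⟩ ?_ hv0 ?_
        · intro h
          have := congrArg Fin.val h
          simp at this
          omega
        · intro h
          have := (mem_filter.mp h).2.1
          simp at this
    · -- tnone
      intro h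
      unfold st
      rw [if_pos]
      show hi n v = 0
      rw [hn, hi_at]
      exact ht0 h
    · -- tsome
      intro w hw
      obtain ⟨a1, a2, d, hd⟩ := ht1 w hw
      refine ⟨a1, ?_, ?_⟩
      · intro h
        have := (mem_filter.mp h).2.2
        rw [a2] at this
        exact absurd this (by simp)
      · have hc : c ≠ 0 := by
          rintro rfl
          simp at a2
        have hst : st k n ⟨v, hvk⟩ = some (univ.filter fun w : Fin k => (⟨v, hvk⟩ : Fin k) < w ∧
            (c - 1).testBit ((w : ℕ) - v - 1) = false) := by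
          unfold st
          have e : hi n ((⟨v, hvk⟩ : Fin k) : ℕ) = c := by
            show hi n v = c
            rw [hn, hi_at]
          rw [e, if_neg hc]
        refine ⟨_, hst, ?_, ?_⟩
        · rw [mem_filter]
          refine ⟨mem_univ _, a1, ?_⟩
          rw [hd, bit_pred]
          simp
        · intro x hx
          rw [mem_filter] at hx
          obtain ⟨-, x1, x2⟩ := hx
          have x1' : v < (x : ℕ) := x1
          by_cases hxw : x = w
          · exact Or.inl hxw
          · right
            rw [lc, mem_filter]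
            refine ⟨mem_univ _, x1', ?_⟩
            rw [hd, bit_pred] at x2
            rw [hd, bit_low]
            have hne : (x : ℕ) ≠ w := fun h => hxw (Fin.ext h)
            have hne2 : (x : ℕ) - v - 1 ≠ (w : ℕ) - v - 1 := by omega
            rw [Bool.or_eq_false_iff] at x2
            rw [Bool.or_eq_false_iff]
            exact ⟨by simp [hne2], x2.2⟩
    · -- ref
      intro u hu
      have hu' : (u : ℕ) < v := hu
      unfold st
      have e : hi n (u : ℕ) = 2 ^ (v - u - 1) * (2 * c + 1) := by rw [hn, hi_below hu']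
      rw [if_neg (by rw [e]; positivity), e]
      congr 1
      ext w
      rw [mem_filter, mem_insert, lc, mem_filter, bit_pred]
      constructor
      · rintro ⟨-, w1, w2⟩
        have w1' : (u : ℕ) < w := w1
        rw [Bool.or_eq_false_iff] at w2
        obtain ⟨w3, w4⟩ := w2
        have w3' : ¬ ((w : ℕ) - u - 1 < v - u - 1) := by simpa using w3
        rcases Nat.eq_or_lt_of_le (show v ≤ (w : ℕ) by omega) with h | h
        · left
          exact Fin.ext h.symm
        · right
          refine ⟨mem_univ _, h, ?_⟩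
          have e1 : (w : ℕ) - u - 1 - (v - u - 1) - 1 = (w : ℕ) - v - 1 := by omega
          rw [e1] at w4
          rcases Bool.and_eq_false_iff.mp w4 with w5 | w5
          · exfalso
            have : ¬ (v - u - 1 < (w : ℕ) - u - 1) := by simpa using w5
            omega
          · exact w5
      · rintro (rfl | ⟨-, w1, w2⟩)
        · refine ⟨mem_univ _, hu, ?_⟩
          simp
        · refine ⟨mem_univ _, ?_, ?_⟩
          · show (u : ℕ) < w
            omega
          · have e1 : (w : ℕ) - u - 1 - (v - u - 1) - 1 = (w : ℕ) - v - 1 := by omega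
            rw [e1, w2]
            simp
            omega
    · -- up
      intro u hu huL
      have hu' : v < (u : ℕ) := hu
      have hb : c.testBit ((u : ℕ) - v - 1) = true := by
        by_contra h
        apply huL
        rw [lc, mem_filter]
        exact ⟨mem_univ _, hu', by simpa using h⟩
      have e : hi n (u : ℕ) = n / 2 ^ ((u : ℕ) + 1) + 1 := by
        rw [hn, hi_above hu' hb]
      refine ⟨univ.filter fun w : Fin k => u < w ∧
        (n / 2 ^ ((u : ℕ) + 1)).testBit ((w : ℕ) - u - 1) = false, ?_, ?_⟩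
      · unfold st
        rw [e, if_neg (Nat.succ_ne_zero _), Nat.add_sub_cancel]
      · intro x hx
        rw [mem_filter] at hx
        obtain ⟨-, x1, x2⟩ := hx
        have x1' : (u : ℕ) < x := x1
        have vx : v < (x : ℕ) := lt_trans hu' x1'
        have ux : (u : ℕ) + 1 ≤ x := x1'
        rw [lc, mem_filter]
        refine ⟨mem_univ _, vx, ?_⟩
        rw [Nat.testBit_div_two_pow, hn, bit_low] at x2
        have e1 : (x : ℕ) - u - 1 + ((u : ℕ) + 1) = x := by omega
        rw [e1] at x2
        rw [Bool.or_eq_false_iff] at x2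
        rcases Bool.and_eq_false_iff.mp x2.2 with w5 | w5
        · exfalso
          have : ¬ (v < (x : ℕ)) := by simpa using w5
          exact this vx
        · exact w5
    · exact fun u S h => st_above u S h
    · intro l hl h1
      have h3 : v < (l : ℕ) := (mem_filter.mp hl).2.1
      have h4 : v = 0 := by omega
      subst h4
      rw [pow_zero, one_mul] at hn
      have h5 : hi n (l : ℕ) ≠ 0 := by
        unfold hi
        rw [h1]
        have : 2 ^ (1 + 1) ≤ n + 2 ^ 1 - 1 := by omega
        exact (Nat.div_pos this (by norm_num)).ne'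
      unfold st
      rw [if_neg h5]
      exact Option.some_ne_none _
  · -- the next state
    funext u
    by_cases hu : u = ⟨v, hvk⟩
    · subst hu
      rw [Function.update_self]
      unfold st
      have e : hi (n + 1) ((⟨v, hvk⟩ : Fin k) : ℕ) = c + 1 := by
        show hi (n + 1) v = c + 1
        rw [hn, hi_at_succ]
      rw [e, if_neg (by omega), Nat.add_sub_cancel]
      rfl
    · rw [Function.update_of_ne hu]
      have hne : (u : ℕ) ≠ v := fun h => hu (Fin.ext h)
      unfold st
      rw [hn, hi_succ_ne hne]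

/-! ## Start and end -/

/-- The state at the start: `F_0` is structured, the others are whole. -/
def start (k : ℕ) (u : Fin k) : Option (Finset (Fin k)) :=
  if (u : ℕ) = 0 then some (univ.filter fun w : Fin k => 0 < (w : ℕ)) else none

theorem st_two (k : ℕ) : st k 2 = start k := by
  funext u
  unfold st start
  by_cases hu : (u : ℕ) = 0
  · have e : hi 2 (u : ℕ) = 1 := by rw [hu]; rfl
    rw [if_pos hu, e, if_neg one_ne_zero]
    congr 1
    ext w
    rw [mem_filter, mem_filter]
    simp only [mem_univ, true_and, Nat.sub_self, Nat.zero_testBit, and_true]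
    show (u : ℕ) < w ↔ _
    rw [hu]
  · have hp : 2 ≤ 2 ^ (u : ℕ) := by
      calc 2 = 2 ^ 1 := rfl
        _ ≤ 2 ^ (u : ℕ) := Nat.pow_le_pow_right (by norm_num) (by omega)
    have e : hi 2 (u : ℕ) = 0 := by
      unfold hi
      rw [pow_succ]
      exact Nat.div_eq_of_lt (by omega)
    rw [if_neg hu, e, if_pos rfl]

theorem st_end (k : ℕ) : st k (2 ^ k) = fun _ => some ∅ := by
  funext u
  have hk : 2 ^ k = 2 ^ k * (2 * 0 + 1) := by ring
  have e : hi (2 ^ k) (u : ℕ) = 2 ^ (k - u - 1) * (2 * 0 + 1) := by
    conv_lhs => rw [hk]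
    exact hi_below u.2
  unfold st
  rw [e, if_neg (by positivity)]
  congr 1
  rw [filter_eq_empty_iff]
  rintro w - ⟨w1, w2⟩
  have w1' : (u : ℕ) < w := w1
  rw [bit_pred] at w2
  have := w.2
  simp at w2
  omega

/-- INDUCTION PRINCIPLE for the `2 ^ k - 2` steps: `P j W` = the state `W` is reached after
`j` steps. -/
theorem counter_induction {k : ℕ} (hk : 1 ≤ k)
    (P : ℕ → (Fin k → Option (Finset (Fin k))) → Prop)
    (h0 : P 0 (start k))
    (hs : ∀ (j : ℕ) (W : Fin k → Option (Finset (Fin k))) (v : Fin k) (L : Finset (Fin k))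
      (tg : Option (Fin k)), j < 2 ^ k - 2 → StepOK W v L tg → P j W →
      P (j + 1) (Function.update W v (some L))) :
    P (2 ^ k - 2) (fun _ => some ∅) := by
  have h2k : 2 ≤ 2 ^ k := by
    calc 2 = 2 ^ 1 := rfl
      _ ≤ 2 ^ k := Nat.pow_le_pow_right (by norm_num) hk
  have key : ∀ j, j ≤ 2 ^ k - 2 → P j (st k (j + 2)) := by
    intro j
    induction j with
    | zero => intro _; rw [zero_add, st_two]; exact h0
    | succ j ih =>
      intro hj
      obtain ⟨v, L, tg, ok, hup⟩ := steps (k := k) (n := j + 2) (by omega) (by omega)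
      have := hs j (st k (j + 2)) v L tg (by omega) ok (ih (by omega))
      rw [← hup] at this
      exact this
  have := key (2 ^ k - 2) le_rfl
  rwa [Nat.sub_add_cancel h2k, st_end] at this

/-! ## Consequences used in a step ((5.2)) -/

namespace StepOK

variable {k : ℕ} {W : Fin k → Option (Finset (Fin k))} {v : Fin k}
  {L : Finset (Fin k)} {tg : Option (Fin k)}

theorem v_notMem (h : StepOK W v L tg) : v ∉ L := fun hv => lt_irrefl _ (h.gt v hv)

/-- (5.2) for the whole faces: a whole face which is not the target misses a vertex of `L`. -/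
theorem whole (h : StepOK W v L tg) {u : Fin k} (hu : W u = none) :
    (u = v ∧ tg = none) ∨ u ∈ L := by
  rcases lt_trichotomy u v with h1 | h1 | h1
  · rw [h.ref u h1] at hu
    exact absurd hu (by simp)
  · left
    refine ⟨h1, ?_⟩
    rcases ht : tg with _ | w
    · rfl
    · obtain ⟨-, -, S, hS, -⟩ := h.tsome w ht
      rw [h1, hS] at hu
      exact absurd hu (by simp)
  · right
    by_contra hL
    obtain ⟨S, hS, -⟩ := h.up u h1 hL
    rw [hS] at hu
    exact absurd hu (by simp)

/-- (5.2): a function `X_(u,w)` is the target, or a reference, or misses a vertex of `L`. -/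
theorem pair (h : StepOK W v L tg) {u w : Fin k} {S : Finset (Fin k)} (hu : W u = some S)
    (hw : w ∈ S) : (u = v ∧ tg = some w) ∨ (u < v ∧ w = v) ∨ u ∈ L ∨ w ∈ L := by
  rcases lt_trichotomy u v with h1 | h1 | h1
  · have h2 := h.ref u h1
    rw [hu] at h2
    simp only [Option.some.injEq] at h2
    rw [h2, mem_insert] at hw
    rcases hw with h3 | h3
    · exact Or.inr (Or.inl ⟨h1, h3⟩)
    · exact Or.inr (Or.inr (Or.inr h3))
  · rcases ht : tg with _ | w0
    · rw [h1, h.tnone ht] at hu
      exact absurd hu (by simp)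
    · obtain ⟨-, -, S', hS', -, hS2⟩ := h.tsome w0 ht
      rw [h1, hS'] at hu
      simp only [Option.some.injEq] at hu
      rw [← hu] at hw
      rcases hS2 w hw with h3 | h3
      · left; exact ⟨h1, by rw [h3]⟩
      · exact Or.inr (Or.inr (Or.inr h3))
  · by_cases hL : u ∈ L
    · exact Or.inr (Or.inr (Or.inl hL))
    · obtain ⟨S', hS', hS2⟩ := h.up u h1 hL
      rw [hS'] at hu
      simp only [Option.some.injEq] at hu
      rw [← hu] at hw
      exact Or.inr (Or.inr (Or.inr (hS2 w hw)))

/-- The references exist: `v ∈ W_u` for `u < v`. -/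
theorem refs (h : StepOK W v L tg) {u : Fin k} (hu : u < v) :
    ∃ S, W u = some S ∧ v ∈ S := ⟨_, h.ref u hu, mem_insert_self _ _⟩

/-- The free vertices besides `a`: `x_v` and `x_L`. -/
theorem card_free (h : StepOK W v L tg) : (insert v L).card + 1 ≤ k := by
  rw [card_insert_of_notMem h.v_notMem]
  have := h.card
  omega

end StepOK

end Pool.GMN.Counter
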