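import Pool.Agent.GMN.Ext
import Pool.Agent.GMN.Counter

/-!
# GMN/Assem (helper13): shapes, sizes, classes of systems

`shp e W` = the shape on the vertices given by the state `W` of the counter (`e : Fin k ↪ ι` = the known vertices);
`SysCls` = a class of systems closed under more coins, parameters `X` (accuracy) and `Y` (sizes); `Szs` = sizes at most `Y`
(numbers `exp Y`), sum of the coefficients at most `X`.  The statements of one step and of all steps: `GMN/AssemC`.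
-/

set_option autoImplicit false
set_option linter.unusedSectionVars false

namespace Pool.Agent.GMN

open Finset Pool.Agent.PWZ Pool.Agent.M3 Pool.Agent.M3.TS Pool.Agent.GM Pool.GMN.Counter

noncomputable section

section shape

variable {ι : Type} {k : ℕ}

/-- the shape on the vertices -/
def shp (e : Fin k ↪ ι) (W : Fin k → Option (Finset (Fin k))) (u : ι) : Option (Finset ι) := by
  classical
  exact if h : ∃ i, e i = u then (W h.choose).map (Finset.map e) else some ∅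

theorem shp_apply (e : Fin k ↪ ι) (W : Fin k → Option (Finset (Fin k))) (i : Fin k) :
    shp e W (e i) = (W i).map (Finset.map e) := by
  unfold shp
  have h : ∃ j, e j = e i := ⟨i, rfl⟩
  rw [dif_pos h, e.injective h.choose_spec]

theorem shp_none {e : Fin k ↪ ι} {W : Fin k → Option (Finset (Fin k))} {i : Fin k} (h : W i = none) :
    shp e W (e i) = none := by rw [shp_apply, h]; rfl

theorem shp_some {e : Fin k ↪ ι} {W : Fin k → Option (Finset (Fin k))} {i : Fin k} {T : Finset (Fin k)}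
    (h : W i = some T) : shp e W (e i) = some (T.map e) := by rw [shp_apply, h]; rfl

theorem shp_empty (e : Fin k ↪ ι) : shp e (fun _ => some ∅) = fun _ => some ∅ := by
  funext u
  unfold shp
  split_ifs with h
  · rfl
  · rfl

end shape

/-- sizes: lists at most `Y`, numbers at most `exp Y`, sum of the coefficients at most `X` -/
structure Szs (X Y : ℝ) (n B : ℕ) (A : ℝ) : Prop where
  n : (n : ℝ) ≤ Y
  B : (B : ℝ) ≤ Real.exp Y
  A : A ≤ X

theorem Szs.mono {X X' Y Y' : ℝ} {n B : ℕ} {A : ℝ} (h : Szs X Y n B A) (hX : X ≤ X') (hY : Y ≤ Y') :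
    Szs X' Y' n B A := ⟨h.n.trans hY, h.B.trans (Real.exp_le_exp.2 hY), h.A.trans hX⟩

/-- a class of systems: `G S X Y D` = all conditions on `S` at the parameters `X` (accuracy) and `Y` (sizes),
`X ≤ Y ≤ exp X`, with errors at most `X ^ (- D)` (`S.near ≤ 1 / X ^ D`, `S.K ≤ Y`) -/
structure SysCls (ι : Type) [Fintype ι] [DecidableEq ι] where
  G : ∀ {Om Ξ Pt V Γ κ : Type} [Fintype Om] [Fintype Ξ] [Fintype Pt] [Fintype V],
    Sys ι Om Ξ Pt V Γ κ → ℝ → ℝ → ℕ → Prop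
  /-- closed under more coins -/
  add : ∀ {Om Ξ Pt V Γ κ : Type} [Fintype Om] [Fintype Ξ] [Fintype Pt] [Fintype V]
    (S : Sys ι Om Ξ Pt V Γ κ) (X Y : ℝ) (D : ℕ) (Ξ2 : Type) [Fintype Ξ2] [Nonempty Ξ2], G S X Y D →
    G (addCoins S Ξ2) X Y D
  /-- change of the parameters -/
  pow : ∀ {Om Ξ Pt V Γ κ : Type} [Fintype Om] [Fintype Ξ] [Fintype Pt] [Fintype V]
    (S : Sys ι Om Ξ Pt V Γ κ) (X Y : ℝ) (C D : ℕ), 2 ≤ X → X ≤ Y → 1 ≤ C → G S X Y (C * D) → G S (X ^ C) (Y ^ C) D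
  /-- smaller exponents -/
  mono : ∀ {Om Ξ Pt V Γ κ : Type} [Fintype Om] [Fintype Ξ] [Fintype Pt] [Fintype V]
    (S : Sys ι Om Ξ Pt V Γ κ) (X Y : ℝ) (C D : ℕ), 2 ≤ X → C ≤ D → G S X Y D → G S X Y C
  K_le : ∀ {Om Ξ Pt V Γ κ : Type} [Fintype Om] [Fintype Ξ] [Fintype Pt] [Fintype V]
    (S : Sys ι Om Ξ Pt V Γ κ) (X Y : ℝ) (D : ℕ), 2 ≤ X → G S X Y D → S.K ≤ Y
  near_le : ∀ {Om Ξ Pt V Γ κ : Type} [Fintype Om] [Fintype Ξ] [Fintype Pt] [Fintype V]
    (S : Sys ι Om Ξ Pt V Γ κ) (X Y : ℝ) (D : ℕ), 2 ≤ X → G S X Y D → S.near ≤ 1 / X ^ D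

/-- `C X ≤ X ^ C` -/
theorem mul_le_pow {X : ℝ} (hX : 2 ≤ X) {C : ℕ} (hC : 1 ≤ C) : C * X ≤ X ^ C := by
  obtain ⟨c, rfl⟩ := Nat.exists_eq_succ_of_ne_zero (Nat.one_le_iff_ne_zero.1 hC)
  have h1 : ((c + 1 : ℕ) : ℝ) ≤ X ^ c := by
    have h2 : c + 1 ≤ 2 ^ c := Nat.lt_two_pow_self
    have h3 : ((c + 1 : ℕ) : ℝ) ≤ 2 ^ c := by exact_mod_cast h2
    exact h3.trans (pow_le_pow_left₀ (by norm_num) hX c)
  have h4 : 0 ≤ X := by linarith
  rw [pow_succ]
  exact mul_le_mul_of_nonneg_right h1 h4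

theorem pow_le_exp_pow {X Y : ℝ} (hX : 2 ≤ X) (hY0 : 0 ≤ Y) (hY : Y ≤ Real.exp X) {C : ℕ} (hC : 1 ≤ C) :
    Y ^ C ≤ Real.exp (X ^ C) := by
  refine (pow_le_pow_left₀ hY0 hY C).trans ?_
  rw [← Real.exp_nat_mul]
  exact Real.exp_le_exp.2 (mul_le_pow hX hC)

end

end Pool.Agent.GMN
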