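import Pool.Agent.GMN.RuleDef
import Pool.Agent.GMN.ExtBin

/-!
# GMN/AssemC (helper13): assembly of the `2 ^ k - 2` steps, with the coin of the face `δ`

`NamesStmt a e G` = THEOREM N_m in state form: after all steps no function of the hidden vertex is left (`Done`), on the system
with ONE addition of coins `Ξ2`; `names : StepStmt a e G → NamesStmt a e G`.
-/

set_option autoImplicit false
set_option linter.unusedSectionVars false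

namespace Pool.Agent.GMN

open Finset Pool.Agent.PWZ Pool.Agent.M3 Pool.Agent.M3.TS Pool.Agent.GM Pool.GMN.Counter

noncomputable section

variable {ι : Type} [Fintype ι] [DecidableEq ι] {k : ℕ} (a : ι) (e : Fin k ↪ ι) (G : SysCls ι)

/-- after `j` steps the shape is `W` -/
def AfterStmt (j : ℕ) (W : Fin k → Option (Finset (Fin k))) : Prop :=
  ∃ C : ℕ, 1 ≤ C ∧ ∀ (Om Ξ Pt V Γ κ : Type) [Fintype Om] [Fintype Ξ] [Fintype Pt] [Fintype V]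
    (S : Sys ι Om Ξ Pt V Γ κ) (X Y q : ℝ), 2 ≤ X → X ≤ Y → Y ≤ Real.exp X → 1 / X ≤ q → q ≤ 1 → G.G S X Y C →
    ∀ (pz : Ξ → ℕ) (δ : ι) (σ : NSt S a) (n B : ℕ) (A : ℝ) (dead : ℕ → Om → Prop), σ.Bd n B A dead → σ.On dead →
      Szs X Y n B A → (∀ u, u ≠ a → u ≠ δ → (σ.Lam u).Free pz) → σ.Shape (shp e (start k)) →
      (∀ i : Fin k, 2 ≤ (i : ℕ) → σ.wh (e i) → σ.pu (e i)) →
    ∃ (Ξ2 : Type) (_ : Fintype Ξ2) (_ : Nonempty Ξ2) (σ' : NSt (addCoins S Ξ2) a) (n' B' : ℕ) (A' : ℝ)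
      (dead' : ℕ → (Om × Ξ2) → Prop),
      σ'.Bd n' B' A' dead' ∧ σ'.On dead' ∧ Szs (X ^ C) (Y ^ C) n' B' A' ∧
      (∀ u, u ≠ a → u ≠ δ → (σ'.Lam u).Free (pzAdd pz Ξ2)) ∧
      σ'.Shape (shp e W) ∧ (∀ i : Fin k, 2 ≤ (i : ℕ) → σ'.wh (e i) → σ'.pu (e i)) ∧
      (∀ t w, dead t w.1 → dead' t w) ∧ σ'.Z = (CExt.add S Ξ2).lst σ.Z ∧
      (∀ t, 1 ≤ t → t ≤ S.n → ∀ w, ¬ dead' t w → |σ.T t w.1 - σ'.T t w| ≤ j * q) ∧
      (coinFP S.P Ξ2).Pr (dead' S.n) ≤ S.P.Pr (dead S.n) + j * q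

theorem after_zero : AfterStmt a e G 0 (start k) := by
  refine ⟨1, le_rfl, ?_⟩
  intro Om Ξ Pt V Γ κ _ _ _ _ S X Y q _ _ _ _ _ _ pz δ σ n B A dead hB hOn hS hz hsh hpu
  refine ⟨Unit, inferInstance, inferInstance, (CExt.add S Unit).st σ, n, B, A, fun t w => dead t w.1,
    (CExt.add S Unit).st_Bd hB, (CExt.add S Unit).st_On hOn, ?_, ?_, hsh, hpu, fun _ _ h => h, rfl, ?_, ?_⟩
  · rw [pow_one, pow_one]
    exact hS
  · intro u hua huδ t g ξ ξ' x hx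
    exact hz u hua huδ t g _ _ x (pzAdd_eq.1 hx).1
  · intro t _ _ w _
    have h1 : ((CExt.add S Unit).st σ).T t w = σ.T t w.1 := (CExt.add S Unit).st_T σ t w
    rw [h1, sub_self, abs_zero]
    simp
  · have h1 : (coinFP S.P Unit).Pr (fun w => dead S.n w.1) = S.P.Pr (dead S.n) := coinFP_Pr_fst S.P Unit _
    rw [h1]
    simp

theorem after_succ (hst : StepStmt a e G) {j : ℕ} {W : Fin k → Option (Finset (Fin k))} {v : Fin k}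
    {Lc : Finset (Fin k)} {tg : Option (Fin k)} (hok : StepOK W v Lc tg) (h : AfterStmt a e G j W) :
    AfterStmt a e G (j + 1) (Function.update W v (some Lc)) := by
  obtain ⟨C1, hC1, h1⟩ := h
  obtain ⟨C2, h2⟩ := hst
  refine ⟨C1 * (C2 + 1), Nat.mul_pos hC1 (Nat.succ_pos _), ?_⟩
  intro Om Ξ Pt V Γ κ _ _ _ _ S X Y q hX hXY hYX hq hq1 hG pz δ σ n B A dead hB hOn hS hz hsh hpu
  have hX1 : 1 ≤ X := by linarith
  have hX0 : 0 ≤ X := by linarith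
  have hY0 : 0 ≤ Y := by linarith
  have hY1 : 1 ≤ Y := by linarith
  have hle : C1 ≤ C1 * (C2 + 1) := Nat.le_mul_of_pos_right _ (Nat.succ_pos _)
  obtain ⟨Ξ1, i1, i2, σ', n', B', A', dead', g1, g2, g3, g4, g5, g6, g7, g8, g9, g10⟩ :=
    h1 Om Ξ Pt V Γ κ S X Y q hX hXY hYX hq hq1 (G.mono S X Y _ _ hX hle hG) pz δ σ n B A dead hB hOn hS hz hsh hpu
  have hXX : X ≤ X ^ C1 := le_self_pow₀ hX1 (by omega)
  have hG' : G.G (addCoins S Ξ1) (X ^ C1) (Y ^ C1) C2 := by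
    refine G.pow _ X Y C1 C2 hX hXY hC1 (G.add S X Y _ Ξ1 (G.mono S X Y _ _ hX ?_ hG))
    exact Nat.mul_le_mul_left _ (Nat.le_succ _)
  have hq' : 1 / X ^ C1 ≤ q := (one_div_le_one_div_of_le (by linarith) hXX).trans hq
  obtain ⟨Ξ2, i3, i4, σ2, n2, B2, A2, dead2, k1, k2, k3, k4, k5, k6, k7, k8, k9, k10⟩ :=
    h2 (Om × Ξ1) (Ξ × Ξ1) Pt V Γ κ (addCoins S Ξ1) (X ^ C1) (Y ^ C1) q (hX.trans hXX)
      (pow_le_pow_left₀ hX0 hXY C1) (pow_le_exp_pow hX hY0 hYX hC1) hq' hq1 hG' (pzAdd pz Ξ1) δ σ' n' B' A' dead'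
      g1 g2 g3 g4 W v Lc tg hok g5 g6
  let ac := CExt.assoc S Ξ1 Ξ2
  refine ⟨Ξ1 × Ξ2, inferInstance, inferInstance, ac.st σ2, n2, B2, A2, fun t w => dead2 t (ac.pi w), ac.st_Bd k1,
    ac.st_On k2, ?_, ?_, k5, k6, ?_, ?_, ?_, ?_⟩
  · rw [← pow_mul, ← pow_mul] at k3
    exact k3.mono (pow_le_pow_right₀ hX1 (Nat.mul_le_mul_left _ (Nat.le_succ _)))
      (pow_le_pow_right₀ hY1 (Nat.mul_le_mul_left _ (Nat.le_succ _)))
  · intro u hua huδ t g ξ ξ' x hx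
    obtain ⟨h3, h4⟩ := pzAdd_eq.1 hx
    refine k4 u hua huδ t g _ _ x ?_
    rw [pzAdd_eq]
    refine ⟨?_, ?_⟩
    · rw [pzAdd_eq]
      exact ⟨h3, by rw [show (ac.pc ξ).1.2 = ξ.2.1 from rfl, h4]; rfl⟩
    · rw [show (ac.pc ξ).2 = ξ.2.2 from rfl, h4]
      rfl
  · intro t w hw
    exact k7 t (ac.pi w) (g7 t (ac.pi w).1 hw)
  · show ac.lst σ2.Z = _
    rw [k8, g8]
    rfl
  · intro t ht1 ht w hw
    have e1 := g9 t ht1 ht (ac.pi w).1 (fun hd => hw (k7 t (ac.pi w) hd))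
    have e2 := k9 t ht1 ht (ac.pi w) hw
    have e3 : (ac.st σ2).T t w = σ2.T t (ac.pi w) := ac.st_T σ2 t w
    have e4 : σ.T t w.1 - (ac.st σ2).T t w =
        (σ.T t (ac.pi w).1.1 - σ'.T t (ac.pi w).1) + (σ'.T t (ac.pi w).1 - σ2.T t (ac.pi w)) := by
      rw [e3, show (ac.pi w).1.1 = w.1 from rfl]
      ring
    rw [e4]
    refine (abs_add_le _ _).trans ?_
    push_cast
    linarith
  · have e1 : (coinFP S.P (Ξ1 × Ξ2)).Pr (fun w => dead2 S.n (ac.pi w)) =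
        (coinFP (coinFP S.P Ξ1) Ξ2).Pr (dead2 S.n) := ac.Pr (dead2 S.n)
    have e2 : (coinFP (coinFP S.P Ξ1) Ξ2).Pr (dead2 S.n) ≤ (coinFP S.P Ξ1).Pr (dead' S.n) + q := k10
    rw [e1]
    push_cast
    linarith

/-- THEOREM N_m in state form: all functions of the hidden vertex are gone -/
def NamesStmt : Prop :=
  ∃ C : ℕ, ∀ (Om Ξ Pt V Γ κ : Type) [Fintype Om] [Fintype Ξ] [Fintype Pt] [Fintype V]
    (S : Sys ι Om Ξ Pt V Γ κ) (X Y q : ℝ), 2 ≤ X → X ≤ Y → Y ≤ Real.exp X → 1 / X ≤ q → q ≤ 1 → G.G S X Y C →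
    ∀ (pz : Ξ → ℕ) (δ : ι) (σ : NSt S a) (n B : ℕ) (A : ℝ) (dead : ℕ → Om → Prop), σ.Bd n B A dead → σ.On dead →
      Szs X Y n B A → (∀ u, u ≠ a → u ≠ δ → (σ.Lam u).Free pz) → σ.Shape (shp e (start k)) →
      (∀ i : Fin k, 2 ≤ (i : ℕ) → σ.wh (e i) → σ.pu (e i)) →
    ∃ (Ξ2 : Type) (_ : Fintype Ξ2) (_ : Nonempty Ξ2) (σ' : NSt (addCoins S Ξ2) a) (n' B' : ℕ) (A' : ℝ)
      (dead' : ℕ → (Om × Ξ2) → Prop),
      σ'.Bd n' B' A' dead' ∧ σ'.On dead' ∧ Szs (X ^ C) (Y ^ C) n' B' A' ∧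
      (∀ u, u ≠ a → u ≠ δ → (σ'.Lam u).Free (pzAdd pz Ξ2)) ∧ σ'.Done ∧
      (∀ t w, dead t w.1 → dead' t w) ∧ σ'.Z = (CExt.add S Ξ2).lst σ.Z ∧
      (∀ t, 1 ≤ t → t ≤ S.n → ∀ w, ¬ dead' t w → |σ.T t w.1 - σ'.T t w| ≤ 2 ^ k * q) ∧
      (coinFP S.P Ξ2).Pr (dead' S.n) ≤ S.P.Pr (dead S.n) + 2 ^ k * q

/-- **ASSEMBLY**: the steps give Theorem N_m -/
theorem names (hk : 1 ≤ k) (hst : StepStmt a e G) : NamesStmt a e G := by
  obtain ⟨C, -, h⟩ := counter_induction hk (fun j W => AfterStmt a e G j W) (after_zero a e G)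
    (fun j W v Lc tg _ hok h => after_succ a e G hst hok h)
  refine ⟨C, ?_⟩
  intro Om Ξ Pt V Γ κ _ _ _ _ S X Y q hX hXY hYX hq hq1 hG pz δ σ n B A dead hB hOn hS hz hsh hpu
  obtain ⟨Ξ2, i1, i2, σ', n', B', A', dead', g1, g2, g3, g4, g5, g6, g7, g8, g9, g10⟩ :=
    h Om Ξ Pt V Γ κ S X Y q hX hXY hYX hq hq1 hG pz δ σ n B A dead hB hOn hS hz hsh hpu
  have hq0 : 0 ≤ q := le_trans (div_nonneg zero_le_one (by linarith)) hq
  have hj : ((2 ^ k - 2 : ℕ) : ℝ) * q ≤ 2 ^ k * q := by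
    refine mul_le_mul_of_nonneg_right ?_ hq0
    calc ((2 ^ k - 2 : ℕ) : ℝ) ≤ ((2 ^ k : ℕ) : ℝ) := by exact_mod_cast Nat.sub_le _ _
      _ = 2 ^ k := by push_cast; rfl
  refine ⟨Ξ2, i1, i2, σ', n', B', A', dead', g1, g2, g3, g4, ?_, g7, g8, ?_, ?_⟩
  · rw [shp_empty] at g5
    exact g5
  · intro t ht1 ht w hw
    exact (g9 t ht1 ht w hw).trans hj
  · linarith

end

end Pool.Agent.GMN
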