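import Pool.Agent.GMN.Rank

/-!
# GMN/Births (helper19): systems of births of a face in the abstract geometry, CODES of births, PUBLIC SETS

`BSy S u T` = births of the face `u` (the vertices but `u`): lists `fl t g x` (cumulative, without repetition), births
`nb t g x` of the node in the cells of `x`, sign functions `sg w s`, `w ≠ u`, which miss `u` and `w`.
* CODE of a birth `(s, t, g, cells)`: `Cd`; `cfl` = the coded list, `ino I q t g x` = the coded birth `q` is introduced for
  `x_I` at `(t, g)`: a function of `x_I` and the node, for ever (`ino_dep`, `ino_keep`, `cfl_ino`);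
* `BT t g x` = BASE SET: coded births in the true cells, now and before: a function of the cells of the vertices but `u`
  (`BT_congr`, `BT_dep`), it contains the coded list (`cfl_sub_BT`), `E_BT`, `Pr_BT`;
* `BB w t g x` = coded births in all cells of `x_w` which are compatible with the node and the cells of the other
  vertices: a function of the vertices but `w` (`BB_dep`), growing (`BB_mono`), it contains the coded list
  (`cfl_sub_BB`), `E_BB` : its mean size is at most `K` times the mean number of births (`Sys.cnt`).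
-/

set_option autoImplicit false
set_option linter.unusedSectionVars false

namespace Pool.Agent.GMN

open Finset Pool.Agent.PWZ Pool.Agent.M3 Pool.Agent.M3.TS Pool.Agent.GM

noncomputable section

variable {ι Om Ξ Pt V Γ κ : Type} [Fintype ι] [DecidableEq ι] [Fintype Om] [Fintype Ξ] [Fintype Pt]
  [Fintype V]

/-- SYSTEM OF BIRTHS of the face `u` -/
structure BSy (S : Sys ι Om Ξ Pt V Γ κ) (u : ι) (T : Type) where
  /-- the list, it may see the coins -/
  fl : ℕ → Γ → Ξ → (ι → Pt) → List T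
  /-- births of the node in the cells of the point, coin free -/
  nb : ℕ → Γ → (ι → Pt) → Finset T
  /-- sign functions -/
  sg : ι → T → (ι → Pt) → V → ℝ
  fl_dep : ∀ t g ξ, Dep (univ.erase u) (fl t g ξ)
  sg_dep : ∀ w s, Dep ((univ.erase u).erase w) (sg w s)
  sg_or : ∀ w s x d, sg w s x d = 1 ∨ sg w s x d = -1
  suf : ∀ t g ξ x, fl t (S.par t g) ξ x <:+ fl (t + 1) g ξ x
  nd : ∀ t g ξ x, (fl t g ξ x).Nodup
  nb_congr : ∀ t g x y, (∀ i, i ≠ u → S.cl t (x i) = S.cl t (y i)) → nb t g x = nb t g y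
  top : ∀ g ξ x, ∀ s ∈ fl 0 g ξ x, s ∈ nb 0 g x
  new : ∀ t g ξ x, ∀ s ∈ fl (t + 1) g ξ x, s ∈ fl t (S.par t g) ξ x ∨ s ∈ nb (t + 1) g x

/-- coded births: birth, time, node, cells of the vertices but `u` -/
abbrev Cd (ι T Γ κ : Type) : Type := T × ℕ × Γ × (ι → Option κ)

section codes

variable (S : Sys ι Om Ξ Pt V Γ κ) (u : ι) {T : Type}

/-- the cells of the vertices but `u` -/
def clo (t : ℕ) (x : ι → Pt) : ι → Option κ := fun i => if i = u then none else some (S.cl t (x i))

/-- the code of a birth of the node `(t, g)` -/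
def cod (t : ℕ) (g : Γ) (x : ι → Pt) (s : T) : Cd ι T Γ κ := (s, t, g, clo S u t x)

theorem clo_dep (t : ℕ) : Dep (univ.erase u) (clo S u t) := fun x y h => by
  funext i
  unfold clo
  by_cases hi : i = u
  · rw [if_pos hi, if_pos hi]
  · rw [if_neg hi, if_neg hi, h i (mem_erase.2 ⟨hi, mem_univ i⟩)]

theorem clo_congr {t : ℕ} {x y : ι → Pt} (h : ∀ i, i ≠ u → S.cl t (x i) = S.cl t (y i)) :
    clo S u t x = clo S u t y := by
  funext i
  unfold clo
  by_cases hi : i = u
  · rw [if_pos hi, if_pos hi]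
  · rw [if_neg hi, if_neg hi, h i hi]

/-- the coded birth is introduced for `x_I` -/
def ino (I : Finset ι) (q : Cd ι T Γ κ) (t : ℕ) (g : Γ) (x : ι → Pt) : Prop :=
  q.2.1 ≤ t ∧ S2.anc S.par t g q.2.1 = q.2.2.1 ∧ ∀ i ∈ I, q.2.2.2 i = some (S.cl q.2.1 (x i))

theorem ino_dep (I : Finset ι) (q : Cd ι T Γ κ) (t : ℕ) (g : Γ) : Dep I (ino S I q t g) := fun x y h => by
  unfold ino
  have h1 : (∀ i ∈ I, q.2.2.2 i = some (S.cl q.2.1 (x i))) = ∀ i ∈ I, q.2.2.2 i = some (S.cl q.2.1 (y i)) := by
    refine forall_congr fun i => forall_congr fun hi => ?_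
    rw [h i hi]
  rw [h1]

theorem ino_keep {I : Finset ι} {q : Cd ι T Γ κ} {t : ℕ} {g : Γ} {x : ι → Pt} (h : ino S I q t (S.par t g) x) :
    ino S I q (t + 1) g x := by
  obtain ⟨h1, h2, h3⟩ := h
  exact ⟨h1.trans (Nat.le_succ t), by rw [S2.anc_succ _ h1, h2], h3⟩

theorem ino_mono {I J : Finset ι} (hJ : J ⊆ I) {q : Cd ι T Γ κ} {t : ℕ} {g : Γ} {x : ι → Pt}
    (h : ino S I q t g x) : ino S J q t g x := ⟨h.1, h.2.1, fun i hi => h.2.2 i (hJ hi)⟩

end codes

namespace BSy

variable {S : Sys ι Om Ξ Pt V Γ κ} {u : ι} {T : Type} (B : BSy S u T)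

/-- THE CODED LIST -/
def cfl : ℕ → Γ → Ξ → (ι → Pt) → List (Cd ι T Γ κ)
  | 0, g, ξ, x => (B.fl 0 g ξ x).map (cod S u 0 g x)
  | t + 1, g, ξ, x => ((B.fl (t + 1) g ξ x).take ((B.fl (t + 1) g ξ x).length -
      (B.fl t (S.par t g) ξ x).length)).map (cod S u (t + 1) g x) ++ cfl t (S.par t g) ξ x

theorem cfl_succ (t : ℕ) (g : Γ) (ξ : Ξ) (x : ι → Pt) : B.cfl (t + 1) g ξ x =
    ((B.fl (t + 1) g ξ x).take ((B.fl (t + 1) g ξ x).length - (B.fl t (S.par t g) ξ x).length)).map
      (cod S u (t + 1) g x) ++ B.cfl t (S.par t g) ξ x := rfl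

theorem cfl_suf (t : ℕ) (g : Γ) (ξ : Ξ) (x : ι → Pt) : B.cfl t (S.par t g) ξ x <:+ B.cfl (t + 1) g ξ x := ⟨_, rfl⟩

/-- the old part and the new part of a list -/
theorem take_append (t : ℕ) (g : Γ) (ξ : Ξ) (x : ι → Pt) :
    (B.fl (t + 1) g ξ x).take ((B.fl (t + 1) g ξ x).length - (B.fl t (S.par t g) ξ x).length) ++
      B.fl t (S.par t g) ξ x = B.fl (t + 1) g ξ x := by
  obtain ⟨l, hl⟩ := B.suf t g ξ x
  rw [← hl, List.length_append, Nat.add_sub_cancel, List.take_left]

theorem map_cfl (t : ℕ) : ∀ g ξ x, (B.cfl t g ξ x).map Prod.fst = B.fl t g ξ x := by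
  induction t with
  | zero =>
    intro g ξ x
    show ((B.fl 0 g ξ x).map (cod S u 0 g x)).map Prod.fst = _
    rw [List.map_map]
    exact List.map_id _
  | succ t ih =>
    intro g ξ x
    have h1 : ((Prod.fst : Cd ι T Γ κ → T) ∘ cod S u (t + 1) g x) = id := rfl
    rw [cfl_succ, List.map_append, List.map_map, ih, h1, List.map_id, B.take_append]

theorem length_cfl (t : ℕ) (g : Γ) (ξ : Ξ) (x : ι → Pt) : (B.cfl t g ξ x).length = (B.fl t g ξ x).length := by
  rw [← B.map_cfl t g ξ x, List.length_map]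

theorem nodup_cfl (t : ℕ) (g : Γ) (ξ : Ξ) (x : ι → Pt) : (B.cfl t g ξ x).Nodup := by
  refine List.Nodup.of_map Prod.fst ?_
  rw [B.map_cfl]
  exact B.nd t g ξ x

theorem cfl_dep (t : ℕ) : ∀ g ξ, Dep (univ.erase u) (B.cfl t g ξ) := by
  induction t with
  | zero =>
    intro g ξ x y h
    have h1 : cod (T := T) S u 0 g x = cod S u 0 g y := by
      funext s
      unfold cod
      rw [clo_dep S u 0 x y h]
    show (B.fl 0 g ξ x).map (cod S u 0 g x) = (B.fl 0 g ξ y).map (cod S u 0 g y)
    rw [B.fl_dep 0 g ξ x y h, h1]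
  | succ t ih =>
    intro g ξ x y h
    have h1 : cod (T := T) S u (t + 1) g x = cod S u (t + 1) g y := by
      funext s
      unfold cod
      rw [clo_dep S u (t + 1) x y h]
    rw [cfl_succ, cfl_succ, ih _ ξ x y h, h1, B.fl_dep (t + 1) g ξ x y h, B.fl_dep t _ ξ x y h]

theorem cod_ino {I : Finset ι} (hI : u ∉ I) (t : ℕ) (g : Γ) (x : ι → Pt) (s : T) :
    ino S I (cod S u t g x s) t g x := by
  refine ⟨le_rfl, S2.anc_self _ _ _, fun i hi => ?_⟩
  show clo S u t x i = some (S.cl t (x i))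
  unfold clo
  rw [if_neg]
  intro h
  rw [h] at hi
  exact hI hi

/-- the elements of the list are introduced -/
theorem cfl_ino {I : Finset ι} (hI : u ∉ I) (t : ℕ) : ∀ g ξ x, ∀ q ∈ B.cfl t g ξ x, ino S I q t g x := by
  induction t with
  | zero =>
    intro g ξ x q hq
    obtain ⟨s, _, rfl⟩ := List.mem_map.1 hq
    exact cod_ino hI 0 g x s
  | succ t ih =>
    intro g ξ x q hq
    rw [cfl_succ, List.mem_append] at hq
    rcases hq with hq | hq
    · obtain ⟨s, _, rfl⟩ := List.mem_map.1 hq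
      exact cod_ino hI (t + 1) g x s
    · exact ino_keep S (ih _ ξ x q hq)

/-! ### the base set: coded births in the true cells -/

open Classical in
/-- coded births in the cells of the point, now and before -/
def BT : ℕ → Γ → (ι → Pt) → Finset (Cd ι T Γ κ)
  | 0, g, x => (B.nb 0 g x).image (cod S u 0 g x)
  | t + 1, g, x => BT t (S.par t g) x ∪ (B.nb (t + 1) g x).image (cod S u (t + 1) g x)

theorem BT_congr (t : ℕ) : ∀ g {x y : ι → Pt}, (∀ i, i ≠ u → S.cl t (x i) = S.cl t (y i)) → B.BT t g x = B.BT t g y := by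
  classical
  induction t with
  | zero =>
    intro g x y h
    have h1 : cod (T := T) S u 0 g x = cod S u 0 g y := by
      funext s
      unfold cod
      rw [clo_congr S u h]
    show (B.nb 0 g x).image (cod S u 0 g x) = (B.nb 0 g y).image (cod S u 0 g y)
    rw [B.nb_congr 0 g x y h, h1]
  | succ t ih =>
    intro g x y h
    have h1 : cod (T := T) S u (t + 1) g x = cod S u (t + 1) g y := by
      funext s
      unfold cod
      rw [clo_congr S u h]
    show B.BT t (S.par t g) x ∪ (B.nb (t + 1) g x).image (cod S u (t + 1) g x) =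
      B.BT t (S.par t g) y ∪ (B.nb (t + 1) g y).image (cod S u (t + 1) g y)
    rw [B.nb_congr (t + 1) g x y h, h1, ih (S.par t g) fun i hi => S.nest t _ _ (h i hi)]

theorem BT_dep (t : ℕ) (g : Γ) {w : ι} : DepC S t ((univ.erase u).erase w) {w} (B.BT t g) := fun x y h1 h2 =>
  B.BT_congr t g fun i hi => by
    by_cases hw : i = w
    · exact h2 i (Finset.mem_singleton.2 hw)
    · rw [h1 i (mem_erase.2 ⟨hw, mem_erase.2 ⟨hi, mem_univ i⟩⟩)]

theorem BT_mono (t : ℕ) (g : Γ) (x : ι → Pt) : B.BT t (S.par t g) x ⊆ B.BT (t + 1) g x := by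
  classical
  exact Finset.subset_union_left

/-- the coded list is in the base set -/
theorem cfl_sub_BT (t : ℕ) : ∀ g ξ x, ∀ q ∈ B.cfl t g ξ x, q ∈ B.BT t g x := by
  classical
  induction t with
  | zero =>
    intro g ξ x q hq
    obtain ⟨s, hs, rfl⟩ := List.mem_map.1 hq
    exact Finset.mem_image_of_mem _ (B.top _ _ _ s hs)
  | succ t ih =>
    intro g ξ x q hq
    rw [cfl_succ, List.mem_append] at hq
    show q ∈ B.BT t (S.par t g) x ∪ (B.nb (t + 1) g x).image (cod S u (t + 1) g x)
    rw [Finset.mem_union]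
    rcases hq with hq | hq
    · right
      obtain ⟨s, hs, rfl⟩ := List.mem_map.1 hq
      refine Finset.mem_image_of_mem _ ?_
      have h1 := B.nd (t + 1) g ξ x
      rw [← B.take_append] at h1
      have h2 : s ∉ B.fl t (S.par t g) ξ x := fun h => (List.nodup_append.1 h1).2.2 s hs s h rfl
      exact (B.new t _ _ _ s (List.mem_of_mem_take hs)).resolve_left h2
    · left
      exact ih _ ξ x q hq

/-- the size of the base set is at most the number of births of the path -/
theorem card_BT_le (t : ℕ) (o : Om) :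
    (B.BT t (S.gm t o) (S.x o)).card ≤ ∑ i ∈ range (t + 1), (B.nb i (S.gm i o) (S.x o)).card := by
  classical
  induction t with
  | zero =>
    rw [zero_add, Finset.sum_range_one]
    exact Finset.card_image_le
  | succ t ih =>
    rw [Finset.sum_range_succ]
    have h1 : B.BT (t + 1) (S.gm (t + 1) o) (S.x o) = B.BT t (S.par t (S.gm (t + 1) o)) (S.x o) ∪
      (B.nb (t + 1) (S.gm (t + 1) o) (S.x o)).image (cod S u (t + 1) (S.gm (t + 1) o) (S.x o)) := rfl
    rw [h1, S.par_gm]
    exact (Finset.card_union_le _ _).trans (Nat.add_le_add ih Finset.card_image_le)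

theorem BT_mono_o (t : ℕ) (o : Om) : B.BT t (S.gm t o) (S.x o) ⊆ B.BT (t + 1) (S.gm (t + 1) o) (S.x o) := by
  have h := B.BT_mono t (S.gm (t + 1) o) (S.x o)
  rwa [S.par_gm] at h

/-! ### public sets -/

open Classical in
/-- coded births of the node in the cells of `x_w` compatible with the node and the other cells -/
def nw (w : ι) (t : ℕ) (g : Γ) (x : ι → Pt) : Finset (Cd ι T Γ κ) :=
  (univ.filter fun w' : Om => S.gm t w' = g ∧ ∀ i, i ≠ w → S.cl t (S.x w' i) = S.cl t (x i)).biUnion
    fun w' => (B.nb t g (S.x w')).image (cod S u t g (S.x w'))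

open Classical in
/-- PUBLIC CODED BIRTHS for the vertices but `w` -/
def BB (w : ι) : ℕ → Γ → (ι → Pt) → Finset (Cd ι T Γ κ)
  | 0, g, x => B.nw w 0 g x
  | t + 1, g, x => BB w t (S.par t g) x ∪ B.nw w (t + 1) g x

theorem nw_congr {w : ι} {t : ℕ} {g : Γ} {x y : ι → Pt} (h : ∀ i, i ≠ w → S.cl t (x i) = S.cl t (y i)) :
    B.nw w t g x = B.nw w t g y := by
  classical
  unfold nw
  congr 1
  refine Finset.filter_congr fun w' _ => ?_
  refine and_congr_right fun _ => forall_congr' fun i => forall_congr' fun hi => ?_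
  rw [h i hi]

theorem nw_dep (w : ι) (t : ℕ) (g : Γ) : Dep (univ.erase w) (B.nw w t g) := fun x y h =>
  B.nw_congr fun i hi => by rw [h i (mem_erase.2 ⟨hi, mem_univ i⟩)]

theorem BB_dep (w : ι) (t : ℕ) : ∀ g, Dep (univ.erase w) (B.BB w t g) := by
  classical
  induction t with
  | zero => exact fun g => B.nw_dep w 0 g
  | succ t ih =>
    intro g x y h
    show B.BB w t (S.par t g) x ∪ B.nw w (t + 1) g x = B.BB w t (S.par t g) y ∪ B.nw w (t + 1) g y
    rw [ih _ x y h, B.nw_dep w (t + 1) g x y h]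

theorem BB_mono (w : ι) (t : ℕ) (g : Γ) (x : ι → Pt) : B.BB w t (S.par t g) x ⊆ B.BB w (t + 1) g x := by
  classical
  exact Finset.subset_union_left

/-- the coded births of the true cells are public -/
theorem cod_mem_nw (w : ι) {t : ℕ} {o : Om} {s : T} (hs : s ∈ B.nb t (S.gm t o) (S.x o)) :
    cod S u t (S.gm t o) (S.x o) s ∈ B.nw w t (S.gm t o) (S.x o) := by
  classical
  unfold nw
  rw [Finset.mem_biUnion]
  exact ⟨o, Finset.mem_filter.2 ⟨Finset.mem_univ _, rfl, fun _ _ => rfl⟩, Finset.mem_image_of_mem _ hs⟩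

/-- the coded list is in the public set -/
theorem cfl_sub_BB (w : ι) (t : ℕ) (o : Om) (ξ : Ξ) :
    ∀ q ∈ B.cfl t (S.gm t o) ξ (S.x o), q ∈ B.BB w t (S.gm t o) (S.x o) := by
  classical
  induction t with
  | zero =>
    intro q hq
    obtain ⟨s, hs, rfl⟩ := List.mem_map.1 hq
    exact B.cod_mem_nw w (B.top _ _ _ s hs)
  | succ t ih =>
    intro q hq
    rw [cfl_succ, List.mem_append] at hq
    show q ∈ B.BB w t (S.par t (S.gm (t + 1) o)) (S.x o) ∪ B.nw w (t + 1) (S.gm (t + 1) o) (S.x o)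
    rw [Finset.mem_union]
    rcases hq with hq | hq
    · right
      obtain ⟨s, hs, rfl⟩ := List.mem_map.1 hq
      refine B.cod_mem_nw w ?_
      have h1 := B.nd (t + 1) (S.gm (t + 1) o) ξ (S.x o)
      rw [← B.take_append] at h1
      have h2 : s ∉ B.fl t (S.par t (S.gm (t + 1) o)) ξ (S.x o) := fun h =>
        (List.nodup_append.1 h1).2.2 s hs s h rfl
      exact (B.new t _ _ _ s (List.mem_of_mem_take hs)).resolve_left h2
    · left
      rw [S.par_gm] at hq ⊢
      exact ih q hq

theorem BB_mono_o (w : ι) (t : ℕ) (o : Om) : B.BB w t (S.gm t o) (S.x o) ⊆ B.BB w (t + 1) (S.gm (t + 1) o) (S.x o) := by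
  have h := B.BB_mono w t (S.gm (t + 1) o) (S.x o)
  rwa [S.par_gm] at h

theorem card_BB_le (w : ι) (t : ℕ) (o : Om) :
    (B.BB w t (S.gm t o) (S.x o)).card ≤ ∑ i ∈ range (t + 1), (B.nw w i (S.gm i o) (S.x o)).card := by
  classical
  induction t with
  | zero =>
    rw [zero_add, Finset.sum_range_one]
    exact le_rfl
  | succ t ih =>
    rw [Finset.sum_range_succ]
    have h1 : B.BB w (t + 1) (S.gm (t + 1) o) (S.x o) =
        B.BB w t (S.par t (S.gm (t + 1) o)) (S.x o) ∪ B.nw w (t + 1) (S.gm (t + 1) o) (S.x o) := rfl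
    rw [h1, S.par_gm]
    exact (Finset.card_union_le _ _).trans (Nat.add_le_add_right ih _)

/-! ### the mean size of the public sets -/

/-- the cell `β` of the vertex `w` is compatible with the node and the other cells of the sample point -/
def Cmp (S : Sys ι Om Ξ Pt V Γ κ) (w : ι) (t : ℕ) (β : κ) (o : Om) : Prop :=
  ∃ w' : Om, S.cl t (S.x w' w) = β ∧ (∀ i, i ≠ w → S.cl t (S.x w' i) = S.cl t (S.x o i)) ∧ S.gm t w' = S.gm t o

/-- expansion along the values of a function -/
theorem E_vals (P : FP Om) {α : Type*} [DecidableEq α] (X : Om → α) (f : Om → ℝ) :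
    P.E f = ∑ y ∈ univ.image X, P.E (fun o => ind (X o = y) * f o) := by
  rw [← P.E_sum]
  refine P.E_congr fun o _ => ?_
  rw [Finset.sum_eq_single (X o)]
  · rw [ind_of rfl, one_mul]
  · intro y _ hy
    rw [ind_not (fun h => hy h.symm), zero_mul]
  · exact fun h => absurd (Finset.mem_image_of_mem _ (mem_univ o)) h

/-- counting compatible cells against true cells, with a weight which does not see `w` and `u` -/
theorem E_Cmp (S : Sys ι Om Ξ Pt V Γ κ) {u w : ι} (hwu : w ≠ u) (t : ℕ) (β : κ) (F : Γ → (ι → Pt) → ℝ)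
    (hF : ∀ g, Dep ((univ.erase w).erase u) (F g)) (hF0 : ∀ g x, 0 ≤ F g x) :
    S.P.E (fun o => ind (Cmp S w t β o) * F (S.gm t o) (S.x o)) ≤
      S.K * S.P.E (fun o => ind (S.cl t (S.x o w) = β) * F (S.gm t o) (S.x o)) := by
  classical
  set A : Finset ι := (univ.erase w).erase u with hA
  have hmA : ∀ i, i ∈ A ↔ i ≠ u ∧ i ≠ w := fun i => by simp [hA]
  set X : Om → ({i // i ∈ A} → Pt) × Γ := fun o => (res A (S.x o), S.gm t o) with hX
  rw [E_vals S.P X, E_vals S.P X (fun o => ind (S.cl t (S.x o w) = β) * F (S.gm t o) (S.x o)), Finset.mul_sum]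
  refine Finset.sum_le_sum fun y hy => ?_
  obtain ⟨o0, _, rfl⟩ := Finset.mem_image.1 hy
  have hval : ∀ o, X o = X o0 → F (S.gm t o) (S.x o) = F (S.gm t o0) (S.x o0) := by
    intro o ho
    have h1 : res A (S.x o) = res A (S.x o0) := congrArg Prod.fst ho
    have h2 : S.gm t o = S.gm t o0 := congrArg Prod.snd ho
    rw [h2]
    exact hF _ _ _ (res_eq.1 h1)
  have e1 : ∀ C : Om → Prop, S.P.E (fun o => ind (X o = X o0) * (ind (C o) * F (S.gm t o) (S.x o))) =
      F (S.gm t o0) (S.x o0) * S.P.Pr (fun o => X o = X o0 ∧ C o) := by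
    intro C
    unfold FP.Pr
    rw [mul_comm, ← S.P.E_mul_const]
    refine S.P.E_congr fun o _ => ?_
    by_cases h : X o = X o0
    · rw [hval o h, ind_and]
      ring
    · have h3 : ¬ (X o = X o0 ∧ C o) := fun h' => h h'.1
      rw [ind_not h, ind_not h3]
      ring
  rw [e1, e1, mul_left_comm]
  refine mul_le_mul_of_nonneg_left ?_ (hF0 _ _)
  have h1 := S.cnt t (S.gm t o0) A (S.x o0) w β (fun h => ((hmA w).1 h).2 rfl)
    ⟨u, hwu.symm, fun h => ((hmA u).1 h).1 rfl⟩
  have h2 : ∀ o, X o = X o0 ↔ (∀ i ∈ A, S.x o i = S.x o0 i) ∧ S.gm t o = S.gm t o0 := by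
    intro o
    rw [hX, Prod.ext_iff, res_eq]
  refine le_trans (S.P.Pr_mono fun o _ => ?_) (h1.trans (le_of_eq ?_))
  · rintro ⟨h3, w', h4, h5, h6⟩
    obtain ⟨h7, h8⟩ := (h2 o).1 h3
    refine ⟨h7, h8, w', fun i hi => ?_, h4, fun i hi hiw => h5 i hiw, h6.trans h8⟩
    rw [h5 i ((hmA i).1 hi).2, h7 i hi]
  · congr 1
    refine S.P.Pr_congr fun o _ => ?_
    rw [h2 o]
    exact and_assoc.symm

/-- mean number of the compatible coded births of a node -/
theorem E_nw (w : ι) (t : ℕ) : S.P.E (fun o => ((B.nw w t (S.gm t o) (S.x o)).card : ℝ)) ≤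
    S.K * S.P.E (fun o => ((B.nb t (S.gm t o) (S.x o)).card : ℝ)) := by
  classical
  by_cases hwu : w = u
  · subst hwu
    have h1 : ∀ o, ((B.nw w t (S.gm t o) (S.x o)).card : ℝ) ≤ ((B.nb t (S.gm t o) (S.x o)).card : ℝ) := by
      intro o
      have h2 : B.nw w t (S.gm t o) (S.x o) ⊆ (B.nb t (S.gm t o) (S.x o)).image (cod S w t (S.gm t o) (S.x o)) := by
        intro q hq
        unfold nw at hq
        rw [Finset.mem_biUnion] at hq
        obtain ⟨w', h3, h4⟩ := hq
        obtain ⟨_, h5, h6⟩ := Finset.mem_filter.1 h3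
        rw [B.nb_congr t _ (S.x w') (S.x o) h6] at h4
        have h7 : cod (T := T) S w t (S.gm t o) (S.x w') = cod S w t (S.gm t o) (S.x o) := by
          funext s
          unfold cod
          rw [clo_congr S w h6]
        rwa [h7] at h4
      exact_mod_cast (Finset.card_le_card h2).trans Finset.card_image_le
    have h2 : S.P.E (fun o => ((B.nw w t (S.gm t o) (S.x o)).card : ℝ)) ≤
        S.P.E (fun o => ((B.nb t (S.gm t o) (S.x o)).card : ℝ)) := S.P.E_mono fun o _ => h1 o
    have h3 : 0 ≤ S.P.E (fun o => ((B.nb t (S.gm t o) (S.x o)).card : ℝ)) :=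
      S.P.E_nonneg fun o _ => Nat.cast_nonneg _
    have h4 := S.K1
    nlinarith
  · set βs : Finset κ := univ.image (S.cl t) with hβs
    have hex : ∀ β : κ, ∃ p : Pt, β ∈ βs → S.cl t p = β := by
      intro β
      by_cases hβ : β ∈ βs
      · obtain ⟨p, _, hp⟩ := Finset.mem_image.1 hβ
        exact ⟨p, fun _ => hp⟩
      · obtain ⟨o⟩ := S.nonempty_Om
        exact ⟨S.x o w, fun h => absurd h hβ⟩
    choose p hp using hex
    set F : κ → Γ → (ι → Pt) → ℝ := fun β g x => ((B.nb t g (Function.update x w (p β))).card : ℝ) with hF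
    have hFd : ∀ β g, Dep ((univ.erase w).erase u) (F β g) := by
      intro β g x y hxy
      have h1 : B.nb t g (Function.update x w (p β)) = B.nb t g (Function.update y w (p β)) := by
        refine B.nb_congr t g _ _ fun i hi => ?_
        by_cases hiw : i = w
        · subst hiw
          rw [Function.update_self, Function.update_self]
        · rw [Function.update_of_ne hiw, Function.update_of_ne hiw,
            hxy i (mem_erase.2 ⟨hi, mem_erase.2 ⟨hiw, mem_univ i⟩⟩)]
      show ((B.nb t g (Function.update x w (p β))).card : ℝ) = ((B.nb t g (Function.update y w (p β))).card : ℝ)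
      rw [h1]
    -- the true cell
    have htrue : ∀ o, ∀ β ∈ βs, S.cl t (S.x o w) = β → F β (S.gm t o) (S.x o) =
        ((B.nb t (S.gm t o) (S.x o)).card : ℝ) := by
      intro o β hβ h1
      show ((B.nb t (S.gm t o) (Function.update (S.x o) w (p β))).card : ℝ) = _
      rw [B.nb_congr t (S.gm t o) (Function.update (S.x o) w (p β)) (S.x o) fun i _ => ?_]
      by_cases hiw : i = w
      · subst hiw
        rw [Function.update_self, hp β hβ, h1]
      · rw [Function.update_of_ne hiw]
    -- the sum over the cells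
    have hle : ∀ o, ((B.nw w t (S.gm t o) (S.x o)).card : ℝ) ≤
        ∑ β ∈ βs, ind (Cmp S w t β o) * F β (S.gm t o) (S.x o) := by
      intro o
      have h2 : B.nw w t (S.gm t o) (S.x o) ⊆ (βs.filter fun β => Cmp S w t β o).biUnion fun β =>
          (B.nb t (S.gm t o) (Function.update (S.x o) w (p β))).image
            (cod S u t (S.gm t o) (Function.update (S.x o) w (p β))) := by
        intro q hq
        unfold nw at hq
        rw [Finset.mem_biUnion] at hq
        obtain ⟨w', h3, h4⟩ := hq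
        obtain ⟨_, h5, h6⟩ := Finset.mem_filter.1 h3
        rw [Finset.mem_biUnion]
        have hβ : S.cl t (S.x w' w) ∈ βs := Finset.mem_image_of_mem _ (mem_univ _)
        refine ⟨S.cl t (S.x w' w), Finset.mem_filter.2 ⟨hβ, w', rfl, h6, h5⟩, ?_⟩
        have h8 : ∀ i, S.cl t (S.x w' i) = S.cl t (Function.update (S.x o) w (p (S.cl t (S.x w' w))) i) := by
          intro i
          by_cases hiw : i = w
          · subst hiw
            rw [Function.update_self, hp _ hβ]
          · rw [Function.update_of_ne hiw]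
            exact h6 i hiw
        rw [B.nb_congr t _ _ _ fun i _ => h8 i] at h4
        have h7 : cod (T := T) S u t (S.gm t o) (S.x w') =
            cod S u t (S.gm t o) (Function.update (S.x o) w (p (S.cl t (S.x w' w)))) := by
          funext s
          unfold cod
          rw [clo_congr S u fun i _ => h8 i]
        rwa [h7] at h4
      have h3 := (Finset.card_le_card h2).trans Finset.card_biUnion_le
      have h4 : ((B.nw w t (S.gm t o) (S.x o)).card : ℝ) ≤ ∑ β ∈ βs.filter fun β => Cmp S w t β o,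
          ((B.nb t (S.gm t o) (Function.update (S.x o) w (p β))).card : ℝ) := by
        have h5 := h3.trans (Finset.sum_le_sum fun β _ => Finset.card_image_le)
        exact_mod_cast h5
      refine h4.trans (le_of_eq ?_)
      rw [Finset.sum_filter]
      refine Finset.sum_congr rfl fun β _ => ?_
      by_cases hc : Cmp S w t β o
      · rw [if_pos hc, ind_of hc, one_mul]
      · rw [if_neg hc, ind_not hc, zero_mul]
    refine (S.P.E_mono fun o _ => hle o).trans ?_
    rw [S.P.E_sum]
    refine (Finset.sum_le_sum fun β _ => E_Cmp S hwu t β (F β) (hFd β) fun _ _ => Nat.cast_nonneg _).trans ?_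
    rw [← Finset.mul_sum, ← S.P.E_sum]
    refine mul_le_mul_of_nonneg_left (le_of_eq (S.P.E_congr fun o _ => ?_)) (zero_le_one.trans S.K1)
    rw [Finset.sum_eq_single (S.cl t (S.x o w))]
    · rw [ind_of rfl, one_mul, htrue o _ (Finset.mem_image_of_mem _ (mem_univ _)) rfl]
    · intro β _ hβ
      rw [ind_not (fun h => hβ h.symm), zero_mul]
    · exact fun h => absurd (Finset.mem_image_of_mem _ (mem_univ _)) h

/-- MEAN SIZE OF THE PUBLIC SETS -/
theorem E_BB (w : ι) (t : ℕ) : S.P.E (fun o => ((B.BB w t (S.gm t o) (S.x o)).card : ℝ)) ≤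
    S.K * S.P.E (fun o => ∑ i ∈ range (t + 1), ((B.nb i (S.gm i o) (S.x o)).card : ℝ)) := by
  have h1 : ∀ o, ((B.BB w t (S.gm t o) (S.x o)).card : ℝ) ≤
      ∑ i ∈ range (t + 1), ((B.nw w i (S.gm i o) (S.x o)).card : ℝ) := fun o => by exact_mod_cast B.card_BB_le w t o
  refine (S.P.E_mono fun o _ => h1 o).trans ?_
  rw [S.P.E_sum, S.P.E_sum, Finset.mul_sum]
  exact Finset.sum_le_sum fun i _ => B.E_nw w i

/-- outside a small probability the public sets are small for ever -/
theorem Pr_BB (w : ι) {M b : ℝ} (hb : 0 < b)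
    (hM : S.P.E (fun o => ∑ i ∈ range (S.n + 1), ((B.nb i (S.gm i o) (S.x o)).card : ℝ)) ≤ M) :
    S.P.Pr (fun o => b ≤ ((B.BB w S.n (S.gm S.n o) (S.x o)).card : ℝ)) ≤ S.K * M / b := by
  rw [le_div_iff₀ hb, mul_comm]
  refine (S.P.markov (fun o _ => Nat.cast_nonneg _) _).trans ((B.E_BB w S.n).trans ?_)
  exact mul_le_mul_of_nonneg_left hM (zero_le_one.trans S.K1)

/-- mean size of the base set -/
theorem E_BT (t : ℕ) : S.P.E (fun o => ((B.BT t (S.gm t o) (S.x o)).card : ℝ)) ≤
    S.P.E (fun o => ∑ i ∈ range (t + 1), ((B.nb i (S.gm i o) (S.x o)).card : ℝ)) :=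
  S.P.E_mono fun o _ => by exact_mod_cast B.card_BT_le t o

/-- outside a small probability the base set is small for ever -/
theorem Pr_BT {M b : ℝ} (hb : 0 < b)
    (hM : S.P.E (fun o => ∑ i ∈ range (S.n + 1), ((B.nb i (S.gm i o) (S.x o)).card : ℝ)) ≤ M) :
    S.P.Pr (fun o => b ≤ ((B.BT S.n (S.gm S.n o) (S.x o)).card : ℝ)) ≤ M / b := by
  rw [le_div_iff₀ hb, mul_comm]
  exact (S.P.markov (fun o _ => Nat.cast_nonneg _) _).trans ((B.E_BT S.n).trans hM)

end BSy

end

end Pool.Agent.GMN
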