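import Pool.Agent.GMN.Ext

/-!
# GMN/Codes (helper13): pairs of codes

`mk ν` = marker of the old code `ν`, `enc ν x` = the code `ν` refined by `x`; `d1`, `d2` the two components;
`Lst.exc A B` = markers of `A` and the refinements `enc ν x`, `ν ∈ A`, `x ∈ B ν`; `PSt.exc` the same for public sets;
`rd`, `rx` : the old list and the refinements are functions of the new list;
`NumF.opt` : the code `none` is the function one; `oc` : optional refinement of a code.
-/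

set_option autoImplicit false
set_option linter.unusedSectionVars false

namespace Pool.Agent.GMN

open Finset Pool.Agent.PWZ Pool.Agent.M3 Pool.Agent.M3.TS Pool.Agent.GM

noncomputable section

/-- marker -/
def mk (ν : ℕ) : ℕ := Nat.pair ν 0

/-- refinement -/
def enc (ν x : ℕ) : ℕ := Nat.pair ν (x + 1)

/-- the old code -/
def d1 (c : ℕ) : ℕ := (Nat.unpair c).1

/-- zero for a marker, otherwise the refinement plus one -/
def d2 (c : ℕ) : ℕ := (Nat.unpair c).2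

@[simp] theorem d1_mk (ν : ℕ) : d1 (mk ν) = ν := by simp [d1, mk]
@[simp] theorem d2_mk (ν : ℕ) : d2 (mk ν) = 0 := by simp [d2, mk]
@[simp] theorem d1_enc (ν x : ℕ) : d1 (enc ν x) = ν := by simp [d1, enc]
@[simp] theorem d2_enc (ν x : ℕ) : d2 (enc ν x) = x + 1 := by simp [d2, enc]

theorem pair_d (c : ℕ) : Nat.pair (d1 c) (d2 c) = c := by simp [d1, d2]

theorem eq_mk {c : ℕ} (h : d2 c = 0) : c = mk (d1 c) := by
  have := pair_d c
  rw [h] at this
  exact this.symm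

theorem eq_enc {c : ℕ} (h : d2 c ≠ 0) : c = enc (d1 c) (d2 c - 1) := by
  have h1 := pair_d c
  unfold enc
  rw [Nat.sub_add_cancel (Nat.one_le_iff_ne_zero.2 h)]
  exact h1.symm

/-- markers and refinements -/
def extF (A : Finset ℕ) (B : ℕ → Finset ℕ) : Finset ℕ := A.biUnion fun ν => insert (mk ν) ((B ν).image (enc ν))

theorem mem_extF {A : Finset ℕ} {B : ℕ → Finset ℕ} {c : ℕ} :
    c ∈ extF A B ↔ d1 c ∈ A ∧ (d2 c ≠ 0 → d2 c - 1 ∈ B (d1 c)) := by
  unfold extF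
  rw [mem_biUnion]
  constructor
  · rintro ⟨ν, hν, hc⟩
    rw [mem_insert, mem_image] at hc
    rcases hc with rfl | ⟨x, hx, rfl⟩
    · rw [d1_mk, d2_mk]
      exact ⟨hν, fun h => absurd rfl h⟩
    · rw [d1_enc, d2_enc]
      exact ⟨hν, fun _ => hx⟩
  · rintro ⟨h1, h2⟩
    refine ⟨d1 c, h1, ?_⟩
    rw [mem_insert, mem_image]
    by_cases h : d2 c = 0
    · exact Or.inl (eq_mk h)
    · exact Or.inr ⟨d2 c - 1, h2 h, (eq_enc h).symm⟩

theorem extF_mono {A A' : Finset ℕ} {B B' : ℕ → Finset ℕ} (hA : A ⊆ A') (hB : ∀ ν ∈ A, B ν ⊆ B' ν) :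
    extF A B ⊆ extF A' B' := by
  intro c hc
  rw [mem_extF] at hc ⊢
  exact ⟨hA hc.1, fun h => hB _ hc.1 (hc.2 h)⟩

theorem enc_mem {A : Finset ℕ} {B : ℕ → Finset ℕ} {ν x : ℕ} : enc ν x ∈ extF A B ↔ ν ∈ A ∧ x ∈ B ν := by
  rw [mem_extF, d1_enc, d2_enc]
  simp

theorem mk_mem {A : Finset ℕ} {B : ℕ → Finset ℕ} {ν : ℕ} : mk ν ∈ extF A B ↔ ν ∈ A := by
  rw [mem_extF, d1_mk, d2_mk]
  simp

theorem card_extF (A : Finset ℕ) (B : ℕ → Finset ℕ) {n : ℕ} (hB : ∀ ν ∈ A, (B ν).card ≤ n) :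
    (extF A B).card ≤ A.card * (n + 1) := by
  unfold extF
  refine (card_biUnion_le).trans ?_
  rw [← smul_eq_mul]
  refine sum_le_card_nsmul _ _ _ fun ν hν => ?_
  refine (card_insert_le _ _).trans ?_
  have := (card_image_le (s := B ν) (f := enc ν)).trans (hB ν hν)
  omega

/-- the old list -/
def rd (M : Finset ℕ) : Finset ℕ := (M.filter fun c => d2 c = 0).image d1

/-- the refinements of `ν` -/
def rx (M : Finset ℕ) (ν : ℕ) : Finset ℕ := (M.filter fun c => d1 c = ν ∧ d2 c ≠ 0).image fun c => d2 c - 1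

theorem rd_extF (A : Finset ℕ) (B : ℕ → Finset ℕ) : rd (extF A B) = A := by
  ext ν
  unfold rd
  rw [mem_image]
  constructor
  · rintro ⟨c, hc, rfl⟩
    rw [mem_filter, mem_extF] at hc
    exact hc.1.1
  · intro h
    refine ⟨mk ν, ?_, d1_mk ν⟩
    rw [mem_filter]
    exact ⟨mk_mem.2 h, d2_mk ν⟩

theorem rx_extF {A : Finset ℕ} {B : ℕ → Finset ℕ} {ν : ℕ} (h : ν ∈ A) : rx (extF A B) ν = B ν := by
  ext x
  unfold rx
  rw [mem_image]
  constructor
  · rintro ⟨c, hc, rfl⟩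
    rw [mem_filter, mem_extF] at hc
    obtain ⟨⟨-, h2⟩, h3, h4⟩ := hc
    rw [← h3]
    exact h2 h4
  · intro hx
    refine ⟨enc ν x, ?_, by rw [d2_enc]; rfl⟩
    rw [mem_filter]
    exact ⟨enc_mem.2 ⟨h, hx⟩, d1_enc ν x, by rw [d2_enc]; exact Nat.succ_ne_zero x⟩

/-- both components changed -/
def ecd (f g : ℕ → ℕ) (c : ℕ) : ℕ := if d2 c = 0 then mk (f (d1 c)) else enc (f (d1 c)) (g (d2 c - 1))

theorem ecd_mk (f g : ℕ → ℕ) (ν : ℕ) : ecd f g (mk ν) = mk (f ν) := by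
  unfold ecd
  rw [d2_mk, if_pos rfl, d1_mk]

theorem ecd_enc (f g : ℕ → ℕ) (ν x : ℕ) : ecd f g (enc ν x) = enc (f ν) (g x) := by
  unfold ecd
  rw [d2_enc, if_neg (Nat.succ_ne_zero x), d1_enc]
  rfl

theorem d1_ecd (f g : ℕ → ℕ) (c : ℕ) : d1 (ecd f g c) = f (d1 c) := by
  unfold ecd
  split_ifs
  · exact d1_mk _
  · exact d1_enc _ _

theorem d2_ecd_ne {f g : ℕ → ℕ} {c : ℕ} : d2 (ecd f g c) ≠ 0 ↔ d2 c ≠ 0 := by
  unfold ecd
  split_ifs with h
  · rw [d2_mk]
    exact ⟨fun h' => absurd rfl h', fun h' => absurd h h'⟩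
  · rw [d2_enc]
    exact ⟨fun _ => h, fun _ => Nat.succ_ne_zero _⟩

theorem d2_ecd {f g : ℕ → ℕ} {c : ℕ} (h : d2 c ≠ 0) : d2 (ecd f g c) = g (d2 c - 1) + 1 := by
  unfold ecd
  rw [if_neg h, d2_enc]

theorem ecd_mem {A : Finset ℕ} {B : ℕ → Finset ℕ} {A' : Finset ℕ} {B' : Finset ℕ} {f g : ℕ → ℕ} {c : ℕ}
    (hc : c ∈ extF A B) (hf : ∀ ν ∈ A, f ν ∈ A') (hg : ∀ ν ∈ A, ∀ x ∈ B ν, g x ∈ B') :
    ecd f g c ∈ extF A' fun _ => B' := by
  rw [mem_extF] at hc ⊢
  rw [d1_ecd]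
  refine ⟨hf _ hc.1, fun h => ?_⟩
  have h1 := d2_ecd_ne.1 h
  rw [d2_ecd h1]
  exact hg _ hc.1 _ (hc.2 h1)

theorem rd_ecd (A : Finset ℕ) (B : ℕ → Finset ℕ) (f g : ℕ → ℕ) : rd ((extF A B).image (ecd f g)) = A.image f := by
  ext r
  unfold rd
  simp only [mem_image, mem_filter]
  constructor
  · rintro ⟨c', ⟨⟨c, hc, rfl⟩, -⟩, rfl⟩
    rw [d1_ecd]
    exact ⟨d1 c, (mem_extF.1 hc).1, rfl⟩
  · rintro ⟨ν, hν, rfl⟩
    refine ⟨ecd f g (mk ν), ⟨⟨mk ν, mk_mem.2 hν, rfl⟩, ?_⟩, ?_⟩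
    · rw [ecd_mk, d2_mk]
    · rw [ecd_mk, d1_mk]

theorem rx_ecd {A : Finset ℕ} {B : ℕ → Finset ℕ} {f g : ℕ → ℕ} (hf : Set.InjOn f A) {ν : ℕ} (hν : ν ∈ A) :
    rx ((extF A B).image (ecd f g)) (f ν) = (B ν).image g := by
  ext r
  unfold rx
  simp only [mem_image, mem_filter]
  constructor
  · rintro ⟨c', ⟨⟨c, hc, rfl⟩, h1, h2⟩, rfl⟩
    rw [d1_ecd] at h1
    have h3 := d2_ecd_ne.1 h2
    obtain ⟨h4, h5⟩ := mem_extF.1 hc
    have h6 : d1 c = ν := hf (mem_coe.2 h4) (mem_coe.2 hν) h1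
    rw [d2_ecd h3]
    exact ⟨d2 c - 1, h6 ▸ h5 h3, rfl⟩
  · rintro ⟨x, hx, rfl⟩
    refine ⟨ecd f g (enc ν x), ⟨⟨enc ν x, enc_mem.2 ⟨hν, hx⟩, rfl⟩, ?_, ?_⟩, ?_⟩
    · rw [ecd_enc, d1_enc]
    · rw [ecd_enc, d2_enc]
      exact Nat.succ_ne_zero _
    · rw [ecd_enc, d2_enc]
      rfl

theorem inj_ecd {A : Finset ℕ} {B : ℕ → Finset ℕ} {f g : ℕ → ℕ} (hf : Set.InjOn f A)
    (hg : ∀ ν ∈ A, Set.InjOn g (B ν)) : Set.InjOn (ecd f g) (extF A B) := by
  intro c hc c' hc' h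
  obtain ⟨h1, h2⟩ := mem_extF.1 (mem_coe.1 hc)
  obtain ⟨h3, h4⟩ := mem_extF.1 (mem_coe.1 hc')
  have h5 : d1 c = d1 c' := by
    have := congrArg d1 h
    rw [d1_ecd, d1_ecd] at this
    exact hf (mem_coe.2 h1) (mem_coe.2 h3) this
  by_cases h6 : d2 c = 0
  · have h7 : ¬ (d2 c' ≠ 0) := by
      intro h8
      have h9 := d2_ecd_ne (f := f) (g := g) |>.2 h8
      rw [← h] at h9
      exact (d2_ecd_ne.1 h9) h6
    have h8 : d2 c' = 0 := not_not.1 h7
    rw [eq_mk h6, eq_mk h8, h5]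
  · have h7 : d2 c' ≠ 0 := by
      have h9 := d2_ecd_ne (f := f) (g := g) |>.2 h6
      rw [h] at h9
      exact d2_ecd_ne.1 h9
    have h8 : g (d2 c - 1) = g (d2 c' - 1) := by
      have := congrArg d2 h
      rw [d2_ecd h6, d2_ecd h7] at this
      exact Nat.succ_injective this
    have h9 : d2 c - 1 = d2 c' - 1 := hg (d1 c) h1 (mem_coe.2 (h2 h6)) (mem_coe.2 (h5 ▸ h4 h7)) h8
    rw [eq_enc h6, eq_enc h7, h5, h9]

variable {ι Om Ξ Pt V Γ κ : Type} [Fintype ι] [DecidableEq ι] [Fintype Om] [Fintype Ξ] [Fintype Pt]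
  [Fintype V] {S : Sys ι Om Ξ Pt V Γ κ}

namespace Lst

variable {I J : Finset ι}

/-- the same list on a larger set of vertices -/
def up (A : Lst S I) (h : I ⊆ J) : Lst S J where
  L := A.L
  dep t g ξ := (A.dep t g ξ).mono h
  mono := A.mono

/-- the empty list -/
def emp (S : Sys ι Om Ξ Pt V Γ κ) (I : Finset ι) : Lst S I where
  L _ _ _ _ := ∅
  dep _ _ _ := fun _ _ _ => rfl
  mono _ _ _ _ := subset_rfl

/-- markers and refinements -/
def exc (A : Lst S I) (B : ℕ → Lst S I) : Lst S I where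
  L t g ξ x := extF (A.L t g ξ x) fun ν => (B ν).L t g ξ x
  dep t g ξ := fun x y h1 => by
    have e1 := A.dep t g ξ x y h1
    have e2 : (fun ν => (B ν).L t g ξ x) = fun ν => (B ν).L t g ξ y :=
      funext fun ν => (B ν).dep t g ξ x y h1
    show extF (A.L t g ξ x) (fun ν => (B ν).L t g ξ x) = extF (A.L t g ξ y) (fun ν => (B ν).L t g ξ y)
    rw [e1, e2]
  mono t g ξ x := extF_mono (A.mono t g ξ x) fun ν _ => (B ν).mono t g ξ x

theorem exc_at (A : Lst S I) (B : ℕ → Lst S I) (t : ℕ) (w : Om) :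
    (A.exc B).at' t w = extF (A.at' t w) fun ν => (B ν).at' t w := rfl

end Lst

namespace PSt

variable {l : ι}

/-- markers and refinements -/
def exc (A : PSt S l) (B : PSt S l) : PSt S l where
  L t g x := extF (A.L t g x) fun _ => B.L t g x
  dep t g := fun x y h => by
    have e1 := A.dep t g x y h
    have e2 := B.dep t g x y h
    show extF (A.L t g x) (fun _ => B.L t g x) = extF (A.L t g y) (fun _ => B.L t g y)
    rw [e1, e2]
  mono t g x := extF_mono (A.mono t g x) fun _ _ => B.mono t g x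

theorem exc_at (A : PSt S l) (B : PSt S l) (t : ℕ) (w : Om) :
    (A.exc B).at' t w = extF (A.at' t w) fun _ => B.at' t w := rfl

/-- the empty public set -/
def emp (S : Sys ι Om Ξ Pt V Γ κ) (l : ι) : PSt S l where
  L _ _ _ := ∅
  dep _ _ := fun _ _ _ => rfl
  mono _ _ _ := subset_rfl

end PSt

namespace BSt

variable {u l : ι}

/-- markers and refinements -/
def exc (A : BSt S u l) (B : BSt S u l) : BSt S u l where
  L t g x := extF (A.L t g x) fun _ => B.L t g x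
  dep t g := fun x y h h' => by
    have e1 := A.dep t g x y h h'
    have e2 := B.dep t g x y h h'
    show extF (A.L t g x) (fun _ => B.L t g x) = extF (A.L t g y) (fun _ => B.L t g y)
    rw [e1, e2]
  mono t g x := extF_mono (A.mono t g x) fun _ _ => B.mono t g x

theorem exc_at (A : BSt S u l) (B : BSt S u l) (t : ℕ) (w : Om) :
    (A.exc B).at' t w = extF (A.at' t w) fun _ => B.at' t w := rfl

/-- one element -/
def single (S : Sys ι Om Ξ Pt V Γ κ) (u l : ι) (c : ℕ) : BSt S u l where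
  L _ _ _ := {c}
  dep _ _ := fun _ _ _ _ => rfl
  mono _ _ _ := subset_rfl

theorem single_at (u l : ι) (c : ℕ) (t : ℕ) (w : Om) : (single S u l c).at' t w = {c} := rfl

end BSt

namespace NumF

variable {α : Type} {I : Finset ι}

/-- the code `none` is the function one -/
def opt (A : NumF S α I) : NumF S (Option α) I where
  inn o := match o with
    | none => fun _ _ _ => True
    | some ν => A.inn ν
  f o := match o with
    | none => fun _ _ _ _ => 1
    | some ν => A.f ν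
  inn_dep o := match o with
    | none => fun _ _ => fun _ _ _ => rfl
    | some ν => A.inn_dep ν
  f_dep o := match o with
    | none => fun _ _ => fun _ _ _ => rfl
    | some ν => A.f_dep ν
  le1 o := match o with
    | none => fun _ _ _ _ => by simp
    | some ν => A.le1 ν
  zero o := match o with
    | none => fun _ _ _ h => absurd trivial h
    | some ν => A.zero ν
  keep o := match o with
    | none => fun _ _ _ _ => trivial
    | some ν => A.keep ν
  stat o := match o with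
    | none => fun _ _ _ _ => rfl
    | some ν => A.stat ν

/-- product with the same code -/
def mul2 {β : Type} (A : NumF S α I) (B : NumF S β I) {γ : Type} (φ : γ → α) (ψ : γ → β) : NumF S γ I :=
  (A.mul B).map fun c => (φ c, ψ c)

theorem mul2_at {β : Type} (A : NumF S α I) (B : NumF S β I) {γ : Type} (φ : γ → α) (ψ : γ → β) (c : γ) (t : ℕ)
    (w : Om) (d : V) : (A.mul2 B φ ψ).at' c t w d = A.at' (φ c) t w d * B.at' (ψ c) t w d := rfl

theorem mul2_on {β : Type} (A : NumF S α I) (B : NumF S β I) {γ : Type} (φ : γ → α) (ψ : γ → β) (c : γ) (t : ℕ)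
    (w : Om) : (A.mul2 B φ ψ).on c t w ↔ A.on (φ c) t w ∧ B.on (ψ c) t w := Iff.rfl

theorem one_at (c : α) (t : ℕ) (w : Om) (d : V) : (NumF.one S α I).at' c t w d = 1 := rfl

end NumF

/-- the optional refinement of a code -/
def oc (f : ℕ → ℕ) (c : ℕ) : Option ℕ := if d2 c = 0 then none else some (f (d2 c - 1))

theorem oc_enc (f : ℕ → ℕ) (ν x : ℕ) : oc f (enc ν x) = some (f x) := by
  unfold oc
  rw [d2_enc, if_neg (Nat.succ_ne_zero x)]
  rfl

theorem oc_mk (f : ℕ → ℕ) (ν : ℕ) : oc f (mk ν) = none := by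
  unfold oc
  rw [d2_mk, if_pos rfl]

theorem oc_ne {f : ℕ → ℕ} {c : ℕ} (h : d2 c ≠ 0) : oc f c = some (f (d2 c - 1)) := if_neg h

end

end Pool.Agent.GMN
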