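import Pool.Agent.GMN.NamHv

/-!
# GMN.Cw (row N, 4.3, record lemma for at least two references): scales from NEARBY hidden cells

`F t` = filtration with the hidden cell, `V t` = what the client sees (no hidden point, the node).  `nr t w u` = the
hidden cells of `w` and `u` are near (both are compatible with one view).  For events `E t` the density is
`P.ce (F t) 1_E`; `DV h t` = running maximum of the densities (cut below `(1/2)^h`) over the hidden cells compatible with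
the view: a function of `V t`; `DP h t` = the same over the near cells: a function of `F t`.

* `near_doob` : `c P(∃ s ≤ T, a near cell has density ≥ c) ≤ K P(∃ s ≤ T, E s)`;
* `E_DP_le` : `E DP ≤ 4 K h P(∃ s ≤ T, E s)`;
* `lost_near` : `P(∃ i ≤ T, density of the context of w < x0 DP) ≤ x0 4 K h N0`;
* `heavy_near` : `B P(∃ i ≤ T, B < ∑_ν max_(j ≤ i) DV(context, ν) / DV(context)) ≤ 8 K K2 h (h+1)^2 N1`.
-/

set_option autoImplicit false
set_option linter.unusedSectionVars false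

namespace Pool.Agent.GMN

open Finset Pool.Agent.PWZ Pool.Agent.M3

noncomputable section

/-! ### maxima of non negative functions -/

/-- maximum, at least `0` -/
def mx0 {α : Type*} (S : Finset α) (f : α → ℝ) : ℝ := S.fold max 0 f

theorem mx0_nonneg {α : Type*} (S : Finset α) (f : α → ℝ) : 0 ≤ mx0 S f :=
  (Finset.le_fold_max (0 : ℝ)).2 (Or.inl le_rfl)

theorem le_mx0 {α : Type*} {S : Finset α} {f : α → ℝ} {a : α} (h : a ∈ S) : f a ≤ mx0 S f :=
  (Finset.le_fold_max (f a)).2 (Or.inr ⟨a, h, le_rfl⟩)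

theorem mx0_le {α : Type*} {S : Finset α} {f : α → ℝ} {c : ℝ} (hc : 0 ≤ c) (h : ∀ a ∈ S, f a ≤ c) : mx0 S f ≤ c :=
  (Finset.fold_max_le c).2 ⟨hc, h⟩

theorem le_mx0_iff {α : Type*} {S : Finset α} {f : α → ℝ} {c : ℝ} (hc : 0 < c) :
    c ≤ mx0 S f ↔ ∃ a ∈ S, c ≤ f a := by
  unfold mx0
  rw [Finset.le_fold_max]
  constructor
  · rintro (h | h)
    · linarith
    · exact h
  · exact Or.inr

theorem mx0_mono {α : Type*} {S S' : Finset α} (h : S ⊆ S') (f : α → ℝ) : mx0 S f ≤ mx0 S' f :=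
  mx0_le (mx0_nonneg _ _) fun _ ha => le_mx0 (h ha)

/-- cut below `(1/2)^h` -/
def cu (h : ℕ) (r : ℝ) : ℝ := open Classical in if (1 / 2 : ℝ) ^ h ≤ r then r else 0

theorem cu_nonneg (h : ℕ) (r : ℝ) : 0 ≤ cu h r := by
  classical
  unfold cu
  split_ifs with hh
  · exact le_trans (by positivity) hh
  · exact le_rfl

theorem cu_of {h : ℕ} {r : ℝ} (hr : (1 / 2 : ℝ) ^ h ≤ r) : cu h r = r := by
  classical
  unfold cu
  exact if_pos hr

theorem le_cu_iff {h : ℕ} {r c : ℝ} (hc : 0 < c) : c ≤ cu h r ↔ (1 / 2 : ℝ) ^ h ≤ r ∧ c ≤ r := by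
  classical
  unfold cu
  split_ifs with hh
  · exact ⟨fun h1 => ⟨hh, h1⟩, fun h1 => h1.2⟩
  · exact ⟨fun h1 => by linarith, fun h1 => absurd h1.1 hh⟩

theorem cu_le {h : ℕ} {r c : ℝ} (hc : 0 ≤ c) (hr : r ≤ c) : cu h r ≤ c := by
  classical
  unfold cu
  split_ifs
  · exact hr
  · exact hc

variable {Om : Type*} [Fintype Om] {φ υ : ℕ → Type*}

/-- the hidden cells of `w` and `u` are near at time `t` -/
def nr (F : ∀ t, Om → φ t) (V : ∀ t, Om → υ t) (t : ℕ) (w u : Om) : Prop :=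
  ∃ w1 w2, F t w1 = F t w ∧ V t w2 = V t w1 ∧ F t w2 = F t u

theorem nr_anti {F : ∀ t, Om → φ t} {V : ∀ t, Om → υ t} (hF : Filt F) (hV : Filt V) {s t : ℕ} (h : s ≤ t) {w u : Om}
    (hn : nr F V t w u) : nr F V s w u := by
  obtain ⟨w1, w2, h1, h2, h3⟩ := hn
  exact ⟨w1, w2, hF.le h w1 w h1, hV.le h w2 w1 h2, hF.le h w2 u h3⟩

theorem nr_congr {F : ∀ t, Om → φ t} {V : ∀ t, Om → υ t} {t : ℕ} {w w' u u' : Om} (h : F t w = F t w')
    (h' : F t u = F t u') : nr F V t w u ↔ nr F V t w' u' := by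
  unfold nr
  rw [h, h']

theorem nr_of_view {F : ∀ t, Om → φ t} {V : ∀ t, Om → υ t} {t : ℕ} {w u : Om} (h : V t u = V t w) : nr F V t w u :=
  ⟨w, u, rfl, h, rfl⟩

theorem nr_refl {F : ∀ t, Om → φ t} {V : ∀ t, Om → υ t} (t : ℕ) (w : Om) : nr F V t w w := nr_of_view rfl

open Classical in
/-- pairs (time, point of a compatible hidden cell) -/
def stV (P : FP Om) (V : ∀ t, Om → υ t) (t : ℕ) (w : Om) : Finset (ℕ × Om) :=
  (range (t + 1) ×ˢ univ).filter fun z => P.p z.2 ≠ 0 ∧ V z.1 z.2 = V z.1 w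

open Classical in
/-- pairs (time, point of a near hidden cell) -/
def stP (P : FP Om) (F : ∀ t, Om → φ t) (V : ∀ t, Om → υ t) (t : ℕ) (w : Om) : Finset (ℕ × Om) :=
  (range (t + 1) ×ˢ univ).filter fun z => P.p z.2 ≠ 0 ∧ nr F V z.1 w z.2

/-- density of the event -/
def den (P : FP Om) (F : ∀ t, Om → φ t) (E : ℕ → Om → Prop) (t : ℕ) (w : Om) : ℝ := P.ce (F t) (fun v => ind (E t v)) w

/-- running maximum over the compatible cells -/
def DV (P : FP Om) (F : ∀ t, Om → φ t) (V : ∀ t, Om → υ t) (h : ℕ) (E : ℕ → Om → Prop) (t : ℕ) (w : Om) : ℝ :=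
  mx0 (stV P V t w) fun z => cu h (den P F E z.1 z.2)

/-- running maximum over the near cells -/
def DP (P : FP Om) (F : ∀ t, Om → φ t) (V : ∀ t, Om → υ t) (h : ℕ) (E : ℕ → Om → Prop) (t : ℕ) (w : Om) : ℝ :=
  mx0 (stP P F V t w) fun z => cu h (den P F E z.1 z.2)

variable {P : FP Om} {F : ∀ t, Om → φ t} {V : ∀ t, Om → υ t} {h : ℕ} {E : ℕ → Om → Prop}

theorem mem_stV {t : ℕ} {w : Om} {z : ℕ × Om} : z ∈ stV P V t w ↔ z.1 ≤ t ∧ P.p z.2 ≠ 0 ∧ V z.1 z.2 = V z.1 w := by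
  classical
  unfold stV
  rw [mem_filter, mem_product, mem_range]
  constructor
  · rintro ⟨⟨h1, _⟩, h2⟩; exact ⟨by omega, h2⟩
  · rintro ⟨h1, h2⟩; exact ⟨⟨by omega, mem_univ _⟩, h2⟩

theorem mem_stP {t : ℕ} {w : Om} {z : ℕ × Om} : z ∈ stP P F V t w ↔ z.1 ≤ t ∧ P.p z.2 ≠ 0 ∧ nr F V z.1 w z.2 := by
  classical
  unfold stP
  rw [mem_filter, mem_product, mem_range]
  constructor
  · rintro ⟨⟨h1, _⟩, h2⟩; exact ⟨by omega, h2⟩
  · rintro ⟨h1, h2⟩; exact ⟨⟨by omega, mem_univ _⟩, h2⟩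

theorem den_nonneg (t : ℕ) (w : Om) : 0 ≤ den P F E t w := ce_ind_nn _ _ _ _

theorem den_fac (t : ℕ) : Fac (F t) (den P F E t) := P.ce_fac _ _

theorem den_le_one (t : ℕ) {w : Om} (hw : P.p w ≠ 0) : den P F E t w ≤ 1 := P.ce_le_const (fun _ _ => ind_le_one _) hw

theorem DV_nonneg (t : ℕ) (w : Om) : 0 ≤ DV P F V h E t w := mx0_nonneg _ _

theorem DP_nonneg (t : ℕ) (w : Om) : 0 ≤ DP P F V h E t w := mx0_nonneg _ _

theorem DV_fac (hV : Filt V) (t : ℕ) : Fac (V t) (DV P F V h E t) := by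
  intro v w hvw
  unfold DV
  congr 1
  ext z
  rw [mem_stV, mem_stV]
  refine and_congr_right fun hz => ?_
  rw [hV.le hz v w hvw]

theorem DP_fac (hF : Filt F) (t : ℕ) : Fac (F t) (DP P F V h E t) := by
  intro v w hvw
  unfold DP
  congr 1
  ext z
  rw [mem_stP, mem_stP]
  refine and_congr_right fun hz => ?_
  rw [nr_congr (hF.le hz v w hvw) rfl]

theorem DV_mono {s t : ℕ} (hst : s ≤ t) (w : Om) : DV P F V h E s w ≤ DV P F V h E t w := by
  refine mx0_mono (fun z hz => ?_) _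
  rw [mem_stV] at hz ⊢
  exact ⟨hz.1.trans hst, hz.2⟩

theorem DP_mono {s t : ℕ} (hst : s ≤ t) (w : Om) : DP P F V h E s w ≤ DP P F V h E t w := by
  refine mx0_mono (fun z hz => ?_) _
  rw [mem_stP] at hz ⊢
  exact ⟨hz.1.trans hst, hz.2⟩

theorem DV_le_DP (t : ℕ) (w : Om) : DV P F V h E t w ≤ DP P F V h E t w := by
  refine mx0_mono (fun z hz => ?_) _
  rw [mem_stV] at hz
  rw [mem_stP]
  exact ⟨hz.1, hz.2.1, nr_of_view hz.2.2⟩

theorem DP_le_one (t : ℕ) (w : Om) : DP P F V h E t w ≤ 1 := by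
  refine mx0_le zero_le_one fun z hz => ?_
  exact cu_le zero_le_one (den_le_one _ (mem_stP.1 hz).2.1)

theorem DV_le_one (t : ℕ) (w : Om) : DV P F V h E t w ≤ 1 := (DV_le_DP t w).trans (DP_le_one t w)

/-- the density itself -/
theorem den_le_DV {t : ℕ} {w : Om} (hw : P.p w ≠ 0) (hd : (1 / 2 : ℝ) ^ h ≤ den P F E t w) :
    den P F E t w ≤ DV P F V h E t w := by
  have h1 : (t, w) ∈ stV P V t w := mem_stV.2 ⟨le_rfl, hw, rfl⟩
  have h2 := le_mx0 (f := fun z : ℕ × Om => cu h (den P F E z.1 z.2)) h1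
  simp only [cu_of hd] at h2
  exact h2

theorem le_DV_iff {t : ℕ} {w : Om} {c : ℝ} (hc : 0 < c) : c ≤ DV P F V h E t w ↔
    ∃ s ≤ t, ∃ u, P.p u ≠ 0 ∧ V s u = V s w ∧ (1 / 2 : ℝ) ^ h ≤ den P F E s u ∧ c ≤ den P F E s u := by
  unfold DV
  rw [le_mx0_iff hc]
  constructor
  · rintro ⟨z, hz, hcz⟩
    rw [mem_stV] at hz
    rw [le_cu_iff hc] at hcz
    exact ⟨z.1, hz.1, z.2, hz.2.1, hz.2.2, hcz.1, hcz.2⟩
  · rintro ⟨s, hs, u, h1, h2, h3, h4⟩
    exact ⟨(s, u), mem_stV.2 ⟨hs, h1, h2⟩, (le_cu_iff hc).2 ⟨h3, h4⟩⟩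

theorem le_DP_iff {t : ℕ} {w : Om} {c : ℝ} (hc : 0 < c) : c ≤ DP P F V h E t w ↔
    ∃ s ≤ t, ∃ u, P.p u ≠ 0 ∧ nr F V s w u ∧ (1 / 2 : ℝ) ^ h ≤ den P F E s u ∧ c ≤ den P F E s u := by
  unfold DP
  rw [le_mx0_iff hc]
  constructor
  · rintro ⟨z, hz, hcz⟩
    rw [mem_stP] at hz
    rw [le_cu_iff hc] at hcz
    exact ⟨z.1, hz.1, z.2, hz.2.1, hz.2.2, hcz.1, hcz.2⟩
  · rintro ⟨s, hs, u, h1, h2, h3, h4⟩
    exact ⟨(s, u), mem_stP.2 ⟨hs, h1, h2⟩, (le_cu_iff hc).2 ⟨h3, h4⟩⟩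

/-- a positive maximum is at least `(1/2)^h` and somebody has the event -/
theorem DP_pos {t : ℕ} {w : Om} (hp : 0 < DP P F V h E t w) :
    (1 / 2 : ℝ) ^ h ≤ DP P F V h E t w ∧ ∃ s ≤ t, ∃ v, E s v := by
  obtain ⟨s, hs, u, hu, hn, h1, h2⟩ := (le_DP_iff hp).1 le_rfl
  refine ⟨?_, s, hs, ?_⟩
  · have h3 : (1 / 2 : ℝ) ^ h ≤ DP P F V h E t w :=
      (le_DP_iff (by positivity)).2 ⟨s, hs, u, hu, hn, h1, h1⟩
    exact h3
  · have h3 : 0 < den P F E s u := lt_of_lt_of_le (by positivity) h1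
    obtain ⟨v, _, _, hv⟩ := ce_ind_pos P (F s) h3
    exact ⟨v, hv⟩

theorem DV_pos {t : ℕ} {w : Om} (hp : 0 < DV P F V h E t w) :
    (1 / 2 : ℝ) ^ h ≤ DV P F V h E t w ∧ ∃ s ≤ t, ∃ v, E s v := by
  obtain ⟨s, hs, u, hu, hn, h1, h2⟩ := (le_DV_iff hp).1 le_rfl
  refine ⟨?_, s, hs, ?_⟩
  · exact (le_DV_iff (by positivity)).2 ⟨s, hs, u, hu, hn, h1, h1⟩
  · have h3 : 0 < den P F E s u := lt_of_lt_of_le (by positivity) h1
    obtain ⟨v, _, _, hv⟩ := ce_ind_pos P (F s) h3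
    exact ⟨v, hv⟩

/-- a smaller event -/
theorem DV_anti {E' : ℕ → Om → Prop} (hE : ∀ t w, E' t w → E t w) (t : ℕ) (w : Om) :
    DV P F V h E' t w ≤ DV P F V h E t w := by
  by_cases hp : 0 < DV P F V h E' t w
  · obtain ⟨s, hs, u, hu, hn, h1, h2⟩ := (le_DV_iff hp).1 le_rfl
    have h3 : den P F E' s u ≤ den P F E s u := ce_ind_le P (F s) fun v _ _ hv => hE s v hv
    exact (le_DV_iff hp).2 ⟨s, hs, u, hu, hn, h1.trans h3, h2.trans h3⟩
  · exact (not_lt.1 hp).trans (DV_nonneg _ _)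

/-- first time -/
def fst (A : ℕ → Om → Prop) (s : ℕ) (w : Om) : Prop := A s w ∧ ∀ r < s, ¬ A r w

theorem fst_fac (hF : Filt F) {A : ℕ → Om → Prop} (hA : ∀ t v w, F t v = F t w → (A t v ↔ A t w)) (s : ℕ) :
    ∀ v w, F s v = F s w → (fst A s v ↔ fst A s w) := by
  intro v w hvw
  unfold fst
  rw [hA s v w hvw]
  refine and_congr_right fun _ => forall_congr' fun r => forall_congr' fun hr => ?_
  rw [hA r v w (hF.le hr.le v w hvw)]

theorem exists_fst {A : ℕ → Om → Prop} {t : ℕ} {w : Om} (h : A t w) : ∃ s ≤ t, fst A s w := by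
  classical
  have hex : ∃ s, A s w := ⟨t, h⟩
  exact ⟨Nat.find hex, Nat.find_min' hex h, Nat.find_spec hex, fun r hr => Nat.find_min hex hr⟩

/-- first times are disjoint -/
theorem sum_fst_le (A : ℕ → Om → Prop) (C : ℕ → Om → Prop) (S : Om → Prop) (T : ℕ)
    (hC : ∀ s ≤ T, ∀ w, P.p w ≠ 0 → fst A s w → C s w → S w) :
    ∑ s ∈ range (T + 1), P.Pr (fun w => fst A s w ∧ C s w) ≤ P.Pr S := by
  classical
  unfold FP.Pr
  rw [← P.E_sum]
  refine P.E_mono fun w hw => ?_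
  by_cases hex : ∃ s ≤ T, fst A s w ∧ C s w
  · obtain ⟨s, hs, h1, h2⟩ := hex
    rw [Finset.sum_eq_single s]
    · rw [ind_of ⟨h1, h2⟩, ind_of (hC s hs w hw h1 h2)]
    · intro r _ hr
      refine ind_not fun hh => ?_
      rcases Nat.lt_or_gt_of_ne hr with h3 | h3
      · exact h1.2 r h3 hh.1.1
      · exact hh.1.2 s h3 h1.1
    · intro hn
      exact absurd (mem_range.2 (by omega)) hn
  · refine le_trans (le_of_eq (Finset.sum_eq_zero fun s hs => ind_not fun hh => ?_)) (ind_nonneg _)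
    have := mem_range.1 hs
    exact hex ⟨s, by omega, hh⟩

/-- near to an event of the filtration -/
theorem near_event {t : ℕ} {K : ℝ} (hK : ∀ u, P.p u ≠ 0 → P.Pr (fun w => nr F V t w u) ≤ K * P.m (F t) u)
    {A : Om → Prop} (hA : ∀ v w, F t v = F t w → (A v ↔ A w)) :
    P.Pr (fun w => ∃ u, P.p u ≠ 0 ∧ nr F V t w u ∧ A u) ≤ K * P.Pr A := by
  classical
  have hpt : ∀ w, ind (∃ u, P.p u ≠ 0 ∧ nr F V t w u ∧ A u) ≤
      ∑ u, P.p u * ((ind (A u) / P.m (F t) u) * ind (nr F V t w u)) := by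
    intro w
    have hnn : ∀ u, 0 ≤ P.p u * ((ind (A u) / P.m (F t) u) * ind (nr F V t w u)) := fun u =>
      mul_nonneg (P.nn u) (mul_nonneg (div_nonneg (ind_nonneg _) (P.m_nonneg _ _)) (ind_nonneg _))
    by_cases hex : ∃ u, P.p u ≠ 0 ∧ nr F V t w u ∧ A u
    · obtain ⟨u, hu, hn, ha⟩ := hex
      rw [ind_of ⟨u, hu, hn, ha⟩]
      have h1 : ∑ v, P.p v * (ind (F t v = F t u) / P.m (F t) u) = 1 := by
        have h2 : P.E (fun v => ind (F t v = F t u) / P.m (F t) u) = 1 := by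
          rw [P.E_div_const]
          exact div_self (P.m_pos (F t) hu).ne'
        exact h2
      rw [← h1]
      refine Finset.sum_le_sum fun v _ => mul_le_mul_of_nonneg_left ?_ (P.nn v)
      by_cases hv : F t v = F t u
      · rw [ind_of hv, ind_of ((hA v u hv).2 ha), P.Fac_m (F t) v u hv, ind_of ((nr_congr rfl hv).2 hn), mul_one]
      · rw [ind_not hv, zero_div]
        exact mul_nonneg (div_nonneg (ind_nonneg _) (P.m_nonneg _ _)) (ind_nonneg _)
    · rw [ind_not hex]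
      exact Finset.sum_nonneg fun u _ => hnn u
  unfold FP.Pr
  have h1 : P.E (fun w => ∑ u, P.p u * ((ind (A u) / P.m (F t) u) * ind (nr F V t w u))) =
      P.E (fun u => (ind (A u) / P.m (F t) u) * P.Pr (fun w => nr F V t w u)) := by
    rw [P.E_sum]
    unfold FP.E
    refine Finset.sum_congr rfl fun u _ => ?_
    unfold FP.Pr FP.E
    show ∑ w, P.p w * (P.p u * (ind (A u) / P.m (F t) u * ind (nr F V t w u))) =
      P.p u * (ind (A u) / P.m (F t) u * ∑ w, P.p w * ind (nr F V t w u))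
    rw [Finset.mul_sum, Finset.mul_sum]
    refine Finset.sum_congr rfl fun w _ => ?_
    ring
  refine (P.E_mono fun w _ => hpt w).trans ?_
  rw [h1, ← P.E_smul]
  refine P.E_mono fun u hu => ?_
  have hm := P.m_pos (F t) hu
  have h2 : ind (A u) / P.m (F t) u * P.Pr (fun w => nr F V t w u) ≤ ind (A u) / P.m (F t) u * (K * P.m (F t) u) :=
    mul_le_mul_of_nonneg_left (hK u hu) (div_nonneg (ind_nonneg _) hm.le)
  refine h2.trans (le_of_eq ?_)
  field_simp

/-- DOOB'S INEQUALITY FOR NEAR CELLS -/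
theorem near_doob (hF : Filt F) (hV : Filt V) {T : ℕ} {K : ℝ} (hK0 : 0 ≤ K)
    (hK : ∀ t ≤ T, ∀ u, P.p u ≠ 0 → P.Pr (fun w => nr F V t w u) ≤ K * P.m (F t) u) {c : ℝ} (hc : 0 ≤ c) :
    c * P.Pr (fun w => ∃ s ≤ T, ∃ u, P.p u ≠ 0 ∧ nr F V s w u ∧ c ≤ den P F E s u) ≤
      K * P.Pr (fun w => ∃ s ≤ T, E s w) := by
  classical
  set A : ℕ → Om → Prop := fun s u => c ≤ den P F E s u with hA
  have hAf : ∀ t v w, F t v = F t w → (A t v ↔ A t w) := by
    intro t v w hvw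
    simp only [hA]
    rw [den_fac t v w hvw]
  have h1 : P.Pr (fun w => ∃ s ≤ T, ∃ u, P.p u ≠ 0 ∧ nr F V s w u ∧ c ≤ den P F E s u) ≤
      ∑ s ∈ range (T + 1), P.Pr (fun w => ∃ u, P.p u ≠ 0 ∧ nr F V s w u ∧ fst A s u) := by
    refine le_trans (P.Pr_mono fun w _ => ?_) (P.Pr_ex_le (range (T + 1)) _)
    rintro ⟨s, hs, u, hu, hn, ha⟩
    obtain ⟨r, hr, hf⟩ := exists_fst (A := A) ha
    exact ⟨r, mem_range.2 (by omega), u, hu, nr_anti hF hV hr hn, hf⟩
  have h2 : ∀ s ∈ range (T + 1), P.Pr (fun w => ∃ u, P.p u ≠ 0 ∧ nr F V s w u ∧ fst A s u) ≤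
      K * P.Pr (fst A s) := fun s hs =>
    near_event (hK s (by have := mem_range.1 hs; omega)) (fst_fac hF hAf s)
  have h3 : ∀ s ∈ range (T + 1), c * P.Pr (fst A s) ≤ P.Pr (fun w => fst A s w ∧ E s w) := by
    intro s _
    have e1 : P.Pr (fun w => fst A s w ∧ E s w) = P.E (fun w => ind (fst A s w) * den P F E s w) := by
      unfold den
      rw [P.E_ind_ce (fst_fac hF hAf s)]
      unfold FP.Pr
      exact P.E_congr fun w _ => ind_and _ _
    rw [e1]
    unfold FP.Pr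
    rw [← P.E_smul]
    refine P.E_mono fun w _ => ?_
    by_cases hf : fst A s w
    · rw [ind_of hf, mul_one, one_mul]; exact hf.1
    · rw [ind_not hf, mul_zero, zero_mul]
  have h4 : ∑ s ∈ range (T + 1), P.Pr (fun w => fst A s w ∧ E s w) ≤ P.Pr (fun w => ∃ s ≤ T, E s w) :=
    sum_fst_le A E _ T fun s hs w _ _ he => ⟨s, hs, he⟩
  calc c * P.Pr (fun w => ∃ s ≤ T, ∃ u, P.p u ≠ 0 ∧ nr F V s w u ∧ c ≤ den P F E s u)
      ≤ c * ∑ s ∈ range (T + 1), K * P.Pr (fst A s) :=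
        mul_le_mul_of_nonneg_left (h1.trans (Finset.sum_le_sum h2)) hc
    _ = K * ∑ s ∈ range (T + 1), c * P.Pr (fst A s) := by
        rw [Finset.mul_sum, Finset.mul_sum]
        exact Finset.sum_congr rfl fun s _ => by ring
    _ ≤ K * P.Pr (fun w => ∃ s ≤ T, E s w) :=
        mul_le_mul_of_nonneg_left ((Finset.sum_le_sum h3).trans h4) hK0

/-- MEAN OF THE MAXIMUM OVER THE NEAR CELLS -/
theorem E_DP_le (hF : Filt F) (hV : Filt V) {T : ℕ} {K : ℝ} (hK0 : 0 ≤ K) (h1 : 1 ≤ h)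
    (hK : ∀ t ≤ T, ∀ u, P.p u ≠ 0 → P.Pr (fun w => nr F V t w u) ≤ K * P.m (F t) u) :
    P.E (DP P F V h E T) ≤ 4 * K * h * P.Pr (fun w => ∃ s ≤ T, E s w) := by
  classical
  set A : ℕ → Om → Prop := fun j w => ∃ s ≤ T, ∃ u, P.p u ≠ 0 ∧ nr F V s w u ∧ (1 / 2 : ℝ) ^ (j + 1) ≤ den P F E s u
    with hA
  have hpt : ∀ w, P.p w ≠ 0 → DP P F V h E T w ≤ ∑ j ∈ range h, 2 * ((1 / 2 : ℝ) ^ j * ind (A j w)) := by
    intro w _
    have hnn : 0 ≤ ∑ j ∈ range h, 2 * ((1 / 2 : ℝ) ^ j * ind (A j w)) :=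
      Finset.sum_nonneg fun j _ => mul_nonneg (by norm_num) (mul_nonneg (by positivity) (ind_nonneg _))
    by_cases hp : 0 < DP P F V h E T w
    · obtain ⟨hge, _⟩ := DP_pos hp
      set r := DP P F V h E T w with hr
      have hd := dyadic (DP_le_one T w : r ≤ 1) h
      have hlast : (1 / 2 : ℝ) ^ h ≤ ∑ j ∈ range h, (1 / 2 : ℝ) ^ j * ind ((1 / 2 : ℝ) ^ (j + 1) ≤ r) := by
        obtain ⟨h', hh'⟩ : ∃ h', h = h' + 1 := ⟨h - 1, by omega⟩
        have h2 := Finset.single_le_sum (f := fun l => (1 / 2 : ℝ) ^ l * ind ((1 / 2 : ℝ) ^ (l + 1) ≤ r))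
          (fun l _ => mul_nonneg (by positivity) (ind_nonneg _)) (mem_range.2 (show h' < h by omega))
        have e3 : ind ((1 / 2 : ℝ) ^ (h' + 1) ≤ r) = 1 := ind_of (by rw [← hh']; exact hge)
        simp only [e3, mul_one] at h2
        refine le_trans (pow_le_pow_of_le_one (by norm_num) (by norm_num) (by omega)) h2
      have hmono : ∀ j ∈ range h, (1 / 2 : ℝ) ^ j * ind ((1 / 2 : ℝ) ^ (j + 1) ≤ r) ≤
          (1 / 2 : ℝ) ^ j * ind (A j w) := by
        intro j _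
        refine mul_le_mul_of_nonneg_left (ind_mono fun hj => ?_) (by positivity)
        obtain ⟨s, hs, u, hu, hn, _, h3⟩ := (le_DP_iff (by positivity)).1 hj
        exact ⟨s, hs, u, hu, hn, h3⟩
      have hsum := Finset.sum_le_sum hmono
      rw [← Finset.mul_sum]
      linarith
    · exact (not_lt.1 hp).trans hnn
  refine (P.E_mono hpt).trans ?_
  rw [P.E_sum]
  have hj : ∀ j ∈ range h, P.E (fun w => 2 * ((1 / 2 : ℝ) ^ j * ind (A j w))) ≤
      4 * K * P.Pr (fun w => ∃ s ≤ T, E s w) := by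
    intro j _
    have h2 := near_doob (E := E) hF hV hK0 hK (c := (1 / 2 : ℝ) ^ (j + 1)) (by positivity)
    rw [P.E_smul, P.E_smul]
    have e : (1 / 2 : ℝ) ^ (j + 1) = (1 / 2) ^ j * (1 / 2) := pow_succ _ _
    have e2 : P.E (fun w => ind (A j w)) = P.Pr (fun w => ∃ s ≤ T, ∃ u, P.p u ≠ 0 ∧ nr F V s w u ∧
        (1 / 2 : ℝ) ^ (j + 1) ≤ den P F E s u) := rfl
    rw [e2]
    have h3 : (1 / 2 : ℝ) ^ j * (1 / 2) * P.Pr (fun w => ∃ s ≤ T, ∃ u, P.p u ≠ 0 ∧ nr F V s w u ∧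
        (1 / 2 : ℝ) ^ (j + 1) ≤ den P F E s u) ≤ K * P.Pr (fun w => ∃ s ≤ T, E s w) := by
      rw [← e]; exact h2
    linarith
  refine (Finset.sum_le_sum hj).trans (le_of_eq ?_)
  rw [Finset.sum_const, Finset.card_range, nsmul_eq_mul]
  ring

/-! ### contexts -/

section ctx

variable {C Nm : Type*} [Fintype C] [Fintype Nm] {lo : ℕ → Om → C} {cr : ℕ → Om → Nm → Prop}

/-- mean number of contexts -/
def N0c (P : FP Om) (lo : ℕ → Om → C) (T : ℕ) : ℝ := ∑ c, P.Pr (fun w => ∃ s ≤ T, lo s w = c)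

/-- mean number of pairs (context, name) -/
def N1c (P : FP Om) (lo : ℕ → Om → C) (cr : ℕ → Om → Nm → Prop) (T : ℕ) : ℝ :=
  ∑ c, ∑ ν, P.Pr (fun w => ∃ s ≤ T, lo s w = c ∧ cr s w ν)

omit [Fintype C] [Fintype Om] in
/-- a context which exists at time `s` and is carried later is carried since `s` -/
theorem ctx_back (hb : ∀ i j v w, i ≤ j → lo i v = lo j w → lo i w = lo j w)
    (hl : ∀ i l j w, i ≤ l → l ≤ j → lo i w = lo j w → lo l w = lo j w) {s r i : ℕ} (h1 : s ≤ r) (h2 : r ≤ i)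
    {v w : Om} (h3 : lo s v = lo i w) : lo r w = lo i w :=
  hl s r i w h1 h2 (hb s i v w (h1.trans h2) h3)

/-- THE DENSITY OF THE CONTEXT IS NOT MUCH BELOW THE MAXIMUM OVER THE NEAR CELLS -/
theorem lost_near (hF : Filt F) (hV : Filt V) {T : ℕ} {K : ℝ} (hK0 : 0 ≤ K) (h1 : 1 ≤ h)
    (hK : ∀ t ≤ T, ∀ u, P.p u ≠ 0 → P.Pr (fun w => nr F V t w u) ≤ K * P.m (F t) u)
    (hb : ∀ i j v w, i ≤ j → lo i v = lo j w → lo i w = lo j w)
    (hl : ∀ i l j w, i ≤ l → l ≤ j → lo i w = lo j w → lo l w = lo j w) {x0 : ℝ} (hx : 0 ≤ x0) :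
    P.Pr (fun w => ∃ i ≤ T, den P F (fun t v => lo t v = lo i w) i w <
      x0 * DP P F V h (fun t v => lo t v = lo i w) i w) ≤ 4 * K * h * x0 * N0c P lo T := by
  classical
  set B : C → ℕ → Om → Prop := fun c s w =>
    den P F (fun t v => lo t v = c) s w < x0 * DP P F V h (fun t v => lo t v = c) s w with hB
  have hBf : ∀ c t v w, F t v = F t w → (B c t v ↔ B c t w) := by
    intro c t v w hvw
    simp only [hB]
    rw [den_fac t v w hvw, DP_fac hF t v w hvw]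
  have hsub : P.Pr (fun w => ∃ i ≤ T, den P F (fun t v => lo t v = lo i w) i w <
      x0 * DP P F V h (fun t v => lo t v = lo i w) i w) ≤
      ∑ c, ∑ s ∈ range (T + 1), P.Pr (fun w => fst (B c) s w ∧ lo s w = c) := by
    refine le_trans (P.Pr_mono fun w _ => ?_) ((P.Pr_ex_le univ fun c w => ∃ s ∈ range (T + 1),
      fst (B c) s w ∧ lo s w = c).trans (Finset.sum_le_sum fun c _ => P.Pr_ex_le (range (T + 1)) _))
    rintro ⟨i, hi, hlt⟩
    refine ⟨lo i w, mem_univ _, ?_⟩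
    obtain ⟨s, hs, hf⟩ := exists_fst (A := B (lo i w)) hlt
    refine ⟨s, mem_range.2 (by omega), hf, ?_⟩
    have hp : 0 < DP P F V h (fun t v => lo t v = lo i w) s w := by
      by_contra hne
      have h0 : DP P F V h (fun t v => lo t v = lo i w) s w = 0 := le_antisymm (not_lt.1 hne) (DP_nonneg _ _)
      have h2 := hf.1
      simp only [hB] at h2
      rw [h0, mul_zero] at h2
      exact absurd (den_nonneg (P := P) (F := F) (E := fun t v => lo t v = lo i w) s w) (not_le.2 h2)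
    obtain ⟨_, s', hs', v, hv⟩ := DP_pos hp
    exact ctx_back hb hl hs' hs hv
  refine hsub.trans ?_
  unfold N0c
  rw [Finset.mul_sum]
  refine Finset.sum_le_sum fun c _ => ?_
  have h2 : ∀ s ∈ range (T + 1), P.Pr (fun w => fst (B c) s w ∧ lo s w = c) ≤
      x0 * P.E (fun w => ind (fst (B c) s w) * DP P F V h (fun t v => lo t v = c) T w) := by
    intro s hs
    have hsT : s ≤ T := by have := mem_range.1 hs; omega
    have e1 : P.Pr (fun w => fst (B c) s w ∧ lo s w = c) =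
        P.E (fun w => ind (fst (B c) s w) * den P F (fun t v => lo t v = c) s w) := by
      unfold den
      rw [P.E_ind_ce (fst_fac hF (hBf c) s)]
      unfold FP.Pr
      exact P.E_congr fun w _ => ind_and _ _
    rw [e1, ← P.E_smul]
    refine P.E_mono fun w _ => ?_
    by_cases hf : fst (B c) s w
    · rw [ind_of hf, one_mul, one_mul]
      exact (le_of_lt hf.1).trans (mul_le_mul_of_nonneg_left (DP_mono hsT w) hx)
    · rw [ind_not hf, zero_mul, zero_mul, mul_zero]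
  refine (Finset.sum_le_sum h2).trans ?_
  rw [← Finset.mul_sum, ← P.E_sum]
  have h3 : P.E (fun w => ∑ s ∈ range (T + 1), ind (fst (B c) s w) * DP P F V h (fun t v => lo t v = c) T w) ≤
      P.E (DP P F V h (fun t v => lo t v = c) T) := by
    refine P.E_mono fun w _ => ?_
    rw [← Finset.sum_mul]
    have h4 : ∑ s ∈ range (T + 1), ind (fst (B c) s w) ≤ 1 := by
      by_cases hex : ∃ s ≤ T, fst (B c) s w
      · obtain ⟨s, hs, h5⟩ := hex
        rw [Finset.sum_eq_single s]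
        · exact ind_le_one _
        · intro r _ hr
          refine ind_not fun hh => ?_
          rcases Nat.lt_or_gt_of_ne hr with h6 | h6
          · exact h5.2 r h6 hh.1
          · exact hh.2 s h6 h5.1
        · intro hn
          exact absurd (mem_range.2 (by omega)) hn
      · refine le_trans (le_of_eq (Finset.sum_eq_zero fun s hs => ind_not fun hh => ?_)) zero_le_one
        have := mem_range.1 hs
        exact hex ⟨s, by omega, hh⟩
    have h5 := DP_nonneg (P := P) (F := F) (V := V) (h := h) (E := fun t v => lo t v = c) T w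
    nlinarith
  have h4 := E_DP_le (E := fun t v => lo t v = c) hF hV hK0 h1 hK
  have h5 := mul_le_mul_of_nonneg_left (h3.trans h4) hx
  refine h5.trans (le_of_eq ?_)
  ring

/-- relative density, from the running maxima over the compatible cells -/
def rho (P : FP Om) (F : ∀ t, Om → φ t) (V : ∀ t, Om → υ t) (h : ℕ) (lo : ℕ → Om → C) (cr : ℕ → Om → Nm → Prop)
    (t : ℕ) (c : C) (ν : Nm) (w : Om) : ℝ :=
  DV P F V h (fun s v => lo s v = c ∧ cr s v ν) t w / DV P F V h (fun s v => lo s v = c) t w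

omit [Fintype C] [Fintype Nm] in
theorem rho_nonneg (t : ℕ) (c : C) (ν : Nm) (w : Om) : 0 ≤ rho P F V h lo cr t c ν w :=
  div_nonneg (DV_nonneg _ _) (DV_nonneg _ _)

omit [Fintype C] [Fintype Nm] in
theorem rho_fac (hV : Filt V) (t : ℕ) (c : C) (ν : Nm) : Fac (V t) (rho P F V h lo cr t c ν) := by
  intro v w hvw
  unfold rho
  rw [DV_fac hV t v w hvw, DV_fac hV t v w hvw]

/-- a level -/
theorem exists_level {r : ℝ} (h1 : (1 / 2 : ℝ) ^ h ≤ r) (h2 : r ≤ 1) :
    ∃ l ≤ h, (1 / 2 : ℝ) ^ l ≤ r ∧ r < 2 * (1 / 2 : ℝ) ^ l := by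
  classical
  have hex : ∃ l, (1 / 2 : ℝ) ^ l ≤ r := ⟨h, h1⟩
  refine ⟨Nat.find hex, Nat.find_min' hex h1, Nat.find_spec hex, ?_⟩
  rcases Nat.eq_zero_or_pos (Nat.find hex) with h0 | h0
  · rw [h0, pow_zero]; linarith
  · have h3 := Nat.find_min hex (m := Nat.find hex - 1) (by omega)
    rw [not_le] at h3
    have e : (1 / 2 : ℝ) ^ (Nat.find hex - 1) = 2 * (1 / 2 : ℝ) ^ (Nat.find hex) := by
      conv_rhs => rw [← Nat.succ_pred_eq_of_pos h0, pow_succ]
      rw [Nat.pred_eq_sub_one]; ring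
    rw [← e]; exact h3

/-- heavy at the level `l` -/
def Hl (P : FP Om) (F : ∀ t, Om → φ t) (V : ∀ t, Om → υ t) (h : ℕ) (lo : ℕ → Om → C) (cr : ℕ → Om → Nm → Prop)
    (B : ℝ) (c : C) (l s : ℕ) (w : Om) : Prop :=
  ((1 / 2 : ℝ) ^ l ≤ DV P F V h (fun s v => lo s v = c) s w ∧
    DV P F V h (fun s v => lo s v = c) s w < 2 * (1 / 2 : ℝ) ^ l) ∧
    B * (1 / 2 : ℝ) ^ l < (h + 1) * ∑ ν, DV P F V h (fun s v => lo s v = c ∧ cr s v ν) s w

/-- heavy at some level -/
theorem exists_Hl {B : ℝ} (hB : 0 ≤ B) {i : ℕ} {c : C} {w : Om}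
    (hi : B < ∑ ν, mxd (rho P F V h lo cr) i c ν w) : ∃ l ≤ h, ∃ s ≤ i, Hl P F V h lo cr B c l s w := by
  classical
  by_contra hne
  push_neg at hne
  -- times of level `l`
  set S : ℕ → Finset ℕ := fun l => (range (i + 1)).filter fun s =>
    (1 / 2 : ℝ) ^ l ≤ DV P F V h (fun s v => lo s v = c) s w ∧
    DV P F V h (fun s v => lo s v = c) s w < 2 * (1 / 2 : ℝ) ^ l with hS
  set X : ℕ → Nm → ℝ := fun l ν => mx0 (S l) fun s => DV P F V h (fun s v => lo s v = c ∧ cr s v ν) s w with hX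
  have h1 : ∀ ν, mxd (rho P F V h lo cr) i c ν w ≤ ∑ l ∈ range (h + 1), (2 : ℝ) ^ l * X l ν := by
    intro ν
    obtain ⟨j, hj, e⟩ := mxd_attained (rho P F V h lo cr) i c ν w
    rw [e]
    have hnn : ∀ l ∈ range (h + 1), 0 ≤ (2 : ℝ) ^ l * X l ν := fun l _ =>
      mul_nonneg (by positivity) (mx0_nonneg _ _)
    by_cases hp : 0 < DV P F V h (fun s v => lo s v = c) j w
    · obtain ⟨l, hl, h2, h3⟩ := exists_level (DV_pos hp).1 (DV_le_one j w)
      refine le_trans ?_ (Finset.single_le_sum hnn (mem_range.2 (show l < h + 1 by omega)))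
      unfold rho
      rw [div_le_iff₀ hp]
      have hjS : j ∈ S l := by
        simp only [hS]
        rw [mem_filter, mem_range]
        exact ⟨by omega, h2, h3⟩
      have h4 : DV P F V h (fun s v => lo s v = c ∧ cr s v ν) j w ≤ X l ν :=
        le_mx0 (f := fun s => DV P F V h (fun s v => lo s v = c ∧ cr s v ν) s w) hjS
      have h5 : (2 : ℝ) ^ l * (1 / 2) ^ l = 1 := by
        rw [← mul_pow]; norm_num
      have h6 : 0 ≤ X l ν := mx0_nonneg _ _
      calc DV P F V h (fun s v => lo s v = c ∧ cr s v ν) j w ≤ 1 * X l ν := by rw [one_mul]; exact h4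
        _ = ((2 : ℝ) ^ l * (1 / 2) ^ l) * X l ν := by rw [h5]
        _ = (2 ^ l * X l ν) * (1 / 2) ^ l := by ring
        _ ≤ (2 ^ l * X l ν) * DV P F V h (fun s v => lo s v = c) j w :=
            mul_le_mul_of_nonneg_left h2 (mul_nonneg (by positivity) h6)
    · have h0 : DV P F V h (fun s v => lo s v = c) j w = 0 := le_antisymm (not_lt.1 hp) (DV_nonneg _ _)
      unfold rho
      rw [h0, div_zero]
      exact Finset.sum_nonneg hnn
  have h2 : ∀ l ∈ range (h + 1), (2 : ℝ) ^ l * ∑ ν, X l ν ≤ B / (h + 1) := by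
    intro l hl
    have hl' : l ≤ h := by have := mem_range.1 hl; omega
    have hh1 : (0 : ℝ) < h + 1 := by positivity
    rcases (S l).eq_empty_or_nonempty with he | hne'
    · have h3 : ∀ ν, X l ν = 0 := by
        intro ν
        simp only [hX, he]
        rfl
      simp only [h3, Finset.sum_const_zero, mul_zero]
      positivity
    · set t := (S l).max' hne' with ht
      have htS : t ∈ S l := Finset.max'_mem _ _
      have htS' := htS
      simp only [hS] at htS'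
      rw [mem_filter, mem_range] at htS'
      have h3 := hne l hl' t (by omega)
      unfold Hl at h3
      rw [not_and, not_lt] at h3
      have h4 := h3 htS'.2
      have h5 : ∑ ν, X l ν ≤ ∑ ν, DV P F V h (fun s v => lo s v = c ∧ cr s v ν) t w := by
        refine Finset.sum_le_sum fun ν _ => mx0_le (DV_nonneg _ _) fun s hs => ?_
        exact DV_mono (Finset.le_max' _ _ hs) w
      have h6 : (2 : ℝ) ^ l * (1 / 2) ^ l = 1 := by
        rw [← mul_pow]; norm_num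
      have h2l : (0 : ℝ) < 2 ^ l := by positivity
      rw [le_div_iff₀ hh1]
      calc (2 ^ l * ∑ ν, X l ν) * (h + 1) = 2 ^ l * ((h + 1) * ∑ ν, X l ν) := by ring
        _ ≤ 2 ^ l * ((h + 1) * ∑ ν, DV P F V h (fun s v => lo s v = c ∧ cr s v ν) t w) :=
            mul_le_mul_of_nonneg_left (mul_le_mul_of_nonneg_left h5 hh1.le) h2l.le
        _ ≤ 2 ^ l * (B * (1 / 2) ^ l) := mul_le_mul_of_nonneg_left h4 h2l.le
        _ = B * (2 ^ l * (1 / 2) ^ l) := by ring
        _ = B := by rw [h6, mul_one]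
  have h3 : ∑ ν, mxd (rho P F V h lo cr) i c ν w ≤ B := by
    refine (Finset.sum_le_sum fun ν _ => h1 ν).trans ?_
    rw [Finset.sum_comm]
    have h4 : ∀ l ∈ range (h + 1), ∑ ν, (2 : ℝ) ^ l * X l ν ≤ B / (h + 1) := by
      intro l hl
      rw [← Finset.mul_sum]
      exact h2 l hl
    refine (Finset.sum_le_sum h4).trans (le_of_eq ?_)
    rw [Finset.sum_const, Finset.card_range, nsmul_eq_mul]
    have hh1 : ((h : ℝ) + 1) ≠ 0 := by positivity
    push_cast
    field_simp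
  linarith

/-- NOTHING IS HEAVY -/
theorem heavy_near (hF : Filt F) (hV : Filt V) {T : ℕ} {K K2 : ℝ} (hK0 : 0 ≤ K) (hK2 : 0 ≤ K2) (h1 : 1 ≤ h)
    (hK : ∀ t ≤ T, ∀ u, P.p u ≠ 0 → P.Pr (fun w => nr F V t w u) ≤ K * P.m (F t) u)
    (hcmp : ∀ t ≤ T, ∀ (A : Om → Prop) (w : Om) (x : ℝ), P.p w ≠ 0 → 0 ≤ x →
      (∀ u, P.p u ≠ 0 → V t u = V t w → P.ce (F t) (fun v => ind (A v)) u ≤ x) →
      P.ce (V t) (fun v => ind (A v)) w ≤ K2 * x)
    (hb : ∀ i j v w, i ≤ j → lo i v = lo j w → lo i w = lo j w)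
    (hl : ∀ i l j w, i ≤ l → l ≤ j → lo i w = lo j w → lo l w = lo j w) {B : ℝ} (hB : 0 ≤ B) :
    B * P.Pr (fun w => ∃ i ≤ T, B < ∑ ν, mxd (rho P F V h lo cr) i (lo i w) ν w) ≤
      8 * K * K2 * h * (h + 1) ^ 2 * N1c P lo cr T := by
  classical
  set H : C → ℕ → ℕ → Om → Prop := fun c l => Hl P F V h lo cr B c l with hH
  have hHf : ∀ c l t v w, V t v = V t w → (H c l t v ↔ H c l t w) := by
    intro c l t v w hvw
    simp only [hH]
    unfold Hl
    rw [DV_fac hV t v w hvw, Finset.sum_congr rfl fun ν _ =>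
      DV_fac (P := P) (F := F) (h := h) (E := fun s v => lo s v = c ∧ cr s v ν) hV t v w hvw]
  have hsub : P.Pr (fun w => ∃ i ≤ T, B < ∑ ν, mxd (rho P F V h lo cr) i (lo i w) ν w) ≤
      ∑ c, ∑ l ∈ range (h + 1), ∑ s ∈ range (T + 1), P.Pr (fun w => fst (H c l) s w ∧ lo s w = c) := by
    refine le_trans (P.Pr_mono fun w _ => ?_) ((P.Pr_ex_le univ fun c w => ∃ l ∈ range (h + 1),
      ∃ s ∈ range (T + 1), fst (H c l) s w ∧ lo s w = c).trans (Finset.sum_le_sum fun c _ =>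
        (P.Pr_ex_le (range (h + 1)) fun l w => ∃ s ∈ range (T + 1), fst (H c l) s w ∧ lo s w = c).trans
        (Finset.sum_le_sum fun l _ => P.Pr_ex_le (range (T + 1)) _)))
    rintro ⟨i, hi, hlt⟩
    obtain ⟨l, hl', s, hs, hHl⟩ := exists_Hl hB hlt
    obtain ⟨r, hr, hf⟩ := exists_fst (A := H (lo i w) l) hHl
    refine ⟨lo i w, mem_univ _, l, mem_range.2 (by omega), r, mem_range.2 (by omega), hf, ?_⟩
    have hp : 0 < DV P F V h (fun t v => lo t v = lo i w) r w := lt_of_lt_of_le (by positivity) hf.1.1.1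
    obtain ⟨_, s', hs', v, hv⟩ := DV_pos hp
    exact ctx_back hb hl hs' (hr.trans hs) hv
  have hterm : ∀ c, ∀ l ∈ range (h + 1), B * ∑ s ∈ range (T + 1), P.Pr (fun w => fst (H c l) s w ∧ lo s w = c) ≤
      8 * K * K2 * h * (h + 1) * ∑ ν, P.Pr (fun w => ∃ s ≤ T, lo s w = c ∧ cr s w ν) := by
    intro c l hl'
    have hlh : l ≤ h := by have := mem_range.1 hl'; omega
    have hpow : (1 / 2 : ℝ) ^ h ≤ (1 / 2 : ℝ) ^ l := pow_le_pow_of_le_one (by norm_num) (by norm_num) hlh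
    have hl0 : (0 : ℝ) < (1 / 2 : ℝ) ^ l := by positivity
    have h2 : ∀ s ∈ range (T + 1), P.Pr (fun w => fst (H c l) s w ∧ lo s w = c) ≤
        K2 * (2 * (1 / 2 : ℝ) ^ l) * P.Pr (fst (H c l) s) := by
      intro s hs
      have hsT : s ≤ T := by have := mem_range.1 hs; omega
      have e1 : P.Pr (fun w => fst (H c l) s w ∧ lo s w = c) =
          P.E (fun w => ind (fst (H c l) s w) * P.ce (V s) (fun v => ind (lo s v = c)) w) := by
        rw [P.E_ind_ce (fst_fac hV (hHf c l) s)]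
        unfold FP.Pr
        exact P.E_congr fun w _ => ind_and _ _
      rw [e1]
      unfold FP.Pr
      rw [← P.E_smul]
      refine P.E_mono fun w hw => ?_
      by_cases hf : fst (H c l) s w
      · rw [ind_of hf, one_mul, mul_one]
        refine hcmp s hsT (fun v => lo s v = c) w (2 * (1 / 2 : ℝ) ^ l) hw (by positivity) fun u hu huw => ?_
        have h3 := hf.1.1.2
        by_cases hd : (1 / 2 : ℝ) ^ h ≤ den P F (fun t v => lo t v = c) s u
        · have h4 := den_le_DV (V := V) hu hd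
          rw [DV_fac hV s u w huw] at h4
          exact h4.trans h3.le
        · have h4 : den P F (fun t v => lo t v = c) s u ≤ 2 * (1 / 2 : ℝ) ^ l := by
            have := not_le.1 hd
            linarith
          exact h4
      · rw [ind_not hf, zero_mul, mul_zero]
    have h3 : ∑ s ∈ range (T + 1), P.Pr (fst (H c l) s) ≤ P.Pr (fun w => B * (1 / 2 : ℝ) ^ l <
        (h + 1) * ∑ ν, DV P F V h (fun s v => lo s v = c ∧ cr s v ν) T w) := by
      have h4 := sum_fst_le (P := P) (H c l) (fun _ _ => True) (fun w => B * (1 / 2 : ℝ) ^ l <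
        (h + 1) * ∑ ν, DV P F V h (fun s v => lo s v = c ∧ cr s v ν) T w) T (fun s hs w _ hf _ => by
          refine lt_of_lt_of_le hf.1.2 (mul_le_mul_of_nonneg_left ?_ (by positivity))
          exact Finset.sum_le_sum fun ν _ => DV_mono hs w)
      simpa using h4
    have h4 : B * (1 / 2 : ℝ) ^ l * P.Pr (fun w => B * (1 / 2 : ℝ) ^ l <
        (h + 1) * ∑ ν, DV P F V h (fun s v => lo s v = c ∧ cr s v ν) T w) ≤
        (h + 1) * ∑ ν, (4 * K * h * P.Pr (fun w => ∃ s ≤ T, lo s w = c ∧ cr s w ν)) := by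
      have h5 : B * (1 / 2 : ℝ) ^ l * P.Pr (fun w => B * (1 / 2 : ℝ) ^ l <
          (h + 1) * ∑ ν, DV P F V h (fun s v => lo s v = c ∧ cr s v ν) T w) ≤
          P.E (fun w => (h + 1) * ∑ ν, DV P F V h (fun s v => lo s v = c ∧ cr s v ν) T w) := by
        unfold FP.Pr
        rw [← P.E_smul]
        refine P.E_mono fun w _ => ?_
        have hnn : 0 ≤ ((h : ℝ) + 1) * ∑ ν, DV P F V h (fun s v => lo s v = c ∧ cr s v ν) T w :=
          mul_nonneg (by positivity) (Finset.sum_nonneg fun ν _ => DV_nonneg _ _)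
        by_cases hh : B * (1 / 2 : ℝ) ^ l < (h + 1) * ∑ ν, DV P F V h (fun s v => lo s v = c ∧ cr s v ν) T w
        · rw [ind_of hh, mul_one]; exact hh.le
        · rw [ind_not hh, mul_zero]; exact hnn
      refine h5.trans ?_
      rw [P.E_smul, P.E_sum]
      refine mul_le_mul_of_nonneg_left (Finset.sum_le_sum fun ν _ => ?_) (by positivity)
      exact (P.E_mono fun w _ => DV_le_DP T w).trans
        (E_DP_le (E := fun s v => lo s v = c ∧ cr s v ν) hF hV hK0 h1 hK)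
    calc B * ∑ s ∈ range (T + 1), P.Pr (fun w => fst (H c l) s w ∧ lo s w = c)
        ≤ B * ∑ s ∈ range (T + 1), K2 * (2 * (1 / 2 : ℝ) ^ l) * P.Pr (fst (H c l) s) :=
          mul_le_mul_of_nonneg_left (Finset.sum_le_sum h2) hB
      _ = 2 * K2 * (B * (1 / 2 : ℝ) ^ l * ∑ s ∈ range (T + 1), P.Pr (fst (H c l) s)) := by
          rw [← Finset.mul_sum]; ring
      _ ≤ 2 * K2 * ((h + 1) * ∑ ν, (4 * K * h * P.Pr (fun w => ∃ s ≤ T, lo s w = c ∧ cr s w ν))) := by
          refine mul_le_mul_of_nonneg_left ?_ (by positivity)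
          exact (mul_le_mul_of_nonneg_left h3 (by positivity)).trans h4
      _ = 8 * K * K2 * h * (h + 1) * ∑ ν, P.Pr (fun w => ∃ s ≤ T, lo s w = c ∧ cr s w ν) := by
          rw [← Finset.mul_sum]; ring
  refine (mul_le_mul_of_nonneg_left hsub hB).trans ?_
  unfold N1c
  rw [Finset.mul_sum, Finset.mul_sum]
  refine Finset.sum_le_sum fun c _ => ?_
  rw [Finset.mul_sum]
  refine (Finset.sum_le_sum (hterm c)).trans (le_of_eq ?_)
  rw [Finset.sum_const, Finset.card_range, nsmul_eq_mul]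
  push_cast
  ring

end ctx

end

end Pool.Agent.GMN
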