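import Pool.Agent.GMN.Cross

/-!
# GMN.Start (row N, 4.2): virtual runs and start times

`M` = machine of one individual, `A` = allowed sets of the ACTUAL run, `s` = a reference.
`endM s t` : a stretch `ON and not allowed` of `s` ends at time `t`; `nE s i` = number of ends at times `< i`.
VIRTUAL RUN `(s, i0)` : allowed sets `vA s i0`, i.e. `A`, and `s` from the first time `i` with `i0 ≤ nE s i` on;
it is STARTED at the end of time `i` if `i0 ≤ nE s (i + 1)`.

* `mic_vA_before` : before it is started the virtual run is the actual run;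
* `off_of_started` : if it is started at the end of time `i`, `s` is not ON there;
* `mic_vA_agree` : if there is no moment critical for `s` from time `e` on, the actual run is the virtual run
  `(s, nE s (e + 1))`, for ever, and this run is started at the end of time `e`.
-/

set_option autoImplicit false
set_option linter.unusedSectionVars false

namespace Pool.Agent.GMN

open Finset Pool.Agent.PWZ Pool.Agent.M3

noncomputable section

variable {R S : Type*} [Fintype R] [LinearOrder R]

namespace Mach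

variable (M : Mach R S) (A : ℕ → R → Prop) (N : ℕ) (s : R)

/-- a stretch `ON and not allowed` of `s` ends at time `t` -/
def endM (t : ℕ) : Prop :=
  ¬ M.oa A N s t N ∧ ((∃ j, j + 1 = t ∧ M.oa A N s j N) ∨ ∃ l ≤ N, M.oa A N s t l)

open Classical in
/-- number of ends at times `< i` -/
def nE (i : ℕ) : ℕ := ((range i).filter fun t => M.endM A N s t).card

/-- allowed sets of the virtual run `(s, i0)` -/
def vA (i0 : ℕ) (i : ℕ) (r : R) : Prop := A i r ∨ (r = s ∧ i0 ≤ M.nE A N s i)

variable {M A N s}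

theorem nE_zero : M.nE A N s 0 = 0 := by
  unfold nE
  simp

theorem nE_mono {i j : ℕ} (h : i ≤ j) : M.nE A N s i ≤ M.nE A N s j := by
  classical
  unfold nE
  exact Finset.card_le_card (Finset.filter_subset_filter _ (Finset.range_mono h))

open Classical in
theorem nE_succ (i : ℕ) : M.nE A N s (i + 1) = M.nE A N s i + if M.endM A N s i then 1 else 0 := by
  unfold nE
  rw [Finset.range_add_one, Finset.filter_insert]
  split_ifs with h
  · rw [Finset.card_insert_of_notMem]
    simp
  · simp

theorem nE_le (i : ℕ) : M.nE A N s i ≤ i := by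
  classical
  unfold nE
  exact (Finset.card_filter_le _ _).trans (by simp)

/-- no end in `[i, j)` if the number is the same -/
theorem not_end_of_eq {i j t : ℕ} (h : M.nE A N s j ≤ M.nE A N s i) (hi : i ≤ t) (hj : t < j) : ¬ M.endM A N s t := by
  classical
  intro he
  have h1 := nE_succ (M := M) (A := A) (N := N) (s := s) t
  rw [if_pos he] at h1
  have h2 := nE_mono (M := M) (A := A) (N := N) (s := s) hi
  have h3 := nE_mono (M := M) (A := A) (N := N) (s := s) (show t + 1 ≤ j by omega)
  omega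

theorem le_vA {i0 i : ℕ} {r : R} (h : A i r) : M.vA A N s i0 i r := Or.inl h

theorem vA_ne {i0 i : ℕ} {r : R} (h : r ≠ s) (hv : M.vA A N s i0 i r) : A i r := by
  rcases hv with h1 | ⟨h1, -⟩
  · exact h1
  · exact absurd h1 h

theorem vA_mono {i0 : ℕ} (hA : ∀ i r, A i r → A (i + 1) r) (i : ℕ) {r : R} (h : M.vA A N s i0 i r) :
    M.vA A N s i0 (i + 1) r := by
  rcases h with h1 | ⟨h1, h2⟩
  · exact Or.inl (hA i r h1)
  · exact Or.inr ⟨h1, h2.trans (nE_mono (Nat.le_succ i))⟩

/-- the run `i0 = 0` allows `s` at all times -/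
theorem vA_zero (i : ℕ) : M.vA A N s 0 i s := Or.inr ⟨rfl, Nat.zero_le _⟩

/-- before it is started the virtual run is the actual run -/
theorem mic_vA_before {i0 i : ℕ} (h : M.nE A N s i < i0) (k : ℕ) :
    M.mic (M.vA A N s i0) N i k = M.mic A N i k := by
  refine mic_eq_of_agree i (fun j hj r => ?_) k
  constructor
  · rintro (h1 | ⟨-, h2⟩)
    · exact h1
    · have := nE_mono (M := M) (A := A) (N := N) (s := s) hj
      omega
  · exact Or.inl

theorem pk_vA_before {i0 i : ℕ} (h : M.nE A N s i < i0) (k : ℕ) :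
    M.pk (M.vA A N s i0) N i k = M.pk A N i k := by
  refine pk_congr i rfl (fun _ _ => rfl) (fun _ _ => rfl) (fun _ _ => rfl) (fun j hj => funext fun r => propext ?_) k
  constructor
  · rintro (h1 | ⟨-, h2⟩)
    · exact h1
    · have := nE_mono (M := M) (A := A) (N := N) (s := s) hj
      omega
  · exact Or.inl

/-- if the virtual run is started at the end of time `i`, `s` is not ON there -/
theorem off_of_started {i0 i : ℕ} (hT : M.pk (M.vA A N s i0) N i N = none) (h : i0 ≤ M.nE A N s (i + 1)) :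
    ¬ M.on i (M.mic (M.vA A N s i0) N i N) s := by
  classical
  intro hon
  unfold pk at hT
  have h1 := pick_none.1 hT s hon
  have h2 : M.nE A N s i < i0 := by
    by_contra hc
    exact h1 (Or.inr ⟨rfl, not_lt.1 hc⟩)
  have h3 : ¬ A i s := fun h => h1 (Or.inl h)
  have h4 : M.endM A N s i := by
    by_contra hc
    have := nE_succ (M := M) (A := A) (N := N) (s := s) i
    rw [if_neg hc] at this
    omega
  rw [mic_vA_before h2] at hon
  exact h4.1 ⟨hon, h3⟩

/-- all other allowed references are not ON at the end of a time -/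
theorem off_of_allowed {B : ℕ → R → Prop} {i : ℕ} (hT : M.pk B N i N = none) {r : R} (h : B i r) :
    ¬ M.on i (M.mic B N i N) r := by
  intro hon
  unfold pk at hT
  exact pick_none.1 hT r hon h

/-- **START TIMES**: no critical moment from time `e` on -/
theorem no_crit {T e : ℕ} (heT : e ≤ T) (hterm : ∀ i ≤ T, M.pk A N i N = none)
    (hno : ∀ i, e ≤ i → i ≤ T → ∀ l ≤ N, ¬ M.Crit A N s i l) {j : ℕ} (hj : j ≤ T) {l : ℕ} (hl : l ≤ N) :
    ¬ (M.Crit A N s j l ∧ M.vA A N s (M.nE A N s (e + 1)) j s) := by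
  rintro ⟨hc, hv⟩
  rcases hv with h1 | ⟨-, h1⟩
  · exact hc.2.1 h1
  · rcases Nat.lt_or_ge j e with hje | hje
    · -- no end in `[j, e]`
      have hne : ∀ t, j ≤ t → t ≤ e → ¬ M.endM A N s t := fun t h2 h3 => not_end_of_eq h1 h2 (by omega)
      have hge : ∀ t, j ≤ t → t ≤ e → M.oa A N s t N := by
        intro t ht
        induction t, ht using Nat.le_induction with
        | base =>
          intro h2
          by_contra hn
          exact hne j le_rfl h2 ⟨hn, Or.inr ⟨l, hl, hc.oa⟩⟩
        | succ t ht ih =>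
          intro h2
          by_contra hn
          exact hne (t + 1) (by omega) h2 ⟨hn, Or.inl ⟨t, rfl, ih (by omega)⟩⟩
      exact hno e le_rfl heT N le_rfl (crit_of_idle (hge e hje.le le_rfl) (hterm e heT))
    · exact hno j hje hj l hl hc

/-- **START TIMES**: the actual run is the virtual run `(s, nE (e + 1))` -/
theorem mic_vA_agree {T e : ℕ} (heT : e ≤ T) (hterm : ∀ i ≤ T, M.pk A N i N = none)
    (hno : ∀ i, e ≤ i → i ≤ T → ∀ l ≤ N, ¬ M.Crit A N s i l) {i : ℕ} (hi : i ≤ T) {k : ℕ} (hk : k ≤ N) :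
    M.mic (M.vA A N s (M.nE A N s (e + 1))) N i k = M.mic A N i k := by
  refine mic_eq (s := s) (fun i r => Or.inl) (fun i r hr hv => vA_ne hr hv) i k hk fun j l h => ?_
  refine no_crit heT hterm hno (j := j) ?_ ?_
  · rcases h with ⟨h1, -⟩ | ⟨h1, -⟩ <;> omega
  · rcases h with ⟨-, h1⟩ | ⟨-, h1⟩ <;> omega

theorem pk_vA_agree {T e : ℕ} (heT : e ≤ T) (hterm : ∀ i ≤ T, M.pk A N i N = none)
    (hno : ∀ i, e ≤ i → i ≤ T → ∀ l ≤ N, ¬ M.Crit A N s i l) {i : ℕ} (hi : i ≤ T) {k : ℕ} (hk : k ≤ N) :
    M.pk (M.vA A N s (M.nE A N s (e + 1))) N i k = M.pk A N i k := by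
  unfold pk
  rw [mic_vA_agree heT hterm hno hi hk]
  refine pick_eq (s := s) (fun r => Or.inl) (fun r hr hv => vA_ne hr hv) fun hc => ?_
  exact no_crit heT hterm hno hi hk ⟨⟨hc.1, hc.2.1, hc.2.2.1⟩, hc.2.2.2⟩

/-! ### the number of ends depends only on the past -/

theorem oa_congr {M' : Mach R S} {A' : ℕ → R → Prop} (i : ℕ) (hz : M.z = M'.z)
    (h1 : ∀ j ≤ i, M.ev j = M'.ev j) (h2 : ∀ j ≤ i, M.us j = M'.us j) (h3 : ∀ j ≤ i, M.on j = M'.on j)
    (h4 : ∀ j ≤ i, A j = A' j) (s : R) (k : ℕ) : M.oa A N s i k ↔ M'.oa A' N s i k := by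
  unfold oa
  rw [mic_congr i hz h1 h2 h3 h4 k, h3 i le_rfl, h4 i le_rfl]

theorem endM_congr {M' : Mach R S} {A' : ℕ → R → Prop} (t : ℕ) (hz : M.z = M'.z)
    (h1 : ∀ j ≤ t, M.ev j = M'.ev j) (h2 : ∀ j ≤ t, M.us j = M'.us j) (h3 : ∀ j ≤ t, M.on j = M'.on j)
    (h4 : ∀ j ≤ t, A j = A' j) (s : R) : M.endM A N s t ↔ M'.endM A' N s t := by
  unfold endM
  refine and_congr (not_congr (oa_congr t hz h1 h2 h3 h4 s N)) (or_congr ?_ ?_)
  · refine exists_congr fun j => and_congr_right fun hj => ?_
    exact oa_congr j hz (fun i hi => h1 i (by omega)) (fun i hi => h2 i (by omega)) (fun i hi => h3 i (by omega))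
      (fun i hi => h4 i (by omega)) s N
  · exact exists_congr fun l => and_congr_right fun _ => oa_congr t hz h1 h2 h3 h4 s l

theorem nE_congr {M' : Mach R S} {A' : ℕ → R → Prop} (i : ℕ) (hz : M.z = M'.z)
    (h1 : ∀ j < i, M.ev j = M'.ev j) (h2 : ∀ j < i, M.us j = M'.us j) (h3 : ∀ j < i, M.on j = M'.on j)
    (h4 : ∀ j < i, A j = A' j) (s : R) : M.nE A N s i = M'.nE A' N s i := by
  classical
  unfold nE
  congr 1
  refine Finset.filter_congr fun t ht => ?_
  have ht' := mem_range.1 ht
  exact endM_congr t hz (fun j hj => h1 j (by omega)) (fun j hj => h2 j (by omega)) (fun j hj => h3 j (by omega))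
    (fun j hj => h4 j (by omega)) s

end Mach

/-! ### adapted -/

section fac

variable {Om : Type*} {κ : ℕ → Type*} {K : ∀ t, Om → κ t} {M : Om → Mach R S} {A : ℕ → Om → R → Prop} {N : ℕ}

theorem nE_fac (hK : Filt K) (hM : MFac K M) (hA : ∀ i, Fac (K i) (A i)) (s : R) (i : ℕ) :
    Fac (K i) fun w => (M w).nE (fun j => A j w) N s (i + 1) := by
  intro v w h
  exact Mach.nE_congr (i + 1) (hM.z v w) (fun j hj => hM.ev j v w (hK.le (by omega) v w h))
    (fun j hj => hM.us j v w (hK.le (by omega) v w h)) (fun j hj => hM.on j v w (hK.le (by omega) v w h))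
    (fun j hj => hA j v w (hK.le (by omega) v w h)) s

theorem nE_fac' (hK : Filt K) (hM : MFac K M) (hA : ∀ i, Fac (K i) (A i)) (s : R) (i : ℕ) :
    Fac (K i) fun w => (M w).nE (fun j => A j w) N s i := by
  intro v w h
  exact Mach.nE_congr i (hM.z v w) (fun j hj => hM.ev j v w (hK.le (by omega) v w h))
    (fun j hj => hM.us j v w (hK.le (by omega) v w h)) (fun j hj => hM.on j v w (hK.le (by omega) v w h))
    (fun j hj => hA j v w (hK.le (by omega) v w h)) s

theorem vA_fac (hK : Filt K) (hM : MFac K M) (hA : ∀ i, Fac (K i) (A i)) (s : R) (i0 i : ℕ) :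
    Fac (K i) fun w => (M w).vA (fun j => A j w) N s i0 i := by
  intro v w h
  funext r
  apply propext
  have e1 : (fun j => A j v) i = (fun j => A j w) i := hA i v w h
  have e2 := nE_fac' (N := N) hK hM hA s i v w h
  simp only at e1 e2
  unfold Mach.vA
  beta_reduce
  rw [e1, e2]

variable [Fintype Om] {P : FP Om} {T : ℕ}

/-- mean number of ends -/
theorem E_nE {s : R} {c : ℝ} (hends : ∑ t ∈ Icc 0 T, P.Pr (fun w => (M w).endM (fun j => A j w) N s t) ≤ c) :
    P.E (fun w => ((M w).nE (fun j => A j w) N s (T + 1) : ℝ)) ≤ c := by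
  classical
  refine le_trans (le_of_eq ?_) hends
  unfold FP.Pr
  rw [← P.E_sum]
  refine P.E_congr fun w _ => ?_
  unfold Mach.nE
  rw [Finset.card_filter]
  push_cast
  rw [Finset.range_eq_Ico]
  have : Ico 0 (T + 1) = Icc 0 T := by
    ext t
    simp only [mem_Ico, mem_Icc]
    omega
  rw [this]
  refine Finset.sum_congr rfl fun t _ => ?_
  by_cases h : (M w).endM (fun j => A j w) N s t
  · rw [if_pos h, ind_of h]
  · rw [if_neg h, ind_not h]

end fac

end

end Pool.Agent.GMN
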