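import Pool.Agent.GMN.TjPar

/-!
# GMN/TjArith (helper14): the numbers of the induction step of Lemma T_j exist
-/

set_option autoImplicit false

namespace Pool.Agent.GMN

open Finset

theorem tj_num (m C0 C1 : ℕ) (hm : 1 ≤ m) : ∃ C : ℕ, ∀ β H K : ℝ, 0 < β → β ≤ 1 / 2 → 1 / β ≤ H → 1 ≤ K → K ≤ Real.exp H →
    ∃ (βs Hs β1 H1 e θ X : ℝ) (N : ℕ) (Y : ℕ → ℝ), SNumA C0 C1 C β H K βs Hs β1 H1 e θ ∧
      SNumB m C1 C β H K Hs β1 H1 e θ X βs N Y := by
  obtain ⟨p, hp⟩ : ∃ p : ℕ, 16 * m ≤ 2 ^ p := ⟨16 * m, Nat.lt_two_pow_self.le⟩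
  have hpR : (16 : ℝ) * m ≤ 2 ^ p := by exact_mod_cast hp
  have hmR : (1 : ℝ) ≤ m := by exact_mod_cast hm
  obtain ⟨x, hx⟩ : ∃ x : ℕ, x = (p + 1) * 2 ^ m := ⟨_, rfl⟩
  obtain ⟨s, hs⟩ : ∃ s : ℕ, s = x + 3 := ⟨_, rfl⟩
  obtain ⟨c, hc⟩ : ∃ c : ℕ, c = s * C0 := ⟨_, rfl⟩
  obtain ⟨a, ha⟩ : ∃ a : ℕ, a = s + 2 * c + p + 9 := ⟨_, rfl⟩
  obtain ⟨b1, hb1⟩ : ∃ b1 : ℕ, b1 = 5 + c + x + p := ⟨_, rfl⟩
  obtain ⟨u, hu⟩ : ∃ u : ℕ, u = 12 + 2 * p + 2 * c := ⟨_, rfl⟩
  obtain ⟨n, hn⟩ : ∃ n : ℕ, n = u + a * C0 + 5 := ⟨_, rfl⟩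
  obtain ⟨h, hh⟩ : ∃ h : ℕ, h = b1 + n + p + 5 := ⟨_, rfl⟩
  obtain ⟨C, hC⟩ : ∃ C : ℕ, C = c + b1 * C1 + a * C0 + h * C1 + p + 2 := ⟨_, rfl⟩
  refine ⟨C, fun β H K hβ hβ2 hβH hK1 hKH => ?_⟩
  -- b = 1 / β
  set b : ℝ := β⁻¹ with hb
  have hbpos : 0 < b := inv_pos.2 hβ
  have hβb : β * b = 1 := mul_inv_cancel₀ hβ.ne'
  have hb2 : 2 ≤ b := by
    rw [hb]
    rw [show (2 : ℝ) = (1 / 2)⁻¹ by norm_num]
    exact inv_anti₀ hβ hβ2
  have hbH : b ≤ H := by
    rw [hb, ← one_div]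
    exact hβH
  have hH2 : 2 ≤ H := hb2.trans hbH
  have hH1 : 1 ≤ H := by linarith
  have hb1' : 1 ≤ b := by linarith
  have hH0 : 0 < H := by linarith
  have pH : ∀ {i j : ℕ}, i ≤ j → H ^ i ≤ H ^ j := fun h => pow_le_pow_right₀ hH1 h
  have p2 : ∀ i : ℕ, (2 : ℝ) ^ i ≤ H ^ i := fun i => pow_le_pow_left₀ (by norm_num) hH2 i
  have pb : ∀ i : ℕ, b ^ i ≤ H ^ i := fun i => pow_le_pow_left₀ hbpos.le hbH i
  have p2b : ∀ i : ℕ, (2 : ℝ) ^ i ≤ b ^ i := fun i => pow_le_pow_left₀ (by norm_num) hb2 i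
  have pHpos : ∀ i : ℕ, 0 < H ^ i := fun i => pow_pos hH0 i
  have pH1 : ∀ i : ℕ, 1 ≤ H ^ i := fun i => one_le_pow₀ hH1
  have pbpos : ∀ i : ℕ, 0 < b ^ i := fun i => pow_pos hbpos i
  have pβ : ∀ i : ℕ, β ^ i * b ^ i = 1 := fun i => by rw [← mul_pow, hβb, one_pow]
  have pβpos : ∀ i : ℕ, 0 < β ^ i := fun i => pow_pos hβ i
  have pβinv : ∀ i : ℕ, 1 / β ^ i = b ^ i := fun i => by
    rw [div_eq_iff (pβpos i).ne', mul_comm]
    exact (pβ i).symm
  have pβle : ∀ {i j : ℕ}, i ≤ j → β ^ j ≤ β ^ i := fun h => pow_le_pow_of_le_one hβ.le (by linarith) h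
  have pβ2 : ∀ i : ℕ, β ^ i ≤ (1 / 2) ^ i := fun i => pow_le_pow_left₀ hβ.le hβ2 i
  have hmp : (16 : ℝ) * m ≤ H ^ p := hpR.trans (p2 p)
  have hmb : (16 : ℝ) * m ≤ b ^ p := hpR.trans (p2b p)
  -- the numbers
  set e : ℝ := β ^ c with he
  have he0 : 0 < e := pβpos c
  have he1 : e ≤ 1 := pow_le_one₀ hβ.le (by linarith)
  have hieq : 1 / e ^ 2 = b ^ (2 * c) := by
    rw [he, ← pow_mul, pβinv, mul_comm c 2]
  have hie : 1 / e ^ 2 ≤ H ^ (2 * c) := by
    rw [hieq]
    exact pb _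
  have hie1 : 1 ≤ 1 / e ^ 2 := by
    rw [hieq]
    exact one_le_pow₀ hb1'
  set Hs : ℝ := H ^ a with hHs
  have hHs1 : 1 ≤ Hs := pH1 a
  have h101 : 100 / e ^ 2 + 1 ≤ H ^ (2 * c + 7) := by
    have e1 : 100 / e ^ 2 + 1 ≤ 2 ^ 7 * (1 / e ^ 2) := by
      have : 100 / e ^ 2 = 100 * (1 / e ^ 2) := by ring
      rw [this]
      nlinarith
    refine e1.trans ?_
    rw [pow_add, mul_comm (H ^ (2 * c))]
    exact mul_le_mul (p2 7) hie (by positivity) (pHpos 7).le
  have hmH : ((m : ℝ) + 4) * H ≤ Hs := by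
    have e1 : (m : ℝ) + 4 ≤ H ^ p := by linarith
    calc ((m : ℝ) + 4) * H ≤ H ^ p * H ^ 1 := by
          rw [pow_one]
          exact mul_le_mul_of_nonneg_right e1 hH0.le
      _ = H ^ (p + 1) := (pow_add H p 1).symm
      _ ≤ H ^ a := pH (by omega)
  set θ : ℝ := Real.exp (-Hs ^ C0) / 2 with hθ
  have hθ0 : 0 < θ := by positivity
  set β1 : ℝ := β ^ b1 with hβ1
  have hn1 : 1 ≤ n := by omega
  set N : ℕ := ⌈Real.exp (H ^ n)⌉₊ with hN
  have hNge : Real.exp (H ^ n) ≤ N := Nat.le_ceil _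
  have hNpos : (0 : ℝ) < N := (Real.exp_pos _).trans_le hNge
  have hNle : (N : ℝ) ≤ Real.exp (H ^ n + 1) := by
    have e1 : (N : ℝ) < Real.exp (H ^ n) + 1 := Nat.ceil_lt_add_one (Real.exp_pos _).le
    have e2 : 1 ≤ Real.exp (H ^ n) := Real.one_le_exp (pHpos n).le
    have e3 : (2 : ℝ) ≤ Real.exp 1 := by
      have := Real.add_one_le_exp (1 : ℝ)
      linarith
    rw [Real.exp_add]
    nlinarith [Real.exp_pos (H ^ n)]
  set H1 : ℝ := H ^ h with hH1d
  have hC1 : ∀ i j : ℕ, (H ^ i) ^ j = H ^ (i * j) := fun i j => (pow_mul H i j).symm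
  -- `Y`
  set q : ℝ := b ^ (p + 1) with hq
  have hq1 : 1 ≤ q := one_le_pow₀ hb1'
  have hq0 : 0 < q := by linarith
  have hqm : 16 * m * b ≤ q := by
    rw [hq, pow_succ]
    exact mul_le_mul_of_nonneg_right hmb hbpos.le
  set Y : ℕ → ℝ := fun i => q ^ (2 ^ i) with hY
  have hYprod : ∀ i, (∏ j ∈ range i, Y j) * q = q ^ (2 ^ i) := by
    intro i
    induction i with
    | zero => simp
    | succ i ih =>
      rw [prod_range_succ, mul_right_comm, ih, hY, ← pow_add]
      congr 1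
      rw [pow_succ]
      ring
  have hY1 : ∀ i, 1 ≤ Y i := fun i => one_le_pow₀ hq1
  have hY0 : ∀ i, 0 < Y i := fun i => by linarith [hY1 i]
  set X : ℝ := b ^ x with hX
  have hXq : X = q ^ (2 ^ m) := by
    rw [hX, hx, hq, ← pow_mul]
  have hX0 : 0 < X := pbpos x
  have h5 : (5 : ℕ) ≤ h := by omega
  refine ⟨β ^ s, Hs, β1, H1, e, θ, X, N, Y, ?_, ?_⟩
  · refine
      { bs0 := pβpos s, bs2 := ?_, bsH := ?_, KHs := ?_, Cs := ?_, b10 := pβpos b1, b12 := ?_, b1H := ?_, KH1 := ?_,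
        C1' := ?_, e0 := he0, e1 := he1, es := ?_, th0 := hθ0, th2 := ?_, mv1 := ?_, mv2 := ?_, eH := ?_, eH1 := ?_,
        HH1 := ?_ }
    · exact (pβle (show 1 ≤ s by omega)).trans (by rwa [pow_one])
    · rw [pβinv]
      exact (pb s).trans (pH (by omega))
    · exact hKH.trans (Real.exp_le_exp.2 (by simpa using pH (show 1 ≤ a by omega)))
    · rw [← pow_mul, ← hc]
      exact pβle (by omega)
    · exact (pβle (show 1 ≤ b1 by omega)).trans (by rwa [pow_one])
    · rw [hβ1, pβinv]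
      exact (pb b1).trans (pH (by omega))
    · exact hKH.trans (Real.exp_le_exp.2 (by simpa using pH (show 1 ≤ h by omega)))
    · rw [hβ1, ← pow_mul]
      exact pβle (by omega)
    · rw [he, hc, pow_mul]
    · rw [hθ]
      linarith
    · exact h101.trans (pH (by omega))
    · refine le_trans ?_ hmH
      nlinarith
    · refine Real.exp_le_exp.2 (neg_le_neg ?_)
      rw [hHs, hC1]
      exact pH (by omega)
    · refine Real.exp_le_exp.2 (neg_le_neg ?_)
      rw [hH1d, hC1]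
      exact pH (by omega)
    · simpa using pH (show 1 ≤ h by omega)
  · have hexpu : ∀ {r : ℝ}, r ≤ H ^ u → r ≤ Real.exp (H ^ u) := fun {r} hr => by
      have := Real.add_one_le_exp (H ^ u)
      linarith
    have hsum : H ^ u + 3 * H + H ^ (a * C0) ≤ H ^ n := by
      have e1 : H ^ u ≤ H ^ (u + a * C0 + 2) := pH (by omega)
      have e2 : H ^ 1 ≤ H ^ (u + a * C0 + 2) := pH (by omega)
      have e3 : H ^ (a * C0) ≤ H ^ (u + a * C0 + 2) := pH (by omega)
      have e4 : H ^ n = H ^ (u + a * C0 + 2) * H ^ 3 := by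
        rw [← pow_add]
        congr 1
      have e5 : (8 : ℝ) ≤ H ^ 3 := by
        have := p2 3
        norm_num at this
        exact this
      rw [pow_one] at e2
      rw [e4]
      nlinarith [pHpos (u + a * C0 + 2)]
    have hiθ : 1 / θ = 2 * Real.exp (H ^ (a * C0)) := by
      rw [hθ, Real.exp_neg, ← hC1, ← hHs]
      field_simp
    have hmm : (m : ℝ) ≤ H ^ p := by linarith
    have hexp4 : Real.exp (-H) / 4 * (4 * Real.exp H) = 1 := by
      rw [Real.exp_neg]
      field_simp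
    refine
      { N0 := ?_, p1 := ?_, p2 := ?_, p3 := ?_, p4 := ?_, cZ := ?_, cK := ?_, cC := ?_, Y1 := hY1, X0 := hX0.le,
        YX := ?_, Y4 := ?_, a1 := ?_, a2 := ?_ }
    · exact_mod_cast hNpos
    · -- p1
      have e1 : (m : ℝ) * Real.exp H * (m * (K * (100 / (e ^ 2 * θ))) / N) =
          (m * m * K * 100 * (1 / e ^ 2) * (1 / θ) * Real.exp H) / N := by
        field_simp
      rw [e1, div_le_iff₀ hNpos, hiθ]
      have e2 : (m : ℝ) * m * 100 * (1 / e ^ 2) * 8 ≤ H ^ u := by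
        have : (m : ℝ) * m * 100 * (1 / e ^ 2) * 8 ≤ H ^ p * H ^ p * 2 ^ 7 * H ^ (2 * c) * 2 ^ 3 := by
          gcongr
          norm_num
          norm_num
        refine this.trans ?_
        calc H ^ p * H ^ p * 2 ^ 7 * H ^ (2 * c) * 2 ^ 3 ≤ H ^ p * H ^ p * H ^ 7 * H ^ (2 * c) * H ^ 3 := by
              gcongr
          _ = H ^ (p + p + 7 + 2 * c + 3) := by ring
          _ ≤ H ^ u := pH (by omega)
      have e3 : (m : ℝ) * m * 100 * (1 / e ^ 2) * 8 * (K * (Real.exp H * Real.exp H * Real.exp (H ^ (a * C0)))) ≤ N := by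
        refine le_trans ?_ hNge
        calc (m : ℝ) * m * 100 * (1 / e ^ 2) * 8 * (K * (Real.exp H * Real.exp H * Real.exp (H ^ (a * C0))))
            ≤ Real.exp (H ^ u) * (Real.exp H * (Real.exp H * Real.exp H * Real.exp (H ^ (a * C0)))) :=
              mul_le_mul (hexpu e2) (mul_le_mul_of_nonneg_right hKH (by positivity)) (by positivity) (by positivity)
          _ = Real.exp (H ^ u + 3 * H + H ^ (a * C0)) := by
              rw [← Real.exp_add, ← Real.exp_add, ← Real.exp_add, ← Real.exp_add]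
              congr 1
              ring
          _ ≤ Real.exp (H ^ n) := Real.exp_le_exp.2 hsum
      calc (m : ℝ) * m * K * 100 * (1 / e ^ 2) * (2 * Real.exp (H ^ (a * C0))) * Real.exp H
          = Real.exp (-H) / 4 * (4 * Real.exp H) * ((m : ℝ) * m * K * 100 * (1 / e ^ 2) * (2 * Real.exp (H ^ (a * C0))) * Real.exp H) := by
            rw [hexp4, one_mul]
        _ = Real.exp (-H) / 4 * ((m : ℝ) * m * 100 * (1 / e ^ 2) * 8 * (K * (Real.exp H * Real.exp H * Real.exp (H ^ (a * C0))))) := by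
            ring
        _ ≤ Real.exp (-H) / 4 * N := mul_le_mul_of_nonneg_left e3 (by positivity)
    · -- p2
      have e1 : (m : ℝ) * Real.exp H * ((100 / e ^ 2 + 1) / N) = (m * (100 / e ^ 2 + 1) * Real.exp H) / N := by
        field_simp
      rw [e1, div_le_iff₀ hNpos]
      have e2 : (m : ℝ) * (100 / e ^ 2 + 1) * 4 ≤ H ^ u := by
        have : (m : ℝ) * (100 / e ^ 2 + 1) * 4 ≤ H ^ p * H ^ (2 * c + 7) * H ^ 2 := by
          gcongr
          nlinarith
        refine this.trans ?_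
        rw [← pow_add, ← pow_add]
        exact pH (by omega)
      have e3 : (m : ℝ) * (100 / e ^ 2 + 1) * 4 * (Real.exp H * Real.exp H) ≤ N := by
        refine le_trans ?_ hNge
        calc (m : ℝ) * (100 / e ^ 2 + 1) * 4 * (Real.exp H * Real.exp H)
            ≤ Real.exp (H ^ u) * (Real.exp H * Real.exp H) := mul_le_mul_of_nonneg_right (hexpu e2) (by positivity)
          _ = Real.exp (H ^ u + 2 * H) := by
              rw [← Real.exp_add, ← Real.exp_add]
              congr 1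
              ring
          _ ≤ Real.exp (H ^ n) := Real.exp_le_exp.2 (by linarith [pHpos (a * C0)])
      calc (m : ℝ) * (100 / e ^ 2 + 1) * Real.exp H
          = Real.exp (-H) / 4 * (4 * Real.exp H) * ((m : ℝ) * (100 / e ^ 2 + 1) * Real.exp H) := by
            rw [hexp4, one_mul]
        _ = Real.exp (-H) / 4 * ((m : ℝ) * (100 / e ^ 2 + 1) * 4 * (Real.exp H * Real.exp H)) := by
            ring
        _ ≤ Real.exp (-H) / 4 * N := mul_le_mul_of_nonneg_left e3 (by positivity)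
    · -- p3
      have e1 : H + 4 * m ≤ H1 := by
        have e2 : H * (1 + 4 * m) ≤ H * H ^ p := mul_le_mul_of_nonneg_left (by linarith) hH0.le
        have e3 : H * H ^ p ≤ H1 := by
          rw [hH1d, ← pow_succ']
          exact pH (by omega)
        nlinarith
      have e2 : 4 * (m : ℝ) ≤ Real.exp (4 * m) := by
        have := Real.add_one_le_exp (4 * (m : ℝ))
        linarith
      have e3 : Real.exp (-H1) ≤ Real.exp (-H) * Real.exp (-(4 * m)) := by
        rw [← Real.exp_add]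
        exact Real.exp_le_exp.2 (by linarith)
      have e4 : Real.exp (-(4 * (m : ℝ))) * Real.exp (4 * m) = 1 := by
        rw [← Real.exp_add]
        simp
      have e5 : (m : ℝ) * Real.exp (-(4 * m)) ≤ 1 / 4 := by
        have e6 := mul_le_mul_of_nonneg_left e2 (Real.exp_pos (-(4 * (m : ℝ)))).le
        rw [e4] at e6
        linarith
      calc (m : ℝ) * Real.exp (-H1) ≤ m * (Real.exp (-H) * Real.exp (-(4 * m))) := by gcongr
        _ = Real.exp (-H) * (m * Real.exp (-(4 * m))) := by ring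
        _ ≤ Real.exp (-H) * (1 / 4) := mul_le_mul_of_nonneg_left e5 (Real.exp_pos _).le
        _ = Real.exp (-H) / 4 := by ring
    · -- p4
      have e0 : (4 : ℝ) ≤ Real.exp 2 := by
        have e1 : (2 : ℝ) ≤ Real.exp 1 := by
          have := Real.add_one_le_exp (1 : ℝ)
          linarith
        have e2 : Real.exp 2 = Real.exp 1 * Real.exp 1 := by
          rw [← Real.exp_add]
          norm_num
        rw [e2]
        nlinarith
      have e1 : Real.exp H * Real.exp H ^ m * Real.exp (-Hs) = Real.exp (H + m * H - Hs) := by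
        rw [← Real.exp_nat_mul, ← Real.exp_add, ← Real.exp_add]
        congr 1
      rw [e1, le_div_iff₀ (by norm_num : (0 : ℝ) < 4)]
      calc Real.exp (H + m * H - Hs) * 4 ≤ Real.exp (H + m * H - Hs) * Real.exp 2 :=
            mul_le_mul_of_nonneg_left e0 (Real.exp_pos _).le
        _ = Real.exp (H + m * H - Hs + 2) := (Real.exp_add _ _).symm
        _ ≤ Real.exp (-H) := Real.exp_le_exp.2 (by nlinarith)
    · -- cZ
      have e1 : Real.exp H * N * Real.exp H * N ≤ Real.exp H * Real.exp (H ^ n + 1) * Real.exp H * Real.exp (H ^ n + 1) := by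
        gcongr
      refine e1.trans ?_
      rw [← Real.exp_add, ← Real.exp_add, ← Real.exp_add]
      refine Real.exp_le_exp.2 ?_
      have e2 : H ^ 1 ≤ H ^ n := pH hn1
      rw [pow_one] at e2
      have e3 : H ^ (n + 3) ≤ H1 := pH (by omega)
      have e4 : H ^ (n + 3) = H ^ n * H ^ 3 := pow_add H n 3
      have e5 : (8 : ℝ) ≤ H ^ 3 := by
        have := p2 3
        norm_num at this
        exact this
      nlinarith [pHpos n, pH1 n]
    · -- cK
      have e1 : Real.exp H * Real.exp H * N ≤ Real.exp H * Real.exp H * Real.exp (H ^ n + 1) := by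
        gcongr
      refine e1.trans ?_
      rw [← Real.exp_add, ← Real.exp_add]
      refine Real.exp_le_exp.2 ?_
      have e2 : H ^ 1 ≤ H ^ n := pH hn1
      rw [pow_one] at e2
      have e3 : H ^ (n + 3) ≤ H1 := pH (by omega)
      have e4 : H ^ (n + 3) = H ^ n * H ^ 3 := pow_add H n 3
      have e5 : (8 : ℝ) ≤ H ^ 3 := by
        have := p2 3
        norm_num at this
        exact this
      nlinarith [pHpos n, pH1 n]
    · -- cC
      have e0 : H1 ^ C1 = H ^ (h * C1) := by rw [hH1d, hC1]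
      rw [e0]
      have e1 : H ≤ H ^ (h * C1 + 1) := by simpa using pH (show 1 ≤ h * C1 + 1 by omega)
      have e2 : H ^ (h * C1) ≤ H ^ (h * C1 + 1) := pH (by omega)
      have e3 : (1 : ℝ) + m ≤ Real.exp m := by
        have := Real.add_one_le_exp (m : ℝ)
        linarith
      calc Real.exp H + m * Real.exp (H ^ (h * C1)) ≤ Real.exp (H ^ (h * C1 + 1)) + m * Real.exp (H ^ (h * C1 + 1)) := by
            gcongr
        _ = (1 + m) * Real.exp (H ^ (h * C1 + 1)) := by ring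
        _ ≤ Real.exp m * Real.exp (H ^ (h * C1 + 1)) := mul_le_mul_of_nonneg_right e3 (Real.exp_pos _).le
        _ = Real.exp (m + H ^ (h * C1 + 1)) := (Real.exp_add _ _).symm
        _ ≤ Real.exp (H ^ C) := Real.exp_le_exp.2 (by
            have e4 : H ^ p ≤ H ^ (h * C1 + 1 + p) := pH (by omega)
            have e5 : H ^ (h * C1 + 1) ≤ H ^ (h * C1 + 1 + p) := pH (by omega)
            have e6 : H ^ (h * C1 + 1 + p + 1) ≤ H ^ C := pH (by omega)
            have e7 : H ^ (h * C1 + 1 + p + 1) = H ^ (h * C1 + 1 + p) * H := pow_succ _ _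
            nlinarith [pHpos (h * C1 + 1 + p)])
    · -- YX
      intro t ht
      have e1 : ∏ i ∈ t, Y i ≤ ∏ i ∈ range m, Y i := by
        have hsub : t ⊆ range m := fun i hi => mem_range.2 (ht i hi)
        rw [← prod_sdiff hsub]
        refine le_mul_of_one_le_left (prod_nonneg fun i _ => (hY0 i).le) ?_
        calc (1 : ℝ) = ∏ _i ∈ range m \ t, (1 : ℝ) := by simp
          _ ≤ ∏ i ∈ range m \ t, Y i := prod_le_prod (fun _ _ => zero_le_one) fun i _ => hY1 i
      have e2 := hYprod m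
      have e3 : ∏ i ∈ range m, Y i ≤ (∏ i ∈ range m, Y i) * q :=
        le_mul_of_one_le_right (prod_nonneg fun i _ => (hY0 i).le) hq1
      rw [hXq, ← e2]
      exact e1.trans e3
    · -- Y4
      intro i _
      have e1 : (∏ j ∈ range i, Y j) * (4 / Y i) = 4 / q := by
        have e2 := hYprod i
        have e3 : Y i = (∏ j ∈ range i, Y j) * q := e2.symm
        rw [e3]
        have e4 : (∏ j ∈ range i, Y j) ≠ 0 := prod_ne_zero_iff.2 fun j _ => (hY0 j).ne'
        field_simp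
      rw [e1, div_le_div_iff₀ hq0 (by positivity)]
      have e5 : β * (16 * m * b) ≤ β * q := mul_le_mul_of_nonneg_left hqm hβ.le
      have e6 : β * (16 * m * b) = 16 * m := by
        rw [show β * (16 * m * b) = 16 * m * (β * b) by ring, hβb, mul_one]
      nlinarith
    · -- a1
      have e1 : m * (X * (64 / e ^ 2 * (e * β1))) = 4 * (16 * m) * X * (1 / e) * β1 := by
        field_simp
        ring
      have e2 : 1 / e = b ^ c := by rw [he, pβinv]
      rw [e1, e2]
      have e3 : 4 * (16 * m) * X * b ^ c * β1 ≤ 4 * b ^ p * X * b ^ c * β1 := by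
        have : 0 < β1 := pβpos b1
        have := pbpos c
        gcongr
      refine e3.trans ?_
      have e4 : 4 * b ^ p * X * b ^ c * β1 = 4 * β ^ 5 * (β ^ p * b ^ p) * (β ^ x * b ^ x) * (β ^ c * b ^ c) := by
        rw [hβ1, hb1, hX, pow_add, pow_add, pow_add]
        ring
      rw [e4, pβ, pβ, pβ, mul_one, mul_one, mul_one]
      have e5 : β ^ 5 = β * β ^ 4 := by ring
      have e6 := pβ2 4
      norm_num at e6
      rw [e5]
      nlinarith
    · -- a2
      have e1 : X * β ^ s = β ^ 3 * (β ^ x * b ^ x) := by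
        rw [hX, hs, pow_add]
        ring
      rw [e1, pβ, mul_one]
      have e5 : β ^ 3 = β * β ^ 2 := by ring
      have e6 := pβ2 2
      norm_num at e6
      rw [e5]
      nlinarith

end Pool.Agent.GMN
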