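import Pool.Agent.GMN.TjStep
import Pool.Agent.GMN.TjArith

/-!
# GMN/TjMain (helper14): LEMMA T_j

`tj_all m C0` : there is `C` such that in every system with `m` vertices, for every `S` with `δ ∈ S`, (SMI) with the exponent
`C0` for all `S' ⊆ S` with at least two elements, `δ ∈ S'`, implies `TJ G S δ C`.
-/

set_option autoImplicit false
set_option linter.unusedSectionVars false

namespace Pool.Agent.GMN

open Finset Pool.Agent.PWZ Pool.Agent.M3 Pool.Agent.M3.TS Pool.Agent.GM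

noncomputable section

variable {ι Om Ξ Pt V Γ κ : Type} [Fintype ι] [DecidableEq ι] [Fintype Om] [Fintype Ξ] [Fintype Pt]
    [Fintype V] (G : Sys ι Om Ξ Pt V Γ κ)

theorem two_le_H {β H : ℝ} (hβ : 0 < β) (hβ2 : β ≤ 1 / 2) (hβH : 1 / β ≤ H) : 2 ≤ H := by
  have : 2 ≤ 1 / β := by
    rw [le_div_iff₀ hβ]
    linarith
  linarith

theorem Pass.mono {Kt Cl : Type} {S0 : Finset ι} {δ : ι} {v : Kt → Fn ι Pt V Γ} {cs : Cl → Cls ι Pt V Γ Kt}
    {θ θ' r r' : ℝ} {E : Kt → FnX ι Ξ Pt V Γ} (h : Pass G S0 δ v cs θ r E) (hθ : θ ≤ θ') (hr : r ≤ r') :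
    Pass G S0 δ v cs θ' r' E where
  P1 := fun c hc t ht ω => (h.P1 c hc t ht ω).trans hr
  P2 := fun c hc => (h.P2 c hc).mono G hθ hr

theorem TJ.mono {S : Finset ι} {δ : ι} {C C' : ℕ} (hC : C ≤ C') (h : TJ G S δ C) : TJ G S δ C' := by
  intro β H hβ hβ2 hβH hKH hnear Kt Z _ _ v Φ hcK hcZ hv hΦ
  have hH2 := two_le_H hβ hβ2 hβH
  have h1 : β ^ C' ≤ β ^ C := pow_le_pow_of_le_one hβ.le (by linarith) hC
  have h2 : H ^ C ≤ H ^ C' := pow_le_pow_right₀ (by linarith) hC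
  obtain ⟨Cl, hCl, cs, h3, h4, h5⟩ := h β H hβ hβ2 hβH hKH (hnear.trans h1) Kt Z _ _ v Φ hcK hcZ hv hΦ
  refine ⟨Cl, hCl, cs, h3.trans (Real.exp_le_exp.2 h2), h4, fun E e1 e2 e3 e4 e5 => h5 E e1 e2 e3 e4 ?_⟩
  exact e5.mono G (Real.exp_le_exp.2 (neg_le_neg h2)) h1

theorem SMI.mono {S : Finset ι} {δ : ι} {C C' : ℕ} (hC : C ≤ C') (h : SMI G S δ C) : SMI G S δ C' := by
  intro β H hβ hβ2 hβH hKH hnear Ψ e1 e2 e3 e4 e5 e6
  have hH2 := two_le_H hβ hβ2 hβH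
  have h1 : β ^ C' ≤ β ^ C := pow_le_pow_of_le_one hβ.le (by linarith) hC
  have h2 : H ^ C ≤ H ^ C' := pow_le_pow_right₀ (by linarith) hC
  exact h β H hβ hβ2 hβH hKH (hnear.trans h1) Ψ e1 e2 e3 e4 e5 fun w hw =>
    (e6 w hw).mono G (Real.exp_le_exp.2 (neg_le_neg h2)) h1

/-- **the base**: `S = {δ}`, the letters -/
theorem tj_one {δ : ι} {C : ℕ} (hC : 2 ≤ C) : TJ G {δ} δ C := by
  classical
  intro β H hβ hβ2 hβH hKH hnear Kt Z _ _ v Φ hcK hcZ hv hΦ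
  have hH2 := two_le_H hβ hβ2 hβH
  have hH : H ≤ H ^ C := by
    have := pow_le_pow_right₀ (show (1 : ℝ) ≤ H by linarith) (show 1 ≤ C by omega)
    rwa [pow_one] at this
  refine ⟨Kt, inferInstance, fun k => ⟨{δ}, k, fun _ _ _ _ _ => 0⟩, hcK.trans (Real.exp_le_exp.2 hH), ?_, ?_⟩
  · intro k
    refine ⟨subset_refl _, mem_singleton_self _, fun i hi => ?_, fun i hi => ?_⟩
    · simp at hi
    · simp at hi
  · intro E _ _ _ _ hP
    have h0 : ∀ ω, ¬ ∃ t ≤ G.n, ∃ (k : Kt) (z : ι → Z),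
        β ≤ |mn G t (G.gm t ω) (fun d => (∏ w ∈ ({δ} : Finset ι).erase δ, val0 G (Φ w (z w)) t ω d) *
          (val G (E k) t ω d * val0 G (v k) t ω d))| := by
      rintro ω ⟨t, ht, k, z, h⟩
      have h1 := hP.P1 k rfl t ht ω
      have h2 : (fun d => (∏ w ∈ ({δ} : Finset ι).erase δ, val0 G (Φ w (z w)) t ω d) *
          (val G (E k) t ω d * val0 G (v k) t ω d)) = (fun d => val G (E k) t ω d *
            val0 G ((⟨{δ}, k, fun _ _ _ _ _ => 0⟩ : Cls ι Pt V Γ Kt).mu {δ} v) t ω d) := by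
        funext d
        simp [val0, Cls.mu]
      rw [h2] at h
      have h3 : β ^ C < β := by
        have e1 : β ^ C ≤ β ^ 2 := pow_le_pow_of_le_one hβ.le (by linarith) hC
        nlinarith
      linarith [h.trans h1]
    refine le_trans (G.P.Pr_mono (t := fun _ => False) fun ω _ h => h0 ω h) ?_
    have h1 : G.P.Pr (fun _ => False) = 0 := by
      unfold FP.Pr
      simp [ind, FP.E]
    rw [h1]
    exact (Real.exp_pos _).le

/-- **LEMMA T_j**, `m` = number of all vertices, `j` = bound of the number of unknown vertices -/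
theorem tj_card (m C0 j : ℕ) : ∃ C : ℕ, ∀ (ι Om Ξ Pt V Γ κ : Type) [Fintype ι] [DecidableEq ι] [Fintype Om]
    [Fintype Ξ] [Fintype Pt] [Fintype V] (G : Sys ι Om Ξ Pt V Γ κ), Fintype.card ι = m → ∀ (S : Finset ι) (δ : ι),
    δ ∈ S → S.card ≤ j → (∀ S' ⊆ S, δ ∈ S' → 2 ≤ S'.card → SMI G S' δ C0) → TJ G S δ C := by
  induction j with
  | zero =>
    refine ⟨0, fun ι Om Ξ Pt V Γ κ _ _ _ _ _ _ G _ S δ hδ hS _ => ?_⟩
    have := Finset.card_pos.2 ⟨δ, hδ⟩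
    omega
  | succ j ih =>
    obtain ⟨C1, hC1⟩ := ih
    obtain ⟨C, hC⟩ := tj_num (max m 1) C0 C1 (le_max_right _ _)
    refine ⟨max C 2, fun ι Om Ξ Pt V Γ κ _ _ _ _ _ _ G hm S δ hδ hS hSMI => ?_⟩
    have hm1 : max m 1 = Fintype.card ι := by
      have h1 : 0 < Fintype.card ι := Fintype.card_pos_iff.2 ⟨δ⟩
      omega
    by_cases hS1 : S = {δ}
    · subst hS1
      exact tj_one G (le_max_right _ _)
    · refine TJ.mono G (le_max_left C 2) ?_
      have h2 : 2 ≤ S.card := by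
        by_contra h
        refine hS1 (Finset.eq_singleton_iff_unique_mem.2 ⟨hδ, fun i hi => ?_⟩)
        exact Finset.card_le_one.1 (by omega) i hi δ hδ
      refine tj_step G (C1 := C1) hδ hS1 (hSMI S (subset_refl _) hδ h2) (fun w hw => ?_) (fun β H h1 h3 h4 h5 => ?_)
      · have hwS : w ∈ S := mem_of_mem_erase hw
        refine hC1 ι Om Ξ Pt V Γ κ G hm (S.erase w) δ (mem_erase.2 ⟨(ne_of_mem_erase hw).symm, hδ⟩) ?_ ?_
        · rw [Finset.card_erase_of_mem hwS]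
          omega
        · exact fun S' hS' hδ' hc => hSMI S' (hS'.trans (erase_subset _ _)) hδ' hc
      · rw [← hm1]
        exact hC β H G.K h1 h3 h4 G.K1 h5

/-- **LEMMA T_j**, all sets of at most `m` vertices -/
theorem tj_all (m C0 : ℕ) : ∃ C : ℕ, ∀ (ι Om Ξ Pt V Γ κ : Type) [Fintype ι] [DecidableEq ι] [Fintype Om]
    [Fintype Ξ] [Fintype Pt] [Fintype V] (G : Sys ι Om Ξ Pt V Γ κ), Fintype.card ι ≤ m → ∀ (S : Finset ι) (δ : ι),
    δ ∈ S → (∀ S' ⊆ S, δ ∈ S' → 2 ≤ S'.card → SMI G S' δ C0) → TJ G S δ C := by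
  induction m with
  | zero =>
    refine ⟨0, fun ι Om Ξ Pt V Γ κ _ _ _ _ _ _ G hm S δ hδ _ => ?_⟩
    have : 0 < Fintype.card ι := Fintype.card_pos_iff.2 ⟨δ⟩
    omega
  | succ m ih =>
    obtain ⟨C1, hC1⟩ := ih
    obtain ⟨C, hC⟩ := tj_card (m + 1) C0 (m + 1)
    refine ⟨max C1 C, fun ι Om Ξ Pt V Γ κ _ _ _ _ _ _ G hm S δ hδ hSMI => ?_⟩
    rcases Nat.lt_or_ge m (Fintype.card ι) with h | h
    · exact TJ.mono G (le_max_right _ _) (hC ι Om Ξ Pt V Γ κ G (by omega) S δ hδ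
        ((Finset.card_le_univ S).trans hm) hSMI)
    · exact TJ.mono G (le_max_left _ _) (hC1 ι Om Ξ Pt V Γ κ G h S δ hδ hSMI)

end

end Pool.Agent.GMN
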