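import Pool.Agent.GMN.RuleO
import Pool.Agent.GMN.Start
import Pool.Agent.GMN.TjMain

/-!
# GMN/Est (helper14): from Lemma T_j to the error of the actual runs

`sact` = state of the ACTUAL run of the client `ν` at the end of the node of time `t`.

* `act_run` : if there is no moment critical for `r` from the node `e` on, the actual run is a virtual run `(ν, r, i)`,
  started at the end of all nodes `t ≥ e` (`i` = number of the ends of stretches of `r` before the last time of `e`);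
* `GoodT` : the complement of the exceptional event of `TJ` for the runs `Er`;
* `est` : outside of it, the error of the actual run in every product is at most
  `β Y + 4 / Y + near (1 + ∑ |coefficients|)`, exact windows.
-/

set_option autoImplicit false
set_option linter.unusedSectionVars false

namespace Pool.Agent.GMN.RuS

open Finset Pool.Agent.PWZ Pool.Agent.M3 Pool.Agent.M3.TS Pool.Agent.GM Pool.Agent.GMN

noncomputable section

variable {ι Om Ξ Pt V Γ κ : Type} [Fintype ι] [DecidableEq ι] [Fintype Om] [Fintype Ξ] [Fintype Pt]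
    [Fintype V] (G : Sys ι Om Ξ Pt V Γ κ)

variable {R Nu Cl : Type} {I : ℕ} [Fintype R] [LinearOrder R] [Fintype Nu] [Fintype Cl]
  (A : Inp ι Ξ Pt V Γ R Nu Cl I) (S0 : Finset ι) (δ : ι) (p : Prm)

/-- the machine of the client `ν` of the individual `y` along the path of `ω` -/
abbrev Mc (ω : Om) (ν : Nu) (y : Ξ × (ι → Pt)) : Mach R (Ru.St R V) :=
  (dt G A S0 δ p ω).M (p.a Cl) ((dt G A S0 δ p ω).tau (p.a Cl)) y ν

/-- allowed references of the actual run at machine times -/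
abbrev Ac (ω : Om) (ν : Nu) (y : Ξ × (ι → Pt)) : ℕ → R → Prop := (dt G A S0 δ p ω).A (p.a Cl) y ν

/-- state of the actual run at the end of the node of time `t` -/
def sact (ω : Om) (ν : Nu) (t : ℕ) (y : Ξ × (ι → Pt)) : Ru.St R V :=
  (Mc G A S0 δ p ω ν y).mic (Ac G A S0 δ p ω ν y) p.N (Ru.Dat.la (p.a Cl) t) p.N

/-- no moment critical for `r` from the machine time `i0` up to the node `T` -/
def NoCrit (ω : Om) (ν : Nu) (y : Ξ × (ι → Pt)) (r : R) (i0 T : ℕ) : Prop :=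
  ∀ i, i0 ≤ i → i ≤ Ru.Dat.la (p.a Cl) T → ∀ l ≤ p.N,
    ¬ (Mc G A S0 δ p ω ν y).Crit (Ac G A S0 δ p ω ν y) p.N r i l

variable {G A S0 δ p} {Kn Yn : ℕ}

theorem Av_eq (ω : Om) (k : Ru.Ka Nu R I) (y : Ξ × (ι → Pt)) :
    (dt G A S0 δ p ω).Av (p.a Cl) ((dt G A S0 δ p ω).tau (p.a Cl)) y k =
      (Mc G A S0 δ p ω k.1 y).vA (Ac G A S0 δ p ω k.1 y) p.N k.2.1 (k.2.2 : ℕ) := rfl

theorem stt_iff (ω : Om) (k : Ru.Ka Nu R I) (t : ℕ) (y : Ξ × (ι → Pt)) :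
    stt G A S0 δ p ω k t y ↔
      (k.2.2 : ℕ) ≤ (Mc G A S0 δ p ω k.1 y).nE (Ac G A S0 δ p ω k.1 y) p.N k.2.1 (Ru.Dat.la (p.a Cl) t) := Iff.rfl

/-- **the actual run is a virtual run** -/
theorem act_run (H : A.Ok G S0 δ) (hp : p.Ok Kn Yn) {ω : Om} {ν : Nu} {y : Ξ × (ι → Pt)} {r : R} {e T : ℕ}
    (heT : e ≤ T) (hno : NoCrit G A S0 δ p ω ν y r (e * (2 * p.m + 2)) T)
    (hI : (Mc G A S0 δ p ω ν y).nE (Ac G A S0 δ p ω ν y) p.N r (Ru.Dat.la (p.a Cl) e) ≤ I) :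
    ∃ i : Fin (I + 1), ∀ t, e ≤ t → t ≤ T → stt G A S0 δ p ω (ν, r, i) t y ∧
      svt G A S0 δ p ω (ν, r, i) t y = sact G A S0 δ p ω ν t y := by
  set b := (Mc G A S0 δ p ω ν y).nE (Ac G A S0 δ p ω ν y) p.N r (Ru.Dat.la (p.a Cl) e) with hb
  refine ⟨⟨b, Nat.lt_succ_of_le hI⟩, fun t h1 h2 => ?_⟩
  have hla : ∀ {s t : ℕ}, s ≤ t → Ru.Dat.la (p.a Cl) s ≤ Ru.Dat.la (p.a Cl) t := by
    intro s t h
    rw [la_eq, la_eq]
    have := Nat.mul_le_mul_right (2 * p.m + 2) h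
    omega
  have hB := Ru.Dat.indB (datOk H hp ω) y ν (D := dt G A S0 δ p ω) (τ := (dt G A S0 δ p ω).tau (p.a Cl))
  refine ⟨(stt_iff ω _ t y).2 (Mach.nE_mono (hla h1)), ?_⟩
  -- `e' = la e - 1`
  obtain ⟨e', he'⟩ : ∃ e', e' + 1 = Ru.Dat.la (p.a Cl) e := ⟨e * (2 * p.m + 2) + 2 * p.m, by rw [la_eq, add_assoc]⟩
  have h3 := Mach.mic_vA_agree (M := Mc G A S0 δ p ω ν y) (A := Ac G A S0 δ p ω ν y) (N := p.N) (s := r)
    (T := Ru.Dat.la (p.a Cl) T) (e := e') (by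
      have := hla heT
      omega)
    (fun i _ => Ru.pk_none hB i hp.N1)
    (fun i hi hiT l hl => hno i (by
      rw [la_eq] at he'
      omega) hiT l hl) (hla h2) (k := p.N) le_rfl
  rw [he'] at h3
  exact h3

/-! ### the exceptional event of `TJ` -/

variable (G A S0 δ p) in
/-- no error of a virtual run is large -/
def GoodT {Z : Type} (Φ : ι → Z → Fn ι Pt V Γ) (β : ℝ) (ω : Om) : Prop :=
  ∀ t ≤ G.n, ∀ (k : Ru.Ka Nu R I) (z : ι → Z),
    |mn G t (G.gm t ω) (fun d => (∏ w ∈ S0.erase δ, val0 G (Φ w (z w)) t ω d) *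
      (val G (Er G A S0 δ p k) t ω d * val0 G (A.v k.2.1) t ω d))| < β

variable (G A S0 δ p) in
/-- the error of the actual run at the end of the node -/
def eact (ω : Om) (ν : Nu) (t : ℕ) : V → ℝ :=
  Ru.err ((dt G A S0 δ p ω).nod t (G.xi ω, G.x ω) ν) (sact G A S0 δ p ω ν t (G.xi ω, G.x ω)).H

theorem eact_hub (H : A.Ok G S0 δ) (hp : p.Ok Kn Yn) (ω : Om) (ν : Nu) (t : ℕ) :
    mn G t (G.gm t ω) (fun d => hub p.Y (eact G A S0 δ p ω ν t d)) ≤ 4 := by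
  have hB := Ru.Dat.indB (datOk H hp ω) (G.xi ω, G.x ω) ν (D := dt G A S0 δ p ω)
    (τ := (dt G A S0 δ p ω).tau (p.a Cl))
  have h1 := Ru.mic_hub4 (A := Ac G A S0 δ p ω ν (G.xi ω, G.x ω)) (N := p.N) hB (Ru.Dat.la (p.a Cl) t) p.N
  unfold Ru.hubm at h1
  simp only [la_div'] at h1
  exact h1

/-- the error of the actual run, clipped, averaged windows -/
theorem est_clip (H : A.Ok G S0 δ) (hp : p.Ok Kn Yn) {Z : Type} {Φ : ι → Z → Fn ι Pt V Γ} {β : ℝ} {ω : Om}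
    (hG : GoodT G A S0 δ p Φ β ω) {ν : Nu} {r : R} {e t : ℕ} (het : e ≤ t) (ht : t ≤ G.n)
    (hno : NoCrit G A S0 δ p ω ν (G.xi ω, G.x ω) r (e * (2 * p.m + 2)) t)
    (hI : (Mc G A S0 δ p ω ν (G.xi ω, G.x ω)).nE (Ac G A S0 δ p ω ν (G.xi ω, G.x ω)) p.N r
      (Ru.Dat.la (p.a Cl) e) ≤ I) (z : ι → Z) :
    |mn G t (G.gm t ω) (fun d => ((∏ w ∈ S0.erase δ, val0 G (Φ w (z w)) t ω d) * val0 G (A.v r) t ω d) *
      clip p.Y (eact G A S0 δ p ω ν t d))| ≤ β * p.Y := by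
  obtain ⟨i, hi⟩ := act_run H hp het hno hI
  obtain ⟨h1, h2⟩ := hi t het le_rfl
  have h3 := hG t ht (ν, r, i) z
  have e1 : (fun d => (∏ w ∈ S0.erase δ, val0 G (Φ w (z w)) t ω d) *
      (val G (Er G A S0 δ p (ν, r, i)) t ω d * val0 G (A.v r) t ω d)) =
      fun d => (1 / p.Y) * (((∏ w ∈ S0.erase δ, val0 G (Φ w (z w)) t ω d) * val0 G (A.v r) t ω d) *
        clip p.Y (eact G A S0 δ p ω ν t d)) := by
    funext d
    rw [val_Er, evl_on h1, h2]
    unfold eact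
    ring
  have h4 : |mn G t (G.gm t ω) (fun d => (1 / p.Y) * (((∏ w ∈ S0.erase δ, val0 G (Φ w (z w)) t ω d) *
      val0 G (A.v r) t ω d) * clip p.Y (eact G A S0 δ p ω ν t d)))| < β := by
    rw [← e1]
    exact h3
  rw [(mn_mean (G := G) t ω).smul, abs_mul, abs_of_pos (one_div_pos.2 hp.Y0), one_div, inv_mul_lt_iff₀ hp.Y0] at h4
  rw [mul_comm β]
  exact h4.le

/-- the error of the actual run, averaged windows -/
theorem est_avg (H : A.Ok G S0 δ) (hp : p.Ok Kn Yn) {Z : Type} {Φ : ι → Z → Fn ι Pt V Γ} {β : ℝ} {ω : Om}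
    (hΦ : ∀ w ∈ S0.erase δ, ∀ z, NF G w (Φ w z))
    (hG : GoodT G A S0 δ p Φ β ω) {ν : Nu} {r : R} {e t : ℕ} (het : e ≤ t) (ht : t ≤ G.n)
    (hno : NoCrit G A S0 δ p ω ν (G.xi ω, G.x ω) r (e * (2 * p.m + 2)) t)
    (hI : (Mc G A S0 δ p ω ν (G.xi ω, G.x ω)).nE (Ac G A S0 δ p ω ν (G.xi ω, G.x ω)) p.N r
      (Ru.Dat.la (p.a Cl) e) ≤ I) (z : ι → Z) :
    |mn G t (G.gm t ω) (fun d => ((∏ w ∈ S0.erase δ, val0 G (Φ w (z w)) t ω d) * val0 G (A.v r) t ω d) *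
      eact G A S0 δ p ω ν t d)| ≤ β * p.Y + 4 / p.Y := by
  have h1 := est_clip H hp hG het ht hno hI z
  set F : V → ℝ := fun d => (∏ w ∈ S0.erase δ, val0 G (Φ w (z w)) t ω d) * val0 G (A.v r) t ω d with hF
  have hF1 : ∀ d, |F d| ≤ 1 := fun d => by
    rw [hF]
    simp only
    rw [abs_mul]
    exact mul_le_one₀ (prod_abs_le _ _ fun w hw => (hΦ w hw _).bd _ _ _ _) (abs_nonneg _) ((H.v r).bd _ _ _ _)
  have h2 := mean_abs_sub_clip (mn_mean (G := G) t ω) hp.Y0 (eact G A S0 δ p ω ν t)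
  have h3 := eact_hub H hp ω ν t
  have h4 : mn G t (G.gm t ω) (fun d => |eact G A S0 δ p ω ν t d - clip p.Y (eact G A S0 δ p ω ν t d)|) ≤ 4 / p.Y :=
    h2.trans (div_le_div_of_nonneg_right h3 hp.Y0.le)
  have h5 : mn G t (G.gm t ω) (fun d => F d * eact G A S0 δ p ω ν t d) =
      mn G t (G.gm t ω) (fun d => F d * clip p.Y (eact G A S0 δ p ω ν t d)) +
      mn G t (G.gm t ω) (fun d => F d * (eact G A S0 δ p ω ν t d - clip p.Y (eact G A S0 δ p ω ν t d))) := by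
    rw [← (mn_mean (G := G) t ω).add]
    congr 1
    funext d
    ring
  have h6 : |mn G t (G.gm t ω) (fun d => F d * (eact G A S0 δ p ω ν t d - clip p.Y (eact G A S0 δ p ω ν t d)))| ≤
      4 / p.Y := by
    refine le_trans ?_ h4
    unfold mn
    refine (Finset.abs_sum_le_sum_abs _ _).trans (Finset.sum_le_sum fun d _ => ?_)
    rw [abs_mul, abs_of_nonneg ((G.wt t _).nn d), abs_mul]
    refine mul_le_mul_of_nonneg_left ?_ ((G.wt t _).nn d)
    exact mul_le_of_le_one_left (abs_nonneg _) (hF1 d)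
  show |mn G t (G.gm t ω) (fun d => F d * eact G A S0 δ p ω ν t d)| ≤ _
  rw [h5]
  exact (abs_add_le _ _).trans (add_le_add h1 h6)

/-- exact windows for functions bounded by `B` -/
theorem iw_near {t : ℕ} {ω : Om} {f : V → ℝ} {B : ℝ} (hB : 0 < B) (hf : ∀ d, |f d| ≤ B) :
    |iw (G.J t ω) f (fun _ => 1)| ≤ |mn G t (G.gm t ω) f| + G.near * B := by
  have h1 := G.Jnear t ω (fun d => f d / B) (fun _ => 1) (fun d => by
    rw [abs_div, abs_of_pos hB, div_le_one hB]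
    exact hf d) (fun _ => by simp)
  have e1 : iw (G.J t ω) (fun d => f d / B) (fun _ => 1) = iw (G.J t ω) f (fun _ => 1) / B := by
    unfold iw
    rw [Finset.sum_div]
    exact Finset.sum_congr rfl fun d _ => by ring
  have e2 : iw (G.ρ t (G.gm t ω)) (fun d => f d / B) (fun _ => 1) = mn G t (G.gm t ω) f / B := by
    unfold iw mn
    rw [Finset.sum_div]
    exact Finset.sum_congr rfl fun d _ => by ring
  rw [e1, e2, ← sub_div, abs_div, abs_of_pos hB, div_le_iff₀ hB] at h1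
  have h2 := abs_sub_abs_le_abs_sub (iw (G.J t ω) f (fun _ => 1)) (mn G t (G.gm t ω) f)
  linarith

/-- size of the error -/
theorem eact_le (H : A.Ok G S0 δ) (hp : p.Ok Kn Yn) (ω : Om) (ν : Nu) (t : ℕ) (d : V) :
    |eact G A S0 δ p ω ν t d| ≤
      1 + p.ea / 2 * (ucn G A S0 δ p ω (G.xi ω, G.x ω) ν (Ru.Dat.la (p.a Cl) t) p.N : ℝ) := by
  classical
  set y : Ξ × (ι → Pt) := (G.xi ω, G.x ω) with hy
  have hB := Ru.Dat.indB (datOk H hp ω) y ν (D := dt G A S0 δ p ω) (τ := (dt G A S0 δ p ω).tau (p.a Cl))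
  set F : Ru.Tst R V → ℝ := fun q => q.e * (q.g d * ((dt G A S0 δ p ω).nod t y ν).v q.s d) with hF
  have h1 := Ru.sum_H (Y := p.Y) (x := xsq G A S0 δ p ω y ν) (nw := nws G A S0 δ p ω y ν)
    (A := asq G A S0 δ p ω y ν) (N := p.N) F (Ru.Dat.la (p.a Cl) t)
  have h2 : ∀ i k, |ind (Ru.epo p.Y (xsq G A S0 δ p ω y ν) (nws G A S0 δ p ω y ν) (asq G A S0 δ p ω y ν) p.N i =
      Ru.epo p.Y (xsq G A S0 δ p ω y ν) (nws G A S0 δ p ω y ν) (asq G A S0 δ p ω y ν) p.N (Ru.Dat.la (p.a Cl) t)) *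
      Ru.uva p.Y (xsq G A S0 δ p ω y ν) (nws G A S0 δ p ω y ν) (asq G A S0 δ p ω y ν) p.N F i k| ≤
      p.ea / 2 * ind (tuO G A S0 δ p ω y ν i k ≠ none) := by
    intro i k
    rw [abs_mul, abs_of_nonneg (ind_nonneg _)]
    cases hq : tuO G A S0 δ p ω y ν i k with
    | none =>
      have e1 : Ru.uva p.Y (xsq G A S0 δ p ω y ν) (nws G A S0 δ p ω y ν) (asq G A S0 δ p ω y ν) p.N F i k = 0 := by
        unfold Ru.uva Ru.uen
        rw [show Ru.ust p.Y (xsq G A S0 δ p ω y ν) (nws G A S0 δ p ω y ν) (asq G A S0 δ p ω y ν) p.N i k = none from hq]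
        rfl
      rw [e1, abs_zero, mul_zero]
      exact mul_nonneg (by have := hp.e0; linarith) (ind_nonneg _)
    | some q =>
      have e1 : Ru.uva p.Y (xsq G A S0 δ p ω y ν) (nws G A S0 δ p ω y ν) (asq G A S0 δ p ω y ν) p.N F i k =
          F (Ru.ent p.Y (xsq G A S0 δ p ω y ν i) (mcs G A S0 δ p ω y ν i k).H q) := by
        unfold Ru.uva Ru.uen
        rw [show Ru.ust p.Y (xsq G A S0 δ p ω y ν) (nws G A S0 δ p ω y ν) (asq G A S0 δ p ω y ν) p.N i k = some q from hq]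
        rfl
      have hg : ∀ d, |q.g d| ≤ 1 := (hB.nw _ q (Ru.arv_spec (tu_mem hq)).2).2
      have e2 : |F (Ru.ent p.Y (xsq G A S0 δ p ω y ν i) (mcs G A S0 δ p ω y ν i k).H q)| ≤ p.ea / 2 := by
        rw [hF]
        show |((if 0 ≤ Ru.val p.Y (xsq G A S0 δ p ω y ν i) (mcs G A S0 δ p ω y ν i k).H q then (1 : ℝ) else -1) *
          (q.e / 2)) * (q.g d * ((dt G A S0 δ p ω).nod t y ν).v q.s d)| ≤ p.ea / 2
        have h3 : |(if 0 ≤ Ru.val p.Y (xsq G A S0 δ p ω y ν i) (mcs G A S0 δ p ω y ν i k).H q then (1 : ℝ) else -1)| = 1 := by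
          split_ifs <;> simp
        have h4 : |((dt G A S0 δ p ω).nod t y ν).v q.s d| ≤ 1 := (datOk (p := p) H hp ω).v t y ν q.s d
        rw [abs_mul, abs_mul, h3, one_mul, tu_e hq, abs_of_nonneg (by have := hp.e0; linarith), abs_mul]
        refine mul_le_of_le_one_right (by have := hp.e0; linarith) ?_
        exact mul_le_one₀ (hg d) (abs_nonneg _) h4
      rw [e1, ind_of (show some q ≠ none by simp), mul_one]
      exact (mul_le_of_le_one_left (abs_nonneg _) (ind_le_one _)).trans e2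
  have h3 : |((sact G A S0 δ p ω ν t y).H.map F).sum| ≤
      p.ea / 2 * (ucn G A S0 δ p ω y ν (Ru.Dat.la (p.a Cl) t) p.N : ℝ) := by
    have e0 : ((sact G A S0 δ p ω ν t y).H.map F).sum = _ := h1
    rw [e0]
    refine (Finset.abs_sum_le_sum_abs _ _).trans ?_
    refine (Finset.sum_le_sum fun i _ => (Finset.abs_sum_le_sum_abs _ _).trans
      (Finset.sum_le_sum fun k _ => h2 i k)).trans (le_of_eq ?_)
    rw [← card_un ω y ν (Ru.Dat.la (p.a Cl) t), Finset.card_filter, Finset.sum_product]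
    push_cast
    rw [Finset.mul_sum]
    refine Finset.sum_congr rfl fun i _ => ?_
    rw [Finset.mul_sum]
    refine Finset.sum_congr rfl fun k _ => ?_
    by_cases h4 : tuO G A S0 δ p ω y ν i k ≠ none
    · rw [ind_of h4, if_pos h4]
    · rw [ind_not h4, if_neg h4]
  have h4 : |((dt G A S0 δ p ω).nod t y ν).u d| ≤ 1 := (datOk (p := p) H hp ω).u t y ν d
  have h5 := abs_sub (((dt G A S0 δ p ω).nod t y ν).u d) ((sact G A S0 δ p ω ν t y).H.map F).sum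
  show |((dt G A S0 δ p ω).nod t y ν).u d - ((sact G A S0 δ p ω ν t y).H.map F).sum| ≤ _
  linarith

/-- **THE ESTIMATE**: exact windows -/
theorem est (H : A.Ok G S0 δ) (hp : p.Ok Kn Yn) {Z : Type} {Φ : ι → Z → Fn ι Pt V Γ} {β : ℝ} {ω : Om}
    (hΦ : ∀ w ∈ S0.erase δ, ∀ z, NF G w (Φ w z))
    (hG : GoodT G A S0 δ p Φ β ω) {ν : Nu} {r : R} {e t : ℕ} (het : e ≤ t) (ht : t ≤ G.n)
    (hno : NoCrit G A S0 δ p ω ν (G.xi ω, G.x ω) r (e * (2 * p.m + 2)) t)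
    (hI : (Mc G A S0 δ p ω ν (G.xi ω, G.x ω)).nE (Ac G A S0 δ p ω ν (G.xi ω, G.x ω)) p.N r
      (Ru.Dat.la (p.a Cl) e) ≤ I) (z : ι → Z) {n1 : ℝ}
    (hn : (ucn G A S0 δ p ω (G.xi ω, G.x ω) ν (Ru.Dat.la (p.a Cl) t) p.N : ℝ) ≤ n1) :
    |iw (G.J t ω) (fun d => ((∏ w ∈ S0.erase δ, val0 G (Φ w (z w)) t ω d) * val0 G (A.v r) t ω d) *
      eact G A S0 δ p ω ν t d) (fun _ => 1)| ≤ β * p.Y + 4 / p.Y + G.near * (1 + p.ea / 2 * n1) := by
  have h1 := est_avg H hp hΦ hG het ht hno hI z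
  have hn0 : 0 ≤ n1 := (Nat.cast_nonneg _).trans hn
  have hea := hp.e0
  have hB : 0 < 1 + p.ea / 2 * n1 := by positivity
  have h2 := iw_near (G := G) (t := t) (ω := ω) (f := fun d => ((∏ w ∈ S0.erase δ, val0 G (Φ w (z w)) t ω d) *
    val0 G (A.v r) t ω d) * eact G A S0 δ p ω ν t d) hB (fun d => by
      rw [abs_mul, abs_mul]
      have h3 : |∏ w ∈ S0.erase δ, val0 G (Φ w (z w)) t ω d| * |val0 G (A.v r) t ω d| ≤ 1 :=
        mul_le_one₀ (prod_abs_le _ _ fun w hw => (hΦ w hw _).bd _ _ _ _) (abs_nonneg _) ((H.v r).bd _ _ _ _)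
      have h4 := eact_le H hp ω ν t d
      have h5 : p.ea / 2 * (ucn G A S0 δ p ω (G.xi ω, G.x ω) ν (Ru.Dat.la (p.a Cl) t) p.N : ℝ) ≤ p.ea / 2 * n1 :=
        mul_le_mul_of_nonneg_left hn (by positivity)
      refine (mul_le_of_le_one_left (abs_nonneg _) h3).trans ?_
      linarith)
  linarith

/-- **Lemma T_j for the runs**: the exceptional event is rare -/
theorem goodT_pr [Nonempty Pt] (H : A.Ok G S0 δ)
    (hp : p.Ok (Fintype.card (Ru.Ka Nu R I)) (Fintype.card (Ξ × (ι → Pt)))) {C : ℕ} {β B : ℝ} {Z : Type}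
    {Φ : ι → Z → Fn ι Pt V Γ}
    (hT : ∀ E : Ru.Ka Nu R I → FnX ι Ξ Pt V Γ, (∀ k t g ξ, Dep (univ.erase δ) (E k t g ξ)) →
      (∀ k t g ξ x d, |E k t g ξ x d| ≤ 1) → (∀ k g ξ x d, E k 0 g ξ x d = 0) → (∀ k, MV G δ (E k) B) →
      Pass G S0 δ (fun k => A.v k.2.1) A.cs (Real.exp (-B ^ C)) (β ^ C) E →
      G.P.Pr (fun ω => ∃ t ≤ G.n, ∃ (k : Ru.Ka Nu R I) (z : ι → Z),
        β ≤ |mn G t (G.gm t ω) (fun d => (∏ w ∈ S0.erase δ, val0 G (Φ w (z w)) t ω d) *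
          (val G (E k) t ω d * val0 G (A.v k.2.1) t ω d))|) ≤ Real.exp (-B))
    (hB : 4 + 20 / p.ea ^ 2 ≤ B) (hθ : p.θ ≤ Real.exp (-B ^ C)) (he : p.ea / p.Y ≤ β ^ C) :
    G.P.Pr (fun ω => ¬ GoodT G A S0 δ p Φ β ω) ≤ Real.exp (-B) := by
  have h1 := hT (Er G A S0 δ p) (fun k t g ξ => Er_dep H hp k t g ξ) (fun k t g ξ x d => Er_le hp k t g ξ x d)
    (fun k g ξ x d => Er_zero H hp k g ξ x d) (fun k => (Er_MV H hp k).mono G hB)
    ((Er_pass H hp).mono G hθ he)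
  refine le_trans (G.P.Pr_mono fun ω _ h => ?_) h1
  unfold GoodT at h
  push Not at h
  obtain ⟨t, ht, k, z, h2⟩ := h
  exact ⟨t, ht, k, z, h2⟩

end

end Pool.Agent.GMN.RuS
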