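import Pool.Agent.GM.Geo0

/-!
# GMN/Hash (helper42): hashing of codes

Finite probability space, random finite sets `A u w` of natural numbers (`u` in a finite set): for every `M > 0` there is
ONE function `φ : ℕ → ℕ`, `φ n < M`, such that the probabilities of (card (A u w) ≤ B u and `φ` is not injective on
`A u w`) sum up to at most `∑ (B u)^2 / M`.
-/

set_option autoImplicit false
set_option linter.unusedSectionVars false

namespace Pool.Agent.GMN

open Finset Pool.Agent.PWZ Pool.Agent.M3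

noncomputable section

/-- number of functions with a given coincidence -/
theorem sum_coin {U : Type*} [Fintype U] [DecidableEq U] (M : ℕ) {i j : U} (hij : i ≠ j) :
    (M : ℝ) * ∑ z : U → Fin M, ind (z i = z j) = Fintype.card (U → Fin M) := by
  have h1 := GM.resample (Pt := Fin M) i (fun z : U → Fin M => ind (z i = z j))
  rw [Fintype.card_fin] at h1
  rw [h1]
  have h2 : ∀ z : U → Fin M, ∑ a : Fin M, ind (Function.update z i a i = Function.update z i a j) = 1 := by
    intro z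
    rw [← GM.sum_ind_one (z j)]
    refine Finset.sum_congr rfl fun a _ => ?_
    rw [Function.update_self, Function.update_of_ne hij.symm]
  rw [Finset.sum_congr rfl fun z _ => h2 z, Finset.sum_const, Finset.card_univ, nsmul_eq_mul, mul_one]

/-- `φ` is not injective on the set `A` -/
def Coll (φ : ℕ → ℕ) (A : Finset ℕ) : Prop := ∃ i ∈ A, ∃ j ∈ A, i ≠ j ∧ φ i = φ j

theorem Coll.mono {φ : ℕ → ℕ} {A A' : Finset ℕ} (h : A ⊆ A') (hc : Coll φ A) : Coll φ A' := by
  obtain ⟨i, hi, j, hj, h1, h2⟩ := hc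
  exact ⟨i, h hi, j, h hj, h1, h2⟩

theorem inj_of_not_coll {φ : ℕ → ℕ} {A : Finset ℕ} (h : ¬ Coll φ A) {i j : ℕ} (hi : i ∈ A) (hj : j ∈ A)
    (he : φ i = φ j) : i = j := by
  by_contra hne
  exact h ⟨i, hi, j, hj, hne, he⟩

/-- **HASHING**, finitely many families at once -/
theorem exists_hash {Om : Type*} [Fintype Om] (P : FP Om) {κ : Type*} (s : Finset κ) (A : κ → Om → Finset ℕ)
    (B : κ → ℝ) {M : ℕ} (hM : 0 < M) : ∃ φ : ℕ → ℕ, (∀ n, φ n < M) ∧
      ∑ u ∈ s, P.Pr (fun w => ((A u w).card : ℝ) ≤ B u ∧ Coll φ (A u w)) ≤ ∑ u ∈ s, B u ^ 2 / M := by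
  classical
  set U : Finset ℕ := s.biUnion fun u => univ.biUnion fun w => A u w with hU
  have hAU : ∀ u ∈ s, ∀ w, A u w ⊆ U := fun u hu w n hn => by
    rw [hU, mem_biUnion]
    exact ⟨u, hu, mem_biUnion.2 ⟨w, mem_univ w, hn⟩⟩
  have hM' : (0 : ℝ) < M := by exact_mod_cast hM
  have hne0 : Nonempty (Fin M) := ⟨⟨0, hM⟩⟩
  set ext : ({n // n ∈ U} → Fin M) → ℕ → ℕ := fun z n => if h : n ∈ U then (z ⟨n, h⟩).1 else 0 with hext
  have hlt : ∀ z n, ext z n < M := by
    intro z n
    rw [hext]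
    dsimp only
    split_ifs with h
    · exact (z ⟨n, h⟩).isLt
    · exact hM
  -- the mean over all functions
  have hmean : ∑ z : {n // n ∈ U} → Fin M, ∑ u ∈ s, P.Pr (fun w => ((A u w).card : ℝ) ≤ B u ∧ Coll (ext z) (A u w)) ≤
      ∑ _z : {n // n ∈ U} → Fin M, ∑ u ∈ s, B u ^ 2 / M := by
    rw [Finset.sum_comm]
    have h1 : ∀ u ∈ s, ∑ z : {n // n ∈ U} → Fin M, P.Pr (fun w => ((A u w).card : ℝ) ≤ B u ∧ Coll (ext z) (A u w)) ≤
        Fintype.card ({n // n ∈ U} → Fin M) * (B u ^ 2 / M) := by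
      intro u hu
      unfold FP.Pr
      rw [← P.E_sum]
      refine P.E_le_const fun w _ => ?_
      by_cases hB : ((A u w).card : ℝ) ≤ B u
      · have h2 : ∀ z : {n // n ∈ U} → Fin M, ind (((A u w).card : ℝ) ≤ B u ∧ Coll (ext z) (A u w)) ≤
            ∑ p ∈ (A u w).offDiag, ind (ext z p.1 = ext z p.2) := by
          intro z
          refine le_trans (ind_mono ?_) (FP.ind_ex_le _ _)
          rintro ⟨_, i, hi, j, hj, hij, he⟩
          exact ⟨(i, j), by rw [mem_offDiag]; exact ⟨hi, hj, hij⟩, he⟩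
        have h3 : ∀ p ∈ (A u w).offDiag, ∑ z : {n // n ∈ U} → Fin M, ind (ext z p.1 = ext z p.2) =
            Fintype.card ({n // n ∈ U} → Fin M) / M := by
          intro p hp
          rw [mem_offDiag] at hp
          have hi := hAU u hu w hp.1
          have hj := hAU u hu w hp.2.1
          have hne : (⟨p.1, hi⟩ : {n // n ∈ U}) ≠ ⟨p.2, hj⟩ := fun h => hp.2.2 (congrArg Subtype.val h)
          have h4 := sum_coin M hne
          rw [eq_div_iff hM'.ne', mul_comm, ← h4]
          congr 1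
          refine Finset.sum_congr rfl fun z _ => ?_
          congr 1
          apply propext
          rw [hext]
          dsimp only
          rw [dif_pos hi, dif_pos hj]
          exact ⟨fun h => Fin.ext h, fun h => congrArg Fin.val h⟩
        calc ∑ z : {n // n ∈ U} → Fin M, ind (((A u w).card : ℝ) ≤ B u ∧ Coll (ext z) (A u w))
            ≤ ∑ z : {n // n ∈ U} → Fin M, ∑ p ∈ (A u w).offDiag, ind (ext z p.1 = ext z p.2) :=
              Finset.sum_le_sum fun z _ => h2 z
          _ = ∑ p ∈ (A u w).offDiag, ∑ z : {n // n ∈ U} → Fin M, ind (ext z p.1 = ext z p.2) := Finset.sum_comm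
          _ = (A u w).offDiag.card * (Fintype.card ({n // n ∈ U} → Fin M) / M) := by
              rw [Finset.sum_congr rfl h3, Finset.sum_const, nsmul_eq_mul]
          _ ≤ B u ^ 2 * (Fintype.card ({n // n ∈ U} → Fin M) / M) := by
              refine mul_le_mul_of_nonneg_right ?_ (by positivity)
              have h5 : (A u w).offDiag.card ≤ (A u w).card * (A u w).card := by
                rw [Finset.offDiag_card]
                exact Nat.sub_le _ _
              have h6 : ((A u w).offDiag.card : ℝ) ≤ (A u w).card * (A u w).card := by exact_mod_cast h5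
              have h7 : (0 : ℝ) ≤ (A u w).card := Nat.cast_nonneg _
              nlinarith
          _ = _ := by ring
      · have h2 : ∀ z : {n // n ∈ U} → Fin M, ind (((A u w).card : ℝ) ≤ B u ∧ Coll (ext z) (A u w)) = 0 :=
          fun z => ind_not fun h => hB h.1
        rw [Finset.sum_congr rfl fun z _ => h2 z, Finset.sum_const_zero]
        positivity
    refine (Finset.sum_le_sum h1).trans (le_of_eq ?_)
    rw [← Finset.mul_sum, Finset.sum_const, Finset.card_univ, nsmul_eq_mul]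
  obtain ⟨z, _, hz⟩ := Finset.exists_le_of_sum_le (s := (univ : Finset ({n // n ∈ U} → Fin M)))
    univ_nonempty hmean
  exact ⟨ext z, hlt z, hz⟩

/-- one family -/
theorem exists_hash_one {Om : Type*} [Fintype Om] (P : FP Om) (A : Om → Finset ℕ) (B : ℝ) {M : ℕ} (hM : 0 < M) :
    ∃ φ : ℕ → ℕ, (∀ n, φ n < M) ∧ P.Pr (fun w => ((A w).card : ℝ) ≤ B ∧ Coll φ (A w)) ≤ B ^ 2 / M := by
  obtain ⟨φ, h1, h2⟩ := exists_hash P ({()} : Finset Unit) (fun _ => A) (fun _ => B) hM
  refine ⟨φ, h1, ?_⟩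
  simpa using h2

/-- **HASHING**, the union of all families, sets increasing in time: `dead` = large sets -/
theorem exists_hash_all {Om : Type*} [Fintype Om] (P : FP Om) {κ : Type*} (s : Finset κ)
    (A : κ → ℕ → Om → Finset ℕ) (T : ℕ) (hA : ∀ u ∈ s, ∀ t w, A u t w ⊆ A u (t + 1) w) (dead : Om → Prop)
    (B : ℝ) (hB : ∀ u ∈ s, ∀ w, ¬ dead w → ((A u T w).card : ℝ) ≤ B) {M : ℕ} (hM : 0 < M) :
    ∃ φ : ℕ → ℕ, (∀ n, φ n < M) ∧
      P.Pr (fun w => ¬ dead w ∧ ∃ u ∈ s, ∃ t ≤ T, Coll φ (A u t w)) ≤ s.card * (B ^ 2 / M) := by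
  have hle : ∀ u ∈ s, ∀ w, ∀ t T' : ℕ, t ≤ T' → A u t w ⊆ A u T' w := by
    intro u hu w t T' ht
    induction T', ht using Nat.le_induction with
    | base => exact Finset.Subset.refl _
    | succ T'' _ ih => exact ih.trans (hA u hu T'' w)
  obtain ⟨φ, h1, h2⟩ := exists_hash P s (fun u => A u T) (fun _ => B) hM
  refine ⟨φ, h1, ?_⟩
  have h3 : P.Pr (fun w => ¬ dead w ∧ ∃ u ∈ s, ∃ t ≤ T, Coll φ (A u t w)) ≤
      P.Pr (fun w => ∃ u ∈ s, ((A u T w).card : ℝ) ≤ B ∧ Coll φ (A u T w)) := by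
    refine P.Pr_mono fun w _ => ?_
    rintro ⟨hd, u, hu, t, ht, hc⟩
    exact ⟨u, hu, hB u hu w hd, hc.mono (hle u hu w t T ht)⟩
  refine h3.trans ((P.Pr_ex_le s _).trans (h2.trans (le_of_eq ?_)))
  rw [Finset.sum_const, nsmul_eq_mul]

end

end Pool.Agent.GMN
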