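import Pool.Agent.GMN.Scale

/-!
# GMN.Heavy (row N, 4.3, note 3689 (3)): the sum over the siblings is bounded for the true vertex

One type of names.  `F` = filtration (node, lower names = CONTEXT `ctx`), `nw ctx b w` = the context is new at `b`,
`dd j c ν` = density of the name `ν` in the context `c` at time `j` (a function of the node), at most the conditional
probability of the event `Ev b ν` (the vertex gets `ν` during the context interval which starts at `b`).

`heavy_le` : `B * P(∃ i ≤ T, B < ∑_ν max_(j ≤ i) dd j (ctx i) ν) ≤ 4 h N1 + N2`, `N1 ≥ ∑_b ∑_ν P(new at b, Ev b ν)`,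
`N2 ≥` mean number of contexts (times `1` if densities below `(1/2)^h` of at most `2^h` names are not cut).
`N1_list`, `N1_key` : the sum `N1` for cumulative lists and for keys.
-/

set_option autoImplicit false
set_option linter.unusedSectionVars false

namespace Pool.Agent.GMN

open Finset Pool.Agent.PWZ Pool.Agent.M3

noncomputable section

variable {Om C Nm : Type*} [Fintype Om] [Fintype Nm] {φ : ℕ → Type*} {P : FP Om} {F : ∀ t, Om → φ t}

/-- the context is new at time `b` -/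
def nw (ctx : ℕ → Om → C) (b : ℕ) (w : Om) : Prop := ∀ a, a + 1 = b → ctx b w ≠ ctx a w

theorem nw_fac (hF : Filt F) {ctx : ℕ → Om → C} (hc : ∀ i, Fac (F i) (ctx i)) (b : ℕ) :
    ∀ v w, F b v = F b w → (nw ctx b v ↔ nw ctx b w) := by
  intro v w h
  unfold nw
  refine forall_congr' fun a => forall_congr' fun ha => ?_
  rw [hc b v w h, hc a v w (hF.le (by omega) v w h)]

/-- the last new time -/
theorem exists_nw (ctx : ℕ → Om → C) (w : Om) (i : ℕ) :
    ∃ b ≤ i, nw ctx b w ∧ ∀ l, b ≤ l → l ≤ i → ctx l w = ctx b w := by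
  induction i with
  | zero => exact ⟨0, le_rfl, fun a ha => by omega, fun l h1 h2 => by
      have : l = 0 := by omega
      subst this; rfl⟩
  | succ i ih =>
    by_cases h : ctx (i + 1) w = ctx i w
    · obtain ⟨b, hb, hn, hl⟩ := ih
      refine ⟨b, by omega, hn, fun l h1 h2 => ?_⟩
      rcases Nat.lt_or_ge i l with h3 | h3
      · have : l = i + 1 := by omega
        subst this
        rw [h]; exact hl i hb le_rfl
      · exact hl l h1 h3
    · refine ⟨i + 1, le_rfl, fun a ha => ?_, fun l h1 h2 => ?_⟩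
      · have : a = i := by omega
        subst this; exact h
      · have : l = i + 1 := by omega
        subst this; rfl

/-- Doob's inequality from time `b` on -/
theorem doob_from (hF : Filt F) {N : Om → Prop} {b : ℕ} (hN : ∀ v w, F b v = F b w → (N v ↔ N w)) (E : Om → Prop)
    (T : ℕ) {c : ℝ} (hc : 0 ≤ c) :
    c * P.Pr (fun w => N w ∧ ∃ j, b ≤ j ∧ j ≤ T ∧ c ≤ P.ce (F j) (fun v => ind (E v)) w) ≤
      P.Pr (fun w => N w ∧ E w) := by
  classical
  set F' : ∀ j, Om → φ (b + j) := fun j => F (b + j) with hF'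
  have hFi : Filt F' := fun j => hF (b + j)
  have hNf : ∀ j, ∀ v w, F' j v = F' j w → (N v ↔ N w) := fun j v w h => hN v w (hF.le (Nat.le_add_right b j) v w h)
  set Z : ℕ → Om → ℝ := fun j w => ind (N w) * P.ce (F' j) (fun v => ind (E v)) w with hZ
  have h1 := P.doob_super hFi (Z := Z) (s := fun _ _ => 0)
    (fun j => (Fac.ind (hNf j)).mul (P.ce_fac _ _))
    (fun j w _ => mul_nonneg (ind_nonneg _) (P.ce_nonneg (fun _ _ => ind_nonneg _) w)) (fun _ _ _ => le_rfl)
    (fun j w _ => by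
      simp only [hZ, add_zero]
      have hN' : Fac (F' j) (fun w => ind (N w)) := Fac.ind (hNf j)
      rw [P.ce_mul hN', P.ce_tower (hFi j)]) T hc
  have e1 : ∑ t ∈ range T, P.E (fun _ => (0 : ℝ)) = 0 := by simp [FP.E_const]
  have e0 : P.E (Z 0) = P.Pr (fun w => N w ∧ E w) := by
    simp only [hZ]
    rw [P.E_ind_ce (hNf 0)]
    unfold FP.Pr
    exact P.E_congr fun w _ => (ind_and _ _).symm
  rw [e0, e1, add_zero] at h1
  refine le_trans (mul_le_mul_of_nonneg_left (P.Pr_mono fun w _ hh => ?_) hc) h1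
  obtain ⟨hNw, j, hbj, hjT, hcj⟩ := hh
  refine ⟨j - b, by omega, ?_⟩
  simp only [hZ, hF']
  have e : b + (j - b) = j := by omega
  rw [ind_of hNw, one_mul]
  have e2 : P.ce (F (b + (j - b))) (fun v => ind (E v)) w = P.ce (F j) (fun v => ind (E v)) w := by rw [e]
  rw [e2]; exact hcj

/-- dyadic layers -/
theorem dyadic {r : ℝ} (h1 : r ≤ 1) (h : ℕ) :
    r ≤ (1 / 2 : ℝ) ^ h + ∑ j ∈ range h, (1 / 2 : ℝ) ^ j * ind ((1 / 2 : ℝ) ^ (j + 1) ≤ r) := by
  induction h with
  | zero => simpa using h1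
  | succ J ih =>
    rw [Finset.sum_range_succ]
    by_cases h : (1 / 2 : ℝ) ^ (J + 1) ≤ r
    · rw [ind_of h, mul_one]
      have : (0 : ℝ) ≤ (1 / 2) ^ (J + 1) := by positivity
      linarith
    · have hs : 0 ≤ ∑ j ∈ range J, (1 / 2 : ℝ) ^ j * ind ((1 / 2 : ℝ) ^ (j + 1) ≤ r) :=
        Finset.sum_nonneg fun j _ => mul_nonneg (by positivity) (ind_nonneg _)
      have h2 : 0 ≤ (1 / 2 : ℝ) ^ J * ind ((1 / 2 : ℝ) ^ (J + 1) ≤ r) := mul_nonneg (by positivity) (ind_nonneg _)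
      linarith [not_le.1 h]

/-- running maximum of the densities in a context -/
def mxd (dd : ℕ → C → Nm → Om → ℝ) : ℕ → C → Nm → Om → ℝ
  | 0 => dd 0
  | i + 1 => fun c ν w => max (mxd dd i c ν w) (dd (i + 1) c ν w)

theorem mxd_le {dd : ℕ → C → Nm → Om → ℝ} {i : ℕ} {c : C} {ν : Nm} {w : Om} {y : ℝ}
    (h : ∀ j ≤ i, dd j c ν w ≤ y) : mxd dd i c ν w ≤ y := by
  induction i with
  | zero => exact h 0 le_rfl
  | succ i ih => exact max_le (ih fun j hj => h j (by omega)) (h (i + 1) le_rfl)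

theorem mxd_attained (dd : ℕ → C → Nm → Om → ℝ) (i : ℕ) (c : C) (ν : Nm) (w : Om) :
    ∃ j ≤ i, mxd dd i c ν w = dd j c ν w := by
  induction i with
  | zero => exact ⟨0, le_rfl, rfl⟩
  | succ i ih =>
    obtain ⟨j, hj, e⟩ := ih
    rcases le_total (mxd dd i c ν w) (dd (i + 1) c ν w) with h | h
    · exact ⟨i + 1, le_rfl, max_eq_right h⟩
    · exact ⟨j, by omega, (max_eq_left h).trans e⟩

/-- hypotheses on one type of names -/
structure HvHyp (P : FP Om) (F : ∀ t, Om → φ t) (ctx : ℕ → Om → C) (dd : ℕ → C → Nm → Om → ℝ)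
    (Ev : ℕ → Nm → Om → Prop) (T h : ℕ) (e N1 N2 : ℝ) : Prop where
  filt : Filt F
  cfac : ∀ i, Fac (F i) (ctx i)
  h1 : 1 ≤ h
  birth : ∀ b j w ν, P.p w ≠ 0 → nw ctx b w → j < b → dd j (ctx b w) ν w ≤ 0
  ev : ∀ b j w ν, P.p w ≠ 0 → b ≤ j → j ≤ T → nw ctx b w → (∀ l, b ≤ l → l ≤ j → ctx l w = ctx b w) →
    dd j (ctx b w) ν w ≤ P.ce (F j) (fun v => ind (Ev b ν v)) w
  /-- densities below `(1/2)^h`: cut, or at most `2^h` names on each path -/
  small : (e = 0 ∧ ∀ j c ν w, 0 < dd j c ν w → (1 / 2 : ℝ) ^ h ≤ dd j c ν w) ∨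
    (e = 1 ∧ ∃ Nu : C → Om → Finset Nm, (∀ c w, P.p w ≠ 0 → ((Nu c w).card : ℝ) ≤ 2 ^ h) ∧
      ∀ j ≤ T, ∀ c ν w, P.p w ≠ 0 → ν ∉ Nu c w → dd j c ν w ≤ 0)
  sum1 : ∑ b ∈ range (T + 1), ∑ ν, P.Pr (fun w => nw ctx b w ∧ Ev b ν w) ≤ N1
  sum2 : ∑ b ∈ range (T + 1), P.Pr (nw ctx b) ≤ N2

theorem heavy_le {ctx : ℕ → Om → C} {dd : ℕ → C → Nm → Om → ℝ} {Ev : ℕ → Nm → Om → Prop} {T h : ℕ} {e N1 N2 : ℝ}
    (H : HvHyp P F ctx dd Ev T h e N1 N2) {B : ℝ} (hB : 0 ≤ B) :
    B * P.Pr (fun w => ∃ i ≤ T, B < ∑ ν, mxd dd i (ctx i w) ν w) ≤ 4 * h * N1 + e * N2 := by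
  classical
  have he0 : 0 ≤ e := by
    rcases H.small with h | h
    · rw [h.1]
    · rw [h.1]; norm_num
  -- the running maximum of the conditional probabilities reaches a level
  set Q : ℕ → Nm → ℕ → Om → Prop := fun b ν l w => nw ctx b w ∧ ∃ j, b ≤ j ∧ j ≤ T ∧
    (1 / 2 : ℝ) ^ (l + 1) ≤ P.ce (F j) (fun v => ind (Ev b ν v)) w with hQ
  set W : Om → ℝ := fun w => ∑ b ∈ range (T + 1), (∑ ν, ∑ l ∈ range h, 2 * ((1 / 2 : ℝ) ^ l * ind (Q b ν l w)) +
    e * ind (nw ctx b w)) with hW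
  have hW0 : ∀ b w, 0 ≤ ∑ ν, ∑ l ∈ range h, 2 * ((1 / 2 : ℝ) ^ l * ind (Q b ν l w)) + e * ind (nw ctx b w) := by
    intro b w
    refine add_nonneg (Finset.sum_nonneg fun ν _ => Finset.sum_nonneg fun l _ => ?_)
      (mul_nonneg he0 (ind_nonneg _))
    exact mul_nonneg (by norm_num) (mul_nonneg (by positivity) (ind_nonneg _))
  -- pointwise bound
  have hpt : ∀ w, P.p w ≠ 0 → (∃ i ≤ T, B < ∑ ν, mxd dd i (ctx i w) ν w) → B ≤ W w := by
    rintro w hw ⟨i, hi, hBi⟩
    obtain ⟨b, hb, hnw, hconst⟩ := exists_nw ctx w i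
    have hci : ctx i w = ctx b w := hconst i hb le_rfl
    have hterm : ∀ ν, mxd dd i (ctx i w) ν w ≤ ∑ l ∈ range h, 2 * ((1 / 2 : ℝ) ^ l * ind (Q b ν l w)) +
        (if 0 < mxd dd i (ctx i w) ν w then e * (1 / 2 : ℝ) ^ h else 0) := by
      intro ν
      have hs0 : 0 ≤ ∑ l ∈ range h, 2 * ((1 / 2 : ℝ) ^ l * ind (Q b ν l w)) :=
        Finset.sum_nonneg fun l _ => mul_nonneg (by norm_num) (mul_nonneg (by positivity) (ind_nonneg _))
      by_cases hpos : 0 < mxd dd i (ctx i w) ν w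
      · rw [if_pos hpos]
        obtain ⟨j, hj, hje⟩ := mxd_attained dd i (ctx i w) ν w
        set r := mxd dd i (ctx i w) ν w with hr
        have hbj : b ≤ j := by
          by_contra hlt
          have := H.birth b j w ν hw hnw (not_le.1 hlt)
          rw [← hci, ← hje] at this
          linarith
        have hev := H.ev b j w ν hw hbj (hj.trans hi) hnw (fun l h1 h2 => hconst l h1 (h2.trans hj))
        rw [← hci, ← hje] at hev
        have hr1 : r ≤ 1 := hev.trans (P.ce_le_const (fun _ _ => ind_le_one _) hw)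
        have hd := dyadic hr1 h
        have hmono : ∀ l ∈ range h, (1 / 2 : ℝ) ^ l * ind ((1 / 2 : ℝ) ^ (l + 1) ≤ r) ≤
            (1 / 2 : ℝ) ^ l * ind (Q b ν l w) := by
          intro l _
          refine mul_le_mul_of_nonneg_left (ind_mono fun hl => ?_) (by positivity)
          exact ⟨hnw, j, hbj, hj.trans hi, hl.trans hev⟩
        have hsum := Finset.sum_le_sum hmono
        rw [← Finset.mul_sum]
        have hsn : 0 ≤ ∑ l ∈ range h, (1 / 2 : ℝ) ^ l * ind (Q b ν l w) :=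
          Finset.sum_nonneg fun l _ => mul_nonneg (by positivity) (ind_nonneg _)
        rcases H.small with ⟨he, hcut⟩ | ⟨he, _⟩
        · -- cut
          have hge : (1 / 2 : ℝ) ^ h ≤ r := by
            rw [hje]; exact hcut j _ ν w (by rw [← hje]; exact hpos)
          obtain ⟨h', hh'⟩ : ∃ h', h = h' + 1 := ⟨h - 1, by have := H.h1; omega⟩
          have hlast : (1 / 2 : ℝ) ^ h ≤ ∑ l ∈ range h, (1 / 2 : ℝ) ^ l * ind ((1 / 2 : ℝ) ^ (l + 1) ≤ r) := by
            have h2 := Finset.single_le_sum (f := fun l => (1 / 2 : ℝ) ^ l * ind ((1 / 2 : ℝ) ^ (l + 1) ≤ r))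
              (fun l _ => mul_nonneg (by positivity) (ind_nonneg _)) (mem_range.2 (show h' < h by omega))
            have e3 : ind ((1 / 2 : ℝ) ^ (h' + 1) ≤ r) = 1 := ind_of (by rw [← hh']; exact hge)
            simp only [e3, mul_one] at h2
            refine le_trans (pow_le_pow_of_le_one (by norm_num) (by norm_num) (by omega)) h2
          rw [he, zero_mul, add_zero]
          linarith
        · rw [he, one_mul]
          linarith
      · rw [if_neg hpos, add_zero]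
        exact (not_lt.1 hpos).trans hs0
    have htot : ∑ ν, mxd dd i (ctx i w) ν w ≤ ∑ ν, ∑ l ∈ range h, 2 * ((1 / 2 : ℝ) ^ l * ind (Q b ν l w)) + e := by
      refine (Finset.sum_le_sum fun ν _ => hterm ν).trans ?_
      rw [Finset.sum_add_distrib]
      refine add_le_add le_rfl ?_
      rcases H.small with ⟨he, _⟩ | ⟨he, Nu, hNu, hz⟩
      · rw [he]
        apply le_of_eq
        exact Finset.sum_eq_zero fun ν _ => by split_ifs <;> simp
      · have h2 : ∀ ν ∈ (univ : Finset Nm), (if 0 < mxd dd i (ctx i w) ν w then e * (1 / 2 : ℝ) ^ h else 0) ≤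
            if ν ∈ Nu (ctx i w) w then (1 / 2 : ℝ) ^ h else 0 := by
          intro ν _
          by_cases hν : ν ∈ Nu (ctx i w) w
          · rw [if_pos hν, he, one_mul]
            split_ifs
            · exact le_rfl
            · positivity
          · rw [if_neg hν, if_neg]
            rw [not_lt]
            exact mxd_le fun j hj => hz j (hj.trans hi) _ ν w hw hν
        refine (Finset.sum_le_sum h2).trans ?_
        rw [Finset.sum_ite_mem, Finset.univ_inter, Finset.sum_const, nsmul_eq_mul, he]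
        have h3 : (2 : ℝ) ^ h * (1 / 2 : ℝ) ^ h = 1 := by rw [← mul_pow]; norm_num
        have h4 : (0 : ℝ) ≤ (1 / 2) ^ h := by positivity
        calc ((Nu (ctx i w) w).card : ℝ) * (1 / 2 : ℝ) ^ h ≤ 2 ^ h * (1 / 2 : ℝ) ^ h :=
              mul_le_mul_of_nonneg_right (hNu _ w hw) h4
          _ = 1 := h3
    have hsing := Finset.single_le_sum (f := fun b => ∑ ν, ∑ l ∈ range h, 2 * ((1 / 2 : ℝ) ^ l * ind (Q b ν l w)) +
      e * ind (nw ctx b w)) (fun b _ => hW0 b w) (mem_range.2 (show b < T + 1 by omega))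
    simp only [ind_of hnw, mul_one] at hsing
    exact le_of_lt (lt_of_lt_of_le hBi (htot.trans hsing))
  -- expectation
  have h1 : B * P.Pr (fun w => ∃ i ≤ T, B < ∑ ν, mxd dd i (ctx i w) ν w) ≤ P.E W := by
    unfold FP.Pr
    rw [← P.E_smul]
    refine P.E_mono fun w hw => ?_
    by_cases hh : ∃ i ≤ T, B < ∑ ν, mxd dd i (ctx i w) ν w
    · rw [ind_of hh, mul_one]; exact hpt w hw hh
    · rw [ind_not hh, mul_zero]
      exact Finset.sum_nonneg fun b _ => hW0 b w
  refine h1.trans ?_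
  have h2 : P.E W = ∑ b ∈ range (T + 1), (∑ ν, ∑ l ∈ range h, 2 * ((1 / 2 : ℝ) ^ l * P.Pr (Q b ν l)) +
      e * P.Pr (nw ctx b)) := by
    simp only [hW]
    rw [P.E_sum]
    refine Finset.sum_congr rfl fun b _ => ?_
    rw [P.E_add, P.E_sum, P.E_smul]
    congr 1
    refine Finset.sum_congr rfl fun ν _ => ?_
    rw [P.E_sum]
    refine Finset.sum_congr rfl fun l _ => ?_
    rw [P.E_smul, P.E_smul]
    rfl
  rw [h2, Finset.sum_add_distrib, ← Finset.mul_sum]
  have h3 : ∀ b ∈ range (T + 1), ∑ ν, ∑ l ∈ range h, 2 * ((1 / 2 : ℝ) ^ l * P.Pr (Q b ν l)) ≤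
      4 * h * ∑ ν, P.Pr (fun w => nw ctx b w ∧ Ev b ν w) := by
    intro b _
    rw [Finset.mul_sum]
    refine Finset.sum_le_sum fun ν _ => ?_
    have h4 : ∀ l ∈ range h, 2 * ((1 / 2 : ℝ) ^ l * P.Pr (Q b ν l)) ≤ 4 * P.Pr (fun w => nw ctx b w ∧ Ev b ν w) := by
      intro l _
      have h5 := doob_from (P := P) H.filt (nw_fac H.filt H.cfac b) (Ev b ν) T
        (c := (1 / 2 : ℝ) ^ (l + 1)) (by positivity)
      have e5 : (1 / 2 : ℝ) ^ (l + 1) = (1 / 2) ^ l * (1 / 2) := pow_succ _ _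
      rw [e5] at h5
      have e6 : P.Pr (Q b ν l) = P.Pr (fun w => nw ctx b w ∧ ∃ j, b ≤ j ∧ j ≤ T ∧
          (1 / 2 : ℝ) ^ l * (1 / 2) ≤ P.ce (F j) (fun v => ind (Ev b ν v)) w) := by
        rw [← e5]
      rw [← e6] at h5
      linarith
    refine (Finset.sum_le_sum h4).trans (le_of_eq ?_)
    rw [Finset.sum_const, Finset.card_range, nsmul_eq_mul]
    ring
  refine add_le_add ((Finset.sum_le_sum h3).trans ?_) (mul_le_mul_of_nonneg_left H.sum2 he0)
  rw [← Finset.mul_sum]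
  exact mul_le_mul_of_nonneg_left H.sum1 (by positivity)

/-- cumulative lists: at most `n0` elements -/
theorem N1_list {ctx : ℕ → Om → C} {L : Om → Finset Nm} {n0 : ℝ} (hL : ∀ w, P.p w ≠ 0 → ((L w).card : ℝ) ≤ n0) (T : ℕ) :
    ∑ b ∈ range (T + 1), ∑ ν, P.Pr (fun w => nw ctx b w ∧ ν ∈ L w) ≤
      n0 * ∑ b ∈ range (T + 1), P.Pr (nw ctx b) := by
  classical
  rw [Finset.mul_sum]
  refine Finset.sum_le_sum fun b _ => ?_
  unfold FP.Pr
  rw [← P.E_sum, ← P.E_smul]
  refine P.E_mono fun w hw => ?_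
  have h1 : ∀ ν ∈ (univ : Finset Nm), ind (nw ctx b w ∧ ν ∈ L w) ≤ ind (nw ctx b w) * (if ν ∈ L w then 1 else 0) := by
    intro ν _
    rw [ind_and]
    refine mul_le_mul_of_nonneg_left ?_ (ind_nonneg _)
    by_cases h : ν ∈ L w
    · rw [if_pos h]; exact ind_le_one _
    · rw [if_neg h, ind_not h]
  refine (Finset.sum_le_sum h1).trans ?_
  rw [← Finset.mul_sum, Finset.sum_ite_mem, Finset.univ_inter, Finset.sum_const, nsmul_eq_mul, mul_one, mul_comm]
  exact mul_le_mul_of_nonneg_right (hL w hw) (ind_nonneg _)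

/-- the pair (context, name) is new at time `j` -/
def pnw (ctx : ℕ → Om → C) (nm : ℕ → Om → Nm) (j : ℕ) (w : Om) : Prop :=
  ∀ a, a + 1 = j → ¬ (ctx j w = ctx a w ∧ nm j w = nm a w)

/-- keys: the vertex has the name `ν` during the context interval which starts at `b` -/
def EvK (ctx : ℕ → Om → C) (nm : ℕ → Om → Nm) (T b : ℕ) (ν : Nm) (w : Om) : Prop :=
  ∃ j, b ≤ j ∧ j ≤ T ∧ nm j w = ν ∧ ∀ l, b ≤ l → l ≤ j → ctx l w = ctx b w

theorem N1_key {ctx : ℕ → Om → C} {nm : ℕ → Om → Nm} (T : ℕ) :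
    ∑ b ∈ range (T + 1), ∑ ν, P.Pr (fun w => nw ctx b w ∧ EvK ctx nm T b ν w) ≤
      ∑ j ∈ range (T + 1), P.Pr (pnw ctx nm j) := by
  classical
  unfold FP.Pr
  simp only [← P.E_sum]
  refine P.E_mono fun w _ => ?_
  -- the interval of `j`
  have h1 : ∀ b ∈ range (T + 1), ∀ ν ∈ (univ : Finset Nm), ind (nw ctx b w ∧ EvK ctx nm T b ν w) ≤
      ∑ j ∈ range (T + 1), if (b ≤ j ∧ nw ctx b w ∧ (∀ l, b ≤ l → l ≤ j → ctx l w = ctx b w) ∧ nm j w = ν)
        then ind (pnw ctx nm j w) else 0 := by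
    intro b _ ν _
    have hnn : ∀ j ∈ range (T + 1), 0 ≤ (if (b ≤ j ∧ nw ctx b w ∧ (∀ l, b ≤ l → l ≤ j → ctx l w = ctx b w) ∧
        nm j w = ν) then ind (pnw ctx nm j w) else 0) := by
      intro j _
      split_ifs
      · exact ind_nonneg _
      · exact le_rfl
    by_cases h : nw ctx b w ∧ EvK ctx nm T b ν w
    · obtain ⟨hnw, hE⟩ := h
      -- first time with the name `ν`
      have hex : ∃ j, b ≤ j ∧ j ≤ T ∧ nm j w = ν ∧ ∀ l, b ≤ l → l ≤ j → ctx l w = ctx b w := hE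
      set j := Nat.find hex with hj
      have hj1 := Nat.find_spec hex
      rw [← hj] at hj1
      have hjT : j ∈ range (T + 1) := mem_range.2 (by omega)
      refine le_trans (ind_le_one _) (le_trans ?_ (Finset.single_le_sum hnn hjT))
      rw [if_pos ⟨hj1.1, hnw, hj1.2.2.2, hj1.2.2.1⟩, ind_of]
      intro a ha hh
      rcases Nat.lt_or_ge a b with hab | hab
      · have hbj : j = b := by omega
        have := hnw a (by omega)
        rw [hbj] at hh
        exact this hh.1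
      · refine Nat.find_min hex (m := a) (by omega) ⟨hab, by omega, ?_, fun l h1 h2 => hj1.2.2.2 l h1 (by omega)⟩
        rw [← hh.2]; exact hj1.2.2.1
    · rw [ind_not h]
      exact Finset.sum_nonneg hnn
  refine (Finset.sum_le_sum fun b hb => Finset.sum_le_sum fun ν hν => h1 b hb ν hν).trans ?_
  have h2 : ∑ b ∈ range (T + 1), ∑ ν : Nm, ∑ j ∈ range (T + 1),
      (if (b ≤ j ∧ nw ctx b w ∧ (∀ l, b ≤ l → l ≤ j → ctx l w = ctx b w) ∧ nm j w = ν)
        then ind (pnw ctx nm j w) else 0) = ∑ j ∈ range (T + 1), ∑ b ∈ range (T + 1), ∑ ν : Nm,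
      (if (b ≤ j ∧ nw ctx b w ∧ (∀ l, b ≤ l → l ≤ j → ctx l w = ctx b w) ∧ nm j w = ν)
        then ind (pnw ctx nm j w) else 0) := by
    rw [Finset.sum_comm]
    rw [Finset.sum_congr rfl fun ν _ => Finset.sum_comm]
    rw [Finset.sum_comm]
    exact Finset.sum_congr rfl fun j _ => Finset.sum_comm
  rw [h2]
  refine Finset.sum_le_sum fun j hj => ?_
  -- one pair for each `j`
  have h3 : ∀ b ∈ range (T + 1), ∑ ν : Nm,
      (if (b ≤ j ∧ nw ctx b w ∧ (∀ l, b ≤ l → l ≤ j → ctx l w = ctx b w) ∧ nm j w = ν)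
        then ind (pnw ctx nm j w) else 0) =
      if (b ≤ j ∧ nw ctx b w ∧ (∀ l, b ≤ l → l ≤ j → ctx l w = ctx b w)) then ind (pnw ctx nm j w) else 0 := by
    intro b _
    by_cases h : b ≤ j ∧ nw ctx b w ∧ (∀ l, b ≤ l → l ≤ j → ctx l w = ctx b w)
    · rw [if_pos h, Finset.sum_eq_single (nm j w)]
      · rw [if_pos ⟨h.1, h.2.1, h.2.2, rfl⟩]
      · intro ν _ hν
        rw [if_neg]
        rintro ⟨_, _, _, e⟩
        exact hν e.symm
      · intro hn; exact absurd (mem_univ _) hn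
    · rw [if_neg h]
      refine Finset.sum_eq_zero fun ν _ => ?_
      rw [if_neg]
      rintro ⟨a1, a2, a3, _⟩
      exact h ⟨a1, a2, a3⟩
  rw [Finset.sum_congr rfl h3, ← Finset.sum_filter, Finset.sum_const, nsmul_eq_mul]
  have hcard : ((range (T + 1)).filter fun b => b ≤ j ∧ nw ctx b w ∧
      (∀ l, b ≤ l → l ≤ j → ctx l w = ctx b w)).card ≤ 1 := by
    rw [Finset.card_le_one]
    intro b hb b' hb'
    rw [mem_filter] at hb hb'
    have key : ∀ b b', b < b' → nw ctx b' w → b' ≤ j → (∀ l, b ≤ l → l ≤ j → ctx l w = ctx b w) → False := by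
      intro b b' hlt hn hle hc
      refine hn (b' - 1) (by omega) ?_
      rw [hc b' (by omega) hle, hc (b' - 1) (by omega) (by omega)]
    rcases lt_trichotomy b b' with h | h | h
    · exact absurd (key b b' h hb'.2.2.1 hb'.2.1 hb.2.2.2) id
    · exact h
    · exact absurd (key b' b h hb.2.2.1 hb.2.1 hb'.2.2.2) id
  have hi := ind_nonneg (pnw ctx nm j w)
  have : ((((range (T + 1)).filter fun b => b ≤ j ∧ nw ctx b w ∧
      (∀ l, b ≤ l → l ≤ j → ctx l w = ctx b w)).card : ℕ) : ℝ) ≤ 1 := by exact_mod_cast hcard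
  nlinarith

end

end Pool.Agent.GMN
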