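import Pool.Agent.GMN.Hub

/-!
# GMN.Iden (row N, 3.5): the exact identity of Lemma T_j and the static bound (helper88)

`prod_(w in U) Phi_w = sum_(w in U) (prod_(l < w) Rt_l) (Phi_w - Rt_w) (prod_(l > w) Phi_l) + prod_(w in U) Rt_w` for a
finite set `U` of a linear order, `Phi_w - Rt_w = S_w + (R_w - Rt_w)`, `R_w = Phi_w - S_w`, `Rt_w = clip (Y_w) R_w`.

* `prod_tele` : the identity;
* `static_T` : the bound of the mean of `prod Phi_w * E` from the bounds of the terms with `S_w` (first sum), of the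
  term `prod Rt_w * E` (third), the second sum is bounded with the Huber potentials;
* `Yv` : `Y_w = G ^ (2 ^ w)`, `w : Fin m`, so that `Y_0 * prod_(l < w) Y_l * (64 m / eta) ≤ Y_w` for every set `U`;
* `first_term` : the terms of `S_w` from the bounds of the subsystems.
-/

set_option autoImplicit false

namespace Pool.Agent.GMN

open Finset Pool.Agent.M3

noncomputable section

/-- the telescoping identity, faces before `w` replaced -/
theorem prod_tele {ι R : Type*} [LinearOrder ι] [CommRing R] (U : Finset ι) (Φ Rt : ι → R) :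
    ∏ w ∈ U, Φ w = ∑ w ∈ U, (∏ l ∈ U.filter (· < w), Rt l) * (Φ w - Rt w) * (∏ l ∈ U.filter (w < ·), Φ l) +
      ∏ w ∈ U, Rt w := by
  induction U using Finset.induction_on_max with
  | empty => simp
  | insert a s ha ih =>
    have hna : a ∉ s := fun h => lt_irrefl _ (ha a h)
    rw [prod_insert hna, prod_insert hna, sum_insert hna]
    have h1 : (insert a s).filter (· < a) = s := by
      ext x
      simp only [mem_filter, mem_insert]
      constructor
      · rintro ⟨h | h, h2⟩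
        · exact absurd h2 (by rw [h]; exact lt_irrefl _)
        · exact h
      · intro h
        exact ⟨Or.inr h, ha x h⟩
    have h2 : (insert a s).filter (a < ·) = ∅ := by
      ext x
      simp only [mem_filter, mem_insert, notMem_empty, iff_false]
      rintro ⟨h | h, h2⟩
      · exact absurd h2 (by rw [h]; exact lt_irrefl _)
      · exact absurd (ha x h) (not_lt.2 h2.le)
    rw [h1, h2, prod_empty, mul_one]
    have h3 : ∀ w ∈ s, (∏ l ∈ (insert a s).filter (· < w), Rt l) * (Φ w - Rt w) *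
        (∏ l ∈ (insert a s).filter (w < ·), Φ l) =
        ((∏ l ∈ s.filter (· < w), Rt l) * (Φ w - Rt w) * (∏ l ∈ s.filter (w < ·), Φ l)) * Φ a := by
      intro w hw
      have hwa := ha w hw
      have e1 : (insert a s).filter (· < w) = s.filter (· < w) := by
        rw [filter_insert, if_neg (not_lt.2 hwa.le)]
      have e2 : (insert a s).filter (w < ·) = insert a (s.filter (w < ·)) := by
        rw [filter_insert, if_pos hwa]
      have e3 : a ∉ s.filter (w < ·) := fun h => hna (mem_filter.1 h).1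
      rw [e1, e2, prod_insert e3]
      ring
    rw [sum_congr rfl h3, ← sum_mul, ih]
    ring

variable {V : Type*} {m : (V → ℝ) → ℝ}

theorem IsMean_sum (hm : IsMean m) {α : Type*} (s : Finset α) (f : α → V → ℝ) :
    m (fun d => ∑ a ∈ s, f a d) = ∑ a ∈ s, m (f a) := by
  classical
  induction s using Finset.induction_on with
  | empty => simpa using hm.zero
  | insert a s ha ih =>
    rw [sum_insert ha, ← ih, ← hm.add]
    congr 1
    funext d
    rw [sum_insert ha]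

theorem IsMean_abs (hm : IsMean m) {f h : V → ℝ} (hfh : ∀ d, |f d| ≤ h d) : |m f| ≤ m h := by
  rw [abs_le]
  constructor
  · have h1 := hm.mono (fun d => - h d) f fun d => (abs_le.1 (hfh d)).1
    rw [hm.neg h] at h1
    exact h1
  · exact hm.mono f h fun d => (abs_le.1 (hfh d)).2

theorem abs_prod_le {ι : Type*} {s : Finset ι} {f Y : ι → ℝ} (h : ∀ i ∈ s, |f i| ≤ Y i) :
    |∏ i ∈ s, f i| ≤ ∏ i ∈ s, Y i := by
  rw [abs_prod]
  exact prod_le_prod (fun i _ => abs_nonneg _) h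

theorem abs_prod_le_one {ι : Type*} {s : Finset ι} {f : ι → ℝ} (h : ∀ i ∈ s, |f i| ≤ 1) :
    |∏ i ∈ s, f i| ≤ 1 := by
  have := abs_prod_le (Y := fun _ => (1 : ℝ)) h
  simpa using this

/-- the static bound of Lemma T_j -/
theorem static_T {ι : Type*} [LinearOrder ι] (hm : IsMean m) (U : Finset ι) {Φ S Rt : ι → V → ℝ} {Yw : ι → ℝ}
    {Y0 A B : ℝ} {E : V → ℝ} (hΦ : ∀ w ∈ U, ∀ d, |Φ w d| ≤ 1) (hY : ∀ w ∈ U, 0 < Yw w)
    (hRt : ∀ w ∈ U, ∀ d, Rt w d = clip (Yw w) (Φ w d - S w d))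
    (hhub : ∀ w ∈ U, m (fun d => hub (Yw w) (Φ w d - S w d)) ≤ 4) (hE : ∀ d, |E d| ≤ Y0)
    (first : ∀ w ∈ U, |m (fun d => (∏ l ∈ U.filter (· < w), Rt l d) * S w d *
      (∏ l ∈ U.filter (w < ·), Φ l d) * E d)| ≤ A)
    (third : |m (fun d => (∏ l ∈ U, Rt l d) * E d)| ≤ B) :
    |m (fun d => (∏ w ∈ U, Φ w d) * E d)| ≤
      U.card * A + ∑ w ∈ U, Y0 * (∏ l ∈ U.filter (· < w), Yw l) * (4 / Yw w) + B := by
  classical
  -- the identity inside the mean
  have e : (fun d => (∏ w ∈ U, Φ w d) * E d) = fun d =>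
      (∑ w ∈ U, ((∏ l ∈ U.filter (· < w), Rt l d) * S w d * (∏ l ∈ U.filter (w < ·), Φ l d) * E d +
        (∏ l ∈ U.filter (· < w), Rt l d) * ((Φ w d - S w d) - Rt w d) * (∏ l ∈ U.filter (w < ·), Φ l d) * E d)) +
      (∏ l ∈ U, Rt l d) * E d := by
    funext d
    rw [prod_tele U (fun w => Φ w d) (fun w => Rt w d), add_mul, sum_mul]
    congr 1
    refine sum_congr rfl fun w _ => ?_
    ring
  have hRb : ∀ w ∈ U, ∀ d, |Rt w d| ≤ Yw w := fun w hw d => by
    rw [hRt w hw d]; exact abs_clip_le (hY w hw).le _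
  rw [e, hm.add (fun d => ∑ w ∈ U, _) (fun d => (∏ l ∈ U, Rt l d) * E d), IsMean_sum hm]
  have hY0 : ∀ d : V, 0 ≤ Y0 := fun d => (abs_nonneg _).trans (hE d)
  -- one term
  have key : ∀ w ∈ U, |m (fun d => (∏ l ∈ U.filter (· < w), Rt l d) * S w d * (∏ l ∈ U.filter (w < ·), Φ l d) * E d +
        (∏ l ∈ U.filter (· < w), Rt l d) * ((Φ w d - S w d) - Rt w d) * (∏ l ∈ U.filter (w < ·), Φ l d) * E d)| ≤
      A + Y0 * (∏ l ∈ U.filter (· < w), Yw l) * (4 / Yw w) := by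
    intro w hw
    rw [hm.add (fun d => (∏ l ∈ U.filter (· < w), Rt l d) * S w d * (∏ l ∈ U.filter (w < ·), Φ l d) * E d)
      (fun d => (∏ l ∈ U.filter (· < w), Rt l d) * ((Φ w d - S w d) - Rt w d) * (∏ l ∈ U.filter (w < ·), Φ l d) * E d)]
    refine (abs_add_le _ _).trans (add_le_add (first w hw) ?_)
    have hP : 0 ≤ ∏ l ∈ U.filter (· < w), Yw l := prod_nonneg fun l hl => (hY l (mem_filter.1 hl).1).le
    have h1 : |m (fun d => (∏ l ∈ U.filter (· < w), Rt l d) * ((Φ w d - S w d) - Rt w d) *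
        (∏ l ∈ U.filter (w < ·), Φ l d) * E d)| ≤
        m (fun d => (Y0 * ∏ l ∈ U.filter (· < w), Yw l) * |(Φ w d - S w d) - clip (Yw w) (Φ w d - S w d)|) := by
      refine IsMean_abs hm fun d => ?_
      rw [hRt w hw d, abs_mul, abs_mul, abs_mul]
      have a1 : |∏ l ∈ U.filter (· < w), Rt l d| ≤ ∏ l ∈ U.filter (· < w), Yw l :=
        abs_prod_le fun l hl => hRb l (mem_filter.1 hl).1 d
      have a2 : |∏ l ∈ U.filter (w < ·), Φ l d| ≤ 1 := abs_prod_le_one fun l hl => hΦ l (mem_filter.1 hl).1 d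
      have a3 := hE d
      have b0 := abs_nonneg ((Φ w d - S w d) - clip (Yw w) (Φ w d - S w d))
      calc |∏ l ∈ U.filter (· < w), Rt l d| * |(Φ w d - S w d) - clip (Yw w) (Φ w d - S w d)| *
            |∏ l ∈ U.filter (w < ·), Φ l d| * |E d|
          ≤ (∏ l ∈ U.filter (· < w), Yw l) * |(Φ w d - S w d) - clip (Yw w) (Φ w d - S w d)| * 1 * Y0 := by
            gcongr
        _ = _ := by ring
    refine h1.trans ?_
    rw [hm.smul]
    have hne : Nonempty V := by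
      by_contra hV
      have h2 : m (fun _ => (1:ℝ)) = m (fun _ => (0:ℝ)) := by
        congr 1; funext d; exact absurd ⟨d⟩ hV
      rw [hm.one, hm.zero] at h2
      norm_num at h2
    obtain ⟨d0⟩ := hne
    refine mul_le_mul_of_nonneg_left ?_ (mul_nonneg (hY0 d0) hP)
    refine (mean_abs_sub_clip hm (hY w hw) (fun d => Φ w d - S w d)).trans ?_
    exact div_le_div_of_nonneg_right (hhub w hw) (hY w hw).le
  have h2 : |∑ w ∈ U, m (fun d => (∏ l ∈ U.filter (· < w), Rt l d) * S w d * (∏ l ∈ U.filter (w < ·), Φ l d) * E d +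
        (∏ l ∈ U.filter (· < w), Rt l d) * ((Φ w d - S w d) - Rt w d) * (∏ l ∈ U.filter (w < ·), Φ l d) * E d)| ≤
      U.card * A + ∑ w ∈ U, Y0 * (∏ l ∈ U.filter (· < w), Yw l) * (4 / Yw w) := by
    refine (abs_sum_le_sum_abs _ _).trans ?_
    refine (sum_le_sum key).trans ?_
    rw [sum_add_distrib, sum_const, nsmul_eq_mul]
  exact (abs_add_le _ _).trans (add_le_add h2 third)

/-! ## the clips of the faces -/

/-- the clip of the face `w` -/
def Yv {n : ℕ} (G : ℝ) (w : Fin n) : ℝ := G ^ (2 ^ (w : ℕ))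

theorem one_le_Yv {n : ℕ} {G : ℝ} (hG : 1 ≤ G) (w : Fin n) : 1 ≤ Yv G w := one_le_pow₀ hG

theorem Yv_pos {n : ℕ} {G : ℝ} (hG : 1 ≤ G) (w : Fin n) : 0 < Yv G w := by linarith [one_le_Yv hG w]

theorem prod_Yv_eq {n : ℕ} (G : ℝ) (U : Finset (Fin n)) : ∏ l ∈ U, Yv G l = G ^ (∑ l ∈ U, 2 ^ (l : ℕ)) := by
  unfold Yv
  rw [prod_pow_eq_pow_sum]

theorem prod_Yv_le {n : ℕ} {G : ℝ} (hG : 1 ≤ G) (U : Finset (Fin n)) (w : Fin n) :
    G * ∏ l ∈ U.filter (· < w), Yv G l ≤ Yv G w := by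
  classical
  have h1 : ∑ l ∈ U.filter (· < w), 2 ^ (l : ℕ) ≤ ∑ l ∈ range (w : ℕ), 2 ^ l := by
    have h : ∑ l ∈ U.filter (· < w), 2 ^ (l : ℕ) = ∑ l ∈ (U.filter (· < w)).map Fin.valEmbedding, 2 ^ l := by
      rw [sum_map]; rfl
    rw [h]
    refine sum_le_sum_of_subset fun x hx => ?_
    rw [mem_map] at hx
    obtain ⟨y, hy, rfl⟩ := hx
    rw [mem_range]
    exact (mem_filter.1 hy).2
  have h3 : ∑ l ∈ range (w : ℕ), 2 ^ l = 2 ^ (w : ℕ) - 1 := by
    have := Nat.geomSum_eq (m := 2) le_rfl (w : ℕ)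
    simpa using this
  rw [h3] at h1
  rw [prod_Yv_eq]
  calc G * G ^ (∑ l ∈ U.filter (· < w), 2 ^ (l : ℕ)) ≤ G * G ^ (2 ^ (w : ℕ) - 1) :=
        mul_le_mul_of_nonneg_left (pow_le_pow_right₀ hG h1) (by linarith)
    _ = G ^ (2 ^ (w : ℕ) - 1 + 1) := by rw [pow_succ]; ring
    _ = Yv G w := by
        unfold Yv
        rw [Nat.sub_add_cancel Nat.one_le_two_pow]

theorem prod_Yv_le' {n : ℕ} {G : ℝ} (hG : 1 ≤ G) (U : Finset (Fin n)) :
    ∏ l ∈ U, Yv G l ≤ G ^ (2 ^ n) := by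
  classical
  rw [prod_Yv_eq]
  refine pow_le_pow_right₀ hG ?_
  have h1 : ∑ l ∈ U, 2 ^ (l : ℕ) ≤ ∑ l ∈ range n, 2 ^ l := by
    have h : ∑ l ∈ U, 2 ^ (l : ℕ) = ∑ l ∈ U.map Fin.valEmbedding, 2 ^ l := by
      rw [sum_map]; rfl
    rw [h]
    refine sum_le_sum_of_subset fun x hx => ?_
    rw [mem_map] at hx
    obtain ⟨y, _, rfl⟩ := hx
    rw [mem_range]
    exact y.isLt
  refine h1.trans ?_
  have := Nat.geomSum_eq (m := 2) le_rfl n
  have h3 : ∑ l ∈ range n, 2 ^ l = 2 ^ n - 1 := by simpa using this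
  rw [h3]
  exact Nat.sub_le _ _

/-- the second sum with `G = 64 n Y0 / eta` is at most `eta / 16` -/
theorem second_le {n : ℕ} {Y0 η : ℝ} (hη : 0 < η) (hη1 : η ≤ 1) (hY0 : 1 ≤ Y0) (hn : 1 ≤ n) (U : Finset (Fin n)) :
    ∑ w ∈ U, Y0 * (∏ l ∈ U.filter (· < w), Yv (64 * n * Y0 / η) l) * (4 / Yv (64 * n * Y0 / η) w) ≤ η / 16 := by
  set G := 64 * n * Y0 / η with hGd
  have hnr : (1 : ℝ) ≤ n := by exact_mod_cast hn
  have hG : 1 ≤ G := by
    rw [hGd, le_div_iff₀ hη]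
    nlinarith
  have h1 : ∀ w ∈ U, Y0 * (∏ l ∈ U.filter (· < w), Yv G l) * (4 / Yv G w) ≤ η / (16 * n) := by
    intro w _
    have h2 := prod_Yv_le hG U w
    have h3 := Yv_pos hG w
    rw [mul_div_assoc', div_le_div_iff₀ h3 (by positivity)]
    have h4 : G * η = 64 * n * Y0 := by rw [hGd]; field_simp
    have h5 : Y0 * (∏ l ∈ U.filter (· < w), Yv G l) * 4 * (16 * n) = η * (G * ∏ l ∈ U.filter (· < w), Yv G l) := by
      calc Y0 * (∏ l ∈ U.filter (· < w), Yv G l) * 4 * (16 * n) =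
            (64 * n * Y0) * ∏ l ∈ U.filter (· < w), Yv G l := by ring
        _ = _ := by rw [← h4]; ring
    rw [h5]
    exact mul_le_mul_of_nonneg_left h2 hη.le
  refine (sum_le_sum h1).trans ?_
  rw [sum_const, nsmul_eq_mul]
  have h2 : (U.card : ℝ) ≤ n := by
    have := card_le_univ U
    rw [Fintype.card_fin] at this
    exact_mod_cast this
  calc (U.card : ℝ) * (η / (16 * n)) ≤ n * (η / (16 * n)) := mul_le_mul_of_nonneg_right h2 (by positivity)
    _ = η / 16 := by field_simp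

/-- the terms of `S_w = sum over births of (sign) e u^tau` : a term is bounded by the bound of the subsystem -/
theorem first_term {ι β : Type*} (hm : IsMean m) {Lw : List β} {e b : ℝ} {p0 : ℕ} {sg : β → ℝ} {u : β → V → ℝ}
    {Sw : V → ℝ} (he : 0 ≤ e) (hb : 0 ≤ b) (hS : ∀ d, Sw d = e * (Lw.map fun τ => sg τ * u τ d).sum)
    (hlen : Lw.length ≤ p0) (hsg : ∀ τ ∈ Lw, |sg τ| ≤ 1) {U : Finset ι} {Rt : ι → V → ℝ} {Yw : ι → ℝ}
    (hY : ∀ l ∈ U, 0 < Yw l) {X : ℝ} (hX : ∏ l ∈ U, Yw l ≤ X) {Q : V → ℝ}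
    (hsub : ∀ τ ∈ Lw, |m (fun d => (∏ l ∈ U, ((Yw l)⁻¹ * Rt l d)) * u τ d * Q d)| ≤ b) :
    |m (fun d => (∏ l ∈ U, Rt l d) * Sw d * Q d)| ≤ p0 * e * X * b := by
  have hXp : 0 ≤ ∏ l ∈ U, Yw l := prod_nonneg fun l hl => (hY l hl).le
  -- the list sum
  have h1 : ∀ L : List β, (∀ τ ∈ L, τ ∈ Lw) →
      |m (fun d => (∏ l ∈ U, Rt l d) * (e * (L.map fun τ => sg τ * u τ d).sum) * Q d)| ≤ L.length * (e * X * b) := by
    intro L
    induction L with
    | nil =>
      intro _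
      simp only [List.map_nil, List.sum_nil, mul_zero, zero_mul]
      rw [hm.zero]; simp
    | cons τ L ih =>
      intro hL
      have ih' := ih fun x hx => hL x (List.mem_cons_of_mem _ hx)
      have hτ := hL τ (List.mem_cons_self)
      have e1 : (fun d => (∏ l ∈ U, Rt l d) * (e * (((τ :: L).map fun τ => sg τ * u τ d).sum)) * Q d) =
          fun d => (e * (∏ l ∈ U, Yw l) * sg τ) * ((∏ l ∈ U, ((Yw l)⁻¹ * Rt l d)) * u τ d * Q d) +
            (∏ l ∈ U, Rt l d) * (e * (L.map fun τ => sg τ * u τ d).sum) * Q d := by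
        funext d
        rw [List.map_cons, List.sum_cons]
        have e2 : (∏ l ∈ U, Yw l) * (∏ l ∈ U, ((Yw l)⁻¹ * Rt l d)) = ∏ l ∈ U, Rt l d := by
          rw [← prod_mul_distrib]
          refine prod_congr rfl fun l hl => ?_
          rw [← mul_assoc, mul_inv_cancel₀ (hY l hl).ne', one_mul]
        calc (∏ l ∈ U, Rt l d) * (e * (sg τ * u τ d + (L.map fun τ => sg τ * u τ d).sum)) * Q d =
              e * sg τ * (∏ l ∈ U, Rt l d) * u τ d * Q d +
                (∏ l ∈ U, Rt l d) * (e * (L.map fun τ => sg τ * u τ d).sum) * Q d := by ring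
          _ = _ := by rw [← e2]; ring
      rw [e1, hm.add (fun d => (e * (∏ l ∈ U, Yw l) * sg τ) * ((∏ l ∈ U, ((Yw l)⁻¹ * Rt l d)) * u τ d * Q d))
        (fun d => (∏ l ∈ U, Rt l d) * (e * (L.map fun τ => sg τ * u τ d).sum) * Q d), hm.smul]
      refine (abs_add_le _ _).trans ?_
      have h2 : |(e * (∏ l ∈ U, Yw l) * sg τ) * m (fun d => (∏ l ∈ U, ((Yw l)⁻¹ * Rt l d)) * u τ d * Q d)| ≤
          e * X * b := by
        rw [abs_mul, abs_mul, abs_mul, abs_of_nonneg he, abs_of_nonneg hXp]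
        have a1 := hsg τ hτ
        have a2 := hsub τ hτ
        have hX0 : 0 ≤ X := hXp.trans hX
        calc e * (∏ l ∈ U, Yw l) * |sg τ| * |m (fun d => (∏ l ∈ U, ((Yw l)⁻¹ * Rt l d)) * u τ d * Q d)| ≤
              e * X * 1 * b := by gcongr
          _ = _ := by ring
      rw [List.length_cons]
      push_cast
      linarith
  have h2 := h1 Lw fun _ h => h
  have e3 : (fun d => (∏ l ∈ U, Rt l d) * Sw d * Q d) =
      fun d => (∏ l ∈ U, Rt l d) * (e * (Lw.map fun τ => sg τ * u τ d).sum) * Q d := by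
    funext d; rw [hS]
  rw [e3]
  refine h2.trans ?_
  have hlr : (Lw.length : ℝ) ≤ p0 := by exact_mod_cast hlen
  have hX0 : 0 ≤ X := hXp.trans hX
  calc (Lw.length : ℝ) * (e * X * b) ≤ p0 * (e * X * b) := mul_le_mul_of_nonneg_right hlr (by positivity)
    _ = _ := by ring

end

end Pool.Agent.GMN
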