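import Pool.Agent.GMN.Run
import Pool.Agent.GMN.Hub

/-!
# GMN.Ind (row N, 3.1 (c), NM.4): one individual as a machine

`Nd` = the data of an individual at a node: mean `m` over the window, target `u`, multipliers `v s`.
State `St`: history `H` (error `u - ∑ c g v_s`), tests seen so far `T` (reference, function, accuracy), flags `on`.
`val` = `m (g v_s clip_Y (error))`; `N(s) = max over the tests of s of |val| / accuracy`: `on s` is set if `N ≥ 1` and
kept as long as `N ≥ 1/2`.  Event `evt`: reset (R0) if the Huber mean exceeds `4`, new tests, flags.  Use `use s`: the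
first test of `s` with `|val| ≥ accuracy / 2`.
-/

set_option autoImplicit false
set_option linter.unusedSectionVars false

namespace Pool.Agent.GMN.Ru

open Finset Pool.Agent.PWZ Pool.Agent.M3

noncomputable section

/-- reference, function, number (accuracy of a test, coefficient of a use) -/
structure Tst (R V : Type*) where
  s : R
  g : V → ℝ
  e : ℝ

/-- data of an individual at a node -/
structure Nd (R V : Type*) where
  m : (V → ℝ) → ℝ
  u : V → ℝ
  v : R → V → ℝ

/-- state of an individual -/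
structure St (R V : Type*) where
  H : List (Tst R V)
  T : List (Tst R V)
  on : R → Prop

variable {R V : Type*}

@[ext] theorem St.ext' {a b : St R V} (h1 : a.H = b.H) (h2 : a.T = b.T) (h3 : a.on = b.on) : a = b := by
  cases a; cases b; simp_all

/-- the error -/
def err (x : Nd R V) (H : List (Tst R V)) : V → ℝ := fun d => x.u d - (H.map fun p => p.e * (p.g d * x.v p.s d)).sum

/-- the value of a test -/
def val (Y : ℝ) (x : Nd R V) (H : List (Tst R V)) (p : Tst R V) : ℝ :=
  x.m fun d => (p.g d * x.v p.s d) * clip Y (err x H d)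

/-- Huber mean of the error -/
def hubm (Y : ℝ) (x : Nd R V) (H : List (Tst R V)) : ℝ := x.m fun d => hub Y (err x H d)

/-- new flags -/
def flag (Y : ℝ) (x : Nd R V) (H T : List (Tst R V)) (on : R → Prop) : R → Prop := fun s =>
  (∃ p ∈ T, p.s = s ∧ p.e ≤ |val Y x H p|) ∨ (on s ∧ ∃ p ∈ T, p.s = s ∧ p.e / 2 ≤ |val Y x H p|)

open Classical in
/-- history after (R0) -/
def rzero (Y : ℝ) (x : Nd R V) (H : List (Tst R V)) : List (Tst R V) := if 4 < hubm Y x H then [] else H

/-- an event: (R0), new tests, flags -/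
def evt (Y : ℝ) (x : Nd R V) (nw : List (Tst R V)) (z : St R V) : St R V :=
  ⟨rzero Y x z.H, z.T ++ nw, flag Y x (rzero Y x z.H) (z.T ++ nw) z.on⟩

open Classical in
/-- the test used for `s` -/
def fnd (Y : ℝ) (x : Nd R V) (s : R) (z : St R V) : Option (Tst R V) :=
  z.T.find? fun p => decide (p.s = s ∧ p.e / 2 ≤ |val Y x z.H p|)

open Classical in
/-- the entry of the history -/
def ent (Y : ℝ) (x : Nd R V) (H : List (Tst R V)) (p : Tst R V) : Tst R V :=
  ⟨p.s, p.g, (if 0 ≤ val Y x H p then 1 else -1) * (p.e / 2)⟩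

/-- a use of `s` -/
def use (Y : ℝ) (x : Nd R V) (s : R) (z : St R V) : St R V :=
  match fnd Y x s z with
  | some p => ⟨ent Y x z.H p :: z.H, z.T, flag Y x (ent Y x z.H p :: z.H) z.T z.on⟩
  | none => z

/-- the machine of an individual -/
def mach (Y : ℝ) (x : ℕ → Nd R V) (nw : ℕ → List (Tst R V)) : Mach R (St R V) where
  z := ⟨[], [], fun _ => False⟩
  ev i := evt Y (x i) (nw i)
  us i s := use Y (x i) s
  on _ z s := z.on s

/-- the flags agree with the tests -/
def Cons (Y : ℝ) (x : Nd R V) (z : St R V) : Prop :=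
  ∀ s, (z.on s → ∃ p ∈ z.T, p.s = s ∧ p.e / 2 ≤ |val Y x z.H p|) ∧
    (¬ z.on s → ∀ p ∈ z.T, p.s = s → |val Y x z.H p| < p.e)

variable {Y : ℝ} {x : Nd R V} {z : St R V}

theorem flag_cons (hT : ∀ p ∈ z.T, 0 ≤ p.e) (H : List (Tst R V)) (on : R → Prop) :
    Cons Y x ⟨H, z.T, flag Y x H z.T on⟩ := by
  intro s
  refine ⟨?_, ?_⟩
  · rintro (⟨p, hp, h1, h2⟩ | ⟨-, h⟩)
    · exact ⟨p, hp, h1, by have := hT p hp; linarith⟩
    · exact h
  · intro h p hp hs
    by_contra hc
    exact h (Or.inl ⟨p, hp, hs, not_lt.1 hc⟩)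

theorem cons_evt {nw : List (Tst R V)} (hT : ∀ p ∈ z.T ++ nw, 0 ≤ p.e) : Cons Y x (evt Y x nw z) :=
  flag_cons (z := ⟨z.H, z.T ++ nw, z.on⟩) hT _ _

theorem cons_use (hz : Cons Y x z) (hT : ∀ p ∈ z.T, 0 ≤ p.e) (s : R) : Cons Y x (use Y x s z) := by
  unfold use
  cases h : fnd Y x s z with
  | none => exact hz
  | some p => exact flag_cons hT _ _

theorem use_T (s : R) : (use Y x s z).T = z.T := by
  unfold use
  cases h : fnd Y x s z <;> rfl

theorem fnd_some {s : R} {p : Tst R V} (h : fnd Y x s z = some p) :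
    p ∈ z.T ∧ p.s = s ∧ p.e / 2 ≤ |val Y x z.H p| := by
  classical
  unfold fnd at h
  have h1 := List.find?_some h
  refine ⟨List.mem_of_find?_eq_some h, ?_⟩
  simpa using h1

theorem fnd_ex {s : R} (h : ∃ p ∈ z.T, p.s = s ∧ p.e / 2 ≤ |val Y x z.H p|) : ∃ p, fnd Y x s z = some p := by
  classical
  cases hf : fnd Y x s z with
  | some p => exact ⟨p, rfl⟩
  | none =>
    exfalso
    obtain ⟨p, hp, h1⟩ := h
    unfold fnd at hf
    have := List.find?_eq_none.1 hf p hp
    simp only [decide_eq_true_eq] at this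
    exact this h1

/-- the error after an entry -/
theorem err_cons (x : Nd R V) (p : Tst R V) (H : List (Tst R V)) (d : V) :
    err x (p :: H) d = err x H d - p.e * (p.g d * x.v p.s d) := by
  unfold err
  rw [List.map_cons, List.sum_cons]
  ring

/-- **a use lowers the Huber mean** -/
theorem use_drop (hm : IsMean x.m) (hY : 0 ≤ Y) (hv : ∀ s d, |x.v s d| ≤ 1) {es : ℝ} (hes : 0 < es)
    (hT : ∀ p ∈ z.T, es ≤ p.e ∧ ∀ d, |p.g d| ≤ 1) (hz : Cons Y x z) {s : R} (hs : z.on s) :
    hubm Y x (use Y x s z).H + es ^ 2 / 4 ≤ hubm Y x z.H := by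
  obtain ⟨p, hp⟩ := fnd_ex ((hz s).1 hs)
  obtain ⟨h1, h2, h3⟩ := fnd_some hp
  obtain ⟨he, hg⟩ := hT p h1
  have e1 : (use Y x s z).H = ent Y x z.H p :: z.H := by
    unfold use
    rw [hp]
  rw [e1]
  set σ : ℝ := if 0 ≤ val Y x z.H p then 1 else -1 with hσ
  have hσ1 : |σ| ≤ 1 := by
    rw [hσ]
    split_ifs <;> simp
  have hσ2 : σ * val Y x z.H p = |val Y x z.H p| := by
    rw [hσ]
    split_ifs with h
    · rw [abs_of_nonneg h, one_mul]
    · rw [abs_of_neg (not_le.1 h)]; ring
  have hgv : ∀ d, |p.g d * x.v p.s d| ≤ 1 := fun d => by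
    rw [abs_mul]
    exact mul_le_one₀ (hg d) (abs_nonneg _) (hv _ d)
  have hstep := huber_step_sign (E := err x z.H) (g := fun d => p.g d * x.v p.s d) hm hY hgv (b := p.e / 2)
    (b' := p.e / 2) (by linarith) hσ1 (by
      have e : x.m (fun d => (p.g d * x.v p.s d) * clip Y (err x z.H d)) = val Y x z.H p := rfl
      rw [e, hσ2]
      exact h3)
  have e2 : hubm Y x (ent Y x z.H p :: z.H) =
      x.m (fun d => hub Y (err x z.H d - σ * (p.e / 2) * (p.g d * x.v p.s d))) := by
    unfold hubm
    congr 1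
    funext d
    rw [err_cons]
    unfold ent
    simp only
    rw [hσ]
  rw [e2]
  have e3 : hubm Y x z.H = x.m (fun d => hub Y (err x z.H d)) := rfl
  rw [e3]
  nlinarith [sq_nonneg (p.e - es)]

theorem hubm_nonneg (hm : IsMean x.m) (hY : 0 ≤ Y) (H : List (Tst R V)) : 0 ≤ hubm Y x H :=
  hm.nonneg fun _ => hub_nonneg hY _

/-- after (R0) the Huber mean is at most `4` -/
theorem hubm_rzero (hm : IsMean x.m) (hY : 0 ≤ Y) (hu : ∀ d, |x.u d| ≤ 1) (H : List (Tst R V)) :
    hubm Y x (rzero Y x H) ≤ 4 := by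
  unfold rzero
  split_ifs with h
  · have h1 : hubm Y x ([] : List (Tst R V)) ≤ 1 := by
      unfold hubm
      refine hm.le_const fun d => ?_
      have : err x [] d = x.u d := by unfold err; simp
      rw [this]
      exact hub_le_one hY (hu d)
    linarith
  · exact not_lt.1 h

theorem rzero_of_le {H : List (Tst R V)} (h : hubm Y x H ≤ 4) : rzero Y x H = H := by
  unfold rzero
  rw [if_neg (not_lt.2 h)]

/-- an idle event does nothing -/
theorem evt_nil (hz : Cons Y x z) (h : hubm Y x z.H ≤ 4) : evt Y x [] z = z := by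
  have e1 : rzero Y x z.H = z.H := rzero_of_le h
  refine St.ext' e1 (List.append_nil _) ?_
  funext s
  apply propext
  show flag Y x (rzero Y x z.H) (z.T ++ []) z.on s ↔ z.on s
  rw [e1, List.append_nil]
  constructor
  · rintro (⟨p, hp, h1, h2⟩ | h1)
    · by_contra hc
      exact absurd ((hz s).2 hc p hp h1) (not_lt.2 h2)
    · exact h1.1
  · intro hs
    exact Or.inr ⟨hs, (hz s).1 hs⟩

/-! ### the machine -/

section machine

variable [Fintype R] [LinearOrder R]

/-- bounds on the data of an individual -/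
structure IndB (Y es : ℝ) (x : ℕ → Nd R V) (nw : ℕ → List (Tst R V)) : Prop where
  Y0 : 0 ≤ Y
  es0 : 0 < es
  m : ∀ i, IsMean (x i).m
  u : ∀ i d, |(x i).u d| ≤ 1
  v : ∀ i s d, |(x i).v s d| ≤ 1
  nw : ∀ i, ∀ p ∈ nw i, es ≤ p.e ∧ ∀ d, |p.g d| ≤ 1

variable {es : ℝ} {x : ℕ → Nd R V} {nw : ℕ → List (Tst R V)} {A : ℕ → R → Prop} {N : ℕ}

/-- the tests seen up to time `i` -/
def testsTo (nw : ℕ → List (Tst R V)) : ℕ → List (Tst R V)
  | 0 => nw 0
  | i + 1 => testsTo nw i ++ nw (i + 1)

theorem mem_testsTo {nw : ℕ → List (Tst R V)} {i : ℕ} {p : Tst R V} :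
    p ∈ testsTo nw i ↔ ∃ j ≤ i, p ∈ nw j := by
  induction i with
  | zero =>
    constructor
    · exact fun h => ⟨0, le_rfl, h⟩
    · rintro ⟨j, hj, h⟩
      rw [Nat.le_zero.1 hj] at h
      exact h
  | succ i ih =>
    show p ∈ testsTo nw i ++ nw (i + 1) ↔ _
    rw [List.mem_append, ih]
    constructor
    · rintro (⟨j, hj, h⟩ | h)
      · exact ⟨j, by omega, h⟩
      · exact ⟨i + 1, le_rfl, h⟩
    · rintro ⟨j, hj, h⟩
      rcases Nat.lt_or_ge j (i + 1) with h1 | h1
      · exact Or.inl ⟨j, by omega, h⟩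
      · have : j = i + 1 := by omega
        subst this
        exact Or.inr h

/-- the tests of the state -/
theorem step_T (i : ℕ) (B : R → Prop) (z : St R V) : ((mach Y x nw).step i B z).T = z.T := by
  unfold Mach.step
  cases (mach Y x nw).pick i B z with
  | none => rfl
  | some s => exact use_T s

theorem iter_T (i k : ℕ) (B : R → Prop) (z : St R V) : (((mach Y x nw).step i B)^[k] z).T = z.T := by
  induction k generalizing z with
  | zero => rfl
  | succ k ih => rw [Function.iterate_succ_apply, ih, step_T]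

theorem mic_T (i k : ℕ) : ((mach Y x nw).mic A N i k).T = testsTo nw i := by
  have h0 : ∀ i, ((mach Y x nw).mic A N i 0).T = testsTo nw i := by
    intro i
    induction i with
    | zero =>
      show ([] : List (Tst R V)) ++ nw 0 = nw 0
      rw [List.nil_append]
    | succ i ih =>
      rw [Mach.mic_zero_succ]
      show ((mach Y x nw).mic A N i N).T ++ nw (i + 1) = testsTo nw i ++ nw (i + 1)
      congr 1
      rw [← ih]
      exact iter_T i N (A i) _
  rw [← h0 i]
  exact iter_T i k (A i) _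

theorem testsTo_bd (hB : IndB Y es x nw) (i : ℕ) : ∀ p ∈ testsTo nw i, es ≤ p.e ∧ ∀ d, |p.g d| ≤ 1 := by
  intro p hp
  obtain ⟨j, -, h⟩ := mem_testsTo.1 hp
  exact hB.nw j p h

theorem mic_bd (hB : IndB Y es x nw) (i k : ℕ) :
    ∀ p ∈ ((mach Y x nw).mic A N i k).T, es ≤ p.e ∧ ∀ d, |p.g d| ≤ 1 := by
  rw [mic_T]
  exact testsTo_bd hB i

theorem mic_e0 (hB : IndB Y es x nw) (i k : ℕ) : ∀ p ∈ ((mach Y x nw).mic A N i k).T, 0 ≤ p.e :=
  fun p hp => hB.es0.le.trans (mic_bd hB i k p hp).1

/-- flags are consistent at every micro moment -/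
theorem mic_cons (hB : IndB Y es x nw) (i k : ℕ) : Cons Y (x i) ((mach Y x nw).mic A N i k) := by
  induction k with
  | zero =>
    have h : ∀ p ∈ ((mach Y x nw).pre A N i).T ++ nw i, 0 ≤ p.e := by
      have e : ((mach Y x nw).pre A N i).T ++ nw i = testsTo nw i := mic_T (A := A) (N := N) i 0
      rw [e]
      exact fun p hp => hB.es0.le.trans (testsTo_bd hB i p hp).1
    exact cons_evt h
  | succ k ih =>
    rw [Mach.mic_succ]
    unfold Mach.step
    cases (mach Y x nw).pick i (A i) ((mach Y x nw).mic A N i k) with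
    | none => exact ih
    | some s => exact cons_use ih (mic_e0 hB i k) s

/-- the number of uses at time `i` before the micro moment `k` -/
def cu (M : Mach R (St R V)) (A : ℕ → R → Prop) (N i k : ℕ) : ℝ := ∑ l ∈ range k, ind (M.pk A N i l ≠ none)

theorem cu_nonneg (M : Mach R (St R V)) (k i : ℕ) : 0 ≤ cu M A N i k := Finset.sum_nonneg fun _ _ => ind_nonneg _

theorem cu_succ (M : Mach R (St R V)) (i k : ℕ) :
    cu M A N i (k + 1) = cu M A N i k + ind (M.pk A N i k ≠ none) := by
  unfold cu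
  rw [Finset.sum_range_succ]

theorem cu_mono (M : Mach R (St R V)) (i : ℕ) {k l : ℕ} (h : k ≤ l) : cu M A N i k ≤ cu M A N i l := by
  unfold cu
  exact Finset.sum_le_sum_of_subset_of_nonneg (Finset.range_mono h) fun _ _ _ => ind_nonneg _

/-- energy of the uses at one time -/
theorem mic_hub (hB : IndB Y es x nw) (i k : ℕ) :
    hubm Y (x i) ((mach Y x nw).mic A N i k).H + es ^ 2 / 4 * cu (mach Y x nw) A N i k ≤
      hubm Y (x i) ((mach Y x nw).mic A N i 0).H := by
  induction k with
  | zero =>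
    unfold cu
    simp
  | succ k ih =>
    rw [cu_succ]
    cases hp : (mach Y x nw).pk A N i k with
    | none =>
      rw [Mach.mic_of_pk_none _ hp, ind_not (by simp), add_zero]
      exact ih
    | some s =>
      rw [Mach.mic_of_pk_some _ hp, ind_of (by simp)]
      have hon : ((mach Y x nw).mic A N i k).on s := (Mach.pick_some.1 hp).1.1
      have h1 := use_drop (hB.m i) hB.Y0 (hB.v i) hB.es0 (mic_bd hB i k) (mic_cons hB i k) hon
      have e : (mach Y x nw).us i s ((mach Y x nw).mic A N i k) = use Y (x i) s ((mach Y x nw).mic A N i k) := rfl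
      rw [e]
      nlinarith

theorem mic_hub4 (hB : IndB Y es x nw) (i k : ℕ) : hubm Y (x i) ((mach Y x nw).mic A N i k).H ≤ 4 := by
  have h1 := mic_hub (A := A) (N := N) hB i k
  have h2 : hubm Y (x i) ((mach Y x nw).mic A N i 0).H ≤ 4 := hubm_rzero (hB.m i) hB.Y0 (hB.u i) _
  have h3 := cu_nonneg (A := A) (N := N) (mach Y x nw) k i
  have h4 : 0 ≤ es ^ 2 / 4 * cu (mach Y x nw) A N i k := mul_nonneg (by positivity) h3
  linarith

/-- at most `16 / es ^ 2` uses at one time -/
theorem cu_le (hB : IndB Y es x nw) (i k : ℕ) : cu (mach Y x nw) A N i k ≤ 16 / es ^ 2 := by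
  have h1 := mic_hub (A := A) (N := N) hB i k
  have h2 := mic_hub4 (A := A) (N := N) hB i 0
  have h3 := hubm_nonneg (hB.m i) hB.Y0 ((mach Y x nw).mic A N i k).H
  have h4 := hB.es0
  rw [le_div_iff₀ (by positivity)]
  nlinarith

/-- before an active moment all moments are active -/
theorem cu_full {M : Mach R (St R V)} {i k : ℕ} (h : M.pk A N i k ≠ none) : cu M A N i (k + 1) = k + 1 := by
  unfold cu
  have h1 : ∀ l ∈ range (k + 1), ind (M.pk A N i l ≠ none) = 1 := by
    intro l hl
    rw [Finset.mem_range] at hl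
    refine ind_of fun hn => h ?_
    exact (M.mic_idle hn (by omega : l ≤ k)).2
  rw [Finset.sum_congr rfl h1, Finset.sum_const, Finset.card_range]
  simp

/-- **termination** -/
theorem pk_none (hB : IndB Y es x nw) (i : ℕ) {k : ℕ} (hk : 16 / es ^ 2 < k + 1) :
    (mach Y x nw).pk A N i k = none := by
  by_contra h
  have h1 := cu_full h
  have h2 := cu_le (A := A) (N := N) hB i (k + 1)
  rw [h1] at h2
  linarith

/-- **(P1)**: after the uses every test of an allowed reference is below its accuracy -/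
theorem P1 (hB : IndB Y es x nw) (hN : 16 / es ^ 2 < N + 1) (i : ℕ) {s : R} (hs : A i s) {p : Tst R V}
    (hp : p ∈ testsTo nw i) (hps : p.s = s) : |val Y (x i) ((mach Y x nw).mic A N i N).H p| < p.e := by
  have h1 := pk_none (A := A) (N := N) hB i hN
  have h2 : ¬ ((mach Y x nw).mic A N i N).on s := fun h => Mach.pick_none.1 h1 s h hs
  exact (mic_cons hB i N s).2 h2 p (by rw [mic_T]; exact hp) hps

/-- the event inside a block -/
theorem next_H (hB : IndB Y es x nw) {i : ℕ} (hx : x (i + 1) = x i) :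
    ((mach Y x nw).mic A N (i + 1) 0).H = ((mach Y x nw).mic A N i N).H := by
  rw [Mach.mic_zero_succ]
  show rzero Y (x (i + 1)) ((mach Y x nw).mic A N i N).H = _
  rw [hx]
  exact rzero_of_le (mic_hub4 hB i N)

/-- **a publication with a large value is followed by a use** -/
theorem pub_use (hB : IndB Y es x nw) {i : ℕ} (hx : x (i + 1) = x i) {p : Tst R V} (hp : p ∈ nw (i + 1))
    (hv : p.e ≤ |val Y (x i) ((mach Y x nw).mic A N i N).H p|) (hA : A (i + 1) p.s) (hN : 1 ≤ N) :
    1 ≤ cu (mach Y x nw) A N (i + 1) N := by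
  have h1 : ((mach Y x nw).mic A N (i + 1) 0).on p.s := by
    by_contra hc
    have h2 := (mic_cons (A := A) (N := N) hB (i + 1) 0 p.s).2 hc p (by
      rw [mic_T]
      exact mem_testsTo.2 ⟨i + 1, le_rfl, hp⟩) rfl
    rw [next_H hB hx, hx] at h2
    linarith
  have h2 : (mach Y x nw).pk A N (i + 1) 0 ≠ none := fun h => Mach.pick_none.1 h p.s h1 hA
  have h3 := cu_full h2
  have h4 := cu_mono (A := A) (N := N) (mach Y x nw) (i + 1) (show 0 + 1 ≤ N by omega)
  rw [h3] at h4
  simpa using h4

/-- uses in a block of constant data: from time `i` (excluded) to time `i + n` -/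
theorem block_uses (hB : IndB Y es x nw) (i n : ℕ) (hx : ∀ j < n, x (i + (j + 1)) = x i) :
    hubm Y (x i) ((mach Y x nw).mic A N (i + n) N).H +
      es ^ 2 / 4 * ∑ j ∈ range n, cu (mach Y x nw) A N (i + (j + 1)) N ≤
      hubm Y (x i) ((mach Y x nw).mic A N i N).H := by
  induction n with
  | zero => simp
  | succ n ih =>
    have h1 := ih fun j hj => hx j (by omega)
    have h2 := mic_hub (A := A) (N := N) hB (i + (n + 1)) N
    have e1 : x (i + (n + 1)) = x i := hx n (by omega)
    have e2 : x (i + n) = x i := by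
      cases n with
      | zero => rfl
      | succ n => exact hx n (by omega)
    have h3 : ((mach Y x nw).mic A N (i + (n + 1)) 0).H = ((mach Y x nw).mic A N (i + n) N).H :=
      next_H hB (i := i + n) (by rw [e2]; exact e1)
    rw [e1, h3] at h2
    rw [Finset.sum_range_succ]
    have : es ^ 2 / 4 * (∑ j ∈ range n, cu (mach Y x nw) A N (i + (j + 1)) N +
        cu (mach Y x nw) A N (i + (n + 1)) N) =
        es ^ 2 / 4 * ∑ j ∈ range n, cu (mach Y x nw) A N (i + (j + 1)) N +
        es ^ 2 / 4 * cu (mach Y x nw) A N (i + (n + 1)) N := by ring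
    rw [this]
    linarith

theorem block_bd (hB : IndB Y es x nw) (i n : ℕ) (hx : ∀ j < n, x (i + (j + 1)) = x i) :
    ∑ j ∈ range n, cu (mach Y x nw) A N (i + (j + 1)) N ≤ 16 / es ^ 2 := by
  have h1 := block_uses (A := A) (N := N) hB i n hx
  have h2 := mic_hub4 (A := A) (N := N) hB i N
  have h3 := hubm_nonneg (hB.m i) hB.Y0 ((mach Y x nw).mic A N (i + n) N).H
  have h4 := hB.es0
  rw [le_div_iff₀ (by positivity)]
  nlinarith

/-- idle times: same data, no new test, same allowed set, nothing was possible -/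
theorem idle_st (hB : IndB Y es x nw) (hN : 16 / es ^ 2 < N + 1) {i : ℕ} (hx : x (i + 1) = x i)
    (hn : nw (i + 1) = []) (hA : A (i + 1) = A i) (k : ℕ) :
    (mach Y x nw).mic A N (i + 1) k = (mach Y x nw).mic A N i N := by
  have h1 := pk_none (A := A) (N := N) hB i hN
  have h0 : (mach Y x nw).mic A N (i + 1) 0 = (mach Y x nw).mic A N i N := by
    rw [Mach.mic_zero_succ]
    show evt Y (x (i + 1)) (nw (i + 1)) _ = _
    rw [hx, hn]
    exact evt_nil (mic_cons hB i N) (mic_hub4 hB i N)
  have h2 : (mach Y x nw).pk A N (i + 1) 0 = none := by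
    unfold Mach.pk at h1 ⊢
    rw [h0, hA]
    exact h1
  rw [((mach Y x nw).mic_idle h2 (Nat.zero_le k)).1, h0]

end machine

end

end Pool.Agent.GMN.Ru
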