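import Pool.Agent.M3.S1Tail

/-!
# GMN/Tail (helper58): exponential tails of a counting process from every state and from the start of a client

`c t` adapted to `K t`, increasing, jumps at most `Jm`; from every state of a time `t ≤ T` the mean of `c T - c t` is at
most `Mu`.  Then, with `b = 2 Mu + Jm + 1`, from every state of every time `s ≤ T`:
`P(c T - c s ≥ k b | K s) ≤ 2^(-k)`.
* `tail_fut` : against nonnegative functions of the state of the time `s`;
* `tail_ce` : conditional form;  `tail` : `s = 0`;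
* `tail_start` : from the start of a client (disjoint events `A s`, functions of the state of the time `s`), relative to the
  probability that the client starts.
-/

set_option autoImplicit false
set_option linter.unusedSectionVars false

namespace Pool.Agent.GMN

open Finset Pool.Agent.PWZ Pool.Agent.M3

noncomputable section

variable {Om : Type*} [Fintype Om] (P : FP Om) {κ : ℕ → Type*} {K : ∀ t, Om → κ t}

/-- the hypothesis against functions of the state, from the conditional form -/
theorem fut_of_ce {T : ℕ} {c : ℕ → Om → ℝ} {Mu : ℝ}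
    (h : ∀ t ≤ T, ∀ w, P.p w ≠ 0 → P.ce (K t) (fun v => c T v - c t v) w ≤ Mu) :
    ∀ t ≤ T, ∀ f : Om → ℝ, Fac (K t) f → (∀ w, 0 ≤ f w) → P.E (fun w => f w * (c T w - c t w)) ≤ Mu * P.E f := by
  intro t ht f hf hf0
  rw [← P.E_mul_ce hf, ← P.E_smul]
  refine P.E_mono (fun w hw => ?_)
  have := mul_le_mul_of_nonneg_left (h t ht w hw) (hf0 w)
  linarith

theorem tail_fut (hK : Filt K) {T : ℕ} {c : ℕ → Om → ℝ} (hc : ∀ t, Fac (K t) (c t))
    (hmono : ∀ t w, c t w ≤ c (t + 1) w) {Jm Mu : ℝ} (hJ : ∀ t w, c (t + 1) w - c t w ≤ Jm) (hMu : 0 ≤ Mu)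
    (hfut : ∀ t ≤ T, ∀ f : Om → ℝ, Fac (K t) f → (∀ w, 0 ≤ f w) →
      P.E (fun w => f w * (c T w - c t w)) ≤ Mu * P.E f) (k : ℕ) :
    ∀ s ≤ T, ∀ f : Om → ℝ, Fac (K s) f → (∀ w, 0 ≤ f w) →
      P.E (fun w => f w * ind ((k : ℝ) * (2 * Mu + Jm + 1) ≤ c T w - c s w)) ≤ (1 / 2) ^ k * P.E f := by
  have hle : ∀ m n w, m ≤ n → c m w ≤ c n w := by
    intro m n w hmn
    induction n, hmn using Nat.le_induction with
    | base => exact le_rfl
    | succ n _ ih => exact ih.trans (hmono n w)
  induction k with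
  | zero =>
    intro s _ f _ hf0
    rw [pow_zero, one_mul]
    refine P.E_mono (fun w _ => ?_)
    have := ind_le_one ((((0 : ℕ) : ℝ)) * (2 * Mu + Jm + 1) ≤ c T w - c s w)
    nlinarith [hf0 w]
  | succ k ih =>
    intro s hs f hf hf0
    set b : ℝ := 2 * Mu + Jm + 1 with hb
    set a : ℝ := 2 * Mu + 1 with ha
    have ha0 : 0 < a := by rw [ha]; linarith
    set Z : ℕ → Om → ℝ := fun n w => c (s + n) w - c s w with hZ
    have hK' : Filt (fun n => K (s + n)) := fun n => hK (s + n)
    have hZf : ∀ n, Fac (K (s + n)) (Z n) := fun n =>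
      (hc (s + n)).sub ((hK.le (Nat.le_add_right s n)).trans (hc s))
    have hZm : ∀ n w, Z n w ≤ Z (n + 1) w := fun n w => by
      simp only [hZ]
      have := hmono (s + n) w
      rw [← Nat.add_assoc]
      linarith
    have hJ0 : 0 ≤ Jm ∨ ∀ w : Om, False := by
      by_cases hne : Nonempty Om
      · obtain ⟨w⟩ := hne
        left
        have := hJ 0 w
        have := hmono 0 w
        linarith
      · right
        intro w
        exact hne ⟨w⟩
    have hpt : ∀ w, f w * ind (((k + 1 : ℕ) : ℝ) * b ≤ c T w - c s w) ≤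
        ∑ n ∈ range (T - s + 1), (f w * ind (FP.fst Z a n w)) * ind ((k : ℝ) * b ≤ c T w - c (s + n) w) := by
      intro w
      have hJ0' : 0 ≤ Jm := hJ0.resolve_right (fun h => h w)
      have hb0 : 0 ≤ b := by rw [hb]; linarith
      by_cases h : ((k + 1 : ℕ) : ℝ) * b ≤ c T w - c s w
      · rw [ind_of h, mul_one]
        have h1 : a ≤ Z (T - s) w := by
          simp only [hZ]
          rw [Nat.add_sub_cancel' hs]
          push_cast at h
          have h2 : b ≤ ((k : ℝ) + 1) * b := by
            have : (0 : ℝ) ≤ k * b := mul_nonneg (Nat.cast_nonneg k) hb0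
            linarith
          have : a ≤ b := by rw [ha, hb]; linarith
          linarith
        have h3 := FP.ind_fst_sum hZm a (T - s) w
        rw [ind_of h1] at h3
        -- some first time
        obtain ⟨n, hn, hfn⟩ : ∃ n ∈ range (T - s + 1), FP.fst Z a n w := by
          by_contra hcon
          push Not at hcon
          have : ∑ n ∈ range (T - s + 1), ind (FP.fst Z a n w) = 0 :=
            Finset.sum_eq_zero (fun n hn => ind_not (hcon n hn))
          rw [this] at h3
          exact zero_ne_one h3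
        have hn0 : n ≠ 0 := by
          rintro rfl
          have := hfn.1
          simp only [hZ, Nat.add_zero, sub_self] at this
          linarith
        obtain ⟨n', rfl⟩ := Nat.exists_eq_succ_of_ne_zero hn0
        have h4 : Z n' w < a := hfn.2 n' (Nat.lt_succ_self n')
        have h5 : c (s + (n' + 1)) w - c s w < b := by
          simp only [hZ] at h4
          have := hJ (s + n') w
          rw [← Nat.add_assoc]
          rw [hb]
          rw [ha] at h4
          linarith
        have h6 : (k : ℝ) * b ≤ c T w - c (s + (n' + 1)) w := by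
          push_cast at h
          linarith
        have h7 : f w = (f w * ind (FP.fst Z a (n' + 1) w)) * ind ((k : ℝ) * b ≤ c T w - c (s + (n' + 1)) w) := by
          rw [ind_of hfn, ind_of h6, mul_one, mul_one]
        refine h7.le.trans ?_
        refine Finset.single_le_sum (f := fun n => (f w * ind (FP.fst Z a n w)) *
          ind ((k : ℝ) * b ≤ c T w - c (s + n) w)) (fun n _ => ?_) hn
        exact mul_nonneg (mul_nonneg (hf0 w) (ind_nonneg _)) (ind_nonneg _)
      · rw [ind_not h, mul_zero]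
        exact Finset.sum_nonneg (fun n _ => mul_nonneg (mul_nonneg (hf0 w) (ind_nonneg _)) (ind_nonneg _))
    calc P.E (fun w => f w * ind (((k + 1 : ℕ) : ℝ) * b ≤ c T w - c s w))
        ≤ P.E (fun w => ∑ n ∈ range (T - s + 1), (f w * ind (FP.fst Z a n w)) *
            ind ((k : ℝ) * b ≤ c T w - c (s + n) w)) := P.E_mono (fun w _ => hpt w)
      _ = ∑ n ∈ range (T - s + 1), P.E (fun w => (f w * ind (FP.fst Z a n w)) *
            ind ((k : ℝ) * b ≤ c T w - c (s + n) w)) := P.E_sum _ _
      _ ≤ ∑ n ∈ range (T - s + 1), (1 / 2) ^ k * P.E (fun w => f w * ind (FP.fst Z a n w)) := by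
          refine Finset.sum_le_sum (fun n hn => ?_)
          refine ih (s + n) (by rw [Finset.mem_range] at hn; omega) _ ?_ ?_
          · exact ((hK.le (Nat.le_add_right s n)).trans hf).mul (FP.fst_fac hK' hZf a n)
          · exact fun w => mul_nonneg (hf0 w) (ind_nonneg _)
      _ = (1 / 2) ^ k * P.E (fun w => f w * ind (a ≤ Z (T - s) w)) := by
          rw [← Finset.mul_sum, ← P.E_sum]
          congr 1
          refine P.E_congr (fun w _ => ?_)
          rw [← Finset.mul_sum, FP.ind_fst_sum hZm]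
      _ ≤ (1 / 2) ^ k * (1 / 2 * P.E f) := by
          refine mul_le_mul_of_nonneg_left ?_ (by positivity)
          have h1 : a * P.E (fun w => f w * ind (a ≤ Z (T - s) w)) ≤ P.E (fun w => f w * (c T w - c s w)) := by
            rw [← P.E_smul]
            refine P.E_mono (fun w _ => ?_)
            have hZT : Z (T - s) w = c T w - c s w := by
              simp only [hZ]
              rw [Nat.add_sub_cancel' hs]
            by_cases h : a ≤ Z (T - s) w
            · rw [ind_of h, mul_one]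
              rw [hZT] at h
              nlinarith [hf0 w]
            · rw [ind_not h, mul_zero, mul_zero]
              refine mul_nonneg (hf0 w) ?_
              have := hle s T w hs
              linarith
          have h2 := hfut s hs f hf hf0
          have h3 : 0 ≤ P.E f := P.E_nonneg (fun w _ => hf0 w)
          have h4 : a * P.E (fun w => f w * ind (a ≤ Z (T - s) w)) ≤ a * (1 / 2 * P.E f) := by
            have : Mu * P.E f ≤ a * (1 / 2 * P.E f) := by
              rw [ha]
              nlinarith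
            linarith
          exact le_of_mul_le_mul_left h4 ha0
      _ = (1 / 2) ^ (k + 1) * P.E f := by ring

/-- conditional form -/
theorem tail_ce (hK : Filt K) {T : ℕ} {c : ℕ → Om → ℝ} (hc : ∀ t, Fac (K t) (c t))
    (hmono : ∀ t w, c t w ≤ c (t + 1) w) {Jm Mu : ℝ} (hJ : ∀ t w, c (t + 1) w - c t w ≤ Jm) (hMu : 0 ≤ Mu)
    (hfut : ∀ t ≤ T, ∀ w, P.p w ≠ 0 → P.ce (K t) (fun v => c T v - c t v) w ≤ Mu) (k : ℕ) {s : ℕ} (hs : s ≤ T)
    {w : Om} (hw : P.p w ≠ 0) :
    P.ce (K s) (fun v => ind ((k : ℝ) * (2 * Mu + Jm + 1) ≤ c T v - c s v)) w ≤ (1 / 2) ^ k := by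
  have h := tail_fut P hK hc hmono hJ hMu (fut_of_ce P hfut) k s hs (fun v => ind (K s v = K s w))
    (Fac.ind (fun v v' hv => by rw [hv])) (fun v => ind_nonneg _)
  unfold FP.ce
  rw [div_le_iff₀ (P.m_pos (K s) hw)]
  exact h

/-- from the beginning -/
theorem tail (hK : Filt K) {T : ℕ} {c : ℕ → Om → ℝ} (hc : ∀ t, Fac (K t) (c t))
    (hmono : ∀ t w, c t w ≤ c (t + 1) w) {Jm Mu : ℝ} (hJ : ∀ t w, c (t + 1) w - c t w ≤ Jm) (hMu : 0 ≤ Mu)
    (hfut : ∀ t ≤ T, ∀ w, P.p w ≠ 0 → P.ce (K t) (fun v => c T v - c t v) w ≤ Mu) (k : ℕ) :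
    P.Pr (fun w => (k : ℝ) * (2 * Mu + Jm + 1) ≤ c T w - c 0 w) ≤ (1 / 2) ^ k := by
  have h := tail_fut P hK hc hmono hJ hMu (fut_of_ce P hfut) k 0 (Nat.zero_le T) (fun _ => 1)
    (fun _ _ _ => rfl) (fun _ => zero_le_one)
  rw [P.E_const, mul_one] at h
  refine le_trans (le_of_eq ?_) h
  exact P.E_congr (fun w _ => (one_mul _).symm)

/-- from the start of a client: `A s` = the client starts at the time `s` -/
theorem tail_start (hK : Filt K) {T : ℕ} {c : ℕ → Om → ℝ} (hc : ∀ t, Fac (K t) (c t))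
    (hmono : ∀ t w, c t w ≤ c (t + 1) w) {Jm Mu : ℝ} (hJ : ∀ t w, c (t + 1) w - c t w ≤ Jm) (hMu : 0 ≤ Mu)
    (hfut : ∀ t ≤ T, ∀ w, P.p w ≠ 0 → P.ce (K t) (fun v => c T v - c t v) w ≤ Mu) (k : ℕ)
    {A : ℕ → Om → Prop} (hA : ∀ s v w, K s v = K s w → (A s v ↔ A s w))
    (hdis : ∀ w s s', A s w → A s' w → s = s') :
    P.Pr (fun w => ∃ s ≤ T, A s w ∧ (k : ℝ) * (2 * Mu + Jm + 1) ≤ c T w - c s w) ≤
      (1 / 2) ^ k * P.Pr (fun w => ∃ s ≤ T, A s w) := by
  have h1 : P.Pr (fun w => ∃ s ≤ T, A s w ∧ (k : ℝ) * (2 * Mu + Jm + 1) ≤ c T w - c s w) ≤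
      ∑ s ∈ range (T + 1), P.E (fun w => ind (A s w) * ind ((k : ℝ) * (2 * Mu + Jm + 1) ≤ c T w - c s w)) := by
    rw [← P.E_sum]
    refine P.E_mono (fun w _ => ?_)
    by_cases h : ∃ s ≤ T, A s w ∧ (k : ℝ) * (2 * Mu + Jm + 1) ≤ c T w - c s w
    · rw [ind_of h]
      obtain ⟨s, hs, h2, h3⟩ := h
      have h4 : (1 : ℝ) = ind (A s w) * ind ((k : ℝ) * (2 * Mu + Jm + 1) ≤ c T w - c s w) := by
        rw [ind_of h2, ind_of h3, mul_one]
      refine h4.le.trans ?_
      exact Finset.single_le_sum (f := fun s => ind (A s w) * ind ((k : ℝ) * (2 * Mu + Jm + 1) ≤ c T w - c s w))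
        (fun s _ => mul_nonneg (ind_nonneg _) (ind_nonneg _)) (Finset.mem_range.2 (Nat.lt_succ_of_le hs))
    · rw [ind_not h]
      exact Finset.sum_nonneg (fun s _ => mul_nonneg (ind_nonneg _) (ind_nonneg _))
  refine h1.trans ?_
  have h2 : ∀ s ∈ range (T + 1), P.E (fun w => ind (A s w) *
      ind ((k : ℝ) * (2 * Mu + Jm + 1) ≤ c T w - c s w)) ≤ (1 / 2) ^ k * P.E (fun w => ind (A s w)) := by
    intro s hs
    exact tail_fut P hK hc hmono hJ hMu (fut_of_ce P hfut) k s (Nat.lt_succ_iff.1 (Finset.mem_range.1 hs))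
      (fun w => ind (A s w)) (Fac.ind (fun v w hv => hA s v w hv)) (fun w => ind_nonneg _)
  refine (Finset.sum_le_sum h2).trans ?_
  rw [← Finset.mul_sum, ← P.E_sum]
  refine mul_le_mul_of_nonneg_left ?_ (by positivity)
  refine P.E_mono (fun w _ => ?_)
  by_cases h : ∃ s ≤ T, A s w
  · rw [ind_of h]
    obtain ⟨s, hs, h3⟩ := h
    rw [Finset.sum_eq_single s]
    · exact ind_le_one _
    · intro s' _ hne
      exact ind_not (fun h4 => hne (hdis w s' s h4 h3))
    · intro hn
      exact absurd (Finset.mem_range.2 (Nat.lt_succ_of_le hs)) hn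
  · rw [ind_not h]
    refine le_of_eq (Finset.sum_eq_zero (fun s hs => ind_not (fun h3 => h ⟨s, ?_, h3⟩)))
    exact Nat.lt_succ_iff.1 (Finset.mem_range.1 hs)

end

end Pool.Agent.GMN
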