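import Pool.Agent.GMN.IndM
import Pool.Agent.GMN.Start
import Pool.Agent.GMN.Tail

/-!
# GMN/IndG (helper80): ends of stretches for every adapted increasing allowed set; exponential tail of their number

* `ends_gen` : crossing lemma for a general allowed set (`Mach.endM`); `IndM.ends_gen` : for the runs of an individual;
* `nE_tail` : `P (k (2 Nv + 2) + 1 ≤ number of ends up to T) ≤ 2 ^ (- k)`; `IndM.nE_tail`.
-/

set_option autoImplicit false
set_option linter.unusedSectionVars false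

namespace Pool.Agent.GMN

open Finset Pool.Agent.PWZ Pool.Agent.M3

noncomputable section

section gen

variable {Om R S : Type*} [Fintype Om] [Fintype R] [LinearOrder R] {κ : ℕ → Type*}
  {P : FP Om} {K : ∀ t, Om → κ t} {M : Om → Mach R S} {A : ℕ → Om → R → Prop} {N T : ℕ} {n : R}
  {q : ℕ → ℕ → Om → ℝ} {B cu : ℝ} {r : ℕ → Om → ℝ}

/-- **the crossing lemma for a general allowed set** -/
theorem ends_gen {Mu rb : ℝ} (H : OnHyp P K M A N T n q B cu r)
    {i : ℕ} (hi : i ≤ T) {F : Om → Prop} (hF : ∀ v w, K i v = K i w → (F v ↔ F w))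
    (hU : P.E (fun w => ind (F w) * ∑ t ∈ Icc i T, ∑ k ∈ range N,
      ind ((M w).pk (fun j => A j w) N t k ≠ none)) ≤ Mu * P.Pr F)
    (hr : ∑ t ∈ Ico i T, P.E (fun w => ind (F w) * r t w) ≤ rb * P.Pr F) :
    ∑ t ∈ Icc i T, P.Pr (fun w => F w ∧ (M w).endM (fun j => A j w) N n t) ≤
      (2 * B + 3 + 2 * cu * Mu + 2 * rb) * P.Pr F := by
  have h1 : ∑ t ∈ Icc i T, P.Pr (fun w => F w ∧ (M w).endM (fun j => A j w) N n t) =
      P.E (fun w => ind (F w) * ∑ t ∈ Icc i T, ind ((M w).endM (fun j => A j w) N n t)) := by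
    have e : ∀ w, ind (F w) * ∑ t ∈ Icc i T, ind ((M w).endM (fun j => A j w) N n t) =
        ∑ t ∈ Icc i T, ind (F w ∧ (M w).endM (fun j => A j w) N n t) := by
      intro w
      rw [Finset.mul_sum]
      exact Finset.sum_congr rfl fun t _ => (ind_and _ _).symm
    simp only [e]
    rw [P.E_sum]; rfl
  rw [h1]
  have h2 : P.E (fun w => ind (F w) * ∑ t ∈ Icc i T, ind ((M w).endM (fun j => A j w) N n t)) ≤
      P.E (fun w => 2 * ind (F w) + ind (F w) *
        (∑ t ∈ Icc i T, ∑ k ∈ range N, ind (OnHyp.fl M A N n t k w ∧ ¬ OnHyp.fl M A N n t (k + 1) w) +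
          ∑ t ∈ Ico i T, ind (OnHyp.fl M A N n t N w ∧ ¬ OnHyp.fl M A N n (t + 1) 0 w))) := by
    refine P.E_mono fun w _ => ?_
    have h3 := mul_le_mul_of_nonneg_left (H.ends_le (i := i) w) (ind_nonneg (F w))
    have h4 : ∑ t ∈ Icc i T, ind ((M w).endM (fun j => A j w) N n t) =
        ∑ t ∈ Icc i T, ind (¬ (M w).oa (fun j => A j w) N n t N ∧
        ((∃ j, j + 1 = t ∧ (M w).oa (fun j => A j w) N n j N) ∨
          ∃ l ≤ N, (M w).oa (fun j => A j w) N n t l)) := rfl
    rw [h4]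
    linarith
  rw [P.E_add, P.E_smul] at h2
  have h5 := H.down_count hi hF
  have e6 : P.E (fun w => ind (F w)) = P.Pr F := rfl
  rw [e6] at h2
  have h7 := mul_le_mul_of_nonneg_left hU (by linarith [H.cu0] : (0 : ℝ) ≤ 2 * cu)
  have h8 := mul_le_mul_of_nonneg_left hr (by norm_num : (0 : ℝ) ≤ 2)
  nlinarith

open Classical in
theorem nE_eq (w : Om) (i : ℕ) : ((M w).nE (fun j => A j w) N n i : ℝ) =
    ∑ t ∈ range i, ind ((M w).endM (fun j => A j w) N n t) := by
  unfold Mach.nE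
  rw [Finset.card_filter]
  push_cast
  refine Finset.sum_congr rfl fun t _ => ?_
  by_cases h : (M w).endM (fun j => A j w) N n t
  · rw [if_pos h, ind_of h]
  · rw [if_neg h, ind_not h]

/-- **exponential tail of the number of ends** -/
theorem nE_tail {Nv : ℝ} (hK : Filt K) (hM : MFac K M) (hA : ∀ i, Fac (K i) (A i)) (hNv : 0 ≤ Nv)
    (hends : ∀ i ≤ T, ∀ F : Om → Prop, (∀ v w, K i v = K i w → (F v ↔ F w)) →
      ∑ t ∈ Icc i T, P.Pr (fun w => F w ∧ (M w).endM (fun j => A j w) N n t) ≤ Nv * P.Pr F) (k : ℕ) :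
    P.Pr (fun w => (k : ℝ) * (2 * Nv + 2) + 1 ≤ ((M w).nE (fun j => A j w) N n (T + 1) : ℝ)) ≤ (1 / 2) ^ k := by
  set c : ℕ → Om → ℝ := fun t w => ((M w).nE (fun j => A j w) N n (t + 1) : ℝ) with hc
  have hstep : ∀ t w, c (t + 1) w = c t w + ind ((M w).endM (fun j => A j w) N n (t + 1)) := by
    intro t w
    rw [hc]
    simp only
    rw [nE_eq, nE_eq, Finset.sum_range_succ _ (t + 1)]
  have hfac : ∀ t, Fac (K t) (c t) := by
    intro t v w h
    have h1 := nE_fac (N := N) hK hM hA n t v w h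
    show (((M v).nE (fun j => A j v) N n (t + 1) : ℕ) : ℝ) = (((M w).nE (fun j => A j w) N n (t + 1) : ℕ) : ℝ)
    exact_mod_cast h1
  have hm : ∀ t w, c t w ≤ c (t + 1) w := by
    intro t w
    have := ind_nonneg ((M w).endM (fun j => A j w) N n (t + 1))
    rw [hstep]
    linarith
  have hj : ∀ t w, c (t + 1) w - c t w ≤ 1 := by
    intro t w
    have := ind_le_one ((M w).endM (fun j => A j w) N n (t + 1))
    rw [hstep]
    linarith
  have h := tail P hK (T := T) (c := c) hfac hm (Jm := 1) (Mu := Nv) hj hNv ?_ k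
  · refine (P.Pr_mono fun w _ hw => ?_).trans h
    have h0 : c 0 w ≤ 1 := by
      show (((M w).nE (fun j => A j w) N n (0 + 1) : ℕ) : ℝ) ≤ 1
      exact_mod_cast Mach.nE_le (M := M w) (A := fun j => A j w) (N := N) (s := n) (0 + 1)
    have hw' : (k : ℝ) * (2 * Nv + 2) + 1 ≤ c T w := hw
    have e : (k : ℝ) * (2 * Nv + 1 + 1) = k * (2 * Nv + 2) := by ring
    rw [e]
    linarith
  · intro t ht w hw
    unfold FP.ce
    rw [div_le_iff₀ (P.m_pos (K t) hw)]
    have h1 := hends t ht (fun v => K t v = K t w) (fun v v' hv => by rw [hv])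
    have h2 : ∀ v, c T v - c t v ≤ ∑ j ∈ Icc t T, ind ((M v).endM (fun j => A j v) N n j) := by
      intro v
      rw [hc]
      simp only
      rw [nE_eq, nE_eq, ← Finset.sum_Ico_eq_sub _ (by omega : t + 1 ≤ T + 1)]
      refine Finset.sum_le_sum_of_subset_of_nonneg (fun j hj => ?_) fun j _ _ => ind_nonneg _
      rw [Finset.mem_Ico] at hj
      rw [Finset.mem_Icc]
      omega
    refine le_trans ?_ h1
    have h3 : ∑ j ∈ Icc t T, P.Pr (fun v => K t v = K t w ∧ (M v).endM (fun j => A j v) N n j) =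
        P.E (fun v => ind (K t v = K t w) * ∑ j ∈ Icc t T, ind ((M v).endM (fun j => A j v) N n j)) := by
      have e : ∀ v, ind (K t v = K t w) * ∑ j ∈ Icc t T, ind ((M v).endM (fun j => A j v) N n j) =
          ∑ j ∈ Icc t T, ind (K t v = K t w ∧ (M v).endM (fun j => A j v) N n j) := by
        intro v
        rw [Finset.mul_sum]
        exact Finset.sum_congr rfl fun t _ => (ind_and _ _).symm
      simp only [e]
      rw [P.E_sum]; rfl
    rw [h3]
    exact P.E_mono fun v _ => mul_le_mul_of_nonneg_left (h2 v) (ind_nonneg _)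

end gen

end

namespace Ru.IndM

noncomputable section

variable {R V Om : Type*} [Fintype Om] [Fintype R] [LinearOrder R] {κ : ℕ → Type*}
  {P : FP Om} {K : ∀ t, Om → κ t} {Y es : ℝ} {X : ℕ → Om → Nd R V} {nw : ℕ → Om → List (Tst R V)} {N : ℕ}
  {A : ℕ → Om → R → Prop}

/-- **ends of the stretches ON and not allowed of one reference**, any adapted increasing allowed set -/
theorem ends_gen (HI : IndM P K Y es X nw N) (hA : ∀ i, Fac (K i) (A i)) (n : R)
    (hmono : ∀ i w, A i w n → A (i + 1) w n) (T : ℕ) {i : ℕ} (hi : i ≤ T)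
    {F : Om → Prop} (hF : ∀ v w, K i v = K i w → (F v ↔ F w)) :
    ∑ t ∈ Icc i T, P.Pr (fun w => F w ∧ (Mw Y X nw w).endM (fun j => A j w) N n t) ≤ NvB es * P.Pr F := by
  have hes := HI.pos_es
  have hφ : Fac (K i) (fun w => ind (F w)) := Fac.ind hF
  have hO := HI.onHyp hA n hmono T
  refine Pool.Agent.GMN.ends_gen hO hi hF ?_ ?_
  · have h1 := HI.uses_le hA i hφ (fun w => ind_nonneg _) T
    refine le_trans (le_of_eq ?_) h1
    rw [← P.E_sum]
    refine P.E_congr fun w _ => ?_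
    rw [Finset.mul_sum]
    rfl
  · have h1 := HI.resets_hub hA i hφ (fun w => ind_nonneg _) T
    have h2 : ∑ t ∈ Ico i T, P.E (fun w => ind (F w) * rr P K Y es X nw A N t w) =
        1 / (2 * es) * ∑ j ∈ Ico i T, P.E (fun w => ind (F w) * (ind (rs Y X nw A N j w) *
          hp Y X nw A N j w)) := by
      rw [Finset.mul_sum]
      refine Finset.sum_congr rfl fun t ht => ?_
      unfold rr
      rw [P.E_mul_ce (h := fun w => ind (F w)) ((HI.filt.le (mem_Ico.1 ht).1).trans hφ), ← P.E_smul]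
      exact P.E_congr fun w _ => by ring
    rw [h2]
    have h3 : 0 ≤ P.E (fun w => ind (F w)) := P.Pr_nonneg F
    have h4 : P.E (fun w => ind (F w)) = P.Pr F := rfl
    rw [h4] at h1 h3
    calc 1 / (2 * es) * _ ≤ 1 / (2 * es) * (20 / 3 * P.Pr F) := mul_le_mul_of_nonneg_left h1 (by positivity)
      _ = (10 / 3) / es * P.Pr F := by field_simp; ring
      _ ≤ 4 / es * P.Pr F := mul_le_mul_of_nonneg_right
          (div_le_div_of_nonneg_right (by norm_num) hes.le) h3

/-- the same with `Ico` -/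
theorem ends_ico (HI : IndM P K Y es X nw N) (hA : ∀ i, Fac (K i) (A i)) (n : R)
    (hmono : ∀ i w, A i w n → A (i + 1) w n) (T : ℕ) {i : ℕ} (hi : i < T)
    {F : Om → Prop} (hF : ∀ v w, K i v = K i w → (F v ↔ F w)) :
    ∑ t ∈ Ico i T, P.Pr (fun w => F w ∧ (Mw Y X nw w).endM (fun j => A j w) N n t) ≤ NvB es * P.Pr F := by
  have h := HI.ends_gen hA n hmono (T - 1) (i := i) (by omega) hF
  have e : Icc i (T - 1) = Ico i T := by
    ext j
    rw [Finset.mem_Icc, Finset.mem_Ico]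
    omega
  rwa [e] at h

/-- **exponential tail of the number of ends** -/
theorem nE_tail (HI : IndM P K Y es X nw N) (hA : ∀ i, Fac (K i) (A i)) (n : R)
    (hmono : ∀ i w, A i w n → A (i + 1) w n) (T k : ℕ) :
    P.Pr (fun w => (k : ℝ) * (2 * NvB es + 2) + 1 ≤ ((Mw Y X nw w).nE (fun j => A j w) N n (T + 1) : ℝ)) ≤
      (1 / 2) ^ k :=
  Pool.Agent.GMN.nE_tail HI.filt HI.mfac hA HI.NvB_nonneg (fun _ hi _ hF => HI.ends_gen hA n hmono T hi hF) k

/-- uses, mean -/
theorem uses_gen (HI : IndM P K Y es X nw N) (hA : ∀ i, Fac (K i) (A i)) (T : ℕ) :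
    P.E (fun w => ∑ i ∈ range T, ∑ l ∈ range N, ind ((Mw Y X nw w).pk (fun j => A j w) N i l ≠ none)) ≤
      20 / es ^ 2 := by
  have h1 := HI.uses_le hA 0 (Fac.const _ (1 : ℝ)) (fun w => by norm_num) T
  rw [P.E_const, mul_one] at h1
  refine le_trans ?_ h1
  rw [← P.E_sum]
  refine P.E_mono fun w _ => ?_
  have e : ∀ j, (1 : ℝ) * cw Y X nw A N j w =
      ∑ l ∈ range N, ind ((Mw Y X nw w).pk (fun j => A j w) N j l ≠ none) := fun j => one_mul _
  simp only [e]
  refine Finset.sum_le_sum_of_subset_of_nonneg (fun j hj => ?_) fun j _ _ =>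
    Finset.sum_nonneg fun l _ => ind_nonneg _
  rw [Finset.mem_range] at hj
  rw [Finset.mem_Icc]
  omega

end

end Ru.IndM

end Pool.Agent.GMN
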