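import Pool.Agent.GMN.Ind

/-!
# GMN.IndL (helper80): the log of an individual

For the machine `mach Y x nw` with allowed sets `A`:
* `ust i k` : the test used at the micro moment `(i,k)`; `uen i k` : the entry of the history;
* `rsi i` : reset (R0) at the time `i + 1`; `epo i` : number of resets up to the time `i`;
* `sum_H` : the sum of a function over the history at the end of the time `i` is the sum over the uses of the current epoch;
* `uct i k` : number of uses before `(i,k)`, different for different uses (`uct_inj`); `uct_le` : bound by `cu`;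
* `arv i k` : the time of arrival of the test.
Everything depends only on the data up to `i` (`mic_same`, `ust_same`, ..).
-/

set_option autoImplicit false
set_option linter.unusedSectionVars false

namespace Pool.Agent.GMN.Ru

open Finset Pool.Agent.PWZ Pool.Agent.M3

noncomputable section

variable {R V : Type*} [Fintype R] [LinearOrder R]

section defs

variable (Y : ℝ) (x : ℕ → Nd R V) (nw : ℕ → List (Tst R V)) (A : ℕ → R → Prop) (N : ℕ)

/-- state at the micro moment -/
abbrev mc (i k : ℕ) : St R V := (mach Y x nw).mic A N i k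

/-- the test used at the micro moment `(i,k)` -/
def ust (i k : ℕ) : Option (Tst R V) := ((mach Y x nw).pk A N i k).bind fun s => fnd Y (x i) s (mc Y x nw A N i k)

/-- the entry made at the micro moment `(i,k)` -/
def uen (i k : ℕ) : Option (Tst R V) := (ust Y x nw A N i k).map fun p => ent Y (x i) (mc Y x nw A N i k).H p

/-- reset at the time `i + 1` -/
def rsi (i : ℕ) : Prop := 4 < hubm Y (x (i + 1)) (mc Y x nw A N i N).H

open Classical in
/-- number of resets up to the time `i` -/
def epo : ℕ → ℕ
  | 0 => 0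
  | i + 1 => epo i + if rsi Y x nw A N i then 1 else 0

/-- the value of a function at an entry -/
def uva (F : Tst R V → ℝ) (i k : ℕ) : ℝ := ((uen Y x nw A N i k).map F).getD 0

open Classical in
/-- number of uses at the time `i` before the micro moment `k` -/
def un (i k : ℕ) : ℕ := ((range k).filter fun l => ust Y x nw A N i l ≠ none).card

/-- number of uses before the micro moment `(i,k)` -/
def uct (i k : ℕ) : ℕ := ∑ j ∈ range i, un Y x nw A N j N + un Y x nw A N i k

end defs

variable {Y : ℝ} {x : ℕ → Nd R V} {nw : ℕ → List (Tst R V)} {A : ℕ → R → Prop} {N : ℕ}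

theorem mc_succ_H (i k : ℕ) : (mc Y x nw A N i (k + 1)).H =
    (uen Y x nw A N i k).toList ++ (mc Y x nw A N i k).H := by
  unfold uen ust mc
  rw [Mach.mic_succ]
  unfold Mach.step Mach.pk
  cases h : (mach Y x nw).pick i (A i) ((mach Y x nw).mic A N i k) with
  | none => rfl
  | some s =>
    show (use Y (x i) s ((mach Y x nw).mic A N i k)).H = _
    unfold use
    cases h2 : fnd Y (x i) s ((mach Y x nw).mic A N i k) with
    | none => simp [h2]
    | some p => simp [h2]

theorem mc_zero_H : (mc Y x nw A N 0 0).H = [] := by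
  show rzero Y (x 0) [] = []
  unfold rzero
  split_ifs <;> rfl

theorem mc_next_H (i : ℕ) : (mc Y x nw A N (i + 1) 0).H = rzero Y (x (i + 1)) (mc Y x nw A N i N).H := by
  unfold mc
  rw [Mach.mic_zero_succ]
  rfl

theorem epo_succ (i : ℕ) : epo Y x nw A N (i + 1) = epo Y x nw A N i + (by
    classical exact if rsi Y x nw A N i then 1 else 0) := rfl

theorem epo_mono {i j : ℕ} (h : i ≤ j) : epo Y x nw A N i ≤ epo Y x nw A N j := by
  induction j, h using Nat.le_induction with
  | base => exact le_rfl
  | succ j _ ih => exact ih.trans (Nat.le_add_right _ _)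

theorem epo_rs {i : ℕ} (h : rsi Y x nw A N i) : epo Y x nw A N (i + 1) = epo Y x nw A N i + 1 := by
  show epo Y x nw A N i + _ = _
  rw [if_pos h]

theorem epo_nrs {i : ℕ} (h : ¬ rsi Y x nw A N i) : epo Y x nw A N (i + 1) = epo Y x nw A N i := by
  show epo Y x nw A N i + _ = _
  rw [if_neg h, add_zero]

/-- **the history is the list of the uses of the current epoch** -/
theorem sum_H' (F : Tst R V → ℝ) (i k : ℕ) : ((mc Y x nw A N i k).H.map F).sum =
    ∑ j ∈ range i, ∑ l ∈ range N, ind (epo Y x nw A N j = epo Y x nw A N i) * uva Y x nw A N F j l +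
      ∑ l ∈ range k, uva Y x nw A N F i l := by
  have hk : ∀ i, ((mc Y x nw A N i 0).H.map F).sum =
      ∑ j ∈ range i, ∑ l ∈ range N, ind (epo Y x nw A N j = epo Y x nw A N i) * uva Y x nw A N F j l →
      ∀ k, ((mc Y x nw A N i k).H.map F).sum =
      ∑ j ∈ range i, ∑ l ∈ range N, ind (epo Y x nw A N j = epo Y x nw A N i) * uva Y x nw A N F j l +
      ∑ l ∈ range k, uva Y x nw A N F i l := by
    intro i h0 k
    induction k with
    | zero => rw [h0, Finset.range_zero, Finset.sum_empty, add_zero]
    | succ k ih =>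
      rw [mc_succ_H, List.map_append, List.sum_append, ih, Finset.sum_range_succ]
      have : (List.map F (uen Y x nw A N i k).toList).sum = uva Y x nw A N F i k := by
        unfold uva
        cases uen Y x nw A N i k with
        | none => rfl
        | some e => simp
      rw [this]
      ring
  refine hk i ?_ k
  induction i with
  | zero => rw [mc_zero_H, Finset.range_zero, Finset.sum_empty]; rfl
  | succ i ih =>
    have h1 := hk i ih N
    rw [mc_next_H]
    by_cases h : rsi Y x nw A N i
    · unfold rzero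
      rw [if_pos (show 4 < hubm Y (x (i + 1)) (mc Y x nw A N i N).H from h)]
      symm
      refine Finset.sum_eq_zero fun j hj => Finset.sum_eq_zero fun l _ => ?_
      rw [Finset.mem_range] at hj
      have h2 := epo_mono (Y := Y) (x := x) (nw := nw) (A := A) (N := N) (show j ≤ i by omega)
      rw [epo_rs h, ind_not (by omega), zero_mul]
    · unfold rzero
      rw [if_neg (show ¬ 4 < hubm Y (x (i + 1)) (mc Y x nw A N i N).H from h), h1, epo_nrs h, Finset.sum_range_succ]
      congr 1
      refine Finset.sum_congr rfl fun l _ => ?_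
      rw [ind_of rfl, one_mul]

/-- **the history at the end of a time** -/
theorem sum_H (F : Tst R V → ℝ) (i : ℕ) : ((mc Y x nw A N i N).H.map F).sum =
    ∑ j ∈ range (i + 1), ∑ l ∈ range N, ind (epo Y x nw A N j = epo Y x nw A N i) * uva Y x nw A N F j l := by
  rw [sum_H' F i N, Finset.sum_range_succ]
  congr 1
  refine Finset.sum_congr rfl fun l _ => ?_
  rw [ind_of rfl, one_mul]

/-! ### the counter -/

theorem un_mono (i : ℕ) {k l : ℕ} (h : k ≤ l) : un Y x nw A N i k ≤ un Y x nw A N i l := by
  classical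
  exact card_le_card (filter_subset_filter _ (Finset.range_mono h))

theorem un_lt (i : ℕ) {k l : ℕ} (h : k < l) (hu : ust Y x nw A N i k ≠ none) :
    un Y x nw A N i k < un Y x nw A N i l := by
  classical
  refine lt_of_lt_of_le ?_ (un_mono i (show k + 1 ≤ l from h))
  unfold un
  rw [Finset.range_add_one, Finset.filter_insert, if_pos hu, Finset.card_insert_of_notMem]
  · omega
  · intro h1
    exact absurd (Finset.mem_range.1 (Finset.mem_filter.1 h1).1) (lt_irrefl _)

theorem uct_lt {i k i' k' : ℕ} (hk : k < N) (h : i < i' ∨ (i = i' ∧ k < k')) (hu : ust Y x nw A N i k ≠ none) :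
    uct Y x nw A N i k < uct Y x nw A N i' k' := by
  unfold uct
  rcases h with h | ⟨rfl, h⟩
  · have h1 := un_lt i hk hu
    have h2 : ∑ j ∈ range i, un Y x nw A N j N + un Y x nw A N i N ≤ ∑ j ∈ range i', un Y x nw A N j N := by
      rw [← Finset.sum_range_succ]
      exact Finset.sum_le_sum_of_subset (Finset.range_mono h)
    omega
  · have h1 := un_lt i h hu
    omega

/-- different uses have different numbers -/
theorem uct_inj {i k i' k' : ℕ} (hk : k < N) (hk' : k' < N) (hu : ust Y x nw A N i k ≠ none)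
    (hu' : ust Y x nw A N i' k' ≠ none) (h : uct Y x nw A N i k = uct Y x nw A N i' k') : i = i' ∧ k = k' := by
  by_contra hc
  rcases lt_trichotomy i i' with h1 | h1 | h1
  · exact absurd h (uct_lt hk (Or.inl h1) hu).ne
  · subst h1
    rcases lt_trichotomy k k' with h2 | h2 | h2
    · exact absurd h (uct_lt hk (Or.inr ⟨rfl, h2⟩) hu).ne
    · exact hc ⟨rfl, h2⟩
    · exact absurd h (uct_lt hk' (Or.inr ⟨rfl, h2⟩) hu').ne'
  · exact absurd h (uct_lt hk' (Or.inl h1) hu').ne'

theorem pk_of_ust {i k : ℕ} (h : ust Y x nw A N i k ≠ none) : (mach Y x nw).pk A N i k ≠ none := by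
  intro h1
  apply h
  unfold ust
  rw [h1]
  rfl

theorem un_le (i k : ℕ) : (un Y x nw A N i k : ℝ) ≤ cu (mach Y x nw) A N i k := by
  classical
  unfold un cu
  rw [Finset.card_filter, Nat.cast_sum]
  refine Finset.sum_le_sum fun l _ => ?_
  split_ifs with h
  · rw [Nat.cast_one, ind_of (pk_of_ust h)]
  · rw [Nat.cast_zero]
    exact ind_nonneg _

/-- number of uses up to the end of the time `i` -/
theorem uct_le (i : ℕ) : (uct Y x nw A N i N : ℝ) ≤ ∑ j ∈ range (i + 1), cu (mach Y x nw) A N j N := by
  unfold uct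
  rw [Nat.cast_add, Nat.cast_sum, Finset.sum_range_succ]
  exact add_le_add (Finset.sum_le_sum fun j _ => un_le j N) (un_le i N)

theorem uct_mono {i j : ℕ} (h : i ≤ j) : uct Y x nw A N i N ≤ uct Y x nw A N j N := by
  unfold uct
  rw [← Finset.sum_range_succ, ← Finset.sum_range_succ]
  exact Finset.sum_le_sum_of_subset (Finset.range_mono (by omega))

theorem uct_lt_end {i k j : ℕ} (hk : k < N) (h : i ≤ j) (hu : ust Y x nw A N i k ≠ none) :
    uct Y x nw A N i k < uct Y x nw A N j N := by
  rcases Nat.lt_or_ge i j with h1 | h1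
  · exact uct_lt hk (Or.inl h1) hu
  · have : i = j := by omega
    subst this
    exact uct_lt hk (Or.inr ⟨rfl, hk⟩) hu

/-! ### arrival -/

theorem ust_spec {i k : ℕ} {p : Tst R V} (h : ust Y x nw A N i k = some p) :
    (mach Y x nw).pk A N i k = some p.s ∧ p ∈ testsTo nw i ∧ p.e / 2 ≤ |val Y (x i) (mc Y x nw A N i k).H p| := by
  unfold ust at h
  cases hs : (mach Y x nw).pk A N i k with
  | none => rw [hs] at h; exact absurd h (by simp)
  | some s =>
    rw [hs] at h
    have h1 : fnd Y (x i) s (mc Y x nw A N i k) = some p := h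
    obtain ⟨h2, h3, h4⟩ := fnd_some h1
    rw [← h3] at hs ⊢
    refine ⟨rfl, ?_, h4⟩
    rw [← mic_T (Y := Y) (x := x) (A := A) (N := N) i k]
    exact h2

/-- with consistent flags every use has a test -/
theorem ust_of_pk {es : ℝ} (hB : IndB Y es x nw) {i k : ℕ} {s : R} (h : (mach Y x nw).pk A N i k = some s) :
    ∃ p, ust Y x nw A N i k = some p := by
  have hon : ((mach Y x nw).mic A N i k).on s := (Mach.pick_some.1 h).1.1
  obtain ⟨p, hp⟩ := fnd_ex ((mic_cons (A := A) (N := N) hB i k s).1 hon)
  refine ⟨p, ?_⟩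
  unfold ust
  rw [h]
  exact hp

open Classical in
/-- the time of arrival of a test -/
def arv (nw : ℕ → List (Tst R V)) (p : Tst R V) : ℕ := if h : ∃ j, p ∈ nw j then Nat.find h else 0

theorem arv_spec {nw : ℕ → List (Tst R V)} {p : Tst R V} {i : ℕ} (h : p ∈ testsTo nw i) :
    arv nw p ≤ i ∧ p ∈ nw (arv nw p) := by
  classical
  obtain ⟨j, hj, hp⟩ := mem_testsTo.1 h
  have hx : ∃ j, p ∈ nw j := ⟨j, hp⟩
  unfold arv
  rw [dif_pos hx]
  exact ⟨(Nat.find_min' hx hp).trans hj, Nat.find_spec hx⟩

/-! ### locality -/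

section same

variable {x' : ℕ → Nd R V} {nw' : ℕ → List (Tst R V)} {A' : ℕ → R → Prop} {T : ℕ}

/-- two individuals with the same data up to the time `T` -/
structure Same (x x' : ℕ → Nd R V) (nw nw' : ℕ → List (Tst R V)) (A A' : ℕ → R → Prop) (T : ℕ) : Prop where
  x : ∀ j ≤ T, x j = x' j
  nw : ∀ j ≤ T, nw j = nw' j
  A : ∀ j ≤ T, A j = A' j

theorem Same.mono {T T' : ℕ} (h : Same x x' nw nw' A A' T) (hT : T' ≤ T) : Same x x' nw nw' A A' T' :=
  ⟨fun j hj => h.x j (hj.trans hT), fun j hj => h.nw j (hj.trans hT), fun j hj => h.A j (hj.trans hT)⟩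

theorem mc_same (h : Same x x' nw nw' A A' T) {i : ℕ} (hi : i ≤ T) (k : ℕ) :
    mc Y x nw A N i k = mc Y x' nw' A' N i k := by
  refine Mach.mic_congr (M := mach Y x nw) (M' := mach Y x' nw') (N := N) i rfl (fun j hj => ?_) (fun j hj => ?_)
    (fun j _ => rfl) (fun j hj => h.A j (hj.trans hi)) k
  · show evt Y (x j) (nw j) = evt Y (x' j) (nw' j)
    rw [h.x j (hj.trans hi), h.nw j (hj.trans hi)]
  · show (fun s => use Y (x j) s) = fun s => use Y (x' j) s
    rw [h.x j (hj.trans hi)]

theorem ust_same (h : Same x x' nw nw' A A' T) {i : ℕ} (hi : i ≤ T) (k : ℕ) :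
    ust Y x nw A N i k = ust Y x' nw' A' N i k := by
  unfold ust Mach.pk
  have h1 : (mach Y x nw).mic A N i k = (mach Y x' nw').mic A' N i k := mc_same h hi k
  rw [mc_same h hi k, h1, h.A i hi, h.x i hi]
  rfl

theorem rsi_same (h : Same x x' nw nw' A A' T) {i : ℕ} (hi : i + 1 ≤ T) :
    rsi Y x nw A N i ↔ rsi Y x' nw' A' N i := by
  unfold rsi
  rw [mc_same h (by omega : i ≤ T), h.x _ hi]

theorem epo_same (h : Same x x' nw nw' A A' T) {i : ℕ} (hi : i ≤ T) :
    epo Y x nw A N i = epo Y x' nw' A' N i := by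
  induction i with
  | zero => rfl
  | succ i ih =>
    have h1 := ih (by omega)
    have h2 := rsi_same (Y := Y) (N := N) h hi
    by_cases h3 : rsi Y x nw A N i
    · rw [epo_rs h3, epo_rs (h2.1 h3), h1]
    · rw [epo_nrs h3, epo_nrs fun h4 => h3 (h2.2 h4), h1]

theorem un_same (h : Same x x' nw nw' A A' T) {i : ℕ} (hi : i ≤ T) (k : ℕ) :
    un Y x nw A N i k = un Y x' nw' A' N i k := by
  unfold un
  simp only [ust_same (Y := Y) (N := N) h hi]

theorem uct_same (h : Same x x' nw nw' A A' T) {i : ℕ} (hi : i ≤ T) (k : ℕ) :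
    uct Y x nw A N i k = uct Y x' nw' A' N i k := by
  unfold uct
  rw [un_same h hi]
  congr 1
  refine Finset.sum_congr rfl fun j hj => ?_
  rw [Finset.mem_range] at hj
  exact un_same h (by omega) N

theorem arv_same (h : Same x x' nw nw' A A' T) {p : Tst R V} (hp : p ∈ testsTo nw T) : arv nw p = arv nw' p := by
  classical
  have h0 := mem_testsTo.1 hp
  obtain ⟨h1, h2⟩ := arv_spec hp
  have h3 : p ∈ nw' (arv nw p) := by
    rw [← h.nw _ h1]
    exact h2
  have hx : ∃ j, p ∈ nw' j := ⟨_, h3⟩
  have h4 : arv nw' p ≤ arv nw p := by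
    unfold arv
    rw [dif_pos hx]
    exact Nat.find_min' hx h3
  have h5 : p ∈ nw' (arv nw' p) := by
    unfold arv
    rw [dif_pos hx]
    exact Nat.find_spec hx
  have h6 : p ∈ nw (arv nw' p) := by
    rw [h.nw _ (h4.trans h1)]
    exact h5
  refine le_antisymm ?_ h4
  have hx' : ∃ j, p ∈ nw j := ⟨_, h6⟩
  conv_lhs => unfold arv
  rw [dif_pos hx']
  exact Nat.find_min' hx' h6

end same

end

end Pool.Agent.GMN.Ru
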