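import Pool.Agent.GMN.Ind
import Pool.Agent.GMN.Cross
import Pool.Agent.GMN.Tail

/-!
# GMN.IndM (row N, NM.4): one individual along its free path

`IndM P K Y es X nw N` : data `X i` (mean, target, multipliers) and new tests `nw i` at the machine time `i`, functions of
`K i`; the means are a martingale (`mart`); target and multipliers are constant after their introduction (`u`, `v`).
Allowed sets `A` arbitrary, functions of `K i`.  With `Mw w = mach Y (X · w) (nw · w)`:
* `uses_le` : from every state at most `20 / es ^ 2` uses in mean (time `i` included);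
* `resets_le` : at most `5 / 3` resets (R0), also weighted with the Huber mean before the reset (`resets_hub`);
* `moves_le` : the error function at the end of a time changes at most `3 + 20 / es ^ 2` times in mean from every state;
* `onHyp`, `ends_le` : stretches ON and not allowed of one reference: at most `80 / es ^ 3 + 12 / es + 3` ends;
* `jrOne` : the hypotheses of `JR_1`;  `use_tail` : exponential tails of the number of uses.
-/

set_option autoImplicit false
set_option linter.unusedSectionVars false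

namespace Pool.Agent.GMN.Ru

open Finset Pool.Agent.PWZ Pool.Agent.M3

noncomputable section

variable {R V : Type*}

/-! ### bounds on the values -/

theorem abs_clip_le_hub {Y : ℝ} (hY : 0 ≤ Y) (x : ℝ) : |clip Y x| ≤ 1 / 4 * hub Y x + 1 := by
  have h1 := clip_sq_le_hub hY x
  have h2 : |clip Y x| ^ 2 = clip Y x ^ 2 := sq_abs _
  nlinarith [sq_nonneg (|clip Y x| - 2)]

/-- the value of a test is bounded by the Huber mean -/
theorem abs_val_le {Y : ℝ} {x : Nd R V} {H : List (Tst R V)} (hY : 0 ≤ Y) (hm : IsMean x.m)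
    (hv : ∀ s d, |x.v s d| ≤ 1) {p : Tst R V} (hg : ∀ d, |p.g d| ≤ 1) : |val Y x H p| ≤ 1 / 4 * hubm Y x H + 1 := by
  have h1 : ∀ d, |(p.g d * x.v p.s d) * clip Y (err x H d)| ≤ 1 / 4 * hub Y (err x H d) + 1 := by
    intro d
    rw [abs_mul, abs_mul]
    have h2 : |p.g d| * |x.v p.s d| ≤ 1 := mul_le_one₀ (hg d) (abs_nonneg _) (hv _ d)
    exact (mul_le_of_le_one_left (abs_nonneg _) h2).trans (abs_clip_le_hub hY _)
  have h3 : x.m (fun d => 1 / 4 * hub Y (err x H d) + 1) = 1 / 4 * hubm Y x H + 1 := by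
    rw [hm.add (fun d => 1 / 4 * hub Y (err x H d)) (fun _ => 1), hm.smul, hm.one]
    rfl
  rw [abs_le, ← h3]
  constructor
  · rw [← hm.neg]
    exact hm.mono _ _ fun d => (abs_le.1 (h1 d)).1
  · exact hm.mono _ _ fun d => (abs_le.1 (h1 d)).2

theorem abs_val_le_two {Y : ℝ} {x : Nd R V} {H : List (Tst R V)} (hY : 0 ≤ Y) (hm : IsMean x.m)
    (hv : ∀ s d, |x.v s d| ≤ 1) {p : Tst R V} (hg : ∀ d, |p.g d| ≤ 1) (hh : hubm Y x H ≤ 4) : |val Y x H p| ≤ 2 := by
  have := abs_val_le (Y := Y) (H := H) hY hm hv hg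
  linarith

/-- change of the value of a test by an entry -/
theorem abs_val_sub_le {Y : ℝ} {x : Nd R V} {H : List (Tst R V)} (hm : IsMean x.m)
    (hv : ∀ s d, |x.v s d| ≤ 1) {p q : Tst R V} (hp : ∀ d, |p.g d| ≤ 1) (hq : ∀ d, |q.g d| ≤ 1) :
    |val Y x (q :: H) p - val Y x H p| ≤ |q.e| := by
  unfold val
  rw [← hm.sub]
  refine hm.abs_le fun d => ?_
  rw [← mul_sub, abs_mul, abs_mul]
  have h2 : |p.g d| * |x.v p.s d| ≤ 1 := mul_le_one₀ (hp d) (abs_nonneg _) (hv _ d)
  refine (mul_le_of_le_one_left (abs_nonneg _) h2).trans ?_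
  refine (abs_clip_sub _ _).trans ?_
  rw [err_cons]
  have h3 : err x H d - q.e * (q.g d * x.v q.s d) - err x H d = - (q.e * (q.g d * x.v q.s d)) := by ring
  rw [h3, abs_neg, abs_mul, abs_mul]
  exact mul_le_of_le_one_right (abs_nonneg _) (mul_le_one₀ (hq d) (abs_nonneg _) (hv _ d))

/-! ### the maximum over the tests of one reference -/

/-- maximum of `|val| / e` over the tests of the reference `n` -/
def qm (Y : ℝ) (x : Nd R V) (H : List (Tst R V)) (n : R) : List (Tst R V) → ℝ
  | [] => 0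
  | p :: l => max (open Classical in if p.s = n then |val Y x H p| / p.e else 0) (qm Y x H n l)

variable {Y : ℝ} {x : Nd R V} {H : List (Tst R V)} {n : R}

theorem qm_nonneg (T : List (Tst R V)) : 0 ≤ qm Y x H n T := by
  induction T with
  | nil => exact le_rfl
  | cons p T ih => exact ih.trans (le_max_right _ _)

theorem le_qm {T : List (Tst R V)} {p : Tst R V} (hp : p ∈ T) (hs : p.s = n) : |val Y x H p| / p.e ≤ qm Y x H n T := by
  classical
  induction T with
  | nil => exact absurd hp (by simp)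
  | cons r T ih =>
    rcases List.mem_cons.1 hp with h | h
    · subst h
      refine le_trans ?_ (le_max_left _ _)
      rw [if_pos hs]
    · exact (ih h).trans (le_max_right _ _)

theorem qm_le {T : List (Tst R V)} {c : ℝ} (hc : 0 ≤ c) (h : ∀ p ∈ T, p.s = n → |val Y x H p| / p.e ≤ c) :
    qm Y x H n T ≤ c := by
  classical
  induction T with
  | nil => exact hc
  | cons p T ih =>
    refine max_le ?_ (ih fun r hr => h r (List.mem_cons_of_mem _ hr))
    split_ifs with hs
    · exact h p List.mem_cons_self hs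
    · exact hc

theorem qm_ex {T : List (Tst R V)} (h : 0 < qm Y x H n T) : ∃ p ∈ T, p.s = n ∧ qm Y x H n T = |val Y x H p| / p.e := by
  classical
  induction T with
  | nil => exact absurd h (lt_irrefl _)
  | cons p T ih =>
    have e0 : qm Y x H n (p :: T) = max (if p.s = n then |val Y x H p| / p.e else 0) (qm Y x H n T) := by
      show max _ _ = _
      congr 1
    rcases le_total (if p.s = n then |val Y x H p| / p.e else 0) (qm Y x H n T) with h1 | h1
    · have e : qm Y x H n (p :: T) = qm Y x H n T := by rw [e0]; exact max_eq_right h1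
      rw [e] at h ⊢
      obtain ⟨r, hr, h2⟩ := ih h
      exact ⟨r, List.mem_cons_of_mem _ hr, h2⟩
    · have e : qm Y x H n (p :: T) = if p.s = n then |val Y x H p| / p.e else 0 := by rw [e0]; exact max_eq_left h1
      by_cases hs : p.s = n
      · rw [if_pos hs] at e
        exact ⟨p, List.mem_cons_self, hs, e⟩
      · rw [if_neg hs] at e
        rw [e] at h
        exact absurd h (lt_irrefl _)

theorem qm_append (T T' : List (Tst R V)) : qm Y x H n T ≤ qm Y x H n (T ++ T') := by
  refine qm_le (qm_nonneg _) fun p hp hs => le_qm (List.mem_append_left _ hp) hs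

/-- the maximum after an entry -/
theorem qm_entry {T : List (Tst R V)} {es : ℝ} (hes : 0 < es) (hm : IsMean x.m) (hv : ∀ s d, |x.v s d| ≤ 1)
    (hT : ∀ p ∈ T, es ≤ p.e ∧ ∀ d, |p.g d| ≤ 1) {q : Tst R V} (hq : ∀ d, |q.g d| ≤ 1) (hq2 : |q.e| ≤ 2) :
    qm Y x H n T - 2 / es ≤ qm Y x (q :: H) n T := by
  rcases lt_or_eq_of_le (qm_nonneg (Y := Y) (x := x) (H := H) (n := n) T) with h | h
  · obtain ⟨p, hp, hs, he⟩ := qm_ex h
    rw [he]
    refine le_trans ?_ (le_qm (n := n) hp hs)
    obtain ⟨h1, h2⟩ := hT p hp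
    have hp0 : 0 < p.e := hes.trans_le h1
    have h3 := abs_val_sub_le (Y := Y) (H := H) hm hv h2 hq
    have h4 : |val Y x H p| - 2 ≤ |val Y x (q :: H) p| := by
      have h5 : |val Y x H p| - |val Y x (q :: H) p| ≤ |val Y x (q :: H) p - val Y x H p| := by
        rw [abs_sub_comm (val Y x (q :: H) p)]
        exact abs_sub_abs_le_abs_sub _ _
      linarith
    have h5 : 2 / p.e ≤ 2 / es := div_le_div_of_nonneg_left (by norm_num) hes h1
    have h6 : |val Y x H p| / p.e - 2 / p.e ≤ |val Y x (q :: H) p| / p.e := by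
      rw [← sub_div]
      exact div_le_div_of_nonneg_right h4 hp0.le
    linarith
  · rw [← h]
    have h1 := qm_nonneg (Y := Y) (x := x) (H := q :: H) (n := n) T
    have h2 : 0 ≤ 2 / es := by positivity
    linarith

theorem rzero_pos (h : 4 < hubm Y x H) : rzero Y x H = [] := by
  unfold rzero
  rw [if_pos h]

theorem rzero_neg (h : ¬ 4 < hubm Y x H) : rzero Y x H = H := by
  unfold rzero
  rw [if_neg h]

/-! ### one individual along its free path -/

variable {Om : Type*} [Fintype Om] [Fintype R] [LinearOrder R] {κ : ℕ → Type*}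

/-- **one individual along its free path** -/
structure IndM (P : FP Om) (K : ∀ t, Om → κ t) (Y es : ℝ) (X : ℕ → Om → Nd R V) (nw : ℕ → Om → List (Tst R V))
    (N : ℕ) : Prop where
  filt : Filt K
  bd : ∀ w, IndB Y es (fun i => X i w) (fun i => nw i w)
  hN : 16 / es ^ 2 < N + 1
  xfac : ∀ i, Fac (K i) (X i)
  nfac : ∀ i, Fac (K i) (nw i)
  mart : ∀ i (F : Om → V → ℝ) (φ : Om → ℝ), Fac (K i) F → Fac (K i) φ →
    P.E (fun w => φ w * (X (i + 1) w).m (F w)) = P.E (fun w => φ w * (X i w).m (F w))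
  u : ∀ i w, (X (i + 1) w).u = (X i w).u ∨ (X i w).u = fun _ => 0
  v : ∀ i w s, (X (i + 1) w).v s = (X i w).v s ∨ (X i w).v s = fun _ => 0

namespace IndM

variable {P : FP Om} {K : ∀ t, Om → κ t} {es : ℝ} {X : ℕ → Om → Nd R V} {nw : ℕ → Om → List (Tst R V)} {N : ℕ}
  {A : ℕ → Om → R → Prop}

/-- the machine of a sample point -/
def Mw (Y : ℝ) (X : ℕ → Om → Nd R V) (nw : ℕ → Om → List (Tst R V)) (w : Om) : Mach R (St R V) :=
  mach Y (fun i => X i w) (fun i => nw i w)

/-- the state at the micro moment `(i,k)` -/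
def ms (Y : ℝ) (X : ℕ → Om → Nd R V) (nw : ℕ → Om → List (Tst R V)) (A : ℕ → Om → R → Prop) (N i k : ℕ) (w : Om) :
    St R V := (Mw Y X nw w).mic (fun j => A j w) N i k

/-- number of uses at the time `i` -/
def cw (Y : ℝ) (X : ℕ → Om → Nd R V) (nw : ℕ → Om → List (Tst R V)) (A : ℕ → Om → R → Prop) (N i : ℕ) (w : Om) : ℝ :=
  cu (Mw Y X nw w) (fun j => A j w) N i N

/-- the error function at the end of the time `i` -/
def Ew (Y : ℝ) (X : ℕ → Om → Nd R V) (nw : ℕ → Om → List (Tst R V)) (A : ℕ → Om → R → Prop) (N i : ℕ) (w : Om) :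
    V → ℝ := err (X i w) (ms Y X nw A N i N w).H

/-- the Huber mean at the end of the time `i` -/
def hw (Y : ℝ) (X : ℕ → Om → Nd R V) (nw : ℕ → Om → List (Tst R V)) (A : ℕ → Om → R → Prop) (N i : ℕ) (w : Om) : ℝ :=
  hubm Y (X i w) (ms Y X nw A N i N w).H

/-- the Huber mean at the time `i + 1` before the event -/
def hp (Y : ℝ) (X : ℕ → Om → Nd R V) (nw : ℕ → Om → List (Tst R V)) (A : ℕ → Om → R → Prop) (N i : ℕ) (w : Om) : ℝ :=
  hubm Y (X (i + 1) w) (ms Y X nw A N i N w).H

/-- reset at the time `i + 1` -/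
def rs (Y : ℝ) (X : ℕ → Om → Nd R V) (nw : ℕ → Om → List (Tst R V)) (A : ℕ → Om → R → Prop) (N i : ℕ) (w : Om) : Prop :=
  4 < hp Y X nw A N i w

/-- start at the time `i + 1` -/
def sta (X : ℕ → Om → Nd R V) (i : ℕ) (w : Om) : Prop := (X i w).u = (fun _ => 0) ∧ (X (i + 1) w).u ≠ fun _ => 0

theorem ms_succ (i : ℕ) (w : Om) : (ms Y X nw A N (i + 1) 0 w).H = rzero Y (X (i + 1) w) (ms Y X nw A N i N w).H := by
  unfold ms
  rw [Mach.mic_zero_succ]
  rfl

theorem ms_zero (w : Om) : (ms Y X nw A N 0 0 w).H = [] := by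
  show rzero Y (X 0 w) [] = []
  unfold rzero
  split_ifs <;> rfl

theorem val_eq_zero {x : Nd R V} (hm : IsMean x.m) {H : List (Tst R V)} {p : Tst R V}
    (h : x.v p.s = (fun _ => 0) ∨ err x H = fun _ => 0) (hY : 0 ≤ Y) : val Y x H p = 0 := by
  have h1 : (fun d => (p.g d * x.v p.s d) * clip Y (err x H d)) = fun _ => 0 := by
    funext d
    rcases h with h | h
    · rw [h]; ring
    · rw [h]
      show _ * clip Y 0 = 0
      rw [clip_zero hY, mul_zero]
  unfold val
  rw [h1, hm.zero]

theorem err_nil (x : Nd R V) : err x ([] : List (Tst R V)) = x.u := by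
  funext d
  unfold err
  simp

variable (HI : IndM P K Y es X nw N)
include HI

theorem Y0 (w : Om) : 0 ≤ Y := (HI.bd w).Y0

theorem es0 (w : Om) : 0 < es := (HI.bd w).es0

theorem pos_es : 0 < es := by
  obtain ⟨w, _⟩ := P.exists_p_ne
  exact HI.es0 w

/-- before the introduction nothing is used -/
theorem inv (i k : ℕ) (w : Om) : ((ms Y X nw A N i k w).H ≠ [] → (X i w).u ≠ fun _ => 0) ∧
    ∀ p ∈ (ms Y X nw A N i k w).H, (X i w).v p.s ≠ fun _ => 0 := by
  have hin : ∀ i, (((ms Y X nw A N i 0 w).H ≠ [] → (X i w).u ≠ fun _ => 0) ∧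
      ∀ p ∈ (ms Y X nw A N i 0 w).H, (X i w).v p.s ≠ fun _ => 0) → ∀ k,
      ((ms Y X nw A N i k w).H ≠ [] → (X i w).u ≠ fun _ => 0) ∧
        ∀ p ∈ (ms Y X nw A N i k w).H, (X i w).v p.s ≠ fun _ => 0 := by
    intro i h0 k
    induction k with
    | zero => exact h0
    | succ k ih =>
      cases hp : (Mw Y X nw w).pk (fun j => A j w) N i k with
      | none =>
        have e : ms Y X nw A N i (k + 1) w = ms Y X nw A N i k w := Mach.mic_of_pk_none _ hp
        rw [e]
        exact ih
      | some s =>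
        have e : ms Y X nw A N i (k + 1) w = use Y (X i w) s (ms Y X nw A N i k w) := Mach.mic_of_pk_some _ hp
        rw [e]
        unfold use
        cases hf : fnd Y (X i w) s (ms Y X nw A N i k w) with
        | none => exact ih
        | some p =>
          obtain ⟨h1, -, h3⟩ := fnd_some hf
          have hb := mic_bd (A := fun j => A j w) (N := N) (HI.bd w) i k p h1
          have hpos : 0 < |val Y (X i w) (ms Y X nw A N i k w).H p| := by
            have := (HI.bd w).es0
            exact lt_of_lt_of_le (by linarith [hb.1]) h3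
          have hne : val Y (X i w) (ms Y X nw A N i k w).H p ≠ 0 := abs_pos.1 hpos
          have hvs : (X i w).v p.s ≠ fun _ => 0 := fun hv =>
            hne (val_eq_zero ((HI.bd w).m i) (Or.inl hv) (HI.Y0 w))
          refine ⟨fun _ hu => ?_, fun r hr => ?_⟩
          · by_cases hH : (ms Y X nw A N i k w).H = []
            · exact hne (val_eq_zero ((HI.bd w).m i) (Or.inr (by rw [hH, err_nil, hu])) (HI.Y0 w))
            · exact ih.1 hH hu
          · rcases List.mem_cons.1 hr with h | h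
            · subst h
              exact hvs
            · exact ih.2 r h
  have h0 : ∀ i, ((ms Y X nw A N i 0 w).H ≠ [] → (X i w).u ≠ fun _ => 0) ∧
      ∀ p ∈ (ms Y X nw A N i 0 w).H, (X i w).v p.s ≠ fun _ => 0 := by
    intro i
    induction i with
    | zero =>
      rw [ms_zero]
      exact ⟨fun h => absurd rfl h, fun p hp => absurd hp (by simp)⟩
    | succ i ih =>
      have h1 := hin i ih N
      rw [ms_succ]
      unfold rzero
      split_ifs
      · exact ⟨fun h => absurd rfl h, fun p hp => absurd hp (by simp)⟩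
      · refine ⟨fun h => ?_, fun p hp => ?_⟩
        · have h2 := h1.1 h
          rcases HI.u i w with h3 | h3
          · rw [h3]; exact h2
          · exact absurd h3 h2
        · have h2 := h1.2 p hp
          rcases HI.v i w p.s with h3 | h3
          · rw [h3]; exact h2
          · exact absurd h3 h2
  exact hin i (h0 i) k

/-- the error function does not change between the times, except at the start -/
theorem err_next (i : ℕ) (w : Om) (h : ¬ sta X i w) :
    err (X (i + 1) w) (ms Y X nw A N i N w).H = err (X i w) (ms Y X nw A N i N w).H := by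
  have hu : (X (i + 1) w).u = (X i w).u := by
    rcases HI.u i w with h1 | h1
    · exact h1
    · by_contra h2
      refine h ⟨h1, fun h3 => h2 ?_⟩
      rw [h1, h3]
  have hv : ∀ p ∈ (ms Y X nw A N i N w).H, (X (i + 1) w).v p.s = (X i w).v p.s := by
    intro p hp
    exact (HI.v i w p.s).resolve_right ((HI.inv i N w).2 p hp)
  funext d
  unfold err
  rw [hu]
  congr 2
  refine List.map_congr_left fun p hp => ?_
  rw [hv p hp]

theorem nil_of_sta (i : ℕ) (w : Om) (h : sta X i w) : (ms Y X nw A N i N w).H = [] := by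
  by_contra h1
  exact (HI.inv i N w).1 h1 h.1

/-- the start happens at most once -/
theorem sum_sta (i T : ℕ) (w : Om) : ∑ j ∈ Ico i T, ind (sta X j w) ≤ 1 := by
  rcases Nat.lt_or_ge T i with h | h
  · rw [Finset.Ico_eq_empty (by omega)]
    norm_num
  have key : ∀ T, i ≤ T → ∑ j ∈ Ico i T, ind (sta X j w) ≤ ind ((X T w).u ≠ fun _ => 0) := by
    intro T hT
    induction T, hT using Nat.le_induction with
    | base => rw [Finset.Ico_self, sum_empty]; exact ind_nonneg _
    | succ T hT ih =>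
      rw [Finset.sum_Ico_succ_top hT]
      by_cases h1 : (X T w).u ≠ fun _ => 0
      · have h2 : ¬ sta X T w := fun h3 => h1 h3.1
        have h3 : (X (T + 1) w).u ≠ fun _ => 0 := by
          rcases HI.u T w with h4 | h4
          · rw [h4]; exact h1
          · exact absurd h4 h1
        rw [ind_not h2, add_zero, ind_of h3]
        exact ih.trans (ind_le_one _)
      · rw [ind_not h1] at ih
        have h4 : ind (sta X T w) ≤ ind ((X (T + 1) w).u ≠ fun _ => 0) := ind_mono fun h => h.2
        linarith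
  exact (key T h).trans (ind_le_one _)

/-- the machine is adapted -/
theorem mfac : MFac K (Mw Y X nw) where
  z _ _ := rfl
  ev i v w h := by
    have h1 := HI.xfac i v w h
    have h2 := HI.nfac i v w h
    show evt Y (X i v) (nw i v) = evt Y (X i w) (nw i w)
    rw [h1, h2]
  us i v w h := by
    have h1 := HI.xfac i v w h
    show (fun s => use Y (X i v) s) = fun s => use Y (X i w) s
    rw [h1]
  on _ _ _ _ := rfl

theorem ms_fac (hA : ∀ i, Fac (K i) (A i)) (i k : ℕ) : Fac (K i) (ms Y X nw A N i k) :=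
  mic_fac HI.filt HI.mfac hA i k

theorem cw_fac (hA : ∀ i, Fac (K i) (A i)) (i : ℕ) : Fac (K i) (cw Y X nw A N i) := by
  intro v w h
  unfold cw cu
  refine Finset.sum_congr rfl fun l _ => ?_
  have := pk_fac (N := N) HI.filt HI.mfac hA i l v w h
  simp only at this
  rw [this]

theorem cw_nonneg (i : ℕ) (w : Om) : 0 ≤ cw Y X nw A N i w := cu_nonneg _ _ _

theorem cw_le (i : ℕ) (w : Om) : cw Y X nw A N i w ≤ 16 / es ^ 2 := cu_le (HI.bd w) i N

theorem hw_nonneg (i : ℕ) (w : Om) : 0 ≤ hw Y X nw A N i w := hubm_nonneg ((HI.bd w).m i) (HI.Y0 w) _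

theorem hp_nonneg (i : ℕ) (w : Om) : 0 ≤ hp Y X nw A N i w := hubm_nonneg ((HI.bd w).m (i + 1)) (HI.Y0 w) _

/-- energy inside a time -/
theorem hw_le (i : ℕ) (w : Om) : hw Y X nw A N i w + es ^ 2 / 4 * cw Y X nw A N i w ≤ 4 :=
  (mic_hub (HI.bd w) i N).trans (mic_hub4 (HI.bd w) i 0)

/-- energy of the time `i + 1` -/
theorem step_energy (i : ℕ) (w : Om) :
    hw Y X nw A N (i + 1) w + es ^ 2 / 4 * cw Y X nw A N (i + 1) w +
      3 / 4 * (ind (rs Y X nw A N i w) * hp Y X nw A N i w) ≤ hp Y X nw A N i w := by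
  have h1 : hw Y X nw A N (i + 1) w + es ^ 2 / 4 * cw Y X nw A N (i + 1) w ≤
      hubm Y (X (i + 1) w) (ms Y X nw A N (i + 1) 0 w).H := mic_hub (HI.bd w) (i + 1) N
  rw [ms_succ] at h1
  by_cases h : rs Y X nw A N i w
  · rw [ind_of h, one_mul]
    have h2 : rzero Y (X (i + 1) w) (ms Y X nw A N i N w).H = [] := rzero_pos h
    rw [h2] at h1
    have h3 : hubm Y (X (i + 1) w) ([] : List (Tst R V)) ≤ 1 := by
      unfold hubm
      refine ((HI.bd w).m (i + 1)).le_const fun d => ?_
      rw [err_nil]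
      exact hub_le_one (HI.Y0 w) ((HI.bd w).u (i + 1) d)
    have h4 : 4 < hp Y X nw A N i w := h
    linarith
  · rw [ind_not h, zero_mul, mul_zero, add_zero]
    have h2 : rzero Y (X (i + 1) w) (ms Y X nw A N i N w).H = (ms Y X nw A N i N w).H := rzero_neg h
    rw [h2] at h1
    exact h1

/-- the move of the data -/
theorem step_mart (hA : ∀ i, Fac (K i) (A i)) (i : ℕ) {φ : Om → ℝ} (hφ : Fac (K i) φ) (h0 : ∀ w, 0 ≤ φ w) :
    P.E (fun w => φ w * hp Y X nw A N i w) ≤ P.E (fun w => φ w * hw Y X nw A N i w) +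
      P.E (fun w => φ w * ind (sta X i w)) := by
  set F : Om → V → ℝ := fun w d => hub Y (err (X i w) (ms Y X nw A N i N w).H d) with hF
  have hFf : Fac (K i) F := by
    intro v w h
    show (fun d => hub Y (err (X i v) (ms Y X nw A N i N v).H d)) = _
    rw [HI.xfac i v w h, HI.ms_fac hA i N v w h]
  have h1 := HI.mart i F φ hFf hφ
  have h2 : P.E (fun w => φ w * (X i w).m (F w)) = P.E (fun w => φ w * hw Y X nw A N i w) := rfl
  rw [← h2, ← h1, ← P.E_add]
  refine P.E_mono fun w _ => ?_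
  rw [← mul_add]
  refine mul_le_mul_of_nonneg_left ?_ (h0 w)
  by_cases h : sta X i w
  · rw [ind_of h]
    have h3 : hp Y X nw A N i w ≤ 1 := by
      unfold hp hubm
      rw [HI.nil_of_sta i w h]
      refine ((HI.bd w).m (i + 1)).le_const fun d => ?_
      rw [err_nil]
      exact hub_le_one (HI.Y0 w) ((HI.bd w).u (i + 1) d)
    have h4 : 0 ≤ (X (i + 1) w).m (F w) := ((HI.bd w).m (i + 1)).nonneg fun d => hub_nonneg (HI.Y0 w) _
    linarith
  · rw [ind_not h, add_zero]
    unfold hp hubm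
    rw [HI.err_next i w h]

/-- the potential from `i` to `T` -/
theorem pot_sum (hA : ∀ i, Fac (K i) (A i)) (i : ℕ) {φ : Om → ℝ} (hφ : Fac (K i) φ) (h0 : ∀ w, 0 ≤ φ w) (T : ℕ)
    (hT : i ≤ T) :
    P.E (fun w => φ w * hw Y X nw A N T w) + es ^ 2 / 4 * ∑ j ∈ Ico i T, P.E (fun w => φ w * cw Y X nw A N (j + 1) w) +
      3 / 4 * ∑ j ∈ Ico i T, P.E (fun w => φ w * (ind (rs Y X nw A N j w) * hp Y X nw A N j w)) ≤
      P.E (fun w => φ w * hw Y X nw A N i w) + ∑ j ∈ Ico i T, P.E (fun w => φ w * ind (sta X j w)) := by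
  induction T, hT using Nat.le_induction with
  | base => simp
  | succ T hT ih =>
    rw [Finset.sum_Ico_succ_top hT, Finset.sum_Ico_succ_top hT, Finset.sum_Ico_succ_top hT]
    have h1 := HI.step_mart hA T (HI.filt.le hT |>.trans hφ) h0
    have h2 : P.E (fun w => φ w * hw Y X nw A N (T + 1) w) + es ^ 2 / 4 * P.E (fun w => φ w * cw Y X nw A N (T + 1) w) +
        3 / 4 * P.E (fun w => φ w * (ind (rs Y X nw A N T w) * hp Y X nw A N T w)) ≤
        P.E (fun w => φ w * hp Y X nw A N T w) := by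
      rw [← P.E_smul, ← P.E_smul, ← P.E_add, ← P.E_add]
      refine P.E_mono fun w _ => ?_
      have := mul_le_mul_of_nonneg_left (HI.step_energy (A := A) T w) (h0 w)
      linarith
    linarith

/-- everything from the time `i` on -/
theorem pot_all (hA : ∀ i, Fac (K i) (A i)) (i : ℕ) {φ : Om → ℝ} (hφ : Fac (K i) φ) (h0 : ∀ w, 0 ≤ φ w) (T : ℕ)
    (hT : i ≤ T) :
    es ^ 2 / 4 * ∑ j ∈ Icc i T, P.E (fun w => φ w * cw Y X nw A N j w) +
      3 / 4 * ∑ j ∈ Ico i T, P.E (fun w => φ w * (ind (rs Y X nw A N j w) * hp Y X nw A N j w)) ≤ 5 * P.E φ := by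
  have h1 := HI.pot_sum hA i hφ h0 T hT
  have h2 : P.E (fun w => φ w * hw Y X nw A N i w) + es ^ 2 / 4 * P.E (fun w => φ w * cw Y X nw A N i w) ≤ 4 * P.E φ := by
    rw [← P.E_smul, ← P.E_smul, ← P.E_add]
    refine P.E_mono fun w _ => ?_
    have := mul_le_mul_of_nonneg_left (HI.hw_le (A := A) i w) (h0 w)
    linarith
  have h3 : ∑ j ∈ Ico i T, P.E (fun w => φ w * ind (sta X j w)) ≤ P.E φ := by
    rw [← P.E_sum]
    refine P.E_mono fun w _ => ?_
    rw [← Finset.mul_sum]
    exact mul_le_of_le_one_right (h0 w) (HI.sum_sta i T w)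
  have h4 : 0 ≤ P.E (fun w => φ w * hw Y X nw A N T w) :=
    P.E_nonneg fun w _ => mul_nonneg (h0 w) (HI.hw_nonneg T w)
  have h5 : ∑ j ∈ Icc i T, P.E (fun w => φ w * cw Y X nw A N j w) = P.E (fun w => φ w * cw Y X nw A N i w) +
      ∑ j ∈ Ico i T, P.E (fun w => φ w * cw Y X nw A N (j + 1) w) := by
    have e1 : Icc i T = Ico i (T + 1) := by
      ext j
      simp only [mem_Icc, mem_Ico]
      omega
    rw [e1, Finset.sum_eq_sum_Ico_succ_bot (by omega : i < T + 1),
      Finset.sum_Ico_add' (fun j => P.E (fun w => φ w * cw Y X nw A N j w)) i T 1]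
  rw [h5, mul_add]
  linarith

/-- **uses**: in mean at most `20 / es ^ 2` from every state, time `i` included -/
theorem uses_le (hA : ∀ i, Fac (K i) (A i)) (i : ℕ) {φ : Om → ℝ} (hφ : Fac (K i) φ) (h0 : ∀ w, 0 ≤ φ w) (T : ℕ) :
    ∑ j ∈ Icc i T, P.E (fun w => φ w * cw Y X nw A N j w) ≤ 20 / es ^ 2 * P.E φ := by
  have hes := HI.pos_es
  have hE : 0 ≤ P.E φ := P.E_nonneg fun w _ => h0 w
  rcases Nat.lt_or_ge T i with h | h
  · rw [Finset.Icc_eq_empty (by omega), sum_empty]
    positivity
  have h1 := HI.pot_all hA i hφ h0 T h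
  have h2 : 0 ≤ ∑ j ∈ Ico i T, P.E (fun w => φ w * (ind (rs Y X nw A N j w) * hp Y X nw A N j w)) :=
    Finset.sum_nonneg fun j _ => P.E_nonneg fun w _ =>
      mul_nonneg (h0 w) (mul_nonneg (ind_nonneg _) (HI.hp_nonneg j w))
  have h3 : es ^ 2 * ∑ j ∈ Icc i T, P.E (fun w => φ w * cw Y X nw A N j w) ≤ 20 * P.E φ := by linarith
  rw [div_mul_eq_mul_div, le_div_iff₀ (by positivity)]
  linarith

/-- **resets**, weighted with the Huber mean before the reset -/
theorem resets_hub (hA : ∀ i, Fac (K i) (A i)) (i : ℕ) {φ : Om → ℝ} (hφ : Fac (K i) φ) (h0 : ∀ w, 0 ≤ φ w) (T : ℕ) :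
    ∑ j ∈ Ico i T, P.E (fun w => φ w * (ind (rs Y X nw A N j w) * hp Y X nw A N j w)) ≤ 20 / 3 * P.E φ := by
  have hes := HI.pos_es
  have hE : 0 ≤ P.E φ := P.E_nonneg fun w _ => h0 w
  rcases Nat.lt_or_ge T i with h | h
  · rw [Finset.Ico_eq_empty (by omega), sum_empty]
    positivity
  have h1 := HI.pot_all hA i hφ h0 T h
  have h2 : 0 ≤ es ^ 2 / 4 * ∑ j ∈ Icc i T, P.E (fun w => φ w * cw Y X nw A N j w) :=
    mul_nonneg (by positivity) (Finset.sum_nonneg fun j _ => P.E_nonneg fun w _ =>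
      mul_nonneg (h0 w) (HI.cw_nonneg j w))
  linarith

/-- **resets** -/
theorem resets_le (hA : ∀ i, Fac (K i) (A i)) (i : ℕ) {φ : Om → ℝ} (hφ : Fac (K i) φ) (h0 : ∀ w, 0 ≤ φ w) (T : ℕ) :
    ∑ j ∈ Ico i T, P.E (fun w => φ w * ind (rs Y X nw A N j w)) ≤ 5 / 3 * P.E φ := by
  have h1 := HI.resets_hub hA i hφ h0 T
  have h2 : 4 * ∑ j ∈ Ico i T, P.E (fun w => φ w * ind (rs Y X nw A N j w)) ≤
      ∑ j ∈ Ico i T, P.E (fun w => φ w * (ind (rs Y X nw A N j w) * hp Y X nw A N j w)) := by
    rw [Finset.mul_sum]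
    refine Finset.sum_le_sum fun j _ => ?_
    rw [← P.E_smul]
    refine P.E_mono fun w _ => ?_
    by_cases h : rs Y X nw A N j w
    · have h3 : 4 < hp Y X nw A N j w := h
      rw [ind_of h]
      nlinarith [h0 w]
    · rw [ind_not h]; simp
  linarith

/-- a change of the error function at the end of a time -/
theorem mv_le (j : ℕ) (w : Om) : ind (Ew Y X nw A N (j + 1) w ≠ Ew Y X nw A N j w) ≤
    ind (sta X j w) + ind (rs Y X nw A N j w) + cw Y X nw A N (j + 1) w := by
  by_cases h1 : sta X j w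
  · rw [ind_of h1]
    have := ind_le_one (Ew Y X nw A N (j + 1) w ≠ Ew Y X nw A N j w)
    have := ind_nonneg (rs Y X nw A N j w)
    have := HI.cw_nonneg (A := A) (j + 1) w
    linarith
  by_cases h2 : rs Y X nw A N j w
  · rw [ind_of h2]
    have := ind_le_one (Ew Y X nw A N (j + 1) w ≠ Ew Y X nw A N j w)
    have := ind_nonneg (sta X j w)
    have := HI.cw_nonneg (A := A) (j + 1) w
    linarith
  have hc : ∀ l, 0 ≤ ind ((Mw Y X nw w).pk (fun j => A j w) N (j + 1) l ≠ none) := fun _ => ind_nonneg _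
  by_cases h3 : N = 0 ∨ (Mw Y X nw w).pk (fun j => A j w) N (j + 1) 0 = none
  · have h4 : ms Y X nw A N (j + 1) N w = ms Y X nw A N (j + 1) 0 w := by
      rcases h3 with h3 | h3
      · unfold ms
        rw [h3]
      · exact ((Mw Y X nw w).mic_idle h3 (Nat.zero_le N)).1
    have h5 : Ew Y X nw A N (j + 1) w = Ew Y X nw A N j w := by
      unfold Ew
      rw [h4, ms_succ]
      have h6 : rzero Y (X (j + 1) w) (ms Y X nw A N j N w).H = (ms Y X nw A N j N w).H := rzero_neg h2
      rw [h6]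
      exact HI.err_next j w h1
    rw [ind_not (fun h => h h5)]
    have := ind_nonneg (sta X j w)
    have := ind_nonneg (rs Y X nw A N j w)
    have := HI.cw_nonneg (A := A) (j + 1) w
    linarith
  · push Not at h3
    have h4 : 1 ≤ cw Y X nw A N (j + 1) w := by
      unfold cw cu
      refine le_trans (le_of_eq (ind_of h3.2).symm) ?_
      exact Finset.single_le_sum (f := fun l => ind ((Mw Y X nw w).pk (fun j => A j w) N (j + 1) l ≠ none))
        (fun l _ => hc l) (mem_range.2 (Nat.pos_of_ne_zero h3.1))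
    have := ind_le_one (Ew Y X nw A N (j + 1) w ≠ Ew Y X nw A N j w)
    have := ind_nonneg (sta X j w)
    have := ind_nonneg (rs Y X nw A N j w)
    linarith

/-- **changes of the error function** -/
theorem moves_le (hA : ∀ i, Fac (K i) (A i)) (i : ℕ) {φ : Om → ℝ} (hφ : Fac (K i) φ) (h0 : ∀ w, 0 ≤ φ w) (T : ℕ) :
    ∑ j ∈ Ico i T, P.E (fun w => φ w * ind (Ew Y X nw A N (j + 1) w ≠ Ew Y X nw A N j w)) ≤
      (3 + 20 / es ^ 2) * P.E φ := by
  have hE : 0 ≤ P.E φ := P.E_nonneg fun w _ => h0 w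
  have h1 := HI.uses_le hA i hφ h0 T
  have h2 := HI.resets_le hA i hφ h0 T
  have h3 : ∑ j ∈ Ico i T, P.E (fun w => φ w * ind (sta X j w)) ≤ P.E φ := by
    rw [← P.E_sum]
    refine P.E_mono fun w _ => ?_
    rw [← Finset.mul_sum]
    exact mul_le_of_le_one_right (h0 w) (HI.sum_sta i T w)
  have h4 : ∑ j ∈ Ico i T, P.E (fun w => φ w * cw Y X nw A N (j + 1) w) ≤
      ∑ j ∈ Icc i T, P.E (fun w => φ w * cw Y X nw A N j w) := by
    rw [Finset.sum_Ico_add' (fun j => P.E (fun w => φ w * cw Y X nw A N j w)) i T 1]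
    refine Finset.sum_le_sum_of_subset_of_nonneg (fun j hj => ?_) fun j _ _ => P.E_nonneg fun w _ =>
      mul_nonneg (h0 w) (HI.cw_nonneg j w)
    have := mem_Ico.1 hj
    exact mem_Icc.2 ⟨by omega, by omega⟩
  have h5 : ∑ j ∈ Ico i T, P.E (fun w => φ w * ind (Ew Y X nw A N (j + 1) w ≠ Ew Y X nw A N j w)) ≤
      ∑ j ∈ Ico i T, P.E (fun w => φ w * ind (sta X j w)) + ∑ j ∈ Ico i T, P.E (fun w => φ w * ind (rs Y X nw A N j w)) +
        ∑ j ∈ Ico i T, P.E (fun w => φ w * cw Y X nw A N (j + 1) w) := by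
    rw [← Finset.sum_add_distrib, ← Finset.sum_add_distrib]
    refine Finset.sum_le_sum fun j _ => ?_
    rw [← P.E_add, ← P.E_add]
    refine P.E_mono fun w _ => ?_
    have := mul_le_mul_of_nonneg_left (HI.mv_le (A := A) j w) (h0 w)
    linarith
  linarith

/-! ### stretches of one reference -/

omit HI in
theorem flag_off {x : Nd R V} {H T : List (Tst R V)} {on : R → Prop} {n : R} (hT : ∀ p ∈ T, 0 < p.e) (hon : on n)
    (h : ¬ flag Y x H T on n) : qm Y x H n T ≤ 1 / 2 := by
  refine qm_le (by norm_num) fun p hp hs => ?_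
  rw [div_le_iff₀ (hT p hp)]
  by_contra hc
  refine h (Or.inr ⟨hon, p, hp, hs, ?_⟩)
  rw [not_le] at hc
  linarith

omit HI in
theorem flag_up {x : Nd R V} {H T : List (Tst R V)} {on : R → Prop} {n : R} (hT : ∀ p ∈ T, 0 < p.e) (hon : ¬ on n)
    (h : flag Y x H T on n) : 1 ≤ qm Y x H n T := by
  rcases h with ⟨p, hp, hs, h1⟩ | ⟨h1, -⟩
  · refine le_trans ?_ (le_qm hp hs)
    rw [le_div_iff₀ (hT p hp), one_mul]
    exact h1
  · exact absurd h1 hon

/-- the maximum of the tests of `n` at a micro moment -/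
def qq (Y : ℝ) (X : ℕ → Om → Nd R V) (nw : ℕ → Om → List (Tst R V)) (A : ℕ → Om → R → Prop) (N : ℕ) (n : R)
    (t k : ℕ) (w : Om) : ℝ := qm Y (X t w) (ms Y X nw A N t k w).H n (ms Y X nw A N t k w).T

/-- the input of the resets -/
def rr (P : FP Om) (K : ∀ t, Om → κ t) (Y es : ℝ) (X : ℕ → Om → Nd R V) (nw : ℕ → Om → List (Tst R V))
    (A : ℕ → Om → R → Prop) (N t : ℕ) : Om → ℝ :=
  P.ce (K t) (fun v => ind (rs Y X nw A N t v) * (hp Y X nw A N t v / (2 * es)))

theorem T_bd (i k : ℕ) (w : Om) : ∀ p ∈ (ms Y X nw A N i k w).T, es ≤ p.e ∧ ∀ d, |p.g d| ≤ 1 :=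
  mic_bd (HI.bd w) i k

theorem T_pos (i k : ℕ) (w : Om) : ∀ p ∈ (ms Y X nw A N i k w).T, 0 < p.e :=
  fun p hp => HI.pos_es.trans_le (HI.T_bd i k w p hp).1

theorem qq_le (n : R) (t k : ℕ) (w : Om) : qq Y X nw A N n t k w ≤ 2 / es := by
  have hes := HI.pos_es
  refine qm_le (by positivity) fun p hp _ => ?_
  obtain ⟨h1, h2⟩ := HI.T_bd t k w p hp
  have h3 := abs_val_le_two (HI.Y0 w) ((HI.bd w).m t) ((HI.bd w).v t) h2 (mic_hub4 (A := fun j => A j w) (N := N) (HI.bd w) t k)
  exact (div_le_div_of_nonneg_right h3 (hes.le.trans h1)).trans (div_le_div_of_nonneg_left (by norm_num) hes h1)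

/-- the tests of the state only grow -/
theorem ms_T_succ (t : ℕ) (w : Om) : (ms Y X nw A N (t + 1) 0 w).T = (ms Y X nw A N t N w).T ++ nw (t + 1) w := by
  unfold ms
  rw [Mach.mic_zero_succ]
  rfl

theorem ms_on_succ (t : ℕ) (w : Om) : (ms Y X nw A N (t + 1) 0 w).on =
    flag Y (X (t + 1) w) (ms Y X nw A N (t + 1) 0 w).H (ms Y X nw A N (t + 1) 0 w).T (ms Y X nw A N t N w).on := by
  unfold ms
  rw [Mach.mic_zero_succ]
  rfl

/-- a micro step: nothing or an entry -/
theorem ms_step (t k : ℕ) (w : Om) : ms Y X nw A N t (k + 1) w = ms Y X nw A N t k w ∨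
    ((Mw Y X nw w).pk (fun j => A j w) N t k ≠ none ∧ ∃ p ∈ (ms Y X nw A N t k w).T,
      p.e / 2 ≤ |val Y (X t w) (ms Y X nw A N t k w).H p| ∧
      (ms Y X nw A N t (k + 1) w).H = ent Y (X t w) (ms Y X nw A N t k w).H p :: (ms Y X nw A N t k w).H ∧
      (ms Y X nw A N t (k + 1) w).T = (ms Y X nw A N t k w).T ∧
      (ms Y X nw A N t (k + 1) w).on = flag Y (X t w) (ms Y X nw A N t (k + 1) w).H (ms Y X nw A N t k w).T
        (ms Y X nw A N t k w).on) := by
  cases hp : (Mw Y X nw w).pk (fun j => A j w) N t k with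
  | none => exact Or.inl (Mach.mic_of_pk_none _ hp)
  | some s =>
    have e : ms Y X nw A N t (k + 1) w = use Y (X t w) s (ms Y X nw A N t k w) := Mach.mic_of_pk_some _ hp
    cases hf : fnd Y (X t w) s (ms Y X nw A N t k w) with
    | none =>
      left
      rw [e]
      unfold use
      rw [hf]
    | some p =>
      right
      obtain ⟨h1, -, h3⟩ := fnd_some hf
      refine ⟨by simp, p, h1, h3, ?_⟩
      have e2 : ms Y X nw A N t (k + 1) w = ⟨ent Y (X t w) (ms Y X nw A N t k w).H p :: (ms Y X nw A N t k w).H,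
          (ms Y X nw A N t k w).T, flag Y (X t w) (ent Y (X t w) (ms Y X nw A N t k w).H p :: (ms Y X nw A N t k w).H)
            (ms Y X nw A N t k w).T (ms Y X nw A N t k w).on⟩ := by
        rw [e]
        unfold use
        rw [hf]
      rw [e2]
      exact ⟨rfl, rfl, rfl⟩

theorem ent_bd {x : Nd R V} {H : List (Tst R V)} {p : Tst R V} (h : p.e / 2 ≤ |val Y x H p|) (h2 : |val Y x H p| ≤ 2)
    (he : 0 < p.e) : |(ent Y x H p).e| ≤ 2 := by
  have h3 : |(ent Y x H p).e| = p.e / 2 := by
    unfold ent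
    show |(if 0 ≤ val Y x H p then (1 : ℝ) else -1) * (p.e / 2)| = p.e / 2
    split_ifs
    · rw [one_mul, abs_of_pos (by linarith)]
    · rw [neg_one_mul, abs_neg, abs_of_pos (by linarith)]
  rw [h3]
  linarith

/-- between the times the maximum is a submartingale up to the resets -/
theorem qq_sub (hA : ∀ i, Fac (K i) (A i)) (n : R) (t : ℕ) {w : Om} (hw0 : P.p w ≠ 0) :
    qq Y X nw A N n t N w - rr P K Y es X nw A N t w ≤ P.ce (K t) (qq Y X nw A N n (t + 1) 0) w := by
  have hes := HI.pos_es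
  -- the maximum at the time `t + 1` with the old history
  set q' : Om → ℝ := fun v => qm Y (X (t + 1) v) (ms Y X nw A N t N v).H n (ms Y X nw A N t N v).T with hq'
  have h1 : ∀ v, q' v - ind (rs Y X nw A N t v) * (hp Y X nw A N t v / (2 * es)) ≤ qq Y X nw A N n (t + 1) 0 v := by
    intro v
    have h0 : 0 ≤ qq Y X nw A N n (t + 1) 0 v := qm_nonneg _
    by_cases h : rs Y X nw A N t v
    · rw [ind_of h, one_mul]
      have h2 : q' v ≤ hp Y X nw A N t v / (2 * es) := by
        have h4 : 4 < hp Y X nw A N t v := h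
        refine qm_le (by positivity) fun p hp' _ => ?_
        obtain ⟨h5, h6⟩ := HI.T_bd t N v p hp'
        have h7 := abs_val_le (Y := Y) (H := (ms Y X nw A N t N v).H) (HI.Y0 v) ((HI.bd v).m (t + 1))
          ((HI.bd v).v (t + 1)) h6
        have h8 : |val Y (X (t + 1) v) (ms Y X nw A N t N v).H p| ≤ hp Y X nw A N t v / 2 := by
          have h9 : hubm Y (X (t + 1) v) (ms Y X nw A N t N v).H = hp Y X nw A N t v := rfl
          rw [h9] at h7
          linarith
        have h9 : hp Y X nw A N t v / (2 * es) = hp Y X nw A N t v / 2 / es := by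
          rw [div_div]
        rw [h9]
        exact (div_le_div_of_nonneg_right h8 (hes.le.trans h5)).trans
          (div_le_div_of_nonneg_left (by linarith) hes h5)
      linarith
    · rw [ind_not h, zero_mul, sub_zero]
      have h2 : qq Y X nw A N n (t + 1) 0 v = qm Y (X (t + 1) v) (ms Y X nw A N t N v).H n
          ((ms Y X nw A N t N v).T ++ nw (t + 1) v) := by
        unfold qq
        rw [HI.ms_T_succ, ms_succ, rzero_neg h]
      rw [h2]
      exact qm_append _ _
  have h2 : P.ce (K t) q' w - rr P K Y es X nw A N t w ≤ P.ce (K t) (qq Y X nw A N n (t + 1) 0) w := by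
    unfold rr
    rw [← P.ce_sub]
    exact P.ce_mono (fun v _ => h1 v) w
  have h3 : qq Y X nw A N n t N w ≤ P.ce (K t) q' w := by
    rcases lt_or_eq_of_le (qm_nonneg (Y := Y) (x := X t w) (H := (ms Y X nw A N t N w).H) (n := n)
      (ms Y X nw A N t N w).T) with hpos | hzero
    · obtain ⟨p, hp', hs, he⟩ := qm_ex hpos
      have e0 : qq Y X nw A N n t N w = |val Y (X t w) (ms Y X nw A N t N w).H p| / p.e := he
      rw [e0]
      obtain ⟨h5, h6⟩ := HI.T_bd t N w p hp'
      have hpe : 0 < p.e := hes.trans_le h5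
      have hvne : val Y (X t w) (ms Y X nw A N t N w).H p ≠ 0 := by
        intro h
        have e1 : qm Y (X t w) (ms Y X nw A N t N w).H n (ms Y X nw A N t N w).T = 0 := by
          rw [he, h, abs_zero, zero_div]
        rw [e1] at hpos
        exact lt_irrefl _ hpos
      have hv : (X t w).v p.s ≠ fun _ => 0 := fun h => hvne (val_eq_zero ((HI.bd w).m t) (Or.inl h) (HI.Y0 w))
      have herr : err (X t w) (ms Y X nw A N t N w).H ≠ fun _ => 0 := fun h =>
        hvne (val_eq_zero ((HI.bd w).m t) (Or.inr h) (HI.Y0 w))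
      set F : Om → V → ℝ := fun v d => (p.g d * (X t v).v p.s d) * clip Y (err (X t v) (ms Y X nw A N t N v).H d) with hF
      have hFf : Fac (K t) F := by
        intro v v' h
        show (fun d => (p.g d * (X t v).v p.s d) * clip Y (err (X t v) (ms Y X nw A N t N v).H d)) = _
        rw [HI.xfac t v v' h, HI.ms_fac hA t N v v' h]
      -- the value one time later, on the fibre of `w`
      have hfib : ∀ v, K t v = K t w → (X (t + 1) v).m (F v) = val Y (X (t + 1) v) (ms Y X nw A N t N v).H p := by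
        intro v h
        have a1 : X t v = X t w := HI.xfac t v w h
        have a2 : ms Y X nw A N t N v = ms Y X nw A N t N w := HI.ms_fac hA t N v w h
        have a3 : (X (t + 1) v).v p.s = (X t v).v p.s := (HI.v t v p.s).resolve_right (by rw [a1]; exact hv)
        have a4 : ¬ sta X t v := by
          intro h'
          have := HI.nil_of_sta (A := A) t v h'
          refine herr ?_
          rw [← a2, ← a1, this, err_nil]
          exact h'.1
        have a5 := HI.err_next (A := A) t v a4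
        unfold val
        rw [a3, a5]
      have hce : P.ce (K t) (fun v => (X (t + 1) v).m (F v)) w = val Y (X t w) (ms Y X nw A N t N w).H p := by
        have b1 := HI.mart t F (fun v => ind (K t v = K t w)) hFf (Fac.ind fun v v' h => by rw [h])
        unfold FP.ce
        rw [b1]
        have b2 : P.E (fun v => ind (K t v = K t w) * (X t v).m (F v)) =
            P.E (fun v => ind (K t v = K t w)) * val Y (X t w) (ms Y X nw A N t N w).H p := by
          rw [← P.E_mul_const]
          refine P.E_congr fun v _ => ?_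
          by_cases h : K t v = K t w
          · have c1 : (X t v).m (F v) = val Y (X t w) (ms Y X nw A N t N w).H p := by
              have a1 : X t v = X t w := HI.xfac t v w h
              rw [hFf v w h, a1]
              rfl
            rw [c1]
          · rw [ind_not h, zero_mul, zero_mul]
        rw [b2]
        have b3 := P.m_pos (K t) hw0
        show P.m (K t) w * _ / P.m (K t) w = _
        field_simp
      have hle : P.ce (K t) (fun v => |(X (t + 1) v).m (F v)| / p.e) w ≤ P.ce (K t) q' w := by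
        unfold FP.ce
        refine div_le_div_of_nonneg_right (P.E_mono fun v _ => ?_) (P.m_nonneg _ _)
        by_cases h : K t v = K t w
        · have a2 : ms Y X nw A N t N v = ms Y X nw A N t N w := HI.ms_fac hA t N v w h
          refine mul_le_mul_of_nonneg_left ?_ (ind_nonneg _)
          show |(X (t + 1) v).m (F v)| / p.e ≤ _
          rw [hfib v h]
          exact le_qm (by rw [a2]; exact hp') hs
        · rw [ind_not h, zero_mul, zero_mul]
      refine le_trans ?_ hle
      have h9 : P.ce (K t) (fun v => |(X (t + 1) v).m (F v)| / p.e) w =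
          P.ce (K t) (fun v => |(X (t + 1) v).m (F v)|) w * (1 / p.e) := by
        rw [← P.ce_mul' (h := fun _ => 1 / p.e) (Fac.const _ _)]
        exact P.ce_congr (fun v _ => by ring) w
      rw [h9, div_eq_mul_one_div]
      refine mul_le_mul_of_nonneg_right ?_ (by positivity)
      rw [← hce]
      exact P.abs_ce_le _ _ _
    · have e0 : qq Y X nw A N n t N w = 0 := hzero.symm
      rw [e0]
      exact P.ce_nonneg (fun v _ => qm_nonneg _) w
  linarith

/-- **the hypotheses of the crossing lemma** -/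
theorem onHyp (hA : ∀ i, Fac (K i) (A i)) (n : R) (hmono : ∀ i w, A i w n → A (i + 1) w n) (T : ℕ) :
    OnHyp P K (Mw Y X nw) A N T n (qq Y X nw A N n) (2 / es) (2 / es) (rr P K Y es X nw A N) where
  filt := HI.filt
  mfac := HI.mfac
  afac := hA
  amono := hmono
  qfac t k v w h := by
    unfold qq
    rw [HI.xfac t v w h, HI.ms_fac hA t k v w h]
  B0 := by have := HI.pos_es; positivity
  q1 t _ k _ w _ := HI.qq_le n t k w
  half t _ k _ w _ h := by
    obtain ⟨p, hp', hs, h1⟩ := (mic_cons (A := fun j => A j w) (N := N) (HI.bd w) t k n).1 h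
    have h2 : 0 < p.e := HI.T_pos (A := A) t k w p hp'
    refine le_trans ?_ (le_qm (Y := Y) (x := X t w) (H := (ms Y X nw A N t k w).H) hp' hs)
    rw [le_div_iff₀ h2]
    linarith [show p.e / 2 ≤ |val Y (X t w) (ms Y X nw A N t k w).H p| from h1]
  offU t _ k _ w _ h1 h2 := by
    have h1' : (ms Y X nw A N t k w).on n := h1
    have h2' : ¬ (ms Y X nw A N t (k + 1) w).on n := h2
    rcases HI.ms_step (A := A) t k w with h | ⟨-, p, hp', -, h3, h4, h5⟩
    · rw [h] at h2'; exact absurd h1' h2'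
    · unfold qq
      rw [h4]
      rw [h5] at h2'
      exact flag_off (HI.T_pos t k w) h1' h2'
  upU t _ k _ w _ h1 h2 := by
    have h1' : ¬ (ms Y X nw A N t k w).on n := h1
    have h2' : (ms Y X nw A N t (k + 1) w).on n := h2
    rcases HI.ms_step (A := A) t k w with h | ⟨-, p, hp', -, h3, h4, h5⟩
    · rw [h] at h2'; exact absurd h2' h1'
    · unfold qq
      rw [h4]
      rw [h5] at h2'
      exact flag_up (HI.T_pos t k w) h1' h2'
  offE t _ w _ h1 h2 := by
    have h1' : (ms Y X nw A N t N w).on n := h1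
    have h2' : ¬ (ms Y X nw A N (t + 1) 0 w).on n := h2
    rw [HI.ms_on_succ] at h2'
    exact flag_off (HI.T_pos (t + 1) 0 w) h1' h2'
  upE t _ w _ h1 h2 := by
    have h1' : ¬ (ms Y X nw A N t N w).on n := h1
    have h2' : (ms Y X nw A N (t + 1) 0 w).on n := h2
    rw [HI.ms_on_succ] at h2'
    exact flag_up (HI.T_pos (t + 1) 0 w) h1' h2'
  useU t _ k _ w _ := by
    have hes := HI.pos_es
    rcases HI.ms_step (A := A) t k w with h | ⟨h0, p, hp', h1, h3, h4, -⟩
    · have h2 : qq Y X nw A N n t (k + 1) w = qq Y X nw A N n t k w := by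
        unfold qq
        rw [h]
      rw [h2]
      have : 0 ≤ 2 / es * ind ((Mw Y X nw w).pk (fun j => A j w) N t k ≠ none) :=
        mul_nonneg (by positivity) (ind_nonneg _)
      linarith
    · rw [ind_of h0, mul_one]
      unfold qq
      rw [h3, h4]
      obtain ⟨h5, h6⟩ := HI.T_bd (A := A) t k w p hp'
      have h7 := abs_val_le_two (HI.Y0 w) ((HI.bd w).m t) ((HI.bd w).v t) h6
        (mic_hub4 (A := fun j => A j w) (N := N) (HI.bd w) t k)
      exact qm_entry hes ((HI.bd w).m t) ((HI.bd w).v t) (HI.T_bd t k w) (q := ent Y (X t w) (ms Y X nw A N t k w).H p)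
        h6 (HI.ent_bd h1 h7 (hes.trans_le h5))
  useE t _ w hw0 := HI.qq_sub hA n t hw0
  cu0 := by have := HI.pos_es; positivity
  r0 t w := by
    have := HI.pos_es
    exact P.ce_nonneg (fun v _ => mul_nonneg (ind_nonneg _) (div_nonneg (HI.hp_nonneg t v) (by positivity))) w

/-- the bound of the number of stretches -/
def NvB (es : ℝ) : ℝ := 2 * (2 / es) + 3 + 2 * (2 / es) * (20 / es ^ 2) + 2 * (4 / es)

theorem NvB_nonneg : 0 ≤ NvB es := by
  have := HI.pos_es
  unfold NvB
  positivity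

/-- **ends of the stretches ON and not allowed of one reference** -/
theorem ends_le {mem : ℕ → Om → R → Prop} {Rr : ℝ} (hR : 0 ≤ Rr) (f : R → ℕ) (n : R) (T : ℕ) {i : ℕ} (hi : i ≤ T)
    {F : Om → Prop} (hF : ∀ v w, K i v = K i w → (F v ↔ F w)) :
    ∑ t ∈ Icc i T, P.Pr (fun w => F w ∧ EndAt P K mem Rr (Mw Y X nw) N f n t w) ≤ NvB es * P.Pr F := by
  have hes := HI.pos_es
  have hA : ∀ i, Fac (K i) (Aw P K mem Rr f i) := fun i => Aw_fac HI.filt f i
  have hφ : Fac (K i) (fun w => ind (F w)) := Fac.ind hF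
  have hO := HI.onHyp hA n (fun i w h => rc_mono hR (Nat.le_succ i) h) T
  refine ends_of_onHyp hO hi hF ?_ ?_
  · have h1 := HI.uses_le hA i hφ (fun w => ind_nonneg _) T
    refine le_trans (le_of_eq ?_) h1
    rw [← P.E_sum]
    refine P.E_congr fun w _ => ?_
    rw [Finset.mul_sum]
    rfl
  · have h1 := HI.resets_hub hA i hφ (fun w => ind_nonneg _) T
    have h2 : ∑ t ∈ Ico i T, P.E (fun w => ind (F w) * rr P K Y es X nw (Aw P K mem Rr f) N t w) =
        1 / (2 * es) * ∑ j ∈ Ico i T, P.E (fun w => ind (F w) * (ind (rs Y X nw (Aw P K mem Rr f) N j w) *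
          hp Y X nw (Aw P K mem Rr f) N j w)) := by
      rw [Finset.mul_sum]
      refine Finset.sum_congr rfl fun t ht => ?_
      unfold rr
      rw [P.E_mul_ce (h := fun w => ind (F w)) ((HI.filt.le (mem_Ico.1 ht).1).trans hφ), ← P.E_smul]
      exact P.E_congr fun w _ => by ring
    rw [h2]
    have h3 : 0 ≤ P.E (fun w => ind (F w)) := P.Pr_nonneg F
    have h4 : P.E (fun w => ind (F w)) = P.Pr F := rfl
    rw [h4] at h1 h3
    calc 1 / (2 * es) * _ ≤ 1 / (2 * es) * (20 / 3 * P.Pr F) := mul_le_mul_of_nonneg_left h1 (by positivity)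
      _ = (10 / 3) / es * P.Pr F := by field_simp; ring
      _ ≤ 4 / es * P.Pr F := mul_le_mul_of_nonneg_right
          (div_le_div_of_nonneg_right (by norm_num) hes.le) h3

/-- **the hypotheses of `JR_1`** -/
theorem jrOne {mem : ℕ → Om → R → Prop} {Rr : ℝ} {g T : ℕ} (hR : 0 < Rr)
    (hmem : ∀ i w n, mem i w n → mem (i + 1) w n)
    (hdbl : ∀ i w, P.p w ≠ 0 → ∀ s : Om → Prop,
      P.ce (K (i + 1)) (fun v => ind (s v)) w ≤ 2 * P.ce (K i) (fun v => ind (s v)) w)
    (hlow : ∀ w, P.p w ≠ 0 → (1 / 2 : ℝ) ^ g ≤ Rr * P.p w) :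
    JROne P K mem Rr (Mw Y X nw) N T g (20 / es ^ 2) (NvB es) where
  R0 := hR
  filt := HI.filt
  mfac := HI.mfac
  mono := hmem
  dbl := hdbl
  low := hlow
  term f w _ i _ := pk_none (HI.bd w) i HI.hN
  use f := by
    have h1 := HI.uses_le (A := Aw P K mem Rr f) (fun i => Aw_fac HI.filt f i) 0 (Fac.const _ (1 : ℝ))
      (fun w => by norm_num) T
    rw [P.E_const, mul_one] at h1
    refine le_trans (le_of_eq ?_) h1
    rw [← P.E_sum]
    refine P.E_congr fun w _ => ?_
    unfold nUse
    have e : Icc 0 T = range (T + 1) := by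
      ext j
      simp only [mem_Icc, mem_range]
      omega
    rw [e]
    refine Finset.sum_congr rfl fun j _ => ?_
    rw [one_mul]
    rfl
  Nv0 := HI.NvB_nonneg
  ends f n i hi F hF := HI.ends_le hR.le f n T hi hF

/-- the number of uses up to the time `t` -/
def tw (Y : ℝ) (X : ℕ → Om → Nd R V) (nw : ℕ → Om → List (Tst R V)) (A : ℕ → Om → R → Prop) (N t : ℕ) (w : Om) : ℝ :=
  ∑ j ∈ range (t + 1), cw Y X nw A N j w

/-- **exponential tails of the number of uses after the time `s`** -/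
theorem use_tail (hA : ∀ i, Fac (K i) (A i)) (T k : ℕ) {s : ℕ} (hs : s ≤ T) {φ : Om → ℝ} (hφ : Fac (K s) φ)
    (h0 : ∀ w, 0 ≤ φ w) :
    P.E (fun w => φ w * ind ((k : ℝ) * (2 * (20 / es ^ 2) + 16 / es ^ 2 + 1) ≤ tw Y X nw A N T w - tw Y X nw A N s w)) ≤
      (1 / 2) ^ k * P.E φ := by
  have hes := HI.pos_es
  refine tail_fut P HI.filt (c := tw Y X nw A N) ?_ ?_ ?_ (by positivity) ?_ k s hs φ hφ h0
  · intro t
    exact Fac.finsum _ fun j hj => (HI.filt.le (by have := mem_range.1 hj; omega)).trans (HI.cw_fac hA j)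
  · intro t w
    unfold tw
    rw [Finset.sum_range_succ _ (t + 1)]
    have := HI.cw_nonneg (A := A) (t + 1) w
    linarith
  · intro t w
    unfold tw
    rw [Finset.sum_range_succ _ (t + 1)]
    have := HI.cw_le (A := A) (t + 1) w
    linarith
  · intro t ht f hf hf0
    have h1 := HI.uses_le hA t hf hf0 T
    refine le_trans ?_ h1
    rw [← P.E_sum]
    refine P.E_mono fun w _ => ?_
    rw [← Finset.mul_sum]
    refine mul_le_mul_of_nonneg_left ?_ (hf0 w)
    have e : tw Y X nw A N T w - tw Y X nw A N t w = ∑ j ∈ Ioc t T, cw Y X nw A N j w := by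
      unfold tw
      have e1 : range (T + 1) = range (t + 1) ∪ Ioc t T := by
        ext j
        simp only [mem_range, mem_union, mem_Ioc]
        omega
      rw [e1, Finset.sum_union]
      · ring
      · rw [Finset.disjoint_left]
        intro j h2 h3
        have := mem_range.1 h2
        have := mem_Ioc.1 h3
        omega
    rw [e]
    exact Finset.sum_le_sum_of_subset_of_nonneg Finset.Ioc_subset_Icc_self fun j _ _ => HI.cw_nonneg j w

end IndM

end

end Pool.Agent.GMN.Ru
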