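import Pool.Agent.GMN.InpD
import Pool.Agent.GMN.Assem

/-!
# GMN/Inp (helper19): THE INITIAL STATE OF THE NAMES

`I : InpD S a q δ Y T` (`GMN/InpD`).
* **`I.st0 cap p`** : the state (0.1) : owner `q` structured (`X q w`, codes `(y, list, J)`, traces = codes, bounded numbers
  `(y, length, J)`), the other owners whole (codes `(version, coin value)`, the coin only for `u = δ`; traces `0`, bounded
  number = version), `h` = versions of the known face times `X q a`;
* `val_eq`, `T_eq` : the value of the state is the product of the faces (if the lists have at most `cap` elements);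
* `st0_Bd`, `st0_On`, `st0_shape`, `st0_pu` (own public sets for `u ≠ q, δ`), `st0_free` (lists of `u ≠ δ` coin free),
  `st0_La` (the lists of the hidden vertex are empty).
-/

set_option autoImplicit false
set_option linter.unusedSectionVars false

namespace Pool.Agent.GMN

open Finset Pool.Agent.PWZ Pool.Agent.M3 Pool.Agent.M3.TS Pool.Agent.GM

noncomputable section

variable {ι Om Ξ Pt V Γ κ : Type} [Fintype ι] [DecidableEq ι] [Fintype Om] [Fintype Ξ] [Fintype Pt]
  [Fintype V]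

namespace InpD

variable {S : Sys ι Om Ξ Pt V Γ κ} {a q δ : ι} {Y T : Type} [Fintype Y] (I : InpD S a q δ Y T)
  [Countable T] [Countable Γ] [Countable κ]

/-- the lists of the owners, empty at the hidden vertex -/
def LamI (u : ι) : Lst S (univ.erase u) where
  L t g ξ x := if u = a then ∅ else I.Ls u t g ξ x
  dep t g ξ := fun x y h => by
    show (if u = a then ∅ else I.Ls u t g ξ x) = (if u = a then ∅ else I.Ls u t g ξ y)
    rw [I.Ls_dep u t g ξ x y h]
  mono t g ξ x := by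
    show (if u = a then ∅ else I.Ls u t (S.par t g) ξ x) ⊆ (if u = a then ∅ else I.Ls u (t + 1) g ξ x)
    split_ifs
    · exact subset_rfl
    · exact I.Ls_mono u t g ξ x

/-- **THE INITIAL STATE** -/
def st0 (cap p : ℕ) : NSt S a where
  Z := { L := fun t g _ x => vLs S (I.Gc a I.xz) t g x
         dep := fun t g _ => vLs_dep (I.Gc_dep a I.xz) t g
         mono := fun t g _ x => vLs_mono t g x }
  Lam u := I.LamI u
  PZ := PSt.const S a (range (p + 1))
  PS u := I.PL p u
  pu u := u ≠ q ∧ u ≠ δ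
  tr u _ n := if u = q then n else 0
  PT u l := I.BL cap u l
  bb u n := if u = q then I.bq cap n else I.bv n
  wh u := u ≠ q
  W u := if u = q then (univ.erase a).erase q else ∅
  h := ((I.VN a I.xz).mul ((I.XN a).up (Finset.erase_subset_erase _ (Finset.erase_subset _ _)))).map
    fun z : ℕ × (ι → ℕ) => (z.1, z.2 q)
  X := I.XX
  F u := I.FN u
  c Zs Λ ζ ν := vCo I.M Zs ζ * (I.cq cap (Λ q) (ν q) * ∏ u ∈ (univ.erase a).erase q, vCo I.M (Λ u) (ν u))

variable {cap p : ℕ}

theorem st0_fac_q (n : ℕ) (t : ℕ) (w : Om) (d : V) : (I.st0 cap p).fac q n t w d =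
    ∏ v ∈ (univ.erase a).erase q, (I.XN v).at' n t w d := by
  unfold NSt.fac
  rw [if_neg (show ¬ (I.st0 cap p).wh q from fun h => h rfl)]
  have h1 : (I.st0 cap p).W q = (univ.erase a).erase q := if_pos rfl
  rw [h1]
  refine Finset.prod_congr rfl fun v _ => ?_
  show (I.XX q v).at' (if q = q then n else 0) t w d = _
  rw [I.XX_q, if_pos rfl]

theorem st0_fac_ne {u : ι} (hu : u ≠ q) (n : ℕ) (t : ℕ) (w : Om) (d : V) : (I.st0 cap p).fac u n t w d =
    (I.FN u).at' n t w d := by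
  unfold NSt.fac
  rw [if_pos (show (I.st0 cap p).wh u from hu)]
  rfl

/-- the lists of the known vertices -/
theorem st0_lists {u : ι} (hu : u ≠ a) (t : ℕ) (w : Om) : (I.st0 cap p).lists t w u = I.lo t w u := if_neg hu

/-- the lists of the hidden vertex are empty -/
theorem st0_La (t : ℕ) (g : Γ) (ξ : Ξ) (x : ι → Pt) : ((I.st0 cap p).Lam a).L t g ξ x = ∅ := if_pos rfl

/-- its bounded numbers -/
theorem bls_q (t : ℕ) (w : Om) : (I.st0 cap p).bls t w q =
    ((I.D.L t (S.gm t w) (S.xi w) (S.x w)).image wenc).image (I.bq cap) := by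
  show ((I.st0 cap p).lists t w q).image (fun n => if q = q then I.bq cap n else I.bv n) = _
  rw [I.st0_lists I.qa]
  show (I.Ls q t (S.gm t w) (S.xi w) (S.x w)).image (fun n => if q = q then I.bq cap n else I.bv n) = _
  rw [I.Ls_q]
  exact Finset.image_congr fun n _ => if_pos rfl

theorem bls_ne {u : ι} (hu : u ≠ q) (hua : u ≠ a) (t : ℕ) (w : Om) : (I.st0 cap p).bls t w u =
    vLs S (I.Gc u (S.xi w)) t (S.gm t w) (S.x w) := by
  show ((I.st0 cap p).lists t w u).image (fun n => if u = q then I.bq cap n else I.bv n) = _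
  rw [I.st0_lists hua]
  show (I.Ls u t (S.gm t w) (S.xi w) (S.x w)).image (fun n => if u = q then I.bq cap n else I.bv n) = _
  rw [I.Ls_ne hu, Finset.image_image]
  have h1 : ((fun n => if u = q then I.bq cap n else I.bv n) ∘ I.vco u (S.xi w)) = id := by
    funext v
    show (if u = q then _ else I.bv (I.vco u (S.xi w) v)) = v
    rw [if_neg hu, I.bv_vco]
  rw [h1, Finset.image_id]

theorem cf_eq (t : ℕ) (w : Om) (ζ : ℕ) (ν : ι → ℕ) : (I.st0 cap p).cf t w ζ ν =
    vCo I.M (vLs S (I.Gc a I.xz) t (S.gm t w) (S.x w)) ζ *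
      (I.ct cap t w q (ν q) * ∏ u ∈ (univ.erase a).erase q, I.ct cap t w u (ν u)) := by
  show vCo I.M (vLs S (I.Gc a I.xz) t (S.gm t w) (S.x w)) ζ * (I.cq cap ((I.st0 cap p).bls t w q)
    (if q = q then I.bq cap (ν q) else I.bv (ν q)) * ∏ u ∈ (univ.erase a).erase q,
      vCo I.M ((I.st0 cap p).bls t w u) (if u = q then I.bq cap (ν u) else I.bv (ν u))) = _
  unfold ct
  rw [if_pos rfl, if_pos rfl, I.bls_q]
  congr 2
  refine Finset.prod_congr rfl fun u hu => ?_
  have huq := Finset.ne_of_mem_erase hu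
  rw [if_neg huq, if_neg huq, I.bls_ne huq (Finset.ne_of_mem_erase (Finset.mem_of_mem_erase hu))]

/-- sums over the families of numbers -/
theorem sum_fams (t : ℕ) (w : Om) (φ : ι → ℕ → ℝ) (h : φ a 0 = 1) :
    ∑ ν ∈ (I.st0 cap p).fams t w, ∏ u, φ u (ν u) =
      (∑ n ∈ I.lo t w q, φ q n) * ∏ u ∈ (univ.erase a).erase q, ∑ n ∈ I.lo t w u, φ u n := by
  have hqa := I.qa
  have hq : q ∈ univ.erase a := Finset.mem_erase.2 ⟨hqa, mem_univ q⟩
  have h1 : ∑ ν ∈ (I.st0 cap p).fams t w, ∏ u, φ u (ν u) =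
      ∏ u, ∑ n ∈ (if u = a then {0} else I.lo t w u), φ u n := by
    rw [Finset.prod_univ_sum]
    have h2 : (I.st0 cap p).fams t w = Fintype.piFinset fun u => if u = a then {0} else I.lo t w u := by
      unfold NSt.fams
      congr 1
      funext u
      by_cases hu : u = a
      · rw [if_pos hu, if_pos hu]
      · rw [if_neg hu, if_neg hu, I.st0_lists hu]
    rw [h2]
  rw [h1, ← Finset.mul_prod_erase univ _ (mem_univ a), ← Finset.mul_prod_erase _ _ hq, if_pos rfl,
    Finset.sum_singleton, if_neg hqa, h, one_mul]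
  congr 1
  refine Finset.prod_congr rfl fun u hu => ?_
  rw [if_neg (Finset.ne_of_mem_erase (Finset.mem_of_mem_erase hu))]

/-- **the value of the initial state** -/
theorem val_eq {t : ℕ} {w : Om} (hc : ∀ y, ((I.D.B y).fl t (S.gm t w) (S.xi w) (S.x w)).length ≤ cap) (d : V) :
    (I.st0 cap p).val t w d = I.F t (S.gm t w) (S.xi w) (S.x w) d := by
  have hqa := I.qa
  have hq : q ∈ univ.erase a := Finset.mem_erase.2 ⟨hqa, mem_univ q⟩
  have ha : a ∈ univ.erase q := Finset.mem_erase.2 ⟨hqa.symm, mem_univ a⟩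
  have hcomm : (univ.erase q).erase a = (univ.erase a).erase q := Finset.erase_right_comm
  set ph : ι → ℕ → ℝ := fun u n => if u = a then 1 else if u = q then
    I.ct cap t w q n * ∏ v ∈ univ.erase q, (I.XN v).at' n t w d else
    I.ct cap t w u n * (I.FN u).at' n t w d with hph
  have f1 : ∀ n, ph a n = 1 := fun n => if_pos rfl
  have f2 : ∀ n, ph q n = I.ct cap t w q n * ∏ v ∈ univ.erase q, (I.XN v).at' n t w d := by
    intro n
    rw [hph]
    simp only [if_neg hqa, if_true]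
  have f3 : ∀ u, u ≠ a → u ≠ q → ∀ n, ph u n = I.ct cap t w u n * (I.FN u).at' n t w d := by
    intro u h1 h2 n
    rw [hph]
    simp only [if_neg h1, if_neg h2]
  have key : ∀ ζ : ℕ, ∀ ν : ι → ℕ, (I.st0 cap p).cf t w ζ ν * (I.st0 cap p).h.at' ((I.st0 cap p).hn ζ ν) t w d *
      ∏ u ∈ univ.erase a, (I.st0 cap p).fac u (ν u) t w d =
      (vCo I.M (vLs S (I.Gc a I.xz) t (S.gm t w) (S.x w)) ζ * (I.VN a I.xz).at' ζ t w d) * ∏ u, ph u (ν u) := by
    intro ζ ν
    have e2 : (I.st0 cap p).h.at' ((I.st0 cap p).hn ζ ν) t w d =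
        (I.VN a I.xz).at' ζ t w d * (I.XN a).at' (ν q) t w d := by
      show (I.VN a I.xz).at' ζ t w d * (I.XN a).at' (if q = q then ν q else 0) t w d = _
      rw [if_pos rfl]
    have e3 : ∏ u ∈ univ.erase a, (I.st0 cap p).fac u (ν u) t w d =
        (∏ v ∈ (univ.erase a).erase q, (I.XN v).at' (ν q) t w d) *
          ∏ u ∈ (univ.erase a).erase q, (I.FN u).at' (ν u) t w d := by
      rw [← Finset.mul_prod_erase _ _ hq, I.st0_fac_q]
      congr 1
      exact Finset.prod_congr rfl fun u hu => I.st0_fac_ne (Finset.ne_of_mem_erase hu) _ _ _ _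
    have e4 : ∏ u, ph u (ν u) = (I.ct cap t w q (ν q) *
        ∏ v ∈ univ.erase q, (I.XN v).at' (ν q) t w d) * ∏ u ∈ (univ.erase a).erase q,
          (I.ct cap t w u (ν u) * (I.FN u).at' (ν u) t w d) := by
      rw [← Finset.mul_prod_erase univ _ (mem_univ a), ← Finset.mul_prod_erase _ _ hq, f1, one_mul, f2]
      congr 1
      exact Finset.prod_congr rfl fun u hu =>
        f3 u (Finset.ne_of_mem_erase (Finset.mem_of_mem_erase hu)) (Finset.ne_of_mem_erase hu) _
    have e7 : ∏ v ∈ univ.erase q, (I.XN v).at' (ν q) t w d = (I.XN a).at' (ν q) t w d *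
        ∏ v ∈ (univ.erase a).erase q, (I.XN v).at' (ν q) t w d := by
      rw [← Finset.mul_prod_erase (univ.erase q) (fun v => (I.XN v).at' (ν q) t w d) ha]
      exact congrArg _ (Finset.prod_congr hcomm fun _ _ => rfl)
    rw [I.cf_eq, e2, e3, e4, Finset.prod_mul_distrib, e7]
    ring
  show ∑ ζ ∈ vLs S (I.Gc a I.xz) t (S.gm t w) (S.x w), ∑ ν ∈ (I.st0 cap p).fams t w, (I.st0 cap p).cf t w ζ ν *
    (I.st0 cap p).h.at' ((I.st0 cap p).hn ζ ν) t w d * ∏ u ∈ univ.erase a, (I.st0 cap p).fac u (ν u) t w d = _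
  rw [Finset.sum_congr rfl fun ζ _ => Finset.sum_congr rfl fun ν _ => key ζ ν]
  rw [Finset.sum_congr rfl fun ζ _ => (Finset.mul_sum _ _ _).symm, ← Finset.sum_mul, I.sum_fams t w ph (f1 0),
    I.sum_a t w d]
  have e5 : ∑ n ∈ I.lo t w q, ph q n = I.D.st t (S.gm t w) (S.xi w) (S.x w) d := by
    rw [Finset.sum_congr rfl fun n _ => f2 n, I.sum_q hc]
  have e6 : ∏ u ∈ (univ.erase a).erase q, ∑ n ∈ I.lo t w u, ph u n =
      ∏ u ∈ (univ.erase a).erase q, gd (I.Gc u (S.xi w)) t (S.gm t w) (S.x w) d := by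
    refine Finset.prod_congr rfl fun u hu => ?_
    have hua := Finset.ne_of_mem_erase (Finset.mem_of_mem_erase hu)
    have huq := Finset.ne_of_mem_erase hu
    rw [Finset.sum_congr rfl fun n _ => f3 u hua huq n, I.sum_u huq]
  rw [e5, e6]
  unfold F
  rw [← Finset.mul_prod_erase (univ.erase q) _ ha, hcomm]
  ring

theorem T_eq {t : ℕ} {w : Om} (hc : ∀ y, ((I.D.B y).fl t (S.gm t w) (S.xi w) (S.x w)).length ≤ cap) :
    (I.st0 cap p).T t w = iw (S.J t w) (fun d => I.F t (S.gm t w) (S.xi w) (S.x w) d) (fun _ => 1) := by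
  unfold NSt.T
  congr 1
  funext d
  exact I.val_eq hc d

/-- sum of the coefficients -/
theorem sum_cf_le {b : ℕ} {t : ℕ} {w : Om} (hd : ¬ I.dead cap p b t w) : ∑ ζ ∈ (I.st0 cap p).Z.at' t w, ∑ ν ∈ (I.st0 cap p).fams t w, |(I.st0 cap p).cf t w ζ ν| ≤
    I.aa cap := by
  have hqa := I.qa
  have hq : q ∈ univ.erase a := Finset.mem_erase.2 ⟨hqa, mem_univ q⟩
  set ps : ι → ℕ → ℝ := fun u n => if u = a then 1 else |I.ct cap t w u n| with hps
  have f1 : ∀ n, ps a n = 1 := fun n => if_pos rfl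
  have f2 : ∀ u, u ≠ a → ∀ n, ps u n = |I.ct cap t w u n| := by
    intro u h1 n
    rw [hps]
    simp only [if_neg h1]
  have key : ∀ ζ : ℕ, ∀ ν : ι → ℕ, |(I.st0 cap p).cf t w ζ ν| =
      |vCo I.M (vLs S (I.Gc a I.xz) t (S.gm t w) (S.x w)) ζ| * ∏ u, ps u (ν u) := by
    intro ζ ν
    rw [I.cf_eq, abs_mul, abs_mul, Finset.abs_prod, ← Finset.mul_prod_erase univ _ (mem_univ a),
      ← Finset.mul_prod_erase _ _ hq, f1, one_mul, f2 q hqa]
    congr 2
    exact Finset.prod_congr rfl fun u hu =>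
      (f2 u (Finset.ne_of_mem_erase (Finset.mem_of_mem_erase hu)) _).symm
  show ∑ ζ ∈ vLs S (I.Gc a I.xz) t (S.gm t w) (S.x w), ∑ ν ∈ (I.st0 cap p).fams t w,
    |(I.st0 cap p).cf t w ζ ν| ≤ _
  rw [Finset.sum_congr rfl fun ζ _ => Finset.sum_congr rfl fun ν _ => key ζ ν,
    Finset.sum_congr rfl fun ζ _ => (Finset.mul_sum _ _ _).symm, ← Finset.sum_mul, I.sum_fams t w ps (f1 0),
    vsum_abs (S := S) (I.Gc a I.xz) I.M0.le t (S.gm t w) (S.x w)]
  have e6 : ∏ u ∈ (univ.erase a).erase q, ∑ n ∈ I.lo t w u, ps u n = I.M ^ (Fintype.card ι - 2) := by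
    have f3 : ∀ u ∈ (univ.erase a).erase q, ∑ n ∈ I.lo t w u, ps u n = I.M := by
      intro u hu
      rw [Finset.sum_congr rfl fun n _ => f2 u (Finset.ne_of_mem_erase (Finset.mem_of_mem_erase hu)) n]
      exact I.sum_u_abs (Finset.ne_of_mem_erase hu) t w
    rw [Finset.prod_congr rfl f3, Finset.prod_const, Finset.card_erase_of_mem hq,
      Finset.card_erase_of_mem (mem_univ a), Finset.card_univ]
    rfl
  have e5 : ∑ n ∈ I.lo t w q, ps q n ≤ (∑ y, |I.D.γ y|) * 2 ^ cap := by
    rw [Finset.sum_congr rfl fun n _ => f2 q hqa n]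
    exact I.sum_q_abs (I.live_l hd)
  have hcard : 2 ≤ Fintype.card ι := by
    have := Fintype.one_lt_card_iff.2 ⟨q, a, hqa⟩
    omega
  rw [e6]
  unfold aa
  have h1 : Fintype.card ι - 1 = Fintype.card ι - 2 + 1 := by omega
  rw [h1, pow_succ]
  have h2 : 0 ≤ I.M ^ (Fintype.card ι - 2) * I.M := mul_nonneg (pow_nonneg I.M0.le _) I.M0.le
  calc I.M * ((∑ n ∈ I.lo t w q, ps q n) * I.M ^ (Fintype.card ι - 2))
      = I.M ^ (Fintype.card ι - 2) * I.M * ∑ n ∈ I.lo t w q, ps q n := by ring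
    _ ≤ _ := mul_le_mul_of_nonneg_left e5 h2

/-- **bounds of the initial state** -/
theorem st0_Bd (b : ℕ) : (I.st0 cap p).Bd (nn Y cap p) (nb Y cap p b) (I.aa cap) (I.dead cap p b) where
  inc := I.dead_mono cap p b
  cardZ t _ w hd := by
    show (vLs S (I.Gc a I.xz) t (S.gm t w) (S.x w)).card ≤ _
    rw [card_vLs, I.Gc_free I.da.symm I.xz (S.xi w)]
    exact (Nat.succ_le_succ (I.live_v hd I.qa.symm)).trans (Nat.le_add_right _ _)
  subZ t _ w hd := by
    show vLs S (I.Gc a I.xz) t (S.gm t w) (S.x w) ⊆ range (p + 1)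
    rw [I.Gc_free I.da.symm I.xz (S.xi w)]
    exact Finset.range_mono (Nat.succ_le_succ (I.live_v hd I.qa.symm))
  numZ t _ w _ := by
    show (range (p + 1)).card ≤ _
    rw [Finset.card_range]
    exact Nat.le_add_right _ _
  card t _ w hd u hua := by
    rw [I.st0_lists hua]
    exact I.card_lo hd u
  sub t _ w hd u hua hpu := by
    obtain ⟨huq, hud⟩ : u ≠ q ∧ u ≠ δ := hpu
    rw [I.st0_lists hua]
    show I.lo t w u ⊆ (range (p + 1)).image fun v => wenc (v, (none : Option Ξ))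
    have h1 : (fun v => wenc (v, (none : Option Ξ))) = I.vco u (S.xi w) := by
      funext v
      unfold vco tg
      rw [if_neg hud]
    rw [h1]
    exact I.lo_sub hd huq
  num t _ w _ u _ _ := by
    show ((range (p + 1)).image fun v => wenc (v, (none : Option Ξ))).card ≤ _
    refine Finset.card_image_le.trans ?_
    rw [Finset.card_range]
    exact Nat.le_add_right _ _
  subT t _ w hd u hua l _ := by
    intro ν hν
    rw [I.st0_lists hua] at hν
    show (if u = q then ν else 0) ∈ if u = q then I.PQ cap t (S.gm t w) (S.x w) else {0}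
    by_cases hu : u = q
    · subst hu
      rw [if_pos rfl, if_pos rfl]
      exact I.lo_sub_PQ hd hν
    · rw [if_neg hu, if_neg hu]
      exact Finset.mem_singleton_self 0
  numT t _ w hd u _ l _ := by
    show (if u = q then I.PQ cap t (S.gm t w) (S.x w) else {0}).card ≤ _
    by_cases hu : u = q
    · subst hu
      rw [if_pos rfl]
      exact I.card_PQ hd
    · rw [if_neg hu, Finset.card_singleton]
      unfold nb
      omega
  numb t _ w hd u hua ν hν := by
    show (if u = q then I.bq cap ν else I.bv ν) ≤ _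
    rw [I.st0_lists hua] at hν
    have hν' : ν ∈ I.Ls u t (S.gm t w) (S.xi w) (S.x w) := hν
    by_cases hu : u = q
    · subst hu
      rw [if_pos rfl]
      rw [I.Ls_q] at hν'
      obtain ⟨μ, _, rfl⟩ := Finset.mem_image.1 hν'
      rw [I.bq_wenc]
      have h1 := encF_lt (SF.rc cap μ)
      rw [SF.card_Rc] at h1
      have h2 : Fintype.card Y * ((cap + 1) * 2 ^ cap) ≤ Fintype.card Y * ((cap + 1) * (b + 1) ^ cap * 2 ^ cap) := by
        refine Nat.mul_le_mul_left _ (Nat.mul_le_mul_right _ ?_)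
        exact Nat.le_mul_of_pos_right _ (Nat.pow_pos (Nat.succ_pos _))
      unfold nb
      omega
    · rw [if_neg hu]
      rw [I.Ls_ne hu] at hν'
      obtain ⟨v, hv, rfl⟩ := Finset.mem_image.1 hν'
      rw [I.bv_vco]
      have h1 := Finset.mem_range.1 hv
      have h2 := I.live_v hd hu
      unfold nb
      omega
  inj t _ w hd u hua := by
    rw [I.st0_lists hua]
    intro ν hν μ hμ h
    have hν' : ν ∈ I.Ls u t (S.gm t w) (S.xi w) (S.x w) := hν
    have hμ' : μ ∈ I.Ls u t (S.gm t w) (S.xi w) (S.x w) := hμ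
    have h' : (if u = q then I.bq cap ν else I.bv ν) = if u = q then I.bq cap μ else I.bv μ := h
    by_cases hu : u = q
    · subst hu
      rw [if_pos rfl, if_pos rfl] at h'
      rw [I.Ls_q] at hν' hμ'
      obtain ⟨z, hz, rfl⟩ := Finset.mem_image.1 hν'
      obtain ⟨z', hz', rfl⟩ := Finset.mem_image.1 hμ'
      rw [I.bq_wenc, I.bq_wenc] at h'
      rw [I.D.rc_inj (I.live_l hd) hz hz' (encF_inj h')]
    · rw [if_neg hu, if_neg hu] at h'
      rw [I.Ls_ne hu] at hν' hμ'
      obtain ⟨z, hz, rfl⟩ := Finset.mem_image.1 hν'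
      obtain ⟨z', hz', rfl⟩ := Finset.mem_image.1 hμ'
      rw [I.bv_vco, I.bv_vco] at h'
      rw [h']
  sum t _ w hd := I.sum_cf_le hd

/-- all numbers of the lists are introduced -/
theorem st0_On (b : ℕ) : (I.st0 cap p).On (I.dead cap p b) := by
  intro t _ w _ ζ hζ ν hν
  have h1 : ζ ∈ vLs S (I.Gc a I.xz) t (S.gm t w) (S.x w) := hζ
  have h2 : ν q ∈ I.Ls q t (S.gm t w) (S.xi w) (S.x w) := by
    have h3 := Fintype.mem_piFinset.1 hν q
    rw [if_neg I.qa, I.st0_lists I.qa] at h3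
    exact h3
  rw [I.Ls_q] at h2
  obtain ⟨μ, hμ, h4⟩ := Finset.mem_image.1 h2
  show ζ ≤ vc S (I.Gc a I.xz) t (S.gm t w) (S.x w) ∧
    (I.D.X a).cd.inn (if q = q then ν q else 0) t (S.gm t w) (S.x w)
  refine ⟨Nat.lt_succ_iff.1 (Finset.mem_range.1 h1), ?_⟩
  rw [if_pos rfl, ← h4, NumF.cd_inn]
  exact I.D.L_on a hμ

/-- own public sets -/
theorem st0_pu {u : ι} (huq : u ≠ q) (hud : u ≠ δ) : (I.st0 cap p).pu u := ⟨huq, hud⟩

/-- the lists of the owners `u ≠ δ` are coin free -/
theorem st0_free (h : q ≠ δ → ∀ y t g ξ ξ', (I.D.B y).fl t g ξ = (I.D.B y).fl t g ξ') {u : ι} (hu : u ≠ δ) (t : ℕ)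
    (g : Γ) (ξ ξ' : Ξ) : ((I.st0 cap p).Lam u).L t g ξ = ((I.st0 cap p).Lam u).L t g ξ' := by
  funext x
  show (if u = a then ∅ else I.Ls u t g ξ x) = (if u = a then ∅ else I.Ls u t g ξ' x)
  rw [I.Ls_free h hu t g ξ ξ']

/-- **the shape**: the start of the counter -/
theorem st0_shape {k : ℕ} (e : Fin k ↪ ι) (he : ∀ u, u ≠ a ↔ ∃ i, e i = u) (hq : ∀ i, e i = q ↔ (i : ℕ) = 0) :
    (I.st0 cap p).Shape (shp e (Pool.GMN.Counter.start k)) := by
  intro u hu
  obtain ⟨i, rfl⟩ := (he u).1 hu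
  have hst : shp e (Pool.GMN.Counter.start k) (e i) = (Pool.GMN.Counter.start k i).map (Finset.map e) := shp_apply e _ i
  rw [hst]
  by_cases hi : (i : ℕ) = 0
  · have hqi := (hq i).2 hi
    have h1 : Pool.GMN.Counter.start k i = some (univ.filter fun w : Fin k => 0 < (w : ℕ)) := by
      unfold Pool.GMN.Counter.start
      rw [if_pos hi]
    rw [h1, hqi]
    refine ⟨?_, fun W hW => ?_⟩
    · show q ≠ q ↔ _
      constructor
      · intro h
        exact absurd rfl h
      · intro h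
        exact absurd h (by simp)
    · rw [Option.map_some, Option.some.injEq] at hW
      rw [← hW]
      show (if q = q then (univ.erase a).erase q else ∅) = _
      rw [if_pos rfl]
      ext v
      rw [Finset.mem_erase, Finset.mem_erase, Finset.mem_map]
      constructor
      · rintro ⟨h2, h3, _⟩
        obtain ⟨j, rfl⟩ := (he v).1 h3
        refine ⟨j, Finset.mem_filter.2 ⟨mem_univ _, ?_⟩, rfl⟩
        exact Nat.pos_of_ne_zero fun h4 => h2 ((hq j).2 h4)
      · rintro ⟨j, hj, rfl⟩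
        have h5 := (Finset.mem_filter.1 hj).2
        exact ⟨fun h6 => by have := (hq j).1 h6; omega, (he _).2 ⟨j, rfl⟩, mem_univ _⟩
  · have hqi : e i ≠ q := fun h => hi ((hq i).1 h)
    have h1 : Pool.GMN.Counter.start k i = none := by
      unfold Pool.GMN.Counter.start
      rw [if_neg hi]
    rw [h1]
    refine ⟨?_, fun W hW => absurd hW (by simp)⟩
    show e i ≠ q ↔ _
    simp [hqi]

end InpD

end

end Pool.Agent.GMN
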