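import Pool.Agent.GMN.Ren
import Pool.Agent.GMN.Births
import Pool.Agent.M3.S1Clip

/-!
# GMN/Wal (helper19): the STRUCTURED FACE in Walsh form, numbered by codes

`SF S q Y T` = signed sum over `y : Y` of `psi` of the cumulative lists of the birth systems `B y` of the face `q`:
`SF.st D t g x d = ∑ y, γ y * psi (ep y) (list of the signs)`.
* numbers: `Wc = (y, l, J)`: `l` a coded list, `J` a set of positions; `tri` = finite sets of such numbers;
* `D.X w` : numbered functions of the vertices but `q`, `w`: product over `J` of the sign functions `sg w`;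
* `D.L t g ξ x` : all `(y, l, J)` with `l` a suffix of the coded list: cumulative, it may see the coins; `rc cap` : bounded number
  `(y, length, J)`, injective on the list; `co` : coefficients, functions of the bounded numbers (only the current list
  counts), **`D.wsum`** : the Walsh form, `card_L_le`, `co_abs_le`;
* `D.P cap t g x` : base set (all words of length at most `cap` over the coded births of the true cells), `L_sub_P`,
  `card_P_le`, `P_congr` : function of the cells;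
* `wenc`, `encF`, `dec` : injections into `ℕ`; `coN` : coefficients by codes; `NumF.cd` : numbered functions by codes.
-/

set_option autoImplicit false
set_option linter.unusedSectionVars false

namespace Pool.Agent.GMN

open Finset Pool.Agent.PWZ Pool.Agent.M3 Pool.Agent.M3.TS Pool.Agent.GM

noncomputable section

/-! ### codes -/

section wenc

variable {α : Type}

/-- the code of an element of a countable type -/
def wenc [Countable α] (a : α) : ℕ := (Countable.exists_injective_nat α).choose a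

theorem wenc_inj [Countable α] : Function.Injective (wenc : α → ℕ) := (Countable.exists_injective_nat α).choose_spec

/-- the bounded code of an element of a finite type -/
def encF [Fintype α] (a : α) : ℕ := (Fintype.equivFin α a : ℕ)

theorem encF_inj [Fintype α] : Function.Injective (encF : α → ℕ) := fun _ _ h =>
  (Fintype.equivFin α).injective (Fin.ext h)

theorem encF_lt [Fintype α] (a : α) : encF a < Fintype.card α := (Fintype.equivFin α a).2

open Classical in
/-- decoding -/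
def dec (e : α → ℕ) (n : ℕ) : Option α := if h : ∃ a : α, e a = n then some h.choose else none

theorem dec_e {e : α → ℕ} (he : Function.Injective e) (a : α) : dec e (e a) = some a := by
  classical
  unfold dec
  have h : ∃ b : α, e b = e a := ⟨a, rfl⟩
  rw [dif_pos h]
  exact congrArg some (he h.choose_spec)

theorem e_of_dec {e : α → ℕ} {n : ℕ} {a : α} (h : dec e n = some a) : e a = n := by
  classical
  unfold dec at h
  by_cases h1 : ∃ b : α, e b = n
  · rw [dif_pos h1, Option.some.injEq] at h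
    rw [← h]
    exact h1.choose_spec
  · rw [dif_neg h1] at h
    exact absurd h (by simp)

open Classical in
/-- the elements whose code is in a set -/
def pre (e : α → ℕ) (Λ : Finset ℕ) : Set α := {a | e a ∈ Λ}

theorem pre_img {e : α → ℕ} (he : Function.Injective e) (Λ : Finset α) : pre e (Λ.image e) = (Λ : Set α) := by
  ext a
  show e a ∈ Λ.image e ↔ a ∈ (Λ : Set α)
  rw [Finset.mem_image, Finset.mem_coe]
  constructor
  · rintro ⟨b, hb, h⟩
    rwa [← he h]
  · intro h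
    exact ⟨a, h, rfl⟩

/-- coefficients with codes as numbers -/
def coN (e : α → ℕ) (c : Set α → α → ℝ) (Λ : Finset ℕ) (n : ℕ) : ℝ := (dec e n).elim 0 fun a => c (pre e Λ) a

theorem coN_e {e : α → ℕ} (he : Function.Injective e) (c : Set α → α → ℝ) (Λ : Finset α) (a : α) :
    coN e c (Λ.image e) (e a) = c (Λ : Set α) a := by
  unfold coN
  rw [dec_e he, pre_img he]
  rfl

theorem sum_img {M : Type} [AddCommMonoid M] {e : α → ℕ} (he : Function.Injective e) (Λ : Finset α) (φ : ℕ → M) :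
    ∑ n ∈ Λ.image e, φ n = ∑ a ∈ Λ, φ (e a) :=
  Finset.sum_image fun _ _ _ _ h => he h

theorem card_img {e : α → ℕ} (he : Function.Injective e) (Λ : Finset α) : (Λ.image e).card = Λ.card :=
  Finset.card_image_of_injective _ he

end wenc

/-! ### words and triples -/

section words

variable {β Y : Type} [Fintype Y]

open Classical in
/-- words of length at most `cap` -/
def wds (A : Finset β) (cap : ℕ) : Finset (List β) :=
  (range (cap + 1)).biUnion fun n => (Fintype.piFinset fun _ : Fin n => A).image List.ofFn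

theorem mem_wds {A : Finset β} {cap : ℕ} {l : List β} : l ∈ wds A cap ↔ l.length ≤ cap ∧ ∀ a ∈ l, a ∈ A := by
  classical
  unfold wds
  rw [Finset.mem_biUnion]
  constructor
  · rintro ⟨n, hn, h⟩
    obtain ⟨f, hf, rfl⟩ := Finset.mem_image.1 h
    rw [Fintype.mem_piFinset] at hf
    refine ⟨?_, fun a ha => ?_⟩
    · rw [List.length_ofFn]
      exact Nat.lt_succ_iff.1 (Finset.mem_range.1 hn)
    · obtain ⟨i, rfl⟩ := (List.mem_ofFn' f a).1 ha
      exact hf i
  · rintro ⟨h1, h2⟩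
    refine ⟨l.length, Finset.mem_range.2 (Nat.lt_succ_of_le h1), Finset.mem_image.2 ⟨l.get, ?_, List.ofFn_get l⟩⟩
    rw [Fintype.mem_piFinset]
    exact fun i => h2 _ (List.get_mem l i)

theorem wds_mono {A B : Finset β} (h : A ⊆ B) (cap : ℕ) : wds A cap ⊆ wds B cap := fun l hl => by
  rw [mem_wds] at hl ⊢
  exact ⟨hl.1, fun a ha => h (hl.2 a ha)⟩

theorem card_wds_le (A : Finset β) (cap : ℕ) : (wds A cap).card ≤ (cap + 1) * (A.card + 1) ^ cap := by
  classical
  unfold wds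
  refine Finset.card_biUnion_le.trans ?_
  refine (Finset.sum_le_card_nsmul _ _ ((A.card + 1) ^ cap) fun n hn => ?_).trans (le_of_eq ?_)
  · refine Finset.card_image_le.trans ?_
    rw [Fintype.card_piFinset, Finset.prod_const, Finset.card_univ, Fintype.card_fin]
    exact (Nat.pow_le_pow_left (Nat.le_succ _) _).trans
      (Nat.pow_le_pow_right (Nat.succ_pos _) (Nat.lt_succ_iff.1 (Finset.mem_range.1 hn)))
  · rw [Finset.card_range, smul_eq_mul]

open Classical in
/-- numbers `(y, l, J)` with `l` in a finite set of words, `J` a set of positions of `l` -/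
def tri (s : Y → Finset (List β)) : Finset (Y × List β × Finset ℕ) :=
  univ.biUnion fun y => (s y).biUnion fun l => (range l.length).powerset.image fun J => (y, l, J)

theorem mem_tri {s : Y → Finset (List β)} {ν : Y × List β × Finset ℕ} :
    ν ∈ tri s ↔ ν.2.1 ∈ s ν.1 ∧ ν.2.2 ⊆ range ν.2.1.length := by
  classical
  unfold tri
  simp only [Finset.mem_biUnion, Finset.mem_image, Finset.mem_univ, true_and, Finset.mem_powerset]
  constructor
  · rintro ⟨y, l, hl, J, hJ, rfl⟩
    exact ⟨hl, hJ⟩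
  · intro h
    exact ⟨ν.1, ν.2.1, h.1, ν.2.2, h.2, rfl⟩

theorem tri_mono {s s' : Y → Finset (List β)} (h : ∀ y, s y ⊆ s' y) : tri s ⊆ tri s' := fun ν hν => by
  rw [mem_tri] at hν ⊢
  exact ⟨h _ hν.1, hν.2⟩

theorem card_tri_le (s : Y → Finset (List β)) {n cap : ℕ} (h1 : ∀ y, (s y).card ≤ n)
    (h2 : ∀ y, ∀ l ∈ s y, l.length ≤ cap) : (tri s).card ≤ Fintype.card Y * (n * 2 ^ cap) := by
  classical
  unfold tri
  refine Finset.card_biUnion_le.trans ?_
  refine (Finset.sum_le_card_nsmul _ _ (n * 2 ^ cap) fun y _ => ?_).trans (le_of_eq ?_)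
  · refine Finset.card_biUnion_le.trans ?_
    refine (Finset.sum_le_card_nsmul _ _ (2 ^ cap) fun l hl => ?_).trans ?_
    · refine Finset.card_image_le.trans ?_
      rw [Finset.card_powerset, Finset.card_range]
      exact Nat.pow_le_pow_right (by norm_num) (h2 y l hl)
    · rw [smul_eq_mul]
      exact Nat.mul_le_mul_right _ (h1 y)
  · rw [Finset.card_univ, smul_eq_mul]

/-- the Walsh coefficient with a set of positions in `ℕ` -/
def psiN (ep : ℝ) (n : ℕ) (J : Finset ℕ) : ℝ := psiC ep n (univ.filter fun i : Fin n => (i : ℕ) ∈ J)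

theorem abs_psiN (ep : ℝ) (n : ℕ) (J : Finset ℕ) : |psiN ep n J| ≤ 1 := abs_psiC _ _ _

/-- the Walsh form of `psi` of a list -/
theorem psi_rng (ep : ℝ) (l : List β) (f : β → ℝ) (hf : ∀ x, f x = 1 ∨ f x = -1) :
    psi ep (l.map f) = ∑ J ∈ (range l.length).powerset, psiN ep l.length J * ∏ j ∈ J, (l[j]?).elim 1 f := by
  classical
  have h1 := psi_eq_walsh ep l.length (fun j => f (l.get j)) (fun j => hf _)
  have h2 : List.ofFn (fun j => f (l.get j)) = l.map f := by
    have h3 : l.map f = (List.ofFn l.get).map f := by rw [List.ofFn_get]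
    rw [h3, List.map_ofFn]
    rfl
  rw [h2] at h1
  rw [h1]
  refine Finset.sum_bij' (fun I _ => I.map Fin.valEmbedding) (fun J _ => univ.filter fun i : Fin l.length => (i : ℕ) ∈ J)
    ?_ ?_ ?_ ?_ ?_
  · intro I _
    rw [Finset.mem_powerset]
    intro n hn
    obtain ⟨i, _, rfl⟩ := Finset.mem_map.1 hn
    exact Finset.mem_range.2 i.2
  · exact fun J _ => Finset.mem_univ _
  · intro I _
    ext i
    rw [Finset.mem_filter, Finset.mem_map]
    constructor
    · rintro ⟨_, j, hj, hij⟩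
      have : j = i := Fin.ext hij
      rwa [← this]
    · intro hi
      exact ⟨Finset.mem_univ _, i, hi, rfl⟩
  · intro J hJ
    ext n
    rw [Finset.mem_map]
    constructor
    · rintro ⟨i, hi, rfl⟩
      exact (Finset.mem_filter.1 hi).2
    · intro hn
      have h3 := Finset.mem_range.1 (Finset.mem_powerset.1 hJ hn)
      exact ⟨⟨n, h3⟩, Finset.mem_filter.2 ⟨Finset.mem_univ _, hn⟩, rfl⟩
  · intro I _
    have h4 : (univ.filter fun i : Fin l.length => (i : ℕ) ∈ I.map Fin.valEmbedding) = I := by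
      ext i
      rw [Finset.mem_filter, Finset.mem_map]
      constructor
      · rintro ⟨_, j, hj, hij⟩
        have : j = i := Fin.ext hij
        rwa [← this]
      · intro hi
        exact ⟨Finset.mem_univ _, i, hi, rfl⟩
    unfold psiN
    rw [h4, Finset.prod_map]
    congr 1
    refine Finset.prod_congr rfl fun i _ => ?_
    show f (l.get i) = (l[(i : ℕ)]?).elim 1 f
    rw [List.getElem?_eq_getElem i.2]
    rfl

end words

/-! ### the structured face -/

variable {ι Om Ξ Pt V Γ κ : Type} [Fintype ι] [DecidableEq ι] [Fintype Om] [Fintype Ξ] [Fintype Pt]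
  [Fintype V]

/-- the data of a structured face -/
structure SF (S : Sys ι Om Ξ Pt V Γ κ) (q : ι) (Y T : Type) where
  B : Y → BSy S q T
  ep : Y → ℝ
  γ : Y → ℝ

/-- numbers: (layer, coded list, set of positions) -/
abbrev Wc (ι Y T Γ κ : Type) : Type := Y × List (Cd ι T Γ κ) × Finset ℕ

namespace SF

variable {S : Sys ι Om Ξ Pt V Γ κ} {q : ι} {Y T : Type} [Fintype Y] (D : SF S q Y T)

/-- the sign of a birth -/
def sp (y : Y) (x : ι → Pt) (d : V) (s : T) : ℝ := ∏ w ∈ univ.erase q, (D.B y).sg w s x d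

/-- THE STRUCTURED FUNCTION -/
def st (t : ℕ) (g : Γ) (ξ : Ξ) (x : ι → Pt) (d : V) : ℝ :=
  ∑ y, D.γ y * psi (D.ep y) (((D.B y).fl t g ξ x).map (D.sp y x d))

/-- sign of the position `j` of a coded list -/
def sj (y : Y) (w : ι) (l : List (Cd ι T Γ κ)) (x : ι → Pt) (d : V) (j : ℕ) : ℝ :=
  (l[j]?).elim 1 fun c => (D.B y).sg w c.1 x d

theorem sj_or (y : Y) (w : ι) (l : List (Cd ι T Γ κ)) (x : ι → Pt) (d : V) (j : ℕ) :
    D.sj y w l x d j = 1 ∨ D.sj y w l x d j = -1 := by
  unfold sj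
  cases l[j]? with
  | none => exact Or.inl rfl
  | some c => exact (D.B y).sg_or w c.1 x d

theorem abs_sj (y : Y) (w : ι) (l : List (Cd ι T Γ κ)) (x : ι → Pt) (d : V) (j : ℕ) : |D.sj y w l x d j| ≤ 1 := by
  rcases D.sj_or y w l x d j with h | h <;> rw [h] <;> norm_num

open Classical in
/-- NUMBERED FUNCTIONS of the vertices but `q` and `w` -/
def X (w : ι) : NumF S (Wc ι Y T Γ κ) ((univ.erase q).erase w) where
  inn ν t g x := ∀ c ∈ ν.2.1, ino S ((univ.erase q).erase w) c t g x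
  f ν t g x d := if ∀ c ∈ ν.2.1, ino S ((univ.erase q).erase w) c t g x then ∏ j ∈ ν.2.2, D.sj ν.1 w ν.2.1 x d j
    else 0
  inn_dep ν t g := fun x y h => by
    refine forall_congr fun c => forall_congr fun _ => ?_
    exact ino_dep S _ c t g x y h
  f_dep ν t g := fun x y h => by
    funext d
    have h1 : (∀ c ∈ ν.2.1, ino S ((univ.erase q).erase w) c t g x) =
        ∀ c ∈ ν.2.1, ino S ((univ.erase q).erase w) c t g y := by
      refine forall_congr fun c => forall_congr fun _ => ?_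
      exact ino_dep S _ c t g x y h
    have h2 : (fun j => D.sj ν.1 w ν.2.1 x d j) = fun j => D.sj ν.1 w ν.2.1 y d j := by
      funext j
      unfold sj
      congr 1
      funext c
      rw [(D.B ν.1).sg_dep w c.1 x y h]
    show (if ∀ c ∈ ν.2.1, ino S ((univ.erase q).erase w) c t g x then ∏ j ∈ ν.2.2, (fun j => D.sj ν.1 w ν.2.1 x d j) j
      else 0) = if ∀ c ∈ ν.2.1, ino S ((univ.erase q).erase w) c t g y then
        ∏ j ∈ ν.2.2, (fun j => D.sj ν.1 w ν.2.1 y d j) j else 0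
    rw [h2]
    simp only [h1]
  le1 ν t g x d := by
    split_ifs
    · rw [Finset.abs_prod]
      exact Finset.prod_le_one (fun j _ => abs_nonneg _) fun j _ => D.abs_sj _ _ _ _ _ _
    · simp
  zero ν t g x h := by
    funext d
    exact if_neg h
  keep ν t g x h := fun c hc => ino_keep S (h c hc)
  stat ν t g x h := by
    funext d
    have h1 : ∀ c ∈ ν.2.1, ino S ((univ.erase q).erase w) c (t + 1) g x := fun c hc => ino_keep S (h c hc)
    show (if ∀ c ∈ ν.2.1, ino S ((univ.erase q).erase w) c (t + 1) g x then ∏ j ∈ ν.2.2, D.sj ν.1 w ν.2.1 x d j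
      else 0) = if ∀ c ∈ ν.2.1, ino S ((univ.erase q).erase w) c t (S.par t g) x then
        ∏ j ∈ ν.2.2, D.sj ν.1 w ν.2.1 x d j else 0
    rw [if_pos h1, if_pos h]

/-- the list of the numbers -/
def L (t : ℕ) (g : Γ) (ξ : Ξ) (x : ι → Pt) : Finset (Wc ι Y T Γ κ) := by
  classical
  exact tri fun y => ((D.B y).cfl t g ξ x).tails.toFinset

theorem mem_L {t : ℕ} {g : Γ} {ξ : Ξ} {x : ι → Pt} {ν : Wc ι Y T Γ κ} :
    ν ∈ D.L t g ξ x ↔ ν.2.1 <:+ (D.B ν.1).cfl t g ξ x ∧ ν.2.2 ⊆ range ν.2.1.length := by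
  classical
  unfold L
  rw [mem_tri, List.mem_toFinset, List.mem_tails]

theorem L_dep (t : ℕ) (g : Γ) (ξ : Ξ) : Dep (univ.erase q) (D.L t g ξ) := fun x y h => by
  ext ν
  rw [D.mem_L, D.mem_L, (D.B ν.1).cfl_dep t g ξ x y h]

theorem L_mono (t : ℕ) (g : Γ) (ξ : Ξ) (x : ι → Pt) : D.L t (S.par t g) ξ x ⊆ D.L (t + 1) g ξ x := fun ν hν => by
  rw [D.mem_L] at hν ⊢
  exact ⟨hν.1.trans ((D.B ν.1).cfl_suf t g ξ x), hν.2⟩

/-- the elements of the list have at most `cap` letters -/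
theorem len_le {t : ℕ} {g : Γ} {ξ : Ξ} {x : ι → Pt} {cap : ℕ} (h : ∀ y, ((D.B y).fl t g ξ x).length ≤ cap)
    {ν : Wc ι Y T Γ κ} (hν : ν ∈ D.L t g ξ x) : ν.2.1.length ≤ cap := by
  refine (D.mem_L.1 hν).1.length_le.trans ?_
  rw [(D.B ν.1).length_cfl]
  exact h ν.1

theorem card_L_le {t : ℕ} {g : Γ} {ξ : Ξ} {x : ι → Pt} {cap : ℕ} (h : ∀ y, ((D.B y).fl t g ξ x).length ≤ cap) :
    (D.L t g ξ x).card ≤ Fintype.card Y * ((cap + 1) * 2 ^ cap) := by
  classical
  unfold L
  refine card_tri_le _ (fun y => ?_) fun y l hl => ?_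
  · refine (List.toFinset_card_le _).trans ?_
    rw [List.length_tails, (D.B y).length_cfl]
    exact Nat.succ_le_succ (h y)
  · rw [List.mem_toFinset, List.mem_tails] at hl
    refine hl.length_le.trans ?_
    rw [(D.B y).length_cfl]
    exact h y

/-! ### bounded numbers and coefficients -/

/-- bounded numbers: (layer, length of the list, set of positions) -/
abbrev Rc (Y : Type) (cap : ℕ) : Type := Y × Fin (cap + 1) × Finset (Fin cap)

/-- the bounded number of a code -/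
def rc (cap : ℕ) (ν : Wc ι Y T Γ κ) : Rc Y cap :=
  (ν.1, ⟨min ν.2.1.length cap, Nat.lt_succ_of_le (min_le_right _ _)⟩, univ.filter fun i : Fin cap => (i : ℕ) ∈ ν.2.2)

theorem card_Rc (cap : ℕ) : Fintype.card (Rc Y cap) = Fintype.card Y * ((cap + 1) * 2 ^ cap) := by
  rw [Fintype.card_prod, Fintype.card_prod, Fintype.card_fin, Fintype.card_finset, Fintype.card_fin]

/-- the set of positions of a bounded number -/
theorem rc_pos {cap : ℕ} {ν : Wc ι Y T Γ κ} (h1 : ν.2.2 ⊆ range ν.2.1.length) (h2 : ν.2.1.length ≤ cap) :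
    (rc cap ν).2.2.map Fin.valEmbedding = ν.2.2 := by
  ext n
  rw [Finset.mem_map]
  constructor
  · rintro ⟨i, hi, rfl⟩
    exact (Finset.mem_filter.1 hi).2
  · intro hn
    have h3 := Finset.mem_range.1 (h1 hn)
    exact ⟨⟨n, by omega⟩, Finset.mem_filter.2 ⟨Finset.mem_univ _, hn⟩, rfl⟩

/-- injective on the list -/
theorem rc_inj {t : ℕ} {g : Γ} {ξ : Ξ} {x : ι → Pt} {cap : ℕ} (h : ∀ y, ((D.B y).fl t g ξ x).length ≤ cap) :
    Set.InjOn (rc cap) (D.L t g ξ x : Set (Wc ι Y T Γ κ)) := by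
  intro ν hν μ hμ hνμ
  have hν' : ν ∈ D.L t g ξ x := hν
  have hμ' : μ ∈ D.L t g ξ x := hμ
  obtain ⟨h1, h2⟩ := D.mem_L.1 hν'
  obtain ⟨h3, h4⟩ := D.mem_L.1 hμ'
  have l1 := D.len_le h hν'
  have l2 := D.len_le h hμ'
  have e1 : ν.1 = μ.1 := congrArg (fun z : Rc Y cap => z.1) hνμ
  have e2 : min ν.2.1.length cap = min μ.2.1.length cap := congrArg (fun z : Rc Y cap => (z.2.1 : ℕ)) hνμ
  rw [min_eq_left l1, min_eq_left l2] at e2
  have e3 : ν.2.2 = μ.2.2 := by
    rw [← rc_pos h2 l1, ← rc_pos h4 l2, hνμ]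
  have e4 : ν.2.1 = μ.2.1 := by
    rw [← e1] at h3
    exact (List.suffix_of_suffix_length_le h1 h3 (le_of_eq e2)).eq_of_length e2
  exact Prod.ext e1 (Prod.ext e4 e3)

open Classical in
/-- the coefficient: only the longest list of the layer counts -/
def co (cap : ℕ) (Λ : Set (Rc Y cap)) (r : Rc Y cap) : ℝ :=
  if ∀ m ∈ Λ, m.1 = r.1 → m.2.1 ≤ r.2.1 then D.γ r.1 * psiN (D.ep r.1) r.2.1 (r.2.2.map Fin.valEmbedding) else 0

open Classical in
theorem co_L {t : ℕ} {g : Γ} {ξ : Ξ} {x : ι → Pt} {cap : ℕ} (hc : ∀ y, ((D.B y).fl t g ξ x).length ≤ cap)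
    {ν : Wc ι Y T Γ κ} (hν : ν ∈ D.L t g ξ x) :
    D.co cap (((D.L t g ξ x).image (rc cap) : Finset (Rc Y cap)) : Set (Rc Y cap)) (rc cap ν) =
      if ν.2.1 = (D.B ν.1).cfl t g ξ x then D.γ ν.1 * psiN (D.ep ν.1) ν.2.1.length ν.2.2 else 0 := by
  have l1 := D.len_le hc hν
  unfold co
  have h1 : (∀ m ∈ (((D.L t g ξ x).image (rc cap) : Finset (Rc Y cap)) : Set (Rc Y cap)), m.1 = (rc cap ν).1 →
      m.2.1 ≤ (rc cap ν).2.1) ↔ ν.2.1 = (D.B ν.1).cfl t g ξ x := by
    constructor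
    · intro h
      have h2 : ((ν.1, (D.B ν.1).cfl t g ξ x, (∅ : Finset ℕ)) : Wc ι Y T Γ κ) ∈ D.L t g ξ x :=
        D.mem_L.2 ⟨List.suffix_rfl, Finset.empty_subset _⟩
      have l2 := D.len_le hc h2
      have h3 := h _ (Finset.mem_coe.2 (Finset.mem_image_of_mem (rc cap) h2)) rfl
      have h4 : min ((D.B ν.1).cfl t g ξ x).length cap ≤ min ν.2.1.length cap := h3
      rw [min_eq_left l1, min_eq_left l2] at h4
      exact (D.mem_L.1 hν).1.eq_of_length (le_antisymm (D.mem_L.1 hν).1.length_le h4)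
    · intro h m hm hy
      obtain ⟨μ, hμ, rfl⟩ := Finset.mem_image.1 (Finset.mem_coe.1 hm)
      have hy' : μ.1 = ν.1 := hy
      show min μ.2.1.length cap ≤ min ν.2.1.length cap
      rw [h, ← hy']
      exact min_le_min_right _ (D.mem_L.1 hμ).1.length_le
  by_cases h : ν.2.1 = (D.B ν.1).cfl t g ξ x
  · rw [if_pos h, if_pos (h1.2 h), rc_pos (D.mem_L.1 hν).2 l1]
    show D.γ ν.1 * psiN (D.ep ν.1) (min ν.2.1.length cap) ν.2.2 = _
    rw [min_eq_left l1]
  · rw [if_neg h, if_neg fun h2 => h (h1.1 h2)]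

/-- the coefficient of an element of the list -/
def cL (cap : ℕ) (t : ℕ) (g : Γ) (ξ : Ξ) (x : ι → Pt) (ν : Wc ι Y T Γ κ) : ℝ := by
  classical
  exact D.co cap (((D.L t g ξ x).image (rc cap) : Finset (Rc Y cap)) : Set (Rc Y cap)) (rc cap ν)

/-- sums over the current list -/
theorem sum_co {M : Type} [AddCommMonoid M] {t : ℕ} {g : Γ} {ξ : Ξ} {x : ι → Pt} {cap : ℕ}
    (hc : ∀ y, ((D.B y).fl t g ξ x).length ≤ cap) (c : ℝ → Wc ι Y T Γ κ → M)
    (h0 : ∀ ν, c 0 ν = 0) : ∑ ν ∈ D.L t g ξ x, c (D.cL cap t g ξ x ν) ν =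
    ∑ y, ∑ J ∈ (range ((D.B y).cfl t g ξ x).length).powerset,
      c (D.γ y * psiN (D.ep y) ((D.B y).cfl t g ξ x).length J) (y, (D.B y).cfl t g ξ x, J) := by
  classical
  have h1 : ∑ ν ∈ D.L t g ξ x, c (D.cL cap t g ξ x ν) ν =
      ∑ ν ∈ (D.L t g ξ x).filter (fun ν => ν.2.1 = (D.B ν.1).cfl t g ξ x),
        c (D.γ ν.1 * psiN (D.ep ν.1) ν.2.1.length ν.2.2) ν := by
    rw [Finset.sum_filter]
    refine Finset.sum_congr rfl fun ν hν => ?_
    have h2 : D.cL cap t g ξ x ν = if ν.2.1 = (D.B ν.1).cfl t g ξ x then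
      D.γ ν.1 * psiN (D.ep ν.1) ν.2.1.length ν.2.2 else 0 := D.co_L hc hν
    rw [h2]
    split_ifs
    · rfl
    · exact h0 ν
  rw [h1, Finset.sum_sigma']
  refine Finset.sum_bij' (fun ν _ => ⟨ν.1, ν.2.2⟩) (fun z _ => (z.1, (D.B z.1).cfl t g ξ x, z.2)) ?_ ?_ ?_ ?_ ?_
  · intro ν hν
    obtain ⟨h2, h3⟩ := Finset.mem_filter.1 hν
    refine Finset.mem_sigma.2 ⟨Finset.mem_univ _, Finset.mem_powerset.2 ?_⟩
    show ν.2.2 ⊆ range ((D.B ν.1).cfl t g ξ x).length
    rw [← h3]
    exact (D.mem_L.1 h2).2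
  · intro z hz
    refine Finset.mem_filter.2 ⟨D.mem_L.2 ⟨List.suffix_rfl, ?_⟩, rfl⟩
    exact Finset.mem_powerset.1 (Finset.mem_sigma.1 hz).2
  · intro ν hν
    obtain ⟨h2, h3⟩ := Finset.mem_filter.1 hν
    exact Prod.ext rfl (Prod.ext h3.symm rfl)
  · intro z _
    rfl
  · intro ν hν
    obtain ⟨h2, h3⟩ := Finset.mem_filter.1 hν
    have h4 : ν = (ν.1, (D.B ν.1).cfl t g ξ x, ν.2.2) := Prod.ext rfl (Prod.ext h3 rfl)
    conv_lhs => rw [h4]

/-- the numbers of the list are introduced -/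
theorem L_on {t : ℕ} {g : Γ} {ξ : Ξ} {x : ι → Pt} (w : ι) {ν : Wc ι Y T Γ κ} (hν : ν ∈ D.L t g ξ x) :
    (D.X w).inn ν t g x := by
  intro c hc
  exact (D.B ν.1).cfl_ino (fun h => absurd (Finset.mem_of_mem_erase h) (Finset.notMem_erase q univ)) t g ξ x c
    ((D.mem_L.1 hν).1.subset hc)

/-- **THE WALSH FORM** -/
theorem wsum {t : ℕ} {g : Γ} {ξ : Ξ} {x : ι → Pt} {cap : ℕ} (hc : ∀ y, ((D.B y).fl t g ξ x).length ≤ cap) (d : V) :
    ∑ ν ∈ D.L t g ξ x, D.cL cap t g ξ x ν * ∏ w ∈ univ.erase q, (D.X w).f ν t g x d = D.st t g ξ x d := by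
  classical
  rw [D.sum_co hc (fun r ν => r * ∏ w ∈ univ.erase q, (D.X w).f ν t g x d) fun ν => by simp]
  unfold st
  refine Finset.sum_congr rfl fun y _ => ?_
  have h1 : ((D.B y).fl t g ξ x).map (D.sp y x d) = ((D.B y).cfl t g ξ x).map fun c => D.sp y x d c.1 := by
    rw [← (D.B y).map_cfl t g ξ x, List.map_map]
    rfl
  have h2 : ∀ c : Cd ι T Γ κ, D.sp y x d c.1 = 1 ∨ D.sp y x d c.1 = -1 := by
    intro c
    unfold sp
    refine Finset.prod_induction _ (fun r => r = 1 ∨ r = -1) ?_ (Or.inl rfl) fun w _ => (D.B y).sg_or w c.1 x d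
    rintro a b (rfl | rfl) (rfl | rfl) <;> norm_num
  rw [h1, psi_rng (D.ep y) _ _ h2, Finset.mul_sum]
  refine Finset.sum_congr rfl fun J hJ => ?_
  rw [← mul_assoc]
  congr 1
  have h3 : ∀ w, (D.X w).f (y, (D.B y).cfl t g ξ x, J) t g x d = ∏ j ∈ J, D.sj y w ((D.B y).cfl t g ξ x) x d j := by
    intro w
    refine if_pos fun c hc => ?_
    exact (D.B y).cfl_ino (fun h => absurd (Finset.mem_of_mem_erase h) (Finset.notMem_erase q univ)) t g ξ x c hc
  rw [Finset.prod_congr rfl fun w _ => h3 w, Finset.prod_comm]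
  refine Finset.prod_congr rfl fun j hj => ?_
  have h4 := Finset.mem_range.1 (Finset.mem_powerset.1 hJ hj)
  unfold sj
  rw [List.getElem?_eq_getElem h4]
  rfl

/-- sum of the coefficients -/
theorem co_abs_le {t : ℕ} {g : Γ} {ξ : Ξ} {x : ι → Pt} {cap : ℕ} (h : ∀ y, ((D.B y).fl t g ξ x).length ≤ cap) :
    ∑ ν ∈ D.L t g ξ x, |D.cL cap t g ξ x ν| ≤ (∑ y, |D.γ y|) * 2 ^ cap := by
  classical
  rw [D.sum_co h (fun r _ => |r|) fun ν => by simp, Finset.sum_mul]
  refine Finset.sum_le_sum fun y _ => ?_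
  have h1 : ∀ J ∈ (range ((D.B y).cfl t g ξ x).length).powerset,
      |D.γ y * psiN (D.ep y) ((D.B y).cfl t g ξ x).length J| ≤ |D.γ y| := by
    intro J _
    rw [abs_mul]
    have h2 := abs_psiN (D.ep y) ((D.B y).cfl t g ξ x).length J
    have h3 := abs_nonneg (D.γ y)
    nlinarith
  refine (Finset.sum_le_card_nsmul _ _ _ h1).trans ?_
  rw [Finset.card_powerset, Finset.card_range, (D.B y).length_cfl, nsmul_eq_mul, mul_comm]
  refine mul_le_mul_of_nonneg_left ?_ (abs_nonneg _)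
  have h4 : 2 ^ ((D.B y).fl t g ξ x).length ≤ 2 ^ cap := Nat.pow_le_pow_right (by norm_num) (h y)
  exact_mod_cast h4

/-! ### base sets of numbers -/

/-- the base set: all words over the coded births of the true cells -/
def P (cap : ℕ) (t : ℕ) (g : Γ) (x : ι → Pt) : Finset (Wc ι Y T Γ κ) := tri fun y => wds ((D.B y).BT t g x) cap

theorem P_congr (cap : ℕ) (t : ℕ) (g : Γ) {x y : ι → Pt} (h : ∀ i, i ≠ q → S.cl t (x i) = S.cl t (y i)) :
    D.P cap t g x = D.P cap t g y := by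
  unfold P
  have h1 : (fun z => wds ((D.B z).BT t g x) cap) = fun z => wds ((D.B z).BT t g y) cap := funext fun z => by
    rw [(D.B z).BT_congr t g h]
  rw [h1]

theorem P_depC (cap : ℕ) (w : ι) (t : ℕ) (g : Γ) : DepC S t ((univ.erase q).erase w) {w} (D.P cap t g) :=
  fun x y h1 h2 => D.P_congr cap t g fun i hi => by
    by_cases hw : i = w
    · exact h2 i (Finset.mem_singleton.2 hw)
    · rw [h1 i (mem_erase.2 ⟨hw, mem_erase.2 ⟨hi, mem_univ i⟩⟩)]

theorem P_dep (cap : ℕ) (t : ℕ) (g : Γ) : Dep (univ.erase q) (D.P cap t g) :=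
  fun x y h => D.P_congr cap t g fun i hi => by rw [h i (mem_erase.2 ⟨hi, mem_univ i⟩)]

theorem P_mono (cap : ℕ) (t : ℕ) (g : Γ) (x : ι → Pt) : D.P cap t (S.par t g) x ⊆ D.P cap (t + 1) g x :=
  tri_mono fun y => wds_mono ((D.B y).BT_mono t g x) cap

theorem card_P_le {cap b : ℕ} {t : ℕ} {g : Γ} {x : ι → Pt} (h : ∀ y, ((D.B y).BT t g x).card ≤ b) :
    (D.P cap t g x).card ≤ Fintype.card Y * ((cap + 1) * (b + 1) ^ cap * 2 ^ cap) := by
  unfold P
  refine card_tri_le _ (fun y => ?_) fun y l hl => (mem_wds.1 hl).1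
  refine (card_wds_le _ _).trans ?_
  exact Nat.mul_le_mul_left _ (Nat.pow_le_pow_left (Nat.succ_le_succ (h y)) _)

/-- the numbers of the list are in the base set -/
theorem L_sub_P {cap : ℕ} {t : ℕ} {g : Γ} {ξ : Ξ} {x : ι → Pt} (h : ∀ y, ((D.B y).fl t g ξ x).length ≤ cap) :
    D.L t g ξ x ⊆ D.P cap t g x := by
  intro ν hν
  obtain ⟨h1, h2⟩ := D.mem_L.1 hν
  exact mem_tri.2 ⟨mem_wds.2 ⟨D.len_le h hν, fun c hc => (D.B ν.1).cfl_sub_BT t g ξ x c (h1.subset hc)⟩, h2⟩

end SF

/-! ### numbers in `ℕ` -/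

section nums

variable {S : Sys ι Om Ξ Pt V Γ κ} {α : Type} [Countable α] {I : Finset ι}

/-- decoding as a renumbering -/
def decR (S : Sys ι Om Ξ Pt V Γ κ) (α : Type) [Countable α] (I : Finset ι) : Ren S ℕ α I where
  N n _ _ _ := dec (wenc : α → ℕ) n
  dep _ _ _ := fun _ _ _ => rfl
  keep _ _ _ _ _ h := h

/-- numbered functions with codes as numbers -/
def NumF.cd (X : NumF S α I) : NumF S ℕ I := X.ren (decR S α I) subset_rfl

theorem NumF.cd_f (X : NumF S α I) (ν : α) (t : ℕ) (g : Γ) (x : ι → Pt) : X.cd.f (wenc ν) t g x = X.f ν t g x := by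
  show (dec wenc (wenc ν)).elim 0 (fun a => X.f a t g x) = _
  rw [dec_e wenc_inj]
  rfl

theorem NumF.cd_inn (X : NumF S α I) (ν : α) (t : ℕ) (g : Γ) (x : ι → Pt) : X.cd.inn (wenc ν) t g x ↔ X.inn ν t g x := by
  show (∃ a, dec wenc (wenc ν) = some a ∧ X.inn a t g x) ↔ _
  rw [dec_e wenc_inj]
  constructor
  · rintro ⟨a, h1, h2⟩
    rw [Option.some.injEq] at h1
    rw [h1]
    exact h2
  · intro h
    exact ⟨ν, rfl, h⟩

end nums

end

end Pool.Agent.GMN
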