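import Pool.Agent.GMN.Ver
import Pool.Agent.GMN.Wal

/-!
# GMN/InpD (helper19): THE DATA OF A PIECE for the initial state of the names

`InpD S a q δ Y T` = data of a piece in the geometry `S`, hidden vertex `a`, structured face `q ≠ a` (data `D : SF S q Y T`,
birth systems `D.B y`, their lists may see the coins), the other faces (the known face `a` and the faces `u ≠ a, q`) moving
functions `G u` bounded by `M`, coin free for `u ≠ δ`, zero at the dummy time `0` (`gd`).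
* `I.F t g ξ x d` = the product of all faces;
* `I.Ls u` : lists of codes: structured face: codes of `(y, list, J)`; whole faces: codes of `(version, coin value)`, the coin
  only for `u = δ`; `I.XN w`, `I.FN u` : the numbered functions; `I.PQ cap` : base set; `I.bq cap`, `I.bv` : bounded numbers;
  `I.ct` : coefficients; `sum_q`, `sum_u`, `sum_a` : the sums over the lists are the faces;
* `I.dead cap p b` : a face had more than `p` changes, a list more than `cap` elements, a base set of births more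
  than `b` elements; `dead_mono`, `card_lo`, `card_PQ`, `lo_sub_PQ`, `Pr_dead`.
-/

set_option autoImplicit false
set_option linter.unusedSectionVars false

namespace Pool.Agent.GMN

open Finset Pool.Agent.PWZ Pool.Agent.M3 Pool.Agent.M3.TS Pool.Agent.GM

noncomputable section

variable {ι Om Ξ Pt V Γ κ : Type} [Fintype ι] [DecidableEq ι] [Fintype Om] [Fintype Ξ] [Fintype Pt]
  [Fintype V]

/-- a family of numbered functions as one numbered function -/
def NumF.sig {S : Sys ι Om Ξ Pt V Γ κ} {α τ : Type} {I : Finset ι} (A : τ → NumF S α I) : NumF S (α × τ) I where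
  inn ν := (A ν.2).inn ν.1
  f ν := (A ν.2).f ν.1
  inn_dep ν := (A ν.2).inn_dep ν.1
  f_dep ν := (A ν.2).f_dep ν.1
  le1 ν := (A ν.2).le1 ν.1
  zero ν := (A ν.2).zero ν.1
  keep ν := (A ν.2).keep ν.1
  stat ν := (A ν.2).stat ν.1

/-- THE DATA OF A PIECE -/
structure InpD (S : Sys ι Om Ξ Pt V Γ κ) (a q δ : ι) (Y T : Type) where
  qa : q ≠ a
  da : δ ≠ a
  /-- the faces but the structured one -/
  G : ι → FnX ι Ξ Pt V Γ
  G_dep : ∀ u t g ξ, Dep (univ.erase u) (G u t g ξ)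
  G_free : ∀ u, u ≠ δ → ∀ t g ξ ξ', G u t g ξ = G u t g ξ'
  M : ℝ
  M0 : 0 < M
  G_le : ∀ u t g ξ x d, |G u t g ξ x d| ≤ M
  /-- the structured face -/
  D : SF S q Y T

namespace InpD

variable {S : Sys ι Om Ξ Pt V Γ κ} {a q δ : ι} {Y T : Type} [Fintype Y] (I : InpD S a q δ Y T)

/-- the face `u` at the coins `ξ` -/
def Gc (u : ι) (ξ : Ξ) : Fn ι Pt V Γ := fun t g x => I.G u t g ξ x

theorem Gc_free {u : ι} (hu : u ≠ δ) (ξ ξ' : Ξ) : I.Gc u ξ = I.Gc u ξ' := by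
  funext t g x
  show I.G u t g ξ x = I.G u t g ξ' x
  rw [I.G_free u hu t g ξ ξ']

theorem Gc_dep (u : ι) (ξ : Ξ) (t : ℕ) (g : Γ) : Dep (univ.erase u) (I.Gc u ξ t g) := I.G_dep u t g ξ

theorem Gc_le (u : ι) (ξ : Ξ) (t : ℕ) (g : Γ) (x : ι → Pt) (d : V) : |I.Gc u ξ t g x d| ≤ I.M := I.G_le u t g ξ x d

/-- the product of the faces -/
def F (t : ℕ) (g : Γ) (ξ : Ξ) (x : ι → Pt) (d : V) : ℝ :=
  I.D.st t g ξ x d * ∏ u ∈ univ.erase q, gd (I.Gc u ξ) t g x d

/-- the versions of the face `u` at the coins `ξ` -/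
def VN (u : ι) (ξ : Ξ) : NumF S ℕ (univ.erase u) := vNum (I.Gc_dep u ξ) I.M0 (I.Gc_le u ξ)

/-- a value of the coins -/
def xz (_ : InpD S a q δ Y T) : Ξ := Classical.choice S.nonempty_Xi

/-- the part of the coins in the codes of the owner `u` -/
def tg (_ : InpD S a q δ Y T) (u : ι) (ξ : Ξ) : Option Ξ := if u = δ then some ξ else none

theorem Gc_tg (u : ι) (ξ : Ξ) : I.Gc u ((I.tg u ξ).getD I.xz) = I.Gc u ξ := by
  by_cases hu : u = δ
  · unfold tg
    rw [if_pos hu]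
    rfl
  · exact I.Gc_free hu _ _

/-- the functions of the whole owner `u`, codes `(version, coin value)` -/
def FN (u : ι) : NumF S ℕ (univ.erase u) := (NumF.sig fun o : Option Ξ => I.VN u (o.getD I.xz)).cd

theorem FN_f (u : ι) (v : ℕ) (ξ : Ξ) (t : ℕ) (g : Γ) (x : ι → Pt) :
    (I.FN u).f (wenc (v, I.tg u ξ)) t g x = (I.VN u ξ).f v t g x := by
  unfold FN
  rw [NumF.cd_f]
  show (fun d => I.M⁻¹ * ver S (I.Gc u ((I.tg u ξ).getD I.xz)) v t g x d) =
    fun d => I.M⁻¹ * ver S (I.Gc u ξ) v t g x d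
  rw [I.Gc_tg]

variable [Countable T] [Countable Γ] [Countable κ]

/-- the structured functions with numbers in `ℕ` -/
def XN (w : ι) : NumF S ℕ ((univ.erase q).erase w) := (I.D.X w).cd

/-- the code of a version -/
def vco (u : ι) (ξ : Ξ) (v : ℕ) : ℕ := wenc (v, I.tg u ξ)

omit [Countable T] [Countable Γ] [Countable κ] in
theorem vco_inj (u : ι) (ξ : Ξ) : Function.Injective (I.vco u ξ) := fun _ _ h => congrArg Prod.fst (wenc_inj h)

/-- the lists -/
def Ls (u : ι) (t : ℕ) (g : Γ) (ξ : Ξ) (x : ι → Pt) : Finset ℕ :=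
  if u = q then (I.D.L t g ξ x).image wenc else (vLs S (I.Gc u ξ) t g x).image (I.vco u ξ)

theorem Ls_q (t : ℕ) (g : Γ) (ξ : Ξ) (x : ι → Pt) : I.Ls q t g ξ x = (I.D.L t g ξ x).image wenc := if_pos rfl

theorem Ls_ne {u : ι} (hu : u ≠ q) (t : ℕ) (g : Γ) (ξ : Ξ) (x : ι → Pt) :
    I.Ls u t g ξ x = (vLs S (I.Gc u ξ) t g x).image (I.vco u ξ) := if_neg hu

theorem Ls_dep (u : ι) (t : ℕ) (g : Γ) (ξ : Ξ) : Dep (univ.erase u) (I.Ls u t g ξ) := fun x y h => by
  by_cases hu : u = q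
  · subst hu
    rw [I.Ls_q, I.Ls_q, I.D.L_dep t g ξ x y h]
  · rw [I.Ls_ne hu, I.Ls_ne hu, vLs_dep (I.Gc_dep u ξ) t g x y h]

theorem Ls_mono (u : ι) (t : ℕ) (g : Γ) (ξ : Ξ) (x : ι → Pt) : I.Ls u t (S.par t g) ξ x ⊆ I.Ls u (t + 1) g ξ x := by
  by_cases hu : u = q
  · subst hu
    rw [I.Ls_q, I.Ls_q]
    exact Finset.image_subset_image (I.D.L_mono t g ξ x)
  · rw [I.Ls_ne hu, I.Ls_ne hu]
    exact Finset.image_subset_image (vLs_mono t g x)

/-- the public codes of the structured face -/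
def PQ (cap : ℕ) (t : ℕ) (g : Γ) (x : ι → Pt) : Finset ℕ := (I.D.P cap t g x).image wenc

theorem PQ_mono (cap : ℕ) (t : ℕ) (g : Γ) (x : ι → Pt) : I.PQ cap t (S.par t g) x ⊆ I.PQ cap (t + 1) g x :=
  Finset.image_subset_image (I.D.P_mono cap t g x)

theorem PQ_dep (cap : ℕ) (t : ℕ) (g : Γ) : Dep (univ.erase q) (I.PQ cap t g) := fun x y h => by
  unfold PQ
  rw [I.D.P_dep cap t g x y h]

/-- public sets of the coin free whole owners on their own face -/
def PL (_ : InpD S a q δ Y T) (p : ℕ) (u : ι) : PSt S u :=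
  PSt.const S u ((range (p + 1)).image fun v => wenc (v, (none : Option Ξ)))

/-- box sets of the traces -/
def BL (cap : ℕ) (u l : ι) : BSt S u l where
  L t g x := if u = q then I.PQ cap t g x else {0}
  dep t g := fun x y h1 h2 => by
    by_cases hu : u = q
    · subst hu
      show (if u = u then I.PQ cap t g x else _) = if u = u then I.PQ cap t g y else _
      rw [if_pos rfl, if_pos rfl]
      unfold PQ
      rw [I.D.P_depC cap l t g x y h1 h2]
    · show (if u = q then I.PQ cap t g x else _) = if u = q then I.PQ cap t g y else _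
      rw [if_neg hu, if_neg hu]
  mono t g x := by
    by_cases hu : u = q
    · show (if u = q then I.PQ cap t (S.par t g) x else _) ⊆ if u = q then I.PQ cap (t + 1) g x else _
      rw [if_pos hu, if_pos hu]
      exact I.PQ_mono cap t g x
    · show (if u = q then I.PQ cap t (S.par t g) x else _) ⊆ if u = q then I.PQ cap (t + 1) g x else _
      rw [if_neg hu, if_neg hu]

/-- bounded number of a code of the structured face -/
def bq (_ : InpD S a q δ Y T) (cap n : ℕ) : ℕ :=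
  (dec (wenc : Wc ι Y T Γ κ → ℕ) n).elim 0 fun ν => encF (SF.rc cap ν)

/-- bounded number of a version -/
def bv (_ : InpD S a q δ Y T) (n : ℕ) : ℕ := (dec (wenc : ℕ × Option Ξ → ℕ) n).elim 0 fun z => z.1

theorem bq_wenc (cap : ℕ) (ν : Wc ι Y T Γ κ) : I.bq cap (wenc ν) = encF (SF.rc cap ν) := by
  unfold bq
  rw [dec_e wenc_inj]
  rfl

omit [Countable T] [Countable Γ] [Countable κ] in
theorem bv_vco (u : ι) (ξ : Ξ) (v : ℕ) : I.bv (I.vco u ξ v) = v := by
  unfold bv vco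
  rw [dec_e wenc_inj]
  rfl

/-- the coefficient of the structured face -/
def cq (cap : ℕ) (Λ : Finset ℕ) (n : ℕ) : ℝ := coN (encF : SF.Rc Y cap → ℕ) (I.D.co cap) Λ n

theorem cq_eq (cap : ℕ) (t : ℕ) (g : Γ) (ξ : Ξ) (x : ι → Pt) (ν : Wc ι Y T Γ κ) :
    I.cq cap (((I.D.L t g ξ x).image wenc).image (I.bq cap)) (I.bq cap (wenc ν)) = I.D.cL cap t g ξ x ν := by
  classical
  have h1 : ((I.D.L t g ξ x).image wenc).image (I.bq cap) =
      ((I.D.L t g ξ x).image (SF.rc cap)).image (encF : SF.Rc Y cap → ℕ) := by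
    rw [Finset.image_image, Finset.image_image]
    exact Finset.image_congr fun ν _ => I.bq_wenc cap ν
  unfold cq
  rw [h1, I.bq_wenc, coN_e encF_inj]
  rfl

/-- the functions `X u w` -/
def XX (u w : ι) : NumF S ℕ ((univ.erase u).erase w) :=
  if h : u = q then h ▸ I.XN w else NumF.one S ℕ _

theorem XX_q (w : ι) : I.XX q w = I.XN w := by
  unfold XX
  rw [dif_pos rfl]

variable {cap p : ℕ}

/-- the current list of the owner `u` -/
def lo (t : ℕ) (w : Om) (u : ι) : Finset ℕ := I.Ls u t (S.gm t w) (S.xi w) (S.x w)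

/-- the coefficient of the owner `u` -/
def ct (cap : ℕ) (t : ℕ) (w : Om) (u : ι) (n : ℕ) : ℝ :=
  if u = q then I.cq cap (((I.D.L t (S.gm t w) (S.xi w) (S.x w)).image wenc).image (I.bq cap)) (I.bq cap n)
  else vCo I.M (vLs S (I.Gc u (S.xi w)) t (S.gm t w) (S.x w)) (I.bv n)

/-- the sum over the structured owner -/
theorem sum_q {t : ℕ} {w : Om} (hc : ∀ y, ((I.D.B y).fl t (S.gm t w) (S.xi w) (S.x w)).length ≤ cap) (d : V) :
    ∑ n ∈ I.lo t w q, I.ct cap t w q n * ∏ v ∈ univ.erase q, (I.XN v).at' n t w d =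
      I.D.st t (S.gm t w) (S.xi w) (S.x w) d := by
  unfold lo
  rw [I.Ls_q, sum_img wenc_inj, ← I.D.wsum hc d]
  refine Finset.sum_congr rfl fun ν _ => ?_
  unfold ct
  rw [if_pos rfl, I.cq_eq]
  congr 1
  refine Finset.prod_congr rfl fun v _ => ?_
  show (I.D.X v).cd.f (wenc ν) t (S.gm t w) (S.x w) d = _
  rw [NumF.cd_f]

theorem sum_q_abs {t : ℕ} {w : Om} (hc : ∀ y, ((I.D.B y).fl t (S.gm t w) (S.xi w) (S.x w)).length ≤ cap) :
    ∑ n ∈ I.lo t w q, |I.ct cap t w q n| ≤ (∑ y, |I.D.γ y|) * 2 ^ cap := by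
  unfold lo
  rw [I.Ls_q, sum_img wenc_inj]
  refine le_trans (le_of_eq (Finset.sum_congr rfl fun ν _ => ?_)) (I.D.co_abs_le hc)
  unfold ct
  rw [if_pos rfl, I.cq_eq]

/-- the sum over a whole owner -/
theorem sum_u {u : ι} (hu : u ≠ q) (t : ℕ) (w : Om) (d : V) :
    ∑ n ∈ I.lo t w u, I.ct cap t w u n * (I.FN u).at' n t w d = gd (I.Gc u (S.xi w)) t (S.gm t w) (S.x w) d := by
  unfold lo
  rw [I.Ls_ne hu, sum_img (I.vco_inj u (S.xi w)), ← vsum (S := S) (I.Gc_dep u (S.xi w))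
    I.M0 (I.Gc_le u (S.xi w)) t (S.gm t w) (S.x w) d]
  refine Finset.sum_congr rfl fun v _ => ?_
  unfold ct
  rw [if_neg hu, I.bv_vco]
  congr 1
  show (I.FN u).f (wenc (v, I.tg u (S.xi w))) t (S.gm t w) (S.x w) d = _
  rw [I.FN_f]
  rfl

theorem sum_u_abs {u : ι} (hu : u ≠ q) (t : ℕ) (w : Om) : ∑ n ∈ I.lo t w u, |I.ct cap t w u n| = I.M := by
  unfold lo
  rw [I.Ls_ne hu, sum_img (I.vco_inj u (S.xi w)), ← vsum_abs (S := S) (I.Gc u (S.xi w)) I.M0.le t (S.gm t w) (S.x w)]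
  refine Finset.sum_congr rfl fun v _ => ?_
  unfold ct
  rw [if_neg hu, I.bv_vco]

theorem sum_a (t : ℕ) (w : Om) (d : V) : ∑ ζ ∈ vLs S (I.Gc a I.xz) t (S.gm t w) (S.x w),
    vCo I.M (vLs S (I.Gc a I.xz) t (S.gm t w) (S.x w)) ζ * (I.VN a I.xz).at' ζ t w d =
      gd (I.Gc a (S.xi w)) t (S.gm t w) (S.x w) d := by
  rw [I.Gc_free I.da.symm (S.xi w) I.xz]
  exact vsum (I.Gc_dep a I.xz) I.M0 (I.Gc_le a I.xz) t (S.gm t w) (S.x w) d

/-! ### the bounds -/

/-- the dead event -/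
def dead (cap p b : ℕ) (t : ℕ) (w : Om) : Prop :=
  (∃ u, u ≠ q ∧ p < vc S (I.Gc u (S.xi w)) t (S.gm t w) (S.x w)) ∨
  (∃ y, cap < ((I.D.B y).fl t (S.gm t w) (S.xi w) (S.x w)).length) ∨
  ∃ y, b < ((I.D.B y).BT t (S.gm t w) (S.x w)).card

omit [Countable T] [Countable Γ] [Countable κ] in
theorem dead_mono (cap p b : ℕ) (t : ℕ) (w : Om) (h : I.dead cap p b t w) : I.dead cap p b (t + 1) w := by
  rcases h with ⟨u, hu, h⟩ | ⟨y, h⟩ | ⟨y, h⟩
  · exact Or.inl ⟨u, hu, lt_of_lt_of_le h (vc_mono_o t w)⟩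
  · refine Or.inr (Or.inl ⟨y, lt_of_lt_of_le h ?_⟩)
    have h1 := (I.D.B y).suf t (S.gm (t + 1) w) (S.xi w) (S.x w)
    rw [S.par_gm] at h1
    exact h1.length_le
  · exact Or.inr (Or.inr ⟨y, lt_of_lt_of_le h (Finset.card_le_card ((I.D.B y).BT_mono_o t w))⟩)

/-- number of elements of the lists -/
def nn (Y : Type) [Fintype Y] (cap p : ℕ) : ℕ := (p + 1) + Fintype.card Y * ((cap + 1) * 2 ^ cap)

/-- number of elements of the public sets -/
def nb (Y : Type) [Fintype Y] (cap p b : ℕ) : ℕ := (p + 1) + Fintype.card Y * ((cap + 1) * (b + 1) ^ cap * 2 ^ cap)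

/-- bound for the coefficients -/
def aa (cap : ℕ) : ℝ := I.M ^ (Fintype.card ι - 1) * ((∑ y, |I.D.γ y|) * 2 ^ cap)

section live

variable {b : ℕ} {t : ℕ} {w : Om} (hd : ¬ I.dead cap p b t w)

include hd

omit [Countable T] [Countable Γ] [Countable κ] in
theorem live_v {u : ι} (hu : u ≠ q) : vc S (I.Gc u (S.xi w)) t (S.gm t w) (S.x w) ≤ p := by
  unfold dead at hd
  push Not at hd
  exact hd.1 u hu

omit [Countable T] [Countable Γ] [Countable κ] in
theorem live_l (y : Y) : ((I.D.B y).fl t (S.gm t w) (S.xi w) (S.x w)).length ≤ cap := by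
  unfold dead at hd
  push Not at hd
  exact hd.2.1 y

omit [Countable T] [Countable Γ] [Countable κ] in
theorem live_b (y : Y) : ((I.D.B y).BT t (S.gm t w) (S.x w)).card ≤ b := by
  unfold dead at hd
  push Not at hd
  exact hd.2.2 y

theorem card_lo (u : ι) : (I.lo t w u).card ≤ nn Y cap p := by
  unfold lo nn
  by_cases hu : u = q
  · subst hu
    rw [I.Ls_q, card_img wenc_inj]
    exact (I.D.card_L_le (I.live_l hd)).trans (Nat.le_add_left _ _)
  · rw [I.Ls_ne hu, card_img (I.vco_inj u _), card_vLs]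
    exact (Nat.succ_le_succ (I.live_v hd hu)).trans (Nat.le_add_right _ _)

theorem card_PQ : (I.PQ cap t (S.gm t w) (S.x w)).card ≤ nb Y cap p b := by
  unfold PQ nb
  rw [card_img wenc_inj]
  exact (I.D.card_P_le (I.live_b hd)).trans (Nat.le_add_left _ _)

theorem lo_sub_PQ : I.lo t w q ⊆ I.PQ cap t (S.gm t w) (S.x w) := by
  unfold lo PQ
  rw [I.Ls_q]
  exact Finset.image_subset_image (I.D.L_sub_P (I.live_l hd))

theorem lo_sub {u : ι} (hu : u ≠ q) : I.lo t w u ⊆ (range (p + 1)).image (I.vco u (S.xi w)) := by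
  unfold lo
  rw [I.Ls_ne hu]
  exact Finset.image_subset_image (Finset.range_mono (Nat.succ_le_succ (I.live_v hd hu)))

end live

omit [Countable T] [Countable Γ] [Countable κ] in
/-- probability of the dead event -/
theorem Pr_dead (cap p b : ℕ) : S.P.Pr (I.dead cap p b S.n) ≤
    (∑ u ∈ univ.erase q, S.P.Pr fun w => p < vc S (I.Gc u (S.xi w)) S.n (S.gm S.n w) (S.x w)) +
    (∑ y, S.P.Pr fun w => cap < ((I.D.B y).fl S.n (S.gm S.n w) (S.xi w) (S.x w)).length) +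
    ∑ y, S.P.E (fun w => ∑ i ∈ range (S.n + 1), (((I.D.B y).nb i (S.gm i w) (S.x w)).card : ℝ)) / (b + 1) := by
  have h1 : S.P.Pr (I.dead cap p b S.n) ≤
      S.P.Pr (fun w => ∃ u ∈ univ.erase q, p < vc S (I.Gc u (S.xi w)) S.n (S.gm S.n w) (S.x w)) +
      (S.P.Pr (fun w => ∃ y ∈ (univ : Finset Y), cap < ((I.D.B y).fl S.n (S.gm S.n w) (S.xi w) (S.x w)).length) +
      S.P.Pr (fun w => ∃ y ∈ (univ : Finset Y), b < ((I.D.B y).BT S.n (S.gm S.n w) (S.x w)).card)) := by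
    have h2 : S.P.Pr (I.dead cap p b S.n) ≤ S.P.Pr (fun w =>
        (∃ u ∈ univ.erase q, p < vc S (I.Gc u (S.xi w)) S.n (S.gm S.n w) (S.x w)) ∨
        ((∃ y ∈ (univ : Finset Y), cap < ((I.D.B y).fl S.n (S.gm S.n w) (S.xi w) (S.x w)).length) ∨
        (∃ y ∈ (univ : Finset Y), b < ((I.D.B y).BT S.n (S.gm S.n w) (S.x w)).card))) := by
      refine S.P.Pr_mono fun w _ h => ?_
      rcases h with ⟨u, hu, h⟩ | ⟨y, h⟩ | ⟨y, h⟩
      · exact Or.inl ⟨u, Finset.mem_erase.2 ⟨hu, mem_univ u⟩, h⟩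
      · exact Or.inr (Or.inl ⟨y, mem_univ y, h⟩)
      · exact Or.inr (Or.inr ⟨y, mem_univ y, h⟩)
    refine h2.trans ((S.P.Pr_or_le _ _).trans (add_le_add le_rfl (S.P.Pr_or_le _ _)))
  refine h1.trans ?_
  rw [add_assoc]
  refine add_le_add (S.P.Pr_ex_le _ _) (add_le_add (S.P.Pr_ex_le _ _) ((S.P.Pr_ex_le _ _).trans ?_))
  refine Finset.sum_le_sum fun y _ => ?_
  have hb : (0 : ℝ) < (b : ℝ) + 1 := by positivity
  refine le_trans (S.P.Pr_mono fun w _ h => ?_) ((I.D.B y).Pr_BT hb le_rfl)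
  have h4 : b + 1 ≤ ((I.D.B y).BT S.n (S.gm S.n w) (S.x w)).card := h
  exact_mod_cast h4

end InpD

/-! ### coin free lists -/

section free

variable {S : Sys ι Om Ξ Pt V Γ κ}

theorem BSy.cfl_free {u : ι} {T : Type} (B : BSy S u T) (h : ∀ t g ξ ξ', B.fl t g ξ = B.fl t g ξ') (t : ℕ) :
    ∀ g ξ ξ', B.cfl t g ξ = B.cfl t g ξ' := by
  induction t with
  | zero =>
    intro g ξ ξ'
    funext x
    show (B.fl 0 g ξ x).map (cod S u 0 g x) = (B.fl 0 g ξ' x).map (cod S u 0 g x)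
    rw [h 0 g ξ ξ']
  | succ t ih =>
    intro g ξ ξ'
    funext x
    rw [B.cfl_succ, B.cfl_succ, h (t + 1) g ξ ξ', h t _ ξ ξ', ih _ ξ ξ']

theorem SF.L_free {q : ι} {Y T : Type} [Fintype Y] (D : SF S q Y T)
    (h : ∀ y t g ξ ξ', (D.B y).fl t g ξ = (D.B y).fl t g ξ') (t : ℕ) (g : Γ) (ξ ξ' : Ξ) : D.L t g ξ = D.L t g ξ' := by
  funext x
  ext ν
  rw [D.mem_L, D.mem_L, (D.B ν.1).cfl_free (h ν.1) t g ξ ξ']

/-- the lists of the owners `u ≠ δ` are coin free -/
theorem InpD.Ls_free {a q δ : ι} {Y T : Type} [Fintype Y] (I : InpD S a q δ Y T) [Countable T] [Countable Γ]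
    [Countable κ] (h : q ≠ δ → ∀ y t g ξ ξ', (I.D.B y).fl t g ξ = (I.D.B y).fl t g ξ') {u : ι} (hu : u ≠ δ) (t : ℕ)
    (g : Γ) (ξ ξ' : Ξ) : I.Ls u t g ξ = I.Ls u t g ξ' := by
  by_cases huq : u = q
  · subst huq
    funext x
    rw [I.Ls_q, I.Ls_q, I.D.L_free (h hu) t g ξ ξ']
  · funext x
    have h1 : I.vco u ξ = I.vco u ξ' := by
      funext v
      unfold InpD.vco InpD.tg
      rw [if_neg hu, if_neg hu]
    rw [I.Ls_ne huq, I.Ls_ne huq, h1, I.Gc_free hu ξ ξ']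

end free

end

end Pool.Agent.GMN
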