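import Pool.Agent.GMN.InpD
import Pool.Agent.GM.FineDef

/-!
# GMN/InpP (helper19): the data of a PIECE AFTER THE REFINEMENT (helper21's contract) as input of the names

* `BSy.ofBL` : a cumulative list of births (`GS.BLT`, all vertices unknown) is a birth system;
* `SF.ofStr` : the structured face `(psi e1 - psi e0) / 4`, `st_ofStr`;
* **`InpD.ofPiece`** : faces `F` of a piece, structured face `q`, hidden vertex `a ≠ q, δ`; `ofPiece_F` : the product of the
  faces; `Pr_deadP` : the probability of the dead event from the tails.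
-/

set_option autoImplicit false
set_option linter.unusedSectionVars false

namespace Pool.Agent.GMN

open Finset Pool.Agent.PWZ Pool.Agent.M3 Pool.Agent.M3.TS Pool.Agent.GM

noncomputable section

variable {ι Om Ξ Pt V Γ κ : Type} [Fintype ι] [DecidableEq ι] [Fintype Om] [Fintype Ξ] [Fintype Pt]
  [Fintype V] {S : Sys ι Om Ξ Pt V Γ κ}

/-- births of the face `q`, all vertices unknown -/
abbrev Bth (ι Pt V : Type) [Fintype ι] [DecidableEq ι] (q : ι) : Type :=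
  Birth (Mv.TJs Pt V (univ : Finset ι) q → Bool)

/-- a list of births as a birth system -/
def BSy.ofBL {q : ι} {m M T : ℝ} (b : GS.BLT S univ q m M T) : BSy S q (Bth ι Pt V q) where
  fl := b.L
  nb t g x := b.B t g (Classical.choice S.nonempty_Xi) x
  sg w s x d := Mv.msgn univ q w s x d
  fl_dep := b.dep
  sg_dep w s := Mv.msgn_dep univ q w s
  sg_or w s x d := Mv.msgn_or univ q w s x d
  suf := b.suf
  nd := b.nodup
  nb_congr t g x y h := b.cell t g _ _ y x (fun i hi => absurd (mem_univ i) hi) fun i _ hi => h i hi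
  top g ξ x s hs := by
    rw [b.zero] at hs
    exact absurd hs List.not_mem_nil
  new t g ξ x s hs := by
    rcases b.new t g ξ x s hs with h | h
    · exact Or.inl h
    · right
      rw [b.cell (t + 1) g (Classical.choice S.nonempty_Xi) ξ x x (fun i _ _ => rfl) fun i _ _ => rfl] at h
      exact h

theorem BSy.ofBL_nb {q : ι} {m M T : ℝ} (b : GS.BLT S univ q m M T) (t : ℕ) (w : Om) :
    (BSy.ofBL b).nb t (S.gm t w) (S.x w) = S.at' b.B t w :=
  b.cell t (S.gm t w) (S.xi w) _ (S.x w) (S.x w) (fun _ _ _ => rfl) fun _ _ _ => rfl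

/-- the structured face -/
def SF.ofStr {δ q : ι} {F : Mov Ξ ι Pt Γ (V → ℝ)} {m M T : ℝ} (D : GS.StrT S univ δ q F m M T) :
    SF S q Bool (Bth ι Pt V q) where
  B y := if y then BSy.ofBL D.b1 else BSy.ofBL D.b0
  ep y := if y then D.e1 else D.e0
  γ y := if y then 1 / 4 else - (1 / 4)

theorem SF.st_ofStr {δ q : ι} {F : Mov Ξ ι Pt Γ (V → ℝ)} {m M T : ℝ} (D : GS.StrT S univ δ q F m M T) (t : ℕ) (g : Γ)
    (ξ : Ξ) (x : ι → Pt) (d : V) : (SF.ofStr D).st t g ξ x d = F t g ξ x d := by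
  rw [D.eq]
  unfold SF.st
  rw [Fintype.sum_bool]
  show 1 / 4 * psi D.e1 ((D.b1.L t g ξ x).map fun s => ∏ i ∈ univ.erase q, Mv.msgn univ q i s x d) +
    -(1 / 4) * psi D.e0 ((D.b0.L t g ξ x).map fun s => ∏ i ∈ univ.erase q, Mv.msgn univ q i s x d) =
    (psi D.e1 ((D.b1.L t g ξ x).map fun s => ∏ i ∈ univ.erase q, Mv.msgn univ q i s x d) -
      psi D.e0 ((D.b0.L t g ξ x).map fun s => ∏ i ∈ univ.erase q, Mv.msgn univ q i s x d)) / 4
  ring

namespace InpD

variable {a q δ : ι} {F : ι → Mov Ξ ι Pt Γ (V → ℝ)} {m M T : ℝ}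

/-- **THE INPUT OF THE NAMES FROM A PIECE** -/
def ofPiece (hqa : q ≠ a) (hda : δ ≠ a) (hd : ∀ u t g ξ, Dep (univ.erase u) (F u t g ξ))
    (hc : ∀ u, u ≠ δ → ∀ t g ξ ξ', F u t g ξ = F u t g ξ') (hb : ∀ u t g ξ x d, |F u t g ξ x d| ≤ 1)
    (D : GS.StrT S univ δ q (F q) m M T) : InpD S a q δ Bool (Bth ι Pt V q) where
  qa := hqa
  da := hda
  G := F
  G_dep := hd
  G_free := hc
  M := 1
  M0 := one_pos
  G_le := hb
  D := SF.ofStr D

section basic

variable (hqa : q ≠ a) (hda : δ ≠ a) (hd : ∀ u t g ξ, Dep (univ.erase u) (F u t g ξ))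
  (hc : ∀ u, u ≠ δ → ∀ t g ξ ξ', F u t g ξ = F u t g ξ') (hb : ∀ u t g ξ x d, |F u t g ξ x d| ≤ 1)
  (D : GS.StrT S univ δ q (F q) m M T) (h0 : ∀ u g ξ x, F u 0 g ξ x = 0)

include h0 in
theorem gd_Gc (u : ι) (ξ : Ξ) (t : ℕ) (g : Γ) (x : ι → Pt) :
    gd ((ofPiece hqa hda hd hc hb D).Gc u ξ) t g x = F u t g ξ x := by
  rcases Nat.eq_zero_or_pos t with rfl | ht
  · rw [gd_zero, h0]
  · exact gd_pos _ ht g x

include h0 in
/-- the product of the faces -/
theorem ofPiece_F (t : ℕ) (g : Γ) (ξ : Ξ) (x : ι → Pt) (d : V) :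
    (ofPiece hqa hda hd hc hb D).F t g ξ x d = ∏ u, F u t g ξ x d := by
  unfold InpD.F
  have h1 : (ofPiece hqa hda hd hc hb D).D.st t g ξ x d = F q t g ξ x d := SF.st_ofStr D t g ξ x d
  rw [h1, ← Finset.mul_prod_erase univ _ (mem_univ q)]
  congr 1
  refine Finset.prod_congr rfl fun u _ => ?_
  rw [gd_Gc hqa hda hd hc hb D h0]

include h0 in
/-- the number of versions is the number of moves -/
theorem ofPiece_vc (u : ι) (t : ℕ) (w : Om) :
    (vc S ((ofPiece hqa hda hd hc hb D).Gc u (S.xi w)) t (S.gm t w) (S.x w) : ℝ) =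
      ∑ i ∈ range t, ind (S.at' (F u) (i + 1) w ≠ S.at' (F u) i w) := by
  rw [vc_sum]
  refine Finset.sum_congr rfl fun i _ => ?_
  rw [gd_Gc hqa hda hd hc hb D h0, gd_Gc hqa hda hd hc hb D h0]
  rfl

include h0 in
/-- **probability of the dead event** -/
theorem Pr_deadP {cap p b k : ℕ} {M1 : ℝ}
    (hmv : ∀ u, u ≠ q → S.MvTail (F u) m) (hp : k * m ≤ (p : ℝ) + 1) (hcap : k * m ≤ (cap : ℝ) + 1)
    (hT : T ≤ M1) :
    S.P.Pr ((ofPiece hqa hda hd hc hb D).dead cap p b S.n) ≤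
      (Fintype.card ι + 1) * (1 / 2) ^ k + 2 * M1 / (b + 1) := by
  have hb1 : (0 : ℝ) < (b : ℝ) + 1 := by positivity
  refine ((ofPiece hqa hda hd hc hb D).Pr_dead cap p b).trans ?_
  have h1 : ∑ u ∈ univ.erase q, S.P.Pr (fun w => p < vc S ((ofPiece hqa hda hd hc hb D).Gc u (S.xi w)) S.n
      (S.gm S.n w) (S.x w)) ≤ (Fintype.card ι - 1) * (1 / 2) ^ k := by
    have h2 : ∀ u ∈ univ.erase q, S.P.Pr (fun w => p < vc S ((ofPiece hqa hda hd hc hb D).Gc u (S.xi w)) S.n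
        (S.gm S.n w) (S.x w)) ≤ (1 / 2) ^ k := by
      intro u hu
      refine le_trans (S.P.Pr_mono fun w _ h => ?_) (hmv u (Finset.ne_of_mem_erase hu) k)
      have h3 : p + 1 ≤ vc S ((ofPiece hqa hda hd hc hb D).Gc u (S.xi w)) S.n (S.gm S.n w) (S.x w) := h
      have h3' : (p : ℝ) + 1 ≤ (vc S ((ofPiece hqa hda hd hc hb D).Gc u (S.xi w)) S.n (S.gm S.n w) (S.x w) : ℝ) := by
        exact_mod_cast h3
      rw [ofPiece_vc hqa hda hd hc hb D h0] at h3'
      exact hp.trans h3'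
    refine (Finset.sum_le_card_nsmul _ _ _ h2).trans (le_of_eq ?_)
    rw [Finset.card_erase_of_mem (mem_univ q), Finset.card_univ, nsmul_eq_mul,
      Nat.cast_sub (Fintype.card_pos_iff.2 ⟨q⟩), Nat.cast_one]
  have h4 : ∑ y, S.P.Pr (fun w => cap < (((ofPiece hqa hda hd hc hb D).D.B y).fl S.n (S.gm S.n w) (S.xi w)
      (S.x w)).length) ≤ 2 * (1 / 2) ^ k := by
    rw [Fintype.sum_bool, two_mul]
    have h5 : ∀ b' : GS.BLT S univ q m M T, S.P.Pr (fun w => cap < (b'.L S.n (S.gm S.n w) (S.xi w) (S.x w)).length) ≤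
        (1 / 2) ^ k := by
      intro b'
      refine le_trans (S.P.Pr_mono fun w _ h => ?_) (b'.tail k)
      have h6 : cap + 1 ≤ (b'.L S.n (S.gm S.n w) (S.xi w) (S.x w)).length := h
      have h7 : ((cap : ℝ) + 1) ≤ ((b'.L S.n (S.gm S.n w) (S.xi w) (S.x w)).length : ℝ) := by exact_mod_cast h6
      exact hcap.trans h7
    exact add_le_add (h5 D.b1) (h5 D.b0)
  have h8 : ∑ y, S.P.E (fun w => ∑ i ∈ range (S.n + 1),
      ((((ofPiece hqa hda hd hc hb D).D.B y).nb i (S.gm i w) (S.x w)).card : ℝ)) / (b + 1) ≤ 2 * M1 / (b + 1) := by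
    rw [Fintype.sum_bool, ← add_div, two_mul]
    refine div_le_div_of_nonneg_right (add_le_add ?_ ?_) hb1.le
    · refine le_trans (le_of_eq (S.P.E_congr fun w _ => Finset.sum_congr rfl fun i _ => ?_)) (D.b1.pub.trans hT)
      rw [← BSy.ofBL_nb]
      rfl
    · refine le_trans (le_of_eq (S.P.E_congr fun w _ => Finset.sum_congr rfl fun i _ => ?_)) (D.b0.pub.trans hT)
      rw [← BSy.ofBL_nb]
      rfl
  have h9 : (0 : ℝ) ≤ (1 / 2) ^ k := by positivity
  linarith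

end basic

end InpD

theorem SF.ofStr_free {δ q : ι} {F : Mov Ξ ι Pt Γ (V → ℝ)} {m M T : ℝ} (D : GS.StrT S univ δ q F m M T) (hq : q ≠ δ)
    (y : Bool) (t : ℕ) (g : Γ) (ξ ξ' : Ξ) : ((SF.ofStr D).B y).fl t g ξ = ((SF.ofStr D).B y).fl t g ξ' := by
  cases y
  · exact D.coin0 hq t g ξ ξ'
  · exact D.coin1 hq t g ξ ξ'

end

end Pool.Agent.GMN
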