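import Pool.Agent.GMN.Inp
import Pool.Agent.GMN.InpP

/-!
# GMN/InpN (helper19): the initial state of the names with numbers

Units of helper21 (`GM/FineDef`): `m = 4 H`, `T = H exp ((1 + κ) Λ)`, `Λ ≤ exp H`, `κ ≤ 1`, `H ≥ 2`.
* `Start` : what the names get: a state with bounds, numbers introduced, shape of the start of the counter, own public sets,
  coin free lists, empty lists of the hidden vertex, the list of the known face changes only with the known face, value =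
  product of the faces off `dead`, small probability of `dead`;
* **`start_core`**, **`start_piece`** : `Start` from the faces of a piece: for every `c1` and every number of vertices `j` the dead probability is at
  most `exp (-H ^ c1)`, lists and coefficients at most `exp (H ^ c2)`, public sets at most `exp (exp (H ^ c2))`,
  `c2 = c1 + j + 10`.
-/

set_option autoImplicit false
set_option linter.unusedSectionVars false

namespace Pool.Agent.GMN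

open Finset Pool.Agent.PWZ Pool.Agent.M3 Pool.Agent.M3.TS Pool.Agent.GM

noncomputable section

variable {ι Om Ξ Pt V Γ κ : Type} [Fintype ι] [DecidableEq ι] [Fintype Om] [Fintype Ξ] [Fintype Pt]
  [Fintype V] {S : Sys ι Om Ξ Pt V Γ κ}

/-- THE START OF THE NAMES for the faces `F` -/
structure Start (S : Sys ι Om Ξ Pt V Γ κ) (a q δ : ι) (F : ι → Mov Ξ ι Pt Γ (V → ℝ)) {k : ℕ} (e : Fin k ↪ ι)
    (n B : ℕ) (A q0 : ℝ) (σ : NSt S a) (dead : ℕ → Om → Prop) : Prop where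
  bd : σ.Bd n B A dead
  on : σ.On dead
  shape : σ.Shape (shp e (Pool.GMN.Counter.start k))
  pu : ∀ u, u ≠ q → u ≠ δ → σ.pu u
  free : ∀ u, u ≠ δ → ∀ t g ξ ξ', (σ.Lam u).L t g ξ = (σ.Lam u).L t g ξ'
  freeZ : ∀ t g ξ ξ', σ.Z.L t g ξ = σ.Z.L t g ξ'
  /-- the lists of the hidden vertex are empty -/
  La : ∀ t g ξ x, (σ.Lam a).L t g ξ x = ∅
  /-- the list of the known face changes only with the known face -/
  chZ : ∀ t w, σ.Z.at' (t + 1) w ≠ σ.Z.at' t w → S.at' (F a) (t + 1) w ≠ S.at' (F a) t w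
  val : ∀ t w, ¬ dead t w → σ.T t w = iw (S.J t w) (fun d => ∏ i, S.at' (F i) t w d) (fun _ => 1)
  pr : S.P.Pr (dead S.n) ≤ q0

namespace Num19

theorem two_pow_le_exp (n : ℕ) : (2 : ℝ) ^ n ≤ Real.exp n := by
  have h1 : (2 : ℝ) ≤ Real.exp 1 := by
    have := Real.add_one_le_exp (1 : ℝ)
    linarith
  calc (2 : ℝ) ^ n ≤ Real.exp 1 ^ n := pow_le_pow_left₀ (by norm_num) h1 n
    _ = Real.exp n := by rw [← Real.exp_nat_mul, mul_one]

theorem succ_le_two_pow (n : ℕ) : n + 1 ≤ 2 ^ n := Nat.lt_two_pow_self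

/-- `(1/2)^k ≤ exp (-x) / 2 ^ j` if `2 x + j ≤ k` -/
theorem half_pow {x : ℝ} (hx : 0 ≤ x) {k j : ℕ} (h : 2 * x + j ≤ k) : (1 / 2 : ℝ) ^ k ≤ Real.exp (-x) * (1 / 2) ^ j := by
  have hjk : j ≤ k := by
    have : (j : ℝ) ≤ k := by linarith
    exact_mod_cast this
  obtain ⟨i, rfl⟩ := Nat.exists_eq_add_of_le hjk
  rw [pow_add, mul_comm]
  refine mul_le_mul_of_nonneg_right ?_ (by positivity)
  push_cast at h
  have h2 : 2 * x ≤ i := by linarith
  have h1 : (1 / 2 : ℝ) ≤ Real.exp (-(1 / 2 : ℝ)) := by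
    have := Real.add_one_le_exp (-(1 / 2 : ℝ))
    linarith
  calc (1 / 2 : ℝ) ^ i ≤ Real.exp (-(1 / 2 : ℝ)) ^ i := pow_le_pow_left₀ (by norm_num) h1 i
    _ = Real.exp (i * (-(1 / 2 : ℝ))) := by rw [← Real.exp_nat_mul]
    _ ≤ Real.exp (-x) := Real.exp_le_exp.2 (by linarith)

theorem nn_le (cap : ℕ) : InpD.nn Bool cap cap ≤ 2 ^ (2 * cap + 2) := by
  unfold InpD.nn
  rw [Fintype.card_bool]
  have h1 := succ_le_two_pow cap
  have h2 : 1 ≤ 2 ^ cap := Nat.one_le_two_pow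
  have h3 : 2 ^ (2 * cap + 2) = 4 * (2 ^ cap * 2 ^ cap) := by rw [pow_add, two_mul, pow_add]; ring
  rw [h3]
  nlinarith [Nat.mul_le_mul_right (2 ^ cap) h1]

theorem nb_le (cap b : ℕ) : InpD.nb Bool cap cap b ≤ 2 ^ (2 * cap + 2) * (b + 1) ^ cap := by
  unfold InpD.nb
  rw [Fintype.card_bool]
  have h1 := succ_le_two_pow cap
  have h2 : 1 ≤ 2 ^ cap := Nat.one_le_two_pow
  have h3 : 2 ^ (2 * cap + 2) = 4 * (2 ^ cap * 2 ^ cap) := by rw [pow_add, two_mul, pow_add]; ring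
  have h4 : 1 ≤ (b + 1) ^ cap := Nat.one_le_pow _ _ (Nat.succ_pos b)
  rw [h3]
  have h5 : (cap + 1) * (b + 1) ^ cap * 2 ^ cap ≤ 2 ^ cap * 2 ^ cap * (b + 1) ^ cap := by
    calc (cap + 1) * (b + 1) ^ cap * 2 ^ cap ≤ 2 ^ cap * (b + 1) ^ cap * 2 ^ cap :=
          Nat.mul_le_mul_right _ (Nat.mul_le_mul_right _ h1)
      _ = 2 ^ cap * 2 ^ cap * (b + 1) ^ cap := by ring
  have h6 : cap + 1 ≤ 2 ^ cap * 2 ^ cap * (b + 1) ^ cap := by
    calc cap + 1 ≤ 2 ^ cap := h1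
      _ ≤ 2 ^ cap * 2 ^ cap := Nat.le_mul_of_pos_right _ (by omega)
      _ ≤ _ := Nat.le_mul_of_pos_right _ (by omega)
  linarith

end Num19

namespace Num19

/-- the number of tests in the tail of the lists -/
def kk (H : ℝ) (c1 j : ℕ) : ℕ := ⌈2 * H ^ c1⌉₊ + j + 4

/-- the bound of the lists and of the numbers of versions -/
def cc (H : ℝ) (c1 j : ℕ) : ℕ := ⌈4 * H * kk H c1 j⌉₊

/-- the bound of the base sets of births -/
def bt (H T : ℝ) (c1 : ℕ) : ℕ := ⌈4 * T * Real.exp (H ^ c1)⌉₊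

variable {H T : ℝ} {c1 j : ℕ}

theorem one_le_pow_H (hH : 2 ≤ H) (n : ℕ) : 1 ≤ H ^ n := one_le_pow₀ (by linarith)

theorem kk_ge : 2 * H ^ c1 + ((j + 4 : ℕ) : ℝ) ≤ kk H c1 j := by
  unfold kk
  have h1 := Nat.le_ceil (2 * H ^ c1)
  push_cast
  linarith

theorem kk_le (hH : 2 ≤ H) : (kk H c1 j : ℝ) ≤ (7 + j) * H ^ c1 := by
  unfold kk
  have h1 := (Nat.ceil_lt_add_one (show (0 : ℝ) ≤ 2 * H ^ c1 by positivity)).le
  have h2 := one_le_pow_H hH c1
  have h3 : (0 : ℝ) ≤ j := Nat.cast_nonneg j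
  push_cast
  nlinarith

theorem cc_ge : (kk H c1 j : ℝ) * (4 * H) ≤ (cc H c1 j : ℝ) + 1 := by
  unfold cc
  have h1 := Nat.le_ceil (4 * H * kk H c1 j)
  linarith

/-- `2 cap + 2 ≤ H ^ (c1 + j + 8)` -/
theorem cc_le (hH : 2 ≤ H) : 2 * (cc H c1 j : ℝ) + 2 ≤ H ^ (c1 + j + 8) := by
  have h1 : (cc H c1 j : ℝ) ≤ 4 * H * kk H c1 j + 1 := by
    unfold cc
    exact (Nat.ceil_lt_add_one (by positivity)).le
  have h2 := kk_le (c1 := c1) (j := j) hH
  have h3 := one_le_pow_H hH c1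
  have h4 : (0 : ℝ) ≤ j := Nat.cast_nonneg j
  have h5 : 4 * H * kk H c1 j ≤ 4 * H * ((7 + j) * H ^ c1) := mul_le_mul_of_nonneg_left h2 (by linarith)
  have h6 : (1 : ℝ) ≤ H * H ^ c1 := by nlinarith
  have h7 : 2 * (cc H c1 j : ℝ) + 2 ≤ (60 + 8 * j) * (H * H ^ c1) := by nlinarith
  have h8 : (60 + 8 * (j : ℝ)) ≤ 2 ^ (j + 7) := by
    have h9 : (j : ℝ) + 1 ≤ 2 ^ j := by exact_mod_cast succ_le_two_pow j
    rw [pow_add]
    nlinarith
  have h10 : (2 : ℝ) ^ (j + 7) ≤ H ^ (j + 7) := pow_le_pow_left₀ (by norm_num) hH _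
  calc 2 * (cc H c1 j : ℝ) + 2 ≤ (60 + 8 * j) * (H * H ^ c1) := h7
    _ ≤ H ^ (j + 7) * (H * H ^ c1) := mul_le_mul_of_nonneg_right (h8.trans h10) (by linarith)
    _ = H ^ (c1 + j + 8) := by ring

/-- the bound for the numbers of elements of the lists -/
theorem nn_exp (hH : 2 ≤ H) : (InpD.nn Bool (cc H c1 j) (cc H c1 j) : ℝ) ≤ Real.exp (H ^ (c1 + j + 8)) := by
  have h1 : (InpD.nn Bool (cc H c1 j) (cc H c1 j) : ℝ) ≤ 2 ^ (2 * cc H c1 j + 2) := by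
    exact_mod_cast nn_le (cc H c1 j)
  refine h1.trans ((two_pow_le_exp _).trans (Real.exp_le_exp.2 ?_))
  push_cast
  exact cc_le hH

theorem two_pow_cc (hH : 2 ≤ H) : (2 : ℝ) ^ cc H c1 j ≤ Real.exp (H ^ (c1 + j + 8)) := by
  refine (two_pow_le_exp _).trans (Real.exp_le_exp.2 ?_)
  have h1 := cc_le (c1 := c1) (j := j) hH
  have h2 : (0 : ℝ) ≤ cc H c1 j := Nat.cast_nonneg _
  linarith

/-- `log (b + 1)` -/
theorem bt_le (hH : 2 ≤ H) {κ Λ : ℝ} (hκ : κ ≤ 1) (hΛ0 : 0 ≤ Λ) (hΛ : Λ ≤ Real.exp H) (hT0 : 0 ≤ T)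
    (hT : T ≤ H * Real.exp ((1 + κ) * Λ)) :
    ((bt H T c1 : ℝ) + 1) ≤ Real.exp (2 * Real.exp H + H + H ^ c1 + 3) := by
  have h1 : (bt H T c1 : ℝ) ≤ 4 * T * Real.exp (H ^ c1) + 1 := by
    unfold bt
    exact (Nat.ceil_lt_add_one (by positivity)).le
  have h2 : (1 + κ) * Λ ≤ 2 * Real.exp H := by
    have h3 : (1 + κ) * Λ ≤ 2 * Λ := by nlinarith
    linarith
  have h4 : T ≤ Real.exp H * Real.exp (2 * Real.exp H) := by
    refine hT.trans (mul_le_mul ?_ (Real.exp_le_exp.2 h2) (Real.exp_pos _).le (Real.exp_pos _).le)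
    have := Real.add_one_le_exp H
    linarith
  have h5 : 4 * T * Real.exp (H ^ c1) + 2 ≤ 6 * Real.exp (2 * Real.exp H + H + H ^ c1) := by
    have h6 : Real.exp (2 * Real.exp H + H + H ^ c1) = Real.exp H * Real.exp (2 * Real.exp H) * Real.exp (H ^ c1) := by
      rw [← Real.exp_add, ← Real.exp_add]
      congr 1
      ring
    have h7 : 4 * T * Real.exp (H ^ c1) ≤ 4 * (Real.exp H * Real.exp (2 * Real.exp H)) * Real.exp (H ^ c1) :=
      mul_le_mul_of_nonneg_right (by linarith) (Real.exp_pos _).le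
    have h8 : 1 ≤ Real.exp (2 * Real.exp H + H + H ^ c1) := by
      rw [← Real.exp_zero]
      refine Real.exp_le_exp.2 ?_
      have h9 := (Real.exp_pos H).le
      have h10 := one_le_pow_H hH c1
      linarith
    rw [h6] at h8 ⊢
    linarith
  have h6 : (6 : ℝ) ≤ Real.exp 3 := by
    have h7 := two_pow_le_exp 3
    have h8 : (2 : ℝ) ^ 3 = 8 := by norm_num
    rw [h8] at h7
    push_cast at h7
    linarith
  have h7 : Real.exp (2 * Real.exp H + H + H ^ c1 + 3) = Real.exp (2 * Real.exp H + H + H ^ c1) * Real.exp 3 :=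
    Real.exp_add _ _
  rw [h7]
  have h8 := (Real.exp_pos (2 * Real.exp H + H + H ^ c1)).le
  nlinarith

/-- the bound for the public sets -/
theorem nb_exp (hH : 2 ≤ H) {κ Λ : ℝ} (hκ : κ ≤ 1) (hΛ0 : 0 ≤ Λ) (hΛ : Λ ≤ Real.exp H) (hT0 : 0 ≤ T)
    (hT : T ≤ H * Real.exp ((1 + κ) * Λ)) :
    (InpD.nb Bool (cc H c1 j) (cc H c1 j) (bt H T c1) : ℝ) ≤ Real.exp (Real.exp (H ^ (c1 + j + 10))) := by
  have h1 : (InpD.nb Bool (cc H c1 j) (cc H c1 j) (bt H T c1) : ℝ) ≤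
      2 ^ (2 * cc H c1 j + 2) * ((bt H T c1 : ℝ) + 1) ^ cc H c1 j := by
    exact_mod_cast nb_le (cc H c1 j) (bt H T c1)
  set E : ℝ := 2 * Real.exp H + H + H ^ c1 + 3 with hE
  have h2 : ((bt H T c1 : ℝ) + 1) ^ cc H c1 j ≤ Real.exp (cc H c1 j * E) := by
    rw [Real.exp_nat_mul]
    exact pow_le_pow_left₀ (by positivity) (bt_le hH hκ hΛ0 hΛ hT0 hT) _
  have h3 : (2 : ℝ) ^ (2 * cc H c1 j + 2) ≤ Real.exp (2 * cc H c1 j + 2) := by
    have := two_pow_le_exp (2 * cc H c1 j + 2)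
    push_cast at this
    exact this
  refine h1.trans ((mul_le_mul h3 h2 (by positivity) (Real.exp_pos _).le).trans ?_)
  rw [← Real.exp_add]
  refine Real.exp_le_exp.2 ?_
  have h4 := cc_le (c1 := c1) (j := j) hH
  have h5 : (0 : ℝ) ≤ cc H c1 j := Nat.cast_nonneg _
  have hH1 : 1 ≤ H ^ (c1 + j + 8) := one_le_pow_H hH _
  -- E ≤ exp (H ^ (c1 + j + 8) + 3)
  have h6 : H ≤ H ^ (c1 + j + 8) := by
    calc H = H ^ 1 := (pow_one H).symm
      _ ≤ _ := pow_le_pow_right₀ (by linarith) (by omega)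
  have h7 : H ^ c1 ≤ H ^ (c1 + j + 8) := pow_le_pow_right₀ (by linarith) (by omega)
  have h8 : Real.exp H ≤ Real.exp (H ^ (c1 + j + 8)) := Real.exp_le_exp.2 h6
  have h9 : H ^ (c1 + j + 8) + 1 ≤ Real.exp (H ^ (c1 + j + 8)) := Real.add_one_le_exp _
  have h10 : E + 1 ≤ 8 * Real.exp (H ^ (c1 + j + 8)) := by
    rw [hE]
    linarith
  have h11 : (8 : ℝ) ≤ Real.exp 3 := by
    have h12 := two_pow_le_exp 3
    have h13 : (2 : ℝ) ^ 3 = 8 := by norm_num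
    rw [h13] at h12
    push_cast at h12
    exact h12
  have h14 : 2 * (cc H c1 j : ℝ) + 2 + cc H c1 j * E ≤ Real.exp (H ^ (c1 + j + 8)) * (8 * Real.exp (H ^ (c1 + j + 8))) := by
    have h15 : 0 ≤ E := by
      rw [hE]
      have := (Real.exp_pos H).le
      have := one_le_pow_H hH c1
      linarith
    have h16 : 2 * (cc H c1 j : ℝ) + 2 + cc H c1 j * E ≤ (2 * cc H c1 j + 2) * (E + 1) := by nlinarith
    refine h16.trans (mul_le_mul (by linarith) h10 (by linarith) (Real.exp_pos _).le)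
  refine h14.trans ?_
  have h17 : Real.exp (H ^ (c1 + j + 8)) * (8 * Real.exp (H ^ (c1 + j + 8))) ≤
      Real.exp (H ^ (c1 + j + 8)) * (Real.exp 3 * Real.exp (H ^ (c1 + j + 8))) :=
    mul_le_mul_of_nonneg_left (mul_le_mul_of_nonneg_right h11 (Real.exp_pos _).le) (Real.exp_pos _).le
  refine h17.trans ?_
  rw [← Real.exp_add, ← Real.exp_add]
  refine Real.exp_le_exp.2 ?_
  have h18 : H ^ (c1 + j + 10) = H ^ (c1 + j + 8) * H ^ 2 := by ring
  have h19 : 4 ≤ H ^ 2 := by nlinarith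
  have h20 : (2 : ℝ) ≤ H ^ (c1 + j + 8) := hH.trans h6
  rw [h18]
  nlinarith

/-- the dead probability -/
theorem dead_exp (hH : 2 ≤ H) :
    ((j : ℝ) + 1) * (1 / 2) ^ kk H c1 j + 2 * T / ((bt H T c1 : ℝ) + 1) ≤ Real.exp (-H ^ c1) := by
  have h1 := half_pow (x := H ^ c1) (by positivity) (kk_ge (H := H) (c1 := c1) (j := j))
  have h2 : ((j : ℝ) + 1) * (1 / 2) ^ (j + 4) ≤ 1 / 16 := by
    have h3 : (j : ℝ) + 1 ≤ 2 ^ j := by exact_mod_cast succ_le_two_pow j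
    have h4 : ((1 : ℝ) / 2) ^ (j + 4) = (2 ^ j)⁻¹ * (1 / 16) := by
      rw [pow_add, one_div, inv_pow]
      norm_num
    rw [h4, ← mul_assoc]
    have h5 : ((j : ℝ) + 1) * (2 ^ j)⁻¹ ≤ 1 := by
      rw [← div_eq_mul_inv, div_le_one (by positivity)]
      exact h3
    nlinarith
  have h3 : ((j : ℝ) + 1) * (1 / 2) ^ kk H c1 j ≤ 1 / 16 * Real.exp (-H ^ c1) := by
    calc ((j : ℝ) + 1) * (1 / 2) ^ kk H c1 j ≤ (j + 1) * (Real.exp (-H ^ c1) * (1 / 2) ^ (j + 4)) :=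
          mul_le_mul_of_nonneg_left h1 (by positivity)
      _ = ((j + 1) * (1 / 2) ^ (j + 4)) * Real.exp (-H ^ c1) := by ring
      _ ≤ 1 / 16 * Real.exp (-H ^ c1) := mul_le_mul_of_nonneg_right h2 (Real.exp_pos _).le
  have h4 : 2 * T / ((bt H T c1 : ℝ) + 1) ≤ 1 / 2 * Real.exp (-H ^ c1) := by
    have h5 : 4 * T * Real.exp (H ^ c1) ≤ (bt H T c1 : ℝ) + 1 := by
      unfold bt
      have := Nat.le_ceil (4 * T * Real.exp (H ^ c1))
      linarith
    rw [div_le_iff₀ (by positivity)]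
    have h6 : Real.exp (-H ^ c1) * Real.exp (H ^ c1) = 1 := by
      rw [← Real.exp_add]
      simp
    have h7 : 1 / 2 * Real.exp (-H ^ c1) * (4 * T * Real.exp (H ^ c1)) = 2 * T := by
      calc 1 / 2 * Real.exp (-H ^ c1) * (4 * T * Real.exp (H ^ c1)) =
          2 * T * (Real.exp (-H ^ c1) * Real.exp (H ^ c1)) := by ring
        _ = 2 * T := by rw [h6, mul_one]
    rw [← h7]
    exact mul_le_mul_of_nonneg_left h5 (by positivity)
  have h5 := (Real.exp_pos (-H ^ c1)).le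
  linarith

end Num19

/-! ### the start from a piece -/

instance countable_Birth {τ : Type} [Countable τ] : Countable (Birth τ) := by
  have h : Function.Injective (fun b : Birth τ => (b.t, b.k, b.τ)) := by
    rintro ⟨a, b, c⟩ ⟨a', b', c'⟩ h
    simp only [Prod.mk.injEq] at h
    obtain ⟨rfl, rfl, rfl⟩ := h
    rfl
  exact h.countable

theorem countable_Bth (q : ι) [Finite Pt] [Finite V] : Countable (Bth ι Pt V q) := by
  have : Finite (Mv.TJs Pt V (univ : Finset ι) q) := by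
    unfold Mv.TJs Mv.TY Mv.TK
    infer_instance
  infer_instance

/-- the start of the names, minimal hypotheses -/
theorem start_core [Countable Γ] [Countable κ] {a q δ : ι} {F : ι → Mov Ξ ι Pt Γ (V → ℝ)} {H M κ' Λ T : ℝ}
    (hqa : q ≠ a) (hda : δ ≠ a) (hH : 2 ≤ H) (hκ : κ' ≤ 1) (hΛ0 : 0 ≤ Λ) (hΛ : Λ ≤ Real.exp H)
    (hT : T ≤ H * Real.exp ((1 + κ') * Λ)) (hd : ∀ u t g ξ, Dep (univ.erase u) (F u t g ξ))
    (hc : ∀ u, u ≠ δ → ∀ t g ξ ξ', F u t g ξ = F u t g ξ') (hb : ∀ u t g ξ x d, |F u t g ξ x d| ≤ 1)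
    (h0 : ∀ u g ξ x, F u 0 g ξ x = 0) (htl : ∀ u, S.MvTail (F u) (4 * H))
    (D : GS.StrT S univ δ q (F q) (4 * H) M T) {k : ℕ} (e : Fin k ↪ ι) (he : ∀ u, u ≠ a ↔ ∃ i, e i = u)
    (heq : ∀ i, e i = q ↔ (i : ℕ) = 0) (c1 : ℕ) :
    ∃ (n B : ℕ) (A : ℝ) (σ : NSt S a) (dead : ℕ → Om → Prop), Start S a q δ F e n B A (Real.exp (-H ^ c1)) σ dead ∧
      (n : ℝ) ≤ Real.exp (H ^ (c1 + Fintype.card ι + 10)) ∧ A ≤ Real.exp (H ^ (c1 + Fintype.card ι + 10)) ∧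
      (B : ℝ) ≤ Real.exp (Real.exp (H ^ (c1 + Fintype.card ι + 10))) := by
  have hct : Countable (Bth ι Pt V q) := countable_Bth q
  have hT0 : 0 ≤ T := le_trans (S.P.E_nonneg fun w _ => Finset.sum_nonneg fun t _ => Nat.cast_nonneg _) D.b0.pub
  set I := InpD.ofPiece hqa hda hd hc hb D with hI
  set cap := Num19.cc H c1 (Fintype.card ι) with hcap
  set b := Num19.bt H T c1 with hbt
  have hexp : Real.exp (H ^ (c1 + Fintype.card ι + 8)) ≤ Real.exp (H ^ (c1 + Fintype.card ι + 10)) :=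
    Real.exp_le_exp.2 (pow_le_pow_right₀ (by linarith) (by omega))
  refine ⟨InpD.nn Bool cap cap, InpD.nb Bool cap cap b, I.aa cap, I.st0 cap cap, I.dead cap cap b, ?_,
    (Num19.nn_exp hH).trans hexp, ?_, Num19.nb_exp hH hκ hΛ0 hΛ hT0 hT⟩
  · refine ⟨I.st0_Bd b, I.st0_On b, I.st0_shape e he heq, fun u h1 h2 => I.st0_pu h1 h2, fun u hu t g ξ ξ' =>
      I.st0_free (fun hq y t g ξ ξ' => SF.ofStr_free D hq y t g ξ ξ') hu t g ξ ξ', fun t g ξ ξ' => rfl, I.st0_La, ?_, ?_, ?_⟩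
    · intro t w hch h1
      refine hch ?_
      show vLs S (I.Gc a I.xz) (t + 1) (S.gm (t + 1) w) (S.x w) = vLs S (I.Gc a I.xz) t (S.gm t w) (S.x w)
      rw [I.Gc_free I.da.symm I.xz (S.xi w)]
      have e1 : gd (I.Gc a (S.xi w)) (t + 1) (S.gm (t + 1) w) (S.x w) =
          gd (I.Gc a (S.xi w)) t (S.par t (S.gm (t + 1) w)) (S.x w) := by
        rw [hI, InpD.gd_Gc hqa hda hd hc hb D h0, InpD.gd_Gc hqa hda hd hc hb D h0, S.par_gm]
        exact h1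
      have e2 : vc S (I.Gc a (S.xi w)) (t + 1) (S.gm (t + 1) w) (S.x w) =
          vc S (I.Gc a (S.xi w)) t (S.gm t w) (S.x w) := by
        show vc S (I.Gc a (S.xi w)) t (S.par t (S.gm (t + 1) w)) (S.x w) + _ = _
        rw [if_pos e1, add_zero, S.par_gm]
      unfold vLs
      rw [e2]
    · intro t w hdead
      rw [I.T_eq (I.live_l hdead)]
      congr 1
      funext d
      exact InpD.ofPiece_F hqa hda hd hc hb D h0 t (S.gm t w) (S.xi w) (S.x w) d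
    · refine (InpD.Pr_deadP hqa hda hd hc hb D h0 (k := Num19.kk H c1 (Fintype.card ι))
        (fun u _ => htl u) Num19.cc_ge Num19.cc_ge le_rfl).trans ?_
      exact Num19.dead_exp hH
  · show (1 : ℝ) ^ (Fintype.card ι - 1) * ((∑ y : Bool, |if y then (1 / 4 : ℝ) else -(1 / 4)|) * 2 ^ cap) ≤ _
    rw [one_pow, one_mul, Fintype.sum_bool]
    have h1 : |(if true then (1 / 4 : ℝ) else -(1 / 4))| + |(if false then (1 / 4 : ℝ) else -(1 / 4))| = 1 / 2 := by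
      norm_num
    have h2 : (|(if (true = true) then (1 / 4 : ℝ) else -(1 / 4))| +
        |(if (false = true) then (1 / 4 : ℝ) else -(1 / 4))|) * 2 ^ cap ≤ 2 ^ cap := by
      have h3 : (0 : ℝ) < 2 ^ cap := by positivity
      norm_num
    exact h2.trans ((Num19.two_pow_cc hH).trans hexp)

/-- **THE START OF THE NAMES FROM A PIECE** -/
theorem start_piece [Countable Γ] [Countable κ] {a q δ : ι} {F : ι → Mov Ξ ι Pt Γ (V → ℝ)} {H M κ' Λ T θ acc : ℝ}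
    (hqa : q ≠ a) (hda : δ ≠ a) (hH : 2 ≤ H) (hκ : κ' ≤ 1) (hΛ0 : 0 ≤ Λ) (hΛ : Λ ≤ Real.exp H)
    (hT : T ≤ H * Real.exp ((1 + κ') * Λ)) (hF : GS.FacesT S univ δ F (4 * H) M θ acc)
    (D : GS.StrT S univ δ q (F q) (4 * H) M T) {k : ℕ} (e : Fin k ↪ ι) (he : ∀ u, u ≠ a ↔ ∃ i, e i = u)
    (heq : ∀ i, e i = q ↔ (i : ℕ) = 0) (c1 : ℕ) :
    ∃ (n B : ℕ) (A : ℝ) (σ : NSt S a) (dead : ℕ → Om → Prop), Start S a q δ F e n B A (Real.exp (-H ^ c1)) σ dead ∧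
      (n : ℝ) ≤ Real.exp (H ^ (c1 + Fintype.card ι + 10)) ∧ A ≤ Real.exp (H ^ (c1 + Fintype.card ι + 10)) ∧
      (B : ℝ) ≤ Real.exp (Real.exp (H ^ (c1 + Fintype.card ι + 10))) :=
  start_core hqa hda hH hκ hΛ0 hΛ hT (fun u => hF.dep u (mem_univ u)) (fun u => hF.coin u (mem_univ u))
    (fun u => hF.bd u (mem_univ u)) (fun u => hF.zero u (mem_univ u)) (fun u => hF.tail u (mem_univ u)) D e he heq c1

end

end Pool.Agent.GMN
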