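import Pool.Agent.GMN.StepInp
import Pool.Agent.GMN.Assem

/-!
# GMN/JRDef (helper25): the record lemma for a class of systems, constant `C`

`JRAt G C` : for every system of the class, every step `D` with lists of at most `Y`, box sets of at most `exp Y` elements,
`M ≤ exp Y` ranks, probability `q ≥ 1 / X`, coefficient `cf ≥ 1 / Y` there is an output `RecOut` of the record lemma with at
most `Y ^ C` records and box sets of at most `exp (Y ^ C)` elements.
-/

set_option autoImplicit false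
set_option linter.unusedSectionVars false

namespace Pool.Agent.GMN

open Finset Pool.Agent.PWZ Pool.Agent.M3 Pool.Agent.M3.TS Pool.Agent.GM

noncomputable section

/-- **RECORD LEMMA** for the class `G`, constant `C` -/
def JRAt {ι : Type} [Fintype ι] [DecidableEq ι] (G : SysCls ι) (C : ℕ) : Prop :=
  ∀ (Om Ξ Pt V Γ κ β : Type) [Fintype Om] [Fintype Ξ] [Fintype Pt] [Fintype V] [Fintype β]
    (S : Sys ι Om Ξ Pt V Γ κ) (X Y q cf : ℝ), 2 ≤ X → X ≤ Y → Y ≤ Real.exp X → 1 / X ≤ q → q ≤ 1 → 1 / Y ≤ cf →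
      cf ≤ 1 → G.G S X Y C →
    ∀ (D : StepIn S β) (n B M : ℕ), D.Bd n B → (n : ℝ) ≤ Y → (B : ℝ) ≤ Real.exp Y → 0 < M → (M : ℝ) ≤ Real.exp Y →
      D.L.card + 2 ≤ Fintype.card ι - 1 →
    ∃ (Ξ2 : Type) (_ : Fintype Ξ2) (_ : Nonempty Ξ2) (n' B' : ℕ),
      Nonempty (RecOut D M Ξ2 n' B' q cf) ∧ (n' : ℝ) ≤ Y ^ C ∧ (B' : ℝ) ≤ Real.exp (Y ^ C)

end

end Pool.Agent.GMN
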