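import Pool.Agent.GMN.Run

/-!
# GMN.JRone (row N, 4.1): the record lemma `JR_1`, abstract form

`P` = law of the hidden vertex and the free path given everything else at the start of the client, `K` = node
filtration, `mem i w n` = the hidden vertex has the reference `n` at time `i` (cumulative), `Z` = running maximum of
`P(mem i . n | K i)`.  `n` is allowed in the world `f : R → ℕ` iff `(1/2) ^ (f n) ≤ Rr * Z` (`f n` = coin).
`y` FAILS for `n`: `n` is true for `y` at a micro moment which is critical for `n`.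

`jr_one`: if the runs make at most `Mu` uses in mean and the stretches `ON and not allowed` of every reference end at
most `Nv` times in mean from every state, then the probability that `y` fails for some `n` is at most
`12 (Nv + 1) Mu / Rr`: no number of references, no number of levels.
-/

set_option autoImplicit false
set_option linter.unusedSectionVars false

namespace Pool.Agent.GMN

open Finset Pool.Agent.PWZ Pool.Agent.M3

noncomputable section

variable {Om R S : Type*} [Fintype Om] [Fintype R] [LinearOrder R] {κ : ℕ → Type*}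

/-- conditional density -/
def Dn (P : FP Om) (K : ∀ t, Om → κ t) (mem : ℕ → Om → R → Prop) (i : ℕ) (n : R) (w : Om) : ℝ :=
  P.ce (K i) (fun v => ind (mem i v n)) w

/-- running maximum -/
def Zn (P : FP Om) (K : ∀ t, Om → κ t) (mem : ℕ → Om → R → Prop) : ℕ → R → Om → ℝ
  | 0 => fun n w => Dn P K mem 0 n w
  | i + 1 => fun n w => max (Zn P K mem i n w) (Dn P K mem (i + 1) n w)

/-- recorded at coin level `k` -/
def rc (P : FP Om) (K : ∀ t, Om → κ t) (mem : ℕ → Om → R → Prop) (Rr : ℝ) (k i : ℕ) (n : R) (w : Om) : Prop :=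
  (1 / 2 : ℝ) ^ k ≤ Rr * Zn P K mem i n w

/-- allowed sets in the world `f` -/
def Aw (P : FP Om) (K : ∀ t, Om → κ t) (mem : ℕ → Om → R → Prop) (Rr : ℝ) (f : R → ℕ) (i : ℕ) (w : Om) (n : R) :
    Prop := rc P K mem Rr (f n) i n w

/-- `y` fails for `n` -/
def FailAt (P : FP Om) (K : ∀ t, Om → κ t) (mem : ℕ → Om → R → Prop) (Rr : ℝ) (M : Om → Mach R S) (N T : ℕ)
    (f : R → ℕ) (n : R) (w : Om) : Prop :=
  ∃ i ≤ T, ∃ l ≤ N, (M w).Crit (fun j => Aw P K mem Rr f j w) N n i l ∧ mem i w n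

/-- `n` is ON and not allowed at the end of time `i` -/
def Ge (P : FP Om) (K : ∀ t, Om → κ t) (mem : ℕ → Om → R → Prop) (Rr : ℝ) (M : Om → Mach R S) (N : ℕ)
    (f : R → ℕ) (n : R) (i : ℕ) (w : Om) : Prop :=
  (M w).oa (fun j => Aw P K mem Rr f j w) N n i N

/-- a stretch of `n` ends at time `t` -/
def EndAt (P : FP Om) (K : ∀ t, Om → κ t) (mem : ℕ → Om → R → Prop) (Rr : ℝ) (M : Om → Mach R S) (N : ℕ)
    (f : R → ℕ) (n : R) (t : ℕ) (w : Om) : Prop :=
  ¬ Ge P K mem Rr M N f n t w ∧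
    ((∃ j, j + 1 = t ∧ Ge P K mem Rr M N f n j w) ∨ ∃ l ≤ N, (M w).oa (fun j => Aw P K mem Rr f j w) N n t l)

/-- number of uses -/
def nUse (P : FP Om) (K : ∀ t, Om → κ t) (mem : ℕ → Om → R → Prop) (Rr : ℝ) (M : Om → Mach R S) (N T : ℕ)
    (f : R → ℕ) (w : Om) : ℝ :=
  ∑ i ∈ range (T + 1), ∑ l ∈ range N, ind ((M w).pk (fun j => Aw P K mem Rr f j w) N i l ≠ none)

/-- the hypotheses of `JR_1` -/
structure JROne (P : FP Om) (K : ∀ t, Om → κ t) (mem : ℕ → Om → R → Prop) (Rr : ℝ) (M : Om → Mach R S) (N T g : ℕ)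
    (Mu Nv : ℝ) : Prop where
  R0 : 0 < Rr
  filt : Filt K
  mfac : MFac K M
  mono : ∀ i w n, mem i w n → mem (i + 1) w n
  dbl : ∀ i w, P.p w ≠ 0 → ∀ s : Om → Prop,
    P.ce (K (i + 1)) (fun v => ind (s v)) w ≤ 2 * P.ce (K i) (fun v => ind (s v)) w
  low : ∀ w, P.p w ≠ 0 → (1 / 2 : ℝ) ^ g ≤ Rr * P.p w
  term : ∀ f : R → ℕ, ∀ w, P.p w ≠ 0 → ∀ i ≤ T, (M w).pk (fun j => Aw P K mem Rr f j w) N i N = none
  use : ∀ f : R → ℕ, P.E (nUse P K mem Rr M N T f) ≤ Mu
  Nv0 : 0 ≤ Nv
  ends : ∀ (f : R → ℕ) (n : R), ∀ i ≤ T, ∀ F : Om → Prop, (∀ v w, K i v = K i w → (F v ↔ F w)) →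
    ∑ t ∈ Icc i T, P.Pr (fun w => F w ∧ EndAt P K mem Rr M N f n t w) ≤ Nv * P.Pr F

variable {P : FP Om} {K : ∀ t, Om → κ t} {mem : ℕ → Om → R → Prop} {Rr : ℝ} {M : Om → Mach R S} {N T g : ℕ}
  {Mu Nv : ℝ}

theorem Dn_fac (i : ℕ) (n : R) : Fac (K i) (Dn P K mem i n) := P.ce_fac _ _

theorem Dn_nonneg (i : ℕ) (n : R) (w : Om) : 0 ≤ Dn P K mem i n w := P.ce_nonneg (fun _ _ => ind_nonneg _) w

theorem Zn_fac (hK : Filt K) (i : ℕ) (n : R) : Fac (K i) (Zn P K mem i n) := by
  induction i with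
  | zero => exact Dn_fac 0 n
  | succ i ih =>
    intro v w h
    show max (Zn P K mem i n v) (Dn P K mem (i + 1) n v) = max (Zn P K mem i n w) (Dn P K mem (i + 1) n w)
    rw [ih v w (hK i v w h), Dn_fac (i + 1) n v w h]

theorem Dn_le_Zn (i : ℕ) (n : R) (w : Om) : Dn P K mem i n w ≤ Zn P K mem i n w := by
  cases i with
  | zero => exact le_rfl
  | succ i => exact le_max_right _ _

theorem Zn_mono {i j : ℕ} (h : i ≤ j) (n : R) (w : Om) : Zn P K mem i n w ≤ Zn P K mem j n w := by
  induction j, h using Nat.le_induction with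
  | base => exact le_rfl
  | succ j _ ih => exact ih.trans (le_max_left _ _)

theorem Zn_nonneg (i : ℕ) (n : R) (w : Om) : 0 ≤ Zn P K mem i n w := (Dn_nonneg i n w).trans (Dn_le_Zn i n w)

theorem rc_fac (hK : Filt K) (k i : ℕ) (n : R) : ∀ v w, K i v = K i w →
    (rc P K mem Rr k i n v ↔ rc P K mem Rr k i n w) := by
  intro v w h
  unfold rc
  rw [Zn_fac hK i n v w h]

theorem Aw_fac (hK : Filt K) (f : R → ℕ) (i : ℕ) : Fac (K i) (Aw P K mem Rr f i) := by
  intro v w h
  funext n
  exact propext (rc_fac hK (f n) i n v w h)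

theorem rc_mono (hR : 0 ≤ Rr) {k i j : ℕ} (h : i ≤ j) {n : R} {w : Om} (hr : rc P K mem Rr k i n w) :
    rc P K mem Rr k j n w := hr.trans (mul_le_mul_of_nonneg_left (Zn_mono h n w) hR)

theorem rc_level {k l i : ℕ} (h : k ≤ l) {n : R} {w : Om} (hr : rc P K mem Rr k i n w) :
    rc P K mem Rr l i n w :=
  (pow_le_pow_of_le_one (by norm_num) (by norm_num) h).trans hr

/-- the box of `Z` -/
def Bxc (P : FP Om) (K : ∀ t, Om → κ t) (mem : ℕ → Om → R → Prop) (Rr : ℝ) (k i : ℕ) (n : R) (w : Om) : Prop :=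
  (1 / 2 : ℝ) ^ k ≤ Rr * Zn P K mem i n w ∧ Rr * Zn P K mem i n w < 2 * (1 / 2 : ℝ) ^ k

/-- critical moment in box `k` up to time `t` -/
def Ev (P : FP Om) (K : ∀ t, Om → κ t) (mem : ℕ → Om → R → Prop) (Rr : ℝ) (M : Om → Mach R S) (N : ℕ)
    (f : R → ℕ) (n : R) (k t : ℕ) (w : Om) : Prop :=
  ∃ i ≤ t, ∃ l ≤ N, (M w).Crit (fun j => Aw P K mem Rr f j w) N n i l ∧ Bxc P K mem Rr k i n w

theorem Box_fac (hK : Filt K) (k i : ℕ) (n : R) : ∀ v w, K i v = K i w →
    (Bxc P K mem Rr k i n v ↔ Bxc P K mem Rr k i n w) := by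
  intro v w h
  unfold Bxc
  rw [Zn_fac hK i n v w h]

namespace JROne

variable (H : JROne P K mem Rr M N T g Mu Nv)
include H

theorem mem_mono {i j : ℕ} (h : i ≤ j) {w : Om} {n : R} (hm : mem i w n) : mem j w n := by
  induction j, h using Nat.le_induction with
  | base => exact hm
  | succ j _ ih => exact H.mono j w n ih

theorem crit_fac (f : R → ℕ) (n : R) (i l : ℕ) : ∀ v w, K i v = K i w →
    ((M v).Crit (fun j => Aw P K mem Rr f j v) N n i l ↔ (M w).Crit (fun j => Aw P K mem Rr f j w) N n i l) :=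
  GMN.crit_fac H.filt H.mfac (fun i => Aw_fac H.filt f i) n i l

theorem oa_fac (f : R → ℕ) (n : R) (i l : ℕ) : ∀ v w, K i v = K i w →
    ((M v).oa (fun j => Aw P K mem Rr f j v) N n i l ↔ (M w).oa (fun j => Aw P K mem Rr f j w) N n i l) :=
  GMN.oa_fac H.filt H.mfac (fun i => Aw_fac H.filt f i) n i l

theorem Ge_fac (f : R → ℕ) (n : R) {i j : ℕ} (hij : i ≤ j) : ∀ v w, K j v = K j w →
    (Ge P K mem Rr M N f n i v ↔ Ge P K mem Rr M N f n i w) := fun v w h =>
  H.oa_fac f n i N v w (H.filt.le hij v w h)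

theorem EndAt_fac (f : R → ℕ) (n : R) (t : ℕ) : ∀ v w, K t v = K t w →
    (EndAt P K mem Rr M N f n t v ↔ EndAt P K mem Rr M N f n t w) := by
  intro v w h
  unfold EndAt
  refine and_congr (not_congr (H.Ge_fac f n le_rfl v w h)) (or_congr ?_ ?_)
  · constructor
    · rintro ⟨j, hj, hg⟩; exact ⟨j, hj, (H.Ge_fac f n (by omega) v w h).1 hg⟩
    · rintro ⟨j, hj, hg⟩; exact ⟨j, hj, (H.Ge_fac f n (by omega) v w h).2 hg⟩
  · constructor
    · rintro ⟨l, hl, hg⟩; exact ⟨l, hl, (H.oa_fac f n t l v w h).1 hg⟩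
    · rintro ⟨l, hl, hg⟩; exact ⟨l, hl, (H.oa_fac f n t l v w h).2 hg⟩

theorem Ev_fac (f : R → ℕ) (n : R) (k t : ℕ) : ∀ v w, K t v = K t w →
    (Ev P K mem Rr M N f n k t v ↔ Ev P K mem Rr M N f n k t w) := by
  intro v w h
  unfold Ev
  constructor
  · rintro ⟨i, hi, l, hl, hc, hb⟩
    have h' := H.filt.le hi v w h
    exact ⟨i, hi, l, hl, (H.crit_fac f n i l v w h').1 hc, (Box_fac H.filt k i n v w h').1 hb⟩
  · rintro ⟨i, hi, l, hl, hc, hb⟩
    have h' := H.filt.le hi v w h
    exact ⟨i, hi, l, hl, (H.crit_fac f n i l v w h').2 hc, (Box_fac H.filt k i n v w h').2 hb⟩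

/-- a critical moment in box `k` of the world `f n = 0` forces a use in the world `f n = k` -/
theorem used_of_ev {f : R → ℕ} {n : R} (hf : f n = 0) {k : ℕ} {w : Om} (hw : P.p w ≠ 0)
    (he : Ev P K mem Rr M N f n k T w) :
    (M w).Used (fun j => Aw P K mem Rr (Function.update f n k) j w) N T n := by
  obtain ⟨i, hi, l, hl, hc, hb⟩ := he
  have h1 : ∀ i r, Aw P K mem Rr f i w r → Aw P K mem Rr (Function.update f n k) i w r := by
    intro i r hr
    unfold Aw at *
    rcases eq_or_ne r n with e | e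
    · subst e
      rw [Function.update_self]
      rw [hf] at hr
      exact rc_level (Nat.zero_le k) hr
    · rwa [Function.update_of_ne e]
  have h2 : ∀ i r, r ≠ n → Aw P K mem Rr (Function.update f n k) i w r → Aw P K mem Rr f i w r := by
    intro i r e hr
    unfold Aw at *
    rwa [Function.update_of_ne e] at hr
  have hA : Aw P K mem Rr (Function.update f n k) i w n := by
    unfold Aw
    rw [Function.update_self]
    exact hb.1
  obtain ⟨j, hj, q, hq, hp⟩ := Mach.used_of_crit (M := M w) h1 h2 (fun i hi => H.term _ w hw i hi) hi hl hc hA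
  exact ⟨j, hj.trans hi, q, hq, hp⟩

/-- sum over the references used -/
theorem sum_used (f : R → ℕ) :
    ∑ n, P.Pr (fun w => (M w).Used (fun j => Aw P K mem Rr f j w) N T n) ≤ Mu := by
  refine le_trans ?_ (H.use f)
  unfold FP.Pr
  rw [← P.E_sum]
  refine P.E_mono fun w _ => ?_
  unfold nUse
  have h1 : ∀ n : R, ind ((M w).Used (fun j => Aw P K mem Rr f j w) N T n) ≤
      ∑ i ∈ range (T + 1), ∑ l ∈ range N, ind ((M w).pk (fun j => Aw P K mem Rr f j w) N i l = some n) := by
    intro n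
    by_cases hu : (M w).Used (fun j => Aw P K mem Rr f j w) N T n
    · rw [ind_of hu]
      obtain ⟨i, hi, l, hl, hp⟩ := hu
      have hb : ind ((M w).pk (fun j => Aw P K mem Rr f j w) N i l = some n) = 1 := ind_of hp
      rw [← hb]
      refine le_trans ?_ (Finset.single_le_sum (f := fun i => ∑ l ∈ range N,
        ind ((M w).pk (fun j => Aw P K mem Rr f j w) N i l = some n))
        (fun j _ => Finset.sum_nonneg fun _ _ => ind_nonneg _) (mem_range.2 (by omega : i < T + 1)))
      exact Finset.single_le_sum (f := fun l => ind ((M w).pk (fun j => Aw P K mem Rr f j w) N i l = some n))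
        (fun _ _ => ind_nonneg _) (mem_range.2 hl)
    · rw [ind_not hu]
      exact Finset.sum_nonneg fun _ _ => Finset.sum_nonneg fun _ _ => ind_nonneg _
  refine (Finset.sum_le_sum fun n _ => h1 n).trans ?_
  rw [Finset.sum_comm]
  refine Finset.sum_le_sum fun i _ => ?_
  rw [Finset.sum_comm]
  refine Finset.sum_le_sum fun l _ => ?_
  cases hp : (M w).pk (fun j => Aw P K mem Rr f j w) N i l with
  | none =>
    have e : ∀ n : R, ind ((none : Option R) = some n) = 0 := fun n => ind_not (by simp)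
    simp only [e, Finset.sum_const_zero]
    exact ind_nonneg _
  | some r =>
    have e : ∀ n : R, ind (some r = some n) = if n = r then 1 else 0 := by
      intro n
      by_cases h : n = r
      · rw [if_pos h, ind_of (by rw [h])]
      · rw [if_neg h, ind_not (fun hh => h (Option.some.inj hh).symm)]
    simp only [e, Finset.sum_ite_eq', Finset.mem_univ, if_true]
    rw [ind_of (by simp)]

/-- the box exists for a true reference which is not recorded at level `0` -/
theorem box_exists {i : ℕ} {n : R} {w : Om} (hw : P.p w ≠ 0) (hm : mem i w n) (h0 : ¬ rc P K mem Rr 0 i n w) :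
    ∃ k ∈ Icc 1 g, Bxc P K mem Rr k i n w := by
  classical
  have hD : P.p w ≤ Dn P K mem i n w := by
    unfold Dn FP.ce
    have hm1 : P.m (K i) w ≤ 1 := P.m_le_one _ _
    have hm0 : 0 < P.m (K i) w := P.m_pos _ hw
    have h1 : P.p w ≤ P.E (fun v => ind (K i v = K i w) * ind (mem i v n)) := by
      unfold FP.E
      have h2 := Finset.single_le_sum (f := fun v => P.p v * (ind (K i v = K i w) * ind (mem i v n)))
        (fun v _ => mul_nonneg (P.nn v) (mul_nonneg (ind_nonneg _) (ind_nonneg _))) (Finset.mem_univ w)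
      have e : P.p w * (ind (K i w = K i w) * ind (mem i w n)) = P.p w := by
        rw [ind_of rfl, ind_of hm]; ring
      have h2' : P.p w * (ind (K i w = K i w) * ind (mem i w n)) ≤
          ∑ v, P.p v * (ind (K i v = K i w) * ind (mem i v n)) := h2
      rw [e] at h2'
      exact h2'
    rw [le_div_iff₀ hm0]
    calc P.p w * P.m (K i) w ≤ P.p w * 1 := mul_le_mul_of_nonneg_left hm1 (P.nn w)
      _ = P.p w := mul_one _
      _ ≤ _ := h1
  have hg : (1 / 2 : ℝ) ^ g ≤ Rr * Zn P K mem i n w :=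
    (H.low w hw).trans (mul_le_mul_of_nonneg_left (hD.trans (Dn_le_Zn i n w)) H.R0.le)
  have hex : ∃ k, (1 / 2 : ℝ) ^ k ≤ Rr * Zn P K mem i n w := ⟨g, hg⟩
  set k := Nat.find hex with hk
  have hk1 : (1 / 2 : ℝ) ^ k ≤ Rr * Zn P K mem i n w := Nat.find_spec hex
  have hkg : k ≤ g := Nat.find_min' hex hg
  have hk0 : 1 ≤ k := by
    rcases Nat.eq_zero_or_pos k with e | e
    · exfalso
      apply h0
      unfold rc
      rw [e] at hk1
      exact hk1
    · exact e
  refine ⟨k, mem_Icc.2 ⟨hk0, hkg⟩, hk1, ?_⟩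
  have h1 := Nat.find_min hex (m := k - 1) (by omega)
  rw [not_le] at h1
  have e : (2 : ℝ) * (1 / 2) ^ k = (1 / 2) ^ (k - 1) := by
    obtain ⟨l, hl⟩ : ∃ l, k = l + 1 := ⟨k - 1, by omega⟩
    rw [hl, Nat.add_sub_cancel, pow_succ]; ring
  rw [e]
  exact h1

/-- the three places where a failing `y` is counted -/
theorem fail_cases {f : R → ℕ} {n : R} {w : Om} (hF : FailAt P K mem Rr M N T f n w) :
    (∃ t ∈ range (T + 1), EndAt P K mem Rr M N f n t w ∧
        (∃ l ≤ N, (M w).Crit (fun j => Aw P K mem Rr f j w) N n t l) ∧ mem t w n) ∨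
      (∃ t ∈ range T, Ge P K mem Rr M N f n t w ∧ EndAt P K mem Rr M N f n (t + 1) w ∧ mem t w n) ∨
      (Ge P K mem Rr M N f n T w ∧ mem T w n) := by
  classical
  obtain ⟨i, hi, l, hl, hc, hm⟩ := hF
  by_cases h1 : Ge P K mem Rr M N f n i w
  · -- the stretch goes on
    by_cases h2 : ∃ t, i ≤ t ∧ t ≤ T ∧ ¬ Ge P K mem Rr M N f n t w
    · set t := Nat.find h2 with ht
      have ht1 : i ≤ t ∧ t ≤ T ∧ ¬ Ge P K mem Rr M N f n t w := Nat.find_spec h2
      have hit : i < t := by
        rcases Nat.lt_or_ge i t with h | h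
        · exact h
        · exfalso
          have : t = i := le_antisymm h ht1.1
          rw [this] at ht1
          exact ht1.2.2 h1
      obtain ⟨s, hs⟩ : ∃ s, t = s + 1 := ⟨t - 1, by omega⟩
      have hs1 : Ge P K mem Rr M N f n s w := by
        by_contra hn
        exact Nat.find_min h2 (m := s) (by omega) ⟨by omega, by omega, hn⟩
      refine Or.inr (Or.inl ⟨s, mem_range.2 (by omega), hs1, ?_, H.mem_mono (by omega) hm⟩)
      rw [← hs]
      exact ⟨ht1.2.2, Or.inl ⟨s, hs.symm, hs1⟩⟩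
    · refine Or.inr (Or.inr ⟨?_, H.mem_mono hi hm⟩)
      by_contra hn
      exact h2 ⟨T, hi, le_rfl, hn⟩
  · exact Or.inl ⟨i, mem_range.2 (by omega), ⟨h1, Or.inr ⟨l, hl, hc.oa⟩⟩, ⟨l, hl, hc⟩, hm⟩

theorem Ge_crit {f : R → ℕ} {n : R} {i : ℕ} {w : Om} (hw : P.p w ≠ 0) (hi : i ≤ T)
    (h : Ge P K mem Rr M N f n i w) : (M w).Crit (fun j => Aw P K mem Rr f j w) N n i N :=
  Mach.crit_of_idle h (H.term f w hw i hi)

/-- sum over the ends after the first critical moment in box `k` -/
theorem sum_ends (f : R → ℕ) (n : R) (k : ℕ) :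
    ∑ t ∈ range (T + 1), P.Pr (fun w => EndAt P K mem Rr M N f n t w ∧ Ev P K mem Rr M N f n k t w) ≤
      Nv * P.Pr (Ev P K mem Rr M N f n k T) := by
  classical
  -- first time
  set Fi : ℕ → Om → Prop := fun i w => Ev P K mem Rr M N f n k i w ∧ ∀ j < i, ¬ Ev P K mem Rr M N f n k j w with hFi
  have hmono : ∀ {i j : ℕ} {w : Om}, i ≤ j → Ev P K mem Rr M N f n k i w → Ev P K mem Rr M N f n k j w := by
    rintro i j w hij ⟨a, ha, b⟩
    exact ⟨a, ha.trans hij, b⟩
  have hFfac : ∀ i, ∀ v w, K i v = K i w → (Fi i v ↔ Fi i w) := by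
    intro i v w h
    simp only [hFi]
    refine and_congr (H.Ev_fac f n k i v w h) (forall_congr' fun j => ?_)
    constructor
    · intro hh hj
      exact fun he => hh hj ((H.Ev_fac f n k j v w (H.filt.le hj.le v w h)).2 he)
    · intro hh hj
      exact fun he => hh hj ((H.Ev_fac f n k j v w (H.filt.le hj.le v w h)).1 he)
  have hfirst : ∀ t w, Ev P K mem Rr M N f n k t w → ∃ i ∈ range (t + 1), Fi i w := by
    intro t w he
    have hex : ∃ i, Ev P K mem Rr M N f n k i w := ⟨t, he⟩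
    refine ⟨Nat.find hex, mem_range.2 ?_, Nat.find_spec hex, fun j hj => Nat.find_min hex hj⟩
    have := Nat.find_min' hex he
    omega
  have h1 : ∀ t ∈ range (T + 1), P.Pr (fun w => EndAt P K mem Rr M N f n t w ∧ Ev P K mem Rr M N f n k t w) ≤
      ∑ i ∈ range (T + 1), if i ≤ t then P.Pr (fun w => Fi i w ∧ EndAt P K mem Rr M N f n t w) else 0 := by
    intro t ht
    have ht' : t < T + 1 := mem_range.1 ht
    calc P.Pr (fun w => EndAt P K mem Rr M N f n t w ∧ Ev P K mem Rr M N f n k t w)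
        ≤ P.Pr (fun w => ∃ i ∈ range (t + 1), Fi i w ∧ EndAt P K mem Rr M N f n t w) := by
          refine P.Pr_mono fun w _ hh => ?_
          obtain ⟨i, hi, hf⟩ := hfirst t w hh.2
          exact ⟨i, hi, hf, hh.1⟩
      _ ≤ ∑ i ∈ range (t + 1), P.Pr (fun w => Fi i w ∧ EndAt P K mem Rr M N f n t w) := P.Pr_ex_le _ _
      _ = ∑ i ∈ range (t + 1), if i ≤ t then P.Pr (fun w => Fi i w ∧ EndAt P K mem Rr M N f n t w) else 0 := by
          refine Finset.sum_congr rfl fun i hi => ?_
          rw [if_pos (by have := mem_range.1 hi; omega)]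
      _ ≤ _ := by
          refine Finset.sum_le_sum_of_subset_of_nonneg ?_ ?_
          · intro i hi
            have := mem_range.1 hi
            exact mem_range.2 (by omega)
          · intro i _ _
            split_ifs
            · exact P.Pr_nonneg _
            · exact le_rfl
  refine (Finset.sum_le_sum h1).trans ?_
  rw [Finset.sum_comm]
  have h2 : ∀ i ∈ range (T + 1), (∑ t ∈ range (T + 1), if i ≤ t then
      P.Pr (fun w => Fi i w ∧ EndAt P K mem Rr M N f n t w) else 0) ≤ Nv * P.Pr (Fi i) := by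
    intro i hi
    have hi' : i < T + 1 := mem_range.1 hi
    refine le_trans (le_of_eq ?_) (H.ends f n i (by omega) (Fi i) (hFfac i))
    rw [← Finset.sum_filter]
    refine Finset.sum_congr ?_ fun _ _ => rfl
    ext t
    simp only [mem_filter, mem_range, mem_Icc]
    omega
  refine (Finset.sum_le_sum h2).trans ?_
  rw [← Finset.mul_sum]
  refine mul_le_mul_of_nonneg_left ?_ H.Nv0
  unfold FP.Pr
  rw [← P.E_sum]
  refine P.E_mono fun w _ => ?_
  by_cases he : ∃ i ∈ range (T + 1), Fi i w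
  · obtain ⟨i, hi, hf⟩ := he
    have hi' : i < T + 1 := mem_range.1 hi
    have : Ev P K mem Rr M N f n k T w := hmono (by omega) hf.1
    rw [ind_of this]
    rw [Finset.sum_eq_single_of_mem i hi]
    · exact ind_le_one _
    · intro j _ hj
      apply ind_not
      intro hfj
      rcases lt_or_gt_of_ne hj with h | h
      · exact hf.2 j h hfj.1
      · exact hfj.2 i h hf.1
  · have : ∀ i ∈ range (T + 1), ind (Fi i w) = 0 := fun i hi => ind_not fun hf => he ⟨i, hi, hf⟩
    rw [Finset.sum_eq_zero this]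
    exact ind_nonneg _

/-- mass of the true reference on an event of the node in box `k` -/
theorem mass_le {k t : ℕ} {n : R} {E : Om → Prop} (hE : ∀ v w, K t v = K t w → (E v ↔ E w))
    (hb : ∀ w, P.p w ≠ 0 → E w → Bxc P K mem Rr k t n w) :
    P.Pr (fun w => E w ∧ mem t w n) ≤ 2 * (1 / 2 : ℝ) ^ k / Rr * P.Pr E := by
  have h1 : P.Pr (fun w => E w ∧ mem t w n) = P.E (fun w => ind (E w) * Dn P K mem t n w) := by
    unfold Dn
    rw [P.E_ind_ce hE]
    unfold FP.Pr
    exact P.E_congr fun w _ => ind_and _ _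
  rw [h1]
  unfold FP.Pr
  rw [← P.E_smul]
  refine P.E_mono fun w hw => ?_
  by_cases he : E w
  · rw [ind_of he, one_mul, mul_one]
    have h2 := (hb w hw he).2
    have h3 := Dn_le_Zn (P := P) (K := K) (mem := mem) t n w
    rw [le_div_iff₀ H.R0]
    nlinarith [H.R0]
  · rw [ind_not he]; simp

/-- the same one step later -/
theorem mass_le' {k t : ℕ} {n : R} {E : Om → Prop} (hE : ∀ v w, K (t + 1) v = K (t + 1) w → (E v ↔ E w))
    (hb : ∀ w, P.p w ≠ 0 → E w → Bxc P K mem Rr k t n w) :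
    P.Pr (fun w => E w ∧ mem t w n) ≤ 4 * (1 / 2 : ℝ) ^ k / Rr * P.Pr E := by
  have h1 : P.Pr (fun w => E w ∧ mem t w n) =
      P.E (fun w => ind (E w) * P.ce (K (t + 1)) (fun v => ind (mem t v n)) w) := by
    rw [P.E_ind_ce hE]
    unfold FP.Pr
    exact P.E_congr fun w _ => ind_and _ _
  rw [h1]
  unfold FP.Pr
  rw [← P.E_smul]
  refine P.E_mono fun w hw => ?_
  by_cases he : E w
  · rw [ind_of he, one_mul, mul_one]
    have h2 := (hb w hw he).2
    have h3 := Dn_le_Zn (P := P) (K := K) (mem := mem) t n w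
    have h4 := H.dbl t w hw (fun v => mem t v n)
    have h5 : P.ce (K t) (fun v => ind (mem t v n)) w = Dn P K mem t n w := rfl
    rw [le_div_iff₀ H.R0]
    rw [h5] at h4
    nlinarith [H.R0]
  · rw [ind_not he]; simp

/-- step 3: failing in the world `f n = 0` -/
theorem fail_le {f : R → ℕ} {n : R} (hf : f n = 0) :
    P.Pr (FailAt P K mem Rr M N T f n) ≤
      ∑ k ∈ Icc 1 g, 6 * (Nv + 1) * (1 / 2 : ℝ) ^ k / Rr * P.Pr (Ev P K mem Rr M N f n k T) := by
  classical
  have hnr : ∀ {i l : ℕ} {w : Om}, (M w).oa (fun j => Aw P K mem Rr f j w) N n i l → ¬ rc P K mem Rr 0 i n w := by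
    intro i l w h hh
    apply h.2
    show rc P K mem Rr (f n) i n w
    rw [hf]; exact hh
  -- the three events, box by box
  set E1 : ℕ → ℕ → Om → Prop := fun k t w => (EndAt P K mem Rr M N f n t w ∧ Ev P K mem Rr M N f n k t w) ∧
    Bxc P K mem Rr k t n w with hE1
  set E2 : ℕ → ℕ → Om → Prop := fun k t w => (EndAt P K mem Rr M N f n (t + 1) w ∧ Ev P K mem Rr M N f n k (t + 1) w) ∧
    Bxc P K mem Rr k t n w with hE2
  set E3 : ℕ → Om → Prop := fun k w => Ev P K mem Rr M N f n k T w ∧ Bxc P K mem Rr k T n w with hE3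
  have hcov : ∀ w, P.p w ≠ 0 → FailAt P K mem Rr M N T f n w →
      (∃ k ∈ Icc 1 g, ((∃ t ∈ range (T + 1), E1 k t w ∧ mem t w n) ∨ (∃ t ∈ range T, E2 k t w ∧ mem t w n)) ∨
        (E3 k w ∧ mem T w n)) := by
    intro w hw hF
    rcases H.fail_cases hF with ⟨t, ht, he, ⟨l, hl, hc⟩, hm⟩ | ⟨t, ht, hg, he, hm⟩ | ⟨hg, hm⟩
    · obtain ⟨k, hk, hb⟩ := H.box_exists hw hm (hnr hc.oa)
      exact ⟨k, hk, Or.inl (Or.inl ⟨t, ht, ⟨⟨he, ⟨t, le_rfl, l, hl, hc, hb⟩⟩, hb⟩, hm⟩)⟩
    · have ht' := mem_range.1 ht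
      obtain ⟨k, hk, hb⟩ := H.box_exists hw hm (hnr hg)
      have hc := H.Ge_crit hw (by omega) hg
      exact ⟨k, hk, Or.inl (Or.inr ⟨t, ht, ⟨⟨he, ⟨t, by omega, N, le_rfl, hc, hb⟩⟩, hb⟩, hm⟩)⟩
    · obtain ⟨k, hk, hb⟩ := H.box_exists hw hm (hnr hg)
      have hc := H.Ge_crit hw le_rfl hg
      exact ⟨k, hk, Or.inr ⟨⟨⟨T, le_rfl, N, le_rfl, hc, hb⟩, hb⟩, hm⟩⟩
  refine (P.Pr_mono hcov).trans ((P.Pr_ex_le _ _).trans (Finset.sum_le_sum fun k hk => ?_))
  have hR := H.R0
  have hN := H.Nv0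
  have hp : 0 < (1 / 2 : ℝ) ^ k := by positivity
  have b1 : ∑ t ∈ range (T + 1), P.Pr (fun w => E1 k t w ∧ mem t w n) ≤
      2 * (1 / 2 : ℝ) ^ k / Rr * (Nv * P.Pr (Ev P K mem Rr M N f n k T)) := by
    refine le_trans ?_ (mul_le_mul_of_nonneg_left (H.sum_ends f n k) (by positivity))
    rw [Finset.mul_sum]
    refine Finset.sum_le_sum fun t _ => ?_
    have h1 := H.mass_le (k := k) (t := t) (n := n) (E := E1 k t) (fun v w h => by
      simp only [hE1]
      exact and_congr (and_congr (H.EndAt_fac f n t v w h) (H.Ev_fac f n k t v w h)) (Box_fac H.filt k t n v w h))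
      (fun w _ h => h.2)
    refine h1.trans (mul_le_mul_of_nonneg_left (P.Pr_mono fun w _ h => h.1) (by positivity))
  have b2 : ∑ t ∈ range T, P.Pr (fun w => E2 k t w ∧ mem t w n) ≤
      4 * (1 / 2 : ℝ) ^ k / Rr * (Nv * P.Pr (Ev P K mem Rr M N f n k T)) := by
    refine le_trans ?_ (mul_le_mul_of_nonneg_left (H.sum_ends f n k) (by positivity))
    have h2 : ∑ t ∈ range T, P.Pr (fun w => E2 k t w ∧ mem t w n) ≤ ∑ t ∈ range T,
        4 * (1 / 2 : ℝ) ^ k / Rr *
          P.Pr (fun w => EndAt P K mem Rr M N f n (t + 1) w ∧ Ev P K mem Rr M N f n k (t + 1) w) := by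
      refine Finset.sum_le_sum fun t _ => ?_
      have h1 := H.mass_le' (k := k) (t := t) (n := n) (E := E2 k t) (fun v w h => by
        simp only [hE2]
        exact and_congr (and_congr (H.EndAt_fac f n (t + 1) v w h) (H.Ev_fac f n k (t + 1) v w h))
          (Box_fac H.filt k t n v w (H.filt t v w h)))
        (fun w _ h => h.2)
      exact h1.trans (mul_le_mul_of_nonneg_left (P.Pr_mono fun w _ h => h.1) (by positivity))
    refine h2.trans ?_
    rw [← Finset.mul_sum]
    refine mul_le_mul_of_nonneg_left ?_ (by positivity)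
    rw [Finset.sum_range_succ' (fun t => P.Pr (fun w => EndAt P K mem Rr M N f n t w ∧ Ev P K mem Rr M N f n k t w)) T]
    have := P.Pr_nonneg (fun w => EndAt P K mem Rr M N f n 0 w ∧ Ev P K mem Rr M N f n k 0 w)
    linarith
  have b3 : P.Pr (fun w => E3 k w ∧ mem T w n) ≤ 2 * (1 / 2 : ℝ) ^ k / Rr * P.Pr (Ev P K mem Rr M N f n k T) := by
    have h1 := H.mass_le (k := k) (t := T) (n := n) (E := E3 k) (fun v w h => by
      simp only [hE3]
      exact and_congr (H.Ev_fac f n k T v w h) (Box_fac H.filt k T n v w h)) (fun w _ h => h.2)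
    exact h1.trans (mul_le_mul_of_nonneg_left (P.Pr_mono fun w _ h => h.1) (by positivity))
  have hsum : P.Pr (fun w => ((∃ t ∈ range (T + 1), E1 k t w ∧ mem t w n) ∨
      (∃ t ∈ range T, E2 k t w ∧ mem t w n)) ∨ (E3 k w ∧ mem T w n)) ≤
      ∑ t ∈ range (T + 1), P.Pr (fun w => E1 k t w ∧ mem t w n) +
        ∑ t ∈ range T, P.Pr (fun w => E2 k t w ∧ mem t w n) + P.Pr (fun w => E3 k w ∧ mem T w n) := by
    refine (P.Pr_or_le _ _).trans (add_le_add ((P.Pr_or_le _ _).trans (add_le_add ?_ ?_)) le_rfl)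
    · exact P.Pr_ex_le _ _
    · exact P.Pr_ex_le _ _
  refine hsum.trans ((add_le_add (add_le_add b1 b2) b3).trans ?_)
  have hq := P.Pr_nonneg (Ev P K mem Rr M N f n k T)
  set q := P.Pr (Ev P K mem Rr M N f n k T)
  set x : ℝ := (1 / 2 : ℝ) ^ k / Rr with hx
  have hx0 : 0 ≤ x := by positivity
  have e1 : 2 * (1 / 2 : ℝ) ^ k / Rr = 2 * x := by rw [hx]; ring
  have e2 : 4 * (1 / 2 : ℝ) ^ k / Rr = 4 * x := by rw [hx]; ring
  have e3 : 6 * (Nv + 1) * (1 / 2 : ℝ) ^ k / Rr = 6 * (Nv + 1) * x := by rw [hx]; ring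
  rw [e1, e2, e3]
  nlinarith [mul_nonneg hx0 hq, mul_nonneg (mul_nonneg hx0 hq) hN]

/-- THE RECORD LEMMA `JR_1` -/
theorem jr_one {C : Type*} [Fintype C] (Q : FP C) (co : R → C → ℕ)
    (hco : ∀ n : R, ∀ k ∈ Icc 1 g, ∀ F : (R → ℕ) → ℝ, (∀ f, 0 ≤ F f) →
      (1 / 2 : ℝ) ^ (k + 1) * Q.E (fun c => F (Function.update (fun m => co m c) n 0)) ≤
        Q.E (fun c => ind (co n c = k) * F (Function.update (fun m => co m c) n 0))) :
    Q.E (fun c => P.Pr (fun w => ∃ n, FailAt P K mem Rr M N T (fun m => co m c) n w)) ≤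
      12 * (Nv + 1) * Mu / Rr := by
  classical
  have hR := H.R0
  have hN := H.Nv0
  -- failing in the real world is failing in the world `0`
  have h1 : ∀ c : C, P.Pr (fun w => ∃ n, FailAt P K mem Rr M N T (fun m => co m c) n w) ≤
      ∑ n, P.Pr (FailAt P K mem Rr M N T (Function.update (fun m => co m c) n 0) n) := by
    intro c
    calc P.Pr (fun w => ∃ n, FailAt P K mem Rr M N T (fun m => co m c) n w)
        ≤ P.Pr (fun w => ∃ n ∈ (univ : Finset R),
            FailAt P K mem Rr M N T (Function.update (fun m => co m c) n 0) n w) := by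
          refine P.Pr_mono fun w _ hh => ?_
          obtain ⟨n, i, hi, l, hl, hc, hm⟩ := hh
          refine ⟨n, mem_univ _, i, hi, l, hl, ?_, hm⟩
          have hno : ¬ rc P K mem Rr (co n c) i n w := hc.2.1
          refine (Mach.crit_iff_of_agree (M := M w) i (fun j hj r => ?_) n l).1 hc
          rcases eq_or_ne r n with e | e
          · subst e
            have a1 : ¬ rc P K mem Rr (co r c) j r w := fun hh => hno (rc_mono hR.le hj hh)
            have a2 : ¬ rc P K mem Rr 0 j r w := fun hh => a1 (rc_level (Nat.zero_le _) hh)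
            constructor
            · intro hh; exact absurd hh a1
            · intro hh
              have : rc P K mem Rr (Function.update (fun m => co m c) r 0 r) j r w := hh
              rw [Function.update_self] at this
              exact absurd this a2
          · show rc P K mem Rr (co r c) j r w ↔ rc P K mem Rr (Function.update (fun m => co m c) n 0 r) j r w
            rw [Function.update_of_ne e]
      _ ≤ _ := P.Pr_ex_le _ _
  -- sum over the boxes
  have h2 : ∀ (c : C) (n : R), P.Pr (FailAt P K mem Rr M N T (Function.update (fun m => co m c) n 0) n) ≤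
      ∑ k ∈ Icc 1 g, 6 * (Nv + 1) * (1 / 2 : ℝ) ^ k / Rr *
        P.Pr (Ev P K mem Rr M N (Function.update (fun m => co m c) n 0) n k T) := fun c n =>
    H.fail_le (Function.update_self _ _ _)
  have h3 : ∀ n : R, ∀ k ∈ Icc 1 g,
      (1 / 2 : ℝ) ^ (k + 1) *
        Q.E (fun c => P.Pr (Ev P K mem Rr M N (Function.update (fun m => co m c) n 0) n k T)) ≤
      Q.E (fun c => ind (co n c = k) *
        P.Pr (fun w => (M w).Used (fun j => Aw P K mem Rr (fun m => co m c) j w) N T n)) := by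
    intro n k hk
    refine (hco n k hk (fun f => P.Pr (Ev P K mem Rr M N f n k T)) fun f => P.Pr_nonneg _).trans ?_
    refine Q.E_mono fun c _ => ?_
    by_cases e : co n c = k
    · rw [ind_of e, one_mul, one_mul]
      refine P.Pr_mono fun w hw he => ?_
      have h4 := H.used_of_ev (f := Function.update (fun m => co m c) n 0) (n := n)
        (Function.update_self _ _ _) hw he
      have e2 : Function.update (Function.update (fun m => co m c) n 0) n k = fun m => co m c := by
        rw [Function.update_idem, ← e]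
        exact Function.update_eq_self n (fun m => co m c)
      rw [e2] at h4
      exact h4
    · rw [ind_not e, zero_mul, zero_mul]
  have h4 : ∑ n : R, ∑ k ∈ Icc 1 g, (1 / 2 : ℝ) ^ (k + 1) *
      Q.E (fun c => P.Pr (Ev P K mem Rr M N (Function.update (fun m => co m c) n 0) n k T)) ≤ Mu := by
    refine (Finset.sum_le_sum fun n _ => Finset.sum_le_sum fun k hk => h3 n k hk).trans ?_
    have e1 : ∀ n : R, ∑ k ∈ Icc 1 g, Q.E (fun c => ind (co n c = k) *
        P.Pr (fun w => (M w).Used (fun j => Aw P K mem Rr (fun m => co m c) j w) N T n)) ≤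
        Q.E (fun c => P.Pr (fun w => (M w).Used (fun j => Aw P K mem Rr (fun m => co m c) j w) N T n)) := by
      intro n
      rw [← Q.E_sum]
      refine Q.E_mono fun c _ => ?_
      rw [← Finset.sum_mul]
      have h5 : ∑ k ∈ Icc 1 g, ind (co n c = k) ≤ 1 := by
        by_cases hin : co n c ∈ Icc 1 g
        · rw [Finset.sum_eq_single_of_mem _ hin]
          · exact ind_le_one _
          · intro k _ hk; exact ind_not fun h => hk h.symm
        · rw [Finset.sum_eq_zero fun k hk => ind_not fun h => hin (by rw [h]; exact hk)]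
          norm_num
      have h6 := P.Pr_nonneg (fun w => (M w).Used (fun j => Aw P K mem Rr (fun m => co m c) j w) N T n)
      nlinarith
    refine (Finset.sum_le_sum fun n _ => e1 n).trans ?_
    rw [← Q.E_sum]
    exact Q.E_le_const fun c _ => H.sum_used _
  -- conclusion
  calc Q.E (fun c => P.Pr (fun w => ∃ n, FailAt P K mem Rr M N T (fun m => co m c) n w))
      ≤ Q.E (fun c => ∑ n : R, ∑ k ∈ Icc 1 g, 6 * (Nv + 1) * (1 / 2 : ℝ) ^ k / Rr *
          P.Pr (Ev P K mem Rr M N (Function.update (fun m => co m c) n 0) n k T)) :=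
        Q.E_mono fun c _ => (h1 c).trans (Finset.sum_le_sum fun n _ => h2 c n)
    _ = ∑ n : R, ∑ k ∈ Icc 1 g, 6 * (Nv + 1) * (1 / 2 : ℝ) ^ k / Rr *
          Q.E (fun c => P.Pr (Ev P K mem Rr M N (Function.update (fun m => co m c) n 0) n k T)) := by
        rw [Q.E_sum]
        refine Finset.sum_congr rfl fun n _ => ?_
        rw [Q.E_sum]
        exact Finset.sum_congr rfl fun k _ => Q.E_smul _ _
    _ = 12 * (Nv + 1) / Rr * ∑ n : R, ∑ k ∈ Icc 1 g, (1 / 2 : ℝ) ^ (k + 1) *
          Q.E (fun c => P.Pr (Ev P K mem Rr M N (Function.update (fun m => co m c) n 0) n k T)) := by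
        rw [Finset.mul_sum]
        refine Finset.sum_congr rfl fun n _ => ?_
        rw [Finset.mul_sum]
        refine Finset.sum_congr rfl fun k _ => ?_
        rw [pow_succ]; ring
    _ ≤ 12 * (Nv + 1) / Rr * Mu := mul_le_mul_of_nonneg_left h4 (by positivity)
    _ = _ := by ring

end JROne

end

end Pool.Agent.GMN
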