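import Pool.Agent.GMN.JRone

/-!
# GMN.JRv (row N, NM.4, 4.3; N-APP 3; notes 3678 (5), 3681 (D), 3689): LEMMA W and the record lemma `JR_v`, abstract

`P` = law of the hidden vertex and the free path given everything else at the start of the client, `K` = node
filtration.  `X` = names (indices), `V` = systems of names, `ix 𝔳` = the names of the system `𝔳`, `rf 𝔳` = its
reference, `has i w 𝔳` = the hidden vertex has the system `𝔳` at time `i`, `G i w` = it is good at time `i`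
(closeness, no heavy name), `Z i x` = scale of the name `x` (adapted, non decreasing).
World `f : X → ℕ` (coin levels): `x` is recorded at time `i` iff `(1/2) ^ (f x) ≤ Rr * Z i x`, a reference `n` is
allowed iff some system `𝔳` with `rf 𝔳 = n` has all its names recorded.

`jr_v`: the probability that the hidden vertex is always good and FAILS (has a reference at a moment which is critical
for it) is at most `2 Db (Nv + 1) kap B 8^D Mu / Rr`, if
* `dbl` : a step of the node multiplies conditional probabilities by at most `Db`,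
* `mass` : `P(has 𝔳, good | node) ≤ kap * ∏ Z` (closeness),
* `sumB` : the sum over the systems containing a set `J` of names of the products of the other scales is `≤ B`,
* the runs make at most `Mu` uses in mean, stretches end at most `Nv` times in mean from every state.
No number of references, no number of levels, no structure of the set of names.
-/

set_option autoImplicit false
set_option linter.unusedSectionVars false

namespace Pool.Agent.GMN

open Finset Pool.Agent.PWZ Pool.Agent.M3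

noncomputable section

namespace Mach

variable {R S : Type*} [Fintype R] [LinearOrder R] {M : Mach R S}

/-- the choice does not change if no new reference is critical -/
theorem pick_eq' {i : ℕ} {A A' : R → Prop} {x : S} (h1 : ∀ r, A r → A' r)
    (h : ∀ s, ¬ (M.on i x s ∧ ¬ A s ∧ (∀ r, M.pick i A x = some r → s < r) ∧ A' s)) :
    M.pick i A' x = M.pick i A x := by
  classical
  cases hp : M.pick i A x with
  | none =>
    rw [pick_none] at hp ⊢
    intro r hr hA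
    refine h r ⟨hr, hp r hr, fun q hq => ?_, hA⟩
    have := pick_none.2 hp
    rw [this] at hq
    exact absurd hq (by simp)
  | some r =>
    have hq := pick_some.1 hp
    rw [pick_some]
    refine ⟨⟨hq.1.1, h1 r hq.1.2⟩, fun q hqo hqA => ?_⟩
    by_cases hA : A q
    · exact hq.2 q hqo hA
    · by_contra hlt
      refine h q ⟨hqo, hA, fun r' hr' => ?_, hqA⟩
      rw [hp] at hr'
      rw [← Option.some.inj hr']
      exact not_le.1 hlt

/-- separation of two runs, the second allows more -/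
theorem mic_eq' {A A' : ℕ → R → Prop} {N : ℕ} (h1 : ∀ i r, A i r → A' i r) (i : ℕ) :
    ∀ k ≤ N, (∀ j l, (j < i ∧ l < N) ∨ (j = i ∧ l < k) → ∀ s, ¬ (M.Crit A N s j l ∧ A' j s)) →
      M.mic A' N i k = M.mic A N i k := by
  have hstep : ∀ i k, M.mic A' N i k = M.mic A N i k → (∀ s, ¬ (M.Crit A N s i k ∧ A' i s)) →
      M.mic A' N i (k + 1) = M.mic A N i (k + 1) := by
    intro i k he hc
    rw [mic_succ, mic_succ, he]
    unfold step
    have : M.pick i (A' i) (M.mic A N i k) = M.pick i (A i) (M.mic A N i k) :=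
      pick_eq' (h1 i) fun s hh => hc s ⟨⟨hh.1, hh.2.1, hh.2.2.1⟩, hh.2.2.2⟩
    rw [this]
  have hin : ∀ i, M.mic A' N i 0 = M.mic A N i 0 →
      ∀ k, (∀ l < k, ∀ s, ¬ (M.Crit A N s i l ∧ A' i s)) → M.mic A' N i k = M.mic A N i k := by
    intro i h0 k
    induction k with
    | zero => intro _; exact h0
    | succ k ih => exact fun h => hstep i k (ih fun l hl => h l (by omega)) (h k (by omega))
  induction i with
  | zero =>
    intro k _ h
    exact hin 0 rfl k fun l hl => h 0 l (Or.inr ⟨rfl, hl⟩)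
  | succ i ih =>
    intro k _ h
    refine hin (i + 1) ?_ k fun l hl => h (i + 1) l (Or.inr ⟨rfl, hl⟩)
    rw [mic_zero_succ, mic_zero_succ]
    congr 1
    refine ih N le_rfl fun j l hjl => h j l (Or.inl ?_)
    rcases hjl with ⟨a, b⟩ | ⟨a, b⟩
    · exact ⟨by omega, b⟩
    · exact ⟨by omega, b⟩

/-- the first moment at which the larger run uses a reference which is critical for the smaller run -/
theorem sep_first {A A' : ℕ → R → Prop} {N T : ℕ} (h1 : ∀ i r, A i r → A' i r)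
    (hT : ∀ i ≤ T, M.pk A' N i N = none) {i k : ℕ} {s : R} (hi : i ≤ T) (hk : k ≤ N)
    (hc : M.Crit A N s i k) (hA : A' i s) :
    ∃ j l n, (j < i ∨ (j = i ∧ l ≤ k)) ∧ l < N ∧ M.Crit A N n j l ∧ A' j n ∧ M.pk A' N j l = some n := by
  classical
  -- the first such moment
  have hex : ∃ j, ∃ l ≤ N, ∃ n, M.Crit A N n j l ∧ A' j n := ⟨i, k, hk, s, hc, hA⟩
  set j := Nat.find hex with hj
  have hj1 : ∃ l ≤ N, ∃ n, M.Crit A N n j l ∧ A' j n := Nat.find_spec hex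
  have hj2 : ∀ j' < j, ∀ l ≤ N, ∀ n, ¬ (M.Crit A N n j' l ∧ A' j' n) := fun j' hj' l hl n hh =>
    Nat.find_min hex hj' ⟨l, hl, n, hh⟩
  have hji : j ≤ i := Nat.find_min' hex ⟨k, hk, s, hc, hA⟩
  set l := Nat.find hj1 with hl
  have hl1 : l ≤ N ∧ ∃ n, M.Crit A N n j l ∧ A' j n := Nat.find_spec hj1
  have hl2 : ∀ l' < l, ∀ n, ¬ (M.Crit A N n j l' ∧ A' j n) := fun l' hl' n hh =>
    Nat.find_min hj1 hl' ⟨by omega, n, hh⟩
  have heq : M.mic A' N j l = M.mic A N j l := by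
    refine mic_eq' h1 j l hl1.1 fun j' l' h n => ?_
    rcases h with ⟨a, b⟩ | ⟨a, b⟩
    · exact hj2 j' a l' b.le n
    · subst a; exact hl2 l' b n
  obtain ⟨n, hn⟩ := hl1.2
  -- the pick of the larger run
  have hne : (univ.filter fun r => M.on j (M.mic A N j l) r ∧ A' j r).Nonempty :=
    ⟨n, by rw [mem_filter]; exact ⟨mem_univ _, hn.1.1, hn.2⟩⟩
  set q := (univ.filter fun r => M.on j (M.mic A N j l) r ∧ A' j r).min' hne with hq
  have hq1 : M.on j (M.mic A N j l) q ∧ A' j q := by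
    have := Finset.min'_mem _ hne
    rw [← hq, mem_filter] at this
    exact this.2
  have hqn : q ≤ n := Finset.min'_le _ _ (by rw [mem_filter]; exact ⟨mem_univ _, hn.1.1, hn.2⟩)
  have hpq : M.pk A' N j l = some q := by
    unfold pk
    rw [heq, pick_some]
    exact ⟨hq1, fun r hr hAr => Finset.min'_le _ _ (by rw [mem_filter]; exact ⟨mem_univ _, hr, hAr⟩)⟩
  have hcq : M.Crit A N q j l := by
    refine ⟨hq1.1, fun hAq => ?_, fun r hr => lt_of_le_of_lt hqn (hn.1.2.2 r hr)⟩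
    cases hp : M.pk A N j l with
    | none =>
      unfold pk at hp
      exact pick_none.1 hp q hq1.1 hAq
    | some r =>
      have h3 := hn.1.2.2 r hp
      unfold pk at hp
      have h4 := (pick_some.1 hp).2 q hq1.1 hAq
      exact absurd (lt_of_lt_of_le h3 h4) (not_lt.2 hqn)
  refine ⟨j, l, q, ?_, ?_, hcq, hq1.2, hpq⟩
  · rcases Nat.lt_or_ge j i with h | h
    · exact Or.inl h
    · have e : j = i := le_antisymm hji h
      refine Or.inr ⟨e, ?_⟩
      exact Nat.find_min' hj1 (by rw [e]; exact ⟨hk, s, hc, hA⟩)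
  · rcases Nat.lt_or_ge l N with h | h
    · exact h
    · exfalso
      have e : l = N := le_antisymm hl1.1 h
      rw [e, hT j (hji.trans hi)] at hpq
      exact absurd hpq (by simp)

/-- ON and preceding the used one: not allowed -/
theorem not_allowed {A : ℕ → R → Prop} {N : ℕ} {s : R} {i k : ℕ} (h1 : M.on i (M.mic A N i k) s)
    (h2 : ∀ r, M.pk A N i k = some r → s < r) : ¬ A i s := by
  intro hA
  cases hp : M.pk A N i k with
  | none =>
    unfold pk at hp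
    exact pick_none.1 hp s h1 hA
  | some r =>
    have h3 := h2 r hp
    unfold pk at hp
    exact absurd ((pick_some.1 hp).2 s h1 hA) (not_le.2 h3)

end Mach

variable {Om R S X V : Type*} [Fintype Om] [Fintype R] [LinearOrder R] [Fintype X] [DecidableEq X] [Fintype V]
  {κ : ℕ → Type*}

/-- recorded at coin level `k` -/
def rec' (Z : ℕ → X → Om → ℝ) (Rr : ℝ) (k i : ℕ) (x : X) (w : Om) : Prop := (1 / 2 : ℝ) ^ k ≤ Rr * Z i x w

/-- allowed references in the world `f` -/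
def Av (ix : V → Finset X) (rf : V → R) (Z : ℕ → X → Om → ℝ) (Rr : ℝ) (f : X → ℕ) (i : ℕ) (w : Om) (n : R) : Prop :=
  ∃ 𝔳, rf 𝔳 = n ∧ ∀ x ∈ ix 𝔳, rec' Z Rr (f x) i x w

/-- `n` is true -/
def Tr (rf : V → R) (has : ℕ → Om → V → Prop) (i : ℕ) (w : Om) (n : R) : Prop := ∃ 𝔳, rf 𝔳 = n ∧ has i w 𝔳

/-- the hidden vertex fails -/
def FailV (ix : V → Finset X) (rf : V → R) (has : ℕ → Om → V → Prop) (Z : ℕ → X → Om → ℝ) (Rr : ℝ)
    (M : Om → Mach R S) (N T : ℕ) (f : X → ℕ) (w : Om) : Prop :=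
  ∃ n, ∃ i ≤ T, ∃ l ≤ N, (M w).Crit (fun j => Av ix rf Z Rr f j w) N n i l ∧ Tr rf has i w n

/-- ON and not allowed at the end of time `i` -/
def GeV (ix : V → Finset X) (rf : V → R) (Z : ℕ → X → Om → ℝ) (Rr : ℝ) (M : Om → Mach R S) (N : ℕ)
    (f : X → ℕ) (n : R) (i : ℕ) (w : Om) : Prop :=
  (M w).oa (fun j => Av ix rf Z Rr f j w) N n i N

/-- a stretch of `n` ends at time `t` -/
def EndV (ix : V → Finset X) (rf : V → R) (Z : ℕ → X → Om → ℝ) (Rr : ℝ) (M : Om → Mach R S) (N : ℕ)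
    (f : X → ℕ) (n : R) (t : ℕ) (w : Om) : Prop :=
  ¬ GeV ix rf Z Rr M N f n t w ∧
    ((∃ j, j + 1 = t ∧ GeV ix rf Z Rr M N f n j w) ∨ ∃ l ≤ N, (M w).oa (fun j => Av ix rf Z Rr f j w) N n t l)

/-- number of uses -/
def nUseV (ix : V → Finset X) (rf : V → R) (Z : ℕ → X → Om → ℝ) (Rr : ℝ) (M : Om → Mach R S) (N T : ℕ)
    (f : X → ℕ) (w : Om) : ℝ :=
  ∑ i ∈ range (T + 1), ∑ l ∈ range N, ind ((M w).pk (fun j => Av ix rf Z Rr f j w) N i l ≠ none)

/-- the hypotheses of `JR_v` -/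
structure JRV (P : FP Om) (K : ∀ t, Om → κ t) (ix : V → Finset X) (rf : V → R) (has : ℕ → Om → V → Prop)
    (G : ℕ → Om → Prop) (Z : ℕ → X → Om → ℝ) (Rr : ℝ) (M : Om → Mach R S) (N T g D : ℕ) (Mu Nv kap B Db : ℝ) :
    Prop where
  R1 : 1 ≤ Rr
  Db1 : 1 ≤ Db
  filt : Filt K
  mfac : MFac K M
  Zfac : ∀ i x, Fac (K i) (Z i x)
  Z0 : ∀ i x w, 0 ≤ Z i x w
  Zmono : ∀ i x w, Z i x w ≤ Z (i + 1) x w
  cum : ∀ i w n, Tr rf has i w n → Tr rf has (i + 1) w n
  dbl : ∀ i w, P.p w ≠ 0 → ∀ s : Om → Prop,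
    P.ce (K (i + 1)) (fun v => ind (s v)) w ≤ Db * P.ce (K i) (fun v => ind (s v)) w
  low : ∀ i w 𝔳, P.p w ≠ 0 → has i w 𝔳 → G i w → ∀ x ∈ ix 𝔳, (1 / 2 : ℝ) ^ g ≤ Rr * Z i x w
  kap0 : 0 ≤ kap
  mass : ∀ i 𝔳 w, P.p w ≠ 0 →
    P.ce (K i) (fun v => ind (has i v 𝔳 ∧ G i v)) w ≤ kap * ∏ x ∈ ix 𝔳, Z i x w
  B0 : 0 ≤ B
  sumB : ∀ J : Finset X, J.Nonempty → ∀ w, P.p w ≠ 0 →
    ∑ 𝔳, (if J ⊆ ix 𝔳 then ∏ x ∈ ix 𝔳 \ J, Z T x w else 0) ≤ B
  card : ∀ 𝔳, (ix 𝔳).card ≤ D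
  term : ∀ f : X → ℕ, ∀ w, P.p w ≠ 0 → ∀ i ≤ T, (M w).pk (fun j => Av ix rf Z Rr f j w) N i N = none
  Mu0 : 0 ≤ Mu
  use : ∀ f : X → ℕ, P.E (nUseV ix rf Z Rr M N T f) ≤ Mu
  Nv0 : 0 ≤ Nv
  ends : ∀ (f : X → ℕ) (n : R), ∀ i ≤ T, ∀ F : Om → Prop, (∀ v w, K i v = K i w → (F v ↔ F w)) →
    ∑ t ∈ Icc i T, P.Pr (fun w => F w ∧ EndV ix rf Z Rr M N f n t w) ≤ Nv * P.Pr F

variable {P : FP Om} {K : ∀ t, Om → κ t} {ix : V → Finset X} {rf : V → R} {has : ℕ → Om → V → Prop}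
  {G : ℕ → Om → Prop} {Z : ℕ → X → Om → ℝ} {Rr : ℝ} {M : Om → Mach R S} {N T g D : ℕ} {Mu Nv kap B Db : ℝ}

theorem rec_level {k l i : ℕ} (h : k ≤ l) {x : X} {w : Om} (hr : rec' Z Rr k i x w) : rec' Z Rr l i x w :=
  (pow_le_pow_of_le_one (by norm_num) (by norm_num) h).trans hr

/-- the box of the scale -/
def Bx (Z : ℕ → X → Om → ℝ) (Rr : ℝ) (k i : ℕ) (x : X) (w : Om) : Prop :=
  (1 / 2 : ℝ) ^ k ≤ Rr * Z i x w ∧ Rr * Z i x w < 2 * (1 / 2 : ℝ) ^ k

/-- `J`-critical moment -/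
def JCr (ix : V → Finset X) (rf : V → R) (Z : ℕ → X → Om → ℝ) (Rr : ℝ) (M : Om → Mach R S) (N : ℕ)
    (f : X → ℕ) (J : Finset X) (i l : ℕ) (w : Om) : Prop :=
  (∀ x ∈ J, ¬ rec' Z Rr (f x) i x w) ∧ ∃ 𝔳, J ⊆ ix 𝔳 ∧ (∀ x ∈ ix 𝔳, x ∉ J → rec' Z Rr (f x) i x w) ∧
    (M w).on i ((M w).mic (fun j => Av ix rf Z Rr f j w) N i l) (rf 𝔳) ∧
    ∀ r, (M w).pk (fun j => Av ix rf Z Rr f j w) N i l = some r → rf 𝔳 < r

/-- there is a `J`-critical moment in the box `k` up to time `t`, and no critical moment of a smaller set in the same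
box before it -/
def EvJ (ix : V → Finset X) (rf : V → R) (Z : ℕ → X → Om → ℝ) (Rr : ℝ) (M : Om → Mach R S) (N : ℕ)
    (f : X → ℕ) (J : Finset X) (k : X → ℕ) (t : ℕ) (w : Om) : Prop :=
  ∃ i ≤ t, ∃ l ≤ N, JCr ix rf Z Rr M N f J i l w ∧ (∀ x ∈ J, Bx Z Rr (k x) i x w) ∧
    ∀ J' : Finset X, J' ⊂ J → J'.Nonempty → ∀ i' l', (i' < i ∨ (i' = i ∧ l' ≤ l)) → l' ≤ N →
      JCr ix rf Z Rr M N f J' i' l' w → ∃ x ∈ J', ¬ Bx Z Rr (k x) i' x w

/-- the world `f` with the coins of `J` at level `0` -/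
def f0 (f : X → ℕ) (J : Finset X) : X → ℕ := fun x => if x ∈ J then 0 else f x

/-- the world `f` with the coins of `J` at the levels `k` -/
def fk (f : X → ℕ) (J : Finset X) (k : X → ℕ) : X → ℕ := fun x => if x ∈ J then k x else f x

/-- `J`-use: a use of a reference all of whose recorded systems contain `J` -/
def JUse (ix : V → Finset X) (rf : V → R) (Z : ℕ → X → Om → ℝ) (Rr : ℝ) (M : Om → Mach R S) (N T : ℕ)
    (f : X → ℕ) (J : Finset X) (w : Om) : Prop :=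
  ∃ i ≤ T, ∃ l < N, ∃ n, (M w).pk (fun j => Av ix rf Z Rr f j w) N i l = some n ∧
    ∀ 𝔳, rf 𝔳 = n → (∀ x ∈ ix 𝔳, rec' Z Rr (f x) i x w) → J ⊆ ix 𝔳

namespace JRV

variable (H : JRV P K ix rf has G Z Rr M N T g D Mu Nv kap B Db)
include H

theorem Zle {i j : ℕ} (h : i ≤ j) (x : X) (w : Om) : Z i x w ≤ Z j x w := by
  induction j, h using Nat.le_induction with
  | base => exact le_rfl
  | succ j _ ih => exact ih.trans (H.Zmono j x w)

theorem R0 : 0 < Rr := lt_of_lt_of_le one_pos H.R1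

theorem rec_mono {k i j : ℕ} (h : i ≤ j) {x : X} {w : Om} (hr : rec' Z Rr k i x w) : rec' Z Rr k j x w :=
  hr.trans (mul_le_mul_of_nonneg_left (H.Zle h x w) H.R0.le)

theorem Av_fac (f : X → ℕ) (i : ℕ) : Fac (K i) (Av ix rf Z Rr f i) := by
  intro v w h
  funext n
  apply propext
  unfold Av rec'
  refine exists_congr fun 𝔳 => and_congr Iff.rfl ?_
  refine forall_congr' fun x => forall_congr' fun _ => ?_
  rw [H.Zfac i x v w h]

theorem Tr_mono {i j : ℕ} (h : i ≤ j) {w : Om} {n : R} (hm : Tr rf has i w n) : Tr rf has j w n := by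
  induction j, h using Nat.le_induction with
  | base => exact hm
  | succ j _ ih => exact H.cum j w n ih

theorem crit_fac (f : X → ℕ) (n : R) (i l : ℕ) : ∀ v w, K i v = K i w →
    ((M v).Crit (fun j => Av ix rf Z Rr f j v) N n i l ↔ (M w).Crit (fun j => Av ix rf Z Rr f j w) N n i l) :=
  GMN.crit_fac H.filt H.mfac (fun i => H.Av_fac f i) n i l

theorem oa_fac (f : X → ℕ) (n : R) (i l : ℕ) : ∀ v w, K i v = K i w →
    ((M v).oa (fun j => Av ix rf Z Rr f j v) N n i l ↔ (M w).oa (fun j => Av ix rf Z Rr f j w) N n i l) :=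
  GMN.oa_fac H.filt H.mfac (fun i => H.Av_fac f i) n i l

theorem GeV_fac (f : X → ℕ) (n : R) {i j : ℕ} (hij : i ≤ j) : ∀ v w, K j v = K j w →
    (GeV ix rf Z Rr M N f n i v ↔ GeV ix rf Z Rr M N f n i w) := fun v w h =>
  H.oa_fac f n i N v w (H.filt.le hij v w h)

theorem EndV_fac (f : X → ℕ) (n : R) (t : ℕ) : ∀ v w, K t v = K t w →
    (EndV ix rf Z Rr M N f n t v ↔ EndV ix rf Z Rr M N f n t w) := by
  intro v w h
  unfold EndV
  refine and_congr (not_congr (H.GeV_fac f n le_rfl v w h)) (or_congr ?_ ?_)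
  · constructor
    · rintro ⟨j, hj, hg⟩; exact ⟨j, hj, (H.GeV_fac f n (by omega) v w h).1 hg⟩
    · rintro ⟨j, hj, hg⟩; exact ⟨j, hj, (H.GeV_fac f n (by omega) v w h).2 hg⟩
  · constructor
    · rintro ⟨l, hl, hg⟩; exact ⟨l, hl, (H.oa_fac f n t l v w h).1 hg⟩
    · rintro ⟨l, hl, hg⟩; exact ⟨l, hl, (H.oa_fac f n t l v w h).2 hg⟩

theorem Bx_fac (k i : ℕ) (x : X) : ∀ v w, K i v = K i w → (Bx Z Rr k i x v ↔ Bx Z Rr k i x w) := by
  intro v w h
  unfold Bx
  rw [H.Zfac i x v w h]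

theorem JCr_fac (f : X → ℕ) (J : Finset X) (i l : ℕ) : ∀ v w, K i v = K i w →
    (JCr ix rf Z Rr M N f J i l v ↔ JCr ix rf Z Rr M N f J i l w) := by
  intro v w h
  have e1 := mic_fac (N := N) H.filt H.mfac (fun i => H.Av_fac f i) i l v w h
  have e2 := H.mfac.on i v w h
  have e4 := pk_fac (N := N) H.filt H.mfac (fun i => H.Av_fac f i) i l v w h
  simp only at e1 e2 e4
  have e5 : ∀ x, rec' Z Rr (f x) i x v ↔ rec' Z Rr (f x) i x w := by
    intro x
    unfold rec'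
    rw [H.Zfac i x v w h]
  unfold JCr
  rw [e1, e2, e4]
  simp only [e5]

theorem EvJ_fac (f : X → ℕ) (J : Finset X) (k : X → ℕ) (t : ℕ) : ∀ v w, K t v = K t w →
    (EvJ ix rf Z Rr M N f J k t v ↔ EvJ ix rf Z Rr M N f J k t w) := by
  intro v w h
  have key : ∀ v w, K t v = K t w → EvJ ix rf Z Rr M N f J k t v → EvJ ix rf Z Rr M N f J k t w := by
    intro v w h ⟨i, hi, l, hl, hc, hb, hs⟩
    have h' := H.filt.le hi v w h
    refine ⟨i, hi, l, hl, (H.JCr_fac f J i l v w h').1 hc, fun x hx => (H.Bx_fac (k x) i x v w h').1 (hb x hx), ?_⟩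
    intro J' hJ' hne i' l' hil hl' hc'
    have h'' := H.filt.le (show i' ≤ t by omega) v w h
    obtain ⟨x, hx, hnb⟩ := hs J' hJ' hne i' l' hil hl' ((H.JCr_fac f J' i' l' v w h'').2 hc')
    exact ⟨x, hx, fun hb' => hnb ((H.Bx_fac (k x) i' x v w h'').2 hb')⟩
  exact ⟨key v w h, key w v h.symm⟩

omit H in
theorem EvJ_mono {f : X → ℕ} {J : Finset X} {k : X → ℕ} {s t : ℕ} (h : s ≤ t) {w : Om}
    (he : EvJ ix rf Z Rr M N f J k s w) : EvJ ix rf Z Rr M N f J k t w := by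
  obtain ⟨i, hi, r⟩ := he
  exact ⟨i, hi.trans h, r⟩

/-- LEMMA W -/
theorem lemW {f : X → ℕ} {J : Finset X} (hf : ∀ x ∈ J, f x = 0) {k : X → ℕ} {w : Om} (hw : P.p w ≠ 0)
    (he : EvJ ix rf Z Rr M N f J k T w) : JUse ix rf Z Rr M N T (fk f J k) J w := by
  classical
  obtain ⟨i, hi, l, hl, ⟨hun, 𝔳, hJ𝔳, hrec, hon, hpr⟩, hb, hs⟩ := he
  have h1 : ∀ i r, Av ix rf Z Rr f i w r → Av ix rf Z Rr (fk f J k) i w r := by
    rintro i r ⟨𝔲, hr, h⟩
    refine ⟨𝔲, hr, fun x hx => ?_⟩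
    by_cases hxJ : x ∈ J
    · have h2 := h x hx
      rw [hf x hxJ] at h2
      unfold fk
      rw [if_pos hxJ]
      exact rec_level (Nat.zero_le _) h2
    · unfold fk
      rw [if_neg hxJ]
      exact h x hx
  have hcr : (M w).Crit (fun j => Av ix rf Z Rr f j w) N (rf 𝔳) i l := ⟨hon, Mach.not_allowed hon hpr, hpr⟩
  have hA' : Av ix rf Z Rr (fk f J k) i w (rf 𝔳) := by
    refine ⟨𝔳, rfl, fun x hx => ?_⟩
    unfold fk
    by_cases hxJ : x ∈ J
    · rw [if_pos hxJ]; exact (hb x hxJ).1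
    · rw [if_neg hxJ]; exact hrec x hx hxJ
  obtain ⟨j, l', n, hjl, hl', hcn, hAn, hpk⟩ :=
    Mach.sep_first (M := M w) h1 (fun i hi => H.term _ w hw i hi) hi hl hcr hA'
  have hji : j ≤ i := by omega
  refine ⟨j, hji.trans hi, l', hl', n, hpk, ?_⟩
  intro 𝔲 hu hrecu
  by_contra hnot
  -- the intersection
  set J' := ix 𝔲 ∩ J with hJ'
  have hsub : J' ⊂ J := by
    refine ⟨inter_subset_right, fun hh => hnot fun x hx => ?_⟩
    exact (mem_inter.1 (hh hx)).1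
  have hne : J'.Nonempty := by
    by_contra hem
    rw [not_nonempty_iff_eq_empty] at hem
    apply hcn.2.1
    refine ⟨𝔲, hu, fun x hx => ?_⟩
    have hxJ : x ∉ J := fun hh => by
      have : x ∈ J' := mem_inter.2 ⟨hx, hh⟩
      rw [hem] at this
      exact absurd this (notMem_empty x)
    have h2 := hrecu x hx
    unfold fk at h2
    rwa [if_neg hxJ] at h2
  have hJc : JCr ix rf Z Rr M N f J' j l' w := by
    refine ⟨fun x hx hr => hun x (mem_inter.1 hx).2 (H.rec_mono hji hr), 𝔲, inter_subset_left, ?_, ?_, ?_⟩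
    · intro x hx hxJ'
      have hxJ : x ∉ J := fun hh => hxJ' (mem_inter.2 ⟨hx, hh⟩)
      have h2 := hrecu x hx
      unfold fk at h2
      rwa [if_neg hxJ] at h2
    · rw [hu]; exact hcn.1
    · rw [hu]; exact hcn.2.2
  obtain ⟨x, hx, hnb⟩ := hs J' hsub hne j l' (by omega) hl'.le hJc
  apply hnb
  have hxm := mem_inter.1 hx
  have h2 := hrecu x hxm.1
  unfold fk at h2
  rw [if_pos hxm.2] at h2
  exact ⟨h2, lt_of_le_of_lt (mul_le_mul_of_nonneg_left (H.Zle hji x w) H.R0.le) (hb x hxm.2).2⟩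

/-- the sets of names which occur -/
def subs (ix : V → Finset X) : Finset (Finset X) :=
  open Classical in (univ.biUnion fun 𝔳 => (ix 𝔳).powerset).erase ∅

omit H in
theorem mem_subs {J : Finset X} : J ∈ subs ix ↔ J.Nonempty ∧ ∃ 𝔳, J ⊆ ix 𝔳 := by
  classical
  unfold subs
  rw [mem_erase, mem_biUnion]
  constructor
  · rintro ⟨h1, 𝔳, _, h2⟩
    exact ⟨nonempty_iff_ne_empty.2 h1, 𝔳, mem_powerset.1 h2⟩
  · rintro ⟨h1, 𝔳, h2⟩
    exact ⟨nonempty_iff_ne_empty.1 h1, 𝔳, mem_univ _, mem_powerset.2 h2⟩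

theorem sum_JUse (f : X → ℕ) : ∑ J ∈ subs ix, P.Pr (JUse ix rf Z Rr M N T f J) ≤ 2 ^ D * Mu := by
  classical
  have h0 : ∑ J ∈ subs ix, P.Pr (JUse ix rf Z Rr M N T f J) ≤ 2 ^ D * P.E (nUseV ix rf Z Rr M N T f) := by
    unfold FP.Pr
    rw [← P.E_sum, ← P.E_smul]
    refine P.E_mono fun w _ => ?_
    unfold nUseV
    -- one micro moment
    have h1 : ∀ J ∈ subs ix, ind (JUse ix rf Z Rr M N T f J w) ≤ ∑ i ∈ range (T + 1), ∑ l ∈ range N,
        ind (∃ n, (M w).pk (fun j => Av ix rf Z Rr f j w) N i l = some n ∧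
          ∀ 𝔳, rf 𝔳 = n → (∀ x ∈ ix 𝔳, rec' Z Rr (f x) i x w) → J ⊆ ix 𝔳) := by
      intro J _
      by_cases hu : JUse ix rf Z Rr M N T f J w
      · rw [ind_of hu]
        obtain ⟨i, hi, l, hl, hp⟩ := hu
        have hb : ind (∃ n, (M w).pk (fun j => Av ix rf Z Rr f j w) N i l = some n ∧
          ∀ 𝔳, rf 𝔳 = n → (∀ x ∈ ix 𝔳, rec' Z Rr (f x) i x w) → J ⊆ ix 𝔳) = 1 := ind_of hp
        rw [← hb]
        refine le_trans ?_ (Finset.single_le_sum (f := fun i => ∑ l ∈ range N,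
          ind (∃ n, (M w).pk (fun j => Av ix rf Z Rr f j w) N i l = some n ∧
          ∀ 𝔳, rf 𝔳 = n → (∀ x ∈ ix 𝔳, rec' Z Rr (f x) i x w) → J ⊆ ix 𝔳))
          (fun j _ => Finset.sum_nonneg fun _ _ => ind_nonneg _) (mem_range.2 (by omega : i < T + 1)))
        exact Finset.single_le_sum (f := fun l => ind (∃ n, (M w).pk (fun j => Av ix rf Z Rr f j w) N i l = some n ∧
          ∀ 𝔳, rf 𝔳 = n → (∀ x ∈ ix 𝔳, rec' Z Rr (f x) i x w) → J ⊆ ix 𝔳))
          (fun _ _ => ind_nonneg _) (mem_range.2 hl)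
      · rw [ind_not hu]
        exact Finset.sum_nonneg fun _ _ => Finset.sum_nonneg fun _ _ => ind_nonneg _
    refine (Finset.sum_le_sum h1).trans ?_
    rw [Finset.sum_comm, Finset.mul_sum]
    refine Finset.sum_le_sum fun i _ => ?_
    rw [Finset.sum_comm, Finset.mul_sum]
    refine Finset.sum_le_sum fun l _ => ?_
    cases hp : (M w).pk (fun j => Av ix rf Z Rr f j w) N i l with
    | none =>
      rw [Finset.sum_eq_zero]
      · exact mul_nonneg (by positivity) (ind_nonneg _)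
      · intro J _
        exact ind_not (by rintro ⟨n, hn, _⟩; exact absurd hn (by simp))
    | some n =>
      rw [ind_of (show (some n : Option R) ≠ none by simp), mul_one]
      have hq : (M w).pick i (Av ix rf Z Rr f i w) ((M w).mic (fun j => Av ix rf Z Rr f j w) N i l) = some n := hp
      obtain ⟨𝔳, hv, hrec⟩ := (Mach.pick_some.1 hq).1.2
      have h2 : ∀ J ∈ subs ix, ind (∃ n', (some n : Option R) = some n' ∧
          ∀ 𝔳, rf 𝔳 = n' → (∀ x ∈ ix 𝔳, rec' Z Rr (f x) i x w) → J ⊆ ix 𝔳) ≤ if J ⊆ ix 𝔳 then 1 else 0 := by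
        intro J _
        by_cases hJ : J ⊆ ix 𝔳
        · rw [if_pos hJ]; exact ind_le_one _
        · rw [if_neg hJ]
          apply le_of_eq
          apply ind_not
          rintro ⟨n', hn', h⟩
          exact hJ (h 𝔳 (by rw [hv]; exact Option.some.inj hn') hrec)
      refine (Finset.sum_le_sum h2).trans ?_
      rw [← Finset.sum_filter, Finset.sum_const, nsmul_eq_mul, mul_one]
      have h3 : ((subs ix).filter fun J => J ⊆ ix 𝔳) ⊆ (ix 𝔳).powerset := by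
        intro J hJ
        exact mem_powerset.2 (mem_filter.1 hJ).2
      have h4 := Finset.card_le_card h3
      rw [Finset.card_powerset] at h4
      calc (((subs ix).filter fun J => J ⊆ ix 𝔳).card : ℝ) ≤ ((2 ^ (ix 𝔳).card : ℕ) : ℝ) := by exact_mod_cast h4
        _ = (2 : ℝ) ^ (ix 𝔳).card := by push_cast; ring
        _ ≤ 2 ^ D := pow_le_pow_right₀ (by norm_num) (H.card 𝔳)
  exact h0.trans (mul_le_mul_of_nonneg_left (H.use f) (by positivity))

/-- worlds which agree up to time `s` -/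
theorem Av_f0 {f : X → ℕ} {J : Finset X} {s : ℕ} {w : Om} (h : ∀ x ∈ J, ¬ rec' Z Rr (f x) s x w) {j : ℕ}
    (hj : j ≤ s) (x : X) : rec' Z Rr (f x) j x w ↔ rec' Z Rr (f0 f J x) j x w := by
  unfold f0
  by_cases hx : x ∈ J
  · rw [if_pos hx]
    have a1 : ¬ rec' Z Rr (f x) j x w := fun hh => h x hx (H.rec_mono hj hh)
    have a2 : ¬ rec' Z Rr 0 j x w := fun hh => a1 (rec_level (Nat.zero_le _) hh)
    exact ⟨fun hh => absurd hh a1, fun hh => absurd hh a2⟩
  · rw [if_neg hx]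

theorem agree {f : X → ℕ} {J : Finset X} {s : ℕ} {w : Om} (h : ∀ x ∈ J, ¬ rec' Z Rr (f x) s x w) :
    ∀ j ≤ s, ∀ r, Av ix rf Z Rr f j w r ↔ Av ix rf Z Rr (f0 f J) j w r := by
  intro j hj r
  unfold Av
  refine exists_congr fun 𝔳 => and_congr Iff.rfl (forall_congr' fun x => forall_congr' fun _ => ?_)
  exact H.Av_f0 h hj x

theorem JCr_agree {f : X → ℕ} {J : Finset X} {s : ℕ} {w : Om} (h : ∀ x ∈ J, ¬ rec' Z Rr (f x) s x w)
    {J' : Finset X} {i l : ℕ} (hi : i ≤ s) :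
    JCr ix rf Z Rr M N f J' i l w ↔ JCr ix rf Z Rr M N (f0 f J) J' i l w := by
  have h2 : ∀ j ≤ i, ∀ r, Av ix rf Z Rr f j w r ↔ Av ix rf Z Rr (f0 f J) j w r :=
    fun j hj r => H.agree h j (hj.trans hi) r
  have e1 := Mach.mic_eq_of_agree (M := M w) (N := N) i h2 l
  have e2 : (M w).pk (fun j => Av ix rf Z Rr f j w) N i l = (M w).pk (fun j => Av ix rf Z Rr (f0 f J) j w) N i l :=
    Mach.pk_congr i rfl (fun _ _ => rfl) (fun _ _ => rfl) (fun _ _ => rfl)
      (fun j hj => funext fun r => propext (h2 j hj r)) l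
  have e3 := fun x => H.Av_f0 h hi x
  unfold JCr
  rw [e1, e2]
  simp only [e3]

/-- the box exists -/
theorem box_exists {i : ℕ} {x : X} {w : Om} (hg : (1 / 2 : ℝ) ^ g ≤ Rr * Z i x w) (h0 : ¬ rec' Z Rr 0 i x w) :
    ∃ k ∈ Icc 1 g, Bx Z Rr k i x w := by
  classical
  have hex : ∃ k, (1 / 2 : ℝ) ^ k ≤ Rr * Z i x w := ⟨g, hg⟩
  set k := Nat.find hex with hk
  have hk1 : (1 / 2 : ℝ) ^ k ≤ Rr * Z i x w := Nat.find_spec hex
  have hkg : k ≤ g := Nat.find_min' hex hg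
  have hk0 : 1 ≤ k := by
    rcases Nat.eq_zero_or_pos k with e | e
    · exfalso
      apply h0
      unfold rec'
      rw [e] at hk1
      exact hk1
    · exact e
  refine ⟨k, mem_Icc.2 ⟨hk0, hkg⟩, hk1, ?_⟩
  have h1 := Nat.find_min hex (m := k - 1) (by omega)
  rw [not_le] at h1
  have e : (2 : ℝ) * (1 / 2) ^ k = (1 / 2) ^ (k - 1) := by
    obtain ⟨l, hl⟩ : ∃ l, k = l + 1 := ⟨k - 1, by omega⟩
    rw [hl, Nat.add_sub_cancel, pow_succ]; ring
  rw [e]
  exact h1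

/-- the families of levels -/
def lev (g : ℕ) (J : Finset X) : Finset (X → ℕ) := Fintype.piFinset fun x => if x ∈ J then Icc 1 g else {0}

omit H in
theorem mem_lev {J : Finset X} {k : X → ℕ} : k ∈ lev g J ↔ (∀ x ∈ J, k x ∈ Icc 1 g) ∧ ∀ x, x ∉ J → k x = 0 := by
  unfold lev
  rw [Fintype.mem_piFinset]
  constructor
  · intro h
    refine ⟨fun x hx => ?_, fun x hx => ?_⟩
    · have := h x; rwa [if_pos hx] at this
    · have := h x; rw [if_neg hx] at this; exact mem_singleton.1 this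
  · rintro ⟨h1, h2⟩ x
    by_cases hx : x ∈ J
    · rw [if_pos hx]; exact h1 x hx
    · rw [if_neg hx]; exact mem_singleton.2 (h2 x hx)

/-- a critical moment of a true reference gives a minimal critical set in its box -/
theorem min_crit {f : X → ℕ} {s l : ℕ} {w : Om} (hw : P.p w ≠ 0) (hl : l ≤ N) {n : R}
    (hc : (M w).Crit (fun j => Av ix rf Z Rr f j w) N n s l) {𝔳 : V} (hv : rf 𝔳 = n) (hh : has s w 𝔳)
    (hG : G s w) :
    ∃ J ∈ subs ix, J ⊆ ix 𝔳 ∧ ∃ k ∈ lev g J, EvJ ix rf Z Rr M N (f0 f J) J k s w ∧ ∀ x ∈ J, Bx Z Rr (k x) s x w := by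
  classical
  -- unrecorded names
  set I := (ix 𝔳).filter fun x => ¬ rec' Z Rr (f x) s x w with hI
  have hIne : I.Nonempty := by
    by_contra hem
    rw [not_nonempty_iff_eq_empty] at hem
    apply hc.2.1
    refine ⟨𝔳, hv, fun x hx => ?_⟩
    by_contra hr
    have : x ∈ I := mem_filter.2 ⟨hx, hr⟩
    rw [hem] at this
    exact absurd this (notMem_empty x)
  have hIun : ∀ x ∈ I, ¬ rec' Z Rr (f x) s x w := fun x hx => (mem_filter.1 hx).2
  -- boxes
  have hbx : ∀ x ∈ I, ∃ k ∈ Icc 1 g, Bx Z Rr k s x w := by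
    intro x hx
    refine H.box_exists (H.low s w 𝔳 hw hh hG x (mem_filter.1 hx).1) fun h0 => ?_
    exact hIun x hx (rec_level (Nat.zero_le _) h0)
  choose! kk hkk hbb using hbx
  -- the candidates
  set Q : Finset X → Prop := fun J => J.Nonempty ∧ J ⊆ I ∧ ∃ i l', (i < s ∨ (i = s ∧ l' ≤ l)) ∧ l' ≤ N ∧
    JCr ix rf Z Rr M N f J i l' w ∧ ∀ x ∈ J, Bx Z Rr (kk x) i x w with hQ
  have hQI : Q I := by
    refine ⟨hIne, subset_rfl, s, l, Or.inr ⟨rfl, le_rfl⟩, hl, ?_, hbb⟩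
    refine ⟨hIun, 𝔳, filter_subset _ _, ?_, ?_, ?_⟩
    · intro x hx hxI
      by_contra hr
      exact hxI (mem_filter.2 ⟨hx, hr⟩)
    · rw [hv]; exact hc.1
    · rw [hv]; exact hc.2.2
  obtain ⟨J, hJ, hJmin⟩ := Finset.exists_min_image (I.powerset.filter Q) (fun J => J.card)
    ⟨I, mem_filter.2 ⟨mem_powerset.2 subset_rfl, hQI⟩⟩
  have hJQ : Q J := (mem_filter.1 hJ).2
  obtain ⟨hJne, hJI, i, l', hil, hl', hcr, hbJ⟩ := hJQ
  have hJun : ∀ x ∈ J, ¬ rec' Z Rr (f x) s x w := fun x hx => hIun x (hJI hx)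
  refine ⟨J, mem_subs.2 ⟨hJne, 𝔳, hJI.trans (filter_subset _ _)⟩, hJI.trans (filter_subset _ _),
    fun x => if x ∈ J then kk x else 0, mem_lev.2 ⟨fun x hx => ?_, fun x hx => if_neg hx⟩, ?_, ?_⟩
  · show (if x ∈ J then kk x else 0) ∈ Icc 1 g
    rw [if_pos hx]; exact hkk x (hJI hx)
  · refine ⟨i, by omega, l', hl', (H.JCr_agree hJun (by omega)).1 hcr, fun x hx => ?_, ?_⟩
    · show Bx Z Rr (if x ∈ J then kk x else 0) i x w
      rw [if_pos hx]; exact hbJ x hx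
    · intro J' hJ' hne' i' l'' hil' hl'' hcr'
      by_contra hno
      push Not at hno
      have hbJ' : ∀ x ∈ J', Bx Z Rr (kk x) i' x w := by
        intro x hx
        have := hno x hx
        rwa [if_pos (hJ'.1 hx)] at this
      have hQ' : Q J' := ⟨hne', hJ'.1.trans hJI, i', l'', by omega, hl'',
        (H.JCr_agree hJun (by omega)).2 hcr', hbJ'⟩
      have := hJmin J' (mem_filter.2 ⟨mem_powerset.2 (hJ'.1.trans hJI), hQ'⟩)
      have h2 := Finset.card_lt_card hJ'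
      omega
  · intro x hx
    show Bx Z Rr (if x ∈ J then kk x else 0) s x w
    rw [if_pos hx]; exact hbb x (hJI hx)

theorem Ge_crit {f : X → ℕ} {n : R} {i : ℕ} {w : Om} (hw : P.p w ≠ 0) (hi : i ≤ T)
    (h : GeV ix rf Z Rr M N f n i w) : (M w).Crit (fun j => Av ix rf Z Rr f j w) N n i N :=
  Mach.crit_of_idle h (H.term f w hw i hi)

/-- the three places where a failing hidden vertex is counted -/
theorem fail_cases {f : X → ℕ} {n : R} {w : Om} {i l : ℕ} (hi : i ≤ T) (hl : l ≤ N)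
    (hc : (M w).Crit (fun j => Av ix rf Z Rr f j w) N n i l) (hm : Tr rf has i w n) :
    (∃ t ∈ range (T + 1), EndV ix rf Z Rr M N f n t w ∧
        (∃ l ≤ N, (M w).Crit (fun j => Av ix rf Z Rr f j w) N n t l) ∧ Tr rf has t w n) ∨
      (∃ t ∈ range T, GeV ix rf Z Rr M N f n t w ∧ EndV ix rf Z Rr M N f n (t + 1) w ∧ Tr rf has t w n) ∨
      (GeV ix rf Z Rr M N f n T w ∧ Tr rf has T w n) := by
  classical
  by_cases h1 : GeV ix rf Z Rr M N f n i w
  · by_cases h2 : ∃ t, i ≤ t ∧ t ≤ T ∧ ¬ GeV ix rf Z Rr M N f n t w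
    · set t := Nat.find h2 with ht
      have ht1 : i ≤ t ∧ t ≤ T ∧ ¬ GeV ix rf Z Rr M N f n t w := Nat.find_spec h2
      have hit : i < t := by
        rcases Nat.lt_or_ge i t with h | h
        · exact h
        · exfalso
          have : t = i := le_antisymm h ht1.1
          rw [this] at ht1
          exact ht1.2.2 h1
      obtain ⟨s, hs⟩ : ∃ s, t = s + 1 := ⟨t - 1, by omega⟩
      have hs1 : GeV ix rf Z Rr M N f n s w := by
        by_contra hn
        exact Nat.find_min h2 (m := s) (by omega) ⟨by omega, by omega, hn⟩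
      refine Or.inr (Or.inl ⟨s, mem_range.2 (by omega), hs1, ?_, H.Tr_mono (by omega) hm⟩)
      rw [← hs]
      exact ⟨ht1.2.2, Or.inl ⟨s, hs.symm, hs1⟩⟩
    · refine Or.inr (Or.inr ⟨?_, H.Tr_mono hi hm⟩)
      by_contra hn
      exact h2 ⟨T, hi, le_rfl, hn⟩
  · exact Or.inl ⟨i, mem_range.2 (by omega), ⟨h1, Or.inr ⟨l, hl, hc.oa⟩⟩, ⟨l, hl, hc⟩, hm⟩

/-- conditional number of ends -/
theorem ends_ce (f : X → ℕ) (n : R) {i : ℕ} (hi : i ≤ T) {w : Om} (hw : P.p w ≠ 0) :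
    P.ce (K i) (fun v => ∑ t ∈ Icc i T, ind (EndV ix rf Z Rr M N f n t v)) w ≤ Nv := by
  have h := H.ends f n i hi (fun v => K i v = K i w) (fun v v' hv => by rw [hv])
  have hm : 0 < P.m (K i) w := P.m_pos _ hw
  unfold FP.ce
  rw [div_le_iff₀ hm]
  have e1 : P.Pr (fun v => K i v = K i w) = P.m (K i) w := rfl
  rw [e1] at h
  refine le_trans (le_of_eq ?_) h
  unfold FP.Pr
  rw [← P.E_sum]
  refine P.E_congr fun v _ => ?_
  rw [Finset.mul_sum]
  exact Finset.sum_congr rfl fun t _ => (ind_and _ _).symm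

/-- weighted number of ends -/
theorem sum_ends (f : X → ℕ) (n : R) {U : ℕ → Om → ℝ} (hU : ∀ i, Fac (K i) (U i)) (hU0 : ∀ i w, 0 ≤ U i w)
    (hUm : ∀ i w, U i w ≤ U (i + 1) w) :
    ∑ t ∈ range (T + 1), P.E (fun w => ind (EndV ix rf Z Rr M N f n t w) * U t w) ≤ Nv * P.E (U T) := by
  classical
  -- increments
  set d : ℕ → Om → ℝ := fun s w => if s = 0 then U 0 w else U s w - U (s - 1) w with hd
  have hd0 : ∀ s w, 0 ≤ d s w := by
    intro s w
    simp only [hd]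
    split_ifs with h
    · exact hU0 0 w
    · obtain ⟨r, hr⟩ : ∃ r, s = r + 1 := ⟨s - 1, by omega⟩
      rw [hr, Nat.add_sub_cancel]
      have := hUm r w
      linarith
  have hdf : ∀ s, Fac (K s) (d s) := by
    intro s v w h
    simp only [hd]
    split_ifs with h0
    · subst h0; exact hU 0 v w h
    · rw [hU s v w h, hU (s - 1) v w (H.filt.le (by omega) v w h)]
  have hsum : ∀ t w, U t w = ∑ s ∈ range (t + 1), d s w := by
    intro t w
    induction t with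
    | zero => simp [hd]
    | succ t ih =>
      rw [Finset.sum_range_succ, ← ih]
      simp [hd]
  have h1 : ∑ t ∈ range (T + 1), P.E (fun w => ind (EndV ix rf Z Rr M N f n t w) * U t w) =
      ∑ s ∈ range (T + 1), P.E (fun w => d s w * ∑ t ∈ Icc s T, ind (EndV ix rf Z Rr M N f n t w)) := by
    rw [← P.E_sum, ← P.E_sum]
    refine P.E_congr fun w _ => ?_
    have e1 : ∀ t ∈ range (T + 1), ind (EndV ix rf Z Rr M N f n t w) * U t w =
        ∑ s ∈ range (T + 1), if s ≤ t then d s w * ind (EndV ix rf Z Rr M N f n t w) else 0 := by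
      intro t ht
      have ht' := mem_range.1 ht
      rw [hsum t w, Finset.mul_sum, ← Finset.sum_filter]
      have e2 : (range (T + 1)).filter (fun s => s ≤ t) = range (t + 1) := by
        ext s; simp only [mem_filter, mem_range]; omega
      rw [e2]
      exact Finset.sum_congr rfl fun s _ => mul_comm _ _
    rw [Finset.sum_congr rfl e1, Finset.sum_comm]
    refine Finset.sum_congr rfl fun s hs => ?_
    rw [← Finset.sum_filter, Finset.mul_sum]
    refine Finset.sum_congr ?_ fun _ _ => rfl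
    ext t; simp only [mem_filter, mem_range, mem_Icc]; omega
  rw [h1]
  have h2 : ∀ s ∈ range (T + 1), P.E (fun w => d s w * ∑ t ∈ Icc s T, ind (EndV ix rf Z Rr M N f n t w)) ≤
      Nv * P.E (d s) := by
    intro s hs
    have hs' : s ≤ T := by have := mem_range.1 hs; omega
    rw [← P.E_mul_ce (hdf s), ← P.E_smul]
    refine P.E_mono fun w hw => ?_
    have := H.ends_ce f n hs' hw
    have h0 := hd0 s w
    nlinarith
  refine (Finset.sum_le_sum h2).trans (le_of_eq ?_)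
  rw [← Finset.mul_sum, ← P.E_sum]
  congr 1
  exact P.E_congr fun w _ => (hsum T w).symm

/-- product of the other scales -/
def Yp (ix : V → Finset X) (Z : ℕ → X → Om → ℝ) (J : Finset X) (𝔳 : V) (t : ℕ) (w : Om) : ℝ :=
  ∏ x ∈ ix 𝔳 \ J, Z t x w

theorem Yp_nonneg (J : Finset X) (𝔳 : V) (t : ℕ) (w : Om) : 0 ≤ Yp ix Z J 𝔳 t w :=
  Finset.prod_nonneg fun x _ => H.Z0 t x w

theorem Yp_mono (J : Finset X) (𝔳 : V) (t : ℕ) (w : Om) : Yp ix Z J 𝔳 t w ≤ Yp ix Z J 𝔳 (t + 1) w :=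
  Finset.prod_le_prod (fun x _ => H.Z0 t x w) fun x _ => H.Zmono t x w

theorem Yp_fac (J : Finset X) (𝔳 : V) (t : ℕ) : Fac (K t) (Yp ix Z J 𝔳 t) := by
  intro v w h
  unfold Yp
  exact Finset.prod_congr rfl fun x _ => H.Zfac t x v w h

/-- the constant of a box -/
def cJ (Rr : ℝ) (J : Finset X) (k : X → ℕ) : ℝ := ∏ x ∈ J, (2 * (1 / 2 : ℝ) ^ (k x) / Rr)

theorem cJ_nonneg (J : Finset X) (k : X → ℕ) : 0 ≤ cJ Rr J k :=
  Finset.prod_nonneg fun x _ => div_nonneg (by positivity) H.R0.le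

theorem prod_le {J : Finset X} {𝔳 : V} (hJ : J ⊆ ix 𝔳) {k : X → ℕ} {t : ℕ} {w : Om}
    (hb : ∀ x ∈ J, Bx Z Rr (k x) t x w) : ∏ x ∈ ix 𝔳, Z t x w ≤ cJ Rr J k * Yp ix Z J 𝔳 t w := by
  classical
  have e : ∏ x ∈ ix 𝔳, Z t x w = (∏ x ∈ J, Z t x w) * Yp ix Z J 𝔳 t w := by
    unfold Yp
    rw [mul_comm]
    exact (Finset.prod_sdiff hJ).symm
  rw [e]
  refine mul_le_mul_of_nonneg_right ?_ (H.Yp_nonneg J 𝔳 t w)
  refine Finset.prod_le_prod (fun x _ => H.Z0 t x w) fun x hx => ?_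
  rw [le_div_iff₀ H.R0]
  have := (hb x hx).2
  linarith

/-- mass of the good hidden vertices with the system `𝔳` on an event of the node in the box -/
theorem mass_le {J : Finset X} {𝔳 : V} (hJ : J ⊆ ix 𝔳) {k : X → ℕ} {t : ℕ} {E : Om → Prop}
    (hE : ∀ v w, K t v = K t w → (E v ↔ E w)) (hb : ∀ w, P.p w ≠ 0 → E w → ∀ x ∈ J, Bx Z Rr (k x) t x w) :
    P.Pr (fun w => E w ∧ (has t w 𝔳 ∧ G t w)) ≤
      kap * cJ Rr J k * P.E (fun w => ind (E w) * Yp ix Z J 𝔳 t w) := by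
  have h1 : P.Pr (fun w => E w ∧ (has t w 𝔳 ∧ G t w)) =
      P.E (fun w => ind (E w) * P.ce (K t) (fun v => ind (has t v 𝔳 ∧ G t v)) w) := by
    rw [P.E_ind_ce hE]
    unfold FP.Pr
    exact P.E_congr fun w _ => ind_and _ _
  rw [h1, ← P.E_smul]
  refine P.E_mono fun w hw => ?_
  by_cases he : E w
  · rw [ind_of he, one_mul, one_mul]
    have h2 := H.mass t 𝔳 w hw
    have h3 := H.prod_le hJ (hb w hw he)
    calc P.ce (K t) (fun v => ind (has t v 𝔳 ∧ G t v)) w ≤ kap * ∏ x ∈ ix 𝔳, Z t x w := h2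
      _ ≤ kap * (cJ Rr J k * Yp ix Z J 𝔳 t w) := mul_le_mul_of_nonneg_left h3 H.kap0
      _ = _ := by ring
  · rw [ind_not he]; simp

/-- the same one step later -/
theorem mass_le' {J : Finset X} {𝔳 : V} (hJ : J ⊆ ix 𝔳) {k : X → ℕ} {t : ℕ} {E : Om → Prop}
    (hE : ∀ v w, K (t + 1) v = K (t + 1) w → (E v ↔ E w))
    (hb : ∀ w, P.p w ≠ 0 → E w → ∀ x ∈ J, Bx Z Rr (k x) t x w) :
    P.Pr (fun w => E w ∧ (has t w 𝔳 ∧ G t w)) ≤
      Db * (kap * cJ Rr J k) * P.E (fun w => ind (E w) * Yp ix Z J 𝔳 (t + 1) w) := by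
  have h1 : P.Pr (fun w => E w ∧ (has t w 𝔳 ∧ G t w)) =
      P.E (fun w => ind (E w) * P.ce (K (t + 1)) (fun v => ind (has t v 𝔳 ∧ G t v)) w) := by
    rw [P.E_ind_ce hE]
    unfold FP.Pr
    exact P.E_congr fun w _ => ind_and _ _
  rw [h1, ← P.E_smul]
  refine P.E_mono fun w hw => ?_
  by_cases he : E w
  · rw [ind_of he, one_mul, one_mul]
    have h2 := H.mass t 𝔳 w hw
    have h3 := H.prod_le hJ (hb w hw he)
    have h4 := H.dbl t w hw (fun v => has t v 𝔳 ∧ G t v)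
    have h5 := H.Yp_mono J 𝔳 t w
    have h6 := H.cJ_nonneg J k
    have hD : 0 ≤ Db := zero_le_one.trans H.Db1
    calc P.ce (K (t + 1)) (fun v => ind (has t v 𝔳 ∧ G t v)) w
        ≤ Db * P.ce (K t) (fun v => ind (has t v 𝔳 ∧ G t v)) w := h4
      _ ≤ Db * (kap * ∏ x ∈ ix 𝔳, Z t x w) := mul_le_mul_of_nonneg_left h2 hD
      _ ≤ Db * (kap * (cJ Rr J k * Yp ix Z J 𝔳 t w)) :=
          mul_le_mul_of_nonneg_left (mul_le_mul_of_nonneg_left h3 H.kap0) hD
      _ ≤ Db * (kap * (cJ Rr J k * Yp ix Z J 𝔳 (t + 1) w)) :=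
          mul_le_mul_of_nonneg_left (mul_le_mul_of_nonneg_left (mul_le_mul_of_nonneg_left h5 h6) H.kap0) hD
      _ = _ := by ring
  · rw [ind_not he]; simp

/-- STEP 3: failing in the world `f` -/
theorem fail_le (f : X → ℕ) :
    P.Pr (fun w => FailV ix rf has Z Rr M N T f w ∧ ∀ i ≤ T, G i w) ≤
      ∑ J ∈ subs ix, ∑ k ∈ lev g J, 2 * Db * (Nv + 1) * (kap * cJ Rr J k) * B *
        P.Pr (EvJ ix rf Z Rr M N (f0 f J) J k T) := by
  classical
  have hN := H.Nv0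
  have hkap := H.kap0
  have hDb1 := H.Db1
  have hDb : 0 ≤ Db := zero_le_one.trans hDb1
  -- the events
  set A : Finset X → (X → ℕ) → ℕ → Om → Prop := fun J k t w => EvJ ix rf Z Rr M N (f0 f J) J k t w with hA
  set E1 : Finset X → (X → ℕ) → V → ℕ → Om → Prop := fun J k 𝔳 t w =>
    (EndV ix rf Z Rr M N f (rf 𝔳) t w ∧ A J k t w) ∧ ∀ x ∈ J, Bx Z Rr (k x) t x w with hE1
  set E2 : Finset X → (X → ℕ) → V → ℕ → Om → Prop := fun J k 𝔳 t w =>
    (EndV ix rf Z Rr M N f (rf 𝔳) (t + 1) w ∧ A J k (t + 1) w) ∧ ∀ x ∈ J, Bx Z Rr (k x) t x w with hE2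
  set E3 : Finset X → (X → ℕ) → Om → Prop := fun J k w => A J k T w ∧ ∀ x ∈ J, Bx Z Rr (k x) T x w with hE3
  have hBf : ∀ (J : Finset X) (k : X → ℕ) (t : ℕ) (v w : Om), K t v = K t w →
      ((∀ x ∈ J, Bx Z Rr (k x) t x v) ↔ ∀ x ∈ J, Bx Z Rr (k x) t x w) := fun J k t v w h =>
    forall_congr' fun x => forall_congr' fun _ => H.Bx_fac (k x) t x v w h
  have hcov : ∀ w, P.p w ≠ 0 → (FailV ix rf has Z Rr M N T f w ∧ ∀ i ≤ T, G i w) →
      ∃ J ∈ subs ix, ∃ k ∈ lev g J, ∃ 𝔳 ∈ univ.filter (fun 𝔳 => J ⊆ ix 𝔳),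
        ((∃ t ∈ range (T + 1), E1 J k 𝔳 t w ∧ (has t w 𝔳 ∧ G t w)) ∨
          (∃ t ∈ range T, E2 J k 𝔳 t w ∧ (has t w 𝔳 ∧ G t w))) ∨ (E3 J k w ∧ (has T w 𝔳 ∧ G T w)) := by
    rintro w hw ⟨⟨n, i, hi, l, hl, hc, hm⟩, hG⟩
    rcases H.fail_cases hi hl hc hm with ⟨t, ht, he, ⟨l', hl', hc'⟩, ⟨𝔳, hv, hh⟩⟩ | ⟨t, ht, hg, he, ⟨𝔳, hv, hh⟩⟩ |
      ⟨hg, ⟨𝔳, hv, hh⟩⟩
    · have ht' := mem_range.1 ht
      obtain ⟨J, hJ, hJv, k, hk, hev, hb⟩ := H.min_crit hw hl' hc' hv hh (hG t (by omega))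
      refine ⟨J, hJ, k, hk, 𝔳, mem_filter.2 ⟨mem_univ _, hJv⟩, Or.inl (Or.inl ⟨t, ht, ⟨⟨?_, hev⟩, hb⟩, hh,
        hG t (by omega)⟩)⟩
      rw [hv]; exact he
    · have ht' := mem_range.1 ht
      obtain ⟨J, hJ, hJv, k, hk, hev, hb⟩ := H.min_crit hw le_rfl (H.Ge_crit hw (by omega) hg) hv hh
        (hG t (by omega))
      refine ⟨J, hJ, k, hk, 𝔳, mem_filter.2 ⟨mem_univ _, hJv⟩, Or.inl (Or.inr ⟨t, ht, ⟨⟨?_, EvJ_mono (by omega) hev⟩,
        hb⟩, hh, hG t (by omega)⟩)⟩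
      rw [hv]; exact he
    · obtain ⟨J, hJ, hJv, k, hk, hev, hb⟩ := H.min_crit hw le_rfl (H.Ge_crit hw le_rfl hg) hv hh (hG T le_rfl)
      exact ⟨J, hJ, k, hk, 𝔳, mem_filter.2 ⟨mem_univ _, hJv⟩, Or.inr ⟨⟨hev, hb⟩, hh, hG T le_rfl⟩⟩
  refine (P.Pr_mono hcov).trans ((P.Pr_ex_le _ _).trans (Finset.sum_le_sum fun J hJ => ?_))
  refine (P.Pr_ex_le _ _).trans (Finset.sum_le_sum fun k hk => ?_)
  refine (P.Pr_ex_le _ _).trans ?_
  have hJne : J.Nonempty := (mem_subs.1 hJ).1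
  have hc0 := H.cJ_nonneg J k
  -- the weights
  set U : V → ℕ → Om → ℝ := fun 𝔳 t w => ind (A J k t w) * Yp ix Z J 𝔳 t w with hU
  have hAf : ∀ t v w, K t v = K t w → (A J k t v ↔ A J k t w) := fun t v w h => H.EvJ_fac (f0 f J) J k t v w h
  have hUf : ∀ 𝔳 i, Fac (K i) (U 𝔳 i) := fun 𝔳 i => (Fac.ind (hAf i)).mul (H.Yp_fac J 𝔳 i)
  have hU0 : ∀ 𝔳 i w, 0 ≤ U 𝔳 i w := fun 𝔳 i w => mul_nonneg (ind_nonneg _) (H.Yp_nonneg J 𝔳 i w)
  have hUm : ∀ 𝔳 i w, U 𝔳 i w ≤ U 𝔳 (i + 1) w := by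
    intro 𝔳 i w
    simp only [hU]
    by_cases h : A J k i w
    · rw [ind_of h, ind_of (EvJ_mono (Nat.le_succ i) h), one_mul, one_mul]
      exact H.Yp_mono J 𝔳 i w
    · rw [ind_not h, zero_mul]
      exact mul_nonneg (ind_nonneg _) (H.Yp_nonneg J 𝔳 _ w)
  have hone : ∀ 𝔳 ∈ univ.filter (fun 𝔳 => J ⊆ ix 𝔳),
      P.Pr (fun w => ((∃ t ∈ range (T + 1), E1 J k 𝔳 t w ∧ (has t w 𝔳 ∧ G t w)) ∨
          (∃ t ∈ range T, E2 J k 𝔳 t w ∧ (has t w 𝔳 ∧ G t w))) ∨ (E3 J k w ∧ (has T w 𝔳 ∧ G T w))) ≤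
        2 * Db * (Nv + 1) * (kap * cJ Rr J k) * P.E (U 𝔳 T) := by
    intro 𝔳 h𝔳
    have hJv : J ⊆ ix 𝔳 := (mem_filter.1 h𝔳).2
    have b1 : ∑ t ∈ range (T + 1), P.Pr (fun w => E1 J k 𝔳 t w ∧ (has t w 𝔳 ∧ G t w)) ≤
        kap * cJ Rr J k * (Nv * P.E (U 𝔳 T)) := by
      refine le_trans ?_ (mul_le_mul_of_nonneg_left (H.sum_ends f (rf 𝔳) (hUf 𝔳) (hU0 𝔳) (hUm 𝔳))
        (mul_nonneg hkap hc0))
      rw [Finset.mul_sum]
      refine Finset.sum_le_sum fun t _ => ?_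
      refine (H.mass_le hJv (k := k) (t := t) (E := E1 J k 𝔳 t) (fun v w h => ?_) (fun w _ h => h.2)).trans ?_
      · simp only [hE1]
        exact and_congr (and_congr (H.EndV_fac f (rf 𝔳) t v w h) (hAf t v w h)) (hBf J k t v w h)
      · refine mul_le_mul_of_nonneg_left (P.E_mono fun w _ => ?_) (mul_nonneg hkap hc0)
        simp only [hU]
        by_cases h : E1 J k 𝔳 t w
        · rw [ind_of h, ind_of h.1.1, ind_of h.1.2]
          ring_nf; exact le_rfl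
        · rw [ind_not h, zero_mul]
          exact mul_nonneg (ind_nonneg _) (hU0 𝔳 t w)
    have b2 : ∑ t ∈ range T, P.Pr (fun w => E2 J k 𝔳 t w ∧ (has t w 𝔳 ∧ G t w)) ≤
        Db * (kap * cJ Rr J k) * (Nv * P.E (U 𝔳 T)) := by
      refine le_trans ?_ (mul_le_mul_of_nonneg_left (H.sum_ends f (rf 𝔳) (hUf 𝔳) (hU0 𝔳) (hUm 𝔳))
        (mul_nonneg hDb (mul_nonneg hkap hc0)))
      have h2 : ∑ t ∈ range T, P.Pr (fun w => E2 J k 𝔳 t w ∧ (has t w 𝔳 ∧ G t w)) ≤ ∑ t ∈ range T,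
          Db * (kap * cJ Rr J k) * P.E (fun w => ind (EndV ix rf Z Rr M N f (rf 𝔳) (t + 1) w) * U 𝔳 (t + 1) w) := by
        refine Finset.sum_le_sum fun t _ => ?_
        refine (H.mass_le' hJv (k := k) (t := t) (E := E2 J k 𝔳 t) (fun v w h => ?_) (fun w _ h => h.2)).trans ?_
        · simp only [hE2]
          exact and_congr (and_congr (H.EndV_fac f (rf 𝔳) (t + 1) v w h) (hAf (t + 1) v w h))
            (hBf J k t v w (H.filt t v w h))
        · refine mul_le_mul_of_nonneg_left (P.E_mono fun w _ => ?_) (mul_nonneg hDb (mul_nonneg hkap hc0))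
          simp only [hU]
          by_cases h : E2 J k 𝔳 t w
          · rw [ind_of h, ind_of h.1.1, ind_of h.1.2]
            ring_nf; exact le_rfl
          · rw [ind_not h, zero_mul]
            exact mul_nonneg (ind_nonneg _) (hU0 𝔳 (t + 1) w)
      refine h2.trans ?_
      rw [← Finset.mul_sum]
      refine mul_le_mul_of_nonneg_left ?_ (mul_nonneg hDb (mul_nonneg hkap hc0))
      rw [Finset.sum_range_succ' (fun t => P.E (fun w => ind (EndV ix rf Z Rr M N f (rf 𝔳) t w) * U 𝔳 t w)) T]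
      have := P.E_nonneg (f := fun w => ind (EndV ix rf Z Rr M N f (rf 𝔳) 0 w) * U 𝔳 0 w)
        (fun w _ => mul_nonneg (ind_nonneg _) (hU0 𝔳 0 w))
      linarith
    have b3 : P.Pr (fun w => E3 J k w ∧ (has T w 𝔳 ∧ G T w)) ≤ kap * cJ Rr J k * P.E (U 𝔳 T) := by
      refine (H.mass_le hJv (k := k) (t := T) (E := E3 J k) (fun v w h => ?_) (fun w _ h => h.2)).trans ?_
      · simp only [hE3]
        exact and_congr (hAf T v w h) (hBf J k T v w h)
      · refine mul_le_mul_of_nonneg_left (P.E_mono fun w _ => ?_) (mul_nonneg hkap hc0)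
        simp only [hU]
        by_cases h : E3 J k w
        · rw [ind_of h, ind_of h.1]
        · rw [ind_not h, zero_mul]
          exact hU0 𝔳 T w
    refine ((P.Pr_or_le _ _).trans (add_le_add ((P.Pr_or_le _ _).trans (add_le_add (P.Pr_ex_le _ _)
      (P.Pr_ex_le _ _))) le_rfl)).trans ((add_le_add (add_le_add b1 b2) b3).trans ?_)
    have h0 : 0 ≤ P.E (U 𝔳 T) := P.E_nonneg fun w _ => hU0 𝔳 T w
    have h1 : 0 ≤ kap * cJ Rr J k * P.E (U 𝔳 T) := mul_nonneg (mul_nonneg hkap hc0) h0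
    have h2 : kap * cJ Rr J k * (Nv * P.E (U 𝔳 T)) = Nv * (kap * cJ Rr J k * P.E (U 𝔳 T)) := by ring
    have h3 : Db * (kap * cJ Rr J k) * (Nv * P.E (U 𝔳 T)) = Db * (Nv * (kap * cJ Rr J k * P.E (U 𝔳 T))) := by ring
    have h4 : 2 * Db * (Nv + 1) * (kap * cJ Rr J k) * P.E (U 𝔳 T) =
        2 * Db * (Nv * (kap * cJ Rr J k * P.E (U 𝔳 T))) + 2 * Db * (kap * cJ Rr J k * P.E (U 𝔳 T)) := by ring
    rw [h2, h3, h4]
    have h5 : 0 ≤ Nv * (kap * cJ Rr J k * P.E (U 𝔳 T)) := mul_nonneg hN h1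
    nlinarith [mul_nonneg (sub_nonneg.2 hDb1) h5, mul_nonneg (sub_nonneg.2 hDb1) h1]
  refine (Finset.sum_le_sum hone).trans ?_
  rw [← Finset.mul_sum]
  have hsumU : ∑ 𝔳 ∈ univ.filter (fun 𝔳 => J ⊆ ix 𝔳), P.E (U 𝔳 T) ≤
      B * P.Pr (EvJ ix rf Z Rr M N (f0 f J) J k T) := by
    rw [← P.E_sum]
    unfold FP.Pr
    rw [← P.E_smul]
    refine P.E_mono fun w hw => ?_
    simp only [hU]
    rw [← Finset.mul_sum, Finset.sum_filter, mul_comm B]
    exact mul_le_mul_of_nonneg_left (H.sumB J hJne w hw) (ind_nonneg _)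
  have h4 : 0 ≤ 2 * Db * (Nv + 1) * (kap * cJ Rr J k) := by positivity
  calc 2 * Db * (Nv + 1) * (kap * cJ Rr J k) * ∑ 𝔳 ∈ univ.filter (fun 𝔳 => J ⊆ ix 𝔳), P.E (U 𝔳 T)
      ≤ 2 * Db * (Nv + 1) * (kap * cJ Rr J k) * (B * P.Pr (EvJ ix rf Z Rr M N (f0 f J) J k T)) :=
        mul_le_mul_of_nonneg_left hsumU h4
    _ = _ := by ring

theorem cJ_eq (J : Finset X) (k : X → ℕ) : cJ Rr J k = (4 / Rr) ^ J.card * ∏ x ∈ J, (1 / 2 : ℝ) ^ (k x + 1) := by
  unfold cJ
  rw [← Finset.prod_const, ← Finset.prod_mul_distrib]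
  refine Finset.prod_congr rfl fun x _ => ?_
  rw [pow_succ]
  have := H.R0.ne'
  field_simp
  ring

theorem pow_le {J : Finset X} (hJ : J ∈ subs ix) : (4 / Rr) ^ J.card ≤ 4 ^ D / Rr := by
  obtain ⟨hne, 𝔳, hs⟩ := mem_subs.1 hJ
  have h1 : 1 ≤ J.card := hne.card_pos
  have h2 : J.card ≤ D := (Finset.card_le_card hs).trans (H.card 𝔳)
  have hR := H.R0
  rw [div_pow]
  have h3 : (4 : ℝ) ^ J.card ≤ 4 ^ D := pow_le_pow_right₀ (by norm_num) h2
  have h4 : Rr ≤ Rr ^ J.card := by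
    calc Rr = Rr ^ 1 := (pow_one _).symm
      _ ≤ Rr ^ J.card := pow_le_pow_right₀ H.R1 h1
  exact div_le_div₀ (by positivity) h3 hR h4

/-- THE RECORD LEMMA `JR_v` -/
theorem jr_v {C : Type*} [Fintype C] (Q : FP C) (co : X → C → ℕ)
    (hco : ∀ J : Finset X, ∀ k ∈ lev g J, ∀ F : (X → ℕ) → ℝ, (∀ f, 0 ≤ F f) →
      (∏ x ∈ J, (1 / 2 : ℝ) ^ (k x + 1)) * Q.E (fun c => F (f0 (fun m => co m c) J)) ≤
        Q.E (fun c => ind (∀ x ∈ J, co x c = k x) * F (f0 (fun m => co m c) J))) :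
    Q.E (fun c => P.Pr (fun w => FailV ix rf has Z Rr M N T (fun m => co m c) w ∧ ∀ i ≤ T, G i w)) ≤
      2 * Db * (Nv + 1) * kap * B * 8 ^ D * Mu / Rr := by
  classical
  have hR := H.R0
  have hN := H.Nv0
  have hkap := H.kap0
  have hB := H.B0
  have hDb : 0 ≤ Db := zero_le_one.trans H.Db1
  have h3 : ∀ J ∈ subs ix, ∀ k ∈ lev g J,
      (∏ x ∈ J, (1 / 2 : ℝ) ^ (k x + 1)) *
        Q.E (fun c => P.Pr (EvJ ix rf Z Rr M N (f0 (fun m => co m c) J) J k T)) ≤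
      Q.E (fun c => ind (∀ x ∈ J, co x c = k x) * P.Pr (JUse ix rf Z Rr M N T (fun m => co m c) J)) := by
    intro J _ k hk
    refine (hco J k hk (fun f => P.Pr (EvJ ix rf Z Rr M N f J k T)) fun f => P.Pr_nonneg _).trans ?_
    refine Q.E_mono fun c _ => ?_
    by_cases e : ∀ x ∈ J, co x c = k x
    · rw [ind_of e, one_mul, one_mul]
      refine P.Pr_mono fun w hw he => ?_
      have h4 := H.lemW (f := f0 (fun m => co m c) J) (J := J) (fun x hx => by unfold f0; rw [if_pos hx]) hw he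
      have e2 : fk (f0 (fun m => co m c) J) J k = fun m => co m c := by
        funext x
        unfold fk f0
        by_cases hx : x ∈ J
        · rw [if_pos hx]; exact (e x hx).symm
        · rw [if_neg hx, if_neg hx]
      rw [e2] at h4
      exact h4
    · rw [ind_not e, zero_mul, zero_mul]
  have h4 : ∑ J ∈ subs ix, ∑ k ∈ lev g J, (∏ x ∈ J, (1 / 2 : ℝ) ^ (k x + 1)) *
      Q.E (fun c => P.Pr (EvJ ix rf Z Rr M N (f0 (fun m => co m c) J) J k T)) ≤ 2 ^ D * Mu := by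
    refine (Finset.sum_le_sum fun J hJ => Finset.sum_le_sum fun k hk => h3 J hJ k hk).trans ?_
    have e1 : ∀ J ∈ subs ix, ∑ k ∈ lev g J, Q.E (fun c => ind (∀ x ∈ J, co x c = k x) *
        P.Pr (JUse ix rf Z Rr M N T (fun m => co m c) J)) ≤
        Q.E (fun c => P.Pr (JUse ix rf Z Rr M N T (fun m => co m c) J)) := by
      intro J _
      rw [← Q.E_sum]
      refine Q.E_mono fun c _ => ?_
      rw [← Finset.sum_mul]
      have h5 : ∑ k ∈ lev g J, ind (∀ x ∈ J, co x c = k x) ≤ 1 := by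
        by_cases hin : (fun x => if x ∈ J then co x c else 0) ∈ lev g J
        · rw [Finset.sum_eq_single_of_mem _ hin]
          · exact ind_le_one _
          · intro k hk hne
            apply ind_not
            intro h
            apply hne
            funext x
            by_cases hx : x ∈ J
            · rw [if_pos hx, h x hx]
            · rw [if_neg hx]; exact (mem_lev.1 hk).2 x hx
        · rw [Finset.sum_eq_zero]
          · norm_num
          · intro k hk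
            apply ind_not
            intro h
            apply hin
            have : (fun x => if x ∈ J then co x c else 0) = k := by
              funext x
              by_cases hx : x ∈ J
              · rw [if_pos hx, h x hx]
              · rw [if_neg hx]; exact ((mem_lev.1 hk).2 x hx).symm
            rw [this]; exact hk
      have h6 := P.Pr_nonneg (JUse ix rf Z Rr M N T (fun m => co m c) J)
      nlinarith
    refine (Finset.sum_le_sum e1).trans ?_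
    rw [← Q.E_sum]
    exact Q.E_le_const fun c _ => H.sum_JUse _
  calc Q.E (fun c => P.Pr (fun w => FailV ix rf has Z Rr M N T (fun m => co m c) w ∧ ∀ i ≤ T, G i w))
      ≤ Q.E (fun c => ∑ J ∈ subs ix, ∑ k ∈ lev g J, 2 * Db * (Nv + 1) * (kap * cJ Rr J k) * B *
          P.Pr (EvJ ix rf Z Rr M N (f0 (fun m => co m c) J) J k T)) := Q.E_mono fun c _ => H.fail_le _
    _ = ∑ J ∈ subs ix, ∑ k ∈ lev g J, 2 * Db * (Nv + 1) * (kap * cJ Rr J k) * B *
          Q.E (fun c => P.Pr (EvJ ix rf Z Rr M N (f0 (fun m => co m c) J) J k T)) := by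
        rw [Q.E_sum]
        refine Finset.sum_congr rfl fun J _ => ?_
        rw [Q.E_sum]
        exact Finset.sum_congr rfl fun k _ => Q.E_smul _ _
    _ ≤ ∑ J ∈ subs ix, ∑ k ∈ lev g J, 2 * Db * (Nv + 1) * kap * B * (4 ^ D / Rr) *
          ((∏ x ∈ J, (1 / 2 : ℝ) ^ (k x + 1)) *
          Q.E (fun c => P.Pr (EvJ ix rf Z Rr M N (f0 (fun m => co m c) J) J k T))) := by
        refine Finset.sum_le_sum fun J hJ => Finset.sum_le_sum fun k _ => ?_
        rw [H.cJ_eq]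
        have h5 := H.pow_le hJ
        have h6 : 0 ≤ Q.E (fun c => P.Pr (EvJ ix rf Z Rr M N (f0 (fun m => co m c) J) J k T)) :=
          Q.E_nonneg fun c _ => P.Pr_nonneg _
        have h7 : 0 ≤ ∏ x ∈ J, (1 / 2 : ℝ) ^ (k x + 1) := Finset.prod_nonneg fun x _ => by positivity
        have h8 : 0 ≤ 2 * Db * (Nv + 1) * kap * B := by positivity
        have h9 := mul_le_mul_of_nonneg_left h5 (mul_nonneg h8 (mul_nonneg h7 h6))
        calc _ = 2 * Db * (Nv + 1) * kap * B * ((∏ x ∈ J, (1 / 2 : ℝ) ^ (k x + 1)) *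
              Q.E (fun c => P.Pr (EvJ ix rf Z Rr M N (f0 (fun m => co m c) J) J k T))) * (4 / Rr) ^ J.card := by ring
          _ ≤ _ := h9
          _ = _ := by ring
    _ = 2 * Db * (Nv + 1) * kap * B * (4 ^ D / Rr) * ∑ J ∈ subs ix, ∑ k ∈ lev g J,
          (∏ x ∈ J, (1 / 2 : ℝ) ^ (k x + 1)) *
          Q.E (fun c => P.Pr (EvJ ix rf Z Rr M N (f0 (fun m => co m c) J) J k T)) := by
        rw [Finset.mul_sum]
        exact Finset.sum_congr rfl fun J _ => (Finset.mul_sum _ _ _).symm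
    _ ≤ 2 * Db * (Nv + 1) * kap * B * (4 ^ D / Rr) * (2 ^ D * Mu) := mul_le_mul_of_nonneg_left h4 (by positivity)
    _ = _ := by
        have : (8 : ℝ) ^ D = 4 ^ D * 2 ^ D := by rw [← mul_pow]; norm_num
        rw [this]; ring

end JRV

end

end Pool.Agent.GMN
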