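import Pool.Agent.GMN.LsC

/-!
# GMN/Lists (row NM, 3.1, 3.2): the LISTS of one family on one population (statement helper14, proof helper88 from GMN/LsA, LsC)

One population `X` with nodes `nd`, cells `cl`, averaged windows `ρ` (`TS.Side`).  `T` = tests (`val τ x : V → ℝ`), closed under
sign.  `Φ` = a function with one introduction.  At every node: (R0) / forced reset of the list of an individual at the START
of the node (mean of `hub Y (Res) > 4` or more than `60 / e ^ 2` terms: list := []), then births: while some test `τ` has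
density `≥ θ` of `{x : e ≤ mean (clip Y (Res x) * val τ x)}` in the cell, the members get the term `τ`.
`Res = Φ - e * ∑ val τ`, over the list.
-/

set_option autoImplicit false
set_option linter.unusedSectionVars false

namespace Pool.Agent.GMN

open Finset Pool.Agent.PWZ Pool.Agent.M3 Pool.Agent.M3.TS

noncomputable section

variable {Om 𝒳 V Γ κ : Type} [Fintype Om] [Fintype 𝒳] [Fintype V] {P : FP Om} {X : Om → 𝒳} {n : ℕ}
  {nd : ℕ → Om → Γ} {cl : ℕ → 𝒳 → κ} {ρ : ℕ → Γ → V → ℝ} {par : ℕ → Γ → Γ}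

/-- the residual of a list -/
def Res {T : Type} (e : ℝ) (val : T → 𝒳 → V → ℝ) (Φ : ℕ → Γ → 𝒳 → V → ℝ) (L : ℕ → Γ → 𝒳 → List T) (t : ℕ) (g : Γ)
    (x : 𝒳) (d : V) : ℝ := Φ t g x d - e * ((L t g x).map fun τ => val τ x d).sum

theorem sum_mw_le {Φ : ℕ → Γ → 𝒳 → V → ℝ}
    (hΦi : ∀ t ω, Φ (t + 1) (nd (t + 1) ω) (X ω) = Φ t (nd t ω) (X ω) ∨ Φ t (nd t ω) (X ω) = 0) {s k : ℕ}
    (hsk : s ≤ k) (ω : Om) :
    ∑ t ∈ Ico s k, mw Φ X nd t ω ≤ ind (Φ k (nd k ω) (X ω) ≠ 0) := by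
  induction k, hsk using Nat.le_induction with
  | base => simp [ind_nonneg]
  | succ k hsk ih =>
    rw [Finset.sum_Ico_succ_top hsk]
    unfold mw at ih ⊢
    by_cases h : Φ (k + 1) (nd (k + 1) ω) (X ω) ≠ Φ k (nd k ω) (X ω)
    · have h1 : Φ k (nd k ω) (X ω) = 0 := (hΦi k ω).resolve_left h
      have h2 : Φ (k + 1) (nd (k + 1) ω) (X ω) ≠ 0 := by rw [← h1]; exact h
      rw [ind_not (not_not.2 h1)] at ih
      rw [ind_of h, ind_of h2]
      linarith
    · rw [ind_not h, add_zero]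
      have h1 := not_not.1 h
      rw [h1]
      exact ih

theorem lists_exist (hS : Side P X n nd cl ρ par) (one : ∀ t ω, ∑ d, ρ t (nd t ω) d = 1) (hp : ∀ ω, P.p ω ≠ 0)
    {T : Type} [Nonempty T] (val : T → 𝒳 → V → ℝ) (hval : ∀ τ x d, |val τ x d| ≤ 1)
    (hneg : ∀ τ, ∃ τ', ∀ x d, val τ' x d = - val τ x d)
    (Φ : ℕ → Γ → 𝒳 → V → ℝ) (hΦ : ∀ t g x d, |Φ t g x d| ≤ 1) (hΦ0 : ∀ g x d, Φ 0 g x d = 0)
    (hΦi : ∀ t ω, Φ (t + 1) (nd (t + 1) ω) (X ω) = Φ t (nd t ω) (X ω) ∨ Φ t (nd t ω) (X ω) = 0)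
    {Y e θ : ℝ} (hY : 1 ≤ Y) (he : 0 < e) (he1 : e ≤ 1) (hθ : 0 < θ) :
    ∃ (L : ℕ → Γ → 𝒳 → List T) (B : ℕ → Γ → κ → List T),
      (∀ g x, L 0 g x = []) ∧
      -- (a) length
      (∀ t ω, ((L t (nd t ω) (X ω)).length : ℝ) ≤ 64 / e ^ 2) ∧
      -- (b) (R0)
      (∀ t ω, ∑ d, ρ t (nd t ω) d * hub Y (Res e val Φ L t (nd t ω) (X ω) d) ≤ 4) ∧
      -- (c) rarity (P3)
      (∀ t ≤ n, ∀ ω k τ, ∑ x ∈ cel (cl t) k, ind (e ≤ |∑ d, ρ t (nd t ω) d *
        (clip Y (Res e val Φ L t (nd t ω) x d) * val τ x d)|) ≤ 2 * θ * ((cel (cl t) k).card : ℝ)) ∧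
      -- (d) moves from every state
      (∀ t0 ≤ n, ∀ f : Om → ℝ, Fac (fun ω => (X ω, nd t0 ω)) f → (∀ ω, 0 ≤ f ω) →
        P.E (fun ω => f ω * ∑ t ∈ Ico t0 n, ind (L (t + 1) (nd (t + 1) ω) (X ω) ≠ L t (nd t ω) (X ω))) ≤
          100 / e ^ 2 * P.E f) ∧
      -- (e) births in the cell
      (∑ t ∈ range n, P.E (fun ω => ((B (t + 1) (nd (t + 1) ω) (cl (t + 1) (X ω))).length : ℝ)) ≤
        100 / (e ^ 2 * θ)) ∧
      -- (f) the terms come from births
      (∀ t g x, ∀ τ ∈ L (t + 1) g x, τ ∈ L t (par t g) x ∨ τ ∈ B (t + 1) g (cl (t + 1) x)) := by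
  classical
  obtain ⟨p0, hp0, hp1⟩ : ∃ p0 : ℕ, 8 / e ^ 2 ≤ p0 ∧ (p0 : ℝ) ≤ 9 / e ^ 2 := by
    refine ⟨⌈8 / e ^ 2⌉₊, Nat.le_ceil _, ?_⟩
    have h1 := (Nat.ceil_lt_add_one (show (0 : ℝ) ≤ 8 / e ^ 2 by positivity)).le
    have h2 : 1 ≤ 1 / e ^ 2 := by
      rw [le_div_iff₀ (by positivity)]
      nlinarith
    calc (⌈8 / e ^ 2⌉₊ : ℝ) ≤ 8 / e ^ 2 + 1 := h1
      _ ≤ 8 / e ^ 2 + 1 / e ^ 2 := by linarith
      _ = 9 / e ^ 2 := by ring
  obtain ⟨N, hN⟩ := exists_nat_gt (10 / (e ^ 2 * θ))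
  set A : LP := ⟨e, Y, p0, θ, N, he, he1, hY, hp0, hθ, hN⟩ with hA
  have hneg' : ∀ τ : T, ∃ τ' : T, ∀ y c, val τ' y c = - val τ y c := hneg
  have hRes : ∀ t g x, Res e val Φ (fun t g x => (lsl A val Φ cl ρ par t g x).map fun b => b.τ) t g x =
      Rs A val Φ cl ρ par t g x := by
    intro t g x
    funext d
    unfold Res
    rw [Rs_eq, List.map_map]
    rfl
  refine ⟨fun t g x => (lsl A val Φ cl ρ par t g x).map fun b => b.τ,
    fun t g k => (pbs A val Φ cl ρ par t g k).map fun b => b.τ, ?_, ?_, ?_, ?_, ?_, ?_, ?_⟩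
  · intro g x
    have h1 : ¬ Pop A val (Φ 0 g) (ρ 0 g) (cel (cl 0) (cl 0 x)) (nod A val (Φ 0 g) (ρ 0 g) (cel (cl 0) (cl 0 x)) 0
        (fun _ => []) 0) := by
      rintro ⟨τ, hτ⟩
      have h2 : mbL A val (Φ 0 g) (ρ 0 g) (cel (cl 0) (cl 0 x)) (nod A val (Φ 0 g) (ρ 0 g) (cel (cl 0) (cl 0 x)) 0
          (fun _ => []) 0) τ = ∅ := by
        refine Finset.eq_empty_of_forall_notMem fun y hy => ?_
        have h3 := (mem_mbL.1 hy).2
        have h4 : cor A val (Φ 0 g) (ρ 0 g) [] τ y = 0 := by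
          unfold cor iw
          refine Finset.sum_eq_zero fun c _ => ?_
          have h5 : rs A val (Φ 0 g) [] y c = 0 := by rw [rs_nil]; exact hΦ0 g y c
          show ρ 0 g c * val τ y c * clip A.Y (rs A val (Φ 0 g) [] y c) = 0
          rw [h5, clip_zero A.hY0, mul_zero]
        have h6 : A.e ≤ cor A val (Φ 0 g) (ρ 0 g) [] τ y := h3
        rw [h4] at h6
        exact absurd A.he (not_lt.2 h6)
      rw [h2, Finset.card_empty, Nat.cast_zero] at hτ
      have h3 : (0 : ℝ) < (cel (cl 0) (cl 0 x)).card := by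
        exact_mod_cast Finset.card_pos.2 ⟨x, mem_cel.2 rfl⟩
      have h4 : 0 < A.thr * (cel (cl 0) (cl 0 x)).card := mul_pos A.hthr h3
      linarith
    have h2 : lsl A val Φ cl ρ par 0 g x = [] := by
      show nod A val (Φ 0 g) (ρ 0 g) (cel (cl 0) (cl 0 x)) 0 (fun _ => []) A.N x = []
      rw [nod_stop h1 (Nat.zero_le _)]
      rfl
    show (lsl A val Φ cl ρ par 0 g x).map (fun b => b.τ) = []
    rw [h2]
    rfl
  · intro t ω
    have h1 := lsl_len (A := A) (val := val) (F := Φ) (cl := cl) (ρ := ρ) (par := par) t (nd t ω) (X ω)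
    have h2 : ((lsl A val Φ cl ρ par t (nd t ω) (X ω)).length : ℝ) ≤ p0 := by exact_mod_cast h1
    rw [List.length_map]
    refine h2.trans (hp1.trans ?_)
    exact div_le_div_of_nonneg_right (by norm_num) (by positivity)
  · intro t ω
    have h1 := lsl_hub (A := A) (cl := cl) (par := par) hS.wt hΦ hval t (nd t ω) (X ω)
    rw [hRes]
    exact h1
  · intro t _ ω k τ
    rcases (cel (cl t) k).eq_empty_or_nonempty with h0 | ⟨x, hx⟩
    · rw [h0]; simp
    · have hk : cl t x = k := mem_cel.1 hx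
      have h1 := lsl_test_abs (A := A) (cl := cl) (par := par) hS.wt hΦ hval hneg' t (nd t ω) x τ
      rw [hk] at h1
      refine le_trans (le_of_eq ?_) h1
      refine Finset.sum_congr rfl fun y _ => ?_
      congr 1
      rw [hRes]
      have h2 : ∑ d, ρ t (nd t ω) d * (clip Y (Rs A val Φ cl ρ par t (nd t ω) y d) * val τ y d) =
          iw (ρ t (nd t ω)) (val τ y) (fun c => clip A.Y (Rs A val Φ cl ρ par t (nd t ω) y c)) := by
        unfold iw
        exact Finset.sum_congr rfl fun c _ => by ring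
      rw [h2]
  · intro t0 ht0 f hf hf0
    have hμ : P.E (fun w => f w * ∑ t ∈ Ico t0 n, mw Φ X nd t w) ≤ 1 * P.E f := by
      rw [one_mul]
      refine P.E_mono fun w _ => ?_
      have h1 := (sum_mw_le hΦi ht0 w).trans (ind_le_one _)
      calc f w * ∑ t ∈ Ico t0 n, mw Φ X nd t w ≤ f w * 1 := mul_le_mul_of_nonneg_left h1 (hf0 w)
        _ = f w := mul_one _
    have h1 := fut_hits hS hΦ hval (A := A) ht0 le_rfl hf hf0
    have h2 := fut_r0 hS hΦ hval (A := A) ht0 le_rfl hf hf0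
    have h3 : P.E (fun ω => f ω * ∑ t ∈ Ico t0 n, ind ((lsl A val Φ cl ρ par (t + 1) (nd (t + 1) ω) (X ω)).map
        (fun b => b.τ) ≠ (lsl A val Φ cl ρ par t (nd t ω) (X ω)).map fun b => b.τ)) ≤
        P.E (fun w => f w * ∑ t ∈ Ico t0 n, hw A val Φ X nd cl ρ par (t + 1) w) +
        P.E (fun w => f w * ∑ t ∈ Ico t0 n, rw0 A val Φ X nd cl ρ par t w) +
        P.E (fun w => f w * ∑ t ∈ Ico t0 n, mw Φ X nd t w) := by
      rw [← P.E_add, ← P.E_add]
      refine P.E_mono fun w _ => ?_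
      rw [← mul_add, ← mul_add, ← Finset.sum_add_distrib, ← Finset.sum_add_distrib]
      refine mul_le_mul_of_nonneg_left (Finset.sum_le_sum fun t _ => ?_) (hf0 w)
      have g1 := hw_nonneg (A := A) (val := val) (F := Φ) (X := X) (nd := nd) (cl := cl) (ρ := ρ) (par := par) (t + 1) w
      have g2 := rw0_nonneg (A := A) (val := val) (F := Φ) (X := X) (nd := nd) (cl := cl) (ρ := ρ) (par := par) t w
      have g3 := mw_nonneg (F := Φ) (X := X) (nd := nd) t w
      by_cases h : (lsl A val Φ cl ρ par (t + 1) (nd (t + 1) w) (X w)).map (fun b => b.τ) ≠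
          (lsl A val Φ cl ρ par t (nd t w) (X w)).map fun b => b.τ
      · rw [ind_of h]
        by_contra hcon
        have hcon' := not_le.1 hcon
        have h4 : hsl A val Φ cl ρ par (t + 1) (nd (t + 1) w) (X w) = 0 := by
          by_contra h5
          have h6 : (1 : ℝ) ≤ hw A val Φ X nd cl ρ par (t + 1) w := by
            unfold hw
            exact_mod_cast Nat.one_le_iff_ne_zero.2 h5
          linarith
        have h5 : ¬ r0 A val Φ cl ρ par t (nd (t + 1) w) (X w) := by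
          intro h6
          have h7 : rw0 A val Φ X nd cl ρ par t w = 1 := ind_of h6
          linarith
        have h6 : Φ (t + 1) (nd (t + 1) w) (X w) = Φ t (par t (nd (t + 1) w)) (X w) := by
          by_contra h7
          have h8 : mw Φ X nd t w = 1 := ind_of (by rw [hS.par_nd] at h7; exact h7)
          linarith
        have h7 := lsl_stay h4 h5 h6
        rw [hS.par_nd] at h7
        exact h (by rw [h7])
      · rw [ind_not h]
        linarith
    refine h3.trans ?_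
    have hfE : 0 ≤ P.E f := P.E_nonneg fun w _ => hf0 w
    have hAe : A.e = e := rfl
    rw [hAe] at h1
    have h4 : 0 ≤ 2 / e ^ 2 := by positivity
    have h5 : 2 / e ^ 2 * (5 * P.E f + P.E (fun w => f w * ∑ t ∈ Ico t0 n, mw Φ X nd t w)) ≤
        2 / e ^ 2 * (5 * P.E f + 1 * P.E f) := mul_le_mul_of_nonneg_left (by linarith) h4
    have h6 : 1 ≤ 1 / e ^ 2 := by
      rw [le_div_iff₀ (by positivity)]
      nlinarith
    have h7 : P.E f ≤ 1 / e ^ 2 * P.E f := by nlinarith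
    have h8 : 2 / e ^ 2 * (5 * P.E f + 1 * P.E f) = 12 * (1 / e ^ 2 * P.E f) := by ring
    have h9 : 100 / e ^ 2 * P.E f = 100 * (1 / e ^ 2 * P.E f) := by ring
    rw [h9]
    linarith
  · have h1 := tot_hits hS hΦ hval (A := A) (le_refl n)
    have hμ : P.E (fun w => ∑ t ∈ range n, mw Φ X nd t w) ≤ 1 := by
      refine P.E_le_const fun w _ => ?_
      rw [Finset.range_eq_Ico]
      exact (sum_mw_le hΦi (Nat.zero_le n) w).trans (ind_le_one _)
    have h2 : ∀ t, θ * P.E (fun w => ((pbs A val Φ cl ρ par t (nd t w) (cl t (X w))).length : ℝ)) ≤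
        P.E (fun w => hw A val Φ X nd cl ρ par t w) := by
      intro t
      have h3 := pubs_wt hS (A := A) (val := val) (F := Φ) t (fun _ _ => 1) (fun _ _ => zero_le_one) (fun _ _ _ _ => rfl)
      simp only [one_mul] at h3
      exact h3
    have h3 : θ * ∑ t ∈ range n, P.E (fun w =>
        ((pbs A val Φ cl ρ par (t + 1) (nd (t + 1) w) (cl (t + 1) (X w))).length : ℝ)) ≤
        P.E (fun w => ∑ t ∈ range (n + 1), hw A val Φ X nd cl ρ par t w) := by
      rw [Finset.mul_sum, P.E_sum, Finset.sum_range_succ']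
      have h4 : 0 ≤ P.E (fun w => hw A val Φ X nd cl ρ par 0 w) := P.E_nonneg fun w _ => hw_nonneg 0 w
      have h5 : ∑ t ∈ range n, θ * P.E (fun w =>
          ((pbs A val Φ cl ρ par (t + 1) (nd (t + 1) w) (cl (t + 1) (X w))).length : ℝ)) ≤
          ∑ t ∈ range n, P.E (fun w => hw A val Φ X nd cl ρ par (t + 1) w) :=
        Finset.sum_le_sum fun t _ => h2 (t + 1)
      linarith
    have h4 : 2 / A.e ^ 2 * (1 + P.E (fun w => ∑ t ∈ range n, mw Φ X nd t w)) ≤ 4 / e ^ 2 := by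
      have hAe : A.e = e := rfl
      rw [hAe]
      calc 2 / e ^ 2 * (1 + P.E (fun w => ∑ t ∈ range n, mw Φ X nd t w)) ≤ 2 / e ^ 2 * (1 + 1) :=
            mul_le_mul_of_nonneg_left (by linarith) (by positivity)
        _ = 4 / e ^ 2 := by ring
    have h5 := (h3.trans h1).trans h4
    simp only [List.length_map]
    rw [le_div_iff₀ (by positivity)]
    rw [le_div_iff₀ (by positivity)] at h5
    have h6 : (0 : ℝ) ≤ 4 := by norm_num
    nlinarith
  · intro t g x τ hτ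
    rw [List.mem_map] at hτ
    obtain ⟨b, hb, rfl⟩ := hτ
    rw [lsl_eq] at hb
    rcases mem_nod hb with h1 | h1
    · left
      obtain ⟨s, hs, h2⟩ := mem_prl_pub h1
      have : s = t := by omega
      subst this
      exact List.mem_map.2 ⟨b, h2, rfl⟩
    · right
      exact List.mem_map.2 ⟨b, h1, rfl⟩

end

end Pool.Agent.GMN
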