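import Pool.Agent.GMN.Hub
import Pool.Agent.M3.S1Node
import Pool.Agent.M3.TSNames

/-!
# GMN.LsA (row N, 3.1 and 3.2): the lists of a moving family with Huber potentials (helper88)

Setting of `M3/TSDefs` (`TS.Side P X n nd cl ρ par`: population `X : Om → 𝒳`, nodes `nd t w : Γ`, small cells, averaged
windows `ρ t g` = exact martingale along the nodes given `X`); instances: `GM.Sys.side`, `GM.Sys.side'` (exact vertices
`A` in the node).  `F t g x c` = moving family bounded by one, `val τ x c` = tests bounded by one, `τ : T` (any type).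
One individual `x` has a list of births `l`, residual `rs = F - e * sum of the tests of the list`, potential
`pot = sum of ρ * hub Y (rs) + length / p0`.

ONE NODE (a cell `C`, a window `ρ`): `stp` = one birth, if some test has at least `thr |C|` members (points of the cell
with `e ≤ sum ρ * test * clip Y (rs)`); the members put the birth on their list, a list with `p0` births is emptied
(forced reset).  `nod k` = `k` steps.
ALONG THE PATH: `prl` = the list after the restriction: it is emptied if `F` has moved or if the mean of `hub Y (rs)` is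
`> 4` (rule R0); `lsl` = the list after the births of the node; `pub` = cumulative list of the public births in the
cells of the point.

* `lsl_test` : after every node no test has `thr |C|` members; `lsl_hub` : the mean of `hub` is `≤ 4`;
  `lsl_len` : at most `p0` births; `mem_pub` : the elements of a list are public births;
* `fut_hits`, `fut_r0` : mean number of future hits (births, forced resets) and of future resets (R0), on every event
  of the time `t`;
* `tot_hits`, `tot_pubs` : mean number of all hits of the point, of all public births along the path of the point;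
* `rs_stay` : the residual changes only at hits, resets and moves.
-/

set_option autoImplicit false
set_option linter.unusedSectionVars false

namespace Pool.Agent.GMN

open Finset Pool.Agent.PWZ Pool.Agent.M3 Pool.Agent.M3.TS

noncomputable section

/-- parameters of the lists -/
structure LP where
  /-- accuracy -/
  e : ℝ
  /-- clip -/
  Y : ℝ
  /-- maximal length of a list -/
  p0 : ℕ
  /-- density of the births -/
  thr : ℝ
  /-- number of steps at a node -/
  N : ℕ
  he : 0 < e
  he1 : e ≤ 1
  hY : 1 ≤ Y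
  hp : 8 / e ^ 2 ≤ p0
  hthr : 0 < thr
  hN : 10 / (e ^ 2 * thr) < N

namespace LP

theorem hY0 (A : LP) : 0 ≤ A.Y := by linarith [A.hY]

theorem p0_pos (A : LP) : (0 : ℝ) < A.p0 := lt_of_lt_of_le (by have := A.he; positivity) A.hp

theorem inv_p0 (A : LP) : 1 / (A.p0 : ℝ) ≤ A.e ^ 2 / 8 := by
  have h := A.hp
  have h1 := A.he
  have h2 := A.p0_pos
  rw [div_le_iff₀ (by positivity)] at h
  rw [div_le_iff₀ h2]
  nlinarith

end LP

variable {P V T : Type*}

/-- the residual of a list -/
def rs (A : LP) (val : T → P → V → ℝ) (F : P → V → ℝ) (l : List (Birth T)) (p : P) (d : V) : ℝ :=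
  F p d - A.e * (l.map fun b => val b.τ p d).sum

@[simp] theorem rs_nil (A : LP) (val : T → P → V → ℝ) (F : P → V → ℝ) (p : P) (d : V) :
    rs A val F [] p d = F p d := by
  unfold rs; simp

theorem rs_cons (A : LP) (val : T → P → V → ℝ) (F : P → V → ℝ) (b : Birth T) (l : List (Birth T)) (p : P) (d : V) :
    rs A val F (b :: l) p d = rs A val F l p d - A.e * val b.τ p d := by
  unfold rs
  rw [List.map_cons, List.sum_cons]
  ring

theorem abs_sum_map_le {α : Type*} (l : List α) (f : α → ℝ) (hf : ∀ x ∈ l, |f x| ≤ 1) : |(l.map f).sum| ≤ l.length := by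
  induction l with
  | nil => simp
  | cons a l ih =>
    rw [List.map_cons, List.sum_cons, List.length_cons]
    push_cast
    have h1 := ih fun x hx => hf x (List.mem_cons_of_mem _ hx)
    have h2 := hf a List.mem_cons_self
    calc |f a + (l.map f).sum| ≤ |f a| + |(l.map f).sum| := abs_add_le _ _
      _ ≤ _ := by linarith

theorem abs_rs_le (A : LP) {val : T → P → V → ℝ} {F : P → V → ℝ} {l : List (Birth T)} {p : P} {d : V}
    (hF : |F p d| ≤ 1) (hval : ∀ τ, |val τ p d| ≤ 1) (hl : l.length ≤ A.p0) :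
    |rs A val F l p d| ≤ 1 + A.e * A.p0 := by
  unfold rs
  have h1 := abs_sum_map_le l (fun b => val b.τ p d) fun b _ => hval b.τ
  have h2 : (l.length : ℝ) ≤ A.p0 := by exact_mod_cast hl
  calc |F p d - A.e * (l.map fun b => val b.τ p d).sum| ≤ |F p d| + |A.e * (l.map fun b => val b.τ p d).sum| :=
        abs_sub _ _
    _ = |F p d| + A.e * |(l.map fun b => val b.τ p d).sum| := by rw [abs_mul, abs_of_pos A.he]
    _ ≤ 1 + A.e * A.p0 := by
        have h3 := mul_le_mul_of_nonneg_left (h1.trans h2) A.he.le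
        linarith

/-- the new list of a member: a full list is emptied -/
def ins (A : LP) (b : Birth T) (l : List (Birth T)) : List (Birth T) := if l.length < A.p0 then b :: l else []

theorem ins_len (A : LP) (b : Birth T) {l : List (Birth T)} (_ : l.length ≤ A.p0) : (ins A b l).length ≤ A.p0 := by
  unfold ins
  split_ifs with h
  · rw [List.length_cons]; omega
  · simp

theorem mem_ins (A : LP) {b c : Birth T} {l : List (Birth T)} (h : c ∈ ins A b l) : c = b ∨ c ∈ l := by
  unfold ins at h
  split_ifs at h with h1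
  · exact List.mem_cons.1 h
  · simp at h

variable [Fintype V]

/-- mean of the Huber function -/
def hbw (Y : ℝ) (ρ : V → ℝ) (f : V → ℝ) : ℝ := ∑ c, ρ c * hub Y (f c)

theorem hbw_nonneg {Y : ℝ} (hY : 0 ≤ Y) {ρ : V → ℝ} (h : Wt ρ) (f : V → ℝ) : 0 ≤ hbw Y ρ f :=
  Finset.sum_nonneg fun c _ => mul_nonneg (h.nn c) (hub_nonneg hY _)

theorem hbw_le_one {Y : ℝ} (hY : 0 ≤ Y) {ρ : V → ℝ} (h : Wt ρ) {f : V → ℝ} (hf : ∀ c, |f c| ≤ 1) : hbw Y ρ f ≤ 1 := by
  unfold hbw
  calc ∑ c, ρ c * hub Y (f c) ≤ ∑ c, ρ c * 1 :=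
        Finset.sum_le_sum fun c _ => mul_le_mul_of_nonneg_left (hub_le_one hY (hf c)) (h.nn c)
    _ ≤ 1 := by simpa using h.le1

/-- one use lowers the mean of the Huber function -/
theorem hbw_step {Y : ℝ} (hY : 0 ≤ Y) {ρ : V → ℝ} (h : Wt ρ) {E g : V → ℝ} (hg : ∀ c, |g c| ≤ 1) {b b' : ℝ}
    (hb' : 0 ≤ b') (hb : b ≤ iw ρ g (fun c => clip Y (E c))) :
    hbw Y ρ (fun c => E c - b' * g c) ≤ hbw Y ρ E - 2 * b' * b + b' ^ 2 := by
  have h1 : hbw Y ρ (fun c => E c - b' * g c) ≤
      ∑ c, (ρ c * hub Y (E c) - 2 * b' * (ρ c * g c * clip Y (E c)) + b' ^ 2 * ρ c) := by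
    refine Finset.sum_le_sum fun c _ => ?_
    have h2 := hub_sub_le hY (E c) (b' * g c)
    have h3 : (b' * g c) ^ 2 ≤ b' ^ 2 := by
      rw [mul_pow]
      have : g c ^ 2 ≤ 1 := by
        rw [← sq_abs]; exact pow_le_one₀ (abs_nonneg _) (hg c)
      nlinarith [sq_nonneg b']
    have h4 : hub Y (E c - b' * g c) ≤ hub Y (E c) - 2 * b' * (g c * clip Y (E c)) + b' ^ 2 := by nlinarith
    have h5 := mul_le_mul_of_nonneg_left h4 (h.nn c)
    nlinarith
  have h2 : ∑ c, (ρ c * hub Y (E c) - 2 * b' * (ρ c * g c * clip Y (E c)) + b' ^ 2 * ρ c) =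
      hbw Y ρ E - 2 * b' * iw ρ g (fun c => clip Y (E c)) + b' ^ 2 * ∑ c, ρ c := by
    unfold hbw iw
    rw [Finset.sum_add_distrib, Finset.sum_sub_distrib, Finset.mul_sum, Finset.mul_sum]
  rw [h2] at h1
  have h3 : 2 * b' * b ≤ 2 * b' * iw ρ g (fun c => clip Y (E c)) :=
    mul_le_mul_of_nonneg_left hb (by linarith)
  have h4 : b' ^ 2 * ∑ c, ρ c ≤ b' ^ 2 := by
    have := mul_le_mul_of_nonneg_left h.le1 (sq_nonneg b')
    linarith
  linarith

/-- the potential -/
def pot (A : LP) (val : T → P → V → ℝ) (F : P → V → ℝ) (Q : V → ℝ) (l : List (Birth T)) (p : P) : ℝ :=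
  hbw A.Y Q (rs A val F l p) + l.length / A.p0

theorem pot_nonneg (A : LP) (val : T → P → V → ℝ) (F : P → V → ℝ) {Q : V → ℝ} (hQ : Wt Q) (l : List (Birth T)) (p : P) :
    0 ≤ pot A val F Q l p := by
  unfold pot
  have h1 := hbw_nonneg A.hY0 hQ (rs A val F l p)
  have h2 := A.p0_pos
  have h3 : (0 : ℝ) ≤ l.length / A.p0 := by positivity
  linarith

theorem rs_nil' (A : LP) (val : T → P → V → ℝ) (F : P → V → ℝ) (p : P) : rs A val F [] p = F p := by
  funext d; simp

theorem rs_cons' (A : LP) (val : T → P → V → ℝ) (F : P → V → ℝ) (b : Birth T) (l : List (Birth T)) (p : P) :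
    rs A val F (b :: l) p = fun d => rs A val F l p d - A.e * val b.τ p d := by
  funext d; rw [rs_cons]

theorem pot_nil_le (A : LP) {val : T → P → V → ℝ} {F : P → V → ℝ} {Q : V → ℝ} (hQ : Wt Q) {p : P}
    (hF : ∀ d, |F p d| ≤ 1) : pot A val F Q [] p ≤ 1 := by
  unfold pot
  rw [rs_nil', List.length_nil, Nat.cast_zero, zero_div, add_zero]
  exact hbw_le_one A.hY0 hQ hF

/-- the correlation of a test with the clipped residual -/
def cor (A : LP) (val : T → P → V → ℝ) (F : P → V → ℝ) (Q : V → ℝ) (l : List (Birth T)) (τ : T) (p : P) : ℝ :=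
  iw Q (val τ p) (fun d => clip A.Y (rs A val F l p d))

/-- THE DROP at a hit -/
theorem pot_ins (A : LP) {val : T → P → V → ℝ} {F : P → V → ℝ} {Q : V → ℝ} (hQ : Wt Q)
    {p : P} (hF : ∀ d, |F p d| ≤ 1) (hval : ∀ τ d, |val τ p d| ≤ 1) (b : Birth T) {l : List (Birth T)}
    (hl : l.length ≤ A.p0) (hb : A.e ≤ cor A val F Q l b.τ p) :
    pot A val F Q (ins A b l) p ≤ pot A val F Q l p - A.e ^ 2 / 2 := by
  have he := A.he
  have hp0 := A.p0_pos
  have h1 := hbw_step A.hY0 hQ (E := rs A val F l p) (g := val b.τ p) (fun d => hval b.τ d) he.le hb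
  have h4 : hbw A.Y Q (rs A val F (b :: l) p) ≤ hbw A.Y Q (rs A val F l p) - A.e ^ 2 := by
    rw [rs_cons']
    nlinarith
  have h5 := hbw_nonneg A.hY0 hQ (rs A val F (b :: l) p)
  have h6 := A.inv_p0
  unfold ins
  by_cases hlen : l.length < A.p0
  · rw [if_pos hlen]
    unfold pot
    rw [List.length_cons]
    push_cast
    rw [add_div]
    nlinarith [sq_nonneg A.e]
  · rw [if_neg hlen]
    have h7 : l.length = A.p0 := le_antisymm hl (not_lt.1 hlen)
    have h8 := pot_nil_le A (val := val) hQ hF
    unfold pot at h8 ⊢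
    rw [h7, div_self hp0.ne']
    nlinarith [sq_nonneg A.e]

/-! ### one node -/

/-- the members of a test -/
def mbL (A : LP) (val : T → P → V → ℝ) (F : P → V → ℝ) (Q : V → ℝ) (C : Finset P) (L : P → List (Birth T))
    (τ : T) : Finset P :=
  @Finset.filter P (fun p => A.e ≤ cor A val F Q (L p) τ p) (Classical.decPred _) C

theorem mem_mbL {A : LP} {val : T → P → V → ℝ} {F : P → V → ℝ} {Q : V → ℝ} {C : Finset P}
    {L : P → List (Birth T)} {τ : T} {p : P} :
    p ∈ mbL A val F Q C L τ ↔ p ∈ C ∧ A.e ≤ cor A val F Q (L p) τ p := by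
  unfold mbL
  rw [Finset.mem_filter]

/-- some test has many members -/
def Pop (A : LP) (val : T → P → V → ℝ) (F : P → V → ℝ) (Q : V → ℝ) (C : Finset P) (L : P → List (Birth T)) : Prop :=
  ∃ τ : T, A.thr * C.card ≤ (mbL A val F Q C L τ).card

open Classical in
/-- the test which is born (arbitrary but fixed) -/
def brn [Nonempty T] (A : LP) (val : T → P → V → ℝ) (F : P → V → ℝ) (Q : V → ℝ) (C : Finset P)
    (L : P → List (Birth T)) : T :=
  if h : Pop A val F Q C L then Classical.choose h else Classical.choice inferInstance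

theorem brn_spec [Nonempty T] {A : LP} {val : T → P → V → ℝ} {F : P → V → ℝ} {Q : V → ℝ} {C : Finset P}
    {L : P → List (Birth T)} (h : Pop A val F Q C L) :
    A.thr * C.card ≤ (mbL A val F Q C L (brn A val F Q C L)).card := by
  unfold brn
  rw [dif_pos h]
  exact Classical.choose_spec h

/-- `p` is hit -/
def hit [Nonempty T] (A : LP) (val : T → P → V → ℝ) (F : P → V → ℝ) (Q : V → ℝ) (C : Finset P)
    (L : P → List (Birth T)) (p : P) : Prop := Pop A val F Q C L ∧ p ∈ mbL A val F Q C L (brn A val F Q C L)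

open Classical in
/-- one step: number `k` at the time `t` -/
def stp [Nonempty T] (A : LP) (val : T → P → V → ℝ) (F : P → V → ℝ) (Q : V → ℝ) (C : Finset P)
    (t k : ℕ) (L : P → List (Birth T)) : P → List (Birth T) := fun p =>
  if hit A val F Q C L p then ins A ⟨t, k, brn A val F Q C L⟩ (L p) else L p

/-- `k` steps -/
def nod [Nonempty T] (A : LP) (val : T → P → V → ℝ) (F : P → V → ℝ) (Q : V → ℝ) (C : Finset P)
    (t : ℕ) (L : P → List (Birth T)) : ℕ → P → List (Birth T)
  | 0 => L
  | k + 1 => stp A val F Q C t k (nod A val F Q C t L k)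

open Classical in
/-- the number of hits of the point `p` in the first `k` steps -/
def hts [Nonempty T] (A : LP) (val : T → P → V → ℝ) (F : P → V → ℝ) (Q : V → ℝ) (C : Finset P)
    (t : ℕ) (L : P → List (Birth T)) (k : ℕ) (p : P) : ℕ :=
  ((range k).filter (fun j => hit A val F Q C (nod A val F Q C t L j) p)).card

open Classical in
/-- the public births in the first `k` steps (head = last) -/
def pbl [Nonempty T] (A : LP) (val : T → P → V → ℝ) (F : P → V → ℝ) (Q : V → ℝ) (C : Finset P)
    (t : ℕ) (L : P → List (Birth T)) : ℕ → List (Birth T)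
  | 0 => []
  | k + 1 => if Pop A val F Q C (nod A val F Q C t L k) then
      ⟨t, k, brn A val F Q C (nod A val F Q C t L k)⟩ :: pbl A val F Q C t L k else pbl A val F Q C t L k

section lemmas

variable [Nonempty T] {A : LP} {val : T → P → V → ℝ} {F : P → V → ℝ} {Q : V → ℝ} {C : Finset P}

theorem stp_hit {t k : ℕ} {L : P → List (Birth T)} {p : P} (h : hit A val F Q C L p) :
    stp A val F Q C t k L p = ins A ⟨t, k, brn A val F Q C L⟩ (L p) := by
  unfold stp
  rw [if_pos h]

theorem stp_not {t k : ℕ} {L : P → List (Birth T)} {p : P} (h : ¬ hit A val F Q C L p) :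
    stp A val F Q C t k L p = L p := by
  unfold stp
  rw [if_neg h]

theorem stp_of_not_pop {t k : ℕ} {L : P → List (Birth T)} (h : ¬ Pop A val F Q C L) :
    stp A val F Q C t k L = L := by
  funext p
  exact stp_not fun h' => h h'.1

theorem nod_succ (t : ℕ) (L : P → List (Birth T)) (k : ℕ) :
    nod A val F Q C t L (k + 1) = stp A val F Q C t k (nod A val F Q C t L k) := rfl

theorem nod_stop {t : ℕ} {L : P → List (Birth T)} {j : ℕ} (h : ¬ Pop A val F Q C (nod A val F Q C t L j))
    {k : ℕ} (hjk : j ≤ k) : nod A val F Q C t L k = nod A val F Q C t L j := by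
  induction k, hjk using Nat.le_induction with
  | base => rfl
  | succ k _ ih => rw [nod_succ, ih, stp_of_not_pop h]

theorem hts_succ (t : ℕ) (L : P → List (Birth T)) (k : ℕ) (p : P) :
    (hts A val F Q C t L (k + 1) p : ℝ) =
      hts A val F Q C t L k p + ind (hit A val F Q C (nod A val F Q C t L k) p) := by
  classical
  unfold hts
  rw [Finset.range_add_one, Finset.filter_insert]
  by_cases h : hit A val F Q C (nod A val F Q C t L k) p
  · rw [if_pos h, Finset.card_insert_of_notMem (by simp), ind_of h]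
    push_cast
    ring
  · rw [if_neg h, ind_not h, add_zero]

theorem nod_len (t : ℕ) (L : P → List (Birth T)) (k : ℕ) {p : P} (h : (L p).length ≤ A.p0) :
    (nod A val F Q C t L k p).length ≤ A.p0 := by
  classical
  induction k with
  | zero => exact h
  | succ k ih =>
    rw [nod_succ]
    by_cases h : hit A val F Q C (nod A val F Q C t L k) p
    · rw [stp_hit h]; exact ins_len A _ ih
    · rw [stp_not h]; exact ih

/-- the potential along the steps -/
theorem pot_nod (hQ : Wt Q) {p : P} (hF : ∀ d, |F p d| ≤ 1) (hval : ∀ τ d, |val τ p d| ≤ 1) (t : ℕ)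
    (L : P → List (Birth T)) (hL : (L p).length ≤ A.p0) (k : ℕ) :
    pot A val F Q (nod A val F Q C t L k p) p + A.e ^ 2 / 2 * hts A val F Q C t L k p ≤ pot A val F Q (L p) p := by
  classical
  induction k with
  | zero =>
    have h0 : hts A val F Q C t L 0 p = 0 := rfl
    rw [h0]
    simp [nod]
  | succ k ih =>
    rw [hts_succ, nod_succ]
    by_cases h : hit A val F Q C (nod A val F Q C t L k) p
    · rw [stp_hit h, ind_of h]
      have h1 := pot_ins A (F := F) hQ hF hval ⟨t, k, brn A val F Q C (nod A val F Q C t L k)⟩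
        (nod_len t L k hL) (mem_mbL.1 h.2).2
      linarith
    · rw [stp_not h, ind_not h]
      linarith

/-- the mean of `hub` does not increase along the steps -/
theorem hub_nod (hQ : Wt Q) {p : P} (hF : ∀ d, |F p d| ≤ 1) (hval : ∀ τ d, |val τ p d| ≤ 1) (t : ℕ)
    (L : P → List (Birth T)) {c : ℝ} (hc1 : 1 ≤ c) (hL : hbw A.Y Q (rs A val F (L p) p) ≤ c) (k : ℕ) :
    hbw A.Y Q (rs A val F (nod A val F Q C t L k p) p) ≤ c := by
  classical
  induction k with
  | zero => exact hL
  | succ k ih =>
    rw [nod_succ]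
    by_cases h : hit A val F Q C (nod A val F Q C t L k) p
    · rw [stp_hit h]
      unfold ins
      split_ifs with h1
      · rw [rs_cons']
        have h2 := hbw_step A.hY0 hQ (E := rs A val F (nod A val F Q C t L k p) p)
          (g := val (brn A val F Q C (nod A val F Q C t L k)) p)
          (fun d => hval _ d) A.he.le (mem_mbL.1 h.2).2
        nlinarith [sq_nonneg A.e]
      · rw [rs_nil']
        exact (hbw_le_one A.hY0 hQ hF).trans hc1
    · rw [stp_not h]; exact ih

/-- the number of hits of a point at one node is at most `10 / e^2` -/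
theorem hts_le (hQ : Wt Q) {p : P} (hF : ∀ d, |F p d| ≤ 1) (hval : ∀ τ d, |val τ p d| ≤ 1) (t : ℕ)
    (L : P → List (Birth T)) (hl : (L p).length ≤ A.p0) (hL : hbw A.Y Q (rs A val F (L p) p) ≤ 4) (k : ℕ) :
    (hts A val F Q C t L k p : ℝ) ≤ 10 / A.e ^ 2 := by
  have he := A.he
  have h1 := pot_nod (C := C) hQ hF hval t L hl k
  have h2 := pot_nonneg A val F hQ (nod A val F Q C t L k p) p
  have h3 : pot A val F Q (L p) p ≤ 5 := by
    unfold pot
    have h4 : ((L p).length : ℝ) / A.p0 ≤ 1 := by
      rw [div_le_one A.p0_pos]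
      exact_mod_cast hl
    linarith
  rw [le_div_iff₀ (by positivity)]
  nlinarith

/-- every public birth is thick -/
theorem pbl_le (t : ℕ) (L : P → List (Birth T)) (k : ℕ) :
    A.thr * C.card * (pbl A val F Q C t L k).length ≤ ∑ p ∈ C, (hts A val F Q C t L k p : ℝ) := by
  classical
  induction k with
  | zero => simp [pbl, hts]
  | succ k ih =>
    rw [Finset.sum_congr rfl fun p _ => hts_succ t L k p, Finset.sum_add_distrib]
    by_cases h : Pop A val F Q C (nod A val F Q C t L k)
    · have e1 : (pbl A val F Q C t L (k + 1)).length = (pbl A val F Q C t L k).length + 1 := by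
        show (if Pop A val F Q C (nod A val F Q C t L k) then
          (⟨t, k, brn A val F Q C (nod A val F Q C t L k)⟩ : Birth T) :: pbl A val F Q C t L k else _).length = _
        rw [if_pos h, List.length_cons]
      rw [e1]
      push_cast
      have h2 : A.thr * C.card ≤ ∑ p ∈ C, ind (hit A val F Q C (nod A val F Q C t L k) p) := by
        refine (brn_spec h).trans (le_of_eq ?_)
        have h3 : mbL A val F Q C (nod A val F Q C t L k) (brn A val F Q C (nod A val F Q C t L k)) =
            C.filter (fun p => hit A val F Q C (nod A val F Q C t L k) p) := by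
          ext p
          rw [Finset.mem_filter]
          exact ⟨fun hp => ⟨(mem_mbL.1 hp).1, h, hp⟩, fun hp => hp.2.2⟩
        rw [h3, Finset.card_filter]
        push_cast
        refine Finset.sum_congr rfl (fun p _ => ?_)
        by_cases hp : hit A val F Q C (nod A val F Q C t L k) p
        · rw [if_pos hp, ind_of hp]
        · rw [if_neg hp, ind_not hp]
      nlinarith
    · have e1 : pbl A val F Q C t L (k + 1) = pbl A val F Q C t L k := by
        show (if Pop A val F Q C (nod A val F Q C t L k) then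
          (⟨t, k, brn A val F Q C (nod A val F Q C t L k)⟩ : Birth T) :: pbl A val F Q C t L k else _) = _
        rw [if_neg h]
      rw [e1]
      have h2 : 0 ≤ ∑ p ∈ C, ind (hit A val F Q C (nod A val F Q C t L k) p) :=
        Finset.sum_nonneg fun p _ => ind_nonneg _
      linarith

theorem pbl_len_all {t : ℕ} {L : P → List (Birth T)} {n : ℕ} (h : ∀ j < n, Pop A val F Q C (nod A val F Q C t L j)) :
    (pbl A val F Q C t L n).length = n := by
  classical
  induction n with
  | zero => rfl
  | succ n ih =>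
    show (if Pop A val F Q C (nod A val F Q C t L n) then
          (⟨t, n, brn A val F Q C (nod A val F Q C t L n)⟩ : Birth T) :: pbl A val F Q C t L n else _).length = _
    rw [if_pos (h n (Nat.lt_succ_self n)), List.length_cons, ih fun j hj => h j (by omega)]

/-- after the steps of the node no test has many members -/
theorem nod_end (hQ : Wt Q) (hC : C.Nonempty) (hF : ∀ p ∈ C, ∀ d, |F p d| ≤ 1)
    (hval : ∀ τ, ∀ p ∈ C, ∀ d, |val τ p d| ≤ 1) (t : ℕ) (L : P → List (Birth T)) (hl : ∀ p ∈ C, (L p).length ≤ A.p0)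
    (hL : ∀ p ∈ C, hbw A.Y Q (rs A val F (L p) p) ≤ 4) :
    ¬ Pop A val F Q C (nod A val F Q C t L A.N) := by
  classical
  intro hpop
  have hall : ∀ j < A.N, Pop A val F Q C (nod A val F Q C t L j) := by
    intro j hj
    by_contra hcon
    exact hcon (by rw [← nod_stop hcon hj.le]; exact hpop)
  have h1 := pbl_len_all hall
  have h2 := pbl_le (A := A) (val := val) (F := F) (Q := Q) (C := C) t L A.N
  rw [h1] at h2
  have h3 : ∑ p ∈ C, (hts A val F Q C t L A.N p : ℝ) ≤ ∑ _p ∈ C, (10 / A.e ^ 2 : ℝ) :=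
    Finset.sum_le_sum fun p hp => hts_le hQ (hF p hp) (fun τ d => hval τ p hp d) t L (hl p hp) (hL p hp) A.N
  rw [Finset.sum_const, nsmul_eq_mul] at h3
  have hc : (0 : ℝ) < C.card := by exact_mod_cast hC.card_pos
  have he := A.he
  have ht := A.hthr
  have h4 : A.thr * A.N ≤ 10 / A.e ^ 2 := by
    have h5 : (C.card : ℝ) * (A.thr * A.N) ≤ C.card * (10 / A.e ^ 2) := by nlinarith
    exact le_of_mul_le_mul_left h5 hc
  have h5 := A.hN
  rw [div_lt_iff₀ (by positivity)] at h5
  rw [le_div_iff₀ (by positivity)] at h4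
  nlinarith

theorem not_pop_iff {L : P → List (Birth T)} (h : ¬ Pop A val F Q C L) (τ : T) :
    ∑ p ∈ C, ind (A.e ≤ cor A val F Q (L p) τ p) ≤ A.thr * C.card := by
  classical
  have h1 : ((mbL A val F Q C L τ).card : ℝ) = ∑ p ∈ C, ind (A.e ≤ cor A val F Q (L p) τ p) := by
    unfold mbL
    rw [Finset.card_filter]
    push_cast
    refine Finset.sum_congr rfl (fun p _ => ?_)
    by_cases hp : A.e ≤ cor A val F Q (L p) τ p
    · rw [if_pos hp]
      exact (ind_of hp).symm
    · rw [if_neg hp]
      exact (ind_not hp).symm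
  rw [← h1]
  by_contra hcon
  exact h ⟨τ, (not_le.1 hcon).le⟩

/-- nothing happens to a point without hits -/
theorem nod_of_hts_zero (t : ℕ) (L : P → List (Birth T)) (k : ℕ) {p : P} (h : hts A val F Q C t L k p = 0) :
    nod A val F Q C t L k p = L p := by
  classical
  induction k with
  | zero => rfl
  | succ k ih =>
    have h1 := hts_succ (A := A) (val := val) (F := F) (Q := Q) (C := C) t L k p
    rw [h] at h1
    have h2 : (0 : ℝ) ≤ hts A val F Q C t L k p := Nat.cast_nonneg _
    by_cases h3 : hit A val F Q C (nod A val F Q C t L k) p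
    · rw [ind_of h3] at h1
      push_cast at h1
      linarith
    · rw [ind_not h3, add_zero] at h1
      have h4 : hts A val F Q C t L k p = 0 := by exact_mod_cast h1.symm
      rw [nod_succ, stp_not h3, ih h4]

/-- every element of the new list is old or a public birth of the node -/
theorem mem_nod {t : ℕ} {L : P → List (Birth T)} {k : ℕ} {p : P} {b : Birth T}
    (h : b ∈ nod A val F Q C t L k p) : b ∈ L p ∨ b ∈ pbl A val F Q C t L k := by
  classical
  induction k with
  | zero => exact Or.inl h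
  | succ k ih =>
    have e1 : ∀ c, c ∈ pbl A val F Q C t L k → c ∈ pbl A val F Q C t L (k + 1) := by
      intro c hc
      show c ∈ (if Pop A val F Q C (nod A val F Q C t L k) then
          (⟨t, k, brn A val F Q C (nod A val F Q C t L k)⟩ : Birth T) :: pbl A val F Q C t L k else _)
      split_ifs
      · exact List.mem_cons_of_mem _ hc
      · exact hc
    rw [nod_succ] at h
    by_cases h3 : hit A val F Q C (nod A val F Q C t L k) p
    · rw [stp_hit h3] at h
      rcases mem_ins A h with h4 | h4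
      · right
        show b ∈ (if Pop A val F Q C (nod A val F Q C t L k) then
          (⟨t, k, brn A val F Q C (nod A val F Q C t L k)⟩ : Birth T) :: pbl A val F Q C t L k else _)
        rw [if_pos h3.1, h4]
        exact List.mem_cons_self
      · rcases ih h4 with h5 | h5
        · exact Or.inl h5
        · exact Or.inr (e1 b h5)
    · rw [stp_not h3] at h
      rcases ih h with h5 | h5
      · exact Or.inl h5
      · exact Or.inr (e1 b h5)

end lemmas

/-! ### along the path -/

section run

variable {Om 𝒳 Γ κ : Type*} [Fintype 𝒳] [Nonempty T] (A : LP) (val : T → 𝒳 → V → ℝ) (F : ℕ → Γ → 𝒳 → V → ℝ)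
  (cl : ℕ → 𝒳 → κ) (ρ : ℕ → Γ → V → ℝ) (par : ℕ → Γ → Γ)

open Classical in
/-- restart at a move of the family and rule (R0) -/
def rst (Fn Fo : 𝒳 → V → ℝ) (Q : V → ℝ) (l : List (Birth T)) (x : 𝒳) : List (Birth T) :=
  if Fn x ≠ Fo x ∨ 4 < hbw A.Y Q (rs A val Fn l x) then [] else l

/-- THE LISTS -/
def lsl : ℕ → Γ → 𝒳 → List (Birth T)
  | 0, g => fun x => nod A val (F 0 g) (ρ 0 g) (cel (cl 0) (cl 0 x)) 0 (fun _ => []) A.N x
  | t + 1, g => fun x => nod A val (F (t + 1) g) (ρ (t + 1) g) (cel (cl (t + 1)) (cl (t + 1) x)) (t + 1)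
      (fun y => rst A val (F (t + 1) g) (F t (par t g)) (ρ (t + 1) g) (lsl t (par t g) y) y) A.N x

/-- the lists before the births of the node -/
def prl : ℕ → Γ → 𝒳 → List (Birth T)
  | 0, _ => fun _ => []
  | t + 1, g => fun y => rst A val (F (t + 1) g) (F t (par t g)) (ρ (t + 1) g) (lsl A val F cl ρ par t (par t g) y) y

/-- number of hits of the point at the node -/
def hsl (t : ℕ) (g : Γ) (x : 𝒳) : ℕ :=
  hts A val (F t g) (ρ t g) (cel (cl t) (cl t x)) t (prl A val F cl ρ par t g) A.N x

/-- the public births of a cell at a node (head = last) -/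
def pbs (t : ℕ) (g : Γ) (k : κ) : List (Birth T) :=
  pbl A val (F t g) (ρ t g) (cel (cl t) k) t (prl A val F cl ρ par t g) A.N

/-- the public births in the cells of the point up to the node (head = last) -/
def pub : ℕ → Γ → 𝒳 → List (Birth T)
  | 0, g => fun x => pbs A val F cl ρ par 0 g (cl 0 x)
  | t + 1, g => fun x => pbs A val F cl ρ par (t + 1) g (cl (t + 1) x) ++ pub t (par t g) x

/-- a reset by the rule (R0) at the node `g` of the time `t + 1` -/
def r0 (t : ℕ) (g : Γ) (x : 𝒳) : Prop :=
  F (t + 1) g x = F t (par t g) x ∧ 4 < hbw A.Y (ρ (t + 1) g) (rs A val (F (t + 1) g) (lsl A val F cl ρ par t (par t g) x) x)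

/-- THE RESIDUALS -/
def Rs (t : ℕ) (g : Γ) (x : 𝒳) : V → ℝ := rs A val (F t g) (lsl A val F cl ρ par t g x) x

section static

variable {A val F cl ρ par}

theorem lsl_eq (t : ℕ) (g : Γ) (x : 𝒳) : lsl A val F cl ρ par t g x =
    nod A val (F t g) (ρ t g) (cel (cl t) (cl t x)) t (prl A val F cl ρ par t g) A.N x := by
  cases t <;> rfl

theorem cel_self (t : ℕ) (x : 𝒳) : x ∈ cel (cl t) (cl t x) := mem_cel.2 rfl

theorem prl_len (t : ℕ) (g : Γ) (x : 𝒳) : (prl A val F cl ρ par t g x).length ≤ A.p0 := by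
  induction t generalizing g x with
  | zero => simp [prl]
  | succ t ih =>
    show (rst A val (F (t + 1) g) (F t (par t g)) (ρ (t + 1) g) (lsl A val F cl ρ par t (par t g) x) x).length ≤ _
    unfold rst
    split_ifs
    · simp
    · rw [lsl_eq]
      exact nod_len t _ A.N (ih (par t g) x)

theorem lsl_len (t : ℕ) (g : Γ) (x : 𝒳) : (lsl A val F cl ρ par t g x).length ≤ A.p0 := by
  rw [lsl_eq]
  exact nod_len t _ A.N (prl_len t g x)

variable (hρ : ∀ t g, Wt (ρ t g)) (hF : ∀ t g x c, |F t g x c| ≤ 1) (hval : ∀ τ x c, |val τ x c| ≤ 1)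

include hρ hF in
theorem prl_hub (t : ℕ) (g : Γ) (x : 𝒳) :
    hbw A.Y (ρ t g) (rs A val (F t g) (prl A val F cl ρ par t g x) x) ≤ 4 := by
  have h1 : hbw A.Y (ρ t g) (rs A val (F t g) [] x) ≤ 4 := by
    rw [rs_nil']
    exact (hbw_le_one A.hY0 (hρ t g) (hF t g x)).trans (by norm_num)
  cases t with
  | zero => exact h1
  | succ t =>
    show hbw A.Y (ρ (t + 1) g) (rs A val (F (t + 1) g) (rst A val (F (t + 1) g) (F t (par t g)) (ρ (t + 1) g)
      (lsl A val F cl ρ par t (par t g) x) x) x) ≤ 4
    unfold rst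
    split_ifs with h
    · exact h1
    · exact not_lt.1 fun h2 => h (Or.inr h2)

include hρ hF hval in
/-- the mean of `hub` is at most `4` at every node -/
theorem lsl_hub (t : ℕ) (g : Γ) (x : 𝒳) : hbw A.Y (ρ t g) (Rs A val F cl ρ par t g x) ≤ 4 := by
  unfold Rs
  rw [lsl_eq]
  exact hub_nod (hρ t g) (hF t g x) (fun τ d => hval τ x d) t _ (by norm_num) (prl_hub hρ hF t g x) A.N

include hρ hF hval in
/-- (P3): no test is popular in any cell -/
theorem lsl_test (t : ℕ) (g : Γ) (x : 𝒳) (τ : T) :
    ∑ y ∈ cel (cl t) (cl t x), ind (A.e ≤ iw (ρ t g) (val τ y) (fun c => clip A.Y (Rs A val F cl ρ par t g y c))) ≤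
      A.thr * (cel (cl t) (cl t x)).card := by
  have h1 := nod_end (A := A) (val := val) (F := F t g) (Q := ρ t g) (C := cel (cl t) (cl t x)) (hρ t g)
    ⟨x, cel_self t x⟩ (fun y _ => hF t g y) (fun τ y _ c => hval τ y c) t (prl A val F cl ρ par t g)
    (fun y _ => prl_len t g y) (fun y _ => prl_hub hρ hF t g y)
  refine (le_of_eq ?_).trans (not_pop_iff h1 τ)
  refine Finset.sum_congr rfl fun y hy => ?_
  have h2 : cl t y = cl t x := mem_cel.1 hy
  have h3 : lsl A val F cl ρ par t g y =
      nod A val (F t g) (ρ t g) (cel (cl t) (cl t x)) t (prl A val F cl ρ par t g) A.N y := by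
    rw [lsl_eq, h2]
  unfold Rs cor
  rw [h3]

include hρ hF hval in
/-- (P3) with the absolute value, if the tests are closed under the sign -/
theorem lsl_test_abs (hneg : ∀ τ : T, ∃ τ' : T, ∀ y c, val τ' y c = - val τ y c) (t : ℕ) (g : Γ) (x : 𝒳) (τ : T) :
    ∑ y ∈ cel (cl t) (cl t x), ind (A.e ≤ |iw (ρ t g) (val τ y) (fun c => clip A.Y (Rs A val F cl ρ par t g y c))|) ≤
      2 * A.thr * (cel (cl t) (cl t x)).card := by
  obtain ⟨τ', hτ'⟩ := hneg τ
  have h1 := lsl_test (A := A) (cl := cl) (par := par) hρ hF hval t g x τ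
  have h2 := lsl_test (A := A) (cl := cl) (par := par) hρ hF hval t g x τ'
  have h3 : ∀ y, iw (ρ t g) (val τ' y) (fun c => clip A.Y (Rs A val F cl ρ par t g y c)) =
      - iw (ρ t g) (val τ y) (fun c => clip A.Y (Rs A val F cl ρ par t g y c)) := by
    intro y
    unfold iw
    rw [← Finset.sum_neg_distrib]
    exact Finset.sum_congr rfl fun c _ => by rw [hτ']; ring
  have h4 : ∀ y, ind (A.e ≤ |iw (ρ t g) (val τ y) (fun c => clip A.Y (Rs A val F cl ρ par t g y c))|) ≤
      ind (A.e ≤ iw (ρ t g) (val τ y) (fun c => clip A.Y (Rs A val F cl ρ par t g y c))) +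
      ind (A.e ≤ iw (ρ t g) (val τ' y) (fun c => clip A.Y (Rs A val F cl ρ par t g y c))) := by
    intro y
    by_cases h5 : A.e ≤ |iw (ρ t g) (val τ y) (fun c => clip A.Y (Rs A val F cl ρ par t g y c))|
    · rw [ind_of h5]
      rcases le_abs.1 h5 with h6 | h6
      · rw [ind_of h6]
        linarith [ind_nonneg (A.e ≤ iw (ρ t g) (val τ' y) (fun c => clip A.Y (Rs A val F cl ρ par t g y c)))]
      · rw [← h3] at h6
        rw [ind_of h6]
        linarith [ind_nonneg (A.e ≤ iw (ρ t g) (val τ y) (fun c => clip A.Y (Rs A val F cl ρ par t g y c)))]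
    · rw [ind_not h5]
      exact add_nonneg (ind_nonneg _) (ind_nonneg _)
  refine (Finset.sum_le_sum fun y _ => h4 y).trans ?_
  rw [Finset.sum_add_distrib]
  linarith

include hρ hF in
/-- the number of hits at one node -/
theorem hsl_le (hval : ∀ τ x c, |val τ x c| ≤ 1) (t : ℕ) (g : Γ) (x : 𝒳) :
    (hsl A val F cl ρ par t g x : ℝ) ≤ 10 / A.e ^ 2 :=
  hts_le (hρ t g) (hF t g x) (fun τ d => hval τ x d) t _ (prl_len t g x) (prl_hub hρ hF t g x) A.N

/-- the size of a residual -/
theorem abs_Rs (hF : ∀ t g x c, |F t g x c| ≤ 1) (hval : ∀ τ x c, |val τ x c| ≤ 1) (t : ℕ) (g : Γ) (x : 𝒳) (c : V) :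
    |Rs A val F cl ρ par t g x c| ≤ 1 + A.e * A.p0 :=
  abs_rs_le A (hF t g x c) (fun τ => hval τ x c) (lsl_len t g x)

/-- the residual is the family minus the list -/
theorem Rs_eq (t : ℕ) (g : Γ) (x : 𝒳) (c : V) : Rs A val F cl ρ par t g x c =
    F t g x c - A.e * ((lsl A val F cl ρ par t g x).map fun b => val b.τ x c).sum := rfl

/-- the residual changes only at hits, resets (R0) and moves -/
theorem lsl_stay {t : ℕ} {g : Γ} {x : 𝒳} (h1 : hsl A val F cl ρ par (t + 1) g x = 0)
    (h2 : ¬ r0 A val F cl ρ par t g x) (h3 : F (t + 1) g x = F t (par t g) x) :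
    lsl A val F cl ρ par (t + 1) g x = lsl A val F cl ρ par t (par t g) x := by
  rw [lsl_eq, nod_of_hts_zero (t + 1) _ A.N h1]
  show rst A val (F (t + 1) g) (F t (par t g)) (ρ (t + 1) g) (lsl A val F cl ρ par t (par t g) x) x = _
  unfold rst
  rw [if_neg]
  rintro (h4 | h4)
  · exact h4 h3
  · exact h2 ⟨h3, h4⟩

theorem rs_stay {t : ℕ} {g : Γ} {x : 𝒳} (h1 : hsl A val F cl ρ par (t + 1) g x = 0)
    (h2 : ¬ r0 A val F cl ρ par t g x) (h3 : F (t + 1) g x = F t (par t g) x) :
    Rs A val F cl ρ par (t + 1) g x = Rs A val F cl ρ par t (par t g) x := by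
  funext c
  rw [Rs_eq, Rs_eq, lsl_stay h1 h2 h3, h3]

/-- the public births are cumulative -/
theorem pub_suffix (t : ℕ) (g : Γ) (x : 𝒳) :
    pub A val F cl ρ par t (par t g) x <:+ pub A val F cl ρ par (t + 1) g x := List.suffix_append _ _

theorem mem_prl_pub {t : ℕ} {g : Γ} {x : 𝒳} {b : Birth T} (h : b ∈ prl A val F cl ρ par t g x) :
    ∃ s, t = s + 1 ∧ b ∈ lsl A val F cl ρ par s (par s g) x := by
  cases t with
  | zero => simp [prl] at h
  | succ t =>
    refine ⟨t, rfl, ?_⟩
    have h' : b ∈ rst A val (F (t + 1) g) (F t (par t g)) (ρ (t + 1) g) (lsl A val F cl ρ par t (par t g) x) x := h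
    unfold rst at h'
    split_ifs at h' with h1
    · simp at h'
    · exact h'

/-- the elements of a list are public births -/
theorem mem_pub {t : ℕ} {g : Γ} {x : 𝒳} {b : Birth T} (h : b ∈ lsl A val F cl ρ par t g x) :
    b ∈ pub A val F cl ρ par t g x := by
  induction t generalizing g with
  | zero =>
    rw [lsl_eq] at h
    rcases mem_nod h with h1 | h1
    · simp [prl] at h1
    · exact h1
  | succ t ih =>
    rw [lsl_eq] at h
    rcases mem_nod h with h1 | h1
    · obtain ⟨s, hs, h2⟩ := mem_prl_pub h1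
      have : s = t := by omega
      subst this
      exact (pub_suffix s g x).subset (ih h2)
    · exact List.mem_append_left _ h1

/-- the birth with the number `i` (counted from the beginning of time) -/
def bth (A : LP) (val : T → 𝒳 → V → ℝ) (F : ℕ → Γ → 𝒳 → V → ℝ) (cl : ℕ → 𝒳 → κ) (ρ : ℕ → Γ → V → ℝ)
    (par : ℕ → Γ → Γ) (i t : ℕ) (g : Γ) (x : 𝒳) : Option (Birth T) := (pub A val F cl ρ par t g x).reverse[i]?

theorem bth_keep {i t : ℕ} {g : Γ} {x : 𝒳} {b : Birth T} (h : bth A val F cl ρ par i t (par t g) x = some b) :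
    bth A val F cl ρ par i (t + 1) g x = some b := by
  unfold bth at h ⊢
  obtain ⟨l, hl⟩ := pub_suffix (A := A) (val := val) (F := F) (cl := cl) (ρ := ρ) (par := par) t g x
  rw [← hl, List.reverse_append]
  rw [List.getElem?_append_left]
  · exact h
  · exact (List.getElem?_eq_some_iff.1 h).1

/-- the births of a list have numbers -/
theorem exists_num {t : ℕ} {g : Γ} {x : 𝒳} {b : Birth T} (h : b ∈ lsl A val F cl ρ par t g x) :
    ∃ i, i < (pub A val F cl ρ par t g x).length ∧ bth A val F cl ρ par i t g x = some b := by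
  have h1 := mem_pub h
  rw [← List.mem_reverse, List.mem_iff_getElem?] at h1
  obtain ⟨i, hi⟩ := h1
  refine ⟨i, ?_, hi⟩
  have := (List.getElem?_eq_some_iff.1 hi).1
  rwa [List.length_reverse] at this

/-- the public births depend only on the cell (nested cells) -/
theorem pub_cell (nest : ∀ t a a', cl (t + 1) a = cl (t + 1) a' → cl t a = cl t a') {t : ℕ} {g : Γ} {x y : 𝒳}
    (h : cl t x = cl t y) : pub A val F cl ρ par t g x = pub A val F cl ρ par t g y := by
  induction t generalizing g with
  | zero =>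
    show pbs A val F cl ρ par 0 g (cl 0 x) = pbs A val F cl ρ par 0 g (cl 0 y)
    rw [h]
  | succ t ih =>
    show pbs A val F cl ρ par (t + 1) g (cl (t + 1) x) ++ pub A val F cl ρ par t (par t g) x =
      pbs A val F cl ρ par (t + 1) g (cl (t + 1) y) ++ pub A val F cl ρ par t (par t g) y
    rw [h, ih (nest t x y h)]

/-- every public birth is thick -/
theorem pbs_le (t : ℕ) (g : Γ) (x : 𝒳) :
    A.thr * (cel (cl t) (cl t x)).card * (pbs A val F cl ρ par t g (cl t x)).length ≤
      ∑ y ∈ cel (cl t) (cl t x), (hsl A val F cl ρ par t g y : ℝ) := by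
  refine (pbl_le t (prl A val F cl ρ par t g) A.N).trans (le_of_eq ?_)
  refine Finset.sum_congr rfl fun y hy => ?_
  unfold hsl
  rw [mem_cel.1 hy]

end static

end run

end

end Pool.Agent.GMN
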