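import Pool.Agent.GMN.LsA
import Pool.Agent.M3.S1Tail

/-!
# GMN.LsC (row N, 3.2): the counts of the lists (helper88)

Setting of `GMN/LsA` with `hS : TS.Side P X n nd cl ρ par`.  At a sample point `w`:
`Ph t w` = potential (in `[0,5]`), `hw t w` = number of hits at the time `t`, `rw t w` = reset (R0) at the time `t + 1`,
`mw t w` = move of the family at the time `t + 1`.

* `fut` : `E f (Ph k + sum (e^2/2 hw + 3 rw)) ≤ E f (Ph s + sum mw)` for `f ≥ 0` known at the time `s`;
* `fut_hits`, `fut_r0` : mean number of hits and of resets (R0) after the time `s`, on every event of the time `s`;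
* `tot_hits` : mean number of all hits;
* `pubs_wt`, `tot_pubs` : mean number of public births in the cells of the point, with weights;
* `chg_le`, `Rs_chg` : changes of the residual; `tail_hits` : exponential tails.
-/

set_option autoImplicit false
set_option linter.unusedSectionVars false

namespace Pool.Agent.GMN

open Finset Pool.Agent.PWZ Pool.Agent.M3 Pool.Agent.M3.TS

noncomputable section

variable {Om 𝒳 V Γ κ T : Type*} [Fintype Om] [Fintype 𝒳] [Fintype V] [Nonempty T]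

/-- the potential at a sample point -/
def Ph (A : LP) (val : T → 𝒳 → V → ℝ) (F : ℕ → Γ → 𝒳 → V → ℝ) (X : Om → 𝒳) (nd : ℕ → Om → Γ) (cl : ℕ → 𝒳 → κ)
    (ρ : ℕ → Γ → V → ℝ) (par : ℕ → Γ → Γ) (t : ℕ) (w : Om) : ℝ :=
  pot A val (F t (nd t w)) (ρ t (nd t w)) (lsl A val F cl ρ par t (nd t w) (X w)) (X w)

/-- the number of hits at the time `t` -/
def hw (A : LP) (val : T → 𝒳 → V → ℝ) (F : ℕ → Γ → 𝒳 → V → ℝ) (X : Om → 𝒳) (nd : ℕ → Om → Γ) (cl : ℕ → 𝒳 → κ)
    (ρ : ℕ → Γ → V → ℝ) (par : ℕ → Γ → Γ) (t : ℕ) (w : Om) : ℝ := hsl A val F cl ρ par t (nd t w) (X w)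

/-- reset (R0) at the time `t + 1` -/
def rw0 (A : LP) (val : T → 𝒳 → V → ℝ) (F : ℕ → Γ → 𝒳 → V → ℝ) (X : Om → 𝒳) (nd : ℕ → Om → Γ) (cl : ℕ → 𝒳 → κ)
    (ρ : ℕ → Γ → V → ℝ) (par : ℕ → Γ → Γ) (t : ℕ) (w : Om) : ℝ :=
  ind (r0 A val F cl ρ par t (nd (t + 1) w) (X w))

/-- move of the family at the time `t + 1` -/
def mw (F : ℕ → Γ → 𝒳 → V → ℝ) (X : Om → 𝒳) (nd : ℕ → Om → Γ) (t : ℕ) (w : Om) : ℝ :=
  ind (F (t + 1) (nd (t + 1) w) (X w) ≠ F t (nd t w) (X w))

section counts

variable {P : FP Om} {X : Om → 𝒳} {n : ℕ} {nd : ℕ → Om → Γ} {cl : ℕ → 𝒳 → κ} {ρ : ℕ → Γ → V → ℝ}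
  {par : ℕ → Γ → Γ} (hS : Side P X n nd cl ρ par) {A : LP} {val : T → 𝒳 → V → ℝ} {F : ℕ → Γ → 𝒳 → V → ℝ}
  (hF : ∀ t g x c, |F t g x c| ≤ 1) (hval : ∀ τ x c, |val τ x c| ≤ 1)

include hS hF in
theorem Ph_nonneg (t : ℕ) (w : Om) : 0 ≤ Ph A val F X nd cl ρ par t w := pot_nonneg A val _ (hS.wt _ _) _ _

theorem hw_nonneg (t : ℕ) (w : Om) : 0 ≤ hw A val F X nd cl ρ par t w := Nat.cast_nonneg _

theorem rw0_nonneg (t : ℕ) (w : Om) : 0 ≤ rw0 A val F X nd cl ρ par t w := ind_nonneg _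

theorem mw_nonneg (t : ℕ) (w : Om) : 0 ≤ mw F X nd t w := ind_nonneg _

include hS hF hval in
theorem Ph_le (t : ℕ) (w : Om) : Ph A val F X nd cl ρ par t w ≤ 5 := by
  unfold Ph pot
  have h1 := lsl_hub (A := A) (cl := cl) (par := par) hS.wt hF hval t (nd t w) (X w)
  have h2 : ((lsl A val F cl ρ par t (nd t w) (X w)).length : ℝ) / A.p0 ≤ 1 := by
    rw [div_le_one A.p0_pos]
    exact_mod_cast lsl_len t (nd t w) (X w)
  unfold Rs at h1
  linarith

include hS in
theorem Ph_fac (t : ℕ) : Fac (fun w => (X w, nd t w)) (Ph A val F X nd cl ρ par t) := by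
  intro v w h
  obtain ⟨h1, h2⟩ := Prod.mk_inj.1 h
  unfold Ph
  rw [h1, h2]

include hS in
theorem fac_succ (t : ℕ) : Fac (fun w => (X w, nd (t + 1) w)) (fun w => (X w, nd t w)) := by
  intro v w h
  obtain ⟨h1, h2⟩ := Prod.mk_inj.1 h
  show (X v, nd t v) = (X w, nd t w)
  rw [← hS.par_nd t v, ← hS.par_nd t w, h1, h2]

include hS in
theorem fac_le {s t : ℕ} (hst : s ≤ t) : Fac (fun w => (X w, nd t w)) (fun w => (X w, nd s w)) := by
  induction t, hst using Nat.le_induction with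
  | base => exact Fac.refl _
  | succ t _ ih => exact (fac_succ hS t).trans ih

include hS hF hval in
/-- one step, pointwise -/
theorem step_pt (t : ℕ) (w : Om) :
    Ph A val F X nd cl ρ par (t + 1) w + A.e ^ 2 / 2 * hw A val F X nd cl ρ par (t + 1) w +
      3 * rw0 A val F X nd cl ρ par t w ≤
    hbw A.Y (ρ (t + 1) (nd (t + 1) w)) (Rs A val F cl ρ par t (nd t w) (X w)) +
      (lsl A val F cl ρ par t (nd t w) (X w)).length / A.p0 + mw F X nd t w := by
  classical
  set g := nd (t + 1) w with hg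
  have hpar : par t g = nd t w := hS.par_nd t w
  have hQ := hS.wt (t + 1) g
  have h1 := pot_nod (A := A) (val := val) (F := F (t + 1) g) (Q := ρ (t + 1) g)
    (C := cel (cl (t + 1)) (cl (t + 1) (X w))) hQ (hF (t + 1) g (X w)) (fun τ d => hval τ (X w) d) (t + 1)
    (prl A val F cl ρ par (t + 1) g) (prl_len (t + 1) g (X w)) A.N
  have h2 : pot A val (F (t + 1) g) (ρ (t + 1) g) (prl A val F cl ρ par (t + 1) g (X w)) (X w) +
      3 * rw0 A val F X nd cl ρ par t w ≤
      hbw A.Y (ρ (t + 1) g) (Rs A val F cl ρ par t (nd t w) (X w)) +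
      (lsl A val F cl ρ par t (nd t w) (X w)).length / A.p0 + mw F X nd t w := by
    have a1 : prl A val F cl ρ par (t + 1) g (X w) = rst A val (F (t + 1) g) (F t (par t g)) (ρ (t + 1) g)
      (lsl A val F cl ρ par t (par t g) (X w)) (X w) := rfl
    have a2 := hbw_nonneg A.hY0 hQ (Rs A val F cl ρ par t (nd t w) (X w))
    have a3 : (0 : ℝ) ≤ (lsl A val F cl ρ par t (nd t w) (X w)).length / A.p0 := by
      have := A.p0_pos
      positivity
    have a4 := pot_nil_le A (val := val) (Q := ρ (t + 1) g) hQ (hF (t + 1) g (X w))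
    rw [a1, hpar]
    unfold rw0 mw
    rw [← hg]
    by_cases hm : F (t + 1) g (X w) ≠ F t (nd t w) (X w)
    · rw [ind_of hm, ind_not (fun h : r0 A val F cl ρ par t g (X w) => hm (by rw [← hpar]; exact h.1))]
      unfold rst
      rw [if_pos (Or.inl hm)]
      linarith
    · rw [ind_not hm]
      have hm' : F (t + 1) g (X w) = F t (nd t w) (X w) := not_not.1 hm
      have e1 : Rs A val F cl ρ par t (nd t w) (X w) =
          rs A val (F (t + 1) g) (lsl A val F cl ρ par t (nd t w) (X w)) (X w) := by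
        funext c
        unfold Rs rs
        rw [hm']
      by_cases hr : 4 < hbw A.Y (ρ (t + 1) g) (rs A val (F (t + 1) g) (lsl A val F cl ρ par t (nd t w) (X w)) (X w))
      · rw [ind_of (show r0 A val F cl ρ par t g (X w) from ⟨by rw [hpar]; exact hm', by rw [hpar]; exact hr⟩)]
        unfold rst
        rw [if_pos (Or.inr hr), e1]
        linarith
      · rw [ind_not (fun h : r0 A val F cl ρ par t g (X w) => hr (by rw [← hpar]; exact h.2))]
        unfold rst
        rw [if_neg (by rintro (h | h); exacts [hm h, hr h])]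
        unfold pot
        rw [e1]
        linarith
  unfold Ph hw hsl
  rw [← hg, lsl_eq]
  linarith

include hS hF hval in
/-- one step in mean -/
theorem step_E {t : ℕ} (ht : t < n) {f : Om → ℝ} (hf : Fac (fun w => (X w, nd t w)) f) (hf0 : ∀ w, 0 ≤ f w) :
    P.E (fun w => f w * (Ph A val F X nd cl ρ par (t + 1) w + A.e ^ 2 / 2 * hw A val F X nd cl ρ par (t + 1) w +
      3 * rw0 A val F X nd cl ρ par t w)) ≤
    P.E (fun w => f w * (Ph A val F X nd cl ρ par t w + mw F X nd t w)) := by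
  have h1 : P.E (fun w => f w * (Ph A val F X nd cl ρ par (t + 1) w +
      A.e ^ 2 / 2 * hw A val F X nd cl ρ par (t + 1) w + 3 * rw0 A val F X nd cl ρ par t w)) ≤
      P.E (fun w => ∑ c, ρ (t + 1) (nd (t + 1) w) c * (f w * hub A.Y (Rs A val F cl ρ par t (nd t w) (X w) c)) +
        f w * ((lsl A val F cl ρ par t (nd t w) (X w)).length / A.p0 + mw F X nd t w)) := by
    refine P.E_mono fun w _ => ?_
    have h2 := mul_le_mul_of_nonneg_left (step_pt hS hF hval (A := A) t w) (hf0 w)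
    refine h2.trans (le_of_eq ?_)
    unfold hbw
    rw [add_assoc, mul_add, Finset.mul_sum]
    congr 1
    exact Finset.sum_congr rfl fun c _ => by ring
  refine h1.trans (le_of_eq ?_)
  rw [P.E_add]
  have h3 := E_mart hS ht (fun w c => f w * hub A.Y (Rs A val F cl ρ par t (nd t w) (X w) c)) (fun c => by
    intro v w h
    obtain ⟨h4, h5⟩ := Prod.mk_inj.1 h
    show f v * hub A.Y (Rs A val F cl ρ par t (nd t v) (X v) c) = f w * hub A.Y (Rs A val F cl ρ par t (nd t w) (X w) c)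
    rw [hf v w h, h4, h5])
  rw [h3, ← P.E_add]
  refine P.E_congr fun w _ => ?_
  unfold Ph pot hbw
  have e1 : ∑ c, ρ t (nd t w) c * (f w * hub A.Y (Rs A val F cl ρ par t (nd t w) (X w) c)) =
      f w * ∑ c, ρ t (nd t w) c * hub A.Y (Rs A val F cl ρ par t (nd t w) (X w) c) := by
    rw [Finset.mul_sum]
    exact Finset.sum_congr rfl fun c _ => by ring
  rw [e1]
  unfold Rs
  ring

include hS hF hval in
/-- the future on an event of the time `s` -/
theorem fut {s k : ℕ} (hsk : s ≤ k) (hk : k ≤ n) {f : Om → ℝ} (hf : Fac (fun w => (X w, nd s w)) f)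
    (hf0 : ∀ w, 0 ≤ f w) :
    P.E (fun w => f w * (Ph A val F X nd cl ρ par k w + ∑ t ∈ Ico s k, (A.e ^ 2 / 2 * hw A val F X nd cl ρ par (t + 1) w +
      3 * rw0 A val F X nd cl ρ par t w))) ≤
    P.E (fun w => f w * (Ph A val F X nd cl ρ par s w + ∑ t ∈ Ico s k, mw F X nd t w)) := by
  induction k, hsk using Nat.le_induction with
  | base => simp
  | succ k hsk ih =>
    have h1 := ih (by omega)
    have h2 := step_E hS hF hval (A := A) (by omega : k < n) ((fac_le hS hsk).trans hf) hf0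
    have e1 : P.E (fun w => f w * (Ph A val F X nd cl ρ par (k + 1) w +
        ∑ t ∈ Ico s (k + 1), (A.e ^ 2 / 2 * hw A val F X nd cl ρ par (t + 1) w + 3 * rw0 A val F X nd cl ρ par t w))) =
        P.E (fun w => f w * (Ph A val F X nd cl ρ par (k + 1) w + A.e ^ 2 / 2 * hw A val F X nd cl ρ par (k + 1) w +
          3 * rw0 A val F X nd cl ρ par k w)) +
        P.E (fun w => f w * ∑ t ∈ Ico s k, (A.e ^ 2 / 2 * hw A val F X nd cl ρ par (t + 1) w +
          3 * rw0 A val F X nd cl ρ par t w)) := by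
      rw [← P.E_add]
      refine P.E_congr fun w _ => ?_
      rw [Finset.sum_Ico_succ_top hsk]
      ring
    have e2 : P.E (fun w => f w * (Ph A val F X nd cl ρ par s w + ∑ t ∈ Ico s (k + 1), mw F X nd t w)) =
        P.E (fun w => f w * (Ph A val F X nd cl ρ par s w + ∑ t ∈ Ico s k, mw F X nd t w)) +
        P.E (fun w => f w * mw F X nd k w) := by
      rw [← P.E_add]
      refine P.E_congr fun w _ => ?_
      rw [Finset.sum_Ico_succ_top hsk]
      ring
    have e3 : P.E (fun w => f w * (Ph A val F X nd cl ρ par k w + mw F X nd k w)) =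
        P.E (fun w => f w * Ph A val F X nd cl ρ par k w) + P.E (fun w => f w * mw F X nd k w) := by
      rw [← P.E_add]
      exact P.E_congr fun w _ => by ring
    have e4 : P.E (fun w => f w * (Ph A val F X nd cl ρ par k w + ∑ t ∈ Ico s k, (A.e ^ 2 / 2 *
        hw A val F X nd cl ρ par (t + 1) w + 3 * rw0 A val F X nd cl ρ par t w))) =
        P.E (fun w => f w * Ph A val F X nd cl ρ par k w) +
        P.E (fun w => f w * ∑ t ∈ Ico s k, (A.e ^ 2 / 2 * hw A val F X nd cl ρ par (t + 1) w +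
          3 * rw0 A val F X nd cl ρ par t w)) := by
      rw [← P.E_add]
      exact P.E_congr fun w _ => by ring
    rw [e1, e2]
    linarith

/-- the number of hits after the time `s` -/
def Hs (A : LP) (val : T → 𝒳 → V → ℝ) (F : ℕ → Γ → 𝒳 → V → ℝ) (X : Om → 𝒳) (nd : ℕ → Om → Γ) (cl : ℕ → 𝒳 → κ)
    (ρ : ℕ → Γ → V → ℝ) (par : ℕ → Γ → Γ) (s k : ℕ) (w : Om) : ℝ :=
  ∑ t ∈ Ico s k, hw A val F X nd cl ρ par (t + 1) w

include hS hF hval in
/-- mean number of future hits and resets -/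
theorem fut_all {s k : ℕ} (hsk : s ≤ k) (hk : k ≤ n) {f : Om → ℝ} (hf : Fac (fun w => (X w, nd s w)) f)
    (hf0 : ∀ w, 0 ≤ f w) :
    A.e ^ 2 / 2 * P.E (fun w => f w * ∑ t ∈ Ico s k, hw A val F X nd cl ρ par (t + 1) w) +
      3 * P.E (fun w => f w * ∑ t ∈ Ico s k, rw0 A val F X nd cl ρ par t w) ≤
    5 * P.E f + P.E (fun w => f w * ∑ t ∈ Ico s k, mw F X nd t w) := by
  have h1 := fut hS hF hval (A := A) hsk hk hf hf0
  have h2 : P.E (fun w => f w * (Ph A val F X nd cl ρ par s w + ∑ t ∈ Ico s k, mw F X nd t w)) ≤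
      P.E (fun w => 5 * f w + f w * ∑ t ∈ Ico s k, mw F X nd t w) := by
    refine P.E_mono fun w _ => ?_
    have h3 := mul_le_mul_of_nonneg_left (Ph_le hS hF hval (A := A) s w) (hf0 w)
    rw [mul_add]
    linarith
  have h3 : P.E (fun w => A.e ^ 2 / 2 * (f w * ∑ t ∈ Ico s k, hw A val F X nd cl ρ par (t + 1) w) +
      3 * (f w * ∑ t ∈ Ico s k, rw0 A val F X nd cl ρ par t w)) ≤
      P.E (fun w => f w * (Ph A val F X nd cl ρ par k w + ∑ t ∈ Ico s k, (A.e ^ 2 / 2 *
        hw A val F X nd cl ρ par (t + 1) w + 3 * rw0 A val F X nd cl ρ par t w))) := by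
    refine P.E_mono fun w _ => ?_
    have h4 := mul_nonneg (hf0 w) (Ph_nonneg (T := T) (A := A) (val := val) (cl := cl) hS hF k w)
    rw [Finset.sum_add_distrib, ← Finset.mul_sum, ← Finset.mul_sum]
    nlinarith
  rw [P.E_add, P.E_smul, P.E_smul] at h3
  rw [P.E_add, P.E_smul] at h2
  linarith

include hS hF hval in
theorem fut_hits {s k : ℕ} (hsk : s ≤ k) (hk : k ≤ n) {f : Om → ℝ} (hf : Fac (fun w => (X w, nd s w)) f)
    (hf0 : ∀ w, 0 ≤ f w) :
    P.E (fun w => f w * ∑ t ∈ Ico s k, hw A val F X nd cl ρ par (t + 1) w) ≤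
    2 / A.e ^ 2 * (5 * P.E f + P.E (fun w => f w * ∑ t ∈ Ico s k, mw F X nd t w)) := by
  have h1 := fut_all hS hF hval (A := A) hsk hk hf hf0
  have h2 : 0 ≤ P.E (fun w => f w * ∑ t ∈ Ico s k, rw0 A val F X nd cl ρ par t w) :=
    P.E_nonneg fun w _ => mul_nonneg (hf0 w) (Finset.sum_nonneg fun t _ => rw0_nonneg t w)
  have he := A.he
  rw [div_mul_eq_mul_div, le_div_iff₀ (by positivity)]
  linarith

include hS hF hval in
theorem fut_r0 {s k : ℕ} (hsk : s ≤ k) (hk : k ≤ n) {f : Om → ℝ} (hf : Fac (fun w => (X w, nd s w)) f)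
    (hf0 : ∀ w, 0 ≤ f w) :
    P.E (fun w => f w * ∑ t ∈ Ico s k, rw0 A val F X nd cl ρ par t w) ≤
    1 / 3 * (5 * P.E f + P.E (fun w => f w * ∑ t ∈ Ico s k, mw F X nd t w)) := by
  have h1 := fut_all hS hF hval (A := A) hsk hk hf hf0
  have h2 : 0 ≤ P.E (fun w => f w * ∑ t ∈ Ico s k, hw A val F X nd cl ρ par (t + 1) w) :=
    P.E_nonneg fun w _ => mul_nonneg (hf0 w) (Finset.sum_nonneg fun t _ => hw_nonneg (t + 1) w)
  have h3 : 0 ≤ A.e ^ 2 / 2 * P.E (fun w => f w * ∑ t ∈ Ico s k, hw A val F X nd cl ρ par (t + 1) w) :=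
    mul_nonneg (by positivity) h2
  linarith

include hS hF hval in
/-- at the time `0` -/
theorem start_pt (w : Om) : Ph A val F X nd cl ρ par 0 w + A.e ^ 2 / 2 * hw A val F X nd cl ρ par 0 w ≤ 1 := by
  have h1 := pot_nod (A := A) (val := val) (F := F 0 (nd 0 w)) (Q := ρ 0 (nd 0 w))
    (C := cel (cl 0) (cl 0 (X w))) (hS.wt _ _) (hF 0 (nd 0 w) (X w)) (fun τ d => hval τ (X w) d) 0
    (prl A val F cl ρ par 0 (nd 0 w)) (prl_len 0 (nd 0 w) (X w)) A.N
  have h2 : pot A val (F 0 (nd 0 w)) (ρ 0 (nd 0 w)) (prl A val F cl ρ par 0 (nd 0 w) (X w)) (X w) ≤ 1 :=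
    pot_nil_le A (hS.wt _ _) (hF 0 (nd 0 w) (X w))
  unfold Ph hw hsl
  rw [lsl_eq]
  linarith

include hS hF hval in
/-- mean number of all hits (with weights known at the time `0`) -/
theorem tot_hits {k : ℕ} (hk : k ≤ n) :
    P.E (fun w => ∑ t ∈ range (k + 1), hw A val F X nd cl ρ par t w) ≤
    2 / A.e ^ 2 * (1 + P.E (fun w => ∑ t ∈ range k, mw F X nd t w)) := by
  have h1 := fut hS hF hval (A := A) (Nat.zero_le k) hk (Fac.const _ (1 : ℝ)) (fun _ => zero_le_one)
  simp only [one_mul] at h1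
  have he := A.he
  have h2 : P.E (fun w => A.e ^ 2 / 2 * ∑ t ∈ range (k + 1), hw A val F X nd cl ρ par t w) ≤
      P.E (fun w => A.e ^ 2 / 2 * hw A val F X nd cl ρ par 0 w + (Ph A val F X nd cl ρ par k w +
        ∑ t ∈ Ico 0 k, (A.e ^ 2 / 2 * hw A val F X nd cl ρ par (t + 1) w + 3 * rw0 A val F X nd cl ρ par t w))) := by
    refine P.E_mono fun w _ => ?_
    have h3 := Ph_nonneg (T := T) (A := A) (val := val) (cl := cl) hS hF k w
    have h4 : 0 ≤ ∑ t ∈ range k, rw0 A val F X nd cl ρ par t w := Finset.sum_nonneg fun t _ => rw0_nonneg t w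
    rw [Finset.sum_range_succ', ← Finset.range_eq_Ico, Finset.sum_add_distrib, ← Finset.mul_sum, ← Finset.mul_sum]
    linarith
  rw [P.E_smul, P.E_add] at h2
  have h3 : P.E (fun w => A.e ^ 2 / 2 * hw A val F X nd cl ρ par 0 w) + P.E (Ph A val F X nd cl ρ par 0) ≤ 1 := by
    rw [← P.E_add]
    refine P.E_le_const fun w _ => ?_
    have := start_pt hS hF hval (A := A) w
    linarith
  have e5 := P.E_add (Ph A val F X nd cl ρ par 0) (fun w => ∑ t ∈ Ico 0 k, mw F X nd t w)
  rw [e5] at h1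
  rw [div_mul_eq_mul_div, le_div_iff₀ (by positivity)]
  simp only [← Finset.range_eq_Ico] at h1 h2
  linarith

/-- averaging over the cells -/
theorem sum_cel_avg (c : 𝒳 → κ) (φ : 𝒳 → ℝ) :
    ∑ x, (∑ y ∈ cel c (c x), φ y) / (cel c (c x)).card = ∑ x, φ x := by
  classical
  have hpos : ∀ x, (0 : ℝ) < (cel c (c x)).card := fun x => by
    exact_mod_cast Finset.card_pos.2 ⟨x, mem_cel.2 rfl⟩
  have h1 : ∀ x, (∑ y ∈ cel c (c x), φ y) / (cel c (c x)).card =
      ∑ y, ind (c y = c x) * (φ y / (cel c (c y)).card) := by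
    intro x
    rw [Finset.sum_div]
    have h2 : ∀ y ∈ cel c (c x), φ y / (cel c (c x)).card = ind (c y = c x) * (φ y / (cel c (c y)).card) := by
      intro y hy
      rw [ind_of (mem_cel.1 hy), one_mul, mem_cel.1 hy]
    rw [Finset.sum_congr rfl h2]
    refine Finset.sum_subset (Finset.subset_univ _) fun y _ hy => ?_
    rw [ind_not fun h => hy (mem_cel.2 h), zero_mul]
  rw [Finset.sum_congr rfl fun x _ => h1 x, Finset.sum_comm]
  refine Finset.sum_congr rfl fun y _ => ?_
  rw [← Finset.sum_mul]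
  have h3 : ∑ x, ind (c y = c x) = (cel c (c y)).card := by
    have h4 : ∀ x, ind (c y = c x) = if x ∈ cel c (c y) then (1 : ℝ) else 0 := by
      intro x
      by_cases hx : x ∈ cel c (c y)
      · rw [if_pos hx, ind_of (mem_cel.1 hx).symm]
      · rw [if_neg hx, ind_not fun h => hx (mem_cel.2 h.symm)]
    rw [Finset.sum_congr rfl fun x _ => h4 x, Finset.sum_ite_mem, Finset.univ_inter, Finset.sum_const,
      nsmul_eq_mul, mul_one]
  rw [h3]
  field_simp [(hpos y).ne']

include hS in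
/-- the number of public births at one time, with weights which are constant on the cells -/
theorem pubs_wt (t : ℕ) (φ : Γ → 𝒳 → ℝ) (hφ0 : ∀ g x, 0 ≤ φ g x)
    (hφ : ∀ g x y, cl t x = cl t y → φ g x = φ g y) :
    A.thr * P.E (fun w => φ (nd t w) (X w) * (pbs A val F cl ρ par t (nd t w) (cl t (X w))).length) ≤
      P.E (fun w => φ (nd t w) (X w) * hw A val F X nd cl ρ par t w) := by
  have h1 := free_avg hS t (fun g x => φ g x * ((pbs A val F cl ρ par t g (cl t x)).length : ℝ))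
  have h2 := free_avg hS t (fun g x => φ g x * (hsl A val F cl ρ par t g x : ℝ))
  rw [h1]
  unfold hw
  rw [h2, ← P.E_smul]
  refine P.E_mono fun w _ => ?_
  set g := nd t w
  have hc : (0 : ℝ) < Fintype.card 𝒳 := by
    exact_mod_cast Fintype.card_pos_iff.2 ⟨X w⟩
  rw [mul_div_assoc', div_le_div_iff_of_pos_right hc, Finset.mul_sum,
    ← sum_cel_avg (cl t) (fun x => φ g x * (hsl A val F cl ρ par t g x : ℝ))]
  refine Finset.sum_le_sum fun x _ => ?_
  have hpos : (0 : ℝ) < (cel (cl t) (cl t x)).card := by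
    exact_mod_cast Finset.card_pos.2 ⟨x, mem_cel.2 rfl⟩
  rw [le_div_iff₀ hpos]
  have h3 := pbs_le (A := A) (val := val) (F := F) (ρ := ρ) (par := par) (cl := cl) t g x
  have h4 : ∑ y ∈ cel (cl t) (cl t x), φ g y * (hsl A val F cl ρ par t g y : ℝ) =
      φ g x * ∑ y ∈ cel (cl t) (cl t x), (hsl A val F cl ρ par t g y : ℝ) := by
    rw [Finset.mul_sum]
    exact Finset.sum_congr rfl fun y hy => by rw [hφ g y x (mem_cel.1 hy)]
  rw [h4]
  have h5 := mul_le_mul_of_nonneg_left h3 (hφ0 g x)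
  calc A.thr * (φ g x * ((pbs A val F cl ρ par t g (cl t x)).length : ℝ)) * (cel (cl t) (cl t x)).card =
        φ g x * (A.thr * (cel (cl t) (cl t x)).card * ((pbs A val F cl ρ par t g (cl t x)).length : ℝ)) := by ring
    _ ≤ _ := h5

include hS in
theorem pub_len_eq (t : ℕ) (w : Om) :
    ((pub A val F cl ρ par t (nd t w) (X w)).length : ℝ) =
      ∑ s ∈ range (t + 1), ((pbs A val F cl ρ par s (nd s w) (cl s (X w))).length : ℝ) := by
  induction t with
  | zero =>
    rw [zero_add, Finset.sum_range_one]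
    rfl
  | succ t ih =>
    rw [Finset.sum_range_succ, ← ih]
    have e1 : pub A val F cl ρ par (t + 1) (nd (t + 1) w) (X w) =
        pbs A val F cl ρ par (t + 1) (nd (t + 1) w) (cl (t + 1) (X w)) ++
          pub A val F cl ρ par t (par t (nd (t + 1) w)) (X w) := rfl
    rw [e1, hS.par_nd, List.length_append]
    push_cast
    ring

include hS hF hval in
/-- mean number of all public births in the cells of the point -/
theorem tot_pubs {k : ℕ} (hk : k ≤ n) :
    P.E (fun w => ((pub A val F cl ρ par k (nd k w) (X w)).length : ℝ)) ≤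
    2 / (A.e ^ 2 * A.thr) * (1 + P.E (fun w => ∑ t ∈ range k, mw F X nd t w)) := by
  have h1 := tot_hits hS hF hval (A := A) hk
  have h2 : A.thr * P.E (fun w => ((pub A val F cl ρ par k (nd k w) (X w)).length : ℝ)) ≤
      P.E (fun w => ∑ t ∈ range (k + 1), hw A val F X nd cl ρ par t w) := by
    have e1 : P.E (fun w => ((pub A val F cl ρ par k (nd k w) (X w)).length : ℝ)) =
        ∑ t ∈ range (k + 1), P.E (fun w => ((pbs A val F cl ρ par t (nd t w) (cl t (X w))).length : ℝ)) := by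
      rw [← P.E_sum]
      exact P.E_congr fun w _ => pub_len_eq hS k w
    rw [e1, Finset.mul_sum, P.E_sum]
    refine Finset.sum_le_sum fun t _ => ?_
    have h3 := pubs_wt hS (A := A) (val := val) (F := F) t (fun _ _ => 1) (fun _ _ => zero_le_one) (fun _ _ _ _ => rfl)
    simp only [one_mul] at h3
    exact h3
  have he := A.he
  have ht := A.hthr
  have h3 := h2.trans h1
  have e2 : 2 / (A.e ^ 2 * A.thr) * (1 + P.E (fun w => ∑ t ∈ range k, mw F X nd t w)) =
      (2 / A.e ^ 2 * (1 + P.E (fun w => ∑ t ∈ range k, mw F X nd t w))) / A.thr := by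
    field_simp
  rw [e2, le_div_iff₀ ht, mul_comm]
  exact h3

/-- the change of the residual at the time `t + 1` -/
def chg (A : LP) (val : T → 𝒳 → V → ℝ) (F : ℕ → Γ → 𝒳 → V → ℝ) (X : Om → 𝒳) (nd : ℕ → Om → Γ) (cl : ℕ → 𝒳 → κ)
    (ρ : ℕ → Γ → V → ℝ) (par : ℕ → Γ → Γ) (t : ℕ) (w : Om) : ℝ :=
  ind (Rs A val F cl ρ par (t + 1) (nd (t + 1) w) (X w) ≠ Rs A val F cl ρ par t (nd t w) (X w))

include hS in
theorem chg_le (t : ℕ) (w : Om) : chg A val F X nd cl ρ par t w ≤
    hw A val F X nd cl ρ par (t + 1) w + rw0 A val F X nd cl ρ par t w + mw F X nd t w := by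
  unfold chg
  by_cases h : Rs A val F cl ρ par (t + 1) (nd (t + 1) w) (X w) ≠ Rs A val F cl ρ par t (nd t w) (X w)
  · rw [ind_of h]
    by_contra hcon
    have hcon' := not_le.1 hcon
    have h1 := hw_nonneg (A := A) (val := val) (F := F) (X := X) (nd := nd) (cl := cl) (ρ := ρ) (par := par) (t + 1) w
    have h2 := rw0_nonneg (A := A) (val := val) (F := F) (X := X) (nd := nd) (cl := cl) (ρ := ρ) (par := par) t w
    have h3 := mw_nonneg (F := F) (X := X) (nd := nd) t w
    have h4 : hsl A val F cl ρ par (t + 1) (nd (t + 1) w) (X w) = 0 := by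
      by_contra h5
      have h6 : (1 : ℝ) ≤ hw A val F X nd cl ρ par (t + 1) w := by
        unfold hw
        exact_mod_cast Nat.one_le_iff_ne_zero.2 h5
      linarith
    have h5 : ¬ r0 A val F cl ρ par t (nd (t + 1) w) (X w) := by
      intro h6
      have h7 : rw0 A val F X nd cl ρ par t w = 1 := ind_of h6
      linarith
    have h6 : F (t + 1) (nd (t + 1) w) (X w) = F t (par t (nd (t + 1) w)) (X w) := by
      by_contra h7
      have h8 : mw F X nd t w = 1 := ind_of (by rw [hS.par_nd] at h7; exact h7)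
      linarith
    have h7 := rs_stay h4 h5 h6
    rw [hS.par_nd] at h7
    exact h h7
  · rw [ind_not h]
    have h1 := hw_nonneg (A := A) (val := val) (F := F) (X := X) (nd := nd) (cl := cl) (ρ := ρ) (par := par) (t + 1) w
    have h2 := rw0_nonneg (A := A) (val := val) (F := F) (X := X) (nd := nd) (cl := cl) (ρ := ρ) (par := par) t w
    have h3 := mw_nonneg (F := F) (X := X) (nd := nd) t w
    linarith

include hS hF hval in
/-- mean number of future changes of the residual (hence of its clip) on every event of the time `s` -/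
theorem Rs_chg {s k : ℕ} (hsk : s ≤ k) (hk : k ≤ n) {f : Om → ℝ} (hf : Fac (fun w => (X w, nd s w)) f)
    (hf0 : ∀ w, 0 ≤ f w) {μ : ℝ} (hμ : P.E (fun w => f w * ∑ t ∈ Ico s k, mw F X nd t w) ≤ μ * P.E f) :
    P.E (fun w => f w * ∑ t ∈ Ico s k, chg A val F X nd cl ρ par t w) ≤
    ((2 / A.e ^ 2 + 1 / 3) * (5 + μ) + μ) * P.E f := by
  have h1 := fut_hits hS hF hval (A := A) hsk hk hf hf0
  have h2 := fut_r0 hS hF hval (A := A) hsk hk hf hf0
  have he := A.he
  have h3 : P.E (fun w => f w * ∑ t ∈ Ico s k, chg A val F X nd cl ρ par t w) ≤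
      P.E (fun w => f w * ∑ t ∈ Ico s k, hw A val F X nd cl ρ par (t + 1) w) +
      P.E (fun w => f w * ∑ t ∈ Ico s k, rw0 A val F X nd cl ρ par t w) +
      P.E (fun w => f w * ∑ t ∈ Ico s k, mw F X nd t w) := by
    rw [← P.E_add, ← P.E_add]
    refine P.E_mono fun w _ => ?_
    rw [← mul_add, ← mul_add, ← Finset.sum_add_distrib, ← Finset.sum_add_distrib]
    exact mul_le_mul_of_nonneg_left (Finset.sum_le_sum fun t _ => chg_le hS t w) (hf0 w)
  have h4 : 0 ≤ 2 / A.e ^ 2 := by positivity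
  have h5 : 2 / A.e ^ 2 * (5 * P.E f + P.E (fun w => f w * ∑ t ∈ Ico s k, mw F X nd t w)) ≤
      2 / A.e ^ 2 * (5 * P.E f + μ * P.E f) := mul_le_mul_of_nonneg_left (by linarith) h4
  nlinarith

include hS hF hval in
/-- exponential tails of the number of hits after the time `0` -/
theorem tail_hits {μ : ℝ} (hμ0 : 0 ≤ μ) (hμ : ∀ s ≤ n, ∀ f : Om → ℝ, Fac (fun w => (X w, nd s w)) f → (∀ w, 0 ≤ f w) →
      P.E (fun w => f w * ∑ t ∈ Ico s n, mw F X nd t w) ≤ μ * P.E f) (k : ℕ) :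
    P.Pr (fun w => (k : ℝ) * (10 / A.e ^ 2 + 2 * (2 / A.e ^ 2 * (5 + μ))) ≤
      ∑ t ∈ range n, hw A val F X nd cl ρ par (t + 1) w) ≤ (1 / 2) ^ k := by
  have he := A.he
  set Z : ℕ → Om → ℝ := fun s w => ∑ t ∈ range s, hw A val F X nd cl ρ par (t + 1) w with hZ
  have hZs : ∀ s w, Z (s + 1) w = Z s w + hw A val F X nd cl ρ par (s + 1) w := fun s w => Finset.sum_range_succ _ _
  have hfac : ∀ s, Fac (fun w => (X w, nd s w)) (Z s) := by
    intro s v w h
    refine Finset.sum_congr rfl fun t ht => ?_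
    have h1 := fac_le hS (show t + 1 ≤ s by have := mem_range.1 ht; omega) v w h
    obtain ⟨h2, h3⟩ := Prod.mk_inj.1 h1
    unfold hw
    rw [h2, h3]
  refine P.tail_of_future (X := fun t w => (X w, nd t w)) (fun t => fac_succ hS t) (Z := Z) hfac ?_ ?_ ?_ ?_ n ?_ k
  · intro s w
    rw [hZs]
    linarith [hw_nonneg (A := A) (val := val) (F := F) (X := X) (nd := nd) (cl := cl) (ρ := ρ) (par := par) (s + 1) w]
  · intro w
    simp only [hZ, Finset.range_zero, Finset.sum_empty]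
    positivity
  · intro s w
    rw [hZs, add_sub_cancel_left]
    exact hsl_le hS.wt hF hval (s + 1) (nd (s + 1) w) (X w)
  · positivity
  · intro s hs f hf hf0
    have h1 := fut_hits hS hF hval (A := A) hs le_rfl hf hf0
    have h2 := hμ s hs f hf hf0
    have h3 : P.E (fun w => f w * (Z n w - Z s w)) =
        P.E (fun w => f w * ∑ t ∈ Ico s n, hw A val F X nd cl ρ par (t + 1) w) := by
      refine P.E_congr fun w _ => ?_
      rw [Finset.sum_Ico_eq_sub _ hs]
    rw [h3]
    have h4 : 0 ≤ 2 / A.e ^ 2 := by positivity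
    calc _ ≤ 2 / A.e ^ 2 * (5 * P.E f + P.E (fun w => f w * ∑ t ∈ Ico s n, mw F X nd t w)) := h1
      _ ≤ 2 / A.e ^ 2 * (5 * P.E f + μ * P.E f) := mul_le_mul_of_nonneg_left (by linarith) h4
      _ = _ := by ring

end counts

end

end Pool.Agent.GMN
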