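import Pool.Agent.GMN.InpN
import Pool.Agent.GM.NVBinDef

/-!
# GMN/NBStart (helper19): the start of the names of one view of one piece (row A11e)

* `exists_enum` : the numbering `e : Fin k ↪ ι` of the known vertices: `e 0 = q`, `e 1 = δ` if `δ ≠ q`;
* **`start_N`** : `Start` from the faces `FacesN` of the view `a` (helper54's contract), with the numbering `e`; own public
  sets for all `e i`, `2 ≤ i`.
-/

set_option autoImplicit false
set_option linter.unusedSectionVars false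

namespace Pool.Agent.GMN

open Finset Pool.Agent.PWZ Pool.Agent.M3 Pool.Agent.M3.TS Pool.Agent.GM

noncomputable section

/-- **the numbering of the known vertices**: `q`, then `δ`, then the others -/
theorem exists_enum {ι : Type} [Fintype ι] [DecidableEq ι] {a q δ : ι} (hqa : q ≠ a) (hda : δ ≠ a) {k : ℕ}
    (hk : Fintype.card ι = k + 1) :
    ∃ e : Fin k ↪ ι, (∀ u, u ≠ a ↔ ∃ i, e i = u) ∧ (∀ i, e i = q ↔ (i : ℕ) = 0) ∧
      (δ ≠ q → ∀ i, e i = δ ↔ (i : ℕ) = 1) := by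
  classical
  have hc : Fintype.card {u : ι // u ≠ a} = k := by
    have h1 := Fintype.card_subtype_compl (fun u : ι => u = a)
    have h2 : Fintype.card {u : ι // u = a} = 1 := Fintype.card_subtype_eq a
    have h3 : Fintype.card {u : ι // ¬ u = a} = Fintype.card {u : ι // u ≠ a} := rfl
    omega
  have hk0 : 0 < k := by
    rw [← hc]
    exact Fintype.card_pos_iff.2 ⟨⟨q, hqa⟩⟩
  let f : Fin k ≃ {u : ι // u ≠ a} := (Fintype.equivFinOfCardEq hc).symm
  let z : Fin k := ⟨0, hk0⟩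
  let f1 : Fin k ≃ {u : ι // u ≠ a} := (Equiv.swap z (f.symm ⟨q, hqa⟩)).trans f
  have h1 : f1 z = ⟨q, hqa⟩ := by
    show f (Equiv.swap z (f.symm ⟨q, hqa⟩) z) = _
    rw [Equiv.swap_apply_left, Equiv.apply_symm_apply]
  have key : ∀ g : Fin k ≃ {u : ι // u ≠ a}, ∀ u, u ≠ a ↔ ∃ i, (g i : ι) = u := by
    intro g u
    constructor
    · intro hu
      exact ⟨g.symm ⟨u, hu⟩, by rw [Equiv.apply_symm_apply]⟩
    · rintro ⟨i, rfl⟩
      exact (g i).2
  have hz : ∀ g : Fin k ≃ {u : ι // u ≠ a}, g z = ⟨q, hqa⟩ → ∀ i, (g i : ι) = q ↔ (i : ℕ) = 0 := by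
    intro g hg i
    constructor
    · intro h
      have h2 : g i = g z := by
        rw [hg]
        exact Subtype.ext h
      rw [g.injective h2]
    · intro h
      have h2 : i = z := Fin.ext h
      rw [h2, hg]
  by_cases hd : δ = q
  · exact ⟨f1.toEmbedding.trans (Function.Embedding.subtype _), key f1, hz f1 h1, fun h => absurd hd h⟩
  · have h2 : f1.symm ⟨δ, hda⟩ ≠ z := by
      intro h
      have h3 : f1 z = ⟨δ, hda⟩ := by rw [← h, Equiv.apply_symm_apply]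
      rw [h1] at h3
      exact hd (congrArg Subtype.val h3).symm
    have hk1 : 1 < k := by
      have h3 : ((f1.symm ⟨δ, hda⟩ : Fin k) : ℕ) ≠ 0 := fun h => h2 (Fin.ext h)
      have h4 := (f1.symm ⟨δ, hda⟩ : Fin k).2
      omega
    let o : Fin k := ⟨1, hk1⟩
    have hoz : z ≠ o := fun h => by
      have h5 : (0 : ℕ) = 1 := congrArg Fin.val h
      omega
    let f2 : Fin k ≃ {u : ι // u ≠ a} := (Equiv.swap o (f1.symm ⟨δ, hda⟩)).trans f1
    have h3 : f2 z = ⟨q, hqa⟩ := by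
      show f1 (Equiv.swap o (f1.symm ⟨δ, hda⟩) z) = _
      rw [Equiv.swap_apply_of_ne_of_ne hoz (Ne.symm h2), h1]
    have h4 : f2 o = ⟨δ, hda⟩ := by
      show f1 (Equiv.swap o (f1.symm ⟨δ, hda⟩) o) = _
      rw [Equiv.swap_apply_left, Equiv.apply_symm_apply]
    refine ⟨f2.toEmbedding.trans (Function.Embedding.subtype _), key f2, hz f2 h3, fun _ i => ?_⟩
    constructor
    · intro h
      have h5 : f2 i = f2 o := by
        rw [h4]
        exact Subtype.ext h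
      rw [f2.injective h5]
    · intro h
      have h5 : i = o := Fin.ext h
      show (f2 i : ι) = δ
      rw [h5, h4]

variable {ι Om Ξ Pt V Γ κ : Type} [Fintype ι] [DecidableEq ι] [Fintype Om] [Fintype Ξ] [Fintype Pt]
  [Fintype V] {S : Sys ι Om Ξ Pt V Γ κ}

/-- **THE START OF THE NAMES OF THE VIEW `a`** -/
theorem start_N [Countable Γ] [Countable κ] {a q δ : ι} {F : ι → Mov Ξ ι Pt Γ (V → ℝ)} {H M κ' Λ T : ℝ}
    (hqa : q ≠ a) (hda : δ ≠ a) (hH : 2 ≤ H) (hκ : κ' ≤ 1) (hΛ0 : 0 ≤ Λ) (hΛ : Λ ≤ Real.exp H)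
    (hT : T ≤ H * Real.exp ((1 + κ') * Λ)) (hF : FacesN S δ a F (4 * H) M)
    (D : GS.StrT S univ δ q (F q) (4 * H) M T) {k : ℕ} (hk : Fintype.card ι = k + 1) (c1 : ℕ) :
    ∃ (e : Fin k ↪ ι) (n B : ℕ) (A : ℝ) (σ : NSt S a) (dead : ℕ → Om → Prop),
      (∀ u, u ≠ a ↔ ∃ i, e i = u) ∧ (∀ i, e i = q ↔ (i : ℕ) = 0) ∧ (δ ≠ q → ∀ i, e i = δ ↔ (i : ℕ) = 1) ∧
      (∀ i : Fin k, 2 ≤ (i : ℕ) → σ.pu (e i)) ∧
      Start S a q δ F e n B A (Real.exp (-H ^ c1)) σ dead ∧
      (n : ℝ) ≤ Real.exp (H ^ (c1 + Fintype.card ι + 10)) ∧ A ≤ Real.exp (H ^ (c1 + Fintype.card ι + 10)) ∧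
      (B : ℝ) ≤ Real.exp (Real.exp (H ^ (c1 + Fintype.card ι + 10))) := by
  obtain ⟨e, he, heq, hed⟩ := exists_enum hqa hda hk
  obtain ⟨n, B, A, σ, dead, hs, h1, h2, h3⟩ := start_core hqa hda hH hκ hΛ0 hΛ hT hF.dep hF.coin hF.bd hF.zero hF.tail D e
    he heq c1
  refine ⟨e, n, B, A, σ, dead, he, heq, hed, fun i hi => hs.pu _ (fun h => ?_) fun h => ?_, hs, h1, h2, h3⟩
  · have := (heq i).1 h
    omega
  · by_cases hd : δ = q
    · rw [hd] at h
      have := (heq i).1 h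
      omega
    · have := (hed hd i).1 h
      omega

end

end Pool.Agent.GMN
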