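import Pool.Agent.GMN.Names
import Pool.Agent.GMN.Heavy
import Pool.Agent.GM75.Close

/-!
# GMN.NamHv (row N, 4.3; N-APP 2.3, note 3689 (3)): systems of names, nothing is heavy

`Wt` = types of names (partially ordered), `mx W` = the type carries LISTS (such types are maximal), the other types
carry KEYS.  `nk W i w` = name of the key of `w`, `Ls W i w` = list.  `hasN i w 𝔳` = `w` carries all names of `𝔳`.
`dR i x w` = relative density, in the node of `w`, of the last name of the index `x` given the lower ones;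
`dC` = the same with densities below `(1/2)^h` cut for the types in `cut`.

* `NamSys` : the properties of the names used here; `NamSys.of_cls` : names of refining classifications (Names.lean);
* `heavy_names` : `B P(∃ i ≤ T, some name of w is heavy) ≤ |Wt| (4 h n0 + 1) N`, `N = 1 +` mean number of changes;
* `thin_names` : `h log 2 P(∃ i ≤ T, some key of w is thin) ≤` entropies of the splits;
* `mass_names` : closeness gives the mass of a system; `clo_of_close` : from the labels (GM75/Close.lean);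
* `NamSys.jrv` : the structure `JRV`;  `NamSys.jr` : the record lemma for names.
-/

set_option autoImplicit false
set_option linter.unusedSectionVars false

namespace Pool.Agent.GMN

open Finset Pool.Agent.PWZ Pool.Agent.M3

noncomputable section

/-- conditional probabilities of events compare on the cell -/
theorem ce_ind_le {Om κ : Type*} [Fintype Om] (P : FP Om) (X : Om → κ) {s t : Om → Prop} {w : Om}
    (h : ∀ v, P.p v ≠ 0 → X v = X w → s v → t v) :
    P.ce X (fun v => ind (s v)) w ≤ P.ce X (fun v => ind (t v)) w := by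
  unfold FP.ce
  refine div_le_div_of_nonneg_right (P.E_mono fun v hv => ?_) (P.m_nonneg X w)
  by_cases hx : X v = X w
  · exact mul_le_mul_of_nonneg_left (ind_mono (h v hv hx)) (ind_nonneg _)
  · rw [ind_not hx, zero_mul, zero_mul]

theorem ce_ind_nn {Om κ : Type*} [Fintype Om] (P : FP Om) (X : Om → κ) (s : Om → Prop) (w : Om) :
    0 ≤ P.ce X (fun v => ind (s v)) w := P.ce_nonneg (fun _ _ => ind_nonneg _) w

/-- a positive conditional probability is attained -/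
theorem ce_ind_pos {Om κ : Type*} [Fintype Om] (P : FP Om) (X : Om → κ) {s : Om → Prop} {w : Om}
    (h : 0 < P.ce X (fun v => ind (s v)) w) : ∃ v, P.p v ≠ 0 ∧ X v = X w ∧ s v := by
  by_contra hne
  have h0 : P.ce X (fun v => ind (s v)) w ≤ 0 := by
    unfold FP.ce
    rw [P.E_congr (g := fun _ => 0), P.E_const, zero_div]
    intro v hv
    by_cases hx : X v = X w
    · have : ind (s v) = 0 := ind_not fun hs => hne ⟨v, hv, hx, hs⟩
      show ind (X v = X w) * ind (s v) = 0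
      rw [this, mul_zero]
    · rw [ind_not hx, zero_mul]
  linarith

/-- the point itself -/
theorem le_ce_ind {Om κ : Type*} [Fintype Om] (P : FP Om) (X : Om → κ) {s : Om → Prop} {w : Om} (hw : P.p w ≠ 0)
    (h : s w) : P.p w ≤ P.ce X (fun v => ind (s v)) w := by
  classical
  unfold FP.ce
  have hm := P.m_pos X hw
  rw [le_div_iff₀ hm]
  have h1 : P.p w ≤ P.E (fun v => ind (X v = X w) * ind (s v)) := by
    unfold FP.E
    refine le_trans ?_ (Finset.single_le_sum (f := fun v => P.p v * (ind (X v = X w) * ind (s v)))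
      (fun v _ => mul_nonneg (P.nn v) (mul_nonneg (ind_nonneg _) (ind_nonneg _))) (mem_univ w))
    rw [ind_of rfl, ind_of h, mul_one, mul_one]
  have h2 := P.m_le_one X w
  have h3 : 0 ≤ P.p w := P.nn w
  nlinarith

section names

variable {Om Wt Nm : Type*} [Fintype Om] [Fintype Wt] [DecidableEq Wt] [PartialOrder Wt] [DecidableLE Wt]
  [DecidableEq Nm] [Inhabited Nm] [Fintype Nm] {κ : ℕ → Type*}

/-- the properties of the names -/
structure NamSys (K : ∀ t, Om → κ t) (mx : Wt → Prop) (nk : Wt → ℕ → Om → Nm)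
    (Ls : Wt → ℕ → Om → Finset Nm) : Prop where
  filt : Filt K
  top : ∀ W W', mx W → ¬ W < W'
  past : ∀ W i v w, K (i + 1) v = K (i + 1) w → nk W (i + 1) v = nk W (i + 1) w → nk W i v = nk W i w
  birth : ∀ W i j v w, i ≤ j → nk W i v = nk W j w → nk W i w = nk W j w
  betw : ∀ W i l j w, i ≤ l → l ≤ j → nk W i w = nk W j w → nk W l w = nk W j w
  cum : ∀ W i w, Ls W i w ⊆ Ls W (i + 1) w

/-- `w` carries the name `ν` on `W` -/
def cr (mx : Wt → Prop) (nk : Wt → ℕ → Om → Nm) (Ls : Wt → ℕ → Om → Finset Nm) (W : Wt) (i : ℕ) (w : Om) (ν : Nm) :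
    Prop := (mx W → ν ∈ Ls W i w) ∧ (¬ mx W → nk W i w = ν)

/-- `w` carries all names of `𝔳` -/
def hasN (mx : Wt → Prop) (nk : Wt → ℕ → Om → Nm) (Ls : Wt → ℕ → Om → Finset Nm) (i : ℕ) (w : Om) (𝔳 : Wt → Nm) :
    Prop := ∀ W, cr mx nk Ls W i w (𝔳 W)

/-- relative density of the last name of `x` given the lower names -/
def dR (P : FP Om) (K : ∀ t, Om → κ t) (mx : Wt → Prop) (nk : Wt → ℕ → Om → Nm) (Ls : Wt → ℕ → Om → Finset Nm)
    (i : ℕ) (x : Wt × (Wt → Nm)) (w : Om) : ℝ :=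
  P.ce (K i) (fun v => ind (∀ W ≤ x.1, cr mx nk Ls W i v (x.2 W))) w /
    P.ce (K i) (fun v => ind (∀ W < x.1, cr mx nk Ls W i v (x.2 W))) w

open Classical in
/-- cut at `(1/2)^h` -/
def dC (P : FP Om) (K : ∀ t, Om → κ t) (mx : Wt → Prop) (nk : Wt → ℕ → Om → Nm) (Ls : Wt → ℕ → Om → Finset Nm)
    (cut : Wt → Prop) (h : ℕ) (i : ℕ) (x : Wt × (Wt → Nm)) (w : Om) : ℝ :=
  if cut x.1 → (1 / 2 : ℝ) ^ h ≤ dR P K mx nk Ls i x w then dR P K mx nk Ls i x w else 0

open Classical in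
/-- lower names -/
def ctxN (nk : Wt → ℕ → Om → Nm) (W : Wt) (i : ℕ) (w : Om) : Wt → Nm := fun W' => if W' < W then nk W' i w else default

variable {P : FP Om} {K : ∀ t, Om → κ t} {mx : Wt → Prop} {nk : Wt → ℕ → Om → Nm} {Ls : Wt → ℕ → Om → Finset Nm}
  {cut : Wt → Prop} {h : ℕ}

theorem dR_nonneg (i : ℕ) (x : Wt × (Wt → Nm)) (w : Om) : 0 ≤ dR P K mx nk Ls i x w :=
  div_nonneg (ce_ind_nn _ _ _ _) (ce_ind_nn _ _ _ _)

theorem dR_fac (i : ℕ) (x : Wt × (Wt → Nm)) : Fac (K i) (dR P K mx nk Ls i x) := by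
  intro v w hvw
  unfold dR
  rw [P.ce_fac (K i) (fun v => ind (∀ W ≤ x.1, cr mx nk Ls W i v (x.2 W))) v w hvw,
    P.ce_fac (K i) (fun v => ind (∀ W < x.1, cr mx nk Ls W i v (x.2 W))) v w hvw]

theorem dC_nonneg (i : ℕ) (x : Wt × (Wt → Nm)) (w : Om) : 0 ≤ dC P K mx nk Ls cut h i x w := by
  unfold dC
  split_ifs
  · exact dR_nonneg i x w
  · exact le_rfl

theorem dC_le (i : ℕ) (x : Wt × (Wt → Nm)) (w : Om) : dC P K mx nk Ls cut h i x w ≤ dR P K mx nk Ls i x w := by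
  unfold dC
  split_ifs
  · exact le_rfl
  · exact dR_nonneg i x w

theorem dC_fac (i : ℕ) (x : Wt × (Wt → Nm)) : Fac (K i) (dC P K mx nk Ls cut h i x) := by
  intro v w hvw
  unfold dC
  rw [dR_fac i x v w hvw]

/-- a positive density is attained -/
theorem dR_pos {i : ℕ} {x : Wt × (Wt → Nm)} {w : Om} (hp : 0 < dR P K mx nk Ls i x w) :
    ∃ v, P.p v ≠ 0 ∧ K i v = K i w ∧ ∀ W ≤ x.1, cr mx nk Ls W i v (x.2 W) := by
  refine ce_ind_pos P (K i) ?_
  unfold dR at hp
  by_contra hle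
  have h0 : P.ce (K i) (fun v => ind (∀ W ≤ x.1, cr mx nk Ls W i v (x.2 W))) w = 0 :=
    le_antisymm (not_lt.1 hle) (ce_ind_nn _ _ _ _)
  rw [h0, zero_div] at hp
  exact lt_irrefl _ hp

/-- the true vertex -/
theorem le_dR {i : ℕ} {x : Wt × (Wt → Nm)} {w : Om} (hw : P.p w ≠ 0) (hh : ∀ W ≤ x.1, cr mx nk Ls W i w (x.2 W)) :
    P.p w ≤ dR P K mx nk Ls i x w := by
  unfold dR
  have h1 := le_ce_ind P (K i) (s := fun v => ∀ W ≤ x.1, cr mx nk Ls W i v (x.2 W)) hw hh
  have h2 : P.p w ≤ P.ce (K i) (fun v => ind (∀ W < x.1, cr mx nk Ls W i v (x.2 W))) w :=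
    le_ce_ind P (K i) (s := fun v => ∀ W < x.1, cr mx nk Ls W i v (x.2 W)) hw fun W hW => hh W hW.le
  have hp : 0 < P.p w := lt_of_le_of_ne (P.nn w) (Ne.symm hw)
  have h3 : P.ce (K i) (fun v => ind (∀ W < x.1, cr mx nk Ls W i v (x.2 W))) w ≤ 1 :=
    P.ce_le_const (fun _ _ => ind_le_one _) hw
  have h4 : 0 < P.ce (K i) (fun v => ind (∀ W < x.1, cr mx nk Ls W i v (x.2 W))) w := lt_of_lt_of_le hp h2
  rw [le_div_iff₀ h4]
  nlinarith

theorem cr_key {W : Wt} (hW : ¬ mx W) {i : ℕ} {w : Om} {ν : Nm} : cr mx nk Ls W i w ν ↔ nk W i w = ν := by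
  unfold cr
  exact ⟨fun hh => hh.2 hW, fun hh => ⟨fun hm => absurd hm hW, fun _ => hh⟩⟩

theorem cr_list {W : Wt} (hW : mx W) {i : ℕ} {w : Om} {ν : Nm} : cr mx nk Ls W i w ν ↔ ν ∈ Ls W i w := by
  unfold cr
  exact ⟨fun hh => hh.1 hW, fun hh => ⟨fun _ => hh, fun hm => absurd hW hm⟩⟩

namespace NamSys

variable (H : NamSys K mx nk Ls)
include H

theorem not_mx {W W' : Wt} (hW : W' < W) : ¬ mx W' := fun hm => H.top W' W hm hW

/-- filtration of the node and the lower names -/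
theorem filtF (W : Wt) : Filt (fun i v => (K i v, ctxN nk W i v)) := by
  classical
  intro i v w hvw
  have h1 : K (i + 1) v = K (i + 1) w := congrArg Prod.fst hvw
  have h2 : ctxN nk W (i + 1) v = ctxN nk W (i + 1) w := congrArg Prod.snd hvw
  refine Prod.ext (H.filt i v w h1) ?_
  show ctxN nk W i v = ctxN nk W i w
  funext W'
  unfold ctxN
  by_cases hW : W' < W
  · rw [if_pos hW, if_pos hW]
    refine H.past W' i v w h1 ?_
    have h3 := congrFun h2 W'
    unfold ctxN at h3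
    rwa [if_pos hW, if_pos hW] at h3
  · rw [if_neg hW, if_neg hW]

/-- the density of a name in the context of the true vertex -/
theorem dR_ctx {W : Wt} {i : ℕ} {w : Om} (hw : P.p w ≠ 0) (ν : Nm) :
    dR P K mx nk Ls i (W, Function.update (ctxN nk W i w) W ν) w =
      P.ce (fun v => (K i v, ctxN nk W i v)) (fun v => ind (cr mx nk Ls W i v ν)) w := by
  classical
  have hlow : ∀ v, (∀ W' < W, cr mx nk Ls W' i v (Function.update (ctxN nk W i w) W ν W')) ↔
      ctxN nk W i v = ctxN nk W i w := by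
    intro v
    constructor
    · intro hh
      funext W'
      unfold ctxN
      by_cases hW : W' < W
      · rw [if_pos hW, if_pos hW]
        have h1 := (cr_key (H.not_mx hW)).1 (hh W' hW)
        rw [Function.update_of_ne hW.ne] at h1
        unfold ctxN at h1
        rwa [if_pos hW] at h1
      · rw [if_neg hW, if_neg hW]
    · intro hh W' hW
      rw [cr_key (H.not_mx hW), Function.update_of_ne hW.ne]
      have h1 := congrFun hh W'
      unfold ctxN at h1 ⊢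
      simp only [if_pos hW] at h1 ⊢
      exact h1
  have hall : ∀ v, (∀ W' ≤ W, cr mx nk Ls W' i v (Function.update (ctxN nk W i w) W ν W')) ↔
      ctxN nk W i v = ctxN nk W i w ∧ cr mx nk Ls W i v ν := by
    intro v
    rw [← hlow v]
    constructor
    · intro hh
      refine ⟨fun W' hW => hh W' hW.le, ?_⟩
      have h1 := hh W le_rfl
      rwa [Function.update_self] at h1
    · rintro ⟨h1, h2⟩ W' hW
      rcases hW.lt_or_eq with h3 | h3
      · exact h1 W' h3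
      · subst h3
        rwa [Function.update_self]
  unfold dR
  simp only [hlow, hall]
  unfold FP.ce
  have hm : 0 < P.m (K i) w := P.m_pos _ hw
  rw [div_div_div_cancel_right₀ hm.ne']
  have e1 : P.E (fun v => ind (K i v = K i w) * ind (ctxN nk W i v = ctxN nk W i w ∧ cr mx nk Ls W i v ν)) =
      P.E (fun v => ind ((K i v, ctxN nk W i v) = (K i w, ctxN nk W i w)) * ind (cr mx nk Ls W i v ν)) := by
    refine P.E_congr fun v _ => ?_
    rw [ind_and, Prod.mk.injEq, ind_and]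
    ring
  have e2 : P.E (fun v => ind (K i v = K i w) * ind (ctxN nk W i v = ctxN nk W i w)) =
      P.m (fun v => (K i v, ctxN nk W i v)) w := by
    unfold FP.m
    refine P.E_congr fun v _ => ?_
    rw [Prod.mk.injEq, ind_and]
  rw [e1, e2]

/-- the sibling in terms of the lower names of the true vertex -/
theorem sibl_ctx {i : ℕ} {w : Om} {𝔳 : Wt → Nm} (hh : hasN mx nk Ls i w 𝔳) (W : Wt) (ν : Nm) :
    sibl (res W 𝔳) ν = (W, Function.update (ctxN nk W i w) W ν) := by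
  unfold sibl res
  refine Prod.ext rfl ?_
  funext W'
  show Function.update (fun W' => if W' ≤ W then 𝔳 W' else default) W ν W' =
    Function.update (ctxN nk W i w) W ν W'
  rcases eq_or_ne W' W with e | e
  · subst e; rw [Function.update_self, Function.update_self]
  · rw [Function.update_of_ne e, Function.update_of_ne e]
    unfold ctxN
    by_cases hW : W' < W
    · rw [if_pos hW, if_pos hW.le]
      exact ((cr_key (H.not_mx hW)).1 (hh W')).symm
    · rw [if_neg hW, if_neg]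
      intro hle
      exact hW (lt_of_le_of_ne hle e)

omit H in
theorem rmx_mxd (d : ℕ → Wt × (Wt → Nm) → Om → ℝ) (W : Wt) (c : Wt → Nm) (ν : Nm) (i : ℕ) (w : Om) :
    rmx d i (W, Function.update c W ν) w = mxd (fun j c ν w => d j (W, Function.update c W ν) w) i c ν w := by
  induction i with
  | zero => rfl
  | succ i ih =>
    show max (rmx d i (W, Function.update c W ν) w) (d (i + 1) (W, Function.update c W ν) w) = _
    rw [ih]
    rfl

/-- a name is not seen before its birth -/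
theorem dR_birth {W : Wt} {b j : ℕ} {w : Om} (hn : nw (ctxN nk W) b w) (hjb : j < b) (ν : Nm) :
    dR P K mx nk Ls j (W, Function.update (ctxN nk W b w) W ν) w ≤ 0 := by
  by_contra hp
  obtain ⟨v, _, _, hv⟩ := dR_pos (not_le.1 hp)
  refine hn (b - 1) (by omega) ?_
  funext W'
  unfold ctxN
  by_cases hW : W' < W
  · rw [if_pos hW, if_pos hW]
    have h1 := (cr_key (H.not_mx hW)).1 (hv W' hW.le)
    simp only at h1
    rw [Function.update_of_ne hW.ne] at h1
    unfold ctxN at h1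
    rw [if_pos hW] at h1
    have h2 := H.birth W' j b v w hjb.le h1
    exact (H.betw W' j (b - 1) b w (by omega) (by omega) h2).symm
  · rw [if_neg hW, if_neg hW]

theorem list_mono {W : Wt} {i j : ℕ} (hij : i ≤ j) (w : Om) : Ls W i w ⊆ Ls W j w := by
  induction j, hij using Nat.le_induction with
  | base => exact Finset.Subset.refl _
  | succ j _ ih => exact ih.trans (H.cum W j w)

end NamSys

/-- mean number of changes of the keys, plus one -/
def nCh (P : FP Om) (mx : Wt → Prop) (nk : Wt → ℕ → Om → Nm) (T : ℕ) : ℝ :=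
  open Classical in 1 + ∑ W ∈ univ.filter (fun W => ¬ mx W), ∑ t ∈ range T, P.Pr (fun w => nk W (t + 1) w ≠ nk W t w)

theorem nCh_ge (T : ℕ) : 1 ≤ nCh P mx nk T := by
  classical
  unfold nCh
  have : 0 ≤ ∑ W ∈ univ.filter (fun W => ¬ mx W), ∑ t ∈ range T, P.Pr (fun w => nk W (t + 1) w ≠ nk W t w) :=
    Finset.sum_nonneg fun _ _ => Finset.sum_nonneg fun _ _ => P.Pr_nonneg _
  linarith

/-- a sum over the times, the first one apart -/
theorem sum_new_le {T : ℕ} {A : ℕ → Om → Prop} {chg : Wt → ℕ → Om → Prop} {S : Finset Wt}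
    (hA : ∀ t w, A (t + 1) w → ∃ W ∈ S, chg W t w) :
    ∑ b ∈ range (T + 1), P.Pr (A b) ≤ 1 + ∑ W ∈ S, ∑ t ∈ range T, P.Pr (chg W t) := by
  rw [Finset.sum_range_succ' (fun b => P.Pr (A b)) T, add_comm]
  refine add_le_add (P.Pr_le_one _) ?_
  rw [Finset.sum_comm]
  refine Finset.sum_le_sum fun t _ => ?_
  exact (P.Pr_mono fun w _ hw => hA t w hw).trans (P.Pr_ex_le S fun W => chg W t)

namespace NamSys

variable (H : NamSys K mx nk Ls)
include H

theorem N2_le (W : Wt) (T : ℕ) : ∑ b ∈ range (T + 1), P.Pr (nw (ctxN nk W) b) ≤ nCh P mx nk T := by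
  classical
  unfold nCh
  refine sum_new_le (chg := fun W t w => nk W (t + 1) w ≠ nk W t w) fun t w hn => ?_
  by_contra hne
  refine hn t rfl ?_
  funext W'
  unfold ctxN
  by_cases hW : W' < W
  · rw [if_pos hW, if_pos hW]
    by_contra hc
    exact hne ⟨W', mem_filter.2 ⟨mem_univ _, H.not_mx hW⟩, hc⟩
  · rw [if_neg hW, if_neg hW]

theorem N1_le {W : Wt} (hW : ¬ mx W) (T : ℕ) :
    ∑ b ∈ range (T + 1), P.Pr (pnw (ctxN nk W) (nk W) b) ≤ nCh P mx nk T := by
  classical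
  unfold nCh
  refine sum_new_le (chg := fun W t w => nk W (t + 1) w ≠ nk W t w) fun t w hn => ?_
  by_contra hne
  refine hn t rfl ⟨?_, ?_⟩
  · funext W'
    unfold ctxN
    by_cases hW' : W' < W
    · rw [if_pos hW', if_pos hW']
      by_contra hc
      exact hne ⟨W', mem_filter.2 ⟨mem_univ _, H.not_mx hW'⟩, hc⟩
    · rw [if_neg hW', if_neg hW']
  · by_contra hc
    exact hne ⟨W, mem_filter.2 ⟨mem_univ _, hW⟩, hc⟩

/-- one type -/
theorem heavy_one {T : ℕ} (h1 : 1 ≤ h) {n0 : ℝ} (hn0 : 1 ≤ n0)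
    (hL : ∀ W, mx W → ∀ w, P.p w ≠ 0 → ((Ls W T w).card : ℝ) ≤ n0)
    (hpub : ∀ W, ¬ cut W → ∃ pub : Om → Finset Nm, (∀ w, P.p w ≠ 0 → ((pub w).card : ℝ) ≤ 2 ^ h) ∧
      ∀ j ≤ T, ∀ v w ν, P.p v ≠ 0 → P.p w ≠ 0 → K j v = K j w → cr mx nk Ls W j v ν → ν ∈ pub w)
    {B : ℝ} (hB : 0 ≤ B) (W : Wt) :
    B * P.Pr (fun w => ∃ i ≤ T, ∃ 𝔳, hasN mx nk Ls i w 𝔳 ∧ B < Sb (dC P K mx nk Ls cut h) i (res W 𝔳) w) ≤
      (4 * h * n0 + 1) * nCh P mx nk T := by
  classical
  set dd : ℕ → (Wt → Nm) → Nm → Om → ℝ := fun j c ν w => dC P K mx nk Ls cut h j (W, Function.update c W ν) w with hdd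
  have hN := nCh_ge (P := P) (mx := mx) (nk := nk) T
  have hsub : P.Pr (fun w => ∃ i ≤ T, ∃ 𝔳, hasN mx nk Ls i w 𝔳 ∧ B < Sb (dC P K mx nk Ls cut h) i (res W 𝔳) w) ≤
      P.Pr (fun w => ∃ i ≤ T, B < ∑ ν, mxd dd i (ctxN nk W i w) ν w) := by
    refine P.Pr_mono fun w _ => ?_
    rintro ⟨i, hi, 𝔳, hh, hlt⟩
    refine ⟨i, hi, lt_of_lt_of_le hlt (le_of_eq ?_)⟩
    unfold Sb
    refine Finset.sum_congr rfl fun ν _ => ?_
    rw [H.sibl_ctx hh W ν, rmx_mxd]
  -- densities below the level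
  have hsmall : ∃ e : ℝ, 0 ≤ e ∧ e ≤ 1 ∧ ((e = 0 ∧ ∀ j c ν w, 0 < dd j c ν w → (1 / 2 : ℝ) ^ h ≤ dd j c ν w) ∨
      (e = 1 ∧ ∃ Nu : (Wt → Nm) → Om → Finset Nm, (∀ c w, P.p w ≠ 0 → ((Nu c w).card : ℝ) ≤ 2 ^ h) ∧
      ∀ j ≤ T, ∀ c ν w, P.p w ≠ 0 → ν ∉ Nu c w → dd j c ν w ≤ 0)) := by
    by_cases hc : cut W
    · refine ⟨0, le_rfl, by norm_num, Or.inl ⟨rfl, fun j c ν w hp => ?_⟩⟩
      simp only [hdd] at hp ⊢
      unfold dC at hp ⊢
      split_ifs at hp ⊢ with hif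
      · exact hif hc
      · exact absurd hp (lt_irrefl _)
    · obtain ⟨pub, hp1, hp2⟩ := hpub W hc
      refine ⟨1, by norm_num, le_rfl, Or.inr ⟨rfl, fun _ w => pub w, fun _ w hw => hp1 w hw, ?_⟩⟩
      intro j hj c ν w hw hν
      refine (dC_le _ _ _).trans ?_
      by_contra hp
      obtain ⟨v, hv, hKv, hcr⟩ := dR_pos (not_le.1 hp)
      have h2 := hcr W le_rfl
      simp only at h2
      rw [Function.update_self] at h2
      exact hν (hp2 j hj v w ν hv hw hKv h2)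
  obtain ⟨e, he0, he1, hsm⟩ := hsmall
  have hev0 : ∀ b j w ν, P.p w ≠ 0 → b ≤ j → (∀ l, b ≤ l → l ≤ j → ctxN nk W l w = ctxN nk W b w) →
      dd j (ctxN nk W b w) ν w ≤
        P.ce (fun v => (K j v, ctxN nk W j v)) (fun v => ind (cr mx nk Ls W j v ν)) w := by
    intro b j w ν hw hbj hc
    rw [← H.dR_ctx hw ν]
    simp only [hdd]
    rw [← hc j hbj le_rfl]
    exact dC_le _ _ _
  have key : ∀ (Ev : ℕ → Nm → Om → Prop) (N1 : ℝ),
      (∀ b j w ν, P.p w ≠ 0 → b ≤ j → j ≤ T → nw (ctxN nk W) b w →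
        (∀ l, b ≤ l → l ≤ j → ctxN nk W l w = ctxN nk W b w) →
        ∀ v, P.p v ≠ 0 → (K j v, ctxN nk W j v) = (K j w, ctxN nk W j w) → cr mx nk Ls W j v ν → Ev b ν v) →
      ∑ b ∈ range (T + 1), ∑ ν, P.Pr (fun w => nw (ctxN nk W) b w ∧ Ev b ν w) ≤ N1 →
      B * P.Pr (fun w => ∃ i ≤ T, B < ∑ ν, mxd dd i (ctxN nk W i w) ν w) ≤ 4 * h * N1 + e * nCh P mx nk T := by
    intro Ev N1 hEv hN1
    have HH : HvHyp P (fun i v => (K i v, ctxN nk W i v)) (ctxN nk W) dd Ev T h e N1 (nCh P mx nk T) :=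
      { filt := H.filtF W
        cfac := fun i v w hvw => congrArg Prod.snd hvw
        h1 := h1
        birth := fun b j w ν _ hn hjb => (dC_le _ _ _).trans (H.dR_birth hn hjb ν)
        ev := fun b j w ν hw hbj hj hn hc =>
          (hev0 b j w ν hw hbj hc).trans (ce_ind_le P _ fun v hv hvw hcr => hEv b j w ν hw hbj hj hn hc v hv hvw hcr)
        small := hsm
        sum1 := hN1
        sum2 := H.N2_le W T }
    exact heavy_le HH hB
  refine (mul_le_mul_of_nonneg_left hsub hB).trans ?_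
  by_cases hW : mx W
  · -- lists
    have h3 := key (fun _ ν v => ν ∈ Ls W T v) (n0 * nCh P mx nk T)
      (fun b j w ν _ _ hj _ _ v _ _ hcr => H.list_mono hj v ((cr_list hW).1 hcr))
      ((N1_list (hL W hW) T).trans (mul_le_mul_of_nonneg_left (H.N2_le W T) (by linarith)))
    refine h3.trans ?_
    have h4 : e * nCh P mx nk T ≤ 1 * nCh P mx nk T := mul_le_mul_of_nonneg_right he1 (by linarith)
    nlinarith
  · -- keys
    have h3 := key (EvK (ctxN nk W) (nk W) T) (nCh P mx nk T)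
      (fun b j w ν _ hbj hj _ hc v hv hvw hcr => by
        refine ⟨j, hbj, hj, (cr_key hW).1 hcr, fun l hbl hlj => ?_⟩
        have hf : ∀ l ≤ j, ctxN nk W l v = ctxN nk W l w := fun l hl =>
          congrArg Prod.snd ((H.filtF W).le hl v w hvw)
        rw [hf l hlj, hf b hbj, hc l hbl hlj])
      ((N1_key T).trans (H.N1_le hW T))
    refine h3.trans ?_
    have h4 : e * nCh P mx nk T ≤ 1 * nCh P mx nk T := mul_le_mul_of_nonneg_right he1 (by linarith)
    have h5 : (4 * h : ℝ) * nCh P mx nk T ≤ 4 * h * (n0 * nCh P mx nk T) := by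
      refine mul_le_mul_of_nonneg_left ?_ (by positivity)
      nlinarith
    nlinarith

/-- NOTHING IS HEAVY -/
theorem heavy_names {T : ℕ} (h1 : 1 ≤ h) {n0 : ℝ} (hn0 : 1 ≤ n0)
    (hL : ∀ W, mx W → ∀ w, P.p w ≠ 0 → ((Ls W T w).card : ℝ) ≤ n0)
    (hpub : ∀ W, ¬ cut W → ∃ pub : Om → Finset Nm, (∀ w, P.p w ≠ 0 → ((pub w).card : ℝ) ≤ 2 ^ h) ∧
      ∀ j ≤ T, ∀ v w ν, P.p v ≠ 0 → P.p w ≠ 0 → K j v = K j w → cr mx nk Ls W j v ν → ν ∈ pub w)
    {B : ℝ} (hB : 0 ≤ B) :
    B * P.Pr (fun w => ∃ i ≤ T, ∃ 𝔳, hasN mx nk Ls i w 𝔳 ∧ ∃ W, B < Sb (dC P K mx nk Ls cut h) i (res W 𝔳) w) ≤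
      Fintype.card Wt * ((4 * h * n0 + 1) * nCh P mx nk T) := by
  classical
  have h2 : P.Pr (fun w => ∃ i ≤ T, ∃ 𝔳, hasN mx nk Ls i w 𝔳 ∧ ∃ W, B < Sb (dC P K mx nk Ls cut h) i (res W 𝔳) w) ≤
      ∑ W : Wt, P.Pr (fun w => ∃ i ≤ T, ∃ 𝔳, hasN mx nk Ls i w 𝔳 ∧
        B < Sb (dC P K mx nk Ls cut h) i (res W 𝔳) w) := by
    refine le_trans (P.Pr_mono fun w _ => ?_) (P.Pr_ex_le univ _)
    rintro ⟨i, hi, 𝔳, hh, W, hlt⟩
    exact ⟨W, mem_univ _, i, hi, 𝔳, hh, hlt⟩
  refine (mul_le_mul_of_nonneg_left h2 hB).trans ?_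
  rw [Finset.mul_sum]
  refine (Finset.sum_le_sum fun W _ => H.heavy_one h1 hn0 hL hpub hB W).trans (le_of_eq ?_)
  rw [Finset.sum_const, Finset.card_univ, nsmul_eq_mul]

/-- the relative mass of the key of the true vertex -/
theorem dR_qn {i : ℕ} {w : Om} (hw : P.p w ≠ 0) {𝔳 : Wt → Nm} (hh : hasN mx nk Ls i w 𝔳) {W : Wt} (hW : ¬ mx W) :
    dR P K mx nk Ls i (res W 𝔳) w = qn P (fun i v => (K i v, ctxN nk W i v)) (nk W) i w := by
  have e1 : res W 𝔳 = (W, Function.update (ctxN nk W i w) W (nk W i w)) := by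
    rw [← H.sibl_ctx hh W (nk W i w)]
    have h2 : (res W 𝔳).2 W = nk W i w := by
      rw [res_top]
      exact ((cr_key hW).1 (hh W)).symm
    rw [← h2]
    exact (sibl_self (res W 𝔳)).symm
  rw [e1, H.dR_ctx hw]
  unfold qn FP.ce
  congr 1
  unfold FP.m
  refine P.E_congr fun v _ => ?_
  show ind ((K i v, ctxN nk W i v) = (K i w, ctxN nk W i w)) * ind (cr mx nk Ls W i v (nk W i w)) =
    ind (((K i v, ctxN nk W i v), nk W i v) = ((K i w, ctxN nk W i w), nk W i w))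
  rw [show (cr mx nk Ls W i v (nk W i w)) = (nk W i v = nk W i w) from propext (cr_key hW), ← ind_and,
    ← Prod.mk.injEq]

/-- NO KEY IS THIN -/
theorem thin_names (T : ℕ) :
    h * Real.log 2 * P.Pr (fun w => ∃ i ≤ T, ∃ 𝔳, hasN mx nk Ls i w 𝔳 ∧ ∃ W, ¬ mx W ∧
        dR P K mx nk Ls i (res W 𝔳) w < (1 / 2 : ℝ) ^ h) ≤
      ∑ W : Wt, (P.Hc (nk W 0) (K 0) + ∑ t ∈ range T, P.Hc (nk W (t + 1)) (fun v => (K (t + 1) v, nk W t v))) := by
  classical
  have hp0 : 0 ≤ (h : ℝ) * Real.log 2 := by positivity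
  -- one type
  have hone : ∀ W : Wt, h * Real.log 2 * P.Pr (fun w => ∃ t ≤ T, qn P (fun i v => (K i v, ctxN nk W i v)) (nk W) t w <
      (1 / 2 : ℝ) ^ h) ≤
      P.Hc (nk W 0) (K 0) + ∑ t ∈ range T, P.Hc (nk W (t + 1)) (fun v => (K (t + 1) v, nk W t v)) := by
    intro W
    have hl := lost_le (P := P) (F := fun i v => (K i v, ctxN nk W i v)) (nn := nk W) (H.filtF W)
      (fun t v w h1 h2 => H.past W t v w (congrArg Prod.fst h1) h2) T h
    refine hl.trans (add_le_add ?_ (Finset.sum_le_sum fun t _ => ?_))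
    · have e1 : P.E (fun w => Real.log (1 / qn P (fun i v => (K i v, ctxN nk W i v)) (nk W) 0 w)) =
          P.Hc (nk W 0) (fun v => (K 0 v, ctxN nk W 0 v)) := by
        unfold FP.Hc FP.H
        rw [← P.E_sub]
        refine P.E_congr fun w hw => ?_
        unfold qn
        have a := P.m_pos (fun u => ((K 0 u, ctxN nk W 0 u), nk W 0 u)) hw
        have b := P.m_pos (fun u => (K 0 u, ctxN nk W 0 u)) hw
        have c : P.m (fun u => (nk W 0 u, (K 0 u, ctxN nk W 0 u))) w =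
            P.m (fun u => ((K 0 u, ctxN nk W 0 u), nk W 0 u)) w :=
          P.m_congr (fun v w h => Prod.ext (congrArg Prod.snd h) (congrArg Prod.fst h))
            (fun v w h => Prod.ext (congrArg Prod.snd h) (congrArg Prod.fst h)) w
        rw [one_div_div, Real.log_div b.ne' a.ne', c]
        ring
      rw [e1]
      exact P.Hc_anti (nk W 0) (fun v w h => congrArg Prod.fst h)
    · have e1 : P.E (entF P (fun i v => (K i v, ctxN nk W i v)) (nk W) t) =
          P.Hc (nk W (t + 1)) (fun v => ((K (t + 1) v, ctxN nk W (t + 1) v), nk W t v)) := by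
        unfold FP.Hc FP.H
        rw [← P.E_sub]
        refine P.E_congr fun w hw => ?_
        unfold entF
        have a := P.m_pos (fun u => ((K (t + 1) u, ctxN nk W (t + 1) u), nk W t u)) hw
        have b := P.m_pos (fun u => ((K (t + 1) u, ctxN nk W (t + 1) u), nk W (t + 1) u)) hw
        have c : P.m (fun u => (nk W (t + 1) u, ((K (t + 1) u, ctxN nk W (t + 1) u), nk W t u))) w =
            P.m (fun u => ((K (t + 1) u, ctxN nk W (t + 1) u), nk W (t + 1) u)) w :=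
          P.m_congr (fun v w h => Prod.ext (congrArg (fun z => z.2.1) h) (congrArg Prod.fst h))
            (fun v w h => by
              have h1 : (K (t + 1) v, ctxN nk W (t + 1) v) = (K (t + 1) w, ctxN nk W (t + 1) w) := congrArg Prod.fst h
              have h2 : nk W (t + 1) v = nk W (t + 1) w := congrArg Prod.snd h
              exact Prod.ext h2 (Prod.ext h1 (H.past W t v w (congrArg Prod.fst h1) h2))) w
        rw [Real.log_div a.ne' b.ne', c]
        ring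
      rw [e1]
      exact P.Hc_anti (nk W (t + 1)) (fun v w h => by
        have h1 : (K (t + 1) v, ctxN nk W (t + 1) v) = (K (t + 1) w, ctxN nk W (t + 1) w) := congrArg Prod.fst h
        have h2 : nk W t v = nk W t w := congrArg Prod.snd h
        exact Prod.ext (Prod.mk.inj h1).1 h2)
  have h2 : P.Pr (fun w => ∃ i ≤ T, ∃ 𝔳, hasN mx nk Ls i w 𝔳 ∧ ∃ W, ¬ mx W ∧
        dR P K mx nk Ls i (res W 𝔳) w < (1 / 2 : ℝ) ^ h) ≤
      ∑ W : Wt, P.Pr (fun w => ∃ t ≤ T, qn P (fun i v => (K i v, ctxN nk W i v)) (nk W) t w < (1 / 2 : ℝ) ^ h) := by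
    refine le_trans (P.Pr_mono fun w hw => ?_) (P.Pr_ex_le univ _)
    rintro ⟨i, hi, 𝔳, hh, W, hW, hlt⟩
    refine ⟨W, mem_univ _, i, hi, ?_⟩
    rwa [← H.dR_qn hw hh hW]
  refine (mul_le_mul_of_nonneg_left h2 hp0).trans ?_
  rw [Finset.mul_sum]
  exact Finset.sum_le_sum fun W _ => hone W

end NamSys

/-! ### mass -/

theorem Zs_le {d : ℕ → Wt × (Wt → Nm) → Om → ℝ} {B : ℝ} {i j : ℕ} (hij : i ≤ j) (x : Wt × (Wt → Nm)) (w : Om) :
    Zs d B i x w ≤ Zs d B j x w := by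
  induction j, hij using Nat.le_induction with
  | base => exact le_rfl
  | succ j _ ih => exact ih.trans (Zs_mono j x w)

/-- good: closeness, thick names, nothing heavy -/
def GN (P : FP Om) (K : ∀ t, Om → κ t) (mx : Wt → Prop) (nk : Wt → ℕ → Om → Nm) (Ls : Wt → ℕ → Om → Finset Nm)
    (cut : Wt → Prop) (h T : ℕ) (B : ℝ) (G0 : ℕ → Om → Prop) (i : ℕ) (w : Om) : Prop :=
  (i ≤ T ∧ G0 i w) ∧ (∀ 𝔳, hasN mx nk Ls i w 𝔳 → ∀ W, cut W → ∃ j ≤ i,
    (1 / 2 : ℝ) ^ h ≤ dR P K mx nk Ls j (res W 𝔳) w) ∧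
    ∀ 𝔳, hasN mx nk Ls i w 𝔳 → ∀ W, Sb (dC P K mx nk Ls cut h) i (res W 𝔳) w ≤ B

/-- a thick name has a thick scale -/
theorem thick_Zs {B : ℝ} {i j : ℕ} {w : Om} {x : Wt × (Wt → Nm)} (hj : j ≤ i)
    (hS : Sb (dC P K mx nk Ls cut h) i x w ≤ B) (hjd : (1 / 2 : ℝ) ^ h ≤ dR P K mx nk Ls j x w) :
    (1 / 2 : ℝ) ^ h ≤ Zs (dC P K mx nk Ls cut h) B i x w := by
  have h1 : dC P K mx nk Ls cut h j x w = dR P K mx nk Ls j x w := by
    unfold dC
    exact if_pos fun _ => hjd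
  have h2 := d_le_Zs (d := dC P K mx nk Ls cut h) (B := B) ((Sb_mono hj x w).trans hS)
  rw [h1] at h2
  exact hjd.trans (h2.trans (Zs_le hj x w))

/-- the scale of a name of a good vertex is at least its density -/
theorem dR_le_Zs {T : ℕ} {B : ℝ} {G0 : ℕ → Om → Prop} {i : ℕ} {w : Om} {𝔳 : Wt → Nm}
    (hG : GN P K mx nk Ls cut h T B G0 i w) (hh : hasN mx nk Ls i w 𝔳) (W : Wt) :
    dR P K mx nk Ls i (res W 𝔳) w ≤ Zs (dC P K mx nk Ls cut h) B i (res W 𝔳) w := by
  have hS := hG.2.2 𝔳 hh W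
  by_cases hif : cut W → (1 / 2 : ℝ) ^ h ≤ dR P K mx nk Ls i (res W 𝔳) w
  · refine le_trans (le_of_eq ?_) (d_le_Zs hS)
    unfold dC
    exact (if_pos hif).symm
  · rw [Classical.not_imp] at hif
    obtain ⟨j, hj, hjd⟩ := hG.2.1 𝔳 hh W hif.1
    exact (le_of_lt (not_le.1 hif.2)).trans (thick_Zs hj hS hjd)

/-- THE MASS OF A SYSTEM OF NAMES -/
theorem mass_names {T : ℕ} {B : ℝ} {G0 : ℕ → Om → Prop} {kap : ℝ} (hkap : 0 ≤ kap) (hK : Filt K)
    {i : ℕ} {𝔳 : Wt → Nm} {w : Om}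
    (clo : P.ce (K i) (fun v => ind (hasN mx nk Ls i v 𝔳 ∧ (i ≤ T ∧ G0 i v))) w ≤
      kap * ∏ W, dR P K mx nk Ls i (res W 𝔳) w) :
    P.ce (K i) (fun v => ind (hasN mx nk Ls i v 𝔳 ∧ GN P K mx nk Ls cut h T B G0 i v)) w ≤
      kap * ∏ x ∈ ixs 𝔳, Zs (dC P K mx nk Ls cut h) B i x w := by
  classical
  rw [prod_ixs]
  by_cases hp : 0 < P.ce (K i) (fun v => ind (hasN mx nk Ls i v 𝔳 ∧ GN P K mx nk Ls cut h T B G0 i v)) w
  · obtain ⟨v, _, hKv, hh, hG⟩ := ce_ind_pos P (K i) hp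
    have h1 : P.ce (K i) (fun v => ind (hasN mx nk Ls i v 𝔳 ∧ GN P K mx nk Ls cut h T B G0 i v)) w ≤
        P.ce (K i) (fun v => ind (hasN mx nk Ls i v 𝔳 ∧ (i ≤ T ∧ G0 i v))) w :=
      ce_ind_le P (K i) fun u _ _ hu => ⟨hu.1, hu.2.1⟩
    refine h1.trans (clo.trans (mul_le_mul_of_nonneg_left ?_ hkap))
    refine Finset.prod_le_prod (fun W _ => dR_nonneg i _ w) fun W _ => ?_
    have h2 := dR_le_Zs hG hh W
    rw [dR_fac i (res W 𝔳) v w hKv, Zs_fac hK (fun i x => dC_fac i x) i (res W 𝔳) v w hKv] at h2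
    exact h2
  · refine (not_lt.1 hp).trans ?_
    exact mul_nonneg hkap (Finset.prod_nonneg fun W _ => Zs_nonneg (fun i x w => dC_nonneg i x w) i _ w)

/-- scales of the names of a good vertex are not small -/
theorem low_names {T g : ℕ} {B : ℝ} {G0 : ℕ → Om → Prop} (hhg : h ≤ g) {i : ℕ} {w : Om} {𝔳 : Wt → Nm}
    (hw : P.p w ≠ 0) (hg : (1 / 2 : ℝ) ^ g ≤ P.p w)
    (hG : GN P K mx nk Ls cut h T B G0 i w) (hh : hasN mx nk Ls i w 𝔳) (x : Wt × (Wt → Nm)) (hx : x ∈ ixs 𝔳) :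
    (1 / 2 : ℝ) ^ g ≤ Zs (dC P K mx nk Ls cut h) B i x w := by
  rw [mem_ixs.1 hx]
  have h1 : P.p w ≤ dR P K mx nk Ls i (res x.1 𝔳) w := by
    refine le_dR hw fun W hW => ?_
    have h2 : (res x.1 𝔳).2 W = 𝔳 W := by
      show (if W ≤ x.1 then 𝔳 W else default) = 𝔳 W
      exact if_pos hW
    rw [h2]
    exact hh W
  exact hg.trans (h1.trans (dR_le_Zs hG hh x.1))

/-- the references depend on the lists only: they are cumulative -/
theorem cum_names {R : Type*} {rf : (Wt → Nm) → R} (H : NamSys K mx nk Ls)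
    (hrf : ∀ 𝔳 𝔲 : Wt → Nm, (∀ W, mx W → 𝔳 W = 𝔲 W) → rf 𝔳 = rf 𝔲) (i : ℕ) (w : Om) (n : R)
    (hT : Tr rf (hasN mx nk Ls) i w n) : Tr rf (hasN mx nk Ls) (i + 1) w n := by
  classical
  obtain ⟨𝔳, hr, hh⟩ := hT
  refine ⟨fun W => if mx W then 𝔳 W else nk W (i + 1) w, ?_, fun W => ?_⟩
  · rw [← hr]
    refine hrf _ _ fun W hW => ?_
    exact if_pos hW
  · beta_reduce
    by_cases hW : mx W
    · rw [if_pos hW, cr_list hW]
      exact H.cum W i w ((cr_list hW).1 (hh W))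
    · rw [if_neg hW, cr_key hW]

/-- FROM THE LABELS: closeness of the published labels gives the hypothesis `clo` -/
theorem clo_of_close {Lab : Wt → Type*} (H : NamSys K mx nk Ls) {i T : ℕ} {kap : ℝ} (hkap : 0 ≤ kap)
    {G0 : ℕ → Om → Prop} (L : (W : Wt) → Om → Lab W)
    (hkey : ∀ W, ¬ mx W → ∀ v w, K i v = K i w → (L W v = L W w ↔ nk W i v = nk W i w))
    (hlist : ∀ W, mx W → ∀ v w, K i v = K i w → L W v = L W w → Ls W i v = Ls W i w)
    {lo : Wt → Finset Wt} (hlo : ∀ W W', W' ∈ lo W ↔ W' < W) {w : Om}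
    (hclose : ∀ v, P.p v ≠ 0 → K i v = K i w → i ≤ T ∧ G0 i v →
      GM75.Close P (K i) lo L kap v) (𝔳 : Wt → Nm) :
    P.ce (K i) (fun v => ind (hasN mx nk Ls i v 𝔳 ∧ (i ≤ T ∧ G0 i v))) w ≤
      kap * ∏ W, dR P K mx nk Ls i (res W 𝔳) w := by
  classical
  -- labels with values in a finite set
  set r : (W : Wt) → Lab W → Option Om := fun W l => if hx : ∃ u, L W u = l then some (Classical.choose hx) else none
    with hr
  have hri : ∀ W u v, r W (L W u) = r W (L W v) ↔ L W u = L W v := by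
    intro W u v
    constructor
    · intro hh
      have h1 : ∃ x, L W x = L W u := ⟨u, rfl⟩
      have h2 : ∃ x, L W x = L W v := ⟨v, rfl⟩
      simp only [hr] at hh
      rw [dif_pos h1, dif_pos h2] at hh
      have h3 := Option.some.inj hh
      have h4 := Classical.choose_spec h1
      have h5 := Classical.choose_spec h2
      rw [h3, h5] at h4
      exact h4.symm
    · intro hh; rw [hh]
  -- the value of the label carries the name
  set S : (W : Wt) → Option Om → Prop := fun W l => ∃ v, K i v = K i w ∧ r W (L W v) = l ∧ cr mx nk Ls W i v (𝔳 W)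
    with hS
  have hSv : ∀ W v, K i v = K i w → (S W (r W (L W v)) ↔ cr mx nk Ls W i v (𝔳 W)) := by
    intro W v hv
    constructor
    · rintro ⟨u, hu, hl, hc⟩
      have h1 := (hri W u v).1 hl
      by_cases hW : mx W
      · rw [cr_list hW] at hc ⊢
        rw [← hlist W hW u v (hu.trans hv.symm) h1]
        exact hc
      · rw [cr_key hW] at hc ⊢
        rw [← ((hkey W hW u v (hu.trans hv.symm)).1 h1)]
        exact hc
    · intro hc
      exact ⟨v, hv, rfl, hc⟩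
  have hlow : ∀ W, ∀ W' ∈ lo W, ∀ l l', S W' l → S W' l' → l = l' := by
    rintro W W' hW' l l' ⟨u, hu, hl, hc⟩ ⟨v, hv, hl', hc'⟩
    have hnm : ¬ mx W' := H.not_mx ((hlo W W').1 hW')
    rw [cr_key hnm] at hc hc'
    rw [← hl, ← hl', hri]
    exact (hkey W' hnm u v (hu.trans hv.symm)).2 (hc.trans hc'.symm)
  have hcl : ∀ v, P.p v ≠ 0 → K i v = K i w → i ≤ T ∧ G0 i v →
      GM75.Close P (K i) lo (fun W u => r W (L W u)) kap v := by
    intro v hv hKv hg
    have h1 := hclose v hv hKv hg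
    unfold GM75.Close GM75.expert at h1 ⊢
    simp only [hri]
    exact h1
  have key := GM75.mass_of_close P (K i) lo (fun W u => r W (L W u)) S hlow (G := fun v => i ≤ T ∧ G0 i v) hkap
    (w := w) hcl
  have e1 : P.ce (K i) (fun v => ind (hasN mx nk Ls i v 𝔳 ∧ (i ≤ T ∧ G0 i v))) w ≤
      P.ce (K i) (fun v => ind ((∀ W, S W (r W (L W v))) ∧ (i ≤ T ∧ G0 i v))) w :=
    ce_ind_le P (K i) fun v _ hKv hh => ⟨fun W => (hSv W v hKv).2 (hh.1 W), hh.2⟩
  refine e1.trans (key.trans (le_of_eq ?_))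
  congr 1
  refine Finset.prod_congr rfl fun W _ => ?_
  unfold GM75.dens dR
  have hres : ∀ W' ≤ W, (res W 𝔳).2 W' = 𝔳 W' := by
    intro W' hW'
    show (if W' ≤ W then 𝔳 W' else default) = 𝔳 W'
    exact if_pos hW'
  congr 1
  · refine GM75.ce_ind_congr P (K i) fun v _ hKv => ?_
    constructor
    · rintro ⟨h1, h2⟩ W' hW'
      rw [hres W' hW']
      rcases (show W' ≤ W from hW').lt_or_eq with h3 | h3
      · exact (hSv W' v hKv).1 (h2 W' ((hlo W W').2 h3))
      · subst h3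
        exact (hSv _ v hKv).1 h1
    · intro hh
      refine ⟨(hSv W v hKv).2 ?_, fun W' hW' => (hSv W' v hKv).2 ?_⟩
      · have h1 := hh W le_rfl
        rwa [hres W le_rfl] at h1
      · have h3 := (hlo W W').1 hW'
        have h1 := hh W' h3.le
        rwa [hres W' h3.le] at h1
  · refine GM75.ce_ind_congr P (K i) fun v _ hKv => ?_
    constructor
    · intro hh W' hW'
      rw [hres W' (le_of_lt hW')]
      exact (hSv W' v hKv).1 (hh W' ((hlo W W').2 hW'))
    · intro hh W' hW'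
      have h3 := (hlo W W').1 hW'
      have h1 := hh W' h3
      rw [hres W' h3.le] at h1
      exact (hSv W' v hKv).2 h1

/-- THE STRUCTURE `JRV` FOR NAMES -/
theorem NamSys.jrv {R S : Type*} [Fintype R] [LinearOrder R] (H : NamSys K mx nk Ls) {rf : (Wt → Nm) → R}
    (hrf : ∀ 𝔳 𝔲 : Wt → Nm, (∀ W, mx W → 𝔳 W = 𝔲 W) → rf 𝔳 = rf 𝔲) {M : Om → Mach R S} {N T g : ℕ}
    {Rr Mu Nv kap B Db : ℝ} {G0 : ℕ → Om → Prop} (hR : 1 ≤ Rr) (hDb : 1 ≤ Db) (hB : 1 ≤ B) (hkap : 0 ≤ kap)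
    (hM : MFac K M)
    (dbl : ∀ i w, P.p w ≠ 0 → ∀ s : Om → Prop,
      P.ce (K (i + 1)) (fun v => ind (s v)) w ≤ Db * P.ce (K i) (fun v => ind (s v)) w)
    (hhg : h ≤ g) (hg : ∀ w, P.p w ≠ 0 → (1 / 2 : ℝ) ^ g ≤ P.p w)
    (clo : ∀ i ≤ T, ∀ 𝔳 w, P.p w ≠ 0 → P.ce (K i) (fun v => ind (hasN mx nk Ls i v 𝔳 ∧ (i ≤ T ∧ G0 i v))) w ≤
      kap * ∏ W, dR P K mx nk Ls i (res W 𝔳) w)
    (term : ∀ f : Wt × (Wt → Nm) → ℕ, ∀ w, P.p w ≠ 0 → ∀ i ≤ T,
      (M w).pk (fun j => Av ixs rf (Zs (dC P K mx nk Ls cut h) B) Rr f j w) N i N = none)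
    (Mu0 : 0 ≤ Mu)
    (use : ∀ f : Wt × (Wt → Nm) → ℕ, P.E (nUseV ixs rf (Zs (dC P K mx nk Ls cut h) B) Rr M N T f) ≤ Mu)
    (Nv0 : 0 ≤ Nv)
    (ends : ∀ (f : Wt × (Wt → Nm) → ℕ) (n : R), ∀ i ≤ T, ∀ F : Om → Prop, (∀ v w, K i v = K i w → (F v ↔ F w)) →
      ∑ t ∈ Icc i T, P.Pr (fun w => F w ∧ EndV ixs rf (Zs (dC P K mx nk Ls cut h) B) Rr M N f n t w) ≤
        Nv * P.Pr F) :
    JRV P K ixs rf (hasN mx nk Ls) (GN P K mx nk Ls cut h T B G0) (Zs (dC P K mx nk Ls cut h) B) Rr M N T g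
      (Fintype.card Wt) Mu Nv kap (B ^ Fintype.card Wt) Db where
  R1 := hR
  Db1 := hDb
  filt := H.filt
  mfac := hM
  Zfac := fun i x => Zs_fac H.filt (fun i x => dC_fac i x) i x
  Z0 := fun i x w => Zs_nonneg (fun i x w => dC_nonneg i x w) i x w
  Zmono := fun i x w => Zs_mono i x w
  cum := fun i w n hT => cum_names H hrf i w n hT
  dbl := dbl
  low := fun i w 𝔳 hw hh hG x hx => by
    have h1 := low_names hhg hw (hg w hw) hG hh x hx
    have h2 : 0 ≤ Zs (dC P K mx nk Ls cut h) B i x w := Zs_nonneg (fun i x w => dC_nonneg i x w) i x w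
    nlinarith
  kap0 := hkap
  mass := fun i 𝔳 w hw => by
    by_cases hi : i ≤ T
    · exact mass_names hkap H.filt (clo i hi 𝔳 w hw)
    · have h0 : P.ce (K i) (fun v => ind (hasN mx nk Ls i v 𝔳 ∧ GN P K mx nk Ls cut h T B G0 i v)) w ≤ 0 := by
        by_contra hp
        obtain ⟨v, _, _, hv⟩ := ce_ind_pos P (K i) (not_le.1 hp)
        exact hi hv.2.1.1
      refine h0.trans (mul_nonneg hkap (Finset.prod_nonneg fun x _ => ?_))
      exact Zs_nonneg (fun i x w => dC_nonneg i x w) i x w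
  B0 := by positivity
  sumB := fun J _ w _ => sumB_Zs (fun i x w => dC_nonneg i x w) hB T J w
  card := fun 𝔳 => card_ixs 𝔳
  term := term
  Mu0 := Mu0
  use := use
  Nv0 := Nv0
  ends := ends

/-- the vertices which are not good -/
theorem NamSys.bad_le (H : NamSys K mx nk Ls) {T : ℕ} (h1 : 1 ≤ h) {n0 : ℝ} (hn0 : 1 ≤ n0)
    (hL : ∀ W, mx W → ∀ w, P.p w ≠ 0 → ((Ls W T w).card : ℝ) ≤ n0)
    (hpub : ∀ W, ¬ cut W → ∃ pub : Om → Finset Nm, (∀ w, P.p w ≠ 0 → ((pub w).card : ℝ) ≤ 2 ^ h) ∧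
      ∀ j ≤ T, ∀ v w ν, P.p v ≠ 0 → P.p w ≠ 0 → K j v = K j w → cr mx nk Ls W j v ν → ν ∈ pub w)
    (hcut : ∀ W, cut W → mx W → ∀ i ≤ T, ∀ w 𝔳, P.p w ≠ 0 → hasN mx nk Ls i w 𝔳 → ∃ j ≤ i,
      (1 / 2 : ℝ) ^ h ≤ dR P K mx nk Ls j (res W 𝔳) w)
    {B : ℝ} (hB : 0 < B) {G0 : ℕ → Om → Prop} :
    P.Pr (fun w => ¬ ∀ i ≤ T, GN P K mx nk Ls cut h T B G0 i w) ≤
      P.Pr (fun w => ∃ i ≤ T, ¬ G0 i w) +
      (∑ W : Wt, (P.Hc (nk W 0) (K 0) + ∑ t ∈ range T, P.Hc (nk W (t + 1)) (fun v => (K (t + 1) v, nk W t v)))) /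
        (h * Real.log 2) +
      Fintype.card Wt * ((4 * h * n0 + 1) * nCh P mx nk T) / B := by
  classical
  have ha := H.thin_names (P := P) (h := h) T
  have hb := H.heavy_names h1 hn0 hL hpub hB.le
  have hl2 : 0 < (h : ℝ) * Real.log 2 := by
    have : (0 : ℝ) < h := by exact_mod_cast h1
    have := Real.log_pos (show (1 : ℝ) < 2 by norm_num)
    positivity
  rw [mul_comm, ← le_div_iff₀ hl2] at ha
  rw [mul_comm, ← le_div_iff₀ hB] at hb
  refine le_trans (P.Pr_mono fun w hw => ?_) ((P.Pr_or_le _ _).trans (add_le_add ((P.Pr_or_le _ _).trans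
    (add_le_add le_rfl ha)) hb))
  intro hne
  push_neg at hne
  obtain ⟨i, hi, hG⟩ := hne
  by_cases hg0 : G0 i w
  · by_cases hth : ∀ 𝔳, hasN mx nk Ls i w 𝔳 → ∀ W, cut W → ∃ j ≤ i, (1 / 2 : ℝ) ^ h ≤ dR P K mx nk Ls j (res W 𝔳) w
    · by_cases hhv : ∀ 𝔳, hasN mx nk Ls i w 𝔳 → ∀ W, Sb (dC P K mx nk Ls cut h) i (res W 𝔳) w ≤ B
      · exact absurd ⟨⟨hi, hg0⟩, hth, hhv⟩ hG
      · push_neg at hhv
        obtain ⟨𝔳, hh, W, hlt⟩ := hhv
        exact Or.inr ⟨i, hi, 𝔳, hh, W, hlt⟩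
    · push_neg at hth
      obtain ⟨𝔳, hh, W, hc, hlt⟩ := hth
      by_cases hW : mx W
      · obtain ⟨j, hj, hjd⟩ := hcut W hc hW i hi w 𝔳 hw hh
        exact absurd hjd (not_le.2 (hlt j hj))
      · exact Or.inl (Or.inr ⟨i, hi, 𝔳, hh, W, hW, hlt i le_rfl⟩)
  · exact Or.inl (Or.inl ⟨i, hi, hg0⟩)

/-- THE RECORD LEMMA FOR NAMES -/
theorem NamSys.jr {R S C : Type*} [Fintype R] [LinearOrder R] [Fintype C] {M : Om → Mach R S} {rf : (Wt → Nm) → R}
    {N T g : ℕ} {Rr Mu Nv kap B Db : ℝ} {G0 : ℕ → Om → Prop}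
    (J : JRV P K ixs rf (hasN mx nk Ls) (GN P K mx nk Ls cut h T B G0) (Zs (dC P K mx nk Ls cut h) B) Rr M N T g
      (Fintype.card Wt) Mu Nv kap (B ^ Fintype.card Wt) Db)
    {q : ℝ} (hq : P.Pr (fun w => ¬ ∀ i ≤ T, GN P K mx nk Ls cut h T B G0 i w) ≤ q)
    (Q : FP C) (co : Wt × (Wt → Nm) → C → ℕ)
    (hco : ∀ J : Finset (Wt × (Wt → Nm)), ∀ k ∈ JRV.lev g J, ∀ F : (Wt × (Wt → Nm) → ℕ) → ℝ, (∀ f, 0 ≤ F f) →
      (∏ x ∈ J, (1 / 2 : ℝ) ^ (k x + 1)) * Q.E (fun c => F (f0 (fun m => co m c) J)) ≤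
        Q.E (fun c => ind (∀ x ∈ J, co x c = k x) * F (f0 (fun m => co m c) J))) :
    Q.E (fun c => P.Pr (FailV ixs rf (hasN mx nk Ls) (Zs (dC P K mx nk Ls cut h) B) Rr M N T
      (fun m => co m c))) ≤
      2 * Db * (Nv + 1) * kap * B ^ Fintype.card Wt * 8 ^ Fintype.card Wt * Mu / Rr + q := by
  classical
  have h1 := J.jr_v Q co hco
  have h2 : ∀ c, P.Pr (FailV ixs rf (hasN mx nk Ls) (Zs (dC P K mx nk Ls cut h) B) Rr M N T (fun m => co m c)) ≤
      P.Pr (fun w => FailV ixs rf (hasN mx nk Ls) (Zs (dC P K mx nk Ls cut h) B) Rr M N T (fun m => co m c) w ∧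
        ∀ i ≤ T, GN P K mx nk Ls cut h T B G0 i w) + q := by
    intro c
    refine le_trans (P.Pr_mono fun w _ hf => ?_) ((P.Pr_or_le _ _).trans (add_le_add le_rfl hq))
    by_cases hG : ∀ i ≤ T, GN P K mx nk Ls cut h T B G0 i w
    · exact Or.inl ⟨hf, hG⟩
    · exact Or.inr hG
  refine (Q.E_mono fun c _ => h2 c).trans ?_
  rw [Q.E_add, Q.E_const]
  exact add_le_add h1 le_rfl

/-! ### names of refining classifications -/

section cls

variable {Cl : Wt → Type*} {T : ℕ}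

open Classical in
/-- the keys of refining classifications, stopped at time `T` -/
def nkC (P : FP Om) (K : ∀ t, Om → κ t) (mx : Wt → Prop) (cls : (W : Wt) → ℕ → Om → Cl W)
    (ik : Fin (T + 1) × Option Om → Nm) (W : Wt) (i : ℕ) (w : Om) : Nm :=
  if mx W then ik (0, none) else ik (nm P K (cls W) T (min i T) w)

variable {cls : (W : Wt) → ℕ → Om → Cl W} {ik : Fin (T + 1) × Option Om → Nm}

theorem nkC_key {W : Wt} (hW : ¬ mx W) (i : ℕ) (w : Om) :
    nkC P K mx cls ik W i w = ik (nm P K (cls W) T (min i T) w) := by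
  unfold nkC
  exact if_neg hW

theorem nkC_list {W : Wt} (hW : mx W) (i : ℕ) (w : Om) : nkC P K mx cls ik W i w = ik (0, none) := by
  unfold nkC
  exact if_pos hW

/-- names of refining classifications, up to time `T` -/
theorem NamSys.of_cls (hK : Filt K) (hcls : ∀ W, ¬ mx W → Ref K (cls W)) (htop : ∀ W W', mx W → ¬ W < W')
    (hik : Function.Injective ik) (Ls : Wt → ℕ → Om → Finset Nm)
    (hL : ∀ W i w, Ls W i w ⊆ Ls W (i + 1) w) : NamSys K mx (nkC P K mx cls ik) Ls where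
  filt := hK
  top := htop
  past := fun W i v w h1 h2 => by
    by_cases hW : mx W
    · rw [nkC_list hW, nkC_list hW]
    · rw [nkC_key hW, nkC_key hW] at h2 ⊢
      have h3 := hik h2
      congr 1
      rcases Nat.lt_or_ge i T with hi | hi
      · rw [min_eq_left (by omega : i + 1 ≤ T)] at h3
        rw [min_eq_left hi.le]
        exact nm_past hK (hcls W hW) (Nat.le_succ i) hi h1 h3
      · rw [min_eq_right (by omega : T ≤ i + 1)] at h3
        rw [min_eq_right hi]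
        exact h3
  birth := fun W i j v w hij h2 => by
    by_cases hW : mx W
    · rw [nkC_list hW, nkC_list hW]
    · rw [nkC_key hW, nkC_key hW] at h2 ⊢
      congr 1
      exact nm_birth hK (min_le_min_right T hij) (min_le_right _ _) (hik h2)
  betw := fun W i l j w hil hlj h2 => by
    by_cases hW : mx W
    · rw [nkC_list hW, nkC_list hW]
    · rw [nkC_key hW, nkC_key hW] at h2 ⊢
      congr 1
      exact nm_between (min_le_min_right T hil) (min_le_min_right T hlj) (min_le_right _ _) (hik h2)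
  cum := hL

/-- names and classes are the same partition of the node -/
theorem nkC_iff (hK : Filt K) {W : Wt} (hW : ¬ mx W) (hcls : Ref K (cls W)) (hik : Function.Injective ik) {i : ℕ}
    (hi : i ≤ T) {v w : Om} (hvw : K i v = K i w) :
    cls W i v = cls W i w ↔ nkC P K mx cls ik W i v = nkC P K mx cls ik W i w := by
  rw [nkC_key hW, nkC_key hW, min_eq_left hi]
  constructor
  · intro h2
    rw [nm_of_cls hK hcls hvw h2]
  · intro h2
    exact cls_of_nm hK hi hvw (hik h2)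

/-- total entropy of the keys -/
def EntC (P : FP Om) (K : ∀ t, Om → κ t) (mx : Wt → Prop) (cls : (W : Wt) → ℕ → Om → Cl W) (T : ℕ) : ℝ :=
  open Classical in ∑ W ∈ univ.filter (fun W => ¬ mx W), (P.Hc (cls W 0) (K 0) +
    ∑ t ∈ range T, P.Hc (cls W (t + 1)) (fun v => (K (t + 1) v, cls W t v)))

theorem EntC_nonneg : 0 ≤ EntC P K mx cls T := by
  classical
  unfold EntC
  exact Finset.sum_nonneg fun W _ => add_nonneg (P.Hc_nonneg _ _) (Finset.sum_nonneg fun t _ => P.Hc_nonneg _ _)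

/-- the entropies of the names are those of the classes -/
theorem ent_names (hK : Filt K) (hcls : ∀ W, ¬ mx W → Ref K (cls W)) (hik : Function.Injective ik) :
    ∑ W : Wt, (P.Hc (nkC P K mx cls ik W 0) (K 0) + ∑ t ∈ range T, P.Hc (nkC P K mx cls ik W (t + 1))
      (fun v => (K (t + 1) v, nkC P K mx cls ik W t v))) ≤ EntC P K mx cls T := by
  classical
  unfold EntC
  rw [← Finset.sum_filter_add_sum_filter_not univ (fun W => ¬ mx W)]
  have hz : ∑ W ∈ univ.filter (fun W => ¬ ¬ mx W), (P.Hc (nkC P K mx cls ik W 0) (K 0) + ∑ t ∈ range T,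
      P.Hc (nkC P K mx cls ik W (t + 1)) (fun v => (K (t + 1) v, nkC P K mx cls ik W t v))) ≤ 0 := by
    refine Finset.sum_nonpos fun W hW => ?_
    have hm : mx W := not_not.1 (mem_filter.1 hW).2
    have h0 : ∀ i : ℕ, P.H (nkC P K mx cls ik W i) ≤ 0 := by
      intro i
      refine le_of_eq ?_
      rw [P.H_congr (Y := fun _ => ()) (Fac.const _ _) (fun v w _ => by rw [nkC_list hm, nkC_list hm])]
      exact P.H_const ()
    have h1 : ∑ t ∈ range T, P.Hc (nkC P K mx cls ik W (t + 1)) (fun v => (K (t + 1) v, nkC P K mx cls ik W t v)) ≤ 0 :=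
      Finset.sum_nonpos fun t _ => (P.Hc_le_H _ _).trans (h0 (t + 1))
    linarith [h0 0, P.Hc_le_H (nkC P K mx cls ik W 0) (K 0)]
  have hp : ∑ W ∈ univ.filter (fun W => ¬ mx W), (P.Hc (nkC P K mx cls ik W 0) (K 0) + ∑ t ∈ range T,
      P.Hc (nkC P K mx cls ik W (t + 1)) (fun v => (K (t + 1) v, nkC P K mx cls ik W t v))) ≤
      ∑ W ∈ univ.filter (fun W => ¬ mx W), (P.Hc (cls W 0) (K 0) +
        ∑ t ∈ range T, P.Hc (cls W (t + 1)) (fun v => (K (t + 1) v, cls W t v))) := by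
    refine Finset.sum_le_sum fun W hW => ?_
    have hm := (mem_filter.1 hW).2
    have hc := hcls W hm
    refine add_le_add ?_ (Finset.sum_le_sum fun t ht => ?_)
    · refine P.Hc_mono (K 0) fun v w h2 => ?_
      have h3 : K 0 v = K 0 w := congrArg Prod.snd h2
      have h4 : cls W 0 v = cls W 0 w := congrArg Prod.fst h2
      exact (nkC_iff hK hm hc hik (Nat.zero_le _) h3).1 h4
    · have ht' : t + 1 ≤ T := mem_range.1 ht
      have e1 : P.Hc (nkC P K mx cls ik W (t + 1)) (fun v => (K (t + 1) v, nkC P K mx cls ik W t v)) =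
          P.Hc (nkC P K mx cls ik W (t + 1)) (fun v => (K (t + 1) v, cls W t v)) := by
        refine P.Hc_congr (fun v w h2 => congrArg Prod.fst h2) (fun v w h2 => ?_)
          (fun v w h2 => congrArg Prod.fst h2) (fun v w h2 => ?_)
        · have h4 : K (t + 1) v = K (t + 1) w := congrArg Prod.fst h2
          have h5 : nkC P K mx cls ik W t v = nkC P K mx cls ik W t w := congrArg Prod.snd h2
          have h6 := (nkC_iff hK hm hc hik (by omega) (hK t v w h4)).2 h5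
          show (K (t + 1) v, cls W t v) = (K (t + 1) w, cls W t w)
          rw [h4, h6]
        · have h4 : K (t + 1) v = K (t + 1) w := congrArg Prod.fst h2
          have h5 : cls W t v = cls W t w := congrArg Prod.snd h2
          have h6 := (nkC_iff (P := P) (ik := ik) hK hm hc hik (by omega) (hK t v w h4)).1 h5
          show (K (t + 1) v, nkC P K mx cls ik W t v) = (K (t + 1) w, nkC P K mx cls ik W t w)
          rw [h4, h6]
      rw [e1]
      refine P.Hc_mono _ fun v w h2 => ?_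
      have h3 : cls W (t + 1) v = cls W (t + 1) w := congrArg Prod.fst h2
      have h4 : K (t + 1) v = K (t + 1) w := congrArg (fun z => z.2.1) h2
      exact (nkC_iff hK hm hc hik ht' h4).1 h3
  linarith

/-- the mean number of changes -/
theorem nCh_cls (hcls : ∀ W, ¬ mx W → Ref K (cls W)) :
    nCh P mx (nkC P K mx cls ik) T ≤ 1 + EntC P K mx cls T / Real.log 2 := by
  classical
  have hl : 0 < Real.log 2 := Real.log_pos (by norm_num)
  unfold nCh EntC
  refine add_le_add le_rfl ?_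
  rw [le_div_iff₀ hl, mul_comm, Finset.mul_sum]
  refine Finset.sum_le_sum fun W hW => ?_
  have hm := (mem_filter.1 hW).2
  have hc := hcls W hm
  have h1 := change_le (P := P) hc T T
  have h2 : Real.log 2 * ∑ t ∈ range T, P.Pr (fun w => nkC P K mx cls ik W (t + 1) w ≠ nkC P K mx cls ik W t w) ≤
      Real.log 2 * ∑ t ∈ range T, P.Pr (fun w => nm P K (cls W) T (t + 1) w ≠ nm P K (cls W) T t w) := by
    refine mul_le_mul_of_nonneg_left (Finset.sum_le_sum fun t ht => P.Pr_mono fun w _ hw hn => hw ?_) hl.le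
    have ht' := mem_range.1 ht
    rw [nkC_key hm, nkC_key hm, min_eq_left (by omega : t + 1 ≤ T), min_eq_left (by omega : t ≤ T), hn]
  refine h2.trans (h1.trans ?_)
  have h3 : ∑ t ∈ range T, P.E (entp P K (cls W) t) =
      ∑ t ∈ range T, P.Hc (cls W (t + 1)) (fun v => (K (t + 1) v, cls W t v)) := by
    refine Finset.sum_congr rfl fun t _ => ?_
    unfold FP.Hc FP.H
    rw [← P.E_sub]
    refine P.E_congr fun w hw => ?_
    unfold entp
    have a := P.m_pos (fun u => (K (t + 1) u, cls W t u)) hw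
    have b := P.m_pos (fun u => (K (t + 1) u, cls W (t + 1) u)) hw
    have c : P.m (fun u => (cls W (t + 1) u, (K (t + 1) u, cls W t u))) w =
        P.m (fun u => (K (t + 1) u, cls W (t + 1) u)) w :=
      P.m_congr (fun v w h => by
          have h1 : cls W (t + 1) v = cls W (t + 1) w := congrArg Prod.fst h
          have h2 : K (t + 1) v = K (t + 1) w := congrArg (fun z => z.2.1) h
          show (K (t + 1) v, cls W (t + 1) v) = (K (t + 1) w, cls W (t + 1) w)
          rw [h1, h2])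
        (fun v w h => by
          have h1 : K (t + 1) v = K (t + 1) w := congrArg Prod.fst h
          have h2 : cls W (t + 1) v = cls W (t + 1) w := congrArg Prod.snd h
          show (cls W (t + 1) v, (K (t + 1) v, cls W t v)) = (cls W (t + 1) w, (K (t + 1) w, cls W t w))
          rw [h1, h2, hc t v w h1 h2]) w
    rw [Real.log_div a.ne' b.ne', c]
    ring
  rw [h3]
  have := P.Hc_nonneg (cls W 0) (K 0)
  linarith

/-- THE VERTICES WHICH ARE NOT GOOD, names of refining classifications -/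
theorem bad_cls (hK : Filt K) (hcls : ∀ W, ¬ mx W → Ref K (cls W)) (htop : ∀ W W', mx W → ¬ W < W')
    (hik : Function.Injective ik) (hLc : ∀ W i w, Ls W i w ⊆ Ls W (i + 1) w)
    (h1 : 1 ≤ h) {n0 : ℝ} (hn0 : 1 ≤ n0) (hL : ∀ W, mx W → ∀ w, P.p w ≠ 0 → ((Ls W T w).card : ℝ) ≤ n0)
    (hpub : ∀ W, ¬ cut W → ∃ pub : Om → Finset Nm, (∀ w, P.p w ≠ 0 → ((pub w).card : ℝ) ≤ 2 ^ h) ∧
      ∀ j ≤ T, ∀ v w ν, P.p v ≠ 0 → P.p w ≠ 0 → K j v = K j w → cr mx (nkC P K mx cls ik) Ls W j v ν → ν ∈ pub w)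
    (hcut : ∀ W, cut W → mx W → ∀ i ≤ T, ∀ w 𝔳, P.p w ≠ 0 → hasN mx (nkC P K mx cls ik) Ls i w 𝔳 → ∃ j ≤ i,
      (1 / 2 : ℝ) ^ h ≤ dR P K mx (nkC P K mx cls ik) Ls j (res W 𝔳) w)
    {B : ℝ} (hB : 0 < B) {G0 : ℕ → Om → Prop} :
    P.Pr (fun w => ¬ ∀ i ≤ T, GN P K mx (nkC P K mx cls ik) Ls cut h T B G0 i w) ≤
      P.Pr (fun w => ∃ i ≤ T, ¬ G0 i w) + EntC P K mx cls T / (h * Real.log 2) +
      Fintype.card Wt * ((4 * h * n0 + 1) * (1 + EntC P K mx cls T / Real.log 2)) / B := by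
  have H : NamSys K mx (nkC P K mx cls ik) Ls := NamSys.of_cls hK hcls htop hik Ls hLc
  have h0 := H.bad_le (P := P) h1 hn0 hL hpub hcut hB (G0 := G0)
  have h2 := ent_names (P := P) hK hcls hik
  have h3 := nCh_cls (P := P) (ik := ik) hcls
  have hh : (1 : ℝ) ≤ h := by exact_mod_cast h1
  have hl : 0 < Real.log 2 := Real.log_pos (by norm_num)
  refine h0.trans (add_le_add (add_le_add le_rfl ?_) ?_)
  · exact div_le_div_of_nonneg_right h2 (by positivity)
  · refine div_le_div_of_nonneg_right ?_ hB.le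
    refine mul_le_mul_of_nonneg_left (mul_le_mul_of_nonneg_left h3 ?_) (by positivity)
    positivity

end cls

end names

end

end Pool.Agent.GMN
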