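import Pool.Agent.GMN.Coin

/-!
# GMN.Size (row N, 4.1 SIZE): the mean size of the record

`E max_i P(mem i . n | K i) ≤ 3 p_n (1 + log (1 / p_n))`, `p_n = P(mem T . n)`; hence the mean number of recorded
references is at most `3 Rr (n0 (1 + H) + 1)` if `∑ p_n ≤ n0` and the number of references is at most `e ^ H`.
-/

set_option autoImplicit false
set_option linter.unusedSectionVars false

namespace Pool.Agent.GMN

open Finset Pool.Agent.PWZ Pool.Agent.M3

noncomputable section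

/-- dyadic layers of a number in `[0,1]` -/
theorem dyadic_le {x : ℝ} (h1 : x ≤ 1) (J : ℕ) :
    x ≤ (1 / 2 : ℝ) ^ J + ∑ j ∈ range J, (1 / 2 : ℝ) ^ j * ind ((1 / 2 : ℝ) ^ (j + 1) ≤ x) := by
  induction J with
  | zero => simpa using h1
  | succ J ih =>
    rw [Finset.sum_range_succ]
    by_cases h : (1 / 2 : ℝ) ^ (J + 1) ≤ x
    · rw [ind_of h, mul_one]
      have : (0 : ℝ) ≤ (1 / 2) ^ (J + 1) := by positivity
      linarith
    · have hs : 0 ≤ ∑ j ∈ range J, (1 / 2 : ℝ) ^ j * ind ((1 / 2 : ℝ) ^ (j + 1) ≤ x) :=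
        Finset.sum_nonneg fun j _ => mul_nonneg (by positivity) (ind_nonneg _)
      have h2 : 0 ≤ (1 / 2 : ℝ) ^ J * ind ((1 / 2 : ℝ) ^ (J + 1) ≤ x) := mul_nonneg (by positivity) (ind_nonneg _)
      linarith [not_le.1 h]

variable {Om R S : Type*} [Fintype Om] [Fintype R] [LinearOrder R] {κ : ℕ → Type*}
variable {P : FP Om} {K : ∀ t, Om → κ t} {mem : ℕ → Om → R → Prop}

/-- probability that the running maximum of the density reaches a level -/
theorem Pr_Zn_le (hK : Filt K) (hm : ∀ i w n, mem i w n → mem (i + 1) w n) (T : ℕ) (n : R) {c : ℝ} (hc : 0 ≤ c) :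
    c * P.Pr (fun w => c ≤ Zn P K mem T n w) ≤ P.Pr (fun w => mem T w n) := by
  classical
  have hmono : ∀ {i j : ℕ}, i ≤ j → ∀ w, mem i w n → mem j w n := by
    intro i j h w hw
    induction j, h using Nat.le_induction with
    | base => exact hw
    | succ j _ ih => exact hm j w n ih
  set Z : ℕ → Om → ℝ := fun t => P.ce (K t) (fun v => ind (mem T v n)) with hZ
  have h1 := P.doob_super hK (Z := Z) (s := fun _ _ => 0) (fun t => P.ce_fac _ _)
    (fun t w _ => P.ce_nonneg (fun _ _ => ind_nonneg _) w) (fun _ _ _ => le_rfl)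
    (fun t w _ => by
      simp only [hZ, add_zero]
      exact (P.ce_tower (hK t) (fun v => ind (mem T v n)) w).le) T hc
  have e0 : P.E (Z 0) = P.Pr (fun w => mem T w n) := by
    simp only [hZ]
    rw [P.E_ce]; rfl
  have e1 : ∑ t ∈ range T, P.E (fun _ => (0 : ℝ)) = 0 := by
    simp [FP.E_const]
  rw [e0, e1, add_zero] at h1
  refine le_trans (mul_le_mul_of_nonneg_left (P.Pr_mono fun w hw h => ?_) hc) h1
  -- some density is large
  have hmax : ∀ T' ≤ T, ∃ i ≤ T', Zn P K mem T' n w = Dn P K mem i n w := by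
    intro T'
    induction T' with
    | zero => intro _; exact ⟨0, le_rfl, rfl⟩
    | succ T' ih =>
      intro hT'
      obtain ⟨i, hi, e⟩ := ih (by omega)
      have e2 : Zn P K mem (T' + 1) n w = max (Zn P K mem T' n w) (Dn P K mem (T' + 1) n w) := rfl
      rcases le_total (Zn P K mem T' n w) (Dn P K mem (T' + 1) n w) with hh | hh
      · exact ⟨T' + 1, le_rfl, by rw [e2, max_eq_right hh]⟩
      · exact ⟨i, by omega, by rw [e2, max_eq_left hh, e]⟩
  obtain ⟨i, hi, e⟩ := hmax T le_rfl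
  refine ⟨i, hi, ?_⟩
  rw [e] at h
  refine h.trans ?_
  exact P.ce_mono (fun v _ => ind_mono (hmono hi v)) w

theorem Zn_le_one (i : ℕ) (n : R) {w : Om} (hw : P.p w ≠ 0) : Zn P K mem i n w ≤ 1 := by
  have hD : ∀ i, Dn P K mem i n w ≤ 1 := fun i => P.ce_le_const (fun _ _ => ind_le_one _) hw
  induction i with
  | zero => exact hD 0
  | succ i ih => exact max_le ih (hD (i + 1))

/-- mean of the running maximum -/
theorem E_Zn_le (hK : Filt K) (hm : ∀ i w n, mem i w n → mem (i + 1) w n) (T : ℕ) (n : R) :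
    P.E (Zn P K mem T n) ≤
      3 * (P.Pr (fun w => mem T w n) * (1 + Real.log (1 / P.Pr (fun w => mem T w n)))) := by
  set p := P.Pr (fun w => mem T w n) with hp
  have hp0 : 0 ≤ p := P.Pr_nonneg _
  have hp1 : p ≤ 1 := P.Pr_le_one _
  -- layers
  have hJ : ∀ J : ℕ, P.E (Zn P K mem T n) ≤ (1 / 2 : ℝ) ^ J + 2 * p * J := by
    intro J
    have h1 : P.E (Zn P K mem T n) ≤ P.E (fun w => (1 / 2 : ℝ) ^ J +
        ∑ j ∈ range J, (1 / 2 : ℝ) ^ j * ind ((1 / 2 : ℝ) ^ (j + 1) ≤ Zn P K mem T n w)) :=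
      P.E_mono fun w hw => dyadic_le (Zn_le_one T n hw) J
    rw [P.E_add, P.E_const, P.E_sum] at h1
    refine h1.trans (add_le_add le_rfl ?_)
    have h2 : ∀ j ∈ range J, P.E (fun w => (1 / 2 : ℝ) ^ j * ind ((1 / 2 : ℝ) ^ (j + 1) ≤ Zn P K mem T n w)) ≤
        2 * p := by
      intro j _
      rw [P.E_smul]
      have h3 := Pr_Zn_le (P := P) hK hm T n (c := (1 / 2 : ℝ) ^ (j + 1)) (by positivity)
      have e : (1 / 2 : ℝ) ^ (j + 1) = (1 / 2 : ℝ) ^ j * (1 / 2) := pow_succ _ _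
      unfold FP.Pr at h3
      rw [← hp] at *
      have h4 : (1 / 2 : ℝ) ^ j * P.E (fun w => ind ((1 / 2 : ℝ) ^ (j + 1) ≤ Zn P K mem T n w)) =
          2 * ((1 / 2 : ℝ) ^ (j + 1) * P.E (fun w => ind ((1 / 2 : ℝ) ^ (j + 1) ≤ Zn P K mem T n w))) := by
        rw [e]; ring
      rw [h4]
      exact mul_le_mul_of_nonneg_left h3 (by norm_num)
    calc _ ≤ ∑ j ∈ range J, 2 * p := Finset.sum_le_sum h2
      _ = 2 * p * J := by rw [Finset.sum_const, card_range, nsmul_eq_mul]; ring
  rcases eq_or_lt_of_le hp0 with h0 | h0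
  · -- p = 0
    rw [← h0, zero_mul, mul_zero]
    refine le_of_forall_pos_le_add fun e he => ?_
    obtain ⟨J, hJe⟩ := exists_pow_lt_of_lt_one he (by norm_num : (1 / 2 : ℝ) < 1)
    have := hJ J
    rw [← h0] at this
    simp only [mul_zero, zero_mul, add_zero] at this
    linarith
  · set x := Real.log (1 / p) / Real.log 2 with hx
    have hlog2 : 0 < Real.log 2 := Real.log_pos (by norm_num)
    have hx0 : 0 ≤ x := div_nonneg (Real.log_nonneg (by rw [le_div_iff₀ h0]; linarith)) hlog2.le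
    have hJx := hJ ⌈x⌉₊
    have hc1 : x ≤ ⌈x⌉₊ := Nat.le_ceil x
    have hc2 : (⌈x⌉₊ : ℝ) < x + 1 := Nat.ceil_lt_add_one hx0
    have hpow : (1 / 2 : ℝ) ^ (⌈x⌉₊) ≤ p := by
      rw [one_div, inv_pow]
      rw [inv_le_comm₀ (by positivity) h0]
      have e1 : p⁻¹ = Real.exp (Real.log 2 * x) := by
        rw [hx, mul_div_cancel₀ _ hlog2.ne', one_div, Real.exp_log (by positivity)]
      have e2 : (2 : ℝ) ^ (⌈x⌉₊) = Real.exp (Real.log 2 * ⌈x⌉₊) := by
        rw [mul_comm, Real.exp_nat_mul, Real.exp_log (by norm_num)]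
      rw [e1, e2]
      exact Real.exp_le_exp.2 (mul_le_mul_of_nonneg_left hc1 hlog2.le)
    have hl : 2 * x ≤ 3 * Real.log (1 / p) := by
      have h69 : (0.6931471803 : ℝ) < Real.log 2 := Real.log_two_gt_d9
      have hln : 0 ≤ Real.log (1 / p) := Real.log_nonneg (by rw [le_div_iff₀ h0]; linarith)
      rw [hx, ← mul_div_assoc, div_le_iff₀ hlog2]
      nlinarith
    have : P.E (Zn P K mem T n) ≤ p + 2 * p * (x + 1) := by
      refine hJx.trans (add_le_add hpow (mul_le_mul_of_nonneg_left hc2.le (by positivity)))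
    nlinarith

/-- `x log (1/x) ≤ x H + e^(-H)` -/
theorem mul_log_inv_le {x : ℝ} (hx : 0 ≤ x) (H : ℝ) : x * Real.log (1 / x) ≤ x * H + Real.exp (-H) := by
  rcases eq_or_lt_of_le hx with h | h
  · rw [← h]; simp; positivity
  · have h1 := Real.log_le_sub_one_of_pos (x := Real.exp (-H) / x) (by positivity)
    rw [Real.log_div (Real.exp_pos _).ne' h.ne', Real.log_exp] at h1
    have h2 : x * (-H - Real.log x) ≤ x * (Real.exp (-H) / x - 1) := mul_le_mul_of_nonneg_left h1 hx
    have h3 : x * (Real.exp (-H) / x - 1) = Real.exp (-H) - x := by field_simp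
    rw [one_div, Real.log_inv]
    linarith

/-- the mean size of the record -/
theorem rec_size (hK : Filt K) (hm : ∀ i w n, mem i w n → mem (i + 1) w n) {Rr : ℝ} (hR : 0 ≤ Rr) {g : ℕ} (T : ℕ)
    {H n0 : ℝ} (hH0 : 0 ≤ H) (hH : (Fintype.card R : ℝ) ≤ Real.exp H)
    (hn : ∑ n : R, P.Pr (fun w => mem T w n) ≤ n0) :
    (coins R g).E (fun c => P.E (fun w => ∑ n : R, ind (rc P K mem Rr (c n).1 T n w))) ≤
      3 * Rr * (n0 * (1 + H) + 1) := by
  have h1 : (coins R g).E (fun c => P.E (fun w => ∑ n : R, ind (rc P K mem Rr (c n).1 T n w))) =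
      P.E (fun w => (coins R g).E (fun c => ∑ n : R, ind (rc P K mem Rr (c n).1 T n w))) := by
    rw [FP.E_swap]
  rw [h1]
  have h2 : P.E (fun w => (coins R g).E (fun c => ∑ n : R, ind (rc P K mem Rr (c n).1 T n w))) ≤
      P.E (fun w => Rr * ∑ n : R, Zn P K mem T n w) := P.E_mono fun w _ => rec_count hR T w
  rw [P.E_smul, P.E_sum] at h2
  refine h2.trans ?_
  have h3 : ∑ n : R, P.E (fun w => Zn P K mem T n w) ≤ 3 * (n0 * (1 + H) + 1) := by
    calc ∑ n : R, P.E (fun w => Zn P K mem T n w)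
        ≤ ∑ n : R, 3 * (P.Pr (fun w => mem T w n) * (1 + H) + Real.exp (-H)) := by
          refine Finset.sum_le_sum fun n _ => (E_Zn_le hK hm T n).trans ?_
          have := mul_log_inv_le (P.Pr_nonneg (fun w => mem T w n)) H
          nlinarith
      _ = 3 * ((∑ n : R, P.Pr (fun w => mem T w n)) * (1 + H) + Fintype.card R * Real.exp (-H)) := by
          rw [← Finset.mul_sum, Finset.sum_add_distrib, ← Finset.sum_mul, Finset.sum_const, card_univ, nsmul_eq_mul]
      _ ≤ 3 * (n0 * (1 + H) + 1) := by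
          have h4 : (Fintype.card R : ℝ) * Real.exp (-H) ≤ 1 := by
            rw [Real.exp_neg]
            rw [← div_eq_mul_inv, div_le_one (Real.exp_pos _)]
            exact hH
          have h5 := mul_le_mul_of_nonneg_right hn (by linarith : (0 : ℝ) ≤ 1 + H)
          linarith
  calc Rr * ∑ n : R, P.E (fun w => Zn P K mem T n w) ≤ Rr * (3 * (n0 * (1 + H) + 1)) :=
        mul_le_mul_of_nonneg_left h3 hR
    _ = _ := by ring

end

end Pool.Agent.GMN
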