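import Pool.Agent.GM.Sys
import Pool.Agent.GMN.Size

/-!
# GMN/Near (helper42): near cells of the hidden vertex, counts, weak type bound (row N, records without the cell of `x_u`)

`u` = reference owner, `v` = hidden vertex, `oth u v` = all other vertices (their exact values are given).
* `Cmp S v t g x β` : the cell `β` of `v` is compatible with the exact values of the vertices but `v` and the node `g`;
* `Nr S u v t g x β` : NEAR: compatible for some value of `x_u` which is compatible with the vertices but `u` and the node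
  (a function of the vertices but `u`);  `Cmp_dep`, `Nr_dep`, `Nr_of_Cmp`, `Cmp_mono`, `Nr_mono`, `Cmp_par`, `Nr_par`;
* `cnt1`, `cnt2` : `P(.., β compatible) ≤ K P(.., x_v ∈ β)`, `P(.., β near) ≤ K ^ 2 P(.., x_v ∈ β)`;
  `near_sum`, `cmp_sum` : the same for a selection `Q` of (node, cell), coins given;
* `den S v t E x β` : the proportion of the full cell `β` of `x_v` on which `E` holds; `den_mass`, `edge1`
  (`P(E | exact vertices but v, node) ≤ K max den` over the compatible cells);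
* `weak` : for a cumulative event `E` of the face `u` : `lam P(some near cell has den ≥ lam up to time T) ≤ K^2 P(E at T)`,
  `lam` and weights any functions of (coins, other vertices);
* `Mx` : the running maximum of `den` over the near cells;  `E_Mx`, `E_Mx_log`, `sum_Mx`.
-/

set_option autoImplicit false
set_option linter.unusedSectionVars false

namespace Pool.Agent.GMN.Near

open Finset Pool.Agent.PWZ Pool.Agent.M3 Pool.Agent.M3.TS Pool.Agent.GM

noncomputable section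

/-! ### general facts -/

section gen

variable {Om : Type*} [Fintype Om] (P : FP Om)

/-- sum over the values of a function -/
theorem E_img {α : Type*} [DecidableEq α] (X : Om → α) (f : Om → ℝ) :
    P.E f = ∑ a ∈ univ.image X, P.E (fun w => ind (X w = a) * f w) := by
  rw [← P.E_sum]
  refine P.E_congr fun w _ => ?_
  rw [Finset.sum_eq_single (X w)]
  · rw [ind_of rfl, one_mul]
  · intro a _ ha
    rw [ind_not fun h => ha h.symm, zero_mul]
  · exact fun h => absurd (Finset.mem_image_of_mem _ (mem_univ w)) h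

theorem Pr_img {α : Type*} [DecidableEq α] (X : Om → α) (s : Om → Prop) :
    P.Pr s = ∑ a ∈ univ.image X, P.Pr (fun w => X w = a ∧ s w) := by
  unfold FP.Pr
  rw [E_img P X]
  refine Finset.sum_congr rfl fun a _ => P.E_congr fun w _ => (ind_and _ _).symm

/-- mean from a weak type bound and the probability of being positive -/
theorem E_weak {M f : Om → ℝ} (hM : ∀ w, M w ≤ 1) (hf : ∀ w, 0 ≤ f w) {A π : ℝ} (hA : 0 ≤ A)
    (hw : ∀ lam : ℝ, 0 < lam → lam * P.E (fun w => f w * ind (lam ≤ M w)) ≤ A)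
    (hπ : P.E (fun w => f w * ind (0 < M w)) ≤ π) {H : ℝ} (hH : 0 ≤ H) :
    P.E (fun w => f w * M w) ≤ 3 * A * (1 + H) + π * Real.exp (-H) := by
  have hJ : ∀ J : ℕ, P.E (fun w => f w * M w) ≤ 2 * A * J + (1 / 2 : ℝ) ^ J * π := by
    intro J
    have h1 : P.E (fun w => f w * M w) ≤ P.E (fun w => (1 / 2 : ℝ) ^ J * (f w * ind (0 < M w)) +
        ∑ j ∈ range J, (1 / 2 : ℝ) ^ j * (f w * ind ((1 / 2 : ℝ) ^ (j + 1) ≤ M w))) := by
      refine P.E_mono fun w _ => ?_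
      by_cases h0 : 0 < M w
      · have h2 := mul_le_mul_of_nonneg_left (dyadic_le (hM w) J) (hf w)
        refine h2.trans (le_of_eq ?_)
        rw [ind_of h0, mul_add, Finset.mul_sum, mul_one, mul_comm (f w)]
        congr 1
        exact Finset.sum_congr rfl fun j _ => by ring
      · have h3 : 0 ≤ ∑ j ∈ range J, (1 / 2 : ℝ) ^ j * (f w * ind ((1 / 2 : ℝ) ^ (j + 1) ≤ M w)) :=
          Finset.sum_nonneg fun j _ => mul_nonneg (by positivity) (mul_nonneg (hf w) (ind_nonneg _))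
        rw [ind_not h0, mul_zero, mul_zero, zero_add]
        exact (mul_nonpos_of_nonneg_of_nonpos (hf w) (not_lt.1 h0)).trans h3
    rw [P.E_add, P.E_smul, P.E_sum] at h1
    refine h1.trans ?_
    rw [add_comm]
    refine add_le_add ?_ (mul_le_mul_of_nonneg_left hπ (by positivity))
    calc ∑ j ∈ range J, P.E (fun w => (1 / 2 : ℝ) ^ j * (f w * ind ((1 / 2 : ℝ) ^ (j + 1) ≤ M w)))
        ≤ ∑ _j ∈ range J, 2 * A := by
          refine Finset.sum_le_sum fun j _ => ?_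
          rw [P.E_smul]
          have h2 := hw ((1 / 2 : ℝ) ^ (j + 1)) (by positivity)
          rw [pow_succ] at h2 ⊢
          linarith
      _ = 2 * A * J := by rw [Finset.sum_const, card_range, nsmul_eq_mul]; ring
  have hπ0 : 0 ≤ π := le_trans (P.E_nonneg fun w _ => mul_nonneg (hf w) (ind_nonneg _)) hπ
  have hlog2 : 0 < Real.log 2 := Real.log_pos (by norm_num)
  have h69 : (0.6931471803 : ℝ) < Real.log 2 := Real.log_two_gt_d9
  set x := H / Real.log 2 with hx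
  have hx0 : 0 ≤ x := div_nonneg hH hlog2.le
  have h1 := hJ ⌈x⌉₊
  have hc1 : x ≤ ⌈x⌉₊ := Nat.le_ceil x
  have hc2 : (⌈x⌉₊ : ℝ) < x + 1 := Nat.ceil_lt_add_one hx0
  have hpow : (1 / 2 : ℝ) ^ (⌈x⌉₊) ≤ Real.exp (-H) := by
    rw [one_div, inv_pow, Real.exp_neg]
    refine inv_anti₀ (Real.exp_pos H) ?_
    have e1 : Real.exp H = Real.exp (Real.log 2 * x) := by
      rw [hx, mul_div_cancel₀ _ hlog2.ne']
    have e2 : (2 : ℝ) ^ (⌈x⌉₊) = Real.exp (Real.log 2 * ⌈x⌉₊) := by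
      rw [mul_comm, Real.exp_nat_mul, Real.exp_log (by norm_num)]
    rw [e1, e2]
    exact Real.exp_le_exp.2 (mul_le_mul_of_nonneg_left hc1 hlog2.le)
  have hl : 2 * x ≤ 3 * H := by
    rw [hx, ← mul_div_assoc, div_le_iff₀ hlog2]
    nlinarith
  have h2 : 2 * A * (⌈x⌉₊ : ℝ) ≤ 3 * A * (1 + H) := by
    have h3 : 2 * (⌈x⌉₊ : ℝ) ≤ 3 * (1 + H) := by linarith
    calc 2 * A * (⌈x⌉₊ : ℝ) = A * (2 * (⌈x⌉₊ : ℝ)) := by ring
      _ ≤ A * (3 * (1 + H)) := mul_le_mul_of_nonneg_left h3 hA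
      _ = _ := by ring
  have h4 : (1 / 2 : ℝ) ^ (⌈x⌉₊) * π ≤ π * Real.exp (-H) := by
    rw [mul_comm]
    exact mul_le_mul_of_nonneg_left hpow hπ0
  linarith

/-- the optimal `H` -/
theorem E_weak_log {M f : Om → ℝ} (hM : ∀ w, M w ≤ 1) (hf : ∀ w, 0 ≤ f w) {A π : ℝ} (hA : 0 < A) (hAπ : A ≤ π)
    (hw : ∀ lam : ℝ, 0 < lam → lam * P.E (fun w => f w * ind (lam ≤ M w)) ≤ A)
    (hπ : P.E (fun w => f w * ind (0 < M w)) ≤ π) :
    P.E (fun w => f w * M w) ≤ 4 * A * (1 + Real.log (π / A)) := by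
  have h1 : 1 ≤ π / A := by rw [le_div_iff₀ hA]; linarith
  have h2 := E_weak P hM hf hA.le hw hπ (Real.log_nonneg h1)
  have h3 : π * Real.exp (-Real.log (π / A)) = A := by
    rw [Real.exp_neg, Real.exp_log (by linarith)]
    have : π ≠ 0 := by linarith
    field_simp
  rw [h3] at h2
  have h4 : 0 ≤ A * Real.log (π / A) := mul_nonneg hA.le (Real.log_nonneg h1)
  linarith

end gen

variable {ι Om Ξ Pt V Γ κ : Type} [Fintype ι] [DecidableEq ι] [Fintype Om] [Fintype Ξ] [Fintype Pt]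
  [Fintype V] (S : Sys ι Om Ξ Pt V Γ κ)

/-! ### compatible cells and near cells -/

/-- all vertices but `u` and `v` -/
def oth (u v : ι) : Finset ι := (univ.erase u).erase v

/-- the cell `β` of the vertex `v` is compatible with the exact values of the others and the node -/
def Cmp (v : ι) (t : ℕ) (g : Γ) (x : ι → Pt) (β : κ) : Prop :=
  ∃ w, (∀ j, j ≠ v → S.x w j = x j) ∧ S.gm t w = g ∧ S.cl t (S.x w v) = β

/-- NEAR cells of `v` for the owner `u` -/
def Nr (u v : ι) (t : ℕ) (g : Γ) (x : ι → Pt) (β : κ) : Prop :=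
  ∃ w, (∀ j, j ≠ u → S.x w j = x j) ∧ S.gm t w = g ∧ Cmp S v t g (S.x w) β

omit [Fintype Om] [Fintype Ξ] [Fintype Pt] [Fintype V] in
theorem mem_oth {u v i : ι} : i ∈ oth u v ↔ i ≠ v ∧ i ≠ u := by
  unfold oth
  rw [mem_erase, mem_erase]
  simp

omit [Fintype Om] [Fintype Ξ] [Fintype Pt] [Fintype V] in
theorem oth_ne (u v : ι) : oth u v ≠ univ := by
  intro h
  have h1 : v ∈ oth u v := by rw [h]; exact mem_univ v
  exact (mem_oth.1 h1).1 rfl

omit [Fintype Om] [Fintype Ξ] [Fintype Pt] [Fintype V] in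
theorem insert_oth_ne {u v : ι} (huv : u ≠ v) : insert v (oth u v) ≠ univ := by
  intro h
  have h1 : u ∈ insert v (oth u v) := by rw [h]; exact mem_univ u
  rcases mem_insert.1 h1 with h2 | h2
  · exact huv h2
  · exact (mem_oth.1 h2).2 rfl

theorem Cmp_dep (v : ι) (t : ℕ) (g : Γ) (β : κ) : Dep (univ.erase v) (fun x => Cmp S v t g x β) := by
  intro x y hxy
  apply propext
  refine exists_congr fun w => and_congr_left fun _ => forall_congr' fun j => forall_congr' fun hj => ?_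
  rw [hxy j (mem_erase.2 ⟨hj, mem_univ j⟩)]

theorem Nr_dep (u v : ι) (t : ℕ) (g : Γ) (β : κ) : Dep (univ.erase u) (fun x => Nr S u v t g x β) := by
  intro x y hxy
  apply propext
  refine exists_congr fun w => and_congr_left fun _ => forall_congr' fun j => forall_congr' fun hj => ?_
  rw [hxy j (mem_erase.2 ⟨hj, mem_univ j⟩)]

theorem Cmp_self (v : ι) (t : ℕ) (w : Om) : Cmp S v t (S.gm t w) (S.x w) (S.cl t (S.x w v)) :=
  ⟨w, fun _ _ => rfl, rfl, rfl⟩

theorem Nr_of_Cmp (u v : ι) {t : ℕ} {w : Om} {β : κ} (h : Cmp S v t (S.gm t w) (S.x w) β) :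
    Nr S u v t (S.gm t w) (S.x w) β := ⟨w, fun _ _ => rfl, rfl, h⟩

theorem Nr_self (u v : ι) (t : ℕ) (w : Om) : Nr S u v t (S.gm t w) (S.x w) (S.cl t (S.x w v)) :=
  Nr_of_Cmp S u v (Cmp_self S v t w)

theorem Cmp_img {v : ι} {t : ℕ} {g : Γ} {x : ι → Pt} {β : κ} (h : Cmp S v t g x β) : ∃ w, S.cl t (S.x w v) = β := by
  obtain ⟨w, _, _, h3⟩ := h
  exact ⟨w, h3⟩

theorem Nr_img {u v : ι} {t : ℕ} {g : Γ} {x : ι → Pt} {β : κ} (h : Nr S u v t g x β) : ∃ w, S.cl t (S.x w v) = β := by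
  obtain ⟨_, _, _, h3⟩ := h
  exact Cmp_img S h3

theorem Cmp_mono {v : ι} {t s : ℕ} (hs : s ≤ t) {x : ι → Pt} {w : Om} {b : Pt}
    (h : Cmp S v t (S.gm t w) x (S.cl t b)) : Cmp S v s (S.gm s w) x (S.cl s b) := by
  obtain ⟨w', h1, h2, h3⟩ := h
  exact ⟨w', h1, S.gm_le hs h2, S.cl_le hs h3⟩

theorem Nr_mono {u v : ι} {t s : ℕ} (hs : s ≤ t) {x : ι → Pt} {w : Om} {b : Pt}
    (h : Nr S u v t (S.gm t w) x (S.cl t b)) : Nr S u v s (S.gm s w) x (S.cl s b) := by
  obtain ⟨w', h1, h2, h3⟩ := h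
  exact ⟨w', h1, S.gm_le hs h2, Cmp_mono S hs h3⟩

theorem Cmp_par {v : ι} {t : ℕ} {g : Γ} {x : ι → Pt} {b : Pt} (h : Cmp S v (t + 1) g x (S.cl (t + 1) b)) :
    Cmp S v t (S.par t g) x (S.cl t b) := by
  obtain ⟨w', h1, h2, h3⟩ := h
  exact ⟨w', h1, by rw [← S.par_gm, h2], S.nest t _ _ h3⟩

theorem Nr_par {u v : ι} {t : ℕ} {g : Γ} {x : ι → Pt} {b : Pt} (h : Nr S u v (t + 1) g x (S.cl (t + 1) b)) :
    Nr S u v t (S.par t g) x (S.cl t b) := by
  obtain ⟨w', h1, h2, h3⟩ := h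
  exact ⟨w', h1, by rw [← S.par_gm, h2], Cmp_par S h3⟩

/-! ### the counts -/

/-- compatible cells, the vertex `u` is free -/
theorem cnt1 {u v : ι} (huv : u ≠ v) (t : ℕ) (g : Γ) (y : ι → Pt) (β : κ) :
    S.P.Pr (fun w => (∀ i ∈ oth u v, S.x w i = y i) ∧ S.gm t w = g ∧ Cmp S v t g (S.x w) β) ≤
      S.K * S.P.Pr (fun w => (∀ i ∈ oth u v, S.x w i = y i) ∧ S.gm t w = g ∧ S.cl t (S.x w v) = β) := by
  have h1 := S.cnt t g (oth u v) y v β (fun h => (mem_oth.1 h).1 rfl) ⟨u, huv, fun h => (mem_oth.1 h).2 rfl⟩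
  refine le_trans (S.P.Pr_mono fun w _ => ?_) h1
  rintro ⟨h2, h3, w', h4, h5, h6⟩
  refine ⟨h2, h3, w', fun i hi => ?_, h6, fun i _ hi => ?_, h5⟩
  · rw [h4 i (mem_oth.1 hi).1, h2 i hi]
  · rw [h4 i hi]

/-- **near cells** -/
theorem cnt2 {u v : ι} (huv : u ≠ v) (t : ℕ) (g : Γ) (y : ι → Pt) (β : κ) :
    S.P.Pr (fun w => (∀ i ∈ oth u v, S.x w i = y i) ∧ S.gm t w = g ∧ Nr S u v t g (S.x w) β) ≤
      S.K ^ 2 * S.P.Pr (fun w => (∀ i ∈ oth u v, S.x w i = y i) ∧ S.gm t w = g ∧ S.cl t (S.x w v) = β) := by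
  classical
  have hK0 : 0 ≤ S.K := zero_le_one.trans S.K1
  set cp : κ → Prop := fun α => ∃ w'', (∀ i ∈ oth u v, S.x w'' i = y i) ∧ S.gm t w'' = g ∧
    S.cl t (S.x w'' u) = α ∧ S.cl t (S.x w'' v) = β with hcp
  have hu : u ∉ oth u v := fun h => (mem_oth.1 h).2 rfl
  have hv : v ∉ oth u v := fun h => (mem_oth.1 h).1 rfl
  set A : Finset κ := univ.image (fun w : Om => S.cl t (S.x w u)) with hA
  -- first step
  have h1 : S.P.Pr (fun w => (∀ i ∈ oth u v, S.x w i = y i) ∧ S.gm t w = g ∧ Nr S u v t g (S.x w) β) ≤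
      ∑ α ∈ A, S.P.Pr (fun w => cp α ∧ (∀ i ∈ oth u v, S.x w i = y i) ∧ S.gm t w = g ∧
        ∃ w', (∀ i ∈ oth u v, S.cl t (S.x w' i) = S.cl t (y i)) ∧ S.cl t (S.x w' u) = α ∧
          (∀ i, i ∉ oth u v → i ≠ u → S.cl t (S.x w' i) = S.cl t (S.x w i)) ∧ S.gm t w' = g) := by
    refine le_trans (S.P.Pr_mono fun w _ => ?_) (S.P.Pr_ex_le A _)
    rintro ⟨h2, h3, w', h4, h5, w'', h6, h7, h8⟩
    refine ⟨S.cl t (S.x w' u), mem_image_of_mem _ (mem_univ w'), ⟨w'', fun i hi => ?_, h7, ?_, h8⟩, h2, h3, w',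
      fun i hi => ?_, rfl, fun i _ hi => ?_, h5⟩
    · rw [h6 i (mem_oth.1 hi).1, h4 i (mem_oth.1 hi).2, h2 i hi]
    · rw [h6 u huv]
    · rw [h4 i (mem_oth.1 hi).2, h2 i hi]
    · rw [h4 i hi]
  have h2 : ∀ α ∈ A, S.P.Pr (fun w => cp α ∧ (∀ i ∈ oth u v, S.x w i = y i) ∧ S.gm t w = g ∧
        ∃ w', (∀ i ∈ oth u v, S.cl t (S.x w' i) = S.cl t (y i)) ∧ S.cl t (S.x w' u) = α ∧
          (∀ i, i ∉ oth u v → i ≠ u → S.cl t (S.x w' i) = S.cl t (S.x w i)) ∧ S.gm t w' = g) ≤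
      S.K * S.P.Pr (fun w => S.cl t (S.x w u) = α ∧ cp (S.cl t (S.x w u)) ∧ (∀ i ∈ oth u v, S.x w i = y i) ∧
        S.gm t w = g) := by
    intro α _
    by_cases hα : cp α
    · have h3 := S.cnt t g (oth u v) y u α hu ⟨v, huv.symm, hv⟩
      refine le_trans (S.P.Pr_mono fun w _ h => h.2) (h3.trans (mul_le_mul_of_nonneg_left ?_ hK0))
      refine S.P.Pr_mono fun w _ h => ⟨h.2.2, ?_, h.1, h.2.1⟩
      rw [h.2.2]
      exact hα
    · rw [Mod.Pr_none _ (by
        rintro w ⟨h, _⟩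
        exact hα h)]
      exact mul_nonneg hK0 (FP.Pr_nonneg _ _)
  have h3 : ∑ α ∈ A, S.K * S.P.Pr (fun w => S.cl t (S.x w u) = α ∧ cp (S.cl t (S.x w u)) ∧
      (∀ i ∈ oth u v, S.x w i = y i) ∧ S.gm t w = g) =
      S.K * S.P.Pr (fun w => cp (S.cl t (S.x w u)) ∧ (∀ i ∈ oth u v, S.x w i = y i) ∧ S.gm t w = g) := by
    rw [← Finset.mul_sum, Pr_img S.P (fun w => S.cl t (S.x w u)) (fun w => cp (S.cl t (S.x w u)) ∧
      (∀ i ∈ oth u v, S.x w i = y i) ∧ S.gm t w = g)]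
  -- second step
  have h4 : S.P.Pr (fun w => cp (S.cl t (S.x w u)) ∧ (∀ i ∈ oth u v, S.x w i = y i) ∧ S.gm t w = g) ≤
      S.K * S.P.Pr (fun w => (∀ i ∈ oth u v, S.x w i = y i) ∧ S.gm t w = g ∧ S.cl t (S.x w v) = β) := by
    have h5 := S.cnt t g (oth u v) y v β hv ⟨u, huv, hu⟩
    refine le_trans (S.P.Pr_mono fun w _ => ?_) h5
    rintro ⟨⟨w'', h6, h7, h8, h9⟩, h10, h11⟩
    refine ⟨h10, h11, w'', fun i hi => by rw [h6 i hi], h9, fun i hi hiv => ?_, h7⟩
    have h12 : i = u := by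
      by_contra h13
      exact hi (mem_oth.2 ⟨hiv, h13⟩)
    rw [h12]
    exact h8
  calc _ ≤ _ := h1
    _ ≤ _ := Finset.sum_le_sum h2
    _ = _ := h3
    _ ≤ S.K * (S.K * S.P.Pr (fun w => (∀ i ∈ oth u v, S.x w i = y i) ∧ S.gm t w = g ∧ S.cl t (S.x w v) = β)) :=
        mul_le_mul_of_nonneg_left h4 hK0
    _ = _ := by ring

/-- the coins are independent of the vertices and the node -/
theorem Pr_xi (t : ℕ) (ξ : Ξ) (C : (ι → Pt) → Γ → Prop) :
    S.P.Pr (fun w => S.xi w = ξ ∧ C (S.x w) (S.gm t w)) = S.P.Pr (fun w => C (S.x w) (S.gm t w)) / Fintype.card Ξ := by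
  classical
  rw [Pr_img S.P (fun w => (S.x w, S.gm t w)), Pr_img S.P (fun w => (S.x w, S.gm t w)), Finset.sum_div]
  refine Finset.sum_congr rfl fun p _ => ?_
  by_cases hC : C p.1 p.2
  · have h1 := S.lxi t p.2 ξ p.1
    have h2 : S.P.Pr (fun w => (S.x w, S.gm t w) = p ∧ S.xi w = ξ ∧ C (S.x w) (S.gm t w)) =
        S.P.Pr (fun w => S.xi w = ξ ∧ S.x w = p.1 ∧ S.gm t w = p.2) := by
      refine S.P.Pr_congr fun w _ => ?_
      rw [Prod.ext_iff]
      constructor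
      · rintro ⟨⟨h3, h4⟩, h5, _⟩
        exact ⟨h5, h3, h4⟩
      · rintro ⟨h5, h3, h4⟩
        exact ⟨⟨h3, h4⟩, h5, by rw [h3, h4]; exact hC⟩
    have h3 : S.P.Pr (fun w => (S.x w, S.gm t w) = p ∧ C (S.x w) (S.gm t w)) =
        S.P.Pr (fun w => S.x w = p.1 ∧ S.gm t w = p.2) := by
      refine S.P.Pr_congr fun w _ => ?_
      rw [Prod.ext_iff]
      constructor
      · rintro ⟨⟨h3, h4⟩, _⟩
        exact ⟨h3, h4⟩
      · rintro ⟨h3, h4⟩
        exact ⟨⟨h3, h4⟩, by rw [h3, h4]; exact hC⟩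
    rw [h2, h3, h1]
  · rw [Mod.Pr_none _ (by
      rintro w ⟨h1, -, h2⟩
      have h3 := Prod.ext_iff.1 h1
      refine hC ?_
      rw [← h3.1, ← h3.2]
      exact h2), Mod.Pr_none _ (by
      rintro w ⟨h1, h2⟩
      have h3 := Prod.ext_iff.1 h1
      refine hC ?_
      rw [← h3.1, ← h3.2]
      exact h2), zero_div]

/-- general form: a relation between (vertices, node) and cells of `v` which is counted at every node -/
theorem sel_sum {u v : ι} (t : ℕ) (R : Γ → (ι → Pt) → κ → Prop) {k0 : ℝ}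
    (himg : ∀ g x β, R g x β → ∃ w, S.cl t (S.x w v) = β) (y : ι → Pt)
    (hcnt : ∀ g β, S.P.Pr (fun w => (∀ i ∈ oth u v, S.x w i = y i) ∧ S.gm t w = g ∧ R g (S.x w) β) ≤
      k0 * S.P.Pr (fun w => (∀ i ∈ oth u v, S.x w i = y i) ∧ S.gm t w = g ∧ S.cl t (S.x w v) = β))
    (ξ : Ξ) (Q : Γ → κ → Prop) :
    S.P.Pr (fun w => S.xi w = ξ ∧ (∀ i ∈ oth u v, S.x w i = y i) ∧ ∃ β, R (S.gm t w) (S.x w) β ∧ Q (S.gm t w) β) ≤
      k0 * S.P.Pr (fun w => S.xi w = ξ ∧ (∀ i ∈ oth u v, S.x w i = y i) ∧ Q (S.gm t w) (S.cl t (S.x w v))) := by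
  classical
  have e1 := Pr_xi S t ξ (fun x g => (∀ i ∈ oth u v, x i = y i) ∧ ∃ β, R g x β ∧ Q g β)
  have e2 := Pr_xi S t ξ (fun x g => (∀ i ∈ oth u v, x i = y i) ∧ Q g (S.cl t (x v)))
  rw [e1, e2, ← mul_div_assoc]
  refine div_le_div_of_nonneg_right ?_ (Nat.cast_nonneg _)
  set B : Finset κ := univ.image (fun w : Om => S.cl t (S.x w v)) with hB
  have h1 : ∀ g, S.P.Pr (fun w => S.gm t w = g ∧ (∀ i ∈ oth u v, S.x w i = y i) ∧
      ∃ β, R (S.gm t w) (S.x w) β ∧ Q (S.gm t w) β) ≤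
      k0 * S.P.Pr (fun w => S.gm t w = g ∧ (∀ i ∈ oth u v, S.x w i = y i) ∧ Q (S.gm t w) (S.cl t (S.x w v))) := by
    intro g
    have h2 : S.P.Pr (fun w => S.gm t w = g ∧ (∀ i ∈ oth u v, S.x w i = y i) ∧
        ∃ β, R (S.gm t w) (S.x w) β ∧ Q (S.gm t w) β) ≤
        ∑ β ∈ B, S.P.Pr (fun w => Q g β ∧ (∀ i ∈ oth u v, S.x w i = y i) ∧ S.gm t w = g ∧ R g (S.x w) β) := by
      refine le_trans (S.P.Pr_mono fun w _ => ?_) (S.P.Pr_ex_le B _)
      rintro ⟨h3, h4, β, h5, h6⟩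
      rw [h3] at h5 h6
      obtain ⟨w0, h7⟩ := himg g _ β h5
      exact ⟨β, mem_image.2 ⟨w0, mem_univ w0, h7⟩, h6, h4, h3, h5⟩
    refine h2.trans ?_
    rw [Pr_img S.P (fun w => S.cl t (S.x w v)) (fun w => S.gm t w = g ∧ (∀ i ∈ oth u v, S.x w i = y i) ∧
      Q (S.gm t w) (S.cl t (S.x w v))), Finset.mul_sum]
    refine Finset.sum_le_sum fun β _ => ?_
    by_cases hQ : Q g β
    · have h3 : S.P.Pr (fun w => Q g β ∧ (∀ i ∈ oth u v, S.x w i = y i) ∧ S.gm t w = g ∧ R g (S.x w) β) =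
          S.P.Pr (fun w => (∀ i ∈ oth u v, S.x w i = y i) ∧ S.gm t w = g ∧ R g (S.x w) β) :=
        S.P.Pr_congr fun w _ => ⟨fun h => h.2, fun h => ⟨hQ, h⟩⟩
      have h4 : S.P.Pr (fun w => S.cl t (S.x w v) = β ∧ S.gm t w = g ∧ (∀ i ∈ oth u v, S.x w i = y i) ∧
          Q (S.gm t w) (S.cl t (S.x w v))) =
          S.P.Pr (fun w => (∀ i ∈ oth u v, S.x w i = y i) ∧ S.gm t w = g ∧ S.cl t (S.x w v) = β) := by
        refine S.P.Pr_congr fun w _ => ?_
        constructor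
        · rintro ⟨a1, a2, a3, _⟩
          exact ⟨a3, a2, a1⟩
        · rintro ⟨a3, a2, a1⟩
          exact ⟨a1, a2, a3, by rw [a1, a2]; exact hQ⟩
      rw [h3, h4]
      exact hcnt g β
    · rw [Mod.Pr_none _ (by
        rintro w ⟨h, _⟩
        exact hQ h), Mod.Pr_none S.P (by
        rintro w ⟨a1, a2, _, a4⟩
        rw [a1, a2] at a4
        exact hQ a4), mul_zero]
  rw [Pr_img S.P (S.gm t) (fun w => (∀ i ∈ oth u v, S.x w i = y i) ∧
    ∃ β, R (S.gm t w) (S.x w) β ∧ Q (S.gm t w) β), Pr_img S.P (S.gm t) (fun w => (∀ i ∈ oth u v, S.x w i = y i) ∧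
    Q (S.gm t w) (S.cl t (S.x w v))), Finset.mul_sum]
  exact Finset.sum_le_sum fun g _ => h1 g

/-- **near cells with a selection of (node, cell)** -/
theorem near_sum {u v : ι} (huv : u ≠ v) (t : ℕ) (ξ : Ξ) (y : ι → Pt) (Q : Γ → κ → Prop) :
    S.P.Pr (fun w => S.xi w = ξ ∧ (∀ i ∈ oth u v, S.x w i = y i) ∧
      ∃ β, Nr S u v t (S.gm t w) (S.x w) β ∧ Q (S.gm t w) β) ≤
      S.K ^ 2 * S.P.Pr (fun w => S.xi w = ξ ∧ (∀ i ∈ oth u v, S.x w i = y i) ∧ Q (S.gm t w) (S.cl t (S.x w v))) :=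
  sel_sum S (u := u) (v := v) t (fun g x β => Nr S u v t g x β) (fun _ _ _ h => Nr_img S h) y
    (fun g β => cnt2 S huv t g y β) ξ Q

/-- compatible cells with a selection of (node, cell) -/
theorem cmp_sum {u v : ι} (huv : u ≠ v) (t : ℕ) (ξ : Ξ) (y : ι → Pt) (Q : Γ → κ → Prop) :
    S.P.Pr (fun w => S.xi w = ξ ∧ (∀ i ∈ oth u v, S.x w i = y i) ∧
      ∃ β, Cmp S v t (S.gm t w) (S.x w) β ∧ Q (S.gm t w) β) ≤
      S.K * S.P.Pr (fun w => S.xi w = ξ ∧ (∀ i ∈ oth u v, S.x w i = y i) ∧ Q (S.gm t w) (S.cl t (S.x w v))) :=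
  sel_sum S (u := u) (v := v) t (fun g x β => Cmp S v t g x β) (fun _ _ _ h => Cmp_img S h) y
    (fun g β => cnt1 S huv t g y β) ξ Q

/-! ### densities in the full cell of `v` -/

/-- the proportion of the full cell `β` of `x_v` on which `E` holds -/
def den (v : ι) (t : ℕ) (E : (ι → Pt) → Prop) (x : ι → Pt) (β : κ) : ℝ :=
  (∑ a : Pt, ind (S.cl t a = β ∧ E (Function.update x v a))) / ∑ a : Pt, ind (S.cl t a = β)

theorem den_nonneg (v : ι) (t : ℕ) (E : (ι → Pt) → Prop) (x : ι → Pt) (β : κ) : 0 ≤ den S v t E x β :=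
  div_nonneg (Finset.sum_nonneg fun _ _ => ind_nonneg _) (Finset.sum_nonneg fun _ _ => ind_nonneg _)

theorem den_le_one (v : ι) (t : ℕ) (E : (ι → Pt) → Prop) (x : ι → Pt) (β : κ) : den S v t E x β ≤ 1 := by
  refine div_le_one_of_le₀ ?_ (Finset.sum_nonneg fun _ _ => ind_nonneg _)
  exact Finset.sum_le_sum fun a _ => ind_mono fun h => h.1

theorem den_dep {u : ι} (v : ι) (t : ℕ) {E : (ι → Pt) → Prop} (hE : Dep (univ.erase u) E) (β : κ) :
    Dep (oth u v) (fun x => den S v t E x β) := by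
  intro x y hxy
  show den S v t E x β = den S v t E y β
  unfold den
  congr 1
  refine Finset.sum_congr rfl fun a _ => ?_
  congr 1
  have h1 : E (Function.update x v a) = E (Function.update y v a) := by
    refine hE _ _ fun j hj => ?_
    by_cases hjv : j = v
    · subst hjv
      rw [Function.update_self, Function.update_self]
    · rw [Function.update_of_ne hjv, Function.update_of_ne hjv]
      exact hxy j (mem_oth.2 ⟨hjv, Finset.ne_of_mem_erase hj⟩)
  rw [h1]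

theorem den_mono (v : ι) (t : ℕ) {E E' : (ι → Pt) → Prop} (h : ∀ x, E x → E' x) (x : ι → Pt) (β : κ) :
    den S v t E x β ≤ den S v t E' x β :=
  div_le_div_of_nonneg_right (Finset.sum_le_sum fun _ _ => ind_mono fun h' => ⟨h'.1, h _ h'.2⟩)
    (Finset.sum_nonneg fun _ _ => ind_nonneg _)

/-- the value of `x_v` is uniform given coins, other vertices, node -/
theorem uni_v {u v : ι} (huv : u ≠ v) (t : ℕ) (g : Γ) (ξ : Ξ) (y : ι → Pt) (C : Pt → Prop) :
    S.P.Pr (fun w => S.xi w = ξ ∧ (∀ i ∈ oth u v, S.x w i = y i) ∧ S.gm t w = g ∧ C (S.x w v)) =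
      S.P.Pr (fun w => S.gm t w = g) / (Fintype.card Ξ * (Fintype.card Pt : ℝ) ^ ((oth u v).card + 1)) *
        ∑ a : Pt, ind (C a) := by
  classical
  have hv : v ∉ oth u v := fun h => (mem_oth.1 h).1 rfl
  rw [Mod.Pr_sum _ (fun w => S.x w v), Finset.mul_sum]
  refine Finset.sum_congr rfl fun a _ => ?_
  by_cases hC : C a
  · have h1 := S.law_set (insert_oth_ne huv) t g ξ (Function.update y v a)
    rw [card_insert_of_notMem hv] at h1
    rw [ind_of hC, mul_one, ← h1]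
    refine S.P.Pr_congr fun w _ => ?_
    constructor
    · rintro ⟨a1, a2, a3, a4, _⟩
      refine ⟨a2, fun j hj => ?_, a4⟩
      rcases mem_insert.1 hj with rfl | hj
      · rw [Function.update_self, a1]
      · rw [Function.update_of_ne (mem_oth.1 hj).1, a3 j hj]
    · rintro ⟨a2, a3, a4⟩
      have a1 : S.x w v = a := by
        have := a3 v (mem_insert_self v _)
        rwa [Function.update_self] at this
      refine ⟨a1, a2, fun j hj => ?_, a4, by rw [a1]; exact hC⟩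
      have := a3 j (mem_insert_of_mem hj)
      rwa [Function.update_of_ne (mem_oth.1 hj).1] at this
  · rw [ind_not hC, mul_zero]
    refine Mod.Pr_none _ ?_
    rintro w ⟨h1, -, -, -, h2⟩
    rw [h1] at h2
    exact hC h2

/-- the mass of `E` in the cell `β` -/
theorem den_mass {u v : ι} (huv : u ≠ v) (t : ℕ) (g : Γ) (ξ : Ξ) (y : ι → Pt) (β : κ) {E : (ι → Pt) → Prop}
    (hE : Dep (univ.erase u) E) :
    S.P.Pr (fun w => S.xi w = ξ ∧ (∀ i ∈ oth u v, S.x w i = y i) ∧ S.gm t w = g ∧ S.cl t (S.x w v) = β ∧ E (S.x w)) =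
      den S v t E y β * S.P.Pr (fun w => S.xi w = ξ ∧ (∀ i ∈ oth u v, S.x w i = y i) ∧ S.gm t w = g ∧
        S.cl t (S.x w v) = β) := by
  have h1 := uni_v S huv t g ξ y (fun a => S.cl t a = β)
  have h2 := uni_v S huv t g ξ y (fun a => S.cl t a = β ∧ E (Function.update y v a))
  have h3 : S.P.Pr (fun w => S.xi w = ξ ∧ (∀ i ∈ oth u v, S.x w i = y i) ∧ S.gm t w = g ∧ S.cl t (S.x w v) = β ∧
      E (S.x w)) = S.P.Pr (fun w => S.xi w = ξ ∧ (∀ i ∈ oth u v, S.x w i = y i) ∧ S.gm t w = g ∧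
        (S.cl t (S.x w v) = β ∧ E (Function.update y v (S.x w v)))) := by
    refine S.P.Pr_congr fun w _ => ?_
    refine and_congr_right fun _ => and_congr_right fun hy => and_congr_right fun _ => and_congr_right fun _ => ?_
    have h4 : E (S.x w) = E (Function.update y v (S.x w v)) := by
      refine hE _ _ fun j hj => ?_
      by_cases hjv : j = v
      · subst hjv
        rw [Function.update_self]
      · rw [Function.update_of_ne hjv]
        exact hy j (mem_oth.2 ⟨hjv, Finset.ne_of_mem_erase hj⟩)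
    rw [h4]
  rw [h3, h1, h2]
  unfold den
  by_cases h0 : ∑ a : Pt, ind (S.cl t a = β) = 0
  · have h4 : ∑ a : Pt, ind (S.cl t a = β ∧ E (Function.update y v a)) = 0 := by
      refine le_antisymm (le_trans (Finset.sum_le_sum fun a _ => ind_mono fun h => h.1) h0.le) ?_
      exact Finset.sum_nonneg fun _ _ => ind_nonneg _
    rw [h0, h4]
    simp
  · field_simp

/-- **mass at exact vertices but `v`** : at most `K` times the maximal density over the compatible cells -/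
theorem edge1 (v : ι) (t : ℕ) (g : Γ) (ξ : Ξ) (y : ι → Pt) (E : (ι → Pt) → Prop) {δ : ℝ} (hδ : 0 ≤ δ)
    (h : ∀ β, Cmp S v t g y β → den S v t E y β ≤ δ) :
    S.P.Pr (fun w => S.xi w = ξ ∧ (∀ i, i ≠ v → S.x w i = y i) ∧ S.gm t w = g ∧ E (S.x w)) ≤
      S.K * δ * S.P.Pr (fun w => S.xi w = ξ ∧ (∀ i, i ≠ v → S.x w i = y i) ∧ S.gm t w = g) := by
  classical
  have hB : ∀ i, i ∉ ({v} : Finset ι) ↔ i ≠ v := fun i => by rw [mem_singleton]
  have h1 := S.edge t g {v} ξ y E δ hδ (fun w' hw' hg => by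
    have hC : Cmp S v t g y (S.cl t (S.x w' v)) := ⟨w', fun j hj => hw' j ((hB j).2 hj), hg, rfl⟩
    have h2 := h _ hC
    have key : ∀ F : (ι → Pt) → Prop, ∑ z : ι → Pt, ind ((∀ i, i ∉ ({v} : Finset ι) → z i = y i) ∧
        (∀ i ∈ ({v} : Finset ι), S.cl t (z i) = S.cl t (S.x w' i)) ∧ F z) =
        ∑ a : Pt, ind (S.cl t a = S.cl t (S.x w' v) ∧ F (Function.update y v a)) := by
      intro F
      refine Finset.sum_bij_ne_zero (fun z _ _ => z v) (fun _ _ _ => mem_univ _) ?_ ?_ ?_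
      · intro z1 _ hz1 z2 _ hz2 he
        have e1 : ∀ z : ι → Pt, ind ((∀ i, i ∉ ({v} : Finset ι) → z i = y i) ∧
            (∀ i ∈ ({v} : Finset ι), S.cl t (z i) = S.cl t (S.x w' i)) ∧ F z) ≠ 0 → ∀ i, i ≠ v → z i = y i := by
          intro z hz i hi
          by_contra hcon
          exact hz (ind_not fun h' => hcon (h'.1 i ((hB i).2 hi)))
        funext i
        by_cases hi : i = v
        · subst hi
          exact he
        · rw [e1 z1 hz1 i hi, e1 z2 hz2 i hi]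
      · intro a _ ha
        have e1 : S.cl t a = S.cl t (S.x w' v) ∧ F (Function.update y v a) := by
          by_contra hcon
          exact ha (ind_not hcon)
        refine ⟨Function.update y v a, mem_univ _, ?_, Function.update_self _ _ _⟩
        rw [ind_of]
        · exact one_ne_zero
        · refine ⟨fun i hi => Function.update_of_ne ((hB i).1 hi) _ _, fun i hi => ?_, e1.2⟩
          rw [mem_singleton] at hi
          subst hi
          rw [Function.update_self]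
          exact e1.1
      · intro z _ hz
        have e1 : (∀ i, i ∉ ({v} : Finset ι) → z i = y i) ∧
            (∀ i ∈ ({v} : Finset ι), S.cl t (z i) = S.cl t (S.x w' i)) ∧ F z := by
          by_contra hcon
          exact hz (ind_not hcon)
        have e2 : Function.update y v (z v) = z := by
          funext i
          by_cases hi : i = v
          · subst hi
            rw [Function.update_self]
          · rw [Function.update_of_ne hi, e1.1 i ((hB i).2 hi)]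
        rw [ind_of e1, ind_of ⟨e1.2.1 v (mem_singleton_self v), by rw [e2]; exact e1.2.2⟩]
    have k1 := key E
    have k2 := key (fun _ => True)
    simp only [and_true] at k2
    rw [k1, k2]
    unfold den at h2
    have h3 : 0 < ∑ a : Pt, ind (S.cl t a = S.cl t (S.x w' v)) := by
      refine lt_of_lt_of_le one_pos ?_
      rw [← ind_of (rfl : S.cl t (S.x w' v) = S.cl t (S.x w' v))]
      exact Finset.single_le_sum (f := fun a => ind (S.cl t a = S.cl t (S.x w' v))) (fun _ _ => ind_nonneg _)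
        (mem_univ (S.x w' v))
    rwa [div_le_iff₀ h3] at h2)
  simp only [hB] at h1
  exact h1

/-! ### the weak type bound -/

section weak

variable {S} {u v : ι} {E : ℕ → Γ → Ξ → (ι → Pt) → Prop}

/-- the density of `E` at the sample point in the cell `β` -/
def dn (S : Sys ι Om Ξ Pt V Γ κ) (v : ι) (E : ℕ → Γ → Ξ → (ι → Pt) → Prop) (t : ℕ) (w : Om) (β : κ) : ℝ :=
  den S v t (E t (S.gm t w) (S.xi w)) (S.x w) β

/-- some near cell has a large density up to time `T` -/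
def big (S : Sys ι Om Ξ Pt V Γ κ) (u v : ι) (E : ℕ → Γ → Ξ → (ι → Pt) → Prop) (lam : ℝ) (T : ℕ) (w : Om) : Prop :=
  ∃ t ≤ T, ∃ β, Nr S u v t (S.gm t w) (S.x w) β ∧ lam ≤ dn S v E t w β

/-- given coins and other vertices -/
theorem weak_fix (huv : u ≠ v) (hdep : ∀ t g ξ, Dep (univ.erase u) (E t g ξ))
    (hmono : ∀ t w, E t (S.gm t w) (S.xi w) (S.x w) → E (t + 1) (S.gm (t + 1) w) (S.xi w) (S.x w))
    (lam : ℝ) (T : ℕ) (ξ : Ξ) (y : ι → Pt) :
    lam * S.P.Pr (fun w => S.xi w = ξ ∧ (∀ i ∈ oth u v, S.x w i = y i) ∧ big S u v E lam T w) ≤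
      S.K ^ 2 * S.P.Pr (fun w => S.xi w = ξ ∧ (∀ i ∈ oth u v, S.x w i = y i) ∧
        E T (S.gm T w) (S.xi w) (S.x w)) := by
  classical
  have hK0 : (0 : ℝ) ≤ S.K ^ 2 := sq_nonneg _
  rcases le_or_gt lam 0 with hl | hl
  · exact (mul_nonpos_of_nonpos_of_nonneg hl (FP.Pr_nonneg _ _)).trans (mul_nonneg hK0 (FP.Pr_nonneg _ _))
  have hmono' : ∀ {s t : ℕ}, s ≤ t → ∀ w, E s (S.gm s w) (S.xi w) (S.x w) → E t (S.gm t w) (S.xi w) (S.x w) := by
    intro s t hst w hw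
    induction t, hst using Nat.le_induction with
    | base => exact hw
    | succ t _ ih => exact hmono t w ih
  -- selected cells
  set sel : ℕ → Γ → κ → Prop := fun t g β => ∃ b, S.cl t b = β ∧ lam ≤ den S v t (E t g ξ) y (S.cl t b) ∧
    ∀ s < t, ¬ lam ≤ den S v s (E s (S2.anc S.par t g s) ξ) y (S.cl s b) with hsel
  have hdn : ∀ t w β, S.xi w = ξ → (∀ i ∈ oth u v, S.x w i = y i) →
      dn S v E t w β = den S v t (E t (S.gm t w) ξ) y β := by
    intro t w β h1 h2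
    unfold dn
    rw [h1]
    exact den_dep S v t (hdep t (S.gm t w) ξ) β _ _ h2
  -- every large point has a selected near cell
  have h1 : S.P.Pr (fun w => S.xi w = ξ ∧ (∀ i ∈ oth u v, S.x w i = y i) ∧ big S u v E lam T w) ≤
      ∑ t ∈ range (T + 1), S.P.Pr (fun w => S.xi w = ξ ∧ (∀ i ∈ oth u v, S.x w i = y i) ∧
        ∃ β, Nr S u v t (S.gm t w) (S.x w) β ∧ sel t (S.gm t w) β) := by
    refine le_trans (S.P.Pr_mono fun w _ => ?_) (S.P.Pr_ex_le _ _)
    rintro ⟨h2, h3, h4⟩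
    have hex : ∃ t, t ≤ T ∧ ∃ β, Nr S u v t (S.gm t w) (S.x w) β ∧ lam ≤ dn S v E t w β := h4
    obtain ⟨h5, β, h6, h7⟩ := Nat.find_spec hex
    set t := Nat.find hex with ht
    refine ⟨t, mem_range.2 (by omega), h2, h3, β, h6, ?_⟩
    obtain ⟨w0, h8⟩ := Nr_img S h6
    refine ⟨S.x w0 v, h8, ?_, fun s hs hcon => ?_⟩
    · rw [h8, ← hdn t w β h2 h3]
      exact h7
    · rw [S.anc_gm hs.le, ← hdn s w _ h2 h3] at hcon
      refine Nat.find_min hex hs ⟨by omega, S.cl s (S.x w0 v), ?_, hcon⟩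
      rw [← h8] at h6
      exact Nr_mono S hs.le h6
  -- the count
  have h2 : ∀ t ∈ range (T + 1), S.P.Pr (fun w => S.xi w = ξ ∧ (∀ i ∈ oth u v, S.x w i = y i) ∧
        ∃ β, Nr S u v t (S.gm t w) (S.x w) β ∧ sel t (S.gm t w) β) ≤
      S.K ^ 2 * S.P.Pr (fun w => S.xi w = ξ ∧ (∀ i ∈ oth u v, S.x w i = y i) ∧
        sel t (S.gm t w) (S.cl t (S.x w v))) := fun t _ => near_sum S huv t ξ y (sel t)
  -- the mass
  have h3 : ∀ t ∈ range (T + 1), lam * S.P.Pr (fun w => S.xi w = ξ ∧ (∀ i ∈ oth u v, S.x w i = y i) ∧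
        sel t (S.gm t w) (S.cl t (S.x w v))) ≤
      S.P.Pr (fun w => S.xi w = ξ ∧ (∀ i ∈ oth u v, S.x w i = y i) ∧
        sel t (S.gm t w) (S.cl t (S.x w v)) ∧ E t (S.gm t w) ξ (S.x w)) := by
    intro t _
    rw [Pr_img S.P (fun w => (S.gm t w, S.cl t (S.x w v))) (fun w => S.xi w = ξ ∧ (∀ i ∈ oth u v, S.x w i = y i) ∧
        sel t (S.gm t w) (S.cl t (S.x w v))), Pr_img S.P (fun w => (S.gm t w, S.cl t (S.x w v)))
        (fun w => S.xi w = ξ ∧ (∀ i ∈ oth u v, S.x w i = y i) ∧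
        sel t (S.gm t w) (S.cl t (S.x w v)) ∧ E t (S.gm t w) ξ (S.x w)), Finset.mul_sum]
    refine Finset.sum_le_sum fun p _ => ?_
    by_cases hp : sel t p.1 p.2
    · have e1 : S.P.Pr (fun w => (S.gm t w, S.cl t (S.x w v)) = p ∧ S.xi w = ξ ∧ (∀ i ∈ oth u v, S.x w i = y i) ∧
          sel t (S.gm t w) (S.cl t (S.x w v))) =
          S.P.Pr (fun w => S.xi w = ξ ∧ (∀ i ∈ oth u v, S.x w i = y i) ∧ S.gm t w = p.1 ∧
            S.cl t (S.x w v) = p.2) := by
        refine S.P.Pr_congr fun w _ => ?_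
        rw [Prod.ext_iff]
        constructor
        · rintro ⟨⟨a1, a2⟩, a3, a4, _⟩
          exact ⟨a3, a4, a1, a2⟩
        · rintro ⟨a3, a4, a1, a2⟩
          exact ⟨⟨a1, a2⟩, a3, a4, by rw [a1, a2]; exact hp⟩
      have e2 : S.P.Pr (fun w => (S.gm t w, S.cl t (S.x w v)) = p ∧ S.xi w = ξ ∧ (∀ i ∈ oth u v, S.x w i = y i) ∧
          sel t (S.gm t w) (S.cl t (S.x w v)) ∧ E t (S.gm t w) ξ (S.x w)) =
          S.P.Pr (fun w => S.xi w = ξ ∧ (∀ i ∈ oth u v, S.x w i = y i) ∧ S.gm t w = p.1 ∧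
            S.cl t (S.x w v) = p.2 ∧ E t p.1 ξ (S.x w)) := by
        refine S.P.Pr_congr fun w _ => ?_
        rw [Prod.ext_iff]
        constructor
        · rintro ⟨⟨a1, a2⟩, a3, a4, _, a6⟩
          have a1' : S.gm t w = p.1 := a1
          rw [a1'] at a6
          exact ⟨a3, a4, a1, a2, a6⟩
        · rintro ⟨a3, a4, a1, a2, a6⟩
          refine ⟨⟨a1, a2⟩, a3, a4, ?_, ?_⟩
          · rw [a1, a2]
            exact hp
          · rw [a1]
            exact a6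
      rw [e1, e2, den_mass S huv t p.1 ξ y p.2 (hdep t p.1 ξ)]
      obtain ⟨b, hb1, hb2, _⟩ := hp
      rw [hb1] at hb2
      exact mul_le_mul_of_nonneg_right hb2 (FP.Pr_nonneg _ _)
    · rw [Mod.Pr_none S.P (by
        rintro w ⟨a1, _, _, a4⟩
        have a5 := Prod.ext_iff.1 a1
        have a6 : S.gm t w = p.1 := a5.1
        have a7 : S.cl t (S.x w v) = p.2 := a5.2
        rw [a6, a7] at a4
        exact hp a4), mul_zero]
      exact FP.Pr_nonneg _ _
  -- at most one time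
  have h4 : ∑ t ∈ range (T + 1), S.P.Pr (fun w => S.xi w = ξ ∧ (∀ i ∈ oth u v, S.x w i = y i) ∧
        sel t (S.gm t w) (S.cl t (S.x w v)) ∧ E t (S.gm t w) ξ (S.x w)) ≤
      S.P.Pr (fun w => S.xi w = ξ ∧ (∀ i ∈ oth u v, S.x w i = y i) ∧ E T (S.gm T w) (S.xi w) (S.x w)) := by
    unfold FP.Pr
    rw [← S.P.E_sum]
    refine S.P.E_mono fun w _ => ?_
    by_cases hw : ∃ t ∈ range (T + 1), S.xi w = ξ ∧ (∀ i ∈ oth u v, S.x w i = y i) ∧
        sel t (S.gm t w) (S.cl t (S.x w v)) ∧ E t (S.gm t w) ξ (S.x w)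
    · obtain ⟨t, ht, a1, a2, a3, a4⟩ := hw
      have e1 : ind (S.xi w = ξ ∧ (∀ i ∈ oth u v, S.x w i = y i) ∧ E T (S.gm T w) (S.xi w) (S.x w)) = 1 := by
        refine ind_of ⟨a1, a2, ?_⟩
        refine hmono' (Nat.lt_succ_iff.1 (mem_range.1 ht)) w ?_
        rw [a1]
        exact a4
      have key : ∀ s t, s < t → sel s (S.gm s w) (S.cl s (S.x w v)) → sel t (S.gm t w) (S.cl t (S.x w v)) →
          False := by
        rintro s t hst ⟨b, hb1, hb2, _⟩ ⟨b', hb1', _, hb3'⟩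
        refine hb3' s hst ?_
        rw [S.anc_gm hst.le, S.cl_le hst.le hb1', ← hb1]
        exact hb2
      rw [e1, Finset.sum_eq_single t]
      · exact ind_le_one _
      · intro s _ hs
        refine ind_not ?_
        rintro ⟨_, _, b3, _⟩
        rcases lt_or_gt_of_ne hs with h | h
        · exact key s t h b3 a3
        · exact key t s h a3 b3
      · intro h
        exact absurd ht h
    · refine le_trans (le_of_eq ?_) (ind_nonneg _)
      refine Finset.sum_eq_zero fun t ht => ind_not fun h => hw ⟨t, ht, h⟩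
  calc lam * S.P.Pr (fun w => S.xi w = ξ ∧ (∀ i ∈ oth u v, S.x w i = y i) ∧ big S u v E lam T w)
      ≤ lam * ∑ t ∈ range (T + 1), S.K ^ 2 * S.P.Pr (fun w => S.xi w = ξ ∧ (∀ i ∈ oth u v, S.x w i = y i) ∧
        sel t (S.gm t w) (S.cl t (S.x w v))) :=
        mul_le_mul_of_nonneg_left (h1.trans (Finset.sum_le_sum h2)) hl.le
    _ = S.K ^ 2 * ∑ t ∈ range (T + 1), lam * S.P.Pr (fun w => S.xi w = ξ ∧ (∀ i ∈ oth u v, S.x w i = y i) ∧
        sel t (S.gm t w) (S.cl t (S.x w v))) := by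
        rw [Finset.mul_sum, Finset.mul_sum]
        exact Finset.sum_congr rfl fun t _ => by ring
    _ ≤ S.K ^ 2 * S.P.Pr (fun w => S.xi w = ξ ∧ (∀ i ∈ oth u v, S.x w i = y i) ∧
        E T (S.gm T w) (S.xi w) (S.x w)) :=
        mul_le_mul_of_nonneg_left ((Finset.sum_le_sum h3).trans h4) hK0

/-- **THE WEAK TYPE BOUND** : threshold and weight are functions of (coins, other vertices) -/
theorem weak (huv : u ≠ v) (hdep : ∀ t g ξ, Dep (univ.erase u) (E t g ξ))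
    (hmono : ∀ t w, E t (S.gm t w) (S.xi w) (S.x w) → E (t + 1) (S.gm (t + 1) w) (S.xi w) (S.x w))
    {f lam : Om → ℝ} (hf : Fac (fun w => (S.xi w, res (oth u v) (S.x w))) f)
    (hlam : Fac (fun w => (S.xi w, res (oth u v) (S.x w))) lam) (hf0 : ∀ w, 0 ≤ f w) (T : ℕ) :
    S.P.E (fun w => f w * (lam w * ind (big S u v E (lam w) T w))) ≤
      S.K ^ 2 * S.P.E (fun w => f w * ind (E T (S.gm T w) (S.xi w) (S.x w))) := by
  classical
  rw [E_img S.P (fun w => (S.xi w, res (oth u v) (S.x w))), E_img S.P (fun w => (S.xi w, res (oth u v) (S.x w)))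
    (fun w => f w * ind (E T (S.gm T w) (S.xi w) (S.x w))), Finset.mul_sum]
  refine Finset.sum_le_sum fun p hp => ?_
  obtain ⟨w0, _, rfl⟩ := mem_image.1 hp
  have hcl : ∀ w, ((S.xi w, res (oth u v) (S.x w)) = (S.xi w0, res (oth u v) (S.x w0))) ↔
      (S.xi w = S.xi w0 ∧ ∀ i ∈ oth u v, S.x w i = S.x w0 i) := by
    intro w
    rw [Prod.ext_iff]
    exact and_congr_right fun _ => res_eq
  have e1 : S.P.E (fun w => ind ((S.xi w, res (oth u v) (S.x w)) = (S.xi w0, res (oth u v) (S.x w0))) *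
      (f w * (lam w * ind (big S u v E (lam w) T w)))) =
      f w0 * (lam w0 * S.P.Pr (fun w => S.xi w = S.xi w0 ∧ (∀ i ∈ oth u v, S.x w i = S.x w0 i) ∧
        big S u v E (lam w0) T w)) := by
    unfold FP.Pr
    rw [← S.P.E_smul, ← S.P.E_smul]
    refine S.P.E_congr fun w _ => ?_
    by_cases h : (S.xi w, res (oth u v) (S.x w)) = (S.xi w0, res (oth u v) (S.x w0))
    · rw [ind_of h, one_mul, hf w w0 h, hlam w w0 h]
      congr 2
      exact congrArg ind (propext ⟨fun h' => ⟨((hcl w).1 h).1, ((hcl w).1 h).2, h'⟩, fun h' => h'.2.2⟩)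
    · rw [ind_not h, zero_mul, ind_not (fun h' : S.xi w = S.xi w0 ∧ (∀ i ∈ oth u v, S.x w i = S.x w0 i) ∧
        big S u v E (lam w0) T w => h ((hcl w).2 ⟨h'.1, h'.2.1⟩)), mul_zero, mul_zero]
  have e2 : S.P.E (fun w => ind ((S.xi w, res (oth u v) (S.x w)) = (S.xi w0, res (oth u v) (S.x w0))) *
      (f w * ind (E T (S.gm T w) (S.xi w) (S.x w)))) =
      f w0 * S.P.Pr (fun w => S.xi w = S.xi w0 ∧ (∀ i ∈ oth u v, S.x w i = S.x w0 i) ∧
        E T (S.gm T w) (S.xi w) (S.x w)) := by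
    unfold FP.Pr
    rw [← S.P.E_smul]
    refine S.P.E_congr fun w _ => ?_
    by_cases h : (S.xi w, res (oth u v) (S.x w)) = (S.xi w0, res (oth u v) (S.x w0))
    · rw [ind_of h, one_mul, hf w w0 h]
      congr 1
      exact congrArg ind (propext ⟨fun h' => ⟨((hcl w).1 h).1, ((hcl w).1 h).2, h'⟩, fun h' => h'.2.2⟩)
    · rw [ind_not h, zero_mul, ind_not (fun h' : S.xi w = S.xi w0 ∧ (∀ i ∈ oth u v, S.x w i = S.x w0 i) ∧
        E T (S.gm T w) (S.xi w) (S.x w) => h ((hcl w).2 ⟨h'.1, h'.2.1⟩)), mul_zero]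
  rw [e1, e2]
  have h1 := mul_le_mul_of_nonneg_left (weak_fix huv hdep hmono (lam w0) T (S.xi w0) (S.x w0)) (hf0 w0)
  linarith

/-! ### the running maximum -/

/-- the density at a point in the cell of `b`, zero if the cell is not near -/
def dnb (S : Sys ι Om Ξ Pt V Γ κ) (u v : ι) (E : ℕ → Γ → Ξ → (ι → Pt) → Prop) (t : ℕ) (w : Om) (b : Pt) : ℝ :=
  ind (Nr S u v t (S.gm t w) (S.x w) (S.cl t b)) * dn S v E t w (S.cl t b)

/-- **the running maximum of the densities in the near cells** -/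
def Mx (S : Sys ι Om Ξ Pt V Γ κ) (u v : ι) (E : ℕ → Γ → Ξ → (ι → Pt) → Prop) (T : ℕ) (w : Om) : ℝ :=
  ((range (T + 1)) ×ˢ (univ : Finset Pt)).sup' ⟨(0, S.x w v), by simp⟩ fun p => dnb S u v E p.1 w p.2

theorem dnb_nonneg (t : ℕ) (w : Om) (b : Pt) : 0 ≤ dnb S u v E t w b :=
  mul_nonneg (ind_nonneg _) (den_nonneg _ _ _ _ _ _)

theorem dnb_le_one (t : ℕ) (w : Om) (b : Pt) : dnb S u v E t w b ≤ 1 :=
  mul_le_one₀ (ind_le_one _) (den_nonneg _ _ _ _ _ _) (den_le_one _ _ _ _ _ _)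

theorem Mx_le_one (T : ℕ) (w : Om) : Mx S u v E T w ≤ 1 := Finset.sup'_le _ _ fun p _ => dnb_le_one p.1 w p.2

theorem Mx_nonneg (T : ℕ) (w : Om) : 0 ≤ Mx S u v E T w :=
  (dnb_nonneg 0 w (S.x w v)).trans
    (Finset.le_sup' (f := fun p : ℕ × Pt => dnb S u v E p.1 w p.2) (b := (0, S.x w v)) (by simp))

theorem dn_le_Mx {T t : ℕ} (ht : t ≤ T) {w : Om} {β : κ} (h : Nr S u v t (S.gm t w) (S.x w) β) :
    dn S v E t w β ≤ Mx S u v E T w := by
  obtain ⟨w0, rfl⟩ := Nr_img S h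
  have h1 : dnb S u v E t w (S.x w0 v) ≤ Mx S u v E T w :=
    Finset.le_sup' (f := fun p : ℕ × Pt => dnb S u v E p.1 w p.2) (b := (t, S.x w0 v))
      (by rw [mem_product]; exact ⟨mem_range.2 (by omega), mem_univ _⟩)
  unfold dnb at h1
  rwa [ind_of h, one_mul] at h1

theorem le_Mx_iff {lam : ℝ} (hl : 0 < lam) (T : ℕ) (w : Om) : lam ≤ Mx S u v E T w ↔ big S u v E lam T w := by
  constructor
  · intro h
    obtain ⟨p, hp, h1⟩ := Finset.exists_mem_eq_sup' (s := (range (T + 1)) ×ˢ (univ : Finset Pt))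
      ⟨(0, S.x w v), by simp⟩ (fun p : ℕ × Pt => dnb S u v E p.1 w p.2)
    have h2 : Mx S u v E T w = dnb S u v E p.1 w p.2 := h1
    rw [h2] at h
    have h3 : Nr S u v p.1 (S.gm p.1 w) (S.x w) (S.cl p.1 p.2) := by
      by_contra hcon
      unfold dnb at h
      rw [ind_not hcon, zero_mul] at h
      linarith
    refine ⟨p.1, Nat.lt_succ_iff.1 (mem_range.1 (mem_product.1 hp).1), _, h3, ?_⟩
    unfold dnb at h
    rwa [ind_of h3, one_mul] at h
  · rintro ⟨t, ht, β, h1, h2⟩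
    exact h2.trans (dn_le_Mx ht h1)

theorem Mx_mono {T T' : ℕ} (h : T ≤ T') (w : Om) : Mx S u v E T w ≤ Mx S u v E T' w := by
  refine Finset.sup'_mono _ ?_ _
  exact Finset.product_subset_product (Finset.range_mono (by omega)) (Finset.Subset.refl _)

/-- **mean of the running maximum** -/
theorem E_Mx (huv : u ≠ v) (hdep : ∀ t g ξ, Dep (univ.erase u) (E t g ξ))
    (hmono : ∀ t w, E t (S.gm t w) (S.xi w) (S.x w) → E (t + 1) (S.gm (t + 1) w) (S.xi w) (S.x w))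
    {f : Om → ℝ} (hf : Fac (fun w => (S.xi w, res (oth u v) (S.x w))) f) (hf0 : ∀ w, 0 ≤ f w) (T : ℕ) {H : ℝ}
    (hH : 0 ≤ H) :
    S.P.E (fun w => f w * Mx S u v E T w) ≤
      3 * (S.K ^ 2 * S.P.E (fun w => f w * ind (E T (S.gm T w) (S.xi w) (S.x w)))) * (1 + H) +
        S.P.E (fun w => f w * ind (0 < Mx S u v E T w)) * Real.exp (-H) := by
  refine E_weak S.P (fun w => Mx_le_one T w) hf0 (mul_nonneg (sq_nonneg _) (S.P.E_nonneg fun w _ =>
    mul_nonneg (hf0 w) (ind_nonneg _))) (fun lam hl => ?_) le_rfl hH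
  have h1 := weak huv hdep hmono hf (lam := fun _ => lam) (Fac.const _ _) hf0 T
  refine le_trans (le_of_eq ?_) h1
  rw [← S.P.E_smul]
  refine S.P.E_congr fun w _ => ?_
  rw [show (lam ≤ Mx S u v E T w) = big S u v E lam T w from propext (le_Mx_iff hl T w)]
  ring

/-- the form with a logarithm -/
theorem E_Mx_log (huv : u ≠ v) (hdep : ∀ t g ξ, Dep (univ.erase u) (E t g ξ))
    (hmono : ∀ t w, E t (S.gm t w) (S.xi w) (S.x w) → E (t + 1) (S.gm (t + 1) w) (S.xi w) (S.x w))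
    {f : Om → ℝ} (hf : Fac (fun w => (S.xi w, res (oth u v) (S.x w))) f) (hf0 : ∀ w, 0 ≤ f w) (T : ℕ) {A π : ℝ}
    (hA : 0 < A) (hAπ : A ≤ π) (hA1 : S.K ^ 2 * S.P.E (fun w => f w * ind (E T (S.gm T w) (S.xi w) (S.x w))) ≤ A)
    (hπ : S.P.E (fun w => f w * ind (0 < Mx S u v E T w)) ≤ π) :
    S.P.E (fun w => f w * Mx S u v E T w) ≤ 4 * A * (1 + Real.log (π / A)) := by
  refine E_weak_log S.P (fun w => Mx_le_one T w) hf0 hA hAπ (fun lam hl => ?_) hπ
  have h1 := weak huv hdep hmono hf (lam := fun _ => lam) (Fac.const _ _) hf0 T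
  refine le_trans (le_of_eq ?_) (h1.trans hA1)
  rw [← S.P.E_smul]
  refine S.P.E_congr fun w _ => ?_
  rw [show (lam ≤ Mx S u v E T w) = big S u v E lam T w from propext (le_Mx_iff hl T w)]
  ring

/-- **sum over codes** : `cs` = a finite set of codes (all codes which occur) -/
theorem sum_Mx {E : ℕ → ℕ → Γ → Ξ → (ι → Pt) → Prop} (huv : u ≠ v) (cs : Finset ℕ)
    (hdep : ∀ n t g ξ, Dep (univ.erase u) (E n t g ξ))
    (hmono : ∀ n t w, E n t (S.gm t w) (S.xi w) (S.x w) → E n (t + 1) (S.gm (t + 1) w) (S.xi w) (S.x w))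
    {f : Om → ℝ} (hf : Fac (fun w => (S.xi w, res (oth u v) (S.x w))) f) (hf0 : ∀ w, 0 ≤ f w) (T : ℕ) {H : ℝ}
    (hH : 0 ≤ H) :
    S.P.E (fun w => f w * ∑ n ∈ cs, Mx S u v (E n) T w) ≤
      3 * (S.K ^ 2 * S.P.E (fun w => f w * ∑ n ∈ cs, ind (E n T (S.gm T w) (S.xi w) (S.x w)))) * (1 + H) +
        S.P.E (fun w => f w * ∑ n ∈ cs, ind (0 < Mx S u v (E n) T w)) * Real.exp (-H) := by
  have e : ∀ F : ℕ → Om → ℝ, S.P.E (fun w => f w * ∑ n ∈ cs, F n w) = ∑ n ∈ cs, S.P.E (fun w => f w * F n w) := by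
    intro F
    rw [← S.P.E_sum]
    exact S.P.E_congr fun w _ => Finset.mul_sum _ _ _
  rw [e, e, e, Finset.mul_sum, Finset.mul_sum, Finset.sum_mul, Finset.sum_mul, ← Finset.sum_add_distrib]
  exact Finset.sum_le_sum fun n _ => E_Mx huv (hdep n) (hmono n) hf hf0 T hH

end weak

end

end Pool.Agent.GMN.Near
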