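import Pool.Agent.GMN.State

/-!
# GMN/Rank (helper19): RANKING of a growing public set

`A : time → node → vertices → Finset ℕ`, increasing along the nodes (`Grow`), a function of the vertices of `I`.
* `rl A t g x` = its elements in the order of their entry (ties by size): a list without repetition whose old part never
  changes (`rl_pre`), `mem_rl`, `length_rl`, `rl_dep`;
* `nth A r t g x` = the number of rank `r` (`none` before its entry), `nth_some_le` : it never changes,
  `exists_nth` : every element of `A` has a rank `< card`;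
* `NumF.rank` : the numbered functions `X ν`, `ν ∈ A`, with the ranks in `A` as numbers: numbered functions of the
  vertices of `I` again; `rank_at` : value at a sample point.
-/

set_option autoImplicit false
set_option linter.unusedSectionVars false

namespace Pool.Agent.GMN

open Finset Pool.Agent.PWZ Pool.Agent.M3 Pool.Agent.M3.TS Pool.Agent.GM

noncomputable section

variable {ι Om Ξ Pt V Γ κ : Type} [Fintype ι] [DecidableEq ι] [Fintype Om] [Fintype Ξ] [Fintype Pt]
  [Fintype V] {S : Sys ι Om Ξ Pt V Γ κ}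

/-- a set of numbers which grows along the nodes -/
def Grow (S : Sys ι Om Ξ Pt V Γ κ) (A : ℕ → Γ → (ι → Pt) → Finset ℕ) : Prop :=
  ∀ t g x, A t (S.par t g) x ⊆ A (t + 1) g x

/-- the elements in the order of their entry -/
def rl (S : Sys ι Om Ξ Pt V Γ κ) (A : ℕ → Γ → (ι → Pt) → Finset ℕ) : ℕ → Γ → (ι → Pt) → List ℕ
  | 0, g, x => (A 0 g x).sort (· ≤ ·)
  | t + 1, g, x => rl S A t (S.par t g) x ++ ((A (t + 1) g x) \ (rl S A t (S.par t g) x).toFinset).sort (· ≤ ·)

variable {A : ℕ → Γ → (ι → Pt) → Finset ℕ}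

theorem rl_succ (A : ℕ → Γ → (ι → Pt) → Finset ℕ) (t : ℕ) (g : Γ) (x : ι → Pt) :
    rl S A (t + 1) g x = rl S A t (S.par t g) x ++
      ((A (t + 1) g x) \ (rl S A t (S.par t g) x).toFinset).sort (· ≤ ·) := rfl

theorem rl_pre (A : ℕ → Γ → (ι → Pt) → Finset ℕ) (t : ℕ) (g : Γ) (x : ι → Pt) :
    rl S A t (S.par t g) x <+: rl S A (t + 1) g x := ⟨_, rfl⟩

theorem rl_dep {I : Finset ι} (h : ∀ t g, Dep I (A t g)) (t : ℕ) : ∀ g, Dep I (rl S A t g) := by
  induction t with
  | zero =>
    intro g x y hxy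
    show (A 0 g x).sort (· ≤ ·) = (A 0 g y).sort (· ≤ ·)
    rw [h 0 g x y hxy]
  | succ t ih =>
    intro g x y hxy
    rw [rl_succ, rl_succ, ih _ x y hxy, h (t + 1) g x y hxy]

theorem toFinset_rl (hA : Grow S A) (t : ℕ) : ∀ g x, (rl S A t g x).toFinset = A t g x := by
  induction t with
  | zero =>
    intro g x
    show ((A 0 g x).sort (· ≤ ·)).toFinset = _
    rw [Finset.sort_toFinset]
  | succ t ih =>
    intro g x
    rw [rl_succ, List.toFinset_append, Finset.sort_toFinset, ih, Finset.union_sdiff_of_subset (hA t g x)]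

theorem mem_rl (hA : Grow S A) {t : ℕ} {g : Γ} {x : ι → Pt} {ν : ℕ} : ν ∈ rl S A t g x ↔ ν ∈ A t g x := by
  rw [← toFinset_rl hA t g x, List.mem_toFinset]

theorem nodup_rl (A : ℕ → Γ → (ι → Pt) → Finset ℕ) (t : ℕ) : ∀ g x, (rl S A t g x).Nodup := by
  induction t with
  | zero =>
    intro g x
    exact Finset.sort_nodup _ _
  | succ t ih =>
    intro g x
    rw [rl_succ, List.nodup_append]
    refine ⟨ih _ x, Finset.sort_nodup _ _, ?_⟩
    intro a ha b hb hab
    rw [Finset.mem_sort, Finset.mem_sdiff, List.mem_toFinset] at hb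
    exact hb.2 (hab ▸ ha)

theorem length_rl (hA : Grow S A) (t : ℕ) (g : Γ) (x : ι → Pt) : (rl S A t g x).length = (A t g x).card := by
  rw [← toFinset_rl hA t g x, List.toFinset_card_of_nodup (nodup_rl A t g x)]

/-- the number of rank `r` -/
def nth (S : Sys ι Om Ξ Pt V Γ κ) (A : ℕ → Γ → (ι → Pt) → Finset ℕ) (r t : ℕ) (g : Γ) (x : ι → Pt) : Option ℕ :=
  (rl S A t g x)[r]?

theorem nth_dep {I : Finset ι} (h : ∀ t g, Dep I (A t g)) (r t : ℕ) (g : Γ) : Dep I (nth S A r t g) := fun x y hxy => by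
  unfold nth
  rw [rl_dep h t g x y hxy]

theorem nth_succ {r t : ℕ} {g : Γ} {x : ι → Pt} {ν : ℕ} (h : nth S A r t (S.par t g) x = some ν) :
    nth S A r (t + 1) g x = some ν := by
  unfold nth at h ⊢
  rw [rl_succ, List.getElem?_append_left (List.getElem?_eq_some_iff.1 h).1]
  exact h

theorem nth_mem (hA : Grow S A) {r t : ℕ} {g : Γ} {x : ι → Pt} {ν : ℕ} (h : nth S A r t g x = some ν) :
    ν ∈ A t g x := (mem_rl hA).1 (List.mem_of_getElem? h)

/-- every element has a rank -/
theorem exists_nth (hA : Grow S A) {t : ℕ} {g : Γ} {x : ι → Pt} {ν : ℕ} (h : ν ∈ A t g x) :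
    ∃ r < (A t g x).card, nth S A r t g x = some ν := by
  obtain ⟨r, hr, hrν⟩ := List.getElem_of_mem ((mem_rl hA).2 h)
  refine ⟨r, by rwa [length_rl hA] at hr, ?_⟩
  unfold nth
  rw [List.getElem?_eq_getElem hr, hrν]

/-- ranks are unique -/
theorem nth_inj {r r' t : ℕ} {g : Γ} {x : ι → Pt} {ν : ℕ} (h : nth S A r t g x = some ν)
    (h' : nth S A r' t g x = some ν) : r = r' := by
  unfold nth at h h'
  obtain ⟨h1, h2⟩ := List.getElem?_eq_some_iff.1 h
  obtain ⟨h3, h4⟩ := List.getElem?_eq_some_iff.1 h'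
  exact (List.Nodup.getElem_inj_iff (nodup_rl A t g x)).1 (h2.trans h4.symm)

/-- the rank does not change -/
theorem nth_le {r t u : ℕ} (htu : t ≤ u) {w : Om} {ν : ℕ} (h : nth S A r t (S.gm t w) (S.x w) = some ν) :
    nth S A r u (S.gm u w) (S.x w) = some ν := by
  induction u, htu using Nat.le_induction with
  | base => exact h
  | succ u _ ih =>
    refine nth_succ ?_
    rw [S.par_gm]
    exact ih

namespace NumF

variable {I J : Finset ι}

/-- the numbered functions `X ν`, `ν ∈ A`, numbered by the ranks in `A` -/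
def rank (X : NumF S ℕ J) (A : ℕ → Γ → (ι → Pt) → Finset ℕ) (hJI : J ⊆ I) (hA : ∀ t g, Dep I (A t g)) :
    NumF S ℕ I where
  inn r t g x := ∃ ν, nth S A r t g x = some ν ∧ X.inn ν t g x
  f r t g x := (nth S A r t g x).elim 0 fun ν => X.f ν t g x
  inn_dep r t g := fun x y h => by
    show (∃ ν, nth S A r t g x = some ν ∧ X.inn ν t g x) = (∃ ν, nth S A r t g y = some ν ∧ X.inn ν t g y)
    rw [nth_dep hA r t g x y h]
    refine congrArg _ (funext fun ν => ?_)
    rw [X.inn_dep ν t g x y fun i hi => h i (hJI hi)]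
  f_dep r t g := fun x y h => by
    show (nth S A r t g x).elim 0 (fun ν => X.f ν t g x) = (nth S A r t g y).elim 0 fun ν => X.f ν t g y
    rw [nth_dep hA r t g x y h]
    have h1 : (fun ν => X.f ν t g x) = fun ν => X.f ν t g y := funext fun ν =>
      X.f_dep ν t g x y fun i hi => h i (hJI hi)
    rw [h1]
  le1 r t g x d := by
    cases nth S A r t g x with
    | none => simp
    | some ν => exact X.le1 ν t g x d
  zero r t g x h := by
    show (nth S A r t g x).elim 0 (fun ν => X.f ν t g x) = 0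
    cases h1 : nth S A r t g x with
    | none => rfl
    | some ν => exact X.zero ν t g x fun h2 => h ⟨ν, h1, h2⟩
  keep r t g x h := by
    obtain ⟨ν, h1, h2⟩ := h
    exact ⟨ν, nth_succ h1, X.keep ν t g x h2⟩
  stat r t g x h := by
    obtain ⟨ν, h1, h2⟩ := h
    show (nth S A r (t + 1) g x).elim 0 (fun ν => X.f ν (t + 1) g x) =
      (nth S A r t (S.par t g) x).elim 0 fun ν => X.f ν t (S.par t g) x
    rw [h1, nth_succ h1]
    exact X.stat ν t g x h2

theorem rank_at {X : NumF S ℕ J} {hJI : J ⊆ I} {hA : ∀ t g, Dep I (A t g)} {r t : ℕ} {w : Om} {ν : ℕ}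
    (h : nth S A r t (S.gm t w) (S.x w) = some ν) : (X.rank A hJI hA).at' r t w = X.at' ν t w := by
  unfold at' rank
  simp only [h]
  rfl

theorem rank_on {X : NumF S ℕ J} {hJI : J ⊆ I} {hA : ∀ t g, Dep I (A t g)} {r t : ℕ} {w : Om} {ν : ℕ}
    (h : nth S A r t (S.gm t w) (S.x w) = some ν) : (X.rank A hJI hA).on r t w ↔ X.on ν t w := by
  unfold on rank
  simp only [h]
  constructor
  · rintro ⟨ν', h1, h2⟩
    rw [Option.some.injEq] at h1
    rw [h1]
    exact h2
  · intro h1
    exact ⟨ν, rfl, h1⟩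

/-- at a sample point every number of the public set has a rank with the same value at ALL later times -/
theorem exists_rank {X : NumF S ℕ J} {hJI : J ⊆ I} {hA : ∀ t g, Dep I (A t g)} (hG : Grow S A) {t : ℕ} {w : Om}
    {ν : ℕ} (h : ν ∈ A t (S.gm t w) (S.x w)) :
    ∃ r < (A t (S.gm t w) (S.x w)).card, ∀ u, t ≤ u → (X.rank A hJI hA).at' r u w = X.at' ν u w := by
  obtain ⟨r, hr, h1⟩ := exists_nth hG h
  exact ⟨r, hr, fun u hu => rank_at (nth_le hu h1)⟩

end NumF

end

end Pool.Agent.GMN
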