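import Pool.Agent.GMN.Vis
import Pool.Agent.GMN.Ext
import Pool.Agent.GMN.Size

/-!
# GMN/RecS (helper4): SCALES OF THE RECORDS in the geometry `Sys` (row N, NM.4, 4.1, section 8; note 3909 (4))

`v` = hidden vertex of the client, `u` = owner of the reference, `m t g ξ x` = the codes (traces) in the list of the owner:
a function of the vertices off `u`.

* `dn` : density of `{y : n ∈ m}` in the cell of `x v`: a function of the exact vertices off `u, v` and the cell of `v`;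
* `Zt` : scale = maximum of the densities in all cells of `v` which are compatible with the cells of the other vertices and
  the node, now and before: a function of the exact vertices off `u, v` and the CELL OF `u`;
* `mass`, `mass_ce` : `P(n true | coins, all vertices but v, node) ≤ K * Zt` (`Sys.edge`);
* `doob`, `weak` : `c * P(c ≤ Zt) ≤ K * P(n true at the end)`; `pos_le` : `P(0 < Zt) ≤ K * P(n in the box set)`;
* `E_Zt`, `sum_Zt` : mean scales; `rec_le` : mean number of recorded codes.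
-/

set_option autoImplicit false
set_option linter.unusedSectionVars false

namespace Pool.Agent.GMN

open Finset Pool.Agent.PWZ Pool.Agent.M3 Pool.Agent.M3.TS Pool.Agent.GM

noncomputable section

variable {ι Om Ξ Pt V Γ κ : Type} [Fintype ι] [DecidableEq ι] [Fintype Om] [Fintype Ξ] [Fintype Pt]
  [Fintype V] (S : Sys ι Om Ξ Pt V Γ κ)

/-- sets of codes which depend on the coins -/
abbrev CS (ι Ξ Pt Γ : Type) : Type := ℕ → Γ → Ξ → (ι → Pt) → Finset ℕ

variable (m : CS ι Ξ Pt Γ) (v : ι)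

/-- density of the code `n` in the cell of `x v` -/
def dn (n t : ℕ) (g : Γ) (ξ : Ξ) (x : ι → Pt) : ℝ :=
  (∑ y : Pt, ind (S.cl t y = S.cl t (x v) ∧ n ∈ m t g ξ (Function.update x v y))) /
    ∑ y : Pt, ind (S.cl t y = S.cl t (x v))

theorem dn_nonneg (n t : ℕ) (g : Γ) (ξ : Ξ) (x : ι → Pt) : 0 ≤ dn S m v n t g ξ x :=
  div_nonneg (Finset.sum_nonneg fun _ _ => ind_nonneg _) (Finset.sum_nonneg fun _ _ => ind_nonneg _)

theorem cell_pos (t : ℕ) (z : Pt) : 0 < ∑ y : Pt, ind (S.cl t y = S.cl t z) := by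
  have h := Finset.single_le_sum (f := fun y : Pt => ind (S.cl t y = S.cl t z)) (fun _ _ => ind_nonneg _)
    (Finset.mem_univ z)
  have h1 : ind (S.cl t z = S.cl t z) = 1 := ind_of rfl
  have h2 : ind (S.cl t z = S.cl t z) ≤ ∑ y : Pt, ind (S.cl t y = S.cl t z) := h
  rw [h1] at h2
  linarith

theorem dn_le_one (n t : ℕ) (g : Γ) (ξ : Ξ) (x : ι → Pt) : dn S m v n t g ξ x ≤ 1 := by
  unfold dn
  rw [div_le_one (cell_pos S t (x v))]
  exact Finset.sum_le_sum fun y _ => ind_mono fun h => h.1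

/-- a positive density is witnessed -/
theorem exists_of_dn_pos {n t : ℕ} {g : Γ} {ξ : Ξ} {x : ι → Pt} (h : 0 < dn S m v n t g ξ x) :
    ∃ y : Pt, S.cl t y = S.cl t (x v) ∧ n ∈ m t g ξ (Function.update x v y) := by
  by_contra hcon
  push Not at hcon
  have : dn S m v n t g ξ x = 0 := by
    unfold dn
    rw [Finset.sum_eq_zero fun y _ => ind_not fun h' => hcon y h'.1 h'.2, zero_div]
  linarith

variable {m v} {S}

theorem dn_dep {u : ι} (hm : ∀ t g ξ, Dep (univ.erase u) (m t g ξ)) (n t : ℕ) (g : Γ) (ξ : Ξ) :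
    DepUV S u v t (dn S m v n t g ξ) := by
  intro x y hA hv
  have hv' : S.cl t (x v) = S.cl t (y v) := hv v (mem_singleton_self _)
  unfold dn
  rw [hv']
  congr 1
  refine Finset.sum_congr rfl fun z _ => ?_
  have : m t g ξ (Function.update x v z) = m t g ξ (Function.update y v z) := by
    refine hm t g ξ _ _ fun i hi => ?_
    rcases eq_or_ne i v with e | e
    · subst e; rw [Function.update_self, Function.update_self]
    · rw [Function.update_of_ne e, Function.update_of_ne e]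
      exact hA i (mem_erase.2 ⟨e, hi⟩)
  rw [this]

variable (S) (m v)

/-- the cell which `w'` shows is compatible at time `s` with the cells of `x` off `v` and the ancestor of `g` -/
def okc (s t : ℕ) (g : Γ) (x : ι → Pt) (w' : Om) : Prop :=
  (∀ i, i ≠ v → S.cl s (S.x w' i) = S.cl s (x i)) ∧ S.gm s w' = S2.anc S.par t g s

open Classical in
/-- value of a cell -/
def zv (n t : ℕ) (g : Γ) (ξ : Ξ) (x : ι → Pt) (s : ℕ) (w' : Om) : NNReal :=
  if okc S v s t g x w' then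
    Real.toNNReal (dn S m v n s (S2.anc S.par t g s) ξ (Function.update x v (S.x w' v)))
  else 0

theorem le_zv_iff {n t : ℕ} {g : Γ} {ξ : Ξ} {x : ι → Pt} {s : ℕ} {w' : Om} {c : NNReal} (hc : 0 < c) :
    c ≤ zv S m v n t g ξ x s w' ↔ okc S v s t g x w' ∧
      (c : ℝ) ≤ dn S m v n s (S2.anc S.par t g s) ξ (Function.update x v (S.x w' v)) := by
  unfold zv
  by_cases h : okc S v s t g x w'
  · rw [if_pos h, Real.le_toNNReal_iff_coe_le (dn_nonneg S m v n s _ ξ _)]
    exact ⟨fun h' => ⟨h, h'⟩, fun h' => h'.2⟩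
  · rw [if_neg h]
    constructor
    · intro h'; exact absurd h' (not_le.2 hc)
    · intro h'; exact absurd h'.1 h

/-- **THE SCALE** of the code `n` -/
def Zt (n t : ℕ) (g : Γ) (ξ : Ξ) (x : ι → Pt) : ℝ :=
  ((range (t + 1) ×ˢ (univ : Finset Om)).sup fun sw => zv S m v n t g ξ x sw.1 sw.2 : NNReal)

theorem Zt_nonneg (n t : ℕ) (g : Γ) (ξ : Ξ) (x : ι → Pt) : 0 ≤ Zt S m v n t g ξ x := NNReal.coe_nonneg _

variable {S m v}

theorem le_Zt_iff {n t : ℕ} {g : Γ} {ξ : Ξ} {x : ι → Pt} {c : ℝ} (hc : 0 < c) :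
    c ≤ Zt S m v n t g ξ x ↔ ∃ s ≤ t, ∃ w', okc S v s t g x w' ∧
      c ≤ dn S m v n s (S2.anc S.par t g s) ξ (Function.update x v (S.x w' v)) := by
  classical
  obtain ⟨cc, hcc⟩ : ∃ cc : NNReal, (cc : ℝ) = c := ⟨⟨c, hc.le⟩, rfl⟩
  subst hcc
  have hc' : (⊥ : NNReal) < cc := by
    rw [bot_eq_zero]; exact NNReal.coe_pos.1 hc
  unfold Zt
  rw [NNReal.coe_le_coe, Finset.le_sup_iff hc']
  have hc0 : 0 < cc := NNReal.coe_pos.1 hc
  constructor
  · rintro ⟨⟨s, w'⟩, hs, h⟩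
    rw [Finset.mem_product, mem_range] at hs
    have hs1 : s ≤ t := by have := hs.1; simp only at this; omega
    simp only at h
    exact ⟨s, hs1, w', (le_zv_iff S m v hc0).1 h⟩
  · rintro ⟨s, hs, w', h2⟩
    refine ⟨(s, w'), Finset.mem_product.2 ⟨mem_range.2 (by omega), mem_univ _⟩, ?_⟩
    simp only
    exact (le_zv_iff S m v hc0).2 h2

theorem Zt_le_one (n t : ℕ) (g : Γ) (ξ : Ξ) (x : ι → Pt) : Zt S m v n t g ξ x ≤ 1 := by
  by_contra hcon
  push Not at hcon
  obtain ⟨s, _, w', _, h⟩ := (le_Zt_iff (lt_of_le_of_lt zero_le_one hcon)).1 (le_refl (Zt S m v n t g ξ x))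
  have := dn_le_one S m v n s (S2.anc S.par t g s) ξ (Function.update x v (S.x w' v))
  linarith

/-- scales increase along the nodes -/
theorem Zt_mono (n t : ℕ) (g : Γ) (ξ : Ξ) (x : ι → Pt) : Zt S m v n t (S.par t g) ξ x ≤ Zt S m v n (t + 1) g ξ x := by
  rcases eq_or_lt_of_le (Zt_nonneg S m v n t (S.par t g) ξ x) with h | h
  · rw [← h]; exact Zt_nonneg _ _ _ _ _ _ _ _
  · obtain ⟨s, hs, w', h1, h2⟩ := (le_Zt_iff h).1 (le_refl (Zt S m v n t (S.par t g) ξ x))
    refine (le_Zt_iff h).2 ⟨s, by omega, w', ⟨h1.1, ?_⟩, ?_⟩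
    · rw [S2.anc_succ _ hs]; exact h1.2
    · rw [S2.anc_succ _ hs]; exact h2

theorem okc_dep {s t : ℕ} (hst : s ≤ t) {g : Γ} {x y : ι → Pt} (h : ∀ i, i ≠ v → S.cl t (x i) = S.cl t (y i))
    (w' : Om) : okc S v s t g x w' ↔ okc S v s t g y w' := by
  unfold okc
  refine and_congr (forall_congr' fun i => forall_congr' fun hi => ?_) Iff.rfl
  rw [S.cl_le hst (h i hi)]

/-- the scale is a function of the exact vertices off `u, v` and of the cell of `u` -/
theorem Zt_dep {u : ι} (huv : u ≠ v) (hm : ∀ t g ξ, Dep (univ.erase u) (m t g ξ)) (n t : ℕ) (g : Γ) (ξ : Ξ) :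
    DepC S t ((univ.erase u).erase v) {u} (Zt S m v n t g ξ) := by
  have key : ∀ x y : ι → Pt, (∀ i ∈ (univ.erase u).erase v, x i = y i) → (∀ i ∈ ({u} : Finset ι), S.cl t (x i) = S.cl t (y i)) →
      Zt S m v n t g ξ x ≤ Zt S m v n t g ξ y := by
    intro x y hA hu
    rcases eq_or_lt_of_le (Zt_nonneg S m v n t g ξ x) with h | h
    · rw [← h]; exact Zt_nonneg _ _ _ _ _ _ _ _
    · obtain ⟨s, hs, w', h1, h2⟩ := (le_Zt_iff h).1 (le_refl (Zt S m v n t g ξ x))
      refine (le_Zt_iff h).2 ⟨s, hs, w', ?_, ?_⟩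
      · refine (okc_dep hs (fun i hi => ?_) w').1 h1
        rcases eq_or_ne i u with e | e
        · rw [e]; exact hu u (mem_singleton_self _)
        · rw [hA i (mem_erase.2 ⟨hi, mem_erase.2 ⟨e, mem_univ _⟩⟩)]
      · refine h2.trans (le_of_eq ?_)
        refine dn_dep hm n s _ ξ _ _ (fun i hi => ?_) fun i hi => ?_
        · have hiv : i ≠ v := (mem_erase.1 hi).1
          rw [Function.update_of_ne hiv, Function.update_of_ne hiv]
          exact hA i hi
        · rw [mem_singleton] at hi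
          subst hi
          rw [Function.update_self, Function.update_self]
  intro x y hA hu
  exact le_antisymm (key x y hA hu) (key y x (fun i hi => (hA i hi).symm) fun i hi => (hu i hi).symm)

/-- at a sample point -/
theorem le_Zt_w {n t : ℕ} {w : Om} {c : ℝ} (hc : 0 < c) :
    c ≤ Zt S m v n t (S.gm t w) (S.xi w) (S.x w) ↔ ∃ s ≤ t, ∃ w', Cmp S v s w w' ∧
      c ≤ dn S m v n s (S.gm s w) (S.xi w) (shw S v w w') := by
  rw [le_Zt_iff hc]
  refine exists_congr fun s => and_congr_right fun hs => exists_congr fun w' => ?_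
  rw [S.anc_gm hs]
  unfold okc Cmp shw
  rw [S.anc_gm hs]

theorem dn_le_Zt {n s t : ℕ} (hs : s ≤ t) {w w' : Om} (h : Cmp S v s w w') :
    dn S m v n s (S.gm s w) (S.xi w) (shw S v w w') ≤ Zt S m v n t (S.gm t w) (S.xi w) (S.x w) := by
  rcases eq_or_lt_of_le (dn_nonneg S m v n s (S.gm s w) (S.xi w) (shw S v w w')) with h0 | h0
  · rw [← h0]; exact Zt_nonneg _ _ _ _ _ _ _ _
  · exact (le_Zt_w h0).2 ⟨s, hs, w', h, le_rfl⟩

/-! ### the mass of a true reference -/

/-- sums over the points which agree with `y` off `v` -/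
theorem sum_off (v : ι) (y : ι → Pt) (f : Pt → (ι → Pt) → ℝ) :
    ∑ z : ι → Pt, ind (∀ i, i ∉ ({v} : Finset ι) → z i = y i) * f (z v) z =
      ∑ a : Pt, f a (Function.update y v a) := by
  classical
  have h1 : ∀ z : ι → Pt, ind (∀ i, i ∉ ({v} : Finset ι) → z i = y i) * f (z v) z =
      ∑ a : Pt, if z = Function.update y v a then f a (Function.update y v a) else 0 := by
    intro z
    by_cases h : ∀ i, i ∉ ({v} : Finset ι) → z i = y i
    · rw [ind_of h, one_mul]
      have hz : z = Function.update y v (z v) := by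
        funext i
        rcases eq_or_ne i v with e | e
        · subst e; rw [Function.update_self]
        · rw [Function.update_of_ne e]; exact h i (by rw [mem_singleton]; exact e)
      rw [Finset.sum_eq_single (z v)]
      · rw [if_pos hz, ← hz]
      · intro b _ hb
        rw [if_neg]
        intro hzb
        apply hb
        rw [hzb, Function.update_self]
      · exact fun h => absurd (mem_univ _) h
    · rw [ind_not h, zero_mul]
      symm
      refine Finset.sum_eq_zero fun a _ => if_neg fun hz => h fun i hi => ?_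
      rw [hz, Function.update_of_ne]
      rw [mem_singleton] at hi
      exact hi
  rw [Finset.sum_congr rfl fun z _ => h1 z, Finset.sum_comm]
  refine Finset.sum_congr rfl fun a _ => ?_
  rw [Finset.sum_ite_eq']
  simp

/-- **MASS**: the probability of a true code given the coins, all vertices but `v` and the node -/
theorem mass (n t : ℕ) (w0 : Om) :
    S.P.Pr (fun w => S.xi w = S.xi w0 ∧ (∀ i, i ≠ v → S.x w i = S.x w0 i) ∧ S.gm t w = S.gm t w0 ∧
      n ∈ m t (S.gm t w) (S.xi w) (S.x w)) ≤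
    S.K * Zt S m v n t (S.gm t w0) (S.xi w0) (S.x w0) *
      S.P.Pr (fun w => S.xi w = S.xi w0 ∧ (∀ i, i ≠ v → S.x w i = S.x w0 i) ∧ S.gm t w = S.gm t w0) := by
  classical
  have h := S.edge t (S.gm t w0) {v} (S.xi w0) (S.x w0) (fun z => n ∈ m t (S.gm t w0) (S.xi w0) z)
    (Zt S m v n t (S.gm t w0) (S.xi w0) (S.x w0)) (Zt_nonneg _ _ _ _ _ _ _ _) (by
    intro w' h1 h2
    have hc : Cmp S v t w0 w' := ⟨fun i hi => by rw [h1 i (by rw [mem_singleton]; exact hi)], h2⟩
    have h3 := dn_le_Zt (m := m) (n := n) (le_refl t) hc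
    unfold dn at h3
    rw [shw_v] at h3
    have hpos := cell_pos S t (S.x w' v)
    rw [div_le_iff₀ hpos] at h3
    have e1 : ∑ z : ι → Pt, ind ((∀ i, i ∉ ({v} : Finset ι) → z i = S.x w0 i) ∧
        (∀ i ∈ ({v} : Finset ι), S.cl t (z i) = S.cl t (S.x w' i)) ∧ n ∈ m t (S.gm t w0) (S.xi w0) z) =
        ∑ y : Pt, ind (S.cl t y = S.cl t (S.x w' v) ∧
          n ∈ m t (S.gm t w0) (S.xi w0) (Function.update (shw S v w0 w') v y)) := by
      have e2 := sum_off v (S.x w0) (fun a z => ind (S.cl t a = S.cl t (S.x w' v) ∧ n ∈ m t (S.gm t w0) (S.xi w0) z))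
      rw [Finset.sum_congr rfl fun z _ => ?_, e2]
      · refine Finset.sum_congr rfl fun y _ => ?_
        have : Function.update (shw S v w0 w') v y = Function.update (S.x w0) v y := by
          unfold shw; rw [Function.update_idem]
        rw [this]
      · rw [← ind_and]
        congr 1
        apply propext
        refine and_congr Iff.rfl (and_congr ?_ Iff.rfl)
        constructor
        · intro h; exact h v (mem_singleton_self _)
        · intro h i hi
          rw [mem_singleton] at hi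
          subst hi; exact h
    have e3 : ∑ z : ι → Pt, ind ((∀ i, i ∉ ({v} : Finset ι) → z i = S.x w0 i) ∧
        (∀ i ∈ ({v} : Finset ι), S.cl t (z i) = S.cl t (S.x w' i))) =
        ∑ y : Pt, ind (S.cl t y = S.cl t (S.x w' v)) := by
      have e2 := sum_off v (S.x w0) (fun a _ => ind (S.cl t a = S.cl t (S.x w' v)))
      rw [← e2]
      refine Finset.sum_congr rfl fun z _ => ?_
      rw [← ind_and]
      congr 1
      apply propext
      refine and_congr Iff.rfl ?_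
      constructor
      · intro h; exact h v (mem_singleton_self _)
      · intro h i hi
        rw [mem_singleton] at hi
        subst hi; exact h
    rw [e1, e3]
    exact h3)
  have e4 : S.P.Pr (fun w => S.xi w = S.xi w0 ∧ (∀ i, i ≠ v → S.x w i = S.x w0 i) ∧ S.gm t w = S.gm t w0 ∧
      n ∈ m t (S.gm t w) (S.xi w) (S.x w)) =
      S.P.Pr (fun w => S.xi w = S.xi w0 ∧ (∀ i, i ∉ ({v} : Finset ι) → S.x w i = S.x w0 i) ∧
        S.gm t w = S.gm t w0 ∧ n ∈ m t (S.gm t w0) (S.xi w0) (S.x w)) := by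
    refine S.P.Pr_congr fun w _ => ?_
    constructor
    · rintro ⟨a, b, c, d⟩
      refine ⟨a, fun i hi => b i (by rw [mem_singleton] at hi; exact hi), c, ?_⟩
      rw [← a, ← c]; exact d
    · rintro ⟨a, b, c, d⟩
      refine ⟨a, fun i hi => b i (by rw [mem_singleton]; exact hi), c, ?_⟩
      rw [a, c]; exact d
  have e5 : S.P.Pr (fun w => S.xi w = S.xi w0 ∧ (∀ i, i ≠ v → S.x w i = S.x w0 i) ∧ S.gm t w = S.gm t w0) =
      S.P.Pr (fun w => S.xi w = S.xi w0 ∧ (∀ i, i ∉ ({v} : Finset ι) → S.x w i = S.x w0 i) ∧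
        S.gm t w = S.gm t w0) := by
    refine S.P.Pr_congr fun w _ => and_congr Iff.rfl (and_congr (forall_congr' fun i => ?_) Iff.rfl)
    rw [mem_singleton]
  rw [e4, e5]
  exact h

/-- the same as a conditional probability -/
theorem mass_ce (n t : ℕ) (w0 : Om) :
    S.P.ce (fun w => (S.xi w, res (univ.erase v) (S.x w), S.gm t w))
      (fun w => ind (n ∈ m t (S.gm t w) (S.xi w) (S.x w))) w0 ≤
    S.K * Zt S m v n t (S.gm t w0) (S.xi w0) (S.x w0) := by
  classical
  set X : Om → Ξ × ({i // i ∈ univ.erase v} → Pt) × Γ := fun w => (S.xi w, res (univ.erase v) (S.x w), S.gm t w) with hX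
  have hx : ∀ w, X w = X w0 ↔ (S.xi w = S.xi w0 ∧ (∀ i, i ≠ v → S.x w i = S.x w0 i) ∧ S.gm t w = S.gm t w0) := by
    intro w
    rw [hX]
    simp only
    rw [Prod.ext_iff, Prod.ext_iff]
    refine and_congr Iff.rfl (and_congr ?_ Iff.rfl)
    simp only
    rw [res_eq]
    constructor
    · intro h i hi; exact h i (mem_erase.2 ⟨hi, mem_univ _⟩)
    · intro h i hi; exact h i (mem_erase.1 hi).1
  have h1 := mass (S := S) (m := m) (v := v) n t w0
  have hm0 : 0 < S.P.m X w0 := S.P.m_pos X (S.ppos w0)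
  unfold FP.ce
  rw [div_le_iff₀ hm0]
  have e1 : S.P.E (fun w => ind (X w = X w0) * ind (n ∈ m t (S.gm t w) (S.xi w) (S.x w))) =
      S.P.Pr (fun w => S.xi w = S.xi w0 ∧ (∀ i, i ≠ v → S.x w i = S.x w0 i) ∧ S.gm t w = S.gm t w0 ∧
        n ∈ m t (S.gm t w) (S.xi w) (S.x w)) := by
    refine S.P.E_congr fun w _ => ?_
    rw [← ind_and]
    congr 1
    apply propext
    rw [hx w]
    tauto
  have e2 : S.P.m X w0 = S.P.Pr (fun w => S.xi w = S.xi w0 ∧ (∀ i, i ≠ v → S.x w i = S.x w0 i) ∧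
      S.gm t w = S.gm t w0) := S.P.Pr_congr fun w _ => hx w
  rw [e1, e2]
  exact h1

/-! ### weak type bounds -/

theorem Pr_univ {τ : Type*} [Fintype τ] (P : FP Om) (Φ : Om → τ) (E : Om → Prop) :
    P.Pr E = ∑ φ, P.Pr (fun w => Φ w = φ ∧ E w) := by
  classical
  unfold FP.Pr
  rw [← P.E_sum]
  refine P.E_congr fun w _ => ?_
  rw [Finset.sum_eq_single (Φ w)]
  · by_cases h : E w
    · rw [ind_of h, ind_of ⟨rfl, h⟩]
    · rw [ind_not h, ind_not fun h' => h h'.2]
  · intro o _ ho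
    exact ind_not fun h => ho h.1.symm
  · exact fun h => absurd (mem_univ _) h

/-- an event of the first time `t`: the code is true with density at least `c` -/
theorem doob_one {u : ι} (huv : u ≠ v) (hm : ∀ t g ξ, Dep (univ.erase u) (m t g ξ)) (n t : ℕ) {c : ℝ}
    {F : Γ → Ξ → (ι → Pt) → Prop} (hF : ∀ g ξ, DepUV S u v t (F g ξ)) (hc : ∀ g ξ x, F g ξ x → c ≤ dn S m v n t g ξ x) :
    c * S.P.Pr (fun w => F (S.gm t w) (S.xi w) (S.x w)) ≤
      S.P.Pr (fun w => F (S.gm t w) (S.xi w) (S.x w) ∧ n ∈ m t (S.gm t w) (S.xi w) (S.x w)) := by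
  classical
  set Φ : Om → Ξ × ({i // i ≠ u ∧ i ≠ v} → Pt) × κ × Γ := fun w =>
    (S.xi w, (fun i : {i // i ≠ u ∧ i ≠ v} => S.x w i.1), S.cl t (S.x w v), S.gm t w) with hΦ
  rw [Pr_fib S.P Φ (fun w => F (S.gm t w) (S.xi w) (S.x w)),
    Pr_fib S.P Φ (fun w => F (S.gm t w) (S.xi w) (S.x w) ∧ n ∈ m t (S.gm t w) (S.xi w) (S.x w)), Finset.mul_sum]
  refine Finset.sum_le_sum fun φ hφ => ?_
  obtain ⟨w0, _, rfl⟩ := Finset.mem_image.1 hφ
  have hfib : ∀ w, Φ w = Φ w0 ↔ (S.xi w = S.xi w0 ∧ (∀ i, i ≠ u → i ≠ v → S.x w i = S.x w0 i) ∧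
      S.cl t (S.x w v) = S.cl t (S.x w0 v) ∧ S.gm t w = S.gm t w0) := by
    intro w
    rw [hΦ]
    simp only
    rw [Prod.ext_iff, Prod.ext_iff, Prod.ext_iff]
    refine and_congr Iff.rfl (and_congr ?_ Iff.rfl)
    constructor
    · intro h i hi hi'
      exact congrFun h ⟨i, hi, hi'⟩
    · intro h
      funext i
      exact h i.1 i.2.1 i.2.2
  by_cases hx : F (S.gm t w0) (S.xi w0) (S.x w0)
  · -- constant on the fibre
    have hcon : ∀ w, Φ w = Φ w0 → F (S.gm t w) (S.xi w) (S.x w) := by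
      intro w hw
      obtain ⟨a, b, d, e⟩ := (hfib w).1 hw
      rw [a, e]
      have := DepUV.val_eq (hF (S.gm t w0) (S.xi w0)) (x := S.x w) (y := S.x w0) b d
      rw [this]; exact hx
    have e1 : S.P.Pr (fun w => Φ w = Φ w0 ∧ F (S.gm t w) (S.xi w) (S.x w)) = S.P.Pr (fun w => Φ w = Φ w0) :=
      S.P.Pr_congr fun w _ => ⟨fun h => h.1, fun h => ⟨h, hcon w h⟩⟩
    have e2 : S.P.Pr (fun w => Φ w = Φ w0 ∧ F (S.gm t w) (S.xi w) (S.x w) ∧ n ∈ m t (S.gm t w) (S.xi w) (S.x w)) =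
        S.P.Pr (fun w => Φ w = Φ w0 ∧ n ∈ m t (S.gm t w) (S.xi w) (S.x w)) :=
      S.P.Pr_congr fun w _ => ⟨fun h => ⟨h.1, h.2.2⟩, fun h => ⟨h.1, hcon w h.1, h.2⟩⟩
    rw [e1, e2]
    have hI : (univ.erase u : Finset ι) ≠ univ := by
      intro h
      have := mem_univ u
      rw [← h] at this
      exact (mem_erase.1 this).1 rfl
    set p0 : ℝ := S.P.Pr (fun w => S.gm t w = S.gm t w0) /
      (Fintype.card Ξ * (Fintype.card Pt : ℝ) ^ (univ.erase u : Finset ι).card) with hp0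
    have hp0n : 0 ≤ p0 := div_nonneg (S.P.Pr_nonneg _) (by positivity)
    -- one value of `x v`
    have hone : ∀ y : Pt, S.P.Pr (fun w => S.x w v = y ∧ (S.xi w = S.xi w0 ∧
        (∀ i, i ≠ u → i ≠ v → S.x w i = S.x w0 i) ∧ S.gm t w = S.gm t w0)) = p0 := by
      intro y
      rw [hp0, ← S.law_set hI t (S.gm t w0) (S.xi w0) (Function.update (S.x w0) v y)]
      refine S.P.Pr_congr fun w _ => ?_
      constructor
      · rintro ⟨a, b, c', d⟩
        refine ⟨b, fun j hj => ?_, d⟩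
        rcases eq_or_ne j v with e | e
        · subst e; rw [Function.update_self]; exact a
        · rw [Function.update_of_ne e]; exact c' j (mem_erase.1 hj).1 e
      · rintro ⟨b, c', d⟩
        refine ⟨?_, b, fun i hi hi' => ?_, d⟩
        · have := c' v (mem_erase.2 ⟨huv.symm, mem_univ _⟩)
          rw [Function.update_self] at this
          exact this
        · have := c' i (mem_erase.2 ⟨hi, mem_univ _⟩)
          rw [Function.update_of_ne hi'] at this
          exact this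
    have h3 : S.P.Pr (fun w => Φ w = Φ w0) = ∑ y : Pt, ind (S.cl t y = S.cl t (S.x w0 v)) * p0 := by
      rw [Pr_univ S.P (fun w => S.x w v) (fun w => Φ w = Φ w0)]
      refine Finset.sum_congr rfl fun y _ => ?_
      by_cases hy : S.cl t y = S.cl t (S.x w0 v)
      · rw [ind_of hy, one_mul, ← hone y]
        refine S.P.Pr_congr fun w _ => ?_
        rw [hfib w]
        constructor
        · rintro ⟨a, b, c', d, e⟩; exact ⟨a, b, c', e⟩
        · rintro ⟨a, b, c', e⟩; exact ⟨a, b, c', by rw [a]; exact hy, e⟩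
      · rw [ind_not hy, zero_mul, ← Pr_false S.P]
        refine S.P.Pr_congr fun w _ => ?_
        rw [hfib w]
        constructor
        · rintro ⟨a, _, _, d, _⟩; exact hy (by rw [← a]; exact d)
        · exact fun h => h.elim
    have h4 : S.P.Pr (fun w => Φ w = Φ w0 ∧ n ∈ m t (S.gm t w) (S.xi w) (S.x w)) =
        ∑ y : Pt, ind (S.cl t y = S.cl t (S.x w0 v) ∧
          n ∈ m t (S.gm t w0) (S.xi w0) (Function.update (S.x w0) v y)) * p0 := by
      rw [Pr_univ S.P (fun w => S.x w v) (fun w => Φ w = Φ w0 ∧ n ∈ m t (S.gm t w) (S.xi w) (S.x w))]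
      refine Finset.sum_congr rfl fun y _ => ?_
      have hmem : ∀ w, S.x w v = y → Φ w = Φ w0 → (n ∈ m t (S.gm t w) (S.xi w) (S.x w) ↔
          n ∈ m t (S.gm t w0) (S.xi w0) (Function.update (S.x w0) v y)) := by
        intro w hy hw
        obtain ⟨a, b, _, e⟩ := (hfib w).1 hw
        rw [a, e]
        have : m t (S.gm t w0) (S.xi w0) (S.x w) = m t (S.gm t w0) (S.xi w0) (Function.update (S.x w0) v y) := by
          refine hm t _ _ _ _ fun i hi => ?_
          rcases eq_or_ne i v with e' | e'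
          · subst e'; rw [Function.update_self]; exact hy
          · rw [Function.update_of_ne e']; exact b i (mem_erase.1 hi).1 e'
        rw [this]
      by_cases hy : S.cl t y = S.cl t (S.x w0 v) ∧ n ∈ m t (S.gm t w0) (S.xi w0) (Function.update (S.x w0) v y)
      · rw [ind_of hy, one_mul, ← hone y]
        refine S.P.Pr_congr fun w _ => ?_
        constructor
        · rintro ⟨a, b, _⟩
          obtain ⟨b1, b2, _, b4⟩ := (hfib w).1 b
          exact ⟨a, b1, b2, b4⟩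
        · rintro ⟨a, b, c', e⟩
          have hw : Φ w = Φ w0 := (hfib w).2 ⟨b, c', by rw [a]; exact hy.1, e⟩
          exact ⟨a, hw, (hmem w a hw).2 hy.2⟩
      · rw [ind_not hy, zero_mul, ← Pr_false S.P]
        refine S.P.Pr_congr fun w _ => ?_
        constructor
        · rintro ⟨a, b, d⟩
          obtain ⟨_, _, b3, _⟩ := (hfib w).1 b
          exact hy ⟨by rw [← a]; exact b3, (hmem w a b).1 d⟩
        · exact fun h => h.elim
    rw [h3, h4, ← Finset.sum_mul, ← Finset.sum_mul, ← mul_assoc]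
    refine mul_le_mul_of_nonneg_right ?_ hp0n
    have h5 := hc _ _ _ hx
    unfold dn at h5
    rwa [le_div_iff₀ (cell_pos S t (S.x w0 v))] at h5
  · have e1 : S.P.Pr (fun w => Φ w = Φ w0 ∧ F (S.gm t w) (S.xi w) (S.x w)) = 0 := by
      rw [← Pr_false S.P]
      refine S.P.Pr_congr fun w _ => ?_
      constructor
      · rintro ⟨a, b⟩
        obtain ⟨b1, b2, b3, b4⟩ := (hfib w).1 a
        rw [b1, b4] at b
        have := DepUV.val_eq (hF (S.gm t w0) (S.xi w0)) (x := S.x w) (y := S.x w0) b2 b3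
        rw [this] at b
        exact hx b
      · exact fun h => h.elim
    rw [e1, mul_zero]
    exact S.P.Pr_nonneg _

/-- lists along a path -/
theorem mem_le (hmono : ∀ t g ξ x, m t (S.par t g) ξ x ⊆ m (t + 1) g ξ x) {s t : ℕ} (h : s ≤ t) (w : Om) :
    m s (S.gm s w) (S.xi w) (S.x w) ⊆ m t (S.gm t w) (S.xi w) (S.x w) := by
  induction t, h using Nat.le_induction with
  | base => exact subset_rfl
  | succ t _ ih =>
    refine ih.trans ?_
    have := hmono t (S.gm (t + 1) w) (S.xi w) (S.x w)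
    rwa [S.par_gm] at this

/-- **maximal inequality** for the density in the true cell -/
theorem doob {u : ι} (huv : u ≠ v) (hm : ∀ t g ξ, Dep (univ.erase u) (m t g ξ))
    (hmono : ∀ t g ξ x, m t (S.par t g) ξ x ⊆ m (t + 1) g ξ x) (n T : ℕ) (c : ℝ) :
    c * S.P.Pr (fun w => ∃ t ≤ T, c ≤ dn S m v n t (S.gm t w) (S.xi w) (S.x w)) ≤
      S.P.Pr (fun w => n ∈ m T (S.gm T w) (S.xi w) (S.x w)) := by
  classical
  rcases le_or_gt c 0 with hc0 | hc0
  · exact (mul_nonpos_of_nonpos_of_nonneg hc0 (S.P.Pr_nonneg _)).trans (S.P.Pr_nonneg _)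
  set F : ℕ → Γ → Ξ → (ι → Pt) → Prop := fun t g ξ x => c ≤ dn S m v n t g ξ x ∧
    ∀ s < t, ¬ c ≤ dn S m v n s (S2.anc S.par t g s) ξ x with hF
  have hFd : ∀ t g ξ, DepUV S u v t (F t g ξ) := by
    intro t g ξ x y hA hv
    simp only [hF]
    rw [dn_dep hm n t g ξ x y hA hv]
    refine congrArg _ (propext (forall_congr' fun s => forall_congr' fun hs => ?_))
    rw [dn_dep hm n s _ ξ x y hA fun i hi => S.cl_le hs.le (hv i hi)]
  have h1 : S.P.Pr (fun w => ∃ t ≤ T, c ≤ dn S m v n t (S.gm t w) (S.xi w) (S.x w)) ≤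
      ∑ t ∈ range (T + 1), S.P.Pr (fun w => F t (S.gm t w) (S.xi w) (S.x w)) := by
    refine le_trans (S.P.Pr_mono fun w _ h => ?_) (S.P.Pr_ex_le (range (T + 1)) fun t w =>
      F t (S.gm t w) (S.xi w) (S.x w))
    obtain ⟨t, ht, hq⟩ := h
    have hex : ∃ s, c ≤ dn S m v n s (S.gm s w) (S.xi w) (S.x w) := ⟨t, hq⟩
    have hmin := Nat.find_min' hex hq
    refine ⟨Nat.find hex, mem_range.2 (by omega), Nat.find_spec hex, fun s hs => ?_⟩
    rw [S.anc_gm hs.le]
    exact Nat.find_min hex hs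
  have h2 : c * ∑ t ∈ range (T + 1), S.P.Pr (fun w => F t (S.gm t w) (S.xi w) (S.x w)) ≤
      ∑ t ∈ range (T + 1), S.P.Pr (fun w => F t (S.gm t w) (S.xi w) (S.x w) ∧
        n ∈ m t (S.gm t w) (S.xi w) (S.x w)) := by
    rw [Finset.mul_sum]
    exact Finset.sum_le_sum fun t _ => doob_one huv hm n t (hFd t) fun g ξ x h => h.1
  refine (mul_le_mul_of_nonneg_left h1 hc0.le).trans (h2.trans ?_)
  unfold FP.Pr
  rw [← S.P.E_sum]
  refine S.P.E_mono fun w _ => ?_
  by_cases he : ∃ t ∈ range (T + 1), F t (S.gm t w) (S.xi w) (S.x w) ∧ n ∈ m t (S.gm t w) (S.xi w) (S.x w)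
  · obtain ⟨t, ht, hf⟩ := he
    have ht' := mem_range.1 ht
    rw [ind_of (mem_le hmono (by omega : t ≤ T) w hf.2)]
    rw [Finset.sum_eq_single_of_mem t ht]
    · exact ind_le_one _
    · intro s _ hst
      apply ind_not
      intro hfs
      rcases lt_or_gt_of_ne hst with h | h
      · exact hf.1.2 s h (by rw [S.anc_gm h.le]; exact hfs.1.1)
      · exact hfs.1.2 t h (by rw [S.anc_gm h.le]; exact hf.1.1)
  · have : ∀ t ∈ range (T + 1), ind (F t (S.gm t w) (S.xi w) (S.x w) ∧ n ∈ m t (S.gm t w) (S.xi w) (S.x w)) = 0 :=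
      fun t ht => ind_not fun hf => he ⟨t, ht, hf⟩
    rw [Finset.sum_eq_zero this]
    exact ind_nonneg _

/-- **weak type bound for the scale** -/
theorem weak {u : ι} (huv : u ≠ v) (hm : ∀ t g ξ, Dep (univ.erase u) (m t g ξ))
    (hmono : ∀ t g ξ x, m t (S.par t g) ξ x ⊆ m (t + 1) g ξ x) (n T : ℕ) {c : ℝ} (hc : 0 < c) :
    c * S.P.Pr (fun w => c ≤ Zt S m v n T (S.gm T w) (S.xi w) (S.x w)) ≤
      S.K * S.P.Pr (fun w => n ∈ m T (S.gm T w) (S.xi w) (S.x w)) := by
  have h1 : S.P.Pr (fun w => c ≤ Zt S m v n T (S.gm T w) (S.xi w) (S.x w)) =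
      S.P.Pr (fun w => ∃ s ≤ T, ∃ w', Cmp S v s w w' ∧ c ≤ dn S m v n s (S.gm s w) (S.xi w) (shw S v w w')) :=
    S.P.Pr_congr fun w _ => le_Zt_w hc
  have h2 := vis_le (S := S) huv T (q := fun t g ξ x => c ≤ dn S m v n t g ξ x) (fun t g ξ x y hA hv => by
    show (c ≤ dn S m v n t g ξ x) = (c ≤ dn S m v n t g ξ y)
    rw [dn_dep hm n t g ξ x y hA hv])
  have h3 := doob (S := S) huv hm hmono n T c
  rw [h1]
  have hK := le_trans zero_le_one S.K1
  calc c * _ ≤ c * (S.K * S.P.Pr (fun w => ∃ t ≤ T, c ≤ dn S m v n t (S.gm t w) (S.xi w) (S.x w))) :=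
        mul_le_mul_of_nonneg_left h2 hc.le
    _ = S.K * (c * S.P.Pr (fun w => ∃ t ≤ T, c ≤ dn S m v n t (S.gm t w) (S.xi w) (S.x w))) := by ring
    _ ≤ _ := mul_le_mul_of_nonneg_left h3 hK

/-- a positive scale: the code is visible -/
theorem pos_le {u : ι} (huv : u ≠ v) {p : CS ι Ξ Pt Γ} (hp : ∀ t g ξ, DepUV S u v t (p t g ξ))
    (hpm : ∀ t g ξ x, p t (S.par t g) ξ x ⊆ p (t + 1) g ξ x) (hsub : ∀ t g ξ x, m t g ξ x ⊆ p t g ξ x) (n T : ℕ) :
    S.P.Pr (fun w => 0 < Zt S m v n T (S.gm T w) (S.xi w) (S.x w)) ≤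
      S.K * S.P.Pr (fun w => n ∈ p T (S.gm T w) (S.xi w) (S.x w)) := by
  have h2 := vis_le (S := S) huv T (q := fun t g ξ x => n ∈ p t g ξ x) (fun t g ξ x y hA hv => by
    show (n ∈ p t g ξ x) = (n ∈ p t g ξ y)
    rw [hp t g ξ x y hA hv])
  refine le_trans (S.P.Pr_mono fun w _ h => ?_) (h2.trans (mul_le_mul_of_nonneg_left
    (S.P.Pr_mono fun w _ h => ?_) (le_trans zero_le_one S.K1)))
  · obtain ⟨s, hs, w', hc, hd⟩ := (le_Zt_w h).1 (le_refl (Zt S m v n T (S.gm T w) (S.xi w) (S.x w)))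
    obtain ⟨y, hy, hn⟩ := exists_of_dn_pos S m v (lt_of_lt_of_le h hd)
    refine ⟨s, hs, w', hc, ?_⟩
    have h3 := hsub _ _ _ _ hn
    have h4 : p s (S.gm s w) (S.xi w) (Function.update (shw S v w w') v y) = p s (S.gm s w) (S.xi w) (shw S v w w') := by
      refine DepUV.val_eq (hp s _ _) (fun i _ hi => by rw [Function.update_of_ne hi]) ?_
      rw [Function.update_self]; exact hy
    rw [h4] at h3
    exact h3
  · obtain ⟨t, ht, hn⟩ := h
    exact mem_le hpm ht w hn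

/-- mean of the scale -/
theorem E_Zt {u : ι} (huv : u ≠ v) (hm : ∀ t g ξ, Dep (univ.erase u) (m t g ξ))
    (hmono : ∀ t g ξ x, m t (S.par t g) ξ x ⊆ m (t + 1) g ξ x)
    {p : CS ι Ξ Pt Γ} (hp : ∀ t g ξ, DepUV S u v t (p t g ξ))
    (hpm : ∀ t g ξ x, p t (S.par t g) ξ x ⊆ p (t + 1) g ξ x) (hsub : ∀ t g ξ x, m t g ξ x ⊆ p t g ξ x) (n T J : ℕ) :
    S.P.E (fun w => Zt S m v n T (S.gm T w) (S.xi w) (S.x w)) ≤
      S.K * ((1 / 2 : ℝ) ^ J * S.P.Pr (fun w => n ∈ p T (S.gm T w) (S.xi w) (S.x w)) +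
        2 * J * S.P.Pr (fun w => n ∈ m T (S.gm T w) (S.xi w) (S.x w))) := by
  set Z : Om → ℝ := fun w => Zt S m v n T (S.gm T w) (S.xi w) (S.x w) with hZ
  have h1 : S.P.E Z ≤ S.P.E (fun w => (1 / 2 : ℝ) ^ J * ind (0 < Z w) +
      ∑ j ∈ range J, (1 / 2 : ℝ) ^ j * ind ((1 / 2 : ℝ) ^ (j + 1) ≤ Z w)) := by
    refine S.P.E_mono fun w _ => ?_
    rcases eq_or_lt_of_le (show 0 ≤ Z w from Zt_nonneg _ _ _ _ _ _ _ _) with h | h
    · rw [← h]
      exact add_nonneg (mul_nonneg (by positivity) (ind_nonneg _))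
        (Finset.sum_nonneg fun j _ => mul_nonneg (by positivity) (ind_nonneg _))
    · rw [ind_of h, mul_one]
      exact dyadic_le (Zt_le_one _ _ _ _ _) J
  rw [S.P.E_add, S.P.E_smul, S.P.E_sum] at h1
  have hK := le_trans zero_le_one S.K1
  have h2 := pos_le (S := S) (m := m) huv hp hpm hsub n T
  have h3 : ∀ j ∈ range J, S.P.E (fun w => (1 / 2 : ℝ) ^ j * ind ((1 / 2 : ℝ) ^ (j + 1) ≤ Z w)) ≤
      2 * (S.K * S.P.Pr (fun w => n ∈ m T (S.gm T w) (S.xi w) (S.x w))) := by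
    intro j _
    rw [S.P.E_smul]
    have h4 := weak (S := S) huv hm hmono n T (c := (1 / 2 : ℝ) ^ (j + 1)) (by positivity)
    have e : (1 / 2 : ℝ) ^ j = 2 * (1 / 2 : ℝ) ^ (j + 1) := by rw [pow_succ]; ring
    rw [e, mul_assoc]
    exact mul_le_mul_of_nonneg_left h4 (by norm_num)
  have h5 := Finset.sum_le_sum h3
  rw [Finset.sum_const, card_range, nsmul_eq_mul] at h5
  have h6 : (1 / 2 : ℝ) ^ J * S.P.E (fun w => ind (0 < Z w)) ≤
      (1 / 2 : ℝ) ^ J * (S.K * S.P.Pr (fun w => n ∈ p T (S.gm T w) (S.xi w) (S.x w))) :=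
    mul_le_mul_of_nonneg_left h2 (by positivity)
  refine h1.trans ((add_le_add h6 h5).trans (le_of_eq ?_))
  ring

/-- sum of probabilities of the elements of a random set -/
theorem sum_mem_le (P : FP Om) (U : Finset ℕ) (A : Om → Finset ℕ) :
    ∑ n ∈ U, P.Pr (fun w => n ∈ A w) ≤ P.E (fun w => ((A w).card : ℝ)) := by
  classical
  unfold FP.Pr
  rw [← P.E_sum]
  refine P.E_mono fun w _ => ?_
  have h1 : ∀ n ∈ U, ind (n ∈ A w) = if n ∈ A w then (1 : ℝ) else 0 := by
    intro n _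
    by_cases h : n ∈ A w
    · rw [ind_of h, if_pos h]
    · rw [ind_not h, if_neg h]
  rw [Finset.sum_congr rfl h1, ← Finset.sum_filter, Finset.sum_const, nsmul_eq_mul, mul_one]
  exact_mod_cast Finset.card_le_card fun n hn => (Finset.mem_filter.1 hn).2

/-- **sum of the mean scales** -/
theorem sum_Zt {u : ι} (huv : u ≠ v) (hm : ∀ t g ξ, Dep (univ.erase u) (m t g ξ))
    (hmono : ∀ t g ξ x, m t (S.par t g) ξ x ⊆ m (t + 1) g ξ x)
    {p : CS ι Ξ Pt Γ} (hp : ∀ t g ξ, DepUV S u v t (p t g ξ))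
    (hpm : ∀ t g ξ x, p t (S.par t g) ξ x ⊆ p (t + 1) g ξ x) (hsub : ∀ t g ξ x, m t g ξ x ⊆ p t g ξ x)
    (T J : ℕ) (U : Finset ℕ) :
    ∑ n ∈ U, S.P.E (fun w => Zt S m v n T (S.gm T w) (S.xi w) (S.x w)) ≤
      S.K * ((1 / 2 : ℝ) ^ J * S.P.E (fun w => ((p T (S.gm T w) (S.xi w) (S.x w)).card : ℝ)) +
        2 * J * S.P.E (fun w => ((m T (S.gm T w) (S.xi w) (S.x w)).card : ℝ))) := by
  refine (Finset.sum_le_sum fun n _ => E_Zt (S := S) huv hm hmono hp hpm hsub n T J).trans ?_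
  rw [← Finset.mul_sum, Finset.sum_add_distrib, ← Finset.mul_sum, ← Finset.mul_sum]
  have hK := le_trans zero_le_one S.K1
  refine mul_le_mul_of_nonneg_left (add_le_add (mul_le_mul_of_nonneg_left (sum_mem_le S.P U _) (by positivity))
    (mul_le_mul_of_nonneg_left (sum_mem_le S.P U _) (by positivity))) hK

/-- **mean number of recorded codes**, new coins `z` with levels `lv` -/
theorem rec_le {Ξ2 : Type} [Fintype Ξ2] [Nonempty Ξ2] (U : Finset ℕ) (Z : ℕ → Om → ℝ) (hZ : ∀ n w, 0 ≤ Z n w)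
    {Rr : ℝ} (hR : 0 ≤ Rr) (lv : Om → Ξ2 → ℕ → ℕ)
    (hlv : ∀ w n (y : ℝ), 0 ≤ y → (∑ z : Ξ2, ind ((1 / 2 : ℝ) ^ (lv w z n) ≤ y)) / Fintype.card Ξ2 ≤ y) :
    (coinFP S.P Ξ2).E (fun w => ∑ n ∈ U, ind ((1 / 2 : ℝ) ^ (lv w.1 w.2 n) ≤ Rr * Z n w.1)) ≤
      Rr * ∑ n ∈ U, S.P.E (Z n) := by
  rw [FP.E_sum, Finset.mul_sum]
  refine Finset.sum_le_sum fun n _ => ?_
  rw [coinFP_E, ← S.P.E_smul]
  exact S.P.E_mono fun w _ => hlv w n (Rr * Z n w) (mul_nonneg hR (hZ n w))

end

end Pool.Agent.GMN
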