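import Pool.Agent.GMN.Rank

/-!
# GMN/Ren (helper19): RENUMBERING BY RANKS, bounded numbers of public sets, operations on public sets

* `Ren S β α I` : a renumbering of the numbers `α` by `β` : `N b t g x : Option α` is a function of `x_I` and the node, it never
  changes once it is `some`; `Ren.const`, `Ren.map`, `Ren.prod`, `Ren.pi`, `Ren.nth` (ranks in a growing set),
  `PSt.ren A B : Ren S (Fin B) ℕ (univ.erase l)` = the first `B` ranks in the public set `A`;
* `Ren.Hit R a t w` : the number `a` has a new number at the sample point `w` at time `t` (and then for ever); `hit_pset` : every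
  element of a public set with at most `B` elements is hit, `hit_prod`, `hit_pi`, `hit_const`;
* `NumF.ren X R` : numbered functions with the new numbers, `ren_at`, `ren_on`, `exists_ren`;
* `NumF.f0`, `NumF.nf` : a numbered function, killed at time `0`, is a numbered function `NF` of Lemma T_j;
* public sets: `PSt.img`, `PSt.union`, `PSt.prod` (codes `Nat.pair`), `PSt.sig` (pairs `(ν, x)`, `x` in the public set of `ν`) and
  their cardinalities.
-/

set_option autoImplicit false
set_option linter.unusedSectionVars false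

namespace Pool.Agent.GMN

open Finset Pool.Agent.PWZ Pool.Agent.M3 Pool.Agent.M3.TS Pool.Agent.GM

noncomputable section

variable {ι Om Ξ Pt V Γ κ : Type} [Fintype ι] [DecidableEq ι] [Fintype Om] [Fintype Ξ] [Fintype Pt]
  [Fintype V]

/-- renumbering: the number `b` stands for `N b t g x` -/
structure Ren (S : Sys ι Om Ξ Pt V Γ κ) (β α : Type) (I : Finset ι) where
  N : β → ℕ → Γ → (ι → Pt) → Option α
  dep : ∀ b t g, Dep I (N b t g)
  keep : ∀ b t g x a, N b t (S.par t g) x = some a → N b (t + 1) g x = some a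

variable {S : Sys ι Om Ξ Pt V Γ κ}

namespace Ren

variable {α β α' β' : Type} {I J : Finset ι}

/-- the new number `b` stands for `a` at the sample point -/
def At (R : Ren S β α I) (b : β) (t : ℕ) (w : Om) (a : α) : Prop := R.N b t (S.gm t w) (S.x w) = some a

/-- started: the number stands for something -/
def on (R : Ren S β α I) (b : β) (t : ℕ) (g : Γ) (x : ι → Pt) : Prop := ∃ a, R.N b t g x = some a

/-- `a` has a new number -/
def Hit (R : Ren S β α I) (a : α) (t : ℕ) (w : Om) : Prop := ∃ b, R.At b t w a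

theorem on_dep (R : Ren S β α I) (b : β) (t : ℕ) (g : Γ) : Dep I (R.on b t g) := fun x y h => by
  unfold on
  rw [R.dep b t g x y h]

theorem on_keep (R : Ren S β α I) {b : β} {t : ℕ} {g : Γ} {x : ι → Pt} (h : R.on b t (S.par t g) x) :
    R.on b (t + 1) g x := by
  obtain ⟨a, ha⟩ := h
  exact ⟨a, R.keep b t g x a ha⟩

theorem At.le {R : Ren S β α I} {b : β} {t s : ℕ} (hts : t ≤ s) {w : Om} {a : α} (h : R.At b t w a) :
    R.At b s w a := by
  induction s, hts using Nat.le_induction with
  | base => exact h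
  | succ s _ ih =>
    refine R.keep b s _ _ a ?_
    rw [S.par_gm]
    exact ih

theorem At.uniq {R : Ren S β α I} {b : β} {t : ℕ} {w : Om} {a a' : α} (h : R.At b t w a) (h' : R.At b t w a') :
    a = a' := Option.some.inj (h.symm.trans h')

theorem Hit.le {R : Ren S β α I} {a : α} {t s : ℕ} (hts : t ≤ s) {w : Om} (h : R.Hit a t w) : R.Hit a s w := by
  obtain ⟨b, hb⟩ := h
  exact ⟨b, hb.le hts⟩

/-- the same on a larger set of vertices -/
def up (R : Ren S β α I) (h : I ⊆ J) : Ren S β α J where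
  N := R.N
  dep b t g := (R.dep b t g).mono h
  keep := R.keep

/-- every number stands for `a` -/
def const (S : Sys ι Om Ξ Pt V Γ κ) (β : Type) (I : Finset ι) (a : α) : Ren S β α I where
  N _ _ _ _ := some a
  dep _ _ _ := fun _ _ _ => rfl
  keep _ _ _ _ _ h := h

theorem hit_const [Nonempty β] (a : α) (t : ℕ) (w : Om) : (const S β I a).Hit a t w :=
  ⟨Classical.arbitrary β, rfl⟩

/-- image -/
def map (R : Ren S β α I) (φ : α → α') : Ren S β α' I where
  N b t g x := (R.N b t g x).map φ
  dep b t g := fun x y h => by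
    show (R.N b t g x).map φ = (R.N b t g y).map φ
    rw [R.dep b t g x y h]
  keep b t g x a h := by
    obtain ⟨a0, h0, rfl⟩ := Option.map_eq_some_iff.1 h
    exact Option.map_eq_some_iff.2 ⟨a0, R.keep b t g x a0 h0, rfl⟩

theorem hit_map {R : Ren S β α I} {a : α} {t : ℕ} {w : Om} (h : R.Hit a t w) (φ : α → α') :
    (R.map φ).Hit (φ a) t w := by
  obtain ⟨b, hb⟩ := h
  exact ⟨b, Option.map_eq_some_iff.2 ⟨a, hb, rfl⟩⟩

/-- pairs of numbers -/
def prod (R : Ren S β α I) (Q : Ren S β' α' I) : Ren S (β × β') (α × α') I where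
  N b t g x := (R.N b.1 t g x).bind fun a => (Q.N b.2 t g x).map fun a' => (a, a')
  dep b t g := fun x y h => by
    show (R.N b.1 t g x).bind (fun a => (Q.N b.2 t g x).map fun a' => (a, a')) =
      (R.N b.1 t g y).bind (fun a => (Q.N b.2 t g y).map fun a' => (a, a'))
    rw [R.dep b.1 t g x y h, Q.dep b.2 t g x y h]
  keep b t g x a h := by
    obtain ⟨a1, h1, h2⟩ := Option.bind_eq_some_iff.1 h
    obtain ⟨a2, h3, rfl⟩ := Option.map_eq_some_iff.1 h2
    exact Option.bind_eq_some_iff.2 ⟨a1, R.keep _ _ _ _ _ h1, Option.map_eq_some_iff.2 ⟨a2, Q.keep _ _ _ _ _ h3, rfl⟩⟩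

theorem at_prod {R : Ren S β α I} {Q : Ren S β' α' I} {b : β × β'} {a : α × α'} {t : ℕ} {w : Om} :
    (R.prod Q).At b t w a ↔ R.At b.1 t w a.1 ∧ Q.At b.2 t w a.2 := by
  constructor
  · intro h
    obtain ⟨a1, h1, h2⟩ := Option.bind_eq_some_iff.1 h
    obtain ⟨a2, h3, h4⟩ := Option.map_eq_some_iff.1 h2
    subst h4
    exact ⟨h1, h3⟩
  · rintro ⟨h1, h2⟩
    exact Option.bind_eq_some_iff.2 ⟨a.1, h1, Option.map_eq_some_iff.2 ⟨a.2, h2, rfl⟩⟩

theorem hit_prod {R : Ren S β α I} {Q : Ren S β' α' I} {a : α × α'} {t : ℕ} {w : Om} (h1 : R.Hit a.1 t w)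
    (h2 : Q.Hit a.2 t w) : (R.prod Q).Hit a t w := by
  obtain ⟨b, hb⟩ := h1
  obtain ⟨b', hb'⟩ := h2
  exact ⟨(b, b'), at_prod.2 ⟨hb, hb'⟩⟩

section pi

variable {σ : Type} {A B : σ → Type}

open Classical in
/-- families of numbers -/
def pi (R : ∀ u, Ren S (B u) (A u) I) : Ren S (∀ u, B u) (∀ u, A u) I where
  N b t g x := if h : ∀ u, ∃ a, (R u).N (b u) t g x = some a then some fun u => (h u).choose else none
  dep b t g := fun x y h => by
    have h1 : ∀ u, (R u).N (b u) t g x = (R u).N (b u) t g y := fun u => (R u).dep (b u) t g x y h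
    have h2 : (fun u => (R u).N (b u) t g x) = fun u => (R u).N (b u) t g y := funext h1
    have h3 : ∀ F G : ∀ u, Option (A u), F = G →
        (if h : ∀ u, ∃ a, F u = some a then some fun u => (h u).choose else none) =
        (if h : ∀ u, ∃ a, G u = some a then some fun u => (h u).choose else none) := by
      intro F G hFG
      subst hFG
      rfl
    exact h3 _ _ h2
  keep b t g x a h := by
    by_cases h1 : ∀ u, ∃ a, (R u).N (b u) t (S.par t g) x = some a
    · rw [dif_pos h1, Option.some.injEq] at h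
      have h2 : ∀ u, ∃ a, (R u).N (b u) (t + 1) g x = some a := fun u =>
        ⟨_, (R u).keep _ _ _ _ _ (h1 u).choose_spec⟩
      rw [dif_pos h2, Option.some.injEq, ← h]
      funext u
      exact Option.some.inj ((h2 u).choose_spec.symm.trans ((R u).keep _ _ _ _ _ (h1 u).choose_spec))
    · rw [dif_neg h1] at h
      exact absurd h (by simp)

theorem at_pi {R : ∀ u, Ren S (B u) (A u) I} {b : ∀ u, B u} {a : ∀ u, A u} {t : ℕ} {w : Om} :
    (pi R).At b t w a ↔ ∀ u, (R u).At (b u) t w (a u) := by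
  classical
  unfold At
  show (if h : ∀ u, ∃ a, (R u).N (b u) t (S.gm t w) (S.x w) = some a then some fun u => (h u).choose
    else none) = some a ↔ _
  constructor
  · intro h u
    by_cases h1 : ∀ u, ∃ a, (R u).N (b u) t (S.gm t w) (S.x w) = some a
    · rw [dif_pos h1, Option.some.injEq] at h
      rw [← h]
      exact (h1 u).choose_spec
    · rw [dif_neg h1] at h
      exact absurd h (by simp)
  · intro h
    have h1 : ∀ u, ∃ a, (R u).N (b u) t (S.gm t w) (S.x w) = some a := fun u => ⟨_, h u⟩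
    rw [dif_pos h1, Option.some.injEq]
    funext u
    exact Option.some.inj ((h1 u).choose_spec.symm.trans (h u))

theorem hit_pi {R : ∀ u, Ren S (B u) (A u) I} {a : ∀ u, A u} {t : ℕ} {w : Om} (h : ∀ u, (R u).Hit (a u) t w) :
    (pi R).Hit a t w := by
  classical
  choose b hb using h
  exact ⟨b, at_pi.2 hb⟩

end pi

/-- ranks in a growing set -/
def nth (S : Sys ι Om Ξ Pt V Γ κ) (A : ℕ → Γ → (ι → Pt) → Finset ℕ) (B : ℕ) (hA : ∀ t g, Dep I (A t g)) :
    Ren S (Fin B) ℕ I where
  N r := GMN.nth S A r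
  dep r := nth_dep hA r
  keep _ _ _ _ _ h := nth_succ h

end Ren

/-- the first `B` ranks in a public set -/
def PSt.ren {l : ι} (A : PSt S l) (B : ℕ) : Ren S (Fin B) ℕ (univ.erase l) := Ren.nth S A.L B A.dep

theorem PSt.grow {l : ι} (A : PSt S l) : Grow S A.L := A.mono

/-- every element of a public set with at most `B` elements has a rank `< B` -/
theorem PSt.hit {l : ι} (A : PSt S l) {B t : ℕ} {w : Om} {ν : ℕ} (hc : (A.at' t w).card ≤ B) (hν : ν ∈ A.at' t w) :
    (A.ren B).Hit ν t w := by
  obtain ⟨r, hr, h⟩ := exists_nth (S := S) A.grow hν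
  exact ⟨⟨r, lt_of_lt_of_le hr hc⟩, h⟩

theorem PSt.at_mem {l : ι} (A : PSt S l) {B t : ℕ} {w : Om} {ν : ℕ} {r : Fin B} (h : (A.ren B).At r t w ν) :
    ν ∈ A.at' t w := nth_mem A.grow h

/-- ranks in a public set are unique -/
theorem PSt.at_inj {l : ι} (A : PSt S l) {B t : ℕ} {w : Om} {ν : ℕ} {r r' : Fin B} (h : (A.ren B).At r t w ν)
    (h' : (A.ren B).At r' t w ν) : r = r' := Fin.ext (nth_inj h h')

namespace NumF

variable {α β : Type} {I J : Finset ι}

/-- the numbered functions with the new numbers -/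
def ren (X : NumF S α J) (R : Ren S β α I) (hJI : J ⊆ I) : NumF S β I where
  inn b t g x := ∃ a, R.N b t g x = some a ∧ X.inn a t g x
  f b t g x := (R.N b t g x).elim 0 fun a => X.f a t g x
  inn_dep b t g := fun x y h => by
    show (∃ a, R.N b t g x = some a ∧ X.inn a t g x) = (∃ a, R.N b t g y = some a ∧ X.inn a t g y)
    rw [R.dep b t g x y h]
    refine congrArg _ (funext fun a => ?_)
    rw [X.inn_dep a t g x y fun i hi => h i (hJI hi)]
  f_dep b t g := fun x y h => by
    show (R.N b t g x).elim 0 (fun a => X.f a t g x) = (R.N b t g y).elim 0 fun a => X.f a t g y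
    rw [R.dep b t g x y h]
    have h1 : (fun a => X.f a t g x) = fun a => X.f a t g y := funext fun a =>
      X.f_dep a t g x y fun i hi => h i (hJI hi)
    rw [h1]
  le1 b t g x d := by
    cases R.N b t g x with
    | none => simp
    | some a => exact X.le1 a t g x d
  zero b t g x h := by
    show (R.N b t g x).elim 0 (fun a => X.f a t g x) = 0
    cases h1 : R.N b t g x with
    | none => rfl
    | some a => exact X.zero a t g x fun h2 => h ⟨a, h1, h2⟩
  keep b t g x h := by
    obtain ⟨a, h1, h2⟩ := h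
    exact ⟨a, R.keep b t g x a h1, X.keep a t g x h2⟩
  stat b t g x h := by
    obtain ⟨a, h1, h2⟩ := h
    show (R.N b (t + 1) g x).elim 0 (fun a => X.f a (t + 1) g x) =
      (R.N b t (S.par t g) x).elim 0 fun a => X.f a t (S.par t g) x
    rw [h1, R.keep b t g x a h1]
    exact X.stat a t g x h2

theorem ren_at {X : NumF S α J} {R : Ren S β α I} {hJI : J ⊆ I} {b : β} {t : ℕ} {w : Om} {a : α}
    (h : R.At b t w a) : (X.ren R hJI).at' b t w = X.at' a t w := by
  unfold at' ren
  unfold Ren.At at h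
  simp only [h]
  rfl

theorem ren_on {X : NumF S α J} {R : Ren S β α I} {hJI : J ⊆ I} {b : β} {t : ℕ} {w : Om} {a : α}
    (h : R.At b t w a) : (X.ren R hJI).on b t w ↔ X.on a t w := by
  unfold on ren
  unfold Ren.At at h
  simp only [h]
  constructor
  · rintro ⟨a', h1, h2⟩
    rw [Option.some.injEq] at h1
    rw [h1]
    exact h2
  · intro h1
    exact ⟨a, rfl, h1⟩

/-- a number without meaning is the zero function -/
theorem ren_none {X : NumF S α J} {R : Ren S β α I} {hJI : J ⊆ I} {b : β} {t : ℕ} {w : Om}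
    (h : ¬ R.on b t (S.gm t w) (S.x w)) : (X.ren R hJI).at' b t w = 0 := by
  refine at_zero _ ?_
  rintro ⟨a, h1, _⟩
  exact h ⟨a, h1⟩

/-- a number with a new number: the same value at ALL later times -/
theorem exists_ren {X : NumF S α J} {R : Ren S β α I} {hJI : J ⊆ I} {t : ℕ} {w : Om} {a : α} (h : R.Hit a t w) :
    ∃ b, ∀ u, t ≤ u → (X.ren R hJI).at' b u w = X.at' a u w := by
  obtain ⟨b, hb⟩ := h
  exact ⟨b, fun u hu => ren_at (hb.le hu)⟩

/-! ### numbered functions of Lemma T_j -/

/-- killed at time `0` -/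
def f0 (X : NumF S α J) (a : α) : Fn ι Pt V Γ := fun t g x => if t = 0 then 0 else X.f a t g x

theorem f0_zero (X : NumF S α J) (a : α) (g : Γ) (x : ι → Pt) : X.f0 a 0 g x = 0 := if_pos rfl

theorem f0_pos (X : NumF S α J) (a : α) {t : ℕ} (ht : 1 ≤ t) (g : Γ) (x : ι → Pt) : X.f0 a t g x = X.f a t g x :=
  if_neg (by omega)

theorem val0_f0 (X : NumF S α J) (a : α) {t : ℕ} (ht : 1 ≤ t) (w : Om) : val0 S (X.f0 a) t w = X.at' a t w :=
  X.f0_pos a ht _ _

/-- it is a numbered function of Lemma T_j -/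
theorem nf (X : NumF S α J) {i : ι} (hJ : J ⊆ univ.erase i) (a : α) : NF S i (X.f0 a) where
  dep t g := fun x y h => by
    unfold f0
    split_ifs
    · rfl
    · exact X.f_dep a t g x y fun j hj => h j (hJ hj)
  bd t g x d := by
    unfold f0
    split_ifs
    · simp
    · exact X.le1 a t g x d
  zero g x d := by rw [f0_zero]; rfl
  intro t w := by
    rcases Nat.eq_zero_or_pos t with rfl | ht
    · exact Or.inr (X.f0_zero a _ _)
    · rw [X.val0_f0 a ht, X.val0_f0 a (Nat.succ_le_succ (Nat.zero_le t))]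
      by_cases h : X.on a t w
      · exact Or.inl (X.at_succ h)
      · exact Or.inr (X.at_zero h)

end NumF

namespace PSt

variable {l : ι}

/-- image of a public set -/
def img (A : PSt S l) (φ : ℕ → ℕ) : PSt S l where
  L t g x := (A.L t g x).image φ
  dep t g := fun x y h => by
    show (A.L t g x).image φ = (A.L t g y).image φ
    rw [A.dep t g x y h]
  mono t g x := Finset.image_subset_image (A.mono t g x)

theorem img_at (A : PSt S l) (φ : ℕ → ℕ) (t : ℕ) (w : Om) : (A.img φ).at' t w = (A.at' t w).image φ := rfl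

theorem card_img_le (A : PSt S l) (φ : ℕ → ℕ) (t : ℕ) (w : Om) : ((A.img φ).at' t w).card ≤ (A.at' t w).card :=
  Finset.card_image_le

/-- the constant public set -/
def const (S : Sys ι Om Ξ Pt V Γ κ) (l : ι) (s : Finset ℕ) : PSt S l where
  L _ _ _ := s
  dep _ _ := fun _ _ _ => rfl
  mono _ _ _ := subset_rfl

/-- union -/
def union (A B : PSt S l) : PSt S l where
  L t g x := A.L t g x ∪ B.L t g x
  dep t g := fun x y h => by
    show A.L t g x ∪ B.L t g x = A.L t g y ∪ B.L t g y
    rw [A.dep t g x y h, B.dep t g x y h]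
  mono t g x := Finset.union_subset_union (A.mono t g x) (B.mono t g x)

theorem mem_union {A B : PSt S l} {t : ℕ} {w : Om} {ν : ℕ} : ν ∈ (A.union B).at' t w ↔ ν ∈ A.at' t w ∨ ν ∈ B.at' t w :=
  Finset.mem_union

theorem card_union_le (A B : PSt S l) (t : ℕ) (w : Om) :
    ((A.union B).at' t w).card ≤ (A.at' t w).card + (B.at' t w).card := Finset.card_union_le _ _

/-- pairs -/
def prod (A B : PSt S l) : PSt S l where
  L t g x := (A.L t g x ×ˢ B.L t g x).image fun z => Nat.pair z.1 z.2
  dep t g := fun x y h => by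
    show (A.L t g x ×ˢ B.L t g x).image (fun z => Nat.pair z.1 z.2) =
      (A.L t g y ×ˢ B.L t g y).image fun z => Nat.pair z.1 z.2
    rw [A.dep t g x y h, B.dep t g x y h]
  mono t g x := Finset.image_subset_image (Finset.product_subset_product (A.mono t g x) (B.mono t g x))

theorem mem_prod {A B : PSt S l} {t : ℕ} {w : Om} {a b : ℕ} :
    Nat.pair a b ∈ (A.prod B).at' t w ↔ a ∈ A.at' t w ∧ b ∈ B.at' t w := by
  show Nat.pair a b ∈ (A.L t (S.gm t w) (S.x w) ×ˢ B.L t (S.gm t w) (S.x w)).image (fun z => Nat.pair z.1 z.2) ↔ _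
  rw [Finset.mem_image]
  constructor
  · rintro ⟨z, hz, h⟩
    obtain ⟨h1, h2⟩ := Nat.pair_eq_pair.1 h
    rw [← h1, ← h2]
    exact Finset.mem_product.1 hz
  · intro h
    exact ⟨(a, b), Finset.mem_product.2 h, rfl⟩

theorem card_prod_le (A B : PSt S l) (t : ℕ) (w : Om) :
    ((A.prod B).at' t w).card ≤ (A.at' t w).card * (B.at' t w).card := by
  refine Finset.card_image_le.trans (le_of_eq ?_)
  exact Finset.card_product _ _

open Classical in
/-- pairs `(ν, x)`, `x` in the public set of `ν` -/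
def sig (A : PSt S l) (B : ℕ → PSt S l) : PSt S l where
  L t g x := (A.L t g x).biUnion fun ν => ((B ν).L t g x).image fun y => Nat.pair ν y
  dep t g := fun x y h => by
    show (A.L t g x).biUnion (fun ν => ((B ν).L t g x).image fun z => Nat.pair ν z) =
      (A.L t g y).biUnion fun ν => ((B ν).L t g y).image fun z => Nat.pair ν z
    rw [A.dep t g x y h]
    refine Finset.biUnion_congr rfl fun ν _ => ?_
    rw [(B ν).dep t g x y h]
  mono t g x := by
    intro z hz
    rw [Finset.mem_biUnion] at hz ⊢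
    obtain ⟨ν, hν, h⟩ := hz
    exact ⟨ν, A.mono t g x hν, Finset.image_subset_image ((B ν).mono t g x) h⟩

theorem mem_sig {A : PSt S l} {B : ℕ → PSt S l} {t : ℕ} {w : Om} {a b : ℕ} :
    Nat.pair a b ∈ (A.sig B).at' t w ↔ a ∈ A.at' t w ∧ b ∈ (B a).at' t w := by
  classical
  show Nat.pair a b ∈ (A.L t (S.gm t w) (S.x w)).biUnion (fun ν => ((B ν).L t (S.gm t w) (S.x w)).image
    fun y => Nat.pair ν y) ↔ _
  rw [Finset.mem_biUnion]
  constructor
  · rintro ⟨ν, hν, h⟩
    obtain ⟨y, hy, h1⟩ := Finset.mem_image.1 h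
    obtain ⟨h2, h3⟩ := Nat.pair_eq_pair.1 h1
    subst h2
    subst h3
    exact ⟨hν, hy⟩
  · intro h
    exact ⟨a, h.1, Finset.mem_image_of_mem _ h.2⟩

theorem card_sig_le {A : PSt S l} {B : ℕ → PSt S l} {t : ℕ} {w : Om} {n : ℕ}
    (h : ∀ ν ∈ A.at' t w, ((B ν).at' t w).card ≤ n) : ((A.sig B).at' t w).card ≤ (A.at' t w).card * n := by
  classical
  refine Finset.card_biUnion_le.trans ?_
  refine (Finset.sum_le_card_nsmul _ _ n fun ν hν => Finset.card_image_le.trans (h ν hν)).trans (le_of_eq ?_)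
  rw [smul_eq_mul]

/-- the finite union of public sets -/
def sup {σ : Type} (s : Finset σ) (A : σ → PSt S l) : PSt S l where
  L t g x := s.sup fun i => (A i).L t g x
  dep t g := fun x y h => by
    show s.sup (fun i => (A i).L t g x) = s.sup fun i => (A i).L t g y
    exact Finset.sup_congr rfl fun i _ => (A i).dep t g x y h
  mono t g x := Finset.sup_mono_fun fun i _ => (A i).mono t g x

theorem mem_sup {σ : Type} {s : Finset σ} {A : σ → PSt S l} {t : ℕ} {w : Om} {ν : ℕ} :
    ν ∈ (sup s A).at' t w ↔ ∃ i ∈ s, ν ∈ (A i).at' t w := by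
  show ν ∈ s.sup (fun i => (A i).L t (S.gm t w) (S.x w)) ↔ _
  exact Finset.mem_sup

end PSt

end

end Pool.Agent.GMN
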