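import Pool.Agent.GMN.RuleM
import Pool.Agent.GMN.TjMain

/-!
# GMN/RuleA (helper96): Lemma T_j applied to the runs of the rule

* `exists_prm` : parameters of the rule with given `Y`, accuracy `ea`, threshold `θ`;
* `Base` : the data of the rule without the classes; `Base.Ok`, `Base.inp cs` : `Inp`;
* `runs_tj` : from `TJ G S δ C` : classes `cs` (at most `exp (H ^ C)`, admissible) such that for all parameters `p` with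
  `θ ≤ exp (-H ^ C)`, `ea / Y ≤ β ^ C`, `4 + 20 / ea ^ 2 ≤ H` the clipped normalised errors of all runs `k` pass the families
  `Φ` outside an event of probability `exp (-H)`:
  `P (∃ t ≤ n, ∃ k z, β ≤ |<∏ Φ_w^(z_w) · (E^k · v^(k.2.1))>_t|) ≤ exp (-H)`.
-/

set_option autoImplicit false
set_option linter.unusedSectionVars false

namespace Pool.Agent.GMN.RuS

open Finset Pool.Agent.PWZ Pool.Agent.M3 Pool.Agent.M3.TS Pool.Agent.GM Pool.Agent.GMN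

noncomputable section

/-- parameters of the rule -/
theorem exists_prm (Kn Yn : ℕ) {Y ea θ : ℝ} (hY : 0 < Y) (he : 0 < ea) (hθ : 0 < θ) :
    ∃ p : Prm, p.Ok Kn Yn ∧ p.Y = Y ∧ p.ea = ea ∧ p.θ = θ ∧ (p.N : ℝ) ≤ 16 / ea ^ 2 + 1 := by
  have h16 : 0 < 16 / ea ^ 2 := by positivity
  obtain ⟨m, hm⟩ := exists_nat_gt ((Kn : ℝ) * (Yn * (16 / ea ^ 2)) / θ)
  refine ⟨⟨m, ⌈16 / ea ^ 2⌉₊, Y, ea, θ⟩, ⟨hY, he, hθ, Nat.ceil_pos.2 h16, ?_, ?_⟩, rfl, rfl, rfl, ?_⟩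
  · show 16 / ea ^ 2 < (⌈16 / ea ^ 2⌉₊ : ℝ) + 1
    linarith [Nat.le_ceil (16 / ea ^ 2)]
  · show (Kn : ℝ) * (Yn * (16 / ea ^ 2)) < θ * m
    rw [div_lt_iff₀ hθ] at hm
    linarith
  · show ((⌈16 / ea ^ 2⌉₊ : ℕ) : ℝ) ≤ 16 / ea ^ 2 + 1
    exact (Nat.ceil_lt_add_one h16.le).le

variable {ι Om Ξ Pt V Γ κ : Type} [Fintype ι] [DecidableEq ι] [Fintype Om] [Fintype Ξ] [Fintype Pt]
    [Fintype V] (G : Sys ι Om Ξ Pt V Γ κ)

/-- the data of the rule without the classes -/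
structure Base (ι Ξ Pt V Γ R Nu : Type) where
  u : Nu → FnX ι Ξ Pt V Γ
  v : R → Fn ι Pt V Γ
  al : Nu → ℕ → Γ → Ξ → (ι → Pt) → R → Prop

variable {R Nu : Type} {I : ℕ} [Fintype R] [LinearOrder R] [Fintype Nu]

/-- hypotheses on the data without the classes -/
structure Base.Ok (B : Base ι Ξ Pt V Γ R Nu) (δ : ι) : Prop where
  u1 : ∀ ν t g ξ x d, |B.u ν t g ξ x d| ≤ 1
  udep : ∀ ν t g ξ, Dep (univ.erase δ) (B.u ν t g ξ)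
  u0 : ∀ ν g ξ x d, B.u ν 0 g ξ x d = 0
  ust : ∀ ν t ω, val G (B.u ν) (t + 1) ω = val G (B.u ν) t ω ∨ val G (B.u ν) t ω = 0
  v : ∀ r, NF G δ (B.v r)
  aldep : ∀ ν t g ξ, Dep (univ.erase δ) (B.al ν t g ξ)

/-- the data with the classes -/
def Base.inp {Cl : Type} (B : Base ι Ξ Pt V Γ R Nu) (cs : Cl → Cls ι Pt V Γ (Ru.Ka Nu R I)) :
    Inp ι Ξ Pt V Γ R Nu Cl I := ⟨B.u, B.v, B.al, cs⟩

variable {G}

theorem Base.Ok.inp {B : Base ι Ξ Pt V Γ R Nu} {δ : ι} (h : B.Ok G δ) {Cl : Type} [Fintype Cl] {S0 : Finset ι}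
    {cs : Cl → Cls ι Pt V Γ (Ru.Ka Nu R I)} (hc : ∀ c, (cs c).Ok G S0 δ) : (B.inp cs).Ok G S0 δ where
  u1 := h.u1
  udep := h.udep
  u0 := h.u0
  ust := h.ust
  v := h.v
  aldep := h.aldep
  cs := hc

/-- **LEMMA T_j FOR THE RUNS OF THE RULE** -/
theorem runs_tj [Nonempty Pt] {S : Finset ι} {δ : ι} {C : ℕ} (hTJ : TJ G S δ C) {β H : ℝ} (hβ : 0 < β)
    (hβ2 : β ≤ 1 / 2) (hβH : 1 / β ≤ H) (hK : G.K ≤ Real.exp H) (hnear : G.near ≤ β ^ C)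
    {B : Base ι Ξ Pt V Γ R Nu} (hB : B.Ok G δ) {Z : Type} [Fintype Z] (Φ : ι → Z → Fn ι Pt V Γ)
    (hΦ : ∀ w ∈ S.erase δ, ∀ z, NF G w (Φ w z)) (hcK : (Fintype.card (Ru.Ka Nu R I) : ℝ) ≤ Real.exp H)
    (hcZ : (Fintype.card Z : ℝ) ≤ Real.exp H) :
    ∃ (Cl : Type) (_ : Fintype Cl) (cs : Cl → Cls ι Pt V Γ (Ru.Ka Nu R I)),
      (Fintype.card Cl : ℝ) ≤ Real.exp (H ^ C) ∧ (∀ c, (cs c).Ok G S δ) ∧ (B.inp cs).Ok G S δ ∧
      ∀ p : Prm, p.Ok (Fintype.card (Ru.Ka Nu R I)) (Fintype.card (Ξ × (ι → Pt))) → p.θ ≤ Real.exp (-H ^ C) →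
        p.ea / p.Y ≤ β ^ C → 4 + 20 / p.ea ^ 2 ≤ H →
        G.P.Pr (fun ω => ∃ t ≤ G.n, ∃ (k : Ru.Ka Nu R I) (z : ι → Z),
          β ≤ |mn G t (G.gm t ω) (fun d => (∏ w ∈ S.erase δ, val0 G (Φ w (z w)) t ω d) *
            (val G (Er G (B.inp cs) S δ p k) t ω d * val0 G (B.v k.2.1) t ω d))|) ≤ Real.exp (-H) := by
  obtain ⟨Cl, hCl, cs, h1, h2, h3⟩ := hTJ β H hβ hβ2 hβH hK hnear (Ru.Ka Nu R I) Z inferInstance inferInstance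
    (fun k => B.v k.2.1) Φ hcK hcZ (fun k => hB.v k.2.1) hΦ
  have hOk := hB.inp (I := I) h2
  refine ⟨Cl, hCl, cs, h1, h2, hOk, fun p hp hθ hr hm => ?_⟩
  refine h3 (Er G (B.inp cs) S δ p) (fun k t g ξ => Er_dep hOk hp k t g ξ) (fun k t g ξ x d => Er_le hp k t g ξ x d)
    (fun k g ξ x d => Er_zero hOk hp k g ξ x d) (fun k => MV.mono G (Er_MV hOk hp k) hm) ?_
  exact Pass.mono G (Er_pass hOk hp) hθ hr

end

end Pool.Agent.GMN.RuS
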