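import Pool.Agent.GMN.RuleS

/-!
# GMN/RuleArr (helper80): arrival of a test

`Arr ω y ν j c q` : the test `q` of the client `ν` has come to the individual `y` at the machine time `j` as a test of the
class `c`: a letter (`j` first time of a block), or the publication of the time `j`.
-/

set_option autoImplicit false
set_option linter.unusedSectionVars false

namespace Pool.Agent.GMN.RuS

open Finset Pool.Agent.PWZ Pool.Agent.M3 Pool.Agent.M3.TS Pool.Agent.GM Pool.Agent.GMN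

noncomputable section

variable {ι Om Ξ Pt V Γ κ : Type} [Fintype ι] [DecidableEq ι] [Fintype Om] [Fintype Ξ] [Fintype Pt]
    [Fintype V] (G : Sys ι Om Ξ Pt V Γ κ)
variable {R Nu Cl : Type} {I : ℕ} [Fintype R] [LinearOrder R] [Fintype Nu] [Fintype Cl]
  (A : Inp ι Ξ Pt V Γ R Nu Cl I) (S0 : Finset ι) (δ : ι) (p : Prm)

/-- the tests which come to an individual -/
def nws (ω : Om) (y : Ξ × (ι → Pt)) (ν : Nu) : ℕ → List (Ru.Tst R V) :=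
  (dt G A S0 δ p ω).nw (p.a Cl) ((dt G A S0 δ p ω).tau (p.a Cl)) y ν

/-- **arrival of a test** -/
def Arr (ω : Om) (y : Ξ × (ι → Pt)) (ν : Nu) (j : ℕ) (c : Cl) (q : Ru.Tst R V) : Prop :=
  (j % (p.a Cl).bl = 0 ∧ (A.cs c).S = {δ} ∧ (A.cs c).k.1 = ν ∧
    q = ⟨(A.cs c).k.2.1, fun d => cmf A S0 c (j / (p.a Cl).bl) (G.gm (j / (p.a Cl).bl) ω) y.2 d, p.ea⟩) ∨
  (j % (p.a Cl).bl ≠ 0 ∧ ∃ pb, (dt G A S0 δ p ω).tau (p.a Cl) j = some pb ∧ pb.sy = c ∧ pb.k.1 = ν ∧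
    plc G A δ (j / (p.a Cl).bl) c y.2 = pb.c ∧ q = Ru.Dat.tst (p.a Cl) pb y)

variable {G A S0 δ p}

theorem arr_of_mem {ω : Om} {y : Ξ × (ι → Pt)} {ν : Nu} {j : ℕ} {q : Ru.Tst R V}
    (h : q ∈ nws G A S0 δ p ω y ν j) : ∃ c, Arr G A S0 δ p ω y ν j c q := by
  unfold nws Ru.Dat.nw at h
  split_ifs at h with hj
  · obtain ⟨c, h1, h2, h3⟩ := lets_mem.1 h
    exact ⟨c, Or.inl ⟨hj, h1, h2, h3⟩⟩
  · obtain ⟨pb, h1, h2, h3, h4⟩ := Ru.Dat.mem_pnw.1 h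
    exact ⟨pb.sy, Or.inr ⟨hj, pb, h1, rfl, h2, h3, h4⟩⟩

theorem mem_of_arr {ω : Om} {y : Ξ × (ι → Pt)} {ν : Nu} {j : ℕ} {c : Cl} {q : Ru.Tst R V}
    (h : Arr G A S0 δ p ω y ν j c q) : q ∈ nws G A S0 δ p ω y ν j := by
  unfold nws Ru.Dat.nw
  rcases h with ⟨hj, h1, h2, h3⟩ | ⟨hj, pb, h1, h2, h3, h4, h5⟩
  · rw [if_pos hj]
    exact lets_mem.2 ⟨c, h1, h2, h3⟩
  · rw [if_neg hj]
    subst h2
    exact Ru.Dat.mem_pnw.2 ⟨pb, h1, h3, h4, h5⟩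

end

end Pool.Agent.GMN.RuS
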