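import Pool.Agent.GMN.RuleS

/-!
# GMN/RuleC (helper80): counts of the publications at the true point

* `E_law` : the true individual is uniform at every node;
* `npb ω t c y` = number of publications of the class `c` during the node `t`, at the place of the individual `y`;
  `nus ω t k y` = number of uses of the run `k` of `y` during the node;
* `mean_pub` : `θ E (φ npb) ≤ E (φ nus)` for every weight `φ` of the place and the node.
-/

set_option autoImplicit false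
set_option linter.unusedSectionVars false

namespace Pool.Agent.GMN.RuS

open Finset Pool.Agent.PWZ Pool.Agent.M3 Pool.Agent.M3.TS Pool.Agent.GM Pool.Agent.GMN

noncomputable section

variable {ι Om Ξ Pt V Γ κ : Type} [Fintype ι] [DecidableEq ι] [Fintype Om] [Fintype Ξ] [Fintype Pt]
    [Fintype V] (G : Sys ι Om Ξ Pt V Γ κ)

/-- sums over the points which agree off `δ` -/
theorem sum_off {δ : ι} (F : (ι → Pt) → ℝ) (hF : Dep (univ.erase δ) F) (x : ι → Pt) :
    ∑ y : ι → Pt, ind (∀ j ∈ univ.erase δ, x j = y j) * F y = Fintype.card Pt * F x := by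
  classical
  rw [sum_fix (δ := δ) (fun y => ind (∀ j ∈ univ.erase δ, x j = y j) * F y) (fun y z h => by
    show ind (∀ j ∈ univ.erase δ, x j = y j) * F y = ind (∀ j ∈ univ.erase δ, x j = z j) * F z
    rw [hF y z h]
    congr 2
    apply propext
    exact forall₂_congr fun j hj => by rw [h j hj]) (x δ)]
  congr 1
  rw [Finset.sum_eq_single x]
  · rw [ind_of rfl, ind_of fun _ _ => rfl, one_mul, one_mul]
  · intro y _ hy
    by_cases h1 : y δ = x δ
    · rw [ind_not (p := ∀ j ∈ univ.erase δ, x j = y j), zero_mul, mul_zero]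
      intro h2
      apply hy
      funext j
      by_cases hj : j = δ
      · rw [hj, h1]
      · exact (h2 j (mem_erase.2 ⟨hj, mem_univ _⟩)).symm
    · rw [ind_not h1, zero_mul]
  · exact fun h => absurd (mem_univ _) h

/-- **the true individual is uniform at every node** -/
theorem E_law (δ : ι) (t : ℕ) (F : Γ → Ξ → (ι → Pt) → ℝ) (hF : ∀ g ξ, Dep (univ.erase δ) (F g ξ)) :
    G.P.E (fun ω => F (G.gm t ω) (G.xi ω) (G.x ω)) * (Fintype.card Ξ * (Fintype.card Pt : ℝ) ^ Fintype.card ι) =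
      G.P.E (fun ω => ∑ ξ : Ξ, ∑ y : ι → Pt, F (G.gm t ω) ξ y) := by
  classical
  have hI : (univ.erase δ : Finset ι) ≠ univ := fun h => notMem_erase δ univ (by rw [h]; exact mem_univ _)
  have hc : Fintype.card ι = (univ.erase δ : Finset ι).card + 1 := by
    rw [card_erase_of_mem (mem_univ _), card_univ]
    have : 0 < Fintype.card ι := Fintype.card_pos_iff.2 ⟨δ⟩
    omega
  have hXi := G.cXi
  have hPt := G.cPt δ
  -- one individual
  have h1 : ∀ (ξ : Ξ) (y : ι → Pt), G.P.E (fun ω => F (G.gm t ω) ξ y) =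
      (Fintype.card Ξ * (Fintype.card Pt : ℝ) ^ (univ.erase δ : Finset ι).card) *
        G.P.E (fun ω => ind (G.xi ω = ξ ∧ ∀ j ∈ univ.erase δ, G.x ω j = y j) * F (G.gm t ω) ξ y) := by
    intro ξ y
    have h2 := G.indep hI t (fun ω => ind (G.xi ω = ξ ∧ ∀ j ∈ univ.erase δ, G.x ω j = y j))
      (fun ω => F (G.gm t ω) ξ y) (Fac.ind fun v w h => by
        obtain ⟨h3, h4⟩ := Prod.ext_iff.1 h
        have h5 := res_eq.1 h4
        have h6 : G.xi v = G.xi w := h3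
        rw [h6]
        refine and_congr_right fun _ => forall₂_congr fun j hj => ?_
        have h7 : G.x v j = G.x w j := h5 j hj
        rw [h7]) (fun v w h => by
        show F (G.gm t v) ξ y = F (G.gm t w) ξ y
        rw [h])
    have h3 : G.P.E (fun ω => ind (G.xi ω = ξ ∧ ∀ j ∈ univ.erase δ, G.x ω j = y j)) =
        1 / (Fintype.card Ξ * (Fintype.card Pt : ℝ) ^ (univ.erase δ : Finset ι).card) := G.Pr_set hI ξ y
    rw [h2, h3]
    field_simp
  have h2 : ∀ ω, ∑ ξ : Ξ, ∑ y : ι → Pt, ind (G.xi ω = ξ ∧ ∀ j ∈ univ.erase δ, G.x ω j = y j) * F (G.gm t ω) ξ y =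
      Fintype.card Pt * F (G.gm t ω) (G.xi ω) (G.x ω) := by
    intro ω
    rw [Finset.sum_eq_single (G.xi ω)]
    · rw [← sum_off (F (G.gm t ω) (G.xi ω)) (hF _ _) (G.x ω)]
      refine Finset.sum_congr rfl fun y _ => ?_
      congr 2
      exact propext (and_iff_right rfl)
    · intro ξ _ hξ
      exact Finset.sum_eq_zero fun y _ => by rw [ind_not fun h => hξ h.1.symm, zero_mul]
    · exact fun h => absurd (mem_univ _) h
  have h3 : G.P.E (fun ω => ∑ ξ : Ξ, ∑ y : ι → Pt, F (G.gm t ω) ξ y) =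
      (Fintype.card Ξ * (Fintype.card Pt : ℝ) ^ (univ.erase δ : Finset ι).card) *
        G.P.E (fun ω => ∑ ξ : Ξ, ∑ y : ι → Pt, ind (G.xi ω = ξ ∧ ∀ j ∈ univ.erase δ, G.x ω j = y j) *
          F (G.gm t ω) ξ y) := by
    rw [G.P.E_sum, G.P.E_sum, Finset.mul_sum]
    refine Finset.sum_congr rfl fun ξ _ => ?_
    rw [G.P.E_sum, G.P.E_sum, Finset.mul_sum]
    exact Finset.sum_congr rfl fun y _ => h1 ξ y
  rw [h3, G.P.E_congr fun ω _ => h2 ω, G.P.E_smul, hc, pow_succ]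
  ring

/-- domination at every node gives domination of the means -/
theorem E_dom (δ : ι) (t : ℕ) (F F' : Om → Ξ → (ι → Pt) → ℝ) (hg : ∀ ω ω', G.gm t ω = G.gm t ω' → F ω = F ω')
    (hg' : ∀ ω ω', G.gm t ω = G.gm t ω' → F' ω = F' ω') (hF : ∀ ω ξ, Dep (univ.erase δ) (F ω ξ))
    (hF' : ∀ ω ξ, Dep (univ.erase δ) (F' ω ξ))
    (h : ∀ ω, ∑ ξ : Ξ, ∑ y : ι → Pt, F ω ξ y ≤ ∑ ξ : Ξ, ∑ y : ι → Pt, F' ω ξ y) :
    G.P.E (fun ω => F ω (G.xi ω) (G.x ω)) ≤ G.P.E (fun ω => F' ω (G.xi ω) (G.x ω)) := by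
  classical
  have key : ∀ F : Om → Ξ → (ι → Pt) → ℝ, (∀ ω ω', G.gm t ω = G.gm t ω' → F ω = F ω') →
      (∀ ω ξ, Dep (univ.erase δ) (F ω ξ)) →
      G.P.E (fun ω => F ω (G.xi ω) (G.x ω)) * (Fintype.card Ξ * (Fintype.card Pt : ℝ) ^ Fintype.card ι) =
        G.P.E (fun ω => ∑ ξ : Ξ, ∑ y : ι → Pt, F ω ξ y) := by
    intro F hg hF
    set F1 : Γ → Ξ → (ι → Pt) → ℝ := fun g ξ x => if h : ∃ ω, G.gm t ω = g then F (Classical.choose h) ξ x else 0
      with hF1
    have e : ∀ ω, F1 (G.gm t ω) = F ω := by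
      intro ω
      have hx : ∃ ω', G.gm t ω' = G.gm t ω := ⟨ω, rfl⟩
      funext ξ x
      rw [hF1]
      show (if h : ∃ ω', G.gm t ω' = G.gm t ω then F (Classical.choose h) ξ x else 0) = _
      rw [dif_pos hx, hg _ ω (Classical.choose_spec hx)]
    have h1 := E_law G δ t F1 fun g ξ => by
      intro x y hxy
      rw [hF1]
      show (if h : ∃ ω', G.gm t ω' = g then F (Classical.choose h) ξ x else 0) =
        if h : ∃ ω', G.gm t ω' = g then F (Classical.choose h) ξ y else 0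
      split_ifs with hx
      · exact hF _ ξ x y hxy
      · rfl
    simp only [e] at h1
    exact h1
  have h1 := key F hg hF
  have h2 := key F' hg' hF'
  have h3 : G.P.E (fun ω => ∑ ξ : Ξ, ∑ y : ι → Pt, F ω ξ y) ≤ G.P.E (fun ω => ∑ ξ : Ξ, ∑ y : ι → Pt, F' ω ξ y) :=
    G.P.E_mono fun ω _ => h ω
  have hPt := G.cPt δ
  have hXi := G.cXi
  rw [← h1, ← h2] at h3
  exact le_of_mul_le_mul_right h3 (by positivity)

variable {R Nu Cl : Type} {I : ℕ} [Fintype R] [LinearOrder R] [Fintype Nu] [Fintype Cl]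
  (A : Inp ι Ξ Pt V Γ R Nu Cl I) (S0 : Finset ι) (δ : ι) (p : Prm)

/-- number of publications of the class `c` during the node `t` at the place of `y` -/
def npb (ω : Om) (t : ℕ) (c : Cl) (y : Ξ × (ι → Pt)) : ℝ :=
  ∑ l ∈ range ((p.a Cl).bl - 1), ind (∃ q, (dt G A S0 δ p ω).tau (p.a Cl) (t * (p.a Cl).bl + (l + 1)) = some q ∧
    q.sy = c ∧ q.k = (A.cs c).k ∧ (dt G A S0 δ p ω).loc c t y = q.c)

/-- number of uses of the run `k` of `y` during the node `t` -/
def nus (ω : Om) (t : ℕ) (k : Ru.Ka Nu R I) (y : Ξ × (ι → Pt)) : ℝ :=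
  ∑ l ∈ range ((p.a Cl).bl - 1), (dt G A S0 δ p ω).us (p.a Cl) ((dt G A S0 δ p ω).tau (p.a Cl)) k
    (t * (p.a Cl).bl + (l + 1)) y

variable {G A S0 δ p} {Kn Yn : ℕ}

theorem twin (H : A.Ok G S0 δ) (ω : Om) {ξ : Ξ} {x x' : ι → Pt} (h : ∀ i ∈ univ.erase δ, x i = x' i) :
    Ru.Twin (dt G A S0 δ p ω) (ξ, x) (ξ, x') where
  nod t := by
    funext ν
    exact nod_same (p := p) H ω (ξ := ξ) h t ν
  al t := by
    funext ν
    exact H.aldep ν t _ ξ x x' h
  ext t := by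
    funext ν
    show lets A S0 δ p.ea ν t (G.gm t ω) x = lets A S0 δ p.ea ν t (G.gm t ω) x'
    unfold lets
    have h1 : ∀ c, cmf A S0 c t (G.gm t ω) x = cmf A S0 c t (G.gm t ω) x' := fun c => cmf_dep H c _ _ _ _ h
    simp only [h1]
  loc c t := plc_dep H t c x x' h
  adm t q hq := by
    obtain ⟨-, f, ⟨u, hu, rfl⟩, hf⟩ := hq
    funext d
    rw [hf, hf]
    show cmf A S0 q.sy _ _ x d * tpr (A.cs q.sy).S δ u x d = cmf A S0 q.sy _ _ x' d * tpr (A.cs q.sy).S δ u x' d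
    rw [cmf_dep H _ _ _ x x' h, tpr_dep hu x x' h]

theorem blk_le {t l : ℕ} (hl : l ∈ range ((p.a Cl).bl - 1)) : (t * (p.a Cl).bl + (l + 1)) / (p.a Cl).bl = t := by
  rw [Finset.mem_range] at hl
  exact Ru.Gr.div_blk (by omega)

theorem npb_congr {ω ω' : Om} {t : ℕ} (h : G.gm t ω = G.gm t ω') (c : Cl) (y : Ξ × (ι → Pt)) :
    npb G A S0 δ p ω t c y = npb G A S0 δ p ω' t c y := by
  refine Finset.sum_congr rfl fun l hl => ?_
  rw [Ru.Dat.tau_agr (dt_agr h) (blk_le hl).le]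
  rfl

theorem nus_congr {ω ω' : Om} {t : ℕ} (h : G.gm t ω = G.gm t ω') (k : Ru.Ka Nu R I) (y : Ξ × (ι → Pt)) :
    nus G A S0 δ p ω t k y = nus G A S0 δ p ω' t k y := by
  refine Finset.sum_congr rfl fun l hl => ?_
  have hb := blk_le hl (t := t) (p := p)
  refine Ru.Dat.us_agr (by rw [hb]; exact dt_agr h) (fun j hj => ?_) y k
  exact Ru.Dat.tau_agr (dt_agr h) ((Nat.div_le_div_right hj).trans hb.le)

theorem npb_dep (H : A.Ok G S0 δ) (ω : Om) (t : ℕ) (c : Cl) (ξ : Ξ) :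
    Dep (univ.erase δ) (fun x => npb G A S0 δ p ω t c (ξ, x)) := by
  intro x x' h
  show npb G A S0 δ p ω t c (ξ, x) = npb G A S0 δ p ω t c (ξ, x')
  unfold npb
  rw [(twin (p := p) H ω (ξ := ξ) h).loc]

theorem nus_dep (H : A.Ok G S0 δ) (hp : p.Ok Kn Yn) (ω : Om) (t : ℕ) (k : Ru.Ka Nu R I) (ξ : Ξ) :
    Dep (univ.erase δ) (fun x => nus G A S0 δ p ω t k (ξ, x)) := by
  intro x x' h
  show nus G A S0 δ p ω t k (ξ, x) = nus G A S0 δ p ω t k (ξ, x')
  have h1 := twin (p := p) H ω (ξ := ξ) h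
  exact Finset.sum_congr rfl fun l _ => Ru.Dat.us_twin h1 (Ru.Dat.tau_twin h1 (datOk H hp ω)) _ _

/-- **COUNT**: publications at the place of the true point are paid by its uses -/
theorem mean_pub (H : A.Ok G S0 δ) (hp : p.Ok Kn Yn) (t : ℕ) (c : Cl) (φ : Γ → Plc ι Pt κ → ℝ)
    (hφ : ∀ g q, 0 ≤ φ g q) :
    p.θ * G.P.E (fun ω => φ (G.gm t ω) (plc G A δ t c (G.x ω)) * npb G A S0 δ p ω t c (G.xi ω, G.x ω)) ≤
      G.P.E (fun ω => φ (G.gm t ω) (plc G A δ t c (G.x ω)) * nus G A S0 δ p ω t (A.cs c).k (G.xi ω, G.x ω)) := by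
  rw [← G.P.E_smul]
  refine E_dom G δ t (fun ω ξ x => p.θ * (φ (G.gm t ω) (plc G A δ t c x) * npb G A S0 δ p ω t c (ξ, x)))
    (fun ω ξ x => φ (G.gm t ω) (plc G A δ t c x) * nus G A S0 δ p ω t (A.cs c).k (ξ, x)) ?_ ?_ ?_ ?_ ?_
  · intro ω ω' h
    funext ξ x
    rw [h, npb_congr h]
  · intro ω ω' h
    funext ξ x
    rw [h, nus_congr h]
  · intro ω ξ x x' h
    have h1 := npb_dep (p := p) H ω t c ξ x x' h
    have h2 : (plc G A δ t c x : Plc ι Pt κ) = plc G A δ t c x' := plc_dep H t c x x' h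
    show p.θ * (φ (G.gm t ω) (plc G A δ t c x) * npb G A S0 δ p ω t c (ξ, x)) =
      p.θ * (φ (G.gm t ω) (plc G A δ t c x') * npb G A S0 δ p ω t c (ξ, x'))
    rw [h2]
    congr 2
  · intro ω ξ x x' h
    have h1 := nus_dep H hp ω t (A.cs c).k ξ x x' h
    have h2 : (plc G A δ t c x : Plc ι Pt κ) = plc G A δ t c x' := plc_dep H t c x x' h
    show φ (G.gm t ω) (plc G A δ t c x) * nus G A S0 δ p ω t (A.cs c).k (ξ, x) =
      φ (G.gm t ω) (plc G A δ t c x') * nus G A S0 δ p ω t (A.cs c).k (ξ, x')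
    rw [h2]
    congr 1
  · intro ω
    have h1 := Ru.Dat.seen_w (datOk H hp ω) t c (A.cs c).k (fun q => φ (G.gm t ω) q) (fun q => hφ _ _)
    rw [Fintype.sum_prod_type, Fintype.sum_prod_type] at h1
    rw [show (∑ ξ : Ξ, ∑ x : ι → Pt, p.θ * (φ (G.gm t ω) (plc G A δ t c x) * npb G A S0 δ p ω t c (ξ, x))) =
      p.θ * ∑ ξ : Ξ, ∑ x : ι → Pt, φ (G.gm t ω) (plc G A δ t c x) * npb G A S0 δ p ω t c (ξ, x) from by
      rw [Finset.mul_sum]
      exact Finset.sum_congr rfl fun ξ _ => (Finset.mul_sum _ _ _).symm]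
    exact h1

end

end Pool.Agent.GMN.RuS
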