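import Pool.Agent.GMN.Ext

/-!
# GMN/StepDef (helper25), version 6: ONE STEP C, interface between the rule (T_j, JR_v) and the bookkeeping of the names

`StepIn S β` = the data of the step: hidden vertex `a`, client vertex `v` (the client is a function of all vertices but
`v`), free vertices `L`, references `Rf`; list `Lv` of the FULL CODES of the clients (a client starts at its entry into
`Lv`, its number in the rule is the rank of the entry; no public set is needed, `Lv` may see the coins), target `Tg`; for the reference vertices `u ∈ Rf` the lists `Lr u` of TRACES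
(functions of `x_(V-u)`), their box sets `Br u` and the functions `Xr u`; the other factors `Fa l`, `l = a` or `l ∈ L`, with
BOUNDED numbers `β` (ranks, made by the bookkeeping side).

`StepOut D O η q n' B' dead` = what the rule gives: records `N u` (traces, seen by the owner `u`), lists of uses `Ls ν`
(codes `x : ℕ`; bounded number `rnx x`; epoch, coefficient and hashed references are functions of `rnx x`; `sr x u` = the
reference (trace); `kl l x` = key of the factor missing `l`), the functions `h` and `X' l` indexed by the keys, the public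
sets `PL l` (keys, box sets), `PN u` (records, box sets), and outside `dead` the error of
`Tg ν ≈ ∑ (codes x of the current epoch) co · h (kl a x) · ∏_(l ∈ L) X' l (kl l x) · ∏_(u ∈ Rf) Xr u (sr x u)`
in every term of the form is at most `η` at all times `1 ≤ t ≤ n`.
-/

set_option autoImplicit false
set_option linter.unusedSectionVars false

namespace Pool.Agent.GMN

open Finset Pool.Agent.PWZ Pool.Agent.M3 Pool.Agent.M3.TS Pool.Agent.GM

noncomputable section

variable {ι Om Ξ Pt V Γ κ : Type} [Fintype ι] [DecidableEq ι] [Fintype Om] [Fintype Ξ] [Fintype Pt]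
  [Fintype V]

/-- the list does not see what `pz` forgets of the coins -/
def Lst.Free {S : Sys ι Om Ξ Pt V Γ κ} {I : Finset ι} (A : Lst S I) {α : Type} (pz : Ξ → α) : Prop :=
  ∀ t g ξ ξ' x, pz ξ = pz ξ' → A.L t g ξ x = A.L t g ξ' x

/-- the data of one step -/
structure StepIn (S : Sys ι Om Ξ Pt V Γ κ) (β : Type) where
  a : ι
  v : ι
  L : Finset ι
  Rf : Finset ι
  av : a ≠ v
  aL : a ∉ L
  vL : v ∉ L
  aR : a ∉ Rf
  vR : v ∉ Rf
  LR : Disjoint L Rf
  /-- the coins without the coin of the face `δ` (helper11's COINS SPEC; no such coin: any injective function) -/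
  pz : Ξ → ℕ
  /-- full codes of the clients, entry = start -/
  Lv : Lst S (univ.erase v)
  /-- targets, by full codes -/
  Tg : NumF S ℕ (univ.erase v)
  /-- traces of the references in the lists of their owners -/
  Lr : ∀ u : ι, Lst S (univ.erase u)
  /-- box sets of the traces -/
  Br : ∀ u : ι, BSt S u v
  /-- functions of the references, by traces -/
  Xr : ∀ u : ι, NumF S ℕ ((univ.erase u).erase v)
  /-- all other factors, bounded numbers -/
  Fa : ∀ l : ι, NumF S β (univ.erase l)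
  /-- either the clients or all references do not see the coin of the face `δ` -/
  zf : Lv.Free pz ∨ ∀ u ∈ Rf, (Lr u).Free pz

/-- the coins without the coin of the face `δ`, in the system with more coins -/
def pzAdd (pz : Ξ → ℕ) (Ξ2 : Type) [Fintype Ξ2] : Ξ × Ξ2 → ℕ := fun ξ =>
  Nat.pair (pz ξ.1) (Fintype.equivFin Ξ2 ξ.2)

theorem pzAdd_eq {pz : Ξ → ℕ} {Ξ2 : Type} [Fintype Ξ2] {ξ ξ' : Ξ × Ξ2} :
    pzAdd pz Ξ2 ξ = pzAdd pz Ξ2 ξ' ↔ pz ξ.1 = pz ξ'.1 ∧ ξ.2 = ξ'.2 := by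
  unfold pzAdd
  rw [Nat.pair_eq_pair, ← Fin.ext_iff, (Fintype.equivFin Ξ2).apply_eq_iff_eq]

namespace StepIn

variable {S : Sys ι Om Ξ Pt V Γ κ} {β : Type}

/-- sure bounds: lists at most `n` elements, public sets at most `B` elements -/
structure Bd (D : StepIn S β) (n B : ℕ) : Prop where
  cv : ∀ t ≤ S.n, ∀ w, (D.Lv.at' t w).card ≤ n
  cr : ∀ u ∈ D.Rf, ∀ t ≤ S.n, ∀ w, ((D.Lr u).at' t w).card ≤ n
  sr : ∀ u ∈ D.Rf, ∀ t ≤ S.n, ∀ w, (D.Lr u).at' t w ⊆ (D.Br u).at' t w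
  br : ∀ u ∈ D.Rf, ∀ t ≤ S.n, ∀ w, ((D.Br u).at' t w).card ≤ B

/-- the same data on a system with more coins -/
def up {Om' Ξ' : Type} [Fintype Om'] [Fintype Ξ'] {S' : Sys ι Om' Ξ' Pt V Γ κ} (e : CExt S S')
    (D : StepIn S β) (pz' : Ξ' → ℕ) (hz : ∀ ξ ξ', pz' ξ = pz' ξ' → D.pz (e.pc ξ) = D.pz (e.pc ξ')) :
    StepIn S' β where
  a := D.a
  v := D.v
  L := D.L
  Rf := D.Rf
  av := D.av
  aL := D.aL
  vL := D.vL
  aR := D.aR
  vR := D.vR
  LR := D.LR
  pz := pz'
  Lv := e.lst D.Lv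
  Tg := e.num D.Tg
  Lr u := e.lst (D.Lr u)
  Br u := e.bst (D.Br u)
  Xr u := e.num (D.Xr u)
  Fa l := e.num (D.Fa l)
  zf := D.zf.imp (fun h t g ξ ξ' x hx => h t g _ _ x (hz ξ ξ' hx))
    fun h u hu t g ξ ξ' x hx => h u hu t g _ _ x (hz ξ ξ' hx)

/-- the data of the step with the additional coins `Ξ2` -/
abbrev add (D : StepIn S β) (Ξ2 : Type) [Fintype Ξ2] [Nonempty Ξ2] : StepIn (addCoins S Ξ2) β :=
  D.up (CExt.add S Ξ2) (pzAdd D.pz Ξ2) fun _ _ h => (pzAdd_eq.1 h).1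

theorem Bd.up {Om' Ξ' : Type} [Fintype Om'] [Fintype Ξ'] {S' : Sys ι Om' Ξ' Pt V Γ κ} (e : CExt S S')
    {D : StepIn S β} {pz' : Ξ' → ℕ} {hz : ∀ ξ ξ', pz' ξ = pz' ξ' → D.pz (e.pc ξ) = D.pz (e.pc ξ')} {n B : ℕ}
    (h : D.Bd n B) : (D.up e pz' hz).Bd n B where
  cv t ht w := by
    show ((e.lst D.Lv).at' t w).card ≤ n
    rw [e.lst_at]
    exact h.cv t (by rw [← e.n]; exact ht) _
  cr u hu t ht w := by
    show ((e.lst (D.Lr u)).at' t w).card ≤ n
    rw [e.lst_at]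
    exact h.cr u hu t (by rw [← e.n]; exact ht) _
  sr u hu t ht w := by
    show (e.lst (D.Lr u)).at' t w ⊆ (e.bst (D.Br u)).at' t w
    rw [e.lst_at, e.bst_at]
    exact h.sr u hu t (by rw [← e.n]; exact ht) _
  br u hu t ht w := by
    show ((e.bst (D.Br u)).at' t w).card ≤ B
    rw [e.bst_at]
    exact h.br u hu t (by rw [← e.n]; exact ht) _

end StepIn

/-- the objects which the rule gives -/
structure StepObj (S : Sys ι Om Ξ Pt V Γ κ) (v a : ι) where
  /-- records (traces) seen by the owner of the reference -/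
  N : ∀ u : ι, Lst S (univ.erase u)
  /-- uses of the client with the code `ν` -/
  Ls : ℕ → Lst S (univ.erase v)
  /-- bounded number of a use -/
  rnx : ℕ → ℕ
  /-- epoch, function of the bounded number -/
  ep : ℕ → ℕ
  /-- coefficient, function of the bounded number (zero: marker of a reset) -/
  co : ℕ → ℝ
  /-- hashed references, functions of the bounded number -/
  hs : ℕ → ι → ℕ
  /-- hash of the traces of the owner -/
  phi : ι → ℕ → ℕ
  /-- the reference of a use -/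
  sr : ℕ → ι → ℕ
  /-- key of the factor of a use which misses `l` -/
  kl : ι → ℕ → ℕ
  h : NumF S ℕ ((univ.erase a).erase v)
  X' : ∀ l : ι, NumF S ℕ ((univ.erase v).erase l)
  /-- box sets of the keys -/
  PL : ∀ l : ι, BSt S v l
  /-- box sets of the records -/
  PN : ∀ u : ι, BSt S u v

section out

variable {S : Sys ι Om Ξ Pt V Γ κ} {β : Type} (D : StepIn S β)

/-- the term of a use -/
def useTerm (O : StepObj S D.v D.a) (x : ℕ) (t : ℕ) (w : Om) (d : V) : ℝ :=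
  O.co (O.rnx x) * (O.h.at' (O.kl D.a x) t w d * ((∏ l ∈ D.L, (O.X' l).at' (O.kl l x) t w d) *
    ∏ u ∈ D.Rf, (D.Xr u).at' (O.sr x u) t w d))

/-- the uses of the current epoch -/
def curE (O : StepObj S D.v D.a) (ν : ℕ) (t : ℕ) (w : Om) : Finset ℕ :=
  ((O.Ls ν).at' t w).filter (fun x => O.ep (O.rnx x) = (((O.Ls ν).at' t w).image O.rnx).sup O.ep)

/-- the approximation of the target `ν`: the uses of the current epoch -/
def appr (O : StepObj S D.v D.a) (ν : ℕ) (t : ℕ) (w : Om) (d : V) : ℝ :=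
  ∑ x ∈ curE D O ν t w, useTerm D O x t w d

/-- the term of the form with the numbers `z`, the references `s` and the function `f` of the owner `v` -/
def formTerm (z : ι → β) (s : ι → ℕ) (f : V → ℝ) (t : ℕ) (w : Om) : ℝ :=
  iw (S.J t w) (fun d => (D.Fa D.a).at' (z D.a) t w d * ((∏ l ∈ D.L, (D.Fa l).at' (z l) t w d) *
    ((∏ u ∈ D.Rf, (D.Xr u).at' (s u) t w d) * f d))) (fun _ => 1)

/-- **the output of the rule**: accuracy `η`, probability `q`, at most `nu` uses of a client, records with at most `n'`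
elements, box sets with at most `B'` elements, bounded numbers at most `B'` -/
structure StepOut (O : StepObj S D.v D.a) (η q : ℝ) (nu n' B' : ℕ) (dead : ℕ → Om → Prop) : Prop where
  inc : ∀ t w, dead t w → dead (t + 1) w
  small : S.P.Pr (dead S.n) ≤ q
  co1 : ∀ x, |O.co x| ≤ 1
  cardL : ∀ t ≤ S.n, ∀ w, ¬ dead t w → ∀ ν ∈ D.Lv.at' t w, ((O.Ls ν).at' t w).card ≤ nu
  cardN : ∀ t ≤ S.n, ∀ w, ¬ dead t w → ∀ u ∈ D.Rf, ((O.N u).at' t w).card ≤ n'
  numL : ∀ t ≤ S.n, ∀ w, ¬ dead t w → ∀ ν ∈ D.Lv.at' t w, ∀ x ∈ (O.Ls ν).at' t w, O.rnx x ≤ B'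
  numN : ∀ t ≤ S.n, ∀ w, ¬ dead t w → ∀ u ∈ D.Rf, ∀ n ∈ (O.N u).at' t w, O.phi u n ≤ B'
  injL : ∀ t ≤ S.n, ∀ w, ¬ dead t w → ∀ ν ∈ D.Lv.at' t w, Set.InjOn O.rnx ((O.Ls ν).at' t w)
  injN : ∀ t ≤ S.n, ∀ w, ¬ dead t w → ∀ u ∈ D.Rf, Set.InjOn (O.phi u) ((O.N u).at' t w)
  /-- public sets -/
  pubL : ∀ t ≤ S.n, ∀ w, ¬ dead t w → ∀ l, l = D.a ∨ l ∈ D.L → ∀ ν ∈ D.Lv.at' t w, ∀ x ∈ (O.Ls ν).at' t w,
    O.kl l x ∈ (O.PL l).at' t w
  cardPL : ∀ t ≤ S.n, ∀ w, ¬ dead t w → ∀ l, l = D.a ∨ l ∈ D.L → ((O.PL l).at' t w).card ≤ B'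
  pubN : ∀ t ≤ S.n, ∀ w, ¬ dead t w → ∀ u ∈ D.Rf, (O.N u).at' t w ⊆ (O.PN u).at' t w
  cardPN : ∀ t ≤ S.n, ∀ w, ¬ dead t w → ∀ u ∈ D.Rf, ((O.PN u).at' t w).card ≤ B'
  /-- the functions of the known face are introduced -/
  on : ∀ t ≤ S.n, ∀ w, ¬ dead t w → ∀ ν ∈ D.Lv.at' t w, ∀ x ∈ (O.Ls ν).at' t w, O.h.on (O.kl D.a x) t w
  /-- the references of the uses are recorded -/
  mem : ∀ t ≤ S.n, ∀ w, ¬ dead t w → ∀ ν ∈ D.Lv.at' t w, ∀ x ∈ (O.Ls ν).at' t w, O.co (O.rnx x) ≠ 0 →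
    ∀ u ∈ D.Rf, O.sr x u ∈ (O.N u).at' t w
  /-- the hash of the references -/
  hash : ∀ t ≤ S.n, ∀ w, ¬ dead t w → ∀ ν ∈ D.Lv.at' t w, ∀ x ∈ (O.Ls ν).at' t w, O.co (O.rnx x) ≠ 0 →
    ∀ u ∈ D.Rf, O.hs (O.rnx x) u = O.phi u (O.sr x u)
  /-- the records do not see the coin of the face `δ` -/
  freeN : ∀ u ∈ D.Rf, (O.N u).Free D.pz
  /-- the uses do not see it if the clients do not see it -/
  freeL : D.Lv.Free D.pz → ∀ ν, (O.Ls ν).Free D.pz
  /-- the error in every term of the form -/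
  close : ∀ t, 1 ≤ t → t ≤ S.n → ∀ w, ¬ dead t w → ∀ z : ι → β, ∀ ν ∈ D.Lv.at' t w, ∀ s : ι → ℕ,
    (∀ u ∈ D.Rf, s u ∈ (D.Lr u).at' t w) →
    |formTerm D z s (fun d => D.Tg.at' ν t w d - appr D O ν t w d) t w| ≤ η

end out

end

end Pool.Agent.GMN
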