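import Pool.Agent.GMN.Assem
import Pool.Agent.GMN.StepDef

/-!
# GMN/RuleDef (helper13, helper25): the two statements about one step

`RuleAt G C`, `RuleStmt G` = analytic part (rule of step C, T_j, JR_v, start times) for the data `StepIn`;
`StepStmt a e G` = ONE STEP for the state of the names; `GMN/StepC` : `RuleStmt G → StepStmt a e G`.
Parameters `2 ≤ X ≤ Y ≤ exp X`: accuracies, number of uses, sums of coefficients in powers of `X`, sizes in powers of `Y`.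
-/

set_option autoImplicit false
set_option linter.unusedSectionVars false

namespace Pool.Agent.GMN

open Finset Pool.Agent.PWZ Pool.Agent.M3 Pool.Agent.M3.TS Pool.Agent.GM Pool.GMN.Counter

noncomputable section

/-- **ONE STEP, analytic part**, with the constant `C` -/
def RuleAt {ι : Type} [Fintype ι] [DecidableEq ι] (G : SysCls ι) (C : ℕ) : Prop :=
  ∀ (Om Ξ Pt V Γ κ β : Type) [Fintype Om] [Fintype Ξ] [Fintype Pt] [Fintype V] [Fintype β]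
    (S : Sys ι Om Ξ Pt V Γ κ) (X Y η q : ℝ), 2 ≤ X → X ≤ Y → Y ≤ Real.exp X → 1 / X ≤ η → η ≤ 1 → 1 / X ≤ q →
      q ≤ 1 → G.G S X Y C →
    ∀ (D : StepIn S β) (n B : ℕ), D.Bd n B → (n : ℝ) ≤ Y → (B : ℝ) ≤ Real.exp Y →
      (Fintype.card β : ℝ) ≤ Real.exp Y → D.L.card + 2 ≤ Fintype.card ι - 1 →
    ∃ (Ξ2 : Type) (_ : Fintype Ξ2) (_ : Nonempty Ξ2) (O : StepObj (addCoins S Ξ2) D.v D.a) (nu n' B' : ℕ)
      (dead : ℕ → (Om × Ξ2) → Prop),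
      StepOut (D.add Ξ2) O η q nu n' B' dead ∧ (nu : ℝ) ≤ X ^ C ∧ (n' : ℝ) ≤ Y ^ C ∧ (B' : ℝ) ≤ Real.exp (Y ^ C)

/-- **ONE STEP, analytic part** -/
def RuleStmt {ι : Type} [Fintype ι] [DecidableEq ι] (G : SysCls ι) : Prop := ∃ C : ℕ, RuleAt G C

variable {ι : Type} [Fintype ι] [DecidableEq ι] {k : ℕ} (a : ι) (e : Fin k ↪ ι) (G : SysCls ι)

/-- **ONE STEP**: the target of the owner `v` is replaced by its names; only the list of the owner `δ` may see the coin of the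
face `δ` -/
def StepStmt : Prop :=
  ∃ C : ℕ, ∀ (Om Ξ Pt V Γ κ : Type) [Fintype Om] [Fintype Ξ] [Fintype Pt] [Fintype V]
    (S : Sys ι Om Ξ Pt V Γ κ) (X Y q : ℝ), 2 ≤ X → X ≤ Y → Y ≤ Real.exp X → 1 / X ≤ q → q ≤ 1 → G.G S X Y C →
    ∀ (pz : Ξ → ℕ) (δ : ι) (σ : NSt S a) (n B : ℕ) (A : ℝ) (dead : ℕ → Om → Prop), σ.Bd n B A dead → σ.On dead →
      Szs X Y n B A → (∀ u, u ≠ a → u ≠ δ → (σ.Lam u).Free pz) →
    ∀ (W : Fin k → Option (Finset (Fin k))) (v : Fin k) (Lc : Finset (Fin k)) (tg : Option (Fin k)),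
      StepOK W v Lc tg → σ.Shape (shp e W) → (∀ i : Fin k, 2 ≤ (i : ℕ) → σ.wh (e i) → σ.pu (e i)) →
    ∃ (Ξ2 : Type) (_ : Fintype Ξ2) (_ : Nonempty Ξ2) (σ' : NSt (addCoins S Ξ2) a) (n' B' : ℕ) (A' : ℝ)
      (dead' : ℕ → (Om × Ξ2) → Prop),
      σ'.Bd n' B' A' dead' ∧ σ'.On dead' ∧ Szs (X ^ C) (Y ^ C) n' B' A' ∧
      (∀ u, u ≠ a → u ≠ δ → (σ'.Lam u).Free (pzAdd pz Ξ2)) ∧
      σ'.Shape (shp e (Function.update W v (some Lc))) ∧ (∀ i : Fin k, 2 ≤ (i : ℕ) → σ'.wh (e i) → σ'.pu (e i)) ∧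
      (∀ t w, dead t w.1 → dead' t w) ∧ σ'.Z = (CExt.add S Ξ2).lst σ.Z ∧
      (∀ t, 1 ≤ t → t ≤ S.n → ∀ w, ¬ dead' t w → |σ.T t w.1 - σ'.T t w| ≤ q) ∧
      (coinFP S.P Ξ2).Pr (dead' S.n) ≤ S.P.Pr (dead S.n) + q

end

end Pool.Agent.GMN
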