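import Pool.Agent.GMN.RuleS
import Pool.Agent.GMN.IndM

/-!
# GMN/RuleM (helper96): the runs of step C along the random path, in the abstract geometry `Sys`

`indM` : helper78's `IndM` for every client of the rule (`RuleS`): knowledge `Kst` = (coins, all vertices but `δ`, node) at
machine times; hence all his counts (uses, resets, moves, stretches, tails, `JROne`) for every allowed set.

* `mart_fac` : the averaged windows are a martingale given (coins, vertices of `I ≠ univ`, node);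
* `Er_MV` : **mean number of future moves of a run from every state** `≤ 4 + 20 / ea ^ 2`;
* `Er_zero` : the runs vanish at the time zero.
-/

set_option autoImplicit false
set_option linter.unusedSectionVars false

namespace Pool.Agent.GMN.RuS

open Finset Pool.Agent.PWZ Pool.Agent.M3 Pool.Agent.M3.TS Pool.Agent.GM Pool.Agent.GMN

noncomputable section

variable {ι Om Ξ Pt V Γ κ : Type} [Fintype ι] [DecidableEq ι] [Fintype Om] [Fintype Ξ] [Fintype Pt]
    [Fintype V] {G : Sys ι Om Ξ Pt V Γ κ}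

/-- **martingale of the windows given the coins, the vertices of `J ≠ univ` and the node** -/
theorem mart_fac {J : Finset ι} (hJ : J ≠ univ) (t : ℕ) (d : V) {ψ : Om → ℝ}
    (hψ : Fac (fun w => (G.xi w, res J (G.x w), G.gm t w)) ψ) :
    G.P.E (fun w => ψ w * G.ρ (t + 1) (G.gm (t + 1) w) d) = G.P.E (fun w => ψ w * G.ρ t (G.gm t w) d) := by
  classical
  set T : Finset Γ := univ.image (G.gm t) with hT
  set f : Γ → Om → ℝ := fun g w =>
    if h : ∃ w', (G.xi w', res J (G.x w')) = (G.xi w, res J (G.x w)) ∧ G.gm t w' = g then ψ (Classical.choose h) else 0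
    with hf
  have hfac : ∀ g, Fac (fun w => (G.xi w, res J (G.x w))) (f g) := by
    intro g v w h
    have h' : (G.xi v, res J (G.x v)) = (G.xi w, res J (G.x w)) := h
    rw [hf]
    simp only
    rw [h']
  have hval : ∀ g w, f g w * ind (G.gm t w = g) = ψ w * ind (G.gm t w = g) := by
    intro g w
    by_cases hg : G.gm t w = g
    · have h1 : ∃ w', (G.xi w', res J (G.x w')) = (G.xi w, res J (G.x w)) ∧ G.gm t w' = g := ⟨w, rfl, hg⟩
      have h2 : f g w = ψ (Classical.choose h1) := dif_pos h1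
      have h3 := Classical.choose_spec h1
      rw [h2, hψ (Classical.choose h1) w (by
        refine Prod.ext (Prod.ext_iff.1 h3.1).1 (Prod.ext (Prod.ext_iff.1 h3.1).2 ?_)
        show G.gm t _ = G.gm t w
        rw [h3.2, hg])]
    · rw [ind_not hg, mul_zero, mul_zero]
  have hsum : ∀ (F : Om → ℝ) w, ∑ g ∈ T, f g w * (ind (G.gm t w = g) * F w) = ψ w * F w := by
    intro F w
    have h1 : ∀ g, f g w * (ind (G.gm t w = g) * F w) = ind (G.gm t w = g) * (ψ w * F w) := by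
      intro g
      rw [← mul_assoc, hval]
      ring
    rw [Finset.sum_congr rfl fun g _ => h1 g, ← Finset.sum_mul,
      Finset.sum_eq_single (G.gm t w) (fun g _ hg => ind_not fun h => hg h.symm)
        (fun h => absurd (mem_image.2 ⟨w, mem_univ _, rfl⟩) h), ind_of rfl, one_mul]
  have e1 : G.P.E (fun w => ψ w * G.ρ (t + 1) (G.gm (t + 1) w) d) =
      ∑ g ∈ T, G.P.E (fun w => f g w * (ind (G.gm t w = g) * G.ρ (t + 1) (G.gm (t + 1) w) d)) := by
    rw [← FP.E_sum]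
    exact FP.E_congr _ fun w _ => (hsum (fun w => G.ρ (t + 1) (G.gm (t + 1) w) d) w).symm
  have e2 : G.P.E (fun w => ψ w * G.ρ t (G.gm t w) d) =
      ∑ g ∈ T, G.P.E (fun w => f g w * (ind (G.gm t w = g) * G.ρ t (G.gm t w) d)) := by
    rw [← FP.E_sum]
    exact FP.E_congr _ fun w _ => (hsum (fun w => G.ρ t (G.gm t w) d) w).symm
  rw [e1, e2]
  refine Finset.sum_congr rfl fun g _ => ?_
  rw [G.mart_set hJ t g d (hfac g), ← FP.E_mul_const]
  refine FP.E_congr _ fun w _ => ?_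
  by_cases hg : G.gm t w = g
  · rw [hg]; ring
  · rw [ind_not hg]; ring

/-- the same for means -/
theorem mart_mn {J : Finset ι} (hJ : J ≠ univ) (t : ℕ) {φ : Om → ℝ} {F : Om → V → ℝ}
    (hφ : Fac (fun w => (G.xi w, res J (G.x w), G.gm t w)) φ)
    (hF : Fac (fun w => (G.xi w, res J (G.x w), G.gm t w)) F) :
    G.P.E (fun w => φ w * mn G (t + 1) (G.gm (t + 1) w) (F w)) = G.P.E (fun w => φ w * mn G t (G.gm t w) (F w)) := by
  have h1 : ∀ d, Fac (fun w => (G.xi w, res J (G.x w), G.gm t w)) (fun w => φ w * F w d) := by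
    intro d v w h
    show φ v * F v d = φ w * F w d
    rw [hφ v w h, hF v w h]
  have e1 : G.P.E (fun w => φ w * mn G (t + 1) (G.gm (t + 1) w) (F w)) =
      ∑ d, G.P.E (fun w => φ w * F w d * G.ρ (t + 1) (G.gm (t + 1) w) d) := by
    rw [← FP.E_sum]
    refine FP.E_congr _ fun w _ => ?_
    unfold mn
    rw [Finset.mul_sum]
    exact Finset.sum_congr rfl fun d _ => by ring
  have e2 : G.P.E (fun w => φ w * mn G t (G.gm t w) (F w)) =
      ∑ d, G.P.E (fun w => φ w * F w d * G.ρ t (G.gm t w) d) := by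
    rw [← FP.E_sum]
    refine FP.E_congr _ fun w _ => ?_
    unfold mn
    rw [Finset.mul_sum]
    exact Finset.sum_congr rfl fun d _ => by ring
  rw [e1, e2]
  exact Finset.sum_congr rfl fun d _ => mart_fac hJ t d (h1 d)

variable {R Nu Cl : Type} {I : ℕ} [Fintype R] [LinearOrder R] [Fintype Nu] [Fintype Cl]
  (A : Inp ι Ξ Pt V Γ R Nu Cl I) (S0 : Finset ι) (δ : ι) (p : Prm)

variable (G)

/-- what the individual knows at a machine time -/
def Kst (i : ℕ) (ω : Om) : Ξ × ({j // j ∈ univ.erase δ} → Pt) × Γ :=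
  (G.xi ω, res (univ.erase δ) (G.x ω), G.gm (i / (2 * p.m + 2)) ω)

/-- data of the client `ν` at a machine time -/
def Xst (ν : Nu) (i : ℕ) (ω : Om) : Ru.Nd R V := (dt G A S0 δ p ω).nod (i / (2 * p.m + 2)) (G.xi ω, G.x ω) ν

/-- new tests of the client `ν` at a machine time -/
def nwst (ν : Nu) (i : ℕ) (ω : Om) : List (Ru.Tst R V) :=
  (dt G A S0 δ p ω).nw (p.a Cl) ((dt G A S0 δ p ω).tau (p.a Cl)) (G.xi ω, G.x ω) ν i

variable {G A S0 δ p} {Kn Yn : ℕ}

theorem erase_ne : (univ.erase δ : Finset ι) ≠ univ := fun h => notMem_erase δ univ (by rw [h]; exact mem_univ δ)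

theorem Kst_gm {i : ℕ} {v w : Om} (h : Kst G δ p i v = Kst G δ p i w) :
    G.xi v = G.xi w ∧ (∀ j ∈ univ.erase δ, G.x v j = G.x w j) ∧
      G.gm (i / (2 * p.m + 2)) v = G.gm (i / (2 * p.m + 2)) w := by
  obtain ⟨h1, h2⟩ := Prod.ext_iff.1 h
  obtain ⟨h3, h4⟩ := Prod.ext_iff.1 h2
  exact ⟨h1, res_eq.1 h3, h4⟩

theorem Xst_fac (H : A.Ok G S0 δ) (ν : Nu) (i : ℕ) : Fac (Kst G δ p i) (Xst G A S0 δ p ν i) := by
  intro v w h
  obtain ⟨h1, h2, h3⟩ := Kst_gm h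
  show (dt G A S0 δ p v).nod (i / (2 * p.m + 2)) (G.xi v, G.x v) ν =
    (dt G A S0 δ p w).nod (i / (2 * p.m + 2)) (G.xi w, G.x w) ν
  rw [(dt_agr (A := A) (S0 := S0) (δ := δ) (p := p) h3).nod _ le_rfl, h1]
  exact nod_same (p := p) H w h2 _ ν

theorem nwst_fac (H : A.Ok G S0 δ) (hp : p.Ok Kn Yn) (ν : Nu) (i : ℕ) :
    Fac (Kst G δ p i) (nwst G A S0 δ p ν i) := by
  intro v w h
  obtain ⟨h1, h2, h3⟩ := Kst_gm h
  have hA := dt_agr (A := A) (S0 := S0) (δ := δ) (p := p) h3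
  have e1 : (dt G A S0 δ p v).nw (p.a Cl) ((dt G A S0 δ p v).tau (p.a Cl)) (G.xi v, G.x v) ν i =
      (dt G A S0 δ p w).nw (p.a Cl) ((dt G A S0 δ p w).tau (p.a Cl)) (G.xi v, G.x v) ν i :=
    Ru.Dat.nw_agr hA (Ru.Dat.tau_agr hA le_rfl) _ _
  show (dt G A S0 δ p v).nw (p.a Cl) ((dt G A S0 δ p v).tau (p.a Cl)) (G.xi v, G.x v) ν i = _
  rw [e1, h1]
  exact nw_same H hp w h2 ν i

theorem Kst_filt : Filt (Kst G δ p) := by
  intro i v w h
  obtain ⟨h1, h2, h3⟩ := Kst_gm h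
  refine Prod.ext h1 (Prod.ext (res_eq.2 h2) ?_)
  exact G.gm_le (Nat.div_le_div_right (Nat.le_succ i)) h3

/-- **helper78's hypotheses for every client** -/
theorem indM (H : A.Ok G S0 δ) (hp : p.Ok Kn Yn) (ν : Nu) :
    Ru.IndM G.P (Kst G δ p) p.Y p.ea (Xst G A S0 δ p ν) (nwst G A S0 δ p ν) p.N where
  filt := Kst_filt
  bd ω := Ru.Dat.indB (datOk H hp ω) (G.xi ω, G.x ω) ν
  hN := hp.N1
  xfac i := Xst_fac H ν i
  nfac i := nwst_fac H hp ν i
  mart i F φ hF hφ := by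
    show G.P.E (fun w => φ w * mn G ((i + 1) / (2 * p.m + 2)) (G.gm ((i + 1) / (2 * p.m + 2)) w) (F w)) =
      G.P.E (fun w => φ w * mn G (i / (2 * p.m + 2)) (G.gm (i / (2 * p.m + 2)) w) (F w))
    have h1 : (i + 1) / (2 * p.m + 2) = i / (2 * p.m + 2) ∨ (i + 1) / (2 * p.m + 2) = i / (2 * p.m + 2) + 1 := by
      rw [Nat.succ_div]
      split_ifs
      · exact Or.inr rfl
      · exact Or.inl rfl
    rcases h1 with h1 | h1
    · rw [h1]
    · rw [h1]
      exact mart_mn (erase_ne (δ := δ)) (i / (2 * p.m + 2)) hφ hF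
  u i ω := by
    show A.u ν ((i + 1) / (2 * p.m + 2)) (G.gm ((i + 1) / (2 * p.m + 2)) ω) (G.xi ω) (G.x ω) =
      A.u ν (i / (2 * p.m + 2)) (G.gm (i / (2 * p.m + 2)) ω) (G.xi ω) (G.x ω) ∨
      A.u ν (i / (2 * p.m + 2)) (G.gm (i / (2 * p.m + 2)) ω) (G.xi ω) (G.x ω) = fun _ => 0
    rw [Nat.succ_div]
    split_ifs
    · exact H.ust ν _ ω
    · exact Or.inl rfl
  v i ω s := by
    show A.v s ((i + 1) / (2 * p.m + 2)) (G.gm ((i + 1) / (2 * p.m + 2)) ω) (G.x ω) =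
      A.v s (i / (2 * p.m + 2)) (G.gm (i / (2 * p.m + 2)) ω) (G.x ω) ∨
      A.v s (i / (2 * p.m + 2)) (G.gm (i / (2 * p.m + 2)) ω) (G.x ω) = fun _ => 0
    rw [Nat.succ_div]
    split_ifs
    · exact (H.v s).intro _ ω
    · exact Or.inl rfl

/-- every individual is realised at every realised node -/
theorem exists_real (t : ℕ) (ω : Om) (ξ : Ξ) (x : ι → Pt) (δ : ι) :
    ∃ ω', G.gm t ω' = G.gm t ω ∧ G.xi ω' = ξ ∧ ∀ j ∈ univ.erase δ, G.x ω' j = x j := by
  by_contra hc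
  have h1 := G.law t (G.gm t ω) δ ξ x
  have h2 : G.P.Pr (fun w => G.xi w = ξ ∧ (∀ j, j ≠ δ → G.x w j = x j) ∧ G.gm t w = G.gm t ω) = 0 := by
    unfold FP.Pr
    refine (FP.E_congr _ fun w _ => ind_not ?_).trans (FP.E_const _ 0)
    rintro ⟨h3, h4, h5⟩
    exact hc ⟨w, h5, h3, fun j hj => h4 j (ne_of_mem_erase hj)⟩
  rw [h2] at h1
  have h3 : 0 < G.P.Pr (fun w => G.gm t w = G.gm t ω) := FP.m_pos _ (G.gm t) (G.ppos ω)
  have h4 : (0 : ℝ) < Fintype.card Ξ * (Fintype.card Pt : ℝ) ^ (Fintype.card ι - 1) :=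
    mul_pos G.cXi (pow_pos (G.cPt δ) _)
  have h5 := div_pos h3 h4
  rw [← h1] at h5
  exact lt_irrefl _ h5

/-! ### allowed sets and starts are adapted -/

variable (G A S0 δ p) in
/-- allowed sets of the run `k` of the true individual -/
def Ast (k : Ru.Ka Nu R I) (i : ℕ) (ω : Om) : R → Prop :=
  (dt G A S0 δ p ω).Av (p.a Cl) ((dt G A S0 δ p ω).tau (p.a Cl)) (G.xi ω, G.x ω) k i

theorem Ast_fac (H : A.Ok G S0 δ) (hp : p.Ok Kn Yn) (k : Ru.Ka Nu R I) (i : ℕ) :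
    Fac (Kst G δ p i) (Ast G A S0 δ p k i) := by
  intro v w h
  obtain ⟨h1, h2, h3⟩ := Kst_gm h
  have hA := dt_agr (A := A) (S0 := S0) (δ := δ) (p := p) h3
  have e1 : (dt G A S0 δ p v).Av (p.a Cl) ((dt G A S0 δ p v).tau (p.a Cl)) (G.xi v, G.x v) k i =
      (dt G A S0 δ p w).Av (p.a Cl) ((dt G A S0 δ p w).tau (p.a Cl)) (G.xi v, G.x v) k i :=
    Ru.Dat.Av_agr hA (fun j hj => Ru.Dat.tau_agr hA (Nat.div_le_div_right hj.le)) _ _
  show (dt G A S0 δ p v).Av (p.a Cl) ((dt G A S0 δ p v).tau (p.a Cl)) (G.xi v, G.x v) k i =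
    (dt G A S0 δ p w).Av (p.a Cl) ((dt G A S0 δ p w).tau (p.a Cl)) (G.xi w, G.x w) k i
  rw [e1, h1]
  funext r
  unfold Ru.Dat.Av Ru.Dat.sta
  rw [cE_same H hp w h2, A_same (p := p) H w h2]

/-- the state of the run as a state of helper78's machine -/
theorem svt_ms (k : Ru.Ka Nu R I) (t : ℕ) (ω : Om) :
    svt G A S0 δ p ω k t (G.xi ω, G.x ω) = Ru.IndM.ms p.Y (Xst G A S0 δ p k.1) (nwst G A S0 δ p k.1)
      (Ast G A S0 δ p k) p.N (Ru.Dat.la (p.a Cl) t) p.N ω := rfl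

theorem la_eq (t : ℕ) : Ru.Dat.la (p.a Cl) t = t * (2 * p.m + 2) + (2 * p.m + 1) := rfl

/-- the run of the true individual -/
theorem val_Er (k : Ru.Ka Nu R I) (t : ℕ) (ω : Om) :
    val G (Er G A S0 δ p k) t ω = evl G A S0 δ p ω k t (G.xi ω, G.x ω) := by
  unfold val
  rw [Er_eq]

theorem Ew_eq (k : Ru.Ka Nu R I) (t : ℕ) (ω : Om) :
    Ru.IndM.Ew p.Y (Xst G A S0 δ p k.1) (nwst G A S0 δ p k.1) (Ast G A S0 δ p k) p.N (Ru.Dat.la (p.a Cl) t) ω =
      Ru.err ((dt G A S0 δ p ω).nod t (G.xi ω, G.x ω) k.1) (svt G A S0 δ p ω k t (G.xi ω, G.x ω)).H := by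
  unfold Ru.IndM.Ew
  rw [← svt_ms]
  unfold Xst
  rw [show Ru.Dat.la (p.a Cl) t / (2 * p.m + 2) = t from la_div' t]

/-! ### moves -/

/-- sums over consecutive blocks -/
theorem sum_blocks (b : ℕ → ℕ) (hb : Monotone b) (F : ℕ → ℝ) {t0 T : ℕ} (h : t0 ≤ T) :
    ∑ t ∈ Ico t0 T, ∑ j ∈ Ico (b t) (b (t + 1)), F j = ∑ j ∈ Ico (b t0) (b T), F j := by
  induction T, h using Nat.le_induction with
  | base => simp
  | succ T hT ih =>
    rw [Finset.sum_Ico_succ_top hT, ih]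
    exact Finset.sum_Ico_consecutive _ (hb hT) (hb (Nat.le_succ T))

theorem chain_move (F : ℕ → V → ℝ) {a b : ℕ} (h : a ≤ b) : ind (F b ≠ F a) ≤ ∑ j ∈ Ico a b, ind (F (j + 1) ≠ F j) := by
  induction b, h using Nat.le_induction with
  | base =>
    rw [Finset.Ico_self, sum_empty, ind_not (fun h => h rfl)]
  | succ b hb ih =>
    rw [Finset.sum_Ico_succ_top hb]
    by_cases h1 : F (b + 1) = F b
    · have h2 : ind (F (b + 1) ≠ F a) = ind (F b ≠ F a) := by rw [h1]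
      rw [h2]
      have := ind_nonneg (F (b + 1) ≠ F b)
      linarith
    · have h2 : ind (F (b + 1) ≠ F b) = 1 := ind_of h1
      have h3 := ind_le_one (F (b + 1) ≠ F a)
      have h4 : 0 ≤ ∑ j ∈ Ico a b, ind (F (j + 1) ≠ F j) := Finset.sum_nonneg fun _ _ => ind_nonneg _
      rw [h2]
      linarith

theorem stt_mono {k : Ru.Ka Nu R I} {t : ℕ} {ω : Om} {y : Ξ × (ι → Pt)} (h : stt G A S0 δ p ω k t y) :
    stt G A S0 δ p ω k (t + 1) y := by
  refine Ru.Dat.sta_mono ?_ h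
  rw [la_eq, la_eq]
  nlinarith

theorem ind_sub {q r : Prop} (h : q → r) : ind (¬ q ∧ r) = ind r - ind q := by
  by_cases hq : q
  · rw [ind_of hq, ind_of (h hq), ind_not (fun h' => h'.1 hq)]
    ring
  · by_cases hr : r
    · rw [ind_not hq, ind_of hr, ind_of ⟨hq, hr⟩]
      ring
    · rw [ind_not hq, ind_not hr, ind_not (fun h' => hr h'.2)]
      ring

/-- **mean number of future moves of a run, from every state** -/
theorem Er_MV (H : A.Ok G S0 δ) (hp : p.Ok Kn Yn) (k : Ru.Ka Nu R I) :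
    MV G δ (Er G A S0 δ p k) (4 + 20 / p.ea ^ 2) := by
  intro t0 ht0 f hf hf0
  have HI := indM H hp k.1
  set E := fun (i : ℕ) (ω : Om) => Ru.IndM.Ew p.Y (Xst G A S0 δ p k.1) (nwst G A S0 δ p k.1) (Ast G A S0 δ p k) p.N i ω
    with hE
  set b : ℕ → ℕ := fun t => Ru.Dat.la (p.a Cl) t with hb
  have hbm : Monotone b := by
    refine monotone_nat_of_le_succ fun t => ?_
    show Ru.Dat.la (p.a Cl) t ≤ Ru.Dat.la (p.a Cl) (t + 1)
    rw [la_eq, la_eq]
    nlinarith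
  have h1 : ∀ t ω, ind (val G (Er G A S0 δ p k) (t + 1) ω ≠ val G (Er G A S0 δ p k) t ω) ≤
      ∑ j ∈ Ico (b t) (b (t + 1)), ind (E (j + 1) ω ≠ E j ω) +
        (ind (stt G A S0 δ p ω k (t + 1) (G.xi ω, G.x ω)) - ind (stt G A S0 δ p ω k t (G.xi ω, G.x ω))) := by
    intro t ω
    rw [← ind_sub stt_mono]
    have h2 := chain_move (fun i => E i ω) (hbm (Nat.le_succ t))
    by_cases hs : ¬ stt G A S0 δ p ω k t (G.xi ω, G.x ω) ∧ stt G A S0 δ p ω k (t + 1) (G.xi ω, G.x ω)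
    · rw [ind_of hs]
      have h3 := ind_le_one (val G (Er G A S0 δ p k) (t + 1) ω ≠ val G (Er G A S0 δ p k) t ω)
      have h4 : 0 ≤ ∑ j ∈ Ico (b t) (b (t + 1)), ind (E (j + 1) ω ≠ E j ω) :=
        Finset.sum_nonneg fun _ _ => ind_nonneg _
      linarith
    · rw [ind_not hs, add_zero]
      refine le_trans (ind_mono fun hne => ?_) h2
      intro he
      apply hne
      rw [val_Er, val_Er]
      funext d
      have he' : E (b (t + 1)) ω = E (b t) ω := he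
      rw [hE] at he'
      simp only [hb] at he'
      rw [Ew_eq, Ew_eq] at he'
      by_cases h5 : stt G A S0 δ p ω k t (G.xi ω, G.x ω)
      · rw [evl_on h5, evl_on (stt_mono h5), he']
      · have h6 : ¬ stt G A S0 δ p ω k (t + 1) (G.xi ω, G.x ω) := fun h => hs ⟨h5, h⟩
        rw [evl_off h5, evl_off h6]
  have h2 : ∀ ω, ∑ t ∈ Ico t0 G.n, ind (val G (Er G A S0 δ p k) (t + 1) ω ≠ val G (Er G A S0 δ p k) t ω) ≤
      ∑ j ∈ Ico (b t0) (b G.n), ind (E (j + 1) ω ≠ E j ω) + 1 := by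
    intro ω
    have h3 : ∑ t ∈ Ico t0 G.n, (ind (stt G A S0 δ p ω k (t + 1) (G.xi ω, G.x ω)) -
        ind (stt G A S0 δ p ω k t (G.xi ω, G.x ω))) ≤ 1 := by
      rw [Finset.sum_Ico_sub (fun t => ind (stt G A S0 δ p ω k t (G.xi ω, G.x ω))) ht0]
      have := ind_le_one (stt G A S0 δ p ω k G.n (G.xi ω, G.x ω))
      have := ind_nonneg (stt G A S0 δ p ω k t0 (G.xi ω, G.x ω))
      linarith
    refine (Finset.sum_le_sum fun t _ => h1 t ω).trans ?_
    rw [Finset.sum_add_distrib, sum_blocks b hbm (fun j => ind (E (j + 1) ω ≠ E j ω)) ht0]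
    linarith
  have h3 : G.P.E (fun ω => f ω * ∑ t ∈ Ico t0 G.n, ind (val G (Er G A S0 δ p k) (t + 1) ω ≠
      val G (Er G A S0 δ p k) t ω)) ≤
      G.P.E (fun ω => f ω * (∑ j ∈ Ico (b t0) (b G.n), ind (E (j + 1) ω ≠ E j ω) + 1)) :=
    FP.E_mono _ fun ω _ => mul_le_mul_of_nonneg_left (h2 ω) (hf0 ω)
  have hfK : Fac (Kst G δ p (b t0)) f := by
    intro v w h
    obtain ⟨e1, e2, e3⟩ := Kst_gm h
    refine hf v w (Prod.ext e1 (Prod.ext (res_eq.2 e2) ?_))
    show G.gm t0 v = G.gm t0 w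
    rwa [show b t0 / (2 * p.m + 2) = t0 from la_div' (Cl := Cl) t0] at e3
  have h4 := HI.moves_le (A := Ast G A S0 δ p k) (Ast_fac H hp k) (b t0) hfK hf0 (b G.n)
  have h5 : G.P.E (fun ω => f ω * (∑ j ∈ Ico (b t0) (b G.n), ind (E (j + 1) ω ≠ E j ω) + 1)) =
      ∑ j ∈ Ico (b t0) (b G.n), G.P.E (fun ω => f ω * ind (E (j + 1) ω ≠ E j ω)) + G.P.E f := by
    rw [← FP.E_sum, ← FP.E_add]
    refine FP.E_congr _ fun ω _ => ?_
    rw [mul_add, Finset.mul_sum, mul_one]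
  rw [h5] at h3
  have h6 : ∑ j ∈ Ico (b t0) (b G.n), G.P.E (fun ω => f ω * ind (E (j + 1) ω ≠ E j ω)) ≤
      (3 + 20 / p.ea ^ 2) * G.P.E f := h4
  linarith

/-- **the runs vanish at the time zero** -/
theorem Er_zero (H : A.Ok G S0 δ) (hp : p.Ok Kn Yn) (k : Ru.Ka Nu R I) (g : Γ) (ξ : Ξ) (x : ι → Pt) (d : V) :
    Er G A S0 δ p k 0 g ξ x d = 0 := by
  by_cases hg : ∃ ω, G.gm 0 ω = g
  · obtain ⟨ω, rfl⟩ := hg
    rw [Er_eq]
    obtain ⟨ω', h1, h2, h3⟩ := exists_real (G := G) 0 ω ξ x δ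
    rw [evl_congr h1.symm, ← h2, ← evl_same H hp ω' h3]
    have HI := indM H hp k.1
    by_cases hs : stt G A S0 δ p ω' k 0 (G.xi ω', G.x ω')
    · rw [evl_on hs]
      have h4 := HI.inv (A := Ast G A S0 δ p k) (Ru.Dat.la (p.a Cl) 0) p.N ω'
      have h5 : (Xst G A S0 δ p k.1 (Ru.Dat.la (p.a Cl) 0) ω').u = fun _ => 0 := by
        funext d'
        show A.u k.1 (Ru.Dat.la (p.a Cl) 0 / (2 * p.m + 2)) _ _ _ d' = 0
        rw [show Ru.Dat.la (p.a Cl) 0 / (2 * p.m + 2) = 0 from la_div' 0]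
        exact H.u0 _ _ _ _ _
      have h6 : (svt G A S0 δ p ω' k 0 (G.xi ω', G.x ω')).H = [] := by
        by_contra hc
        rw [svt_ms] at hc
        exact h4.1 hc h5
      rw [h6, Ru.IndM.err_nil]
      show clip p.Y (A.u k.1 0 (G.gm 0 ω') (G.xi ω') (G.x ω') d) / p.Y = 0
      rw [H.u0, clip_zero hp.Y0.le, zero_div]
    · rw [evl_off hs]
  · unfold Er
    rw [dif_neg hg]

end

end Pool.Agent.GMN.RuS
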