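import Pool.Agent.GMN.RuleC
import Pool.Agent.GMN.RuleM
import Pool.Agent.GMN.RuleArr
import Pool.Agent.GMN.State

/-!
# GMN/RuleK (helper96): keys, factors and base sets of the uses of step C

A test which an individual has seen arrives at a machine time `j` (block length `bl`): `j % bl = 0` : letter of a class `c`,
otherwise the publication `tau j` (class `c = q.sy`).  It is the product of factors, `l ∈ S0.erase δ`:
`l ∈ S_c` : the factor `u_l` of the product test of the publication; `l ∈ S0 \ S_c` : the multiplier `m_l` of the class.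

* `rO t g`, `rP t y` : representatives of nodes and cells; `KC`, `enc`, `dec` : codes of the factors; `0` is the trivial key;
* `keyOf ω j c l x` : the key of the factor `l`; `keyOf_congr`, `keyOf_dep`;
* `fac H l` : the factors, numbered functions of `x_(V - δ - l)`; numbers = keys;
* `Arv ω j c y f` : `f` is the function of the test which arrives at the individual `y` at the machine time `j`, class `c`;
* `fac_on`, `fac_prod` : the product of the factors is the test;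
* `bas H l` : the base sets, functions of `x_(V-δ-l)` and the cell of `x_l`; `key_mem`, `E_bas`.
-/

set_option autoImplicit false
set_option linter.unusedSectionVars false

namespace Pool.Agent.GMN.RuS

open Finset Pool.Agent.PWZ Pool.Agent.M3 Pool.Agent.M3.TS Pool.Agent.GM Pool.Agent.GMN

noncomputable section

variable {ι Om Ξ Pt V Γ κ : Type} [Fintype ι] [DecidableEq ι] [Fintype Om] [Fintype Ξ] [Fintype Pt]
    [Fintype V] (G : Sys ι Om Ξ Pt V Γ κ)

/-! ### representatives and codes -/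

open Classical in
/-- representative of a node -/
def rO (t : ℕ) (g : Γ) : Om :=
  if h : ∃ ω, G.gm t ω = g then Classical.choose h else Classical.choice G.nonempty_Om

theorem gm_rO (t : ℕ) (ω : Om) : G.gm t (rO G t (G.gm t ω)) = G.gm t ω := by
  have h : ∃ ω', G.gm t ω' = G.gm t ω := ⟨ω, rfl⟩
  unfold rO
  rw [dif_pos h]
  exact Classical.choose_spec h

/-- representative of a cell -/
def rP (t : ℕ) (y : Pt) : Pt := Classical.choose (⟨y, rfl⟩ : ∃ z, G.cl t z = G.cl t y)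

theorem cl_rP (t : ℕ) (y : Pt) : G.cl t (rP G t y) = G.cl t y :=
  Classical.choose_spec (⟨y, rfl⟩ : ∃ z, G.cl t z = G.cl t y)

theorem rP_aux (t : ℕ) {c c' : κ} (h : c = c') (e : ∃ z, G.cl t z = c) (e' : ∃ z, G.cl t z = c') :
    Classical.choose e = Classical.choose e' := by
  subst h
  rfl

theorem rP_congr {t : ℕ} {y y' : Pt} (h : G.cl t y = G.cl t y') : rP G t y = rP G t y' := rP_aux G t h _ _

/-- codes of the factors: publications, multipliers -/
abbrev KC (Om Pt Cl : Type) : Type := (ℕ × Om) ⊕ (Cl × ℕ × Om × Pt)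

section enc

variable {Om Pt Cl : Type} [Fintype Om] [Fintype Pt] [Fintype Cl]

theorem countK : Countable (KC Om Pt Cl) := by
  have h1 : Countable Om := Finite.to_countable
  have h2 : Countable Pt := Finite.to_countable
  have h3 : Countable Cl := Finite.to_countable
  infer_instance

/-- code as a number -/
def enc (k : KC Om Pt Cl) : ℕ := @Encodable.encode _ (@Encodable.ofCountable _ countK) k + 1

/-- decoding; `0` is the trivial key -/
def dec (n : ℕ) : Option (KC Om Pt Cl) :=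
  match n with
  | 0 => none
  | n + 1 => @Encodable.decode _ (@Encodable.ofCountable _ countK) n

theorem dec_enc (k : KC Om Pt Cl) : dec (enc k) = some k :=
  @Encodable.encodek _ (@Encodable.ofCountable _ countK) k

theorem enc_inj {k k' : KC Om Pt Cl} (h : enc k = enc k') : k = k' := by
  have h1 : dec (enc k) = dec (Om := Om) (Pt := Pt) (Cl := Cl) (enc k') := by rw [h]
  rw [dec_enc, dec_enc] at h1
  exact Option.some.inj h1

theorem enc_ne (k : KC Om Pt Cl) : enc k ≠ 0 := Nat.succ_ne_zero _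

end enc

variable {R Nu Cl : Type} {I : ℕ} [Fintype R] [LinearOrder R] [Fintype Nu] [Fintype Cl]
  (A : Inp ι Ξ Pt V Γ R Nu Cl I) (S0 : Finset ι) (δ : ι) (p : Prm)

/-- the publications along the path -/
abbrev tu (ω : Om) (j : ℕ) : Option (Ru.Pub (Ξ × (ι → Pt)) Nu R V Cl (Plc ι Pt κ) I) :=
  (dt G A S0 δ p ω).tau (p.a Cl) j

/-- block length -/
abbrev bl : ℕ := (p.a Cl).bl

/-- `u` is the product test of the publication of the machine time `j` -/
def IsT (ω : Om) (j : ℕ) (u : ι → (ι → Pt) → V → ℝ) : Prop :=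
  ∃ q, tu G A S0 δ p ω j = some q ∧ PTest (A.cs q.sy).S δ u ∧ ∀ (y : Ξ × (ι → Pt)) (d : V),
    q.g y d = cmf A S0 q.sy (j / (p.a Cl).bl) (G.gm (j / (p.a Cl).bl) ω) y.2 d * tpr (A.cs q.sy).S δ u y.2 d

open Classical in
/-- the product test of the publication -/
def pts (ω : Om) (j : ℕ) : ι → (ι → Pt) → V → ℝ :=
  if h : ∃ u, IsT G A S0 δ p ω j u then Classical.choose h else fun _ _ _ => 0

/-- `x` is at the place of the publication, without the vertex `l` -/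
def plm (ω : Om) (j : ℕ) (l : ι) (x : ι → Pt) : Prop :=
  ∃ q, tu G A S0 δ p ω j = some q ∧ l ∈ ((A.cs q.sy).S).erase δ ∧
    (∀ i ∈ (univ.erase δ).erase l, i ∉ (A.cs q.sy).S → q.c.1 i = some (x i)) ∧
    ∀ i ∈ (univ.erase δ).erase l, i ∈ (A.cs q.sy).S → q.c.2 i = some (G.cl (j / (p.a Cl).bl) (x i))

/-- introduced -/
def kin (l : ι) (k : Option (KC Om Pt Cl)) (t : ℕ) (g : Γ) (x : ι → Pt) : Prop :=
  match k with
  | none => True
  | some (Sum.inl (j, ω0)) => j / (p.a Cl).bl ≤ t ∧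
      S2.anc G.par t g (j / (p.a Cl).bl) = G.gm (j / (p.a Cl).bl) ω0 ∧ plm G A S0 δ p ω0 j l x
  | some (Sum.inr (c, s, ω0, _)) => s ≤ t ∧ S2.anc G.par t g s = G.gm s ω0 ∧ l ∈ S0 \ (A.cs c).S

/-- the static function of a key -/
def ksf (l : ι) (k : Option (KC Om Pt Cl)) (x : ι → Pt) : V → ℝ :=
  match k with
  | none => 0
  | some (Sum.inl (j, ω0)) => pts G A S0 δ p ω0 j l x
  | some (Sum.inr (c, s, ω0, z)) => (A.cs c).m l s (G.gm s ω0) (Function.update x l z)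

variable {G A S0 δ p} {Kn Yn : ℕ}

theorem isT_pts (H : A.Ok G S0 δ) (hp : p.Ok Kn Yn) {ω : Om} {j : ℕ}
    {q : Ru.Pub (Ξ × (ι → Pt)) Nu R V Cl (Plc ι Pt κ) I} (hq : tu G A S0 δ p ω j = some q) :
    IsT G A S0 δ p ω j (pts G A S0 δ p ω j) := by
  obtain ⟨⟨-, f, ⟨u, hu, hf⟩, hg⟩, -⟩ := Ru.Dat.tau_adm (datOk H hp ω) hq
  have h : ∃ u, IsT G A S0 δ p ω j u := ⟨u, q, hq, hu, fun y d => by
    rw [hg y d, hf]⟩
  unfold pts
  rw [dif_pos h]
  exact Classical.choose_spec h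

theorem pts_bd (ω : Om) (j : ℕ) (l : ι) (x : ι → Pt) (d : V) : |pts G A S0 δ p ω j l x d| ≤ 1 := by
  unfold pts
  split_ifs with h
  · obtain ⟨q, -, h1, -⟩ := Classical.choose_spec h
    exact h1.bd _ _ _
  · simp

theorem pts_dep {ω : Om} {j : ℕ} {l : ι} {q : Ru.Pub (Ξ × (ι → Pt)) Nu R V Cl (Plc ι Pt κ) I}
    (hq : tu G A S0 δ p ω j = some q) (hl : l ∈ ((A.cs q.sy).S).erase δ) :
    Dep ((univ.erase δ).erase l) (pts G A S0 δ p ω j l) := by
  unfold pts
  split_ifs with h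
  · obtain ⟨q', h0, h1, -⟩ := Classical.choose_spec h
    rw [hq] at h0
    obtain rfl := Option.some.inj h0
    exact h1.dep l hl
  · exact fun _ _ _ => rfl

theorem plm_dep (ω : Om) (j : ℕ) (l : ι) : Dep ((univ.erase δ).erase l) (plm G A S0 δ p ω j l) := by
  intro x y h
  unfold plm
  refine propext (exists_congr fun q => and_congr_right fun _ => and_congr_right fun _ => ?_)
  refine and_congr (forall₂_congr fun i hi => ?_) (forall₂_congr fun i hi => ?_)
  · rw [h i hi]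
  · rw [h i hi]

theorem kin_dep (l : ι) (k : Option (KC Om Pt Cl)) (t : ℕ) (g : Γ) :
    Dep ((univ.erase δ).erase l) (kin G A S0 δ p l k t g) := by
  intro x y h
  rcases k with _ | ⟨j, ω0⟩ | ⟨c, s, ω0, z⟩
  · rfl
  · show (_ ∧ _ ∧ plm G A S0 δ p ω0 j l x) = (_ ∧ _ ∧ plm G A S0 δ p ω0 j l y)
    rw [plm_dep ω0 j l x y h]
  · rfl

theorem kin_keep {l : ι} {k : Option (KC Om Pt Cl)} {t : ℕ} {g : Γ} {x : ι → Pt}
    (h : kin G A S0 δ p l k t (G.par t g) x) : kin G A S0 δ p l k (t + 1) g x := by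
  rcases k with _ | ⟨j, ω0⟩ | ⟨c, s, ω0, z⟩
  · trivial
  · obtain ⟨h1, h2, h3⟩ := h
    exact ⟨h1.trans (Nat.le_succ t), by rw [S2.anc_succ _ h1]; exact h2, h3⟩
  · obtain ⟨h1, h2, h3⟩ := h
    exact ⟨h1.trans (Nat.le_succ t), by rw [S2.anc_succ _ h1]; exact h2, h3⟩

theorem ksf_dep (H : A.Ok G S0 δ) {l : ι} {k : Option (KC Om Pt Cl)} {t : ℕ} {g : Γ} {x y : ι → Pt}
    (h : ∀ i ∈ (univ.erase δ).erase l, x i = y i) (hk : kin G A S0 δ p l k t g x) :
    ksf G A S0 δ p l k x = ksf G A S0 δ p l k y := by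
  rcases k with _ | ⟨j, ω0⟩ | ⟨c, s, ω0, z⟩
  · rfl
  · obtain ⟨-, -, q, hq, hl, -⟩ := hk
    exact pts_dep hq hl x y h
  · obtain ⟨-, -, hl⟩ := hk
    refine ((H.cs c).nf l hl).dep s _ _ _ fun i hi => ?_
    by_cases hil : i = l
    · subst hil
      rw [Function.update_self, Function.update_self]
    · rw [Function.update_of_ne hil, Function.update_of_ne hil]
      exact h i (mem_erase.2 ⟨hil, hi⟩)

theorem ksf_bd (H : A.Ok G S0 δ) {l : ι} {k : Option (KC Om Pt Cl)} {t : ℕ} {g : Γ} {x : ι → Pt}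
    (hk : kin G A S0 δ p l k t g x) (d : V) : |ksf G A S0 δ p l k x d| ≤ 1 := by
  rcases k with _ | ⟨j, ω0⟩ | ⟨c, s, ω0, z⟩
  · show |(0 : ℝ)| ≤ 1
    rw [abs_zero]
    exact zero_le_one
  · exact pts_bd ω0 j l x d
  · exact ((H.cs c).nf l hk.2.2).bd _ _ _ _

open Classical in
/-- factors with codes as numbers -/
def facK (H : A.Ok G S0 δ) (l : ι) : NumF G (Option (KC Om Pt Cl)) ((univ.erase δ).erase l) where
  inn := kin G A S0 δ p l
  f k t g x := if kin G A S0 δ p l k t g x then ksf G A S0 δ p l k x else 0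
  inn_dep := kin_dep l
  f_dep k t g := fun x y h => by
    have h1 := kin_dep (G := G) (A := A) (S0 := S0) (p := p) l k t g x y h
    show (if kin G A S0 δ p l k t g x then ksf G A S0 δ p l k x else 0) =
      if kin G A S0 δ p l k t g y then ksf G A S0 δ p l k y else 0
    by_cases h2 : kin G A S0 δ p l k t g x
    · rw [if_pos h2, if_pos (h1 ▸ h2), ksf_dep H h h2]
    · rw [if_neg h2, if_neg (h1 ▸ h2)]
  le1 k t g x d := by
    show |(if kin G A S0 δ p l k t g x then ksf G A S0 δ p l k x else 0) d| ≤ 1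
    by_cases h2 : kin G A S0 δ p l k t g x
    · rw [if_pos h2]
      exact ksf_bd H h2 d
    · rw [if_neg h2]
      show |(0 : ℝ)| ≤ 1
      rw [abs_zero]
      exact zero_le_one
  zero k t g x h := if_neg h
  keep k t g x h := kin_keep h
  stat k t g x h := by
    show (if kin G A S0 δ p l k (t + 1) g x then ksf G A S0 δ p l k x else 0) =
      if kin G A S0 δ p l k t (G.par t g) x then ksf G A S0 δ p l k x else 0
    rw [if_pos h, if_pos (kin_keep h)]

variable (p) in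
/-- **THE FACTORS**, numbers = keys -/
def fac (H : A.Ok G S0 δ) (l : ι) : NumF G ℕ ((univ.erase δ).erase l) := (facK (p := p) H l).map dec

theorem fac_zero_on (H : A.Ok G S0 δ) (l : ι) (t : ℕ) (ω : Om) : (fac p H l).on 0 t ω := trivial

open Classical in
theorem fac_zero_at (H : A.Ok G S0 δ) (l : ι) (t : ℕ) (ω : Om) : (fac p H l).at' 0 t ω = 0 := by
  show (if kin G A S0 δ p l (dec 0) t (G.gm t ω) (G.x ω) then ksf G A S0 δ p l (dec 0) (G.x ω) else 0) = 0
  split_ifs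
  · rfl
  · rfl

theorem fac_on_iff (H : A.Ok G S0 δ) (l : ι) (k : KC Om Pt Cl) (t : ℕ) (ω : Om) :
    (fac p H l).on (enc k) t ω ↔ kin G A S0 δ p l (some k) t (G.gm t ω) (G.x ω) := by
  show kin G A S0 δ p l (dec (enc k)) t (G.gm t ω) (G.x ω) ↔ _
  rw [dec_enc]

open Classical in
theorem fac_at_of (H : A.Ok G S0 δ) (l : ι) (k : KC Om Pt Cl) (t : ℕ) (ω : Om)
    (h : kin G A S0 δ p l (some k) t (G.gm t ω) (G.x ω)) :
    (fac p H l).at' (enc k) t ω = ksf G A S0 δ p l (some k) (G.x ω) := by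
  show (if kin G A S0 δ p l (dec (enc k)) t (G.gm t ω) (G.x ω) then ksf G A S0 δ p l (dec (enc k)) (G.x ω) else 0) = _
  rw [dec_enc, if_pos h]

/-! ### the keys -/

variable (G A S0 δ p)

/-- introduction times of the multiplier `m_l` up to the time `T` -/
def intr (ω : Om) (T : ℕ) (c : Cl) (l : ι) (x : ι → Pt) : Set ℕ := {s | s ≤ T ∧ (A.cs c).m l s (G.gm s ω) x ≠ 0}

open Classical in
/-- **the key of the factor `l`** of the test which arrives at the machine time `j`, class `c` -/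
def keyOf (ω : Om) (j : ℕ) (c : Cl) (l : ι) (x : ι → Pt) : ℕ :=
  if l ∈ (A.cs c).S then
    enc (Cl := Cl) (Pt := Pt) (Sum.inl (j, rO G (j / (p.a Cl).bl) (G.gm (j / (p.a Cl).bl) ω)))
  else if (intr G A ω (j / (p.a Cl).bl) c l x).Nonempty then
    enc (Sum.inr (c, sInf (intr G A ω (j / (p.a Cl).bl) c l x),
      rO G (sInf (intr G A ω (j / (p.a Cl).bl) c l x)) (G.gm (sInf (intr G A ω (j / (p.a Cl).bl) c l x)) ω),
      rP G (sInf (intr G A ω (j / (p.a Cl).bl) c l x)) (x l)))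
  else 0

/-- **the test `f` of the class `c` arrives at the individual `y` at the machine time `j`** -/
def Arv (ω : Om) (j : ℕ) (c : Cl) (y : Ξ × (ι → Pt)) (f : V → ℝ) : Prop :=
  (j % (p.a Cl).bl = 0 ∧ (A.cs c).S = {δ} ∧ f = cmf A S0 c (j / (p.a Cl).bl) (G.gm (j / (p.a Cl).bl) ω) y.2) ∨
  (j % (p.a Cl).bl ≠ 0 ∧ ∃ q, tu G A S0 δ p ω j = some q ∧ q.sy = c ∧
    plc G A δ (j / (p.a Cl).bl) c y.2 = q.c ∧ f = q.g y)

variable {G A S0 δ p}

theorem intr_congr {ω ω' : Om} {t : ℕ} (h : G.gm t ω = G.gm t ω') {T : ℕ} (hT : T ≤ t) (c : Cl) (l : ι) (x : ι → Pt) :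
    intr G A ω T c l x = intr G A ω' T c l x := by
  ext s
  refine and_congr_right fun hs => ?_
  rw [G.gm_le (hs.trans hT) h]

theorem intr_dep (H : A.Ok G S0 δ) (ω : Om) (T : ℕ) (c : Cl) {l : ι} (hl : l ∈ S0 \ (A.cs c).S) {x y : ι → Pt}
    (h : ∀ i ∈ (univ.erase δ).erase l, x i = y i) (hc : G.cl T (x l) = G.cl T (y l)) :
    intr G A ω T c l x = intr G A ω T c l y := by
  ext s
  refine and_congr_right fun hs => ?_
  rw [(H.cs c).dep l hl s _ x y h fun i hi => by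
    rw [mem_singleton.1 hi]
    exact G.cl_le hs hc]

theorem intr_dep' (H : A.Ok G S0 δ) (ω : Om) (T : ℕ) (c : Cl) {l : ι} (hl : l ∈ S0 \ (A.cs c).S) {x y : ι → Pt}
    (h : ∀ i ∈ univ.erase δ, x i = y i) : intr G A ω T c l x = intr G A ω T c l y := by
  ext s
  refine and_congr_right fun hs => ?_
  rw [((H.cs c).nf l hl).dep s _ x y h]

/-- the keys are adapted -/
theorem keyOf_congr {ω ω' : Om} {t : ℕ} (h : G.gm t ω = G.gm t ω') {j : ℕ} (hj : j / (p.a Cl).bl ≤ t) (c : Cl) (l : ι)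
    (x : ι → Pt) : keyOf G A p ω j c l x = keyOf G A p ω' j c l x := by
  have h1 := intr_congr (A := A) h hj c l x
  unfold keyOf
  rw [h1, G.gm_le hj h]
  by_cases hl : l ∈ (A.cs c).S
  · rw [if_pos hl, if_pos hl]
  · rw [if_neg hl, if_neg hl]
    by_cases h2 : (intr G A ω' (j / (p.a Cl).bl) c l x).Nonempty
    · rw [if_pos h2, if_pos h2, G.gm_le ((Nat.sInf_mem h2).1.trans hj) h]
    · rw [if_neg h2, if_neg h2]

/-- the keys do not depend on the hidden vertex -/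
theorem keyOf_dep (H : A.Ok G S0 δ) (ω : Om) (j : ℕ) (c : Cl) {l : ι} (hl : l ∈ S0.erase δ) :
    Dep (univ.erase δ) (keyOf G A p ω j c l : (ι → Pt) → ℕ) := by
  intro x y h
  unfold keyOf
  by_cases hc : l ∈ (A.cs c).S
  · rw [if_pos hc, if_pos hc]
  · rw [if_neg hc, if_neg hc, intr_dep' H ω _ c (mem_sdiff.2 ⟨mem_of_mem_erase hl, hc⟩) h,
      h l (mem_erase.2 ⟨ne_of_mem_erase hl, mem_univ l⟩)]

theorem Arr.arv {ω : Om} {j : ℕ} {c : Cl} {y : Ξ × (ι → Pt)} {ν : Nu} {q : Ru.Tst R V}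
    (h : Arr G A S0 δ p ω y ν j c q) : Arv G A S0 δ p ω j c y q.g := by
  rcases h with ⟨h0, h1, h2, rfl⟩ | ⟨h0, q', h1, h2, h3, h4, rfl⟩
  · exact Or.inl ⟨h0, h1, rfl⟩
  · exact Or.inr ⟨h0, q', h1, h2, h4, rfl⟩

/-! ### the value -/

/-- multipliers are static after their introduction -/
theorem m_stat {c : Cl} {l : ι} (hf : NF G δ ((A.cs c).m l)) {ω : Om} {s t : ℕ} (hst : s ≤ t)
    (hs : (A.cs c).m l s (G.gm s ω) (G.x ω) ≠ 0) :
    (A.cs c).m l t (G.gm t ω) (G.x ω) = (A.cs c).m l s (G.gm s ω) (G.x ω) := by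
  induction t, hst using Nat.le_induction with
  | base => rfl
  | succ t hst ih =>
    rcases hf.intro t ω with h1 | h1
    · exact (show (A.cs c).m l (t + 1) (G.gm (t + 1) ω) (G.x ω) = (A.cs c).m l t (G.gm t ω) (G.x ω) from h1).trans ih
    · exact absurd (ih.symm.trans h1) hs

theorem cmf_zero {c : Cl} {t : ℕ} {g : Γ} {x : ι → Pt} {l : ι} (hl : l ∈ S0 \ (A.cs c).S)
    (h : (A.cs c).m l t g x = 0) : cmf A S0 c t g x = 0 := by
  funext d
  exact Finset.prod_eq_zero hl (congrFun h d)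

/-- the test of a class is the product of the multipliers and of the product test -/
theorem arr_val (H : A.Ok G S0 δ) (hp : p.Ok Kn Yn) {ω : Om} {j : ℕ} {c : Cl} {y : Ξ × (ι → Pt)} {f : V → ℝ}
    (h : Arv G A S0 δ p ω j c y f) :
    ∀ d, f d = cmf A S0 c (j / (p.a Cl).bl) (G.gm (j / (p.a Cl).bl) ω) y.2 d *
      ∏ l ∈ ((A.cs c).S).erase δ, pts G A S0 δ p (rO G (j / (p.a Cl).bl) (G.gm (j / (p.a Cl).bl) ω)) j l y.2 d := by
  intro d
  rcases h with ⟨h0, h1, rfl⟩ | ⟨h0, q, h1, rfl, h2, rfl⟩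
  · rw [h1, Finset.erase_singleton, Finset.prod_empty, mul_one]
  · have hg : G.gm (j / (p.a Cl).bl) (rO G (j / (p.a Cl).bl) (G.gm (j / (p.a Cl).bl) ω)) = G.gm (j / (p.a Cl).bl) ω :=
      gm_rO G _ ω
    have h3 : tu G A S0 δ p (rO G (j / (p.a Cl).bl) (G.gm (j / (p.a Cl).bl) ω)) j = some q := by
      rw [← h1]
      exact Ru.Dat.tau_agr (dt_agr hg) le_rfl
    obtain ⟨q', h4, h5, h6⟩ := isT_pts H hp h3
    rw [h3] at h4
    obtain rfl := Option.some.inj h4
    rw [h6 y d, hg]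
    rfl

theorem kin_key {ω : Om} {j : ℕ} {c : Cl} {f : V → ℝ}
    (h : Arv G A S0 δ p ω j c (G.xi ω, G.x ω) f) {l : ι} (hl : l ∈ S0.erase δ) {t : ℕ} (ht : j / (p.a Cl).bl ≤ t)
    (hf : l ∉ (A.cs c).S → (intr G A ω (j / (p.a Cl).bl) c l (G.x ω)).Nonempty) :
    kin G A S0 δ p l (dec (keyOf G A p ω j c l (G.x ω))) t (G.gm t ω) (G.x ω) := by
  unfold keyOf
  by_cases hc : l ∈ (A.cs c).S
  · rw [if_pos hc, dec_enc]
    have hg : G.gm (j / (p.a Cl).bl) (rO G (j / (p.a Cl).bl) (G.gm (j / (p.a Cl).bl) ω)) = G.gm (j / (p.a Cl).bl) ω :=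
      gm_rO G _ ω
    refine ⟨ht, by rw [G.anc_gm ht]; exact hg.symm, ?_⟩
    rcases h with ⟨h0, h1, rfl⟩ | ⟨h0, q, h1, rfl, h2, rfl⟩
    · rw [h1] at hc
      exact absurd (mem_singleton.1 hc) (ne_of_mem_erase hl)
    · refine ⟨q, ?_, mem_erase.2 ⟨ne_of_mem_erase hl, hc⟩, fun i hi hiS => ?_, fun i hi hiS => ?_⟩
      · rw [← h1]
        exact Ru.Dat.tau_agr (dt_agr hg) le_rfl
      · rw [← h2]
        show (if i ∈ (A.cs q.sy).S then none else some (G.x ω i)) = _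
        rw [if_neg hiS]
      · rw [← h2]
        show (if i ∈ ((A.cs q.sy).S).erase δ then some (G.cl (j / (p.a Cl).bl) (G.x ω i)) else none) = _
        rw [if_pos (mem_erase.2 ⟨ne_of_mem_erase (mem_of_mem_erase hi), hiS⟩)]
  · rw [if_neg hc, if_pos (hf hc), dec_enc]
    have h1 := Nat.sInf_mem (hf hc)
    set s := sInf (intr G A ω (j / (p.a Cl).bl) c l (G.x ω)) with hs
    refine ⟨h1.1.trans ht, ?_, mem_sdiff.2 ⟨mem_of_mem_erase hl, hc⟩⟩
    rw [G.anc_gm (h1.1.trans ht)]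
    exact (gm_rO G s ω).symm

theorem intr_ne (H : A.Ok G S0 δ) (hp : p.Ok Kn Yn) {ω : Om} {j : ℕ} {c : Cl} {f : V → ℝ}
    (h : Arv G A S0 δ p ω j c (G.xi ω, G.x ω) f) (h0 : f ≠ 0) {l : ι} (hl : l ∈ S0.erase δ) (hc : l ∉ (A.cs c).S) :
    (intr G A ω (j / (p.a Cl).bl) c l (G.x ω)).Nonempty := by
  refine ⟨_, le_rfl, fun h1 => h0 ?_⟩
  funext d
  rw [arr_val H hp h d, cmf_zero (mem_sdiff.2 ⟨mem_of_mem_erase hl, hc⟩) h1]
  exact zero_mul _

/-- **the factors are introduced when the test arrives** -/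
theorem fac_on (H : A.Ok G S0 δ) (hp : p.Ok Kn Yn) {ω : Om} {j : ℕ} {c : Cl} {f : V → ℝ}
    (h : Arv G A S0 δ p ω j c (G.xi ω, G.x ω) f) (h0 : f ≠ 0) {l : ι} (hl : l ∈ S0.erase δ) {t : ℕ}
    (ht : j / (p.a Cl).bl ≤ t) : (fac p H l).on (keyOf G A p ω j c l (G.x ω)) t ω :=
  kin_key h hl ht fun hc => intr_ne H hp h h0 hl hc

/-- value of one factor -/
theorem fac_val (H : A.Ok G S0 δ) (hp : p.Ok Kn Yn) {ω : Om} {j : ℕ} {c : Cl} {f : V → ℝ}
    (h : Arv G A S0 δ p ω j c (G.xi ω, G.x ω) f) (h0 : f ≠ 0) {l : ι} (hl : l ∈ S0.erase δ) {t : ℕ}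
    (ht : j / (p.a Cl).bl ≤ t) :
    (l ∈ (A.cs c).S → (fac p H l).at' (keyOf G A p ω j c l (G.x ω)) t ω =
      pts G A S0 δ p (rO G (j / (p.a Cl).bl) (G.gm (j / (p.a Cl).bl) ω)) j l (G.x ω)) ∧
    (l ∉ (A.cs c).S → (fac p H l).at' (keyOf G A p ω j c l (G.x ω)) t ω =
      (A.cs c).m l (j / (p.a Cl).bl) (G.gm (j / (p.a Cl).bl) ω) (G.x ω)) := by
  have hk := kin_key h hl ht fun hc => intr_ne H hp h h0 hl hc
  constructor
  · intro hc
    unfold keyOf at hk ⊢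
    rw [if_pos hc, dec_enc] at hk
    rw [if_pos hc, fac_at_of H l _ t ω hk]
    rfl
  · intro hc
    have hne := intr_ne H hp h h0 hl hc
    have h1 := Nat.sInf_mem hne
    unfold keyOf at hk ⊢
    rw [if_neg hc, if_pos hne, dec_enc] at hk
    rw [if_neg hc, if_pos hne, fac_at_of H l _ t ω hk]
    set s := sInf (intr G A ω (j / (p.a Cl).bl) c l (G.x ω)) with hs
    show (A.cs c).m l s (G.gm s (rO G s (G.gm s ω))) (Function.update (G.x ω) l (rP G s (G.x ω l))) = _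
    have hlm : l ∈ S0 \ (A.cs c).S := mem_sdiff.2 ⟨mem_of_mem_erase hl, hc⟩
    rw [gm_rO, m_stat ((H.cs c).nf l hlm) h1.1 h1.2]
    refine (H.cs c).dep l hlm s _ _ _ (fun i hi => ?_) fun i hi => ?_
    · rw [Function.update_of_ne (ne_of_mem_erase hi)]
    · rw [mem_singleton.1 hi, Function.update_self, cl_rP]

/-- **the product of the factors is the test** -/
theorem fac_prod (H : A.Ok G S0 δ) (hp : p.Ok Kn Yn) {ω : Om} {j : ℕ} {c : Cl} {f : V → ℝ}
    (h : Arv G A S0 δ p ω j c (G.xi ω, G.x ω) f) (h0 : f ≠ 0) {t : ℕ} (ht : j / (p.a Cl).bl ≤ t) (d : V) :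
    ∏ l ∈ S0.erase δ, (fac p H l).at' (keyOf G A p ω j c l (G.x ω)) t ω d = f d := by
  have hS : S0.erase δ = (S0 \ (A.cs c).S) ∪ ((A.cs c).S).erase δ := by
    ext l
    rw [mem_erase, mem_union, mem_sdiff, mem_erase]
    constructor
    · rintro ⟨h1, h2⟩
      by_cases h3 : l ∈ (A.cs c).S
      · exact Or.inr ⟨h1, h3⟩
      · exact Or.inl ⟨h2, h3⟩
    · rintro (⟨h1, h2⟩ | ⟨h1, h2⟩)
      · exact ⟨fun h3 => h2 (h3 ▸ (H.cs c).mem), h1⟩
      · exact ⟨h1, (H.cs c).sub h2⟩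
  have hd : Disjoint (S0 \ (A.cs c).S) (((A.cs c).S).erase δ) := by
    rw [Finset.disjoint_left]
    intro l h1 h2
    exact (mem_sdiff.1 h1).2 (mem_of_mem_erase h2)
  rw [arr_val H hp h d]
  have e1 : ∏ l ∈ S0.erase δ, (fac p H l).at' (keyOf G A p ω j c l (G.x ω)) t ω d =
      (∏ l ∈ S0 \ (A.cs c).S, (fac p H l).at' (keyOf G A p ω j c l (G.x ω)) t ω d) *
        ∏ l ∈ ((A.cs c).S).erase δ, (fac p H l).at' (keyOf G A p ω j c l (G.x ω)) t ω d := by
    rw [← Finset.prod_union hd, ← hS]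
  rw [e1]
  congr 1
  · refine Finset.prod_congr rfl fun l hl => ?_
    have hl0 : l ∈ S0.erase δ := by rw [hS]; exact mem_union_left _ hl
    rw [(fac_val H hp h h0 hl0 ht).2 (mem_sdiff.1 hl).2]
  · refine Finset.prod_congr rfl fun l hl => ?_
    have hl0 : l ∈ S0.erase δ := by rw [hS]; exact mem_union_right _ hl
    rw [(fac_val H hp h h0 hl0 ht).1 (mem_of_mem_erase hl)]

/-! ### the base sets -/

theorem sInf_cut {P : ℕ → Prop} {T t : ℕ} (hT : T ≤ t) (h : {s | s ≤ T ∧ P s}.Nonempty) :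
    sInf {s | s ≤ t ∧ P s} = sInf {s | s ≤ T ∧ P s} := by
  have h1 := Nat.sInf_mem h
  have h2 : sInf {s | s ≤ T ∧ P s} ∈ {s | s ≤ t ∧ P s} := ⟨h1.1.trans hT, h1.2⟩
  have h3 : sInf {s | s ≤ t ∧ P s} ≤ sInf {s | s ≤ T ∧ P s} := Nat.sInf_le h2
  refine le_antisymm h3 (Nat.sInf_le ⟨h3.trans h1.1, ?_⟩)
  exact (Nat.sInf_mem (⟨_, h2⟩ : {s | s ≤ t ∧ P s}.Nonempty)).2

variable (G A δ)

/-- introduction times along the node -/
def intg (t : ℕ) (g : Γ) (c : Cl) (l : ι) (x : ι → Pt) : Set ℕ :=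
  {s | s ≤ t ∧ (A.cs c).m l s (S2.anc G.par t g s) x ≠ 0}

open Classical in
/-- keys of the multiplier of the class `c` -/
def mkey (l : ι) (t : ℕ) (g : Γ) (x : ι → Pt) (c : Cl) : Finset ℕ :=
  if (intg G A t g c l x).Nonempty then
    {enc (Sum.inr (c, sInf (intg G A t g c l x),
      rO G (sInf (intg G A t g c l x)) (S2.anc G.par t g (sInf (intg G A t g c l x))),
      rP G (sInf (intg G A t g c l x)) (x l)))}
  else ∅

variable (S0 p)

open Classical in
/-- keys of the publications of the time `s` -/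
def pkey (l : ι) (s : ℕ) (g : Γ) (x : ι → Pt) : Finset ℕ :=
  ((range ((p.a Cl).bl - 1)).filter fun i => ∃ q, tu G A S0 δ p (rO G s g) (s * (p.a Cl).bl + (i + 1)) = some q ∧
    l ∈ (A.cs q.sy).S ∧ plc G A δ s q.sy x = q.c).image fun i =>
      enc (Cl := Cl) (Pt := Pt) (Sum.inl (s * (p.a Cl).bl + (i + 1), rO G s g))

open Classical in
/-- the base set -/
def basL (l : ι) (t : ℕ) (g : Γ) (x : ι → Pt) : Finset ℕ :=
  {0} ∪ ((range (t + 1)).biUnion (fun s => pkey G A S0 δ p l s (S2.anc G.par t g s) x) ∪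
    (univ.filter fun c : Cl => l ∉ (A.cs c).S).biUnion (mkey G A l t g x))

variable {G A S0 δ p}

theorem intg_succ (t : ℕ) (g : Γ) (c : Cl) (l : ι) (x : ι → Pt) :
    intg G A t (G.par t g) c l x = {s | s ≤ t ∧ (A.cs c).m l s (S2.anc G.par (t + 1) g s) x ≠ 0} := by
  ext s
  refine and_congr_right fun hs => ?_
  rw [S2.anc_succ _ hs]

theorem mkey_mono (l : ι) (t : ℕ) (g : Γ) (x : ι → Pt) (c : Cl) :
    mkey G A l t (G.par t g) x c ⊆ mkey G A l (t + 1) g x c := by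
  intro k hk
  unfold mkey at hk ⊢
  split_ifs at hk with h
  · have h0 := h
    rw [intg_succ] at h0
    have e : sInf (intg G A (t + 1) g c l x) = sInf (intg G A t (G.par t g) c l x) := by
      rw [intg_succ]
      exact sInf_cut (Nat.le_succ t) h0
    have h1 := Nat.sInf_mem h
    have h2 : (intg G A (t + 1) g c l x).Nonempty := by
      obtain ⟨s, h3, h4⟩ := h0
      exact ⟨s, h3.trans (Nat.le_succ t), h4⟩
    rw [if_pos h2, e, S2.anc_succ _ h1.1]
    exact hk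
  · exact absurd hk (notMem_empty _)

theorem basL_mono (l : ι) (t : ℕ) (g : Γ) (x : ι → Pt) :
    basL G A S0 δ p l t (G.par t g) x ⊆ basL G A S0 δ p l (t + 1) g x := by
  intro k hk
  unfold basL at hk ⊢
  rw [mem_union, mem_union, mem_biUnion, mem_biUnion] at hk ⊢
  rcases hk with hk | ⟨s, hs, hk⟩ | ⟨c, hc, hk⟩
  · exact Or.inl hk
  · refine Or.inr (Or.inl ⟨s, ?_, ?_⟩)
    · rw [Finset.mem_range] at hs ⊢
      omega
    · rw [Finset.mem_range] at hs
      rw [S2.anc_succ _ (by omega)]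
      exact hk
  · exact Or.inr (Or.inr ⟨c, hc, mkey_mono l t g x c hk⟩)

theorem plc_depC (H : A.Ok G S0 δ) {s t : ℕ} (hs : s ≤ t) {c : Cl} {l : ι} (hl : l ∈ (A.cs c).S) {x y : ι → Pt}
    (h : ∀ i ∈ (univ.erase δ).erase l, x i = y i) (hc : G.cl t (x l) = G.cl t (y l)) :
    (plc G A δ s c x : Plc ι Pt κ) = plc G A δ s c y := by
  refine plc_eq.2 ⟨fun i hi => ?_, fun i hi => ?_⟩
  · refine h i (mem_erase.2 ⟨fun h1 => hi (h1 ▸ hl), mem_erase.2 ⟨fun h1 => hi (h1 ▸ (H.cs c).mem), mem_univ i⟩⟩)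
  · by_cases hil : i = l
    · rw [hil]
      exact G.cl_le hs hc
    · rw [h i (mem_erase.2 ⟨hil, mem_erase.2 ⟨ne_of_mem_erase hi, mem_univ i⟩⟩)]

open Classical in
theorem pkey_dep (H : A.Ok G S0 δ) {l : ι} {s t : ℕ} (hs : s ≤ t) (g : Γ) {x y : ι → Pt}
    (h : ∀ i ∈ (univ.erase δ).erase l, x i = y i) (hc : G.cl t (x l) = G.cl t (y l)) :
    pkey G A S0 δ p l s g x = pkey G A S0 δ p l s g y := by
  unfold pkey
  congr 1
  refine Finset.filter_congr fun i _ => ?_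
  refine exists_congr fun q => and_congr_right fun _ => and_congr_right fun hl => ?_
  rw [plc_depC H hs hl h hc]

theorem mkey_dep (H : A.Ok G S0 δ) {l : ι} {t : ℕ} (g : Γ) {c : Cl} (hl : l ∈ S0 \ (A.cs c).S) {x y : ι → Pt}
    (h : ∀ i ∈ (univ.erase δ).erase l, x i = y i) (hc : G.cl t (x l) = G.cl t (y l)) :
    mkey G A l t g x c = mkey G A l t g y c := by
  have e : intg G A t g c l x = intg G A t g c l y := by
    ext s
    refine and_congr_right fun hs => ?_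
    rw [(H.cs c).dep l hl s _ x y h fun i hi => by
      rw [mem_singleton.1 hi]
      exact G.cl_le hs hc]
  unfold mkey
  rw [e]
  by_cases h1 : (intg G A t g c l y).Nonempty
  · rw [if_pos h1, if_pos h1, rP_congr G (G.cl_le (Nat.sInf_mem h1).1 hc)]
  · rw [if_neg h1, if_neg h1]

variable (p) in
/-- **THE BASE SETS** -/
def bas (H : A.Ok G S0 δ) {l : ι} (hl : l ∈ S0) : BSt G δ l where
  L := basL G A S0 δ p l
  dep t g := fun x y h hc => by
    have hc' : G.cl t (x l) = G.cl t (y l) := hc l (mem_singleton_self l)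
    unfold basL
    congr 2
    · exact Finset.biUnion_congr rfl fun s hs => by
        rw [Finset.mem_range] at hs
        exact pkey_dep H (by omega) _ h hc'
    · exact Finset.biUnion_congr rfl fun c hc => mkey_dep H g (mem_sdiff.2 ⟨hl, (mem_filter.1 hc).2⟩) h hc'
  mono := basL_mono l

theorem intg_gm (t : ℕ) (ω : Om) (c : Cl) (l : ι) (x : ι → Pt) :
    intg G A t (G.gm t ω) c l x = intr G A ω t c l x := by
  ext s
  refine and_congr_right fun hs => ?_
  rw [G.anc_gm hs]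

open Classical in
/-- **the keys of the true point are in the base sets** -/
theorem key_mem (H : A.Ok G S0 δ) {ω : Om} {j : ℕ} {c : Cl} {f : V → ℝ}
    (h : Arv G A S0 δ p ω j c (G.xi ω, G.x ω) f) {l : ι} (hl : l ∈ S0.erase δ) {t : ℕ} (ht : j / (p.a Cl).bl ≤ t) :
    keyOf G A p ω j c l (G.x ω) ∈ (bas p H (mem_of_mem_erase hl)).at' t ω := by
  show keyOf G A p ω j c l (G.x ω) ∈ basL G A S0 δ p l t (G.gm t ω) (G.x ω)
  unfold basL keyOf
  rw [mem_union, mem_union, mem_biUnion, mem_biUnion]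
  by_cases hc : l ∈ (A.cs c).S
  · rw [if_pos hc]
    rcases h with ⟨h0, h1, rfl⟩ | ⟨h0, q, h1, rfl, h2, rfl⟩
    · rw [h1] at hc
      exact absurd (mem_singleton.1 hc) (ne_of_mem_erase hl)
    refine Or.inr (Or.inl ⟨j / (p.a Cl).bl, Finset.mem_range.2 (by omega), ?_⟩)
    rw [G.anc_gm ht]
    set s := j / (p.a Cl).bl with hs
    have hj : s * (p.a Cl).bl + j % (p.a Cl).bl = j := Nat.div_add_mod' j _
    have hbl : 0 < (p.a Cl).bl := Nat.succ_pos _
    have hlt := Nat.mod_lt j hbl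
    have e : s * (p.a Cl).bl + ((j % (p.a Cl).bl - 1) + 1) = j := by omega
    refine mem_image.2 ⟨j % (p.a Cl).bl - 1, mem_filter.2 ⟨Finset.mem_range.2 (by omega), q, ?_, hc, h2⟩, ?_⟩
    · rw [e, ← h1]
      exact Ru.Dat.tau_agr (dt_agr (gm_rO G s ω)) le_rfl
    · rw [e]
  · rw [if_neg hc]
    by_cases h2 : (intr G A ω (j / (p.a Cl).bl) c l (G.x ω)).Nonempty
    · rw [if_pos h2]
      refine Or.inr (Or.inr ⟨c, mem_filter.2 ⟨mem_univ c, hc⟩, ?_⟩)
      have h3 : (intr G A ω t c l (G.x ω)).Nonempty := by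
        obtain ⟨s, h4, h5⟩ := h2
        exact ⟨s, h4.trans ht, h5⟩
      have e : sInf (intr G A ω t c l (G.x ω)) = sInf (intr G A ω (j / (p.a Cl).bl) c l (G.x ω)) := sInf_cut ht h2
      have h4 := (Nat.sInf_mem h2).1
      unfold mkey
      rw [intg_gm, if_pos h3, e, G.anc_gm (h4.trans ht)]
      exact mem_singleton_self _
    · rw [if_neg h2]
      exact Or.inl (mem_singleton_self 0)

theorem zero_mem (H : A.Ok G S0 δ) {l : ι} (hl : l ∈ S0) (t : ℕ) (ω : Om) : 0 ∈ (bas p H hl).at' t ω :=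
  mem_union_left _ (mem_singleton_self 0)

theorem mkey_card (l : ι) (t : ℕ) (g : Γ) (x : ι → Pt) (c : Cl) : (mkey G A l t g x c).card ≤ 1 := by
  unfold mkey
  split_ifs
  · exact (card_singleton _).le
  · exact Nat.zero_le _

theorem card_eq_ind {α : Type*} (T : Finset α) (Q : α → Prop) [DecidablePred Q] :
    ((T.filter Q).card : ℝ) = ∑ i ∈ T, ind (Q i) := by
  rw [Finset.card_filter]
  push_cast
  refine Finset.sum_congr rfl fun i _ => ?_
  by_cases h : Q i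
  · rw [if_pos h, ind_of h]
  · rw [if_neg h, ind_not h]

open Classical in
theorem pkey_card (H : A.Ok G S0 δ) (hp : p.Ok Kn Yn) (l : ι) (s : ℕ) (ω : Om) (y : Ξ × (ι → Pt)) :
    ((pkey G A S0 δ p l s (G.gm s ω) y.2).card : ℝ) ≤ ∑ c : Cl, npb G A S0 δ p ω s c y := by
  unfold pkey npb
  rw [Finset.sum_comm]
  refine (Nat.cast_le.2 card_image_le).trans ?_
  rw [card_eq_ind]
  refine Finset.sum_le_sum fun i hi => ?_
  have hg : tu G A S0 δ p (rO G s (G.gm s ω)) (s * (p.a Cl).bl + (i + 1)) =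
      tu G A S0 δ p ω (s * (p.a Cl).bl + (i + 1)) :=
    Ru.Dat.tau_agr (dt_agr (gm_rO G s ω)) (blk_le hi).le
  rw [hg]
  have hnn : ∀ c : Cl, 0 ≤ ind (∃ q, (dt G A S0 δ p ω).tau (p.a Cl) (s * (p.a Cl).bl + (i + 1)) = some q ∧
    q.sy = c ∧ q.k = (A.cs c).k ∧ (dt G A S0 δ p ω).loc c s y = q.c) := fun c => ind_nonneg _
  by_cases h : ∃ q, tu G A S0 δ p ω (s * (p.a Cl).bl + (i + 1)) = some q ∧ l ∈ (A.cs q.sy).S ∧
      plc G A δ s q.sy y.2 = q.c
  · obtain ⟨q, h1, h2, h3⟩ := h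
    rw [ind_of ⟨q, h1, h2, h3⟩]
    refine le_trans ?_ (Finset.single_le_sum (fun c _ => hnn c) (mem_univ q.sy))
    rw [ind_of]
    exact ⟨q, h1, rfl, (Ru.Dat.tau_adm (datOk H hp ω) h1).1.1, h3⟩
  · rw [ind_not h]
    exact Finset.sum_nonneg fun c _ => hnn c

open Classical in
theorem bas_card (H : A.Ok G S0 δ) (hp : p.Ok Kn Yn) {l : ι} (hl : l ∈ S0) (t : ℕ) (ω : Om) :
    (((bas p H hl).at' t ω).card : ℝ) ≤
      1 + (∑ c : Cl, ∑ s ∈ range (t + 1), npb G A S0 δ p ω s c (G.xi ω, G.x ω)) + Fintype.card Cl := by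
  have h1 : ((bas p H hl).at' t ω).card ≤ 1 + (∑ s ∈ range (t + 1), (pkey G A S0 δ p l s (G.gm s ω) (G.x ω)).card +
      ∑ c ∈ univ.filter (fun c : Cl => l ∉ (A.cs c).S), 1) := by
    show (basL G A S0 δ p l t (G.gm t ω) (G.x ω)).card ≤ _
    unfold basL
    refine (card_union_le _ _).trans (Nat.add_le_add (card_singleton _).le ((card_union_le _ _).trans
      (Nat.add_le_add ?_ ?_)))
    · refine card_biUnion_le.trans (Finset.sum_le_sum fun s hs => ?_)
      rw [Finset.mem_range] at hs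
      rw [G.anc_gm (by omega)]
    · exact card_biUnion_le.trans (Finset.sum_le_sum fun c _ => mkey_card _ _ _ _ _)
  have h2 : ∑ c ∈ univ.filter (fun c : Cl => l ∉ (A.cs c).S), 1 ≤ Fintype.card Cl := by
    rw [Finset.sum_const, smul_eq_mul, mul_one]
    exact card_le_univ _
  have h3 : ((∑ s ∈ range (t + 1), (pkey G A S0 δ p l s (G.gm s ω) (G.x ω)).card : ℕ) : ℝ) ≤
      ∑ c : Cl, ∑ s ∈ range (t + 1), npb G A S0 δ p ω s c (G.xi ω, G.x ω) := by
    rw [Finset.sum_comm]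
    push_cast
    exact Finset.sum_le_sum fun s _ => pkey_card H hp l s ω (G.xi ω, G.x ω)
  have h4 : (((bas p H hl).at' t ω).card : ℝ) ≤ 1 +
      (((∑ s ∈ range (t + 1), (pkey G A S0 δ p l s (G.gm s ω) (G.x ω)).card : ℕ) : ℝ) +
        ((∑ c ∈ univ.filter (fun c : Cl => l ∉ (A.cs c).S), 1 : ℕ) : ℝ)) := by exact_mod_cast h1
  have h5 : ((∑ c ∈ univ.filter (fun c : Cl => l ∉ (A.cs c).S), 1 : ℕ) : ℝ) ≤ Fintype.card Cl := by exact_mod_cast h2
  linarith

/-- the uses of the run `k` during a node, as in helper78's file -/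
theorem nus_cw (ω : Om) (s : ℕ) (k : Ru.Ka Nu R I) : nus G A S0 δ p ω s k (G.xi ω, G.x ω) =
    ∑ i ∈ range ((p.a Cl).bl - 1), Ru.IndM.cw p.Y (Xst G A S0 δ p k.1) (nwst G A S0 δ p k.1) (Ast G A S0 δ p k) p.N
      (s * (p.a Cl).bl + (i + 1)) ω := rfl

/-- **all uses of a run** -/
theorem E_nus (H : A.Ok G S0 δ) (hp : p.Ok Kn Yn) (k : Ru.Ka Nu R I) (t : ℕ) :
    ∑ s ∈ range (t + 1), G.P.E (fun ω => nus G A S0 δ p ω s k (G.xi ω, G.x ω)) ≤ 20 / p.ea ^ 2 := by
  have HI := indM H hp k.1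
  set F : ℕ → ℝ := fun i => G.P.E (fun ω => Ru.IndM.cw p.Y (Xst G A S0 δ p k.1) (nwst G A S0 δ p k.1)
    (Ast G A S0 δ p k) p.N i ω) with hF
  have h0 : ∀ i, 0 ≤ F i := fun i => G.P.E_nonneg fun ω _ => Ru.cu_nonneg _ _ _
  have h1 : ∀ s, G.P.E (fun ω => nus G A S0 δ p ω s k (G.xi ω, G.x ω)) =
      ∑ i ∈ range ((p.a Cl).bl - 1), F (s * (p.a Cl).bl + (i + 1)) := by
    intro s
    rw [G.P.E_congr fun ω _ => nus_cw ω s k, G.P.E_sum]
  have h2 : ∀ s, ∑ i ∈ range ((p.a Cl).bl - 1), F (s * (p.a Cl).bl + (i + 1)) ≤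
      ∑ i ∈ Ico (s * (p.a Cl).bl) ((s + 1) * (p.a Cl).bl), F i := by
    intro s
    have hbl : 0 < (p.a Cl).bl := Nat.succ_pos _
    rw [Finset.sum_Ico_eq_sum_range]
    have e : (s + 1) * (p.a Cl).bl - s * (p.a Cl).bl = ((p.a Cl).bl - 1) + 1 := by
      rw [Nat.succ_mul]
      omega
    rw [e, Finset.sum_range_succ' (fun i => F (s * (p.a Cl).bl + i))]
    have := h0 (s * (p.a Cl).bl + 0)
    linarith
  have h3 := sum_blocks (fun s => s * (p.a Cl).bl) (fun a b h => Nat.mul_le_mul_right _ h) F (Nat.zero_le (t + 1))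
  have h4 : ∑ s ∈ range (t + 1), G.P.E (fun ω => nus G A S0 δ p ω s k (G.xi ω, G.x ω)) ≤
      ∑ i ∈ Icc 0 ((t + 1) * (p.a Cl).bl), F i := by
    rw [Finset.sum_congr rfl fun s _ => h1 s]
    refine (Finset.sum_le_sum fun s _ => h2 s).trans ?_
    rw [Finset.range_eq_Ico, h3]
    refine Finset.sum_le_sum_of_subset_of_nonneg (fun i hi => ?_) fun i _ _ => h0 i
    rw [Finset.mem_Ico] at hi
    rw [Finset.mem_Icc]
    exact ⟨Nat.zero_le _, hi.2.le⟩
  have h5 := HI.uses_le (A := Ast G A S0 δ p k) (fun i => Ast_fac H hp k i) 0 (φ := fun _ => 1) (fun _ _ _ => rfl)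
    (fun _ => zero_le_one) ((t + 1) * (p.a Cl).bl)
  rw [G.P.E_const, mul_one] at h5
  refine h4.trans (le_trans (le_of_eq ?_) h5)
  refine Finset.sum_congr rfl fun i _ => G.P.E_congr fun ω _ => ?_
  rw [one_mul]

/-- **MEAN SIZE OF THE BASE SETS** -/
theorem E_bas (H : A.Ok G S0 δ) (hp : p.Ok Kn Yn) {l : ι} (hl : l ∈ S0) (t : ℕ) :
    G.P.E (fun ω => (((bas p H hl).at' t ω).card : ℝ)) ≤ 1 + Fintype.card Cl * (1 + 20 / p.ea ^ 2 / p.θ) := by
  have h1 : ∀ (s : ℕ) (c : Cl), G.P.E (fun ω => npb G A S0 δ p ω s c (G.xi ω, G.x ω)) ≤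
      G.P.E (fun ω => nus G A S0 δ p ω s (A.cs c).k (G.xi ω, G.x ω)) / p.θ := by
    intro s c
    have h2 := mean_pub H hp s c (fun _ _ => 1) fun _ _ => zero_le_one
    simp only [one_mul] at h2
    rw [le_div_iff₀ hp.θ0]
    linarith
  have h3 : ∀ c : Cl, ∑ s ∈ range (t + 1), G.P.E (fun ω => npb G A S0 δ p ω s c (G.xi ω, G.x ω)) ≤
      20 / p.ea ^ 2 / p.θ := by
    intro c
    refine (Finset.sum_le_sum fun s _ => h1 s c).trans ?_
    rw [← Finset.sum_div]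
    exact div_le_div_of_nonneg_right (E_nus H hp _ t) hp.θ0.le
  have h4 : G.P.E (fun ω => (((bas p H hl).at' t ω).card : ℝ)) ≤
      G.P.E (fun ω => 1 + (∑ c : Cl, ∑ s ∈ range (t + 1), npb G A S0 δ p ω s c (G.xi ω, G.x ω)) + Fintype.card Cl) :=
    G.P.E_mono fun ω _ => bas_card H hp hl t ω
  have h5 : G.P.E (fun ω => 1 + (∑ c : Cl, ∑ s ∈ range (t + 1), npb G A S0 δ p ω s c (G.xi ω, G.x ω)) +
      Fintype.card Cl) = 1 + (∑ c : Cl, ∑ s ∈ range (t + 1),
        G.P.E (fun ω => npb G A S0 δ p ω s c (G.xi ω, G.x ω))) + Fintype.card Cl := by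
    rw [G.P.E_add, G.P.E_add, G.P.E_const, G.P.E_const, G.P.E_sum]
    congr 2
    exact Finset.sum_congr rfl fun c _ => G.P.E_sum _ _
  have h6 : ∑ c : Cl, ∑ s ∈ range (t + 1), G.P.E (fun ω => npb G A S0 δ p ω s c (G.xi ω, G.x ω)) ≤
      Fintype.card Cl * (20 / p.ea ^ 2 / p.θ) := by
    refine (Finset.sum_le_sum fun c _ => h3 c).trans ?_
    rw [Finset.sum_const, nsmul_eq_mul, Finset.card_univ]
  rw [h5] at h4
  refine h4.trans ?_
  rw [mul_add, mul_one]
  linarith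

/-! ### the interface of RuleO -/

/-- the factors of a test which has arrived are introduced -/
theorem key_on (H : A.Ok G S0 δ) (hp : p.Ok Kn Yn) {ω : Om} {ν : Nu} {j : ℕ} {c : Cl} {q : Ru.Tst R V}
    (h : Arr G A S0 δ p ω (G.xi ω, G.x ω) ν j c q) (h0 : q.g ≠ 0) {l : ι} (hl : l ∈ S0.erase δ) {t : ℕ}
    (ht : j / (p.a Cl).bl ≤ t) : (fac p H l).on (keyOf G A p ω j c l (G.x ω)) t ω := fac_on H hp h.arv h0 hl ht

/-- **VALUE** of a test which has arrived -/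
theorem key_prod (H : A.Ok G S0 δ) (hp : p.Ok Kn Yn) {ω : Om} {ν : Nu} {j : ℕ} {c : Cl} {q : Ru.Tst R V}
    (h : Arr G A S0 δ p ω (G.xi ω, G.x ω) ν j c q) (h0 : q.g ≠ 0) {t : ℕ} (ht : j / (p.a Cl).bl ≤ t) (d : V) :
    ∏ l ∈ S0.erase δ, (fac p H l).at' (keyOf G A p ω j c l (G.x ω)) t ω d = q.g d := fac_prod H hp h.arv h0 ht d

/-- the keys of a test which has arrived are in the base sets -/
theorem key_bas (H : A.Ok G S0 δ) {ω : Om} {ν : Nu} {j : ℕ} {c : Cl} {q : Ru.Tst R V}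
    (h : Arr G A S0 δ p ω (G.xi ω, G.x ω) ν j c q) {l : ι} (hl : l ∈ S0.erase δ) {t : ℕ}
    (ht : j / (p.a Cl).bl ≤ t) : keyOf G A p ω j c l (G.x ω) ∈ (bas p H (mem_of_mem_erase hl)).at' t ω :=
  key_mem H h.arv hl ht

end

end Pool.Agent.GMN.RuS
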