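import Pool.Agent.GMN.Ind

/-!
# GMN.RuleN (row N, 3.1 (d)): greedy publications in a finite population, abstract form

Machine times are grouped in blocks of `bl` times (one block = one node).  At the even offsets `2, 4, ..` of a block
the first possible publication is made (`tau`); the odd offsets are idle.  `cnd G τ i p`: the candidate `p` is
admissible and at least the share `θ p` of the individuals of its place is hit at the time `i`.

`GrOk`: locality, idle stability, a publication causes a use of every member which is hit, at most `B0` uses of one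
run of one individual in a block.  Then, if the block is long, NO CANDIDATE is left at the end of every block
(`Gr.end_none`), and the number of publications is bounded by the uses (`Gr.count`).
-/

set_option autoImplicit false
set_option linter.unusedSectionVars false

namespace Pool.Agent.GMN.Ru

open Finset Pool.Agent.PWZ Pool.Agent.M3

noncomputable section

/-- a greedy problem: individuals `Y`, publications `Q`, runs `Ka` -/
structure Gr (Y Q Ka : Type*) where
  bl : ℕ
  /-- the individual belongs to the place of the candidate at the node -/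
  loc : ℕ → Q → Y → Prop
  ka : Q → Ka
  θ : Q → ℝ
  adm : ℕ → Q → Prop
  hit : (ℕ → Option Q) → ℕ → Q → Y → Prop
  us : (ℕ → Option Q) → Ka → ℕ → Y → ℝ

variable {Y Q Ka : Type*} [Fintype Y]

namespace Gr

variable (G : Gr Y Q Ka)

/-- size of the place -/
def sz (t : ℕ) (p : Q) : ℝ := ∑ y, ind (G.loc t p y)

/-- number of members which are hit -/
def hz (τ : ℕ → Option Q) (i : ℕ) (p : Q) : ℝ := ∑ y, ind (G.loc (i / G.bl) p y ∧ G.hit τ i p y)

/-- `p` can be published after the time `i` -/
def cnd (τ : ℕ → Option Q) (i : ℕ) (p : Q) : Prop :=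
  G.adm (i / G.bl) p ∧ 0 < G.sz (i / G.bl) p ∧ G.θ p * G.sz (i / G.bl) p ≤ G.hz τ i p

/-- times of publications -/
def slot (j : ℕ) : Prop := 2 ≤ j % G.bl ∧ Even (j % G.bl)

open Classical in
/-- a candidate -/
def pck (s : Prop) (c : Q → Prop) : Option Q := if h : s ∧ ∃ p, c p then some (Classical.choose h.2) else none

/-- the publication at the time `i + 1` -/
def sel (τ : ℕ → Option Q) (i : ℕ) : Option Q := pck (G.slot (i + 1)) (G.cnd τ i)

/-- the publications up to time `i` -/
def pre : ℕ → ℕ → Option Q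
  | 0 => fun _ => none
  | i + 1 => fun j => if j = i + 1 then G.sel (pre i) i else pre i j

/-- **the greedy publications** -/
def tau (i : ℕ) : Option Q := G.pre i i

theorem pre_eq {i j : ℕ} (h : j ≤ i) : G.pre i j = G.tau j := by
  induction i, h using Nat.le_induction with
  | base => rfl
  | succ i hi ih =>
    show (if j = i + 1 then G.sel (G.pre i) i else G.pre i j) = G.tau j
    rw [if_neg (by omega), ih]

theorem tau_zero : G.tau 0 = none := rfl

theorem tau_succ (i : ℕ) : G.tau (i + 1) = G.sel (G.pre i) i := by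
  show (if i + 1 = i + 1 then G.sel (G.pre i) i else G.pre i (i + 1)) = _
  rw [if_pos rfl]

end Gr

/-- the hypotheses -/
structure GrOk (G : Gr Y Q Ka) (B0 θ0 : ℝ) : Prop where
  pos : 0 < θ0
  θ : ∀ p, θ0 ≤ G.θ p
  loc : ∀ τ τ' : ℕ → Option Q, ∀ i, (∀ j ≤ i, τ j = τ' j) → G.hit τ i = G.hit τ' i
  idle : ∀ τ i, 0 < i % G.bl → (i + 1) / G.bl = i / G.bl → τ i = none → τ (i + 1) = none →
    ∀ p y, G.hit τ (i + 1) p y ↔ G.hit τ i p y
  inc : ∀ τ i p y, (i + 1) / G.bl = i / G.bl → τ (i + 1) = some p → G.loc (i / G.bl) p y → G.hit τ i p y →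
    1 ≤ G.us τ (G.ka p) (i + 1) y
  us0 : ∀ τ κ i y, 0 ≤ G.us τ κ i y
  usB : ∀ τ κ t y, ∑ l ∈ range (G.bl - 1), G.us τ κ (t * G.bl + (l + 1)) y ≤ B0

namespace Gr

variable {G : Gr Y Q Ka} {B0 θ0 : ℝ}

theorem cnd_congr (h : GrOk G B0 θ0) {τ τ' : ℕ → Option Q} {i : ℕ} (hτ : ∀ j ≤ i, τ j = τ' j) :
    G.cnd τ i = G.cnd τ' i := by
  funext p
  unfold cnd hz
  rw [h.loc τ τ' i hτ]

theorem sel_congr (h : GrOk G B0 θ0) {τ τ' : ℕ → Option Q} {i : ℕ} (hτ : ∀ j ≤ i, τ j = τ' j) :
    G.sel τ i = G.sel τ' i := by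
  unfold sel
  rw [cnd_congr h hτ]

theorem tau_sel (h : GrOk G B0 θ0) (i : ℕ) : G.tau (i + 1) = G.sel G.tau i := by
  rw [tau_succ]
  exact sel_congr h fun j hj => G.pre_eq hj

theorem tau_some (h : GrOk G B0 θ0) {i : ℕ} {p : Q} (hp : G.tau (i + 1) = some p) :
    G.slot (i + 1) ∧ G.cnd G.tau i p := by
  classical
  rw [tau_sel h] at hp
  unfold sel pck at hp
  split_ifs at hp with hc
  have := Option.some.inj hp
  rw [← this]
  exact ⟨hc.1, Classical.choose_spec hc.2⟩

theorem tau_none (h : GrOk G B0 θ0) {i : ℕ} (hs : G.slot (i + 1)) (hp : G.tau (i + 1) = none) (p : Q) :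
    ¬ G.cnd G.tau i p := by
  classical
  intro hc
  rw [tau_sel h] at hp
  unfold sel pck at hp
  rw [dif_pos ⟨hs, p, hc⟩] at hp
  exact absurd hp (by simp)

theorem tau_of_not_slot (h : GrOk G B0 θ0) {i : ℕ} (hs : ¬ G.slot i) : G.tau i = none := by
  cases i with
  | zero => rfl
  | succ i =>
    cases hp : G.tau (i + 1) with
    | none => rfl
    | some p => exact absurd (tau_some h hp).1 hs

theorem tau_of_no_cnd (h : GrOk G B0 θ0) {i : ℕ} (hs : ∀ p, ¬ G.cnd G.tau i p) : G.tau (i + 1) = none := by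
  cases hp : G.tau (i + 1) with
  | none => rfl
  | some p => exact absurd (tau_some h hp).2 (hs p)

theorem hz_nonneg (τ : ℕ → Option Q) (i : ℕ) (p : Q) : 0 ≤ G.hz τ i p := Finset.sum_nonneg fun _ _ => ind_nonneg _

theorem sz_nonneg (t : ℕ) (p : Q) : 0 ≤ G.sz t p := Finset.sum_nonneg fun _ _ => ind_nonneg _

theorem one_le_sz {t : ℕ} {p : Q} (h : 0 < G.sz t p) : 1 ≤ G.sz t p := by
  by_contra hc
  have h1 : ∀ y ∈ (univ : Finset Y), ind (G.loc t p y) = 0 := by
    intro y hy
    by_contra h2
    have h3 : G.loc t p y := by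
      by_contra h3
      exact h2 (ind_not h3)
    have h4 : ind (G.loc t p y) ≤ G.sz t p := Finset.single_le_sum (fun _ _ => ind_nonneg _) hy
    rw [ind_of h3] at h4
    exact hc h4
  have : G.sz t p = 0 := Finset.sum_eq_zero h1
  linarith

/-! ### times of a block -/

theorem div_blk {bl t l : ℕ} (h : l < bl) : (t * bl + l) / bl = t := by
  rw [Nat.add_comm, Nat.add_mul_div_right _ _ (by omega), Nat.div_eq_of_lt h, Nat.zero_add]

theorem mod_blk {bl t l : ℕ} (h : l < bl) : (t * bl + l) % bl = l := by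
  rw [Nat.add_comm, Nat.add_mul_mod_self_right, Nat.mod_eq_of_lt h]

/-- members which are hit make a use -/
theorem hz_le (h : GrOk G B0 θ0) {t l : ℕ} (hl : l + 1 < G.bl) {p : Q} (hp : G.tau (t * G.bl + (l + 1)) = some p) :
    G.θ p * G.sz t p ≤ ∑ y, ind (G.loc t p y) * G.us G.tau (G.ka p) (t * G.bl + (l + 1)) y := by
  have hp' : G.tau (t * G.bl + l + 1) = some p := hp
  obtain ⟨-, -, -, h1⟩ := tau_some h hp'
  have hd : (t * G.bl + l) / G.bl = t := div_blk (by omega)
  have hd' : (t * G.bl + l + 1) / G.bl = t := div_blk (t := t) (l := l + 1) hl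
  rw [hd] at h1
  refine h1.trans ?_
  unfold hz
  refine Finset.sum_le_sum fun y _ => ?_
  by_cases hy : G.loc ((t * G.bl + l) / G.bl) p y ∧ G.hit G.tau (t * G.bl + l) p y
  · rw [ind_of hy]
    have h2 := h.inc G.tau (t * G.bl + l) p y (by rw [hd, hd']) hp' hy.1 hy.2
    rw [hd] at hy
    rw [ind_of hy.1, one_mul]
    exact h2
  · rw [ind_not hy]
    exact mul_nonneg (ind_nonneg _) (h.us0 _ _ _ _)

/-- **count of publications**: the publications of one kind (same run, same place) in one block -/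
theorem count (h : GrOk G B0 θ0) (t : ℕ) (κ : Ka) (D : Y → Prop) (θ : ℝ) (K : Q → Prop)
    (hK : ∀ p, K p → G.ka p = κ ∧ G.θ p = θ ∧ ∀ y, G.loc t p y ↔ D y) :
    θ * (∑ l ∈ range (G.bl - 1), ind (∃ p, G.tau (t * G.bl + (l + 1)) = some p ∧ K p)) * ∑ y, ind (D y) ≤
      ∑ y, ind (D y) * ∑ l ∈ range (G.bl - 1), G.us G.tau κ (t * G.bl + (l + 1)) y := by
  have e : ∑ y, ind (D y) * ∑ l ∈ range (G.bl - 1), G.us G.tau κ (t * G.bl + (l + 1)) y =
      ∑ l ∈ range (G.bl - 1), ∑ y, ind (D y) * G.us G.tau κ (t * G.bl + (l + 1)) y := by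
    rw [Finset.sum_comm]
    exact Finset.sum_congr rfl fun y _ => Finset.mul_sum _ _ _
  have e2 : θ * (∑ l ∈ range (G.bl - 1), ind (∃ p, G.tau (t * G.bl + (l + 1)) = some p ∧ K p)) * ∑ y, ind (D y) =
      ∑ l ∈ range (G.bl - 1), θ * ind (∃ p, G.tau (t * G.bl + (l + 1)) = some p ∧ K p) * ∑ y, ind (D y) := by
    rw [show ∀ (s : Finset ℕ) (f : ℕ → ℝ), θ * ∑ l ∈ s, f l = ∑ l ∈ s, θ * f l from fun s f => Finset.mul_sum _ _ _,
      Finset.sum_mul]
  rw [e, e2]
  refine Finset.sum_le_sum fun l hl => ?_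
  rw [Finset.mem_range] at hl
  by_cases hp : ∃ p, G.tau (t * G.bl + (l + 1)) = some p ∧ K p
  · obtain ⟨p, hp1, hp2⟩ := hp
    rw [ind_of ⟨p, hp1, hp2⟩, mul_one]
    obtain ⟨h1, h2, h3⟩ := hK p hp2
    have h4 := hz_le h (t := t) (l := l) (by omega) hp1
    have h5 : ∀ y, ind (G.loc t p y) = ind (D y) := fun y => by
      congr 1
      exact propext (h3 y)
    unfold sz at h4
    simp only [h5] at h4
    rw [h1, h2] at h4
    exact h4
  · rw [ind_not hp, mul_zero, zero_mul]
    exact Finset.sum_nonneg fun y _ => mul_nonneg (ind_nonneg _) (h.us0 _ _ _ _)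

/-- number of publications of a block -/
theorem pubs_le [Fintype Ka] (h : GrOk G B0 θ0) (t : ℕ) :
    θ0 * ∑ l ∈ range (G.bl - 1), ind (G.tau (t * G.bl + (l + 1)) ≠ none) ≤
      Fintype.card Ka * (Fintype.card Y * B0) := by
  have e : (Fintype.card Ka * (Fintype.card Y * B0) : ℝ) = ∑ _κ : Ka, ∑ _y : Y, B0 := by
    rw [Finset.sum_const, Finset.sum_const, nsmul_eq_mul, nsmul_eq_mul, Finset.card_univ, Finset.card_univ]
  rw [e]
  calc θ0 * ∑ l ∈ range (G.bl - 1), ind (G.tau (t * G.bl + (l + 1)) ≠ none)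
      = ∑ l ∈ range (G.bl - 1), θ0 * ind (G.tau (t * G.bl + (l + 1)) ≠ none) := Finset.mul_sum _ _ _
    _ ≤ ∑ l ∈ range (G.bl - 1), ∑ κ : Ka, ∑ y, G.us G.tau κ (t * G.bl + (l + 1)) y := by
        refine Finset.sum_le_sum fun l hl => ?_
        rw [Finset.mem_range] at hl
        cases hp : G.tau (t * G.bl + (l + 1)) with
        | none =>
          rw [ind_not (by simp), mul_zero]
          exact Finset.sum_nonneg fun κ _ => Finset.sum_nonneg fun y _ => h.us0 _ _ _ _
        | some p =>
          rw [ind_of (by simp), mul_one]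
          have h1 := hz_le h (t := t) (l := l) (by omega) hp
          have hp' : G.tau (t * G.bl + l + 1) = some p := hp
          have h2 : 0 < G.sz ((t * G.bl + l) / G.bl) p := (tau_some h hp').2.2.1
          rw [div_blk (by omega)] at h2
          have h3 := one_le_sz h2
          have h4 : θ0 ≤ G.θ p * G.sz t p := by
            have := h.θ p
            have := h.pos
            nlinarith
          refine h4.trans (h1.trans ?_)
          refine le_trans (Finset.sum_le_sum fun y _ => ?_)
            (Finset.single_le_sum (f := fun κ => ∑ y, G.us G.tau κ (t * G.bl + (l + 1)) y)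
              (fun κ _ => Finset.sum_nonneg fun y _ => h.us0 _ _ _ _) (mem_univ (G.ka p)))
          have h5 := h.us0 G.tau (G.ka p) (t * G.bl + (l + 1)) y
          have h6 := ind_le_one (G.loc t p y)
          nlinarith
    _ = ∑ κ : Ka, ∑ y, ∑ l ∈ range (G.bl - 1), G.us G.tau κ (t * G.bl + (l + 1)) y := by
        rw [Finset.sum_comm]
        refine Finset.sum_congr rfl fun κ _ => ?_
        rw [Finset.sum_comm]
    _ ≤ _ := Finset.sum_le_sum fun κ _ => Finset.sum_le_sum fun y _ => h.usB _ _ _ _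

/-- after an empty slot nothing is possible -/
theorem stay_none (h : GrOk G B0 θ0) {t a : ℕ} (ha : 1 ≤ a) (hc : ∀ p, ¬ G.cnd G.tau (t * G.bl + a) p)
    (hn : G.tau (t * G.bl + a) = none) {l : ℕ} (hal : a ≤ l) (hl : l < G.bl) :
    G.tau (t * G.bl + l) = none ∧ ∀ p, ¬ G.cnd G.tau (t * G.bl + l) p := by
  induction l, hal using Nat.le_induction with
  | base => exact ⟨hn, hc⟩
  | succ l hal ih =>
    obtain ⟨h1, h2⟩ := ih (by omega)
    have h3 : G.tau (t * G.bl + l + 1) = none := tau_of_no_cnd h h2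
    refine ⟨h3, fun p hp => h2 p ?_⟩
    have hd : (t * G.bl + l) / G.bl = t := div_blk (by omega)
    have hd' : (t * G.bl + l + 1) / G.bl = t := div_blk (t := t) (l := l + 1) hl
    have hd'' : (t * G.bl + (l + 1)) / G.bl = t := hd'
    have h4 := h.idle G.tau (t * G.bl + l) (by rw [mod_blk (by omega)]; omega) (by rw [hd, hd']) h1 h3
    have h5 : G.hz G.tau (t * G.bl + (l + 1)) p = G.hz G.tau (t * G.bl + l) p := by
      unfold hz
      rw [hd'', hd]
      refine Finset.sum_congr rfl fun y _ => ?_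
      congr 1
      exact propext (and_congr_right fun _ => h4 p y)
    unfold cnd at hp ⊢
    rw [hd'', h5] at hp
    rw [hd]
    exact hp

/-- **no candidate is left at the end of a block** -/
theorem end_none [Fintype Ka] (h : GrOk G B0 θ0) {m : ℕ} (hbl : G.bl = 2 * m + 2)
    (hm : Fintype.card Ka * (Fintype.card Y * B0) < θ0 * m) (t : ℕ) (p : Q) :
    ¬ G.cnd G.tau (t * G.bl + (G.bl - 1)) p := by
  -- an empty slot
  have h1 : ∃ a, 1 ≤ a ∧ a ≤ m ∧ G.tau (t * G.bl + 2 * a) = none := by
    by_contra hcon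
    push Not at hcon
    have h2 := pubs_le h t
    have h3 : (m : ℝ) ≤ ∑ l ∈ range (G.bl - 1), ind (G.tau (t * G.bl + (l + 1)) ≠ none) := by
      have h4 : ((range m).image fun a => 2 * a + 1) ⊆ range (G.bl - 1) := by
        intro l hl
        rw [mem_image] at hl
        obtain ⟨a, ha, rfl⟩ := hl
        rw [mem_range] at ha ⊢
        omega
      refine le_trans (le_of_eq ?_) (Finset.sum_le_sum_of_subset_of_nonneg h4 fun _ _ _ => ind_nonneg _)
      rw [Finset.sum_image fun a _ b _ hab => by simpa using hab]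
      have h5 : ∀ a ∈ range m, ind (G.tau (t * G.bl + (2 * a + 1 + 1)) ≠ none) = 1 := by
        intro a ha
        rw [mem_range] at ha
        exact ind_of (hcon (a + 1) (by omega) (by omega))
      rw [Finset.sum_congr rfl h5, Finset.sum_const, card_range]
      simp
    have h4 := h.pos
    nlinarith
  obtain ⟨a, ha1, ha2, ha⟩ := h1
  have hs : G.slot (t * G.bl + (2 * a - 1) + 1) := by
    unfold slot
    have e : t * G.bl + (2 * a - 1) + 1 = t * G.bl + 2 * a := by omega
    rw [e, mod_blk (by omega)]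
    exact ⟨by omega, ⟨a, by ring⟩⟩
  have hn : G.tau (t * G.bl + (2 * a - 1) + 1) = none := by
    have e : t * G.bl + (2 * a - 1) + 1 = t * G.bl + 2 * a := by omega
    rw [e]
    exact ha
  have h0 : G.tau (t * G.bl + (2 * a - 1)) = none := by
    refine tau_of_not_slot h ?_
    unfold slot
    rw [mod_blk (by omega)]
    rintro ⟨-, b, hb⟩
    omega
  exact (stay_none h (by omega) (tau_none h hs hn) h0 (by omega : 2 * a - 1 ≤ G.bl - 1) (by omega)).2 p

/-- congruence: the publications depend only on the data up to now -/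
theorem tau_congr {G' : Gr Y Q Ka} {T : ℕ} (hbl : G.bl = G'.bl) (hθ : G.θ = G'.θ)
    (hloc : ∀ i < T, G.loc (i / G.bl) = G'.loc (i / G.bl)) (hadm : ∀ i < T, G.adm (i / G.bl) = G'.adm (i / G.bl))
    (hhit : ∀ τ, ∀ i < T, G.hit τ i = G'.hit τ i) {i : ℕ} (hi : i ≤ T) : G.tau i = G'.tau i := by
  have key : ∀ i ≤ T, G.pre i = G'.pre i := by
    intro i
    induction i with
    | zero => intro _; rfl
    | succ i ih =>
      intro hi
      have h1 := ih (by omega)
      have h2 : G.cnd (G.pre i) i = G'.cnd (G.pre i) i := by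
        funext p
        unfold cnd sz hz
        rw [hhit _ i (by omega), ← hbl, hloc i (by omega), hadm i (by omega), hθ]
      have h3 : G.sel (G.pre i) i = G'.sel (G.pre i) i := by
        unfold sel slot
        rw [h2, hbl]
      funext j
      show (if j = i + 1 then G.sel (G.pre i) i else G.pre i j) = (if j = i + 1 then G'.sel (G'.pre i) i else G'.pre i j)
      rw [h3, ← h1]
  unfold tau
  rw [key i hi]

end Gr

end

end Pool.Agent.GMN.Ru
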