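import Mathlib

/-!
# GMN/Tup (helper80): tuples of natural numbers as natural numbers, with a bound

`tupE f : ℕ` for `f : ι → ℕ`, `tupD n u` the component; `tupE_le` : entries at most `n` give a number below
`(n + 3) ^ (2 ^ card ι)`.
-/

set_option autoImplicit false

namespace Pool.Agent.GMN

open Finset

/-- list of numbers as a number -/
def encL : List ℕ → ℕ
  | [] => 0
  | a :: l => Nat.pair a (encL l)

/-- the component -/
def getL : ℕ → ℕ → ℕ
  | n, 0 => (Nat.unpair n).1
  | n, k + 1 => getL (Nat.unpair n).2 k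

theorem getL_encL (l : List ℕ) (k : ℕ) (h : k < l.length) : getL (encL l) k = l[k] := by
  induction l generalizing k with
  | nil => exact absurd h (Nat.not_lt_zero _)
  | cons a l ih =>
    cases k with
    | zero => simp [getL, encL]
    | succ k =>
      have h1 : k < l.length := by simpa using h
      simp [getL, encL, ih k h1]

theorem pair_bd {a b n g : ℕ} (ha : a + 2 ≤ g) (hb : b + 2 ≤ g) (hg : g ≤ n) : Nat.pair a b + 2 ≤ n ^ 2 := by
  have h1 := Nat.pair_lt_max_add_one_sq a b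
  have h2 : max a b + 1 ≤ n - 1 := by
    rcases le_total a b with h | h
    · rw [max_eq_right h]; omega
    · rw [max_eq_left h]; omega
  have h3 : (max a b + 1) ^ 2 ≤ (n - 1) ^ 2 := Nat.pow_le_pow_left h2 2
  obtain ⟨m, rfl⟩ : ∃ m, n = m + 2 := ⟨n - 2, by omega⟩
  have h4 : m + 2 - 1 = m + 1 := by omega
  rw [h4] at h3
  nlinarith

theorem encL_le (l : List ℕ) {n : ℕ} (h : ∀ a ∈ l, a ≤ n) : encL l + 2 ≤ (n + 3) ^ (2 ^ l.length) := by
  induction l with
  | nil => simp [encL]
  | cons a l ih =>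
    have h1 := ih fun b hb => h b (List.mem_cons_of_mem _ hb)
    have h2 := h a List.mem_cons_self
    have h3 : n + 3 ≤ (n + 3) ^ (2 ^ l.length) := by
      calc n + 3 = (n + 3) ^ 1 := (pow_one _).symm
        _ ≤ _ := Nat.pow_le_pow_right (by omega) Nat.one_le_two_pow
    have h4 := pair_bd (a := a) (b := encL l) (by omega) h1 le_rfl
    show Nat.pair a (encL l) + 2 ≤ _
    rw [List.length_cons, pow_succ, pow_mul]
    exact h4

noncomputable section

variable {ι : Type*} [Fintype ι]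

/-- a tuple as a number -/
def tupE (f : ι → ℕ) : ℕ := encL (List.ofFn fun k => f ((Fintype.equivFin ι).symm k))

/-- component of a tuple -/
def tupD (n : ℕ) (u : ι) : ℕ := getL n (Fintype.equivFin ι u)

@[simp] theorem tupD_tupE (f : ι → ℕ) (u : ι) : tupD (tupE f) u = f u := by
  unfold tupD tupE
  rw [getL_encL _ _ (by simp)]
  simp

theorem tupE_inj {f g : ι → ℕ} (h : tupE f = tupE g) : f = g := by
  funext u
  rw [← tupD_tupE f u, h, tupD_tupE]

theorem tupE_le (f : ι → ℕ) {n : ℕ} (h : ∀ u, f u ≤ n) : tupE f + 2 ≤ (n + 3) ^ (2 ^ Fintype.card ι) := by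
  have h1 := encL_le (List.ofFn fun k => f ((Fintype.equivFin ι).symm k)) (n := n) (by
    intro a ha
    rw [List.mem_ofFn] at ha
    obtain ⟨k, rfl⟩ := ha
    exact h _)
  rwa [List.length_ofFn] at h1

/-! ### the number of a use, the code of a use -/

/-- bounded number of a use: tag, number, epoch, hashes of the references -/
def rnc (tag j e : ℕ) (f : ι → ℕ) : ℕ := Nat.pair (Nat.pair tag j) (Nat.pair e (tupE f))

/-- the tag -/
def rtag (r : ℕ) : ℕ := (Nat.unpair (Nat.unpair r).1).1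

/-- the number -/
def rj (r : ℕ) : ℕ := (Nat.unpair (Nat.unpair r).1).2

/-- the epoch -/
def repo (r : ℕ) : ℕ := (Nat.unpair (Nat.unpair r).2).1

/-- the hashes -/
def rhs (r : ℕ) (u : ι) : ℕ := tupD (Nat.unpair (Nat.unpair r).2).2 u

@[simp] theorem rtag_rnc (tag j e : ℕ) (f : ι → ℕ) : rtag (rnc tag j e f) = tag := by simp [rtag, rnc]
@[simp] theorem rj_rnc (tag j e : ℕ) (f : ι → ℕ) : rj (rnc tag j e f) = j := by simp [rj, rnc]
@[simp] theorem repo_rnc (tag j e : ℕ) (f : ι → ℕ) : repo (rnc tag j e f) = e := by simp [repo, rnc]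
@[simp] theorem rhs_rnc (tag j e : ℕ) (f : ι → ℕ) (u : ι) : rhs (rnc tag j e f) u = f u := by simp [rhs, rnc]

theorem rnc_le {tag j e n : ℕ} {f : ι → ℕ} (h1 : tag ≤ n) (h2 : j ≤ n) (h3 : e ≤ n) (h4 : ∀ u, f u ≤ n) :
    rnc tag j e f ≤ (n + 3) ^ (2 ^ (Fintype.card ι + 2)) := by
  have h5 := tupE_le f h4
  have h6 : n + 3 ≤ (n + 3) ^ (2 ^ Fintype.card ι) := by
    calc n + 3 = (n + 3) ^ 1 := (pow_one _).symm
      _ ≤ _ := Nat.pow_le_pow_right (by omega) Nat.one_le_two_pow
  have h7 := pair_bd (a := tag) (b := j) (n := (n + 3) ^ (2 ^ Fintype.card ι)) (g := n + 3) (by omega) (by omega) h6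
  have h8 := pair_bd (a := e) (b := tupE f) (n := (n + 3) ^ (2 ^ Fintype.card ι)) (by omega) h5 le_rfl
  have h9 := pair_bd h7 h8 le_rfl
  have e1 : (((n + 3) ^ (2 ^ Fintype.card ι)) ^ 2) ^ 2 = (n + 3) ^ (2 ^ (Fintype.card ι + 2)) := by
    rw [← pow_mul, ← pow_mul, pow_add]
    congr 1
  rw [e1] at h9
  exact le_trans (by unfold rnc; omega) h9

/-- code of a use: number, keys of the factors, references -/
def mkx (r : ℕ) (keys refs : ι → ℕ) : ℕ := Nat.pair r (Nat.pair (tupE keys) (tupE refs))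

/-- number of a code -/
def xrn (x : ℕ) : ℕ := (Nat.unpair x).1

/-- key of the factor missing `l` -/
def xkey (l : ι) (x : ℕ) : ℕ := tupD (Nat.unpair (Nat.unpair x).2).1 l

/-- reference -/
def xref (x : ℕ) (u : ι) : ℕ := tupD (Nat.unpair (Nat.unpair x).2).2 u

@[simp] theorem xrn_mkx (r : ℕ) (keys refs : ι → ℕ) : xrn (mkx r keys refs) = r := by simp [xrn, mkx]
@[simp] theorem xkey_mkx (r : ℕ) (keys refs : ι → ℕ) (l : ι) : xkey l (mkx r keys refs) = keys l := by
  simp [xkey, mkx]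
@[simp] theorem xref_mkx (r : ℕ) (keys refs : ι → ℕ) (u : ι) : xref (mkx r keys refs) u = refs u := by
  simp [xref, mkx]

end

end Pool.Agent.GMN
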