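import Pool.Agent.GMN.RuleArr
import Pool.Agent.GMN.RuleC
import Pool.Agent.GMN.RuleM
import Pool.Agent.GMN.IndL
import Pool.Agent.GMN.Tup
import Pool.Agent.GMN.State

/-!
# GMN/RuleO (helper80): the list of the uses of the actual run, in codes

Actual run of the client `ν` of the individual `y` on the path of `ω`.  A use is coded by
`mkx (rnc sign number epoch hashes) keys references`; a reset by a marker (tag `0`, coefficient `0`).
* `cset ω ν t y` : the codes up to the node `t`; `mem_cset`, `cset_congr`, `cset_twin`, `cset_mono`, `card_cset`;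
* `sup_epo` : the largest epoch of the list is the current one;
* `appr_eq` : **error = target - sum over the codes of the current epoch**;
* `xrn_inj` : the bounded numbers are injective on the list.
-/

set_option autoImplicit false
set_option linter.unusedSectionVars false

namespace Pool.Agent.GMN.RuS

open Finset Pool.Agent.PWZ Pool.Agent.M3 Pool.Agent.M3.TS Pool.Agent.GM Pool.Agent.GMN

noncomputable section

variable {ι Om Ξ Pt V Γ κ : Type} [Fintype ι] [DecidableEq ι] [Fintype Om] [Fintype Ξ] [Fintype Pt]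
    [Fintype V] (G : Sys ι Om Ξ Pt V Γ κ)
variable {R Nu Cl : Type} {I : ℕ} [Fintype R] [LinearOrder R] [Fintype Nu] [Fintype Cl]
  (A : Inp ι Ξ Pt V Γ R Nu Cl I) (S0 : Finset ι) (δ : ι) (p : Prm)

/-- data of an individual along the path -/
def xsq (ω : Om) (y : Ξ × (ι → Pt)) (ν : Nu) (i : ℕ) : Ru.Nd R V := (dt G A S0 δ p ω).nod (i / (p.a Cl).bl) y ν

/-- allowed references of the actual run -/
def asq (ω : Om) (y : Ξ × (ι → Pt)) (ν : Nu) : ℕ → R → Prop := (dt G A S0 δ p ω).A (p.a Cl) y ν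

/-- state of the actual run -/
abbrev mcs (ω : Om) (y : Ξ × (ι → Pt)) (ν : Nu) (i k : ℕ) : Ru.St R V :=
  Ru.mc p.Y (xsq G A S0 δ p ω y ν) (nws G A S0 δ p ω y ν) (asq G A S0 δ p ω y ν) p.N i k

/-- the test used -/
abbrev tuO (ω : Om) (y : Ξ × (ι → Pt)) (ν : Nu) (i k : ℕ) : Option (Ru.Tst R V) :=
  Ru.ust p.Y (xsq G A S0 δ p ω y ν) (nws G A S0 δ p ω y ν) (asq G A S0 δ p ω y ν) p.N i k

/-- epoch -/
abbrev epc (ω : Om) (y : Ξ × (ι → Pt)) (ν : Nu) (i : ℕ) : ℕ :=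
  Ru.epo p.Y (xsq G A S0 δ p ω y ν) (nws G A S0 δ p ω y ν) (asq G A S0 δ p ω y ν) p.N i

/-- number of a use -/
abbrev ucn (ω : Om) (y : Ξ × (ι → Pt)) (ν : Nu) (i k : ℕ) : ℕ :=
  Ru.uct p.Y (xsq G A S0 δ p ω y ν) (nws G A S0 δ p ω y ν) (asq G A S0 δ p ω y ν) p.N i k

/-- reset at the time `i + 1` -/
abbrev rst (ω : Om) (y : Ξ × (ι → Pt)) (ν : Nu) (i : ℕ) : Prop :=
  Ru.rsi p.Y (xsq G A S0 δ p ω y ν) (nws G A S0 δ p ω y ν) (asq G A S0 δ p ω y ν) p.N i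

open Classical in
/-- an element with a property -/
def pk1 {α : Type} (P : α → Prop) : Option α := if h : ∃ c, P c then some (Classical.choose h) else none

theorem pk1_some {α : Type} {P : α → Prop} {c : α} (h : P c) : ∃ c', pk1 P = some c' ∧ P c' := by
  classical
  have hx : ∃ c, P c := ⟨c, h⟩
  exact ⟨Classical.choose hx, dif_pos hx, Classical.choose_spec hx⟩

/-- a class of a test which arrives at the time `j` -/
def cls (ω : Om) (y : Ξ × (ι → Pt)) (ν : Nu) (j : ℕ) (q : Ru.Tst R V) : Option Cl :=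
  pk1 fun c => Arr G A S0 δ p ω y ν j c q

variable (rf : ℕ → Γ → (ι → Pt) → R → ι → ℕ) (ph : ℕ → ℕ) (key : Om → ℕ → Cl → ι → (ι → Pt) → ℕ)

/-- keys of the factors of a test -/
def keyv (ω : Om) (y : Ξ × (ι → Pt)) (ν : Nu) (q : Ru.Tst R V) (l : ι) : ℕ :=
  ((cls G A S0 δ p ω y ν (Ru.arv (nws G A S0 δ p ω y ν) q) q).map fun c =>
    key ω (Ru.arv (nws G A S0 δ p ω y ν) q) c l y.2).getD 0

open Classical in
/-- sign of a use: `2` or `1` -/
def sgn (ω : Om) (y : Ξ × (ι → Pt)) (ν : Nu) (i k : ℕ) (q : Ru.Tst R V) : ℕ :=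
  if 0 ≤ Ru.val p.Y (xsq G A S0 δ p ω y ν i) (mcs G A S0 δ p ω y ν i k).H q then 2 else 1

/-- code of a use -/
def ucode (ω : Om) (y : Ξ × (ι → Pt)) (ν : Nu) (i k : ℕ) : ℕ :=
  ((tuO G A S0 δ p ω y ν i k).map fun q =>
    mkx (rnc (sgn G A S0 δ p ω y ν i k q) (ucn G A S0 δ p ω y ν i k) (epc G A S0 δ p ω y ν i)
      fun u => ph (rf (i / (p.a Cl).bl) (G.gm (i / (p.a Cl).bl) ω) y.2 q.s u))
      (keyv G A S0 δ p key ω y ν q) (rf (i / (p.a Cl).bl) (G.gm (i / (p.a Cl).bl) ω) y.2 q.s)).getD 0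

/-- code of a reset -/
def mcode (ω : Om) (y : Ξ × (ι → Pt)) (ν : Nu) (i : ℕ) : ℕ :=
  mkx (rnc 0 0 (epc G A S0 δ p ω y ν (i + 1)) fun _ : ι => ph 0) (fun _ => 0) (fun _ : ι => 0)

open Classical in
/-- **the list of the codes up to the node `t`** -/
def cset (ω : Om) (ν : Nu) (t : ℕ) (y : Ξ × (ι → Pt)) : Finset ℕ :=
  (((range (Ru.Dat.la (p.a Cl) t + 1)) ×ˢ range p.N).filter fun ik => tuO G A S0 δ p ω y ν ik.1 ik.2 ≠ none).image
    (fun ik => ucode G A S0 δ p rf ph key ω y ν ik.1 ik.2) ∪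
  ((range (Ru.Dat.la (p.a Cl) t)).filter fun i => rst G A S0 δ p ω y ν i).image (mcode G A S0 δ p ph ω y ν)

/-- coefficient of a code -/
def cof (ea : ℝ) (x : ℕ) : ℝ := if rtag (xrn x) = 2 then ea / 2 else if rtag (xrn x) = 1 then -(ea / 2) else 0

variable {G A S0 δ p rf ph key} {Kn Yn : ℕ}

theorem mem_cset {ω : Om} {ν : Nu} {t : ℕ} {y : Ξ × (ι → Pt)} {x : ℕ} :
    x ∈ cset G A S0 δ p rf ph key ω ν t y ↔
      (∃ i k q, i ≤ Ru.Dat.la (p.a Cl) t ∧ k < p.N ∧ tuO G A S0 δ p ω y ν i k = some q ∧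
        x = ucode G A S0 δ p rf ph key ω y ν i k) ∨
      ∃ i, i < Ru.Dat.la (p.a Cl) t ∧ rst G A S0 δ p ω y ν i ∧ x = mcode G A S0 δ p ph ω y ν i := by
  classical
  unfold cset
  rw [mem_union, mem_image, mem_image]
  refine or_congr ?_ ?_
  · constructor
    · rintro ⟨⟨i, k⟩, h, rfl⟩
      rw [mem_filter, mem_product, mem_range, mem_range] at h
      obtain ⟨⟨h1, h2⟩, h3⟩ := h
      obtain ⟨q, hq⟩ := Option.ne_none_iff_exists'.1 h3
      exact ⟨i, k, q, by simpa [Nat.lt_succ_iff] using h1, h2, hq, rfl⟩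
    · rintro ⟨i, k, q, h1, h2, h3, rfl⟩
      refine ⟨(i, k), ?_, rfl⟩
      rw [mem_filter, mem_product, mem_range, mem_range]
      refine ⟨⟨by show i < _; omega, h2⟩, ?_⟩
      show tuO G A S0 δ p ω y ν i k ≠ none
      rw [h3]
      simp
  · constructor
    · rintro ⟨i, h, rfl⟩
      rw [mem_filter, mem_range] at h
      exact ⟨i, h.1, h.2, rfl⟩
    · rintro ⟨i, h1, h2, rfl⟩
      exact ⟨i, by rw [mem_filter, mem_range]; exact ⟨h1, h2⟩, rfl⟩

theorem ucode_eq {ω : Om} {y : Ξ × (ι → Pt)} {ν : Nu} {i k : ℕ} {q : Ru.Tst R V}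
    (h : tuO G A S0 δ p ω y ν i k = some q) : ucode G A S0 δ p rf ph key ω y ν i k =
      mkx (rnc (sgn G A S0 δ p ω y ν i k q) (ucn G A S0 δ p ω y ν i k) (epc G A S0 δ p ω y ν i)
      fun u => ph (rf (i / (p.a Cl).bl) (G.gm (i / (p.a Cl).bl) ω) y.2 q.s u))
      (keyv G A S0 δ p key ω y ν q) (rf (i / (p.a Cl).bl) (G.gm (i / (p.a Cl).bl) ω) y.2 q.s) := by
  unfold ucode
  rw [h]
  rfl

theorem ucode_none {ω : Om} {y : Ξ × (ι → Pt)} {ν : Nu} {i k : ℕ}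
    (h : tuO G A S0 δ p ω y ν i k = none) : ucode G A S0 δ p rf ph key ω y ν i k = 0 := by
  unfold ucode
  rw [h]
  rfl

theorem sgn_le (ω : Om) (y : Ξ × (ι → Pt)) (ν : Nu) (i k : ℕ) (q : Ru.Tst R V) :
    sgn G A S0 δ p ω y ν i k q ≤ 2 ∧ sgn G A S0 δ p ω y ν i k q ≠ 0 := by
  unfold sgn
  split_ifs <;> omega

theorem la_mono {t t' : ℕ} (h : t ≤ t') : Ru.Dat.la (p.a Cl) t ≤ Ru.Dat.la (p.a Cl) t' := by
  rw [la_eq, la_eq]
  have := Nat.mul_le_mul_right (2 * p.m + 2) h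
  omega

/-- the list grows -/
theorem cset_mono (ω : Om) (ν : Nu) (y : Ξ × (ι → Pt)) {t t' : ℕ} (h : t ≤ t') :
    cset G A S0 δ p rf ph key ω ν t y ⊆ cset G A S0 δ p rf ph key ω ν t' y := by
  intro x hx
  have h1 := la_mono (p := p) (Cl := Cl) h
  rw [mem_cset] at hx ⊢
  rcases hx with ⟨i, k, q, h2, h3, h4, h5⟩ | ⟨i, h2, h3, h4⟩
  · exact Or.inl ⟨i, k, q, h2.trans h1, h3, h4, h5⟩
  · exact Or.inr ⟨i, h2.trans_le h1, h3, h4⟩

/-! ### adaptedness -/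

theorem same_congr {ω ω' : Om} {t : ℕ} (h : G.gm t ω = G.gm t ω') (y : Ξ × (ι → Pt)) (ν : Nu) :
    Ru.Same (xsq G A S0 δ p ω y ν) (xsq G A S0 δ p ω' y ν) (nws G A S0 δ p ω y ν) (nws G A S0 δ p ω' y ν)
      (asq G A S0 δ p ω y ν) (asq G A S0 δ p ω' y ν) (Ru.Dat.la (p.a Cl) t) := by
  have hA := dt_agr (A := A) (S0 := S0) (δ := δ) (p := p) h
  have hd : ∀ j ≤ Ru.Dat.la (p.a Cl) t, j / (p.a Cl).bl ≤ t := fun j hj =>
    (Nat.div_le_div_right hj).trans (la_div' t).le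
  refine ⟨fun j hj => ?_, fun j hj => ?_, fun j hj => ?_⟩
  · show (dt G A S0 δ p ω).nod (j / (p.a Cl).bl) y ν = (dt G A S0 δ p ω').nod (j / (p.a Cl).bl) y ν
    rw [hA.nod _ (hd j hj)]
  · exact Ru.Dat.nw_agr (hA.mono (hd j hj)) (Ru.Dat.tau_agr hA (hd j hj)) _ _
  · exact Ru.Dat.A_agr (hA.mono (hd j hj)) _ _ le_rfl

theorem same_twin (H : A.Ok G S0 δ) (hp : p.Ok Kn Yn) (ω : Om) {ξ : Ξ} {x x' : ι → Pt}
    (h : ∀ i ∈ univ.erase δ, x i = x' i) (ν : Nu) (T : ℕ) :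
    Ru.Same (xsq G A S0 δ p ω (ξ, x) ν) (xsq G A S0 δ p ω (ξ, x') ν) (nws G A S0 δ p ω (ξ, x) ν)
      (nws G A S0 δ p ω (ξ, x') ν) (asq G A S0 δ p ω (ξ, x) ν) (asq G A S0 δ p ω (ξ, x') ν) T := by
  refine ⟨fun j _ => ?_, fun j _ => ?_, fun j _ => ?_⟩
  · exact nod_same (p := p) H ω h _ ν
  · exact nw_same H hp ω h ν j
  · show (dt G A S0 δ p ω).A (p.a Cl) (ξ, x) ν j = (dt G A S0 δ p ω).A (p.a Cl) (ξ, x') ν j
    rw [A_same (p := p) H ω h ν]

theorem Arr_congr {ω ω' : Om} {t : ℕ} (h : G.gm t ω = G.gm t ω') (y : Ξ × (ι → Pt)) (ν : Nu) {j : ℕ}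
    (hj : j / (p.a Cl).bl ≤ t) (c : Cl) (q : Ru.Tst R V) :
    Arr G A S0 δ p ω y ν j c q ↔ Arr G A S0 δ p ω' y ν j c q := by
  have hA := dt_agr (A := A) (S0 := S0) (δ := δ) (p := p) h
  unfold Arr
  rw [G.gm_le hj h, Ru.Dat.tau_agr hA hj]

theorem cls_congr {ω ω' : Om} {t : ℕ} (h : G.gm t ω = G.gm t ω') (y : Ξ × (ι → Pt)) (ν : Nu) {j : ℕ}
    (hj : j / (p.a Cl).bl ≤ t) (q : Ru.Tst R V) :
    cls G A S0 δ p ω y ν j q = cls G A S0 δ p ω' y ν j q := by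
  have e : (fun c => Arr G A S0 δ p ω y ν j c q) = fun c => Arr G A S0 δ p ω' y ν j c q := by
    funext c
    exact propext (Arr_congr h y ν hj c q)
  unfold cls
  rw [e]

/-- the key is adapted -/
def KeyA (G : Sys ι Om Ξ Pt V Γ κ) (p : Prm) (key : Om → ℕ → Cl → ι → (ι → Pt) → ℕ) : Prop :=
  ∀ ω ω' t j c l x, G.gm t ω = G.gm t ω' → j / (p.a Cl).bl ≤ t → key ω j c l x = key ω' j c l x

theorem tu_mem {ω : Om} {y : Ξ × (ι → Pt)} {ν : Nu} {i k : ℕ} {q : Ru.Tst R V}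
    (h : tuO G A S0 δ p ω y ν i k = some q) : q ∈ Ru.testsTo (nws G A S0 δ p ω y ν) i := (Ru.ust_spec h).2.1

theorem keyv_congr (hk : KeyA G p key) {ω ω' : Om} {t : ℕ} (h : G.gm t ω = G.gm t ω') (y : Ξ × (ι → Pt)) (ν : Nu)
    {i : ℕ} (hi : i ≤ Ru.Dat.la (p.a Cl) t) {q : Ru.Tst R V} (hq : q ∈ Ru.testsTo (nws G A S0 δ p ω y ν) i) :
    keyv G A S0 δ p key ω y ν q = keyv G A S0 δ p key ω' y ν q := by
  have hS := same_congr (A := A) (S0 := S0) (δ := δ) (p := p) h y ν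
  have h1 := Ru.arv_spec hq
  have h2 : Ru.arv (nws G A S0 δ p ω y ν) q / (p.a Cl).bl ≤ t :=
    (Nat.div_le_div_right (h1.1.trans hi)).trans (la_div' t).le
  funext l
  unfold keyv
  rw [← Ru.arv_same (hS.mono hi) hq, ← cls_congr h y ν h2 q]
  congr 2
  funext c
  exact hk _ _ _ _ _ _ _ h h2

theorem ucode_congr (hk : KeyA G p key) {ω ω' : Om} {t : ℕ} (h : G.gm t ω = G.gm t ω') (y : Ξ × (ι → Pt)) (ν : Nu)
    {i : ℕ} (hi : i ≤ Ru.Dat.la (p.a Cl) t) (k : ℕ) :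
    ucode G A S0 δ p rf ph key ω y ν i k = ucode G A S0 δ p rf ph key ω' y ν i k := by
  have hS := same_congr (A := A) (S0 := S0) (δ := δ) (p := p) h y ν
  have e1 : tuO G A S0 δ p ω y ν i k = tuO G A S0 δ p ω' y ν i k := Ru.ust_same hS hi k
  have hd : i / (p.a Cl).bl ≤ t := (Nat.div_le_div_right hi).trans (la_div' t).le
  cases hq : tuO G A S0 δ p ω y ν i k with
  | none => rw [ucode_none hq, ucode_none (e1.symm.trans hq)]
  | some q =>
    have e2 : ucn G A S0 δ p ω y ν i k = ucn G A S0 δ p ω' y ν i k := Ru.uct_same hS hi k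
    have e3 : epc G A S0 δ p ω y ν i = epc G A S0 δ p ω' y ν i := Ru.epo_same hS hi
    have e4 : sgn G A S0 δ p ω y ν i k q = sgn G A S0 δ p ω' y ν i k q := by
      have e5 : mcs G A S0 δ p ω y ν i k = mcs G A S0 δ p ω' y ν i k := Ru.mc_same hS hi k
      unfold sgn
      rw [hS.x i hi, e5]
    rw [ucode_eq hq, ucode_eq (e1.symm.trans hq), keyv_congr hk h y ν hi (tu_mem hq), G.gm_le hd h, e2, e3, e4]

/-- **the list is a function of the node** -/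
theorem cset_congr (hk : KeyA G p key) {ω ω' : Om} {t : ℕ} (h : G.gm t ω = G.gm t ω') (y : Ξ × (ι → Pt)) (ν : Nu) :
    cset G A S0 δ p rf ph key ω ν t y = cset G A S0 δ p rf ph key ω' ν t y := by
  have key1 : ∀ ω ω' : Om, G.gm t ω = G.gm t ω' →
      cset G A S0 δ p rf ph key ω ν t y ⊆ cset G A S0 δ p rf ph key ω' ν t y := by
    intro ω ω' h x hx
    have hS := same_congr (A := A) (S0 := S0) (δ := δ) (p := p) h y ν
    rw [mem_cset] at hx ⊢
    rcases hx with ⟨i, k, q, h2, h3, h4, h5⟩ | ⟨i, h2, h3, h4⟩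
    · refine Or.inl ⟨i, k, q, h2, h3, ?_, ?_⟩
      · rw [← h4]
        exact (Ru.ust_same hS h2 k).symm
      · rw [h5]
        exact ucode_congr hk h y ν h2 k
    · refine Or.inr ⟨i, h2, (Ru.rsi_same hS h2).1 h3, ?_⟩
      rw [h4]
      unfold mcode
      have e3 : epc G A S0 δ p ω y ν (i + 1) = epc G A S0 δ p ω' y ν (i + 1) := Ru.epo_same hS h2
      rw [e3]
  exact Finset.Subset.antisymm (key1 ω ω' h) (key1 ω' ω h.symm)

/-- functions which do not see the hidden vertex -/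
def RfD (δ : ι) (rf : ℕ → Γ → (ι → Pt) → R → ι → ℕ) : Prop := ∀ t g, Dep (univ.erase δ) (rf t g)

/-- the key does not see the hidden vertex -/
def KeyD (δ : ι) (key : Om → ℕ → Cl → ι → (ι → Pt) → ℕ) : Prop := ∀ ω j c l, Dep (univ.erase δ) (key ω j c l)

theorem Arr_twin (H : A.Ok G S0 δ) (ω : Om) {ξ : Ξ} {x x' : ι → Pt}
    (h : ∀ i ∈ univ.erase δ, x i = x' i) (ν : Nu) (j : ℕ) (c : Cl) (q : Ru.Tst R V) (hp : p.Ok Kn Yn) :
    Arr G A S0 δ p ω (ξ, x) ν j c q ↔ Arr G A S0 δ p ω (ξ, x') ν j c q := by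
  have h1 := Ru.Dat.tau_twin (twin (p := p) H ω (ξ := ξ) h) (datOk H hp ω)
  unfold Arr
  refine or_congr ?_ ?_
  · have e : cmf A S0 c (j / (p.a Cl).bl) (G.gm (j / (p.a Cl).bl) ω) x =
        cmf A S0 c (j / (p.a Cl).bl) (G.gm (j / (p.a Cl).bl) ω) x' := cmf_dep H c _ _ _ _ h
    show (_ ∧ _ ∧ _ ∧ q = ⟨_, fun d => cmf A S0 c _ _ x d, _⟩) ↔ (_ ∧ _ ∧ _ ∧ q = ⟨_, fun d => cmf A S0 c _ _ x' d, _⟩)
    rw [e]
  · refine and_congr_right fun _ => exists_congr fun pb => and_congr_right fun hpb => ?_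
    have e : (plc G A δ (j / (p.a Cl).bl) c x : Plc ι Pt κ) = plc G A δ (j / (p.a Cl).bl) c x' := plc_dep H _ c x x' h
    show (_ ∧ _ ∧ plc G A δ _ c x = _ ∧ q = Ru.Dat.tst _ pb (ξ, x)) ↔
      (_ ∧ _ ∧ plc G A δ _ c x' = _ ∧ q = Ru.Dat.tst _ pb (ξ, x'))
    unfold Ru.Dat.tst
    rw [e, h1 j pb hpb]

theorem cset_twin (H : A.Ok G S0 δ) (hp : p.Ok Kn Yn) (hr : RfD δ rf) (hk : KeyD δ key) (ω : Om) {ξ : Ξ}
    {x x' : ι → Pt} (h : ∀ i ∈ univ.erase δ, x i = x' i) (ν : Nu) (t : ℕ) :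
    cset G A S0 δ p rf ph key ω ν t (ξ, x) = cset G A S0 δ p rf ph key ω ν t (ξ, x') := by
  have key1 : ∀ x x' : ι → Pt, (∀ i ∈ univ.erase δ, x i = x' i) →
      cset G A S0 δ p rf ph key ω ν t (ξ, x) ⊆ cset G A S0 δ p rf ph key ω ν t (ξ, x') := by
    intro x x' h z hz
    have hS := same_twin H hp ω (ξ := ξ) h ν (Ru.Dat.la (p.a Cl) t)
    rw [mem_cset] at hz ⊢
    rcases hz with ⟨i, k, q, h2, h3, h4, h5⟩ | ⟨i, h2, h3, h4⟩
    · have h6 : tuO G A S0 δ p ω (ξ, x') ν i k = some q := by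
        rw [← h4]
        exact (Ru.ust_same hS h2 k).symm
      refine Or.inl ⟨i, k, q, h2, h3, h6, ?_⟩
      rw [h5, ucode_eq h4, ucode_eq h6]
      have e2 : ucn G A S0 δ p ω (ξ, x) ν i k = ucn G A S0 δ p ω (ξ, x') ν i k := Ru.uct_same hS h2 k
      have e3 : epc G A S0 δ p ω (ξ, x) ν i = epc G A S0 δ p ω (ξ, x') ν i := Ru.epo_same hS h2
      have e4 : sgn G A S0 δ p ω (ξ, x) ν i k q = sgn G A S0 δ p ω (ξ, x') ν i k q := by
        unfold sgn
        have e5 : mcs G A S0 δ p ω (ξ, x) ν i k = mcs G A S0 δ p ω (ξ, x') ν i k := Ru.mc_same hS h2 k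
        rw [hS.x i h2, e5]
      have e6 : rf (i / (p.a Cl).bl) (G.gm (i / (p.a Cl).bl) ω) x = rf (i / (p.a Cl).bl) (G.gm (i / (p.a Cl).bl) ω) x' :=
        hr _ _ x x' h
      have e7 : keyv G A S0 δ p key ω (ξ, x) ν q = keyv G A S0 δ p key ω (ξ, x') ν q := by
        funext l
        unfold keyv
        have e8 : cls G A S0 δ p ω (ξ, x) ν (Ru.arv (nws G A S0 δ p ω (ξ, x) ν) q) q =
            cls G A S0 δ p ω (ξ, x') ν (Ru.arv (nws G A S0 δ p ω (ξ, x) ν) q) q := by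
          have e : (fun c => Arr G A S0 δ p ω (ξ, x) ν (Ru.arv (nws G A S0 δ p ω (ξ, x) ν) q) c q) =
              fun c => Arr G A S0 δ p ω (ξ, x') ν (Ru.arv (nws G A S0 δ p ω (ξ, x) ν) q) c q := by
            funext c
            exact propext (Arr_twin H ω h ν _ c q hp)
          unfold cls
          rw [e]
        rw [← Ru.arv_same (hS.mono h2) (tu_mem h4), e8]
        congr 2
        funext c
        exact hk _ _ _ _ x x' h
      rw [e2, e3, e4, e7]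
      show mkx (rnc _ _ _ fun u => ph (rf _ _ x q.s u)) _ (rf _ _ x q.s) =
        mkx (rnc _ _ _ fun u => ph (rf _ _ x' q.s u)) _ (rf _ _ x' q.s)
      rw [e6]
    · refine Or.inr ⟨i, h2, (Ru.rsi_same hS h2).1 h3, ?_⟩
      rw [h4]
      unfold mcode
      have e3 : epc G A S0 δ p ω (ξ, x) ν (i + 1) = epc G A S0 δ p ω (ξ, x') ν (i + 1) := Ru.epo_same hS h2
      rw [e3]
  exact Finset.Subset.antisymm (key1 x x' h) (key1 x' x fun i hi => (h i hi).symm)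

/-! ### epochs and markers -/

/-- epoch of a code -/
def xep (x : ℕ) : ℕ := repo (xrn x)

theorem xep_ucode {ω : Om} {y : Ξ × (ι → Pt)} {ν : Nu} {i k : ℕ} {q : Ru.Tst R V}
    (h : tuO G A S0 δ p ω y ν i k = some q) :
    xep (ucode G A S0 δ p rf ph key ω y ν i k) = epc G A S0 δ p ω y ν i := by
  unfold xep
  rw [ucode_eq h, xrn_mkx, repo_rnc]

theorem xep_mcode (ω : Om) (y : Ξ × (ι → Pt)) (ν : Nu) (i : ℕ) :
    xep (mcode G A S0 δ p ph ω y ν i) = epc G A S0 δ p ω y ν (i + 1) := by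
  unfold xep mcode
  rw [xrn_mkx, repo_rnc]

theorem tag_ucode {ω : Om} {y : Ξ × (ι → Pt)} {ν : Nu} {i k : ℕ} {q : Ru.Tst R V}
    (h : tuO G A S0 δ p ω y ν i k = some q) :
    rtag (xrn (ucode G A S0 δ p rf ph key ω y ν i k)) = sgn G A S0 δ p ω y ν i k q := by
  rw [ucode_eq h, xrn_mkx, rtag_rnc]

theorem tag_mcode (ω : Om) (y : Ξ × (ι → Pt)) (ν : Nu) (i : ℕ) :
    rtag (xrn (mcode G A S0 δ p ph ω y ν i)) = 0 := by
  unfold mcode
  rw [xrn_mkx, rtag_rnc]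

theorem exists_rst (ω : Om) (y : Ξ × (ι → Pt)) (ν : Nu) (i : ℕ) (h : epc G A S0 δ p ω y ν i ≠ 0) :
    ∃ j < i, rst G A S0 δ p ω y ν j ∧ epc G A S0 δ p ω y ν (j + 1) = epc G A S0 δ p ω y ν i := by
  induction i with
  | zero => exact absurd rfl h
  | succ i ih =>
    by_cases hr : rst G A S0 δ p ω y ν i
    · exact ⟨i, Nat.lt_succ_self i, hr, rfl⟩
    · have e : epc G A S0 δ p ω y ν (i + 1) = epc G A S0 δ p ω y ν i := Ru.epo_nrs hr
      obtain ⟨j, h1, h2, h3⟩ := ih (by rw [← e]; exact h)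
      exact ⟨j, by omega, h2, by rw [h3, e]⟩

/-- **the largest epoch of the list is the current one** -/
theorem sup_epo (ω : Om) (ν : Nu) (t : ℕ) (y : Ξ × (ι → Pt)) :
    (cset G A S0 δ p rf ph key ω ν t y).sup xep = epc G A S0 δ p ω y ν (Ru.Dat.la (p.a Cl) t) := by
  refine le_antisymm (Finset.sup_le fun x hx => ?_) ?_
  · rcases mem_cset.1 hx with ⟨i, k, q, h2, h3, h4, h5⟩ | ⟨i, h2, h3, h4⟩
    · rw [h5, xep_ucode h4]
      exact Ru.epo_mono h2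
    · rw [h4, xep_mcode]
      exact Ru.epo_mono h2
  · by_cases h : epc G A S0 δ p ω y ν (Ru.Dat.la (p.a Cl) t) = 0
    · rw [h]
      exact Nat.zero_le _
    · obtain ⟨j, h1, h2, h3⟩ := exists_rst ω y ν _ h
      have h4 : mcode G A S0 δ p ph ω y ν j ∈ cset G A S0 δ p rf ph key ω ν t y :=
        mem_cset.2 (Or.inr ⟨j, h1, h2, rfl⟩)
      have h5 := Finset.le_sup (f := xep) h4
      rw [xep_mcode, h3] at h5
      exact h5

/-! ### the bounded numbers -/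

theorem ucode_inj {ω : Om} {y : Ξ × (ι → Pt)} {ν : Nu} {i k i' k' : ℕ} (hk : k < p.N) (hk' : k' < p.N)
    (h : tuO G A S0 δ p ω y ν i k ≠ none) (h' : tuO G A S0 δ p ω y ν i' k' ≠ none)
    (e : xrn (ucode G A S0 δ p rf ph key ω y ν i k) = xrn (ucode G A S0 δ p rf ph key ω y ν i' k')) :
    i = i' ∧ k = k' := by
  obtain ⟨q, hq⟩ := Option.ne_none_iff_exists'.1 h
  obtain ⟨q', hq'⟩ := Option.ne_none_iff_exists'.1 h'
  rw [ucode_eq hq, ucode_eq hq', xrn_mkx, xrn_mkx] at e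
  have e1 := congrArg rj e
  rw [rj_rnc, rj_rnc] at e1
  exact Ru.uct_inj hk hk' h h' e1

/-- **the bounded numbers are injective on the list** -/
theorem xrn_inj (ω : Om) (ν : Nu) (t : ℕ) (y : Ξ × (ι → Pt)) :
    Set.InjOn xrn (cset G A S0 δ p rf ph key ω ν t y : Set ℕ) := by
  intro x hx x' hx' e
  rw [mem_coe] at hx hx'
  rcases mem_cset.1 hx with ⟨i, k, q, h2, h3, h4, h5⟩ | ⟨i, h2, h3, h4⟩ <;>
    rcases mem_cset.1 hx' with ⟨i', k', q', h2', h3', h4', h5'⟩ | ⟨i', h2', h3', h4'⟩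
  · rw [h5, h5'] at e
    obtain ⟨e1, e2⟩ := ucode_inj h3 h3' (by rw [h4]; simp) (by rw [h4']; simp) e
    rw [h5, h5', e1, e2]
  · exfalso
    have e1 := congrArg rtag e
    rw [h5, h4', tag_ucode h4, tag_mcode] at e1
    exact (sgn_le ω y ν i k q).2 e1
  · exfalso
    have e1 := congrArg rtag e
    rw [h4, h5', tag_ucode h4', tag_mcode] at e1
    exact (sgn_le ω y ν i' k' q').2 e1.symm
  · have e1 := congrArg repo e
    rw [h4, h4'] at e1
    have e2 : epc G A S0 δ p ω y ν (i + 1) = epc G A S0 δ p ω y ν (i' + 1) := by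
      have h6 := xep_mcode (G := G) (A := A) (S0 := S0) (δ := δ) (p := p) (ph := ph) ω y ν i
      have h7 := xep_mcode (G := G) (A := A) (S0 := S0) (δ := δ) (p := p) (ph := ph) ω y ν i'
      unfold xep at h6 h7
      rw [← h6, ← h7, e1]
    rw [h4, h4']
    unfold mcode
    rw [e2]

/-- the hashes of the references -/
theorem xrn_hash {ω : Om} {ν : Nu} {t : ℕ} {y : Ξ × (ι → Pt)} {x : ℕ}
    (hx : x ∈ cset G A S0 δ p rf ph key ω ν t y) (u : ι) : rhs (xrn x) u = ph (xref x u) := by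
  rcases mem_cset.1 hx with ⟨i, k, q, h2, h3, h4, h5⟩ | ⟨i, h2, h3, h4⟩
  · rw [h5, ucode_eq h4, xrn_mkx, rhs_rnc, xref_mkx]
  · rw [h4]
    unfold mcode
    rw [xrn_mkx, rhs_rnc, xref_mkx]

/-- **size of the bounded numbers** -/
theorem xrn_le {ω : Om} {ν : Nu} {t : ℕ} {y : Ξ × (ι → Pt)} {x : ℕ}
    (hx : x ∈ cset G A S0 δ p rf ph key ω ν t y) {M : ℕ} (h2 : 2 ≤ M) (hph : ∀ n, ph n ≤ M)
    (hu : ucn G A S0 δ p ω y ν (Ru.Dat.la (p.a Cl) t) p.N ≤ M)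
    (he : epc G A S0 δ p ω y ν (Ru.Dat.la (p.a Cl) t) ≤ M) : xrn x ≤ (M + 3) ^ (2 ^ (Fintype.card ι + 2)) := by
  rcases mem_cset.1 hx with ⟨i, k, q, h3, h4, h5, h6⟩ | ⟨i, h3, h4, h5⟩
  · rw [h6, ucode_eq h5, xrn_mkx]
    refine rnc_le ((sgn_le ω y ν i k q).1.trans h2) ?_ ?_ fun u => hph _
    · exact (Ru.uct_lt_end h4 h3 (show tuO G A S0 δ p ω y ν i k ≠ none by rw [h5]; simp)).le.trans hu
    · exact (Ru.epo_mono h3).trans he
  · rw [h5]
    unfold mcode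
    rw [xrn_mkx]
    exact rnc_le (by omega) (by omega) ((Ru.epo_mono h3).trans he) fun u => hph _

theorem card_un (ω : Om) (y : Ξ × (ι → Pt)) (ν : Nu) (T : ℕ) :
    (((range (T + 1)) ×ˢ range p.N).filter fun ik => tuO G A S0 δ p ω y ν ik.1 ik.2 ≠ none).card =
      ucn G A S0 δ p ω y ν T p.N := by
  classical
  rw [Finset.card_filter, Finset.sum_product]
  unfold ucn Ru.uct Ru.un
  rw [← Finset.sum_range_succ]
  refine Finset.sum_congr rfl fun i _ => ?_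
  rw [Finset.card_filter]

open Classical in
theorem card_rst (ω : Om) (y : Ξ × (ι → Pt)) (ν : Nu) (T : ℕ) :
    ((range T).filter fun i => rst G A S0 δ p ω y ν i).card = epc G A S0 δ p ω y ν T := by
  induction T with
  | zero => rfl
  | succ T ih =>
    rw [Finset.range_add_one, Finset.filter_insert]
    by_cases h : rst G A S0 δ p ω y ν T
    · rw [if_pos h, Finset.card_insert_of_notMem (by simp), ih]
      exact (Ru.epo_rs h).symm
    · rw [if_neg h, ih]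
      exact (Ru.epo_nrs h).symm

/-- **size of the list** -/
theorem card_cset (ω : Om) (ν : Nu) (t : ℕ) (y : Ξ × (ι → Pt)) :
    (cset G A S0 δ p rf ph key ω ν t y).card ≤ ucn G A S0 δ p ω y ν (Ru.Dat.la (p.a Cl) t) p.N +
      epc G A S0 δ p ω y ν (Ru.Dat.la (p.a Cl) t) := by
  classical
  unfold cset
  refine (card_union_le _ _).trans (add_le_add (card_image_le.trans (card_un ω y ν _).le)
    (card_image_le.trans ?_))
  exact (card_rst ω y ν _).le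

/-! ### uses: what is used -/

theorem nws_e {ω : Om} {y : Ξ × (ι → Pt)} {ν : Nu} {j : ℕ} {q : Ru.Tst R V} (h : q ∈ nws G A S0 δ p ω y ν j) :
    q.e = p.ea := by
  obtain ⟨c, h1⟩ := arr_of_mem h
  rcases h1 with ⟨-, -, -, rfl⟩ | ⟨-, pb, -, -, -, -, rfl⟩
  · rfl
  · rfl

theorem tu_e {ω : Om} {y : Ξ × (ι → Pt)} {ν : Nu} {i k : ℕ} {q : Ru.Tst R V}
    (h : tuO G A S0 δ p ω y ν i k = some q) : q.e = p.ea :=
  nws_e (G := G) (A := A) (S0 := S0) (δ := δ) (p := p) (ω := ω) (y := y) (ν := ν) (Ru.arv_spec (tu_mem h)).2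

/-- a use: arrival, class, nonzero test, allowed reference with nonzero multiplier -/
theorem use_spec (H : A.Ok G S0 δ) (hp : p.Ok Kn Yn) {ω : Om} {y : Ξ × (ι → Pt)} {ν : Nu} {i k : ℕ} {q : Ru.Tst R V}
    (h : tuO G A S0 δ p ω y ν i k = some q) :
    (∃ j c, j ≤ i ∧ Arr G A S0 δ p ω y ν j c q ∧ ∀ l, keyv G A S0 δ p key ω y ν q l = key ω j c l y.2) ∧
    (q.g ≠ fun _ => 0) ∧
    A.al ν (i / (p.a Cl).bl) (G.gm (i / (p.a Cl).bl) ω) y.1 y.2 q.s ∧
    A.v q.s (i / (p.a Cl).bl) (G.gm (i / (p.a Cl).bl) ω) y.2 ≠ fun _ => 0 := by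
  obtain ⟨h1, h2, h3⟩ := Ru.ust_spec h
  have he := tu_e h
  have hm := mn_mean (G := G) (i / (p.a Cl).bl) ω
  have hne : Ru.val p.Y (xsq G A S0 δ p ω y ν i) (mcs G A S0 δ p ω y ν i k).H q ≠ 0 := by
    intro h0
    have h3' : q.e / 2 ≤ |Ru.val p.Y (xsq G A S0 δ p ω y ν i) (mcs G A S0 δ p ω y ν i k).H q| := h3
    rw [h0, abs_zero, he] at h3'
    have := hp.e0
    linarith
  have hz : (∀ d, q.g d * (xsq G A S0 δ p ω y ν i).v q.s d = 0) → False := by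
    intro h0
    apply hne
    unfold Ru.val
    have e : (fun d => (q.g d * (xsq G A S0 δ p ω y ν i).v q.s d) *
        clip p.Y (Ru.err (xsq G A S0 δ p ω y ν i) (mcs G A S0 δ p ω y ν i k).H d)) = fun _ => 0 := by
      funext d
      rw [h0 d, zero_mul]
    rw [e]
    exact hm.zero
  refine ⟨?_, ?_, ?_, ?_⟩
  · have h4 := Ru.arv_spec h2
    obtain ⟨c0, hc0⟩ := arr_of_mem h4.2
    obtain ⟨c, h5, h6⟩ := pk1_some (P := fun c => Arr G A S0 δ p ω y ν (Ru.arv (nws G A S0 δ p ω y ν) q) c q) hc0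
    refine ⟨Ru.arv (nws G A S0 δ p ω y ν) q, c, h4.1, h6, fun l => ?_⟩
    unfold keyv cls
    rw [h5]
    rfl
  · intro h0
    exact hz fun d => by rw [h0, zero_mul]
  · have h4 := (Mach.pick_some.1 h1).1.2
    exact h4
  · intro h0
    refine hz fun d => ?_
    show q.g d * A.v q.s (i / (p.a Cl).bl) (G.gm (i / (p.a Cl).bl) ω) y.2 d = 0
    rw [h0, mul_zero]

/-- **the codes of uses**: keys and references -/
theorem code_spec (H : A.Ok G S0 δ) (hp : p.Ok Kn Yn) {ω : Om} {ν : Nu} {t : ℕ} {y : Ξ × (ι → Pt)} {x : ℕ}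
    (hx : x ∈ cset G A S0 δ p rf ph key ω ν t y) :
    (rtag (xrn x) ≠ 0 ∧ (∃ j c q, j / (p.a Cl).bl ≤ t ∧ Arr G A S0 δ p ω y ν j c q ∧ (q.g ≠ fun _ => 0) ∧
        ∀ l, xkey l x = key ω j c l y.2) ∧
      ∃ t' ≤ t, ∃ s, A.al ν t' (G.gm t' ω) y.1 y.2 s ∧ (A.v s t' (G.gm t' ω) y.2 ≠ fun _ => 0) ∧
        ∀ u, xref x u = rf t' (G.gm t' ω) y.2 s u) ∨
    (rtag (xrn x) = 0 ∧ (∀ l : ι, xkey l x = 0) ∧ ∀ u : ι, xref x u = 0) := by
  rcases mem_cset.1 hx with ⟨i, k, q, h3, h4, h5, h6⟩ | ⟨i, h3, h4, h5⟩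
  · left
    obtain ⟨⟨j, c, h7, h8, h9⟩, h10, h11, h12⟩ := use_spec (key := key) H hp h5
    have hd : i / (p.a Cl).bl ≤ t := (Nat.div_le_div_right h3).trans (la_div' t).le
    refine ⟨?_, ⟨j, c, q, (Nat.div_le_div_right h7).trans hd, h8, h10, fun l => ?_⟩, i / (p.a Cl).bl, hd, q.s, h11,
      h12, fun u => ?_⟩
    · rw [h6, tag_ucode h5]
      exact (sgn_le ω y ν i k q).2
    · rw [h6, ucode_eq h5, xkey_mkx, h9]
    · rw [h6, ucode_eq h5, xref_mkx]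
  · right
    refine ⟨?_, fun l => ?_, fun u => ?_⟩
    · rw [h5, tag_mcode]
    · rw [h5]
      unfold mcode
      rw [xkey_mkx]
    · rw [h5]
      unfold mcode
      rw [xref_mkx]

/-! ### the approximation -/

theorem cof_le {ea : ℝ} (h0 : 0 ≤ ea) (x : ℕ) : |cof ea x| ≤ ea / 2 := by
  unfold cof
  split_ifs
  · rw [abs_of_nonneg (by linarith)]
  · rw [abs_neg, abs_of_nonneg (by linarith)]
  · rw [abs_zero]; linarith

theorem cof_mcode (ea : ℝ) (ω : Om) (y : Ξ × (ι → Pt)) (ν : Nu) (i : ℕ) :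
    cof ea (mcode G A S0 δ p ph ω y ν i) = 0 := by
  unfold cof
  rw [tag_mcode, if_neg (by omega), if_neg (by omega)]

theorem cof_ucode {ω : Om} {y : Ξ × (ι → Pt)} {ν : Nu} {i k : ℕ} {q : Ru.Tst R V}
    (h : tuO G A S0 δ p ω y ν i k = some q) : cof p.ea (ucode G A S0 δ p rf ph key ω y ν i k) =
      (Ru.ent p.Y (xsq G A S0 δ p ω y ν i) (mcs G A S0 δ p ω y ν i k).H q).e := by
  unfold cof
  rw [tag_ucode h]
  show _ = (if 0 ≤ Ru.val p.Y (xsq G A S0 δ p ω y ν i) (mcs G A S0 δ p ω y ν i k).H q then (1 : ℝ) else -1) *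
    (q.e / 2)
  rw [tu_e h]
  unfold sgn
  by_cases h1 : 0 ≤ Ru.val p.Y (xsq G A S0 δ p ω y ν i) (mcs G A S0 δ p ω y ν i k).H q
  · rw [if_pos h1, if_pos rfl, if_pos h1, one_mul]
  · rw [if_neg h1, if_neg (by omega), if_pos rfl, if_neg h1]
    ring

/-- sums over the current epoch -/
theorem sum_cset (ω : Om) (ν : Nu) (t : ℕ) (y : Ξ × (ι → Pt)) (F : ℕ → ℝ) :
    ∑ x ∈ (cset G A S0 δ p rf ph key ω ν t y).filter (fun x => xep x =
        (cset G A S0 δ p rf ph key ω ν t y).sup xep), cof p.ea x * F x =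
      ∑ i ∈ range (Ru.Dat.la (p.a Cl) t + 1), ∑ k ∈ range p.N,
        ind (epc G A S0 δ p ω y ν i = epc G A S0 δ p ω y ν (Ru.Dat.la (p.a Cl) t)) *
          (ind (tuO G A S0 δ p ω y ν i k ≠ none) * (cof p.ea (ucode G A S0 δ p rf ph key ω y ν i k) *
            F (ucode G A S0 δ p rf ph key ω y ν i k))) := by
  classical
  rw [sup_epo, Finset.sum_filter]
  set e := epc G A S0 δ p ω y ν (Ru.Dat.la (p.a Cl) t) with he
  set U : Finset (ℕ × ℕ) := ((range (Ru.Dat.la (p.a Cl) t + 1)) ×ˢ range p.N).filter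
    fun ik => tuO G A S0 δ p ω y ν ik.1 ik.2 ≠ none with hU
  set W : Finset ℕ := U.image fun ik => ucode G A S0 δ p rf ph key ω y ν ik.1 ik.2 with hW
  have h1 : W ⊆ cset G A S0 δ p rf ph key ω ν t y := by
    unfold cset
    exact subset_union_left
  rw [← Finset.sum_subset h1 fun x hx hxW => ?_]
  · rw [hW, Finset.sum_image]
    · rw [hU, Finset.sum_filter, Finset.sum_product]
      refine Finset.sum_congr rfl fun i _ => Finset.sum_congr rfl fun k _ => ?_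
      show (if tuO G A S0 δ p ω y ν i k ≠ none then (if xep (ucode G A S0 δ p rf ph key ω y ν i k) = e then
        cof p.ea (ucode G A S0 δ p rf ph key ω y ν i k) * F (ucode G A S0 δ p rf ph key ω y ν i k) else 0) else 0) = _
      by_cases h2 : tuO G A S0 δ p ω y ν i k ≠ none
      · obtain ⟨q, hq⟩ := Option.ne_none_iff_exists'.1 h2
        rw [if_pos h2, ind_of h2, one_mul, xep_ucode hq]
        by_cases h3 : epc G A S0 δ p ω y ν i = e
        · rw [if_pos h3, ind_of h3, one_mul]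
        · rw [if_neg h3, ind_not h3, zero_mul]
      · rw [if_neg h2, ind_not h2]
        ring
    · rintro ⟨i, k⟩ h2 ⟨i', k'⟩ h3 h4
      rw [mem_coe, hU, mem_filter, mem_product, mem_range, mem_range] at h2 h3
      obtain ⟨e1, e2⟩ := ucode_inj h2.1.2 h3.1.2 h2.2 h3.2 (congrArg xrn h4)
      exact Prod.ext e1 e2
  · rcases mem_cset.1 hx with ⟨i, k, q, h3, h4, h5, h6⟩ | ⟨i, h3, h4, h5⟩
    · exfalso
      apply hxW
      rw [hW, mem_image]
      refine ⟨(i, k), ?_, h6.symm⟩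
      rw [hU, mem_filter, mem_product, mem_range, mem_range]
      refine ⟨⟨by show i < _; omega, h4⟩, ?_⟩
      show tuO G A S0 δ p ω y ν i k ≠ none
      rw [h5]
      simp
    · rw [h5, cof_mcode, zero_mul]
      split_ifs <;> rfl

/-- **error = target - sum over the codes of the current epoch** -/
theorem appr_eq (H : A.Ok G S0 δ) (hp : p.Ok Kn Yn) (ω : Om) (ν : Nu) (t : ℕ) (y : Ξ × (ι → Pt))
    (Fk Xf : ι → ℕ → ℝ) (Rf : Finset ι) (d : V)
    (hval : ∀ j c q, Arr G A S0 δ p ω y ν j c q → j / (p.a Cl).bl ≤ t → (q.g ≠ fun _ => 0) →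
      ∏ l ∈ S0.erase δ, Fk l (key ω j c l y.2) = q.g d)
    (href : ∀ s, ∀ t' ≤ t, A.al ν t' (G.gm t' ω) y.1 y.2 s → (A.v s t' (G.gm t' ω) y.2 ≠ fun _ => 0) →
      ∏ u ∈ Rf, Xf u (rf t' (G.gm t' ω) y.2 s u) = A.v s t (G.gm t ω) y.2 d) :
    ∑ x ∈ (cset G A S0 δ p rf ph key ω ν t y).filter (fun x => xep x =
        (cset G A S0 δ p rf ph key ω ν t y).sup xep),
        cof p.ea x * ((∏ l ∈ S0.erase δ, Fk l (xkey l x)) * ∏ u ∈ Rf, Xf u (xref x u)) =
      A.u ν t (G.gm t ω) y.1 y.2 d - Ru.err ((dt G A S0 δ p ω).nod t y ν)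
        (mcs G A S0 δ p ω y ν (Ru.Dat.la (p.a Cl) t) p.N).H d := by
  have hla : Ru.Dat.la (p.a Cl) t / (p.a Cl).bl = t := la_div' t
  rw [sum_cset]
  unfold Ru.err
  have h1 := Ru.sum_H (Y := p.Y) (x := xsq G A S0 δ p ω y ν) (nw := nws G A S0 δ p ω y ν)
    (A := asq G A S0 δ p ω y ν) (N := p.N)
    (fun q => q.e * (q.g d * ((dt G A S0 δ p ω).nod t y ν).v q.s d)) (Ru.Dat.la (p.a Cl) t)
  have h2 : ((mcs G A S0 δ p ω y ν (Ru.Dat.la (p.a Cl) t) p.N).H.map fun q =>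
      q.e * (q.g d * ((dt G A S0 δ p ω).nod t y ν).v q.s d)).sum = _ := h1
  rw [h2]
  show _ = A.u ν t (G.gm t ω) y.1 y.2 d - (A.u ν t (G.gm t ω) y.1 y.2 d - _)
  rw [sub_sub_cancel]
  refine Finset.sum_congr rfl fun i hi => Finset.sum_congr rfl fun k _ => ?_
  rw [Finset.mem_range] at hi
  congr 1
  have hd : i / (p.a Cl).bl ≤ t := (Nat.div_le_div_right (by omega)).trans hla.le
  cases hq : tuO G A S0 δ p ω y ν i k with
  | none =>
    rw [ind_not (by simp), zero_mul]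
    unfold Ru.uva Ru.uen
    rw [show Ru.ust p.Y (xsq G A S0 δ p ω y ν) (nws G A S0 δ p ω y ν) (asq G A S0 δ p ω y ν) p.N i k = none from hq]
    rfl
  | some q =>
    obtain ⟨⟨j, c, h7, h8, h9⟩, h10, h11, h12⟩ := use_spec (key := key) H hp hq
    rw [ind_of (by simp), one_mul, cof_ucode hq]
    have e1 : ∏ l ∈ S0.erase δ, Fk l (xkey l (ucode G A S0 δ p rf ph key ω y ν i k)) = q.g d := by
      rw [← hval j c q h8 ((Nat.div_le_div_right h7).trans hd) h10]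
      refine Finset.prod_congr rfl fun l _ => ?_
      rw [ucode_eq hq, xkey_mkx, h9]
    have e2 : ∏ u ∈ Rf, Xf u (xref (ucode G A S0 δ p rf ph key ω y ν i k) u) = A.v q.s t (G.gm t ω) y.2 d := by
      rw [← href q.s _ hd h11 h12]
      refine Finset.prod_congr rfl fun u _ => ?_
      rw [ucode_eq hq, xref_mkx]
    rw [e1, e2]
    unfold Ru.uva Ru.uen
    rw [show Ru.ust p.Y (xsq G A S0 δ p ω y ν) (nws G A S0 δ p ω y ν) (asq G A S0 δ p ω y ν) p.N i k = some q from hq]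
    rfl

/-! ### the list as a list of the state -/

variable (G A S0 δ p rf ph key)

/-- codes up to the node of time `t'` -/
def ctt (ν : Nu) (t : ℕ) (g : Γ) (ξ : Ξ) (x : ι → Pt) (t' : ℕ) : Finset ℕ := by
  classical
  exact if h : ∃ ω, G.gm t' ω = S2.anc G.par t g t' then cset G A S0 δ p rf ph key (Classical.choose h) ν t' (ξ, x)
    else ∅

/-- **the list of the codes of the actual run of the client `ν`** -/
def Lsn (H : A.Ok G S0 δ) (hp : p.Ok Kn Yn) (hr : RfD δ rf) (hk : KeyD δ key) (ν : Nu) : Lst G (univ.erase δ) where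
  L t g ξ x := (range (t + 1)).biUnion (ctt G A S0 δ p rf ph key ν t g ξ x)
  dep t g ξ x x' h := by
    refine Finset.biUnion_congr rfl fun t' _ => ?_
    unfold ctt
    split_ifs with hx
    · exact cset_twin H hp hr hk _ h ν t'
    · rfl
  mono t g ξ x := by
    intro z hz
    rw [mem_biUnion] at hz ⊢
    obtain ⟨t', h1, h2⟩ := hz
    rw [mem_range] at h1
    refine ⟨t', mem_range.2 (by omega), ?_⟩
    unfold ctt at h2 ⊢
    rw [S2.anc_succ G.par (by omega : t' ≤ t)]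
    exact h2

variable {G A S0 δ p rf ph key}

theorem Lsn_at (H : A.Ok G S0 δ) (hp : p.Ok Kn Yn) (hr : RfD δ rf) (hk : KeyD δ key) (ha : KeyA G p key) (ν : Nu)
    (t : ℕ) (ω : Om) : (Lsn G A S0 δ p rf ph key H hp hr hk ν).at' t ω =
      cset G A S0 δ p rf ph key ω ν t (G.xi ω, G.x ω) := by
  classical
  have h1 : ∀ t' ≤ t, ctt G A S0 δ p rf ph key ν t (G.gm t ω) (G.xi ω) (G.x ω) t' =
      cset G A S0 δ p rf ph key ω ν t' (G.xi ω, G.x ω) := by
    intro t' ht'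
    have hx : ∃ ω', G.gm t' ω' = S2.anc G.par t (G.gm t ω) t' := ⟨ω, (G.anc_gm ht' ω).symm⟩
    unfold ctt
    rw [dif_pos hx]
    exact cset_congr ha ((Classical.choose_spec hx).trans (G.anc_gm ht' ω)) _ ν
  show (range (t + 1)).biUnion (ctt G A S0 δ p rf ph key ν t (G.gm t ω) (G.xi ω) (G.x ω)) = _
  apply Finset.Subset.antisymm
  · intro z hz
    rw [mem_biUnion] at hz
    obtain ⟨t', h2, h3⟩ := hz
    rw [mem_range] at h2
    rw [h1 t' (by omega)] at h3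
    exact cset_mono ω ν _ (by omega : t' ≤ t) h3
  · intro z hz
    rw [mem_biUnion]
    exact ⟨t, mem_range.2 (by omega), by rw [h1 t le_rfl]; exact hz⟩

end

end Pool.Agent.GMN.RuS
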