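import Pool.Agent.GMN.RuleC
import Pool.Agent.GMN.RuleArr

/-!
# GMN/RuleZ (helper96): step C does not see a coin `z` which the data do not see (helper11's COINS SPEC, N3, N4)

`pz : Ξ → Ξr` forgets the coin of the face `delta`.  If the targets and the allowed references are functions of the
`pz`-coins, then the machines, the runs, the arrivals of the tests and the normalised errors are functions of the
`pz`-coins (the hits are averages over all individuals, `z` included; T_j is not changed).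

`nws_cf`, `arr_cf` : the tests which come to an individual are ALWAYS coin free; `M_zu` : the machine sees the coins through
the target only (it does not see the coins of the allowed sets).
-/

set_option autoImplicit false
set_option linter.unusedSectionVars false

namespace Pool.Agent.GMN.RuS

open Finset Pool.Agent.PWZ Pool.Agent.M3 Pool.Agent.M3.TS Pool.Agent.GM Pool.Agent.GMN

noncomputable section

variable {ι Om Ξ Pt V Γ κ : Type} [Fintype ι] [DecidableEq ι] [Fintype Om] [Fintype Ξ] [Fintype Pt]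
    [Fintype V] {G : Sys ι Om Ξ Pt V Γ κ}
variable {R Nu Cl : Type} {I : ℕ} [Fintype R] [LinearOrder R] [Fintype Nu] [Fintype Cl]
  {A : Inp ι Ξ Pt V Γ R Nu Cl I} {S0 : Finset ι} {δ : ι} {p : Prm} {Kn Yn : ℕ}

/-- the data do not see the coin which `pz` forgets -/
structure Zfree {Ξr : Type} (pz : Ξ → Ξr) (A : Inp ι Ξ Pt V Γ R Nu Cl I) : Prop where
  u : ∀ ν t g ξ ξ' x, pz ξ = pz ξ' → A.u ν t g ξ x = A.u ν t g ξ' x
  al : ∀ ν t g ξ ξ' x, pz ξ = pz ξ' → A.al ν t g ξ x = A.al ν t g ξ' x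

variable {Ξr : Type} {pz : Ξ → Ξr}

/-- two individuals with the same `pz`-coins and the same vertices but `δ` have the same data -/
theorem twin_z (H : A.Ok G S0 δ) (Z : Zfree pz A) (ω : Om) {ξ ξ' : Ξ} (hξ : pz ξ = pz ξ') {x x' : ι → Pt}
    (h : ∀ i ∈ univ.erase δ, x i = x' i) : Ru.Twin (dt G A S0 δ p ω) (ξ, x) (ξ', x') where
  nod t := by
    funext ν
    have h1 := nod_same (p := p) H ω (ξ := ξ') h t ν
    rw [← h1]
    show (⟨mn G t (G.gm t ω), A.u ν t (G.gm t ω) ξ x, fun r => A.v r t (G.gm t ω) x⟩ : Ru.Nd R V) =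
      ⟨mn G t (G.gm t ω), A.u ν t (G.gm t ω) ξ' x, fun r => A.v r t (G.gm t ω) x⟩
    rw [Z.u ν t _ ξ ξ' x hξ]
  al t := by
    funext ν
    exact (Z.al ν t _ ξ ξ' x hξ).trans (H.aldep ν t _ ξ' x x' h)
  ext t := (twin (p := p) H ω (ξ := ξ) h).ext t
  loc c t := plc_dep H t c x x' h
  adm t q hq := by
    obtain ⟨-, f, ⟨u, hu, rfl⟩, hf⟩ := hq
    funext d
    rw [hf, hf]
    show cmf A S0 q.sy _ _ x d * tpr (A.cs q.sy).S δ u x d = cmf A S0 q.sy _ _ x' d * tpr (A.cs q.sy).S δ u x' d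
    rw [cmf_dep H _ _ _ x x' h, tpr_dep hu x x' h]

/-- the tests which come to an individual -/
theorem nws_z (H : A.Ok G S0 δ) (hp : p.Ok Kn Yn) (Z : Zfree pz A) (ω : Om) {ξ ξ' : Ξ} (hξ : pz ξ = pz ξ')
    {x x' : ι → Pt} (h : ∀ i ∈ univ.erase δ, x i = x' i) (ν : Nu) :
    nws G A S0 δ p ω (ξ, x) ν = nws G A S0 δ p ω (ξ', x') ν :=
  Ru.Dat.nw_twin (twin_z H Z ω hξ h) (Ru.Dat.tau_twin (twin_z H Z ω hξ h) (datOk H hp ω)) ν

/-- arrivals -/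
theorem arr_z (H : A.Ok G S0 δ) (hp : p.Ok Kn Yn) (Z : Zfree pz A) (ω : Om) {ξ ξ' : Ξ} (hξ : pz ξ = pz ξ')
    {x x' : ι → Pt} (h : ∀ i ∈ univ.erase δ, x i = x' i) (ν : Nu) (j : ℕ) (c : Cl) (q : Ru.Tst R V) :
    Arr G A S0 δ p ω (ξ, x) ν j c q ↔ Arr G A S0 δ p ω (ξ', x') ν j c q := by
  have hT := twin_z (p := p) H Z ω hξ h
  unfold Arr
  refine or_congr (and_congr_right fun _ => and_congr_right fun _ => and_congr_right fun _ => ?_)
    (and_congr_right fun _ => exists_congr fun pb => and_congr_right fun hb => and_congr_right fun _ =>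
      and_congr_right fun _ => ?_)
  · show q = ⟨_, fun d => cmf A S0 c _ _ x d, _⟩ ↔ q = ⟨_, fun d => cmf A S0 c _ _ x' d, _⟩
    rw [cmf_dep H c _ _ x x' h]
  · have h1 : (plc G A δ (j / (p.a Cl).bl) c x : Plc ι Pt κ) = plc G A δ (j / (p.a Cl).bl) c x' :=
      plc_dep H _ c x x' h
    have h2 := Ru.Dat.tau_twin hT (datOk H hp ω) _ _ hb
    show (plc G A δ (j / (p.a Cl).bl) c x = pb.c ∧ q = ⟨pb.k.2.1, pb.g (ξ, x), _⟩) ↔
      (plc G A δ (j / (p.a Cl).bl) c x' = pb.c ∧ q = ⟨pb.k.2.1, pb.g (ξ', x'), _⟩)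
    rw [h1, h2]

/-- the machines -/
theorem M_z (H : A.Ok G S0 δ) (hp : p.Ok Kn Yn) (Z : Zfree pz A) (ω : Om) {ξ ξ' : Ξ} (hξ : pz ξ = pz ξ')
    {x x' : ι → Pt} (h : ∀ i ∈ univ.erase δ, x i = x' i) (ν : Nu) :
    (dt G A S0 δ p ω).M (p.a Cl) ((dt G A S0 δ p ω).tau (p.a Cl)) (ξ, x) ν =
      (dt G A S0 δ p ω).M (p.a Cl) ((dt G A S0 δ p ω).tau (p.a Cl)) (ξ', x') ν :=
  Ru.Dat.M_twin (twin_z H Z ω hξ h) (Ru.Dat.tau_twin (twin_z H Z ω hξ h) (datOk H hp ω)) ν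

/-- the allowed references of the actual run -/
theorem A_z (H : A.Ok G S0 δ) (Z : Zfree pz A) (ω : Om) {ξ ξ' : Ξ} (hξ : pz ξ = pz ξ')
    {x x' : ι → Pt} (h : ∀ i ∈ univ.erase δ, x i = x' i) (ν : Nu) :
    (dt G A S0 δ p ω).A (p.a Cl) (ξ, x) ν = (dt G A S0 δ p ω).A (p.a Cl) (ξ', x') ν :=
  Ru.Dat.A_twin (twin_z H Z ω hξ h) ν

theorem svt_z (H : A.Ok G S0 δ) (hp : p.Ok Kn Yn) (Z : Zfree pz A) (ω : Om) {ξ ξ' : Ξ} (hξ : pz ξ = pz ξ')
    {x x' : ι → Pt} (h : ∀ i ∈ univ.erase δ, x i = x' i) (k : Ru.Ka Nu R I) (t : ℕ) :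
    svt G A S0 δ p ω k t (ξ, x) = svt G A S0 δ p ω k t (ξ', x') :=
  congrFun (congrFun (Ru.Dat.sv_twin (twin_z H Z ω hξ h)
    (Ru.Dat.tau_twin (twin_z H Z ω hξ h) (datOk H hp ω))) k) (Ru.Dat.la (p.a Cl) t)

theorem stt_z (H : A.Ok G S0 δ) (hp : p.Ok Kn Yn) (Z : Zfree pz A) (ω : Om) {ξ ξ' : Ξ} (hξ : pz ξ = pz ξ')
    {x x' : ι → Pt} (h : ∀ i ∈ univ.erase δ, x i = x' i) (k : Ru.Ka Nu R I) (t : ℕ) :
    stt G A S0 δ p ω k t (ξ, x) = stt G A S0 δ p ω k t (ξ', x') :=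
  congrFun (congrFun (Ru.Dat.sta_twin (twin_z H Z ω hξ h)
    (Ru.Dat.tau_twin (twin_z H Z ω hξ h) (datOk H hp ω))) k) (Ru.Dat.la (p.a Cl) t)

theorem evl_z (H : A.Ok G S0 δ) (hp : p.Ok Kn Yn) (Z : Zfree pz A) (ω : Om) {ξ ξ' : Ξ} (hξ : pz ξ = pz ξ')
    {x x' : ι → Pt} (h : ∀ i ∈ univ.erase δ, x i = x' i) (k : Ru.Ka Nu R I) (t : ℕ) :
    evl G A S0 δ p ω k t (ξ, x) = evl G A S0 δ p ω k t (ξ', x') := by
  funext d
  have h1 := stt_z H hp Z ω hξ h k t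
  unfold evl
  rw [svt_z H hp Z ω hξ h, (twin_z (p := p) H Z ω hξ h).nod t]
  by_cases h2 : stt G A S0 δ p ω k t (ξ, x)
  · rw [if_pos h2, if_pos (h1 ▸ h2)]
  · rw [if_neg h2, if_neg (h1 ▸ h2)]

/-- **the normalised errors** -/
theorem Er_z (H : A.Ok G S0 δ) (hp : p.Ok Kn Yn) (Z : Zfree pz A) {ξ ξ' : Ξ} (hξ : pz ξ = pz ξ')
    {x x' : ι → Pt} (h : ∀ i ∈ univ.erase δ, x i = x' i) (k : Ru.Ka Nu R I) (t : ℕ) (g : Γ) :
    Er G A S0 δ p k t g ξ x = Er G A S0 δ p k t g ξ' x' := by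
  funext d
  unfold Er
  split_ifs with hg
  · rw [evl_z H hp Z _ hξ h]
  · rfl

/-! ### without a hypothesis on the allowed sets -/

/-- a publication is coin free -/
theorem pub_cf (H : A.Ok G S0 δ) (hp : p.Ok Kn Yn) (ω : Om) {ξ ξ' : Ξ} {x x' : ι → Pt}
    (h : ∀ i ∈ univ.erase δ, x i = x' i) {j : ℕ} {q : Ru.Pub (Ξ × (ι → Pt)) Nu R V Cl (Plc ι Pt κ) I}
    (hq : (dt G A S0 δ p ω).tau (p.a Cl) j = some q) : q.g (ξ, x) = q.g (ξ', x') := by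
  obtain ⟨-, f, ⟨u, hu, rfl⟩, hf⟩ := (Ru.Dat.tau_adm (datOk H hp ω) hq).1
  funext d
  rw [hf, hf]
  show cmf A S0 q.sy _ _ x d * tpr (A.cs q.sy).S δ u x d = cmf A S0 q.sy _ _ x' d * tpr (A.cs q.sy).S δ u x' d
  rw [cmf_dep H _ _ _ x x' h, tpr_dep hu x x' h]

/-- **the tests which come to an individual are coin free** -/
theorem nws_cf (H : A.Ok G S0 δ) (hp : p.Ok Kn Yn) (ω : Om) (ξ ξ' : Ξ) {x x' : ι → Pt}
    (h : ∀ i ∈ univ.erase δ, x i = x' i) (ν : Nu) : nws G A S0 δ p ω (ξ, x) ν = nws G A S0 δ p ω (ξ', x') ν := by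
  funext j
  unfold nws Ru.Dat.nw
  split_ifs with h0
  · show lets A S0 δ p.ea ν _ _ x = lets A S0 δ p.ea ν _ _ x'
    unfold lets
    have h1 : ∀ c, cmf A S0 c (j / (p.a Cl).bl) (G.gm (j / (p.a Cl).bl) ω) x =
      cmf A S0 c (j / (p.a Cl).bl) (G.gm (j / (p.a Cl).bl) ω) x' := fun c => cmf_dep H c _ _ _ _ h
    simp only [h1]
  · unfold Ru.Dat.pnw
    cases hq : (dt G A S0 δ p ω).tau (p.a Cl) j with
    | none => rfl
    | some q =>
      simp only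
      have h1 : (dt G A S0 δ p ω).loc q.sy (j / (p.a Cl).bl) (ξ, x) =
          (dt G A S0 δ p ω).loc q.sy (j / (p.a Cl).bl) (ξ', x') := plc_dep H _ q.sy x x' h
      rw [h1]
      unfold Ru.Dat.tst
      rw [pub_cf H hp ω h hq]

/-- arrivals are coin free -/
theorem arr_cf (H : A.Ok G S0 δ) (hp : p.Ok Kn Yn) (ω : Om) (ξ ξ' : Ξ) {x x' : ι → Pt}
    (h : ∀ i ∈ univ.erase δ, x i = x' i) (ν : Nu) (j : ℕ) (c : Cl) (q : Ru.Tst R V) :
    Arr G A S0 δ p ω (ξ, x) ν j c q ↔ Arr G A S0 δ p ω (ξ', x') ν j c q := by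
  unfold Arr
  refine or_congr (and_congr_right fun _ => and_congr_right fun _ => and_congr_right fun _ => ?_)
    (and_congr_right fun _ => exists_congr fun pb => and_congr_right fun hb => and_congr_right fun _ =>
      and_congr_right fun _ => ?_)
  · show q = ⟨_, fun d => cmf A S0 c _ _ x d, _⟩ ↔ q = ⟨_, fun d => cmf A S0 c _ _ x' d, _⟩
    rw [cmf_dep H c _ _ x x' h]
  · have h1 : (plc G A δ (j / (p.a Cl).bl) c x : Plc ι Pt κ) = plc G A δ (j / (p.a Cl).bl) c x' :=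
      plc_dep H _ c x x' h
    show (plc G A δ (j / (p.a Cl).bl) c x = pb.c ∧ q = ⟨pb.k.2.1, pb.g (ξ, x), _⟩) ↔
      (plc G A δ (j / (p.a Cl).bl) c x' = pb.c ∧ q = ⟨pb.k.2.1, pb.g (ξ', x'), _⟩)
    rw [h1, pub_cf H hp ω h hb]

/-- the data of a client at the nodes -/
theorem nod_zu (H : A.Ok G S0 δ) (ω : Om) {ξ ξ' : Ξ} {x x' : ι → Pt} (h : ∀ i ∈ univ.erase δ, x i = x' i) (ν : Nu)
    (hu : ∀ t g, A.u ν t g ξ x = A.u ν t g ξ' x) (t : ℕ) :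
    (dt G A S0 δ p ω).nod t (ξ, x) ν = (dt G A S0 δ p ω).nod t (ξ', x') ν := by
  have h1 := nod_same (p := p) H ω (ξ := ξ') h t ν
  rw [← h1]
  show (⟨mn G t (G.gm t ω), A.u ν t (G.gm t ω) ξ x, fun r => A.v r t (G.gm t ω) x⟩ : Ru.Nd R V) =
    ⟨mn G t (G.gm t ω), A.u ν t (G.gm t ω) ξ' x, fun r => A.v r t (G.gm t ω) x⟩
  rw [hu t]

/-- **the machine sees the coins through the target only** -/
theorem M_zu (H : A.Ok G S0 δ) (hp : p.Ok Kn Yn) (ω : Om) {ξ ξ' : Ξ} {x x' : ι → Pt}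
    (h : ∀ i ∈ univ.erase δ, x i = x' i) (ν : Nu) (hu : ∀ t g, A.u ν t g ξ x = A.u ν t g ξ' x) :
    (dt G A S0 δ p ω).M (p.a Cl) ((dt G A S0 δ p ω).tau (p.a Cl)) (ξ, x) ν =
      (dt G A S0 δ p ω).M (p.a Cl) ((dt G A S0 δ p ω).tau (p.a Cl)) (ξ', x') ν := by
  have h1 : (dt G A S0 δ p ω).nw (p.a Cl) ((dt G A S0 δ p ω).tau (p.a Cl)) (ξ, x) ν =
      (dt G A S0 δ p ω).nw (p.a Cl) ((dt G A S0 δ p ω).tau (p.a Cl)) (ξ', x') ν := nws_cf H hp ω ξ ξ' h ν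
  unfold Ru.Dat.M
  rw [h1, funext fun i => nod_zu (p := p) H ω h ν hu (i / (p.a Cl).bl)]

end

end Pool.Agent.GMN.RuS
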