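import Pool.Agent.GMN.RuleO
import Pool.Agent.GMN.RuleK
import Pool.Agent.GMN.RuleZ
import Pool.Agent.GMN.Est

/-!
# GMN/RuleP (helper80): the lists of uses of the actual runs at the sample point

* `keyS` : the keys of helper96's `RuleK` on `S0.erase δ`, zero elsewhere; `lst ν` : the list of the uses of the client `ν`;
* for `x ∈ (lst ν).at' t ω` : `lst_on`, `lst_bas` (keys), `lst_inj`, `lst_num` (bounded numbers), `lst_hash`, `lst_ref`
  (references), `lst_card`; `lst_free` : the list does not see the coin which `pz` forgets; `lst_appr` : target minus error;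
-/

set_option autoImplicit false
set_option linter.unusedSectionVars false

namespace Pool.Agent.GMN.RuS

open Finset Pool.Agent.PWZ Pool.Agent.M3 Pool.Agent.M3.TS Pool.Agent.GM Pool.Agent.GMN

noncomputable section

variable {ι Om Ξ Pt V Γ κ : Type} [Fintype ι] [DecidableEq ι] [Fintype Om] [Fintype Ξ] [Fintype Pt]
    [Fintype V] (G : Sys ι Om Ξ Pt V Γ κ)
variable {R Nu Cl : Type} {I : ℕ} [Fintype R] [LinearOrder R] [Fintype Nu] [Fintype Cl]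
  (A : Inp ι Ξ Pt V Γ R Nu Cl I) (S0 : Finset ι) (δ : ι) (p : Prm)

/-- the keys on `S0.erase δ` -/
def keyS (ω : Om) (j : ℕ) (c : Cl) (l : ι) (x : ι → Pt) : ℕ := if l ∈ S0.erase δ then keyOf G A p ω j c l x else 0

variable {G A S0 δ p} {Kn Yn : ℕ}

theorem keyS_of {ω : Om} {j : ℕ} {c : Cl} {l : ι} {x : ι → Pt} (hl : l ∈ S0.erase δ) :
    keyS G A S0 δ p ω j c l x = keyOf G A p ω j c l x := if_pos hl

theorem keyS_A : KeyA G p (keyS G A S0 δ p) := by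
  intro ω ω' t j c l x h hj
  unfold keyS
  rw [keyOf_congr h hj]

theorem keyS_D (H : A.Ok G S0 δ) : KeyD δ (keyS G A S0 δ p) := by
  intro ω j c l x y h
  unfold keyS
  by_cases hl : l ∈ S0.erase δ
  · rw [if_pos hl, if_pos hl]
    exact keyOf_dep H ω j c hl x y h
  · rw [if_neg hl, if_neg hl]

variable {rf : ℕ → Γ → (ι → Pt) → R → ι → ℕ} {ph : ℕ → ℕ}

variable (p rf ph) in
/-- **the list of the uses of the actual run of the client `ν`** -/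
def lst (H : A.Ok G S0 δ) (hp : p.Ok Kn Yn) (hr : RfD δ rf) (ν : Nu) : Lst G (univ.erase δ) :=
  Lsn G A S0 δ p rf ph (keyS G A S0 δ p) H hp hr (keyS_D H) ν

theorem lst_at (H : A.Ok G S0 δ) (hp : p.Ok Kn Yn) (hr : RfD δ rf) (ν : Nu) (t : ℕ) (ω : Om) :
    (lst p rf ph H hp hr ν).at' t ω = cset G A S0 δ p rf ph (keyS G A S0 δ p) ω ν t (G.xi ω, G.x ω) :=
  Lsn_at H hp hr (keyS_D H) keyS_A ν t ω

theorem lst_on (H : A.Ok G S0 δ) (hp : p.Ok Kn Yn) (hr : RfD δ rf) {ν : Nu} {t : ℕ} {ω : Om} {x : ℕ}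
    (hx : x ∈ (lst p rf ph H hp hr ν).at' t ω) {l : ι} (hl : l ∈ S0.erase δ) :
    (fac p H l).on (xkey l x) t ω := by
  rw [lst_at] at hx
  rcases code_spec H hp hx with ⟨-, ⟨j, c, q, h1, h2, h3, h4⟩, -⟩ | ⟨-, h4, -⟩
  · rw [h4 l, keyS_of hl]
    exact key_on H hp h2 h3 hl h1
  · rw [h4 l]
    exact fac_zero_on H l t ω

theorem lst_bas (H : A.Ok G S0 δ) (hp : p.Ok Kn Yn) (hr : RfD δ rf) {ν : Nu} {t : ℕ} {ω : Om} {x : ℕ}
    (hx : x ∈ (lst p rf ph H hp hr ν).at' t ω) {l : ι} (hl : l ∈ S0.erase δ) :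
    xkey l x ∈ (bas p H (mem_of_mem_erase hl)).at' t ω := by
  rw [lst_at] at hx
  rcases code_spec H hp hx with ⟨-, ⟨j, c, q, h1, h2, h3, h4⟩, -⟩ | ⟨-, h4, -⟩
  · rw [h4 l, keyS_of hl]
    exact key_bas H h2 hl h1
  · rw [h4 l]
    exact zero_mem H (mem_of_mem_erase hl) t ω

theorem lst_inj (H : A.Ok G S0 δ) (hp : p.Ok Kn Yn) (hr : RfD δ rf) (ν : Nu) (t : ℕ) (ω : Om) :
    Set.InjOn xrn ((lst p rf ph H hp hr ν).at' t ω : Set ℕ) := by
  rw [lst_at]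
  exact xrn_inj ω ν t _

theorem lst_hash (H : A.Ok G S0 δ) (hp : p.Ok Kn Yn) (hr : RfD δ rf) {ν : Nu} {t : ℕ} {ω : Om} {x : ℕ}
    (hx : x ∈ (lst p rf ph H hp hr ν).at' t ω) (u : ι) : rhs (xrn x) u = ph (xref x u) := by
  rw [lst_at] at hx
  exact xrn_hash hx u

theorem lst_num (H : A.Ok G S0 δ) (hp : p.Ok Kn Yn) (hr : RfD δ rf) {ν : Nu} {t : ℕ} {ω : Om} {x : ℕ}
    (hx : x ∈ (lst p rf ph H hp hr ν).at' t ω) {m : ℕ} (h2 : 2 ≤ m) (hph : ∀ n, ph n ≤ m)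
    (hu : ucn G A S0 δ p ω (G.xi ω, G.x ω) ν (Ru.Dat.la (p.a Cl) t) p.N ≤ m)
    (he : epc G A S0 δ p ω (G.xi ω, G.x ω) ν (Ru.Dat.la (p.a Cl) t) ≤ m) :
    xrn x ≤ (m + 3) ^ (2 ^ (Fintype.card ι + 2)) := by
  rw [lst_at] at hx
  exact xrn_le hx h2 hph hu he

theorem lst_card (H : A.Ok G S0 δ) (hp : p.Ok Kn Yn) (hr : RfD δ rf) (ν : Nu) (t : ℕ) (ω : Om) :
    ((lst p rf ph H hp hr ν).at' t ω).card ≤ ucn G A S0 δ p ω (G.xi ω, G.x ω) ν (Ru.Dat.la (p.a Cl) t) p.N +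
      epc G A S0 δ p ω (G.xi ω, G.x ω) ν (Ru.Dat.la (p.a Cl) t) := by
  rw [lst_at]
  exact card_cset ω ν t _

/-- coefficient, function of the bounded number -/
def cofn (ea : ℝ) (n : ℕ) : ℝ := if rtag n = 2 then ea / 2 else if rtag n = 1 then -(ea / 2) else 0

theorem cof_eq (ea : ℝ) (x : ℕ) : cof ea x = cofn ea (xrn x) := rfl

theorem cofn_le {ea : ℝ} (h0 : 0 ≤ ea) (n : ℕ) : |cofn ea n| ≤ ea / 2 := by
  unfold cofn
  split_ifs
  · rw [abs_of_nonneg (by linarith)]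
  · rw [abs_neg, abs_of_nonneg (by linarith)]
  · rw [abs_zero]; linarith

/-- the references of the uses with nonzero coefficient -/
theorem lst_ref (H : A.Ok G S0 δ) (hp : p.Ok Kn Yn) (hr : RfD δ rf) {ν : Nu} {t : ℕ} {ω : Om} {x : ℕ}
    (hx : x ∈ (lst p rf ph H hp hr ν).at' t ω) (h0 : cofn p.ea (xrn x) ≠ 0) :
    ∃ t' ≤ t, ∃ s, A.al ν t' (G.gm t' ω) (G.xi ω) (G.x ω) s ∧ (A.v s t' (G.gm t' ω) (G.x ω) ≠ fun _ => 0) ∧
      ∀ u, xref x u = rf t' (G.gm t' ω) (G.x ω) s u := by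
  rw [lst_at] at hx
  rcases code_spec H hp hx with ⟨-, -, h1⟩ | ⟨h1, -, -⟩
  · exact h1
  · exfalso
    apply h0
    unfold cofn
    rw [h1, if_neg (by omega), if_neg (by omega)]

/-! ### the coin of the face of the client -/

section zfree

variable {Ξr : Type} {pz : Ξ → Ξr}

theorem same_z (H : A.Ok G S0 δ) (hp : p.Ok Kn Yn) (Z : Zfree pz A) (ω : Om) {ξ ξ' : Ξ} (hξ : pz ξ = pz ξ')
    (x : ι → Pt) (ν : Nu) (T : ℕ) :
    Ru.Same (xsq G A S0 δ p ω (ξ, x) ν) (xsq G A S0 δ p ω (ξ', x) ν) (nws G A S0 δ p ω (ξ, x) ν)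
      (nws G A S0 δ p ω (ξ', x) ν) (asq G A S0 δ p ω (ξ, x) ν) (asq G A S0 δ p ω (ξ', x) ν) T := by
  refine ⟨fun j _ => ?_, fun j _ => ?_, fun j _ => ?_⟩
  · exact congrFun ((twin_z (p := p) H Z ω hξ (x := x) (x' := x) fun _ _ => rfl).nod _) ν
  · exact congrFun (nws_z H hp Z ω hξ (x := x) (x' := x) (fun _ _ => rfl) ν) j
  · exact congrFun (A_z (p := p) H Z ω hξ (x := x) (x' := x) (fun _ _ => rfl) ν) j

theorem cset_z {key : Om → ℕ → Cl → ι → (ι → Pt) → ℕ} (H : A.Ok G S0 δ) (hp : p.Ok Kn Yn) (Z : Zfree pz A) (ω : Om)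
    {ξ ξ' : Ξ} (hξ : pz ξ = pz ξ') (x : ι → Pt) (ν : Nu) (t : ℕ) :
    cset G A S0 δ p rf ph key ω ν t (ξ, x) = cset G A S0 δ p rf ph key ω ν t (ξ', x) := by
  have key1 : ∀ ξ ξ' : Ξ, pz ξ = pz ξ' →
      cset G A S0 δ p rf ph key ω ν t (ξ, x) ⊆ cset G A S0 δ p rf ph key ω ν t (ξ', x) := by
    intro ξ ξ' hξ z hz
    have hS := same_z H hp Z ω hξ x ν (Ru.Dat.la (p.a Cl) t)
    rw [mem_cset] at hz ⊢
    rcases hz with ⟨i, k, q, h2, h3, h4, h5⟩ | ⟨i, h2, h3, h4⟩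
    · have h6 : tuO G A S0 δ p ω (ξ', x) ν i k = some q := by
        rw [← h4]
        exact (Ru.ust_same hS h2 k).symm
      refine Or.inl ⟨i, k, q, h2, h3, h6, ?_⟩
      rw [h5, ucode_eq h4, ucode_eq h6]
      have e2 : ucn G A S0 δ p ω (ξ, x) ν i k = ucn G A S0 δ p ω (ξ', x) ν i k := Ru.uct_same hS h2 k
      have e3 : epc G A S0 δ p ω (ξ, x) ν i = epc G A S0 δ p ω (ξ', x) ν i := Ru.epo_same hS h2
      have e4 : sgn G A S0 δ p ω (ξ, x) ν i k q = sgn G A S0 δ p ω (ξ', x) ν i k q := by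
        unfold sgn
        have e5 : mcs G A S0 δ p ω (ξ, x) ν i k = mcs G A S0 δ p ω (ξ', x) ν i k := Ru.mc_same hS h2 k
        rw [hS.x i h2, e5]
      have e7 : keyv G A S0 δ p key ω (ξ, x) ν q = keyv G A S0 δ p key ω (ξ', x) ν q := by
        funext l
        unfold keyv
        have e8 : cls G A S0 δ p ω (ξ, x) ν (Ru.arv (nws G A S0 δ p ω (ξ, x) ν) q) q =
            cls G A S0 δ p ω (ξ', x) ν (Ru.arv (nws G A S0 δ p ω (ξ, x) ν) q) q := by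
          have e : (fun c => Arr G A S0 δ p ω (ξ, x) ν (Ru.arv (nws G A S0 δ p ω (ξ, x) ν) q) c q) =
              fun c => Arr G A S0 δ p ω (ξ', x) ν (Ru.arv (nws G A S0 δ p ω (ξ, x) ν) q) c q := by
            funext c
            exact propext (arr_z H hp Z ω hξ (fun _ _ => rfl) ν _ c q)
          unfold cls
          rw [e]
        rw [← nws_z H hp Z ω hξ (x := x) (x' := x) (fun _ _ => rfl) ν, e8]
      rw [e2, e3, e4, e7]
    · refine Or.inr ⟨i, h2, (Ru.rsi_same hS h2).1 h3, ?_⟩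
      rw [h4]
      unfold mcode
      have e3 : epc G A S0 δ p ω (ξ, x) ν (i + 1) = epc G A S0 δ p ω (ξ', x) ν (i + 1) := Ru.epo_same hS h2
      rw [e3]
  exact Finset.Subset.antisymm (key1 ξ ξ' hξ) (key1 ξ' ξ hξ.symm)

/-- **the list does not see the coin which `pz` forgets** -/
theorem lst_free (H : A.Ok G S0 δ) (hp : p.Ok Kn Yn) (hr : RfD δ rf) (Z : Zfree pz A) (ν : Nu) (t : ℕ) (g : Γ)
    {ξ ξ' : Ξ} (hξ : pz ξ = pz ξ') (x : ι → Pt) :
    (lst p rf ph H hp hr ν).L t g ξ x = (lst p rf ph H hp hr ν).L t g ξ' x := by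
  show (range (t + 1)).biUnion (ctt G A S0 δ p rf ph (keyS G A S0 δ p) ν t g ξ x) =
    (range (t + 1)).biUnion (ctt G A S0 δ p rf ph (keyS G A S0 δ p) ν t g ξ' x)
  refine Finset.biUnion_congr rfl fun t' _ => ?_
  unfold ctt
  split_ifs with hx
  · exact cset_z H hp Z _ hξ x ν t'
  · rfl

end zfree

/-! ### the approximation -/

/-- **target minus error = sum over the uses of the current epoch** -/
theorem lst_appr (H : A.Ok G S0 δ) (hp : p.Ok Kn Yn) (hr : RfD δ rf) (ν : Nu) (t : ℕ) (ω : Om)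
    (Xf : ι → ℕ → ℝ) (Rf : Finset ι) (d : V)
    (href : ∀ s, ∀ t' ≤ t, A.al ν t' (G.gm t' ω) (G.xi ω) (G.x ω) s →
      (A.v s t' (G.gm t' ω) (G.x ω) ≠ fun _ => 0) →
      ∏ u ∈ Rf, Xf u (rf t' (G.gm t' ω) (G.x ω) s u) = A.v s t (G.gm t ω) (G.x ω) d) :
    ∑ x ∈ ((lst p rf ph H hp hr ν).at' t ω).filter (fun x => repo (xrn x) =
        (((lst p rf ph H hp hr ν).at' t ω).image xrn).sup repo),
        cofn p.ea (xrn x) * ((∏ l ∈ S0.erase δ, (fac p H l).at' (xkey l x) t ω d) *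
          ∏ u ∈ Rf, Xf u (xref x u)) =
      A.u ν t (G.gm t ω) (G.xi ω) (G.x ω) d - eact G A S0 δ p ω ν t d := by
  rw [lst_at, Finset.sup_image]
  exact appr_eq H hp ω ν t (G.xi ω, G.x ω) (fun l n => (fac p H l).at' n t ω d) Xf Rf d
    (fun j c q h1 h2 h3 => by
      rw [← key_prod H hp h1 h3 h2 d]
      exact Finset.prod_congr rfl fun l hl => by rw [keyS_of hl]) href

end

end Pool.Agent.GMN.RuS
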