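import Pool.Agent.GMN.RuleT
import Pool.Agent.GMN.TjDef

/-!
# GMN/RuleS (helper96): the rule of step C in the abstract geometry `Sys`

Instance of helper80's `Ru.Dat` (all individuals along a path of nodes) for every sample point `ω`: individuals
`Ξ × (ι → Pt)`, systems = classes of `TjDef`, runs `Ka Nu R I`.  `Er k t g ξ x` = the clipped, normalised error of the run
`k` at the end of the node `g` of time `t` (zero before the run has started), a function of (time, node, coins, vertices).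

* `Er_eq` : the value at a realised node; `Er_dep`, `Er_le`;
* `Er_pass` : **`Pass`**: (P1) letters, (P2) popular tests.
-/

set_option autoImplicit false
set_option linter.unusedSectionVars false

namespace Pool.Agent.GMN.RuS

open Finset Pool.Agent.PWZ Pool.Agent.M3 Pool.Agent.M3.TS Pool.Agent.GM Pool.Agent.GMN

noncomputable section

variable {ι Om Ξ Pt V Γ κ : Type} [Fintype ι] [DecidableEq ι] [Fintype Om] [Fintype Ξ] [Fintype Pt]
    [Fintype V] (G : Sys ι Om Ξ Pt V Γ κ)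

/-- the data of the rule: targets, multipliers, allowed references of the actual runs, classes -/
structure Inp (ι Ξ Pt V Γ R Nu Cl : Type) (I : ℕ) where
  u : Nu → FnX ι Ξ Pt V Γ
  v : R → Fn ι Pt V Γ
  al : Nu → ℕ → Γ → Ξ → (ι → Pt) → R → Prop
  cs : Cl → Cls ι Pt V Γ (Ru.Ka Nu R I)

variable {R Nu Cl : Type} {I : ℕ} [Fintype R] [LinearOrder R] [Fintype Nu] [Fintype Cl]
  (A : Inp ι Ξ Pt V Γ R Nu Cl I) (S0 : Finset ι) (δ : ι)

/-- places: exact values, cells -/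
abbrev Plc (ι Pt κ : Type) : Type := (ι → Option Pt) × (ι → Option κ)

/-- the place of an individual for the class `c` -/
def plc (t : ℕ) (c : Cl) (x : ι → Pt) : Plc ι Pt κ :=
  (fun i => if i ∈ (A.cs c).S then none else some (x i),
    fun i => if i ∈ ((A.cs c).S).erase δ then some (G.cl t (x i)) else none)

/-- the function of a class without the multiplier of the run -/
def cmf (c : Cl) (t : ℕ) (g : Γ) (x : ι → Pt) (d : V) : ℝ := ∏ i ∈ S0 \ (A.cs c).S, (A.cs c).m i t g x d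

/-- product tests of a class -/
def AdmF (c : Cl) (f : (ι → Pt) → V → ℝ) : Prop := ∃ u, PTest (A.cs c).S δ u ∧ f = tpr (A.cs c).S δ u

open Classical in
/-- the letters of a client -/
def lets (ea : ℝ) (ν : Nu) (τ : ℕ) (g : Γ) (x : ι → Pt) : List (Ru.Tst R V) :=
  ((univ.filter fun c : Cl => (A.cs c).S = {δ} ∧ (A.cs c).k.1 = ν).toList).map fun c =>
    ⟨(A.cs c).k.2.1, fun d => cmf A S0 c τ g x d, ea⟩

/-- **the data along the path of the sample point `ω`** -/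
def dat (ea : ℝ) (ω : Om) : Ru.Dat (Ξ × (ι → Pt)) Nu R V Cl (Plc ι Pt κ) I where
  nod t y ν := ⟨mn G t (G.gm t ω), A.u ν t (G.gm t ω) y.1 y.2, fun r => A.v r t (G.gm t ω) y.2⟩
  al t y ν := A.al ν t (G.gm t ω) y.1 y.2
  ext t y ν := lets A S0 δ ea ν t (G.gm t ω) y.2
  loc c t y := plc G A δ t c y.2
  adm t p := p.k = (A.cs p.sy).k ∧ ∃ f, AdmF A δ p.sy f ∧ ∀ y d, p.g y d = cmf A S0 p.sy t (G.gm t ω) y.2 d * f y.2 d

/-- the parameters -/
structure Prm where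
  m : ℕ
  N : ℕ
  Y : ℝ
  /-- accuracy -/
  ea : ℝ
  θ : ℝ

/-- helper80's parameters -/
def Prm.a (p : Prm) (Cl : Type) : Ru.Par Cl := ⟨2 * p.m + 2, p.N, p.Y, fun _ => p.ea, fun _ => p.θ⟩

variable (p : Prm)

/-- the data along the path -/
abbrev dt (ω : Om) : Ru.Dat (Ξ × (ι → Pt)) Nu R V Cl (Plc ι Pt κ) I := dat G A S0 δ p.ea ω

/-- state of the run `k` of the individual `y` at the end of the node of time `t` -/
def svt (ω : Om) (k : Ru.Ka Nu R I) (t : ℕ) (y : Ξ × (ι → Pt)) : Ru.St R V :=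
  (dt G A S0 δ p ω).sv (p.a Cl) ((dt G A S0 δ p ω).tau (p.a Cl)) y k (Ru.Dat.la (p.a Cl) t)

/-- the run has started at the end of the node -/
def stt (ω : Om) (k : Ru.Ka Nu R I) (t : ℕ) (y : Ξ × (ι → Pt)) : Prop :=
  (dt G A S0 δ p ω).sta (p.a Cl) ((dt G A S0 δ p ω).tau (p.a Cl)) y k (Ru.Dat.la (p.a Cl) t)

open Classical in
/-- the clipped normalised error at the end of the node -/
def evl (ω : Om) (k : Ru.Ka Nu R I) (t : ℕ) (y : Ξ × (ι → Pt)) (d : V) : ℝ :=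
  if stt G A S0 δ p ω k t y then
    clip p.Y (Ru.err ((dt G A S0 δ p ω).nod t y k.1) (svt G A S0 δ p ω k t y).H d) / p.Y else 0

open Classical in
/-- **THE RUNS** -/
def Er (k : Ru.Ka Nu R I) : FnX ι Ξ Pt V Γ := fun t g ξ x d =>
  if h : ∃ ω, G.gm t ω = g then evl G A S0 δ p (Classical.choose h) k t (ξ, x) d else 0

/-! ### hypotheses -/

/-- hypotheses on the data -/
structure Inp.Ok : Prop where
  u1 : ∀ ν t g ξ x d, |A.u ν t g ξ x d| ≤ 1
  udep : ∀ ν t g ξ, Dep (univ.erase δ) (A.u ν t g ξ)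
  u0 : ∀ ν g ξ x d, A.u ν 0 g ξ x d = 0
  /-- one start -/
  ust : ∀ ν t ω, val G (A.u ν) (t + 1) ω = val G (A.u ν) t ω ∨ val G (A.u ν) t ω = 0
  v : ∀ r, NF G δ (A.v r)
  aldep : ∀ ν t g ξ, Dep (univ.erase δ) (A.al ν t g ξ)
  cs : ∀ c, (A.cs c).Ok G S0 δ

/-- hypotheses on the parameters -/
structure Prm.Ok (Kn Yn : ℕ) (p : Prm) : Prop where
  Y0 : 0 < p.Y
  e0 : 0 < p.ea
  θ0 : 0 < p.θ
  N0 : 1 ≤ p.N
  N1 : 16 / p.ea ^ 2 < p.N + 1
  m1 : (Kn : ℝ) * (Yn * (16 / p.ea ^ 2)) < p.θ * p.m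

variable {G A S0 δ p}

theorem mn_mean (t : ℕ) (ω : Om) : IsMean (mn G t (G.gm t ω)) where
  add f g := by
    unfold mn
    rw [← Finset.sum_add_distrib]
    exact Finset.sum_congr rfl fun d _ => by ring
  smul c f := by
    unfold mn
    rw [Finset.mul_sum]
    exact Finset.sum_congr rfl fun d _ => by ring
  mono f g h := Finset.sum_le_sum fun d _ => mul_le_mul_of_nonneg_left (h d) ((G.wt t _).nn d)
  one := (Finset.sum_congr rfl fun d _ => mul_one _).trans (G.one t ω)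

theorem prod_abs_le {α : Type*} (s : Finset α) (f : α → ℝ) (h : ∀ i ∈ s, |f i| ≤ 1) : |∏ i ∈ s, f i| ≤ 1 := by
  rw [Finset.abs_prod]
  exact Finset.prod_le_one (fun i _ => abs_nonneg _) h

theorem cmf_le (H : A.Ok G S0 δ) (c : Cl) (t : ℕ) (g : Γ) (x : ι → Pt) (d : V) : |cmf A S0 c t g x d| ≤ 1 :=
  prod_abs_le _ _ fun i hi => ((H.cs c).nf i hi).bd _ _ _ _

theorem cmf_dep (H : A.Ok G S0 δ) (c : Cl) (t : ℕ) (g : Γ) : Dep (univ.erase δ) (cmf A S0 c t g) := by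
  intro x y h
  funext d
  exact Finset.prod_congr rfl fun i hi => congrFun (((H.cs c).nf i hi).dep t g x y h) d

theorem tpr_le {S : Finset ι} {w : ι} {u : ι → (ι → Pt) → V → ℝ} (hu : PTest S w u) (x : ι → Pt) (d : V) :
    |tpr S w u x d| ≤ 1 := prod_abs_le _ _ fun i _ => hu.bd i x d

theorem tpr_dep {S : Finset ι} {w : ι} {u : ι → (ι → Pt) → V → ℝ} (hu : PTest S w u) :
    Dep (univ.erase w) (tpr S w u) := by
  intro x y h
  funext d
  refine Finset.prod_congr rfl fun i hi => congrFun (hu.dep i hi x y fun j hj => h j ?_) d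
  exact mem_of_mem_erase hj

theorem plc_dep (H : A.Ok G S0 δ) (t : ℕ) (c : Cl) : Dep (univ.erase δ) (plc G A δ t c : (ι → Pt) → Plc ι Pt κ) := by
  intro x y h
  unfold plc
  refine Prod.ext ?_ ?_
  · funext i
    show (if i ∈ (A.cs c).S then none else some (x i)) = if i ∈ (A.cs c).S then none else some (y i)
    split_ifs with hi
    · rfl
    · rw [h i (mem_erase.2 ⟨fun e => hi (e ▸ (H.cs c).mem), mem_univ _⟩)]
  · funext i
    show (if i ∈ ((A.cs c).S).erase δ then some (G.cl t (x i)) else none) =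
      if i ∈ ((A.cs c).S).erase δ then some (G.cl t (y i)) else none
    split_ifs with hi
    · rw [h i (mem_erase.2 ⟨ne_of_mem_erase hi, mem_univ _⟩)]
    · rfl

theorem plc_eq {t : ℕ} {c : Cl} {x0 x : ι → Pt} : (plc G A δ t c x : Plc ι Pt κ) = plc G A δ t c x0 ↔
    (∀ i, i ∉ (A.cs c).S → x i = x0 i) ∧ ∀ i ∈ ((A.cs c).S).erase δ, G.cl t (x i) = G.cl t (x0 i) := by
  unfold plc
  rw [Prod.ext_iff, funext_iff, funext_iff]
  refine and_congr (forall_congr' fun i => ?_) (forall_congr' fun i => ?_)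
  · show ((if i ∈ (A.cs c).S then none else some (x i)) = if i ∈ (A.cs c).S then none else some (x0 i)) ↔ _
    split_ifs with hi
    · exact ⟨fun _ h => absurd hi h, fun _ => rfl⟩
    · rw [Option.some.injEq]
      exact ⟨fun h _ => h, fun h => h hi⟩
  · show ((if i ∈ ((A.cs c).S).erase δ then some (G.cl t (x i)) else none) =
      if i ∈ ((A.cs c).S).erase δ then some (G.cl t (x0 i)) else none) ↔ _
    split_ifs with hi
    · rw [Option.some.injEq]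
      exact ⟨fun h _ => h, fun h => h hi⟩
    · exact ⟨fun _ h => absurd h hi, fun _ => rfl⟩

theorem lets_mem {ea : ℝ} {ν : Nu} {τ : ℕ} {g : Γ} {x : ι → Pt} {q : Ru.Tst R V} :
    q ∈ lets A S0 δ ea ν τ g x ↔ ∃ c, (A.cs c).S = {δ} ∧ (A.cs c).k.1 = ν ∧
      q = ⟨(A.cs c).k.2.1, fun d => cmf A S0 c τ g x d, ea⟩ := by
  classical
  unfold lets
  rw [List.mem_map]
  constructor
  · rintro ⟨c, hc, rfl⟩
    rw [Finset.mem_toList, Finset.mem_filter] at hc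
    exact ⟨c, hc.2.1, hc.2.2, rfl⟩
  · rintro ⟨c, h1, h2, rfl⟩
    exact ⟨c, by rw [Finset.mem_toList, Finset.mem_filter]; exact ⟨mem_univ _, h1, h2⟩, rfl⟩

variable {Kn Yn : ℕ}

theorem datOk (H : A.Ok G S0 δ) (hp : p.Ok Kn Yn) (ω : Om) :
    Ru.DatOk (p.a Cl) (dt G A S0 δ p ω) p.ea p.θ where
  Y0 := hp.Y0.le
  es0 := hp.e0
  m t y ν := mn_mean t ω
  u t y ν d := H.u1 _ _ _ _ _ _
  v t y ν s d := (H.v s).bd _ _ _ _
  ext t y ν q hq := by
    obtain ⟨c, -, -, rfl⟩ := lets_mem.1 hq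
    exact ⟨le_rfl, fun d => cmf_le H c _ _ _ _⟩
  η _ := le_rfl
  bl0 := by
    show 0 < 2 * p.m + 2
    omega
  pos := hp.θ0
  θ _ := le_rfl
  N1 := hp.N0
  N := hp.N1

/-! ### adaptedness -/

theorem dt_agr {ω ω' : Om} {t : ℕ} (h : G.gm t ω = G.gm t ω') :
    Ru.Agr (dt G A S0 δ p ω) (dt G A S0 δ p ω') t where
  nod s hs := by
    funext y ν
    show (⟨mn G s (G.gm s ω), A.u ν s (G.gm s ω) y.1 y.2, fun r => A.v r s (G.gm s ω) y.2⟩ : Ru.Nd R V) =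
      ⟨mn G s (G.gm s ω'), A.u ν s (G.gm s ω') y.1 y.2, fun r => A.v r s (G.gm s ω') y.2⟩
    rw [G.gm_le hs h]
  al s hs := by
    funext y ν
    show A.al ν s (G.gm s ω) y.1 y.2 = A.al ν s (G.gm s ω') y.1 y.2
    rw [G.gm_le hs h]
  ext s hs := by
    funext y ν
    show lets A S0 δ p.ea ν s (G.gm s ω) y.2 = lets A S0 δ p.ea ν s (G.gm s ω') y.2
    rw [G.gm_le hs h]
  loc s _ σ := rfl
  adm s hs := by
    funext q
    show (q.k = (A.cs q.sy).k ∧ ∃ f, AdmF A δ q.sy f ∧ ∀ y d, q.g y d = cmf A S0 q.sy s (G.gm s ω) y.2 d * f y.2 d) =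
      (q.k = (A.cs q.sy).k ∧ ∃ f, AdmF A δ q.sy f ∧ ∀ y d, q.g y d = cmf A S0 q.sy s (G.gm s ω') y.2 d * f y.2 d)
    rw [G.gm_le hs h]

theorem la_div' (t : ℕ) : Ru.Dat.la (p.a Cl) t / (p.a Cl).bl = t := by
  show (t * (2 * p.m + 2) + ((2 * p.m + 2) - 1)) / (2 * p.m + 2) = t
  rw [mul_comm, Nat.mul_add_div (by omega), Nat.div_eq_of_lt (by omega), add_zero]

theorem svt_congr {ω ω' : Om} {t : ℕ} (h : G.gm t ω = G.gm t ω') (k : Ru.Ka Nu R I) (y : Ξ × (ι → Pt)) :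
    svt G A S0 δ p ω k t y = svt G A S0 δ p ω' k t y :=
  Ru.Dat.sv_tau (dt_agr h) (la_div' t).le y k _

theorem stt_congr {ω ω' : Om} {t : ℕ} (h : G.gm t ω = G.gm t ω') (k : Ru.Ka Nu R I) (y : Ξ × (ι → Pt)) :
    stt G A S0 δ p ω k t y ↔ stt G A S0 δ p ω' k t y :=
  Ru.Dat.sta_tau (dt_agr h) (la_div' t).le y k

theorem evl_congr {ω ω' : Om} {t : ℕ} (h : G.gm t ω = G.gm t ω') (k : Ru.Ka Nu R I) (y : Ξ × (ι → Pt)) :
    evl G A S0 δ p ω k t y = evl G A S0 δ p ω' k t y := by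
  funext d
  unfold evl
  rw [svt_congr h, (dt_agr (A := A) (S0 := S0) (δ := δ) (p := p) h).nod t le_rfl]
  by_cases h1 : stt G A S0 δ p ω k t y
  · rw [if_pos h1, if_pos ((stt_congr h k y).1 h1)]
  · rw [if_neg h1, if_neg fun h2 => h1 ((stt_congr h k y).2 h2)]

/-- the runs at realised nodes -/
theorem Er_eq (k : Ru.Ka Nu R I) (t : ℕ) (ω : Om) (ξ : Ξ) (x : ι → Pt) :
    Er G A S0 δ p k t (G.gm t ω) ξ x = evl G A S0 δ p ω k t (ξ, x) := by
  funext d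
  have h : ∃ ω', G.gm t ω' = G.gm t ω := ⟨ω, rfl⟩
  unfold Er
  rw [dif_pos h, evl_congr (Classical.choose_spec h) k (ξ, x)]

theorem evl_le (hp : p.Ok Kn Yn) (ω : Om) (k : Ru.Ka Nu R I) (t : ℕ) (y : Ξ × (ι → Pt)) (d : V) :
    |evl G A S0 δ p ω k t y d| ≤ 1 := by
  unfold evl
  split_ifs with h
  · rw [abs_div, abs_of_pos hp.Y0, div_le_one hp.Y0]
    exact abs_clip_le hp.Y0.le _
  · rw [abs_zero]
    exact zero_le_one

theorem Er_le (hp : p.Ok Kn Yn) (k : Ru.Ka Nu R I) (t : ℕ) (g : Γ) (ξ : Ξ) (x : ι → Pt) (d : V) :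
    |Er G A S0 δ p k t g ξ x d| ≤ 1 := by
  unfold Er
  split_ifs with h
  · exact evl_le hp _ _ _ _ _
  · rw [abs_zero]
    exact zero_le_one

/-! ### the vertex `δ` does not matter -/

/-- the tests of two individuals which agree off `δ` -/
theorem nw_same (H : A.Ok G S0 δ) (hp : p.Ok Kn Yn) (ω : Om) {ξ : Ξ} {x x' : ι → Pt}
    (h : ∀ i ∈ univ.erase δ, x i = x' i) (ν : Nu) (i : ℕ) :
    (dt G A S0 δ p ω).nw (p.a Cl) ((dt G A S0 δ p ω).tau (p.a Cl)) (ξ, x) ν i =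
      (dt G A S0 δ p ω).nw (p.a Cl) ((dt G A S0 δ p ω).tau (p.a Cl)) (ξ, x') ν i := by
  unfold Ru.Dat.nw
  split_ifs with h0
  · show lets A S0 δ p.ea ν _ _ x = lets A S0 δ p.ea ν _ _ x'
    unfold lets
    have h1 : ∀ c, cmf A S0 c (i / (p.a Cl).bl) (G.gm (i / (p.a Cl).bl) ω) x =
        cmf A S0 c (i / (p.a Cl).bl) (G.gm (i / (p.a Cl).bl) ω) x' := fun c => cmf_dep H c _ _ _ _ h
    simp only [h1]
  · unfold Ru.Dat.pnw
    cases hq : (dt G A S0 δ p ω).tau (p.a Cl) i with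
    | none => rfl
    | some q =>
      simp only
      obtain ⟨⟨-, f, ⟨u, hu, rfl⟩, hf⟩, -⟩ := Ru.Dat.tau_adm (datOk H hp ω) hq
      have h1 : q.g (ξ, x) = q.g (ξ, x') := by
        funext d
        rw [hf, hf]
        show cmf A S0 q.sy _ _ x d * tpr (A.cs q.sy).S δ u x d = cmf A S0 q.sy _ _ x' d * tpr (A.cs q.sy).S δ u x' d
        rw [cmf_dep H _ _ _ x x' h, tpr_dep hu x x' h]
      have h2 : (dt G A S0 δ p ω).loc q.sy (i / (p.a Cl).bl) (ξ, x) =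
          (dt G A S0 δ p ω).loc q.sy (i / (p.a Cl).bl) (ξ, x') := plc_dep H _ _ x x' h
      have h3 : Ru.Dat.tst (p.a Cl) q (ξ, x) = Ru.Dat.tst (p.a Cl) q (ξ, x') := by
        unfold Ru.Dat.tst
        rw [h1]
      rw [h2, h3]

theorem nod_same (H : A.Ok G S0 δ) (ω : Om) {ξ : Ξ} {x x' : ι → Pt} (h : ∀ i ∈ univ.erase δ, x i = x' i) (t : ℕ)
    (ν : Nu) : (dt G A S0 δ p ω).nod t (ξ, x) ν = (dt G A S0 δ p ω).nod t (ξ, x') ν := by
  show (⟨mn G t (G.gm t ω), A.u ν t (G.gm t ω) ξ x, fun r => A.v r t (G.gm t ω) x⟩ : Ru.Nd R V) =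
      ⟨mn G t (G.gm t ω), A.u ν t (G.gm t ω) ξ x', fun r => A.v r t (G.gm t ω) x'⟩
  rw [H.udep ν t _ _ x x' h, show (fun r => A.v r t (G.gm t ω) x) = fun r => A.v r t (G.gm t ω) x' from
    funext fun r => (H.v r).dep t _ x x' h]

theorem M_same (H : A.Ok G S0 δ) (hp : p.Ok Kn Yn) (ω : Om) {ξ : Ξ} {x x' : ι → Pt}
    (h : ∀ i ∈ univ.erase δ, x i = x' i) (ν : Nu) :
    (dt G A S0 δ p ω).M (p.a Cl) ((dt G A S0 δ p ω).tau (p.a Cl)) (ξ, x) ν =
      (dt G A S0 δ p ω).M (p.a Cl) ((dt G A S0 δ p ω).tau (p.a Cl)) (ξ, x') ν := by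
  unfold Ru.Dat.M
  rw [funext fun i => nod_same (p := p) H ω (ξ := ξ) h (i / (p.a Cl).bl) ν,
    funext fun i => nw_same H hp ω (ξ := ξ) h ν i]

theorem A_same (H : A.Ok G S0 δ) (ω : Om) {ξ : Ξ} {x x' : ι → Pt}
    (h : ∀ i ∈ univ.erase δ, x i = x' i) (ν : Nu) :
    (dt G A S0 δ p ω).A (p.a Cl) (ξ, x) ν = (dt G A S0 δ p ω).A (p.a Cl) (ξ, x') ν := by
  funext i
  exact H.aldep ν _ _ _ x x' h

theorem cE_same (H : A.Ok G S0 δ) (hp : p.Ok Kn Yn) (ω : Om) {ξ : Ξ} {x x' : ι → Pt}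
    (h : ∀ i ∈ univ.erase δ, x i = x' i) (ν : Nu) (s : R) (i : ℕ) :
    (dt G A S0 δ p ω).cE (p.a Cl) ((dt G A S0 δ p ω).tau (p.a Cl)) (ξ, x) ν s i =
      (dt G A S0 δ p ω).cE (p.a Cl) ((dt G A S0 δ p ω).tau (p.a Cl)) (ξ, x') ν s i := by
  unfold Ru.Dat.cE Ru.Dat.endA Ru.Dat.geA
  rw [M_same H hp ω h ν, A_same (p := p) H ω h ν]

theorem stt_same (H : A.Ok G S0 δ) (hp : p.Ok Kn Yn) (ω : Om) {ξ : Ξ} {x x' : ι → Pt}
    (h : ∀ i ∈ univ.erase δ, x i = x' i) (k : Ru.Ka Nu R I) (t : ℕ) :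
    stt G A S0 δ p ω k t (ξ, x) ↔ stt G A S0 δ p ω k t (ξ, x') := by
  unfold stt Ru.Dat.sta
  rw [cE_same H hp ω h]

theorem svt_same (H : A.Ok G S0 δ) (hp : p.Ok Kn Yn) (ω : Om) {ξ : Ξ} {x x' : ι → Pt}
    (h : ∀ i ∈ univ.erase δ, x i = x' i) (k : Ru.Ka Nu R I) (t : ℕ) :
    svt G A S0 δ p ω k t (ξ, x) = svt G A S0 δ p ω k t (ξ, x') := by
  have h1 : (dt G A S0 δ p ω).Av (p.a Cl) ((dt G A S0 δ p ω).tau (p.a Cl)) (ξ, x) k =
      (dt G A S0 δ p ω).Av (p.a Cl) ((dt G A S0 δ p ω).tau (p.a Cl)) (ξ, x') k := by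
    funext i r
    unfold Ru.Dat.Av Ru.Dat.sta
    rw [cE_same H hp ω h, A_same (p := p) H ω h]
  unfold svt Ru.Dat.sv
  rw [M_same H hp ω h, h1]

theorem evl_same (H : A.Ok G S0 δ) (hp : p.Ok Kn Yn) (ω : Om) {ξ : Ξ} {x x' : ι → Pt}
    (h : ∀ i ∈ univ.erase δ, x i = x' i) (k : Ru.Ka Nu R I) (t : ℕ) :
    evl G A S0 δ p ω k t (ξ, x) = evl G A S0 δ p ω k t (ξ, x') := by
  funext d
  unfold evl
  rw [svt_same H hp ω h, nod_same (p := p) H ω h]
  by_cases h1 : stt G A S0 δ p ω k t (ξ, x)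
  · rw [if_pos h1, if_pos ((stt_same H hp ω h k t).1 h1)]
  · rw [if_neg h1, if_neg fun h2 => h1 ((stt_same H hp ω h k t).2 h2)]

theorem Er_dep (H : A.Ok G S0 δ) (hp : p.Ok Kn Yn) (k : Ru.Ka Nu R I) (t : ℕ) (g : Γ) (ξ : Ξ) :
    Dep (univ.erase δ) (Er G A S0 δ p k t g ξ) := by
  intro x x' h
  funext d
  unfold Er
  split_ifs with hg
  · rw [evl_same H hp _ h]
  · rfl

/-! ### the tests -/

/-- sums over one vertex -/
theorem sum_fix (F : (ι → Pt) → ℝ) (hF : Dep (univ.erase δ) F) (a : Pt) :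
    ∑ x : ι → Pt, F x = Fintype.card Pt * ∑ x : ι → Pt, ind (x δ = a) * F x := by
  classical
  have h1 : (Fintype.card Pt : ℝ) * ∑ x : ι → Pt, ind (x δ = a) * F x =
      ∑ x : ι → Pt, ∑ b : Pt, ind (Function.update x δ b δ = a) * F (Function.update x δ b) := by
    have h2 : ∑ z : ι → Pt, ∑ b, ind (Function.update z δ b δ = a) * F (Function.update z δ b) =
        ∑ q : (ι → Pt) × Pt, ind (Function.update q.1 δ q.2 δ = a) * F (Function.update q.1 δ q.2) := by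
      rw [Fintype.sum_prod_type]
    have h3 : ∑ q : (ι → Pt) × Pt, ind (Function.update q.1 δ q.2 δ = a) * F (Function.update q.1 δ q.2) =
        ∑ q : (ι → Pt) × Pt, ind (q.1 δ = a) * F q.1 := by
      refine Finset.sum_bij' (fun q _ => (Function.update q.1 δ q.2, q.1 δ))
        (fun q _ => (Function.update q.1 δ q.2, q.1 δ)) (fun _ _ => mem_univ _) (fun _ _ => mem_univ _)
        (fun q _ => ?_) (fun q _ => ?_) (fun q _ => rfl)
      · simp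
      · simp
    rw [h2, h3, Fintype.sum_prod_type]
    simp only [Finset.sum_const, Finset.card_univ, nsmul_eq_mul]
    rw [Finset.mul_sum]
  rw [h1]
  refine Finset.sum_congr rfl fun x _ => ?_
  have h4 : ∀ b : Pt, ind (Function.update x δ b δ = a) * F (Function.update x δ b) = ind (b = a) * F x := by
    intro b
    rw [Function.update_self, hF.update (notMem_erase δ univ)]
  rw [Finset.sum_congr rfl fun b _ => h4 b, ← Finset.sum_mul]
  rw [Finset.sum_eq_single a (fun c _ h => ind_not h) (fun h => absurd (mem_univ _) h), ind_of rfl, one_mul]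

theorem evl_on {ω : Om} {k : Ru.Ka Nu R I} {t : ℕ} {y : Ξ × (ι → Pt)} (h : stt G A S0 δ p ω k t y) (d : V) :
    evl G A S0 δ p ω k t y d =
      clip p.Y (Ru.err ((dt G A S0 δ p ω).nod t y k.1) (svt G A S0 δ p ω k t y).H d) / p.Y := if_pos h

theorem evl_off {ω : Om} {k : Ru.Ka Nu R I} {t : ℕ} {y : Ξ × (ι → Pt)} (h : ¬ stt G A S0 δ p ω k t y) (d : V) :
    evl G A S0 δ p ω k t y d = 0 := if_neg h

/-- the value of a test is the mean of the normalised error -/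
theorem mn_evl (ω : Om) (k : Ru.Ka Nu R I) (t : ℕ) (y : Ξ × (ι → Pt)) (g : V → ℝ)
    (h : stt G A S0 δ p ω k t y) :
    mn G t (G.gm t ω) (fun d => evl G A S0 δ p ω k t y d * (A.v k.2.1 t (G.gm t ω) y.2 d * g d)) =
      Ru.val p.Y ((dt G A S0 δ p ω).nod t y k.1) (svt G A S0 δ p ω k t y).H ⟨k.2.1, g, p.ea⟩ / p.Y := by
  unfold Ru.val
  show _ = mn G t (G.gm t ω) (fun d => (g d * A.v k.2.1 t (G.gm t ω) y.2 d) *
    clip p.Y (Ru.err ((dt G A S0 δ p ω).nod t y k.1) (svt G A S0 δ p ω k t y).H d)) / p.Y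
  unfold mn
  rw [Finset.sum_div]
  refine Finset.sum_congr rfl fun d _ => ?_
  show G.ρ t (G.gm t ω) d * (evl G A S0 δ p ω k t y d * (A.v k.2.1 t (G.gm t ω) y.2 d * g d)) =
    G.ρ t (G.gm t ω) d * ((g d * A.v k.2.1 t (G.gm t ω) y.2 d) *
      clip p.Y (Ru.err ((dt G A S0 δ p ω).nod t y k.1) (svt G A S0 δ p ω k t y).H d)) / p.Y
  rw [evl_on h]
  ring

theorem mn_evl_zero (ω : Om) (k : Ru.Ka Nu R I) (t : ℕ) (y : Ξ × (ι → Pt)) (f : V → ℝ)
    (h : ¬ stt G A S0 δ p ω k t y) : mn G t (G.gm t ω) (fun d => evl G A S0 δ p ω k t y d * f d) = 0 := by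
  unfold mn
  refine Finset.sum_eq_zero fun d _ => ?_
  show G.ρ t (G.gm t ω) d * (evl G A S0 δ p ω k t y d * f d) = 0
  rw [evl_off h, zero_mul, mul_zero]

/-- **(P1)**: letters at all points -/
theorem P1 (H : A.Ok G S0 δ) (hp : p.Ok Kn Yn) (c : Cl) (hc : (A.cs c).S = {δ}) (t : ℕ) (ω : Om) :
    |mn G t (G.gm t ω) (fun d => val G (Er G A S0 δ p (A.cs c).k) t ω d *
      val0 G ((A.cs c).mu S0 fun k => A.v k.2.1) t ω d)| ≤ p.ea / p.Y := by
  have e1 : (fun d => val G (Er G A S0 δ p (A.cs c).k) t ω d * val0 G ((A.cs c).mu S0 fun k => A.v k.2.1) t ω d) =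
      fun d => evl G A S0 δ p ω (A.cs c).k t (G.xi ω, G.x ω) d *
        (A.v (A.cs c).k.2.1 t (G.gm t ω) (G.x ω) d * cmf A S0 c t (G.gm t ω) (G.x ω) d) := by
    funext d
    unfold val
    rw [Er_eq]
    rfl
  rw [e1]
  by_cases h : stt G A S0 δ p ω (A.cs c).k t (G.xi ω, G.x ω)
  · rw [mn_evl ω (A.cs c).k t (G.xi ω, G.x ω) (cmf A S0 c t (G.gm t ω) (G.x ω)) h, abs_div, abs_of_pos hp.Y0]
    refine div_le_div_of_nonneg_right ?_ hp.Y0.le
    have h1 := Ru.Dat.P1_ext (datOk (p := p) H hp ω) (G.xi ω, G.x ω) (A.cs c).k (i := Ru.Dat.la (p.a Cl) t) (t := t)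
      (la_div' t).ge (q := ⟨(A.cs c).k.2.1, fun d => cmf A S0 c t (G.gm t ω) (G.x ω) d, p.ea⟩)
      (lets_mem.2 ⟨c, hc, rfl, rfl⟩) rfl h
    rw [la_div'] at h1
    exact h1.le
  · rw [mn_evl_zero ω (A.cs c).k t (G.xi ω, G.x ω) _ h, abs_zero]
    exact div_nonneg hp.e0.le hp.Y0.le

/-- **(P2)**: popular tests -/
theorem P2 [Nonempty Pt] (H : A.Ok G S0 δ) (hp : p.Ok (Fintype.card (Ru.Ka Nu R I)) (Fintype.card (Ξ × (ι → Pt))))
    (c : Cl) : Rare G (A.cs c).S δ (fun t g ξ x d => Er G A S0 δ p (A.cs c).k t g ξ x d *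
      (A.cs c).mu S0 (fun k => A.v k.2.1) t g x d) p.θ (p.ea / p.Y) := by
  intro t _ ω x0 u hu
  set k := (A.cs c).k with hk
  set q : Ru.Pub (Ξ × (ι → Pt)) Nu R V Cl (Plc ι Pt κ) I :=
    ⟨c, k, plc G A δ t c x0, fun y d => cmf A S0 c t (G.gm t ω) y.2 d * tpr (A.cs c).S δ u y.2 d,
      fun y d => by
        rw [abs_mul]
        exact mul_le_one₀ (cmf_le H c _ _ _ _) (abs_nonneg _) (tpr_le hu _ _)⟩ with hq
  have h1 := Ru.Dat.P2 (datOk (p := p) H hp ω) (m := p.m) rfl hp.m1 t q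
    ⟨rfl, tpr (A.cs c).S δ u, ⟨u, hu, rfl⟩, fun _ _ => rfl⟩
  -- the value of the test
  have hval : ∀ (ξ : Ξ) (x : ι → Pt), p.ea / p.Y ≤ |mn G t (G.gm t ω) (fun d =>
      (Er G A S0 δ p k t (G.gm t ω) ξ x d * (A.cs c).mu S0 (fun k => A.v k.2.1) t (G.gm t ω) x d) *
        tpr (A.cs c).S δ u x d)| ↔
      (dt G A S0 δ p ω).hit (p.a Cl) ((dt G A S0 δ p ω).tau (p.a Cl)) (Ru.Dat.la (p.a Cl) t) q (ξ, x) := by
    intro ξ x
    have e1 : (fun d => (Er G A S0 δ p k t (G.gm t ω) ξ x d * (A.cs c).mu S0 (fun k => A.v k.2.1) t (G.gm t ω) x d) *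
        tpr (A.cs c).S δ u x d) = fun d => evl G A S0 δ p ω k t (ξ, x) d *
          (A.v k.2.1 t (G.gm t ω) x d * q.g (ξ, x) d) := by
      funext d
      rw [Er_eq]
      show (evl G A S0 δ p ω k t (ξ, x) d * (A.v k.2.1 t (G.gm t ω) x d * cmf A S0 c t (G.gm t ω) x d)) *
        tpr (A.cs c).S δ u x d = evl G A S0 δ p ω k t (ξ, x) d * (A.v k.2.1 t (G.gm t ω) x d *
          (cmf A S0 c t (G.gm t ω) x d * tpr (A.cs c).S δ u x d))
      ring
    rw [e1]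
    unfold Ru.Dat.hit
    rw [la_div']
    by_cases h : stt G A S0 δ p ω k t (ξ, x)
    · rw [mn_evl ω k t (ξ, x) (q.g (ξ, x)) h, abs_div, abs_of_pos hp.Y0, div_le_div_iff_of_pos_right hp.Y0]
      exact ⟨fun h2 => ⟨h, h2⟩, fun h2 => h2.2⟩
    · rw [mn_evl_zero ω k t (ξ, x) _ h, abs_zero]
      constructor
      · intro h2
        exact absurd (div_pos hp.e0 hp.Y0) (not_lt.2 h2)
      · intro h2
        exact absurd h2.1 h
  -- the box
  have hbox : ∀ x : ι → Pt, Box G t (A.cs c).S δ x0 x ↔ x δ = x0 δ ∧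
      (plc G A δ t c x : Plc ι Pt κ) = plc G A δ t c x0 := by
    intro x
    rw [plc_eq]
    have hm := (H.cs c).mem
    constructor
    · rintro ⟨h2, h3⟩
      exact ⟨h2 δ (notMem_erase _ _), fun i hi => h2 i fun h4 => hi (mem_of_mem_erase h4), h3⟩
    · rintro ⟨h2, h3, h4⟩
      refine ⟨fun i hi => ?_, h4⟩
      by_cases hid : i = δ
      · rw [hid, h2]
      · exact h3 i fun h5 => hi (mem_erase.2 ⟨hid, h5⟩)
  have hhd : ∀ ξ, Dep (univ.erase δ) (fun x : ι → Pt =>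
      (dt G A S0 δ p ω).hit (p.a Cl) ((dt G A S0 δ p ω).tau (p.a Cl)) (Ru.Dat.la (p.a Cl) t) q (ξ, x)) := by
    intro ξ x x' hx
    apply propext
    show (dt G A S0 δ p ω).hit (p.a Cl) ((dt G A S0 δ p ω).tau (p.a Cl)) (Ru.Dat.la (p.a Cl) t) q (ξ, x) ↔
      (dt G A S0 δ p ω).hit (p.a Cl) ((dt G A S0 δ p ω).tau (p.a Cl)) (Ru.Dat.la (p.a Cl) t) q (ξ, x')
    rw [← hval, ← hval]
    rw [Er_dep H hp k t _ ξ x x' hx, tpr_dep hu x x' hx]
    have h2 : (A.cs c).mu S0 (fun k => A.v k.2.1) t (G.gm t ω) x = (A.cs c).mu S0 (fun k => A.v k.2.1) t (G.gm t ω) x' := by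
      funext d
      show A.v k.2.1 t (G.gm t ω) x d * cmf A S0 c t (G.gm t ω) x d = A.v k.2.1 t (G.gm t ω) x' d *
        cmf A S0 c t (G.gm t ω) x' d
      rw [(H.v _).dep t _ x x' hx, cmf_dep H c t _ x x' hx]
    rw [h2]
  have hPt : (0 : ℝ) < Fintype.card Pt := by exact_mod_cast Fintype.card_pos
  have e2 : ∀ C : Ξ → (ι → Pt) → Prop, (∀ ξ, Dep (univ.erase δ) (C ξ)) →
      ∑ y : Ξ × (ι → Pt), ind ((plc G A δ t c y.2 : Plc ι Pt κ) = plc G A δ t c x0 ∧ C y.1 y.2) =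
      Fintype.card Pt * ∑ ξ : Ξ, ∑ x : ι → Pt, ind (Box G t (A.cs c).S δ x0 x ∧ C ξ x) := by
    intro C hC
    rw [Fintype.sum_prod_type, Finset.mul_sum]
    refine Finset.sum_congr rfl fun ξ _ => ?_
    rw [sum_fix (δ := δ) (fun x => ind ((plc G A δ t c x : Plc ι Pt κ) = plc G A δ t c x0 ∧ C ξ x))
      (fun x x' hx => by
        show ind ((plc G A δ t c x : Plc ι Pt κ) = plc G A δ t c x0 ∧ C ξ x) =
          ind ((plc G A δ t c x' : Plc ι Pt κ) = plc G A δ t c x0 ∧ C ξ x')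
        rw [show (plc G A δ t c x : Plc ι Pt κ) = plc G A δ t c x' from plc_dep H t c x x' hx, hC ξ x x' hx]) (x0 δ)]
    congr 1
    refine Finset.sum_congr rfl fun x _ => ?_
    rw [← ind_and, hbox x]
    congr 1
    apply propext
    tauto
  have e3 := e2 (fun ξ x => (dt G A S0 δ p ω).hit (p.a Cl) ((dt G A S0 δ p ω).tau (p.a Cl))
    (Ru.Dat.la (p.a Cl) t) q (ξ, x)) hhd
  have e4 := e2 (fun _ _ => True) fun _ _ _ _ => rfl
  simp only [and_true] at e4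
  have h2 : ∑ y : Ξ × (ι → Pt), ind ((plc G A δ t c y.2 : Plc ι Pt κ) = plc G A δ t c x0 ∧
      (dt G A S0 δ p ω).hit (p.a Cl) ((dt G A S0 δ p ω).tau (p.a Cl)) (Ru.Dat.la (p.a Cl) t) q (y.1, y.2)) ≤
      p.θ * ∑ y : Ξ × (ι → Pt), ind ((plc G A δ t c y.2 : Plc ι Pt κ) = plc G A δ t c x0) := h1
  rw [e3, e4] at h2
  have h3 : ∑ ξ : Ξ, ∑ x : ι → Pt, ind (Box G t (A.cs c).S δ x0 x ∧
      (dt G A S0 δ p ω).hit (p.a Cl) ((dt G A S0 δ p ω).tau (p.a Cl)) (Ru.Dat.la (p.a Cl) t) q (ξ, x)) ≤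
      p.θ * ∑ _ξ : Ξ, ∑ x : ι → Pt, ind (Box G t (A.cs c).S δ x0 x) := by
    refine le_of_mul_le_mul_left (h2.trans (le_of_eq ?_)) hPt
    ring
  refine le_trans (le_of_eq ?_) h3
  refine Finset.sum_congr rfl fun ξ _ => Finset.sum_congr rfl fun x _ => ?_
  congr 1
  apply propext
  exact and_congr_right fun _ => hval ξ x

/-- **the runs pass all tests** -/
theorem Er_pass [Nonempty Pt] (H : A.Ok G S0 δ)
    (hp : p.Ok (Fintype.card (Ru.Ka Nu R I)) (Fintype.card (Ξ × (ι → Pt)))) :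
    Pass G S0 δ (fun k => A.v k.2.1) A.cs p.θ (p.ea / p.Y) (Er G A S0 δ p) where
  P1 c hc t _ ω := P1 H hp c hc t ω
  P2 c _ := P2 H hp c

end

end Pool.Agent.GMN.RuS
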