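import Pool.Agent.GMN.RuleN

/-!
# GMN.RuleT (row N, 3.1, 3.2): the rule of step C for all individuals of a node path

Everything is deterministic: one path of nodes, FINITE population `Y` (all coins, all exact vertices but the hidden
one), numbers `Nu` of the clients, references `R`, runs `κ = (ν, s, i) : Ka`, systems `Sy`, places `C`.

* `Par` : block length `bl`, micro moments `N`, clip level `Yc`, accuracies `η`, thresholds `θ` of the systems;
* `Dat` : at the node `t`: individual `nod t y ν`, allowed references `al t y ν` (actual run), external tests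
  `ext t y ν` (class letters), place `loc σ t y`, admissible publications `adm t p`;
* `M τ y ν` machine of the client, `A` allowed sets of the actual run, `Av` of the virtual run `κ`: `s` is allowed
  from the end of the `i`-th stretch `ON and not allowed` of `s` in the actual run on (`cE` = number of ends);
* `tau` : the publications.

Results: `P1`, `P2`, `pubs` (count of the publications), `tau_eq`, `mic_eq'` (adapted to the nodes).
-/

set_option autoImplicit false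
set_option linter.unusedSectionVars false

namespace Pool.Agent.GMN.Ru

open Finset Pool.Agent.PWZ Pool.Agent.M3

noncomputable section

/-- the runs: client number, reference, index of the start -/
abbrev Ka (Nu R : Type*) (I : ℕ) := Nu × R × Fin (I + 1)

/-- a publication: system, run, place, test -/
structure Pub (Y Nu R V Sy C : Type*) (I : ℕ) where
  sy : Sy
  k : Ka Nu R I
  c : C
  g : Y → V → ℝ
  g1 : ∀ y d, |g y d| ≤ 1

/-- the parameters -/
structure Par (Sy : Type*) where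
  bl : ℕ
  N : ℕ
  Yc : ℝ
  η : Sy → ℝ
  θ : Sy → ℝ

/-- the data along a path of nodes -/
structure Dat (Y Nu R V Sy C : Type*) (I : ℕ) where
  nod : ℕ → Y → Nu → Nd R V
  al : ℕ → Y → Nu → R → Prop
  ext : ℕ → Y → Nu → List (Tst R V)
  loc : Sy → ℕ → Y → C
  adm : ℕ → Pub Y Nu R V Sy C I → Prop

variable {Y Nu R V Sy C : Type*} {I : ℕ} [Fintype Y] [Fintype R] [LinearOrder R]

namespace Dat

variable (a : Par Sy) (D : Dat Y Nu R V Sy C I) (τ : ℕ → Option (Pub Y Nu R V Sy C I))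

/-- the test of a publication -/
def tst (p : Pub Y Nu R V Sy C I) (y : Y) : Tst R V := ⟨p.k.2.1, p.g y, a.η p.sy⟩

open Classical in
/-- the test published at a time, if the individual sees it -/
def pnw (o : Option (Pub Y Nu R V Sy C I)) (t : ℕ) (y : Y) (ν : Nu) : List (Tst R V) :=
  match o with
  | some p => if p.k.1 = ν ∧ D.loc p.sy t y = p.c then [tst a p y] else []
  | none => []

/-- new tests of an individual -/
def nw (y : Y) (ν : Nu) (i : ℕ) : List (Tst R V) :=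
  if i % a.bl = 0 then D.ext (i / a.bl) y ν else D.pnw a (τ i) (i / a.bl) y ν

/-- the machine of an individual -/
def M (y : Y) (ν : Nu) : Mach R (St R V) := mach a.Yc (fun i => D.nod (i / a.bl) y ν) (D.nw a τ y ν)

/-- allowed, actual run -/
def A (y : Y) (ν : Nu) (i : ℕ) : R → Prop := D.al (i / a.bl) y ν

/-- ON and not allowed at the end of the time `i` -/
def geA (y : Y) (ν : Nu) (s : R) (i : ℕ) : Prop := (D.M a τ y ν).oa (D.A a y ν) a.N s i a.N

/-- a stretch of `s` ends at the time `t` -/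
def endA (y : Y) (ν : Nu) (s : R) (t : ℕ) : Prop :=
  ¬ D.geA a τ y ν s t ∧ ((∃ j, j + 1 = t ∧ D.geA a τ y ν s j) ∨ ∃ l ≤ a.N, (D.M a τ y ν).oa (D.A a y ν) a.N s t l)

open Classical in
/-- number of ends of stretches before the time `i` -/
def cE (y : Y) (ν : Nu) (s : R) (i : ℕ) : ℕ := ((range i).filter fun j => D.endA a τ y ν s j).card

/-- the virtual run has started -/
def sta (y : Y) (κ : Ka Nu R I) (i : ℕ) : Prop := (κ.2.2 : ℕ) ≤ D.cE a τ y κ.1 κ.2.1 i

/-- allowed, virtual run -/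
def Av (y : Y) (κ : Ka Nu R I) (i : ℕ) : R → Prop := fun r =>
  D.A a y κ.1 i r ∨ (r = κ.2.1 ∧ D.sta a τ y κ i)

/-- state of the virtual run at the end of the time `i` -/
def sv (y : Y) (κ : Ka Nu R I) (i : ℕ) : St R V := (D.M a τ y κ.1).mic (D.Av a τ y κ) a.N i a.N

/-- the individual is hit by `p` -/
def hit (i : ℕ) (p : Pub Y Nu R V Sy C I) (y : Y) : Prop :=
  D.sta a τ y p.k i ∧ a.η p.sy ≤ |val a.Yc (D.nod (i / a.bl) y p.k.1) (D.sv a τ y p.k i).H (tst a p y)|

/-- number of uses -/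
def us (κ : Ka Nu R I) (i : ℕ) (y : Y) : ℝ := cu (D.M a τ y κ.1) (D.Av a τ y κ) a.N i a.N

/-- the greedy problem -/
def gr : Gr Y (Pub Y Nu R V Sy C I) (Ka Nu R I) where
  bl := a.bl
  loc t p y := D.loc p.sy t y = p.c
  ka p := p.k
  θ p := a.θ p.sy
  adm := D.adm
  hit := D.hit a
  us := D.us a

/-- **the publications** -/
def tau : ℕ → Option (Pub Y Nu R V Sy C I) := (D.gr a).tau

end Dat

/-- the hypotheses -/
structure DatOk (a : Par Sy) (D : Dat Y Nu R V Sy C I) (es θ0 : ℝ) : Prop where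
  Y0 : 0 ≤ a.Yc
  es0 : 0 < es
  m : ∀ t y ν, IsMean (D.nod t y ν).m
  u : ∀ t y ν d, |(D.nod t y ν).u d| ≤ 1
  v : ∀ t y ν s d, |(D.nod t y ν).v s d| ≤ 1
  ext : ∀ t y ν, ∀ p ∈ D.ext t y ν, es ≤ p.e ∧ ∀ d, |p.g d| ≤ 1
  η : ∀ σ, es ≤ a.η σ
  bl0 : 0 < a.bl
  pos : 0 < θ0
  θ : ∀ σ, θ0 ≤ a.θ σ
  N1 : 1 ≤ a.N
  N : 16 / es ^ 2 < a.N + 1

/-- the data agree up to the node `T` -/
structure Agr (D D' : Dat Y Nu R V Sy C I) (T : ℕ) : Prop where
  nod : ∀ t ≤ T, D.nod t = D'.nod t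
  al : ∀ t ≤ T, D.al t = D'.al t
  ext : ∀ t ≤ T, D.ext t = D'.ext t
  loc : ∀ t ≤ T, ∀ σ, D.loc σ t = D'.loc σ t
  adm : ∀ t ≤ T, D.adm t = D'.adm t

theorem Agr.mono {D D' : Dat Y Nu R V Sy C I} {T t : ℕ} (h : Agr D D' T) (ht : t ≤ T) : Agr D D' t where
  nod s hs := h.nod s (hs.trans ht)
  al s hs := h.al s (hs.trans ht)
  ext s hs := h.ext s (hs.trans ht)
  loc s hs := h.loc s (hs.trans ht)
  adm s hs := h.adm s (hs.trans ht)

theorem Agr.refl (D : Dat Y Nu R V Sy C I) (T : ℕ) : Agr D D T :=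
  ⟨fun _ _ => rfl, fun _ _ => rfl, fun _ _ => rfl, fun _ _ _ => rfl, fun _ _ => rfl⟩

namespace Dat

variable {a : Par Sy} {D : Dat Y Nu R V Sy C I} {τ : ℕ → Option (Pub Y Nu R V Sy C I)} {es θ0 : ℝ}

theorem mem_pnw {o : Option (Pub Y Nu R V Sy C I)} {t : ℕ} {y : Y} {ν : Nu} {q : Tst R V} :
    q ∈ D.pnw a o t y ν ↔ ∃ p, o = some p ∧ p.k.1 = ν ∧ D.loc p.sy t y = p.c ∧ q = tst a p y := by
  classical
  unfold pnw
  cases o with
  | none => simp
  | some p =>
    simp only [Option.some.injEq]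
    split_ifs with h
    · rw [List.mem_singleton]
      constructor
      · intro hq
        exact ⟨p, rfl, h.1, h.2, hq⟩
      · rintro ⟨p', rfl, -, -, hq⟩
        exact hq
    · constructor
      · intro hq
        exact absurd hq (by simp)
      · rintro ⟨p', rfl, h1, h2, -⟩
        exact absurd ⟨h1, h2⟩ h

theorem indB (h : DatOk a D es θ0) (y : Y) (ν : Nu) :
    IndB a.Yc es (fun i => D.nod (i / a.bl) y ν) (D.nw a τ y ν) where
  Y0 := h.Y0
  es0 := h.es0
  m i := h.m _ _ _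
  u i d := h.u _ _ _ _
  v i s d := h.v _ _ _ _ _
  nw i q hq := by
    unfold nw at hq
    split_ifs at hq with hi
    · exact h.ext _ _ _ q hq
    · obtain ⟨p, -, -, -, rfl⟩ := mem_pnw.1 hq
      exact ⟨h.η _, p.g1 y⟩

theorem cE_mono (y : Y) (ν : Nu) (s : R) {i j : ℕ} (hij : i ≤ j) : D.cE a τ y ν s i ≤ D.cE a τ y ν s j := by
  classical
  unfold cE
  exact card_le_card (filter_subset_filter _ (Finset.range_mono hij))

theorem sta_mono {y : Y} {κ : Ka Nu R I} {i j : ℕ} (hij : i ≤ j) (h : D.sta a τ y κ i) : D.sta a τ y κ j :=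
  h.trans (cE_mono y _ _ hij)

/-- a run with index zero has started -/
theorem sta_zero (y : Y) (κ : Ka Nu R I) (h : (κ.2.2 : ℕ) = 0) (i : ℕ) : D.sta a τ y κ i := by
  unfold sta
  rw [h]
  exact Nat.zero_le _

/-! ### locality -/

section agr

variable {D' : Dat Y Nu R V Sy C I} {τ' : ℕ → Option (Pub Y Nu R V Sy C I)}

theorem nw_agr {i : ℕ} (hD : Agr D D' (i / a.bl)) (h : τ i = τ' i) (y : Y) (ν : Nu) :
    D.nw a τ y ν i = D'.nw a τ' y ν i := by
  have e : ∀ o : Option (Pub Y Nu R V Sy C I), D.pnw a o (i / a.bl) y ν = D'.pnw a o (i / a.bl) y ν := by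
    intro o
    unfold pnw
    cases o with
    | none => rfl
    | some p =>
      simp only
      rw [hD.loc _ le_rfl]
  unfold nw
  rw [h, hD.ext _ le_rfl, e]

theorem mic_agr {i : ℕ} (hD : Agr D D' (i / a.bl)) (h : ∀ j ≤ i, τ j = τ' j) (y : Y) (ν : Nu)
    {B B' : ℕ → R → Prop} (hB : ∀ j ≤ i, B j = B' j) (k : ℕ) :
    (D.M a τ y ν).mic B a.N i k = (D'.M a τ' y ν).mic B' a.N i k := by
  have hj : ∀ j ≤ i, j / a.bl ≤ i / a.bl := fun j hj => Nat.div_le_div_right hj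
  refine Mach.mic_congr (M := D.M a τ y ν) (M' := D'.M a τ' y ν) (N := a.N) i rfl (fun j hj' => ?_) (fun j hj' => ?_)
    (fun j _ => rfl) hB k
  · show evt a.Yc (D.nod (j / a.bl) y ν) (D.nw a τ y ν j) = evt a.Yc (D'.nod (j / a.bl) y ν) (D'.nw a τ' y ν j)
    rw [nw_agr (hD.mono (hj j hj')) (h j hj') y ν, hD.nod _ (hj j hj')]
  · show (fun s => use a.Yc (D.nod (j / a.bl) y ν) s) = fun s => use a.Yc (D'.nod (j / a.bl) y ν) s
    rw [hD.nod _ (hj j hj')]

theorem A_agr {i : ℕ} (hD : Agr D D' (i / a.bl)) (y : Y) (ν : Nu) {j : ℕ} (hj : j ≤ i) : D.A a y ν j = D'.A a y ν j := by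
  unfold A
  rw [hD.al _ (Nat.div_le_div_right hj)]

theorem oa_agr {i : ℕ} (hD : Agr D D' (i / a.bl)) (h : ∀ j ≤ i, τ j = τ' j) (y : Y) (ν : Nu) (s : R)
    (k : ℕ) : (D.M a τ y ν).oa (D.A a y ν) a.N s i k ↔ (D'.M a τ' y ν).oa (D'.A a y ν) a.N s i k := by
  unfold Mach.oa
  rw [mic_agr hD h y ν (fun j hj => A_agr hD y ν hj) k, A_agr hD y ν le_rfl]
  rfl

theorem endA_agr {i : ℕ} (hD : Agr D D' (i / a.bl)) (h : ∀ j ≤ i, τ j = τ' j) (y : Y) (ν : Nu) (s : R) :
    D.endA a τ y ν s i ↔ D'.endA a τ' y ν s i := by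
  have h1 : D.geA a τ y ν s i ↔ D'.geA a τ' y ν s i := oa_agr hD h y ν s _
  have h2 : (∃ j, j + 1 = i ∧ D.geA a τ y ν s j) ↔ ∃ j, j + 1 = i ∧ D'.geA a τ' y ν s j := by
    refine exists_congr fun j => and_congr_right fun hj => ?_
    exact oa_agr (hD.mono (Nat.div_le_div_right (by omega))) (fun j' hj' => h j' (by omega)) y ν s _
  have h3 : (∃ l ≤ a.N, (D.M a τ y ν).oa (D.A a y ν) a.N s i l) ↔
      ∃ l ≤ a.N, (D'.M a τ' y ν).oa (D'.A a y ν) a.N s i l :=
    exists_congr fun l => and_congr_right fun _ => oa_agr hD h y ν s l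
  unfold endA
  rw [h1, h2, h3]

theorem cE_agr {i : ℕ} (hD : Agr D D' (i / a.bl)) (h : ∀ j < i, τ j = τ' j) (y : Y) (ν : Nu) (s : R) :
    D.cE a τ y ν s i = D'.cE a τ' y ν s i := by
  classical
  unfold cE
  congr 1
  refine Finset.filter_congr fun j hj => ?_
  rw [Finset.mem_range] at hj
  exact endA_agr (hD.mono (Nat.div_le_div_right hj.le)) (fun j' hj' => h j' (by omega)) y ν s

theorem Av_agr {i : ℕ} (hD : Agr D D' (i / a.bl)) (h : ∀ j < i, τ j = τ' j) (y : Y) (κ : Ka Nu R I) :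
    D.Av a τ y κ i = D'.Av a τ' y κ i := by
  funext r
  unfold Av sta
  rw [cE_agr hD h, A_agr hD _ _ le_rfl]

theorem sv_agr {i : ℕ} (hD : Agr D D' (i / a.bl)) (h : ∀ j ≤ i, τ j = τ' j) (y : Y) (κ : Ka Nu R I) (k : ℕ) :
    (D.M a τ y κ.1).mic (D.Av a τ y κ) a.N i k = (D'.M a τ' y κ.1).mic (D'.Av a τ' y κ) a.N i k :=
  mic_agr hD h y κ.1 (fun j hj => Av_agr (hD.mono (Nat.div_le_div_right hj)) (fun j' hj' => h j' (by omega)) y κ) k

theorem us_agr {i : ℕ} (hD : Agr D D' (i / a.bl)) (h : ∀ j ≤ i, τ j = τ' j) (y : Y) (κ : Ka Nu R I) :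
    D.us a τ κ i y = D'.us a τ' κ i y := by
  unfold us cu
  refine Finset.sum_congr rfl fun l _ => ?_
  have e : (D.M a τ y κ.1).pk (D.Av a τ y κ) a.N i l = (D'.M a τ' y κ.1).pk (D'.Av a τ' y κ) a.N i l := by
    unfold Mach.pk
    rw [sv_agr hD h y κ l, Av_agr hD (fun j hj => h j hj.le) y κ]
    rfl
  rw [e]

theorem hit_agr {i : ℕ} (hD : Agr D D' (i / a.bl)) (h : ∀ j ≤ i, τ j = τ' j) :
    D.hit a τ i = D'.hit a τ' i := by
  funext p y
  unfold hit sta sv
  rw [cE_agr hD (fun j hj => h j hj.le), sv_agr hD h y p.k, hD.nod _ le_rfl]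

end agr

/-! ### idle times -/

theorem blk_pred {bl i : ℕ} (hbl : 0 < bl) (h : 0 < i % bl) : ∃ j, j + 1 = i ∧ j / bl = i / bl := by
  have h1 := Nat.div_add_mod i bl
  have h2 := Nat.mod_lt i hbl
  refine ⟨i - 1, by omega, ?_⟩
  have h3 : i - 1 = (i / bl) * bl + (i % bl - 1) := by
    rw [Nat.mul_comm]
    omega
  rw [h3, Gr.div_blk (by omega)]

theorem mod_succ {bl i : ℕ} (hbl : 0 < bl) (h : (i + 1) / bl = i / bl) : (i + 1) % bl ≠ 0 := by
  intro h0
  have h1 := Nat.div_add_mod (i + 1) bl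
  have h2 := Nat.div_add_mod i bl
  have h3 := Nat.mod_lt i hbl
  rw [h0, h] at h1
  omega

theorem nw_none {i : ℕ} (h0 : i % a.bl ≠ 0) (hn : τ i = none) (y : Y) (ν : Nu) : D.nw a τ y ν i = [] := by
  unfold nw pnw
  rw [if_neg h0, hn]

/-- an idle time in the actual run -/
theorem idle_A (h : DatOk a D es θ0) {i : ℕ} (hd : (i + 1) / a.bl = i / a.bl) (hn : τ (i + 1) = none) (y : Y) (ν : Nu)
    (k : ℕ) : (D.M a τ y ν).mic (D.A a y ν) a.N (i + 1) k = (D.M a τ y ν).mic (D.A a y ν) a.N i a.N :=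
  idle_st (indB h y ν) h.N (by simp only [hd]) (nw_none (mod_succ h.bl0 hd) hn y ν) (by unfold A; rw [hd]) k

theorem not_endA (h : DatOk a D es θ0) {i : ℕ} (hi : 0 < i % a.bl) (hn : τ i = none) (y : Y) (ν : Nu) (s : R) :
    ¬ D.endA a τ y ν s i := by
  obtain ⟨j, rfl, hj⟩ := blk_pred h.bl0 hi
  have h1 : ∀ k, (D.M a τ y ν).oa (D.A a y ν) a.N s (j + 1) k ↔ (D.M a τ y ν).oa (D.A a y ν) a.N s j a.N := by
    intro k
    unfold Mach.oa
    rw [idle_A h hj.symm hn y ν k]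
    have e : D.A a y ν (j + 1) = D.A a y ν j := by unfold A; rw [hj]
    rw [e]
    rfl
  rintro ⟨h2, h3⟩
  apply h2
  show (D.M a τ y ν).oa (D.A a y ν) a.N s (j + 1) a.N
  rw [h1]
  rcases h3 with ⟨j', hj', h3⟩ | ⟨l, -, h3⟩
  · have : j' = j := by omega
    rw [← this]
    exact h3
  · exact (h1 l).1 h3

theorem cE_succ (h : DatOk a D es θ0) {i : ℕ} (hi : 0 < i % a.bl) (hn : τ i = none) (y : Y) (ν : Nu) (s : R) :
    D.cE a τ y ν s (i + 1) = D.cE a τ y ν s i := by
  classical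
  unfold cE
  rw [Finset.range_add_one, Finset.filter_insert, if_neg (not_endA h hi hn y ν s)]

theorem Av_succ (h : DatOk a D es θ0) {i : ℕ} (hi : 0 < i % a.bl) (hd : (i + 1) / a.bl = i / a.bl) (hn : τ i = none)
    (y : Y) (κ : Ka Nu R I) : D.Av a τ y κ (i + 1) = D.Av a τ y κ i := by
  funext r
  unfold Av sta A
  rw [cE_succ h hi hn, hd]

theorem idle_V (h : DatOk a D es θ0) {i : ℕ} (hi : 0 < i % a.bl) (hd : (i + 1) / a.bl = i / a.bl) (hn : τ i = none)
    (hn' : τ (i + 1) = none) (y : Y) (κ : Ka Nu R I) (k : ℕ) :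
    (D.M a τ y κ.1).mic (D.Av a τ y κ) a.N (i + 1) k = (D.M a τ y κ.1).mic (D.Av a τ y κ) a.N i a.N :=
  idle_st (indB h y κ.1) h.N (by simp only [hd]) (nw_none (mod_succ h.bl0 hd) hn' y κ.1) (Av_succ h hi hd hn y κ) k

theorem grOk (h : DatOk a D es θ0) : GrOk (D.gr a) (16 / es ^ 2) θ0 where
  pos := h.pos
  θ p := h.θ _
  loc τ τ' i hτ := hit_agr (Agr.refl D _) hτ
  idle τ i hi hd hn hn' p y := by
    show D.hit a τ (i + 1) p y ↔ D.hit a τ i p y
    unfold hit sta sv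
    have hi' : 0 < i % a.bl := hi
    have hd' : (i + 1) / a.bl = i / a.bl := hd
    rw [cE_succ h hi' hn, hd', idle_V h hi' hd' hn hn' y p.k]
  inc τ i p y hd hp hl hh := by
    have hd' : (i + 1) / a.bl = i / a.bl := hd
    have hl' : D.loc p.sy (i / a.bl) y = p.c := hl
    refine pub_use (p := tst a p y) (indB h y p.k.1) (by simp only [hd']) ?_ hh.2
      (Or.inr ⟨rfl, sta_mono (Nat.le_succ i) hh.1⟩) h.N1
    unfold nw
    rw [if_neg (mod_succ h.bl0 hd')]
    exact mem_pnw.2 ⟨p, hp, rfl, by rw [hd']; exact hl', rfl⟩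
  us0 τ κ i y := cu_nonneg _ _ _
  usB τ κ t y := by
    have h1 := block_bd (A := D.Av a τ y κ) (N := a.N) (indB (τ := τ) h y κ.1) (t * a.bl) (a.bl - 1) (fun j hj => by
      show D.nod ((t * a.bl + (j + 1)) / a.bl) y κ.1 = D.nod (t * a.bl / a.bl) y κ.1
      rw [Gr.div_blk (by omega), Nat.mul_div_cancel _ h.bl0])
    exact h1

/-! ### results -/

/-- **(P1)** every test seen by the individual, of a reference allowed in the run, is below its accuracy -/
theorem P1 (h : DatOk a D es θ0) (y : Y) (κ : Ka Nu R I) (i : ℕ) {q : Tst R V}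
    (hq : q ∈ testsTo (D.nw a τ y κ.1) i) (hs : D.Av a τ y κ i q.s) :
    |val a.Yc (D.nod (i / a.bl) y κ.1) (D.sv a τ y κ i).H q| < q.e :=
  Ru.P1 (indB h y κ.1) h.N i hs hq rfl

/-- **(P1)** for the external tests and the reference of a started run -/
theorem P1_ext (h : DatOk a D es θ0) (y : Y) (κ : Ka Nu R I) {i t : ℕ} (ht : t ≤ i / a.bl) {q : Tst R V}
    (hq : q ∈ D.ext t y κ.1) (hs : q.s = κ.2.1) (hst : D.sta a τ y κ i) :
    |val a.Yc (D.nod (i / a.bl) y κ.1) (D.sv a τ y κ i).H q| < q.e := by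
  refine P1 h y κ i (mem_testsTo.2 ⟨t * a.bl, ?_, ?_⟩) (Or.inr ⟨hs, hst⟩)
  · have h1 := Nat.div_mul_le_self i a.bl
    exact (Nat.mul_le_mul_right _ ht).trans h1
  · unfold nw
    rw [if_pos (Nat.mul_mod_left _ _), Nat.mul_div_cancel _ h.bl0]
    exact hq

/-- the last time of a node -/
def la (a : Par Sy) (t : ℕ) : ℕ := t * a.bl + (a.bl - 1)

theorem la_div (h : DatOk a D es θ0) (t : ℕ) : la a t / a.bl = t := Gr.div_blk (by have := h.bl0; omega)

/-- **(P2)** at the end of a node at most the share `θ` of the individuals of every place is hit -/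
theorem P2 [Fintype Nu] (h : DatOk a D es θ0) {m : ℕ} (hbl : a.bl = 2 * m + 2)
    (hm : Fintype.card (Ka Nu R I) * (Fintype.card Y * (16 / es ^ 2)) < θ0 * m) (t : ℕ)
    (p : Pub Y Nu R V Sy C I) (hp : D.adm t p) :
    ∑ y, ind (D.loc p.sy t y = p.c ∧ D.hit a (D.tau a) (la a t) p y) ≤
      a.θ p.sy * ∑ y, ind (D.loc p.sy t y = p.c) := by
  have h1 := Gr.end_none (grOk h) hbl hm t p
  have hd := la_div h t
  by_contra hc
  rw [not_le] at hc
  apply h1
  have e : t * (D.gr a).bl + ((D.gr a).bl - 1) = la a t := rfl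
  rw [e]
  unfold Gr.cnd
  have e2 : la a t / (D.gr a).bl = t := hd
  rw [e2]
  refine ⟨hp, ?_, ?_⟩
  · show 0 < ∑ y, ind (D.loc p.sy t y = p.c)
    by_contra h2
    have h3 : ∑ y, ind (D.loc p.sy t y = p.c) = 0 :=
      le_antisymm (not_lt.1 h2) (Finset.sum_nonneg fun _ _ => ind_nonneg _)
    rw [h3, mul_zero] at hc
    have h4 : ∑ y, ind (D.loc p.sy t y = p.c ∧ D.hit a (D.tau a) (la a t) p y) ≤ ∑ y, ind (D.loc p.sy t y = p.c) :=
      Finset.sum_le_sum fun y _ => ind_mono fun hh => hh.1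
    linarith
  · unfold Gr.hz
    rw [e2]
    exact hc.le

/-- **count of publications** of one run and one place during a node -/
theorem pubs (h : DatOk a D es θ0) (t : ℕ) (σ : Sy) (κ : Ka Nu R I) (c : C) :
    a.θ σ * (∑ l ∈ range (a.bl - 1), ind (∃ p, D.tau a (t * a.bl + (l + 1)) = some p ∧ p.sy = σ ∧ p.k = κ ∧ p.c = c)) *
        ∑ y, ind (D.loc σ t y = c) ≤
      ∑ y, ind (D.loc σ t y = c) * ∑ l ∈ range (a.bl - 1), D.us a (D.tau a) κ (t * a.bl + (l + 1)) y := by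
  refine Gr.count (grOk h) t κ (fun y => D.loc σ t y = c) (a.θ σ) (fun p => p.sy = σ ∧ p.k = κ ∧ p.c = c) ?_
  rintro p ⟨rfl, rfl, rfl⟩
  exact ⟨rfl, rfl, fun y => Iff.rfl⟩

/-- **count of the publications seen by the individuals** during a node, with a weight `φ` of the places -/
theorem seen_w (h : DatOk a D es θ0) (t : ℕ) (σ : Sy) (κ : Ka Nu R I) (φ : C → ℝ) (hφ : ∀ c, 0 ≤ φ c) :
    a.θ σ * ∑ y, φ (D.loc σ t y) * ∑ l ∈ range (a.bl - 1),
        ind (∃ p, D.tau a (t * a.bl + (l + 1)) = some p ∧ p.sy = σ ∧ p.k = κ ∧ D.loc σ t y = p.c) ≤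
      ∑ y, φ (D.loc σ t y) * ∑ l ∈ range (a.bl - 1), D.us a (D.tau a) κ (t * a.bl + (l + 1)) y := by
  simp only [Finset.mul_sum]
  rw [Finset.sum_comm, Finset.sum_comm (s := univ) (t := range (a.bl - 1)) (f := fun y l =>
    φ (D.loc σ t y) * D.us a (D.tau a) κ (t * a.bl + (l + 1)) y)]
  refine Finset.sum_le_sum fun l hl => ?_
  rw [Finset.mem_range] at hl
  have h0 : ∀ y, 0 ≤ D.us a (D.tau a) κ (t * a.bl + (l + 1)) y := fun y => cu_nonneg _ _ _
  by_cases hp : ∃ p, D.tau a (t * a.bl + (l + 1)) = some p ∧ p.sy = σ ∧ p.k = κ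
  · obtain ⟨p, hp1, rfl, rfl⟩ := hp
    have h1 := Gr.hz_le (grOk h) (t := t) (l := l) (show l + 1 < a.bl by omega) hp1
    have e : ∀ y, a.θ p.sy * (φ (D.loc p.sy t y) * ind (∃ p', D.tau a (t * a.bl + (l + 1)) = some p' ∧
        p'.sy = p.sy ∧ p'.k = p.k ∧ D.loc p.sy t y = p'.c)) = φ p.c * (a.θ p.sy * ind (D.loc p.sy t y = p.c)) := by
      intro y
      by_cases hy : D.loc p.sy t y = p.c
      · rw [ind_of (show ∃ p', D.tau a (t * a.bl + (l + 1)) = some p' ∧ p'.sy = p.sy ∧ p'.k = p.k ∧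
          D.loc p.sy t y = p'.c from ⟨p, hp1, rfl, rfl, hy⟩), ind_of hy, hy]
        ring
      · rw [ind_not hy, ind_not]
        · ring
        · rintro ⟨p', h2, -, -, h3⟩
          rw [hp1] at h2
          have h4 : p = p' := Option.some.inj h2
          subst h4
          exact hy h3
    rw [Finset.sum_congr rfl fun y _ => e y, ← Finset.mul_sum, ← Finset.mul_sum]
    have h2 : a.θ p.sy * ∑ y, ind (D.loc p.sy t y = p.c) ≤
        ∑ y, ind (D.loc p.sy t y = p.c) * D.us a (D.tau a) p.k (t * a.bl + (l + 1)) y := h1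
    refine (mul_le_mul_of_nonneg_left h2 (hφ _)).trans ?_
    rw [Finset.mul_sum]
    refine Finset.sum_le_sum fun y _ => ?_
    by_cases hy : D.loc p.sy t y = p.c
    · rw [ind_of hy, one_mul, hy]
    · rw [ind_not hy, zero_mul, mul_zero]
      exact mul_nonneg (hφ _) (h0 y)
  · have e : ∀ y, a.θ σ * (φ (D.loc σ t y) * ind (∃ p, D.tau a (t * a.bl + (l + 1)) = some p ∧ p.sy = σ ∧ p.k = κ ∧
        D.loc σ t y = p.c)) = 0 := fun y => by
      rw [ind_not fun ⟨p, h1, h2, h3, _⟩ => hp ⟨p, h1, h2, h3⟩, mul_zero, mul_zero]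
    rw [Finset.sum_congr rfl fun y _ => e y, Finset.sum_const_zero]
    exact Finset.sum_nonneg fun y _ => mul_nonneg (hφ _) (h0 y)

/-- **count of the publications seen by the individuals** during a node -/
theorem seen (h : DatOk a D es θ0) (t : ℕ) (σ : Sy) (κ : Ka Nu R I) :
    a.θ σ * ∑ y, ∑ l ∈ range (a.bl - 1),
        ind (∃ p, D.tau a (t * a.bl + (l + 1)) = some p ∧ p.sy = σ ∧ p.k = κ ∧ D.loc σ t y = p.c) ≤
      ∑ y, ∑ l ∈ range (a.bl - 1), D.us a (D.tau a) κ (t * a.bl + (l + 1)) y := by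
  have h1 := seen_w h t σ κ (fun _ => 1) (fun _ => zero_le_one)
  simp only [one_mul] at h1
  exact h1

/-- after a time every allowed reference is OFF -/
theorem not_on (h : DatOk a D es θ0) (y : Y) (ν : Nu) (B : ℕ → R → Prop) (i : ℕ) {s : R} (hs : B i s) :
    ¬ ((D.M a τ y ν).mic B a.N i a.N).on s :=
  fun hh => Mach.pick_none.1 (pk_none (A := B) (N := a.N) (indB h y ν) i h.N) s hh hs

/-- a publication happens inside a node and is admissible -/
theorem tau_adm (h : DatOk a D es θ0) {i : ℕ} {p : Pub Y Nu R V Sy C I} (hp : D.tau a i = some p) :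
    D.adm (i / a.bl) p ∧ 0 < i % a.bl := by
  cases i with
  | zero => exact absurd hp (by rw [show D.tau a 0 = none from rfl]; simp)
  | succ i =>
    obtain ⟨h1, h2⟩ := Gr.tau_some (grOk h) hp
    have h3 : 2 ≤ (i + 1) % a.bl := h1.1
    have h4 : i / a.bl = (i + 1) / a.bl := by
      obtain ⟨j, hj, hd⟩ := blk_pred h.bl0 (i := i + 1) (by omega)
      have : j = i := by omega
      rw [← this, hd, this]
    have h5 : D.adm (i / a.bl) p := h2.1
    rw [h4] at h5
    exact ⟨h5, by omega⟩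

/-! ### adapted -/

/-- the publications up to the node `T` depend only on the data up to the node `T` -/
theorem tau_agr {D' : Dat Y Nu R V Sy C I} {T : ℕ} (hD : Agr D D' T) {i : ℕ} (hi : i / a.bl ≤ T) :
    D.tau a i = D'.tau a i := by
  have hlt : ∀ j, j ≤ i → j / a.bl ≤ T := fun j hj => (Nat.div_le_div_right hj).trans hi
  refine Gr.tau_congr (G := D.gr a) (G' := D'.gr a) (T := i) rfl rfl (fun j hj => ?_) (fun j hj => ?_)
    (fun τ j hj => ?_) le_rfl
  · funext p y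
    show (D.loc p.sy (j / a.bl) y = p.c) = (D'.loc p.sy (j / a.bl) y = p.c)
    rw [hD.loc _ (hlt j hj.le)]
  · show D.adm (j / a.bl) = D'.adm (j / a.bl)
    rw [hD.adm _ (hlt j hj.le)]
  · exact hit_agr (hD.mono (hlt j hj.le)) fun _ _ => rfl

/-- the states of the virtual runs up to the node `T` depend only on the data up to the node `T` -/
theorem sv_tau {D' : Dat Y Nu R V Sy C I} {T : ℕ} (hD : Agr D D' T) {i : ℕ} (hi : i / a.bl ≤ T)
    (y : Y) (κ : Ka Nu R I) (k : ℕ) :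
    (D.M a (D.tau a) y κ.1).mic (D.Av a (D.tau a) y κ) a.N i k =
      (D'.M a (D'.tau a) y κ.1).mic (D'.Av a (D'.tau a) y κ) a.N i k :=
  sv_agr (hD.mono hi) (fun _ hj => tau_agr hD ((Nat.div_le_div_right hj).trans hi)) y κ k

/-- starts -/
theorem sta_tau {D' : Dat Y Nu R V Sy C I} {T : ℕ} (hD : Agr D D' T) {i : ℕ} (hi : i / a.bl ≤ T)
    (y : Y) (κ : Ka Nu R I) : D.sta a (D.tau a) y κ i ↔ D'.sta a (D'.tau a) y κ i := by
  unfold sta
  rw [cE_agr (hD.mono hi) fun j hj => tau_agr hD ((Nat.div_le_div_right hj.le).trans hi)]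

/-- the actual runs -/
theorem act_tau {D' : Dat Y Nu R V Sy C I} {T : ℕ} (hD : Agr D D' T) {i : ℕ} (hi : i / a.bl ≤ T)
    (y : Y) (ν : Nu) (k : ℕ) :
    (D.M a (D.tau a) y ν).mic (D.A a y ν) a.N i k = (D'.M a (D'.tau a) y ν).mic (D'.A a y ν) a.N i k :=
  mic_agr (hD.mono hi) (fun _ hj => tau_agr hD ((Nat.div_le_div_right hj).trans hi)) y ν
    (fun _ hj => A_agr (hD.mono hi) y ν hj) k

/-- the events of the machine -/
theorem ev_tau {D' : Dat Y Nu R V Sy C I} {T : ℕ} (hD : Agr D D' T) {i : ℕ} (hi : i / a.bl ≤ T)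
    (y : Y) (ν : Nu) : (D.M a (D.tau a) y ν).ev i = (D'.M a (D'.tau a) y ν).ev i := by
  show evt a.Yc (D.nod (i / a.bl) y ν) (D.nw a (D.tau a) y ν i) =
    evt a.Yc (D'.nod (i / a.bl) y ν) (D'.nw a (D'.tau a) y ν i)
  rw [nw_agr (hD.mono hi) (tau_agr hD hi) y ν, hD.nod _ hi]

theorem us_tau {D' : Dat Y Nu R V Sy C I} {T : ℕ} (hD : Agr D D' T) {i : ℕ} (hi : i / a.bl ≤ T)
    (y : Y) (ν : Nu) : (D.M a (D.tau a) y ν).us i = (D'.M a (D'.tau a) y ν).us i := by
  show (fun s => use a.Yc (D.nod (i / a.bl) y ν) s) = fun s => use a.Yc (D'.nod (i / a.bl) y ν) s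
  rw [hD.nod _ hi]

/-! ### twins: two individuals which differ only in something invisible (the hidden vertex) -/

end Dat

/-- the individuals `y`, `y'` have the same data -/
structure Twin (D : Dat Y Nu R V Sy C I) (y y' : Y) : Prop where
  nod : ∀ t, D.nod t y = D.nod t y'
  al : ∀ t, D.al t y = D.al t y'
  ext : ∀ t, D.ext t y = D.ext t y'
  loc : ∀ σ t, D.loc σ t y = D.loc σ t y'
  adm : ∀ t p, D.adm t p → p.g y = p.g y'

namespace Dat

section twin

variable {a : Par Sy} {D : Dat Y Nu R V Sy C I} {τ : ℕ → Option (Pub Y Nu R V Sy C I)} {es θ0 : ℝ} {y y' : Y}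

theorem nw_twin (h : Twin D y y') (hτ : ∀ i p, τ i = some p → p.g y = p.g y') (ν : Nu) :
    D.nw a τ y ν = D.nw a τ y' ν := by
  funext i
  unfold nw
  rw [h.ext]
  congr 1
  unfold pnw
  cases hp : τ i with
  | none => rfl
  | some p =>
    simp only
    rw [h.loc]
    unfold tst
    rw [hτ i p hp]

theorem M_twin (h : Twin D y y') (hτ : ∀ i p, τ i = some p → p.g y = p.g y') (ν : Nu) :
    D.M a τ y ν = D.M a τ y' ν := by
  unfold M
  rw [nw_twin h hτ]
  simp only [h.nod]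

theorem A_twin (h : Twin D y y') (ν : Nu) : D.A a y ν = D.A a y' ν := by
  funext i
  unfold A
  rw [h.al]

theorem cE_twin (h : Twin D y y') (hτ : ∀ i p, τ i = some p → p.g y = p.g y') (ν : Nu) :
    D.cE a τ y ν = D.cE a τ y' ν := by
  funext s i
  unfold cE endA geA
  rw [M_twin h hτ, A_twin h]

theorem sta_twin (h : Twin D y y') (hτ : ∀ i p, τ i = some p → p.g y = p.g y') : D.sta a τ y = D.sta a τ y' := by
  funext κ i
  unfold sta
  rw [cE_twin h hτ]

theorem Av_twin (h : Twin D y y') (hτ : ∀ i p, τ i = some p → p.g y = p.g y') : D.Av a τ y = D.Av a τ y' := by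
  funext κ i r
  unfold Av
  rw [sta_twin h hτ, A_twin h]

theorem sv_twin (h : Twin D y y') (hτ : ∀ i p, τ i = some p → p.g y = p.g y') : D.sv a τ y = D.sv a τ y' := by
  funext κ i
  unfold sv
  rw [M_twin h hτ, Av_twin h hτ]

theorem us_twin (h : Twin D y y') (hτ : ∀ i p, τ i = some p → p.g y = p.g y') (κ : Ka Nu R I) (i : ℕ) :
    D.us a τ κ i y = D.us a τ κ i y' := by
  unfold us
  rw [M_twin h hτ, Av_twin h hτ]

/-- the greedy publications satisfy the hypothesis -/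
theorem tau_twin (h : Twin D y y') (hD : DatOk a D es θ0) :
    ∀ i p, D.tau a i = some p → p.g y = p.g y' := fun i p hp => h.adm _ p (tau_adm hD hp).1

end twin

end Dat

end

end Pool.Agent.GMN.Ru
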