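import Pool.Agent.M3.FPMart

/-!
# GMN.Run (row N, NM.4): the greedy run of one individual, abstract machine

`Mach R S`: at time `i` the environment acts by `ev i`, then, as long as some ALLOWED reference is ON, the first such
reference is used (`us i`), at most `N` times.  `mic M A N i k` = state at time `i` after `k` uses (micro moment
`(i,k)`, `k ≤ N`); `pick` = the reference used at a micro moment.  `Crit s i k`: `s` is ON, not allowed, and precedes
the reference used at `(i,k)`, or nothing is used there.  Separation lemma `mic_eq`: two runs whose allowed sets differ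
only in `s` can separate only at a critical moment of `s` at which the larger run allows `s`; `used_of_crit`: if there
is such a moment, the larger run uses `s`.
-/

set_option autoImplicit false
set_option linter.unusedSectionVars false

namespace Pool.Agent.GMN

open Finset Pool.Agent.PWZ Pool.Agent.M3

noncomputable section

/-- the machine of an individual: environment, uses, status -/
structure Mach (R S : Type*) where
  z : S
  ev : ℕ → S → S
  us : ℕ → R → S → S
  on : ℕ → S → R → Prop

variable {R S : Type*} [Fintype R] [LinearOrder R]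

namespace Mach

variable (M : Mach R S)

open Classical in
/-- the first allowed reference which is ON -/
def pick (i : ℕ) (A : R → Prop) (x : S) : Option R :=
  if h : (univ.filter fun s => M.on i x s ∧ A s).Nonempty then some ((univ.filter fun s => M.on i x s ∧ A s).min' h)
  else none

variable {M}

theorem pick_some {i : ℕ} {A : R → Prop} {x : S} {r : R} :
    M.pick i A x = some r ↔ (M.on i x r ∧ A r) ∧ ∀ s, M.on i x s → A s → r ≤ s := by
  classical
  unfold pick
  constructor
  · intro h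
    split_ifs at h with hne
    have e : (univ.filter fun s => M.on i x s ∧ A s).min' hne = r := Option.some.inj h
    have h1 := Finset.min'_mem _ hne
    rw [e, mem_filter] at h1
    refine ⟨h1.2, fun s hs hA => ?_⟩
    rw [← e]
    exact Finset.min'_le _ _ (by rw [mem_filter]; exact ⟨mem_univ _, hs, hA⟩)
  · rintro ⟨h1, h2⟩
    have hne : (univ.filter fun s => M.on i x s ∧ A s).Nonempty := ⟨r, by rw [mem_filter]; exact ⟨mem_univ _, h1⟩⟩
    rw [dif_pos hne]
    congr 1
    apply le_antisymm
    · exact Finset.min'_le _ _ (by rw [mem_filter]; exact ⟨mem_univ _, h1⟩)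
    · have h3 := Finset.min'_mem _ hne
      rw [mem_filter] at h3
      exact h2 _ h3.2.1 h3.2.2

theorem pick_none {i : ℕ} {A : R → Prop} {x : S} : M.pick i A x = none ↔ ∀ s, M.on i x s → ¬ A s := by
  classical
  unfold pick
  constructor
  · intro h
    split_ifs at h with hne
    intro s hs hA
    exact hne ⟨s, by rw [mem_filter]; exact ⟨mem_univ _, hs, hA⟩⟩
  · intro h
    rw [dif_neg]
    rintro ⟨s, hs⟩
    rw [mem_filter] at hs
    exact h s hs.2.1 hs.2.2

variable (M)

/-- one use -/
def step (i : ℕ) (A : R → Prop) (x : S) : S :=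
  match M.pick i A x with
  | some s => M.us i s x
  | none => x

/-- state at the end of time `i` -/
def st (A : ℕ → R → Prop) (N : ℕ) : ℕ → S
  | 0 => (M.step 0 (A 0))^[N] (M.ev 0 M.z)
  | i + 1 => (M.step (i + 1) (A (i + 1)))^[N] (M.ev (i + 1) (st A N i))

/-- state before the time `i` -/
def pre (A : ℕ → R → Prop) (N : ℕ) : ℕ → S
  | 0 => M.z
  | i + 1 => M.st A N i

/-- state at time `i` after `k` uses -/
def mic (A : ℕ → R → Prop) (N i k : ℕ) : S := (M.step i (A i))^[k] (M.ev i (M.pre A N i))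

theorem st_eq (A : ℕ → R → Prop) (N i : ℕ) : M.st A N i = M.mic A N i N := by
  cases i <;> rfl

theorem mic_zero (A : ℕ → R → Prop) (N i : ℕ) : M.mic A N i 0 = M.ev i (M.pre A N i) := rfl

theorem mic_zero_succ (A : ℕ → R → Prop) (N i : ℕ) : M.mic A N (i + 1) 0 = M.ev (i + 1) (M.mic A N i N) := by
  rw [← M.st_eq]; rfl

theorem mic_succ (A : ℕ → R → Prop) (N i k : ℕ) : M.mic A N i (k + 1) = M.step i (A i) (M.mic A N i k) := by
  unfold mic
  rw [Function.iterate_succ_apply']

/-- the reference used at the micro moment `(i,k)` -/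
def pk (A : ℕ → R → Prop) (N i k : ℕ) : Option R := M.pick i (A i) (M.mic A N i k)

theorem mic_of_pk_some {A : ℕ → R → Prop} {N i k : ℕ} {s : R} (h : M.pk A N i k = some s) :
    M.mic A N i (k + 1) = M.us i s (M.mic A N i k) := by
  rw [mic_succ]; unfold step; unfold pk at h; rw [h]

theorem mic_of_pk_none {A : ℕ → R → Prop} {N i k : ℕ} (h : M.pk A N i k = none) :
    M.mic A N i (k + 1) = M.mic A N i k := by
  rw [mic_succ]; unfold step; unfold pk at h; rw [h]

/-- after an idle moment the state is constant -/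
theorem mic_idle {A : ℕ → R → Prop} {N i k : ℕ} (h : M.pk A N i k = none) {l : ℕ} (hl : k ≤ l) :
    M.mic A N i l = M.mic A N i k ∧ M.pk A N i l = none := by
  induction l, hl using Nat.le_induction with
  | base => exact ⟨rfl, h⟩
  | succ l _ ih =>
    have e := M.mic_of_pk_none ih.2
    refine ⟨e.trans ih.1, ?_⟩
    have := ih.2
    unfold pk at this ⊢
    rw [e]; exact this

/-- `s` is ON and not allowed at `(i,k)` -/
def oa (A : ℕ → R → Prop) (N : ℕ) (s : R) (i k : ℕ) : Prop := M.on i (M.mic A N i k) s ∧ ¬ A i s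

/-- `(i,k)` is critical for `s` -/
def Crit (A : ℕ → R → Prop) (N : ℕ) (s : R) (i k : ℕ) : Prop :=
  M.on i (M.mic A N i k) s ∧ ¬ A i s ∧ ∀ r, M.pk A N i k = some r → s < r

/-- `s` is used -/
def Used (A : ℕ → R → Prop) (N T : ℕ) (s : R) : Prop := ∃ i ≤ T, ∃ k < N, M.pk A N i k = some s

variable {M}

theorem Crit.oa {A : ℕ → R → Prop} {N : ℕ} {s : R} {i k : ℕ} (h : M.Crit A N s i k) : M.oa A N s i k := ⟨h.1, h.2.1⟩

/-- an idle moment at which `s` is ON and not allowed is critical -/
theorem crit_of_idle {A : ℕ → R → Prop} {N : ℕ} {s : R} {i k : ℕ} (h : M.oa A N s i k) (hp : M.pk A N i k = none) :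
    M.Crit A N s i k := ⟨h.1, h.2, fun r hr => by rw [hp] at hr; exact absurd hr (by simp)⟩

/-- the choice does not change -/
theorem pick_eq {i : ℕ} {A A' : R → Prop} {x : S} {s : R} (h1 : ∀ r, A r → A' r) (h2 : ∀ r, r ≠ s → A' r → A r)
    (h : ¬ (M.on i x s ∧ ¬ A s ∧ (∀ r, M.pick i A x = some r → s < r) ∧ A' s)) :
    M.pick i A' x = M.pick i A x := by
  classical
  cases hp : M.pick i A x with
  | none =>
    rw [pick_none] at hp ⊢
    intro r hr hA
    rcases eq_or_ne r s with e | e
    · subst e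
      refine h ⟨hr, hp r hr, fun q hq => ?_, hA⟩
      have := pick_none.2 hp
      rw [this] at hq
      exact absurd hq (by simp)
    · exact hp r hr (h2 r e hA)
  | some r =>
    have hq := pick_some.1 hp
    rw [pick_some]
    refine ⟨⟨hq.1.1, h1 r hq.1.2⟩, fun q hqo hqA => ?_⟩
    rcases eq_or_ne q s with e | e
    · subst e
      by_cases hA : A q
      · exact hq.2 q hqo hA
      · by_contra hlt
        refine h ⟨hqo, hA, fun r' hr' => ?_, hqA⟩
        rw [hp] at hr'
        rw [← Option.some.inj hr']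
        exact not_le.1 hlt
    · exact hq.2 q hqo (h2 q e hqA)

/-- SEPARATION LEMMA: two runs, the second allows `s` at more times -/
theorem mic_eq {A A' : ℕ → R → Prop} {N : ℕ} {s : R} (h1 : ∀ i r, A i r → A' i r)
    (h2 : ∀ i r, r ≠ s → A' i r → A i r) (i : ℕ) :
    ∀ k ≤ N, (∀ j l, (j < i ∧ l < N) ∨ (j = i ∧ l < k) → ¬ (M.Crit A N s j l ∧ A' j s)) →
      M.mic A' N i k = M.mic A N i k := by
  have hstep : ∀ i k, M.mic A' N i k = M.mic A N i k → ¬ (M.Crit A N s i k ∧ A' i s) →
      M.mic A' N i (k + 1) = M.mic A N i (k + 1) := by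
    intro i k he hc
    rw [mic_succ, mic_succ, he]
    unfold step
    have : M.pick i (A' i) (M.mic A N i k) = M.pick i (A i) (M.mic A N i k) :=
      pick_eq (h1 i) (h2 i) fun hh => hc ⟨⟨hh.1, hh.2.1, hh.2.2.1⟩, hh.2.2.2⟩
    rw [this]
  have hin : ∀ i, M.mic A' N i 0 = M.mic A N i 0 →
      ∀ k, (∀ l < k, ¬ (M.Crit A N s i l ∧ A' i s)) → M.mic A' N i k = M.mic A N i k := by
    intro i h0 k
    induction k with
    | zero => intro _; exact h0
    | succ k ih => exact fun h => hstep i k (ih fun l hl => h l (by omega)) (h k (by omega))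
  induction i with
  | zero =>
    intro k _ h
    exact hin 0 rfl k fun l hl => h 0 l (Or.inr ⟨rfl, hl⟩)
  | succ i ih =>
    intro k _ h
    refine hin (i + 1) ?_ k fun l hl => h (i + 1) l (Or.inr ⟨rfl, hl⟩)
    rw [mic_zero_succ, mic_zero_succ]
    congr 1
    refine ih N le_rfl fun j l hjl => h j l (Or.inl ?_)
    rcases hjl with ⟨a, b⟩ | ⟨a, b⟩
    · exact ⟨by omega, b⟩
    · exact ⟨by omega, b⟩

/-- if the smaller run has a critical moment of `s` at which the larger run allows `s`, the larger run uses `s` -/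
theorem used_of_crit {A A' : ℕ → R → Prop} {N T : ℕ} {s : R} (h1 : ∀ i r, A i r → A' i r)
    (h2 : ∀ i r, r ≠ s → A' i r → A i r) (hT : ∀ i ≤ T, M.pk A' N i N = none) {i k : ℕ} (hi : i ≤ T) (hk : k ≤ N)
    (hc : M.Crit A N s i k) (hA : A' i s) : ∃ j ≤ i, ∃ l < N, M.pk A' N j l = some s := by
  classical
  -- the first such moment
  have hex : ∃ j, ∃ l ≤ N, M.Crit A N s j l ∧ A' j s := ⟨i, k, hk, hc, hA⟩
  set j := Nat.find hex with hj
  have hj1 : ∃ l ≤ N, M.Crit A N s j l ∧ A' j s := Nat.find_spec hex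
  have hj2 : ∀ j' < j, ∀ l ≤ N, ¬ (M.Crit A N s j' l ∧ A' j' s) := fun j' hj' l hl hh =>
    Nat.find_min hex hj' ⟨l, hl, hh⟩
  have hji : j ≤ i := Nat.find_min' hex ⟨k, hk, hc, hA⟩
  set l := Nat.find hj1 with hl
  have hl1 : l ≤ N ∧ M.Crit A N s j l ∧ A' j s := Nat.find_spec hj1
  have hl2 : ∀ l' < l, ¬ (M.Crit A N s j l' ∧ A' j s) := fun l' hl' hh =>
    Nat.find_min hj1 hl' ⟨by omega, hh⟩
  have heq : M.mic A' N j l = M.mic A N j l := by
    refine mic_eq h1 h2 j l hl1.1 fun j' l' h => ?_
    rcases h with ⟨a, b⟩ | ⟨a, b⟩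
    · exact hj2 j' a l' b.le
    · subst a; exact hl2 l' b
  have hp : M.pk A' N j l = some s := by
    unfold pk
    rw [heq, pick_some]
    obtain ⟨c1, c2, c3⟩ := hl1.2.1
    refine ⟨⟨c1, hl1.2.2⟩, fun r hr hAr => ?_⟩
    rcases eq_or_ne r s with e | e
    · exact e.ge
    · have hAr' := h2 j r e hAr
      cases hq : M.pk A N j l with
      | none =>
        unfold pk at hq
        exact absurd hAr' (pick_none.1 hq r hr)
      | some q =>
        have h3 := c3 q hq
        unfold pk at hq
        exact h3.le.trans ((pick_some.1 hq).2 r hr hAr')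
  refine ⟨j, hji, l, ?_, hp⟩
  rcases Nat.lt_or_ge l N with h | h
  · exact h
  · exfalso
    have e : l = N := le_antisymm hl1.1 h
    rw [e, hT j (hji.trans hi)] at hp
    exact absurd hp (by simp)

/-- the state depends only on the past -/
theorem mic_congr {M' : Mach R S} {A A' : ℕ → R → Prop} {N : ℕ} (i : ℕ) (hz : M.z = M'.z)
    (h1 : ∀ j ≤ i, M.ev j = M'.ev j) (h2 : ∀ j ≤ i, M.us j = M'.us j) (h3 : ∀ j ≤ i, M.on j = M'.on j)
    (h4 : ∀ j ≤ i, A j = A' j) (k : ℕ) : M.mic A N i k = M'.mic A' N i k := by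
  have hs : ∀ j ≤ i, M.step j (A j) = M'.step j (A' j) := by
    intro j hj
    funext x
    unfold step
    have hp : M.pick j (A j) x = M'.pick j (A' j) x := by
      unfold pick
      rw [h3 j hj, h4 j hj]
    rw [hp, h2 j hj]
  have hst : ∀ j ≤ i, M.pre A N j = M'.pre A' N j ∧ M.st A N j = M'.st A' N j := by
    intro j
    induction j with
    | zero =>
      intro _
      refine ⟨hz, ?_⟩
      show (M.step 0 (A 0))^[N] (M.ev 0 M.z) = (M'.step 0 (A' 0))^[N] (M'.ev 0 M'.z)
      rw [hs 0 (by omega), h1 0 (by omega), hz]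
    | succ j ih =>
      intro hj
      have h := ih (by omega)
      refine ⟨h.2, ?_⟩
      show (M.step (j + 1) (A (j + 1)))^[N] (M.ev (j + 1) (M.st A N j)) =
        (M'.step (j + 1) (A' (j + 1)))^[N] (M'.ev (j + 1) (M'.st A' N j))
      rw [hs (j + 1) hj, h1 (j + 1) hj, h.2]
  unfold mic
  rw [hs i le_rfl, h1 i le_rfl, (hst i le_rfl).1]

theorem pk_congr {M' : Mach R S} {A A' : ℕ → R → Prop} {N : ℕ} (i : ℕ) (hz : M.z = M'.z)
    (h1 : ∀ j ≤ i, M.ev j = M'.ev j) (h2 : ∀ j ≤ i, M.us j = M'.us j) (h3 : ∀ j ≤ i, M.on j = M'.on j)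
    (h4 : ∀ j ≤ i, A j = A' j) (k : ℕ) : M.pk A N i k = M'.pk A' N i k := by
  unfold pk
  rw [mic_congr i hz h1 h2 h3 h4 k]
  unfold pick
  rw [h3 i le_rfl, h4 i le_rfl]

/-- two runs agree as long as the allowed sets agree: version for one reference never allowed in both -/
theorem mic_eq_of_agree {A A' : ℕ → R → Prop} {N : ℕ} (i : ℕ) (h : ∀ j ≤ i, ∀ r, A j r ↔ A' j r) (k : ℕ) :
    M.mic A N i k = M.mic A' N i k :=
  mic_congr i rfl (fun _ _ => rfl) (fun _ _ => rfl) (fun _ _ => rfl)
    (fun j hj => funext fun r => propext (h j hj r)) k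

theorem crit_iff_of_agree {A A' : ℕ → R → Prop} {N : ℕ} (i : ℕ) (h : ∀ j ≤ i, ∀ r, A j r ↔ A' j r) (s : R) (k : ℕ) :
    M.Crit A N s i k ↔ M.Crit A' N s i k := by
  have e1 := mic_eq_of_agree (M := M) (N := N) i h k
  have e2 : M.pk A N i k = M.pk A' N i k :=
    pk_congr i rfl (fun _ _ => rfl) (fun _ _ => rfl) (fun _ _ => rfl)
      (fun j hj => funext fun r => propext (h j hj r)) k
  unfold Crit
  rw [e1, e2, h i le_rfl s]

end Mach

section fac

variable {Om : Type*} {κ : ℕ → Type*} {K : ∀ t, Om → κ t} {M : Om → Mach R S} {A : ℕ → Om → R → Prop} {N : ℕ}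

/-- the machine is adapted -/
structure MFac (K : ∀ t, Om → κ t) (M : Om → Mach R S) : Prop where
  z : ∀ v w, (M v).z = (M w).z
  ev : ∀ i, Fac (K i) fun w => (M w).ev i
  us : ∀ i, Fac (K i) fun w => (M w).us i
  on : ∀ i, Fac (K i) fun w => (M w).on i

theorem mic_fac (hK : Filt K) (hM : MFac K M) (hA : ∀ i, Fac (K i) (A i)) (i k : ℕ) :
    Fac (K i) fun w => (M w).mic (fun j => A j w) N i k := by
  intro v w h
  exact Mach.mic_congr i (hM.z v w) (fun j hj => hM.ev j v w (hK.le hj v w h))
    (fun j hj => hM.us j v w (hK.le hj v w h)) (fun j hj => hM.on j v w (hK.le hj v w h))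
    (fun j hj => hA j v w (hK.le hj v w h)) k

theorem pk_fac (hK : Filt K) (hM : MFac K M) (hA : ∀ i, Fac (K i) (A i)) (i k : ℕ) :
    Fac (K i) fun w => (M w).pk (fun j => A j w) N i k := by
  intro v w h
  exact Mach.pk_congr i (hM.z v w) (fun j hj => hM.ev j v w (hK.le hj v w h))
    (fun j hj => hM.us j v w (hK.le hj v w h)) (fun j hj => hM.on j v w (hK.le hj v w h))
    (fun j hj => hA j v w (hK.le hj v w h)) k

theorem oa_fac (hK : Filt K) (hM : MFac K M) (hA : ∀ i, Fac (K i) (A i)) (s : R) (i k : ℕ) :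
    ∀ v w, K i v = K i w →
      ((M v).oa (fun j => A j v) N s i k ↔ (M w).oa (fun j => A j w) N s i k) := by
  intro v w h
  have e1 := mic_fac (N := N) hK hM hA i k v w h
  have e2 := hM.on i v w h
  have e3 : (fun j => A j v) i s = (fun j => A j w) i s := congrFun (hA i v w h) s
  simp only at e1 e2
  unfold Mach.oa
  rw [e1, e2, e3]

theorem crit_fac (hK : Filt K) (hM : MFac K M) (hA : ∀ i, Fac (K i) (A i)) (s : R) (i k : ℕ) :
    ∀ v w, K i v = K i w →
      ((M v).Crit (fun j => A j v) N s i k ↔ (M w).Crit (fun j => A j w) N s i k) := by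
  intro v w h
  have e1 := mic_fac (N := N) hK hM hA i k v w h
  have e2 := hM.on i v w h
  have e3 : (fun j => A j v) i s = (fun j => A j w) i s := congrFun (hA i v w h) s
  have e4 := pk_fac (N := N) hK hM hA i k v w h
  simp only at e1 e2 e4
  unfold Mach.Crit
  rw [e1, e2, e3, e4]

end fac

end

end Pool.Agent.GMN
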