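import Pool.Agent.GMN.StepInp

/-!
# GMN/StepAdd (helper96): the ranks of a step do not change when coins are added

`refR_add`, `RAt_add`, `RTr_add` : ranks of the traces, `RAt`, `RTr` of `D.add Ξ2` at `w` are those of `D` at `w.1`.
-/

set_option autoImplicit false
set_option linter.unusedSectionVars false

namespace Pool.Agent.GMN

open Finset Pool.Agent.PWZ Pool.Agent.M3 Pool.Agent.M3.TS Pool.Agent.GM

noncomputable section

variable {ι Om Ξ Pt V Γ κ : Type} [Fintype ι] [DecidableEq ι] [Fintype Om] [Fintype Ξ] [Fintype Pt]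
  [Fintype V] {S : Sys ι Om Ξ Pt V Γ κ} {Ξ2 : Type} [Fintype Ξ2] [Nonempty Ξ2]

theorem CmpE_add (w : ι) (t : ℕ) (g : Γ) (x : ι → Pt) (β : κ) :
    CmpE (addCoins S Ξ2) w t g x β ↔ CmpE S w t g x β := by
  constructor
  · rintro ⟨o, h1, h2, h3⟩
    exact ⟨o.1, h1, h2, h3⟩
  · rintro ⟨o, h1, h2, h3⟩
    exact ⟨(o, Classical.arbitrary Ξ2), h1, h2, h3⟩

theorem erep_add (t : ℕ) (q : Pt) : erep (addCoins S Ξ2) t q = erep S t q := rfl

theorem ereps_add (t : ℕ) : ereps (addCoins S Ξ2) t = ereps S t := rfl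

theorem new_add {u w : ι} (b : BSt S u w) (t : ℕ) (g : Γ) (x : ι → Pt) :
    ((CExt.add S Ξ2).bst b).new t g x = b.new t g x := by
  cases t <;> rfl

theorem ext_add {u w : ι} (b : BSt S u w) (t : ℕ) (g : Γ) (x : ι → Pt) :
    ((CExt.add S Ξ2).bst b).ext t g x = b.ext t g x := by
  classical
  unfold BSt.ext
  rw [ereps_add]
  refine Finset.biUnion_congr rfl fun q _ => ?_
  rw [new_add]
  have h : CmpE (addCoins S Ξ2) w t g x ((addCoins S Ξ2).cl t q) ↔ CmpE S w t g x (S.cl t q) :=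
    CmpE_add (S := S) (Ξ2 := Ξ2) w t g x (S.cl t q)
  by_cases h1 : CmpE S w t g x (S.cl t q)
  · rw [if_pos h1, if_pos (h.2 h1)]
  · rw [if_neg h1, if_neg fun h2 => h1 (h.1 h2)]

theorem cmp_add {u w : ι} (b : BSt S u w) (t : ℕ) : ∀ (g : Γ) (x : ι → Pt),
    ((CExt.add S Ξ2).bst b).cmp.L t g x = b.cmp.L t g x := by
  induction t with
  | zero => exact fun g x => ext_add b 0 g x
  | succ t ih =>
    intro g x
    show ((CExt.add S Ξ2).bst b).cmp.L t (S.par t g) x ∪ ((CExt.add S Ξ2).bst b).ext (t + 1) g x =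
      b.cmp.L t (S.par t g) x ∪ b.ext (t + 1) g x
    rw [ih, ext_add]

theorem rl_add (A : ℕ → Γ → (ι → Pt) → Finset ℕ) (t : ℕ) : ∀ (g : Γ) (x : ι → Pt),
    rl (addCoins S Ξ2) A t g x = rl S A t g x := by
  induction t with
  | zero => exact fun g x => rfl
  | succ t ih =>
    intro g x
    rw [rl_succ, rl_succ]
    show rl (addCoins S Ξ2) A t (S.par t g) x ++ ((A (t + 1) g x) \ (rl (addCoins S Ξ2) A t (S.par t g) x).toFinset).sort
      (· ≤ ·) = _
    rw [ih]

theorem nth_add (A : ℕ → Γ → (ι → Pt) → Finset ℕ) (r t : ℕ) (g : Γ) (x : ι → Pt) :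
    nth (addCoins S Ξ2) A r t g x = nth S A r t g x := by
  unfold nth
  rw [rl_add]

namespace StepIn

variable {β : Type} (D : StepIn S β) (M : ℕ)

theorem refSet_add (u : ι) (t : ℕ) (g : Γ) (x : ι → Pt) :
    ((D.add Ξ2).refSet u).L t g x = (D.refSet u).L t g x := by
  unfold refSet
  by_cases h : D.v ≠ u
  · have h' : (D.add Ξ2).v ≠ u := h
    rw [dif_pos h, dif_pos h']
    exact cmp_add (D.Br u) t g x
  · have h' : ¬ (D.add Ξ2).v ≠ u := h
    rw [dif_neg h, dif_neg h']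
    rfl

/-- **the ranks of the traces** -/
theorem refR_add (u : ι) (r : Fin M) (t : ℕ) (g : Γ) (x : ι → Pt) :
    ((D.add Ξ2).refR M u).N r t g x = (D.refR M u).N r t g x := by
  show nth (addCoins S Ξ2) ((D.add Ξ2).refSet u).L r t g x = nth S (D.refSet u).L r t g x
  have h : ((D.add Ξ2).refSet u).L = (D.refSet u).L := by
    funext t g x
    exact refSet_add D u t g x
  rw [h, nth_add]

theorem At_add (u : ι) (r : Fin M) (t : ℕ) (w : Om × Ξ2) (s : ℕ) :
    ((D.add Ξ2).refR M u).At r t w s ↔ (D.refR M u).At r t w.1 s := by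
  show ((D.add Ξ2).refR M u).N r t (S.gm t w.1) (S.x w.1) = some s ↔ (D.refR M u).N r t (S.gm t w.1) (S.x w.1) = some s
  rw [refR_add]

/-- **`RAt`** -/
theorem RAt_add (r : Rk ι M) (s : ι → ℕ) (t : ℕ) (w : Om × Ξ2) :
    (D.add Ξ2).RAt M r s t w ↔ D.RAt M r s t w.1 := by
  unfold RAt
  exact and_congr Iff.rfl (forall₂_congr fun u _ => At_add D M u (r u) t w (s u))

/-- **`RTr`** -/
theorem RTr_add (r : Rk ι M) (t : ℕ) (w : Om × Ξ2) : (D.add Ξ2).RTr M r t w ↔ D.RTr M r t w.1 := by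
  unfold RTr
  refine and_congr Iff.rfl (forall₂_congr fun u _ => exists_congr fun s => and_congr (At_add D M u (r u) t w s) ?_)
  show s ∈ ((CExt.add S Ξ2).lst (D.Lr u)).at' t w ↔ s ∈ (D.Lr u).at' t w.1
  rw [CExt.lst_at]
  rfl

end StepIn

end

end Pool.Agent.GMN
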