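import Pool.Agent.GMN.StepInp
import Pool.Agent.GMN.RuleO
import Pool.Agent.GMN.RuleK
import Pool.Agent.GMN.Tail

/-!
# GMN/StepCard (helper88): probabilities for one step (A4 of helper25's plan)

* `step_cards` : uses and resets of the actual runs of all clients up to the last time: more than `nu` with probability at
  most `n (2 (1/2)^k)` if `k (56 / ea ^ 2 + 10) ≤ nu` (exponential tails of helper58's `Tail`, means of helper78's `IndM`);
* `step_vis` : the public sets of the traces on the face of the client (`Enum.cmp_large`);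
* `step_box` : the box sets of the keys (helper77's `E_bas`).
-/

set_option autoImplicit false
set_option linter.unusedSectionVars false

namespace Pool.Agent.GMN

open Finset Pool.Agent.PWZ Pool.Agent.M3 Pool.Agent.M3.TS Pool.Agent.GM

noncomputable section

/-! ### tails of the uses and of the resets of one individual -/

namespace Ru.IndM

variable {R V Om : Type*} [Fintype Om] [Fintype R] [LinearOrder R] {κ : ℕ → Type*} {Y : ℝ}
  {P : FP Om} {K : ∀ t, Om → κ t} {es : ℝ} {X : ℕ → Om → Nd R V} {nw : ℕ → Om → List (Tst R V)} {N : ℕ}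
  {A : ℕ → Om → R → Prop} (HI : IndM P K Y es X nw N)
include HI

theorem rs_fac (hA : ∀ i, Fac (K i) (A i)) (i : ℕ) : Fac (K (i + 1)) (fun w => ind (rs Y X nw A N i w)) := by
  refine Fac.ind fun v w h => ?_
  have h1 := HI.xfac (i + 1) v w h
  have h2 := HI.filt.le (Nat.le_succ i) |>.trans (HI.ms_fac (N := N) hA i N)
  have h3 := h2 v w h
  unfold rs hp
  rw [h1, h3]

/-- **all uses, time zero included** -/
theorem uses_tail (hA : ∀ i, Fac (K i) (A i)) (T k : ℕ) :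
    P.Pr (fun w => (k : ℝ) * (56 / es ^ 2 + 1) ≤ ∑ j ∈ range (T + 1), cw Y X nw A N j w) ≤ (1 / 2) ^ k := by
  have hes := HI.pos_es
  have h := tail_fut P HI.filt (T := T + 1) (c := fun t w => ∑ j ∈ range t, cw Y X nw A N j w) (Jm := 16 / es ^ 2)
    (Mu := 20 / es ^ 2) ?_ ?_ ?_ (by positivity) ?_ k 0 (Nat.zero_le _) (fun _ => 1) (Fac.const _ (1 : ℝ))
    (fun _ => zero_le_one)
  · rw [P.E_const, mul_one] at h
    refine le_trans (P.E_mono fun w _ => ?_) h
    rw [one_mul]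
    refine ind_mono fun h1 => ?_
    have e1 : (2 * (20 / es ^ 2) + 16 / es ^ 2 + 1 : ℝ) = 56 / es ^ 2 + 1 := by ring
    show (k : ℝ) * (2 * (20 / es ^ 2) + 16 / es ^ 2 + 1) ≤ ∑ j ∈ range (T + 1), cw Y X nw A N j w -
      ∑ j ∈ range 0, cw Y X nw A N j w
    rw [e1, Finset.sum_range_zero, sub_zero]
    exact h1
  · intro t
    exact Fac.finsum _ fun j hj => (HI.filt.le (by have := mem_range.1 hj; omega)).trans (HI.cw_fac hA j)
  · intro t w
    show ∑ j ∈ range t, cw Y X nw A N j w ≤ ∑ j ∈ range (t + 1), cw Y X nw A N j w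
    rw [Finset.sum_range_succ]
    have := HI.cw_nonneg (A := A) t w
    linarith
  · intro t w
    show ∑ j ∈ range (t + 1), cw Y X nw A N j w - ∑ j ∈ range t, cw Y X nw A N j w ≤ 16 / es ^ 2
    rw [Finset.sum_range_succ]
    have := HI.cw_le (A := A) t w
    linarith
  · intro t ht f hf hf0
    have h1 := HI.uses_le hA t hf hf0 T
    refine le_trans (le_of_eq ?_) h1
    rw [← P.E_sum]
    refine P.E_congr fun w _ => ?_
    rw [← Finset.mul_sum]
    congr 1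
    show ∑ j ∈ range (T + 1), cw Y X nw A N j w - ∑ j ∈ range t, cw Y X nw A N j w = _
    rw [← Finset.sum_range_add_sum_Ico _ ht]
    have e : Icc t T = Ico t (T + 1) := by
      ext j
      simp only [mem_Icc, mem_Ico]
      omega
    rw [e]
    ring

/-- **all resets** -/
theorem resets_tail (hA : ∀ i, Fac (K i) (A i)) (T k : ℕ) :
    P.Pr (fun w => (k : ℝ) * 6 ≤ ∑ j ∈ range T, ind (rs Y X nw A N j w)) ≤ (1 / 2) ^ k := by
  have h := tail_fut P HI.filt (T := T) (c := fun t w => ∑ j ∈ range t, ind (rs Y X nw A N j w)) (Jm := 1)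
    (Mu := 5 / 3) ?_ ?_ ?_ (by positivity) ?_ k 0 (Nat.zero_le _) (fun _ => 1) (Fac.const _ (1 : ℝ))
    (fun _ => zero_le_one)
  · rw [P.E_const, mul_one] at h
    refine le_trans (P.E_mono fun w _ => ?_) h
    rw [one_mul]
    refine ind_mono fun h1 => ?_
    show (k : ℝ) * (2 * (5 / 3) + 1 + 1) ≤ ∑ j ∈ range T, ind (rs Y X nw A N j w) -
      ∑ j ∈ range 0, ind (rs Y X nw A N j w)
    rw [Finset.sum_range_zero, sub_zero]
    have h2 : (0 : ℝ) ≤ k := Nat.cast_nonneg k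
    have h3 : (k : ℝ) * 6 ≤ ∑ j ∈ range T, ind (rs Y X nw A N j w) := h1
    nlinarith
  · intro t
    exact Fac.finsum _ fun j hj => (HI.filt.le (by have := mem_range.1 hj; omega)).trans (HI.rs_fac hA j)
  · intro t w
    show ∑ j ∈ range t, ind (rs Y X nw A N j w) ≤ ∑ j ∈ range (t + 1), ind (rs Y X nw A N j w)
    rw [Finset.sum_range_succ]
    have := ind_nonneg (rs Y X nw A N t w)
    linarith
  · intro t w
    show ∑ j ∈ range (t + 1), ind (rs Y X nw A N j w) - ∑ j ∈ range t, ind (rs Y X nw A N j w) ≤ 1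
    rw [Finset.sum_range_succ]
    have := ind_le_one (rs Y X nw A N t w)
    linarith
  · intro t ht f hf hf0
    have h1 := HI.resets_le hA t hf hf0 T
    refine le_trans (le_of_eq ?_) h1
    rw [← P.E_sum]
    refine P.E_congr fun w _ => ?_
    rw [← Finset.mul_sum]
    congr 1
    show ∑ j ∈ range T, ind (rs Y X nw A N j w) - ∑ j ∈ range t, ind (rs Y X nw A N j w) = _
    rw [← Finset.sum_range_add_sum_Ico _ ht]
    ring

end Ru.IndM

/-! ### the allowed sets of the actual runs -/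

namespace RuS

variable {ι Om Ξ Pt V Γ κ : Type} [Fintype ι] [DecidableEq ι] [Fintype Om] [Fintype Ξ] [Fintype Pt]
    [Fintype V] {G : Sys ι Om Ξ Pt V Γ κ}
variable {R Nu Cl : Type} {I : ℕ} [Fintype R] [LinearOrder R] [Fintype Nu] [Fintype Cl]
  {A : Inp ι Ξ Pt V Γ R Nu Cl I} {S0 : Finset ι} {δ : ι} {p : Prm} {Kn Yn : ℕ}

variable (G A S0 δ p) in
/-- allowed references of the actual run of the true individual -/
def Aact (ν : Nu) (i : ℕ) (ω : Om) : R → Prop := asq G A S0 δ p ω (G.xi ω, G.x ω) ν i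

theorem Aact_fac (H : A.Ok G S0 δ) (ν : Nu) (i : ℕ) : Fac (Kst G δ p i) (Aact G A S0 δ p ν i) := by
  intro v w h
  obtain ⟨h1, h2, h3⟩ := Kst_gm h
  have hA := dt_agr (A := A) (S0 := S0) (δ := δ) (p := p) h3
  show (dt G A S0 δ p v).A (p.a Cl) (G.xi v, G.x v) ν i = (dt G A S0 δ p w).A (p.a Cl) (G.xi w, G.x w) ν i
  rw [Ru.Dat.A_agr hA _ _ le_rfl, h1, A_same (p := p) H w h2]

/-- the uses of the actual run -/
theorem ucn_le (ν : Nu) (T : ℕ) (ω : Om) : (ucn G A S0 δ p ω (G.xi ω, G.x ω) ν T p.N : ℝ) ≤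
    ∑ j ∈ range (T + 1), Ru.IndM.cw p.Y (Xst G A S0 δ p ν) (nwst G A S0 δ p ν) (Aact G A S0 δ p ν) p.N j ω :=
  Ru.uct_le (Y := p.Y) (x := xsq G A S0 δ p ω (G.xi ω, G.x ω) ν) (nw := nws G A S0 δ p ω (G.xi ω, G.x ω) ν)
    (A := asq G A S0 δ p ω (G.xi ω, G.x ω) ν) (N := p.N) T

/-- the resets of the actual run -/
theorem epc_eq (ν : Nu) (T : ℕ) (ω : Om) : (epc G A S0 δ p ω (G.xi ω, G.x ω) ν T : ℝ) =
    ∑ j ∈ range T, ind (Ru.IndM.rs p.Y (Xst G A S0 δ p ν) (nwst G A S0 δ p ν) (Aact G A S0 δ p ν) p.N j ω) := by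
  classical
  rw [← card_rst, Finset.card_filter, Nat.cast_sum]
  refine Finset.sum_congr rfl fun j _ => ?_
  have e : rst G A S0 δ p ω (G.xi ω, G.x ω) ν j ↔
      Ru.IndM.rs p.Y (Xst G A S0 δ p ν) (nwst G A S0 δ p ν) (Aact G A S0 δ p ν) p.N j ω := Iff.rfl
  by_cases h : rst G A S0 δ p ω (G.xi ω, G.x ω) ν j
  · rw [if_pos h, ind_of (e.1 h), Nat.cast_one]
  · rw [if_neg h, ind_not fun h' => h (e.2 h'), Nat.cast_zero]

/-- **uses and resets of one client** -/
theorem client_cards (H : A.Ok G S0 δ) (hp : p.Ok Kn Yn) (ν : Nu) (T : ℕ) {nu k : ℕ}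
    (hk : k * (56 / p.ea ^ 2 + 10) ≤ (nu : ℝ)) :
    G.P.Pr (fun ω => nu < ucn G A S0 δ p ω (G.xi ω, G.x ω) ν T p.N + epc G A S0 δ p ω (G.xi ω, G.x ω) ν T) ≤
      2 * (1 / 2) ^ k := by
  have HI := indM H hp ν
  have hA : ∀ i, Fac (Kst G δ p i) (Aact G A S0 δ p ν i) := fun i => Aact_fac H ν i
  have h1 := HI.uses_tail hA T k
  have h2 := HI.resets_tail hA T k
  have h3 := G.P.Pr_or_le
    (fun ω => (k : ℝ) * (56 / p.ea ^ 2 + 1) ≤ ∑ j ∈ range (T + 1),
      Ru.IndM.cw p.Y (Xst G A S0 δ p ν) (nwst G A S0 δ p ν) (Aact G A S0 δ p ν) p.N j ω)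
    (fun ω => (k : ℝ) * 6 ≤ ∑ j ∈ range T,
      ind (Ru.IndM.rs p.Y (Xst G A S0 δ p ν) (nwst G A S0 δ p ν) (Aact G A S0 δ p ν) p.N j ω))
  refine le_trans (G.P.Pr_mono fun ω _ h => ?_) (h3.trans (by linarith))
  by_contra hc
  rw [not_or, not_le, not_le] at hc
  have h4 := ucn_le (G := G) (A := A) (S0 := S0) (δ := δ) (p := p) ν T ω
  have h5 := epc_eq (G := G) (A := A) (S0 := S0) (δ := δ) (p := p) ν T ω
  have h6 : (nu : ℝ) < ucn G A S0 δ p ω (G.xi ω, G.x ω) ν T p.N + epc G A S0 δ p ω (G.xi ω, G.x ω) ν T := by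
    exact_mod_cast h
  have h7 : (0 : ℝ) ≤ k := Nat.cast_nonneg k
  rw [h5] at h6
  obtain ⟨h8, h9⟩ := hc
  nlinarith

end RuS

/-! ### the statements of the plan -/

variable {ι Om Ξ Pt V Γ κ : Type} [Fintype ι] [DecidableEq ι] [Fintype Om] [Fintype Ξ] [Fintype Pt]
  [Fintype V] {S : Sys ι Om Ξ Pt V Γ κ} {β : Type} {D : StepIn S β} {M n I : ℕ} {Cl : Type} [Fintype Cl]
  {al : ℕ → Γ → Ξ → (ι → Pt) → Rk ι M → Prop}
  {cs : Cl → Cls ι Pt V Γ (Ru.Ka (Fin n) (Rk ι M) I)} {p : RuS.Prm}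

/-- **uses and resets of all clients** -/
theorem step_cards {Kn Yn : ℕ} (hal : ∀ t g ξ, Dep (univ.erase D.v) (al t g ξ))
    (hcs : ∀ c, (cs c).Ok S D.S0 D.v) (hp : p.Ok Kn Yn) {nu k : ℕ} (hk : k * (56 / p.ea ^ 2 + 10) ≤ nu) :
    S.P.Pr (fun w => ∃ b : Fin n, nu <
      RuS.ucn S (D.inp M n al cs) D.S0 D.v p w (S.xi w, S.x w) b (Ru.Dat.la (p.a Cl) S.n) p.N +
      RuS.epc S (D.inp M n al cs) D.S0 D.v p w (S.xi w, S.x w) b (Ru.Dat.la (p.a Cl) S.n)) ≤
      n * (2 * (1 / 2) ^ k) := by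
  have H : (D.inp M n al cs).Ok S D.S0 D.v := StepIn.inp_ok hal hcs
  have h0 := S.P.Pr_ex_le (univ : Finset (Fin n)) (fun b w => nu <
      RuS.ucn S (D.inp M n al cs) D.S0 D.v p w (S.xi w, S.x w) b (Ru.Dat.la (p.a Cl) S.n) p.N +
      RuS.epc S (D.inp M n al cs) D.S0 D.v p w (S.xi w, S.x w) b (Ru.Dat.la (p.a Cl) S.n))
  refine le_trans (S.P.Pr_mono fun w _ h => ?_) (h0.trans ?_)
  · obtain ⟨b, hb⟩ := h
    exact ⟨b, mem_univ b, hb⟩
  refine (Finset.sum_le_sum fun b _ => RuS.client_cards H hp b _ hk).trans ?_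
  rw [Finset.sum_const, nsmul_eq_mul, Finset.card_univ, Fintype.card_fin]

/-- **the public sets of the traces on the face of the client** -/
theorem step_vis {n0 B : ℕ} (hB : D.Bd n0 B) (hM : 0 < M) :
    S.P.Pr (fun w => ∃ u ∈ D.Rf, M < ((D.refSet u).at' S.n w).card) ≤ Fintype.card ι * (S.K * B) / M := by
  have hK : 0 ≤ S.K := le_trans zero_le_one S.K1
  have h0 := S.P.Pr_ex_le D.Rf (fun u w => M < ((D.refSet u).at' S.n w).card)
  have h1 : ∀ u ∈ D.Rf, S.P.Pr (fun w => M < ((D.refSet u).at' S.n w).card) ≤ S.K * B / M := by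
    intro u hu
    have h2 : D.v ≠ u := fun h => D.vR (by rw [h]; exact hu)
    have e : D.refSet u = (D.Br u).cmp.up h2 := dif_pos h2
    rw [e]
    have h3 := (D.Br u).cmp_large h2.symm S.n (B := (B : ℝ)) (B' := (M : ℝ))
      (S.P.E_le_const fun w _ => by exact_mod_cast hB.br u hu S.n le_rfl w) (by exact_mod_cast hM)
    refine (S.P.Pr_mono fun w _ h => ?_).trans h3
    have h4 : M < (((D.Br u).cmp).at' S.n w).card := h
    exact_mod_cast h4.le
  refine h0.trans ((Finset.sum_le_sum h1).trans ?_)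
  rw [Finset.sum_const, nsmul_eq_mul, mul_div_assoc (Fintype.card ι : ℝ)]
  have h5 : (D.Rf.card : ℝ) ≤ Fintype.card ι := by exact_mod_cast Finset.card_le_univ D.Rf
  have h6 : 0 ≤ S.K * B / (M : ℝ) := by positivity
  exact mul_le_mul_of_nonneg_right h5 h6

/-- **the box sets of the keys** -/
theorem step_box {Kn Yn : ℕ} (hal : ∀ t g ξ, Dep (univ.erase D.v) (al t g ξ))
    (hcs : ∀ c, (cs c).Ok S D.S0 D.v) (hp : p.Ok Kn Yn) {B' : ℕ} (hB' : 0 < B') {l : ι} (hl : l ∈ D.S0) :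
    S.P.Pr (fun w => B' < ((RuS.bas p (StepIn.inp_ok (M := M) (n := n) hal hcs) hl).at' S.n w).card) ≤
      (1 + Fintype.card Cl * (1 + 20 / p.ea ^ 2 / p.θ)) / B' := by
  have H : (D.inp M n al cs).Ok S D.S0 D.v := StepIn.inp_ok hal hcs
  have h1 := RuS.E_bas H hp hl S.n
  have hB : (0 : ℝ) < B' := by exact_mod_cast hB'
  have h2 := FP.markov S.P (f := fun w => (((RuS.bas p H hl).at' S.n w).card : ℝ))
    (fun w _ => Nat.cast_nonneg _) (B' : ℝ)
  rw [le_div_iff₀ hB]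
  have h3 : S.P.Pr (fun w => B' < ((RuS.bas p H hl).at' S.n w).card) ≤
      S.P.Pr (fun w => (B' : ℝ) ≤ (((RuS.bas p H hl).at' S.n w).card : ℝ)) :=
    S.P.Pr_mono fun w _ h => by exact_mod_cast le_of_lt h
  nlinarith

end

end Pool.Agent.GMN
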