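import Pool.Agent.GMN.StepEst
import Pool.Agent.GMN.IndG

/-!
# GMN/StepVir (helper80): failures and number of ends of the actual runs of a step (helper25's plan, A2, A4)

* `Mcl` machine of the client `b` of the true individual, `alw` allowed tuples, `nEb` number of ends of stretches,
  `FailB` the client of rank `b` fails;
* `step_est` : the error in a term of the form at a sample point without failure;
* `step_ends` : `P (some client has more than I ends for some tuple) ≤ n * M ^ m * (1 / 2) ^ j`, `j (2 NvB + 2) ≤ I`.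
-/

set_option autoImplicit false
set_option linter.unusedSectionVars false

namespace Pool.Agent.GMN

open Finset Pool.Agent.PWZ Pool.Agent.M3 Pool.Agent.M3.TS Pool.Agent.GM

noncomputable section

variable {ι Om Ξ Pt V Γ κ : Type} [Fintype ι] [DecidableEq ι] [Fintype Om] [Fintype Ξ] [Fintype Pt]
  [Fintype V] {S : Sys ι Om Ξ Pt V Γ κ} {β : Type} (D : StepIn S β) {M n I : ℕ} {Cl : Type} [Fintype Cl]
  (al : ℕ → Γ → Ξ → (ι → Pt) → Rk ι M → Prop) (cs : Cl → Cls ι Pt V Γ (Ru.Ka (Fin n) (Rk ι M) I)) (p : RuS.Prm)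

/-- the machine of the client `b` of the true individual -/
def Mcl (b : Fin n) (w : Om) : Mach (Rk ι M) (Ru.St (Rk ι M) V) :=
  RuS.Mc S (D.inp M n al cs) D.S0 D.v p w b (S.xi w, S.x w)

variable (S) in
/-- the allowed tuples of the actual runs of the true individual, at machine times -/
def alw (al : ℕ → Γ → Ξ → (ι → Pt) → Rk ι M → Prop) (p : RuS.Prm) (w : Om) (j : ℕ) : Rk ι M → Prop :=
  al (j / (2 * p.m + 2)) (S.gm (j / (2 * p.m + 2)) w) (S.xi w) (S.x w)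

/-- number of ends of stretches of `r` in the actual run of `b` -/
def nEb (b : Fin n) (r : Rk ι M) (w : Om) : ℕ :=
  (Mcl D al cs p b w).nE (alw S al p w) p.N r (S.n * (2 * p.m + 2) + (2 * p.m + 2))

/-- **the client of rank `b` fails**: a true tuple is critical -/
def FailB (b : Fin n) (w : Om) : Prop := ∃ r, ∃ i < S.n * (2 * p.m + 2) + (2 * p.m + 2), ∃ l ≤ p.N,
  (Mcl D al cs p b w).Crit (alw S al p w) p.N r i l ∧ D.RTr M r (i / (2 * p.m + 2)) w

variable {D al cs p}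

theorem blk_of {m t i : ℕ} (h1 : t * (2 * m + 2) ≤ i) (h2 : i ≤ t * (2 * m + 2) + (2 * m + 1)) :
    i / (2 * m + 2) = t := by
  have h3 : i / (2 * m + 2) < t + 1 := by
    rw [Nat.div_lt_iff_lt_mul (by omega)]
    rw [Nat.succ_mul]
    omega
  have h4 : t ≤ i / (2 * m + 2) := by
    rw [Nat.le_div_iff_mul_le (by omega)]
    exact h1
  omega

/-- no critical moment in the block of `t` for a true tuple -/
theorem noCrit_of {b : Fin n} {r : Rk ι M} {w : Om} {t : ℕ} (ht : t ≤ S.n) (hf : ¬ FailB D al cs p b w)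
    (hr : D.RTr M r t w) :
    RuS.NoCrit S (D.inp M n al cs) D.S0 D.v p w b (S.xi w, S.x w) r (t * (2 * p.m + 2)) t := by
  intro i h1 h2 l hl hc
  rw [RuS.la_eq] at h2
  refine hf ⟨r, i, ?_, l, hl, hc, ?_⟩
  · have := Nat.mul_le_mul_right (2 * p.m + 2) ht
    omega
  · rw [blk_of h1 h2]
    exact hr

theorem nE_le_nEb (b : Fin n) (r : Rk ι M) (w : Om) {t : ℕ} (ht : t ≤ S.n) :
    (RuS.Mc S (D.inp M n al cs) D.S0 D.v p w b (S.xi w, S.x w)).nE
      (RuS.Ac S (D.inp M n al cs) D.S0 D.v p w b (S.xi w, S.x w)) p.N r (Ru.Dat.la (p.a Cl) t) ≤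
      nEb D al cs p b r w := by
  refine Mach.nE_mono ?_
  rw [RuS.la_eq]
  have := Nat.mul_le_mul_right (2 * p.m + 2) ht
  omega

/-- **the error in a term of the form** -/
theorem step_est {Kn Yn : ℕ} (hal : ∀ t g ξ, Dep (univ.erase D.v) (al t g ξ))
    (hcs : ∀ c, (cs c).Ok S D.S0 D.v) (hp : p.Ok Kn Yn) {b : Fin n} {w : Om} {t : ℕ}
    (ht1 : 1 ≤ t) (ht : t ≤ S.n) {s : ι → ℕ} {r : Rk ι M} {b0 : ℝ} (hf : ¬ FailB D al cs p b w)
    (hI : nEb D al cs p b r w ≤ I) (hr : D.RAt M r s t w) (hs : ∀ u ∈ D.Rf, s u ∈ (D.Lr u).at' t w)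
    (hG : RuS.GoodT S (D.inp M n al cs) D.S0 D.v p (fun l z => D.famF l z) b0 w) {n1 : ℝ}
    (hn : (RuS.ucn S (D.inp M n al cs) D.S0 D.v p w (S.xi w, S.x w) b (Ru.Dat.la (p.a Cl) t) p.N : ℝ) ≤ n1)
    (z : ι → β) :
    |formTerm D z s (RuS.eact S (D.inp M n al cs) D.S0 D.v p w b t) t w| ≤
      b0 * p.Y + 4 / p.Y + S.near * (1 + p.ea / 2 * n1) :=
  close_of D (StepIn.inp_ok hal hcs) hp hG ht1 ht hr (noCrit_of ht hf (hr.tr hs)) ((nE_le_nEb b r w ht).trans hI) hn z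
    fun _ => rfl

theorem alw_mono (halm : ∀ t g ξ x r, al t (S.par t g) ξ x r → al (t + 1) g ξ x r) (j : ℕ) (w : Om) (r : Rk ι M)
    (h : alw S al p w j r) : alw S al p w (j + 1) r := by
  unfold alw at h ⊢
  rw [Nat.succ_div]
  split_ifs
  · refine halm _ _ _ _ _ ?_
    rw [S.par_gm]
    exact h
  · exact h

theorem alw_fac (hal : ∀ t g ξ, Dep (univ.erase D.v) (al t g ξ)) (j : ℕ) :
    Fac (RuS.Kst S D.v p j) (fun w => alw S al p w j) := by
  intro v w h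
  obtain ⟨h1, h2, h3⟩ := RuS.Kst_gm h
  show al (j / (2 * p.m + 2)) (S.gm (j / (2 * p.m + 2)) v) (S.xi v) (S.x v) =
    al (j / (2 * p.m + 2)) (S.gm (j / (2 * p.m + 2)) w) (S.xi w) (S.x w)
  rw [h1, h3]
  exact hal _ _ _ _ _ h2

/-- the ends of one client and one tuple -/
theorem nEb_tail {Kn Yn : ℕ} (hal : ∀ t g ξ, Dep (univ.erase D.v) (al t g ξ))
    (halm : ∀ t g ξ x r, al t (S.par t g) ξ x r → al (t + 1) g ξ x r)
    (hcs : ∀ c, (cs c).Ok S D.S0 D.v) (hp : p.Ok Kn Yn) (b : Fin n) (r : Rk ι M) (j : ℕ) :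
    S.P.Pr (fun w => (j : ℝ) * (2 * Ru.IndM.NvB p.ea + 2) + 1 ≤ (nEb D al cs p b r w : ℝ)) ≤ (1 / 2) ^ j := by
  have HI := RuS.indM (StepIn.inp_ok (M := M) (n := n) hal hcs) hp b
  have h := HI.nE_tail (A := fun j w => alw S al p w j) (fun j => alw_fac hal j) r
    (fun i w => alw_mono halm i w r) (S.n * (2 * p.m + 2) + (2 * p.m + 1)) j
  exact h

/-- **ends of stretches of all clients and tuples** -/
theorem step_ends {Kn Yn : ℕ} (hal : ∀ t g ξ, Dep (univ.erase D.v) (al t g ξ))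
    (halm : ∀ t g ξ x r, al t (S.par t g) ξ x r → al (t + 1) g ξ x r)
    (hcs : ∀ c, (cs c).Ok S D.S0 D.v) (hp : p.Ok Kn Yn) {j : ℕ}
    (hj : (j : ℝ) * (2 * Ru.IndM.NvB p.ea + 2) ≤ I) :
    S.P.Pr (fun w => ∃ (b : Fin n) (r : Rk ι M), I < nEb D al cs p b r w) ≤
      n * (M : ℝ) ^ Fintype.card ι * (1 / 2) ^ j := by
  have h1 : S.P.Pr (fun w => ∃ (b : Fin n) (r : Rk ι M), I < nEb D al cs p b r w) ≤
      S.P.Pr (fun w => ∃ q ∈ (univ : Finset (Fin n × Rk ι M)), I < nEb D al cs p q.1 q.2 w) := by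
    refine S.P.Pr_mono fun w _ h => ?_
    obtain ⟨b, r, h2⟩ := h
    exact ⟨(b, r), mem_univ _, h2⟩
  refine h1.trans ((S.P.Pr_ex_le _ _).trans ?_)
  have h2 : ∀ q ∈ (univ : Finset (Fin n × Rk ι M)), S.P.Pr (fun w => I < nEb D al cs p q.1 q.2 w) ≤ (1 / 2) ^ j := by
    intro q _
    refine le_trans (S.P.Pr_mono fun w _ h => ?_) (nEb_tail hal halm hcs hp q.1 q.2 j)
    have h3 : ((I + 1 : ℕ) : ℝ) ≤ (nEb D al cs p q.1 q.2 w : ℝ) := by exact_mod_cast h
    push_cast at h3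
    linarith
  refine (Finset.sum_le_sum h2).trans (le_of_eq ?_)
  rw [Finset.sum_const, nsmul_eq_mul, Finset.card_univ, Fintype.card_prod, Fintype.card_fin, card_Rk]
  push_cast
  ring

end

end Pool.Agent.GMN
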