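import Pool.Agent.GMN.StepMach
import Pool.Agent.GMN.StepVir
import Pool.Agent.GMN.StepAdd

/-!
# GMN/StepFail (helper96): failures of the clients from the record lemma (A4' of helper25's plan)
-/

set_option autoImplicit false
set_option linter.unusedSectionVars false

namespace Pool.Agent.GMN

open Finset Pool.Agent.PWZ Pool.Agent.M3 Pool.Agent.M3.TS Pool.Agent.GM

noncomputable section

variable {ι Om Ξ Pt V Γ κ : Type} [Fintype ι] [DecidableEq ι] [Fintype Om] [Fintype Ξ] [Fintype Pt]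
  [Fintype V] {S : Sys ι Om Ξ Pt V Γ κ} {β : Type} {D : StepIn S β} {M n I : ℕ}
  {Cl : Type} [Fintype Cl] {p : RuS.Prm} {Ξ2 : Type} [Fintype Ξ2] [Nonempty Ξ2]

/-- **on the system with the coins of the records: failure probability of all clients together** -/
theorem step_fail {n' B' : ℕ} {q cf : ℝ} {cs : Cl → Cls ι Pt V Γ (Ru.Ka (Fin n) (Rk ι M) I)}
    (R : RecOut D M Ξ2 n' B' q cf) (hcs : ∀ c, (cs c).Ok (addCoins S Ξ2) (D.add Ξ2).S0 D.v) {Kn Yn : ℕ}
    (hp : p.Ok Kn Yn) :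
    (coinFP S.P Ξ2).Pr (fun w => ∃ b : Fin n, FailB (D.add Ξ2) R.al cs p b w) ≤
      n * (cf * ((Ru.IndM.NvB p.ea + 1) * (20 / p.ea ^ 2 + 1))) := by
  have H : (D.inpA R.al cs).Ok (addCoins S Ξ2) D.S0 D.v :=
    StepIn.inp_ok (D := D.add Ξ2) (M := M) (n := n) R.aldep hcs
  refine le_trans ((coinFP S.P Ξ2).Pr_mono fun w _ h => ?_) (StepIn.crit_pr_all R H hp)
  obtain ⟨b, r, i, hi, l, hl, hc, hr⟩ := h
  exact ⟨b, r, i, hi, l, hl, hc, (StepIn.RTr_add D M r _ w).1 hr⟩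

end

end Pool.Agent.GMN
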