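import Pool.Agent.GMN.StepInp
import Pool.Agent.GMN.Est

/-!
# GMN/StepEst (helper14): the error in the terms of the form (field `close` of `StepOut`)

`close_of` : at a sample point where no virtual run has a large error (`GoodT`) and the reference `r` of the term has no
critical moment in the block of `t`, the error in the term is at most `βt Y + 4 / Y + near (1 + ea / 2 n1)`.
-/

set_option autoImplicit false
set_option linter.unusedSectionVars false

namespace Pool.Agent.GMN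

open Finset Pool.Agent.PWZ Pool.Agent.M3 Pool.Agent.M3.TS Pool.Agent.GM

noncomputable section

variable {ι Om Ξ Pt V Γ κ : Type} [Fintype ι] [DecidableEq ι] [Fintype Om] [Fintype Ξ] [Fintype Pt]
  [Fintype V] {S : Sys ι Om Ξ Pt V Γ κ} {β : Type} (D : StepIn S β) {M n : ℕ} {Cl : Type} [Fintype Cl] {I : ℕ}

/-- the term of the form = the term of the estimate -/
theorem formTerm_eq {z : ι → β} {s : ι → ℕ} {r : Rk ι M} {t : ℕ} (ht : 1 ≤ t) {w : Om} (hr : D.RAt M r s t w)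
    {f g : V → ℝ} (hfg : ∀ d, f d = g d) :
    formTerm D z s f t w = iw (S.J t w) (fun d => ((∏ l ∈ D.S0.erase D.v, val0 S (D.famF l (z l)) t w d) *
      val0 S (D.mulR M r) t w d) * g d) (fun _ => 1) := by
  unfold formTerm iw
  refine Finset.sum_congr rfl fun d _ => ?_
  beta_reduce
  rw [StepIn.S0_erase, Finset.prod_insert D.aL, StepIn.famF_val ht, StepIn.mulR_val ht hr,
    Finset.prod_congr rfl fun l _ => StepIn.famF_val (D := D) (l := l) (z := z l) ht w d, hfg]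
  ring

theorem close_of {al : ℕ → Γ → Ξ → (ι → Pt) → Rk ι M → Prop} {cs : Cl → Cls ι Pt V Γ (Ru.Ka (Fin n) (Rk ι M) I)}
    {p : RuS.Prm} {Kn Yn : ℕ} (H : (D.inp M n al cs).Ok S D.S0 D.v) (hp : p.Ok Kn Yn) {βt n1 : ℝ} {w : Om}
    (hG : RuS.GoodT S (D.inp M n al cs) D.S0 D.v p D.famF βt w) {t : ℕ} (ht1 : 1 ≤ t) (ht : t ≤ S.n)
    {b : Fin n} {r : Rk ι M} {s : ι → ℕ} (hr : D.RAt M r s t w)
    (hno : RuS.NoCrit S (D.inp M n al cs) D.S0 D.v p w b (S.xi w, S.x w) r (t * (2 * p.m + 2)) t)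
    (hI : (RuS.Mc S (D.inp M n al cs) D.S0 D.v p w b (S.xi w, S.x w)).nE
      (RuS.Ac S (D.inp M n al cs) D.S0 D.v p w b (S.xi w, S.x w)) p.N r (Ru.Dat.la (p.a Cl) t) ≤ I)
    (hn : (RuS.ucn S (D.inp M n al cs) D.S0 D.v p w (S.xi w, S.x w) b (Ru.Dat.la (p.a Cl) t) p.N : ℝ) ≤ n1)
    (z : ι → β) {f : V → ℝ} (hf : ∀ d, f d = RuS.eact S (D.inp M n al cs) D.S0 D.v p w b t d) :
    |formTerm D z s f t w| ≤ βt * p.Y + 4 / p.Y + S.near * (1 + p.ea / 2 * n1) := by
  rw [formTerm_eq D ht1 hr hf]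
  exact RuS.est H hp (fun l _ z => StepIn.famF_nf l z) hG le_rfl ht hno hI z hn

end

end Pool.Agent.GMN
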