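import Pool.Agent.GMN.StepInp
import Pool.Agent.GMN.StepEst
import Pool.Agent.GMN.RuleP
import Pool.Agent.GMN.Hash

/-!
# GMN/StepObj (helper14): THE OBJECTS OF ONE STEP (interface by helper25)

System `S` with ALL coins, data `D`, instance `D.inp M n al cs` of the rule.
* `rfO` : references of the uses = traces; `LsO ν` : uses of the client with the code `ν`: the list of its rank;
* `obj` : the objects `StepObj`; `appr_obj` : target minus approximation = error of the actual run;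
* `obj_out` : all fields of `StepOut` from bounds at the sample points outside one bad event;
* `Fine` : what has to hold at a sample point; `out_of` : **the output of the step**.
-/

set_option autoImplicit false
set_option linter.unusedSectionVars false

namespace Pool.Agent.GMN

open Finset Pool.Agent.PWZ Pool.Agent.M3 Pool.Agent.M3.TS Pool.Agent.GM

noncomputable section

variable {ι Om Ξ Pt V Γ κ : Type} [Fintype ι] [DecidableEq ι] [Fintype Om] [Fintype Ξ] [Fintype Pt]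
  [Fintype V] {S : Sys ι Om Ξ Pt V Γ κ}

/-- no keys -/
def BSt.emp (S : Sys ι Om Ξ Pt V Γ κ) (u l : ι) : BSt S u l where
  L _ _ _ := ∅
  dep _ _ := fun _ _ _ _ => rfl
  mono _ _ _ := subset_rfl

variable {β : Type} (D : StepIn S β) {M n I : ℕ} {Cl : Type} [Fintype Cl]
  (al : ℕ → Γ → Ξ → (ι → Pt) → Rk ι M → Prop) (cs : Cl → Cls ι Pt V Γ (Ru.Ka (Fin n) (Rk ι M) I)) (p : RuS.Prm)
  {Kn Yn : ℕ}

/-- the traces of a tuple of ranks -/
def rfO : ℕ → Γ → (ι → Pt) → Rk ι M → ι → ℕ := fun t g x r u =>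
  if u ∈ D.Rf then ((D.refR M u).N (r u) t g x).getD 0 else 0

theorem rfO_dep : RuS.RfD D.v (rfO (M := M) D) := fun t g x y h => by
  funext r u
  unfold rfO
  rw [(D.refR M u).dep (r u) t g x y h]

variable {D} in
theorem rfO_at {r : Rk ι M} {t : ℕ} {w : Om} {u : ι} {s : ℕ} (hu : u ∈ D.Rf) (h : (D.refR M u).At (r u) t w s) :
    rfO D t (S.gm t w) (S.x w) r u = s := by
  unfold Ren.At at h
  unfold rfO
  rw [if_pos hu, h]
  rfl

variable {D} in
/-- the value of a multiplier, the tuple of ranks need not be canonical -/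
theorem mulR_val' {r : Rk ι M} {s : ι → ℕ} {t : ℕ} (ht : 1 ≤ t) {w : Om}
    (h : ∀ u ∈ D.Rf, (D.refR M u).At (r u) t w (s u)) (d : V) :
    D.mulR M r t (S.gm t w) (S.x w) d = ∏ u ∈ D.Rf, (D.Xr u).at' (s u) t w d := by
  have h1 := (D.refF M).f0_pos r ht (S.gm t w) (S.x w)
  show (D.refF M).f0 r t (S.gm t w) (S.x w) d = _
  rw [h1]
  show ∏ u ∈ D.Rf, ((D.Xr u).ren (D.refR M u) (StepIn.ev_sub u D.v)).f (r u) t (S.gm t w) (S.x w) d = _
  refine Finset.prod_congr rfl fun u hu => ?_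
  exact congrFun (NumF.ren_at (X := D.Xr u) (hJI := StepIn.ev_sub u D.v) (h u hu)) d

/-- the list of the uses of the client of rank `b` -/
def lsR (H : (D.inp M n al cs).Ok S D.S0 D.v) (hp : p.Ok Kn Yn) (ph : ℕ → ℕ) (b : Fin n) :
    Lst S (univ.erase D.v) := RuS.lst p (rfO D) ph H hp (rfO_dep D) b

open Classical in
/-- **the list of the uses of the client with the code `ν`** -/
def LsO (H : (D.inp M n al cs).Ok S D.S0 D.v) (hp : p.Ok Kn Yn) (ph : ℕ → ℕ) (ν : ℕ) :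
    Lst S (univ.erase D.v) where
  L t g ξ x := univ.biUnion fun b : Fin n =>
    if D.Lv.rk b t g ξ x = some ν then (lsR D al cs p H hp ph b).L t g ξ x else ∅
  dep t g ξ := fun x y h => by
    refine Finset.biUnion_congr rfl fun b _ => ?_
    rw [D.Lv.rk_dep b t g ξ x y h, (lsR D al cs p H hp ph b).dep t g ξ x y h]
  mono t g ξ x := by
    intro z hz
    rw [mem_biUnion] at hz ⊢
    obtain ⟨b, hb, h1⟩ := hz
    refine ⟨b, hb, ?_⟩
    split_ifs at h1 with h2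
    · rw [if_pos (D.Lv.rk_succ h2)]
      exact (lsR D al cs p H hp ph b).mono t g ξ x h1
    · exact absurd h1 (notMem_empty _)

theorem ea_sub : (univ.erase D.v).erase D.a ⊆ ((univ.erase D.a).erase D.v : Finset ι) := by
  rw [Finset.erase_right_comm]

open Classical in
/-- the box sets of the keys -/
def basO (H : (D.inp M n al cs).Ok S D.S0 D.v) (l : ι) : BSt S D.v l :=
  if h : l ∈ D.S0 then RuS.bas p H h else BSt.emp S D.v l

/-- **THE OBJECTS OF THE STEP** -/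
def obj (H : (D.inp M n al cs).Ok S D.S0 D.v) (hp : p.Ok Kn Yn) (ph : ℕ → ℕ) (N : ∀ u : ι, Lst S (univ.erase u))
    (PN : ∀ u : ι, BSt S u D.v) : StepObj S D.v D.a where
  N := N
  Ls := LsO D al cs p H hp ph
  rnx := xrn
  ep := repo
  co := RuS.cofn p.ea
  hs := rhs
  phi _ := ph
  sr := xref
  kl := fun l x => xkey l x
  h := (RuS.fac p H D.a).up (ea_sub D)
  X' l := RuS.fac p H l
  PL l := basO D al cs p H l
  PN := PN

variable {D al cs p} {ph : ℕ → ℕ} {H : (D.inp M n al cs).Ok S D.S0 D.v} {hp : p.Ok Kn Yn}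

theorem mem_LsO {ν t : ℕ} {w : Om} {x : ℕ} :
    x ∈ (LsO D al cs p H hp ph ν).at' t w ↔
      ∃ b : Fin n, D.Lv.rkw b t w = some ν ∧ x ∈ (lsR D al cs p H hp ph b).at' t w := by
  classical
  show x ∈ univ.biUnion (fun b : Fin n => if D.Lv.rk b t (S.gm t w) (S.xi w) (S.x w) = some ν then
    (lsR D al cs p H hp ph b).L t (S.gm t w) (S.xi w) (S.x w) else ∅) ↔ _
  rw [mem_biUnion]
  constructor
  · rintro ⟨b, -, h⟩
    split_ifs at h with h2
    · exact ⟨b, h2, h⟩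
    · exact absurd h (notMem_empty _)
  · rintro ⟨b, h1, h2⟩
    have h1' : D.Lv.rk b t (S.gm t w) (S.xi w) (S.x w) = some ν := h1
    exact ⟨b, mem_univ _, by rw [if_pos h1']; exact h2⟩

/-- the list of the code is the list of its rank -/
theorem LsO_at {ν t : ℕ} {w : Om} {b : Fin n} (h : D.Lv.rkw b t w = some ν) :
    (LsO D al cs p H hp ph ν).at' t w = (lsR D al cs p H hp ph b).at' t w := by
  ext x
  rw [mem_LsO]
  constructor
  · rintro ⟨b', h1, h2⟩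
    have e : b' = b := Fin.ext (D.Lv.rk_inj h1 h)
    rwa [e] at h2
  · intro h1
    exact ⟨b, h, h1⟩

/-- every client has a rank -/
theorem exists_rank {t : ℕ} {w : Om} (hc : (D.Lv.at' t w).card ≤ n) {ν : ℕ} (hν : ν ∈ D.Lv.at' t w) :
    ∃ b : Fin n, D.Lv.rkw b t w = some ν := by
  obtain ⟨b, hb, h⟩ := D.Lv.exists_rkw hν
  exact ⟨⟨b, hb.trans_le hc⟩, h⟩

theorem basO_of (H : (D.inp M n al cs).Ok S D.S0 D.v) {l : ι} (h : l ∈ D.S0) :
    basO D al cs p H l = RuS.bas p H h := dif_pos h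

theorem mem_S0e {l : ι} (hl : l = D.a ∨ l ∈ D.L) : l ∈ D.S0.erase D.v := by
  rw [StepIn.S0_erase, mem_insert]
  exact hl

variable {N : ∀ u : ι, Lst S (univ.erase u)} {PN : ∀ u : ι, BSt S u D.v}

/-- the approximation of the target = the sum over the uses of the rank -/
theorem appr_obj (hmem : ∀ t ≤ S.n, ∀ w r, al t (S.gm t w) (S.xi w) (S.x w) r → ∀ u ∈ D.Rf,
      ∃ s, (D.refR M u).At (r u) t w s ∧ s ∈ (N u).at' t w) {t : ℕ} (ht1 : 1 ≤ t) (ht : t ≤ S.n) {w : Om} {ν : ℕ}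
    {b : Fin n} (h : D.Lv.rkw b t w = some ν) (d : V) :
    D.Tg.at' ν t w d - appr D (obj D al cs p H hp ph N PN) ν t w d =
      RuS.eact S (D.inp M n al cs) D.S0 D.v p w b t d := by
  have h1 := RuS.lst_appr (rf := rfO D) (ph := ph) H hp (rfO_dep D) b t w (fun u m => (D.Xr u).at' m t w d) D.Rf d
    (by
      intro r t' ht' hal _
      choose! s hs1 hs2 using hmem t' (ht'.trans ht) w r hal
      have h2 : (D.inp M n al cs).v r t (S.gm t w) (S.x w) d = ∏ u ∈ D.Rf, (D.Xr u).at' (s u) t w d :=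
        mulR_val' ht1 (fun u hu => (hs1 u hu).le ht') d
      rw [h2]
      exact Finset.prod_congr rfl fun u hu => by rw [rfO_at hu (hs1 u hu)])
  have h2 : (D.inp M n al cs).u b t (S.gm t w) (S.xi w) (S.x w) d = D.Tg.at' ν t w d := StepIn.cliU_val ht1 h d
  have h3 : appr D (obj D al cs p H hp ph N PN) ν t w d =
      (D.inp M n al cs).u b t (S.gm t w) (S.xi w) (S.x w) d - RuS.eact S (D.inp M n al cs) D.S0 D.v p w b t d := by
    rw [← h1]
    unfold appr curE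
    have e : ((obj D al cs p H hp ph N PN).Ls ν).at' t w = (lsR D al cs p H hp ph b).at' t w := LsO_at h
    rw [e]
    refine Finset.sum_congr rfl fun x _ => ?_
    rw [StepIn.S0_erase, Finset.prod_insert D.aL, mul_assoc]
    rfl
  rw [h3, h2, sub_sub_cancel]

/-- the clients do not see the coin of the face `δ` -/
theorem rk_free (hz : D.Lv.Free D.pz) (b t : ℕ) (g : Γ) {ξ ξ' : Ξ} (h : D.pz ξ = D.pz ξ') (x : ι → Pt) :
    D.Lv.rk b t g ξ x = D.Lv.rk b t g ξ' x := by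
  unfold Lst.rk
  have e : (fun t g x => D.Lv.L t g ξ x) = fun t g x => D.Lv.L t g ξ' x := by
    funext t g x
    exact hz t g ξ ξ' x h
  rw [e]

theorem inp_zfree (hal : ∀ t g ξ ξ' x, D.pz ξ = D.pz ξ' → al t g ξ x = al t g ξ' x) (hz : D.Lv.Free D.pz) :
    RuS.Zfree D.pz (D.inp M n al cs) where
  u b t g ξ ξ' x h := by
    show D.cliU b t g ξ x = D.cliU b t g ξ' x
    unfold StepIn.cliU
    rw [rk_free hz b t g h x]
  al _ t g ξ ξ' x h := hal t g ξ ξ' x h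

theorem LsO_free (hal : ∀ t g ξ ξ' x, D.pz ξ = D.pz ξ' → al t g ξ x = al t g ξ' x) (hz : D.Lv.Free D.pz) (ν : ℕ) :
    (LsO D al cs p H hp ph ν).Free D.pz := fun t g ξ ξ' x h => by
  refine Finset.biUnion_congr rfl fun b _ => ?_
  rw [rk_free hz b t g h x]
  have e : (lsR D al cs p H hp ph b).L t g ξ x = (lsR D al cs p H hp ph b).L t g ξ' x :=
    RuS.lst_free H hp (rfO_dep D) (inp_zfree hal hz) b t g h x
  rw [e]

/-- **OUTPUT OF THE STEP** from bounds at the sample points outside ONE bad event `Bad`; hash `ph` with values at most `m` -/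
theorem obj_out (Bad : Om → Prop) {η q : ℝ} {nu n' B' m : ℕ} (hq : S.P.Pr Bad ≤ q) (hea0 : 0 ≤ p.ea) (hea : p.ea ≤ 2)
    (hcv : ∀ t ≤ S.n, ∀ w, (D.Lv.at' t w).card ≤ n)
    (hmem : ∀ t ≤ S.n, ∀ w r, al t (S.gm t w) (S.xi w) (S.x w) r → ∀ u ∈ D.Rf,
      ∃ s, (D.refR M u).At (r u) t w s ∧ s ∈ (N u).at' t w)
    (halz : ∀ t g ξ ξ' x, D.pz ξ = D.pz ξ' → al t g ξ x = al t g ξ' x)
    (hNz : ∀ u ∈ D.Rf, (N u).Free D.pz)
    (hpub : ∀ t ≤ S.n, ∀ w, ∀ u ∈ D.Rf, (N u).at' t w ⊆ (PN u).at' t w)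
    (hph : ∀ i, ph i ≤ m) (hm2 : 2 ≤ m) (hnm : nu ≤ m) (hmB : (m + 3) ^ (2 ^ (Fintype.card ι + 2)) ≤ B')
    (hnu : ∀ w, ¬ Bad w → ∀ b : Fin n,
      RuS.ucn S (D.inp M n al cs) D.S0 D.v p w (S.xi w, S.x w) b (Ru.Dat.la (p.a Cl) S.n) p.N +
      RuS.epc S (D.inp M n al cs) D.S0 D.v p w (S.xi w, S.x w) b (Ru.Dat.la (p.a Cl) S.n) ≤ nu)
    (hN : ∀ w, ¬ Bad w → ∀ u ∈ D.Rf, ((N u).at' S.n w).card ≤ n')
    (hPN : ∀ w, ¬ Bad w → ∀ u ∈ D.Rf, ((PN u).at' S.n w).card ≤ B')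
    (hbas : ∀ w, ¬ Bad w → ∀ l (hl : l ∈ D.S0), l ≠ D.v → ((RuS.bas p H hl).at' S.n w).card ≤ B')
    (hinj : ∀ w, ¬ Bad w → ∀ u ∈ D.Rf, Set.InjOn ph ((N u).at' S.n w))
    (hclose : ∀ w, ¬ Bad w → ∀ t, 1 ≤ t → t ≤ S.n → ∀ b : Fin n, ∀ s : ι → ℕ,
      (∀ u ∈ D.Rf, s u ∈ (D.Lr u).at' t w) → ∀ z : ι → β,
      |formTerm D z s (RuS.eact S (D.inp M n al cs) D.S0 D.v p w b t) t w| ≤ η) :
    StepOut D (obj D al cs p H hp ph N PN) η q nu n' B' (fun _ w => Bad w) := by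
  have hmB' : m ≤ B' := by
    refine le_trans ?_ hmB
    calc m ≤ (m + 3) ^ 1 := by rw [pow_one]; omega
      _ ≤ _ := Nat.pow_le_pow_right (by omega) Nat.one_le_two_pow
  have hmo : ∀ {t : ℕ}, t ≤ S.n → Ru.Dat.la (p.a Cl) t ≤ Ru.Dat.la (p.a Cl) S.n := fun ht => RuS.la_mono ht
  have hb : ∀ {w : Om} {t : ℕ}, t ≤ S.n → ∀ b : Fin n,
      RuS.ucn S (D.inp M n al cs) D.S0 D.v p w (S.xi w, S.x w) b (Ru.Dat.la (p.a Cl) t) p.N ≤
        RuS.ucn S (D.inp M n al cs) D.S0 D.v p w (S.xi w, S.x w) b (Ru.Dat.la (p.a Cl) S.n) p.N ∧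
      RuS.epc S (D.inp M n al cs) D.S0 D.v p w (S.xi w, S.x w) b (Ru.Dat.la (p.a Cl) t) ≤
        RuS.epc S (D.inp M n al cs) D.S0 D.v p w (S.xi w, S.x w) b (Ru.Dat.la (p.a Cl) S.n) := fun ht b =>
    ⟨Ru.uct_mono (hmo ht), Ru.epo_mono (hmo ht)⟩
  exact
  { inc := fun _ _ h => h
    small := hq
    co1 := fun x => (RuS.cofn_le hea0 x).trans (by linarith)
    cardL := fun t ht w hw ν hν => by
      obtain ⟨b, h1⟩ := exists_rank (hcv t ht w) hν
      have e : ((obj D al cs p H hp ph N PN).Ls ν).at' t w = (lsR D al cs p H hp ph b).at' t w := LsO_at h1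
      rw [e]
      refine (RuS.lst_card H hp (rfO_dep D) b t w).trans (le_trans ?_ (hnu w hw b))
      exact add_le_add (hb ht b).1 (hb ht b).2
    cardN := fun t ht w hw u hu => (card_le_card ((N u).at_le ht w)).trans (hN w hw u hu)
    numL := fun t ht w hw ν hν x hx => by
      obtain ⟨b, h1, h2⟩ := mem_LsO.1 hx
      have h3 := hnu w hw b
      have h4 := hb (w := w) ht b
      exact (RuS.lst_num H hp (rfO_dep D) h2 hm2 hph (by omega) (by omega)).trans hmB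
    numN := fun t ht w hw u hu i hi => (hph i).trans hmB'
    injL := fun t ht w hw ν hν => by
      obtain ⟨b, h1⟩ := exists_rank (hcv t ht w) hν
      have e : ((obj D al cs p H hp ph N PN).Ls ν).at' t w = (lsR D al cs p H hp ph b).at' t w := LsO_at h1
      rw [e]
      exact RuS.lst_inj H hp (rfO_dep D) b t w
    injN := fun t ht w hw u hu => (hinj w hw u hu).mono (coe_subset.2 ((N u).at_le ht w))
    pubL := fun t ht w hw l hl ν hν x hx => by
      obtain ⟨b, h1, h2⟩ := mem_LsO.1 hx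
      have h3 := RuS.lst_bas H hp (rfO_dep D) h2 (mem_S0e hl)
      show xkey l x ∈ (basO D al cs p H l).at' t w
      rw [basO_of H (mem_of_mem_erase (mem_S0e hl))]
      exact h3
    cardPL := fun t ht w hw l hl => by
      show ((basO D al cs p H l).at' t w).card ≤ B'
      rw [basO_of H (mem_of_mem_erase (mem_S0e hl))]
      exact (card_le_card ((RuS.bas p H _).at_le ht w)).trans (hbas w hw l _ (ne_of_mem_erase (mem_S0e hl)))
    pubN := fun t ht w _ u hu => hpub t ht w u hu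
    cardPN := fun t ht w hw u hu => (card_le_card ((PN u).at_le ht w)).trans (hPN w hw u hu)
    on := fun t ht w hw ν hν x hx => by
      obtain ⟨b, h1, h2⟩ := mem_LsO.1 hx
      exact RuS.lst_on H hp (rfO_dep D) h2 (mem_S0e (Or.inl rfl))
    mem := fun t ht w hw ν hν x hx h0 u hu => by
      obtain ⟨b, h1, h2⟩ := mem_LsO.1 hx
      obtain ⟨t', ht', r, h3, -, h4⟩ := RuS.lst_ref H hp (rfO_dep D) h2 h0
      obtain ⟨s, h5, h6⟩ := hmem t' (ht'.trans ht) w r h3 u hu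
      show xref x u ∈ (N u).at' t w
      rw [h4 u, rfO_at hu h5]
      exact (N u).at_le ht' w h6
    hash := fun t ht w hw ν hν x hx h0 u hu => by
      obtain ⟨b, h1, h2⟩ := mem_LsO.1 hx
      exact RuS.lst_hash H hp (rfO_dep D) h2 u
    freeN := hNz
    freeL := fun hz ν => LsO_free halz hz ν
    close := fun t ht1 ht w hw z ν hν s hs => by
      obtain ⟨b, h1⟩ := exists_rank (hcv t ht w) hν
      have e : (fun d => D.Tg.at' ν t w d - appr D (obj D al cs p H hp ph N PN) ν t w d) =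
          RuS.eact S (D.inp M n al cs) D.S0 D.v p w b t := by
        funext d
        exact appr_obj hmem ht1 ht h1 d
      rw [e]
      exact hclose w hw t ht1 ht b s hs z }

variable (D al cs p) in
/-- **what has to hold at the sample point `w`** -/
structure Fine (H : (D.inp M n al cs).Ok S D.S0 D.v) (hp : p.Ok Kn Yn) (ph : ℕ → ℕ)
    (N : ∀ u : ι, Lst S (univ.erase u)) (PN : ∀ u : ι, BSt S u D.v) (b : ℝ) (nu n' B3 : ℕ) (w : Om) : Prop where
  /-- T_j -/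
  good : RuS.GoodT S (D.inp M n al cs) D.S0 D.v p D.famF b w
  /-- no true tuple is critical -/
  nocr : ∀ t ≤ S.n, ∀ (c : Fin n) (r : Rk ι M), D.RTr M r t w →
    RuS.NoCrit S (D.inp M n al cs) D.S0 D.v p w c (S.xi w, S.x w) r (t * (2 * p.m + 2)) t
  /-- ends of stretches -/
  ends : ∀ (c : Fin n) (r : Rk ι M), (RuS.Mc S (D.inp M n al cs) D.S0 D.v p w c (S.xi w, S.x w)).nE
    (RuS.Ac S (D.inp M n al cs) D.S0 D.v p w c (S.xi w, S.x w)) p.N r (Ru.Dat.la (p.a Cl) S.n) ≤ I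
  /-- number of uses and markers -/
  cnt : ∀ c : Fin n, RuS.ucn S (D.inp M n al cs) D.S0 D.v p w (S.xi w, S.x w) c (Ru.Dat.la (p.a Cl) S.n) p.N +
    RuS.epc S (D.inp M n al cs) D.S0 D.v p w (S.xi w, S.x w) c (Ru.Dat.la (p.a Cl) S.n) ≤ nu
  vis : ∀ u ∈ D.Rf, ((D.refSet u).at' S.n w).card ≤ M
  box : ∀ l, ∀ hl : l ∈ D.S0, l ≠ D.v → ((RuS.bas p H hl).at' S.n w).card ≤ B3
  cN : ∀ u ∈ D.Rf, ((N u).at' S.n w).card ≤ n'
  cP : ∀ u ∈ D.Rf, ((PN u).at' S.n w).card ≤ B3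
  hsh : ∀ u ∈ D.Rf, ∀ t ≤ S.n, ¬ Coll ph ((PN u).at' t w)

/-- **THE OUTPUT OF THE STEP** -/
theorem out_of (H : (D.inp M n al cs).Ok S D.S0 D.v) (hp : p.Ok Kn Yn) {ph : ℕ → ℕ}
    {N : ∀ u : ι, Lst S (univ.erase u)} {PN : ∀ u : ι, BSt S u D.v} {b η q : ℝ} {nu n' B B3 mx : ℕ} {Bad : Om → Prop}
    (hF : ∀ w, ¬ Bad w → Fine D al cs p H hp ph N PN b nu n' B3 w) (hq : S.P.Pr Bad ≤ q)
    (hB : D.Bd n B) (hM : 0 < M) (he1 : p.ea ≤ 1)
    (halz : ∀ t g ξ ξ' x, D.pz ξ = D.pz ξ' → al t g ξ x = al t g ξ' x)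
    (Nz : ∀ u ∈ D.Rf, (N u).Free D.pz)
    (hmem : ∀ t ≤ S.n, ∀ w : Om, ∀ r, al t (S.gm t w) (S.xi w) (S.x w) r → ∀ u ∈ D.Rf,
      ∃ s, (D.refR M u).At (r u) t w s ∧ s ∈ (N u).at' t w)
    (hpub : ∀ t ≤ S.n, ∀ w, ∀ u ∈ D.Rf, (N u).at' t w ⊆ (PN u).at' t w)
    (hph : ∀ k, ph k ≤ mx) (h2 : 2 ≤ mx) (hnu : nu ≤ mx) (h3 : (mx + 3) ^ (2 ^ (Fintype.card ι + 2)) ≤ B3)
    (hη : b * p.Y + 4 / p.Y + S.near * (1 + p.ea / 2 * nu) ≤ η) :
    StepOut D (obj D al cs p H hp ph N PN) η q nu n' B3 (fun _ w => Bad w) := by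
  refine obj_out Bad hq hp.e0.le (by linarith) hB.cv hmem halz Nz hpub hph h2 hnu h3 (fun w hw => (hF w hw).cnt)
    (fun w hw => (hF w hw).cN) (fun w hw => (hF w hw).cP) (fun w hw => (hF w hw).box) (fun w hw u hu => ?_)
    (fun w hw t ht1 ht c s hs z => ?_)
  · intro i hi j hj hij
    rw [mem_coe] at hi hj
    have h4 := hpub S.n le_rfl w u hu
    exact inj_of_not_coll ((hF w hw).hsh u hu S.n le_rfl) (h4 hi) (h4 hj) hij
  · have hf := hF w hw
    obtain ⟨r, hr⟩ := StepIn.exists_RAt (D := D) hM (s := s) (t := t) (w := w)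
      (fun u hu => (card_le_card ((D.refSet u).at_le ht w)).trans (hf.vis u hu))
      (fun u hu => StepIn.mem_refSet hB hu ht (hs u hu))
    refine (close_of D H hp hf.good ht1 ht hr (hf.nocr t ht c r (hr.tr hs))
      ((Mach.nE_mono (RuS.la_mono ht)).trans (hf.ends c r)) (n1 := (nu : ℝ)) ?_ z fun _ => rfl).trans hη
    have h5 : RuS.ucn S (D.inp M n al cs) D.S0 D.v p w (S.xi w, S.x w) c (Ru.Dat.la (p.a Cl) t) p.N ≤
        RuS.ucn S (D.inp M n al cs) D.S0 D.v p w (S.xi w, S.x w) c (Ru.Dat.la (p.a Cl) S.n) p.N :=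
      Ru.uct_mono (RuS.la_mono ht)
    have h6 := hf.cnt c
    exact_mod_cast (by omega : RuS.ucn S (D.inp M n al cs) D.S0 D.v p w (S.xi w, S.x w) c (Ru.Dat.la (p.a Cl) t) p.N ≤ nu)

end

end Pool.Agent.GMN
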