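import Pool.Agent.GM.GSscale
import Pool.Agent.GMN.TjSMI
import Pool.Agent.GMN.TjMain

/-!
# GMN/TjCoin (helper14): Lemma T_j in the class `CoinSMI` (systems with more coins)

`tj_coin m C0` : there is `C` such that for every system `S` with at most `m` vertices in the class `CoinSMI S j C0`, all
coins `Ξ2`, all `T` with at most `j` elements, `δ ∈ T` : `TJ (addCoins S Ξ2) T δ C` (and `TJ S T δ C`).
-/

set_option autoImplicit false
set_option linter.unusedSectionVars false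

namespace Pool.Agent.GMN

open Finset Pool.Agent.PWZ Pool.Agent.M3 Pool.Agent.M3.TS Pool.Agent.GM

noncomputable section

theorem tj_coin (m C0 : ℕ) : ∃ C : ℕ, ∀ (ι Om Ξ Pt V Γ κ : Type) [Fintype ι] [DecidableEq ι] [Fintype Om]
    [Fintype Ξ] [Fintype Pt] [Fintype V] (S : Sys ι Om Ξ Pt V Γ κ) (j : ℕ), Fintype.card ι ≤ m → CoinSMI S j C0 →
    ∀ (T : Finset ι) (δ : ι), δ ∈ T → T.card ≤ j →
      TJ S T δ C ∧ ∀ (Ξ2 : Type) [Fintype Ξ2] [Nonempty Ξ2], TJ (addCoins S Ξ2) T δ C := by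
  obtain ⟨C, hC⟩ := tj_all m (2 * (C0 + 1))
  refine ⟨C, fun ι Om Ξ Pt V Γ κ _ _ _ _ _ _ S j hm hS T δ hδ hT => ?_⟩
  have hmono : CoinSMI S j (C0 + 1) := by
    intro Ξ2 _ _ T' δ' hδ' h2' hT' β H hβ hβ2 hβH hKH hnear
    have hH2 := two_le_H hβ hβ2 hβH
    have h1 : β ^ (C0 + 1) ≤ β ^ C0 := pow_le_pow_of_le_one hβ.le (by linarith) (Nat.le_succ C0)
    have h2 : H ^ C0 ≤ H ^ (C0 + 1) := pow_le_pow_right₀ (by linarith) (Nat.le_succ C0)
    exact Sys.SMIat.mono (hS Ξ2 T' δ' hδ' h2' hT' β H hβ hβ2 hβH hKH (hnear.trans h1)) le_rfl le_rfl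
      (Real.exp_le_exp.2 (neg_le_neg h2)) h1 le_rfl le_rfl
  refine ⟨hC ι Om Ξ Pt V Γ κ S hm T δ hδ fun S' hS' hδ' h2' => hmono.smi (Nat.le_add_left _ _) hδ' h2'
    ((Finset.card_le_card hS').trans hT), fun Ξ2 _ _ => ?_⟩
  exact hC ι _ _ Pt V Γ κ (addCoins S Ξ2) hm T δ hδ fun S' hS' hδ' h2' =>
    (hmono.add Ξ2).smi (Nat.le_add_left _ _) hδ' h2' ((Finset.card_le_card hS').trans hT)

end

end Pool.Agent.GMN
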