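import Pool.Agent.GMN.StepTj
import Pool.Agent.GMN.StepObj
import Pool.Agent.GMN.StepCard
import Pool.Agent.GMN.StepFail
import Pool.Agent.GMN.Hash
import Pool.Agent.GMN.TjCoin
import Pool.Agent.GMN.JRDef
import Pool.Agent.GMN.RuleDef

/-!
# GMN/StepAsm (helper25): THE RULE OF STEP C, union of the bad events

`step_core` : one step from the record lemma (`RecOut`), Lemma T_j on the system with the coins of the records and the
inequalities of the numbers.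
-/

set_option autoImplicit false
set_option linter.unusedSectionVars false

namespace Pool.Agent.GMN

open Finset Pool.Agent.PWZ Pool.Agent.M3 Pool.Agent.M3.TS Pool.Agent.GM

noncomputable section

/-- sum of the probabilities of nine events -/
theorem Pr_nine {Om : Type} [Fintype Om] (P : FP Om) {A1 A2 A3 A4 A5 A6 A7 A8 A9 : Om → Prop} {q q0 : ℝ}
    (h1 : P.Pr A1 ≤ q0) (h2 : P.Pr A2 ≤ q0) (h3 : P.Pr A3 ≤ q0) (h4 : P.Pr A4 ≤ q0) (h5 : P.Pr A5 ≤ q0)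
    (h6 : P.Pr A6 ≤ q0) (h7 : P.Pr A7 ≤ q0) (h8 : P.Pr A8 ≤ q0) (h9 : P.Pr A9 ≤ q0) (hq : 9 * q0 ≤ q) :
    P.Pr (fun w => A1 w ∨ A2 w ∨ A3 w ∨ A4 w ∨ A5 w ∨ A6 w ∨ A7 w ∨ A8 w ∨ A9 w) ≤ q := by
  have e8 := P.Pr_or_le A8 A9
  have e7 := P.Pr_or_le A7 (fun w => A8 w ∨ A9 w)
  have e6 := P.Pr_or_le A6 (fun w => A7 w ∨ A8 w ∨ A9 w)
  have e5 := P.Pr_or_le A5 (fun w => A6 w ∨ A7 w ∨ A8 w ∨ A9 w)
  have e4 := P.Pr_or_le A4 (fun w => A5 w ∨ A6 w ∨ A7 w ∨ A8 w ∨ A9 w)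
  have e3 := P.Pr_or_le A3 (fun w => A4 w ∨ A5 w ∨ A6 w ∨ A7 w ∨ A8 w ∨ A9 w)
  have e2 := P.Pr_or_le A2 (fun w => A3 w ∨ A4 w ∨ A5 w ∨ A6 w ∨ A7 w ∨ A8 w ∨ A9 w)
  have e1 := P.Pr_or_le A1 (fun w => A2 w ∨ A3 w ∨ A4 w ∨ A5 w ∨ A6 w ∨ A7 w ∨ A8 w ∨ A9 w)
  linarith

section core

variable {ι Om Ξ Pt V Γ κ : Type} [Fintype ι] [DecidableEq ι] [Fintype Om] [Fintype Ξ] [Fintype Pt]
  [Fintype V] {S : Sys ι Om Ξ Pt V Γ κ} {β : Type} [Fintype β] (D : StepIn S β) {Ξ2 : Type} [Fintype Ξ2] [Nonempty Ξ2]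

/-- **ONE STEP FROM THE RECORD LEMMA, T_j AND THE INEQUALITIES OF THE NUMBERS** -/
theorem step_core [Nonempty Pt] {M n B I j k nu nR BR Mh mx B3 C1 : ℕ} {b pY ea H θ cf q0 q η : ℝ}
    (hB : D.Bd n B) (hTJ : TJ (addCoins S Ξ2) (D.add Ξ2).S0 (D.add Ξ2).v C1) (R : RecOut D M Ξ2 nR BR q0 cf)
    (hq : 9 * q0 ≤ q) (hb : 0 < b) (hb2 : b ≤ 1 / 2) (hbH : 1 / b ≤ H) (hK : S.K ≤ Real.exp H) (hnear : S.near ≤ b ^ C1)
    (hcK : ((n * (M ^ Fintype.card ι * (I + 1)) : ℕ) : ℝ) ≤ Real.exp H) (hcZ : (Fintype.card β : ℝ) ≤ Real.exp H)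
    (hH : Real.exp (-H) ≤ q0) (hθ0 : 0 < θ) (hθ : θ ≤ Real.exp (-H ^ C1)) (hea : 0 < ea) (hea1 : ea ≤ 1) (hpY : 0 < pY)
    (heY : ea / pY ≤ b ^ C1) (heH : 4 + 20 / ea ^ 2 ≤ H) (hη : b * pY + 4 / pY + S.near * (1 + ea / 2 * nu) ≤ η)
    (hk : k * (56 / ea ^ 2 + 10) ≤ nu) (hk2 : n * (2 * (1 / 2) ^ k) ≤ q0) (hM : 0 < M)
    (hM2 : Fintype.card ι * (S.K * B) / M ≤ q0) (hj : (j : ℝ) * (2 * Ru.IndM.NvB ea + 2) ≤ I)
    (hj2 : n * (M : ℝ) ^ Fintype.card ι * (1 / 2) ^ j ≤ q0)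
    (hcf : n * (cf * ((Ru.IndM.NvB ea + 1) * (20 / ea ^ 2 + 1))) ≤ q0)
    (hMh : 0 < Mh) (hMh2 : Fintype.card ι * ((BR : ℝ) ^ 2 / Mh) ≤ q0) (hmx : Mh ≤ mx) (hmx2 : 2 ≤ mx) (hmx3 : nu ≤ mx)
    (hB3 : (mx + 3) ^ (2 ^ (Fintype.card ι + 2)) ≤ B3) (hB4 : BR ≤ B3) (hB5 : 0 < B3)
    (hB6 : Fintype.card ι * ((1 + Real.exp (H ^ C1) * (1 + 20 / ea ^ 2 / θ)) / B3) ≤ q0) :
    ∃ (O : StepObj (addCoins S Ξ2) D.v D.a) (dead : ℕ → (Om × Ξ2) → Prop),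
      StepOut (D.add Ξ2) O η q nu nR B3 dead := by
  obtain ⟨Cl, iCl, cs, hCl, hcs, hok, htj⟩ := (D.add Ξ2).step_tj (M := M) (n := n) (I := I) (C := C1) hTJ hb hb2 hbH hK
    hnear (al := R.al) R.aldep (by rw [StepIn.card_runs]; exact hcK) hcZ
  obtain ⟨p, hp, e1, e2, e3, -⟩ := RuS.exists_prm (Fintype.card (Ru.Ka (Fin n) (Rk ι M) I))
    (Fintype.card ((Ξ × Ξ2) × (ι → Pt))) hpY hea hθ0
  have hp2 : p.θ ≤ Real.exp (-H ^ C1) := e3.trans_le hθ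
  have h1 := htj p hp hp2 (by rw [e1, e2]; exact heY) (by rw [e2]; exact heH)
  have h2 := step_fail R hcs hp
  have h3 := step_ends (D := D.add Ξ2) (M := M) (n := n) (I := I) (al := R.al) (cs := cs) (p := p) R.aldep R.almono hcs hp
    (j := j) (by rw [e2]; exact hj)
  have h4 := step_cards (D := D.add Ξ2) (M := M) (n := n) (I := I) (al := R.al) (cs := cs) (p := p) R.aldep hcs hp
    (nu := nu) (k := k) (by rw [e2]; exact hk)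
  have h5 := step_vis (M := M) hB hM
  have h7 := R.cardN
  have h8 := R.cardPN
  -- the hash
  obtain ⟨ph, hph, h9⟩ := exists_hash_all S.P D.Rf (fun u t w => (R.PN u).at' t w) S.n
    (fun u _ t w => (R.PN u).at_succ t w) (fun w => ∃ u ∈ D.Rf, BR < ((R.PN u).at' S.n w).card) BR
    (fun u hu w h => by
      have h' : ((R.PN u).at' S.n w).card ≤ BR := by
        by_contra h0
        exact h ⟨u, hu, not_le.1 h0⟩
      exact_mod_cast h') hMh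
  -- the bad event
  have Hin : ((D.add Ξ2).inp M n R.al cs).Ok (addCoins S Ξ2) (D.add Ξ2).S0 (D.add Ξ2).v := StepIn.inp_ok R.aldep hcs
  have hR : (D.Rf.card : ℝ) ≤ Fintype.card ι := by exact_mod_cast Finset.card_le_univ _
  let A1 : Om × Ξ2 → Prop := fun w => ∃ t ≤ (addCoins S Ξ2).n, ∃ (k : Ru.Ka (Fin n) (Rk ι M) I) (z : ι → β),
    b ≤ |mn (addCoins S Ξ2) t ((addCoins S Ξ2).gm t w) (fun d =>
      (∏ l ∈ (D.add Ξ2).S0.erase (D.add Ξ2).v, val0 (addCoins S Ξ2) ((D.add Ξ2).famF l (z l)) t w d) *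
        (val (addCoins S Ξ2) (RuS.Er (addCoins S Ξ2) ((D.add Ξ2).inp M n R.al cs) (D.add Ξ2).S0 (D.add Ξ2).v p k) t w d *
          val0 (addCoins S Ξ2) ((D.add Ξ2).mulR M k.2.1) t w d))|
  let A2 : Om × Ξ2 → Prop := fun w => ∃ c : Fin n, FailB (D.add Ξ2) R.al cs p c w
  let A3 : Om × Ξ2 → Prop := fun w => ∃ (c : Fin n) (r : Rk ι M), I < nEb (D.add Ξ2) R.al cs p c r w
  let A4 : Om × Ξ2 → Prop := fun w => ∃ c : Fin n, nu <
    RuS.ucn (addCoins S Ξ2) ((D.add Ξ2).inp M n R.al cs) (D.add Ξ2).S0 (D.add Ξ2).v p w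
      ((addCoins S Ξ2).xi w, (addCoins S Ξ2).x w) c (Ru.Dat.la (p.a Cl) (addCoins S Ξ2).n) p.N +
    RuS.epc (addCoins S Ξ2) ((D.add Ξ2).inp M n R.al cs) (D.add Ξ2).S0 (D.add Ξ2).v p w
      ((addCoins S Ξ2).xi w, (addCoins S Ξ2).x w) c (Ru.Dat.la (p.a Cl) (addCoins S Ξ2).n)
  let A5 : Om × Ξ2 → Prop := fun w => ∃ u ∈ D.Rf, M < ((D.refSet u).at' S.n w.1).card
  let A6 : Om × Ξ2 → Prop := fun w => ∃ l ∈ (D.add Ξ2).S0, ∃ hl : l ∈ (D.add Ξ2).S0,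
    B3 < ((RuS.bas p Hin hl).at' (addCoins S Ξ2).n w).card
  let A7 : Om × Ξ2 → Prop := fun w => ∃ u ∈ D.Rf, nR < ((R.N u).at' S.n w).card
  let A8 : Om × Ξ2 → Prop := fun w => ∃ u ∈ D.Rf, BR < ((R.PN u).at' S.n w.1).card
  let A9 : Om × Ξ2 → Prop := fun w => (¬ ∃ u ∈ D.Rf, BR < ((R.PN u).at' S.n w.1).card) ∧
    ∃ u ∈ D.Rf, ∃ t ≤ S.n, Coll ph ((R.PN u).at' t w.1)
  have q1 : (addCoins S Ξ2).P.Pr A1 ≤ q0 := h1.trans hH
  have q2 : (addCoins S Ξ2).P.Pr A2 ≤ q0 := by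
    refine h2.trans ?_
    rw [e2]
    exact hcf
  have q3 : (addCoins S Ξ2).P.Pr A3 ≤ q0 := h3.trans hj2
  have q4 : (addCoins S Ξ2).P.Pr A4 ≤ q0 := h4.trans hk2
  have q5 : (addCoins S Ξ2).P.Pr A5 ≤ q0 := by
    have h := coinFP_Pr_fst S.P Ξ2 (fun w => ∃ u ∈ D.Rf, M < ((D.refSet u).at' S.n w).card)
    refine le_trans (le_of_eq h) (h5.trans hM2)
  have q6 : (addCoins S Ξ2).P.Pr A6 ≤ q0 := by
    have hB5' : (0 : ℝ) < B3 := by exact_mod_cast hB5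
    have hc0 : (0 : ℝ) ≤ 1 + 20 / ea ^ 2 / θ := by positivity
    have hX : (1 + (Fintype.card Cl : ℝ) * (1 + 20 / p.ea ^ 2 / p.θ)) / B3 ≤
        (1 + Real.exp (H ^ C1) * (1 + 20 / ea ^ 2 / θ)) / B3 := by
      rw [e2, e3]
      refine div_le_div_of_nonneg_right ?_ hB5'.le
      have := mul_le_mul_of_nonneg_right hCl hc0
      linarith
    have hl1 : ∀ l ∈ (D.add Ξ2).S0, (addCoins S Ξ2).P.Pr (fun w => ∃ hl : l ∈ (D.add Ξ2).S0,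
        B3 < ((RuS.bas p Hin hl).at' (addCoins S Ξ2).n w).card) ≤
        (1 + Real.exp (H ^ C1) * (1 + 20 / ea ^ 2 / θ)) / B3 := by
      intro l hl
      have h := step_box (D := D.add Ξ2) (M := M) (n := n) (I := I) (al := R.al) (cs := cs) (p := p) R.aldep hcs hp
        (B' := B3) hB5 hl
      refine le_trans ((addCoins S Ξ2).P.Pr_mono fun w _ hw => ?_) (h.trans hX)
      obtain ⟨_, h0⟩ := hw
      exact h0
    refine ((addCoins S Ξ2).P.Pr_ex_le (D.add Ξ2).S0 _).trans ((Finset.sum_le_sum hl1).trans (le_trans ?_ hB6))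
    rw [Finset.sum_const, nsmul_eq_mul]
    refine mul_le_mul_of_nonneg_right (by exact_mod_cast Finset.card_le_univ _) ?_
    have := Real.exp_pos (H ^ C1)
    positivity
  have q7 : (addCoins S Ξ2).P.Pr A7 ≤ q0 := h7
  have q8 : (addCoins S Ξ2).P.Pr A8 ≤ q0 := by
    have h := coinFP_Pr_fst S.P Ξ2 (fun w => ∃ u ∈ D.Rf, BR < ((R.PN u).at' S.n w).card)
    exact le_trans (le_of_eq h) h8
  have q9 : (addCoins S Ξ2).P.Pr A9 ≤ q0 := by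
    have h := coinFP_Pr_fst S.P Ξ2 (fun w => (¬ ∃ u ∈ D.Rf, BR < ((R.PN u).at' S.n w).card) ∧
      ∃ u ∈ D.Rf, ∃ t ≤ S.n, Coll ph ((R.PN u).at' t w))
    refine le_trans (le_of_eq h) (h9.trans (le_trans ?_ hMh2))
    exact mul_le_mul_of_nonneg_right hR (by positivity)
  have hF : ∀ w, ¬ (A1 w ∨ A2 w ∨ A3 w ∨ A4 w ∨ A5 w ∨ A6 w ∨ A7 w ∨ A8 w ∨ A9 w) →
      Fine (D.add Ξ2) R.al cs p Hin hp ph R.N (fun u => (CExt.add S Ξ2).bst (R.PN u)) b nu nR B3 w := by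
    intro w hw
    simp only [not_or] at hw
    obtain ⟨g1, g2, g3, g4, g5, g6, g7, g8, g9⟩ := hw
    have hno : ∀ t ≤ S.n, ∀ u ∈ D.Rf, ¬ Coll ph ((R.PN u).at' t w.1) := fun t ht u hu hc => g9 ⟨g8, u, hu, t, ht, hc⟩
    refine ⟨?_, ?_, ?_, ?_, ?_, ?_, ?_, ?_, ?_⟩
    · intro t ht k z
      by_contra hc
      exact g1 ⟨t, ht, k, z, not_lt.1 hc⟩
    · intro t ht c r hr
      exact noCrit_of ht (fun h => g2 ⟨c, h⟩) hr
    · intro c r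
      have h0 : nEb (D.add Ξ2) R.al cs p c r w ≤ I := by
        by_contra hc
        exact g3 ⟨c, r, not_le.1 hc⟩
      exact (nE_le_nEb c r w le_rfl).trans h0
    · intro c
      by_contra hc
      exact g4 ⟨c, not_le.1 hc⟩
    · intro u hu
      by_contra hc
      refine g5 ⟨u, hu, ?_⟩
      rw [not_le] at hc
      have e := StepIn.refSet_add D (Ξ2 := Ξ2) u S.n (S.gm S.n w.1) (S.x w.1)
      have e' : ((D.add Ξ2).refSet u).at' (addCoins S Ξ2).n w = (D.refSet u).at' S.n w.1 := e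
      rw [← e']
      exact hc
    · intro l hl _
      by_contra hc
      exact g6 ⟨l, hl, hl, not_le.1 hc⟩
    · intro u hu
      by_contra hc
      exact g7 ⟨u, hu, not_le.1 hc⟩
    · intro u hu
      by_contra hc
      refine g8 ⟨u, hu, lt_of_le_of_lt hB4 ?_⟩
      exact not_le.1 hc
    · intro u hu t ht hc
      exact hno t ht u hu hc
  exact ⟨_, _, out_of (D := D.add Ξ2) Hin hp hF
    (Pr_nine (addCoins S Ξ2).P q1 q2 q3 q4 q5 q6 q7 q8 q9 hq) (hB.up (CExt.add S Ξ2)) hM (e2.trans_le hea1) R.alz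
    R.Nz (fun t ht w r h u hu => by
      obtain ⟨s, h1, h2⟩ := R.mem t ht w r h u hu
      exact ⟨s, (StepIn.At_add D M u (r u) t w s).2 h1, h2⟩)
    (fun t ht w u hu => by
      rw [CExt.bst_at]
      exact R.pub t ht w u hu)
    (fun i => (hph i).le.trans hmx) hmx2 hmx3 hB3 (by rw [e1, e2]; exact hη)⟩

end core

end

end Pool.Agent.GMN
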