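import Pool.Agent.GMN.Assem
import Pool.Agent.GMN.Codes

/-!
# GMN/StepC1 (helper13): the data of one step from the state of the names

`Fit σ a v L Rf tg` = the shape of the state fits the step (client `v`, free vertices `L`, references `Rf`, target
`tg = none` : the whole face of `v`, `tg = some w` : the function `X v w`);
`fam L l` = the product of all functions assigned to the vertex `l ∈ L` which they miss (number `pn l ν` = the own code of
`l` and the traces at `l` of the others), `tgt` = the target;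
`T_eq` : the form is the sum of the terms `tm`.
-/

set_option autoImplicit false
set_option linter.unusedSectionVars false

namespace Pool.Agent.GMN

open Finset Pool.Agent.PWZ Pool.Agent.M3 Pool.Agent.M3.TS Pool.Agent.GM Pool.GMN.Counter

noncomputable section

variable {ι Om Ξ Pt V Γ κ : Type} [Fintype ι] [DecidableEq ι] [Fintype Om] [Fintype Ξ] [Fintype Pt]
  [Fintype V] {S : Sys ι Om Ξ Pt V Γ κ} {a : ι}

/-- the shape of the state fits the step -/
structure Fit (σ : NSt S a) (v : ι) (L Rf : Finset ι) (tg : Option ι) : Prop where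
  av : a ≠ v
  aL : a ∉ L
  vL : v ∉ L
  aR : a ∉ Rf
  vR : v ∉ Rf
  LR : Disjoint L Rf
  tnone : tg = none → σ.wh v
  tsome : ∀ w, tg = some w → ¬ σ.wh v ∧ w ∉ L ∧ w ∈ σ.W v ∧ ∀ x ∈ σ.W v, x = w ∨ x ∈ L
  ref : ∀ u ∈ Rf, ¬ σ.wh u ∧ σ.W u = insert v L
  up : ∀ u, u ≠ a → u ≠ v → u ∉ Rf → u ∉ L → ¬ σ.wh u ∧ σ.W u ⊆ L
  irr : ∀ l ∈ L, ¬ σ.wh l → l ∉ σ.W l

theorem iw_lin {β : Type} (ρ : V → ℝ) (s : Finset β) (c : β → ℝ) (f : β → V → ℝ) (g : V → ℝ) :
    iw ρ (fun d => ∑ i ∈ s, c i * f i d) g = ∑ i ∈ s, c i * iw ρ (f i) g := by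
  unfold iw
  simp only [Finset.mul_sum, Finset.sum_mul]
  rw [Finset.sum_comm]
  refine sum_congr rfl fun i _ => sum_congr rfl fun d _ => ?_
  ring

namespace NSt

variable (σ : NSt S a)

open Classical in
/-- the functions of the owner `u ∉ L` which are put into the families -/
def rest (L : Finset ι) (u : ι) : Finset ι := if σ.wh u then ∅ else σ.W u ∩ L

open Classical in
/-- the factor of the owner `u` as numbered function -/
def facN (u : ι) : NumF S ℕ (univ.erase u) :=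
  if σ.wh u then σ.F u
  else (NumF.prod (σ.W u) fun x => (σ.X u x).up (erase_subset x (univ.erase u))).map fun ν x => σ.tr u x ν

theorem facN_at (u : ι) (ν : ℕ) (t : ℕ) (w : Om) (d : V) : (σ.facN u).at' ν t w d = σ.fac u ν t w d := by
  unfold facN fac
  split_ifs with h
  · rfl
  · rfl

open Classical in
/-- the functions of the other owners which are assigned to `l` -/
def oth (L : Finset ι) (l : ι) : NumF S (ι → ℕ) (univ.erase l) :=
  NumF.prod (univ.filter fun u => u ≠ a ∧ u ∉ L ∧ l ∈ σ.rest L u) fun u =>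
    (σ.X u l).up (erase_subset_erase l (erase_subset u univ))

open Classical in
theorem oth_at (L : Finset ι) (l : ι) (ν : ι → ℕ) (t : ℕ) (w : Om) (d : V) :
    (σ.oth L l).at' ν t w d =
      ∏ u ∈ univ.filter (fun u => u ≠ a ∧ u ∉ L ∧ l ∈ σ.rest L u), (σ.X u l).at' (ν u) t w d := rfl

/-- the family of the vertex `l` -/
def fam (L : Finset ι) (l : ι) : NumF S (ℕ × (ι → ℕ)) (univ.erase l) := (σ.facN l).mul (σ.oth L l)

/-- the traces at `l` -/
def trs (l : ι) (ν : ι → ℕ) (u : ι) : ℕ := σ.tr u l (ν u)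

/-- the number of the family of `l` -/
def pn (l : ι) (ν : ι → ℕ) : ℕ × (ι → ℕ) := (ν l, σ.trs l ν)

theorem fam_at (L : Finset ι) (l : ι) (ν : ι → ℕ) (t : ℕ) (w : Om) (d : V) :
    (σ.fam L l).at' (σ.pn l ν) t w d = σ.fac l (ν l) t w d * (σ.oth L l).at' (σ.trs l ν) t w d := by
  rw [← σ.facN_at]
  rfl

/-- the target, numbers = codes -/
def tgt (v : ι) (tg : Option ι) : NumF S ℕ (univ.erase v) :=
  match tg with
  | none => σ.F v
  | some w => ((σ.X v w).up (erase_subset w (univ.erase v))).map (σ.tr v w)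

/-- the term of the form with the function `f` of the owner `v` -/
def tm (v : ι) (L Rf : Finset ι) (ζ : ℕ) (ν : ι → ℕ) (f : V → ℝ) (t : ℕ) (w : Om) : ℝ :=
  iw (S.J t w) (fun d => σ.h.at' (σ.hn ζ ν) t w d * ((∏ l ∈ L, (σ.fam L l).at' (σ.pn l ν) t w d) *
    ((∏ u ∈ Rf, (σ.X u v).at' (σ.tr u v (ν u)) t w d) * f d))) (fun _ => 1)

section id

variable {σ} {v : ι} {L Rf : Finset ι} {tg : Option ι} (h : Fit σ v L Rf tg)

include h

/-- the owner `v` -/
theorem fac_v (ν : ℕ) (t : ℕ) (w : Om) (d : V) :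
    σ.fac v ν t w d = (σ.tgt v tg).at' ν t w d * ∏ x ∈ σ.rest L v, (σ.X v x).at' (σ.tr v x ν) t w d := by
  unfold fac rest
  rcases tg with _ | w0
  · rw [if_pos (h.tnone rfl), if_pos (h.tnone rfl), prod_empty, mul_one]
    rfl
  · obtain ⟨h1, h2, h3, h4⟩ := h.tsome w0 rfl
    rw [if_neg h1, if_neg h1]
    have h5 : σ.W v = insert w0 (σ.W v ∩ L) := by
      ext x
      rw [mem_insert, mem_inter]
      constructor
      · intro hx
        rcases h4 x hx with h6 | h6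
        · exact Or.inl h6
        · exact Or.inr ⟨hx, h6⟩
      · rintro (rfl | h6)
        · exact h3
        · exact h6.1
    have h6 : w0 ∉ σ.W v ∩ L := fun h7 => h2 (mem_inter.1 h7).2
    conv_lhs => rw [h5]
    rw [prod_insert h6]
    rfl

/-- the references -/
theorem fac_ref {u : ι} (hu : u ∈ Rf) (ν : ℕ) (t : ℕ) (w : Om) (d : V) :
    σ.fac u ν t w d = (σ.X u v).at' (σ.tr u v ν) t w d * ∏ x ∈ σ.rest L u, (σ.X u x).at' (σ.tr u x ν) t w d := by
  obtain ⟨h1, h2⟩ := h.ref u hu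
  unfold fac rest
  rw [if_neg h1, if_neg h1, h2]
  have h3 : insert v L ∩ L = L := by
    ext x
    rw [mem_inter, mem_insert]
    tauto
  rw [h3, prod_insert h.vL]

/-- the other owners -/
theorem fac_up {u : ι} (ha : u ≠ a) (hv : u ≠ v) (hr : u ∉ Rf) (hl : u ∉ L) (ν : ℕ) (t : ℕ) (w : Om) (d : V) :
    σ.fac u ν t w d = ∏ x ∈ σ.rest L u, (σ.X u x).at' (σ.tr u x ν) t w d := by
  obtain ⟨h1, h2⟩ := h.up u ha hv hr hl
  unfold fac rest
  rw [if_neg h1, if_neg h1, inter_eq_left.2 h2]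

theorem rest_sub (u : ι) : σ.rest L u ⊆ L := by
  unfold rest
  split_ifs
  · exact empty_subset _
  · exact inter_subset_right

omit h in
/-- exchange of the two products -/
theorem oth_prod (ν : ι → ℕ) (t : ℕ) (w : Om) (d : V) :
    ∏ l ∈ L, (σ.oth L l).at' (σ.trs l ν) t w d =
      ∏ u ∈ (univ.erase a) \ L, ∏ x ∈ σ.rest L u, (σ.X u x).at' (σ.tr u x (ν u)) t w d := by
  classical
  simp only [oth_at, trs]
  refine Finset.prod_comm' fun l u => ?_
  rw [mem_filter, mem_sdiff, mem_erase]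
  constructor
  · rintro ⟨h1, -, h2, h3, h4⟩
    exact ⟨h4, ⟨h2, mem_univ _⟩, h3⟩
  · rintro ⟨h4, ⟨h2, -⟩, h3⟩
    refine ⟨?_, mem_univ _, h2, h3, h4⟩
    unfold rest at h4
    split_ifs at h4
    · exact absurd h4 (notMem_empty _)
    · exact (mem_inter.1 h4).2

/-- the product of all functions except the target -/
theorem prod_eq0 (ν : ι → ℕ) (t : ℕ) (w : Om) (d : V) :
    (∏ u ∈ (univ.erase a).erase v, σ.fac u (ν u) t w d) * ∏ x ∈ σ.rest L v, (σ.X v x).at' (σ.tr v x (ν v)) t w d =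
      (∏ l ∈ L, σ.fac l (ν l) t w d * (σ.oth L l).at' (σ.trs l ν) t w d) * ∏ u ∈ Rf, (σ.X u v).at' (σ.tr u v (ν u)) t w d := by
  classical
  have hLK : L ⊆ (univ.erase a).erase v := fun x hx => mem_erase.2 ⟨fun h' => h.vL (h' ▸ hx),
    mem_erase.2 ⟨fun h' => h.aL (h' ▸ hx), mem_univ _⟩⟩
  have h1 : ∏ u ∈ (univ.erase a).erase v, σ.fac u (ν u) t w d =
      (∏ u ∈ ((univ.erase a).erase v) \ L, σ.fac u (ν u) t w d) * ∏ u ∈ L, σ.fac u (ν u) t w d :=
    (prod_sdiff hLK).symm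
  have hRK : Rf ⊆ ((univ.erase a).erase v) \ L := fun x hx => mem_sdiff.2
    ⟨mem_erase.2 ⟨fun h' => h.vR (h' ▸ hx), mem_erase.2 ⟨fun h' => h.aR (h' ▸ hx), mem_univ _⟩⟩,
      fun h' => (disjoint_left.1 h.LR h') hx⟩
  -- owners outside `L`
  have h2 : ∏ u ∈ ((univ.erase a).erase v) \ L, σ.fac u (ν u) t w d =
      (∏ u ∈ Rf, (σ.X u v).at' (σ.tr u v (ν u)) t w d) *
        ∏ u ∈ ((univ.erase a).erase v) \ L, ∏ x ∈ σ.rest L u, (σ.X u x).at' (σ.tr u x (ν u)) t w d := by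
    rw [← prod_sdiff hRK, ← prod_sdiff (f := fun u => ∏ x ∈ σ.rest L u, (σ.X u x).at' (σ.tr u x (ν u)) t w d) hRK]
    have e1 : ∏ u ∈ Rf, σ.fac u (ν u) t w d = (∏ u ∈ Rf, (σ.X u v).at' (σ.tr u v (ν u)) t w d) *
        ∏ u ∈ Rf, ∏ x ∈ σ.rest L u, (σ.X u x).at' (σ.tr u x (ν u)) t w d := by
      rw [← prod_mul_distrib]
      exact prod_congr rfl fun u hu => fac_ref h hu _ _ _ _
    have e2 : ∏ u ∈ (((univ.erase a).erase v) \ L) \ Rf, σ.fac u (ν u) t w d =
        ∏ u ∈ (((univ.erase a).erase v) \ L) \ Rf, ∏ x ∈ σ.rest L u, (σ.X u x).at' (σ.tr u x (ν u)) t w d := by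
      refine prod_congr rfl fun u hu => ?_
      obtain ⟨h5, h6⟩ := mem_sdiff.1 hu
      obtain ⟨h7, h8⟩ := mem_sdiff.1 h5
      obtain ⟨h9, h10⟩ := mem_erase.1 h7
      exact fac_up h (ne_of_mem_erase h10) h9 h6 h8 _ _ _ _
    rw [e1, e2]
    ring
  have h3 : ∏ u ∈ (univ.erase a) \ L, ∏ x ∈ σ.rest L u, (σ.X u x).at' (σ.tr u x (ν u)) t w d =
      (∏ u ∈ ((univ.erase a).erase v) \ L, ∏ x ∈ σ.rest L u, (σ.X u x).at' (σ.tr u x (ν u)) t w d) *
        ∏ x ∈ σ.rest L v, (σ.X v x).at' (σ.tr v x (ν v)) t w d := by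
    have e3 : v ∈ (univ.erase a) \ L := mem_sdiff.2 ⟨mem_erase.2 ⟨h.av.symm, mem_univ _⟩, h.vL⟩
    have e4 : ((univ.erase a) \ L).erase v = ((univ.erase a).erase v) \ L := by
      ext x
      simp only [mem_erase, mem_sdiff]
      tauto
    rw [← prod_erase_mul _ _ e3, e4]
  rw [h1, h2, prod_mul_distrib, oth_prod, h3]
  ring

/-- **the product of all functions of a term** -/
theorem prod_eq (ν : ι → ℕ) (t : ℕ) (w : Om) (d : V) :
    ∏ u ∈ univ.erase a, σ.fac u (ν u) t w d =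
      (∏ l ∈ L, σ.fac l (ν l) t w d * (σ.oth L l).at' (σ.trs l ν) t w d) *
        ((∏ u ∈ Rf, (σ.X u v).at' (σ.tr u v (ν u)) t w d) * (σ.tgt v tg).at' (ν v) t w d) := by
  have e3 : v ∈ univ.erase a := mem_erase.2 ⟨h.av.symm, mem_univ _⟩
  have h1 := prod_eq0 h ν t w d
  rw [← prod_erase_mul _ _ e3, fac_v h]
  calc (∏ u ∈ (univ.erase a).erase v, σ.fac u (ν u) t w d) *
        ((σ.tgt v tg).at' (ν v) t w d * ∏ x ∈ σ.rest L v, (σ.X v x).at' (σ.tr v x (ν v)) t w d)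
      = ((∏ u ∈ (univ.erase a).erase v, σ.fac u (ν u) t w d) *
        ∏ x ∈ σ.rest L v, (σ.X v x).at' (σ.tr v x (ν v)) t w d) * (σ.tgt v tg).at' (ν v) t w d := by ring
    _ = _ := by rw [h1]; ring

/-- **the form as sum of the terms of the step** -/
theorem T_eq (t : ℕ) (w : Om) :
    σ.T t w = ∑ ζ ∈ σ.Z.at' t w, ∑ ν ∈ σ.fams t w,
      σ.cf t w ζ ν * σ.tm v L Rf ζ ν (fun d => (σ.tgt v tg).at' (ν v) t w d) t w := by
  unfold T tm
  have h1 : ∀ d, σ.val t w d = ∑ ζ ∈ σ.Z.at' t w, ∑ ν ∈ σ.fams t w, σ.cf t w ζ ν *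
      (σ.h.at' (σ.hn ζ ν) t w d * ((∏ l ∈ L, (σ.fam L l).at' (σ.pn l ν) t w d) *
        ((∏ u ∈ Rf, (σ.X u v).at' (σ.tr u v (ν u)) t w d) * (σ.tgt v tg).at' (ν v) t w d))) := by
    intro d
    unfold val
    refine sum_congr rfl fun ζ _ => sum_congr rfl fun ν _ => ?_
    rw [prod_eq h, mul_assoc]
    simp only [fam_at]
  have h2 : iw (S.J t w) (σ.val t w) (fun _ => 1) = iw (S.J t w) (fun d => ∑ ζ ∈ σ.Z.at' t w, (1 : ℝ) *
      ∑ ν ∈ σ.fams t w, σ.cf t w ζ ν * (σ.h.at' (σ.hn ζ ν) t w d * ((∏ l ∈ L, (σ.fam L l).at' (σ.pn l ν) t w d) *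
        ((∏ u ∈ Rf, (σ.X u v).at' (σ.tr u v (ν u)) t w d) * (σ.tgt v tg).at' (ν v) t w d)))) (fun _ => 1) := by
    congr 1
    funext d
    rw [h1 d]
    exact sum_congr rfl fun ζ _ => (one_mul _).symm
  rw [h2, iw_lin]
  refine sum_congr rfl fun ζ _ => ?_
  rw [one_mul, iw_lin]

end id

end NSt

end

end Pool.Agent.GMN
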