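import Pool.Agent.GMN.StepC1
import Pool.Agent.GMN.StepDef
import Pool.Agent.GMN.Enum

/-!
# GMN/StepC2 (helper13): the state of the names after one step

`nst σ v L Rf O` : the new state, `O : StepObj S v a` = the objects which the rule of step C gives;
`nst_T` : its form is the old form with the target `ν` replaced by `apr` (the uses of the current epoch).
-/

set_option autoImplicit false
set_option linter.unusedSectionVars false

namespace Pool.Agent.GMN.SC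

open Finset Pool.Agent.PWZ Pool.Agent.M3 Pool.Agent.M3.TS Pool.Agent.GM Pool.GMN.Counter

noncomputable section

variable {ι Om Ξ Pt V Γ κ : Type} [Fintype ι] [DecidableEq ι] [Fintype Om] [Fintype Ξ] [Fintype Pt]
  [Fintype V]

variable {S : Sys ι Om Ξ Pt V Γ κ} {a : ι}

section defs

variable {v : ι} (O : StepObj S v a) (Rf : Finset ι)

/-- the new functions of the owner `v`, one for the others -/
def Yf (u w : ι) : NumF S (Option ℕ) ((univ.erase u).erase w) :=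
  if h : v = u then Eq.rec (motive := fun u _ => NumF S (Option ℕ) ((univ.erase u).erase w)) (O.X' w).opt h
  else NumF.one S _ _

theorem Yf_v (w : ι) : Yf O v w = (O.X' w).opt := by
  unfold Yf
  rw [dif_pos rfl]

/-- the refinements: uses for the owner `v`, records for the references -/
def Bs (u : ι) : ℕ → Lst S (univ.erase u) :=
  if h : v = u then Eq.rec (motive := fun u _ => ℕ → Lst S (univ.erase u)) O.Ls h
  else fun _ => O.N u

theorem Bs_v : Bs O v = O.Ls := by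
  unfold Bs
  rw [dif_pos rfl]

theorem Bs_ne {u : ι} (h : v ≠ u) : Bs O u = fun _ => O.N u := by
  unfold Bs
  rw [dif_neg h]

/-- the box sets of the owner `v` -/
def Pk (u l : ι) : BSt S u l :=
  if h : v = u then Eq.rec (motive := fun u _ => BSt S u l) (O.PL l) h
  else BSt.single S u l 0

theorem Pk_v (l : ι) : Pk O v l = O.PL l := by
  unfold Pk
  rw [dif_pos rfl]

/-- the box sets of the records -/
def Pw (u l : ι) : BSt S u l :=
  if h : v = l then Eq.rec (motive := fun l _ => BSt S u l) (O.PN u) h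
  else BSt.single S u l 0

theorem Pw_v (u : ι) : Pw O u v = O.PN u := by
  unfold Pw
  rw [dif_pos rfl]

/-- the old codes of a family of new codes -/
def dec (v : ι) (Rf : Finset ι) (ν : ι → ℕ) (u : ι) : ℕ := if u = v ∨ u ∈ Rf then d1 (ν u) else ν u

/-- the old lists -/
def old (v : ι) (Rf : Finset ι) (l : ι → Finset ℕ) (u : ι) : Finset ℕ := if u = v ∨ u ∈ Rf then rd (l u) else l u

/-- compatible families of the current epoch (bounded numbers) -/
def Val (l : ι → Finset ℕ) (ν : ι → ℕ) : Prop :=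
  d2 (ν v) ≠ 0 ∧ O.co (d2 (ν v) - 1) ≠ 0 ∧ (∀ u ∈ Rf, d2 (ν u) = O.hs (d2 (ν v) - 1) u + 1) ∧
    O.ep (d2 (ν v) - 1) = (rx (l v) (d1 (ν v))).sup O.ep

/-- the new family: old family `ν`, use `x` -/
def Psi (ν : ι → ℕ) (x : ℕ) (u : ι) : ℕ :=
  if u = v then enc (ν v) x else if u ∈ Rf then enc (ν u) (O.sr x u) else ν u

theorem dec_Psi (ν : ι → ℕ) (x : ℕ) : dec v Rf (Psi O Rf ν x) = ν := by
  funext u
  unfold dec Psi
  by_cases h1 : u = v
  · subst h1
    simp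
  · by_cases h2 : u ∈ Rf
    · simp [h1, h2]
    · simp [h1, h2]

theorem Psi_v (ν : ι → ℕ) (x : ℕ) : Psi O Rf ν x v = enc (ν v) x := by
  unfold Psi
  rw [if_pos rfl]

variable {Rf}

theorem Psi_r {u : ι} (hv : u ≠ v) (hu : u ∈ Rf) (ν : ι → ℕ) (x : ℕ) : Psi O Rf ν x u = enc (ν u) (O.sr x u) := by
  unfold Psi
  rw [if_neg hv, if_pos hu]

theorem Psi_o {u : ι} (hv : u ≠ v) (hu : u ∉ Rf) (ν : ι → ℕ) (x : ℕ) : Psi O Rf ν x u = ν u := by
  unfold Psi
  rw [if_neg hv, if_neg hu]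

/-- the uses of the current epoch -/
def cur (ν : ℕ) (t : ℕ) (w : Om) : Finset ℕ := by
  classical
  exact ((O.Ls ν).at' t w).filter fun x =>
    O.ep (O.rnx x) = ((O.Ls ν).at' t w).sup (fun y => O.ep (O.rnx y)) ∧ O.co (O.rnx x) ≠ 0

theorem mem_cur {ν x : ℕ} {t : ℕ} {w : Om} : x ∈ cur O ν t w ↔ x ∈ (O.Ls ν).at' t w ∧
    O.ep (O.rnx x) = ((O.Ls ν).at' t w).sup (fun y => O.ep (O.rnx y)) ∧ O.co (O.rnx x) ≠ 0 := by
  unfold cur
  rw [mem_filter]

end defs

section state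

variable (σ : NSt S a) (v : ι) (L Rf : Finset ι) (O : StepObj S v a)

open Classical in
/-- **THE NEW STATE** -/
def nst : NSt S a where
  Z := σ.Z
  Lam u := if u = v ∨ u ∈ Rf then (σ.Lam u).exc (Bs O u) else σ.Lam u
  PZ := σ.PZ
  PS := σ.PS
  pu u := σ.pu u ∧ u ≠ v ∧ u ∉ Rf
  tr u l := if u = v then (if l = a ∨ l ∈ σ.rest L v then ecd (σ.tr v l) (O.kl l) else ecd (fun _ => 0) (O.kl l))
    else if u ∈ Rf then (if l = v then ecd (σ.tr u v) id else fun c => σ.tr u l (d1 c))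
    else σ.tr u l
  PT u l := if u = v then (if l = a ∨ l ∈ σ.rest L v then (σ.PT u l).exc (Pk O u l)
      else (BSt.single S u l 0).exc (Pk O u l))
    else if u ∈ Rf ∧ l = v then (σ.PT u l).exc (Pw O u l) else σ.PT u l
  bb u := if u = v then ecd (σ.bb v) O.rnx else if u ∈ Rf then ecd (σ.bb u) (O.phi u) else σ.bb u
  wh u := u ≠ v ∧ σ.wh u
  W u := if u = v then L else σ.W u
  h := σ.h.mul2 (O.h.opt.up (erase_subset v (univ.erase a))) (fun z => (z.1, Function.update z.2 v (d1 (z.2 v))))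
    (fun z => oc id (z.2 v))
  X u w := if u = v then (if w ∈ σ.rest L v then σ.X u w else NumF.one S _ _).mul2 (Yf O u w) d1 (oc id)
    else if u ∈ Rf ∧ w = v then (σ.X u w).mul2 (σ.X u w).opt d1 (oc id)
    else σ.X u w
  F := σ.F
  c Z l ζ ν := if Val O Rf l ν then σ.c Z (old v Rf l) ζ (dec v Rf ν) * O.co (d2 (ν v) - 1) else 0

variable {v}

theorem nst_lists_v (t : ℕ) (w : Om) :
    (nst σ v L Rf O).lists t w v = extF (σ.lists t w v) fun ν => (O.Ls ν).at' t w := by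
  show (if v = v ∨ v ∈ Rf then (σ.Lam v).exc (Bs O v) else σ.Lam v).at' t w = _
  rw [if_pos (Or.inl rfl), Bs_v]
  rfl

theorem nst_lists_r (hv : v ∉ Rf) {u : ι} (hu : u ∈ Rf) (t : ℕ) (w : Om) :
    (nst σ v L Rf O).lists t w u = extF (σ.lists t w u) fun _ => (O.N u).at' t w := by
  have hne : v ≠ u := fun h => hv (h ▸ hu)
  show (if u = v ∨ u ∈ Rf then (σ.Lam u).exc (Bs O u) else σ.Lam u).at' t w = _
  rw [if_pos (Or.inr hu), Lst.exc_at, Bs_ne O hne]
  rfl

theorem nst_lists_o {u : ι} (hu : u ≠ v) (hr : u ∉ Rf) (t : ℕ) (w : Om) :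
    (nst σ v L Rf O).lists t w u = σ.lists t w u := by
  show (if u = v ∨ u ∈ Rf then (σ.Lam u).exc (Bs O u) else σ.Lam u).at' t w = _
  rw [if_neg (not_or.2 ⟨hu, hr⟩)]
  rfl

theorem nst_bb_v : (nst σ v L Rf O).bb v = ecd (σ.bb v) O.rnx := by
  show (if v = v then _ else _) = _
  rw [if_pos rfl]

theorem nst_bb_r {u : ι} (hu : u ≠ v) (hr : u ∈ Rf) : (nst σ v L Rf O).bb u = ecd (σ.bb u) (O.phi u) := by
  show (if u = v then _ else if u ∈ Rf then _ else _) = _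
  rw [if_neg hu, if_pos hr]

theorem nst_bb_o {u : ι} (hu : u ≠ v) (hr : u ∉ Rf) : (nst σ v L Rf O).bb u = σ.bb u := by
  show (if u = v then _ else if u ∈ Rf then _ else _) = _
  rw [if_neg hu, if_neg hr]

theorem nst_W_v : (nst σ v L Rf O).W v = L := by
  show (if v = v then L else σ.W v) = L
  rw [if_pos rfl]

theorem nst_W_ne {u : ι} (hu : u ≠ v) : (nst σ v L Rf O).W u = σ.W u := by
  show (if u = v then L else σ.W u) = _
  rw [if_neg hu]

theorem old_bls (hv : v ∉ Rf) (t : ℕ) (w : Om) :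
    old v Rf ((nst σ v L Rf O).bls t w) = σ.bls t w := by
  funext u
  unfold old NSt.bls
  by_cases h1 : u = v
  · subst h1
    rw [if_pos (Or.inl rfl), nst_lists_v, nst_bb_v, rd_ecd]
  · by_cases h2 : u ∈ Rf
    · rw [if_pos (Or.inr h2), nst_lists_r σ L Rf O hv h2, nst_bb_r σ L Rf O h1 h2, rd_ecd]
    · rw [if_neg (not_or.2 ⟨h1, h2⟩), nst_lists_o σ L Rf O h1 h2, nst_bb_o σ L Rf O h1 h2]

end state

/-- the facts at a point outside `dead` which are used by the algebra -/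
structure Pt0 (σ : NSt S a) (v : ι) (Rf : Finset ι) (O : StepObj S v a) (t : ℕ) (w : Om) : Prop where
  inj : Set.InjOn (σ.bb v) (σ.lists t w v)
  injN : ∀ u ∈ Rf, Set.InjOn (O.phi u) ((O.N u).at' t w)
  mem : ∀ ν ∈ σ.lists t w v, ∀ x ∈ (O.Ls ν).at' t w, O.co (O.rnx x) ≠ 0 → ∀ u ∈ Rf,
    O.sr x u ∈ (O.N u).at' t w ∧ O.hs (O.rnx x) u = O.phi u (O.sr x u)

section pr

variable {σ : NSt S a} {v : ι} {L Rf : Finset ι} {tg : Option ι} (h : Fit σ v L Rf tg) (O : StepObj S v a)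

/-- the term of a use -/
def utm (σ : NSt S a) (v : ι) (L Rf : Finset ι) (O : StepObj S v a) (x : ℕ) (t : ℕ) (w : Om) (d : V) : ℝ :=
  O.co (O.rnx x) * (O.h.at' (O.kl a x) t w d * ((∏ l ∈ L, (O.X' l).at' (O.kl l x) t w d) *
    ∏ u ∈ Rf, (σ.X u v).at' (O.sr x u) t w d))

/-- the approximation of the target `ν` -/
def apr (σ : NSt S a) (v : ι) (L Rf : Finset ι) (O : StepObj S v a) (ν : ℕ) (t : ℕ) (w : Om) (d : V) : ℝ :=
  ∑ x ∈ cur O ν t w, utm σ v L Rf O x t w d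

include h

/-- the product of the functions at `Psi ν x` -/
theorem fac_v' (ν : ι → ℕ) (x : ℕ) (t : ℕ) (w : Om) (d : V) :
    (nst σ v L Rf O).fac v (Psi O Rf ν x v) t w d =
      (∏ y ∈ σ.rest L v, (σ.X v y).at' (σ.tr v y (ν v)) t w d) * ∏ l ∈ L, (O.X' l).at' (O.kl l x) t w d := by
  classical
  unfold NSt.fac
  have h1 : ¬ (nst σ v L Rf O).wh v := fun h' => h'.1 rfl
  rw [if_neg h1, nst_W_v, Psi_v]
  have h3 : ∀ l ∈ L, ((nst σ v L Rf O).X v l).at' ((nst σ v L Rf O).tr v l (enc (ν v) x)) t w d =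
      (if l ∈ σ.rest L v then (σ.X v l).at' (σ.tr v l (ν v)) t w d else 1) * (O.X' l).at' (O.kl l x) t w d := by
    intro l _
    have e1 : (nst σ v L Rf O).X v l =
        (if l ∈ σ.rest L v then σ.X v l else NumF.one S _ _).mul2 (Yf O v l) d1 (oc id) := by
      show (if v = v then _ else _) = _
      rw [if_pos rfl]
    have e2 : (nst σ v L Rf O).tr v l = if l = a ∨ l ∈ σ.rest L v then ecd (σ.tr v l) (O.kl l)
        else ecd (fun _ => 0) (O.kl l) := by
      show (if v = v then _ else _) = _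
      rw [if_pos rfl]
    rw [e1, e2]
    by_cases h4 : l ∈ σ.rest L v
    · rw [if_pos (Or.inr h4), if_pos h4, if_pos h4, ecd_enc, NumF.mul2_at, d1_enc, oc_enc, Yf_v]
      rfl
    · rw [if_neg h4, if_neg h4]
      have h5 : ∀ c, (ite (l = a ∨ l ∈ σ.rest L v) (ecd (σ.tr v l) (O.kl l)) (ecd (fun _ => 0) (O.kl l))) (enc c x) =
          enc (d1 ((ite (l = a ∨ l ∈ σ.rest L v) (ecd (σ.tr v l) (O.kl l)) (ecd (fun _ => 0) (O.kl l))) (enc c x)))
            (O.kl l x) := by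
        intro c
        split_ifs
        · rw [ecd_enc, d1_enc]
        · rw [ecd_enc, d1_enc]
      rw [h5, NumF.mul2_at, oc_enc, Yf_v]
      rfl
  rw [prod_congr rfl h3, prod_mul_distrib]
  congr 1
  rw [← prod_filter]
  refine prod_congr ?_ fun _ _ => rfl
  ext y
  rw [mem_filter]
  exact ⟨fun h5 => h5.2, fun h5 => ⟨NSt.rest_sub h v h5, h5⟩⟩

theorem fac_r' {u : ι} (hu : u ∈ Rf) (ν : ι → ℕ) (x : ℕ) (t : ℕ) (w : Om) (d : V) :
    (nst σ v L Rf O).fac u (Psi O Rf ν x u) t w d =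
      σ.fac u (ν u) t w d * (σ.X u v).at' (O.sr x u) t w d := by
  classical
  have hne : u ≠ v := fun h' => h.vR (h' ▸ hu)
  obtain ⟨h1, h2⟩ := h.ref u hu
  have h3 : ¬ (nst σ v L Rf O).wh u := fun h' => h1 h'.2
  unfold NSt.fac
  rw [if_neg h3, if_neg h1, nst_W_ne σ L Rf O hne, h2, Psi_r O hne hu, prod_insert h.vL, prod_insert h.vL]
  have h6 : (nst σ v L Rf O).X u v = (σ.X u v).mul2 (σ.X u v).opt d1 (oc id) := by
    show (if u = v then _ else if u ∈ Rf ∧ v = v then _ else _) = _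
    rw [if_neg hne, if_pos ⟨hu, rfl⟩]
  have h6' : (nst σ v L Rf O).tr u v = ecd (σ.tr u v) id := by
    show (if u = v then _ else if u ∈ Rf then (if v = v then _ else _) else _) = _
    rw [if_neg hne, if_pos hu, if_pos rfl]
  have h7 : ∀ l ∈ L, ((nst σ v L Rf O).X u l).at' ((nst σ v L Rf O).tr u l (enc (ν u) (O.sr x u))) t w d =
      (σ.X u l).at' (σ.tr u l (ν u)) t w d := by
    intro l hl
    have h8 : l ≠ v := fun h' => h.vL (h' ▸ hl)
    have h9 : (nst σ v L Rf O).X u l = σ.X u l := by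
      show (if u = v then _ else if u ∈ Rf ∧ l = v then _ else _) = _
      rw [if_neg hne, if_neg fun h' => h8 h'.2]
    have h10 : (nst σ v L Rf O).tr u l = fun c => σ.tr u l (d1 c) := by
      show (if u = v then _ else if u ∈ Rf then (if l = v then _ else _) else _) = _
      rw [if_neg hne, if_pos hu, if_neg h8]
    rw [h9, h10]
    show (σ.X u l).at' (σ.tr u l (d1 (enc (ν u) (O.sr x u)))) t w d = _
    rw [d1_enc]
  rw [prod_congr rfl h7, h6, h6', ecd_enc, NumF.mul2_at, d1_enc, oc_enc]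
  have h10 : ((σ.X u v).opt.at' (some (id (id (O.sr x u)))) t w d) = (σ.X u v).at' (O.sr x u) t w d := rfl
  rw [h10]
  ring

omit h in
theorem fac_o' {u : ι} (hu : u ≠ v) (hr : u ∉ Rf) (ν : ι → ℕ) (x : ℕ) (t : ℕ) (w : Om) (d : V) :
    (nst σ v L Rf O).fac u (Psi O Rf ν x u) t w d = σ.fac u (ν u) t w d := by
  classical
  have h6 : ∀ y, (nst σ v L Rf O).X u y = σ.X u y := by
    intro y
    show (if u = v then _ else if u ∈ Rf ∧ y = v then _ else _) = _
    rw [if_neg hu, if_neg fun h' => hr h'.1]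
  have h7 : ∀ y, (nst σ v L Rf O).tr u y = σ.tr u y := by
    intro y
    show (if u = v then _ else if u ∈ Rf then _ else _) = _
    rw [if_neg hu, if_neg hr]
  unfold NSt.fac
  rw [Psi_o O hu hr]
  by_cases hw : σ.wh u
  · rw [if_pos (show (nst σ v L Rf O).wh u from ⟨hu, hw⟩), if_pos hw]
    rfl
  · rw [if_neg (show ¬ (nst σ v L Rf O).wh u from fun h' => hw h'.2), if_neg hw, nst_W_ne σ L Rf O hu]
    exact prod_congr rfl fun y _ => by rw [h6, h7]

theorem prod_eq' (ν : ι → ℕ) (x : ℕ) (t : ℕ) (w : Om) (d : V) :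
    ∏ u ∈ univ.erase a, (nst σ v L Rf O).fac u (Psi O Rf ν x u) t w d =
      (∏ l ∈ L, σ.fac l (ν l) t w d * (σ.oth L l).at' (σ.trs l ν) t w d) *
        ((∏ u ∈ Rf, (σ.X u v).at' (σ.tr u v (ν u)) t w d) * ((∏ l ∈ L, (O.X' l).at' (O.kl l x) t w d) *
          ∏ u ∈ Rf, (σ.X u v).at' (O.sr x u) t w d)) := by
  classical
  have e3 : v ∈ univ.erase a := mem_erase.2 ⟨h.av.symm, mem_univ _⟩
  have hRK : Rf ⊆ (univ.erase a).erase v := fun y hy =>
    mem_erase.2 ⟨fun h' => h.vR (h' ▸ hy), mem_erase.2 ⟨fun h' => h.aR (h' ▸ hy), mem_univ _⟩⟩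
  rw [← prod_erase_mul _ _ e3, fac_v' h]
  have h1 : ∏ u ∈ (univ.erase a).erase v, (nst σ v L Rf O).fac u (Psi O Rf ν x u) t w d =
      (∏ u ∈ (univ.erase a).erase v, σ.fac u (ν u) t w d) * ∏ u ∈ Rf, (σ.X u v).at' (O.sr x u) t w d := by
    rw [← prod_sdiff hRK, ← prod_sdiff (f := fun u => σ.fac u (ν u) t w d) hRK]
    have e1 : ∏ u ∈ Rf, (nst σ v L Rf O).fac u (Psi O Rf ν x u) t w d =
        (∏ u ∈ Rf, σ.fac u (ν u) t w d) * ∏ u ∈ Rf, (σ.X u v).at' (O.sr x u) t w d := by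
      rw [← prod_mul_distrib]
      exact prod_congr rfl fun u hu => fac_r' h O hu ν x t w d
    have e2 : ∏ u ∈ ((univ.erase a).erase v) \ Rf, (nst σ v L Rf O).fac u (Psi O Rf ν x u) t w d =
        ∏ u ∈ ((univ.erase a).erase v) \ Rf, σ.fac u (ν u) t w d := by
      refine prod_congr rfl fun u hu => ?_
      obtain ⟨h2, h3⟩ := mem_sdiff.1 hu
      exact fac_o' O (ne_of_mem_erase h2) h3 ν x t w d
    rw [e1, e2]
    ring
  rw [h1]
  have h2 := NSt.prod_eq0 h ν t w d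
  calc (∏ u ∈ (univ.erase a).erase v, σ.fac u (ν u) t w d) * (∏ u ∈ Rf, (σ.X u v).at' (O.sr x u) t w d) *
        ((∏ y ∈ σ.rest L v, (σ.X v y).at' (σ.tr v y (ν v)) t w d) * ∏ l ∈ L, (O.X' l).at' (O.kl l x) t w d)
      = ((∏ u ∈ (univ.erase a).erase v, σ.fac u (ν u) t w d) *
          ∏ y ∈ σ.rest L v, (σ.X v y).at' (σ.tr v y (ν v)) t w d) *
          ((∏ l ∈ L, (O.X' l).at' (O.kl l x) t w d) * ∏ u ∈ Rf, (σ.X u v).at' (O.sr x u) t w d) := by ring
    _ = _ := by rw [h2]; ring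

theorem h_at' (ζ : ℕ) (ν : ι → ℕ) (x : ℕ) (t : ℕ) (w : Om) (d : V) :
    (nst σ v L Rf O).h.at' ((nst σ v L Rf O).hn ζ (Psi O Rf ν x)) t w d =
      σ.h.at' (σ.hn ζ ν) t w d * O.h.at' (O.kl a x) t w d := by
  classical
  have e2 : (nst σ v L Rf O).tr v a = ecd (σ.tr v a) (O.kl a) := by
    show (if v = v then (if a = a ∨ a ∈ σ.rest L v then _ else _) else _) = _
    rw [if_pos rfl, if_pos (Or.inl rfl)]
  have e4 : (nst σ v L Rf O).tr v a (Psi O Rf ν x v) = enc (σ.tr v a (ν v)) (O.kl a x) := by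
    rw [e2, Psi_v, ecd_enc]
  have h1 : (nst σ v L Rf O).h.at' ((nst σ v L Rf O).hn ζ (Psi O Rf ν x)) t w d =
      σ.h.at' (ζ, Function.update (fun u => (nst σ v L Rf O).tr u a (Psi O Rf ν x u)) v
        (d1 ((nst σ v L Rf O).tr v a (Psi O Rf ν x v)))) t w d *
        (O.h.opt).at' (oc id ((nst σ v L Rf O).tr v a (Psi O Rf ν x v))) t w d := rfl
  rw [h1, e4, oc_enc, d1_enc]
  have e3 : Function.update (fun u => (nst σ v L Rf O).tr u a (Psi O Rf ν x u)) v (σ.tr v a (ν v)) =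
      fun u => σ.tr u a (ν u) := by
    funext u
    by_cases hu : u = v
    · subst hu
      rw [Function.update_self]
    · rw [Function.update_of_ne hu]
      by_cases hr : u ∈ Rf
      · have e5 : (nst σ v L Rf O).tr u a = fun c => σ.tr u a (d1 c) := by
          show (if u = v then _ else if u ∈ Rf then (if a = v then _ else _) else _) = _
          rw [if_neg hu, if_pos hr, if_neg h.av]
        rw [e5, Psi_r O hu hr]
        show σ.tr u a (d1 (enc (ν u) (O.sr x u))) = _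
        rw [d1_enc]
      · have e5 : (nst σ v L Rf O).tr u a = σ.tr u a := by
          show (if u = v then _ else if u ∈ Rf then _ else _) = _
          rw [if_neg hu, if_neg hr]
        rw [e5, Psi_o O hu hr]
  rw [e3]
  rfl

/-- the term of the new form at `Psi ν x` -/
theorem new_term (ζ : ℕ) (ν : ι → ℕ) (x : ℕ) (t : ℕ) (w : Om) (d : V) :
    O.co (O.rnx x) * ((nst σ v L Rf O).h.at' ((nst σ v L Rf O).hn ζ (Psi O Rf ν x)) t w d *
      ∏ u ∈ univ.erase a, (nst σ v L Rf O).fac u (Psi O Rf ν x u) t w d) =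
      σ.h.at' (σ.hn ζ ν) t w d * ((∏ l ∈ L, (σ.fam L l).at' (σ.pn l ν) t w d) *
        ((∏ u ∈ Rf, (σ.X u v).at' (σ.tr u v (ν u)) t w d) * utm σ v L Rf O x t w d)) := by
  rw [h_at' h, prod_eq' h]
  simp only [NSt.fam_at]
  unfold utm
  ring

/-- bounded numbers of `Psi ν x` -/
theorem bb_Psi (ν : ι → ℕ) (x : ℕ) (u : ι) : (nst σ v L Rf O).bb u (Psi O Rf ν x u) =
    if u = v then enc (σ.bb v (ν v)) (O.rnx x) else if u ∈ Rf then enc (σ.bb u (ν u)) (O.phi u (O.sr x u))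
      else σ.bb u (ν u) := by
  by_cases hu : u = v
  · subst hu
    rw [if_pos rfl, nst_bb_v, Psi_v, ecd_enc]
  · by_cases hr : u ∈ Rf
    · rw [if_neg hu, if_pos hr, nst_bb_r σ L Rf O hu hr, Psi_r O hu hr, ecd_enc]
    · rw [if_neg hu, if_neg hr, nst_bb_o σ L Rf O hu hr, Psi_o O hu hr]

theorem dec_bb (ν : ι → ℕ) (x : ℕ) :
    dec v Rf (fun u => (nst σ v L Rf O).bb u (Psi O Rf ν x u)) = fun u => σ.bb u (ν u) := by
  funext u
  unfold dec
  simp only []
  rw [bb_Psi h]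
  by_cases hu : u = v
  · subst hu
    rw [if_pos (Or.inl rfl), if_pos rfl, d1_enc]
  · by_cases hr : u ∈ Rf
    · rw [if_pos (Or.inr hr), if_neg hu, if_pos hr, d1_enc]
    · rw [if_neg (not_or.2 ⟨hu, hr⟩), if_neg hu, if_neg hr]

/-- the families of the new state which count -/
theorem Val_Psi {t : ℕ} {w : Om} (h0 : Pt0 σ v Rf O t w) {ν : ι → ℕ} (hν : ν ∈ σ.fams t w) {x : ℕ}
    (hx : x ∈ cur O (ν v) t w) :
    Psi O Rf ν x ∈ (nst σ v L Rf O).fams t w ∧
      Val O Rf ((nst σ v L Rf O).bls t w) (fun u => (nst σ v L Rf O).bb u (Psi O Rf ν x u)) := by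
  classical
  have hv : ν v ∈ σ.lists t w v := by
    have h1 := (Fintype.mem_piFinset.1 hν) v
    rwa [if_neg h.av.symm] at h1
  obtain ⟨hx1, hx2, hx3⟩ := (mem_cur O).1 hx
  have hmem := h0.mem (ν v) hv x hx1 hx3
  constructor
  · refine Fintype.mem_piFinset.2 fun u => ?_
    have h1 := (Fintype.mem_piFinset.1 hν) u
    by_cases hua : u = a
    · subst hua
      rw [if_pos rfl] at h1 ⊢
      rw [Psi_o O h.av h.aR]
      exact h1
    · rw [if_neg hua] at h1 ⊢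
      by_cases huv : u = v
      · subst huv
        rw [Psi_v, nst_lists_v, enc_mem]
        exact ⟨h1, hx1⟩
      · by_cases hur : u ∈ Rf
        · rw [nst_lists_r σ L Rf O h.vR hur, Psi_r O huv hur, enc_mem]
          exact ⟨h1, (hmem u hur).1⟩
        · rw [nst_lists_o σ L Rf O huv hur, Psi_o O huv hur]
          exact h1
  · unfold Val
    have e1 := bb_Psi h O ν x v
    rw [if_pos rfl] at e1
    simp only []
    rw [e1, d2_enc, d1_enc, Nat.add_sub_cancel]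
    refine ⟨Nat.succ_ne_zero _, hx3, fun u hu => ?_, ?_⟩
    · have huv : u ≠ v := fun h' => h.vR (h' ▸ hu)
      have e2 := bb_Psi h O ν x u
      rw [if_neg huv, if_pos hu] at e2
      rw [e2, d2_enc, (hmem u hu).2]
    · have e3 : rx ((nst σ v L Rf O).bls t w v) (σ.bb v (ν v)) = ((O.Ls (ν v)).at' t w).image O.rnx := by
        unfold NSt.bls
        rw [nst_lists_v, nst_bb_v]
        exact rx_ecd h0.inj hv
      rw [e3, sup_image]
      exact hx2

theorem of_Val {t : ℕ} {w : Om} (h0 : Pt0 σ v Rf O t w) {ν' : ι → ℕ} (hν : ν' ∈ (nst σ v L Rf O).fams t w)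
    (hV : Val O Rf ((nst σ v L Rf O).bls t w) (fun u => (nst σ v L Rf O).bb u (ν' u))) :
    dec v Rf ν' ∈ σ.fams t w ∧ d2 (ν' v) - 1 ∈ cur O (dec v Rf ν' v) t w ∧
      Psi O Rf (dec v Rf ν') (d2 (ν' v) - 1) = ν' := by
  classical
  obtain ⟨hV1, hV2, hV3, hV4⟩ := hV
  simp only [nst_bb_v] at hV1 hV2 hV3 hV4
  have hd : d2 (ν' v) ≠ 0 := d2_ecd_ne.1 hV1
  rw [d2_ecd hd, Nat.add_sub_cancel] at hV2 hV3 hV4
  have hv := (Fintype.mem_piFinset.1 hν) v
  rw [if_neg h.av.symm, nst_lists_v, mem_extF] at hv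
  have hdv : dec v Rf ν' v = d1 (ν' v) := by
    unfold dec
    rw [if_pos (Or.inl rfl)]
  have hxm := hv.2 hd
  have hmem := h0.mem _ hv.1 _ hxm hV2
  have hsr : ∀ u ∈ Rf, d2 (ν' u) ≠ 0 ∧ O.sr (d2 (ν' v) - 1) u = d2 (ν' u) - 1 := by
    intro u hu
    have huv : u ≠ v := fun h' => h.vR (h' ▸ hu)
    have e1 := hV3 u hu
    rw [nst_bb_r σ L Rf O huv hu] at e1
    have e2 : d2 (ν' u) ≠ 0 := by
      have e3 : d2 (ecd (σ.bb u) (O.phi u) (ν' u)) ≠ 0 := by
        rw [e1]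
        exact Nat.succ_ne_zero _
      exact d2_ecd_ne.1 e3
    rw [d2_ecd e2, (hmem u hu).2] at e1
    have e3 := Nat.succ_injective e1
    have e4 := (Fintype.mem_piFinset.1 hν) u
    have hua : u ≠ a := fun h' => h.aR (h' ▸ hu)
    rw [if_neg hua, nst_lists_r σ L Rf O h.vR hu, mem_extF] at e4
    exact ⟨e2, (h0.injN u hu (mem_coe.2 (e4.2 e2)) (mem_coe.2 (hmem u hu).1) e3).symm⟩
  refine ⟨Fintype.mem_piFinset.2 fun u => ?_, ?_, ?_⟩
  · have h1 := (Fintype.mem_piFinset.1 hν) u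
    by_cases hua : u = a
    · subst hua
      rw [if_pos rfl] at h1 ⊢
      have h2 : dec v Rf ν' u = ν' u := by
        unfold dec
        rw [if_neg (not_or.2 ⟨h.av, h.aR⟩)]
      rw [h2]
      exact h1
    · rw [if_neg hua] at h1 ⊢
      by_cases huv : u = v
      · subst huv
        rw [hdv]
        exact hv.1
      · by_cases hur : u ∈ Rf
        · rw [nst_lists_r σ L Rf O h.vR hur, mem_extF] at h1
          have h2 : dec v Rf ν' u = d1 (ν' u) := by
            unfold dec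
            rw [if_pos (Or.inr hur)]
          rw [h2]
          exact h1.1
        · rw [nst_lists_o σ L Rf O huv hur] at h1
          have h2 : dec v Rf ν' u = ν' u := by
            unfold dec
            rw [if_neg (not_or.2 ⟨huv, hur⟩)]
          rw [h2]
          exact h1
  · rw [mem_cur, hdv]
    refine ⟨hxm, ?_, hV2⟩
    have e3 : rx ((nst σ v L Rf O).bls t w v) (d1 (ecd (σ.bb v) O.rnx (ν' v))) =
        ((O.Ls (d1 (ν' v))).at' t w).image O.rnx := by
      unfold NSt.bls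
      rw [nst_lists_v, nst_bb_v, d1_ecd]
      exact rx_ecd h0.inj hv.1
    rw [e3, sup_image] at hV4
    exact hV4
  · funext u
    by_cases huv : u = v
    · subst huv
      rw [Psi_v, hdv]
      exact (eq_enc hd).symm
    · by_cases hur : u ∈ Rf
      · have h2 : dec v Rf ν' u = d1 (ν' u) := by
          unfold dec
          rw [if_pos (Or.inr hur)]
        rw [Psi_r O huv hur, h2, (hsr u hur).2]
        exact (eq_enc (hsr u hur).1).symm
      · rw [Psi_o O huv hur]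
        unfold dec
        rw [if_neg (not_or.2 ⟨huv, hur⟩)]

/-- reindexing of a sum over the families of the new state -/
theorem sum_new {t : ℕ} {w : Om} (h0 : Pt0 σ v Rf O t w) (f : (ι → ℕ) → ℝ)
    (hf : ∀ ν', ¬ Val O Rf ((nst σ v L Rf O).bls t w) (fun u => (nst σ v L Rf O).bb u (ν' u)) → f ν' = 0) :
    ∑ ν' ∈ (nst σ v L Rf O).fams t w, f ν' =
      ∑ ν ∈ σ.fams t w, ∑ x ∈ cur O (ν v) t w, f (Psi O Rf ν x) := by
  classical
  rw [← sum_filter_add_sum_filter_not ((nst σ v L Rf O).fams t w)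
    (fun ν' => Val O Rf ((nst σ v L Rf O).bls t w) (fun u => (nst σ v L Rf O).bb u (ν' u)))]
  rw [sum_eq_zero (s := ((nst σ v L Rf O).fams t w).filter fun ν' =>
    ¬ Val O Rf ((nst σ v L Rf O).bls t w) (fun u => (nst σ v L Rf O).bb u (ν' u)))
    fun ν' hν' => hf ν' (mem_filter.1 hν').2, add_zero, sum_sigma']
  symm
  refine sum_bij' (fun p _ => Psi O Rf p.1 p.2) (fun ν' _ => ⟨dec v Rf ν', d2 (ν' v) - 1⟩) ?_ ?_ ?_ ?_ ?_
  · rintro ⟨ν, x⟩ hp
    rw [mem_sigma] at hp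
    rw [mem_filter]
    exact Val_Psi h O h0 hp.1 hp.2
  · intro ν' hν'
    rw [mem_filter] at hν'
    rw [mem_sigma]
    obtain ⟨h1, h2, -⟩ := of_Val h O h0 hν'.1 hν'.2
    exact ⟨h1, h2⟩
  · rintro ⟨ν, x⟩ _
    have h1 : d2 (Psi O Rf ν x v) - 1 = x := by
      rw [Psi_v, d2_enc]
      rfl
    rw [dec_Psi, h1]
  · intro ν' hν'
    rw [mem_filter] at hν'
    exact (of_Val h O h0 hν'.1 hν'.2).2.2
  · rintro ⟨ν, x⟩ _
    rfl

/-- the coefficient of the new state -/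
theorem cf_Psi {t : ℕ} {w : Om} (h0 : Pt0 σ v Rf O t w) (ζ : ℕ) {ν : ι → ℕ} (hν : ν ∈ σ.fams t w) {x : ℕ}
    (hx : x ∈ cur O (ν v) t w) :
    (nst σ v L Rf O).cf t w ζ (Psi O Rf ν x) = σ.cf t w ζ ν * O.co (O.rnx x) := by
  classical
  have h1 := (Val_Psi h O h0 hν hx).2
  have h2 : (nst σ v L Rf O).cf t w ζ (Psi O Rf ν x) =
      if Val O Rf ((nst σ v L Rf O).bls t w) (fun u => (nst σ v L Rf O).bb u (Psi O Rf ν x u)) then
        σ.c (σ.Z.at' t w) (old v Rf ((nst σ v L Rf O).bls t w)) ζ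
          (dec v Rf (fun u => (nst σ v L Rf O).bb u (Psi O Rf ν x u))) *
          O.co (d2 ((nst σ v L Rf O).bb v (Psi O Rf ν x v)) - 1) else 0 := rfl
  rw [h2, if_pos h1, old_bls σ L Rf O h.vR, dec_bb h, bb_Psi h, if_pos rfl, d2_enc]
  rfl

omit h in
theorem cf_not {t : ℕ} {w : Om} (ζ : ℕ) {ν' : ι → ℕ}
    (hV : ¬ Val O Rf ((nst σ v L Rf O).bls t w) (fun u => (nst σ v L Rf O).bb u (ν' u))) :
    (nst σ v L Rf O).cf t w ζ ν' = 0 := if_neg hV

/-- **THE NEW FORM** = the old form with the target replaced by its approximation -/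
theorem nst_T {t : ℕ} {w : Om} (h0 : Pt0 σ v Rf O t w) :
    (nst σ v L Rf O).T t w = ∑ ζ ∈ σ.Z.at' t w, ∑ ν ∈ σ.fams t w, σ.cf t w ζ ν *
      σ.tm v L Rf ζ ν (fun d => apr σ v L Rf O (ν v) t w d) t w := by
  classical
  have h1 : ∀ d, (nst σ v L Rf O).val t w d = ∑ ζ ∈ σ.Z.at' t w, ∑ ν ∈ σ.fams t w, σ.cf t w ζ ν *
      (σ.h.at' (σ.hn ζ ν) t w d * ((∏ l ∈ L, (σ.fam L l).at' (σ.pn l ν) t w d) *
        ((∏ u ∈ Rf, (σ.X u v).at' (σ.tr u v (ν u)) t w d) * apr σ v L Rf O (ν v) t w d))) := by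
    intro d
    unfold NSt.val
    refine sum_congr rfl fun ζ _ => ?_
    rw [sum_new h O h0 (fun ν' => (nst σ v L Rf O).cf t w ζ ν' *
      (nst σ v L Rf O).h.at' ((nst σ v L Rf O).hn ζ ν') t w d *
        ∏ u ∈ univ.erase a, (nst σ v L Rf O).fac u (ν' u) t w d) (fun ν' hV => by
          show (nst σ v L Rf O).cf t w ζ ν' * _ * _ = 0
          rw [cf_not O ζ hV, zero_mul, zero_mul])]
    refine sum_congr rfl fun ν hν => ?_
    unfold apr
    rw [mul_sum, mul_sum, mul_sum, mul_sum]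
    refine sum_congr rfl fun x hx => ?_
    have h2 := new_term h O ζ ν x t w d
    rw [cf_Psi h O h0 ζ hν hx, ← h2]
    ring
  unfold NSt.T NSt.tm
  have h2 : iw (S.J t w) ((nst σ v L Rf O).val t w) (fun _ => 1) =
      iw (S.J t w) (fun d => ∑ ζ ∈ σ.Z.at' t w, (1 : ℝ) * ∑ ν ∈ σ.fams t w, σ.cf t w ζ ν *
      (σ.h.at' (σ.hn ζ ν) t w d * ((∏ l ∈ L, (σ.fam L l).at' (σ.pn l ν) t w d) *
        ((∏ u ∈ Rf, (σ.X u v).at' (σ.tr u v (ν u)) t w d) * apr σ v L Rf O (ν v) t w d)))) (fun _ => 1) := by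
    congr 1
    funext d
    rw [h1 d]
    exact sum_congr rfl fun ζ _ => (one_mul _).symm
  rw [h2, iw_lin]
  refine sum_congr rfl fun ζ _ => ?_
  rw [one_mul, iw_lin]

/-- the sum of the coefficients -/
theorem nst_sum {t : ℕ} {w : Om} (h0 : Pt0 σ v Rf O t w) {n' : ℕ} (hco : ∀ x, |O.co x| ≤ 1)
    (hc : ∀ ν ∈ σ.lists t w v, ((O.Ls ν).at' t w).card ≤ n') :
    ∑ ζ ∈ σ.Z.at' t w, ∑ ν' ∈ (nst σ v L Rf O).fams t w, |(nst σ v L Rf O).cf t w ζ ν'| ≤
      (∑ ζ ∈ σ.Z.at' t w, ∑ ν ∈ σ.fams t w, |σ.cf t w ζ ν|) * n' := by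
  classical
  have hvl : ∀ ν ∈ σ.fams t w, ν v ∈ σ.lists t w v := by
    intro ν hν
    have h1 := (Fintype.mem_piFinset.1 hν) v
    rwa [if_neg h.av.symm] at h1
  rw [sum_mul]
  refine sum_le_sum fun ζ _ => ?_
  rw [sum_new h O h0 (fun ν' => |(nst σ v L Rf O).cf t w ζ ν'|) (fun ν' hV => by
    show |(nst σ v L Rf O).cf t w ζ ν'| = 0
    rw [cf_not O ζ hV, abs_zero]), sum_mul]
  refine sum_le_sum fun ν hν => ?_
  have h1 : ∀ x ∈ cur O (ν v) t w, |(nst σ v L Rf O).cf t w ζ (Psi O Rf ν x)| ≤ |σ.cf t w ζ ν| := by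
    intro x hx
    rw [cf_Psi h O h0 ζ hν hx, abs_mul]
    exact mul_le_of_le_one_right (abs_nonneg _) (hco _)
  refine (sum_le_card_nsmul _ _ _ h1).trans ?_
  rw [nsmul_eq_mul, mul_comm]
  refine mul_le_mul_of_nonneg_left ?_ (abs_nonneg _)
  have h2 : (cur O (ν v) t w).card ≤ n' := by
    refine le_trans (card_le_card fun x hx => ?_) (hc (ν v) (hvl ν hν))
    exact ((mem_cur O).1 hx).1
  exact_mod_cast h2

end pr

end

end Pool.Agent.GMN.SC
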