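import Pool.Agent.GMN.StepC2
import Pool.Agent.GMN.Ren
import Pool.Agent.GMN.Cap

/-!
# GMN/StepC3 (helper13): the data `StepIn` of the step with bounded numbers (ranks)

`dat σ h n B R` : lists cut at `n` elements, public sets cut at `B`, factors of the faces `l ∈ L` and of the known face
numbered by `R` ranks in the public sets of the face; `Good` = all visible sets have at most `R` elements;
`term_dat` : outside, the terms `tm` of the form are terms `formTerm` of the data;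
`Pr_bad` : the probability of the complement of `Good`.
-/

set_option autoImplicit false
set_option linter.unusedSectionVars false

namespace Pool.Agent.GMN.SC

open Finset Pool.Agent.PWZ Pool.Agent.M3 Pool.Agent.M3.TS Pool.Agent.GM Pool.GMN.Counter

noncomputable section

variable {ι Om Ξ Pt V Γ κ : Type} [Fintype ι] [DecidableEq ι] [Fintype Om] [Fintype Ξ] [Fintype Pt]
  [Fintype V] {S : Sys ι Om Ξ Pt V Γ κ} {a : ι}

/-- elements of a list which lie in a public set -/
def interL {u : ι} (A : Lst S (univ.erase u)) (B : PSt S u) : Lst S (univ.erase u) where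
  L t g ξ x := A.L t g ξ x ∩ B.L t g x
  dep t g ξ := fun x y h => by
    show A.L t g ξ x ∩ B.L t g x = A.L t g ξ y ∩ B.L t g y
    rw [A.dep t g ξ x y h, B.dep t g x y h]
  mono t g ξ x := inter_subset_inter (A.mono t g ξ x) (B.mono t g x)

theorem interL_at {u : ι} (A : Lst S (univ.erase u)) (B : PSt S u) (t : ℕ) (w : Om) :
    (interL A B).at' t w = A.at' t w ∩ B.at' t w := rfl

/-- image of a list -/
def imgL {I : Finset ι} (A : Lst S I) (φ : ℕ → ℕ) : Lst S I where
  L t g ξ x := (A.L t g ξ x).image φ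
  dep t g ξ := fun x y h => by
    show (A.L t g ξ x).image φ = (A.L t g ξ y).image φ
    rw [A.dep t g ξ x y h]
  mono t g ξ x := image_subset_image (A.mono t g ξ x)

theorem imgL_at {I : Finset ι} (A : Lst S I) (φ : ℕ → ℕ) (t : ℕ) (w : Om) :
    (imgL A φ).at' t w = (A.at' t w).image φ := rfl

section defs

variable (σ : NSt S a) (L : Finset ι) (B R : ℕ)

/-- own public set of the face `l` (of the known face for `l = a`) -/
def Qo (l : ι) : PSt S l := if h : a = l then Eq.rec (motive := fun l _ => PSt S l) σ.PZ h else σ.PS l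

theorem Qo_a : Qo σ a = σ.PZ := by
  unfold Qo
  rw [dif_pos rfl]

theorem Qo_ne {l : ι} (h : a ≠ l) : Qo σ l = σ.PS l := by
  unfold Qo
  rw [dif_neg h]

open Classical in
/-- the factor of the owner `u`: numbers = code (whole face) or traces -/
def facT (u : ι) : NumF S (ℕ × (ι → ℕ)) (univ.erase u) :=
  if σ.wh u then (σ.F u).map Prod.fst
  else (NumF.prod (σ.W u) fun x => (σ.X u x).up (erase_subset x (univ.erase u))).map Prod.snd

theorem facT_at (u : ι) (ν ν' : ℕ) (s : ι → ℕ) (h1 : σ.wh u → ν' = ν)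
    (h2 : ¬ σ.wh u → ∀ x ∈ σ.W u, s x = σ.tr u x ν) (t : ℕ) (w : Om) (d : V) :
    (facT σ u).at' (ν', s) t w d = σ.fac u ν t w d := by
  unfold facT NSt.fac
  split_ifs with h
  · rw [h1 h]
    rfl
  · show ∏ x ∈ σ.W u, (σ.X u x).at' (s x) t w d = _
    exact prod_congr rfl fun x hx => by rw [h2 h x hx]

/-- the factor of the face `l` -/
def Gf (l : ι) : NumF S (ℕ × ((ι → ℕ) × (ι → ℕ))) (univ.erase l) :=
  if h : a = l then Eq.rec (motive := fun l _ => NumF S (ℕ × ((ι → ℕ) × (ι → ℕ))) (univ.erase l))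
    (σ.h.map fun z => (z.1, z.2.2)) h
  else ((facT σ l).mul (σ.oth L l)).map fun z => ((z.1, z.2.1), z.2.2)

theorem Gf_a (z : ℕ × ((ι → ℕ) × (ι → ℕ))) (t : ℕ) (w : Om) : (Gf σ L a).at' z t w = σ.h.at' (z.1, z.2.2) t w := by
  unfold Gf
  rw [dif_pos rfl]
  rfl

theorem Gf_ne {l : ι} (h : a ≠ l) (z : ℕ × ((ι → ℕ) × (ι → ℕ))) (t : ℕ) (w : Om) (d : V) :
    (Gf σ L l).at' z t w d = (facT σ l).at' (z.1, z.2.1) t w d * (σ.oth L l).at' z.2.2 t w d := by
  unfold Gf
  rw [dif_neg h]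
  rfl

/-- the own traces of the face `l` are needed -/
def ow (l x : ι) : Prop := l ≠ x ∧ l ≠ a ∧ ¬ σ.wh l ∧ x ∈ σ.W l

/-- the trace at `l` of the owner `u` is needed -/
def nd (l u : ι) : Prop := u ≠ l ∧ u ≠ a ∧ (l = a ∨ (u ∉ L ∧ l ∈ σ.rest L u))

open Classical in
/-- value of the components which are not needed -/
def dfl (l u : ι) : ℕ := if l = a then σ.tr u a 0 else 0

open Classical in
/-- ranks of the own codes -/
def R0 (l : ι) : Ren S (Fin R) ℕ (univ.erase l) :=
  if l = a ∨ σ.wh l then (Qo σ l).ren R else Ren.const S _ _ 0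

open Classical in
/-- ranks of the own traces -/
def R1 (l x : ι) : Ren S (Fin R) ℕ (univ.erase l) :=
  if h : ow σ l x then (((σ.PT l x).cap B).up h.1).ren R else Ren.const S _ _ 0

open Classical in
/-- ranks of the traces of the others -/
def R2 (l u : ι) : Ren S (Fin R) ℕ (univ.erase l) :=
  if h : nd σ L l u then (((σ.PT u l).cap B).cmp.up h.1.symm).ren R else Ren.const S _ _ (dfl σ l u)

/-- the ranks on the face `l` -/
def Rk (l : ι) : Ren S (Fin R × ((ι → Fin R) × (ι → Fin R))) (ℕ × ((ι → ℕ) × (ι → ℕ))) (univ.erase l) :=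
  (R0 σ R l).prod ((Ren.pi (R1 σ B R l)).prod (Ren.pi (R2 σ L B R l)))

open Classical in
/-- the number of a family on the face `l` -/
def nm (l : ι) (ζ : ℕ) (ν : ι → ℕ) : ℕ × ((ι → ℕ) × (ι → ℕ)) :=
  (if l = a then ζ else if σ.wh l then ν l else 0, (fun x => if ow σ l x then σ.tr l x (ν l) else 0),
    fun u => if nd σ L l u then σ.tr u l (ν u) else dfl σ l u)

theorem nm_a (ζ : ℕ) {ν : ι → ℕ} (hν : ν a = 0) : ((nm σ L a ζ ν).1, (nm σ L a ζ ν).2.2) = σ.hn ζ ν := by
  classical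
  unfold nm NSt.hn
  rw [if_pos rfl]
  congr 1
  funext u
  by_cases hu : u = a
  · subst hu
    show (if nd σ L u u then σ.tr u u (ν u) else dfl σ u u) = _
    rw [if_neg (fun h : nd σ L u u => h.1 rfl), hν]
    unfold dfl
    rw [if_pos rfl]
  · show (if nd σ L a u then σ.tr u a (ν u) else dfl σ a u) = _
    rw [if_pos (show nd σ L a u from ⟨hu, hu, Or.inl rfl⟩)]

theorem Gf_nm {l : ι} (hl : a ≠ l) (hL : l ∈ L) (hir : ¬ σ.wh l → l ∉ σ.W l) (ζ : ℕ) (ν : ι → ℕ) (t : ℕ) (w : Om) :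
    (Gf σ L l).at' (nm σ L l ζ ν) t w = (σ.fam L l).at' (σ.pn l ν) t w := by
  classical
  funext d
  rw [Gf_ne σ L hl, σ.fam_at]
  congr 1
  · refine facT_at σ l (ν l) _ _ (fun h => ?_) (fun h x hx => ?_) t w d
    · show (if l = a then ζ else if σ.wh l then ν l else 0) = ν l
      rw [if_neg hl.symm, if_pos h]
    · show (if ow σ l x then σ.tr l x (ν l) else 0) = _
      rw [if_pos ⟨fun h' => hir h (h' ▸ hx), hl.symm, h, hx⟩]
  · rw [σ.oth_at, σ.oth_at]
    refine prod_congr rfl fun u hu => ?_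
    obtain ⟨-, h2, h3, h4⟩ := mem_filter.1 hu
    have h5 : nd σ L l u := ⟨fun h => h3 (h ▸ hL), h2, Or.inr ⟨h3, h4⟩⟩
    show (σ.X u l).at' (if nd σ L l u then σ.tr u l (ν u) else dfl σ l u) t w d = (σ.X u l).at' (σ.tr u l (ν u)) t w d
    rw [if_pos h5]

/-- the factors with bounded numbers -/
def Fb (l : ι) : NumF S (Fin R × ((ι → Fin R) × (ι → Fin R))) (univ.erase l) :=
  (Gf σ L l).ren (Rk σ L B R l) subset_rfl

/-- a number which is hit -/
theorem exists_Fb {l : ι} {ζ : ℕ} {ν : ι → ℕ} {t : ℕ} {w : Om} (h : (Rk σ L B R l).Hit (nm σ L l ζ ν) t w) :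
    ∃ b, (Fb σ L B R l).at' b t w = (Gf σ L l).at' (nm σ L l ζ ν) t w := by
  obtain ⟨b, hb⟩ := h
  exact ⟨b, NumF.ren_at hb⟩

/-- all visible sets are small -/
def Good (t : ℕ) (w : Om) : Prop := ∀ u l : ι, u ≠ l → (((σ.PT u l).cap B).cmp.at' t w).card ≤ R

theorem Good.anti {s t : ℕ} (hst : s ≤ t) {w : Om} (h : Good σ B R t w) : Good σ B R s w := fun u l hu =>
  (card_le_card (((σ.PT u l).cap B).cmp.at_le hst w)).trans (h u l hu)

end defs

section free

/-! ### lists which do not see the coin of the face `δ` -/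

variable {I : Finset ι} {α : Type} {pz : Ξ → α}

theorem free_cap {A : Lst S I} (h : A.Free pz) (n : ℕ) : (A.cap n).Free pz := fun t g ξ ξ' x hx =>
  capG_congr (x := (ξ, x)) (y := (ξ', x)) S.par A.unc n (fun s _ g => h s g ξ ξ' x hx) g

theorem free_img {A : Lst S I} (h : A.Free pz) (φ : ℕ → ℕ) : (imgL A φ).Free pz := fun t g ξ ξ' x hx => by
  show (A.L t g ξ x).image φ = (A.L t g ξ' x).image φ
  rw [h t g ξ ξ' x hx]

theorem free_inter {u : ι} {A : Lst S (univ.erase u)} (h : A.Free pz) (B : PSt S u) : (interL A B).Free pz :=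
  fun t g ξ ξ' x hx => by
    show A.L t g ξ x ∩ B.L t g x = A.L t g ξ' x ∩ B.L t g x
    rw [h t g ξ ξ' x hx]

theorem free_exc {A : Lst S I} {B : ℕ → Lst S I} (h : A.Free pz) (hB : ∀ ν, (B ν).Free pz) : (A.exc B).Free pz :=
  fun t g ξ ξ' x hx => by
    show extF (A.L t g ξ x) (fun ν => (B ν).L t g ξ x) = extF (A.L t g ξ' x) fun ν => (B ν).L t g ξ' x
    rw [h t g ξ ξ' x hx]
    congr 1
    funext ν
    exact hB ν t g ξ ξ' x hx

end free

section data

variable (σ : NSt S a) {v : ι} {L Rf : Finset ι} {tg : Option ι} (h : Fit σ v L Rf tg) (n B R : ℕ)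

/-- the list of traces of a reference -/
def lr (v : ι) (u : ι) : Lst S (univ.erase u) :=
  if h : u = v then Lst.emp S _ else interL (imgL ((σ.Lam u).cap n) (σ.tr u v)) (((σ.PT u v).cap B).up h)

variable {pz : Ξ → ℕ} {δ : ι} (hz : ∀ u, u ≠ a → u ≠ δ → (σ.Lam u).Free pz)

/-- **the data of the step** -/
def dat : StepIn S (Fin R × ((ι → Fin R) × (ι → Fin R))) where
  a := a
  v := v
  L := L
  Rf := Rf
  av := h.av
  aL := h.aL
  vL := h.vL
  aR := h.aR
  vR := h.vR
  LR := h.LR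
  pz := pz
  Lv := (σ.Lam v).cap n
  Tg := σ.tgt v tg
  Lr := lr σ n B v
  Br u := (σ.PT u v).cap B
  Xr u := σ.X u v
  Fa := Fb σ L B R
  zf := by
    by_cases hv : v = δ
    · right
      intro u hu
      have hne : u ≠ v := fun h' => h.vR (h' ▸ hu)
      have hua : u ≠ a := fun h' => h.aR (h' ▸ hu)
      unfold lr
      rw [dif_neg hne]
      exact free_inter (free_img (free_cap (hz u hua (hv ▸ hne)) n) _) _
    · exact Or.inl (free_cap (hz v h.av.symm hv) n)

theorem dat_Bd : (dat σ h n B R hz).Bd n B where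
  cv t _ w := (σ.Lam v).cap_card n t w
  cr u hu t _ w := by
    have hne : u ≠ v := fun h' => h.vR (h' ▸ hu)
    show ((lr σ n B v u).at' t w).card ≤ n
    unfold lr
    rw [dif_neg hne, interL_at, imgL_at]
    exact (card_le_card inter_subset_left).trans (card_image_le.trans ((σ.Lam u).cap_card n t w))
  sr u hu t _ w := by
    have hne : u ≠ v := fun h' => h.vR (h' ▸ hu)
    show (lr σ n B v u).at' t w ⊆ _
    unfold lr
    rw [dif_neg hne, interL_at]
    exact inter_subset_right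
  br u _ t _ w := (σ.PT u v).cap_card B t w

variable {σ} {n B R} {A : ℝ} {dead : ℕ → Om → Prop}

/-- the lists of the data at a sample point outside `dead` -/
theorem dat_Lv (hB : σ.Bd n B A dead) {t : ℕ} (ht : t ≤ S.n) {w : Om} (hd : ¬ dead t w) :
    (dat σ h n B R hz).Lv.at' t w = σ.lists t w v := (σ.Lam v).cap_eq (hB.card t ht w hd v h.av.symm)

include h in
theorem W_ref {u : ι} (hu : u ∈ Rf) : v ∈ σ.W u := by
  rw [(h.ref u hu).2]
  exact mem_insert_self v L

theorem dat_Lr (hB : σ.Bd n B A dead) {t : ℕ} (ht : t ≤ S.n) {w : Om} (hd : ¬ dead t w) {u : ι} (hu : u ∈ Rf) :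
    ((dat σ h n B R hz).Lr u).at' t w = (σ.lists t w u).image (σ.tr u v) := by
  have hne : u ≠ v := fun h' => h.vR (h' ▸ hu)
  have hua : u ≠ a := fun h' => h.aR (h' ▸ hu)
  show (lr σ n B v u).at' t w = _
  unfold lr
  rw [dif_neg hne, interL_at, imgL_at, (σ.Lam u).cap_eq (hB.card t ht w hd u hua)]
  refine inter_eq_left.2 fun x hx => ?_
  obtain ⟨ν, hν, rfl⟩ := mem_image.1 hx
  rw [BSt.up_at, (σ.PT u v).cap_eq (hB.numT t ht w hd u hua v (Or.inr (W_ref h hu)))]
  exact hB.subT t ht w hd u hua v (Or.inr (W_ref h hu)) ν hν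

include h in
/-- every family of the lists is hit -/
theorem hit (hB : σ.Bd n B A dead) {t : ℕ} (ht : t ≤ S.n) {w : Om} (hd : ¬ dead t w) (hpu : ∀ l ∈ L, σ.wh l → σ.pu l)
    (hBR : B ≤ R) (hR : 1 ≤ R)
    (hG : Good σ B R t w) {ζ : ℕ} (hζ : ζ ∈ σ.Z.at' t w) {ν : ι → ℕ} (hν : ν ∈ σ.fams t w) {l : ι}
    (hl : l = a ∨ l ∈ L) : (Rk σ L B R l).Hit (nm σ L l ζ ν) t w := by
  classical
  have : Nonempty (Fin R) := ⟨⟨0, hR⟩⟩
  have hmem : ∀ u, u ≠ a → ν u ∈ σ.lists t w u := by
    intro u hu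
    have h1 := (Fintype.mem_piFinset.1 hν) u
    rwa [if_neg hu] at h1
  unfold Rk
  refine Ren.hit_prod ?_ (Ren.hit_prod (Ren.hit_pi fun x => ?_) (Ren.hit_pi fun u => ?_))
  · show (R0 σ R l).Hit (if l = a then ζ else if σ.wh l then ν l else 0) t w
    unfold R0
    by_cases hla : l = a
    · subst hla
      rw [if_pos (Or.inl rfl), if_pos rfl, Qo_a]
      exact PSt.hit _ ((hB.numZ t ht w hd).trans hBR) (hB.subZ t ht w hd hζ)
    · have hlL : l ∈ L := hl.resolve_left hla
      by_cases hw : σ.wh l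
      · rw [if_pos (Or.inr hw), if_neg hla, if_pos hw, Qo_ne σ (fun h' => hla h'.symm)]
        exact PSt.hit _ ((hB.num t ht w hd l hla (hpu l hlL hw)).trans hBR)
          (hB.sub t ht w hd l hla (hpu l hlL hw) (hmem l hla))
      · rw [if_neg (not_or.2 ⟨hla, hw⟩), if_neg hla, if_neg hw]
        exact Ren.hit_const _ t w
  · show (R1 σ B R l x).Hit (if ow σ l x then σ.tr l x (ν l) else 0) t w
    unfold R1
    by_cases ho : ow σ l x
    · rw [dif_pos ho, if_pos ho]
      obtain ⟨h1, h2, h3, h4⟩ := ho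
      refine PSt.hit _ ?_ ?_
      · rw [BSt.up_at]
        exact ((σ.PT l x).cap_card B t w).trans hBR
      · rw [BSt.up_at, (σ.PT l x).cap_eq (hB.numT t ht w hd l h2 x (Or.inr h4))]
        exact hB.subT t ht w hd l h2 x (Or.inr h4) (ν l) (hmem l h2)
    · rw [dif_neg ho, if_neg ho]
      exact Ren.hit_const _ t w
  · show (R2 σ L B R l u).Hit (if nd σ L l u then σ.tr u l (ν u) else dfl σ l u) t w
    unfold R2
    by_cases hn : nd σ L l u
    · rw [dif_pos hn, if_pos hn]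
      obtain ⟨h1, h2, h3⟩ := hn
      have hlW : l = a ∨ l ∈ σ.W u := by
        rcases h3 with h3 | ⟨-, h3⟩
        · exact Or.inl h3
        · right
          unfold NSt.rest at h3
          split_ifs at h3
          · exact absurd h3 (notMem_empty _)
          · exact (mem_inter.1 h3).1
      refine PSt.hit _ (hG u l h1) ?_
      rw [BSt.up_at]
      refine BSt.sub_cmp _ t w ?_
      rw [(σ.PT u l).cap_eq (hB.numT t ht w hd u h2 l hlW)]
      exact hB.subT t ht w hd u h2 l hlW (ν u) (hmem u h2)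
    · rw [dif_neg hn, if_neg hn]
      exact Ren.hit_const _ t w

/-- **the terms of the form are terms of the data** -/
theorem term_dat (hB : σ.Bd n B A dead) {t : ℕ} (ht : t ≤ S.n) {w : Om} (hd : ¬ dead t w)
    (hpu : ∀ l ∈ L, σ.wh l → σ.pu l) (hBR : B ≤ R) (hR : 1 ≤ R)
    (hG : Good σ B R t w) {ζ : ℕ} (hζ : ζ ∈ σ.Z.at' t w) {ν : ι → ℕ} (hν : ν ∈ σ.fams t w) :
    ∃ z : ι → (Fin R × ((ι → Fin R) × (ι → Fin R))), ∀ f : V → ℝ,
      formTerm (dat σ h n B R hz) z (fun u => σ.tr u v (ν u)) f t w = σ.tm v L Rf ζ ν f t w := by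
  classical
  have : Nonempty (Fin R) := ⟨⟨0, hR⟩⟩
  have hνa : ν a = 0 := by
    have h1 := (Fintype.mem_piFinset.1 hν) a
    rw [if_pos rfl] at h1
    exact mem_singleton.1 h1
  have h1 : ∀ l, ∃ b, (l = a ∨ l ∈ L) → (Fb σ L B R l).at' b t w = (Gf σ L l).at' (nm σ L l ζ ν) t w := by
    intro l
    by_cases hl : l = a ∨ l ∈ L
    · obtain ⟨b, hb⟩ := exists_Fb σ L B R (hit h hB ht hd hpu hBR hR hG hζ hν hl)
      exact ⟨b, fun _ => hb⟩
    · exact ⟨(Classical.arbitrary _, (fun _ => Classical.arbitrary _), fun _ => Classical.arbitrary _),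
        fun h' => absurd h' hl⟩
  choose z hz using h1
  refine ⟨z, fun f => ?_⟩
  unfold formTerm NSt.tm
  congr 1
  funext d
  have e1 : (Fb σ L B R a).at' (z a) t w d = σ.h.at' (σ.hn ζ ν) t w d := by
    rw [hz a (Or.inl rfl), Gf_a, nm_a σ L ζ hνa]
  have e2 : ∏ l ∈ L, (Fb σ L B R l).at' (z l) t w d = ∏ l ∈ L, (σ.fam L l).at' (σ.pn l ν) t w d := by
    refine prod_congr rfl fun l hl => ?_
    have hal : a ≠ l := fun h' => h.aL (h' ▸ hl)
    rw [hz l (Or.inr hl), Gf_nm σ L hal hl (h.irr l hl)]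
  show (Fb σ L B R a).at' (z a) t w d * ((∏ l ∈ L, (Fb σ L B R l).at' (z l) t w d) *
    ((∏ u ∈ Rf, (σ.X u v).at' (σ.tr u v (ν u)) t w d) * f d)) = _
  rw [e1, e2]

/-- the probability that a visible set is large -/
theorem Pr_bad (t : ℕ) (hR : 1 ≤ R) :
    S.P.Pr (fun w => ¬ Good σ B R t w) ≤ (Fintype.card ι : ℝ) ^ 2 * (S.K * B / R) := by
  classical
  have hR0 : (0 : ℝ) < R := by exact_mod_cast hR
  have hK : 0 ≤ S.K := le_trans zero_le_one S.K1
  have h1 : ∀ u l : ι, S.P.Pr (fun w => u ≠ l ∧ R ≤ (((σ.PT u l).cap B).cmp.at' t w).card) ≤ S.K * B / R := by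
    intro u l
    by_cases hul : u = l
    · have h0 : S.P.Pr (fun w => u ≠ l ∧ R ≤ (((σ.PT u l).cap B).cmp.at' t w).card) = 0 :=
        Mod.Pr_none _ fun w h' => h'.1 hul
      rw [h0]
      positivity
    · refine le_trans (FP.Pr_mono _ fun w _ h' => ?_) (BSt.cmp_large ((σ.PT u l).cap B) hul t (B := B) (B' := R) ?_ hR0)
      · exact_mod_cast h'.2
      · refine FP.E_le_const _ fun w _ => ?_
        exact_mod_cast (σ.PT u l).cap_card B t w
  have h2 : S.P.Pr (fun w => ¬ Good σ B R t w) ≤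
      ∑ u : ι, ∑ l : ι, S.P.Pr (fun w => u ≠ l ∧ R ≤ (((σ.PT u l).cap B).cmp.at' t w).card) := by
    unfold FP.Pr
    simp only [← S.P.E_sum]
    refine S.P.E_mono fun w _ => ?_
    by_cases hg : Good σ B R t w
    · rw [ind_not (not_not.2 hg)]
      exact sum_nonneg fun u _ => sum_nonneg fun l _ => ind_nonneg _
    · rw [ind_of hg]
      unfold Good at hg
      push Not at hg
      obtain ⟨u, l, h3, h4⟩ := hg
      have h5 : ind (u ≠ l ∧ R ≤ (((σ.PT u l).cap B).cmp.at' t w).card) = 1 := ind_of ⟨h3, h4.le⟩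
      rw [← h5]
      refine le_trans ?_ (single_le_sum (f := fun u => ∑ l : ι, ind (u ≠ l ∧ R ≤
        (((σ.PT u l).cap B).cmp.at' t w).card)) (fun u _ => sum_nonneg fun l _ => ind_nonneg _) (mem_univ u))
      exact single_le_sum (f := fun l => ind (u ≠ l ∧ R ≤ (((σ.PT u l).cap B).cmp.at' t w).card))
        (fun l _ => ind_nonneg _) (mem_univ l)
  refine h2.trans ((sum_le_sum fun u _ => sum_le_sum fun l _ => h1 u l).trans (le_of_eq ?_))
  rw [sum_const, sum_const, Finset.card_univ, nsmul_eq_mul, nsmul_eq_mul]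
  ring

end data

end

end Pool.Agent.GMN.SC
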