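import Pool.Agent.GMN.StepC3

/-!
# GMN/StepC4 (helper13): bounds and shape of the state after one step

`Fx` = the facts of `StepOut` at a sample point, with the list of the owner `v` in the place of the clients;
`nst_Bd`, `nst_On`, `nst_Shape`, `nst_Free` : the new state.
-/

set_option autoImplicit false
set_option linter.unusedSectionVars false

namespace Pool.Agent.GMN.SC

open Finset Pool.Agent.PWZ Pool.Agent.M3 Pool.Agent.M3.TS Pool.Agent.GM Pool.GMN.Counter

noncomputable section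

theorem pair_le {a b M : ℕ} (ha : a ≤ M) (hb : b ≤ M) : Nat.pair a b ≤ (M + 1) ^ 2 := by
  refine (Nat.pair_lt_max_add_one_sq a b).le.trans (Nat.pow_le_pow_left ?_ 2)
  have : max a b ≤ M := max_le ha hb
  omega

theorem ecd_le {f g : ℕ → ℕ} {c M : ℕ} (hf : f (d1 c) ≤ M) (hg : d2 c ≠ 0 → g (d2 c - 1) + 1 ≤ M) :
    ecd f g c ≤ (M + 1) ^ 2 := by
  unfold ecd
  split_ifs with h
  · exact pair_le hf (Nat.zero_le _)
  · exact pair_le hf (hg h)

variable {ι Om Ξ Pt V Γ κ : Type} [Fintype ι] [DecidableEq ι] [Fintype Om] [Fintype Ξ] [Fintype Pt]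
  [Fintype V] {S : Sys ι Om Ξ Pt V Γ κ} {a : ι}

/-- the facts of `StepOut` at a sample point -/
structure Fx (σ : NSt S a) (v : ι) (L Rf : Finset ι) (O : StepObj S v a) (nu n' B' : ℕ) (t : ℕ) (w : Om) : Prop where
  cardL : ∀ ν ∈ σ.lists t w v, ((O.Ls ν).at' t w).card ≤ nu
  cardN : ∀ u ∈ Rf, ((O.N u).at' t w).card ≤ n'
  numL : ∀ ν ∈ σ.lists t w v, ∀ x ∈ (O.Ls ν).at' t w, O.rnx x ≤ B'
  numN : ∀ u ∈ Rf, ∀ n ∈ (O.N u).at' t w, O.phi u n ≤ B'
  injL : ∀ ν ∈ σ.lists t w v, Set.InjOn O.rnx ((O.Ls ν).at' t w)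
  injN : ∀ u ∈ Rf, Set.InjOn (O.phi u) ((O.N u).at' t w)
  pubL : ∀ l, l = a ∨ l ∈ L → ∀ ν ∈ σ.lists t w v, ∀ x ∈ (O.Ls ν).at' t w, O.kl l x ∈ (O.PL l).at' t w
  cardPL : ∀ l, l = a ∨ l ∈ L → ((O.PL l).at' t w).card ≤ B'
  pubN : ∀ u ∈ Rf, (O.N u).at' t w ⊆ (O.PN u).at' t w
  cardPN : ∀ u ∈ Rf, ((O.PN u).at' t w).card ≤ B'
  on : ∀ ν ∈ σ.lists t w v, ∀ x ∈ (O.Ls ν).at' t w, O.h.on (O.kl a x) t w
  mem : ∀ ν ∈ σ.lists t w v, ∀ x ∈ (O.Ls ν).at' t w, O.co (O.rnx x) ≠ 0 → ∀ u ∈ Rf, O.sr x u ∈ (O.N u).at' t w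
  hash : ∀ ν ∈ σ.lists t w v, ∀ x ∈ (O.Ls ν).at' t w, O.co (O.rnx x) ≠ 0 → ∀ u ∈ Rf,
    O.hs (O.rnx x) u = O.phi u (O.sr x u)

section st

variable {σ : NSt S a} {v : ι} {L Rf : Finset ι} {tg : Option ι} (h : Fit σ v L Rf tg) (O : StepObj S v a)
  {n B n' B' : ℕ} {A : ℝ} {dead dead' : ℕ → Om → Prop}

theorem Fx.pt0 {O : StepObj S v a} {nu : ℕ} {t : ℕ} {w : Om} (hF : Fx σ v L Rf O nu n' B' t w)
    (hi : Set.InjOn (σ.bb v) (σ.lists t w v)) : Pt0 σ v Rf O t w where
  inj := hi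
  injN := hF.injN
  mem ν hν x hx hc u hu := ⟨hF.mem ν hν x hx hc u hu, hF.hash ν hν x hx hc u hu⟩

section facts

variable {O : StepObj S v a} (σ)

theorem nst_PT_v {l : ι} (hl : l = a ∨ l ∈ σ.rest L v) : (nst σ v L Rf O).PT v l = (σ.PT v l).exc (O.PL l) := by
  show (if v = v then (if l = a ∨ l ∈ σ.rest L v then (σ.PT v l).exc (Pk O v l)
      else (BSt.single S v l 0).exc (Pk O v l)) else _) = _
  rw [if_pos rfl, if_pos hl, Pk_v]

theorem nst_PT_v' {l : ι} (hl : ¬ (l = a ∨ l ∈ σ.rest L v)) :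
    (nst σ v L Rf O).PT v l = (BSt.single S v l 0).exc (O.PL l) := by
  show (if v = v then (if l = a ∨ l ∈ σ.rest L v then (σ.PT v l).exc (Pk O v l)
      else (BSt.single S v l 0).exc (Pk O v l)) else _) = _
  rw [if_pos rfl, if_neg hl, Pk_v]

theorem nst_PT_r {u : ι} (hu : u ≠ v) (hr : u ∈ Rf) : (nst σ v L Rf O).PT u v = (σ.PT u v).exc (O.PN u) := by
  show (if u = v then _ else if u ∈ Rf ∧ v = v then (σ.PT u v).exc (Pw O u v) else σ.PT u v) = _
  rw [if_neg hu, if_pos ⟨hr, rfl⟩, Pw_v]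

theorem nst_PT_o {u l : ι} (hu : u ≠ v) (hr : ¬ (u ∈ Rf ∧ l = v)) : (nst σ v L Rf O).PT u l = σ.PT u l := by
  show (if u = v then _ else if u ∈ Rf ∧ l = v then (σ.PT u l).exc (Pw O u l) else σ.PT u l) = _
  rw [if_neg hu, if_neg hr]

theorem nst_tr_v {l : ι} (hl : l = a ∨ l ∈ σ.rest L v) : (nst σ v L Rf O).tr v l = ecd (σ.tr v l) (O.kl l) := by
  show (if v = v then (if l = a ∨ l ∈ σ.rest L v then _ else _) else _) = _
  rw [if_pos rfl, if_pos hl]

theorem nst_tr_v' {l : ι} (hl : ¬ (l = a ∨ l ∈ σ.rest L v)) :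
    (nst σ v L Rf O).tr v l = ecd (fun _ => 0) (O.kl l) := by
  show (if v = v then (if l = a ∨ l ∈ σ.rest L v then _ else _) else _) = _
  rw [if_pos rfl, if_neg hl]

theorem nst_tr_r {u : ι} (hu : u ≠ v) (hr : u ∈ Rf) : (nst σ v L Rf O).tr u v = ecd (σ.tr u v) id := by
  show (if u = v then _ else if u ∈ Rf then (if v = v then _ else _) else _) = _
  rw [if_neg hu, if_pos hr, if_pos rfl]

theorem nst_tr_r' {u l : ι} (hu : u ≠ v) (hr : u ∈ Rf) (hl : l ≠ v) :
    (nst σ v L Rf O).tr u l = fun c => σ.tr u l (d1 c) := by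
  show (if u = v then _ else if u ∈ Rf then (if l = v then _ else _) else _) = _
  rw [if_neg hu, if_pos hr, if_neg hl]

theorem nst_tr_o {u l : ι} (hu : u ≠ v) (hr : u ∉ Rf) : (nst σ v L Rf O).tr u l = σ.tr u l := by
  show (if u = v then _ else if u ∈ Rf then _ else _) = _
  rw [if_neg hu, if_neg hr]

end facts

theorem card_exc_le {A B : Finset ℕ} {M N : ℕ} (hA : A.card ≤ M) (hB : B.card ≤ N) :
    (extF A fun _ => B).card ≤ M * (N + 1) :=
  (card_extF A (fun _ => B) fun _ _ => hB).trans (Nat.mul_le_mul_right _ hA)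

include h in
theorem nst_Bd {nu : ℕ} (hB : σ.Bd n B A dead) (hF : ∀ t ≤ S.n, ∀ w, ¬ dead' t w → Fx σ v L Rf O nu n' B' t w)
    (hdd : ∀ t w, dead t w → dead' t w) (hinc : ∀ t w, dead' t w → dead' (t + 1) w) (hco : ∀ x, |O.co x| ≤ 1) :
    (nst σ v L Rf O).Bd (n * (nu + n' + 1)) ((B + B' + 2) ^ 2) (A * nu) dead' := by
  classical
  have hva : v ≠ a := h.av.symm
  have hd : ∀ {t w}, ¬ dead' t w → ¬ dead t w := fun h1 h2 => h1 (hdd _ _ h2)
  have hn : n ≤ n * (nu + n' + 1) := Nat.le_mul_of_pos_right _ (Nat.succ_pos _)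
  have hBB0 : (B + B' + 1) + 1 ≤ (B + B' + 2) ^ 2 := by
    have : B + B' + 2 ≤ (B + B' + 2) * (B + B' + 2) := Nat.le_mul_of_pos_left _ (by omega)
    rw [pow_two]
    omega
  have hBB : B ≤ (B + B' + 2) ^ 2 := by omega
  have hBB' : B * (B' + 1) ≤ (B + B' + 2) ^ 2 := by
    rw [pow_two]
    exact Nat.mul_le_mul (by omega) (by omega)
  have hBB1 : 1 * (B' + 1) ≤ (B + B' + 2) ^ 2 := by omega
  refine ⟨hinc, ?_, ?_, ?_, ?_, ?_, ?_, ?_, ?_, ?_, ?_, ?_⟩
  · intro t ht w hw
    exact (hB.cardZ t ht w (hd hw)).trans hn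
  · intro t ht w hw
    exact hB.subZ t ht w (hd hw)
  · intro t ht w hw
    exact (hB.numZ t ht w (hd hw)).trans hBB
  · intro t ht w hw u hu
    have hF1 := hF t ht w hw
    by_cases huv : u = v
    · subst huv
      rw [nst_lists_v]
      exact (card_extF _ _ hF1.cardL).trans (Nat.mul_le_mul (hB.card t ht w (hd hw) u hu) (by omega))
    · by_cases hr : u ∈ Rf
      · rw [nst_lists_r σ L Rf O h.vR hr]
        exact (card_extF _ _ fun _ _ => hF1.cardN u hr).trans
          (Nat.mul_le_mul (hB.card t ht w (hd hw) u hu) (by omega))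
      · rw [nst_lists_o σ L Rf O huv hr]
        exact (hB.card t ht w (hd hw) u hu).trans hn
  · intro t ht w hw u hu hp
    obtain ⟨h1, h2, h3⟩ := hp
    rw [nst_lists_o σ L Rf O h2 h3]
    exact hB.sub t ht w (hd hw) u hu h1
  · intro t ht w hw u hu hp
    obtain ⟨h1, h2, h3⟩ := hp
    exact (hB.num t ht w (hd hw) u hu h1).trans hBB
  · -- traces
    intro t ht w hw u hu l hl c hc
    have hF1 := hF t ht w hw
    by_cases huv : u = v
    · subst huv
      rw [nst_W_v] at hl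
      rw [nst_lists_v] at hc
      by_cases h1 : l = a ∨ l ∈ σ.rest L u
      · rw [nst_PT_v σ h1, nst_tr_v σ h1, BSt.exc_at]
        refine ecd_mem hc (fun ν hν => ?_) (fun ν hν x hx => hF1.pubL l hl ν hν x hx)
        refine hB.subT t ht w (hd hw) u hu l ?_ ν hν
        rcases h1 with h1 | h1
        · exact Or.inl h1
        · right
          unfold NSt.rest at h1
          split_ifs at h1
          · exact absurd h1 (notMem_empty _)
          · exact (mem_inter.1 h1).1
      · rw [nst_PT_v' σ h1, nst_tr_v' σ h1, BSt.exc_at, BSt.single_at]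
        exact ecd_mem hc (fun ν _ => mem_singleton_self 0) (fun ν hν x hx => hF1.pubL l hl ν hν x hx)
    · rw [nst_W_ne σ L Rf O huv] at hl
      by_cases hr : u ∈ Rf
      · rw [nst_lists_r σ L Rf O h.vR hr] at hc
        by_cases hlv : l = v
        · subst hlv
          rw [nst_PT_r σ huv hr, nst_tr_r σ huv hr, BSt.exc_at]
          refine ecd_mem hc (fun ν hν => hB.subT t ht w (hd hw) u hu l hl ν hν) fun ν _ x hx => ?_
          exact hF1.pubN u hr hx
        · rw [nst_PT_o σ huv (fun h' => hlv h'.2), nst_tr_r' σ huv hr hlv]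
          exact hB.subT t ht w (hd hw) u hu l hl _ (mem_extF.1 hc).1
      · rw [nst_lists_o σ L Rf O huv hr] at hc
        rw [nst_PT_o σ huv (fun h' => hr h'.1), nst_tr_o σ huv hr]
        exact hB.subT t ht w (hd hw) u hu l hl c hc
  · -- sizes of the box sets
    intro t ht w hw u hu l hl
    have hF1 := hF t ht w hw
    by_cases huv : u = v
    · subst huv
      rw [nst_W_v] at hl
      by_cases h1 : l = a ∨ l ∈ σ.rest L u
      · rw [nst_PT_v σ h1, BSt.exc_at]
        refine (card_exc_le (hB.numT t ht w (hd hw) u hu l ?_) (hF1.cardPL l hl)).trans hBB'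
        rcases h1 with h1 | h1
        · exact Or.inl h1
        · right
          unfold NSt.rest at h1
          split_ifs at h1
          · exact absurd h1 (notMem_empty _)
          · exact (mem_inter.1 h1).1
      · rw [nst_PT_v' σ h1, BSt.exc_at, BSt.single_at]
        exact (card_exc_le (card_singleton 0).le (hF1.cardPL l hl)).trans hBB1
    · rw [nst_W_ne σ L Rf O huv] at hl
      by_cases hr : u ∈ Rf ∧ l = v
      · obtain ⟨hr, rfl⟩ := hr
        rw [nst_PT_r σ huv hr, BSt.exc_at]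
        exact (card_exc_le (hB.numT t ht w (hd hw) u hu l hl) (hF1.cardPN u hr)).trans hBB'
      · rw [nst_PT_o σ huv hr]
        exact (hB.numT t ht w (hd hw) u hu l hl).trans hBB
  · -- bounded numbers
    intro t ht w hw u hu c hc
    have hF1 := hF t ht w hw
    have e1 : (B + B' + 2) ^ 2 = ((B + B' + 1) + 1) ^ 2 := rfl
    by_cases huv : u = v
    · subst huv
      rw [nst_lists_v, mem_extF] at hc
      rw [nst_bb_v, e1]
      refine ecd_le ?_ fun h2 => ?_
      · have := hB.numb t ht w (hd hw) u hu _ hc.1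
        omega
      · have := hF1.numL _ hc.1 _ (hc.2 h2)
        omega
    · by_cases hr : u ∈ Rf
      · rw [nst_lists_r σ L Rf O h.vR hr, mem_extF] at hc
        rw [nst_bb_r σ L Rf O huv hr, e1]
        refine ecd_le ?_ fun h2 => ?_
        · have := hB.numb t ht w (hd hw) u hu _ hc.1
          omega
        · have := hF1.numN u hr _ (hc.2 h2)
          omega
      · rw [nst_lists_o σ L Rf O huv hr] at hc
        rw [nst_bb_o σ L Rf O huv hr]
        exact (hB.numb t ht w (hd hw) u hu c hc).trans hBB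
  · -- injective
    intro t ht w hw u hu
    have hF1 := hF t ht w hw
    by_cases huv : u = v
    · subst huv
      rw [nst_lists_v, nst_bb_v]
      exact inj_ecd (hB.inj t ht w (hd hw) u hu) hF1.injL
    · by_cases hr : u ∈ Rf
      · rw [nst_lists_r σ L Rf O h.vR hr, nst_bb_r σ L Rf O huv hr]
        exact inj_ecd (hB.inj t ht w (hd hw) u hu) fun _ _ => hF1.injN u hr
      · rw [nst_lists_o σ L Rf O huv hr, nst_bb_o σ L Rf O huv hr]
        exact hB.inj t ht w (hd hw) u hu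
  · -- sum of the coefficients
    intro t ht w hw
    have hF1 := hF t ht w hw
    have h1 := nst_sum h O (hF1.pt0 (hB.inj t ht w (hd hw) v hva)) hco hF1.cardL
    refine h1.trans ?_
    exact mul_le_mul_of_nonneg_right (hB.sum t ht w (hd hw)) (Nat.cast_nonneg _)

include h in
theorem nst_On {nu : ℕ} (hO : σ.On dead) (hF : ∀ t ≤ S.n, ∀ w, ¬ dead' t w → Fx σ v L Rf O nu n' B' t w)
    (hdd : ∀ t w, dead t w → dead' t w) : (nst σ v L Rf O).On dead' := by
  classical
  intro t ht w hw ζ hζ ν' hν'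
  have hF1 := hF t ht w hw
  have hv := (Fintype.mem_piFinset.1 hν') v
  rw [if_neg h.av.symm, nst_lists_v, mem_extF] at hv
  -- the old family
  have hold : dec v Rf ν' ∈ σ.fams t w := by
    refine Fintype.mem_piFinset.2 fun u => ?_
    have h1 := (Fintype.mem_piFinset.1 hν') u
    by_cases hua : u = a
    · subst hua
      rw [if_pos rfl] at h1 ⊢
      have h2 : dec v Rf ν' u = ν' u := by
        unfold dec
        rw [if_neg (not_or.2 ⟨h.av, h.aR⟩)]
      rw [h2]
      exact h1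
    · rw [if_neg hua] at h1 ⊢
      by_cases huv : u = v
      · subst huv
        have h2 : dec u Rf ν' u = d1 (ν' u) := by
          unfold dec
          rw [if_pos (Or.inl rfl)]
        rw [h2]
        exact hv.1
      · by_cases hur : u ∈ Rf
        · rw [nst_lists_r σ L Rf O h.vR hur, mem_extF] at h1
          have h2 : dec v Rf ν' u = d1 (ν' u) := by
            unfold dec
            rw [if_pos (Or.inr hur)]
          rw [h2]
          exact h1.1
        · rw [nst_lists_o σ L Rf O huv hur] at h1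
          have h2 : dec v Rf ν' u = ν' u := by
            unfold dec
            rw [if_neg (not_or.2 ⟨huv, hur⟩)]
          rw [h2]
          exact h1
  have h1 := hO t ht w (fun h' => hw (hdd t w h')) ζ hζ _ hold
  -- the number of the old function
  have h2 : ((nst σ v L Rf O).hn ζ ν').1 = ζ := rfl
  have h3 : (ζ, Function.update ((nst σ v L Rf O).hn ζ ν').2 v (d1 (((nst σ v L Rf O).hn ζ ν').2 v))) =
      σ.hn ζ (dec v Rf ν') := by
    unfold NSt.hn
    simp only []
    congr 1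
    funext u
    by_cases huv : u = v
    · subst huv
      rw [Function.update_self, nst_tr_v σ (Or.inl rfl), d1_ecd]
      unfold dec
      rw [if_pos (Or.inl rfl)]
    · rw [Function.update_of_ne huv]
      by_cases hur : u ∈ Rf
      · rw [nst_tr_r' σ huv hur h.av]
        unfold dec
        rw [if_pos (Or.inr hur)]
      · rw [nst_tr_o σ huv hur]
        unfold dec
        rw [if_neg (not_or.2 ⟨huv, hur⟩)]
  have h4 : (O.h.opt).on (oc id (((nst σ v L Rf O).hn ζ ν').2 v)) t w := by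
    have e1 : ((nst σ v L Rf O).hn ζ ν').2 v = ecd (σ.tr v a) (O.kl a) (ν' v) := by
      show (nst σ v L Rf O).tr v a (ν' v) = _
      rw [nst_tr_v σ (Or.inl rfl)]
    rw [e1]
    by_cases h5 : d2 (ν' v) = 0
    · rw [eq_mk h5, ecd_mk, oc_mk]
      exact trivial
    · have h6 := hF1.on _ hv.1 _ (hv.2 h5)
      rw [eq_enc h5, ecd_enc, oc_enc]
      exact h6
  have h5 : (nst σ v L Rf O).h.on ((nst σ v L Rf O).hn ζ ν') t w ↔
      σ.h.on (ζ, Function.update ((nst σ v L Rf O).hn ζ ν').2 v (d1 (((nst σ v L Rf O).hn ζ ν').2 v))) t w ∧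
      (O.h.opt).on (oc id (((nst σ v L Rf O).hn ζ ν').2 v)) t w := Iff.rfl
  rw [h5, h3]
  exact ⟨h1, h4⟩

/-- which functions are present -/
theorem nst_wh_v : ¬ (nst σ v L Rf O).wh v := fun h' => h'.1 rfl

theorem nst_wh_ne {u : ι} (hu : u ≠ v) : (nst σ v L Rf O).wh u ↔ σ.wh u := ⟨fun h' => h'.2, fun h' => ⟨hu, h'⟩⟩

/-- the lists do not see the coin of the face `δ` -/
theorem nst_Free {pz : Ξ → ℕ} {u : ι} (hu : (σ.Lam u).Free pz) (hL : u = v → ∀ ν, (O.Ls ν).Free pz)
    (hN : u ∈ Rf → (O.N u).Free pz) : ((nst σ v L Rf O).Lam u).Free pz := by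
  classical
  show (if u = v ∨ u ∈ Rf then (σ.Lam u).exc (Bs O u) else σ.Lam u).Free pz
  by_cases h1 : u = v ∨ u ∈ Rf
  · rw [if_pos h1]
    refine free_exc hu fun ν => ?_
    by_cases huv : u = v
    · subst huv
      rw [Bs_v]
      exact hL rfl ν
    · rw [Bs_ne O fun h' => huv h'.symm]
      exact hN (h1.resolve_left huv)
  · rw [if_neg h1]
    exact hu

end st

end

end Pool.Agent.GMN.SC
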