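import Pool.Agent.GMN.StepDef
import Pool.Agent.GMN.Ren
import Pool.Agent.GMN.Enum
import Pool.Agent.GMN.RuleM
import Pool.Agent.GMN.Start

/-!
# GMN/StepInp (helper25): the data of a step as data of the rule, interface to the record lemma

* `Rk ι M` : references = tuples of RANKS (`u ↦` rank of the trace in the public set of the face `V - v`), with a linear order;
* `Lst.rk` : the code of rank `b` in the order of entry of a list (with coins); clients = ranks in `Lv`;
* `StepIn.refR` ranks of the traces, `refF` products of the functions of the references, `mulR` multipliers, `cliU` targets of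
  the clients, `famF` the families of the other factors, all killed at time `0`;
* `StepIn.inp` : the instance of `RuS.Inp`, for an allowed relation `al` and classes `cs`; `inp_ok`;
* `RecOut` : what the record lemma JR_v gives.
-/

set_option autoImplicit false
set_option linter.unusedSectionVars false

namespace Pool.Agent.GMN

open Finset Pool.Agent.PWZ Pool.Agent.M3 Pool.Agent.M3.TS Pool.Agent.GM

noncomputable section

/-! ### tuples of ranks -/

/-- references: tuples of ranks -/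
def Rk (ι : Type) (M : ℕ) : Type := ι → Fin M

instance {ι : Type} [Fintype ι] [DecidableEq ι] (M : ℕ) : Fintype (Rk ι M) := inferInstanceAs (Fintype (ι → Fin M))

instance {ι : Type} [Fintype ι] [DecidableEq ι] (M : ℕ) : LinearOrder (Rk ι M) :=
  LinearOrder.lift' (Fintype.equivFin (Rk ι M)) (Fintype.equivFin (Rk ι M)).injective

theorem card_Rk (ι : Type) [Fintype ι] [DecidableEq ι] (M : ℕ) :
    Fintype.card (Rk ι M) = M ^ Fintype.card ι := by
  have h : Fintype.card (Rk ι M) = Fintype.card (ι → Fin M) := rfl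
  rw [h, Fintype.card_fun, Fintype.card_fin]

variable {ι Om Ξ Pt V Γ κ : Type} [Fintype ι] [DecidableEq ι] [Fintype Om] [Fintype Ξ] [Fintype Pt]
  [Fintype V] {S : Sys ι Om Ξ Pt V Γ κ}

/-! ### ranks in a list -/

namespace Lst

variable {I : Finset ι}

/-- the code of rank `b` in the order of entry -/
def rk (A : Lst S I) (b t : ℕ) (g : Γ) (ξ : Ξ) (x : ι → Pt) : Option ℕ := nth S (fun t g x => A.L t g ξ x) b t g x

/-- the code of rank `b` at a sample point -/
def rkw (A : Lst S I) (b t : ℕ) (w : Om) : Option ℕ := A.rk b t (S.gm t w) (S.xi w) (S.x w)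

theorem grow (A : Lst S I) (ξ : Ξ) : Grow S (fun t g x => A.L t g ξ x) := fun t g x => A.mono t g ξ x

theorem rk_dep (A : Lst S I) (b t : ℕ) (g : Γ) (ξ : Ξ) : Dep I (A.rk b t g ξ) :=
  nth_dep (fun t g => A.dep t g ξ) b t g

theorem rk_succ (A : Lst S I) {b t : ℕ} {g : Γ} {ξ : Ξ} {x : ι → Pt} {ν : ℕ}
    (h : A.rk b t (S.par t g) ξ x = some ν) : A.rk b (t + 1) g ξ x = some ν := nth_succ h

theorem rk_mem (A : Lst S I) {b t : ℕ} {g : Γ} {ξ : Ξ} {x : ι → Pt} {ν : ℕ} (h : A.rk b t g ξ x = some ν) :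
    ν ∈ A.L t g ξ x := nth_mem (A.grow ξ) h

theorem rk_inj (A : Lst S I) {b b' t : ℕ} {g : Γ} {ξ : Ξ} {x : ι → Pt} {ν : ℕ} (h : A.rk b t g ξ x = some ν)
    (h' : A.rk b' t g ξ x = some ν) : b = b' := nth_inj h h'

theorem rkw_succ (A : Lst S I) {b t : ℕ} {w : Om} {ν : ℕ} (h : A.rkw b t w = some ν) :
    A.rkw b (t + 1) w = some ν := by
  refine A.rk_succ ?_
  rw [S.par_gm]
  exact h

theorem rkw_le (A : Lst S I) {b t s : ℕ} (hts : t ≤ s) {w : Om} {ν : ℕ} (h : A.rkw b t w = some ν) :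
    A.rkw b s w = some ν := by
  induction s, hts using Nat.le_induction with
  | base => exact h
  | succ s _ ih => exact A.rkw_succ ih

theorem rkw_mem (A : Lst S I) {b t : ℕ} {w : Om} {ν : ℕ} (h : A.rkw b t w = some ν) : ν ∈ A.at' t w := A.rk_mem h

/-- every element has a rank -/
theorem exists_rkw (A : Lst S I) {t : ℕ} {w : Om} {ν : ℕ} (h : ν ∈ A.at' t w) :
    ∃ b < (A.at' t w).card, A.rkw b t w = some ν := exists_nth (S := S) (A.grow (S.xi w)) h

end Lst

/-! ### the data of a step as data of the rule -/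

namespace StepIn

variable {β : Type} (D : StepIn S β) (M : ℕ)

/-- the public set of the traces of `u` on the face of the client -/
def refSet (u : ι) : PSt S D.v := if h : D.v ≠ u then (D.Br u).cmp.up h else PSt.const S D.v ∅

/-- ranks of the traces of `u` -/
def refR (u : ι) : Ren S (Fin M) ℕ (univ.erase D.v) := (D.refSet u).ren M

theorem ev_sub (u v : ι) : (univ.erase u).erase v ⊆ (univ.erase v : Finset ι) :=
  erase_subset_erase _ (erase_subset _ _)

/-- products of the functions of the references, numbers = tuples of ranks -/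
def refF : NumF S (ι → Fin M) (univ.erase D.v) :=
  NumF.prod D.Rf fun u => (D.Xr u).ren (D.refR M u) (ev_sub u D.v)

/-- the multiplier of a reference -/
def mulR (r : Rk ι M) : Fn ι Pt V Γ := (D.refF M).f0 r

/-- the target of the client of rank `b` -/
def cliU {n : ℕ} (b : Fin n) : FnX ι Ξ Pt V Γ := fun t g ξ x =>
  if t = 0 then 0 else (D.Lv.rk b t g ξ x).elim 0 fun ν => D.Tg.f ν t g x

/-- the other factors -/
def famF (l : ι) (z : β) : Fn ι Pt V Γ := (D.Fa l).f0 z

/-- the tuple is canonical: zero outside the references -/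
def Can (r : Rk ι M) : Prop := ∀ u, u ∉ D.Rf → (r u).1 = 0

/-- the (canonical) tuple of ranks `r` stands for the traces `s` -/
def RAt (r : Rk ι M) (s : ι → ℕ) (t : ℕ) (w : Om) : Prop :=
  D.Can M r ∧ ∀ u ∈ D.Rf, (D.refR M u).At (r u) t w (s u)

/-- the (canonical) tuple of ranks is TRUE: its traces are in the lists of their owners -/
def RTr (r : Rk ι M) (t : ℕ) (w : Om) : Prop :=
  D.Can M r ∧ ∀ u ∈ D.Rf, ∃ s, (D.refR M u).At (r u) t w s ∧ s ∈ (D.Lr u).at' t w

/-- the free vertices of the system of the step -/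
def S0 : Finset ι := insert D.a (insert D.v D.L)

variable {D M}

theorem mem_S0v : D.v ∈ D.S0 := mem_insert_of_mem (mem_insert_self _ _)

theorem S0_erase : D.S0.erase D.v = insert D.a D.L := by
  unfold S0
  rw [Finset.erase_insert_of_ne D.av, Finset.erase_insert D.vL]

theorem card_S0 : D.S0.card = D.L.card + 2 := by
  unfold S0
  rw [card_insert_of_notMem, card_insert_of_notMem D.vL]
  rw [mem_insert, not_or]
  exact ⟨D.av, D.aL⟩

theorem mulR_nf (r : Rk ι M) : NF S D.v (D.mulR M r) := (D.refF M).nf subset_rfl r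

theorem famF_nf (l : ι) (z : β) : NF S l (D.famF l z) := (D.Fa l).nf subset_rfl z

theorem RTr_mono {r : Rk ι M} {t : ℕ} {w : Om} (h : D.RTr M r t w) : D.RTr M r (t + 1) w := ⟨h.1, fun u hu => by
  obtain ⟨s, h1, h2⟩ := h.2 u hu
  exact ⟨s, h1.le (Nat.le_succ t), (D.Lr u).at_succ t w h2⟩⟩

theorem RAt.tr {r : Rk ι M} {s : ι → ℕ} {t : ℕ} {w : Om} (h : D.RAt M r s t w)
    (hs : ∀ u ∈ D.Rf, s u ∈ (D.Lr u).at' t w) : D.RTr M r t w := ⟨h.1, fun u hu => ⟨s u, h.2 u hu, hs u hu⟩⟩

/-- traces in public sets with at most `M` elements have a tuple of ranks -/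
theorem exists_RAt (hM : 0 < M) {s : ι → ℕ} {t : ℕ} {w : Om} (hc : ∀ u ∈ D.Rf, ((D.refSet u).at' t w).card ≤ M)
    (hs : ∀ u ∈ D.Rf, s u ∈ (D.refSet u).at' t w) : ∃ r, D.RAt M r s t w := by
  have h1 : ∀ u, ∃ i : Fin M, (u ∉ D.Rf → i.1 = 0) ∧ (u ∈ D.Rf → (D.refR M u).At i t w (s u)) := by
    intro u
    by_cases hu : u ∈ D.Rf
    · obtain ⟨i, hi⟩ := (D.refSet u).hit (hc u hu) (hs u hu)
      exact ⟨i, fun h => absurd hu h, fun _ => hi⟩
    · exact ⟨⟨0, hM⟩, fun _ => rfl, fun h => absurd h hu⟩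
  choose r hr using h1
  exact ⟨r, fun u hu => (hr u).1 hu, fun u hu => (hr u).2 hu⟩

/-- the traces of the lists are in the public sets -/
theorem mem_refSet {n B : ℕ} (hB : D.Bd n B) {u : ι} (hu : u ∈ D.Rf) {t : ℕ} (ht : t ≤ S.n) {w : Om} {s : ℕ}
    (hs : s ∈ (D.Lr u).at' t w) : s ∈ (D.refSet u).at' t w := by
  have h1 : D.v ≠ u := fun h => D.vR (by rw [h]; exact hu)
  have e : D.refSet u = (D.Br u).cmp.up h1 := dif_pos h1
  rw [e, BSt.up_at]
  exact (D.Br u).sub_cmp t w (hB.sr u hu t ht w hs)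

/-- the value of a multiplier -/
theorem mulR_val {r : Rk ι M} {s : ι → ℕ} {t : ℕ} (ht : 1 ≤ t) {w : Om} (h : D.RAt M r s t w) (d : V) :
    val0 S (D.mulR M r) t w d = ∏ u ∈ D.Rf, (D.Xr u).at' (s u) t w d := by
  have h1 := (D.refF M).val0_f0 r ht w
  show val0 S ((D.refF M).f0 r) t w d = _
  rw [h1]
  show ∏ u ∈ D.Rf, ((D.Xr u).ren (D.refR M u) (ev_sub u D.v)).f (r u) t (S.gm t w) (S.x w) d = _
  refine Finset.prod_congr rfl fun u hu => ?_
  exact congrFun (NumF.ren_at (X := D.Xr u) (hJI := ev_sub u D.v) (h.2 u hu)) d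

/-- the value of a family -/
theorem famF_val {l : ι} {z : β} {t : ℕ} (ht : 1 ≤ t) (w : Om) (d : V) :
    val0 S (D.famF l z) t w d = (D.Fa l).at' z t w d := congrFun ((D.Fa l).val0_f0 z ht w) d

/-- the target of a client at a sample point -/
theorem cliU_val {n : ℕ} {b : Fin n} {t : ℕ} (ht : 1 ≤ t) {w : Om} {ν : ℕ} (h : D.Lv.rkw b t w = some ν) (d : V) :
    val S (D.cliU b) t w d = D.Tg.at' ν t w d := by
  unfold val cliU
  have h' : D.Lv.rk b t (S.gm t w) (S.xi w) (S.x w) = some ν := h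
  rw [if_neg (by omega), h']
  rfl

theorem cliU_none {n : ℕ} {b : Fin n} {t : ℕ} {g : Γ} {ξ : Ξ} {x : ι → Pt} (h : D.Lv.rk b t g ξ x = none) :
    D.cliU b t g ξ x = 0 := by
  unfold cliU
  rw [h]
  split_ifs <;> rfl

variable (D M) {n : ℕ} {Cl : Type} {I : ℕ}

/-- **the instance of the data of the rule** -/
def inp (n : ℕ) (al : ℕ → Γ → Ξ → (ι → Pt) → Rk ι M → Prop) (cs : Cl → Cls ι Pt V Γ (Ru.Ka (Fin n) (Rk ι M) I)) :
    RuS.Inp ι Ξ Pt V Γ (Rk ι M) (Fin n) Cl I where
  u := D.cliU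
  v := D.mulR M
  al := fun _ => al
  cs := cs

variable {D M}

theorem inp_ok {al : ℕ → Γ → Ξ → (ι → Pt) → Rk ι M → Prop} {cs : Cl → Cls ι Pt V Γ (Ru.Ka (Fin n) (Rk ι M) I)}
    (hal : ∀ t g ξ, Dep (univ.erase D.v) (al t g ξ)) (hcs : ∀ c, (cs c).Ok S D.S0 D.v) :
    (D.inp M n al cs).Ok S D.S0 D.v where
  u1 b t g ξ x d := by
    show |D.cliU b t g ξ x d| ≤ 1
    unfold cliU
    split_ifs
    · simp
    · cases D.Lv.rk b t g ξ x with
      | none => simp
      | some ν => exact D.Tg.le1 _ _ _ _ _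
  udep b t g ξ := fun x y h => by
    show D.cliU b t g ξ x = D.cliU b t g ξ y
    unfold cliU
    split_ifs
    · rfl
    · rw [D.Lv.rk_dep b t g ξ x y h]
      cases D.Lv.rk b t g ξ y with
      | none => rfl
      | some ν => exact D.Tg.f_dep ν t g x y h
  u0 b g ξ x d := by
    show D.cliU b 0 g ξ x d = 0
    unfold cliU
    rw [if_pos rfl]
    rfl
  ust b t w := by
    show val S (D.cliU b) (t + 1) w = val S (D.cliU b) t w ∨ val S (D.cliU b) t w = 0
    rcases Nat.eq_zero_or_pos t with rfl | ht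
    · right
      show D.cliU b 0 _ _ _ = 0
      unfold cliU
      rw [if_pos rfl]
    · cases h : D.Lv.rkw b t w with
      | none => exact Or.inr (cliU_none h)
      | some ν =>
        by_cases hon : D.Tg.on ν t w
        · left
          funext d
          rw [cliU_val ht h, cliU_val (Nat.succ_le_succ (Nat.zero_le t)) (D.Lv.rkw_succ h), D.Tg.at_succ hon]
        · right
          funext d
          rw [cliU_val ht h, D.Tg.at_zero hon]
  v r := mulR_nf r
  aldep _ t g ξ := hal t g ξ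
  cs := hcs

end StepIn

/-! ### what the record lemma gives -/

open Classical in
/-- what a client knows of the coins: everything but the coin of the face `δ`, if the lists of the clients do not see it;
otherwise all coins -/
def StepIn.pcl {β : Type} (D : StepIn S β) (ξ : Ξ) : ℕ × Option Ξ :=
  (D.pz ξ, if D.Lv.Free D.pz then none else some ξ)

/-- what a client knows at the machine time `i` (blocks of `bl` machine times) -/
def StepIn.Kc {β : Type} (D : StepIn S β) (bl i : ℕ) (w : Om) :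
    (ℕ × Option Ξ) × ({j // j ∈ univ.erase D.v} → Pt) × Γ :=
  (D.pcl (S.xi w), res (univ.erase D.v) (S.x w), S.gm (i / bl) w)

/-- **output of the record lemma `JR_v`** for the step `D`, `M` ranks, coins `Ξ2`, `n'` = size of the records, `B'` = size of
the box sets of the records (each with probability `q`), `cf` = coefficient of the failure probability (for all lengths `bl`
of the blocks of machine times) -/
structure RecOut {β : Type} (D : StepIn S β) (M : ℕ) (Ξ2 : Type) [Fintype Ξ2] [Nonempty Ξ2] (n' B' : ℕ)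
    (q cf : ℝ) where
  /-- allowed tuples of ranks -/
  al : ℕ → Γ → (Ξ × Ξ2) → (ι → Pt) → Rk ι M → Prop
  aldep : ∀ t g ξ, Dep (univ.erase D.v) (al t g ξ)
  almono : ∀ t g ξ x r, al t (S.par t g) ξ x r → al (t + 1) g ξ x r
  alz : ∀ t g ξ ξ' x, pzAdd D.pz Ξ2 ξ = pzAdd D.pz Ξ2 ξ' → al t g ξ x = al t g ξ' x
  /-- records seen by the owner -/
  N : ∀ u : ι, Lst (addCoins S Ξ2) (univ.erase u)
  Nz : ∀ u ∈ D.Rf, (N u).Free (pzAdd D.pz Ξ2)
  /-- box sets of the records -/
  PN : ∀ u : ι, BSt S u D.v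
  /-- the traces of an allowed tuple are recorded -/
  mem : ∀ t ≤ S.n, ∀ w : Om × Ξ2, ∀ r, al t (S.gm t w.1) (S.xi w.1, w.2) (S.x w.1) r → ∀ u ∈ D.Rf,
    ∃ s, (D.refR M u).At (r u) t w.1 s ∧ s ∈ (N u).at' t w
  pub : ∀ t ≤ S.n, ∀ w : Om × Ξ2, ∀ u ∈ D.Rf, (N u).at' t w ⊆ (PN u).at' t w.1
  cardN : (coinFP S.P Ξ2).Pr (fun w => ∃ u ∈ D.Rf, n' < ((N u).at' S.n w).card) ≤ q
  cardPN : S.P.Pr (fun w => ∃ u ∈ D.Rf, B' < ((PN u).at' S.n w).card) ≤ q
  /-- **the hidden vertex seldom fails**, for every machine which does not see the new coins -/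
  fail : ∀ bl : ℕ, 1 ≤ bl →
    ∀ (St : Type) (Mw : Om → Mach (Rk ι M) St) (N : ℕ) (Mu Nv : ℝ), 0 ≤ Mu → 0 ≤ Nv → MFac (D.Kc bl) Mw →
    (∀ A : ℕ → Rk ι M → Prop, ∀ w, ∀ i, (Mw w).pk A N i N = none) →
    (∀ A : ℕ → Om → Rk ι M → Prop, (∀ i, Fac (D.Kc bl i) (A i)) → (∀ i w r, A i w r → A (i + 1) w r) →
      S.P.E (fun w => ∑ i ∈ range (S.n * bl + bl), ∑ l ∈ range N, ind ((Mw w).pk (fun j => A j w) N i l ≠ none)) ≤ Mu) →
    (∀ A : ℕ → Om → Rk ι M → Prop, (∀ i, Fac (D.Kc bl i) (A i)) → (∀ i w r, A i w r → A (i + 1) w r) →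
      ∀ r, ∀ i < S.n * bl + bl, ∀ F : Om → Prop, (∀ v w, D.Kc bl i v = D.Kc bl i w → (F v ↔ F w)) →
      ∑ t ∈ Ico i (S.n * bl + bl), S.P.Pr (fun w => F w ∧ (Mw w).endM (fun j => A j w) N r t) ≤ Nv * S.P.Pr F) →
    (coinFP S.P Ξ2).Pr (fun w => ∃ r, ∃ i < S.n * bl + bl, ∃ l ≤ N,
      (Mw w.1).Crit (fun j => al (j / bl) (S.gm (j / bl) w.1) (S.xi w.1, w.2) (S.x w.1)) N r i l ∧
        D.RTr M r (i / bl) w.1) ≤ cf * ((Nv + 1) * (Mu + 1))

end

end Pool.Agent.GMN
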