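import Pool.Agent.GMN.StepInp
import Pool.Agent.GMN.RuleZ
import Pool.Agent.GMN.Est
import Pool.Agent.GMN.IndG

/-!
# GMN/StepMach (helper96): the machines of the clients of a step

`S' = addCoins S Ξ2` : the rule works on the system with the new coins.

* `smach b : Om → Mach` : the machine of the client of rank `b`; it does not see the new coins (`mc_eq`);
* `indK` : helper78's `IndM` on `S`, with the knowledge `D.Kc` of the record lemma (no coin of the face `δ` if the clients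
  do not see it);
* `smach_mfac`, `smach_term`, `smach_uses`, `smach_ends` : the hypotheses of `RecOut.fail`;
* `crit_pr` : outside an event of small probability no client has a critical moment of a true tuple of ranks.
-/

set_option autoImplicit false
set_option linter.unusedSectionVars false

namespace Pool.Agent.GMN

open Finset Pool.Agent.PWZ Pool.Agent.M3 Pool.Agent.M3.TS Pool.Agent.GM

noncomputable section

variable {ι Om Ξ Pt V Γ κ : Type} [Fintype ι] [DecidableEq ι] [Fintype Om] [Fintype Ξ] [Fintype Pt]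
  [Fintype V] {S : Sys ι Om Ξ Pt V Γ κ}

namespace StepIn

variable {β : Type} (D : StepIn S β) {M n : ℕ} {Ξ2 : Type} [Fintype Ξ2] [Nonempty Ξ2] {Cl : Type} [Fintype Cl] {I : ℕ}
  (al : ℕ → Γ → Ξ × Ξ2 → (ι → Pt) → Rk ι M → Prop) (cs : Cl → Cls ι Pt V Γ (Ru.Ka (Fin n) (Rk ι M) I)) (p : RuS.Prm)

/-- the instance of the rule on the system with the new coins -/
abbrev inpA : RuS.Inp ι (Ξ × Ξ2) Pt V Γ (Rk ι M) (Fin n) Cl I := (D.add Ξ2).inp M n al cs

/-- data of the client of rank `b` at a machine time -/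
def Xm (b : Fin n) (i : ℕ) (w : Om) : Ru.Nd (Rk ι M) V :=
  (RuS.dt (addCoins S Ξ2) (D.inpA al cs) D.S0 D.v p (w, Classical.arbitrary Ξ2)).nod (i / (2 * p.m + 2))
    ((S.xi w, Classical.arbitrary Ξ2), S.x w) b

/-- new tests of the client of rank `b` -/
def nwm (b : Fin n) (i : ℕ) (w : Om) : List (Ru.Tst (Rk ι M) V) :=
  RuS.nws (addCoins S Ξ2) (D.inpA al cs) D.S0 D.v p (w, Classical.arbitrary Ξ2)
    ((S.xi w, Classical.arbitrary Ξ2), S.x w) b i

/-- **the machine of the client of rank `b`** -/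
def smach (b : Fin n) (w : Om) : Mach (Rk ι M) (Ru.St (Rk ι M) V) :=
  Ru.IndM.Mw p.Y (D.Xm al cs p b) (D.nwm al cs p b) w

variable {D al cs p} {Kn Yn : ℕ}

/-- the target does not see the new coins -/
theorem cliU_add (b : Fin n) (t : ℕ) (g : Γ) (ξ : Ξ) (η η' : Ξ2) (x : ι → Pt) :
    (D.add Ξ2).cliU b t g (ξ, η) x = (D.add Ξ2).cliU b t g (ξ, η') x := rfl

/-- the target sees what the record lemma allows to see -/
theorem cliU_pcl (b : Fin n) (t : ℕ) (g : Γ) {ξ ξ' : Ξ} (h : D.pcl ξ = D.pcl ξ') (η η' : Ξ2) (x : ι → Pt) :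
    (D.add Ξ2).cliU b t g (ξ, η) x = (D.add Ξ2).cliU b t g (ξ', η') x := by
  unfold pcl at h
  obtain ⟨h1, h2⟩ := Prod.ext_iff.1 h
  by_cases hF : D.Lv.Free D.pz
  · have h3 : (fun (t : ℕ) (g : Γ) (x : ι → Pt) => D.Lv.L t g ξ x) = fun t g x => D.Lv.L t g ξ' x := by
      funext t g x
      exact hF t g ξ ξ' x h1
    show (if t = 0 then (0 : V → ℝ) else
        (nth (addCoins S Ξ2) (fun (t : ℕ) (g : Γ) (x : ι → Pt) => D.Lv.L t g ξ x) b t g x).elim 0
          fun ν => D.Tg.f ν t g x) =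
      if t = 0 then (0 : V → ℝ) else
        (nth (addCoins S Ξ2) (fun (t : ℕ) (g : Γ) (x : ι → Pt) => D.Lv.L t g ξ' x) b t g x).elim 0
          fun ν => D.Tg.f ν t g x
    rw [h3]
  · simp only [if_neg hF] at h2
    obtain rfl := Option.some.inj h2
    exact cliU_add b t g ξ η η' x

theorem Kc_eq {bl i : ℕ} {v w : Om} (h : D.Kc bl i v = D.Kc bl i w) : D.pcl (S.xi v) = D.pcl (S.xi w) ∧
    (∀ j ∈ univ.erase D.v, S.x v j = S.x w j) ∧ S.gm (i / bl) v = S.gm (i / bl) w := by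
  obtain ⟨h1, h2⟩ := Prod.ext_iff.1 h
  obtain ⟨h3, h4⟩ := Prod.ext_iff.1 h2
  exact ⟨h1, res_eq.1 h3, h4⟩

theorem Kc_filt (bl : ℕ) : Filt (D.Kc bl) := by
  intro i v w h
  obtain ⟨h1, h2, h3⟩ := Kc_eq h
  refine Prod.ext h1 (Prod.ext (res_eq.2 h2) ?_)
  exact S.gm_le (Nat.div_le_div_right (Nat.le_succ i)) h3

/-- what the client of the record lemma knows is a part of all coins, exact vertices but the hidden one and the node -/
theorem Kc_fac {bl i : ℕ} {γ : Type*} {f : Om → γ} (hf : Fac (D.Kc bl i) f) :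
    Fac (fun w => (S.xi w, res (univ.erase D.v) (S.x w), S.gm (i / bl) w)) f := by
  intro v w h
  refine hf v w ?_
  obtain ⟨h1, h2⟩ := Prod.ext_iff.1 h
  have h3 : S.xi v = S.xi w := h1
  show (D.pcl (S.xi v), _) = (D.pcl (S.xi w), _)
  rw [h3]
  exact Prod.ext rfl h2

/-- **the machine does not see the new coins** -/
theorem mc_eq (H : (D.inpA al cs).Ok (addCoins S Ξ2) D.S0 D.v) (hp : p.Ok Kn Yn) (w : Om × Ξ2) (b : Fin n) :
    RuS.Mc (addCoins S Ξ2) (D.inpA al cs) D.S0 D.v p w b ((addCoins S Ξ2).xi w, (addCoins S Ξ2).x w) =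
      D.smach al cs p b w.1 := by
  have h := RuS.M_zu H hp (w.1, Classical.arbitrary Ξ2) (ξ := (S.xi w.1, w.2)) (ξ' := (S.xi w.1, Classical.arbitrary Ξ2))
    (x := S.x w.1) (x' := S.x w.1) (fun _ _ => rfl) b fun t g => cliU_add b t g _ _ _ _
  exact h

theorem Xm_fac (H : (D.inpA al cs).Ok (addCoins S Ξ2) D.S0 D.v) (b : Fin n) (i : ℕ) :
    Fac (D.Kc (p.a Cl).bl i) (D.Xm al cs p b i) := by
  intro v w h
  obtain ⟨h1, h2, h3⟩ := Kc_eq h
  have hA := RuS.dt_agr (G := addCoins S Ξ2) (A := D.inpA al cs) (S0 := D.S0) (δ := D.v) (p := p)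
    (ω := (v, Classical.arbitrary Ξ2)) (ω' := (w, Classical.arbitrary Ξ2)) (t := i / (p.a Cl).bl) h3
  show (RuS.dt (addCoins S Ξ2) (D.inpA al cs) D.S0 D.v p (v, Classical.arbitrary Ξ2)).nod (i / (p.a Cl).bl) _ b =
    (RuS.dt (addCoins S Ξ2) (D.inpA al cs) D.S0 D.v p (w, Classical.arbitrary Ξ2)).nod (i / (p.a Cl).bl) _ b
  rw [hA.nod _ le_rfl]
  exact RuS.nod_zu (p := p) H _ h2 b (fun t g => cliU_pcl b t g h1 _ _ _) _

theorem nwm_fac (H : (D.inpA al cs).Ok (addCoins S Ξ2) D.S0 D.v) (hp : p.Ok Kn Yn) (b : Fin n) (i : ℕ) :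
    Fac (D.Kc (p.a Cl).bl i) (D.nwm al cs p b i) := by
  intro v w h
  obtain ⟨h1, h2, h3⟩ := Kc_eq h
  have hA := RuS.dt_agr (G := addCoins S Ξ2) (A := D.inpA al cs) (S0 := D.S0) (δ := D.v) (p := p)
    (ω := (v, Classical.arbitrary Ξ2)) (ω' := (w, Classical.arbitrary Ξ2)) (t := i / (p.a Cl).bl) h3
  have e1 : RuS.nws (addCoins S Ξ2) (D.inpA al cs) D.S0 D.v p (v, Classical.arbitrary Ξ2)
      ((S.xi v, Classical.arbitrary Ξ2), S.x v) b i =
      RuS.nws (addCoins S Ξ2) (D.inpA al cs) D.S0 D.v p (w, Classical.arbitrary Ξ2)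
        ((S.xi v, Classical.arbitrary Ξ2), S.x v) b i :=
    Ru.Dat.nw_agr hA (Ru.Dat.tau_agr hA le_rfl) _ _
  show RuS.nws (addCoins S Ξ2) (D.inpA al cs) D.S0 D.v p (v, Classical.arbitrary Ξ2)
      ((S.xi v, Classical.arbitrary Ξ2), S.x v) b i = _
  rw [e1]
  exact congrFun (RuS.nws_cf H hp _ _ _ h2 b) i

/-- **helper78's hypotheses for every client, knowledge of the record lemma** -/
theorem indK (H : (D.inpA al cs).Ok (addCoins S Ξ2) D.S0 D.v) (hp : p.Ok Kn Yn) (b : Fin n) :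
    Ru.IndM S.P (D.Kc (p.a Cl).bl) p.Y p.ea (D.Xm al cs p b) (D.nwm al cs p b) p.N where
  filt := Kc_filt _
  bd w := Ru.Dat.indB (RuS.datOk H hp (w, Classical.arbitrary Ξ2)) ((S.xi w, Classical.arbitrary Ξ2), S.x w) b
  hN := hp.N1
  xfac i := Xm_fac H b i
  nfac i := nwm_fac H hp b i
  mart i F φ hF hφ := by
    show S.P.E (fun w => φ w * mn S ((i + 1) / (2 * p.m + 2)) (S.gm ((i + 1) / (2 * p.m + 2)) w) (F w)) =
      S.P.E (fun w => φ w * mn S (i / (2 * p.m + 2)) (S.gm (i / (2 * p.m + 2)) w) (F w))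
    have h1 : (i + 1) / (2 * p.m + 2) = i / (2 * p.m + 2) ∨ (i + 1) / (2 * p.m + 2) = i / (2 * p.m + 2) + 1 := by
      rw [Nat.succ_div]
      split_ifs
      · exact Or.inr rfl
      · exact Or.inl rfl
    rcases h1 with h1 | h1
    · rw [h1]
    · rw [h1]
      exact RuS.mart_mn (RuS.erase_ne (δ := D.v)) (i / (2 * p.m + 2)) (Kc_fac hφ) (Kc_fac hF)
  u i w := by
    show (D.add Ξ2).cliU b ((i + 1) / (2 * p.m + 2)) (S.gm ((i + 1) / (2 * p.m + 2)) w)
        (S.xi w, Classical.arbitrary Ξ2) (S.x w) =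
      (D.add Ξ2).cliU b (i / (2 * p.m + 2)) (S.gm (i / (2 * p.m + 2)) w) (S.xi w, Classical.arbitrary Ξ2) (S.x w) ∨
      (D.add Ξ2).cliU b (i / (2 * p.m + 2)) (S.gm (i / (2 * p.m + 2)) w) (S.xi w, Classical.arbitrary Ξ2) (S.x w) =
        fun _ => 0
    rw [Nat.succ_div]
    split_ifs
    · exact H.ust b _ (w, Classical.arbitrary Ξ2)
    · exact Or.inl rfl
  v i w s := by
    show (D.add Ξ2).mulR M s ((i + 1) / (2 * p.m + 2)) (S.gm ((i + 1) / (2 * p.m + 2)) w) (S.x w) =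
      (D.add Ξ2).mulR M s (i / (2 * p.m + 2)) (S.gm (i / (2 * p.m + 2)) w) (S.x w) ∨
      (D.add Ξ2).mulR M s (i / (2 * p.m + 2)) (S.gm (i / (2 * p.m + 2)) w) (S.x w) = fun _ => 0
    rw [Nat.succ_div]
    split_ifs
    · exact (H.v s).intro _ (w, Classical.arbitrary Ξ2)
    · exact Or.inl rfl

theorem smach_mfac (H : (D.inpA al cs).Ok (addCoins S Ξ2) D.S0 D.v) (hp : p.Ok Kn Yn) (b : Fin n) :
    MFac (D.Kc (p.a Cl).bl) (D.smach al cs p b) := (indK H hp b).mfac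

theorem smach_term (H : (D.inpA al cs).Ok (addCoins S Ξ2) D.S0 D.v) (hp : p.Ok Kn Yn) (b : Fin n)
    (A : ℕ → Rk ι M → Prop) (w : Om) (i : ℕ) : (D.smach al cs p b w).pk A p.N i p.N = none :=
  Ru.pk_none ((indK H hp b).bd w) i hp.N1

/-- **mean number of uses**, any adapted allowed sets -/
theorem smach_uses (H : (D.inpA al cs).Ok (addCoins S Ξ2) D.S0 D.v) (hp : p.Ok Kn Yn) (b : Fin n)
    {A : ℕ → Om → Rk ι M → Prop} (hA : ∀ i, Fac (D.Kc (p.a Cl).bl i) (A i)) (T : ℕ) :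
    S.P.E (fun w => ∑ i ∈ range T, ∑ l ∈ range p.N,
      ind ((D.smach al cs p b w).pk (fun j => A j w) p.N i l ≠ none)) ≤ 20 / p.ea ^ 2 := by
  have h1 := (indK H hp b).uses_le hA 0 (φ := fun _ => 1) (Fac.const _ (1 : ℝ)) (fun _ => zero_le_one) T
  rw [S.P.E_const, mul_one] at h1
  refine le_trans ?_ h1
  rw [← S.P.E_sum]
  refine S.P.E_mono fun w _ => ?_
  have h2 : ∀ j ∈ Icc 0 T, (fun _ : Om => (1 : ℝ)) w *
      Ru.IndM.cw p.Y (D.Xm al cs p b) (D.nwm al cs p b) A p.N j w =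
      ∑ l ∈ range p.N, ind ((D.smach al cs p b w).pk (fun j => A j w) p.N j l ≠ none) := by
    intro j _
    rw [one_mul]
    rfl
  rw [Finset.sum_congr rfl h2]
  refine Finset.sum_le_sum_of_subset_of_nonneg (fun i hi => ?_) fun i _ _ =>
    Finset.sum_nonneg fun l _ => ind_nonneg _
  rw [Finset.mem_range] at hi
  rw [Finset.mem_Icc]
  exact ⟨Nat.zero_le _, hi.le⟩

/-- **ends of the stretches**, any adapted increasing allowed sets -/
theorem smach_ends (H : (D.inpA al cs).Ok (addCoins S Ξ2) D.S0 D.v) (hp : p.Ok Kn Yn) (b : Fin n)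
    {A : ℕ → Om → Rk ι M → Prop} (hA : ∀ i, Fac (D.Kc (p.a Cl).bl i) (A i)) (hm : ∀ i w r, A i w r → A (i + 1) w r)
    (r : Rk ι M) {i T : ℕ} (hi : i < T) {F : Om → Prop}
    (hF : ∀ v w, D.Kc (p.a Cl).bl i v = D.Kc (p.a Cl).bl i w → (F v ↔ F w)) :
    ∑ t ∈ Ico i T, S.P.Pr (fun w => F w ∧ (D.smach al cs p b w).endM (fun j => A j w) p.N r t) ≤
      Ru.IndM.NvB p.ea * S.P.Pr F := (indK H hp b).ends_ico hA r (fun i w h => hm i w r h) T hi hF

variable (D cs p)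

/-- the client of rank `b` has a critical moment of a true tuple of ranks -/
def CritEv (al : ℕ → Γ → Ξ × Ξ2 → (ι → Pt) → Rk ι M → Prop) (b : Fin n) (w : Om × Ξ2) : Prop :=
  ∃ r, ∃ i < S.n * (p.a Cl).bl + (p.a Cl).bl, ∃ l ≤ p.N,
    (RuS.Mc (addCoins S Ξ2) (D.inpA al cs) D.S0 D.v p w b ((addCoins S Ξ2).xi w, (addCoins S Ξ2).x w)).Crit
      (RuS.Ac (addCoins S Ξ2) (D.inpA al cs) D.S0 D.v p w b ((addCoins S Ξ2).xi w, (addCoins S Ξ2).x w)) p.N r i l ∧
      D.RTr M r (i / (p.a Cl).bl) w.1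

variable {D cs p}

/-- **no client has a critical moment of a true tuple, up to a small probability** -/
theorem crit_pr {n' B' : ℕ} {q cf : ℝ} (O : RecOut D M Ξ2 n' B' q cf)
    {cs : Cl → Cls ι Pt V Γ (Ru.Ka (Fin n) (Rk ι M) I)}
    (H : (D.inpA O.al cs).Ok (addCoins S Ξ2) D.S0 D.v) (hp : p.Ok Kn Yn) (b : Fin n) :
    (coinFP S.P Ξ2).Pr (D.CritEv cs p O.al b) ≤ cf * ((Ru.IndM.NvB p.ea + 1) * (20 / p.ea ^ 2 + 1)) := by
  have hNv : 0 ≤ Ru.IndM.NvB p.ea := (indK H hp b).NvB_nonneg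
  have h1 := O.fail (p.a Cl).bl (Nat.succ_pos _) _ (D.smach O.al cs p b) p.N (20 / p.ea ^ 2) (Ru.IndM.NvB p.ea)
    (by positivity) hNv (smach_mfac H hp b) (fun A w i => smach_term H hp b A w i)
    (fun A hA _ => smach_uses H hp b hA _) (fun A hA hm r i hi F hF => smach_ends H hp b hA hm r hi hF)
  refine le_trans (le_of_eq ?_) h1
  refine FP.Pr_congr _ fun w _ => ?_
  refine exists_congr fun r => exists_congr fun i => and_congr_right fun _ => exists_congr fun l =>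
    and_congr_right fun _ => ?_
  rw [mc_eq H hp w b]
  rfl

/-- all clients -/
theorem crit_pr_all {n' B' : ℕ} {q cf : ℝ} (O : RecOut D M Ξ2 n' B' q cf)
    {cs : Cl → Cls ι Pt V Γ (Ru.Ka (Fin n) (Rk ι M) I)}
    (H : (D.inpA O.al cs).Ok (addCoins S Ξ2) D.S0 D.v) (hp : p.Ok Kn Yn) :
    (coinFP S.P Ξ2).Pr (fun w => ∃ b : Fin n, D.CritEv cs p O.al b w) ≤
      n * (cf * ((Ru.IndM.NvB p.ea + 1) * (20 / p.ea ^ 2 + 1))) := by
  have h0 := (coinFP S.P Ξ2).Pr_ex_le (univ : Finset (Fin n)) (fun b w => D.CritEv cs p O.al b w)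
  refine le_trans ((coinFP S.P Ξ2).Pr_mono fun w _ h => ?_) (h0.trans ?_)
  · obtain ⟨b, hb⟩ := h
    exact ⟨b, mem_univ b, hb⟩
  refine (Finset.sum_le_sum fun b _ => crit_pr O H hp b).trans ?_
  rw [Finset.sum_const, nsmul_eq_mul, Finset.card_univ, Fintype.card_fin]

/-- outside the event no moment of the block of `t` is critical for a true tuple -/
theorem noCrit_of {w : Om × Ξ2} {b : Fin n} {cs : Cl → Cls ι Pt V Γ (Ru.Ka (Fin n) (Rk ι M) I)}
    (h : ¬ D.CritEv cs p al b w) {t : ℕ} (ht : t ≤ S.n) {r : Rk ι M} (hr : D.RTr M r t w.1) :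
    RuS.NoCrit (addCoins S Ξ2) (D.inpA al cs) D.S0 D.v p w b ((addCoins S Ξ2).xi w, (addCoins S Ξ2).x w) r
      (t * (2 * p.m + 2)) t := by
  intro i h1 h2 l hl hc
  have hbl : (p.a Cl).bl = 2 * p.m + 2 := rfl
  rw [RuS.la_eq] at h2
  have h3 : i / (p.a Cl).bl = t := by
    rw [hbl]
    refine le_antisymm ?_ ?_
    · have : i < (t + 1) * (2 * p.m + 2) := by
        rw [Nat.succ_mul]
        omega
      exact Nat.lt_succ_iff.1 (Nat.div_lt_of_lt_mul (by rw [mul_comm]; exact this))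
    · exact (Nat.le_div_iff_mul_le (by omega)).2 h1
  refine h ⟨r, i, ?_, l, hl, hc, by rw [h3]; exact hr⟩
  rw [hbl]
  have : t * (2 * p.m + 2) ≤ S.n * (2 * p.m + 2) := Nat.mul_le_mul_right _ ht
  omega

end StepIn

end

end Pool.Agent.GMN
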