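import Pool.Agent.GMN.RuleA
import Pool.Agent.GMN.StepInp

/-!
# GMN/StepTj (helper96): Lemma T_j for the runs of a step (A1 of helper25's plan)

`step_tj` : for a step `D` on a system `S` (the system with all coins) and allowed tuples `al`, from `TJ S D.S0 D.v C` :
classes `cs` (at most `exp (H ^ C)`), admissible, such that for all parameters `p` of the rule the conclusion of T_j holds for
the normalised errors of all runs of the instance `D.inp M n al cs`.
-/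

set_option autoImplicit false
set_option linter.unusedSectionVars false

namespace Pool.Agent.GMN

open Finset Pool.Agent.PWZ Pool.Agent.M3 Pool.Agent.M3.TS Pool.Agent.GM

noncomputable section

variable {ι Om Ξ Pt V Γ κ : Type} [Fintype ι] [DecidableEq ι] [Fintype Om] [Fintype Ξ] [Fintype Pt]
  [Fintype V] {S : Sys ι Om Ξ Pt V Γ κ}

namespace StepIn

variable {β : Type} (D : StepIn S β)

/-- the data of the rule without the classes -/
def base (M n : ℕ) (al : ℕ → Γ → Ξ → (ι → Pt) → Rk ι M → Prop) : RuS.Base ι Ξ Pt V Γ (Rk ι M) (Fin n) where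
  u := D.cliU
  v := D.mulR M
  al := fun _ => al

variable {D}

theorem base_ok {M n : ℕ} {al : ℕ → Γ → Ξ → (ι → Pt) → Rk ι M → Prop} (hal : ∀ t g ξ, Dep (univ.erase D.v) (al t g ξ)) :
    (D.base M n al).Ok S D.v := by
  have h := inp_ok (D := D) (M := M) (n := n) (I := 0) (Cl := Empty) (cs := fun c => c.elim) hal fun c => c.elim
  exact ⟨h.u1, h.udep, h.u0, h.ust, h.v, h.aldep⟩

theorem base_inp {M n I : ℕ} {Cl : Type} {al : ℕ → Γ → Ξ → (ι → Pt) → Rk ι M → Prop}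
    {cs : Cl → Cls ι Pt V Γ (Ru.Ka (Fin n) (Rk ι M) I)} : (D.base M n al).inp cs = D.inp M n al cs := rfl

variable (D)

/-- **A1: LEMMA T_j FOR THE RUNS OF THE STEP** -/
theorem step_tj [Nonempty Pt] [Fintype β] {M n I C : ℕ} (hTJ : TJ S D.S0 D.v C) {b H : ℝ} (hb : 0 < b)
    (hb2 : b ≤ 1 / 2) (hbH : 1 / b ≤ H) (hK : S.K ≤ Real.exp H) (hnear : S.near ≤ b ^ C)
    {al : ℕ → Γ → Ξ → (ι → Pt) → Rk ι M → Prop} (hal : ∀ t g ξ, Dep (univ.erase D.v) (al t g ξ))
    (hcK : (Fintype.card (Ru.Ka (Fin n) (Rk ι M) I) : ℝ) ≤ Real.exp H) (hcZ : (Fintype.card β : ℝ) ≤ Real.exp H) :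
    ∃ (Cl : Type) (_ : Fintype Cl) (cs : Cl → Cls ι Pt V Γ (Ru.Ka (Fin n) (Rk ι M) I)),
      (Fintype.card Cl : ℝ) ≤ Real.exp (H ^ C) ∧ (∀ c, (cs c).Ok S D.S0 D.v) ∧ (D.inp M n al cs).Ok S D.S0 D.v ∧
      ∀ p : RuS.Prm, p.Ok (Fintype.card (Ru.Ka (Fin n) (Rk ι M) I)) (Fintype.card (Ξ × (ι → Pt))) →
        p.θ ≤ Real.exp (-H ^ C) → p.ea / p.Y ≤ b ^ C → 4 + 20 / p.ea ^ 2 ≤ H →
        S.P.Pr (fun ω => ∃ t ≤ S.n, ∃ (k : Ru.Ka (Fin n) (Rk ι M) I) (z : ι → β),
          b ≤ |mn S t (S.gm t ω) (fun d => (∏ w ∈ D.S0.erase D.v, val0 S (D.famF w (z w)) t ω d) *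
            (val S (RuS.Er S (D.inp M n al cs) D.S0 D.v p k) t ω d * val0 S (D.mulR M k.2.1) t ω d))|) ≤
          Real.exp (-H) :=
  RuS.runs_tj (I := I) hTJ hb hb2 hbH hK hnear (base_ok (n := n) hal) D.famF (fun w _ z => famF_nf w z) hcK hcZ

/-- number of runs -/
theorem card_runs (n M I : ℕ) : Fintype.card (Ru.Ka (Fin n) (Rk ι M) I) = n * (M ^ Fintype.card ι * (I + 1)) := by
  show Fintype.card (Fin n × Rk ι M × Fin (I + 1)) = _
  rw [Fintype.card_prod, Fintype.card_prod, card_Rk, Fintype.card_fin, Fintype.card_fin]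

end StepIn

end

end Pool.Agent.GMN
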