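import Pool.Agent.GMN.Hub

/-!
# GMN/TjDet (helper14): deterministic part of the induction step of Lemma T_j

Telescoping of a product of functions `a w` (families) into `b w = clip Y (r w)` in the order of `pos`.
-/

set_option autoImplicit false
set_option linter.unusedSectionVars false

namespace Pool.Agent.GMN

open Finset Pool.Agent.PWZ Pool.Agent.M3

variable {ι V : Type} [DecidableEq ι]

/-- telescoping in the order of `pos` -/
theorem tele (pos : ι → ℕ) (hpos : Function.Injective pos) (U : Finset ι) (a b : ι → ℝ) :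
    ∏ w ∈ U, a w = ∏ w ∈ U, b w + ∑ w ∈ U, (∏ w' ∈ U.filter (fun w' => pos w' < pos w), b w') * (a w - b w) *
      ∏ w' ∈ U.filter (fun w' => pos w < pos w'), a w' := by
  induction U using Finset.induction_on_max_value pos with
  | empty => simp
  | insert x U hx hmax ih =>
    have hlt : ∀ y ∈ U, pos y < pos x := fun y hy => lt_of_le_of_ne (hmax y hy) fun h => hx (hpos h ▸ hy)
    rw [Finset.prod_insert hx, Finset.prod_insert hx, Finset.sum_insert hx]
    have h1 : (insert x U).filter (fun w' => pos w' < pos x) = U := by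
      ext y
      rw [mem_filter, mem_insert]
      constructor
      · rintro ⟨rfl | h, h'⟩
        · exact absurd h' (lt_irrefl _)
        · exact h
      · exact fun h => ⟨Or.inr h, hlt y h⟩
    have h2 : (insert x U).filter (fun w' => pos x < pos w') = ∅ := by
      rw [Finset.filter_eq_empty_iff]
      intro y hy
      rcases mem_insert.1 hy with rfl | h
      · exact lt_irrefl _
      · exact not_lt.2 (hmax y h)
    have h3 : ∀ w ∈ U, (∏ w' ∈ (insert x U).filter (fun w' => pos w' < pos w), b w') * (a w - b w) *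
        ∏ w' ∈ (insert x U).filter (fun w' => pos w < pos w'), a w' =
        a x * ((∏ w' ∈ U.filter (fun w' => pos w' < pos w), b w') * (a w - b w) *
        ∏ w' ∈ U.filter (fun w' => pos w < pos w'), a w') := by
      intro w hw
      rw [Finset.filter_insert, if_neg (not_lt.2 (hlt w hw).le), Finset.filter_insert, if_pos (hlt w hw),
        Finset.prod_insert (fun h => hx (mem_filter.1 h).1)]
      ring
    rw [h1, h2, Finset.sum_congr rfl h3, ← Finset.mul_sum, Finset.prod_empty, ih]
    ring

/-- **deterministic estimate** -/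
theorem det_est {m : (V → ℝ) → ℝ} (hm : IsMean m) (pos : ι → ℕ) (hpos : Function.Injective pos) (U : Finset ι)
    (a r : ι → V → ℝ) (Y : ι → ℝ) (ε : V → ℝ) (hY : ∀ w, 1 ≤ Y w) (ha : ∀ w ∈ U, ∀ d, |a w d| ≤ 1) (hε : ∀ d, |ε d| ≤ 1)
    (s : ι → ℝ) (s0 : ℝ) (h1 : ∀ w ∈ U, m (fun d => |r w d - clip (Y w) (r w d)|) ≤ 4 / Y w)
    (h2 : ∀ w ∈ U, |m (fun d => (∏ w' ∈ U.filter (fun w' => pos w' < pos w), clip (Y w') (r w' d)) *
      (a w d - r w d) * (∏ w' ∈ U.filter (fun w' => pos w < pos w'), a w' d) * ε d)| ≤ s w)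
    (h3 : |m (fun d => (∏ w ∈ U, clip (Y w) (r w d)) * ε d)| ≤ s0) :
    |m (fun d => (∏ w ∈ U, a w d) * ε d)| ≤
      ∑ w ∈ U, ((∏ w' ∈ U.filter (fun w' => pos w' < pos w), Y w') * (4 / Y w) + s w) + s0 := by
  classical
  set b : ι → V → ℝ := fun w d => clip (Y w) (r w d) with hb
  have hbY : ∀ w d, |b w d| ≤ Y w := fun w d => abs_clip_le (by linarith [hY w]) _
  have hsum : ∀ (T : Finset ι) (f : ι → V → ℝ), m (fun d => ∑ w ∈ T, f w d) = ∑ w ∈ T, m (f w) := by
    intro T f
    induction T using Finset.induction_on with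
    | empty => simpa using hm.zero
    | insert x T hx ih =>
      rw [Finset.sum_insert hx, ← ih, ← hm.add]
      congr 1
      funext d
      rw [Finset.sum_insert hx]
  -- the telescoping identity
  have e1 : (fun d => (∏ w ∈ U, a w d) * ε d) = fun d => (∏ w ∈ U, b w d) * ε d +
      ∑ w ∈ U, ((∏ w' ∈ U.filter (fun w' => pos w' < pos w), b w' d) * (r w d - b w d) *
        (∏ w' ∈ U.filter (fun w' => pos w < pos w'), a w' d) * ε d +
        (∏ w' ∈ U.filter (fun w' => pos w' < pos w), b w' d) * (a w d - r w d) *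
        (∏ w' ∈ U.filter (fun w' => pos w < pos w'), a w' d) * ε d) := by
    funext d
    rw [tele pos hpos U (fun w => a w d) (fun w => b w d), add_mul, Finset.sum_mul]
    congr 1
    refine Finset.sum_congr rfl fun w _ => ?_
    ring
  rw [e1, hm.add, hsum]
  refine (abs_add_le _ _).trans ?_
  rw [add_comm]
  refine add_le_add ((Finset.abs_sum_le_sum_abs _ _).trans (Finset.sum_le_sum fun w hw => ?_)) h3
  rw [hm.add]
  refine (abs_add_le _ _).trans (add_le_add ?_ (h2 w hw))
  -- the clip error
  set Q : ℝ := ∏ w' ∈ U.filter (fun w' => pos w' < pos w), Y w' with hQ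
  have hQ0 : 0 ≤ Q := Finset.prod_nonneg fun w' _ => by linarith [hY w']
  have h4 : ∀ d, |(∏ w' ∈ U.filter (fun w' => pos w' < pos w), b w' d) * (r w d - b w d) *
        (∏ w' ∈ U.filter (fun w' => pos w < pos w'), a w' d) * ε d| ≤ Q * |r w d - b w d| := by
    intro d
    rw [abs_mul, abs_mul, abs_mul, Finset.abs_prod, Finset.abs_prod]
    have h5 : ∏ w' ∈ U.filter (fun w' => pos w' < pos w), |b w' d| ≤ Q :=
      Finset.prod_le_prod (fun _ _ => abs_nonneg _) fun w' _ => hbY w' d
    have h6 : ∏ w' ∈ U.filter (fun w' => pos w < pos w'), |a w' d| ≤ 1 :=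
      Finset.prod_le_one (fun _ _ => abs_nonneg _) fun w' hw' => ha w' (mem_filter.1 hw').1 d
    have h7 : 0 ≤ ∏ w' ∈ U.filter (fun w' => pos w' < pos w), |b w' d| := Finset.prod_nonneg fun _ _ => abs_nonneg _
    have h8 : 0 ≤ ∏ w' ∈ U.filter (fun w' => pos w < pos w'), |a w' d| := Finset.prod_nonneg fun _ _ => abs_nonneg _
    have h9 := abs_nonneg (r w d - b w d)
    have h10 := abs_nonneg (ε d)
    calc _ ≤ Q * |r w d - b w d| * 1 * 1 := by
          gcongr
          exact hε d
      _ = _ := by ring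
  have h5 : |m (fun d => (∏ w' ∈ U.filter (fun w' => pos w' < pos w), b w' d) * (r w d - b w d) *
        (∏ w' ∈ U.filter (fun w' => pos w < pos w'), a w' d) * ε d)| ≤ m (fun d => Q * |r w d - b w d|) := by
    rw [abs_le]
    constructor
    · rw [← hm.neg]
      exact hm.mono _ _ fun d => by linarith [(abs_le.1 (h4 d)).1]
    · exact hm.mono _ _ fun d => (abs_le.1 (h4 d)).2
  refine h5.trans ?_
  rw [hm.smul]
  exact mul_le_mul_of_nonneg_left (h1 w hw) hQ0

/-- linearity over a list -/
theorem mean_list {m : (V → ℝ) → ℝ} (hm : IsMean m) {α : Type} (l : List α) (f : α → V → ℝ) {c : ℝ}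
    (h : ∀ q ∈ l, |m (f q)| ≤ c) : |m (fun d => (l.map fun q => f q d).sum)| ≤ l.length * c := by
  induction l with
  | nil =>
    simp only [List.map_nil, List.sum_nil, List.length_nil, Nat.cast_zero, zero_mul]
    rw [hm.zero, abs_zero]
  | cons q l ih =>
    have h1 := ih fun q' hq' => h q' (List.mem_cons_of_mem _ hq')
    have h2 := h q List.mem_cons_self
    simp only [List.map_cons, List.sum_cons, List.length_cons]
    rw [hm.add]
    push_cast
    calc _ ≤ |m (f q)| + |m (fun d => (l.map fun q => f q d).sum)| := abs_add_le _ _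
      _ ≤ c + l.length * c := add_le_add h2 h1
      _ = _ := by ring

end Pool.Agent.GMN
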