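import Pool.Agent.GMN.TjNum
import Pool.Agent.GMN.TjVer
import Pool.Agent.GMN.Lists

/-!
# GMN/TjFace (helper14): one family of one face at exact parameters: list, residual, numbers

`face_data` : for a numbered function `Φ` of the face `w` of the system `S` there are a residual `R` (with clip `Rt`), numbered
functions `U i q` (component `i` of the term with number `q`, `i ∈ S.erase w`) and a bad event, such that `Rt` is rare
(`2 θ`, `e`), has few moves from every state, `⟨|R - Rt|⟩ ≤ 4 / Y`, and outside the bad event `Φ - R` is at all times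
`e` times a sum of at most `64 / e ^ 2` products of numbered functions.
-/

set_option autoImplicit false
set_option linter.unusedSectionVars false

namespace Pool.Agent.GMN

open Finset Pool.Agent.PWZ Pool.Agent.M3 Pool.Agent.M3.TS Pool.Agent.GM

noncomputable section

variable {ι Om Ξ Pt V Γ κ : Type} [Fintype ι] [DecidableEq ι] [Fintype Om] [Fintype Ξ] [Fintype Pt]
    [Fintype V] (G : Sys ι Om Ξ Pt V Γ κ)

/-- the point with given values on `A` and `B` -/
def comb [Nonempty Pt] (A B : Finset ι) (a : {i // i ∈ A} → Pt) (y : {i // i ∈ B} → Pt) : ι → Pt := fun i =>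
  if h : i ∈ A then a ⟨i, h⟩ else if h' : i ∈ B then y ⟨i, h'⟩ else Classical.arbitrary Pt

theorem comb_in [Nonempty Pt] {A B : Finset ι} (a : {i // i ∈ A} → Pt) (y : {i // i ∈ B} → Pt) {i : ι} (h : i ∈ A) :
    comb A B a y i = a ⟨i, h⟩ := dif_pos h

theorem comb_out [Nonempty Pt] {A B : Finset ι} (a : {i // i ∈ A} → Pt) (y : {i // i ∈ B} → Pt) {i : ι} (h : i ∉ A)
    (h' : i ∈ B) : comb A B a y i = y ⟨i, h'⟩ := by
  unfold comb
  rw [dif_neg h, dif_pos h']

theorem comb_res [Nonempty Pt] (A B : Finset ι) (x : ι → Pt) {i : ι} (h : i ∈ A ∪ B) :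
    comb A B (res A x) (res B x) i = x i := by
  by_cases h1 : i ∈ A
  · exact comb_in _ _ h1
  · exact comb_out _ _ h1 ((mem_union.1 h).resolve_left h1)

section tests

variable {B : Finset ι}

/-- change the sign of one component -/
def PV.neg (τ : PV B Pt V) (i0 : ι) : PV B Pt V where
  f i y d := if i = i0 then - τ.f i y d else τ.f i y d
  dep i y y' h := by
    funext d
    rw [τ.dep i y y' h]
  bd i y d := by
    split_ifs
    · rw [abs_neg]; exact τ.bd i y d
    · exact τ.bd i y d

theorem PV.neg_val (τ : PV B Pt V) {i0 : ι} (h : i0 ∈ B) (y : {i // i ∈ B} → Pt) (d : V) :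
    (τ.neg i0).val y d = - τ.val y d := by
  unfold PV.val
  rw [← Finset.mul_prod_erase B _ h, ← Finset.mul_prod_erase B (fun i => τ.f i y d) h]
  have h1 : (τ.neg i0).f i0 y d = - τ.f i0 y d := if_pos rfl
  rw [h1, neg_mul]
  congr 1
  congr 1
  refine Finset.prod_congr rfl fun i hi => ?_
  exact if_neg (ne_of_mem_erase hi)

instance : Nonempty (PV B Pt V) := ⟨⟨fun _ _ _ => 0, fun _ _ _ _ => rfl, fun _ _ _ => by simp⟩⟩

end tests

/-- the output for one family of one face -/
structure FaceD (S : Finset ι) (w : ι) (Φ R : Fn ι Pt V Γ) (U : ι → ℕ → Fn ι Pt V Γ) (Bad : Om → Prop)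
    (Y e θ : ℝ) (N : ℕ) : Prop where
  dep : ∀ t g, Dep (univ.erase w) (fun x d => clip Y (R t g x d))
  zero : ∀ g x d, clip Y (R 0 g x d) = 0
  mv : MV G w (lft fun t g x d => clip Y (R t g x d)) (100 / e ^ 2 + 1)
  rare : Rare G S w (lft fun t g x d => clip Y (R t g x d)) (2 * θ) e
  hub : ∀ t ω, mn G t (G.gm t ω) (fun d => |val0 G R t ω d - clip Y (val0 G R t ω d)|) ≤ 4 / Y
  nf : ∀ i ∈ S.erase w, ∀ q, NF G i (U i q)
  depC : ∀ i ∈ S.erase w, ∀ q t g, DepC G t ((univ.erase i).erase w) {w} (U i q t g)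
  terms : ∀ ω, ¬ Bad ω → ∀ t ≤ G.n, ∃ l : List (ι → ℕ), (l.length : ℝ) ≤ 64 / e ^ 2 ∧
    (∀ q ∈ l, ∀ i ∈ S.erase w, q i < N) ∧
    ∀ d, val0 G Φ t ω d - val0 G R t ω d = e * (l.map fun q => ∏ i ∈ S.erase w, val0 G (U i (q i)) t ω d).sum
  bad : G.P.Pr Bad ≤ Fintype.card ι * (G.K * (100 / (e ^ 2 * θ))) / N

theorem face_data {S : Finset ι} {w : ι} (hw : w ∈ S) (hS : (S.erase w).Nonempty) {Φ : Fn ι Pt V Γ} (hΦ : NF G w Φ)
    {Y e θ : ℝ} (hY : 1 ≤ Y) (he : 0 < e) (he1 : e ≤ 1) (hθ : 0 < θ) {N : ℕ} (hN : 0 < N) :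
    ∃ (R : Fn ι Pt V Γ) (U : ι → ℕ → Fn ι Pt V Γ) (Bad : Om → Prop), FaceD G S w Φ R U Bad Y e θ N := by
  classical
  obtain ⟨i0, hi0⟩ := hS
  obtain ⟨ω00⟩ := G.nonempty_Om
  have hPt : Nonempty Pt := ⟨G.x ω00 w⟩
  set A : Finset ι := univ \ S with hA
  set B : Finset ι := S.erase w with hB
  have hd : Disjoint A B := by
    rw [Finset.disjoint_left]
    intro i hi hi'
    exact (mem_sdiff.1 hi).2 (mem_of_mem_erase hi')
  have hun : A ∪ B = univ.erase w := by
    ext i
    rw [mem_union, mem_sdiff, mem_erase, mem_erase]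
    constructor
    · rintro (⟨_, h⟩ | ⟨h, _⟩)
      · exact ⟨fun h' => h (h' ▸ hw), mem_univ i⟩
      · exact ⟨h, mem_univ i⟩
    · rintro ⟨h, _⟩
      by_cases hi : i ∈ S
      · exact Or.inr ⟨h, hi⟩
      · exact Or.inl ⟨mem_univ i, hi⟩
  have hAB : A ∪ B ≠ univ := by
    rw [hun]
    intro h
    have := mem_univ w
    rw [← h] at this
    exact (ne_of_mem_erase this) rfl
  have hside := side0 G hd hAB
  set Φ' : ℕ → (({i // i ∈ A} → Pt) × Γ) → ({i // i ∈ B} → Pt) → V → ℝ := fun t g y => Φ t g.2 (comb A B g.1 y)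
    with hΦ'
  have hΦe : ∀ t g x, Φ' t (res A x, g) (res B x) = Φ t g x := by
    intro t g x
    simp only [hΦ']
    refine hΦ.dep t g _ _ fun i hi => ?_
    exact comb_res A B x (by rw [hun]; exact hi)
  obtain ⟨L, Bn, hL0, hLlen, hLhub, hLrare, hLmv, hLb, hLmem⟩ := lists_exist hside (fun t ω => G.one t ω) G.ppos
    (T := PV B Pt V) PV.val (fun τ y d => τ.abs_val y d) (fun τ => ⟨τ.neg i0, fun y d => τ.neg_val hi0 y d⟩) Φ'
    (fun t g y d => hΦ.bd t g.2 _ d) (fun g y d => hΦ.zero g.2 _ d) (fun t ω => by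
      rw [hΦe, hΦe]
      exact hΦ.intro t ω) hY he he1 hθ
  set R : Fn ι Pt V Γ := fun t g x d => Res e PV.val Φ' L t (res A x, g) (res B x) d with hR
  have hRv : ∀ t g x d, R t g x d = Φ t g x d - e * ((L t (res A x, g) (res B x)).map fun τ => τ.val (res B x) d).sum := by
    intro t g x d
    simp only [hR]
    unfold Res
    rw [hΦe]
  have hRdep : ∀ t g, Dep (univ.erase w) (R t g) := by
    intro t g x y h
    have h1 : res A x = res A y := res_eq.2 fun i hi => h i (by rw [← hun]; exact mem_union_left _ hi)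
    have h2 : res B x = res B y := res_eq.2 fun i hi => h i (by rw [← hun]; exact mem_union_right _ hi)
    funext d
    simp only [hR, h1, h2]
  have hR0 : ∀ g x d, R 0 g x d = 0 := by
    intro g x d
    rw [hRv, hL0, hΦ.zero]
    simp
  have hY0 : (0 : ℝ) ≤ Y := by linarith
  set Bad : Om → Prop := fun ω => ∃ i ∈ B, (N : ℝ) ≤ ((vis G Bn i G.n (G.gm G.n ω) (G.x ω)).length : ℝ) with hBad
  refine ⟨R, fun i q => Uf G Bn i q, Bad, ?_, ?_, ?_, ?_, ?_, ?_, ?_, ?_, ?_⟩
  · -- dep
    intro t g x y h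
    funext d
    show clip Y (R t g x d) = clip Y (R t g y d)
    rw [hRdep t g x y h]
  · -- zero
    intro g x d
    rw [hR0, clip_zero hY0]
  · -- moves
    refine MV_of G fun t0 ht0 φ hφ hφ0 => ?_
    have h1 := hLmv t0 ht0 φ (fun v ω hvω => hφ v ω ?_) hφ0
    · have h2 : ∀ ω, ∑ t ∈ Ico t0 G.n, ind (val0 G Φ (t + 1) ω ≠ val0 G Φ t ω) ≤ 1 := fun ω => hΦ.moves G ω t0 G.n
      have h3 : ∀ ω, φ ω * ∑ t ∈ Ico t0 G.n, ind (val0 G (fun t g x d => clip Y (R t g x d)) (t + 1) ω ≠
          val0 G (fun t g x d => clip Y (R t g x d)) t ω) ≤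
          φ ω * ∑ t ∈ Ico t0 G.n, ind (L (t + 1) (res A (G.x ω), G.gm (t + 1) ω) (res B (G.x ω)) ≠
            L t (res A (G.x ω), G.gm t ω) (res B (G.x ω))) + φ ω * 1 := by
        intro ω
        rw [← mul_add]
        refine mul_le_mul_of_nonneg_left ?_ (hφ0 ω)
        refine le_trans ?_ (add_le_add le_rfl (h2 ω))
        rw [← Finset.sum_add_distrib]
        refine Finset.sum_le_sum fun t _ => ?_
        by_cases h4 : L (t + 1) (res A (G.x ω), G.gm (t + 1) ω) (res B (G.x ω)) ≠
            L t (res A (G.x ω), G.gm t ω) (res B (G.x ω))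
        · rw [ind_of h4]
          have := ind_nonneg (val0 G Φ (t + 1) ω ≠ val0 G Φ t ω)
          have := ind_le_one (val0 G (fun t g x d => clip Y (R t g x d)) (t + 1) ω ≠
            val0 G (fun t g x d => clip Y (R t g x d)) t ω)
          linarith
        · rw [ind_not h4, zero_add]
          refine ind_mono fun h5 h6 => h5 ?_
          rw [not_not] at h4
          funext d
          show clip Y (R (t + 1) (G.gm (t + 1) ω) (G.x ω) d) = clip Y (R t (G.gm t ω) (G.x ω) d)
          rw [hRv, hRv, h4]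
          have h7 : Φ (t + 1) (G.gm (t + 1) ω) (G.x ω) d = Φ t (G.gm t ω) (G.x ω) d := congrFun h6 d
          rw [h7]
      refine (G.P.E_mono fun ω _ => h3 ω).trans ?_
      rw [G.P.E_add]
      simp only [mul_one]
      rw [add_mul, one_mul]
      exact add_le_add h1 le_rfl
    · obtain ⟨h2, h3⟩ := Prod.mk_inj.1 hvω
      obtain ⟨h4, h5⟩ := Prod.mk_inj.1 h3
      refine Prod.ext (res_eq.2 fun i hi => ?_) h5
      rw [← hun] at hi
      rcases mem_union.1 hi with h6 | h6
      · exact res_eq.1 h4 i h6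
      · exact res_eq.1 h2 i h6
  · -- rarity
    intro t ht ω x0 u hu
    set g := G.gm t ω with hg
    have hA1 : A ≠ univ := fun h => hAB (by rw [h]; exact Finset.union_eq_left.2 (Finset.subset_univ B))
    obtain ⟨ω', hω1, hω2⟩ := exists_at G hA1 t ω x0
    have hresA : res A (G.x ω') = res A x0 := res_eq.2 hω1
    set pt : ({i // i ∈ B} → Pt) → ι → Pt := fun y i => if h : i ∈ B then y ⟨i, h⟩ else x0 i with hpt
    have hpt1 : ∀ y (i : ι) (h : i ∈ B), pt y i = y ⟨i, h⟩ := fun y i h => dif_pos h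
    have hpt2 : ∀ y (i : ι), i ∉ B → pt y i = x0 i := fun y i h => dif_neg h
    have hptA : ∀ y, res A (pt y) = res A x0 := fun y => res_eq.2 fun i hi => hpt2 y i fun h =>
      (Finset.disjoint_left.1 hd hi) h
    have hptB : ∀ y, res B (pt y) = y := fun y => by
      funext i
      exact hpt1 y i.1 i.2
    set τ : PV B Pt V := ⟨fun i y d => if i ∈ B then u i (pt y) d else 0, fun i y y' h => by
        funext d
        by_cases hi : i ∈ B
        · rw [if_pos hi, if_pos hi, hu.dep i hi (pt y) (pt y')]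
          intro j hj
          have hji : j ≠ i := (mem_erase.1 hj).1
          by_cases hjB : j ∈ B
          · rw [hpt1 y j hjB, hpt1 y' j hjB]
            exact h ⟨j, hjB⟩ hji
          · rw [hpt2 y j hjB, hpt2 y' j hjB]
        · rw [if_neg hi, if_neg hi], fun i y d => by
        split_ifs
        · exact hu.bd i (pt y) d
        · simp⟩ with hτ
    have hτv : ∀ y d, τ.val y d = tpr S w u (pt y) d := by
      intro y d
      unfold PV.val tpr
      refine Finset.prod_congr rfl fun i hi => ?_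
      show (if i ∈ B then u i (pt y) d else 0) = _
      rw [if_pos hi]
    set k : {i // i ∈ B} → κ := fun i => G.cl t (x0 i.1) with hk
    -- the population of `x0` and the cell `k`
    have hsum : ∀ Q : (ι → Pt) → Prop, ∑ x : ι → Pt, ind (Box G t S w x0 x ∧ Q x) =
        ∑ y ∈ cel (fun (y : {i // i ∈ B} → Pt) i => G.cl t (y i)) k, ind (Q (pt y)) := by
      intro Q
      have h1 : ∑ x : ι → Pt, ind (Box G t S w x0 x ∧ Q x) =
          ∑ x ∈ univ.filter (fun x => Box G t S w x0 x), ind (Q x) := by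
        rw [Finset.sum_filter]
        refine Finset.sum_congr rfl fun x _ => ?_
        by_cases h : Box G t S w x0 x
        · rw [if_pos h]
          congr 1
          exact propext ⟨fun h' => h'.2, fun h' => ⟨h, h'⟩⟩
        · rw [if_neg h, ind_not fun h' => h h'.1]
      have hback : ∀ x, Box G t S w x0 x → pt (res B x) = x := by
        intro x hx
        funext i
        by_cases hi : i ∈ B
        · rw [hpt1 _ i hi]
          rfl
        · rw [hpt2 _ i hi, hx.1 i hi]
      rw [h1]
      refine Finset.sum_bij' (fun x _ => res B x) (fun y _ => pt y) ?_ ?_ ?_ ?_ ?_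
      · intro x hx
        have hx' := (Finset.mem_filter.1 hx).2
        rw [mem_cel]
        funext i
        exact hx'.2 i.1 i.2
      · intro y hy
        rw [mem_cel] at hy
        refine Finset.mem_filter.2 ⟨mem_univ _, fun i hi => hpt2 y i hi, fun i hi => ?_⟩
        rw [hpt1 y i hi]
        exact congrFun hy ⟨i, hi⟩
      · intro x hx
        exact hback x (Finset.mem_filter.1 hx).2
      · intro y _
        exact hptB y
      · intro x hx
        rw [hback x (Finset.mem_filter.1 hx).2]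
    have h1 := hLrare t ht ω' k τ
    have h2 : ∑ x : ι → Pt, ind (Box G t S w x0 x ∧ e ≤ |mn G t g (fun d => clip Y (R t g x d) * tpr S w u x d)|) ≤
        2 * θ * ∑ x : ι → Pt, ind (Box G t S w x0 x) := by
      have e1 : ∑ x : ι → Pt, ind (Box G t S w x0 x) =
          ((cel (fun (y : {i // i ∈ B} → Pt) i => G.cl t (y i)) k).card : ℝ) := by
        have := hsum fun _ => True
        simp only [and_true] at this
        rw [this, Finset.sum_congr rfl fun y _ => ind_of trivial, Finset.sum_const, nsmul_eq_mul, mul_one]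
      rw [e1, hsum]
      refine le_trans (le_of_eq ?_) h1
      refine Finset.sum_congr rfl fun y _ => ?_
      congr 3
      unfold mn
      congr 1
      funext d
      rw [hτv]
      simp only [hR, hptA, hptB, hresA, hω2]
      rfl
    rw [Finset.mul_sum]
    exact Finset.sum_le_sum fun ξ _ => h2
  · -- hub
    intro t ω
    have h1 := hLhub t ω
    have h2 : mn G t (G.gm t ω) (fun d => |val0 G R t ω d - clip Y (val0 G R t ω d)|) ≤
        (∑ d, G.ρ t (G.gm t ω) d * hub Y (val0 G R t ω d)) / Y := by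
      unfold mn
      rw [Finset.sum_div]
      refine Finset.sum_le_sum fun d _ => ?_
      rw [mul_div_assoc]
      exact mul_le_mul_of_nonneg_left (abs_sub_clip_le (by linarith) _) ((G.wt _ _).nn d)
    refine h2.trans (div_le_div_of_nonneg_right ?_ hY0)
    exact h1
  · -- numbered functions
    intro i hi q
    exact NF_Uf G Bn (mem_of_mem_erase hi) hw (ne_of_mem_erase hi) q
  · -- cell of w
    intro i hi q t g
    exact Uf_depC G Bn (mem_of_mem_erase hi) hw q t g
  · -- terms
    intro ω hω t ht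
    have hnum : ∀ τ ∈ L t (res A (G.x ω), G.gm t ω) (res B (G.x ω)), ∀ i ∈ B, ∃ q < N,
        (vis G Bn i t (G.gm t ω) (G.x ω))[q]? = some τ := by
      intro τ hτ i hi
      have h1 := mem_vis G Bn hL0 hLmem i t ω hτ
      obtain ⟨q, hq, h2⟩ := List.getElem_of_mem h1
      refine ⟨q, ?_, by rw [List.getElem?_eq_getElem hq, h2]⟩
      by_contra h3
      refine hω ⟨i, hi, ?_⟩
      have h4 := vis_mono G Bn i ht ω
      exact_mod_cast (by omega : N ≤ (vis G Bn i G.n (G.gm G.n ω) (G.x ω)).length)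
    choose! qf hqN hqf using hnum
    refine ⟨(L t (res A (G.x ω), G.gm t ω) (res B (G.x ω))).map fun τ i => qf τ i, ?_, ?_, ?_⟩
    · rw [List.length_map]
      exact hLlen t ω
    · intro q hq i hi
      obtain ⟨τ, hτ, rfl⟩ := List.mem_map.1 hq
      exact hqN τ hτ i hi
    · intro d
      show Φ t (G.gm t ω) (G.x ω) d - R t (G.gm t ω) (G.x ω) d = _
      rw [hRv, sub_sub_cancel, List.map_map]
      congr 2
      refine List.map_congr_left fun τ hτ => ?_
      show τ.val (res B (G.x ω)) d = ∏ i ∈ B, val0 G (Uf G Bn i (qf τ i)) t ω d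
      unfold PV.val
      refine Finset.prod_congr rfl fun i hi => ?_
      exact (Uf_some G Bn (hqf τ hτ i hi) d).symm
  · -- bad event
    have hN0 : (0 : ℝ) < N := by exact_mod_cast hN
    have h1 : G.P.Pr Bad ≤ ∑ i ∈ B, G.P.Pr (fun ω => (N : ℝ) ≤ ((vis G Bn i G.n (G.gm G.n ω) (G.x ω)).length : ℝ)) :=
      G.P.Pr_ex_le B _
    have h2 : ∀ i ∈ B, G.P.Pr (fun ω => (N : ℝ) ≤ ((vis G Bn i G.n (G.gm G.n ω) (G.x ω)).length : ℝ)) ≤
        G.K * (100 / (e ^ 2 * θ)) / N := by
      intro i hi
      have h3 := G.P.markov (f := fun ω => ((vis G Bn i G.n (G.gm G.n ω) (G.x ω)).length : ℝ))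
        (fun ω _ => Nat.cast_nonneg _) (N : ℝ)
      have h4 := vis_len G Bn (mem_of_mem_erase hi) hw (ne_of_mem_erase hi) G.n
      rw [le_div_iff₀ hN0, mul_comm]
      refine (h3.trans h4).trans (mul_le_mul_of_nonneg_left hLb (by linarith [G.K1]))
    refine h1.trans ((Finset.sum_le_sum h2).trans ?_)
    have h5 : (B.card : ℝ) ≤ (Fintype.card ι : ℝ) := by exact_mod_cast Finset.card_le_univ B
    have h6 : 0 ≤ G.K * (100 / (e ^ 2 * θ)) / N := by
      have := G.K1
      positivity
    rw [Finset.sum_const, nsmul_eq_mul, mul_div_assoc (Fintype.card ι : ℝ)]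
    exact mul_le_mul_of_nonneg_right h5 h6

end

end Pool.Agent.GMN
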