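import Pool.Agent.GMN.TjSide

/-!
# GMN/TjNum (helper14): numbering of the births of a face as seen by another face

Births of the face `w` of the system `S` are lists `Bn t (exact values off S, node) (cells of S.erase w)`.  The face `i`
(`i ∈ S.erase w`) knows all vertices but `i`, so it sees the births in all COMPATIBLE cells of `i` (`CC`).  `vis` = list of all
births seen up to the time `t` (only grows along a path), `Uf i q` = component `i` of the birth with number `q`.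
* `NF_Uf` : numbered function of the face `i`, `Uf_depC` : of `x w` it knows the cell only;
* `mem_vis` : the births on the path have numbers; `vis_len` : mean number `≤ K` times the mean number of births in the true cell.
-/

set_option autoImplicit false
set_option linter.unusedSectionVars false

namespace Pool.Agent.GMN

open Finset Pool.Agent.PWZ Pool.Agent.M3 Pool.Agent.M3.TS Pool.Agent.GM

noncomputable section

/-- vectors of functions of the vertices of `B`: the component `i` misses `i` -/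
structure PV {ι : Type} (B : Finset ι) (Pt V : Type) where
  f : ι → ({i // i ∈ B} → Pt) → V → ℝ
  dep : ∀ i y y', (∀ j : {i // i ∈ B}, j.1 ≠ i → y j = y' j) → f i y = f i y'
  bd : ∀ i y d, |f i y d| ≤ 1

/-- the product of the components -/
def PV.val {ι : Type} {B : Finset ι} {Pt V : Type} (τ : PV B Pt V) (y : {i // i ∈ B} → Pt) (d : V) : ℝ :=
  ∏ i ∈ B, τ.f i y d

theorem PV.abs_val {ι : Type} {B : Finset ι} {Pt V : Type} (τ : PV B Pt V) (y : {i // i ∈ B} → Pt) (d : V) :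
    |τ.val y d| ≤ 1 := by
  unfold PV.val
  rw [Finset.abs_prod]
  exact Finset.prod_le_one (fun _ _ => abs_nonneg _) fun i _ => τ.bd i y d

variable {ι Om Ξ Pt V Γ κ : Type} [Fintype ι] [DecidableEq ι] [Fintype Om] [Fintype Ξ] [Fintype Pt]
    [Fintype V] (G : Sys ι Om Ξ Pt V Γ κ)

/-- the births of the face `w` of the system `S` -/
abbrev BirthL (ι Pt V Γ κ : Type) [Fintype ι] [DecidableEq ι] (S : Finset ι) (w : ι) : Type :=
  ℕ → (({i // i ∈ univ \ S} → Pt) × Γ) → ({i // i ∈ S.erase w} → κ) → List (PV (S.erase w) Pt V)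

/-- the cells of the vertices of `B`, the cell `c` in the place `i` -/
def cellsW (B : Finset ι) (i : ι) (t : ℕ) (x : ι → Pt) (c : κ) : {j // j ∈ B} → κ := fun j =>
  if j.1 = i then c else G.cl t (x j.1)

open Classical in
/-- the compatible cells of the vertex `i` -/
def CC (i : ι) (t : ℕ) (g : Γ) (x : ι → Pt) : Finset κ :=
  (univ.filter fun ω => (∀ j, j ≠ i → G.cl t (G.x ω j) = G.cl t (x j)) ∧ G.gm t ω = g).image
    fun ω => G.cl t (G.x ω i)

theorem mem_CC {i : ι} {t : ℕ} {g : Γ} {x : ι → Pt} {c : κ} : c ∈ CC G i t g x ↔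
    ∃ ω, (∀ j, j ≠ i → G.cl t (G.x ω j) = G.cl t (x j)) ∧ G.gm t ω = g ∧ G.cl t (G.x ω i) = c := by
  classical
  unfold CC
  simp only [mem_image, mem_filter, mem_univ, true_and, and_assoc]

theorem CC_congr {i : ι} {t : ℕ} {g : Γ} {x x' : ι → Pt} (h : ∀ j, j ≠ i → G.cl t (x j) = G.cl t (x' j)) :
    CC G i t g x = CC G i t g x' := by
  ext c
  rw [mem_CC, mem_CC]
  refine exists_congr fun ω => and_congr_left fun _ => forall_congr' fun j => forall_congr' fun hj => ?_
  rw [h j hj]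

variable {S : Finset ι} {w : ι} (Bn : BirthL ι Pt V Γ κ S w)

/-- the births seen by the face `i` at a node -/
def vb (i : ι) (t : ℕ) (g : Γ) (x : ι → Pt) : List (PV (S.erase w) Pt V) :=
  (CC G i t g x).toList.flatMap fun c => Bn t (res (univ \ S) x, g) (cellsW G (S.erase w) i t x c)

/-- the births seen by the face `i` up to the time `t` -/
def vis (i : ι) : ℕ → Γ → (ι → Pt) → List (PV (S.erase w) Pt V)
  | 0, _, _ => []
  | t + 1, g, x => vis i t (G.par t g) x ++ vb G Bn i (t + 1) g x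

theorem vb_congr {i : ι} (hi : i ∈ S) {t : ℕ} (g : Γ) {x x' : ι → Pt} (h : ∀ j, j ≠ i → j ≠ w → x j = x' j)
    (hw : w ∈ S) (hc : G.cl t (x w) = G.cl t (x' w)) : vb G Bn i t g x = vb G Bn i t g x' := by
  have h1 : ∀ j, j ≠ i → G.cl t (x j) = G.cl t (x' j) := by
    intro j hj
    by_cases hjw : j = w
    · rw [hjw, hc]
    · rw [h j hj hjw]
  have h2 : res (univ \ S) x = res (univ \ S) x' := by
    rw [res_eq]
    intro j hj
    have hjS : j ∉ S := (mem_sdiff.1 hj).2
    exact h j (fun hji => hjS (hji ▸ hi)) fun hjw => hjS (hjw ▸ hw)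
  unfold vb
  rw [CC_congr G h1, h2]
  congr 1
  funext c
  congr 1
  funext j
  unfold cellsW
  split_ifs with hj
  · rfl
  · exact h1 j.1 hj

theorem vis_congr {i : ι} (hi : i ∈ S) (hw : w ∈ S) {t : ℕ} {x x' : ι → Pt}
    (h : ∀ j, j ≠ i → j ≠ w → x j = x' j) (hc : G.cl t (x w) = G.cl t (x' w)) (g : Γ) :
    vis G Bn i t g x = vis G Bn i t g x' := by
  induction t generalizing g with
  | zero => rfl
  | succ t ih =>
    show vis G Bn i t (G.par t g) x ++ vb G Bn i (t + 1) g x = vis G Bn i t (G.par t g) x' ++ vb G Bn i (t + 1) g x'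
    rw [ih (G.nest t _ _ hc), vb_congr G Bn hi g h hw hc]

/-- component `i` of the birth with number `q` in the view of the face `i` -/
def Uf (i : ι) (q : ℕ) : Fn ι Pt V Γ := fun t g x d =>
  match (vis G Bn i t g x)[q]? with
  | some τ => τ.f i (res (S.erase w) x) d
  | none => 0

theorem Uf_some {i : ι} {q t : ℕ} {g : Γ} {x : ι → Pt} {τ : PV (S.erase w) Pt V}
    (h : (vis G Bn i t g x)[q]? = some τ) (d : V) : Uf G Bn i q t g x d = τ.f i (res (S.erase w) x) d := by
  unfold Uf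
  rw [h]

theorem Uf_none {i : ι} {q t : ℕ} {g : Γ} {x : ι → Pt} (h : (vis G Bn i t g x)[q]? = none) (d : V) :
    Uf G Bn i q t g x d = 0 := by
  unfold Uf
  rw [h]

/-- of the vertex `w` the function knows the cell only -/
theorem Uf_congr {i : ι} (hi : i ∈ S) (hw : w ∈ S) (q : ℕ) {t : ℕ} {x x' : ι → Pt}
    (h : ∀ j, j ≠ i → j ≠ w → x j = x' j) (hc : G.cl t (x w) = G.cl t (x' w)) (g : Γ) :
    Uf G Bn i q t g x = Uf G Bn i q t g x' := by
  funext d
  unfold Uf
  rw [vis_congr G Bn hi hw h hc g]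
  cases hq : (vis G Bn i t g x')[q]? with
  | none => rfl
  | some τ =>
    show τ.f i (res (S.erase w) x) d = τ.f i (res (S.erase w) x') d
    rw [τ.dep i (res (S.erase w) x) (res (S.erase w) x') fun j hj => h j.1 hj (ne_of_mem_erase j.2)]

theorem Uf_depC {i : ι} (hi : i ∈ S) (hw : w ∈ S) (q t : ℕ) (g : Γ) :
    DepC G t ((univ.erase i).erase w) {w} (Uf G Bn i q t g) := by
  intro x y h1 h2
  exact Uf_congr G Bn hi hw q (fun j hj hjw => h1 j (mem_erase.2 ⟨hjw, mem_erase.2 ⟨hj, mem_univ j⟩⟩))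
    (h2 w (mem_singleton_self w)) g

theorem vis_succ (i : ι) (t : ℕ) (ω : Om) : vis G Bn i (t + 1) (G.gm (t + 1) ω) (G.x ω) =
    vis G Bn i t (G.gm t ω) (G.x ω) ++ vb G Bn i (t + 1) (G.gm (t + 1) ω) (G.x ω) := by
  show vis G Bn i t (G.par t (G.gm (t + 1) ω)) (G.x ω) ++ _ = _
  rw [G.par_gm]

theorem vis_mono (i : ι) {s t : ℕ} (h : s ≤ t) (ω : Om) :
    (vis G Bn i s (G.gm s ω) (G.x ω)).length ≤ (vis G Bn i t (G.gm t ω) (G.x ω)).length := by
  induction t, h using Nat.le_induction with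
  | base => exact le_rfl
  | succ t _ ih =>
    refine ih.trans ?_
    rw [vis_succ, List.length_append]
    exact Nat.le_add_right _ _

/-- **the components are numbered functions** -/
theorem NF_Uf {i : ι} (hi : i ∈ S) (hw : w ∈ S) (hiw : i ≠ w) (q : ℕ) : NF G i (Uf G Bn i q) where
  dep t g := by
    intro x y h
    exact Uf_congr G Bn hi hw q (fun j hj _ => h j (mem_erase.2 ⟨hj, mem_univ j⟩))
      (by rw [h w (mem_erase.2 ⟨hiw.symm, mem_univ w⟩)]) g
  bd t g x d := by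
    cases hq : (vis G Bn i t g x)[q]? with
    | none => rw [Uf_none G Bn hq]; simp
    | some τ => rw [Uf_some G Bn hq]; exact τ.bd _ _ _
  zero g x d := Uf_none G Bn (by simp [vis]) d
  intro t ω := by
    cases hq : (vis G Bn i t (G.gm t ω) (G.x ω))[q]? with
    | none =>
      right
      funext d
      exact Uf_none G Bn hq d
    | some τ =>
      left
      funext d
      have h1 : (vis G Bn i (t + 1) (G.gm (t + 1) ω) (G.x ω))[q]? = some τ := by
        rw [vis_succ, List.getElem?_append_left (List.getElem?_eq_some_iff.1 hq).1, hq]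
      show Uf G Bn i q (t + 1) (G.gm (t + 1) ω) (G.x ω) d = Uf G Bn i q t (G.gm t ω) (G.x ω) d
      rw [Uf_some G Bn h1, Uf_some G Bn hq]

/-- births in the true cell are seen by every face -/
theorem mem_vb {i : ι} {t : ℕ} {ω : Om} {τ : PV (S.erase w) Pt V}
    (h : τ ∈ Bn t (res (univ \ S) (G.x ω), G.gm t ω) fun j => G.cl t (G.x ω j.1)) :
    τ ∈ vb G Bn i t (G.gm t ω) (G.x ω) := by
  unfold vb
  rw [List.mem_flatMap]
  refine ⟨G.cl t (G.x ω i), ?_, ?_⟩
  · rw [Finset.mem_toList, mem_CC]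
    exact ⟨ω, fun _ _ => rfl, rfl, rfl⟩
  · have e : cellsW G (S.erase w) i t (G.x ω) (G.cl t (G.x ω i)) = fun j => G.cl t (G.x ω j.1) := by
      funext j
      unfold cellsW
      split_ifs with hj
      · rw [hj]
      · rfl
    rw [e]
    exact h

/-- the terms of the list of the sample point have numbers in the view of every face -/
theorem mem_vis {L : ℕ → (({i // i ∈ univ \ S} → Pt) × Γ) → ({i // i ∈ S.erase w} → Pt) → List (PV (S.erase w) Pt V)}
    (hL0 : ∀ g x, L 0 g x = [])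
    (hL : ∀ t g x, ∀ τ ∈ L (t + 1) g x, τ ∈ L t (g.1, G.par t g.2) x ∨ τ ∈ Bn (t + 1) g (fun j => G.cl (t + 1) (x j)))
    (i : ι) (t : ℕ) (ω : Om) {τ : PV (S.erase w) Pt V}
    (h : τ ∈ L t (res (univ \ S) (G.x ω), G.gm t ω) (res (S.erase w) (G.x ω))) :
    τ ∈ vis G Bn i t (G.gm t ω) (G.x ω) := by
  induction t with
  | zero =>
    rw [hL0] at h
    exact absurd h List.not_mem_nil
  | succ t ih =>
    rw [vis_succ, List.mem_append]
    rcases hL t _ _ τ h with h1 | h1
    · left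
      refine ih ?_
      rwa [show ((res (univ \ S) (G.x ω), G.gm (t + 1) ω) : ({i // i ∈ univ \ S} → Pt) × Γ).2 = G.gm (t + 1) ω from rfl,
        G.par_gm] at h1
    · exact Or.inr (mem_vb G Bn h1)

/-- **mean number of births seen** -/
theorem vb_len {i : ι} (hi : i ∈ S) (hw : w ∈ S) (hiw : i ≠ w) (t : ℕ) :
    G.P.E (fun ω => ((vb G Bn i t (G.gm t ω) (G.x ω)).length : ℝ)) ≤
      G.K * G.P.E (fun ω => ((Bn t (res (univ \ S) (G.x ω), G.gm t ω) fun j => G.cl t (G.x ω j.1)).length : ℝ)) := by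
  classical
  set 𝒦 : Finset κ := univ.image (fun ω => G.cl t (G.x ω i)) with h𝒦
  have hmem : ∀ ω c, c ∈ CC G i t (G.gm t ω) (G.x ω) → c ∈ 𝒦 := by
    intro ω c hc
    obtain ⟨v, _, _, h⟩ := (mem_CC G).1 hc
    rw [← h]
    exact mem_image_of_mem _ (mem_univ v)
  set ψ : κ → Om → ℝ := fun c ω => ((Bn t (res (univ \ S) (G.x ω), G.gm t ω)
    (cellsW G (S.erase w) i t (G.x ω) c)).length : ℝ) with hψ
  have hψ0 : ∀ c ω, 0 ≤ ψ c ω := fun c ω => Nat.cast_nonneg _
  have e1 : ∀ ω, ((vb G Bn i t (G.gm t ω) (G.x ω)).length : ℝ) =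
      ∑ c ∈ 𝒦, ind (c ∈ CC G i t (G.gm t ω) (G.x ω)) * ψ c ω := by
    intro ω
    unfold vb
    rw [List.length_flatMap, Nat.cast_list_sum, List.map_map, Finset.sum_map_toList,
      ← Finset.sum_subset (hmem ω) (fun c _ hc => by rw [ind_not hc, zero_mul])]
    refine Finset.sum_congr rfl fun c hc => ?_
    rw [ind_of hc, one_mul]
    rfl
  have e2 : ∀ ω, ((Bn t (res (univ \ S) (G.x ω), G.gm t ω) fun j => G.cl t (G.x ω j.1)).length : ℝ) =
      ∑ c ∈ 𝒦, ind (G.cl t (G.x ω i) = c) * ψ c ω := by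
    intro ω
    rw [Finset.sum_eq_single (G.cl t (G.x ω i))]
    · rw [ind_of rfl, one_mul]
      simp only [hψ]
      congr 3
      funext j
      unfold cellsW
      split_ifs with hj
      · rw [hj]
      · rfl
    · intro c _ hc
      rw [ind_not fun h => hc h.symm, zero_mul]
    · exact fun h => absurd (mem_image_of_mem _ (mem_univ ω)) h
  rw [G.P.E_congr fun ω _ => e1 ω, G.P.E_congr fun ω _ => e2 ω, G.P.E_sum, G.P.E_sum, Finset.mul_sum]
  refine Finset.sum_le_sum fun c _ => ?_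
  rw [← G.P.E_smul]
  set A' : Finset ι := (univ.erase i).erase w with hA'
  refine E_le_fib G.P (fun ω => (res A' (G.x ω), G.gm t ω)) fun ω0 => ?_
  have hres : ∀ v, (res A' (G.x v), G.gm t v) = (res A' (G.x ω0), G.gm t ω0) →
      (∀ j, j ≠ i → j ≠ w → G.x v j = G.x ω0 j) ∧ G.gm t v = G.gm t ω0 := by
    intro v hv
    obtain ⟨h1, h2⟩ := Prod.mk_inj.1 hv
    refine ⟨fun j hj hjw => ?_, h2⟩
    exact res_eq.1 h1 j (by rw [hA']; exact mem_erase.2 ⟨hjw, mem_erase.2 ⟨hj, mem_univ j⟩⟩)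
  have hψc : ∀ v, (res A' (G.x v), G.gm t v) = (res A' (G.x ω0), G.gm t ω0) → ψ c v = ψ c ω0 := by
    intro v hv
    obtain ⟨h1, h2⟩ := hres v hv
    simp only [hψ]
    rw [h2]
    have h3 : res (univ \ S) (G.x v) = res (univ \ S) (G.x ω0) := by
      rw [res_eq]
      intro j hj
      have hjS : j ∉ S := (mem_sdiff.1 hj).2
      exact h1 j (fun hji => hjS (hji ▸ hi)) fun hjw => hjS (hjw ▸ hw)
    rw [h3]
    congr 3
    funext j
    unfold cellsW
    split_ifs with hj
    · rfl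
    · rw [h1 j.1 hj (ne_of_mem_erase j.2)]
  have h1 : G.P.E (fun v => ind ((res A' (G.x v), G.gm t v) = (res A' (G.x ω0), G.gm t ω0)) *
      (ind (c ∈ CC G i t (G.gm t v) (G.x v)) * ψ c v)) =
      G.P.Pr (fun v => (∀ j ∈ A', G.x v j = G.x ω0 j) ∧ G.gm t v = G.gm t ω0 ∧
        ∃ w', (∀ j ∈ A', G.cl t (G.x w' j) = G.cl t (G.x ω0 j)) ∧ G.cl t (G.x w' i) = c ∧
          (∀ j, j ∉ A' → j ≠ i → G.cl t (G.x w' j) = G.cl t (G.x v j)) ∧ G.gm t w' = G.gm t ω0) * ψ c ω0 := by
    unfold FP.Pr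
    rw [← G.P.E_mul_const]
    refine G.P.E_congr fun v _ => ?_
    by_cases hv : (res A' (G.x v), G.gm t v) = (res A' (G.x ω0), G.gm t ω0)
    · rw [ind_of hv, one_mul, hψc v hv]
      congr 1
      congr 1
      obtain ⟨h2, h3⟩ := Prod.mk_inj.1 hv
      have h4 := res_eq.1 h2
      refine propext ⟨fun h => ⟨h4, h3, ?_⟩, fun h => ?_⟩
      · obtain ⟨w', h5, h6, h7⟩ := (mem_CC G).1 h
        refine ⟨w', fun j hj => ?_, h7, fun j _ hj => h5 j hj, by rw [h6, h3]⟩
        rw [h5 j (fun h8 => (mem_erase.1 (mem_erase.1 (hA' ▸ hj)).2).1 h8), h4 j hj]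
      · obtain ⟨_, _, w', h5, h6, h7, h8⟩ := h
        refine (mem_CC G).2 ⟨w', fun j hj => ?_, by rw [h8, h3], h6⟩
        by_cases hjA : j ∈ A'
        · rw [h5 j hjA, h4 j hjA]
        · exact h7 j hjA hj
    · have hv' : ¬ ((∀ j ∈ A', G.x v j = G.x ω0 j) ∧ G.gm t v = G.gm t ω0 ∧
        ∃ w', (∀ j ∈ A', G.cl t (G.x w' j) = G.cl t (G.x ω0 j)) ∧ G.cl t (G.x w' i) = c ∧
          (∀ j, j ∉ A' → j ≠ i → G.cl t (G.x w' j) = G.cl t (G.x v j)) ∧ G.gm t w' = G.gm t ω0) :=
        fun h => hv (Prod.ext (res_eq.2 h.1) h.2.1)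
      rw [ind_not hv, ind_not hv', zero_mul, zero_mul]
  have h2 : G.P.E (fun v => ind ((res A' (G.x v), G.gm t v) = (res A' (G.x ω0), G.gm t ω0)) *
      (G.K * (ind (G.cl t (G.x v i) = c) * ψ c v))) =
      G.K * G.P.Pr (fun v => (∀ j ∈ A', G.x v j = G.x ω0 j) ∧ G.gm t v = G.gm t ω0 ∧ G.cl t (G.x v i) = c) *
        ψ c ω0 := by
    unfold FP.Pr
    rw [← G.P.E_smul, ← G.P.E_mul_const]
    refine G.P.E_congr fun v _ => ?_
    by_cases hv : (res A' (G.x v), G.gm t v) = (res A' (G.x ω0), G.gm t ω0)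
    · rw [ind_of hv, one_mul, hψc v hv, mul_assoc]
      congr 1
      congr 1
      congr 1
      obtain ⟨h2, h3⟩ := Prod.mk_inj.1 hv
      exact propext ⟨fun h => ⟨res_eq.1 h2, h3, h⟩, fun h => h.2.2⟩
    · have hv' : ¬ ((∀ j ∈ A', G.x v j = G.x ω0 j) ∧ G.gm t v = G.gm t ω0 ∧ G.cl t (G.x v i) = c) :=
        fun h => hv (Prod.ext (res_eq.2 h.1) h.2.1)
      rw [ind_not hv, ind_not hv']
      ring
  rw [h1, h2]
  refine mul_le_mul_of_nonneg_right ?_ (hψ0 c ω0)
  exact G.cnt t (G.gm t ω0) A' (G.x ω0) i c (fun h => (mem_erase.1 (mem_erase.1 (hA' ▸ h)).2).1 rfl)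
    ⟨w, fun h => hiw h.symm, fun h => (mem_erase.1 (hA' ▸ h)).1 rfl⟩

theorem vis_len {i : ι} (hi : i ∈ S) (hw : w ∈ S) (hiw : i ≠ w) (T : ℕ) :
    G.P.E (fun ω => ((vis G Bn i T (G.gm T ω) (G.x ω)).length : ℝ)) ≤
      G.K * ∑ t ∈ range T, G.P.E (fun ω =>
        ((Bn (t + 1) (res (univ \ S) (G.x ω), G.gm (t + 1) ω) fun j => G.cl (t + 1) (G.x ω j.1)).length : ℝ)) := by
  induction T with
  | zero =>
    have e : (fun ω => ((vis G Bn i 0 (G.gm 0 ω) (G.x ω)).length : ℝ)) = fun _ => (0 : ℝ) := by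
      funext ω
      simp [vis]
    rw [e, G.P.E_const]
    simp
  | succ T ih =>
    have e : (fun ω => ((vis G Bn i (T + 1) (G.gm (T + 1) ω) (G.x ω)).length : ℝ)) = fun ω =>
        ((vis G Bn i T (G.gm T ω) (G.x ω)).length : ℝ) + ((vb G Bn i (T + 1) (G.gm (T + 1) ω) (G.x ω)).length : ℝ) := by
      funext ω
      rw [vis_succ, List.length_append]
      push_cast
      rfl
    rw [e, G.P.E_add, Finset.sum_range_succ, mul_add]
    exact add_le_add ih (vb_len G Bn hi hw hiw (T + 1))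

end

end Pool.Agent.GMN
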