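import Mathlib

/-!
# GMN/TjPar (helper14): the numbers of the induction step of Lemma T_j
-/

set_option autoImplicit false

namespace Pool.Agent.GMN

open Finset

/-- numbers of the induction step, first part -/
structure SNumA (C0 C1 C : ℕ) (β H K βs Hs β1 H1 e θ : ℝ) : Prop where
  bs0 : 0 < βs
  bs2 : βs ≤ 1 / 2
  bsH : 1 / βs ≤ Hs
  KHs : K ≤ Real.exp Hs
  Cs : β ^ C ≤ βs ^ C0
  b10 : 0 < β1
  b12 : β1 ≤ 1 / 2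
  b1H : 1 / β1 ≤ H1
  KH1 : K ≤ Real.exp H1
  C1' : β ^ C ≤ β1 ^ C1
  e0 : 0 < e
  e1 : e ≤ 1
  es : e = βs ^ C0
  th0 : 0 < θ
  th2 : 2 * θ ≤ Real.exp (-Hs ^ C0)
  mv1 : 100 / e ^ 2 + 1 ≤ Hs
  mv2 : H + 1 ≤ Hs
  eH : Real.exp (-H ^ C) ≤ Real.exp (-Hs ^ C0)
  eH1 : Real.exp (-H ^ C) ≤ Real.exp (-H1 ^ C1)
  HH1 : H ≤ H1

/-- numbers of the induction step, second part, `m` = number of all vertices -/
structure SNumB (m C1 C : ℕ) (β H K Hs β1 H1 e θ X βs : ℝ) (N : ℕ) (Y : ℕ → ℝ) : Prop where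
  N0 : 0 < N
  p1 : (m : ℝ) * Real.exp H * (m * (K * (100 / (e ^ 2 * θ))) / N) ≤ Real.exp (-H) / 4
  p2 : (m : ℝ) * Real.exp H * ((100 / e ^ 2 + 1) / N) ≤ Real.exp (-H) / 4
  p3 : (m : ℝ) * Real.exp (-H1) ≤ Real.exp (-H) / 4
  p4 : Real.exp H * Real.exp H ^ m * Real.exp (-Hs) ≤ Real.exp (-H) / 4
  cZ : Real.exp H * N * Real.exp H * N ≤ Real.exp H1
  cK : Real.exp H * Real.exp H * N ≤ Real.exp H1
  cC : Real.exp H + m * Real.exp (H1 ^ C1) ≤ Real.exp (H ^ C)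
  Y1 : ∀ i, 1 ≤ Y i
  X0 : 0 ≤ X
  YX : ∀ s : Finset ℕ, (∀ i ∈ s, i < m) → ∏ i ∈ s, Y i ≤ X
  Y4 : ∀ i < m, (∏ j ∈ range i, Y j) * (4 / Y i) ≤ β / (4 * m)
  a1 : m * (X * (64 / e ^ 2 * (e * β1))) ≤ β / 4
  a2 : X * βs ≤ β / 4

end Pool.Agent.GMN
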