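import Pool.Agent.GMN.TjFace
import Pool.Agent.GMN.TjDet
import Pool.Agent.GMN.TjPar

/-!
# GMN/TjStep (helper14): the induction step of Lemma T_j

`TJ (S.erase w)` for all `w ∈ S.erase δ` and `SMI S` give `TJ S`.
-/

set_option autoImplicit false
set_option linter.unusedSectionVars false

namespace Pool.Agent.GMN

open Finset Pool.Agent.PWZ Pool.Agent.M3 Pool.Agent.M3.TS Pool.Agent.GM

noncomputable section

variable {ι Om Ξ Pt V Γ κ : Type} [Fintype ι] [DecidableEq ι] [Fintype Om] [Fintype Ξ] [Fintype Pt]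
    [Fintype V] (G : Sys ι Om Ξ Pt V Γ κ)

/-! ### means, products, rarity -/

theorem isMean_mn (t : ℕ) (ω : Om) : IsMean (mn G t (G.gm t ω)) where
  add f g := by
    unfold mn
    rw [← Finset.sum_add_distrib]
    exact Finset.sum_congr rfl fun d _ => mul_add _ _ _
  smul c f := by
    unfold mn
    rw [Finset.mul_sum]
    exact Finset.sum_congr rfl fun d _ => by ring
  mono f g h := Finset.sum_le_sum fun d _ => mul_le_mul_of_nonneg_left (h d) ((G.wt _ _).nn d)
  one := by
    unfold mn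
    simp only [mul_one]
    exact G.one t ω

/-- product of numbered functions -/
theorem NF.mul {i : ι} {f g : Fn ι Pt V Γ} (hf : NF G i f) (hg : NF G i g) :
    NF G i (fun t γ x d => f t γ x d * g t γ x d) where
  dep t γ := fun x y h => by
    funext d
    show f t γ x d * g t γ x d = f t γ y d * g t γ y d
    rw [hf.dep t γ x y h, hg.dep t γ x y h]
  bd t γ x d := by
    rw [abs_mul]
    exact mul_le_one₀ (hf.bd t γ x d) (abs_nonneg _) (hg.bd t γ x d)
  zero γ x d := by rw [hf.zero, zero_mul]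
  intro t ω := by
    rcases hf.intro t ω with h1 | h1
    · rcases hg.intro t ω with h2 | h2
      · left
        funext d
        show val0 G f (t + 1) ω d * val0 G g (t + 1) ω d = val0 G f t ω d * val0 G g t ω d
        rw [h1, h2]
      · right
        funext d
        show val0 G f t ω d * val0 G g t ω d = 0
        rw [h2]
        exact mul_zero _
    · right
      funext d
      show val0 G f t ω d * val0 G g t ω d = 0
      rw [h1]
      exact zero_mul _

theorem Rare.mono {S : Finset ι} {w : ι} {Z : FnX ι Ξ Pt V Γ} {θ θ' r r' : ℝ} (h : Rare G S w Z θ r) (hθ : θ ≤ θ')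
    (hr : r ≤ r') : Rare G S w Z θ' r' := by
  intro t ht ω x0 u hu
  refine le_trans (Finset.sum_le_sum fun ξ _ => Finset.sum_le_sum fun x _ => ind_mono fun h' => ⟨h'.1, hr.trans h'.2⟩)
    ((h t ht ω x0 u hu).trans (mul_le_mul_of_nonneg_right hθ ?_))
  exact Finset.sum_nonneg fun _ _ => Finset.sum_nonneg fun _ _ => ind_nonneg _

/-- rarity after division by `Y ≥ 1` -/
theorem Rare.div {S : Finset ι} {w : ι} {Z : FnX ι Ξ Pt V Γ} {θ r Y : ℝ} (h : Rare G S w Z θ r) (hY : 1 ≤ Y)
    (hr : 0 ≤ r) : Rare G S w (fun t g ξ x d => Z t g ξ x d / Y) θ r := by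
  intro t ht ω x0 u hu
  refine le_trans (Finset.sum_le_sum fun ξ _ => Finset.sum_le_sum fun x _ => ind_mono fun h' => ⟨h'.1, ?_⟩)
    (h t ht ω x0 u hu)
  have hY0 : (0 : ℝ) < Y := by linarith
  have e : mn G t (G.gm t ω) (fun d => Z t (G.gm t ω) ξ x d / Y * tpr S w u x d) =
      mn G t (G.gm t ω) (fun d => Z t (G.gm t ω) ξ x d * tpr S w u x d) / Y := by
    unfold mn
    rw [Finset.sum_div]
    exact Finset.sum_congr rfl fun d _ => by ring
  have h1 := h'.2
  rw [e, abs_div, abs_of_pos hY0, le_div_iff₀ hY0] at h1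
  nlinarith

/-- moves of a product -/
theorem MV.mul {w : ι} {Z : FnX ι Ξ Pt V Γ} {f : Fn ι Pt V Γ} {m : ℝ} (hZ : MV G w Z m) (hf : NF G w f) :
    MV G w (fun t g ξ x d => Z t g ξ x d * f t g x d) (m + 1) := by
  intro t0 ht0 φ hφ hφ0
  have h1 := hZ t0 ht0 φ hφ hφ0
  have h2 : ∀ ω, φ ω * ∑ t ∈ Ico t0 G.n, ind (val G (fun t g ξ x d => Z t g ξ x d * f t g x d) (t + 1) ω ≠
      val G (fun t g ξ x d => Z t g ξ x d * f t g x d) t ω) ≤
      φ ω * ∑ t ∈ Ico t0 G.n, ind (val G Z (t + 1) ω ≠ val G Z t ω) + φ ω * 1 := by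
    intro ω
    rw [← mul_add]
    refine mul_le_mul_of_nonneg_left ?_ (hφ0 ω)
    refine le_trans ?_ (add_le_add le_rfl (hf.moves G ω t0 G.n))
    rw [← Finset.sum_add_distrib]
    refine Finset.sum_le_sum fun t _ => ?_
    by_cases h3 : val G Z (t + 1) ω ≠ val G Z t ω
    · rw [ind_of h3]
      have := ind_nonneg (val0 G f (t + 1) ω ≠ val0 G f t ω)
      have := ind_le_one (val G (fun t g ξ x d => Z t g ξ x d * f t g x d) (t + 1) ω ≠
        val G (fun t g ξ x d => Z t g ξ x d * f t g x d) t ω)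
      linarith
    · rw [ind_not h3, zero_add]
      refine ind_mono fun h4 h5 => h4 ?_
      rw [not_not] at h3
      funext d
      show val G Z (t + 1) ω d * val0 G f (t + 1) ω d = val G Z t ω d * val0 G f t ω d
      rw [h3, h5]
  refine (G.P.E_mono fun ω _ => h2 ω).trans ?_
  rw [G.P.E_add]
  simp only [mul_one]
  rw [add_mul, one_mul]
  exact add_le_add h1 le_rfl

theorem MV.mono {w : ι} {Z : FnX ι Ξ Pt V Γ} {m m' : ℝ} (hZ : MV G w Z m) (h : m ≤ m') : MV G w Z m' :=
  fun t0 ht0 φ hφ hφ0 => (hZ t0 ht0 φ hφ hφ0).trans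
    (mul_le_mul_of_nonneg_right h (G.P.E_nonneg fun ω _ => hφ0 ω))

/-- moves after division by a constant -/
theorem MV.div {w : ι} {Z : FnX ι Ξ Pt V Γ} {m : ℝ} (hZ : MV G w Z m) (Y : ℝ) :
    MV G w (fun t g ξ x d => Z t g ξ x d / Y) m := by
  intro t0 ht0 φ hφ hφ0
  have h1 := hZ t0 ht0 φ hφ hφ0
  have h2 : ∀ ω, φ ω * ∑ t ∈ Ico t0 G.n, ind (val G (fun t g ξ x d => Z t g ξ x d / Y) (t + 1) ω ≠
      val G (fun t g ξ x d => Z t g ξ x d / Y) t ω) ≤
      φ ω * ∑ t ∈ Ico t0 G.n, ind (val G Z (t + 1) ω ≠ val G Z t ω) := by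
    intro ω
    refine mul_le_mul_of_nonneg_left (Finset.sum_le_sum fun t _ => ind_mono fun h h' => h ?_) (hφ0 ω)
    funext d
    show val G Z (t + 1) ω d / Y = val G Z t ω d / Y
    rw [h']
  exact (G.P.E_mono fun ω _ => h2 ω).trans h1

/-! ### numbers -/

theorem prod_pos_le {Y : ℕ → ℝ} (Y1 : ∀ i, 1 ≤ Y i) {pos : ι → ℕ} (hpos : Function.Injective pos)
    (s : Finset ι) (t : Finset ℕ) (hst : ∀ i ∈ s, pos i ∈ t) : ∏ i ∈ s, Y (pos i) ≤ ∏ j ∈ t, Y j := by
  classical
  rw [← Finset.prod_image (f := Y) (g := pos) (fun a _ b _ h => hpos h)]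
  refine Finset.prod_le_prod_of_subset_of_one_le ?_ (fun i _ => by linarith [Y1 i]) fun i _ _ => Y1 i
  intro j hj
  obtain ⟨i, hi, rfl⟩ := mem_image.1 hj
  exact hst i hi

theorem sum_map_abc {α : Type} (l : List α) (f : α → ℝ) (a b c : ℝ) :
    (l.map fun q => a * f q * b * c).sum = a * (l.map f).sum * b * c := by
  induction l with
  | nil => simp
  | cons q l ih =>
    simp only [List.map_cons, List.sum_cons]
    rw [ih]
    ring

/-! ### the step -/

/-- classes of the step -/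
def clsOf {Kt Z : Type} {N : ℕ} {w δ : ι} (U : Z → ι → ℕ → Fn ι Pt V Γ) (c : Cls ι Pt V Γ (Kt × Z × Fin N)) :
    Cls ι Pt V Γ Kt where
  S := c.S
  k := c.k.1
  m i := if i = w then U c.k.2.1 δ c.k.2.2 else c.m i

theorem clsOf_mu {Kt Z : Type} {N : ℕ} {w δ : ι} {S : Finset ι} (hw : w ∈ S) (U : Z → ι → ℕ → Fn ι Pt V Γ)
    (v : Kt → Fn ι Pt V Γ) (c : Cls ι Pt V Γ (Kt × Z × Fin N)) (hc : c.S ⊆ S.erase w) :
    (clsOf (w := w) (δ := δ) U c).mu S v =
      c.mu (S.erase w) (fun k t g x d => v k.1 t g x d * U k.2.1 δ k.2.2 t g x d) := by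
  funext t g x d
  have h1 : S \ c.S = insert w (S.erase w \ c.S) := by
    ext i
    simp only [mem_sdiff, mem_insert, mem_erase]
    constructor
    · rintro ⟨h2, h3⟩
      by_cases h4 : i = w
      · exact Or.inl h4
      · exact Or.inr ⟨⟨h4, h2⟩, h3⟩
    · rintro (rfl | ⟨⟨_, h2⟩, h3⟩)
      · exact ⟨hw, fun h => (ne_of_mem_erase (hc h)) rfl⟩
      · exact ⟨h2, h3⟩
  have h2 : w ∉ S.erase w \ c.S := fun h => (ne_of_mem_erase (mem_sdiff.1 h).1) rfl
  unfold Cls.mu
  show v c.k.1 t g x d * ∏ i ∈ S \ c.S, (if i = w then U c.k.2.1 δ c.k.2.2 else c.m i) t g x d = _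
  rw [h1, Finset.prod_insert h2, if_pos rfl, ← mul_assoc]
  congr 1
  refine Finset.prod_congr rfl fun i hi => ?_
  have h3 : i ≠ w := fun h => by
    subst h
    exact h2 hi
  rw [if_neg h3]

theorem tj_step {S : Finset ι} {δ : ι} (hδ : δ ∈ S) (hS : S ≠ {δ}) {C0 C1 C : ℕ} (hSMI : SMI G S δ C0)
    (hTJ : ∀ w ∈ S.erase δ, TJ G (S.erase w) δ C1)
    (hnum : ∀ β H : ℝ, 0 < β → β ≤ 1 / 2 → 1 / β ≤ H → G.K ≤ Real.exp H → ∃ (βs Hs β1 H1 e θ X : ℝ) (N : ℕ) (Y : ℕ → ℝ),
      SNumA C0 C1 C β H G.K βs Hs β1 H1 e θ ∧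
        SNumB (Fintype.card ι) C1 C β H G.K Hs β1 H1 e θ X βs N Y) : TJ G S δ C := by
  classical
  intro β H hβ hβ2 hβH hKH hnear Kt Z _ _ v Φ hcK hcZ hv hΦ
  obtain ⟨βs, Hs, β1, H1, e, θ, X, N, Y, hA, hB⟩ := hnum β H hβ hβ2 hβH hKH
  set m := Fintype.card ι with hm
  set U0 : Finset ι := S.erase δ with hU0
  set pos : ι → ℕ := fun i => (Fintype.equivFin ι i : ℕ) with hpos
  have hposinj : Function.Injective pos := fun a b h => (Fintype.equivFin ι).injective (Fin.ext h)
  have hposlt : ∀ i, pos i < m := fun i => (Fintype.equivFin ι i).isLt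
  have hmem : ∀ w ∈ U0, w ∈ S := fun w hw => mem_of_mem_erase hw
  have hne : ∀ w ∈ U0, w ≠ δ := fun w hw => ne_of_mem_erase hw
  have hδw : ∀ w ∈ U0, δ ∈ S.erase w := fun w hw => mem_erase.2 ⟨(hne w hw).symm, hδ⟩
  -- faces
  have hface : ∀ w ∈ U0, ∀ z, ∃ (R : Fn ι Pt V Γ) (U : ι → ℕ → Fn ι Pt V Γ) (Bad : Om → Prop),
      FaceD G S w (Φ w z) R U Bad (Y (pos w)) e θ N := fun w hw z =>
    face_data G (hmem w hw) ⟨δ, hδw w hw⟩ (hΦ w hw z) (hB.Y1 _) hA.e0 hA.e1 hA.th0 hB.N0
  choose! R U Bad hF using hface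
  have hYpos : ∀ i, 0 < Y i := fun i => by linarith [hB.Y1 i]
  -- the clipped residuals
  set Rt : ι → Z → Fn ι Pt V Γ := fun w z t g x d => clip (Y (pos w)) (R w z t g x d) with hRt
  have hRtY : ∀ w z t g x d, |Rt w z t g x d| ≤ Y (pos w) := fun w z t g x d => abs_clip_le (hYpos _).le _
  -- the families of the subsystems
  set Z' : Type := Z × Fin N × Z × Fin N with hZ'
  set Φ' : ι → ι → Z' → Fn ι Pt V Γ := fun w w' z' t g x d =>
    (if pos w' < pos w then Vr G (Rt w' z'.1) (Y (pos w')) z'.2.1 t g x d else Φ w' z'.1 t g x d) *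
      U w z'.2.2.1 w' z'.2.2.2 t g x d with hΦ'
  set Kt' : Type := Kt × Z × Fin N with hKt'
  set v' : ι → Kt' → Fn ι Pt V Γ := fun w k t g x d => v k.1 t g x d * U w k.2.1 δ k.2.2 t g x d with hv'
  have hNFΦ' : ∀ w ∈ U0, ∀ w' ∈ (S.erase w).erase δ, ∀ z', NF G w' (Φ' w w' z') := by
    intro w hw w' hw' z'
    have h1 : w' ∈ S.erase w := mem_of_mem_erase hw'
    have h2 : w' ∈ U0 := mem_erase.2 ⟨ne_of_mem_erase hw', mem_of_mem_erase h1⟩
    refine NF.mul G (f := fun t g x d => if pos w' < pos w then Vr G (Rt w' z'.1) (Y (pos w')) z'.2.1 t g x d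
      else Φ w' z'.1 t g x d) ?_ ((hF w hw z'.2.2.1).nf w' h1 _)
    by_cases h3 : pos w' < pos w
    · simp only [if_pos h3]
      exact NF_Vr G _ _ (hYpos _) (hF w' h2 z'.1).dep (hRtY w' z'.1) _
    · simp only [if_neg h3]
      exact hΦ w' h2 z'.1
  have hNFv' : ∀ w ∈ U0, ∀ k, NF G δ (v' w k) := fun w hw k =>
    NF.mul G (hv k.1) ((hF w hw k.2.1).nf δ (hδw w hw) _)
  -- the classes of the subsystems
  have hcZ' : (Fintype.card Z' : ℝ) ≤ Real.exp H1 := by
    have h1 : (Fintype.card (Z × Fin N × Z × Fin N) : ℝ) = Fintype.card Z * N * Fintype.card Z * N := by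
      rw [Fintype.card_prod, Fintype.card_prod, Fintype.card_prod, Fintype.card_fin]
      push_cast
      ring
    rw [h1]
    refine le_trans ?_ hB.cZ
    gcongr
  have hcK' : (Fintype.card Kt' : ℝ) ≤ Real.exp H1 := by
    have h1 : (Fintype.card (Kt × Z × Fin N) : ℝ) = Fintype.card Kt * Fintype.card Z * N := by
      rw [Fintype.card_prod, Fintype.card_prod, Fintype.card_fin]
      push_cast
      ring
    rw [h1]
    refine le_trans ?_ hB.cK
    gcongr
  have hsub : ∀ w : {w // w ∈ U0}, ∃ (Cl : Type) (_ : Fintype Cl) (cs : Cl → Cls ι Pt V Γ Kt'),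
      (Fintype.card Cl : ℝ) ≤ Real.exp (H1 ^ C1) ∧ (∀ c, (cs c).Ok G (S.erase w.1) δ) ∧
      ∀ E : Kt' → FnX ι Ξ Pt V Γ, (∀ k t g ξ, Dep (univ.erase δ) (E k t g ξ)) →
        (∀ k t g ξ x d, |E k t g ξ x d| ≤ 1) → (∀ k g ξ x d, E k 0 g ξ x d = 0) → (∀ k, MV G δ (E k) H1) →
        Pass G (S.erase w.1) δ (v' w.1) cs (Real.exp (-H1 ^ C1)) (β1 ^ C1) E →
        G.P.Pr (fun ω => ∃ t ≤ G.n, ∃ (k : Kt') (z : ι → Z'),
          β1 ≤ |mn G t (G.gm t ω) (fun d => (∏ w' ∈ (S.erase w.1).erase δ, val0 G (Φ' w.1 w' (z w')) t ω d) *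
            (val G (E k) t ω d * val0 G (v' w.1 k) t ω d))|) ≤ Real.exp (-H1) := by
    intro w
    exact hTJ w.1 w.2 β1 H1 hA.b10 hA.b12 hA.b1H hA.KH1 (hnear.trans hA.C1') Kt' Z' inferInstance inferInstance
      (v' w.1) (Φ' w.1) hcK' hcZ' (hNFv' w.1 w.2) (hNFΦ' w.1 w.2)
  choose Cl hCl cs hcs1 hcs2 hcs3 using hsub
  refine ⟨Kt ⊕ (Σ w : {w // w ∈ U0}, Cl w), inferInstance, fun c => match c with
    | Sum.inl k => ⟨S, k, fun _ _ _ _ _ => 0⟩
    | Sum.inr p => clsOf (w := p.1.1) (δ := δ) (U p.1.1) (cs p.1 p.2), ?_, ?_, ?_⟩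
  · -- number of classes
    rw [Fintype.card_sum, Fintype.card_sigma]
    push_cast
    refine le_trans (add_le_add hcK ?_) hB.cC
    refine (Finset.sum_le_sum fun w _ => hcs1 w).trans ?_
    rw [Finset.sum_const, nsmul_eq_mul]
    refine mul_le_mul_of_nonneg_right ?_ (Real.exp_pos _).le
    have h1 : (univ : Finset {w // w ∈ U0}).card ≤ m := by
      rw [Finset.card_univ, Fintype.card_coe]
      exact Finset.card_le_univ U0
    exact_mod_cast h1
  · -- admissible
    rintro (k | ⟨w, c⟩)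
    · refine ⟨Finset.Subset.refl _, hδ, fun i hi => absurd hi (by simp), fun i hi => absurd hi (by simp)⟩
    · have h1 := hcs2 w c
      refine ⟨fun i hi => mem_of_mem_erase (h1.sub hi), h1.mem, fun i hi => ?_, fun i hi t g => ?_⟩
      · show NF G δ (if i = w.1 then U w.1 (cs w c).k.2.1 δ (cs w c).k.2.2 else (cs w c).m i)
        split_ifs with h2
        · exact (hF w.1 w.2 _).nf δ (hδw w.1 w.2) _
        · exact h1.nf i (mem_sdiff.2 ⟨mem_erase.2 ⟨h2, (mem_sdiff.1 hi).1⟩, (mem_sdiff.1 hi).2⟩)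
      · show DepC G t ((univ.erase δ).erase i) {i}
          ((if i = w.1 then U w.1 (cs w c).k.2.1 δ (cs w c).k.2.2 else (cs w c).m i) t g)
        split_ifs with h2
        · rw [h2]
          exact (hF w.1 w.2 _).depC δ (hδw w.1 w.2) _ t g
        · exact h1.dep i (mem_sdiff.2 ⟨mem_erase.2 ⟨h2, (mem_sdiff.1 hi).1⟩, (mem_sdiff.1 hi).2⟩) t g
  · -- the error
    intro E hEdep hEbd hE0 hEmv hpass
    have hm0 : 0 < m := Fintype.card_pos_iff.2 ⟨δ⟩
    have hm0' : (0 : ℝ) < m := by exact_mod_cast hm0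
    have hN0 : (0 : ℝ) < N := by exact_mod_cast hB.N0
    have hK1 := G.K1
    -- the error events of the subsystems
    set Ev : {w // w ∈ U0} → Om → Prop := fun w ω => ∃ t ≤ G.n, ∃ (k : Kt') (z : ι → Z'),
      β1 ≤ |mn G t (G.gm t ω) (fun d => (∏ w' ∈ (S.erase w.1).erase δ, val0 G (Φ' w.1 w' (z w')) t ω d) *
        (val G (E k.1) t ω d * val0 G (v' w.1 k) t ω d))| with hEv
    have hB3 : ∀ w, G.P.Pr (Ev w) ≤ Real.exp (-H1) := by
      intro w
      refine hcs3 w (fun k => E k.1) (fun k => hEdep k.1) (fun k => hEbd k.1) (fun k => hE0 k.1)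
        (fun k => (hEmv k.1).mono G hA.HH1) ⟨fun c hc t ht ω => ?_, fun c hc => ?_⟩
      · have h1 := hpass.P1 (Sum.inr ⟨w, c⟩) hc t ht ω
        have h2 := clsOf_mu (w := w.1) (δ := δ) (hmem w.1 w.2) (U w.1) v (cs w c) (hcs2 w c).sub
        have h3 : (clsOf (w := w.1) (δ := δ) (U w.1) (cs w c)).mu S v = (cs w c).mu (S.erase w.1) (v' w.1) := h2
        rw [← h3]
        exact h1.trans hA.C1'
      · have h1 := hpass.P2 (Sum.inr ⟨w, c⟩) hc
        have h2 := clsOf_mu (w := w.1) (δ := δ) (hmem w.1 w.2) (U w.1) v (cs w c) (hcs2 w c).sub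
        have h3 : (clsOf (w := w.1) (δ := δ) (U w.1) (cs w c)).mu S v = (cs w c).mu (S.erase w.1) (v' w.1) := h2
        rw [← h3]
        exact Rare.mono G h1 hA.eH1 hA.C1'
    -- the error events of the last term
    set Ψ : Kt → (ι → Z) → ι → FnX ι Ξ Pt V Γ := fun k z w => if w = δ then
      (fun t g ξ x d => E k t g ξ x d * v k t g x d) else
      (fun t g _ x d => Rt w (z w) t g x d / Y (pos w)) with hΨ
    have hΨδ : ∀ k z, Ψ k z δ = fun t g ξ x d => E k t g ξ x d * v k t g x d := fun k z => if_pos rfl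
    have hΨw : ∀ k z w, w ≠ δ → Ψ k z w = fun t g _ x d => Rt w (z w) t g x d / Y (pos w) :=
      fun k z w hw => if_neg hw
    set Es : Kt → (ι → Z) → Om → Prop := fun k z ω => ∃ t ≤ G.n,
      βs ≤ |mn G t (G.gm t ω) (fun d => ∏ w ∈ S, val G (Ψ k z w) t ω d)| with hEs
    have hB4 : ∀ k z, G.P.Pr (Es k z) ≤ Real.exp (-Hs) := by
      intro k z
      refine hSMI βs Hs hA.bs0 hA.bs2 hA.bsH hA.KHs (hnear.trans hA.Cs) (Ψ k z) ?_ ?_ ?_ ?_ ?_ ?_
      · intro w hw t g ξ x y hxy
        by_cases hwδ : w = δ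
        · subst hwδ
          rw [hΨδ]
          funext d
          show E k t g ξ x d * v k t g x d = E k t g ξ y d * v k t g y d
          rw [hEdep k t g ξ x y hxy, (hv k).dep t g x y hxy]
        · rw [hΨw k z w hwδ]
          funext d
          show Rt w (z w) t g x d / Y (pos w) = Rt w (z w) t g y d / Y (pos w)
          have h1 := congrFun ((hF w (mem_erase.2 ⟨hwδ, hw⟩) (z w)).dep t g x y hxy) d
          have h2 : Rt w (z w) t g x d = Rt w (z w) t g y d := h1
          rw [h2]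
      · intro w hw hwδ t g ξ ξ'
        rw [hΨw k z w hwδ]
      · intro w hw t g ξ x d
        by_cases hwδ : w = δ
        · subst hwδ
          rw [hΨδ]
          show |E k t g ξ x d * v k t g x d| ≤ 1
          rw [abs_mul]
          exact mul_le_one₀ (hEbd k t g ξ x d) (abs_nonneg _) ((hv k).bd t g x d)
        · rw [hΨw k z w hwδ]
          show |Rt w (z w) t g x d / Y (pos w)| ≤ 1
          rw [abs_div, abs_of_pos (hYpos _), div_le_one (hYpos _)]
          exact hRtY _ _ _ _ _ _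
      · intro w hw g ξ x d
        by_cases hwδ : w = δ
        · subst hwδ
          rw [hΨδ]
          show E k 0 g ξ x d * v k 0 g x d = 0
          rw [hE0, zero_mul]
        · rw [hΨw k z w hwδ]
          show Rt w (z w) 0 g x d / Y (pos w) = 0
          have h1 : Rt w (z w) 0 g x d = 0 := (hF w (mem_erase.2 ⟨hwδ, hw⟩) (z w)).zero g x d
          rw [h1, zero_div]
      · intro w hw
        by_cases hwδ : w = δ
        · subst hwδ
          rw [hΨδ]
          exact ((hEmv k).mul G (hv k)).mono G hA.mv2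
        · rw [hΨw k z w hwδ]
          exact (MV.div G (hF w (mem_erase.2 ⟨hwδ, hw⟩) (z w)).mv (Y (pos w))).mono G hA.mv1
      · intro w hw
        by_cases hwδ : w = δ
        · subst hwδ
          rw [hΨδ]
          have h1 := hpass.P2 (Sum.inl k) hS
          have h2 : (⟨S, k, fun _ _ _ _ _ => 0⟩ : Cls ι Pt V Γ Kt).mu S v = v k := by
            funext t g x d
            unfold Cls.mu
            simp
          have h3 : Rare G S w (fun t g ξ x d => E k t g ξ x d *
              (⟨S, k, fun _ _ _ _ _ => 0⟩ : Cls ι Pt V Γ Kt).mu S v t g x d) (Real.exp (-H ^ C)) (β ^ C) := h1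
          rw [h2] at h3
          exact Rare.mono G h3 hA.eH hA.Cs
        · rw [hΨw k z w hwδ]
          have h1 := (hF w (mem_erase.2 ⟨hwδ, hw⟩) (z w)).rare
          have h2 := Rare.div G h1 (hB.Y1 (pos w)) hA.e0.le
          exact Rare.mono G h2 hA.th2 (le_of_eq hA.es)
    -- probabilities
    have hcZm : (Fintype.card (ι → Z) : ℝ) ≤ Real.exp H ^ m := by
      rw [Fintype.card_fun]
      push_cast
      exact pow_le_pow_left₀ (Nat.cast_nonneg _) hcZ _
    have hUm : (U0.card : ℝ) ≤ m := by exact_mod_cast Finset.card_le_univ U0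
    have hP1 : G.P.Pr (fun ω => ∃ w ∈ U0, ∃ z ∈ (univ : Finset Z), Bad w z ω) ≤ Real.exp (-H) / 4 := by
      refine (G.P.Pr_ex_le U0 _).trans (le_trans ?_ hB.p1)
      have h1 : ∀ w ∈ U0, G.P.Pr (fun ω => ∃ z ∈ (univ : Finset Z), Bad w z ω) ≤
          Real.exp H * (m * (G.K * (100 / (e ^ 2 * θ))) / N) := by
        intro w hw
        refine (G.P.Pr_ex_le univ _).trans ?_
        refine (Finset.sum_le_sum fun z _ => (hF w hw z).bad).trans ?_
        rw [Finset.sum_const, nsmul_eq_mul, Finset.card_univ]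
        have := hA.e0
        have := hA.th0
        gcongr
      refine (Finset.sum_le_sum h1).trans ?_
      rw [Finset.sum_const, nsmul_eq_mul, mul_assoc (m : ℝ)]
      have := hA.e0
      have := hA.th0
      gcongr
    have hP2 : G.P.Pr (fun ω => ∃ w ∈ U0, ∃ z ∈ (univ : Finset Z),
        (N : ℝ) ≤ (mvc G (Rt w z) G.n (G.gm G.n ω) (G.x ω) : ℝ)) ≤ Real.exp (-H) / 4 := by
      refine (G.P.Pr_ex_le U0 _).trans (le_trans ?_ hB.p2)
      have h1 : ∀ w ∈ U0, G.P.Pr (fun ω => ∃ z ∈ (univ : Finset Z),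
          (N : ℝ) ≤ (mvc G (Rt w z) G.n (G.gm G.n ω) (G.x ω) : ℝ)) ≤
          Real.exp H * ((100 / e ^ 2 + 1) / N) := by
        intro w hw
        refine (G.P.Pr_ex_le univ _).trans ?_
        refine (Finset.sum_le_sum fun z _ => mvc_tail G (Rt w z) (hF w hw z).mv hN0).trans ?_
        rw [Finset.sum_const, nsmul_eq_mul, Finset.card_univ]
        have := hA.e0
        gcongr
      refine (Finset.sum_le_sum h1).trans ?_
      rw [Finset.sum_const, nsmul_eq_mul, mul_assoc (m : ℝ)]
      have := hA.e0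
      gcongr
    have hP3 : G.P.Pr (fun ω => ∃ w ∈ (univ : Finset {w // w ∈ U0}), Ev w ω) ≤ Real.exp (-H) / 4 := by
      refine (G.P.Pr_ex_le univ _).trans (le_trans ?_ hB.p3)
      refine (Finset.sum_le_sum fun w _ => hB3 w).trans ?_
      rw [Finset.sum_const, nsmul_eq_mul, Finset.card_univ, Fintype.card_coe]
      exact mul_le_mul_of_nonneg_right hUm (Real.exp_pos _).le
    have hP4 : G.P.Pr (fun ω => ∃ k ∈ (univ : Finset Kt), ∃ z ∈ (univ : Finset (ι → Z)), Es k z ω) ≤
        Real.exp (-H) / 4 := by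
      refine (G.P.Pr_ex_le univ _).trans (le_trans ?_ hB.p4)
      have h1 : ∀ k ∈ (univ : Finset Kt), G.P.Pr (fun ω => ∃ z ∈ (univ : Finset (ι → Z)), Es k z ω) ≤
          Real.exp H ^ m * Real.exp (-Hs) := by
        intro k _
        refine (G.P.Pr_ex_le univ _).trans ?_
        refine (Finset.sum_le_sum fun z _ => hB4 k z).trans ?_
        rw [Finset.sum_const, nsmul_eq_mul, Finset.card_univ]
        exact mul_le_mul_of_nonneg_right hcZm (Real.exp_pos _).le
      refine (Finset.sum_le_sum h1).trans ?_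
      rw [Finset.sum_const, nsmul_eq_mul, Finset.card_univ, mul_assoc (Real.exp H)]
      exact mul_le_mul_of_nonneg_right hcK (by positivity)
    refine le_trans (le_trans (G.P.Pr_mono ?_) ((G.P.Pr_or_le _ _).trans (add_le_add ((G.P.Pr_or_le _ _).trans
      (add_le_add hP1 hP2)) ((G.P.Pr_or_le _ _).trans (add_le_add hP3 hP4))))) (by linarith)
    rintro ω _ ⟨t, ht, k, z, hbig⟩
    by_contra hcon
    simp only [not_or] at hcon
    obtain ⟨⟨hn1, hn2⟩, hn3, hn4⟩ := hcon
    have hYX : ∀ s : Finset ι, ∏ i ∈ s, Y (pos i) ≤ X := fun s =>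
      (prod_pos_le hB.Y1 hposinj s (s.image pos) fun i hi => mem_image_of_mem pos hi).trans
        (hB.YX _ fun i hi => by
          obtain ⟨j, _, rfl⟩ := mem_image.1 hi
          exact hposlt j)
    -- deterministic estimate
    have hdet := det_est (isMean_mn G t ω) pos hposinj U0 (fun w d => val0 G (Φ w (z w)) t ω d)
      (fun w d => val0 G (R w (z w)) t ω d) (fun w => Y (pos w))
      (fun d => val G (E k) t ω d * val0 G (v k) t ω d) (fun w => hB.Y1 _)
      (fun w hw d => (hΦ w hw (z w)).bd _ _ _ _) (fun d => by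
        rw [abs_mul]
        exact mul_le_one₀ (hEbd k _ _ _ _ _) (abs_nonneg _) ((hv k).bd _ _ _ _))
      (fun _ => X * (64 / e ^ 2 * (e * β1))) (X * βs) (fun w hw => (hF w hw (z w)).hub t ω) ?_ ?_
    · have h1 : ∑ w ∈ U0, ((∏ w' ∈ U0.filter (fun w' => pos w' < pos w), Y (pos w')) * (4 / Y (pos w)) +
          X * (64 / e ^ 2 * (e * β1))) + X * βs ≤ β / 4 + β / 4 + β / 4 := by
        refine add_le_add ?_ hB.a2
        rw [Finset.sum_add_distrib]
        refine add_le_add ?_ ?_
        · have h2 : ∀ w ∈ U0, (∏ w' ∈ U0.filter (fun w' => pos w' < pos w), Y (pos w')) * (4 / Y (pos w)) ≤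
              β / (4 * m) := by
            intro w hw
            refine le_trans (mul_le_mul_of_nonneg_right (prod_pos_le hB.Y1 hposinj _ (range (pos w)) fun i hi =>
              mem_range.2 (mem_filter.1 hi).2) (by have := hYpos (pos w); positivity)) (hB.Y4 _ (hposlt w))
          refine (Finset.sum_le_sum h2).trans ?_
          rw [Finset.sum_const, nsmul_eq_mul]
          calc (U0.card : ℝ) * (β / (4 * m)) ≤ m * (β / (4 * m)) := by gcongr
            _ = β / 4 := by field_simp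
        · rw [Finset.sum_const, nsmul_eq_mul]
          refine le_trans (mul_le_mul_of_nonneg_right hUm ?_) hB.a1
          have := hB.X0
          have := hA.e0
          have := hA.b10
          positivity
      linarith
    · -- the terms of the lists
      intro w hw
      have hnb : ¬ Bad w (z w) ω := fun h => hn1 ⟨w, hw, z w, mem_univ _, h⟩
      obtain ⟨l, hl1, hl2, hl3⟩ := (hF w hw (z w)).terms ω hnb t ht
      have hnE : ¬ Ev ⟨w, hw⟩ ω := fun h => hn3 ⟨⟨w, hw⟩, mem_univ _, h⟩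
      set Q : ℝ := ∏ w' ∈ U0.filter (fun w' => pos w' < pos w), Y (pos w') with hQ
      have hQX : Q ≤ X := hYX _
      have hQ0 : 0 ≤ Q := Finset.prod_nonneg fun w' _ => (hYpos _).le
      set fN : ℕ → Fin N := fun q => ⟨q % N, Nat.mod_lt _ hB.N0⟩ with hfN
      have hfN' : ∀ q < N, (fN q : ℕ) = q := fun q hq => Nat.mod_eq_of_lt hq
      set D : Finset ι := (S.erase w).erase δ with hD
      have hD1 : ∀ i, i ∈ D ↔ i ∈ U0 ∧ i ≠ w := by
        intro i
        rw [hD, hU0, mem_erase, mem_erase, mem_erase]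
        tauto
      have hF1 : D.filter (fun w' => pos w' < pos w) = U0.filter (fun w' => pos w' < pos w) := by
        ext i
        rw [mem_filter, mem_filter, hD1]
        constructor
        · exact fun h => ⟨h.1.1, h.2⟩
        · exact fun h => ⟨⟨h.1, fun h' => by rw [h'] at h; exact lt_irrefl _ h.2⟩, h.2⟩
      have hF2 : D.filter (fun w' => ¬ pos w' < pos w) = U0.filter (fun w' => pos w < pos w') := by
        ext i
        rw [mem_filter, mem_filter, hD1]
        constructor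
        · rintro ⟨⟨h1, h2⟩, h3⟩
          exact ⟨h1, lt_of_le_of_ne (not_lt.1 h3) fun h => h2 (hposinj h.symm)⟩
        · rintro ⟨h1, h2⟩
          exact ⟨⟨h1, fun h' => by rw [h'] at h2; exact lt_irrefl _ h2⟩, not_lt.2 h2.le⟩
      have hq : ∀ q ∈ l, |mn G t (G.gm t ω) (fun d => (∏ w' ∈ U0.filter (fun w' => pos w' < pos w),
          clip (Y (pos w')) (val0 G (R w' (z w')) t ω d)) * (∏ i ∈ S.erase w, val0 G (U w (z w) i (q i)) t ω d) *
          (∏ w' ∈ U0.filter (fun w' => pos w < pos w'), val0 G (Φ w' (z w')) t ω d) *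
          (val G (E k) t ω d * val0 G (v k) t ω d))| ≤ X * β1 := by
        intro q hql
        set z' : ι → Z' := fun w' => (z w', fN (mvc G (Rt w' (z w')) t (G.gm t ω) (G.x ω)), z w, fN (q w'))
          with hz'
        set k' : Kt' := (k, z w, fN (q δ)) with hk'
        have e1 : (fun d => (∏ w' ∈ U0.filter (fun w' => pos w' < pos w),
            clip (Y (pos w')) (val0 G (R w' (z w')) t ω d)) * (∏ i ∈ S.erase w, val0 G (U w (z w) i (q i)) t ω d) *
            (∏ w' ∈ U0.filter (fun w' => pos w < pos w'), val0 G (Φ w' (z w')) t ω d) *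
            (val G (E k) t ω d * val0 G (v k) t ω d)) = fun d => Q *
            ((∏ w' ∈ D, val0 G (Φ' w w' (z' w')) t ω d) * (val G (E k'.1) t ω d * val0 G (v' w k') t ω d)) := by
          funext d
          have e2 : ∏ w' ∈ U0.filter (fun w' => pos w' < pos w), clip (Y (pos w')) (val0 G (R w' (z w')) t ω d) =
              Q * ∏ w' ∈ U0.filter (fun w' => pos w' < pos w), Vr G (Rt w' (z w')) (Y (pos w'))
                (mvc G (Rt w' (z w')) t (G.gm t ω) (G.x ω)) t (G.gm t ω) (G.x ω) d := by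
            rw [hQ, ← Finset.prod_mul_distrib]
            refine Finset.prod_congr rfl fun w' hw' => ?_
            exact Vr_mvc G (Rt w' (z w')) (Y (pos w')) (hYpos _)
              (fun g x d => (hF w' (mem_filter.1 hw').1 (z w')).zero g x d) t (G.gm t ω) (G.x ω) d
          have e3 : ∏ i ∈ S.erase w, val0 G (U w (z w) i (q i)) t ω d =
              val0 G (U w (z w) δ (q δ)) t ω d * ∏ i ∈ D, val0 G (U w (z w) i (q i)) t ω d :=
            (Finset.mul_prod_erase (S.erase w) (fun i => val0 G (U w (z w) i (q i)) t ω d) (hδw w hw)).symm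
          have e4 : ∏ w' ∈ D, val0 G (Φ' w w' (z' w')) t ω d =
              ((∏ w' ∈ U0.filter (fun w' => pos w' < pos w), Vr G (Rt w' (z w')) (Y (pos w'))
                (mvc G (Rt w' (z w')) t (G.gm t ω) (G.x ω)) t (G.gm t ω) (G.x ω) d) *
              ∏ w' ∈ U0.filter (fun w' => pos w < pos w'), val0 G (Φ w' (z w')) t ω d) *
              ∏ i ∈ D, val0 G (U w (z w) i (q i)) t ω d := by
            rw [← hF1, ← hF2, ← Finset.prod_ite, ← Finset.prod_mul_distrib]
            refine Finset.prod_congr rfl fun w' hw' => ?_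
            have h1 := (hD1 w').1 hw'
            have h2 : mvc G (Rt w' (z w')) t (G.gm t ω) (G.x ω) < N := by
              by_contra h3
              refine hn2 ⟨w', h1.1, z w', mem_univ _, ?_⟩
              have h4 := mvc_mono G (Rt w' (z w')) ht ω
              exact_mod_cast (not_lt.1 h3).trans h4
            have h3 : q w' < N := hl2 q hql w' (mem_of_mem_erase hw')
            show (if pos w' < pos w then Vr G (Rt w' (z w')) (Y (pos w'))
              (fN (mvc G (Rt w' (z w')) t (G.gm t ω) (G.x ω))) t (G.gm t ω) (G.x ω) d else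
              Φ w' (z w') t (G.gm t ω) (G.x ω) d) * U w (z w) w' (fN (q w')) t (G.gm t ω) (G.x ω) d = _
            rw [hfN' _ h2, hfN' _ h3]
            rfl
          have e5 : val0 G (v' w k') t ω d = val0 G (v k) t ω d * val0 G (U w (z w) δ (q δ)) t ω d := by
            show v k t (G.gm t ω) (G.x ω) d * U w (z w) δ (fN (q δ)) t (G.gm t ω) (G.x ω) d = _
            rw [hfN' _ (hl2 q hql δ (hδw w hw))]
            rfl
          rw [e2, e3, e4, e5]
          ring
        rw [e1, (isMean_mn G t ω).smul, abs_mul, abs_of_nonneg hQ0]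
        have h1 : |mn G t (G.gm t ω) (fun d => (∏ w' ∈ D, val0 G (Φ' w w' (z' w')) t ω d) *
            (val G (E k'.1) t ω d * val0 G (v' w k') t ω d))| ≤ β1 := by
          by_contra h2
          exact hnE ⟨t, ht, k', z', (not_le.1 h2).le⟩
        exact mul_le_mul hQX h1 (abs_nonneg _) hB.X0
      have e6 : (fun d => (∏ w' ∈ U0.filter (fun w' => pos w' < pos w),
          clip (Y (pos w')) (val0 G (R w' (z w')) t ω d)) *
          (val0 G (Φ w (z w)) t ω d - val0 G (R w (z w)) t ω d) *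
          (∏ w' ∈ U0.filter (fun w' => pos w < pos w'), val0 G (Φ w' (z w')) t ω d) *
          (val G (E k) t ω d * val0 G (v k) t ω d)) = fun d => e * (l.map fun q =>
            (∏ w' ∈ U0.filter (fun w' => pos w' < pos w),
          clip (Y (pos w')) (val0 G (R w' (z w')) t ω d)) * (∏ i ∈ S.erase w, val0 G (U w (z w) i (q i)) t ω d) *
          (∏ w' ∈ U0.filter (fun w' => pos w < pos w'), val0 G (Φ w' (z w')) t ω d) *
          (val G (E k) t ω d * val0 G (v k) t ω d)).sum := by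
        funext d
        rw [hl3 d, sum_map_abc]
        ring
      refine le_trans (le_of_eq (congrArg _ (congrArg _ e6))) ?_
      rw [(isMean_mn G t ω).smul, abs_mul, abs_of_pos hA.e0]
      have h7 := mean_list (isMean_mn G t ω) l _ hq
      have he0 := hA.e0
      have hb0 := hA.b10
      have hX0 := hB.X0
      calc _ ≤ e * (l.length * (X * β1)) := mul_le_mul_of_nonneg_left h7 he0.le
        _ ≤ e * (64 / e ^ 2 * (X * β1)) := by gcongr
        _ = _ := by ring
    · -- the last term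
      have hnE : ¬ Es k z ω := fun h => hn4 ⟨k, mem_univ _, z, mem_univ _, h⟩
      set Q : ℝ := ∏ w' ∈ U0, Y (pos w') with hQ
      have hQX : Q ≤ X := hYX _
      have hQ0 : 0 < Q := Finset.prod_pos fun w' _ => hYpos _
      have e1 : (fun d => (∏ w ∈ U0, clip (Y (pos w)) (val0 G (R w (z w)) t ω d)) *
          (val G (E k) t ω d * val0 G (v k) t ω d)) = fun d => Q * ∏ w ∈ S, val G (Ψ k z w) t ω d := by
        funext d
        have e2 : ∏ w ∈ S, val G (Ψ k z w) t ω d = (val G (E k) t ω d * val0 G (v k) t ω d) *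
            ∏ w ∈ U0, clip (Y (pos w)) (val0 G (R w (z w)) t ω d) / Y (pos w) := by
          rw [← Finset.mul_prod_erase S _ hδ]
          have h1 : val G (Ψ k z δ) t ω d = val G (E k) t ω d * val0 G (v k) t ω d := by
            rw [hΨδ]
            rfl
          rw [h1]
          congr 1
          refine Finset.prod_congr rfl fun w hw => ?_
          rw [hΨw k z w (hne w hw)]
          rfl
        rw [e2, Finset.prod_div_distrib, ← hQ]
        field_simp
      refine le_trans (le_of_eq (congrArg _ (congrArg _ e1))) ?_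
      rw [(isMean_mn G t ω).smul, abs_mul, abs_of_pos hQ0]
      have h1 : |mn G t (G.gm t ω) (fun d => ∏ w ∈ S, val G (Ψ k z w) t ω d)| ≤ βs := by
        by_contra h2
        exact hnE ⟨t, ht, (not_le.1 h2).le⟩
      exact mul_le_mul hQX h1 (abs_nonneg _) hB.X0

end

end Pool.Agent.GMN
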