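import Pool.Agent.GMN.Ren

/-!
# GMN/Ver (helper19): VERSIONS of a moving function

`G : Fn ι Pt V Γ` moving function (time, node, vertices), dummy time `0` (`gd G` = zero at time `0`).
* `vc S G t g x` = number of changes along the ancestors of the node; `ver S G v` = the function which `G` had right after its
  `v`-th change, zero before, static afterwards; `ver_vc` : the current version is `gd G`;
* `vNum G M` : the versions divided by `M` as numbered functions, number = `v`; `vLst` : list `{0, .., vc}`;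
  `vCo M Λ v` : coefficient `M` for the current version, `0` otherwise; `vsum` : the sum over the list is `gd G`;
* `vPS l p` : the constant public set `{0, .., p}`.
-/

set_option autoImplicit false
set_option linter.unusedSectionVars false

namespace Pool.Agent.GMN

open Finset Pool.Agent.PWZ Pool.Agent.M3 Pool.Agent.M3.TS Pool.Agent.GM

noncomputable section

variable {ι Om Ξ Pt V Γ κ : Type} [Fintype ι] [DecidableEq ι] [Fintype Om] [Fintype Ξ] [Fintype Pt]
  [Fintype V]

/-- zero at the dummy time -/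
def gd (G : Fn ι Pt V Γ) (t : ℕ) (g : Γ) (x : ι → Pt) : V → ℝ := if t = 0 then 0 else G t g x

theorem gd_zero (G : Fn ι Pt V Γ) (g : Γ) (x : ι → Pt) : gd G 0 g x = 0 := if_pos rfl

theorem gd_pos (G : Fn ι Pt V Γ) {t : ℕ} (ht : 1 ≤ t) (g : Γ) (x : ι → Pt) : gd G t g x = G t g x :=
  if_neg (by omega)

theorem gd_dep {G : Fn ι Pt V Γ} {I : Finset ι} (h : ∀ t g, Dep I (G t g)) (t : ℕ) (g : Γ) : Dep I (gd G t g) :=
  fun x y hxy => by
    unfold gd
    split_ifs
    · rfl
    · exact h t g x y hxy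

theorem abs_gd {G : Fn ι Pt V Γ} {M : ℝ} (hM : 0 ≤ M) (h : ∀ t g x d, |G t g x d| ≤ M) (t : ℕ) (g : Γ) (x : ι → Pt)
    (d : V) : |gd G t g x d| ≤ M := by
  unfold gd
  split_ifs
  · simpa using hM
  · exact h t g x d

variable (S : Sys ι Om Ξ Pt V Γ κ)

open Classical in
/-- number of changes along the ancestors -/
def vc (G : Fn ι Pt V Γ) : ℕ → Γ → (ι → Pt) → ℕ
  | 0, _, _ => 0
  | t + 1, g, x => vc G t (S.par t g) x + if gd G (t + 1) g x = gd G t (S.par t g) x then 0 else 1

open Classical in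
/-- the version `v` -/
def ver (G : Fn ι Pt V Γ) (v : ℕ) : Fn ι Pt V Γ
  | 0, _, _ => 0
  | t + 1, g, x => if v ≤ vc S G t (S.par t g) x then ver G v t (S.par t g) x
      else if v ≤ vc S G (t + 1) g x then G (t + 1) g x else 0

section basic

variable {S} {G : Fn ι Pt V Γ}

theorem vc_succ_eq {t : ℕ} {g : Γ} {x : ι → Pt} (h : gd G (t + 1) g x = gd G t (S.par t g) x) :
    vc S G (t + 1) g x = vc S G t (S.par t g) x := by
  classical
  rw [vc, if_pos h, Nat.add_zero]

theorem vc_succ_ne {t : ℕ} {g : Γ} {x : ι → Pt} (h : ¬ gd G (t + 1) g x = gd G t (S.par t g) x) :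
    vc S G (t + 1) g x = vc S G t (S.par t g) x + 1 := by
  classical
  rw [vc, if_neg h]

theorem vc_mono (t : ℕ) (g : Γ) (x : ι → Pt) : vc S G t (S.par t g) x ≤ vc S G (t + 1) g x := by
  by_cases h : gd G (t + 1) g x = gd G t (S.par t g) x
  · rw [vc_succ_eq h]
  · rw [vc_succ_ne h]
    exact Nat.le_succ _

theorem vc_mono_o (t : ℕ) (w : Om) : vc S G t (S.gm t w) (S.x w) ≤ vc S G (t + 1) (S.gm (t + 1) w) (S.x w) := by
  have h := vc_mono (S := S) (G := G) t (S.gm (t + 1) w) (S.x w)
  rwa [S.par_gm] at h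

theorem vc_le_o {t s : ℕ} (hts : t ≤ s) (w : Om) :
    vc S G t (S.gm t w) (S.x w) ≤ vc S G s (S.gm s w) (S.x w) := by
  induction s, hts using Nat.le_induction with
  | base => exact le_rfl
  | succ s _ ih => exact ih.trans (vc_mono_o s w)

theorem vc_dep {I : Finset ι} (h : ∀ t g, Dep I (G t g)) (t : ℕ) : ∀ g, Dep I (vc S G t g) := by
  classical
  induction t with
  | zero => exact fun g x y _ => rfl
  | succ t ih =>
    intro g x y hxy
    rw [vc, vc, ih _ x y hxy, gd_dep h (t + 1) g x y hxy, gd_dep h t _ x y hxy]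

theorem ver_dep {I : Finset ι} (h : ∀ t g, Dep I (G t g)) (v t : ℕ) : ∀ g, Dep I (ver S G v t g) := by
  classical
  induction t with
  | zero => exact fun g x y _ => rfl
  | succ t ih =>
    intro g x y hxy
    rw [ver, ver, ih _ x y hxy, vc_dep h t _ x y hxy, vc_dep h (t + 1) g x y hxy, h (t + 1) g x y hxy]

theorem abs_ver {M : ℝ} (hM : 0 ≤ M) (h : ∀ t g x d, |G t g x d| ≤ M) (v t : ℕ) : ∀ g x d, |ver S G v t g x d| ≤ M := by
  classical
  induction t with
  | zero =>
    intro g x d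
    show |(0 : ℝ)| ≤ M
    simpa using hM
  | succ t ih =>
    intro g x d
    rw [ver]
    split_ifs
    · exact ih _ x d
    · exact h _ _ _ _
    · simpa using hM

theorem ver_zero_of (v t : ℕ) : ∀ g x, ¬ v ≤ vc S G t g x → ver S G v t g x = 0 := by
  classical
  induction t with
  | zero => exact fun g x _ => rfl
  | succ t ih =>
    intro g x h
    rw [ver, if_neg (fun h1 => h (h1.trans (vc_mono t g x))), if_neg h]

theorem ver_stat {v t : ℕ} {g : Γ} {x : ι → Pt} (h : v ≤ vc S G t (S.par t g) x) :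
    ver S G v (t + 1) g x = ver S G v t (S.par t g) x := by
  classical
  rw [ver, if_pos h]

/-- the current version -/
theorem ver_vc (t : ℕ) : ∀ g x, ver S G (vc S G t g x) t g x = gd G t g x := by
  classical
  induction t with
  | zero =>
    intro g x
    rw [gd_zero]
    rfl
  | succ t ih =>
    intro g x
    by_cases h : gd G (t + 1) g x = gd G t (S.par t g) x
    · rw [ver_stat (le_of_eq (vc_succ_eq h)), vc_succ_eq h, ih, h]
    · have h1 : ¬ vc S G (t + 1) g x ≤ vc S G t (S.par t g) x := by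
        rw [vc_succ_ne h]
        omega
      rw [ver, if_neg h1, if_pos le_rfl, gd_pos G (Nat.succ_le_succ (Nat.zero_le t))]

/-- the number of changes at a sample point is the number of moves -/
theorem vc_sum (t : ℕ) (w : Om) : (vc S G t (S.gm t w) (S.x w) : ℝ) =
    ∑ i ∈ range t, ind (gd G (i + 1) (S.gm (i + 1) w) (S.x w) ≠ gd G i (S.gm i w) (S.x w)) := by
  induction t with
  | zero => simp [vc]
  | succ t ih =>
    rw [Finset.sum_range_succ, ← ih]
    by_cases h : gd G (t + 1) (S.gm (t + 1) w) (S.x w) = gd G t (S.gm t w) (S.x w)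
    · have h1 : gd G (t + 1) (S.gm (t + 1) w) (S.x w) = gd G t (S.par t (S.gm (t + 1) w)) (S.x w) := by
        rw [S.par_gm]; exact h
      rw [vc_succ_eq h1, S.par_gm, ind_not (fun h2 => h2 h), add_zero]
    · have h1 : ¬ gd G (t + 1) (S.gm (t + 1) w) (S.x w) = gd G t (S.par t (S.gm (t + 1) w)) (S.x w) := by
        rw [S.par_gm]; exact h
      rw [vc_succ_ne h1, S.par_gm, ind_of h]
      push_cast
      rfl

end basic

/-! ### the versions as numbered functions -/

variable {S}

/-- the versions divided by `M` -/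
def vNum {G : Fn ι Pt V Γ} {I : Finset ι} (hG : ∀ t g, Dep I (G t g)) {M : ℝ} (hM : 0 < M)
    (hM' : ∀ t g x d, |G t g x d| ≤ M) : NumF S ℕ I where
  inn v t g x := v ≤ vc S G t g x
  f v t g x d := M⁻¹ * ver S G v t g x d
  inn_dep v t g := fun x y h => by
    show (v ≤ vc S G t g x) = (v ≤ vc S G t g y)
    rw [vc_dep hG t g x y h]
  f_dep v t g := fun x y h => by
    funext d
    show M⁻¹ * ver S G v t g x d = M⁻¹ * ver S G v t g y d
    rw [ver_dep hG v t g x y h]
  le1 v t g x d := by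
    rw [abs_mul, abs_of_pos (inv_pos.2 hM), inv_mul_le_iff₀ hM, mul_one]
    exact abs_ver hM.le hM' v t g x d
  zero v t g x h := by
    funext d
    show M⁻¹ * ver S G v t g x d = 0
    rw [ver_zero_of v t g x h]
    simp
  keep v t g x h := h.trans (vc_mono t g x)
  stat v t g x h := by
    funext d
    show M⁻¹ * ver S G v (t + 1) g x d = M⁻¹ * ver S G v t (S.par t g) x d
    rw [ver_stat h]

/-- the list of the versions -/
def vLs (S : Sys ι Om Ξ Pt V Γ κ) (G : Fn ι Pt V Γ) (t : ℕ) (g : Γ) (x : ι → Pt) : Finset ℕ := range (vc S G t g x + 1)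

theorem vLs_dep {G : Fn ι Pt V Γ} {I : Finset ι} (hG : ∀ t g, Dep I (G t g)) (t : ℕ) (g : Γ) : Dep I (vLs S G t g) :=
  fun x y h => by
    unfold vLs
    rw [vc_dep hG t g x y h]

theorem vLs_mono {G : Fn ι Pt V Γ} (t : ℕ) (g : Γ) (x : ι → Pt) : vLs S G t (S.par t g) x ⊆ vLs S G (t + 1) g x :=
  Finset.range_mono (Nat.succ_le_succ (vc_mono t g x))

theorem card_vLs (G : Fn ι Pt V Γ) (t : ℕ) (g : Γ) (x : ι → Pt) : (vLs S G t g x).card = vc S G t g x + 1 :=
  Finset.card_range _

/-- the coefficient of a version -/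
def vCo (M : ℝ) (Λ : Finset ℕ) (v : ℕ) : ℝ := if v + 1 = Λ.card then M else 0

theorem vCo_vLs (G : Fn ι Pt V Γ) (M : ℝ) (t : ℕ) (g : Γ) (x : ι → Pt) (v : ℕ) :
    vCo M (vLs S G t g x) v = if v = vc S G t g x then M else 0 := by
  unfold vCo
  rw [card_vLs]
  by_cases h : v = vc S G t g x
  · rw [if_pos h, if_pos (by omega)]
  · rw [if_neg h, if_neg (by omega)]

/-- the sum over the versions is the function -/
theorem vsum {G : Fn ι Pt V Γ} {I : Finset ι} (hG : ∀ t g, Dep I (G t g)) {M : ℝ} (hM : 0 < M)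
    (hM' : ∀ t g x d, |G t g x d| ≤ M) (t : ℕ) (g : Γ) (x : ι → Pt) (d : V) :
    ∑ v ∈ vLs S G t g x, vCo M (vLs S G t g x) v * (vNum (S := S) hG hM hM').f v t g x d = gd G t g x d := by
  rw [Finset.sum_eq_single (vc S G t g x)]
  · rw [vCo_vLs, if_pos rfl]
    show M * (M⁻¹ * ver S G (vc S G t g x) t g x d) = _
    rw [ver_vc, ← mul_assoc, mul_inv_cancel₀ hM.ne', one_mul]
  · intro v _ hv
    rw [vCo_vLs, if_neg hv, zero_mul]
  · intro h
    exact absurd (Finset.mem_range.2 (Nat.lt_succ_self _)) h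

theorem vsum_abs (G : Fn ι Pt V Γ) {M : ℝ} (hM : 0 ≤ M) (t : ℕ) (g : Γ) (x : ι → Pt) :
    ∑ v ∈ vLs S G t g x, |vCo M (vLs S G t g x) v| = M := by
  rw [Finset.sum_eq_single (vc S G t g x)]
  · rw [vCo_vLs, if_pos rfl, abs_of_nonneg hM]
  · intro v _ hv
    rw [vCo_vLs, if_neg hv, abs_zero]
  · intro h
    exact absurd (Finset.mem_range.2 (Nat.lt_succ_self _)) h

end

end Pool.Agent.GMN
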