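import Pool.Agent.GMN.TjDef

/-!
# GMN/Vis (helper4): THE COMPATIBILITY LEMMA (row N, section 8; `Sys.cnt` for all times at once)

`q t g ξ x` = a property of the exact vertices off `u, v`, of the CELL of `x v` and of the coins (`DepC`).

* `Cmp S v t w w'` : `w'` shows a cell of the vertex `v` which is compatible with the cells of the other vertices and the
  node of `w`;
* `vis_le` : `P(some compatible cell of x v has q at some time ≤ T) ≤ K * P(the true cell has q at some time ≤ T)`.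
  The vertex `u` is free: it is essential that `q` does not see `x u` (not even its cell).

Applications: mean size of public sets on the face without `v`, weak type bound for the records of a client, size of the
record which the owner of a reference sees.
-/

set_option autoImplicit false
set_option linter.unusedSectionVars false

namespace Pool.Agent.GMN

open Finset Pool.Agent.PWZ Pool.Agent.M3 Pool.Agent.M3.TS Pool.Agent.GM

noncomputable section

section fib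

variable {Om τ : Type*} [Fintype Om] (P : FP Om)

/-- probability by the fibres of a map -/
theorem Pr_fib (Φ : Om → τ) [DecidableEq τ] (E : Om → Prop) :
    P.Pr E = ∑ φ ∈ univ.image Φ, P.Pr (fun w => Φ w = φ ∧ E w) := by
  unfold FP.Pr
  rw [← P.E_sum]
  refine P.E_congr fun w _ => ?_
  rw [Finset.sum_eq_single (Φ w)]
  · by_cases h : E w
    · rw [ind_of h, ind_of ⟨rfl, h⟩]
    · rw [ind_not h, ind_not fun h' => h h'.2]
  · intro o _ ho
    exact ind_not fun h => ho h.1.symm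
  · exact fun h => absurd (Finset.mem_image_of_mem _ (mem_univ w)) h

/-- comparison of two events fibre by fibre -/
theorem Pr_le_fib (Φ : Om → τ) {E F : Om → Prop} {C : ℝ}
    (h : ∀ w0, P.Pr (fun w => Φ w = Φ w0 ∧ E w) ≤ C * P.Pr (fun w => Φ w = Φ w0 ∧ F w)) :
    P.Pr E ≤ C * P.Pr F := by
  classical
  rw [Pr_fib P Φ E, Pr_fib P Φ F, Finset.mul_sum]
  refine Finset.sum_le_sum fun φ hφ => ?_
  obtain ⟨w0, _, rfl⟩ := Finset.mem_image.1 hφ
  exact h w0

theorem Pr_false : P.Pr (fun _ => False) = 0 := by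
  unfold FP.Pr
  have : (fun _ : Om => ind False) = fun _ => (0 : ℝ) := funext fun _ => ind_not fun h => h
  rw [this, P.E_const]

end fib

variable {ι Om Ξ Pt V Γ κ : Type} [Fintype ι] [DecidableEq ι] [Fintype Om] [Fintype Ξ] [Fintype Pt]
  [Fintype V] (S : Sys ι Om Ξ Pt V Γ κ)

/-- the coins are independent of (all vertices, node) -/
theorem Pr_xi (t : ℕ) (g : Γ) (ξ : Ξ) (E : (ι → Pt) → Prop) :
    S.P.Pr (fun w => S.xi w = ξ ∧ S.gm t w = g ∧ E (S.x w)) =
      S.P.Pr (fun w => S.gm t w = g ∧ E (S.x w)) / Fintype.card Ξ := by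
  classical
  rw [Pr_fib S.P S.x (fun w => S.xi w = ξ ∧ S.gm t w = g ∧ E (S.x w)),
    Pr_fib S.P S.x (fun w => S.gm t w = g ∧ E (S.x w)), Finset.sum_div]
  refine Finset.sum_congr rfl fun y _ => ?_
  by_cases hy : E y
  · have h1 := S.lxi t g ξ y
    have e1 : S.P.Pr (fun w => S.x w = y ∧ S.xi w = ξ ∧ S.gm t w = g ∧ E (S.x w)) =
        S.P.Pr (fun w => S.xi w = ξ ∧ S.x w = y ∧ S.gm t w = g) := by
      refine S.P.Pr_congr fun w _ => ?_
      constructor
      · rintro ⟨a, b, c, _⟩; exact ⟨b, a, c⟩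
      · rintro ⟨b, a, c⟩; exact ⟨a, b, c, by rw [a]; exact hy⟩
    have e2 : S.P.Pr (fun w => S.x w = y ∧ S.gm t w = g ∧ E (S.x w)) =
        S.P.Pr (fun w => S.x w = y ∧ S.gm t w = g) := by
      refine S.P.Pr_congr fun w _ => ?_
      constructor
      · rintro ⟨a, c, _⟩; exact ⟨a, c⟩
      · rintro ⟨a, c⟩; exact ⟨a, c, by rw [a]; exact hy⟩
    rw [e1, e2, h1]
  · have e1 : S.P.Pr (fun w => S.x w = y ∧ S.xi w = ξ ∧ S.gm t w = g ∧ E (S.x w)) = 0 := by
      rw [← Pr_false S.P]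
      refine S.P.Pr_congr fun w _ => ?_
      constructor
      · rintro ⟨a, _, _, d⟩; exact hy (by rw [← a]; exact d)
      · exact fun h => h.elim
    have e2 : S.P.Pr (fun w => S.x w = y ∧ S.gm t w = g ∧ E (S.x w)) = 0 := by
      rw [← Pr_false S.P]
      refine S.P.Pr_congr fun w _ => ?_
      constructor
      · rintro ⟨a, _, d⟩; exact hy (by rw [← a]; exact d)
      · exact fun h => h.elim
    rw [e1, e2, zero_div]

/-- `w'` shows a cell of `v` which is compatible with the other cells and the node of `w` -/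
def Cmp (v : ι) (t : ℕ) (w w' : Om) : Prop :=
  (∀ i, i ≠ v → S.cl t (S.x w' i) = S.cl t (S.x w i)) ∧ S.gm t w' = S.gm t w

variable {S}

theorem Cmp.refl (v : ι) (t : ℕ) (w : Om) : Cmp S v t w w := ⟨fun _ _ => rfl, rfl⟩

theorem Cmp.le {v : ι} {s t : ℕ} (hst : s ≤ t) {w w' : Om} (h : Cmp S v t w w') : Cmp S v s w w' :=
  ⟨fun i hi => S.cl_le hst (h.1 i hi), S.gm_le hst h.2⟩

theorem Cmp.symm {v : ι} {t : ℕ} {w w' : Om} (h : Cmp S v t w w') : Cmp S v t w' w :=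
  ⟨fun i hi => (h.1 i hi).symm, h.2.symm⟩

/-- a compatible cell put into the point -/
def shw (S : Sys ι Om Ξ Pt V Γ κ) (v : ι) (w w' : Om) : ι → Pt := Function.update (S.x w) v (S.x w' v)

theorem shw_self (v : ι) (w : Om) : shw S v w w = S.x w := Function.update_eq_self _ _

theorem shw_v (v : ι) (w w' : Om) : shw S v w w' v = S.x w' v := Function.update_self _ _ _

theorem shw_ne {v i : ι} (h : i ≠ v) (w w' : Om) : shw S v w w' i = S.x w i := Function.update_of_ne h _ _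

/-- one cell, one time, coins: `Sys.cnt` -/
theorem cnt_xi {u v : ι} (huv : u ≠ v) (t : ℕ) (w0 : Om) (β : κ) :
    S.P.Pr (fun w => (S.xi w = S.xi w0 ∧ (∀ i, i ≠ u → i ≠ v → S.x w i = S.x w0 i) ∧ S.gm t w = S.gm t w0) ∧
      ∃ w', Cmp S v t w w' ∧ S.cl t (S.x w' v) = β) ≤
    S.K * S.P.Pr (fun w => (S.xi w = S.xi w0 ∧ (∀ i, i ≠ u → i ≠ v → S.x w i = S.x w0 i) ∧ S.gm t w = S.gm t w0) ∧
      S.cl t (S.x w v) = β) := by
  classical
  set A : Finset ι := (univ.erase u).erase v with hA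
  have hmem : ∀ i, i ∈ A ↔ i ≠ u ∧ i ≠ v := by
    intro i
    rw [hA, mem_erase, mem_erase]
    simp [and_comm]
  have h1 := S.cnt t (S.gm t w0) A (S.x w0) v β (by rw [hmem]; simp) ⟨u, huv, by rw [hmem]; simp⟩
  set E1 : (ι → Pt) → Prop := fun y => (∀ i ∈ A, y i = S.x w0 i) ∧
    ∃ w', (∀ i, i ≠ v → S.cl t (S.x w' i) = S.cl t (y i)) ∧ S.gm t w' = S.gm t w0 ∧ S.cl t (S.x w' v) = β with hE1
  set E2 : (ι → Pt) → Prop := fun y => (∀ i ∈ A, y i = S.x w0 i) ∧ S.cl t (y v) = β with hE2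
  have e1 : S.P.Pr (fun w => (S.xi w = S.xi w0 ∧ (∀ i, i ≠ u → i ≠ v → S.x w i = S.x w0 i) ∧
      S.gm t w = S.gm t w0) ∧ ∃ w', Cmp S v t w w' ∧ S.cl t (S.x w' v) = β) =
      S.P.Pr (fun w => S.xi w = S.xi w0 ∧ S.gm t w = S.gm t w0 ∧ E1 (S.x w)) := by
    refine S.P.Pr_congr fun w _ => ?_
    constructor
    · rintro ⟨⟨a, b, c⟩, w', ⟨d, e⟩, f⟩
      exact ⟨a, c, fun i hi => b i ((hmem i).1 hi).1 ((hmem i).1 hi).2, w', d, e.trans c, f⟩
    · rintro ⟨a, c, b, w', d, e, f⟩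
      exact ⟨⟨a, fun i hi hi' => b i ((hmem i).2 ⟨hi, hi'⟩), c⟩, w', ⟨d, e.trans c.symm⟩, f⟩
  have e2 : S.P.Pr (fun w => (S.xi w = S.xi w0 ∧ (∀ i, i ≠ u → i ≠ v → S.x w i = S.x w0 i) ∧
      S.gm t w = S.gm t w0) ∧ S.cl t (S.x w v) = β) =
      S.P.Pr (fun w => S.xi w = S.xi w0 ∧ S.gm t w = S.gm t w0 ∧ E2 (S.x w)) := by
    refine S.P.Pr_congr fun w _ => ?_
    constructor
    · rintro ⟨⟨a, b, c⟩, f⟩
      exact ⟨a, c, fun i hi => b i ((hmem i).1 hi).1 ((hmem i).1 hi).2, f⟩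
    · rintro ⟨a, c, b, f⟩
      exact ⟨⟨a, fun i hi hi' => b i ((hmem i).2 ⟨hi, hi'⟩), c⟩, f⟩
  have e3 : S.P.Pr (fun w => S.gm t w = S.gm t w0 ∧ E1 (S.x w)) ≤
      S.P.Pr (fun w => (∀ i ∈ A, S.x w i = S.x w0 i) ∧ S.gm t w = S.gm t w0 ∧
      ∃ w', (∀ i ∈ A, S.cl t (S.x w' i) = S.cl t (S.x w0 i)) ∧ S.cl t (S.x w' v) = β ∧
        (∀ i, i ∉ A → i ≠ v → S.cl t (S.x w' i) = S.cl t (S.x w i)) ∧ S.gm t w' = S.gm t w0) := by
    refine S.P.Pr_mono fun w _ h => ?_
    obtain ⟨c, b, w', d, e, f⟩ := h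
    refine ⟨b, c, w', fun i hi => ?_, f, fun i _ hi => d i hi, e⟩
    rw [d i ((hmem i).1 hi).2, b i hi]
  have e4 : S.P.Pr (fun w => (∀ i ∈ A, S.x w i = S.x w0 i) ∧ S.gm t w = S.gm t w0 ∧ S.cl t (S.x w v) = β) =
      S.P.Pr (fun w => S.gm t w = S.gm t w0 ∧ E2 (S.x w)) := by
    refine S.P.Pr_congr fun w _ => ?_
    constructor
    · rintro ⟨a, b, c⟩; exact ⟨b, a, c⟩
    · rintro ⟨b, a, c⟩; exact ⟨a, b, c⟩
  rw [e1, e2, Pr_xi, Pr_xi, ← mul_div_assoc]
  have h2 : S.P.Pr (fun w => S.gm t w = S.gm t w0 ∧ E1 (S.x w)) ≤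
      S.K * S.P.Pr (fun w => S.gm t w = S.gm t w0 ∧ E2 (S.x w)) := by
    rw [← e4]
    exact e3.trans h1
  exact div_le_div_of_nonneg_right h2 (Nat.cast_nonneg _)

/-- a property of the exact vertices off `u, v` and of the cell of `v` -/
abbrev DepUV (S : Sys ι Om Ξ Pt V Γ κ) (u v : ι) {β : Type} (t : ℕ) (f : (ι → Pt) → β) : Prop :=
  DepC S t ((univ.erase u).erase v) {v} f

theorem DepUV.val_eq {u v : ι} {β : Type} {t : ℕ} {f : (ι → Pt) → β} (h : DepUV S u v t f) {x y : ι → Pt}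
    (h1 : ∀ i, i ≠ u → i ≠ v → x i = y i) (h2 : S.cl t (x v) = S.cl t (y v)) : f x = f y := by
  refine h x y (fun i hi => ?_) fun i hi => ?_
  · rw [mem_erase, mem_erase] at hi
    exact h1 i hi.2.1 hi.1
  · rw [mem_singleton] at hi
    rw [hi]; exact h2

/-- one time: compatible cells against the true cell -/
theorem vis_one {u v : ι} (huv : u ≠ v) (t : ℕ) {q : Γ → Ξ → (ι → Pt) → Prop}
    (hq : ∀ g ξ, DepUV S u v t (q g ξ)) :
    S.P.Pr (fun w => ∃ w', Cmp S v t w w' ∧ q (S.gm t w) (S.xi w) (shw S v w w')) ≤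
      S.K * S.P.Pr (fun w => q (S.gm t w) (S.xi w) (S.x w)) := by
  classical
  -- by the cell of `v`
  set cells : Finset κ := univ.image (fun w => S.cl t (S.x w v)) with hcells
  have h1 : S.P.Pr (fun w => ∃ w', Cmp S v t w w' ∧ q (S.gm t w) (S.xi w) (shw S v w w')) ≤
      ∑ β ∈ cells, S.P.Pr (fun w => ∃ w', Cmp S v t w w' ∧ S.cl t (S.x w' v) = β ∧
        q (S.gm t w) (S.xi w) (shw S v w w')) := by
    refine le_trans (S.P.Pr_mono fun w _ h => ?_) (S.P.Pr_ex_le cells fun β w => ∃ w', Cmp S v t w w' ∧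
      S.cl t (S.x w' v) = β ∧ q (S.gm t w) (S.xi w) (shw S v w w'))
    obtain ⟨w', a, b⟩ := h
    exact ⟨S.cl t (S.x w' v), Finset.mem_image_of_mem _ (mem_univ w'), w', a, rfl, b⟩
  have h2 : S.P.Pr (fun w => q (S.gm t w) (S.xi w) (S.x w)) =
      ∑ β ∈ cells, S.P.Pr (fun w => S.cl t (S.x w v) = β ∧ q (S.gm t w) (S.xi w) (S.x w)) :=
    Pr_fib S.P (fun w => S.cl t (S.x w v)) _
  rw [h2, Finset.mul_sum]
  refine h1.trans (Finset.sum_le_sum fun β _ => ?_)
  -- by the fibres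
  refine Pr_le_fib S.P (fun w => (S.xi w, (fun i : {i // i ≠ u ∧ i ≠ v} => S.x w i.1), S.gm t w)) fun w0 => ?_
  have hfib : ∀ w, ((S.xi w, (fun i : {i // i ≠ u ∧ i ≠ v} => S.x w i.1), S.gm t w) =
      (S.xi w0, (fun i : {i // i ≠ u ∧ i ≠ v} => S.x w0 i.1), S.gm t w0)) ↔
      (S.xi w = S.xi w0 ∧ (∀ i, i ≠ u → i ≠ v → S.x w i = S.x w0 i) ∧ S.gm t w = S.gm t w0) := by
    intro w
    rw [Prod.ext_iff, Prod.ext_iff]
    refine and_congr Iff.rfl (and_congr ?_ Iff.rfl)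
    constructor
    · intro h i hi hi'
      exact congrFun h ⟨i, hi, hi'⟩
    · intro h
      funext i
      exact h i.1 i.2.1 i.2.2
  -- is there a point of the fibre with the property and the cell `β`
  by_cases hx : ∃ z : Pt, S.cl t z = β ∧ q (S.gm t w0) (S.xi w0) (Function.update (S.x w0) v z)
  · obtain ⟨z, hz, hqz⟩ := hx
    have h3 := cnt_xi (S := S) huv t w0 β
    refine le_trans (S.P.Pr_mono fun w _ h => ?_) (h3.trans (mul_le_mul_of_nonneg_left
      (S.P.Pr_mono fun w _ h => ?_) (le_trans zero_le_one S.K1)))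
    · exact ⟨(hfib w).1 h.1, h.2.imp fun w' h' => ⟨h'.1, h'.2.1⟩⟩
    · obtain ⟨⟨a, b, c⟩, d⟩ := h
      refine ⟨(hfib w).2 ⟨a, b, c⟩, d, ?_⟩
      rw [a, c]
      have h4 := DepUV.val_eq (hq (S.gm t w0) (S.xi w0)) (x := S.x w) (y := Function.update (S.x w0) v z)
        (fun i hi hi' => by rw [Function.update_of_ne hi']; exact b i hi hi')
        (by rw [Function.update_self, hz]; exact d)
      rw [h4]
      exact hqz
  · have h3 : S.P.Pr (fun w => (S.xi w, (fun i : {i // i ≠ u ∧ i ≠ v} => S.x w i.1), S.gm t w) =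
        (S.xi w0, (fun i : {i // i ≠ u ∧ i ≠ v} => S.x w0 i.1), S.gm t w0) ∧
        ∃ w', Cmp S v t w w' ∧ S.cl t (S.x w' v) = β ∧ q (S.gm t w) (S.xi w) (shw S v w w')) ≤
        S.P.Pr (fun _ => False) := by
      refine S.P.Pr_mono fun w _ h => ?_
      obtain ⟨h1, w', _, h5, h6⟩ := h
      obtain ⟨a, b, c⟩ := (hfib w).1 h1
      apply hx
      refine ⟨S.x w' v, h5, ?_⟩
      rw [a, c] at h6
      have h4 := DepUV.val_eq (hq (S.gm t w0) (S.xi w0)) (x := Function.update (S.x w0) v (S.x w' v))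
        (y := shw S v w w') (fun i hi hi' => by rw [Function.update_of_ne hi', shw_ne hi']; exact (b i hi hi').symm)
        (by rw [Function.update_self, shw_v])
      rw [h4]
      exact h6
    rw [Pr_false] at h3
    refine h3.trans (mul_nonneg (le_trans zero_le_one S.K1) (S.P.Pr_nonneg _))

/-- **THE COMPATIBILITY LEMMA**: all times at once -/
theorem vis_le {u v : ι} (huv : u ≠ v) (T : ℕ) {q : ℕ → Γ → Ξ → (ι → Pt) → Prop}
    (hq : ∀ t g ξ, DepUV S u v t (q t g ξ)) :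
    S.P.Pr (fun w => ∃ t ≤ T, ∃ w', Cmp S v t w w' ∧ q t (S.gm t w) (S.xi w) (shw S v w w')) ≤
      S.K * S.P.Pr (fun w => ∃ t ≤ T, q t (S.gm t w) (S.xi w) (S.x w)) := by
  classical
  -- the first time along the branch of the cell
  set F : ℕ → Γ → Ξ → (ι → Pt) → Prop := fun t g ξ x => q t g ξ x ∧ ∀ s < t, ¬ q s (S2.anc S.par t g s) ξ x with hF
  have hFd : ∀ t g ξ, DepUV S u v t (F t g ξ) := by
    intro t g ξ x y hA hv
    simp only [hF]
    rw [hq t g ξ x y hA hv]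
    refine congrArg _ (propext (forall_congr' fun s => forall_congr' fun hs => ?_))
    rw [hq s _ ξ x y hA fun i hi => S.cl_le hs.le (hv i hi)]
  have h1 : S.P.Pr (fun w => ∃ t ≤ T, ∃ w', Cmp S v t w w' ∧ q t (S.gm t w) (S.xi w) (shw S v w w')) ≤
      ∑ t ∈ range (T + 1), S.P.Pr (fun w => ∃ w', Cmp S v t w w' ∧ F t (S.gm t w) (S.xi w) (shw S v w w')) := by
    refine le_trans (S.P.Pr_mono fun w _ h => ?_) (S.P.Pr_ex_le (range (T + 1)) fun t w => ∃ w', Cmp S v t w w' ∧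
      F t (S.gm t w) (S.xi w) (shw S v w w'))
    obtain ⟨t, ht, w', hc, hqt⟩ := h
    have hex : ∃ s, q s (S.gm s w) (S.xi w) (shw S v w w') := ⟨t, hqt⟩
    have hmin := Nat.find_min' hex hqt
    refine ⟨Nat.find hex, mem_range.2 (by omega), w', hc.le hmin, Nat.find_spec hex, fun s hs => ?_⟩
    rw [S.anc_gm hs.le]
    exact Nat.find_min hex hs
  refine h1.trans ?_
  have h2 : ∑ t ∈ range (T + 1), S.P.Pr (fun w => ∃ w', Cmp S v t w w' ∧ F t (S.gm t w) (S.xi w) (shw S v w w')) ≤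
      ∑ t ∈ range (T + 1), S.K * S.P.Pr (fun w => F t (S.gm t w) (S.xi w) (S.x w)) :=
    Finset.sum_le_sum fun t _ => vis_one huv t (hFd t)
  refine h2.trans ?_
  rw [← Finset.mul_sum]
  refine mul_le_mul_of_nonneg_left ?_ (le_trans zero_le_one S.K1)
  unfold FP.Pr
  rw [← S.P.E_sum]
  refine S.P.E_mono fun w _ => ?_
  by_cases he : ∃ t ∈ range (T + 1), F t (S.gm t w) (S.xi w) (S.x w)
  · obtain ⟨t, ht, hf⟩ := he
    have ht' := mem_range.1 ht
    rw [ind_of (show ∃ t ≤ T, q t (S.gm t w) (S.xi w) (S.x w) from ⟨t, by omega, hf.1⟩)]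
    rw [Finset.sum_eq_single_of_mem t ht]
    · exact ind_le_one _
    · intro s _ hst
      apply ind_not
      intro hfs
      rcases lt_or_gt_of_ne hst with h | h
      · exact hf.2 s h (by rw [S.anc_gm h.le]; exact hfs.1)
      · exact hfs.2 t h (by rw [S.anc_gm h.le]; exact hf.1)
  · have : ∀ t ∈ range (T + 1), ind (F t (S.gm t w) (S.xi w) (S.x w)) = 0 := fun t ht => ind_not fun hf => he ⟨t, ht, hf⟩
    rw [Finset.sum_eq_zero this]
    exact ind_nonneg _

end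

end Pool.Agent.GMN
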